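import Pool.Agent.Lib.MP_cb9dee_al.Defs

namespace Pool.Agent.Lib.MP_cb9dee_al

open Subgroup SemidirectProduct Multiplicative

section aff
variable {R : Type} [CommRing R] {D : Type} [CommGroup D]

/-- Units act on the additive group by multiplication. -/
def unitAut (R : Type) [CommRing R] : Rˣ →* MulAut (Multiplicative R) where
  toFun u := AddEquiv.toMultiplicative (DistribMulAction.toAddEquiv R u)
  map_one' := by ext x; simp
  map_mul' u v := by ext x; simp [mul_smul]

lemma unitAut_apply (u : Rˣ) (x : Multiplicative R) : toAdd (unitAut R u x) = u * toAdd x := rfl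

/-- The affine group attached to a character. -/
abbrev Aff (χ : D →* Rˣ) : Type := Multiplicative R ⋊[(unitAut R).comp χ] D

lemma aff_pow (χ : D →* Rˣ) (x : Aff χ) (d : ℕ) :
    toAdd (x ^ d).left = (∑ i ∈ Finset.range d, (χ x.right : R) ^ i) * toAdd x.left ∧
      (x ^ d).right = x.right ^ d := by
  induction d with
  | zero => simp
  | succ d ih =>
    rw [pow_succ, mul_left, mul_right, ih.2, pow_succ, toAdd_mul, ih.1, Finset.sum_range_succ,
      add_mul, MonoidHom.comp_apply, unitAut_apply, map_pow, Units.val_pow_eq_pow_val]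
    exact ⟨rfl, rfl⟩

lemma aff_pow_eq_one (χ : D →* Rˣ) (x : Aff χ) (d : ℕ) : x ^ d = 1 ↔
    x.right ^ d = 1 ∧ (∑ i ∈ Finset.range d, (χ x.right : R) ^ i) * toAdd x.left = 0 := by
  rw [SemidirectProduct.ext_iff, ← (aff_pow χ x d).1, (aff_pow χ x d).2, and_comm]
  rfl

lemma conformal_aff (χ χ' : D →* Rˣ) (h : ∀ (g : D) (d : ℕ), g ^ d = 1 → ∀ v : R,
    (∑ i ∈ Finset.range d, (χ g : R) ^ i) * v = 0 ↔
      (∑ i ∈ Finset.range d, (χ' g : R) ^ i) * v = 0) : Conformal (Aff χ) (Aff χ') := by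
  intro d _
  let e : Aff χ ≃ Aff χ' := ⟨fun x => ⟨x.left, x.right⟩, fun x => ⟨x.left, x.right⟩,
    fun _ => rfl, fun _ => rfl⟩
  refine Nat.card_congr (e.subtypeEquiv fun x => ?_)
  rw [aff_pow_eq_one, aff_pow_eq_one]
  exact and_congr_right fun h1 => h _ _ h1 _

lemma aff_conj (χ : D →* Rˣ) (x : Aff χ) (v : R) :
    x * inl (ofAdd v) * x⁻¹ = inl (ofAdd ((χ x.right : R) * v)) := by
  rw [mul_inv_eq_iff_eq_mul]
  ext
  · apply toAdd.injective
    simp [unitAut_apply, add_comm]
  · simp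

lemma theta_of_iso [Finite R] (χ χ' : D →* Rˣ) (Φ : Aff χ ≃* Aff χ') (g : D)
    (hu : IsUnit ((χ g : R) - 1)) :
    ∃ (θ : R →+ R) (g' : D), Function.Surjective θ ∧ ∀ v, θ (χ g * v) = χ' g' * θ v := by
  have h1 : ∀ v : R, (Φ (inl (ofAdd v))).right = 1 := by
    intro v
    obtain ⟨w, rfl⟩ : ∃ w, v = (χ g : R) * w + -w := by
      obtain ⟨c, hc⟩ := hu.exists_right_inv
      exact ⟨c * v, by linear_combination -v * hc⟩
    have := aff_conj χ (inr g) w
    rw [right_inr] at this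
    rw [ofAdd_add, map_mul, ← this, ofAdd_neg]
    simp
  have h2 : ∀ v : R, Φ (inl (ofAdd v)) = inl (Φ (inl (ofAdd v))).left := fun v =>
    SemidirectProduct.ext rfl (h1 v)
  let θ : R →+ R :=
    { toFun := fun v => toAdd (Φ (inl (ofAdd v))).left
      map_zero' := by simp
      map_add' := fun v w => by
        rw [ofAdd_add, map_mul, map_mul, mul_left, h1]
        simp }
  refine ⟨θ, (Φ (inr g)).right, Finite.injective_iff_surjective.1 fun v w h => ?_, fun v => ?_⟩
  · have : Φ (inl (ofAdd v)) = Φ (inl (ofAdd w)) := by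
      rw [h2 v, h2 w]
      exact congrArg inl (toAdd.injective h)
    exact ofAdd.injective (inl_injective (Φ.injective this))
  · have := aff_conj χ (inr g) v
    rw [right_inr] at this
    change toAdd (Φ (inl (ofAdd _))).left = _
    rw [← this, map_mul, map_mul, map_inv, h2 v]
    exact congrArg (fun x => toAdd x.left) (aff_conj χ' (Φ (inr g)) (θ v))

end aff

lemma exists_char {U : Type} [Group U] (M : ℕ) (u : U) (hu : orderOf u ∣ M) :
    ∃ χ : Multiplicative (ZMod M) →* U, χ (ofAdd 1) = u := by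
  have hg : ∀ x : Multiplicative (ZMod M), x ∈ zpowers (ofAdd (1 : ZMod M)) := fun x =>
    ⟨(ZMod.cast (toAdd x) : ℤ), by
      apply toAdd.injective
      simp⟩
  exact ⟨monoidHomOfForallMemZpowers hg (by rwa [orderOf_ofAdd_eq_addOrderOf, ZMod.addOrderOf_one]),
    monoidHomOfForallMemZpowers_apply_gen _ _⟩

lemma exists_pow_zmod {M : ℕ} (hM : M ≠ 0) (x : Multiplicative (ZMod M)) :
    ∃ j : ℕ, x = ofAdd (1 : ZMod M) ^ j := by
  have : NeZero M := ⟨hM⟩
  exact ⟨(toAdd x).val, by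
    apply toAdd.injective
    simp⟩

lemma geom_eq_zero {K : Type} [Field K] {μ : K} (h1 : μ ≠ 1) {d : ℕ} (h : μ ^ d = 1) :
    ∑ i ∈ Finset.range d, μ ^ i = 0 := by
  rw [geom_sum_eq h1, h, sub_self, zero_div]

theorem not_rigid_frob {K L : Type} [Field K] [Field L] [Finite K] [Finite L] {m M : ℕ}
    (a : Kˣ) (b : Lˣ) (ha : orderOf a = m) (hb : orderOf b = m) (h2 : m.Coprime 2) (h1 : m ≠ 1)
    (hM : M ≠ 0) (hm : m ∣ M)
    (h : ∀ (θ : K × L →+ K × L) (j : ℕ), Function.Surjective θ →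
      ¬ ∀ v, θ (((a : K), (b : L)) * v) = ((a : K) ^ j, ((b : L) ^ j) ^ 2) * θ v) :
    ¬ Rigid (Nat.card K * Nat.card L * M) := by
  intro hr
  obtain ⟨χ, hχ⟩ := exists_char M a (ha ▸ hm)
  obtain ⟨ψ, hψ⟩ := exists_char M b (hb ▸ hm)
  let A : Multiplicative (ZMod M) →* (K × L)ˣ :=
    (MulEquiv.prodUnits (M := K) (N := L)).symm.toMonoidHom.comp (χ.prod ψ)
  let B : Multiplicative (ZMod M) →* (K × L)ˣ :=
    (MulEquiv.prodUnits (M := K) (N := L)).symm.toMonoidHom.comp (χ.prod (ψ * ψ))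
  have hA : ∀ g, (A g : K × L) = ((χ g : K), (ψ g : L)) := fun _ => rfl
  have hB : ∀ g, (B g : K × L) = ((χ g : K), (ψ g : L) ^ 2) := fun _ => by rw [pow_two]; rfl
  have hc : ∀ C : Multiplicative (ZMod M) →* (K × L)ˣ,
      Nat.card (Aff C) = Nat.card K * Nat.card L * M := fun C => by
    rw [SemidirectProduct.card, Nat.card_congr toAdd, Nat.card_congr toAdd, Nat.card_prod,
      Nat.card_zmod]
  obtain ⟨Φ⟩ := hr (Aff A) (Aff B) (hc A) (hc B) (conformal_aff A B fun g d hd v => by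
    suffices e : ∑ i ∈ Finset.range d, (A g : K × L) ^ i =
        ∑ i ∈ Finset.range d, (B g : K × L) ^ i by rw [e]
    ext
    · simp [hA, hB, Prod.fst_sum]
    · simp only [hA, hB, Prod.snd_sum, Prod.pow_snd]
      by_cases k : (ψ g : L) = 1
      · simp [k]
      have k1 : (ψ g : L) ^ d = 1 := by
        rw [← Units.val_pow_eq_pow_val, ← map_pow, hd, map_one, Units.val_one]
      rw [geom_eq_zero k k1, geom_eq_zero _ (by rw [← pow_mul, mul_comm, pow_mul, k1, one_pow])]
      intro k2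
      obtain ⟨j, rfl⟩ := exists_pow_zmod hM g
      rw [map_pow, hψ, ← Units.val_pow_eq_pow_val, Units.val_eq_one, ← pow_mul,
        ← orderOf_dvd_iff_pow_eq_one, hb, h2.dvd_mul_right] at k2
      rw [map_pow, hψ, Units.val_eq_one, ← orderOf_dvd_iff_pow_eq_one, hb] at k
      exact k k2)
  obtain ⟨θ, g, s, e⟩ := theta_of_iso A B Φ (ofAdd 1) (by
    rw [hA, hχ, hψ, Prod.isUnit_iff]
    constructor
    · refine IsUnit.mk0 _ (sub_ne_zero.2 fun e => h1 ?_)
      rw [← ha, orderOf_eq_one_iff]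
      exact Units.val_eq_one.1 e
    · refine IsUnit.mk0 _ (sub_ne_zero.2 fun e => h1 ?_)
      rw [← hb, orderOf_eq_one_iff]
      exact Units.val_eq_one.1 e)
  obtain ⟨j, rfl⟩ := exists_pow_zmod hM g
  refine h θ j s fun v => ?_
  simpa only [hA, hB, map_pow χ, map_pow ψ, hχ, hψ, Units.val_pow_eq_pow_val] using e v

theorem not_rigid_cube {p M : ℕ} (hp : p.Prime) (h2 : p ≠ 2) (hM : M ≠ 0) (hm : p ∣ M) :
    ¬ Rigid (p ^ 2 * M) := by
  intro hr
  have := Fact.mk hp
  let R := DualNumber (ZMod p)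
  let ε : R := DualNumber.eps
  have hε : ε * ε = 0 := DualNumber.eps_mul_eps
  have hpR : (p : R) = 0 := by
    rw [← map_natCast (algebraMap (ZMod p) R), ZMod.natCast_self, map_zero]
  let u : Rˣ := ⟨1 + ε, 1 - ε, by linear_combination -hε, by linear_combination -hε⟩
  have hu : ∀ j : ℕ, (u : R) ^ j = 1 + j * ε := by
    intro j
    induction j with
    | zero => simp
    | succ j ih =>
      rw [pow_succ, ih]
      change _ * (1 + ε) = _
      push_cast
      linear_combination j * hε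
  have hup : u ^ p = 1 := Units.ext (by rw [Units.val_pow_eq_pow_val, hu, hpR]; simp)
  obtain ⟨χ, hχ⟩ := exists_char M u ((orderOf_dvd_of_pow_eq_one hup).trans hm)
  have hc : ∀ C : Multiplicative (ZMod M) →* Rˣ, Nat.card (Aff C) = p ^ 2 * M := fun C => by
    rw [SemidirectProduct.card, Nat.card_congr toAdd, Nat.card_congr toAdd, Nat.card_zmod]
    congr 1
    change Nat.card (ZMod p × ZMod p) = _
    rw [Nat.card_prod, Nat.card_zmod, pow_two]
  obtain ⟨Φ⟩ := hr (Aff 1) (Aff χ) (hc 1) (hc χ) (conformal_aff 1 χ fun g d hd v => by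
    suffices e : ∑ i ∈ Finset.range d, ((1 : Multiplicative (ZMod M) →* Rˣ) g : R) ^ i =
        ∑ i ∈ Finset.range d, (χ g : R) ^ i by rw [e]
    obtain ⟨j, rfl⟩ := exists_pow_zmod hM g
    by_cases hpd : p ∣ d
    · simp only [map_pow, hχ, Units.val_pow_eq_pow_val, ← pow_mul]
      simp only [hu, MonoidHom.one_apply,
        Units.val_one, one_pow, Finset.sum_add_distrib, ← Finset.sum_mul]
      have h3 : p ∣ ∑ i ∈ Finset.range d, i := by
        have h4 : p ∣ (∑ i ∈ Finset.range d, i) * 2 :=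
          Finset.sum_range_id_mul_two d ▸ hpd.mul_right _
        exact ((Nat.coprime_primes hp Nat.prime_two).2 h2).dvd_mul_right.1 h4
      obtain ⟨c, hc⟩ := h3
      rw [← Nat.cast_sum (R := R), ← Finset.mul_sum, hc, Nat.cast_mul, Nat.cast_mul, hpR]
      simp
    · have h3 : χ (ofAdd 1 ^ j) = 1 := orderOf_eq_one_iff.1 (Nat.eq_one_of_dvd_coprimes
        ((Nat.Prime.coprime_iff_not_dvd hp).2 hpd)
        (orderOf_dvd_of_pow_eq_one (by rw [map_pow, hχ, ← pow_mul, mul_comm, pow_mul, hup, one_pow]))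
        (orderOf_dvd_of_pow_eq_one (by rw [← map_pow, hd, map_one])))
      rw [h3, MonoidHom.one_apply])
  have hcomm : ∀ x y : Aff (1 : Multiplicative (ZMod M) →* Rˣ), x * y = y * x := by
    intro x y
    ext <;> simp [mul_comm]
  have h3 : ∀ x y : Aff χ, x * y = y * x := fun x y => Φ.symm.injective (by
    rw [map_mul, map_mul, hcomm])
  have h4 := aff_conj χ (inr (ofAdd 1)) 1
  rw [h3 (inr _), mul_inv_cancel_right, right_inr, hχ, mul_one] at h4
  have h5 : (1 : R) = 1 + ε := ofAdd.injective (inl_injective h4)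
  have h6 : ε = 0 := by linear_combination -h5
  exact one_ne_zero (congrArg TrivSqZeroExt.snd h6)

end Pool.Agent.Lib.MP_cb9dee_al
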