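import Pool.Agent.Lib.MP_cb9dee_al.Glue

namespace Pool.Agent.Lib.MP_cb9dee_al

open Subgroup

variable {R : Type*} [Group R]

/-- The fixed subgroup of an automorphism. -/
def fixS (a : MulAut R) : Subgroup R where
  carrier := {x | a x = x}
  one_mem' := map_one a
  mul_mem' := by
    intro x y hx hy
    simp only [Set.mem_ofPred_eq] at *
    rw [map_mul, hx, hy]
  inv_mem' := by
    intro x hx
    simp only [Set.mem_ofPred_eq] at *
    rw [map_inv, hx]

@[simp] lemma mem_fixS {a : MulAut R} {x : R} : x ∈ fixS a ↔ a x = x := Iff.rfl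

lemma pow_fix {a : MulAut R} {x : R} (h : a x = x) (k : ℕ) : (a ^ k) x = x := by
  induction k with
  | zero => rfl
  | succ k ih => rw [pow_succ, MulAut.mul_apply, h, ih]

lemma card_modEq_fixS [Finite R] {s : ℕ} (hs : s.Prime) {a : MulAut R} (ha : a ^ s = 1) :
    Nat.card R ≡ Nat.card (fixS a) [MOD s] := by
  classical
  have := Fintype.ofFinite R
  have := Fact.mk hs
  let F : MulAut R → Function.End R := fun b => (b : R → R)
  have h1 : F a ^ s ^ 1 = 1 := by
    rw [pow_one]
    have : ∀ k : ℕ, F a ^ k = F (a ^ k) := by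
      intro k
      induction k with
      | zero => rfl
      | succ k ih => rw [pow_succ, ih, pow_succ]; rfl
    rw [this, ha]; rfl
  have h2 := Equiv.Perm.card_fixedPoints_modEq h1
  rw [← Nat.card_eq_fintype_card, ← Nat.card_eq_fintype_card] at h2
  exact h2

lemma card_subgroup_cases [Finite R] {r : ℕ} (hr : r.Prime) (hR : Nat.card R = r ^ 2)
    (L : Subgroup R) : L = ⊥ ∨ Nat.card L = r ∨ L = ⊤ := by
  have h := card_subgroup_dvd_card L
  rw [hR, Nat.dvd_prime_pow hr] at h
  obtain ⟨k, hk, h⟩ := h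
  interval_cases k
  · left; exact card_eq_one.1 (by simpa using h)
  · right; left; simpa using h
  · right; right; exact eq_top_of_card_eq _ (h.trans hR.symm)

lemma comm_of_card [Finite R] {r : ℕ} (hr : r.Prime) (hR : Nat.card R ∣ r ^ 2) (x y : R) :
    x * y = y * x := by
  have := Fact.mk hr
  rw [Nat.dvd_prime_pow hr] at hR
  obtain ⟨k, hk, h⟩ := hR
  interval_cases k
  · have := (Nat.card_eq_one_iff_unique.1 (by simpa using h)).1
    exact Subsingleton.elim _ _
  · have := isCyclic_of_prime_card (p := r) (α := R) (by simpa using h)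
    exact (IsCyclic.commGroup (α := R)).mul_comm x y
  · exact (IsPGroup.commGroupOfCardEqPrimeSq h).mul_comm x y

/-- The hypothesis under which an automorphism is trivial or fixed-point-free. -/
def Good (r : ℕ) (a : MulAut R) : Prop :=
  Nat.card R = r ∨ (Nat.card R = r ^ 2 ∧ (orderOf a).Coprime (r * (r - 1)))

lemma Good.pow {r : ℕ} {a : MulAut R} (h : Good r a) (k : ℕ) : Good r (a ^ k) :=
  h.imp id fun h => ⟨h.1, h.2.coprime_dvd_left (orderOf_pow_dvd k)⟩

lemma Good.eq_one [Finite R] {r : ℕ} (hr : r.Prime) {a : MulAut R} (h : Good r a) {x : R}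
    (hx : x ≠ 1) (hax : a x = x) : a = 1 := by
  have := Fact.mk hr
  rcases h with h | ⟨h, hc⟩
  · ext y
    obtain ⟨k, rfl⟩ := mem_zpowers_iff.1 (mem_zpowers_of_prime_card h hx (g' := y))
    rw [map_zpow, hax]; rfl
  · by_contra ha
    have ho : orderOf a ≠ 1 := fun e => ha (orderOf_eq_one_iff.1 e)
    have ho0 : orderOf a ≠ 0 := (orderOf_pos a).ne'
    set s := (orderOf a).minFac
    have hs : s.Prime := Nat.minFac_prime ho
    have hsd : s ∣ orderOf a := Nat.minFac_dvd _
    set b := a ^ (orderOf a / s)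
    have hb : orderOf b = s := orderOf_pow_orderOf_div ho0 hsd
    have hb1 : b ≠ 1 := fun e => hs.one_lt.ne' (by rw [← hb, e, orderOf_one])
    have hm := card_modEq_fixS hs (a := b) (by rw [← hb, pow_orderOf_eq_one])
    rcases card_subgroup_cases hr h (fixS b) with h1 | h1 | h1
    · have : x ∈ fixS b := pow_fix hax _
      rw [h1, mem_bot] at this
      exact hx this
    · rw [h, h1] at hm
      have h2 : s ∣ r ^ 2 - r := (Nat.modEq_iff_dvd' (Nat.le_self_pow two_ne_zero r)).1 hm.symm
      have h3 : r ^ 2 - r = r * (r - 1) := by rw [Nat.mul_sub_one, pow_two]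
      rw [h3] at h2
      exact hs.one_lt.ne' (Nat.eq_one_of_dvd_coprimes hc hsd h2)
    · apply hb1
      ext y
      have : y ∈ fixS b := h1 ▸ mem_top y
      exact this

lemma Good.orderOf_dvd [Finite R] {r : ℕ} (hr : r.Prime) {a : MulAut R} (h : Good r a) :
    orderOf a ∣ Nat.card R - 1 := by
  classical
  let X : SubMulAction (zpowers a) R :=
    { carrier := {x | x ≠ 1}
      smul_mem' := by
        intro c x hx e
        apply hx
        have e' : (c : MulAut R) x = 1 := e
        simpa using e' }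
  have hst : ∀ b : X, MulAction.stabilizer (zpowers a) b = ⊥ := by
    intro b
    rw [eq_bot_iff]
    intro c hc
    rw [mem_bot]
    obtain ⟨k, hk⟩ := mem_powers_iff_mem_zpowers.2 c.2
    have h1 : (c : MulAut R) (b : R) = b := congrArg Subtype.val (MulAction.mem_stabilizer_iff.1 hc)
    have hk' : a ^ k = c := hk
    rw [← hk'] at h1
    exact Subtype.ext (hk'.symm.trans ((h.pow k).eq_one hr b.2 h1))
  have h1 := Nat.card_congr (MulAction.selfEquivOrbitsQuotientProd hst)
  rw [Nat.card_prod, Nat.card_zpowers] at h1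
  have h2 : Nat.card X = Nat.card R - 1 := by
    have := Fintype.ofFinite R
    have h3 := Fintype.card_subtype_compl (fun x : R => x = 1)
    rw [Fintype.card_subtype_eq, ← Nat.card_eq_fintype_card, ← Nat.card_eq_fintype_card] at h3
    exact h3
  rw [← h2, h1]
  exact Dvd.intro_left _ rfl

lemma irred_of_good [Finite R] {r : ℕ} (hr : r.Prime) {a : MulAut R} (hR : Nat.card R = r ^ 2)
    (hc : (orderOf a).Coprime (r * (r - 1))) (ha : a ≠ 1) (L : Subgroup R)
    (hL : ∀ x ∈ L, a x ∈ L) : L = ⊥ ∨ L = ⊤ := by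
  have := Fact.mk hr
  rcases card_subgroup_cases hr hR L with h | h | h
  · exact Or.inl h
  · exfalso
    let f : L →* L := (a.toMonoidHom.comp L.subtype).codRestrict L fun x => hL x x.2
    have hf : Function.Injective f := fun x y e =>
      Subtype.ext (a.injective (congrArg Subtype.val e))
    let b : MulAut L := MulEquiv.ofBijective f (Finite.injective_iff_bijective.1 hf)
    have hb : ∀ (k : ℕ) (x : L), ((b ^ k) x : R) = (a ^ k) x := by
      intro k
      induction k with
      | zero => intro x; rfl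
      | succ k ih => intro x; rw [pow_succ, pow_succ, MulAut.mul_apply, MulAut.mul_apply, ih]; rfl
    have h1 : orderOf b ∣ r - 1 := h ▸ Good.orderOf_dvd hr (a := b) (Or.inl h)
    have h2 : orderOf b ∣ orderOf a := by
      rw [orderOf_dvd_iff_pow_eq_one]
      ext x
      rw [hb, pow_orderOf_eq_one]; rfl
    have h3 : b = 1 := orderOf_eq_one_iff.1
      (Nat.eq_one_of_dvd_coprimes hc h2 (h1.mul_left r))
    have : Nontrivial L := Finite.one_lt_card_iff_nontrivial.1 (h ▸ hr.one_lt)
    obtain ⟨x, hx⟩ := exists_ne (1 : L)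
    have h4 := hb 1 x
    rw [h3, pow_one, pow_one] at h4
    exact ha (Good.eq_one hr (Or.inr ⟨hR, hc⟩) (x := x) (fun e => hx (Subtype.ext e)) h4.symm)
  · exact Or.inr h

lemma inv_of_fix_bot (hcomm : ∀ x y : R, x * y = y * x) {τ : MulAut R} (hτ : τ * τ = 1)
    (h : fixS τ = ⊥) (x : R) : τ x = x⁻¹ := by
  have h1 : x * τ x ∈ fixS τ := by
    rw [mem_fixS, map_mul, ← MulAut.mul_apply, hτ, hcomm]; rfl
  rw [h, mem_bot] at h1
  exact eq_inv_of_mul_eq_one_right h1

end Pool.Agent.Lib.MP_cb9dee_al
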