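import Mathlib

namespace Pool.Agent.Lib.MP_cb9dee_al

open Subgroup Pointwise

section perm
variable {G : Type*} [Group G]

lemma le_normalizer_of_conj {A B : Subgroup G} (h : ∀ a ∈ A, ∀ b ∈ B, a * b * a⁻¹ ∈ B) :
    A ≤ normalizer (B : Set G) := by
  intro a ha
  rw [mem_normalizer_iff]
  intro b
  refine ⟨h a ha b, fun hb => ?_⟩
  have := h a⁻¹ (inv_mem ha) _ hb
  simpa [mul_assoc] using this

lemma perm_of_conj {A B : Subgroup G} (h : ∀ a ∈ A, ∀ b ∈ B, a * b * a⁻¹ ∈ B) :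
    (A : Set G) * B = B * A :=
  set_mul_normalizer_comm _ _ (le_normalizer_of_conj h)

lemma coe_sup_of_perm (A B : Subgroup G) (h : (A : Set G) * B = B * A) :
    (↑(A ⊔ B) : Set G) = A * B := by
  let C : Subgroup G :=
    { carrier := (A : Set G) * B
      one_mem' := ⟨1, one_mem _, 1, one_mem _, mul_one 1⟩
      mul_mem' := by
        intro x y hx hy
        have : ((A : Set G) * B) * ((A : Set G) * B) = A * B := by
          rw [mul_assoc, ← mul_assoc (B : Set G), ← h, mul_assoc, ← mul_assoc (A : Set G),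
            coe_mul_coe, coe_mul_coe]
        rw [← this]
        exact Set.mul_mem_mul hx hy
      inv_mem' := by
        rintro x ⟨a, ha, b, hb, rfl⟩
        rw [h]
        exact ⟨b⁻¹, inv_mem hb, a⁻¹, inv_mem ha, by simp⟩ }
  apply Set.Subset.antisymm
  · have : A ⊔ B ≤ C := sup_le (fun a ha => ⟨a, ha, 1, one_mem _, mul_one a⟩)
      (fun b hb => ⟨1, one_mem _, b, hb, one_mul b⟩)
    exact this
  · rintro x ⟨a, ha, b, hb, rfl⟩
    exact mul_mem (mem_sup_left ha) (mem_sup_right hb)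

lemma perm_biSup [Finite G] {ι : Type*} (Γ : ι → Subgroup G) (s : Finset ι)
    (h : ∀ i ∈ s, ∀ j ∈ s, i ≠ j → (Γ i : Set G) * Γ j = Γ j * Γ i) :
    (∀ B : Subgroup G, (∀ i ∈ s, (Γ i : Set G) * B = B * Γ i) →
      ((⨆ i ∈ s, Γ i : Subgroup G) : Set G) * B = B * (⨆ i ∈ s, Γ i : Subgroup G)) ∧
    Nat.card (⨆ i ∈ s, Γ i : Subgroup G) ≤ ∏ i ∈ s, Nat.card (Γ i) := by
  classical
  induction s using Finset.induction_on with
  | empty => simp
  | insert a s ha ih =>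
    obtain ⟨ih1, ih2⟩ := ih (fun i hi j hj => h i (Finset.mem_insert_of_mem hi) j
      (Finset.mem_insert_of_mem hj))
    have hp : ((⨆ i ∈ s, Γ i : Subgroup G) : Set G) * Γ a = Γ a * (⨆ i ∈ s, Γ i : Subgroup G) :=
      ih1 _ (fun i hi => h i (Finset.mem_insert_of_mem hi) a (Finset.mem_insert_self _ _)
        (fun e => ha (e ▸ hi)))
    have hs := coe_sup_of_perm _ _ hp.symm
    rw [Finset.iSup_insert]
    constructor
    · intro B hB
      rw [hs, mul_assoc, ih1 B (fun i hi => hB i (Finset.mem_insert_of_mem hi)), ← mul_assoc,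
        hB a (Finset.mem_insert_self _ _), mul_assoc]
    · rw [Finset.prod_insert ha]
      calc Nat.card (Γ a ⊔ ⨆ i ∈ s, Γ i : Subgroup G)
          = Nat.card ((Γ a : Set G) * (⨆ i ∈ s, Γ i : Subgroup G) : Set G) := by
            rw [← hs]; rfl
        _ ≤ Nat.card (Γ a : Set G) * Nat.card ((⨆ i ∈ s, Γ i : Subgroup G) : Set G) :=
            Set.natCard_mul_le
        _ ≤ _ := Nat.mul_le_mul_left _ ih2

/-- `A` normalises `B`. -/
def Nm (A B : Subgroup G) : Prop := ∀ a ∈ A, ∀ b ∈ B, a * b * a⁻¹ ∈ B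

lemma card_biSup_le [Finite G] {ι : Type*} (Γ : ι → Subgroup G) (s : Finset ι)
    (h : ∀ i ∈ s, ∀ j ∈ s, i ≠ j → Nm (Γ i) (Γ j) ∨ Nm (Γ j) (Γ i)) :
    Nat.card (⨆ i ∈ s, Γ i : Subgroup G) ≤ ∏ i ∈ s, Nat.card (Γ i) :=
  (perm_biSup Γ s fun i hi j hj hij =>
    (h i hi j hj hij).elim perm_of_conj fun h' => (perm_of_conj h').symm).2

lemma prod_card_dvd_card {ι : Type*} (Γ : ι → Subgroup G) (s : Finset ι) (K : Subgroup G)
    (hK : ∀ i ∈ s, Γ i ≤ K)
    (hc : ∀ i ∈ s, ∀ j ∈ s, i ≠ j → (Nat.card (Γ i)).Coprime (Nat.card (Γ j))) :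
    ∏ i ∈ s, Nat.card (Γ i) ∣ Nat.card K :=
  Finset.prod_dvd_of_isRelPrime
    (fun i hi j hj hij => Nat.coprime_iff_isRelPrime.mp (hc i hi j hj hij))
    (fun i hi => card_dvd_of_le (hK i hi))

lemma card_biSup [Finite G] {ι : Type*} (Γ : ι → Subgroup G) (s : Finset ι)
    (h : ∀ i ∈ s, ∀ j ∈ s, i ≠ j → Nm (Γ i) (Γ j) ∨ Nm (Γ j) (Γ i))
    (hc : ∀ i ∈ s, ∀ j ∈ s, i ≠ j → (Nat.card (Γ i)).Coprime (Nat.card (Γ j))) :
    Nat.card (⨆ i ∈ s, Γ i : Subgroup G) = ∏ i ∈ s, Nat.card (Γ i) :=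
  le_antisymm (card_biSup_le Γ s h) (Nat.le_of_dvd Nat.card_pos
    (prod_card_dvd_card Γ s _ (fun i hi => le_iSup₂_of_le i hi le_rfl) hc))

lemma nm_biSup {ι : Type*} (Γ : ι → Subgroup G) (s : Finset ι) (g : G)
    (h : ∀ i ∈ s, ∀ b ∈ Γ i, g * b * g⁻¹ ∈ (⨆ i ∈ s, Γ i : Subgroup G)) :
    ∀ b ∈ (⨆ i ∈ s, Γ i : Subgroup G), g * b * g⁻¹ ∈ (⨆ i ∈ s, Γ i : Subgroup G) := by
  have : (⨆ i ∈ s, Γ i : Subgroup G) ≤
      (⨆ i ∈ s, Γ i : Subgroup G).comap (MulAut.conj g).toMonoidHom :=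
    iSup₂_le fun i hi b hb => h i hi b hb
  exact fun b hb => this hb

end perm

/-- The graph of an isomorphism between subgroups. -/
def graphOf {G H : Type*} [Group G] [Group H] {A : Subgroup G} {B : Subgroup H} (β : A ≃* B) :
    Subgroup (G × H) :=
  (A.subtype.prod (B.subtype.comp β.toMonoidHom)).range

lemma mem_graphOf {G H : Type*} [Group G] [Group H] {A : Subgroup G} {B : Subgroup H}
    (β : A ≃* B) (z : G × H) : z ∈ graphOf β ↔ ∃ x : A, z = ((x : G), (β x : H)) := by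
  constructor
  · rintro ⟨x, rfl⟩; exact ⟨x, rfl⟩
  · rintro ⟨x, rfl⟩; exact ⟨x, rfl⟩

lemma card_graphOf {G H : Type*} [Group G] [Group H] {A : Subgroup G} {B : Subgroup H}
    (β : A ≃* B) : Nat.card (graphOf β) = Nat.card A := by
  have hinj : Function.Injective (A.subtype.prod (B.subtype.comp β.toMonoidHom)) :=
    fun x y h => Subtype.ext (congrArg Prod.fst h)
  exact (Nat.card_congr (MonoidHom.ofInjective hinj).toEquiv).symm

/-- `β` and `γ` are compatible with the conjugation action of the first pair on the second. -/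
def Compat {G H : Type*} [Group G] [Group H] {A C : Subgroup G} {B D : Subgroup H}
    (β : A ≃* B) (γ : C ≃* D) : Prop :=
  ∀ (x : A) (y : C), ∃ z : C, (z : G) = x * y * (x : G)⁻¹ ∧
    (γ z : H) = β x * γ y * (β x : H)⁻¹

theorem glue {G H : Type*} [Group G] [Group H] [Finite G] [Finite H] {ι : Type*} (s : Finset ι)
    (A : ι → Subgroup G) (B : ι → Subgroup H) (β : ∀ i, A i ≃* B i)
    (hA : (⨆ i ∈ s, A i) = ⊤) (hB : (⨆ i ∈ s, B i) = ⊤)
    (hc : ∏ i ∈ s, Nat.card (A i) ≤ Nat.card G) (hGH : Nat.card G = Nat.card H)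
    (hβ : ∀ i ∈ s, ∀ j ∈ s, i ≠ j → Compat (β i) (β j) ∨ Compat (β j) (β i)) :
    ∃ Φ : G ≃* H, ∀ i ∈ s, ∀ x : A i, Φ x = β i x := by
  have key : ∀ i j, Compat (β i) (β j) → Nm (graphOf (β i)) (graphOf (β j)) := by
    intro i j h a ha b hb
    obtain ⟨x, rfl⟩ := (mem_graphOf _ _).1 ha
    obtain ⟨y, rfl⟩ := (mem_graphOf _ _).1 hb
    obtain ⟨z, hz1, hz2⟩ := h x y
    exact (mem_graphOf _ _).2 ⟨z, Prod.ext hz1.symm hz2.symm⟩
  set Γ : Subgroup (G × H) := ⨆ i ∈ s, graphOf (β i) with hΓ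
  have hcard : Nat.card Γ ≤ Nat.card G := by
    refine le_trans (card_biSup_le (fun i => graphOf (β i)) s fun i hi j hj hij =>
      (hβ i hi j hj hij).imp (key i j) (key j i)) ?_
    simpa only [card_graphOf] using hc
  have hmem : ∀ i ∈ s, ∀ x : A i, ((x : G), (β i x : H)) ∈ Γ := fun i hi x =>
    (le_iSup₂_of_le i hi le_rfl : graphOf (β i) ≤ Γ) ((mem_graphOf _ _).2 ⟨x, rfl⟩)
  let f1 : Γ →* G := (MonoidHom.fst G H).comp Γ.subtype
  let f2 : Γ →* H := (MonoidHom.snd G H).comp Γ.subtype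
  have s1 : Function.Surjective f1 := by
    rw [← MonoidHom.range_eq_top, eq_top_iff, ← hA]
    exact iSup₂_le fun i hi x hx => ⟨⟨_, hmem i hi ⟨x, hx⟩⟩, rfl⟩
  have s2 : Function.Surjective f2 := by
    rw [← MonoidHom.range_eq_top, eq_top_iff, ← hB]
    refine iSup₂_le fun i hi y hy => ⟨⟨_, hmem i hi ((β i).symm ⟨y, hy⟩)⟩, ?_⟩
    simp [f2]
  have b1 : Function.Bijective f1 :=
    s1.bijective_of_nat_card_le hcard
  have b2 : Function.Bijective f2 :=
    s2.bijective_of_nat_card_le (hGH ▸ hcard)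
  refine ⟨(MulEquiv.ofBijective f1 b1).symm.trans (MulEquiv.ofBijective f2 b2), fun i hi x => ?_⟩
  have : (MulEquiv.ofBijective f1 b1).symm x = ⟨_, hmem i hi x⟩ := by
    rw [MulEquiv.symm_apply_eq]; rfl
  rw [MulEquiv.trans_apply, this]
  rfl

end Pool.Agent.Lib.MP_cb9dee_al
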