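import Pool.Agent.Lib.MP_cb9dee_al.Defs
import Pool.Agent.Lib.MP_cb9dee_al.Glue

namespace Pool.Agent.Lib.MP_cb9dee_al

open Subgroup

section hall
variable {G : Type*} [Group G] [Finite G]

omit [Finite G] in
lemma mem_of_pow_eq_one {Y : Subgroup G} [Y.Normal] {x : G} {d : ℕ} (hd : d.Coprime Y.index)
    (hx : x ^ d = 1) : x ∈ Y := by
  rw [← QuotientGroup.eq_one_iff, ← orderOf_eq_one_iff]
  have h1 : orderOf (x : G ⧸ Y) ∣ d := by
    rw [orderOf_dvd_iff_pow_eq_one, ← QuotientGroup.mk_pow, hx, QuotientGroup.mk_one]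
  have h2 : orderOf (x : G ⧸ Y) ∣ Y.index := orderOf_dvd_natCard _
  exact Nat.eq_one_of_dvd_coprimes hd h1 h2

omit [Finite G] in
lemma pow_card_of_mem {Y : Subgroup G} {x : G} (hx : x ∈ Y) : x ^ Nat.card Y = 1 := by
  have : (⟨x, hx⟩ : Y) ^ Nat.card Y = 1 := pow_card_eq_one'
  exact congrArg Subtype.val this

lemma cnt_of_normal {Y : Subgroup G} [Y.Normal] (h : (Nat.card Y).Coprime Y.index) :
    Nat.card {x : G // x ^ Nat.card Y = 1} = Nat.card Y :=
  Nat.card_congr (Equiv.subtypeEquivRight fun _ =>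
    ⟨mem_of_pow_eq_one h, pow_card_of_mem⟩)

lemma mem_of_cnt {Y : Subgroup G} (h : Nat.card {x : G // x ^ Nat.card Y = 1} = Nat.card Y)
    {x : G} (hx : x ^ Nat.card Y = 1) : x ∈ Y := by
  have hsub : (Y : Set G) ⊆ {x : G | x ^ Nat.card Y = 1} := fun y hy => pow_card_of_mem hy
  have : (Y : Set G) = {x : G | x ^ Nat.card Y = 1} := by
    apply Set.eq_of_subset_of_ncard_le hsub
    rw [← Nat.card_coe_set_eq, ← Nat.card_coe_set_eq]
    exact h.le
  rw [← SetLike.mem_coe, this]
  exact hx

lemma normal_of_cnt {Y : Subgroup G} (h : Nat.card {x : G // x ^ Nat.card Y = 1} = Nat.card Y) :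
    Y.Normal :=
  ⟨fun y hy g => mem_of_cnt h (by rw [conj_pow, pow_card_of_mem hy]; simp)⟩

lemma cnt_eq_sum (d : ℕ) (hd : d ≠ 0) :
    Nat.card {x : G // x ^ d = 1} = ∑ m ∈ d.divisors, Nat.card {x : G // orderOf x = m} := by
  classical
  have := Fintype.ofFinite G
  simp only [Nat.card_eq_fintype_card, Fintype.card_subtype]
  exact (sum_card_orderOf_eq_card_pow_eq_one hd).symm

lemma card_order_two (t : G) (ht : orderOf t = 2) (h4 : ¬ 4 ∣ Nat.card G) :
    Nat.card {x : G // orderOf x = 2} * Nat.card (centralizer ({t} : Set G)) = Nat.card G := by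
  classical
  have hf : Fact (Nat.Prime 2) := ⟨Nat.prime_two⟩
  have hfac : (Nat.card G).factorization 2 = 1 := by
    have h2 : 2 ∣ Nat.card G := ht ▸ orderOf_dvd_natCard t
    have h1 := (Nat.prime_two.pow_dvd_iff_le_factorization (Nat.card_pos (α := G)).ne' (k := 1)).1
      (by simpa using h2)
    have h3 := mt (Nat.prime_two.pow_dvd_iff_le_factorization
      (Nat.card_pos (α := G)).ne' (k := 2)).2 h4
    omega
  have hs : ∀ x : G, orderOf x = 2 → Nat.card (zpowers x) = 2 ^ (Nat.card G).factorization 2 := by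
    intro x hx
    rw [Nat.card_zpowers, hx, hfac, pow_one]
  have horb : MulAction.orbit (ConjAct G) t = {x : G | orderOf x = 2} := by
    ext x
    rw [ConjAct.mem_orbit_conjAct, Set.mem_ofPred_eq]
    constructor
    · intro h
      obtain ⟨c, rfl⟩ := isConj_iff.1 h.symm
      rw [← ht]
      exact (MulAut.conj c).orderOf_eq t
    · intro hx
      obtain ⟨g, hg⟩ := MulAction.exists_smul_eq G (Sylow.ofCard _ (hs t ht))
        (Sylow.ofCard _ (hs x hx))
      have hm : g * t * g⁻¹ ∈ zpowers x := by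
        have h1 : (((g • Sylow.ofCard _ (hs t ht) : Sylow 2 G)) : Subgroup G) = zpowers x := by
          rw [hg]; rfl
        rw [← h1, Sylow.coe_subgroup_smul]
        exact Subgroup.smul_mem_pointwise_smul _ _ _ (mem_zpowers t)
      have ho : orderOf (g * t * g⁻¹) = 2 := by
        rw [← ht]; exact (MulAut.conj g).orderOf_eq t
      obtain ⟨k, hk⟩ := (mem_zpowers_iff_mem_range_orderOf).1 hm |> Finset.mem_image.1
      rw [hx, Finset.mem_range] at hk
      obtain ⟨hk1, hk2⟩ := hk
      interval_cases k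
      · rw [← hk2] at ho; simp at ho
      · rw [pow_one] at hk2
        exact (isConj_iff.2 ⟨g, hk2.symm⟩).symm
  have h1 : (MulAction.stabilizer (ConjAct G) t).index = Nat.card {x : G // orderOf x = 2} := by
    rw [MulAction.index_stabilizer, horb, ← Nat.card_coe_set_eq]; rfl
  rw [← h1, nat_card_centralizer_nat_card_stabilizer, index_mul_card]
  rfl

end hall

lemma Conformal.symm {G H : Type} [Group G] [Group H] (h : Conformal G H) : Conformal H G :=
  fun d hd => (h d hd).symm

lemma Conformal.card_order {G H : Type} [Group G] [Group H] [Finite G] [Finite H]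
    (h : Conformal G H) (k : ℕ) (hk : k ≠ 0) :
    Nat.card {x : G // orderOf x = k} = Nat.card {x : H // orderOf x = k} := by
  induction k using Nat.strong_induction_on with
  | _ k ih =>
    have h1 := h k (Nat.pos_of_ne_zero hk)
    rw [cnt_eq_sum k hk, cnt_eq_sum k hk, ← Nat.insert_self_properDivisors hk,
      Finset.sum_insert Nat.self_notMem_properDivisors,
      Finset.sum_insert Nat.self_notMem_properDivisors] at h1
    have h2 : ∑ m ∈ k.properDivisors, Nat.card {x : G // orderOf x = m} =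
        ∑ m ∈ k.properDivisors, Nat.card {x : H // orderOf x = m} :=
      Finset.sum_congr rfl fun m hm => ih m (Nat.mem_properDivisors.1 hm).2
        (Nat.pos_of_mem_properDivisors hm).ne'
    omega

lemma Conformal.exists_order {G H : Type} [Group G] [Group H] [Finite G] [Finite H]
    (h : Conformal G H) (x : G) : ∃ y : H, orderOf y = orderOf x := by
  have h1 := h.card_order (orderOf x) (orderOf_pos x).ne'
  have : Nonempty {y : G // orderOf y = orderOf x} := ⟨⟨x, rfl⟩⟩
  have h2 : 0 < Nat.card {y : H // orderOf y = orderOf x} := h1 ▸ Nat.card_pos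
  obtain ⟨y, hy⟩ := (Nat.card_pos_iff.1 h2).1
  exact ⟨y, hy⟩

lemma Conformal.normal_of_normal {G H : Type} [Group G] [Group H] [Finite G] [Finite H]
    (h : Conformal G H) {A : Subgroup G} {B : Subgroup H} (hA : A.Normal)
    (hc : (Nat.card A).Coprime A.index) (hAB : Nat.card A = Nat.card B) : B.Normal := by
  apply normal_of_cnt
  rw [← hAB, ← h _ Nat.card_pos, cnt_of_normal hc]

lemma Conformal.card_centralizer {G H : Type} [Group G] [Group H] [Finite G] [Finite H]
    (h : Conformal G H) (hGH : Nat.card G = Nat.card H) (h4 : ¬ 4 ∣ Nat.card G) {t : G} {u : H}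
    (ht : orderOf t = 2) (hu : orderOf u = 2) :
    Nat.card (centralizer ({t} : Set G)) = Nat.card (centralizer ({u} : Set H)) := by
  have h1 := card_order_two t ht h4
  have h2 := card_order_two u hu (hGH ▸ h4)
  rw [← h.card_order 2 two_ne_zero, ← hGH, ← h1] at h2
  have : Nonempty {x : G // orderOf x = 2} := ⟨⟨t, ht⟩⟩
  exact (Nat.eq_of_mul_eq_mul_left Nat.card_pos h2).symm

end Pool.Agent.Lib.MP_cb9dee_al
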