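import Pool.Agent.Lib.MP_cb9dee_al.Aut
import Pool.Agent.Lib.MP_cb9dee_al.Count

namespace Pool.Agent.Lib.MP_cb9dee_al

open Subgroup Pointwise

section one
variable {R : Type*} [Group R] [Finite R] {r : ℕ}

lemma eq_zpowers_of_mem (hr : r.Prime) {L : Subgroup R} (hL : Nat.card L = r) {x : R}
    (hx : x ∈ L) (h1 : x ≠ 1) : zpowers x = L ∧ orderOf x = r := by
  have h2 : orderOf x = r := ((Nat.dvd_prime hr).1
    (hL ▸ orderOf_dvd_of_pow_eq_one (pow_card_of_mem hx))).resolve_left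
    fun e => h1 (orderOf_eq_one_iff.1 e)
  exact ⟨eq_of_le_of_card_ge (zpowers_le.2 hx) (by rw [Nat.card_zpowers, h2, hL]), h2⟩

lemma exists_gen (hr : r.Prime) {L : Subgroup R} (hL : Nat.card L = r) :
    ∃ x : R, zpowers x = L ∧ orderOf x = r := by
  have : Nontrivial L := Finite.one_lt_card_iff_nontrivial.1 (hL ▸ hr.one_lt)
  obtain ⟨x, hx⟩ := exists_ne (1 : L)
  exact ⟨x, eq_zpowers_of_mem hr hL x.2 fun e => hx (Subtype.ext e)⟩

omit [Finite R] in
lemma ne_one_of_orderOf (hr : r.Prime) {a : R} (ha : orderOf a = r) : a ≠ 1 :=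
  fun e => hr.one_lt.ne' (by rw [← ha, e, orderOf_one])

lemma eq_top_of_two (hr : r.Prime) (hR : Nat.card R = r ^ 2) {a b : R} (ha : orderOf a = r)
    (hb : b ∉ zpowers a) {L : Subgroup R} (haL : a ∈ L) (hbL : b ∈ L) : L = ⊤ := by
  rcases card_subgroup_cases hr hR L with h | h | h
  · rw [h, mem_bot] at haL
    exact absurd haL (ne_one_of_orderOf hr ha)
  · exact absurd ((eq_zpowers_of_mem hr h haL (ne_one_of_orderOf hr ha)).1 ▸ hbL) hb
  · exact h

lemma not_mem_of_ne (hr : r.Prime) {a b : R} (ha : orderOf a = r) (hb : orderOf b = r)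
    (h : zpowers a ≠ zpowers b) : b ∉ zpowers a := fun hm =>
  h (eq_zpowers_of_mem hr ((Nat.card_zpowers a).trans ha) hm (ne_one_of_orderOf hr hb)).1.symm

lemma orderOf_eq_of_not_cyclic (hr : r.Prime) (hR : Nat.card R = r ^ 2) (hc : ¬ IsCyclic R)
    {x : R} (hx : x ≠ 1) : orderOf x = r := by
  rcases card_subgroup_cases hr hR (zpowers x) with h | h | h
  · exact absurd (zpowers_eq_bot.1 h) hx
  · rwa [Nat.card_zpowers] at h
  · exact absurd ⟨⟨x, fun y => (h ▸ mem_top y : y ∈ zpowers x)⟩⟩ hc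

lemma exists_not_mem (hr : r.Prime) (hR : Nat.card R = r ^ 2) (hc : ¬ IsCyclic R) (a : R) :
    ∃ b, orderOf b = r ∧ b ∉ zpowers a := by
  by_contra! h
  refine hc ⟨⟨a, fun y => ?_⟩⟩
  by_cases hy : y = 1
  · exact hy ▸ one_mem (zpowers a)
  · exact h y (orderOf_eq_of_not_cyclic hr hR hc hy)

lemma exists_two (hr : r.Prime) (hR : Nat.card R = r ^ 2) (hc : ¬ IsCyclic R) :
    ∃ a b : R, orderOf a = r ∧ orderOf b = r ∧ b ∉ zpowers a := by
  obtain ⟨a, ha, -⟩ := exists_not_mem hr hR hc 1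
  obtain ⟨b, hb, h⟩ := exists_not_mem hr hR hc a
  exact ⟨a, b, ha, hb, h⟩

lemma eq_of_card_eq_of_cyclic [IsCyclic R] {L M : Subgroup R} (h : Nat.card L = Nat.card M) :
    L = M := by
  classical
  have := Fintype.ofFinite R
  have key : ∀ L : Subgroup R, (L : Set R) = {x | x ^ Nat.card L = 1} := by
    intro L
    apply Set.eq_of_subset_of_ncard_le (fun y hy => pow_card_of_mem hy)
    have h1 := IsCyclic.card_pow_eq_one_le (α := R) (n := Nat.card L) Nat.card_pos
    rw [← Nat.card_coe_set_eq, ← Nat.card_coe_set_eq]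
    refine le_trans (le_of_eq ?_) h1
    rw [Nat.card_eq_fintype_card, Fintype.card_subtype]
    rfl
  apply SetLike.coe_injective
  rw [key L, key M, h]

lemma mem_three {a u : R} (ha : orderOf a = 3) (hu : u ∈ zpowers a) :
    u = 1 ∨ u = a ∨ u = a⁻¹ := by
  classical
  obtain ⟨k, hk, rfl⟩ := Finset.mem_image.1 (mem_zpowers_iff_mem_range_orderOf.1 hu)
  rw [ha, Finset.mem_range] at hk
  interval_cases k
  · simp
  · simp
  · right; right
    rw [eq_inv_iff_mul_eq_one, ← pow_succ, ← orderOf_dvd_iff_pow_eq_one, ha]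

lemma lines_three (hR : Nat.card R = 3 ^ 2) {a b : R} (ha : orderOf a = 3) (hb : orderOf b = 3)
    (hab : b ∉ zpowers a) {L : Subgroup R} (hL : Nat.card L = 3) :
    L = zpowers a ∨ L = zpowers b ∨ L = zpowers (a * b) ∨ L = zpowers (a * b⁻¹) := by
  have hcomm := comm_of_card (R := R) Nat.prime_three (hR ▸ dvd_rfl)
  obtain ⟨x, rfl, hx⟩ := exists_gen Nat.prime_three hL
  have h1 : zpowers a ⊔ zpowers b = ⊤ := eq_top_of_two Nat.prime_three hR ha hab
    (mem_sup_left (mem_zpowers a)) (mem_sup_right (mem_zpowers b))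
  have h2 : x ∈ ((zpowers a ⊔ zpowers b : Subgroup R) : Set R) := h1 ▸ mem_top x
  rw [coe_sup_of_perm _ _ (perm_of_conj fun u _ v hv => by rw [hcomm u v]; simpa using hv)] at h2
  obtain ⟨u, hu, v, hv, rfl⟩ := h2
  rcases mem_three ha hu with rfl | rfl | rfl <;> rcases mem_three hb hv with rfl | rfl | rfl
  · simp at hx
  · simp
  · simp
  · simp
  · simp
  · simp
  · simp
  · right; right; right
    rw [← zpowers_inv, mul_inv_rev, inv_inv, hcomm]
  · right; right; left
    rw [← zpowers_inv, mul_inv_rev, inv_inv, inv_inv, hcomm]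

lemma exists_refl (hr : r.Prime) (h2 : r ≠ 2) (hR : Nat.card R = r ^ 2) {τ : MulAut R}
    (hτ : τ * τ = 1) (hf : Nat.card (fixS τ) = r) :
    ∃ a b : R, orderOf a = r ∧ orderOf b = r ∧ b ∉ zpowers a ∧ fixS τ = zpowers a ∧
      τ a = a ∧ τ b = b⁻¹ ∧ ∀ L : Subgroup R, Nat.card L = r → (∀ x ∈ L, τ x ∈ L) →
        L = fixS τ ∨ L = zpowers b := by
  have hcomm := comm_of_card (R := R) hr (hR ▸ dvd_rfl)
  have hττ : ∀ x, τ (τ x) = x := fun x => DFunLike.congr_fun hτ x
  have hodd : ∀ x : R, x = x⁻¹ → x = 1 := by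
    intro x hx
    rw [eq_inv_iff_mul_eq_one, ← pow_two] at hx
    exact orderOf_eq_one_iff.1 (Nat.eq_one_of_dvd_coprimes
      (((Nat.coprime_primes Nat.prime_two hr).2 h2.symm).pow_right 2)
      (orderOf_dvd_of_pow_eq_one hx) (hR ▸ orderOf_dvd_natCard x))
  obtain ⟨a, ha1, ha⟩ := exists_gen hr hf
  have haf : τ a = a := (ha1 ▸ mem_zpowers a : a ∈ fixS τ)
  let M : Subgroup R :=
    { carrier := {z | τ z = z⁻¹}
      one_mem' := by simp
      mul_mem' := by
        intro x y hx hy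
        simp only [Set.mem_ofPred_eq] at *
        rw [map_mul, hx, hy, mul_inv_rev, hcomm]
      inv_mem' := by
        intro x hx
        simp only [Set.mem_ofPred_eq] at *
        rw [map_inv, hx] }
  have hM : M ≠ ⊤ := fun h => ne_one_of_orderOf hr ha
    (hodd a (haf.symm.trans (h ▸ mem_top a : a ∈ M)))
  have hmem : ∀ y, y * (τ y)⁻¹ ∈ M := fun y => by
    change τ _ = _
    rw [map_mul, map_inv, hττ, mul_inv_rev, inv_inv]
  obtain ⟨y, hy⟩ : ∃ y, τ y ≠ y := by
    by_contra! h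
    have : fixS τ = ⊤ := eq_top_iff.2 fun y _ => h y
    rw [this, card_top, hR] at hf
    exact (Nat.pow_lt_pow_right hr.one_lt one_lt_two).ne' (hf.trans (pow_one r).symm)
  have hne : ∀ y, τ y ≠ y → y * (τ y)⁻¹ ≠ 1 := fun y hy e => hy (mul_inv_eq_one.1 e).symm
  have hMc : Nat.card M = r := by
    rcases card_subgroup_cases hr hR M with h | h | h
    · exact absurd (mem_bot.1 (h ▸ hmem y)) (hne y hy)
    · exact h
    · exact absurd h hM
  obtain ⟨b, hb1, hb⟩ := exists_gen hr hMc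
  have hbM : τ b = b⁻¹ := (hb1 ▸ mem_zpowers b : b ∈ M)
  refine ⟨a, b, ha, hb, fun h => ?_, ha1.symm, haf, hbM, fun L hL hinv => ?_⟩
  · have : τ b = b := (ha1 ▸ h : b ∈ fixS τ)
    exact ne_one_of_orderOf hr hb (hodd b (this.symm.trans hbM))
  · obtain ⟨x, rfl, hx⟩ := exists_gen hr hL
    by_cases h : τ x = x
    · exact Or.inl (eq_zpowers_of_mem hr hf h (ne_one_of_orderOf hr hx)).1
    · right
      rw [hb1, ← (eq_zpowers_of_mem hr hMc (hmem x) (hne x h)).1]
      exact (eq_zpowers_of_mem hr hL (mul_mem (mem_zpowers x) (inv_mem (hinv x (mem_zpowers x))))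
        (hne x h)).1.symm

end one

section two
variable {R S : Type*} [Group R] [Finite R] [Group S] [Finite S] {r : ℕ}

lemma two_gen (hr : r.Prime) (hR : Nat.card R = r ^ 2) (hS : Nat.card S = r ^ 2) {a b : R}
    {a' b' : S} (ha : orderOf a = r) (hb : orderOf b = r) (hab : b ∉ zpowers a)
    (ha' : orderOf a' = r) (hb' : orderOf b' = r) (hab' : b' ∉ zpowers a') :
    ∃ Φ : R ≃* S, Φ a = a' ∧ Φ b = b' := by
  let u : Bool → R := fun i => cond i a b
  let v : Bool → S := fun i => cond i a' b'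
  have hu : ∀ i, orderOf (u i) = r := fun i => by cases i <;> assumption
  have hv : ∀ i, orderOf (v i) = r := fun i => by cases i <;> assumption
  have g1 : ∀ {T : Type _} [Group T] (x : T) (y : zpowers x),
      y ∈ zpowers (⟨x, mem_zpowers x⟩ : zpowers x) := by
    rintro T _ x ⟨_, k, rfl⟩
    exact ⟨k, rfl⟩
  have g2 : ∀ {T : Type _} [Group T] (x : T) (y : zpowers x),
      y ∈ zpowers (⟨x, mem_zpowers x⟩ : zpowers x) := by
    rintro T _ x ⟨_, k, rfl⟩
    exact ⟨k, rfl⟩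
  let β : ∀ i, zpowers (u i) ≃* zpowers (v i) := fun i =>
    mulEquivOfOrderOfEq (g1 (u i)) (g2 (v i)) (by
      rw [← Subgroup.orderOf_coe, ← Subgroup.orderOf_coe (H := zpowers (v i))]
      exact (hu i).trans (hv i).symm)
  have hβ : ∀ i, (β i ⟨u i, mem_zpowers _⟩ : S) = v i := fun i => by simp [β]
  have c1 := comm_of_card (R := R) hr (hR ▸ dvd_rfl)
  have c2 := comm_of_card (R := S) hr (hS ▸ dvd_rfl)
  obtain ⟨Φ, hΦ⟩ := glue Finset.univ (fun i => zpowers (u i)) (fun i => zpowers (v i)) β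
    (eq_top_of_two hr hR ha hab
      ((le_iSup₂_of_le true (Finset.mem_univ _) le_rfl : zpowers (u true) ≤ _) (mem_zpowers a))
      ((le_iSup₂_of_le false (Finset.mem_univ _) le_rfl : zpowers (u false) ≤ _) (mem_zpowers b)))
    (eq_top_of_two hr hS ha' hab'
      ((le_iSup₂_of_le true (Finset.mem_univ _) le_rfl : zpowers (v true) ≤ _) (mem_zpowers a'))
      ((le_iSup₂_of_le false (Finset.mem_univ _) le_rfl : zpowers (v false) ≤ _) (mem_zpowers b')))
    (by simp [Nat.card_zpowers, hu, hR]) (hR.trans hS.symm)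
    (fun i _ j _ _ => Or.inl fun x y => ⟨y, by rw [c1 x, mul_inv_cancel_right],
      by rw [c2 (β i x), mul_inv_cancel_right]⟩)
  exact ⟨Φ, (hΦ true (Finset.mem_univ _) ⟨a, mem_zpowers a⟩).trans (hβ true),
    (hΦ false (Finset.mem_univ _) ⟨b, mem_zpowers b⟩).trans (hβ false)⟩

omit [Finite R] [Finite S] in
lemma card_map_equiv (Φ : R ≃* S) (L : Subgroup R) :
    Nat.card (L.map Φ.toMonoidHom) = Nat.card L :=
  (Nat.card_congr (Φ.subgroupMap L).toEquiv).symm

lemma match_three (hR : Nat.card R = 3 ^ 2) (hS : Nat.card S = 3 ^ 2) (cR : ¬ IsCyclic R)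
    (cS : ¬ IsCyclic S) {J : Type*} (L : J → Subgroup R) (M : J → Subgroup S)
    (hL : ∀ j, Nat.card (L j) = 3) (hM : ∀ j, Nat.card (M j) = 3)
    (h : ∀ i j, L i = L j ↔ M i = M j) :
    ∃ Φ : R ≃* S, ∀ j, (L j).map Φ.toMonoidHom = M j := by
  have p3 := Nat.prime_three
  obtain ⟨a, b, ha, hb, hab⟩ := exists_two p3 hR cR
  obtain ⟨a0, b0, ha0, hb0, hab0⟩ := exists_two p3 hS cS
  obtain ⟨Φ0, -⟩ := two_gen p3 hR hS ha hb hab ha0 hb0 hab0
  let X := {L : Subgroup R // Nat.card L = 3}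
  let Y := {L : Subgroup S // Nat.card L = 3}
  have e0 : X ≃ Y := Equiv.subtypeEquiv Φ0.mapSubgroup.toEquiv fun K => by
    rw [← card_map_equiv Φ0 K]; rfl
  let s : Set X := Set.range fun j => ⟨L j, hL j⟩
  have hs : ∀ x : s, L x.2.choose = x.1.1 := fun x => congrArg Subtype.val x.2.choose_spec
  let f : s ↪ Y := ⟨fun x => ⟨M x.2.choose, hM _⟩, fun x y e => Subtype.ext (Subtype.ext (by
    rw [← hs x, ← hs y]; exact (h _ _).2 (congrArg Subtype.val e)))⟩
  obtain ⟨e, he⟩ := Cardinal.extend_function_finite f ⟨e0⟩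
  have hej : ∀ j, (e ⟨L j, hL j⟩ : Subgroup S) = M j := fun j => by
    rw [he ⟨⟨L j, hL j⟩, j, rfl⟩]
    exact (h _ _).1 (hs ⟨⟨L j, hL j⟩, j, rfl⟩)
  have hab1 : a * b ≠ 1 := fun h => hab (by
    rw [eq_inv_of_mul_eq_one_right h]; exact inv_mem (mem_zpowers a))
  let x1 : X := ⟨zpowers a, (Nat.card_zpowers a).trans ha⟩
  let x2 : X := ⟨zpowers b, (Nat.card_zpowers b).trans hb⟩
  let x3 : X := ⟨zpowers (a * b),
    (Nat.card_zpowers _).trans (orderOf_eq_of_not_cyclic p3 hR cR hab1)⟩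
  have n12 : x1 ≠ x2 := fun h => hab
    ((congrArg Subtype.val h : zpowers a = zpowers b).ge (mem_zpowers b))
  have n13 : x1 ≠ x3 := fun h => hab (by
    have h1 : a * b ∈ zpowers a :=
      (congrArg Subtype.val h : zpowers a = zpowers (a * b)).ge (mem_zpowers _)
    simpa using mul_mem (inv_mem (mem_zpowers a)) h1)
  have n23 : x2 ≠ x3 := fun h => not_mem_of_ne p3 hb ha (fun e => n12 (Subtype.ext e.symm)) (by
    have h1 : a * b ∈ zpowers b :=
      (congrArg Subtype.val h : zpowers b = zpowers (a * b)).ge (mem_zpowers _)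
    simpa using mul_mem h1 (inv_mem (mem_zpowers b)))
  obtain ⟨a', ea, ha'⟩ := exists_gen p3 (e x1).2
  obtain ⟨b', eb, hb', ec⟩ : ∃ b' : S, zpowers b' = e x2 ∧ orderOf b' = 3 ∧
      zpowers (a' * b') = e x3 := by
    obtain ⟨b', eb, hb'⟩ := exists_gen p3 (e x2).2
    have hne := not_mem_of_ne p3 ha' hb' fun h => n12 (e.injective (Subtype.ext (ea ▸ eb ▸ h)))
    rcases lines_three hS ha' hb' hne (e x3).2 with h | h | h | h
    · exact absurd (e.injective (Subtype.ext (ea.symm.trans h.symm))) n13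
    · exact absurd (e.injective (Subtype.ext (eb.symm.trans h.symm))) n23
    · exact ⟨b', eb, hb', h.symm⟩
    · exact ⟨b'⁻¹, by rw [zpowers_inv, eb], by rw [orderOf_inv, hb'], h.symm⟩
  have hne := not_mem_of_ne p3 ha' hb' fun h => n12 (e.injective (Subtype.ext (ea ▸ eb ▸ h)))
  obtain ⟨Φ, h1, h2⟩ := two_gen p3 hR hS ha hb hab ha' hb' hne
  have key : ∀ x : X, (x : Subgroup R).map Φ.toMonoidHom = e x := by
    intro x
    by_cases k1 : x = x1
    · rw [k1, ← ea, ← h1]; exact MonoidHom.map_zpowers _ _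
    by_cases k2 : x = x2
    · rw [k2, ← eb, ← h2]; exact MonoidHom.map_zpowers _ _
    by_cases k3 : x = x3
    · rw [k3, ← ec, ← h1, ← h2, ← map_mul]; exact MonoidHom.map_zpowers _ _
    rcases lines_three hR ha hb hab x.2 with h | h | h | h
    · exact absurd (Subtype.ext h) k1
    · exact absurd (Subtype.ext h) k2
    · exact absurd (Subtype.ext h) k3
    rcases lines_three hS ha' hb' hne (e x).2 with h' | h' | h' | h'
    · exact absurd (e.injective (Subtype.ext (h'.trans ea))) k1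
    · exact absurd (e.injective (Subtype.ext (h'.trans eb))) k2
    · exact absurd (e.injective (Subtype.ext (h'.trans ec))) k3
    · rw [h, h', ← h1, ← h2, ← map_inv, ← map_mul]; exact MonoidHom.map_zpowers _ _
  exact ⟨Φ, fun j => (key ⟨L j, hL j⟩).trans (hej j)⟩

end two

end Pool.Agent.Lib.MP_cb9dee_al
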