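import Pool.Agent.Lib.MP_cb9dee_al.Field
import Pool.Agent.Lib.MP_cb9dee_al.Count

namespace Pool.Agent.Lib.MP_cb9dee_al

open Subgroup

/-- Cubefree, and no odd prime divisor `q` divides `p - 1` when `p ^ 2` divides `n`. -/
def Small (n : ℕ) : Prop :=
  (∀ p, p.Prime → ¬ p ^ 3 ∣ n) ∧
  (∀ p q, p.Prime → q.Prime → q ≠ 2 → q ∣ n → p ^ 2 ∣ n → ¬ q ∣ p - 1)

lemma Small.of_dvd {m n : ℕ} (h : Small n) (hm : m ∣ n) : Small m :=
  ⟨fun p hp h3 => h.1 p hp (h3.trans hm),
    fun p q hp hq h2 h1 h3 => h.2 p q hp hq h2 (h1.trans hm) (h3.trans hm)⟩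

variable {G : Type*} [Group G]

/-- `a` is conjugation by `g`. -/
def IsCj {P : Subgroup G} (a : MulAut P) (g : G) : Prop := ∀ x : P, (a x : G) = g * x * g⁻¹

lemma exists_isCj {P : Subgroup G} [Finite P] {g : G} (h : ∀ x ∈ P, g * x * g⁻¹ ∈ P) :
    ∃ a : MulAut P, IsCj a g :=
  ⟨P.normalizerMonoidHom ⟨g, mem_normalizer_fintype h⟩, fun _ => rfl⟩

lemma isCj_conjNormal (P : Subgroup G) [P.Normal] (g : G) : IsCj (MulAut.conjNormal (H := P) g) g :=
  fun _ => rfl

lemma IsCj.pow {P : Subgroup G} {a : MulAut P} {g : G} (h : IsCj a g) (k : ℕ) :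
    IsCj (a ^ k) (g ^ k) := by
  induction k with
  | zero => intro x; simp
  | succ k ih =>
    intro x
    rw [pow_succ, MulAut.mul_apply, ih, h, pow_succ]
    group

lemma IsCj.eq_one_iff {P : Subgroup G} {a : MulAut P} {g : G} (h : IsCj a g) :
    a = 1 ↔ ∀ x ∈ P, g * x = x * g := by
  constructor
  · rintro rfl x hx
    have := h ⟨x, hx⟩
    change x = g * x * g⁻¹ at this
    rw [eq_mul_inv_iff_mul_eq] at this
    exact this.symm
  · intro h'
    ext x
    rw [h, h' x x.2]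
    simp

lemma IsCj.orderOf_dvd {P : Subgroup G} {a : MulAut P} {g : G} (h : IsCj a g) :
    orderOf a ∣ orderOf g := by
  rw [orderOf_dvd_iff_pow_eq_one, (h.pow _).eq_one_iff, pow_orderOf_eq_one]
  simp

variable [Finite G]

lemma card_sylow_dvd {r : ℕ} [hr : Fact r.Prime] (hG : Small (Nat.card G)) (P : Sylow r G) :
    Nat.card P ∣ r ^ 2 := by
  rw [P.card_eq_multiplicity]
  apply pow_dvd_pow
  by_contra h
  exact hG.1 r hr.out ((hr.out.pow_dvd_iff_le_factorization Nat.card_pos.ne').2 (by omega))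

lemma card_sylow_cases {r : ℕ} [hr : Fact r.Prime] (hG : Small (Nat.card G)) (P : Sylow r G)
    (h : r ∣ Nat.card G) : Nat.card P = r ∨ Nat.card P = r ^ 2 := by
  obtain ⟨k, hk, e⟩ := (Nat.dvd_prime_pow hr.out).1 (card_sylow_dvd hG P)
  have h1 := P.dvd_card_of_dvd_card h
  interval_cases k
  · rw [e, pow_zero, Nat.dvd_one] at h1
    exact absurd h1 hr.out.one_lt.ne'
  · left; simpa using e
  · right; exact e

lemma sylow_comm {r : ℕ} [hr : Fact r.Prime] (hG : Small (Nat.card G)) (P : Sylow r G)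
    {x y : G} (hx : x ∈ P) (hy : y ∈ P) : x * y = y * x :=
  congrArg Subtype.val (comm_of_card (R := P) hr.out (card_sylow_dvd hG P) ⟨x, hx⟩ ⟨y, hy⟩)

lemma IsCj.coprime {r : ℕ} [hr : Fact r.Prime] (hG : Small (Nat.card G)) {P : Sylow r G}
    {a : MulAut P} {g : G} (h : IsCj (P := P) a g) : (orderOf a).Coprime r := by
  have hg : g ∈ normalizer ((P : Subgroup G) : Set G) :=
    mem_normalizer_fintype fun x hx => (h ⟨x, hx⟩) ▸ (a ⟨x, hx⟩).2
  have h1 := pow_index_mem (H := (P : Subgroup G).subgroupOf (normalizer ((P : Subgroup G) : Set G))) ⟨g, hg⟩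
  have h2 : g ^ (P : Subgroup G).relIndex (normalizer ((P : Subgroup G) : Set G)) ∈ P := h1
  have h3 : orderOf a ∣ (P : Subgroup G).index := by
    refine dvd_trans ?_ (relIndex_dvd_index_of_le (P : Subgroup G).le_normalizer)
    rw [orderOf_dvd_iff_pow_eq_one, (h.pow _).eq_one_iff]
    exact fun x hx => sylow_comm hG P h2 hx
  exact (((Nat.Prime.coprime_iff_not_dvd hr.out).2 P.not_dvd_index).symm).coprime_dvd_left h3

lemma IsCj.good {r : ℕ} [hr : Fact r.Prime] (hG : Small (Nat.card G)) {P : Sylow r G}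
    (hrG : r ∣ Nat.card G) {a : MulAut P} {g : G} (h : IsCj (P := P) a g)
    (hg : ¬ 2 ∣ orderOf g) : Good r a := by
  refine (card_sylow_cases hG P hrG).imp id fun hP => ⟨hP, (h.coprime hG).mul_right ?_⟩
  apply Nat.coprime_of_dvd
  intro q hq hqa
  have h1 := hqa.trans h.orderOf_dvd
  exact hG.2 r q hr.out hq (fun e => hg (e ▸ h1)) (h1.trans (orderOf_dvd_natCard g))
    (hP ▸ card_subgroup_dvd_card (P : Subgroup G))

lemma mem_sylow_of_comm {q : ℕ} [Fact q.Prime] (Q : Sylow q G) {y : G} {k : ℕ}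
    (hy : y ^ q ^ k = 1) (hc : ∀ x ∈ Q, y * x = x * y) : y ∈ Q := by
  have h1 : IsPGroup q (zpowers y) := by
    obtain ⟨j, -, hj⟩ := (Nat.dvd_prime_pow Fact.out).1 (orderOf_dvd_of_pow_eq_one hy)
    exact IsPGroup.of_card ((Nat.card_zpowers y).trans hj)
  have h2 : y ∈ zpowers y ⊓ normalizer (Q : Set G) :=
    ⟨mem_zpowers y, mem_normalizer_fintype fun x hx => by rw [hc x hx]; simpa using hx⟩
  rw [h1.inf_normalizer_sylow] at h2
  exact h2.2

lemma pow_eq_one_of_mem_sylow {q : ℕ} [Fact q.Prime] (Q : Sylow q G) {y : G} (hy : y ∈ Q) :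
    y ^ q ^ (Nat.card G).factorization q = 1 := by
  rw [← Q.card_eq_multiplicity]
  exact pow_card_of_mem (G := G) (Y := (Q : Subgroup G)) (x := y) hy

omit [Finite G] in
lemma exists_sylow_map {p : ℕ} [hp : Fact p.Prime] {K : Subgroup G} [Finite K] (P : Sylow p K)
    (hK : ¬ p ∣ K.index) : ∃ Q : Sylow p G, (Q : Subgroup G) = (P : Subgroup K).map K.subtype :=
  ⟨(P.isPGroup'.map K.subtype).toSylow (by
    rw [index_map_subtype, hp.out.dvd_mul]
    exact fun h => h.elim P.not_dvd_index hK), rfl⟩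

end Pool.Agent.Lib.MP_cb9dee_al
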