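import Pool.Agent.Lib.MP_cb9dee_al.Types
import Pool.Agent.Lib.MP_cb9dee_al.Lines
import Pool.Agent.Lib.MP_cb9dee_al.Struct

namespace Pool.Agent.Lib.MP_cb9dee_al

open Subgroup

lemma eq_one_of_eq_inv {R : Type*} [Group R] {x : R} (h2 : ¬ 2 ∣ orderOf x) (hx : x = x⁻¹) :
    x = 1 := by
  rw [eq_inv_iff_mul_eq_one, ← pow_two] at hx
  rcases (Nat.dvd_prime Nat.prime_two).1 (orderOf_dvd_of_pow_eq_one hx) with h | h
  · exact orderOf_eq_one_iff.1 h
  · exact (h2 (h ▸ dvd_rfl)).elim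

theorem four_trivial {R : Type*} [Group R] [Finite R] {r : ℕ} (hr : r.Prime) (h2 : r ≠ 2)
    (hR : Nat.card R ∣ r ^ 2) {a b : MulAut R} (ha : a * a = 1) (hb : b * b = 1)
    (hab : a * b = b * a) (e1 : Nat.card (fixS a) = Nat.card (fixS b))
    (e2 : Nat.card (fixS a) = Nat.card (fixS (a * b))) : a = 1 ∧ b = 1 := by
  have hcomm := comm_of_card hr hR
  have hodd : ∀ x : R, x = x⁻¹ → x = 1 := fun x hx => eq_one_of_eq_inv (fun h =>
    h2 ((Nat.prime_dvd_prime_iff_eq Nat.prime_two hr).1 (Nat.prime_two.dvd_of_dvd_pow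
      (h.trans ((orderOf_dvd_natCard x).trans hR)))).symm) hx
  have top : ∀ c : MulAut R, Nat.card (fixS c) = Nat.card R → c = 1 := fun c h => by
    have := eq_top_of_card_eq _ h
    ext x
    exact (this ▸ mem_top x : x ∈ fixS c)
  have hc : ∀ x, a (b x) = b (a x) := fun x => DFunLike.congr_fun hab x
  have hbb : ∀ x, b (b x) = x := fun x => DFunLike.congr_fun hb x
  have haa : ∀ x, a (a x) = x := fun x => DFunLike.congr_fun ha x
  by_cases h1 : Nat.card (fixS a) = Nat.card R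
  · exact ⟨top a h1, top b (e1 ▸ h1)⟩
  by_cases h0 : Nat.card (fixS a) = 1
  · have habab : a * b * (a * b) = 1 := by
      rw [mul_assoc, ← mul_assoc b, ← hab, mul_assoc, hb, mul_one, ha]
    have ia := inv_of_fix_bot hcomm ha (card_eq_one.1 h0)
    have ib := inv_of_fix_bot hcomm hb (card_eq_one.1 (e1 ▸ h0))
    have iab := inv_of_fix_bot hcomm habab (card_eq_one.1 (e2 ▸ h0))
    have : ∀ x : R, x = 1 := fun x => hodd x (by
      have := iab x
      rwa [MulAut.mul_apply, ib, ia, inv_inv] at this)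
    exact ⟨by ext x; rw [this (a x), this x]; rfl, by ext x; rw [this (b x), this x]; rfl⟩
  exfalso
  have hd := card_subgroup_dvd_card (fixS a)
  obtain ⟨j, hj, hj'⟩ := (Nat.dvd_prime_pow hr).1 hR
  obtain ⟨i, hi, hi'⟩ := (Nat.dvd_prime_pow hr).1 (hj' ▸ hd)
  have hij : i ≠ j := fun h => h1 (by rw [hi', hj', h])
  have hi0 : i ≠ 0 := fun h => h0 (by rw [hi', h, pow_zero])
  obtain rfl : i = 1 := by omega
  obtain rfl : j = 2 := by omega
  rw [pow_one] at hi'
  obtain ⟨x, y, hx, hy, hxy, hf, ax, ay, hL⟩ := exists_refl hr h2 hj' ha hi'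
  have ntop : ∀ c : MulAut R, Nat.card (fixS c) = r → c x = x → c y = y → False := by
    intro c h cx cy
    have := eq_top_of_two hr hj' hx hxy (L := fixS c) cx cy
    rw [this, card_top, hj'] at h
    exact (Nat.pow_lt_pow_right hr.one_lt one_lt_two).ne' (h.trans (pow_one r).symm)
  rcases hL (fixS b) (e1 ▸ hi') (fun z hz => by
    rw [mem_fixS] at hz ⊢; rw [← hc, hz]) with h | h
  · have bx : b x = x := (h ▸ (ax : x ∈ fixS a) : x ∈ fixS b)
    have hz : y * b y ∈ fixS a := h ▸ (by rw [mem_fixS, map_mul, hbb, hcomm] : y * b y ∈ fixS b)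
    have hz1 : y * b y = 1 := hodd _ (by
      rw [mem_fixS, map_mul, hc, ay, map_inv] at hz
      rw [mul_inv_rev, hcomm (b y)⁻¹, hz])
    refine ntop (a * b) (e2 ▸ hi') (by rw [MulAut.mul_apply, bx, ax]) ?_
    rw [MulAut.mul_apply, ← (inv_eq_of_mul_eq_one_right hz1), map_inv, ay, inv_inv]
  · have by' : b y = y := (h ▸ mem_zpowers y : y ∈ fixS b)
    rcases hL (fixS (a * b)) (e2 ▸ hi') (fun z hz => by
      rw [mem_fixS, MulAut.mul_apply] at hz ⊢; rw [← hc, hz]) with h' | h'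
    · have : a (b x) = x := (h' ▸ (ax : x ∈ fixS a) : x ∈ fixS (a * b))
      exact ntop b (e1 ▸ hi') (by rw [← haa (b x), this, ax]) by'
    · have : a (b y) = y := (h' ▸ mem_zpowers y : y ∈ fixS (a * b))
      rw [by', ay] at this
      exact ne_one_of_orderOf hr hy (hodd y this.symm)

theorem trf {G : Type*} [Group G] [Finite G] {p : ℕ} [Fact p.Prime] (P : Sylow p G)
    (hP : ∀ x ∈ P, ∀ y ∈ P, x * y = y * x) {z : G} (hz : z ∈ P)
    (hN : ∀ g ∈ normalizer ((P : Subgroup G) : Set G), g * z = z * g) (hc : z ∈ commutator G) :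
    z = 1 := by
  have hcomm : IsMulCommutative (P : Subgroup G) :=
    ⟨⟨fun a b => Subtype.ext (hP a a.2 b b.2)⟩⟩
  let _ : CommGroup (P : Subgroup G) := ⟨fun a b => Subtype.ext (hP a a.2 b b.2)⟩
  have h1 := MonoidHom.transfer_eq_pow (MonoidHom.id (P : Subgroup G)) z (fun k g hg => by
    obtain ⟨n, hn, h⟩ := P.conj_eq_normalizer_conj_of_mem (z ^ k) g (pow_mem hz k) hg
    rw [h, mul_assoc, ← (Commute.pow_right (hN n hn) k).eq, ← mul_assoc, inv_mul_cancel, one_mul])
  have h2 : MonoidHom.transfer (MonoidHom.id (P : Subgroup G)) z = 1 :=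
    Abelianization.commutator_subset_ker _ hc
  rw [h2] at h1
  have h3 : z ^ (P : Subgroup G).index = 1 := (congrArg Subtype.val h1).symm
  exact orderOf_eq_one_iff.1 (Nat.eq_one_of_dvd_coprimes P.card_coprime_index
    (Subgroup.orderOf_dvd_natCard _ hz) (orderOf_dvd_of_pow_eq_one h3))

/-- Powers of `s * c` recover `s`, when `c` commutes with `s` and lies in `U`. -/
lemma pow_part {G : Type*} [Group G] [Finite G] (U : Subgroup G) (s : G)
    (hc : (orderOf s).Coprime (Nat.card U)) :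
    ∃ e : ℕ, ∀ c ∈ U, c * s = s * c → (s * c) ^ e = s := by
  obtain ⟨e, he1, he2⟩ := Nat.chineseRemainder hc 1 0
  refine ⟨e, fun c hcU h => ?_⟩
  rw [(Commute.symm h).mul_pow, ← pow_mod_orderOf, he1, pow_mod_orderOf, pow_one,
    orderOf_dvd_iff_pow_eq_one.1 ((Subgroup.orderOf_dvd_natCard _ hcU).trans
      ((Nat.modEq_zero_iff_dvd).1 he2)), mul_one]

theorem fib {G M : Type*} [Group G] [Fintype G] [AddCommMonoid M] (U : Subgroup G)
    [DecidablePred (· ∈ U)] [DecidableEq G] (s : G) (hs : ∀ u ∈ U, s * u * s⁻¹ ∈ U)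
    (hc : (orderOf s).Coprime (Nat.card U)) (F : G → M)
    (hF : ∀ u ∈ U, ∀ x, F (u * x * u⁻¹) = F x) :
    ∑ u ∈ Finset.univ.filter (· ∈ U), F (s * u) =
      (centralizer ({s} : Set G)).relIndex U •
        ∑ c ∈ Finset.univ.filter (fun c => c ∈ U ∧ c * s = s * c), F (s * c) := by
  classical
  obtain ⟨e, he⟩ := pow_part U s hc
  have hs' : ∀ u ∈ U, s⁻¹ * u * s ∈ U := fun u hu => by
    have := (le_normalizer_of_conj (A := zpowers s) (B := U) (fun a ha b hb => by
      obtain ⟨k, rfl⟩ := mem_powers_iff_mem_zpowers.2 ha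
      induction k with
      | zero => simpa using hb
      | succ k ih =>
        have := hs _ (ih (pow_mem (mem_zpowers s) k))
        simpa [pow_succ', mul_assoc] using this)) (inv_mem (mem_zpowers s))
    simpa using (mem_normalizer_iff.1 this u).1 hu
  let C := (centralizer ({s} : Set G)).subgroupOf U
  have hC : ∀ c : U, c ∈ C ↔ (c : G) * s = s * c := fun c => by
    simp only [C, mem_subgroupOf, mem_centralizer_singleton_iff]
  let φ : (U ⧸ C) × C → U := fun z => ⟨s⁻¹ * (z.1.out : U) * s * (z.2 : U) * ((z.1.out : U) : G)⁻¹,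
    mul_mem (mul_mem (hs' _ (z.1.out).2) (z.2 : U).2) (inv_mem (z.1.out).2)⟩
  have hφ : ∀ z, s * (φ z : G) = (z.1.out : U) * (s * (z.2 : U)) * ((z.1.out : U) : G)⁻¹ :=
    fun z => by simp only [φ]; group
  have hinj : Function.Injective φ := by
    rintro ⟨q, c⟩ ⟨q', c'⟩ h
    have h1 := hφ (q, c)
    rw [h, hφ] at h1
    have h2 := congrArg (· ^ e) h1
    simp only [conj_pow] at h2
    rw [he _ (c' : U).2 ((hC _).1 c'.2), he _ (c : U).2 ((hC _).1 c.2)] at h2
    obtain rfl : q = q' := by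
      rw [← q.out_eq, ← q'.out_eq]
      refine QuotientGroup.eq.2 ((hC _).2 ?_)
      push_cast
      calc ((q.out : U) : G)⁻¹ * (q'.out : U) * s
          = ((q.out : U) : G)⁻¹ * ((q'.out : U) * s * ((q'.out : U) : G)⁻¹) * (q'.out : U) := by
            group
        _ = _ := by rw [h2]; group
    simp only [mul_left_inj, mul_right_inj] at h1
    exact Prod.ext rfl (Subtype.ext (Subtype.ext h1.symm))
  have hbij : Function.Bijective φ := (Nat.bijective_iff_injective_and_card φ).2 ⟨hinj, by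
    rw [Nat.card_prod, ← card_eq_card_quotient_mul_card_subgroup]⟩
  rw [Finset.sum_subtype (p := (· ∈ U)) _ (by simp) (fun u => F (s * u)),
    ← Fintype.sum_bijective φ hbij (fun z => F (s * ((z.2 : U) : G))) _ (fun z => by
      rw [hφ, hF _ (z.1.out).2]), Fintype.sum_prod_type]
  simp only []
  rw [Finset.sum_const, Finset.card_univ, ← Nat.card_eq_fintype_card]
  congr 1
  refine Finset.sum_bij (fun c _ => ((c : U) : G)) (fun c _ => ?_) (fun c _ c' _ h => ?_)
    (fun c hc => ?_) (fun _ _ => rfl)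
  · simpa using (hC _).1 c.2
  · exact Subtype.ext (Subtype.ext h)
  · simp only [Finset.mem_filter, Finset.mem_univ, true_and] at hc
    exact ⟨⟨⟨c, hc.1⟩, (hC _).2 hc.2⟩, Finset.mem_univ _, rfl⟩

end Pool.Agent.Lib.MP_cb9dee_al
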