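import Pool.Agent.Lib.MP_cb9dee_al.Dec

namespace Pool.Agent.Lib.MP_cb9dee_al

open Subgroup Pointwise

variable {G : Type*} [Group G] [Finite G]

lemma eq_one_of_mem_sylow_of_not_dvd {r : ℕ} (hr : r.Prime) (P : Sylow r G) (h : ¬ r ∣ Nat.card G)
    {x : G} (hx : x ∈ P) : x = 1 := by
  have := Fact.mk hr
  simpa [Nat.factorization_eq_zero_of_not_dvd h] using pow_eq_one_of_mem_sylow P hx

omit [Finite G] in
lemma eq_one_of_coprime {A B : Subgroup G} (h : (Nat.card A).Coprime (Nat.card B)) {x : G}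
    (ha : x ∈ A) (hb : x ∈ B) : x = 1 :=
  orderOf_eq_one_iff.1 (Nat.eq_one_of_dvd_coprimes h
    (orderOf_dvd_of_pow_eq_one (pow_card_of_mem ha))
    (orderOf_dvd_of_pow_eq_one (pow_card_of_mem hb)))

lemma comm_of_normal {p q : ℕ} (hp : p.Prime) (hq : q.Prime) (hs : Small (Nat.card G))
    (P : Sylow p G) (Q : Sylow q G) (hP : (P : Subgroup G).Normal) (hQ : (Q : Subgroup G).Normal)
    {x y : G} (hx : x ∈ P) (hy : y ∈ Q) : x * y = y * x := by
  by_cases h : p = q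
  · subst h
    have := Fact.mk hp
    have := P.unique_of_normal hP
    rw [Subsingleton.elim Q P] at hy
    exact sylow_comm hs P hx hy
  · exact commute_of_normal_of_disjoint _ _ hP hQ
      (disjoint_def.2 (eq_one_of_coprime (coprime_card_sylow hp hq h P Q))) x y hx hy

lemma exists_conj_mem_sylow {q : ℕ} [Fact q.Prime] (Q : Sylow q G) {y : G} {k : ℕ}
    (hy : y ^ q ^ k = 1) : ∃ c : G, c * y * c⁻¹ ∈ Q := by
  have h1 : IsPGroup q (zpowers y) := by
    obtain ⟨j, -, hj⟩ := (Nat.dvd_prime_pow Fact.out).1 (orderOf_dvd_of_pow_eq_one hy)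
    exact IsPGroup.of_card ((Nat.card_zpowers y).trans hj)
  obtain ⟨Q', hQ'⟩ := h1.exists_le_sylow
  obtain ⟨g, hg⟩ := MulAction.exists_smul_eq G Q' Q
  refine ⟨g, ?_⟩
  rw [← hg]
  exact Subgroup.smul_mem_pointwise_smul _ _ _ (hQ' (mem_zpowers y))

lemma mem_sylow_of_normal {q : ℕ} [Fact q.Prime] (Q : Sylow q G) (hQ : (Q : Subgroup G).Normal)
    {y : G} {k : ℕ} (hy : y ^ q ^ k = 1) : y ∈ Q := by
  obtain ⟨c, hc⟩ := exists_conj_mem_sylow Q hy
  have h : y ∈ (Q : Subgroup G) := by simpa [mul_assoc] using hQ.conj_mem _ hc c⁻¹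
  exact h

namespace Sys

variable (S : Sys G)

omit [Finite G] in
lemma eq_of_mem_two {g : G} (hg : g ∈ S.R 2) : g = 1 ∨ g = S.t := by
  have h : g ∈ zpowers S.t := S.hR2 ▸ hg
  let L : Subgroup G :=
    { carrier := {x | x = 1 ∨ x = S.t}
      one_mem' := Or.inl rfl
      mul_mem' := by
        rintro _ _ (rfl | rfl) (rfl | rfl) <;> simp [S.ht]
      inv_mem' := by
        rintro _ (rfl | rfl)
        · simp
        · exact Or.inr (inv_eq_of_mul_eq_one_right S.ht) }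
  exact (zpowers_le (H := L)).2 (Or.inr rfl) h

omit [Finite G] in
lemma nm_two {r : ℕ} (hr : r.Prime) (h2 : r ≠ 2) : Nm (S.R 2 : Subgroup G) (S.R r) := by
  intro g hg x hx
  rcases S.eq_of_mem_two hg with rfl | rfl
  · simpa using hx
  · exact S.hnt r hr h2 x hx

omit [Finite G] in
lemma nm {r s : ℕ} (hr : r.Prime) (hs : s.Prime) (h : r ≠ s) :
    Nm (S.R r : Subgroup G) (S.R s) ∨ Nm (S.R s : Subgroup G) (S.R r) := by
  by_cases h1 : r = 2
  · subst h1; exact Or.inl (S.nm_two hs h.symm)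
  by_cases h2 : s = 2
  · subst h2; exact Or.inr (S.nm_two hr h)
  by_cases h3 : (S.R s : Subgroup G).Normal
  · exact Or.inl fun a _ b hb => h3.conj_mem b hb a
  by_cases h4 : (S.R r : Subgroup G).Normal
  · exact Or.inr fun a _ b hb => h4.conj_mem b hb a
  refine Or.inl fun a ha b hb => ?_
  rw [S.hcomm r s hr hs h1 h2 h4 h3 a ha b hb]
  simpa using hb

/-- The Hall subgroup of the system for a finite set of primes. -/
def hall (σ : Finset ℕ) : Subgroup G := ⨆ r ∈ σ, (S.R r : Subgroup G)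

omit [Finite G] in
lemma le_hall {σ : Finset ℕ} {r : ℕ} (hr : r ∈ σ) : (S.R r : Subgroup G) ≤ S.hall σ :=
  le_iSup₂_of_le r hr le_rfl

lemma card_hall {σ : Finset ℕ} (hσ : ∀ r ∈ σ, r.Prime) :
    Nat.card (S.hall σ) = ∏ r ∈ σ, r ^ (Nat.card G).factorization r := by
  rw [hall, card_biSup _ σ (fun r hr s hs h => S.nm (hσ r hr) (hσ s hs) h)
      fun p hp q hq h => coprime_card_sylow (hσ p hp) (hσ q hq) h _ _]
  exact Finset.prod_congr rfl fun r hr => by
    have := Fact.mk (hσ r hr)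
    exact (S.R r).card_eq_multiplicity

lemma mem_of_dvd_card_hall {σ : Finset ℕ} (hσ : ∀ r ∈ σ, r.Prime) {q : ℕ} (hq : q.Prime)
    (h : q ∣ Nat.card (S.hall σ)) : q ∈ σ := by
  rw [S.card_hall hσ] at h
  obtain ⟨p, hp, h⟩ := (Prime.dvd_finsetProd_iff hq.prime _).1 h
  rwa [(Nat.prime_dvd_prime_iff_eq hq (hσ p hp)).1 (hq.dvd_of_dvd_pow h)]

lemma coprime_hall {σ : Finset ℕ} (hσ : ∀ r ∈ σ, r.Prime) :
    (Nat.card (S.hall σ)).Coprime (S.hall σ).index :=
  Nat.coprime_of_dvd fun q hq h h' => by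
    have := Fact.mk hq
    exact (S.R q).not_dvd_index (h'.trans (index_dvd_of_le
      (S.le_hall (S.mem_of_dvd_card_hall hσ hq h))))

lemma coprime_hall_sylow {σ : Finset ℕ} (hσ : ∀ r ∈ σ, r.Prime) {p : ℕ} (hp : p.Prime)
    (h : p ∉ σ) {k : ℕ} : (p ^ k).Coprime (Nat.card (S.hall σ)) :=
  ((Nat.Prime.coprime_iff_not_dvd hp).2 fun h' => h (S.mem_of_dvd_card_hall hσ hp h')).pow_left k

lemma hall_top : S.hall (Nat.card G).primeFactors = ⊤ := by
  apply eq_top_of_card_eq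
  rw [S.card_hall fun r hr => Nat.prime_of_mem_primeFactors hr]
  exact Nat.prod_factorization_pow_eq_self Nat.card_pos.ne'

lemma normal_hall {σ : Finset ℕ} {q : ℕ} (hq : q.Prime) (h2 : q ≠ 2)
    (hσ : ∀ r ∈ σ, r ≠ q → (S.R r : Subgroup G).Normal)
    (h : (S.R q : Subgroup G).Normal ∨ ∀ r, r.Prime → r ≠ 2 → r ∉ σ → r ∣ Nat.card G →
      ∀ x ∈ S.R r, ∀ y ∈ S.R q, x * y = y * x) : (S.hall σ).Normal := by
  rw [← normalizer_eq_top_iff, eq_top_iff, ← S.hall_top]
  refine iSup₂_le fun r hr => le_normalizer_of_conj fun g hg => nm_biSup _ σ g fun s hs b hb => ?_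
  by_cases hsq : s = q
  · subst hsq
    rcases h with h | h
    · exact S.le_hall hs (h.conj_mem b hb g)
    by_cases h3 : r ∈ σ
    · exact mul_mem (mul_mem (S.le_hall h3 hg) (S.le_hall hs hb)) (inv_mem (S.le_hall h3 hg))
    by_cases h4 : r = 2
    · subst h4
      exact S.le_hall hs (S.nm_two hq h2 g hg b hb)
    · rw [h r (Nat.prime_of_mem_primeFactors hr) h4 h3 (Nat.dvd_of_mem_primeFactors hr) g hg b hb]
      rw [mul_inv_cancel_right]
      exact S.le_hall hs hb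
  · exact S.le_hall hs ((hσ s hs hsq).conj_mem b hb g)

lemma card_inf_centralizer {r : ℕ} (hr : r.Prime) (h2 : r ≠ 2) :
    Nat.card ((S.R r : Subgroup G) ⊓ centralizer {S.t} : Subgroup G) =
      r ^ (Nat.card (centralizer ({S.t} : Set G))).factorization r := by
  classical
  have := Fact.mk hr
  set C := centralizer ({S.t} : Set G)
  obtain ⟨R0⟩ : Nonempty (Sylow r C) := inferInstance
  rw [← R0.card_eq_multiplicity]
  apply le_antisymm
  · obtain ⟨k, hk⟩ := ((S.R r).isPGroup'.to_inf_left (K := C)).exists_card_eq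
    rw [hk]
    exact Nat.le_of_dvd Nat.card_pos
      (R0.pow_dvd_card_of_pow_dvd_card (hk ▸ card_dvd_of_le inf_le_right))
  let σ : Finset ℕ := (Nat.card G).primeFactors.filter
    fun p => p ≠ 2 ∧ p ≠ r ∧ (S.R p : Subgroup G).Normal
  have hσ : ∀ p ∈ σ, p.Prime ∧ p ≠ 2 ∧ p ≠ r ∧ (S.R p : Subgroup G).Normal := fun p hp =>
    ⟨Nat.prime_of_mem_primeFactors (Finset.mem_filter.1 hp).1, (Finset.mem_filter.1 hp).2⟩
  have hσ' : ∀ p ∈ insert r σ, p.Prime := fun p hp =>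
    (Finset.mem_insert.1 hp).elim (· ▸ hr) fun h => (hσ p h).1
  have hN : (S.hall σ).Normal := ⟨fun x hx g => nm_biSup _ σ g
    (fun p hp b hb => S.le_hall hp ((hσ p hp).2.2.2.conj_mem b hb g)) x hx⟩
  have hY : (S.hall (insert r σ)).Normal := by
    refine S.normal_hall hr h2 (fun p hp hpr => (hσ p ((Finset.mem_insert.1 hp).resolve_left hpr)).2.2.2) ?_
    by_cases hn : (S.R r : Subgroup G).Normal
    · exact Or.inl hn
    · refine Or.inr fun p hp hp2 hpσ hpd => S.hcomm p r hp hr hp2 h2 (fun h => hpσ ?_) hn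
      by_cases hpr : p = r
      · exact hpr ▸ Finset.mem_insert_self _ _
      · exact Finset.mem_insert_of_mem (Finset.mem_filter.2
          ⟨Nat.mem_primeFactors.2 ⟨hp, hpd, Nat.card_pos.ne'⟩, hp2, hpr, h⟩)
  have hrσ : r ∉ σ := fun h => (hσ r h).2.2.1 rfl
  have htriv : ∀ (x : G) (k : ℕ), x ^ r ^ k = 1 → x ∈ S.hall σ → x = 1 := fun x k h1 h3 =>
    orderOf_eq_one_iff.1 (Nat.eq_one_of_dvd_coprimes
      (S.coprime_hall_sylow (fun p hp => (hσ p hp).1) hr hrσ) (orderOf_dvd_of_pow_eq_one h1)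
      (orderOf_dvd_of_pow_eq_one (pow_card_of_mem h3)))
  have hpow : ∀ x : C, x ∈ R0 → (x : G) ^ r ^ (Nat.card C).factorization r = 1 := fun x hx =>
    congrArg Subtype.val (pow_eq_one_of_mem_sylow R0 hx)
  have hex : ∀ x : R0, ∃ h : ((S.R r : Subgroup G) ⊓ C : Subgroup G),
      (h : G)⁻¹ * ((x : C) : G) ∈ S.hall σ := by
    intro x
    have h1 : ((x : C) : G) ∈ S.hall (insert r σ) := by
      refine mem_of_pow_eq_one ?_ (hpow x x.2)
      refine ((Nat.Prime.coprime_iff_not_dvd hr).2 fun h => ?_).pow_left _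
      exact (S.R r).not_dvd_index
        (h.trans (index_dvd_of_le (S.le_hall (Finset.mem_insert_self _ _))))
    rw [hall, Finset.iSup_insert, ← SetLike.mem_coe] at h1
    change _ ∈ (((S.R r : Subgroup G) ⊔ S.hall σ : Subgroup G) : Set G) at h1
    rw [mul_normal] at h1
    obtain ⟨h, hh, v, hv, e⟩ := h1
    have hx : ((x : C) : G) * S.t = S.t * ((x : C) : G) := mem_centralizer_singleton_iff.1 (x : C).2
    have h3 : h⁻¹ * (S.t * h * S.t⁻¹) = v * (S.t * v * S.t⁻¹)⁻¹ := by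
      have e' : h * v = ((x : C) : G) := e
      rw [← e'] at hx
      calc h⁻¹ * (S.t * h * S.t⁻¹) = h⁻¹ * (S.t * (h * v)) * (v⁻¹ * S.t⁻¹) := by group
        _ = _ := by rw [← hx]; group
    have h4 : h⁻¹ * (S.t * h * S.t⁻¹) = 1 :=
      htriv _ _ (pow_eq_one_of_mem_sylow (S.R r) (mul_mem (inv_mem hh) (S.hnt r hr h2 h hh)))
        (h3 ▸ mul_mem hv (inv_mem (hN.conj_mem v hv _)))
    refine ⟨⟨h, hh, mem_centralizer_singleton_iff.2 ?_⟩, ?_⟩
    · rw [inv_mul_eq_one, eq_mul_inv_iff_mul_eq] at h4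
      exact h4
    · rw [← e]; simpa using hv
  choose f hf using hex
  refine Nat.card_le_card_of_injective f fun x y hxy => ?_
  have h1 : (((x : C)⁻¹ * (y : C) : C) : G) ∈ S.hall σ := by
    have := mul_mem (inv_mem (hf x)) (hf y)
    rw [hxy] at this
    simpa [mul_assoc] using this
  have h3 := htriv _ _ (hpow _ (mul_mem (inv_mem x.2) y.2)) h1
  exact Subtype.ext (inv_mul_eq_one.1 (Subtype.ext h3))

end Sys

end Pool.Agent.Lib.MP_cb9dee_al
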