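import Pool.Agent.Lib.MP_cb9dee_al.Basic
import Pool.Agent.Lib.MP_cb9dee_al.Hall

/-! General lemmas on finite groups for block J. -/

namespace Pool.Agent.Lib.MP_cb9dee_al.J

open Subgroup

variable {G : Type*} [Group G] [Finite G]

omit [Finite G] in
lemma pow_rel_mem {Y M : Subgroup G} (hYM : Y ≤ M) (hn : ∀ g ∈ M, ∀ y ∈ Y, g * y * g⁻¹ ∈ Y)
    {x : G} (hx : x ∈ M) : x ^ Y.relIndex M ∈ Y := by
  have : (Y.subgroupOf M).Normal := (normal_subgroupOf_iff hYM).2 fun a b ha hb => hn b hb a ha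
  exact (Y.subgroupOf M).pow_index_mem ⟨x, hx⟩

omit [Finite G] in
lemma mem_of_nm {Y M : Subgroup G} (hYM : Y ≤ M) (hn : ∀ g ∈ M, ∀ y ∈ Y, g * y * g⁻¹ ∈ Y)
    {x : G} (hx : x ∈ M) {d : ℕ} (hd : d.Coprime (Y.relIndex M)) (hxd : x ^ d = 1) : x ∈ Y := by
  have : (Y.subgroupOf M).Normal := (normal_subgroupOf_iff hYM).2 fun a b ha hb => hn b hb a ha
  exact mem_of_pow_eq_one (Y := Y.subgroupOf M) (x := ⟨x, hx⟩) hd (Subtype.ext hxd)

lemma mem_of_nm' {Y : Subgroup G} {x : G} (hn : ∀ y ∈ Y, x * y * x⁻¹ ∈ Y) {d : ℕ}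
    (hd : d.Coprime Y.index) (hxd : x ^ d = 1) : x ∈ Y :=
  mem_of_nm le_normalizer (fun _ hg y hy => (mem_normalizer_iff.1 hg y).1 hy)
    (mem_normalizer_fintype hn)
    (hd.coprime_dvd_right (relIndex_dvd_index_of_le le_normalizer)) hxd

omit [Finite G] in
lemma card_mul_rel {Y M : Subgroup G} (h : Y ≤ M) : Nat.card Y * Y.relIndex M = Nat.card M := by
  rw [← relIndex_bot_left, ← relIndex_bot_left, relIndex_mul_relIndex ⊥ Y M bot_le h]

lemma sylow_in {p : ℕ} [Fact p.Prime] {P X : Subgroup G} (hP : IsPGroup p P) (h : P ≤ X) :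
    ∃ Q : Subgroup G, P ≤ Q ∧ Q ≤ X ∧ IsPGroup p Q ∧ ¬ p ∣ Q.relIndex X := by
  obtain ⟨Q, hQ⟩ := (hP.comap_subtype (K := X)).exists_le_sylow
  refine ⟨(Q : Subgroup X).map X.subtype, fun x hx => ⟨⟨x, h hx⟩, hQ hx, rfl⟩,
    map_subtype_le _, Q.isPGroup'.map _, ?_⟩
  rw [relIndex, subgroupOf, comap_map_eq_self_of_injective X.subtype_injective]
  exact Q.not_dvd_index

lemma sylow_conj {p : ℕ} [Fact p.Prime] {P Q X : Subgroup G} (hP : IsPGroup p P)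
    (hQ : IsPGroup p Q) (h : P ≤ X) (hi : ¬ p ∣ Q.relIndex X) :
    ∃ c ∈ X, ∀ y ∈ P, c * y * c⁻¹ ∈ Q := by
  obtain ⟨P', hP'⟩ := (hP.comap_subtype (K := X)).exists_le_sylow
  obtain ⟨c, hc⟩ := MulAction.exists_smul_eq X P' ((hQ.comap_subtype (K := X)).toSylow hi)
  refine ⟨c, c.2, fun y hy => ?_⟩
  have h1 : c * ⟨y, h hy⟩ * c⁻¹ ∈ ((c • P' : Sylow p X) : Subgroup X) :=
    ⟨⟨y, h hy⟩, hP' hy, rfl⟩
  rw [hc] at h1
  exact h1

lemma card_eq_pow {p : ℕ} [hp : Fact p.Prime] {Q X : Subgroup G} (hQ : IsPGroup p Q) (h : Q ≤ X)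
    (hi : ¬ p ∣ Q.relIndex X) : Nat.card Q = p ^ (Nat.card X).factorization p := by
  rw [← ((hQ.comap_subtype (K := X)).toSylow hi).card_eq_multiplicity]
  exact (Nat.card_congr (subgroupOfEquivOfLe h).toEquiv).symm

lemma card_dvd_pow {p : ℕ} [hp : Fact p.Prime] {Q X : Subgroup G} (hQ : IsPGroup p Q) (h : Q ≤ X) :
    Nat.card Q ∣ p ^ (Nat.card X).factorization p := by
  obtain ⟨Q', h1, h2, h3, h4⟩ := sylow_in hQ h
  exact card_eq_pow h3 h2 h4 ▸ card_dvd_of_le h1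

lemma inv_sylow {p : ℕ} (r : ℕ) [Fact p.Prime] [Fact r.Prime] {T X : Subgroup G}
    (hT : IsPGroup p T) (hn : ∀ g ∈ T, ∀ x ∈ X, g * x * g⁻¹ ∈ X) (hp : ¬ p ∣ Nat.card X) :
    ∃ R : Subgroup G, R ≤ X ∧ IsPGroup r R ∧ ¬ r ∣ R.relIndex X ∧
      ∀ g ∈ T, ∀ y ∈ R, g * y * g⁻¹ ∈ R := by
  have hle : T ≤ normalizer (X : Set G) := fun g hg => mem_normalizer_fintype (hn g hg)
  let f : T →* MulAut X := X.normalizerMonoidHom.comp (inclusion hle)
  let _ : MulAction T (Sylow r X) := MulAction.compHom _ f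
  obtain ⟨P0⟩ : Nonempty (Sylow r X) := inferInstance
  obtain ⟨P, hP⟩ := hT.nonempty_fixed_point_of_prime_not_dvd_card (Sylow r X)
    fun h => hp (h.trans (P0.card_dvd_index.trans (index_dvd_card _)))
  refine ⟨(P : Subgroup X).map X.subtype, map_subtype_le _, P.isPGroup'.map _, ?_, ?_⟩
  · rw [relIndex, subgroupOf, comap_map_eq_self_of_injective X.subtype_injective]
    exact P.not_dvd_index
  · rintro g hg _ ⟨y, hy, rfl⟩
    have h1 : f ⟨g, hg⟩ • P = P := hP ⟨g, hg⟩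
    have h2 : f ⟨g, hg⟩ y ∈ ((f ⟨g, hg⟩ • P : Sylow r X) : Subgroup X) := ⟨y, hy, rfl⟩
    rw [h1] at h2
    exact ⟨_, h2, rfl⟩

omit [Finite G] in
lemma card_fixS {X : Subgroup G} {a : MulAut X} {x : G} (h : IsCj a x) :
    Nat.card (fixS a) = Nat.card (X ⊓ centralizer {x} : Subgroup G) := by
  rw [← card_subtype]
  congr 2
  ext y
  rw [mem_inf, mem_centralizer_singleton_iff]
  constructor
  · rintro ⟨z, hz, rfl⟩
    have h1 := h z
    rw [show a z = z from hz, eq_mul_inv_iff_mul_eq] at h1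
    exact ⟨z.2, h1⟩
  · rintro ⟨h1, h2⟩
    refine ⟨⟨y, h1⟩, Subtype.ext ?_, rfl⟩
    rw [h, ← h2, mul_inv_cancel_right]

lemma card_modEq {X : Subgroup G} {x : G} (hn : ∀ y ∈ X, x * y * x⁻¹ ∈ X) {q : ℕ} (hq : q.Prime)
    (hx : x ^ q = 1) : Nat.card X ≡ Nat.card (X ⊓ centralizer {x} : Subgroup G) [MOD q] := by
  obtain ⟨a, ha⟩ := exists_isCj hn
  rw [← card_fixS ha]
  refine card_modEq_fixS hq ?_
  rw [(ha.pow q).eq_one_iff, hx]
  simp

lemma inv_of_fpf {X : Subgroup G} {u : G} (hn : ∀ y ∈ X, u * y * u⁻¹ ∈ X) (hu : u * u = 1)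
    (hf : ∀ y ∈ X, y * u = u * y → y = 1) : ∀ y ∈ X, u * y * u⁻¹ = y⁻¹ := by
  obtain ⟨a, ha⟩ := exists_isCj hn
  have h1 : MonoidHom.FixedPointFree a := fun y hy => by
    have h2 := ha y
    rw [hy, eq_mul_inv_iff_mul_eq] at h2
    exact Subtype.ext (hf y y.2 h2)
  have h2 : Function.Involutive a := fun y => Subtype.ext (by
    rw [ha, ha]
    calc u * (u * y * u⁻¹) * u⁻¹ = (u * u) * y * (u * u)⁻¹ := by group
      _ = y := by rw [hu]; simp)
  intro y hy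
  have h3 := congrFun (h1.coe_eq_inv_of_involutive h2) ⟨y, hy⟩
  rw [← ha ⟨y, hy⟩, h3]
  rfl

lemma four_cent {R : Subgroup G} {r : ℕ} (hr : r.Prime) (h2 : r ≠ 2) (hR : Nat.card R ∣ r ^ 2)
    {a b : G} (ha : a * a = 1) (hb : b * b = 1) (hab : a * b = b * a)
    (na : ∀ y ∈ R, a * y * a⁻¹ ∈ R) (nb : ∀ y ∈ R, b * y * b⁻¹ ∈ R)
    (e1 : Nat.card (R ⊓ centralizer {a} : Subgroup G) = Nat.card (R ⊓ centralizer {b} : Subgroup G))
    (e2 : Nat.card (R ⊓ centralizer {a} : Subgroup G) =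
      Nat.card (R ⊓ centralizer {a * b} : Subgroup G)) : ∀ y ∈ R, a * y = y * a := by
  obtain ⟨α, hα⟩ := exists_isCj na
  obtain ⟨β, hβ⟩ := exists_isCj nb
  have hmul : ∀ {γ δ : MulAut R} {c d : G}, IsCj γ c → IsCj δ d → IsCj (γ * δ) (c * d) :=
    fun h1 h2 y => by rw [MulAut.mul_apply, h1, h2]; group
  have hext : ∀ {γ δ : MulAut R} {c : G}, IsCj γ c → IsCj δ c → γ = δ := fun h1 h2 => by
    ext y; rw [h1, h2]
  have h1 : IsCj (1 : MulAut R) (1 : G) := fun y => by simp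
  refine hα.eq_one_iff.1 (four_trivial hr h2 hR (hext (ha ▸ hmul hα hα) h1)
    (hext (hb ▸ hmul hβ hβ) h1) (hext (hmul hα hβ) (hab ▸ hmul hβ hα)) ?_ ?_).1
  · rw [card_fixS hα, card_fixS hβ, e1]
  · rw [card_fixS hα, card_fixS (hmul hα hβ), e2]

omit [Finite G] in
lemma dihedral {s s' : G} (hs : s * s = 1) (hs' : s' * s' = 1) (ho : ¬ 2 ∣ orderOf (s * s')) :
    ∃ j : ℕ, (s * s') ^ j * s' * ((s * s') ^ j)⁻¹ = s := by
  obtain ⟨j, hj⟩ : ∃ j, orderOf (s * s') + 1 = 2 * j := ⟨(orderOf (s * s') + 1) / 2, by omega⟩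
  refine ⟨j, ?_⟩
  have h0 : s'⁻¹ = s' := inv_eq_of_mul_eq_one_right hs'
  have h1 : s' * (s * s')⁻¹ * s'⁻¹ = s * s' := by
    rw [mul_inv_rev, inv_eq_of_mul_eq_one_right hs, h0, ← mul_assoc, hs', one_mul]
  have h2 : s' * ((s * s') ^ j)⁻¹ = (s * s') ^ j * s' := by
    rw [← inv_pow, ← mul_inv_eq_iff_eq_mul, ← conj_pow, h1]
  rw [mul_assoc, h2, ← mul_assoc, ← pow_add, ← two_mul, ← hj, pow_succ, pow_orderOf_eq_one,
    one_mul, mul_assoc, hs', mul_one]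

/-- The fixed points of an involution in an invariant Sylow subgroup. -/
lemma card_inf_cent {r : ℕ} [hr : Fact r.Prime] {X R : Subgroup G} {s : G} (hs : s * s = 1)
    (hX : ¬ 2 ∣ Nat.card X) (nX : ∀ y ∈ X, s * y * s⁻¹ ∈ X) (hRX : R ≤ X) (hR : IsPGroup r R)
    (hi : ¬ r ∣ R.relIndex X) (nR : ∀ y ∈ R, s * y * s⁻¹ ∈ R)
    (hab : ∀ Q : Subgroup G, IsPGroup r Q → ∀ x ∈ Q, ∀ y ∈ Q, x * y = y * x) :
    Nat.card (R ⊓ centralizer {s} : Subgroup G) =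
      r ^ (Nat.card (X ⊓ centralizer {s} : Subgroup G)).factorization r := by
  have := Fact.mk Nat.prime_two
  refine Nat.le_antisymm (Nat.le_of_dvd (pow_pos hr.out.pos _)
    (card_dvd_pow hR.to_inf_left (inf_le_inf_right _ hRX))) ?_
  obtain ⟨R0, -, h01, h02, h03⟩ := sylow_in (X := X ⊓ centralizer {s}) (IsPGroup.of_bot (p := r))
    bot_le
  rw [← card_eq_pow h02 h01 h03]
  have h0s : ∀ y ∈ R0, y * s = s * y := fun y hy => mem_centralizer_singleton_iff.1 (h01 hy).2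
  obtain ⟨R2, h21, h22, h23, h24⟩ := sylow_in h02 (h01.trans inf_le_left)
  have h2Y : R2 ≤ X ⊓ centralizer R0 :=
    le_inf h22 fun x hx y hy => hab R2 h23 y (h21 hy) x hx
  have hsT : IsPGroup 2 (zpowers s) := IsPGroup.of_card_dvd_pow (n := 1) (by
    rw [Nat.card_zpowers]; exact orderOf_dvd_of_pow_eq_one (by rw [pow_one, pow_two, hs]))
  have hnY : ∀ y ∈ X ⊓ centralizer R0, s * y * s⁻¹ ∈ X ⊓ centralizer R0 := fun y hy =>
    ⟨nX y hy.1, fun z hz => by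
      have h1 := hy.2 z hz
      calc z * (s * y * s⁻¹) = (z * s) * y * s⁻¹ := by group
        _ = s * (z * y) * s⁻¹ := by rw [h0s z hz]; group
        _ = s * y * s⁻¹ * (s * z) * s⁻¹ := by rw [h1]; group
        _ = s * y * s⁻¹ * z := by rw [← h0s z hz]; group⟩
  obtain ⟨R1, h11, h12, h13, h14⟩ := inv_sylow r (X := X ⊓ centralizer R0) hsT
    (fun g hg y hy => (mem_normalizer_iff.1
      (zpowers_le_of_mem (mem_normalizer_fintype hnY) hg) y).1 hy)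
    fun h => hX (h.trans (card_dvd_of_le inf_le_left))
  have h01' : R0 ≤ R1 := by
    obtain ⟨c, hc, hc'⟩ := sylow_conj h02 h12 (h21.trans h2Y) h13
    intro y hy
    have h1 := hc' y hy
    rwa [← hc.2 y hy, mul_inv_cancel_right] at h1
  have h1X : ¬ r ∣ R1.relIndex X := by
    rw [← relIndex_mul_relIndex R1 _ X h11 inf_le_left, hr.out.dvd_mul]
    exact fun h => h.elim h13 fun h => h24 (h.trans (relIndex_dvd_of_le_left X h2Y))
  obtain ⟨g, hg, hg'⟩ := sylow_conj hR h12 hRX h1X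
  -- `g R g⁻¹ ≤ R1`, with equality
  have hcard : Nat.card R1 = Nat.card R := by
    rw [card_eq_pow h12 (h11.trans inf_le_left) h1X, card_eq_pow hR hRX hi]
  have heq : R.map (MulAut.conj g).toMonoidHom = R1 := by
    refine eq_of_le_of_card_ge (by rintro _ ⟨y, hy, rfl⟩; exact hg' y hy) ?_
    rw [hcard, card_map_of_injective (MulAut.conj g).injective]
  have hback : ∀ y ∈ R1, g⁻¹ * y * g ∈ R := fun y hy => by
    rw [← heq] at hy
    obtain ⟨z, hz, rfl⟩ := hy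
    simpa [mul_assoc] using hz
  have hs' : g⁻¹ * s * g * (g⁻¹ * s * g) = 1 := by
    calc g⁻¹ * s * g * (g⁻¹ * s * g) = g⁻¹ * (s * s) * g := by group
      _ = 1 := by rw [hs]; simp
  have hsi : s⁻¹ = s := inv_eq_of_mul_eq_one_right hs
  have hmX : s * (g⁻¹ * s * g) ∈ X := by
    have := mul_mem (nX _ (inv_mem hg)) hg
    rwa [hsi, mul_assoc s, mul_assoc s] at this
  have hmN : s * (g⁻¹ * s * g) ∈ normalizer (R : Set G) :=
    mul_mem (mem_normalizer_fintype nR) (mem_normalizer_fintype fun y hy => by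
      have := hback _ (h14 s (mem_zpowers s) _ (hg' y hy))
      rwa [show g⁻¹ * (s * (g * y * g⁻¹) * s⁻¹) * g = g⁻¹ * s * g * y * (g⁻¹ * s * g)⁻¹ by group]
        at this)
  obtain ⟨j, hj⟩ := dihedral hs hs' fun h => hX (h.trans (X.orderOf_dvd_natCard hmX))
  set m := (s * (g⁻¹ * s * g)) ^ j with hm
  have hmN' : m ∈ normalizer (R : Set G) := pow_mem hmN j
  rw [← card_map_of_injective (K := R0) (f := (MulAut.conj (m * g⁻¹)).toMonoidHom)
    (MulAut.conj (m * g⁻¹)).injective]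
  refine card_le_of_le ?_
  rintro _ ⟨y, hy, rfl⟩
  refine ⟨?_, mem_centralizer_singleton_iff.2 ?_⟩
  · have := (mem_normalizer_iff.1 hmN' _).1 (hback y (h01' hy))
    rwa [show m * (g⁻¹ * y * g) * m⁻¹ = m * g⁻¹ * y * (m * g⁻¹)⁻¹ by group] at this
  · change m * g⁻¹ * y * (m * g⁻¹)⁻¹ * s = s * (m * g⁻¹ * y * (m * g⁻¹)⁻¹)
    calc m * g⁻¹ * y * (m * g⁻¹)⁻¹ * s
        = m * g⁻¹ * y * (m * g⁻¹)⁻¹ * (m * (g⁻¹ * s * g) * m⁻¹) := by rw [hj]
      _ = m * g⁻¹ * (y * s) * (m * g⁻¹)⁻¹ := by group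
      _ = (m * (g⁻¹ * s * g) * m⁻¹) * (m * g⁻¹ * y * (m * g⁻¹)⁻¹) := by rw [h0s y hy]; group
      _ = _ := by rw [hj]

omit [Finite G] in
lemma rel_cent (M : Subgroup G) (t : G) :
    (centralizer {t}).relIndex M = Set.ncard {x | ∃ g ∈ M, g * t * g⁻¹ = x} := by
  let _ : MulAction M G := MulAction.compHom _ (MulAut.conj.comp M.subtype)
  have h1 : MulAction.stabilizer M t = (centralizer {t}).subgroupOf M := by
    ext g
    rw [MulAction.mem_stabilizer_iff, mem_subgroupOf, mem_centralizer_singleton_iff,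
      ← mul_inv_eq_iff_eq_mul]
    rfl
  rw [relIndex, ← h1, MulAction.index_stabilizer]
  congr 1
  ext x
  exact ⟨fun ⟨g, hg⟩ => ⟨g, g.2, hg⟩, fun ⟨g, hg, h⟩ => ⟨⟨g, hg⟩, h⟩⟩

omit [Finite G] in
lemma order_two {x : G} (h : x * x = 1) (h1 : x ≠ 1) : orderOf x = 2 :=
  orderOf_eq_prime (hp := ⟨Nat.prime_two⟩) (by rw [pow_two, h]) h1

omit [Finite G] in
lemma sq_of_order {x : G} (h : orderOf x = 2) : x * x = 1 ∧ x ≠ 1 :=
  ⟨by rw [← pow_two, ← h, pow_orderOf_eq_one], fun h1 => by simp [h1] at h⟩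

lemma ncard_sq {M : Subgroup G} {t : G} (ht : t ∈ M) (h2 : t * t = 1) (h1 : t ≠ 1)
    (hc : ∀ x ∈ M, x * x = 1 → x ≠ 1 → ∃ g ∈ M, g * t * g⁻¹ = x) :
    Set.ncard {x | x ∈ M ∧ x * x = 1} = (centralizer {t}).relIndex M + 1 := by
  have h3 : (1 : G) ∉ {x | ∃ g ∈ M, g * t * g⁻¹ = x} := by
    rintro ⟨g, -, hg⟩
    exact h1 (by simpa using hg)
  rw [rel_cent, ← Set.ncard_insert_of_notMem h3]
  congr 1
  ext x
  constructor
  · rintro ⟨hx, hx2⟩
    by_cases h : x = 1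
    · exact Or.inl h
    · exact Or.inr (hc x hx hx2 h)
  · rintro (rfl | ⟨g, hg, rfl⟩)
    · exact ⟨one_mem _, mul_one _⟩
    · refine ⟨mul_mem (mul_mem hg ht) (inv_mem hg), ?_⟩
      calc g * t * g⁻¹ * (g * t * g⁻¹) = g * (t * t) * g⁻¹ := by group
        _ = 1 := by rw [h2]; simp

omit [Finite G] in
lemma card_conj (X : Subgroup G) (g : G) {Y : Subgroup G} (h : ∀ y, y ∈ X ↔ g * y * g⁻¹ ∈ Y) :
    Nat.card X = Nat.card Y :=
  Nat.card_congr ((MulAut.conj g).toEquiv.subtypeEquiv h)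

omit [Finite G] in
lemma conj_comm_iff (g a y : G) :
    g * y * g⁻¹ * (g * a * g⁻¹) = g * a * g⁻¹ * (g * y * g⁻¹) ↔ y * a = a * y := by
  rw [conj_mul, conj_mul, mul_left_inj, mul_right_inj]

omit [Finite G] in
lemma card_cent_conj (g a : G) :
    Nat.card (centralizer {a} : Subgroup G) = Nat.card (centralizer {g * a * g⁻¹} : Subgroup G) :=
  card_conj _ g fun y => by
    rw [mem_centralizer_singleton_iff, mem_centralizer_singleton_iff, conj_comm_iff]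

lemma exists_order {X : Subgroup G} {p : ℕ} (hp : p.Prime) (h : p ∣ Nat.card X) :
    ∃ x ∈ X, orderOf x = p := by
  have := Fact.mk hp
  obtain ⟨x, hx⟩ := exists_prime_orderOf_dvd_card' p h
  exact ⟨x, x.2, (orderOf_coe x).trans hx⟩

lemma dvd_of_primes {a b : ℕ} (h1 : ∀ q, q.Prime → ¬ q ^ 2 ∣ a)
    (h2 : ∀ q, q.Prime → q ∣ a → q ∣ b) : a ∣ b := by
  have hs : Squarefree a := Nat.squarefree_iff_prime_squarefree.2 fun q hq h => h1 q hq (by
    rwa [pow_two])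
  rw [← Nat.prod_primeFactors_of_squarefree hs]
  exact Finset.prod_primes_dvd _ (fun q hq => (Nat.prime_of_mem_primeFactors hq).prime)
    fun q hq => h2 q (Nat.prime_of_mem_primeFactors hq) (Nat.dvd_of_mem_primeFactors hq)

end Pool.Agent.Lib.MP_cb9dee_al.J
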