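import Pool.Agent.Lib.MP_cb9dee_al.CDefs
import Pool.Agent.Lib.MP_cb9dee_al.JLem

/-! Block C2: the torus `K` contains the centralizers of its elements other than `1` and `t`. -/

namespace Pool.Agent.Lib.MP_cb9dee_al

open Subgroup

variable {G : Type} [Group G]

namespace C2

lemma card_dvd_sq [Finite G] {l : ℕ} (hl : l.Prime) (hn : ¬ l ^ 3 ∣ Nat.card G) {Q : Subgroup G}
    (hQ : IsPGroup l Q) : Nat.card Q ∣ l ^ 2 := by
  have := Fact.mk hl
  obtain ⟨n, h⟩ := hQ.exists_card_eq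
  rw [h]
  refine pow_dvd_pow _ ?_
  by_contra h3
  exact hn ((pow_dvd_pow l (by omega)).trans (h ▸ card_subgroup_dvd_card Q))

lemma pcomm [Finite G] {l : ℕ} (hl : l.Prime) (hn : ¬ l ^ 3 ∣ Nat.card G) (Q : Subgroup G)
    (hQ : IsPGroup l Q) : ∀ x ∈ Q, ∀ y ∈ Q, x * y = y * x := fun x hx y hy =>
  congrArg Subtype.val (comm_of_card (R := Q) hl (card_dvd_sq hl hn hQ) ⟨x, hx⟩ ⟨y, hy⟩)

lemma pg_zpowers {l : ℕ} (hl : l.Prime) {a : G} {n : ℕ} (ha : a ^ l ^ n = 1) :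
    IsPGroup l (zpowers a) := by
  obtain ⟨j, -, hj⟩ := (Nat.dvd_prime_pow hl).1 (orderOf_dvd_of_pow_eq_one ha)
  exact IsPGroup.of_card ((Nat.card_zpowers a).trans hj)

lemma mem_of_cent [Finite G] {l : ℕ} (hl : l.Prime) {Q M : Subgroup G} (hQ : IsPGroup l Q)
    (hi : ¬ l ∣ Q.relIndex M) {a : G} {n : ℕ} (haM : a ∈ M) (ha : a ^ l ^ n = 1)
    (hc : ∀ m ∈ M, m * a = a * m) : a ∈ Q := by
  have := Fact.mk hl
  obtain ⟨c, hc1, hc2⟩ := J.sylow_conj (pg_zpowers hl ha) hQ (zpowers_le_of_mem haM) hi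
  have h1 := hc2 a (mem_zpowers a)
  rwa [hc c hc1, mul_inv_cancel_right] at h1

lemma ne_inv {l : ℕ} (hl : l.Prime) (h2 : l ≠ 2) {a : G} {n : ℕ} (ha : a ^ l ^ n = 1)
    (h : a = a⁻¹) : a = 1 :=
  eq_one_of_eq_inv (fun e => h2 ((Nat.prime_dvd_prime_iff_eq Nat.prime_two hl).1
    (Nat.prime_two.dvd_of_dvd_pow (e.trans (orderOf_dvd_of_pow_eq_one ha)))).symm) h

lemma card_lt [Finite G] {A B : Subgroup G} (h : A ≤ B) {x : G} (hx : x ∈ B) (hx' : x ∉ A) :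
    Nat.card A < Nat.card B := by
  by_contra h1
  exact hx' (eq_of_le_of_card_ge h (by omega) ▸ hx)

/-- Three commuting `l`-elements with different signs force `l ^ 3` to divide the order. -/
lemma three [Finite G] {l : ℕ} (hl : l.Prime) (h2 : l ≠ 2) (hn : ¬ l ^ 3 ∣ Nat.card G)
    {a b c t u : G} {n : ℕ} (ha : a ^ l ^ n = 1) (hb : b ^ l ^ n = 1) (hc : c ^ l ^ n = 1)
    (a1 : a ≠ 1) (b1 : b ≠ 1) (c1 : c ≠ 1) (ab : a * b = b * a) (bc : b * c = c * b)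
    (ca : c * a = a * c) (ta : t * a * t⁻¹ = a) (tb : t * b * t⁻¹ = b⁻¹)
    (ua : u * a * u⁻¹ = a⁻¹) (ub : u * b * u⁻¹ = b⁻¹) (uc : u * c * u⁻¹ = c) : False := by
  have := Fact.mk hl
  let M : Subgroup G := centralizer {a} ⊓ centralizer {b} ⊓ centralizer {c}
  have hM : ∀ m, m ∈ M ↔ (m * a = a * m ∧ m * b = b * m) ∧ m * c = c * m := fun m => by
    simp only [M, mem_inf, mem_centralizer_singleton_iff]
  obtain ⟨Q, -, -, hQ, hi⟩ := J.sylow_in (X := M) (IsPGroup.of_bot (p := l)) bot_le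
  have aQ : a ∈ Q := mem_of_cent hl hQ hi ((hM a).2 ⟨⟨rfl, ab⟩, ca.symm⟩) ha
    fun m hm => ((hM m).1 hm).1.1
  have bQ : b ∈ Q := mem_of_cent hl hQ hi ((hM b).2 ⟨⟨ab.symm, rfl⟩, bc⟩) hb
    fun m hm => ((hM m).1 hm).1.2
  have cQ : c ∈ Q := mem_of_cent hl hQ hi ((hM c).2 ⟨⟨ca, bc.symm⟩, rfl⟩) hc
    fun m hm => ((hM m).1 hm).2
  have hcm := pcomm hl hn Q hQ
  let A : Subgroup G :=
    { carrier := {x | x ∈ Q ∧ u * x * u⁻¹ = x⁻¹}
      one_mem' := ⟨Q.one_mem, by simp⟩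
      mul_mem' := by
        rintro x y ⟨hx, hx'⟩ ⟨hy, hy'⟩
        refine ⟨mul_mem hx hy, ?_⟩
        rw [← conj_mul, hx', hy', hcm x hx y hy, mul_inv_rev]
      inv_mem' := by
        rintro x ⟨hx, hx'⟩
        exact ⟨inv_mem hx, by rw [← conj_inv, hx']⟩ }
  have hAQ : A ≤ Q := fun x hx => hx.1
  let B : Subgroup G := A ⊓ centralizer {t}
  have l1 : Nat.card (⊥ : Subgroup G) < Nat.card B :=
    card_lt bot_le (x := a) ⟨⟨aQ, ua⟩, mem_centralizer_singleton_iff.2 (by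
      rw [mul_inv_eq_iff_eq_mul] at ta; exact ta.symm)⟩ (by simpa using a1)
  have l2 : Nat.card B < Nat.card A :=
    card_lt inf_le_left (x := b) ⟨bQ, ub⟩ fun h => b1 (ne_inv hl h2 hb (by
      rw [← tb, ← mem_centralizer_singleton_iff.1 h.2, mul_inv_cancel_right]))
  have l3 : Nat.card A < Nat.card Q :=
    card_lt hAQ cQ fun h => c1 (ne_inv hl h2 hc (uc.symm.trans h.2))
  obtain ⟨i, hi⟩ := (hQ.to_le (inf_le_left.trans hAQ : B ≤ Q)).exists_card_eq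
  obtain ⟨j, hj⟩ := (hQ.to_le hAQ).exists_card_eq
  obtain ⟨m, hm, hm'⟩ := (Nat.dvd_prime_pow hl).1 (card_dvd_sq hl hn hQ)
  rw [card_bot, hi, ← pow_zero l, Nat.pow_lt_pow_iff_right hl.one_lt] at l1
  rw [hi, hj, Nat.pow_lt_pow_iff_right hl.one_lt] at l2
  rw [hj, hm', Nat.pow_lt_pow_iff_right hl.one_lt] at l3
  omega

lemma conj_pow_one {y : G} {d : ℕ} (hy : y ^ d = 1) (g : G) : (g * y * g⁻¹) ^ d = 1 := by
  rw [conj_pow, hy, mul_one, mul_inv_cancel]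

lemma key [Finite G] {l : ℕ} (hl : l.Prime) (h2 : l ≠ 2) (hn : ¬ l ^ 3 ∣ Nat.card G) {t s w : G}
    {K : Subgroup G} {k : ℕ} (h : Tor t K k) (hs : s * t = t * s) (hsK : s ∉ K)
    (h1 : w * t * w⁻¹ = s) (h3 : w * s * w⁻¹ = t * s) {y : G} {n : ℕ} (hy : y ^ l ^ n = 1)
    (y1 : y ≠ 1) (ys : y * s = s * y) (hK : ∀ z ∈ K, z ^ l ^ n = 1 → z * y = y * z) : False := by
  obtain ⟨z, rfl⟩ : ∃ z, y = w * z * w⁻¹ := ⟨w⁻¹ * y * w, by group⟩
  have ss := (h.out s hs hsK).1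
  have hz : z ^ l ^ n = 1 := by simpa [mul_assoc] using conj_pow_one hy w⁻¹
  have z1 : z ≠ 1 := fun e => y1 (by simp [e])
  have zt : z * t = t * z := by rwa [← h1, J.conj_comm_iff] at ys
  have zK : z ∈ K := by
    by_contra e
    exact z1 (ne_inv hl h2 hz (eq_inv_of_mul_eq_one_left (h.out z zt e).1))
  have h4 : w * (t * s) * w⁻¹ = t := by
    rw [← conj_mul, h1, h3, ← mul_assoc, hs, mul_assoc, ss, mul_one]
  have tsK : t * s ∉ K := fun e => hsK (by simpa using mul_mem (inv_mem h.mem) e)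
  have tst : t * s * t = t * (t * s) := by rw [mul_assoc, hs]
  have ab := hK z zK hz
  have bc : w * z * w⁻¹ * (w * (w * z * w⁻¹) * w⁻¹) = w * (w * z * w⁻¹) * w⁻¹ * (w * z * w⁻¹) :=
    (J.conj_comm_iff w _ _).2 ab
  have ca0 := (J.conj_comm_iff w _ _).2 bc
  have w3 : w * w * w * t = t * (w * w * w) := by
    rw [← mul_inv_eq_iff_eq_mul]
    calc w * w * w * t * (w * w * w)⁻¹ = w * (w * (w * t * w⁻¹) * w⁻¹) * w⁻¹ := by group
      _ = t := by rw [h1, h3, h4]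
  have e3 : w * (w * (w * z * w⁻¹) * w⁻¹) * w⁻¹ = w * w * w * z * (w * w * w)⁻¹ := by group
  have ca : w * (w * z * w⁻¹) * w⁻¹ * z = z * (w * (w * z * w⁻¹) * w⁻¹) := by
    rw [e3] at ca0
    by_cases e : w * w * w ∈ K
    · rwa [h.comm _ e z zK, mul_inv_cancel_right] at ca0
    · rw [(h.out _ w3 e).2 z zK] at ca0
      exact (Commute.inv_right_iff.1 ca0 :)
  refine three hl h2 hn (t := t) (u := t * s) hz hy (conj_pow_one hy w) z1 y1
    (fun e => y1 (by simpa using e)) ab bc ca (by rw [← zt, mul_inv_cancel_right]) ?_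
    ((h.out _ tst tsK).2 z zK) ?_ ?_
  · calc t * (w * z * w⁻¹) * t⁻¹ = (w * (t * s) * w⁻¹) * (w * z * w⁻¹) * (w * (t * s) * w⁻¹)⁻¹ := by
          rw [h4]
      _ = w * (t * s * z * (t * s)⁻¹) * w⁻¹ := by group
      _ = _ := by rw [(h.out _ tst tsK).2 z zK]; group
  · calc t * s * (w * z * w⁻¹) * (t * s)⁻¹
        = (w * s * w⁻¹) * (w * z * w⁻¹) * (w * s * w⁻¹)⁻¹ := by rw [h3]
      _ = w * (s * z * s⁻¹) * w⁻¹ := by group
      _ = _ := by rw [(h.out _ hs hsK).2 z zK]; group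
  · calc t * s * (w * (w * z * w⁻¹) * w⁻¹) * (t * s)⁻¹
        = (w * (w * t * w⁻¹) * w⁻¹) * (w * (w * z * w⁻¹) * w⁻¹) * (w * (w * t * w⁻¹) * w⁻¹)⁻¹ := by
          rw [h1, h3]
      _ = w * (w * (t * z * t⁻¹) * w⁻¹) * w⁻¹ := by group
      _ = _ := by rw [← zt, mul_inv_cancel_right]

/-- An invariant `l`-subgroup containing the `l`-elements of `K` is centralized by `t`. -/
lemma cent [Finite G] {l : ℕ} (hl : l.Prime) (h2 : l ≠ 2) (hn : ¬ l ^ 3 ∣ Nat.card G) {t s w : G}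
    {K : Subgroup G} {k : ℕ} (h : Tor t K k) (hs : s * t = t * s) (hsK : s ∉ K)
    (h1 : w * t * w⁻¹ = s) (h3 : w * s * w⁻¹ = t * s) {R : Subgroup G} (hR : IsPGroup l R)
    (nt : ∀ y ∈ R, t * y * t⁻¹ ∈ R) (ns : ∀ y ∈ R, s * y * s⁻¹ ∈ R)
    (hK : ∀ z ∈ K, ∀ n, z ^ l ^ n = 1 → z ∈ R) : ∀ q ∈ R, q * t = t * q := by
  intro q hq
  by_contra hqt
  have hcm := pcomm hl hn R hR
  have ss := (h.out s hs hsK).1
  have tt := mul_self_of_two h.ord
  have si : s⁻¹ = s := inv_eq_of_mul_eq_one_right ss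
  have ti : t⁻¹ = t := inv_eq_of_mul_eq_one_right tt
  have h4 : w * (t * s) * w⁻¹ = t := by
    rw [← conj_mul, h1, h3, ← mul_assoc, hs, mul_assoc, ss, mul_one]
  have tsK : t * s ∉ K := fun e => hsK (by simpa using mul_mem (inv_mem h.mem) e)
  have tst : t * s * t = t * (t * s) := by rw [mul_assoc, hs]
  have pw : ∀ y ∈ R, ∃ n, y ^ l ^ n = 1 := fun y hy => by
    obtain ⟨n, e⟩ := hR ⟨y, hy⟩
    exact ⟨n, congrArg Subtype.val e⟩
  obtain ⟨y, hy, y1, ty⟩ : ∃ y ∈ R, y ≠ 1 ∧ t * y * t⁻¹ = y⁻¹ := by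
    refine ⟨q⁻¹ * (t * q * t⁻¹), mul_mem (inv_mem hq) (nt q hq), fun e => hqt ?_, ?_⟩
    · rw [inv_mul_eq_one, eq_mul_inv_iff_mul_eq] at e
      exact e
    · calc t * (q⁻¹ * (t * q * t⁻¹)) * t⁻¹ = t * q⁻¹ * t * q * (t * t)⁻¹ := by group
        _ = t * q⁻¹ * t⁻¹ * q := by rw [tt, ti, inv_one, mul_one]
        _ = _ := by group
  by_cases e : y * (s * y * s⁻¹) = 1
  · obtain ⟨n, hyn⟩ := pw y hy
    refine key hl h2 hn (w := w⁻¹) h tst tsK ?_ ?_ hyn y1 ?_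
      fun z hz hzn => hcm z (hK z hz n hzn) y hy
    · calc w⁻¹ * t * w⁻¹⁻¹ = w⁻¹ * (w * (t * s) * w⁻¹) * w⁻¹⁻¹ := by rw [h4]
        _ = _ := by group
    · rw [← mul_assoc t t s, tt, one_mul, ← h3]
      group
    · rw [eq_comm, ← mul_inv_eq_iff_eq_mul]
      calc t * s * y * (t * s)⁻¹ = t * (s * y * s⁻¹) * t⁻¹ := by group
        _ = (t * y * t⁻¹)⁻¹ := by rw [← inv_eq_of_mul_eq_one_right e]; group
        _ = y := by rw [ty, inv_inv]
  · have hy' := mul_mem hy (ns y hy)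
    obtain ⟨n, hyn⟩ := pw _ hy'
    refine key hl h2 hn h hs hsK h1 h3 hyn e ?_ fun z hz hzn => hcm z (hK z hz n hzn) _ hy'
    calc y * (s * y * s⁻¹) * s = s * (s⁻¹ * y * s⁻¹⁻¹ * y) := by group
      _ = s * (y * (s * y * s⁻¹)) := by rw [hcm y hy _ (ns y hy), si, si]

end C2

theorem Tor.ti [Finite G] (hn : ∀ p, p.Prime → p ≠ 2 → ¬ p ^ 3 ∣ Nat.card G) {t s w : G}
    {K : Subgroup G} {k : ℕ} (h : Tor t K k) (hs : s * t = t * s) (hsK : s ∉ K)
    (h1 : w * t * w⁻¹ = s) (h2 : w * s * w⁻¹ = t * s) : TI t K := by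
  intro x hx x1 xt
  have := Fact.mk Nat.prime_two
  have tt := mul_self_of_two h.ord
  have t1 := ne_one_of_two h.ord
  have xx : x ≠ x⁻¹ := fun e => (h.uniq x hx (by nth_rewrite 1 [e]; simp)).elim x1 xt
  set H : Subgroup G := centralizer {x} with hH
  have mH : ∀ y, y ∈ H ↔ y * x = x * y := fun y => mem_centralizer_singleton_iff
  have hKH : K ≤ H := fun y hy => (mH y).2 (h.comm y hy x hx)
  have hHK : ∀ y ∈ H, y * t = t * y → y ∈ K := fun y hy e => by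
    by_contra hyK
    apply xx
    rw [← (h.out y e hyK).2 x hx, (mH y).1 hy, mul_inv_cancel_right]
  have t2 : t ^ 2 ^ 1 = 1 := by rw [pow_one, pow_two, tt]
  -- a Sylow 2-subgroup of `H` lies in `K`
  obtain ⟨P, hP1, hP2, hP3, hP4⟩ := J.sylow_in (C2.pg_zpowers Nat.prime_two t2)
    (zpowers_le_of_mem (hKH h.mem))
  have tP : t ∈ P := hP1 (mem_zpowers t)
  have hPK : P ≤ K := by
    have : Nontrivial P := ⟨⟨⟨t, tP⟩, 1, fun e => t1 (congrArg Subtype.val e)⟩⟩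
    have hc := hP3.center_nontrivial
    obtain ⟨n, hn0, hn'⟩ := (hP3.to_subgroup (center P)).nontrivial_iff_card.1 hc
    obtain ⟨z, hz, hz2⟩ := exists_invol (H := center P) (hn' ▸ dvd_pow_self 2 hn0.ne')
    have hzc : ∀ y ∈ P, y * z = z * y := fun y hy =>
      congrArg Subtype.val (mem_center_iff.1 hz ⟨y, hy⟩)
    have hz3 : orderOf (z : G) = 2 := (orderOf_coe z).trans hz2
    have hzt : (z : G) = t := (h.uniq z (hHK z (hP2 z.2) (hzc t tP).symm)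
      (mul_self_of_two hz3)).resolve_left (ne_one_of_two hz3)
    exact fun y hy => hHK y (hP2 hy) (hzt ▸ hzc y hy)
  -- the normal 2-complement of `H`
  obtain ⟨O, hOH, hO2, hOm, hOd⟩ : ∃ O ≤ H, ¬ 2 ∣ Nat.card O ∧
      (∀ y ∈ H, ¬ 2 ∣ orderOf y → y ∈ O) ∧ ∀ y ∈ H, ∃ u ∈ O, ∃ p ∈ P, y = u * p := by
    let P' : Sylow 2 H := (hP3.comap_subtype (K := H)).toSylow hP4
    have mP : ∀ y : H, y ∈ (P' : Subgroup H) ↔ (y : G) ∈ P := fun y => Iff.rfl
    have hN : normalizer ((P' : Subgroup H) : Set H) ≤ centralizer (P' : Subgroup H) := by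
      intro g hg y hy
      have e1 : (g : G) * t * (g : G)⁻¹ ∈ P :=
        (mP _).1 ((mem_normalizer_iff.1 hg ⟨t, hKH h.mem⟩).1 ((mP _).2 tP))
      have e2 : (g : G) * t * (g : G)⁻¹ = t := (h.uniq _ (hPK e1) (by
        rw [conj_mul, tt]; simp)).resolve_left fun e => t1 (by simpa using e)
      exact Subtype.ext (h.comm y (hPK hy) g (hHK g g.2 (mul_inv_eq_iff_eq_mul.1 e2)))
    have hc := MonoidHom.ker_transferSylow_isComplement' P' hN
    refine ⟨(MonoidHom.transferSylow P' hN).ker.map H.subtype, map_subtype_le _, ?_,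
      fun y hy ho => ⟨⟨y, hy⟩, ?_, rfl⟩, fun y hy => ?_⟩
    · rw [card_map_of_injective H.subtype_injective]
      exact MonoidHom.not_dvd_card_ker_transferSylow P' hN
    · refine mem_of_pow_eq_one (d := orderOf y) ?_ (Subtype.ext (pow_orderOf_eq_one y))
      obtain ⟨n, hn'⟩ := P'.isPGroup'.exists_card_eq
      rw [hc.symm.index_eq_card, hn']
      exact (((Nat.prime_two.coprime_iff_not_dvd).2 ho).pow_left n).symm
    · obtain ⟨⟨u, p⟩, e⟩ := hc.2 ⟨y, hy⟩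
      exact ⟨u, ⟨u, u.2, rfl⟩, p, (mP _).1 p.2, (congrArg Subtype.val e).symm⟩
  have nO : ∀ g, g * t = t * g → ∀ y ∈ O, g * y * g⁻¹ ∈ O := fun g hg y hy => by
    refine hOm _ ((mH _).2 ?_) (by rw [orderOf_conj']; exact odd_orderOf hO2 hy)
    have e := (J.conj_comm_iff g x y).2 ((mH y).1 (hOH hy))
    by_cases hgK : g ∈ K
    · rwa [h.comm g hgK x hx, mul_inv_cancel_right] at e
    · rw [(h.out g hg hgK).2 x hx] at e
      exact (Commute.inv_right_iff.1 e :)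
  obtain ⟨T, hT1, hT2, hT3, hT4⟩ := J.sylow_in (X := centralizer {t})
    (C2.pg_zpowers Nat.prime_two (a := s) (n := 1)
      (by rw [pow_one, pow_two, (h.out s hs hsK).1]))
    (zpowers_le_of_mem (mem_centralizer_singleton_iff.2 hs))
  have tT : t ∈ T := C2.mem_of_cent Nat.prime_two hT3 hT4 (mem_centralizer_singleton_iff.2 rfl) t2
    fun m hm => mem_centralizer_singleton_iff.1 hm
  have hOt : O ≤ O ⊓ centralizer {t} := by
    rw [← relIndex_eq_one]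
    by_contra e
    obtain ⟨l, hl, hl1⟩ := Nat.exists_prime_and_dvd e
    have := Fact.mk hl
    have l2 : l ≠ 2 := by
      rintro rfl
      exact hO2 (hl1.trans (relIndex_dvd_card _ _))
    obtain ⟨R, hR1, hR2, hR3, hR4⟩ := J.inv_sylow l hT3
      (fun g hg => nO g (mem_centralizer_singleton_iff.1 (hT2 hg))) hO2
    have hc := J.card_inf_cent tt hO2 (nO t rfl) hR1 hR2 hR3 (hR4 t tT)
      (C2.pcomm hl (hn l hl l2))
    have hm := J.card_mul_rel (inf_le_inf_right (centralizer {t}) hR1)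
    have hi : ¬ l ∣ (R ⊓ centralizer {t}).relIndex (O ⊓ centralizer {t}) := fun e => by
      apply Nat.pow_succ_factorization_not_dvd
        (Nat.card_pos (α := (O ⊓ centralizer {t} : Subgroup G))).ne' hl
      rw [pow_succ, ← hc, ← hm]
      exact Nat.mul_dvd_mul_left _ e
    have hce := C2.cent hl l2 (hn l hl l2) h hs hsK h1 h2 hR2 (hR4 t tT)
      (hR4 s (hT1 (mem_zpowers s))) fun z hz n hzn => by
        refine (C2.mem_of_cent hl hR2.to_inf_left hi ⟨hOm z (hKH hz) fun e => l2 ?_,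
          mem_centralizer_singleton_iff.2 (h.comm z hz t h.mem)⟩ hzn fun m hm =>
            h.comm m (hHK m (hOH hm.1) (mem_centralizer_singleton_iff.1 hm.2)) z hz).1
        exact ((Nat.prime_dvd_prime_iff_eq Nat.prime_two hl).1
          (Nat.prime_two.dvd_of_dvd_pow (e.trans (orderOf_dvd_of_pow_eq_one hzn)))).symm
    exact hR3 (hl1.trans (relIndex_dvd_of_le_left O
      (le_inf hR1 fun q hq => mem_centralizer_singleton_iff.2 (hce q hq))))
  intro y hy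
  obtain ⟨u, hu, p, hp, rfl⟩ := hOd y ((mH y).2 hy)
  exact mul_mem (hHK u (hOH hu) (mem_centralizer_singleton_iff.1 (hOt hu).2)) (hPK hp)

end Pool.Agent.Lib.MP_cb9dee_al
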