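import Pool.Agent.Lib.MP_cb9dee_al.STwo

namespace Pool.Agent.Lib.MP_cb9dee_al

namespace S

open Subgroup
open scoped commutatorElement

lemma perm_order {α : Type*} [Finite α] {p : ℕ} (hp : p.Prime) (h2 : p ≠ 2)
    (hα : Nat.card α = p + 1) (σ : Equiv.Perm α) : ¬ 2 * p ∣ orderOf σ := by
  classical
  have := Fintype.ofFinite α
  intro h
  have h1 : orderOf σ ∣ σ.cycleType.prod :=
    σ.lcm_cycleType ▸ Multiset.lcm_dvd.2 fun _ => Multiset.dvd_prod
  have h3 : σ.cycleType.sum ≤ p + 1 := by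
    rw [σ.sum_cycleType, ← hα, Nat.card_eq_fintype_card]; exact Finset.card_le_univ _
  obtain ⟨a, ha, k1⟩ := hp.prime.exists_mem_multiset_dvd (((dvd_mul_left p 2).trans h).trans h1)
  obtain ⟨b, hb, k2⟩ := Nat.prime_two.prime.exists_mem_multiset_dvd
    (((dvd_mul_right 2 p).trans h).trans h1)
  have a2 := Equiv.Perm.two_le_of_mem_cycleType ha
  have b2 := Equiv.Perm.two_le_of_mem_cycleType hb
  have p2 := hp.two_le
  by_cases e : b = a
  · subst e
    have := Nat.le_of_dvd (by omega)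
      (((Nat.coprime_primes Nat.prime_two hp).2 h2.symm).mul_dvd_of_dvd_of_dvd k2 k1)
    have := Multiset.le_sum_of_mem hb
    omega
  · have := Multiset.le_sum_of_mem ((Multiset.mem_erase_of_ne e).2 hb)
    have := Nat.le_of_dvd (by omega) k1
    rw [← Multiset.cons_erase ha, Multiset.sum_cons] at h3
    omega

variable {G H Q : Type} [Group G] [Group H] [Group Q] [Finite G] [Finite H] {f : G →* Q}

lemma pk_perm {L : Subgroup G} [L.Normal] {p k m : ℕ} (h : Pack L p k m) :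
    ∃ ψ : G →* Equiv.Perm (Sylow p L), (∀ x ∈ L, ψ x = 1 → x = 1) ∧
      ψ.ker ≤ centralizer (L : Set G) := by
  have := h.simple
  have := Fact.mk h.prime
  let ψ := (MulAction.toPermHom (MulAut L) (Sylow p L)).comp (MulAut.conjNormal : G →* MulAut L)
  have h1 : ∀ x ∈ L, ψ x = 1 → x = 1 := by
    rcases ((inferInstance : ψ.ker.Normal).subgroupOf L).eq_bot_or_eq_top with e | e
    · intro x hx h2
      have h3 : (⟨x, hx⟩ : L) ∈ ψ.ker.subgroupOf L := h2
      rw [e, mem_bot] at h3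
      exact congrArg Subtype.val h3
    · exfalso
      have h2 : Subsingleton (Sylow p L) := ⟨fun P P' => by
        obtain ⟨l, rfl⟩ := MulAction.exists_smul_eq L P P'
        have h3 : l ∈ ψ.ker.subgroupOf L := e ▸ mem_top l
        rw [Sylow.smul_def, ← MulAut.conjNormal_val]
        exact (DFunLike.congr_fun (show ψ l = 1 from h3) P).symm⟩
      have h3 := Finite.card_le_one_iff_subsingleton.2 h2
      have := h.pcard
      have := h.five
      omega
  exact ⟨ψ, h1, fun x hx y hy => (commute_of_normal_of_disjoint L ψ.ker inferInstance inferInstance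
    (disjoint_def.2 fun a b => h1 _ a b) y x hy hx)⟩

omit [Finite G] in
lemma pk_inf {L : Subgroup G} [Finite L] {p k m : ℕ} (h : Pack L p k m) :
    ∀ x ∈ L, x ∈ centralizer (L : Set G) → x = 1 := by
  have := h.simple
  intro x hx hc
  rcases (inferInstance : (center L).Normal).eq_bot_or_eq_top with e | e
  · have h3 : (⟨x, hx⟩ : L) ∈ center L := mem_center_iff.2 fun g => Subtype.ext (hc g g.2)
    rw [e, mem_bot] at h3
    exact congrArg Subtype.val h3
  · have h3 := pk_perfect h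
    rw [(commutator_eq_bot_iff_center_eq_top L).2 e] at h3
    exact absurd h3 bot_ne_top

lemma pk_cent {L : Subgroup G} [L.Normal] {p k m : ℕ} (h : Pack L p k m)
    (hn : Full (Nat.card G)) : ¬ 4 ∣ Nat.card (centralizer (L : Set G)) := fun e =>
  not_sixteen hn ((Nat.mul_dvd_mul (pk_four h) e).trans
    (card_mul_dvd (pk_inf h) ▸ card_subgroup_dvd_card _))

/-- There is a normal subgroup of odd order whose index is prime to `q`. -/
def OddK (G : Type) [Group G] (q : ℕ) : Prop :=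
  ∃ K : Subgroup G, K.Normal ∧ ¬ 2 ∣ Nat.card K ∧ ¬ q ∣ K.index

lemma OddK.odd {q : ℕ} (hq : q.Prime) (h : OddK G q) : ¬ 2 ∣ Nat.card (Sylow q G) := by
  obtain ⟨K, h1, h2, h3⟩ := h
  have := Fact.mk hq
  obtain ⟨P⟩ : Nonempty (Sylow q K) := inferInstance
  rw [card_sylow_eq h3]
  exact fun e => h2 (e.trans (P.card_dvd_index.trans (index_dvd_card _)))

lemma not_dvd_two_pow {q : ℕ} (hq : q.Prime) (h2 : q ≠ 2) (a : ℕ) : ¬ q ∣ 2 ^ a := fun e =>
  h2 ((Nat.prime_dvd_prime_iff_eq hq Nat.prime_two).1 (hq.dvd_of_dvd_pow e))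

omit [Finite G] in
lemma oddK_I {q : ℕ} (hq : q.Prime) (h2 : q ≠ 2) (h : TyI G) : OddK G q := by
  obtain ⟨O, h1, h3, a, h4⟩ := h
  exact ⟨O, h1, h3, h4 ▸ not_dvd_two_pow hq h2 a⟩

lemma OddK.of_odd {q : ℕ} (hf : Function.Surjective f) (h2 : ¬ 2 ∣ Nat.card f.ker)
    (h : OddK Q q) : OddK G q := by
  obtain ⟨O, h1, h3, h4⟩ := h
  refine ⟨O.comap f, inferInstance, ?_, by rwa [index_comap_of_surjective _ hf]⟩
  rw [card_comap hf, Nat.prime_two.dvd_mul]
  exact fun h => h.elim h3 h2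

lemma OddK.of_cov {q : ℕ} (hq : q.Prime) (h2 : q ≠ 2) {z : G} (hf : Cov f z) (h : OddK Q q) :
    OddK G q := by
  obtain ⟨O, h1, h3, h4⟩ := h
  obtain ⟨K, k1, k2, k3⟩ := hf.hall O h3
  exact ⟨K, k1, k2, by
    rw [k3, hq.dvd_mul]; exact fun e => e.elim (not_dvd_two_pow hq h2 1) h4⟩

lemma tyI_quot {B : Subgroup G} [B.Normal] (hn : Full (Nat.card G)) (h4 : 4 ∣ Nat.card B) :
    TyI (G ⧸ B) :=
  tyI_of_not_four fun e => not_sixteen hn (B.card_mul_index ▸ Nat.mul_dvd_mul h4 e)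

lemma oddK_two {q : ℕ} (hq : q.Prime) (h2 : q ≠ 2) (hn : Full (Nat.card G)) {B : Subgroup G}
    [B.Normal] {j : ℕ} (hB : Nat.card B = 2 ^ (j + 2)) (hs : ∀ x ∈ B, x * x = 1)
    (ha : ∀ a : MulAut B, ¬ q ∣ orderOf a) : OddK G q := by
  obtain ⟨O, h1, h3, a, h4⟩ := tyI_quot (B := B) hn (hB ▸ pow_dvd_pow 2 (by omega : 2 ≤ j + 2))
  have := Fact.mk hq
  let φ : G →* MulAut B := MulAut.conjNormal
  let E := O.comap (QuotientGroup.mk' B)
  have h5 : B ≤ E := (QuotientGroup.ker_mk' B).ge.trans (ker_le_comap _ O)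
  have h6 : B ≤ φ.ker := fun x hx => (isCj_conjNormal B x).eq_one_iff.2 (comm_of_sq hs x hx)
  have h7 : ¬ 2 ∣ B.relIndex (E ⊓ φ.ker) := fun e => h3 (e.trans (by
    rw [← relIndex_ker_comap (QuotientGroup.mk'_surjective B) O, QuotientGroup.ker_mk',
      ← relIndex_mul_relIndex B _ E (le_inf h5 h6) inf_le_left]
    exact dvd_mul_right _ _))
  obtain ⟨K, k1, -, k3, k4, -⟩ := hallC (le_inf h5 h6)
    (hB ▸ ((Nat.Prime.coprime_iff_not_dvd Nat.prime_two).2 h7).pow_left _)
    fun x hx y hy => ((isCj_conjNormal B y).eq_one_iff.1 hy.2 x hx).symm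
  refine ⟨K, k1, k3 ▸ h7, ?_⟩
  rw [k4, hB, ← relIndex_mul_index (inf_le_right : E ⊓ φ.ker ≤ _), inf_relIndex_right,
    hq.dvd_mul, hq.dvd_mul, index_ker]
  rintro (e | e | e)
  · exact not_dvd_two_pow hq h2 _ e
  · refine not_dvd_two_pow hq h2 a (e.trans ((relIndex_dvd_index_of_normal _ _).trans ?_))
    rw [index_comap_of_surjective _ (QuotientGroup.mk'_surjective B), h4]
  · obtain ⟨x, -, hx⟩ := exists_mem_order hq e
    exact ha x hx.symm.dvd

lemma oddK_II {q : ℕ} (hq : q.Prime) (h5 : 5 ≤ q) (hn : Full (Nat.card G)) (h : TyII G) :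
    OddK G q := by
  obtain ⟨B, h1, h2, h3, -⟩ := h
  exact oddK_two (j := 0) hq (by omega) hn h2 h3 fun a e => by
    have := aut_four h2 hq e; omega

lemma oddK_IV {q : ℕ} (hq : q.Prime) (h5 : 5 ≤ q) (h7 : q ≠ 7) (hn : Full (Nat.card G))
    (h : TyIV G) : OddK G q := by
  obtain ⟨B, h1, h2, h3, -⟩ := h
  exact oddK_two (j := 1) hq (by omega) hn h2 h3 fun a e => by
    have := aut_eight h2 hq e; omega

lemma oddK_IIIa {q : ℕ} (hq : q.Prime) (h5 : 5 ≤ q) (hn : Full (Nat.card G)) (h : TyIIIa G) :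
    OddK G q := by
  obtain ⟨A, _, _, f, z, hz, hA⟩ := cov_of_IIIa h
  exact (oddK_II hq h5 (hn.of_dvd (card_dvd_of_surjective f hz.1)) hA).of_cov hq (by omega) hz

lemma oddK_IIIb {q : ℕ} (hq : q.Prime) (h5 : 5 ≤ q) (hn : Full (Nat.card G)) (h : TyIIIb G) :
    OddK G q := by
  obtain ⟨-, A, _, f, r, he, hA⟩ := h
  have := (Ext.ox he).finite
  exact (oddK_IIIa hq h5 (hn.of_dvd (card_dvd_of_surjective f he.2.2.1)) hA).of_odd he.2.2.1
    (Ext.ox he).odd

/-- The invariants which single out the prime `p` of a group which is not solvable. -/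
structure Big (G : Type) [Group G] (p : ℕ) : Prop where
  prime : p.Prime
  five : 5 ≤ p
  dvd : p ∣ Nat.card G
  sq : ¬ p ^ 2 ∣ Nat.card G
  even : 2 ∣ Nat.card (Sylow p G)
  odd : ∀ q, q.Prime → p < q → OddK G q
  four : p = 7 → ∃ x : G, orderOf x = 4

lemma big_V (hn : Full (Nat.card G)) {p : ℕ} (h : TyV G p) : Big G p := by
  obtain ⟨L, k, m, h1, h2⟩ := h
  have := Fact.mk h2.prime
  have h3 := pk_not_sq h2 hn (card_subgroup_dvd_card L)
  have h5 := h2.five
  have h6 := h2.prime.eq_two_or_odd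
  refine ⟨h2.prime, h5, (pk_dvd h2).trans (card_subgroup_dvd_card L), h3, ?_, fun q hq hpq => ?_,
    fun e => ?_⟩
  · rw [card_sylow_eq (N := L) fun e => h3 (by
      rw [pow_two, ← L.card_mul_index]; exact Nat.mul_dvd_mul (pk_dvd h2) e), h2.pcard]
    omega
  · obtain ⟨ψ, -, k2⟩ := pk_perm h2
    obtain ⟨K, k3, k4, k5⟩ := exists_odd_part (pk_cent h2 hn)
    have k6 := card_map_of_injective (K := K) (subtype_injective _)
    have k7 : (K.map (centralizer (L : Set G)).subtype).relIndex (centralizer (L : Set G)) =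
        K.index := by
      rw [relIndex, subgroupOf, comap_map_eq_self_of_injective (subtype_injective _)]
    refine ⟨K.map (centralizer (L : Set G)).subtype, normal_of_hall (map_subtype_le K) ?_ ?_,
      k6 ▸ k4, ?_⟩
    · rintro e he _ ⟨x, hx, rfl⟩
      exact ⟨_, k3.conj_mem x hx ⟨e, he⟩, rfl⟩
    · rw [k6, k7]
      exact (((Nat.Prime.coprime_iff_not_dvd Nat.prime_two).2 k4).symm).coprime_dvd_right k5
    · rw [index_map_subtype, hq.dvd_mul]
      rintro (e | e)
      · exact not_dvd_two_pow hq (by omega) 1 (e.trans k5)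
      · have k8 := (e.trans (index_dvd_of_le k2)).trans
          (index_ker ψ ▸ card_subgroup_dvd_card ψ.range)
        rw [Nat.card_perm, h2.pcard, hq.dvd_factorial] at k8
        have := hq.eq_two_or_odd
        omega
  · have := h2.par
    have := h2.even
    obtain ⟨y, hy⟩ := pk_order_four h2 (by omega)
    exact ⟨y, by rwa [orderOf_coe]⟩

lemma Big.lift {p : ℕ} (hf : Function.Surjective f) (h : Big Q p)
    (hs : ¬ p ^ 2 ∣ Nat.card G) (ho : ∀ q, q.Prime → p < q → OddK Q q → OddK G q) : Big G p := by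
  have := Fact.mk h.prime
  refine ⟨h.prime, h.five, h.dvd.trans (card_dvd_of_surjective f hf), hs,
    h.even.trans (card_sylow_dvd_of_surj hf p), fun q hq hpq => ho q hq hpq (h.odd q hq hpq),
    fun e => ?_⟩
  obtain ⟨y, hy⟩ := h.four e
  exact hy ▸ exists_order_lift hf y

lemma sq_VIa {n p : ℕ} (hn : Full n) (hd : Nat.card G ∣ n) (h : TyVIa G p) : ¬ p ^ 2 ∣ n := by
  obtain ⟨A, _, _, f, z, hz, L, k, m, -, hL⟩ := cov_of_VIa h
  exact pk_not_sq hL hn (((card_subgroup_dvd_card L).trans (card_dvd_of_surjective f hz.1)).trans hd)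

lemma big_VIa (hn : Full (Nat.card G)) {p : ℕ} (h : TyVIa G p) : Big G p := by
  obtain ⟨A, _, _, f, z, hz, hA⟩ := cov_of_VIa h
  have h1 := big_V (hn.of_dvd (card_dvd_of_surjective f hz.1)) hA
  exact h1.lift hz.1 (sq_VIa hn dvd_rfl h) fun q hq hpq =>
    OddK.of_cov hq (by have := h1.five; omega) hz

lemma big_VIb (hn : Full (Nat.card G)) {p : ℕ} (h : TyVIb G p) : Big G p := by
  obtain ⟨-, A, _, f, r, he, hA⟩ := h
  have := (Ext.ox he).finite
  have hd := card_dvd_of_surjective f he.2.2.1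
  exact (big_VIa (hn.of_dvd hd) hA).lift he.2.2.1 (sq_VIa hn hd hA) fun q _ _ =>
    OddK.of_odd he.2.2.1 (Ext.ox he).odd

lemma card_order_prime {q : ℕ} (hq : q.Prime) (h1 : q ∣ Nat.card G) (h2 : ¬ q ^ 2 ∣ Nat.card G) :
    Nat.card {x : G // orderOf x = q} = Nat.card (Sylow q G) * (q - 1) := by
  classical
  have := Fact.mk hq
  have hfac : (Nat.card G).factorization q = 1 := by
    have h3 := (hq.pow_dvd_iff_le_factorization (Nat.card_pos (α := G)).ne' (k := 1)).1
      (by simpa using h1)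
    have h4 := mt (hq.pow_dvd_iff_le_factorization (Nat.card_pos (α := G)).ne' (k := 2)).2 h2
    omega
  have hP : ∀ P : Sylow q G, Nat.card (P : Subgroup G) = q := fun P => by
    rw [P.card_eq_multiplicity, hfac, pow_one]
  let F : {x : G // orderOf x = q} → Sylow q G := fun x =>
    Sylow.ofCard (zpowers (x : G)) (by rw [Nat.card_zpowers, x.2, hfac, pow_one])
  have := Fintype.ofFinite (Sylow q G)
  rw [← Nat.card_congr (Equiv.sigmaFiberEquiv F), Nat.card_sigma, Finset.sum_congr rfl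
    (g := fun _ => q - 1), Finset.sum_const, Finset.card_univ, smul_eq_mul,
    Nat.card_eq_fintype_card]
  intro P _
  have e : {x // F x = P} ≃ {y : (P : Subgroup G) // ¬ y = 1} :=
    { toFun := fun x => ⟨⟨x.1, (congrArg Sylow.toSubgroup x.2).le (mem_zpowers (x.1 : G))⟩,
        fun e => ne_one_of_orderOf hq x.1.2 (congrArg Subtype.val e)⟩
      invFun := fun y =>
        have h := eq_zpowers_of_mem hq (hP P) y.1.2 fun e => y.2 (Subtype.ext e)
        ⟨⟨y.1, h.2⟩, Sylow.ext h.1⟩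
      left_inv := fun _ => rfl
      right_inv := fun _ => rfl }
  have := Fintype.ofFinite (P : Subgroup G)
  rw [Nat.card_congr e, Nat.card_eq_fintype_card, Fintype.card_subtype_compl,
    Fintype.card_subtype_eq, ← Nat.card_eq_fintype_card, hP]

lemma sylow_conf (c : Pair G H) {q : ℕ} (hq : q.Prime) (h1 : q ∣ Nat.card G)
    (h2 : ¬ q ^ 2 ∣ Nat.card G) : Nat.card (Sylow q G) = Nat.card (Sylow q H) := by
  have h := c.conf.card_order q hq.ne_zero
  rw [card_order_prime hq h1 h2, card_order_prime hq (c.card ▸ h1) (c.card ▸ h2)] at h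
  exact Nat.eq_of_mul_eq_mul_right (Nat.sub_pos_of_lt hq.one_lt) h

lemma Big.not_oddK (c : Pair G H) {p : ℕ} (h : Big G p) : ¬ OddK H p :=
  fun e => e.odd h.prime (sylow_conf c h.prime h.dvd h.sq ▸ h.even)

lemma Big.eq (c : Pair G H) {p q : ℕ} (h : Big G p) (h' : Big H q) : p = q := by
  rcases lt_trichotomy p q with e | e | e
  · exact absurd (h.odd q h'.prime e) (h'.not_oddK c.symm)
  · exact e
  · exact absurd (h'.odd p h.prime e) (h.not_oddK c)

end S

end Pool.Agent.Lib.MP_cb9dee_al
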