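import Pool.Agent.Lib.MP_cb9dee_al.CDefs
import Pool.Agent.Lib.MP_cb9dee_al.SInv

namespace Pool.Agent.Lib.MP_cb9dee_al

namespace C3

open Subgroup Finset
open scoped Classical

variable {G : Type} [Group G]

section Local

variable {t : G} {K : Subgroup G} {k : ℕ}

lemma conj_ne_one {g x : G} (hx : x ≠ 1) : g * x * g⁻¹ ≠ 1 := fun e => hx (by
  have := congrArg (fun z => g⁻¹ * z * g) e
  simpa [mul_assoc] using this)

lemma conj_comm (g : G) {x y : G} (h : y * x = x * y) :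
    g * y * g⁻¹ * (g * x * g⁻¹) = g * x * g⁻¹ * (g * y * g⁻¹) := by
  rw [conj_mul, conj_mul, h]

lemma ti' (h : Tor t K k) (hti : TI t K) {x g : G} (hx : x ∈ K) (h1 : x ≠ 1)
    (hg : g * x * g⁻¹ ∈ K) : g * t = t * g := by
  have ht2 := mul_self_of_two h.ord
  have key : g * t * g⁻¹ ∈ K := by
    by_cases e : x = t
    · exact e ▸ hg
    · refine hti _ hg (conj_ne_one h1) (fun e' => ?_) _ (conj_comm g (h.comm _ h.mem _ hx))
      have h2 : x * x = 1 := by
        have h3 : g * (x * x) * g⁻¹ = 1 := by rw [← conj_mul, e', ht2]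
        by_contra h4
        exact conj_ne_one h4 h3
      exact (h.uniq x hx h2).elim h1 e
  have h5 := (h.uniq _ key (by rw [conj_mul, ht2]; simp)).resolve_left
    (conj_ne_one (ne_one_of_two h.ord))
  exact mul_inv_eq_iff_eq_mul.1 h5

lemma normK (h : Tor t K k) {x g : G} (hg : g * t = t * g) (hx : x ∈ K) : g * x * g⁻¹ ∈ K := by
  by_cases e : g ∈ K
  · exact mul_mem (mul_mem e hx) (inv_mem e)
  · rw [(h.out g hg e).2 x hx]; exact inv_mem hx

lemma K_le (h : Tor t K k) : K ≤ centralizer ({t} : Set G) := fun x hx =>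
  mem_centralizer_singleton_iff.2 (h.comm x hx t h.mem)

lemma sylow_le [Finite G] {q : ℕ} [hq : Fact q.Prime] {A : Subgroup G} {x : G} (hx : x ∈ A)
    (ho : orderOf x = q) (h : ∀ z ∈ A, q ∣ orderOf z → ∀ y, y * z = z * y → y ∈ A) :
    ∃ P : Sylow q G, (P : Subgroup G) ≤ A := by
  have h0 : IsPGroup q (zpowers x) :=
    IsPGroup.of_card (n := 1) (by rw [Nat.card_zpowers, ho, pow_one])
  obtain ⟨P, hP⟩ := h0.exists_le_sylow
  have hxP : x ∈ (P : Subgroup G) := hP (mem_zpowers x)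
  have : Nontrivial (P : Subgroup G) :=
    ⟨⟨⟨x, hxP⟩, 1, fun e => ne_one_of_orderOf hq.out ho (congrArg Subtype.val e)⟩⟩
  have := P.isPGroup'.center_nontrivial
  obtain ⟨z, hz⟩ := exists_ne (1 : center (P : Subgroup G))
  have hc : ∀ y ∈ (P : Subgroup G), y * (z.1 : G) = z.1 * y := fun y hy =>
    congrArg Subtype.val (mem_center_iff.1 z.2 ⟨y, hy⟩)
  have hzA : (z.1 : G) ∈ A := h x hx (ho ▸ dvd_rfl) _ (hc x hxP).symm
  have hzo : q ∣ orderOf (z.1 : G) := by
    obtain ⟨j, hj⟩ := IsPGroup.iff_orderOf.1 P.isPGroup' z.1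
    rw [Subgroup.orderOf_coe, hj]
    refine dvd_pow_self q fun e => hz ?_
    rw [e, pow_zero, orderOf_eq_one_iff] at hj
    exact Subtype.ext hj
  exact ⟨P, fun y hy => h _ hzA hzo y (hc y hy)⟩

lemma exists_order [Finite G] {q : ℕ} (hq : q.Prime) {A : Subgroup G} (h : q ∣ Nat.card A) :
    ∃ z ∈ A, orderOf z = q := by
  have := Fact.mk hq
  obtain ⟨z, hz⟩ := exists_prime_orderOf_dvd_card' q h
  exact ⟨z, z.2, by rwa [Subgroup.orderOf_coe]⟩

lemma sylow_le_K [Finite G] (h : Tor t K k) (hti : TI t K) {q : ℕ} [hq : Fact q.Prime]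
    (h2 : q ≠ 2) (hk : q ∣ k) : ∃ P : Sylow q G, (P : Subgroup G) ≤ K := by
  obtain ⟨x, hx, ho⟩ := exists_order hq.out (h.cardK ▸ hk : q ∣ Nat.card K)
  refine sylow_le hx ho fun z hz hqz => hti z hz (fun e => ?_) fun e => ?_
  · rw [e, orderOf_one] at hqz
    exact hq.out.one_lt.ne' (Nat.dvd_one.1 hqz)
  · rw [e, h.ord] at hqz
    exact h2 ((Nat.prime_dvd_prime_iff_eq hq.out Nat.prime_two).1 hqz)

lemma two_dvd [Finite G] (h : Tor t K k) : 2 ∣ k :=
  h.cardK ▸ h.ord ▸ Subgroup.orderOf_dvd_natCard K h.mem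

lemma coprime_index [Finite G] (h : Tor t K k) (hti : TI t K) :
    (centralizer ({t} : Set G)).index.Coprime (2 * k) := by
  refine Nat.coprime_of_dvd fun q hq h1 h2 => ?_
  by_cases e : q = 2
  · exact h.odd (e ▸ h1)
  · have := Fact.mk hq
    have h3 : q ∣ k := ((Nat.Prime.dvd_mul hq).1 h2).resolve_left fun h4 =>
      e ((Nat.prime_dvd_prime_iff_eq hq Nat.prime_two).1 h4)
    obtain ⟨P, hP⟩ := sylow_le_K h hti e h3
    exact P.not_dvd_index (h1.trans (index_dvd_of_le (hP.trans (K_le h))))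

lemma exists_pow_order [Finite G] {q : ℕ} {y : G} (h : q ∣ orderOf y) :
    ∃ n : ℕ, orderOf (y ^ n) = q :=
  ⟨orderOf y / q, orderOf_pow_orderOf_div (orderOf_pos y).ne' h⟩

lemma conj_mem_K [Finite G] (h : Tor t K k) (hti : TI t K) {q : ℕ} (hq : q.Prime)
    (hk : q ∣ 2 * k) {y : G} (hy : q ∣ orderOf y) : ∃ g, g * y * g⁻¹ ∈ K := by
  have hinv : ∀ s : G, orderOf s = 2 → ∃ g, g * s * g⁻¹ ∈ K := fun s hs => by
    obtain ⟨g, hg⟩ := isConj_iff.1 (h.conj s hs)
    exact ⟨g, hg ▸ h.mem⟩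
  obtain ⟨n, hn⟩ := exists_pow_order hy
  have h1 : ∃ g, g * y ^ n * g⁻¹ ∈ K := by
    by_cases e : q = 2
    · exact hinv _ (e ▸ hn)
    · have := Fact.mk hq
      have h3 : q ∣ k := ((Nat.Prime.dvd_mul hq).1 hk).resolve_left fun h4 =>
        e ((Nat.prime_dvd_prime_iff_eq hq Nat.prime_two).1 h4)
      obtain ⟨P, hP⟩ := sylow_le_K h hti e h3
      obtain ⟨c, hc⟩ := exists_conj_mem_sylow P (y := y ^ n) (k := 1)
        (by rw [pow_one, ← hn, pow_orderOf_eq_one])
      exact ⟨c, hP hc⟩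
  obtain ⟨g, hg⟩ := h1
  have h2 : y ^ n ≠ 1 := ne_one_of_orderOf hq hn
  have h3 := conj_comm g (x := y ^ n) (y := y) (Commute.self_pow y n).eq
  by_cases e : g * y ^ n * g⁻¹ = t
  · rw [e] at h3
    by_cases e2 : g * y * g⁻¹ ∈ K
    · exact ⟨g, e2⟩
    · refine hinv y ?_
      rw [← orderOf_conj' g y]
      exact two_of_mul_self (h.out _ h3 e2).1 fun e3 => e2 (e3 ▸ K.one_mem)
  · exact ⟨g, hti _ hg (conj_ne_one h2) e _ h3⟩

end Local

variable [Fintype G]

/-- Nontrivial elements of order dividing `n`. -/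
noncomputable def SS (G : Type) [Group G] [Fintype G] (n : ℕ) : Finset G :=
  univ.filter fun y => y ≠ 1 ∧ orderOf y ∣ n

lemma mem_SS {n : ℕ} {y : G} : y ∈ SS G n ↔ y ≠ 1 ∧ orderOf y ∣ n := by simp [SS]

/-- Nontrivial elements of a subgroup. -/
noncomputable def KK (A : Subgroup G) : Finset G := univ.filter fun y => y ≠ 1 ∧ y ∈ A

lemma mem_KK {A : Subgroup G} {y : G} : y ∈ KK A ↔ y ≠ 1 ∧ y ∈ A := by simp [KK]

lemma card_filter_mem (A : Subgroup G) : (univ.filter (· ∈ A)).card = Nat.card A := by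
  rw [Nat.card_eq_fintype_card, Fintype.card_subtype]

lemma sum_KK {R : Type} [AddCommMonoid R] (A : Subgroup G) (F : G → R) :
    ∑ x : A, F x = F 1 + ∑ x ∈ KK A, F x := by
  rw [← Finset.sum_subtype (univ.filter (· ∈ A)) (by simp) F,
    ← Finset.add_sum_erase _ _ (a := 1) (by simp)]
  congr 2
  ext y
  simp [KK]

lemma card_KK (A : Subgroup G) : (KK A).card + 1 = Nat.card A := by
  have := sum_KK A (fun _ => (1 : ℕ))
  simp only [sum_const, card_univ, smul_eq_mul, mul_one] at this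
  rw [Nat.card_eq_fintype_card, this, add_comm]

/-- The number of elements conjugating `y` into `A`. -/
noncomputable def cin (A : Subgroup G) (y : G) : ℕ :=
  (univ.filter fun g : G => g * y * g⁻¹ ∈ A).card

lemma dcount {R : Type} [Semiring R] (A : Subgroup G) (F : G → R)
    (hF : ∀ g x, F (g * x * g⁻¹) = F x) :
    ∑ y ∈ univ.erase 1, (cin A y : R) * F y = Fintype.card G * ∑ x ∈ KK A, F x := by
  have h1 : ∀ y, (cin A y : R) * F y = ∑ g : G, if g * y * g⁻¹ ∈ A then F y else 0 := fun y => by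
    rw [← Finset.sum_filter, Finset.sum_const, nsmul_eq_mul, cin]
  simp only [h1]
  rw [Finset.sum_comm, ← nsmul_eq_mul, ← Finset.card_univ, ← Finset.sum_const]
  refine Finset.sum_congr rfl fun g _ => ?_
  rw [← Finset.sum_filter]
  refine Finset.sum_equiv (MulAut.conj g).toEquiv (fun y => ?_) fun y _ => (hF g y).symm
  simp only [mem_filter, mem_erase, mem_univ, and_true, mem_KK, MulEquiv.toEquiv_eq_coe,
    MulEquiv.coe_toEquiv, MulAut.conj_apply]
  exact and_congr_left fun _ => ⟨conj_ne_one, fun h e => h (by simp [e])⟩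

lemma le_cin {A : Subgroup G} {y g0 : G} (h0 : g0 * y * g0⁻¹ ∈ A) (N : Finset G)
    (hN : ∀ g ∈ N, ∀ x ∈ A, g * x * g⁻¹ ∈ A) : N.card ≤ cin A y := by
  refine Finset.card_le_card_of_injOn (fun g => g * g0) (fun g hg => ?_)
    fun a _ b _ e => mul_right_cancel e
  simp only [coe_filter, mem_univ, true_and, Set.mem_ofPred_eq]
  have := hN g hg _ h0
  rwa [show g * (g0 * y * g0⁻¹) * g⁻¹ = g * g0 * y * (g * g0)⁻¹ by group] at this

variable {t : G} {K : Subgroup G} {k : ℕ}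

lemma mem_SS_k (h : Tor t K k) (hti : TI t K) {y : G} :
    y ∈ SS G k ↔ y ≠ 1 ∧ ∃ g, g * y * g⁻¹ ∈ K := by
  rw [mem_SS]
  refine and_congr_right fun h1 => ⟨fun h2 => ?_, fun ⟨g, hg⟩ => ?_⟩
  · obtain ⟨q, hq, h3⟩ := Nat.exists_prime_and_dvd fun e => h1 (orderOf_eq_one_iff.1 e)
    exact conj_mem_K h hti hq ((h3.trans h2).mul_left 2) h3
  · rw [← orderOf_conj' g y, ← h.cardK]
    exact Subgroup.orderOf_dvd_natCard K hg

lemma cin_K (h : Tor t K k) (hti : TI t K) {y : G} (hy : y ∈ SS G k) : cin K y = 2 * k := by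
  obtain ⟨h1, g0, h0⟩ := (mem_SS_k h hti).1 hy
  rw [← h.cardC, ← card_filter_mem]
  refine le_antisymm ?_ (le_cin h0 _ fun g hg x hx =>
    normK h (mem_centralizer_singleton_iff.1 (mem_filter.1 hg).2) hx)
  refine Finset.card_le_card_of_injOn (fun g => g * g0⁻¹) (fun g hg => ?_)
    fun a _ b _ e => mul_right_cancel e
  simp only [coe_filter, mem_univ, true_and, Set.mem_ofPred_eq] at hg ⊢
  refine mem_centralizer_singleton_iff.2 (ti' h hti h0 (conj_ne_one h1) ?_)
  rwa [show g * g0⁻¹ * (g0 * y * g0⁻¹) * (g * g0⁻¹)⁻¹ = g * y * g⁻¹ by group]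

lemma card_G (h : Tor t K k) : Fintype.card G = 2 * k * (centralizer ({t} : Set G)).index := by
  rw [← h.cardC, card_mul_index, Nat.card_eq_fintype_card]

lemma k_pos (h : Tor t K k) : 0 < k := h.cardK ▸ Nat.card_pos

lemma sum_SS_k (h : Tor t K k) (hti : TI t K) (F : G → ℂ) (hF : ∀ g x, F (g * x * g⁻¹) = F x) :
    ∑ y ∈ SS G k, F y = (centralizer ({t} : Set G)).index * ∑ x ∈ KK K, F x := by
  have h1 := dcount K F hF
  have h2 : ∑ y ∈ univ.erase 1, (cin K y : ℂ) * F y = ∑ y ∈ SS G k, (cin K y : ℂ) * F y := by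
    refine (Finset.sum_subset (fun y hy => by simp [(mem_SS.1 hy).1]) fun y hy hy' => ?_).symm
    have : cin K y = 0 := by
      rw [cin, card_eq_zero, filter_eq_empty_iff]
      exact fun g _ hg => hy' ((mem_SS_k h hti).2 ⟨(mem_erase.1 hy).1, g, hg⟩)
    rw [this, Nat.cast_zero, zero_mul]
  rw [h2, Finset.sum_congr rfl fun y hy => by rw [cin_K h hti hy], ← Finset.mul_sum,
    card_G h] at h1
  have h3 : ((2 * k : ℕ) : ℂ) ≠ 0 := Nat.cast_ne_zero.2 (by have := k_pos h; omega)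
  apply mul_left_cancel₀ h3
  rw [h1]; push_cast; ring

lemma sum_split {R : Type} [AddCommMonoid R] {a b c : ℕ} (hab : a.Coprime b) (hac : a.Coprime c)
    (hbc : b.Coprime c) (hall : ∀ y : G, orderOf y ∣ a ∨ orderOf y ∣ b ∨ orderOf y ∣ c)
    (F : G → R) :
    ∑ y, F y = F 1 + ∑ y ∈ SS G a, F y + ∑ y ∈ SS G b, F y + ∑ y ∈ SS G c, F y := by
  have hd : ∀ {u v : ℕ}, u.Coprime v → Disjoint (SS G u) (SS G v) := fun huv =>
    Finset.disjoint_left.2 fun y h1 h2 => (mem_SS.1 h1).1 (orderOf_eq_one_iff.1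
      (Nat.eq_one_of_dvd_coprimes huv (mem_SS.1 h1).2 (mem_SS.1 h2).2))
  rw [← Finset.add_sum_erase _ _ (mem_univ 1), add_assoc, add_assoc, ← sum_union (hd hbc),
    ← sum_union (disjoint_union_right.2 ⟨hd hab, hd hac⟩)]
  congr 2
  ext y
  have := hall y
  simp only [mem_erase, mem_univ, and_true, mem_union, mem_SS]
  tauto

lemma comm_order {a b c : ℕ} (hab : a.Coprime b) (hac : a.Coprime c)
    (hall : ∀ y : G, orderOf y ∣ a ∨ orderOf y ∣ b ∨ orderOf y ∣ c) {y z : G} (hy : y ∈ SS G a)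
    (hc : z * y = y * z) : orderOf z ∣ a := by
  obtain ⟨h1, h2⟩ := mem_SS.1 hy
  have h3 : ∀ {n : ℕ}, a.Coprime n → ¬ orderOf y ∣ n := fun hn e =>
    h1 (orderOf_eq_one_iff.1 (Nat.eq_one_of_dvd_coprimes hn h2 e))
  have h4 : ∀ {n : ℕ}, a.Coprime n → orderOf z ∣ n → orderOf z ∣ a := fun hn e => by
    have h5 : orderOf (z * y) = orderOf z * orderOf y :=
      Commute.orderOf_mul_eq_mul_orderOf_of_coprime hc
        ((hn.symm.coprime_dvd_left e).coprime_dvd_right h2)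
    rcases hall (z * y) with h6 | h6 | h6 <;> rw [h5] at h6
    · exact (dvd_mul_right _ _).trans h6
    · exact (h3 hab ((dvd_mul_left _ _).trans h6)).elim
    · exact (h3 hac ((dvd_mul_left _ _).trans h6)).elim
  rcases hall z with h6 | h6 | h6
  exacts [h6, h4 hab h6, h4 hac h6]

lemma cent_dvd {a b c e : ℕ} (hab : a.Coprime b) (hac : a.Coprime c)
    (hall : ∀ y : G, orderOf y ∣ a ∨ orderOf y ∣ b ∨ orderOf y ∣ c)
    (he : Fintype.card G = a * e) (hae : a.Coprime e) {y : G} (hy : y ∈ SS G a) :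
    Nat.card (centralizer ({y} : Set G)) ∣ a := by
  have h1 : Nat.card (centralizer ({y} : Set G)) ∣ a * e :=
    he ▸ Nat.card_eq_fintype_card (α := G) ▸ card_subgroup_dvd_card _
  refine Nat.Coprime.dvd_of_dvd_mul_right (Nat.coprime_of_dvd fun q hq h2 h3 => ?_) h1
  obtain ⟨z, hz, ho⟩ := exists_order hq h2
  have h4 := comm_order hab hac hall hy (mem_centralizer_singleton_iff.1 hz)
  rw [ho] at h4
  exact hq.one_lt.ne' (Nat.eq_one_of_dvd_coprimes hae h4 h3)

lemma card_class (y : G) :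
    (univ.filter (IsConj y ·)).card * Nat.card (centralizer ({y} : Set G)) = Fintype.card G := by
  have h1 : ∀ z, IsConj y z → cnt y z = Nat.card (centralizer ({y} : Set G)) := fun z hz => by
    obtain ⟨c, rfl⟩ := isConj_iff.1 hz
    rw [← cnt_self, cnt, cnt]
    refine Finset.card_equiv (Equiv.mulLeft c⁻¹) fun g => ?_
    simp only [mem_filter, mem_univ, true_and, Equiv.coe_mulLeft]
    constructor
    · intro e
      rw [show c⁻¹ * g * y * (c⁻¹ * g)⁻¹ = c⁻¹ * (g * y * g⁻¹) * c by group, e]; group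
    · intro e
      rw [show g * y * g⁻¹ = c * (c⁻¹ * g * y * (c⁻¹ * g)⁻¹) * c⁻¹ by group, e]
  rw [← Finset.card_univ, Finset.card_eq_sum_card_fiberwise (s := univ)
    (f := fun g => g * y * g⁻¹) (t := univ.filter (IsConj y ·)) fun g _ => by
      simp only [coe_filter, mem_univ, true_and, Set.mem_ofPred_eq]
      exact isConj_iff.2 ⟨g, rfl⟩]
  rw [← smul_eq_mul, ← Finset.sum_const]
  exact Finset.sum_congr rfl fun z hz => (h1 z (mem_filter.1 hz).2).symm

end C3

end Pool.Agent.Lib.MP_cb9dee_al
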