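import Pool.Agent.Lib.MP_cb9dee_al.C3A

namespace Pool.Agent.Lib.MP_cb9dee_al

namespace C3

open Subgroup Finset
open scoped Classical

lemma arith {i k : ℕ} {x : ℤ} (hk : 0 < k) (hc : i.Coprime (2 * k)) (h4 : 4 ∣ x - 1)
    (hi : (i : ℤ) * (x - 1) ^ 2 = 2 * k ^ 2 * x * (x + 1)) :
    (x = 2 * k + 1 ∧ (i : ℤ) = (2 * k + 1) * (k + 1)) ∨
      (x = 1 - 2 * k ∧ (i : ℤ) = (2 * k - 1) * (k - 1)) := by
  obtain ⟨a, ha⟩ := h4
  have hx : x = 4 * a + 1 := by linarith
  subst hx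
  have h1 : (i : ℤ) * (4 * a) ^ 2 = (2 * k) ^ 2 * ((4 * a + 1) * (2 * a + 1)) := by
    linear_combination hi
  have c1 : IsCoprime (4 * a) (4 * a + 1) := ⟨-1, 1, by ring⟩
  have c2 : IsCoprime (4 * a) (2 * a + 1) := ⟨a, 1 - 2 * a, by ring⟩
  have d1 : (4 * a) ^ 2 ∣ (2 * k : ℤ) ^ 2 :=
    ((c1.mul_right c2).pow_left (m := 2)).dvd_of_dvd_mul_right ⟨i, by rw [← h1]; ring⟩
  have c3 : IsCoprime (2 * k : ℤ) (i : ℤ) := by
    have := Nat.isCoprime_iff_coprime.2 hc.symm
    simpa using this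
  have d2 : (2 * k : ℤ) ^ 2 ∣ (4 * a) ^ 2 :=
    (c3.pow_left (m := 2)).dvd_of_dvd_mul_left ⟨_, h1⟩
  have e1 : (4 * a) ^ 2 = (2 * k : ℤ) ^ 2 :=
    Int.dvd_antisymm (sq_nonneg _) (sq_nonneg _) d1 d2
  have hk' : (2 * k : ℤ) ^ 2 ≠ 0 := by positivity
  rw [e1, mul_comm] at h1
  have h2 := mul_left_cancel₀ hk' h1
  rcases sq_eq_sq_iff_eq_or_eq_neg.1 e1 with e | e
  · have : (k : ℤ) = 2 * a := by linarith
    exact Or.inl ⟨by linarith, by rw [h2, this]; ring⟩
  · have : (k : ℤ) = -(2 * a) := by linarith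
    exact Or.inr ⟨by linarith, by rw [h2, this]; ring⟩

variable {G : Type} [Group G] [Fintype G]

/-- The outcome of the character theoretic step. -/
structure Dat (t : G) (k P m : ℕ) : Prop where
  par : (P = 2 * k + 1 ∧ m = k + 1) ∨ (P + 1 = 2 * k ∧ m + 1 = k)
  idx : (centralizer ({t} : Set G)).index = P * m
  five : 5 ≤ P
  three : 3 ≤ m
  cPm : P.Coprime m
  cP : P.Coprime (2 * k)
  cm : m.Coprime (2 * k)
  all : ∀ y : G, orderOf y ∣ k ∨ orderOf y ∣ P ∨ orderOf y ∣ m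
  nk : (SS G k).card + P * m = P * m * k
  nm : (SS G m).card + P * k = P * k * m
  nP : (SS G P).card = 4 * k * m

variable {t : G} {K : Subgroup G} {k : ℕ}

theorem exists_dat [IsSimpleGroup G] (h : Tor t K k) (hti : TI t K) (T : CT G) (X : Fin T.n)
    {δ x : ℤ} (hδ : δ = 1 ∨ δ = -1) (hx : x = δ * T.d X) (h4 : 4 ∣ x - 1)
    (hi : ((centralizer ({t} : Set G)).index : ℤ) * (x - 1) ^ 2 = 2 * k ^ 2 * x * (x + 1))
    (hZ : ∀ (y : G) (q : ℕ) (e : ℤ), q.Prime → q ∣ orderOf y → (orderOf y).Coprime k →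
      2 * (Nat.card G : ℤ) = (x + 1) * e → ¬ (q : ℤ) ∣ e → δ * T.χ X y = -1) :
    ∃ P m, Dat t k P m := by
  have hk := k_pos h
  have hk2 := two_dvd h
  have hco := coprime_index h hti
  have hG := card_G h
  have hi4 : 4 ≤ (centralizer ({t} : Set G)).index := by
    have h5 : 4 ∣ Nat.card G := by
      rw [Nat.card_eq_fintype_card, hG]
      exact Dvd.dvd.mul_right (Nat.mul_dvd_mul_left 2 hk2) _
    exact four_le_index h5 (cent_ne_top h5 (ne_one_of_two h.ord))
  generalize hidef : (centralizer ({t} : Set G)).index = i at *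
  obtain ⟨P, m, par, idx, five, three, hxP, hxm⟩ : ∃ P m : ℕ,
      ((P = 2 * k + 1 ∧ m = k + 1 ∧ δ = 1) ∨ (P + 1 = 2 * k ∧ m + 1 = k ∧ δ = -1)) ∧ i = P * m ∧
      5 ≤ P ∧ 3 ≤ m ∧ T.d X = P ∧ x + 1 = δ * (2 * m) := by
    rcases arith hk hco h4 hi with ⟨e1, e2⟩ | ⟨e1, e2⟩
    · rcases hδ with rfl | rfl
      · exact ⟨2 * k + 1, k + 1, Or.inl ⟨rfl, rfl, rfl⟩, by exact_mod_cast e2, by omega, by omega,
          by omega, by push_cast; omega⟩
      · omega
    · rcases hδ with rfl | rfl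
      · omega
      · obtain ⟨j, rfl⟩ : ∃ j, k = j + 1 := ⟨k - 1, by omega⟩
        have e3 : i = (2 * j + 1) * j := by
          have : (i : ℤ) = (2 * j + 1) * j := by rw [e2]; push_cast; ring
          exact_mod_cast this
        have hj : j ≠ 1 := by rintro rfl; omega
        exact ⟨2 * j + 1, j, Or.inr ⟨by ring, rfl, rfl⟩, e3, by omega, by omega,
          by push_cast at e1; omega, by push_cast at e1; omega⟩
  subst idx
  have cPm : P.Coprime m := by
    rcases par with ⟨e1, e2, -⟩ | ⟨e1, e2, -⟩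
    · have : P + 1 = 2 * m := by omega
      exact Nat.isCoprime_iff_coprime.1 ⟨-1, 2, by
        have : (P : ℤ) + 1 = 2 * m := by exact_mod_cast this
        linarith⟩
    · have : P = 2 * m + 1 := by omega
      exact Nat.isCoprime_iff_coprime.1 ⟨1, -2, by
        have : (P : ℤ) = 2 * m + 1 := by exact_mod_cast this
        linarith⟩
  have cP : P.Coprime (2 * k) := Nat.Coprime.coprime_mul_right hco
  have cm : m.Coprime (2 * k) := Nat.Coprime.coprime_mul_left hco
  have cPk : P.Coprime k := cP.coprime_mul_left_right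
  have cmk : m.Coprime k := cm.coprime_mul_left_right
  have hδ2 : (δ : ℂ) * δ = 1 := by rcases hδ with rfl | rfl <;> simp
  have v0 : ∀ (y : G) (q : ℕ), q.Prime → q ∣ orderOf y → q ∣ P → T.χ X y = 0 :=
    fun y q hq h1 h2 => T.defect_zero X (e := 2 * k * m) hq (by rw [hG, hxP]; ring)
      (fun h3 => hq.one_lt.ne' (Nat.eq_one_of_dvd_coprimes (cP.mul_right cPm) h2 h3)) h1
  have v1 : ∀ (y : G) (q : ℕ), q.Prime → q ∣ orderOf y → q ∣ m → (orderOf y).Coprime k →
      δ * T.χ X y = -1 := fun y q hq h1 h2 h3 => by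
    refine hZ y q (δ * (2 * k * P)) hq h1 h3 ?_ fun h5 => ?_
    · rw [Nat.card_eq_fintype_card, hG, hxm]
      rcases hδ with rfl | rfl <;> push_cast <;> ring
    · have h6 : (q : ℤ) ∣ ((2 * k * P : ℕ) : ℤ) := by
        rcases hδ with rfl | rfl
        · simpa using h5
        · simpa using h5
      exact hq.one_lt.ne' (Nat.eq_one_of_dvd_coprimes (cm.mul_right cPm.symm) h2
        (Int.natCast_dvd_natCast.1 h6))
  have all : ∀ y : G, orderOf y ∣ k ∨ orderOf y ∣ P ∨ orderOf y ∣ m := fun y => by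
    by_cases h1 : (orderOf y).Coprime (2 * k)
    · right
      have h2 : orderOf y ∣ P * m := h1.dvd_of_dvd_mul_left (hG ▸ orderOf_dvd_card)
      by_cases h3 : (orderOf y).Coprime m
      · exact Or.inl (h3.dvd_of_dvd_mul_right h2)
      · refine Or.inr (Nat.Coprime.dvd_of_dvd_mul_left ?_ h2)
        obtain ⟨q, hq, h5, h6⟩ := Nat.Prime.not_coprime_iff_dvd.1 h3
        refine Nat.coprime_of_dvd fun r hr h7 h8 => ?_
        have h9 := v1 y q hq h5 h6 h1.coprime_mul_left_right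
        rw [v0 y r hr h7 h8] at h9
        simp at h9
    · obtain ⟨q, hq, h5, h6⟩ := Nat.Prime.not_coprime_iff_dvd.1 h1
      obtain ⟨g, hg⟩ := conj_mem_K h hti hq h6 h5
      left
      rw [← orderOf_conj' g y, ← h.cardK]
      exact Subgroup.orderOf_dvd_natCard K hg
  have w0 : ∀ y ∈ SS G P, T.χ X y = 0 := fun y hy => by
    obtain ⟨h1, h2⟩ := mem_SS.1 hy
    obtain ⟨q, hq, h3⟩ := Nat.exists_prime_and_dvd fun e => h1 (orderOf_eq_one_iff.1 e)
    exact v0 y q hq h3 (h3.trans h2)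
  have w1 : ∀ y ∈ SS G m, δ * T.χ X y = -1 := fun y hy => by
    obtain ⟨h1, h2⟩ := mem_SS.1 hy
    obtain ⟨q, hq, h3⟩ := Nat.exists_prime_and_dvd fun e => h1 (orderOf_eq_one_iff.1 e)
    exact v1 y q hq h3 (h3.trans h2) (cmk.coprime_dvd_left h2)
  have w2 : ∀ y ∈ SS G m, T.χ X y⁻¹ * T.χ X y = 1 := fun y hy => by
    have h1 := w1 y hy
    have h2 := w1 y⁻¹ (by simpa [mem_SS] using hy)
    linear_combination (δ * T.χ X y⁻¹) * h1 - h2 - T.χ X y⁻¹ * T.χ X y * hδ2
  have split := fun F : G → ℂ => sum_split cPk.symm cmk.symm cPm all F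
  have hKK : ((KK K).card : ℂ) = k - 1 := by
    have := card_KK K
    rw [h.cardK] at this
    rw [← this]; push_cast; ring
  have hSk := fun F hF => sum_SS_k h hti F hF
  rw [hidef] at hSk
  have E0 : ((SS G k).card : ℂ) = (P * m : ℕ) * (k - 1) := by
    have := hSk (fun _ => 1) fun _ _ => rfl
    simpa [hKK] using this
  have E3 := split fun _ => 1
  simp only [sum_const, card_univ, nsmul_eq_mul, mul_one] at E3
  have E1 := split fun y => δ * T.χ X y
  have hX0 : ∑ y, T.χ X y = 0 := by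
    obtain ⟨j, hj1, hj2⟩ := T.exists_triv
    refine hj2 X fun e => ?_
    have := hj1 1
    rw [← e, T.χ_one, hxP] at this
    have : P = 1 := by exact_mod_cast this
    omega
  rw [← Finset.mul_sum, hX0, hSk _ fun g y => by rw [T.χ_conj],
    Finset.sum_eq_zero (s := SS G P) fun y hy => by rw [w0 y hy, mul_zero],
    Finset.sum_congr rfl w1, T.χ_one, hxP] at E1
  have E2 := split fun y => T.χ X y⁻¹ * T.χ X y
  rw [T.row, if_pos rfl, hSk _ fun g y => by rw [T.χ_conj, conj_inv, T.χ_conj],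
    Finset.sum_eq_zero (s := SS G P) fun y hy => by rw [w0 y hy, mul_zero],
    Finset.sum_congr rfl w2, inv_one, T.χ_one, hxP] at E2
  simp only [mul_zero, sum_const, nsmul_eq_mul, add_zero, mul_one] at E1 E2
  obtain ⟨a, ha⟩ := T.multK X (Lin.one K)
  simp only [one_mul] at ha
  rw [sum_KK K (T.χ X), T.χ_one, hxP, h.cardK] at ha
  set s1 : ℤ := δ * (k * a - P) with hs1
  have hs1' : ∑ y ∈ KK K, (δ : ℂ) * T.χ X y = s1 := by
    rw [← Finset.mul_sum, hs1]; push_cast
    linear_combination δ * ha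
  rw [hs1'] at E1
  have hPm : ((P * m : ℕ) : ℂ) ≠ 0 := Nat.cast_ne_zero.2 (by positivity)
  have hxm' : (δ : ℂ) * P + 1 = δ * (2 * m) := by
    have : δ * P + 1 = δ * (2 * m) := by rw [← hxm, hx, hxP]
    exact_mod_cast this
  have hs2 : ∑ y ∈ KK K, T.χ X y⁻¹ * T.χ X y = 2 * (k - 1) - s1 := by
    apply mul_left_cancel₀ hPm
    rw [hG] at E2
    push_cast at E1 E2 ⊢
    linear_combination -E1 - E2 - δ * P * hxm' + (P ^ 2 - 2 * P * m) * hδ2
  have hle : s1 ≤ k - 1 := by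
    have h1 : ∑ y ∈ KK K, ((Complex.normSq (δ * T.χ X y - 1) : ℝ) : ℂ) = 3 * (k - 1) - 3 * s1 := by
      have h2 : ∀ y, ((Complex.normSq (δ * T.χ X y - 1) : ℝ) : ℂ) = T.χ X y⁻¹ * T.χ X y -
          δ * T.χ X y - starRingEnd ℂ (δ * T.χ X y) + 1 := fun y => by
        rw [Complex.normSq_eq_conj_mul_self, T.χ_inv]
        simp only [map_sub, map_mul, map_intCast, map_one]
        linear_combination (starRingEnd ℂ (T.χ X y) * T.χ X y) * hδ2
      simp only [h2, sum_add_distrib, sum_sub_distrib, ← map_sum, hs1', hs2, sum_const,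
        nsmul_eq_mul, hKK, map_intCast]
      ring
    have h3 : (0 : ℝ) ≤ 3 * (k - 1) - 3 * s1 := by
      have h4 : ∑ y ∈ KK K, Complex.normSq (δ * T.χ X y - 1) = 3 * (k - 1) - 3 * s1 := by
        exact_mod_cast h1
      rw [← h4]
      exact sum_nonneg fun _ _ => Complex.normSq_nonneg _
    have h5 : (0 : ℤ) ≤ 3 * (k - 1) - 3 * s1 := by exact_mod_cast h3
    omega
  have F1 : ((SS G m).card : ℤ) = δ * P + P * m * s1 := by
    have : ((SS G m).card : ℂ) = δ * P + P * m * s1 := by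
      push_cast at E1
      linear_combination E1
    exact_mod_cast this
  have F0 : ((SS G k).card : ℤ) = P * m * (k - 1) := by exact_mod_cast E0
  have F3 : (2 * k * (P * m) : ℤ) = 1 + (SS G k).card + (SS G P).card + (SS G m).card := by
    rw [hG] at E3
    exact_mod_cast E3
  have hge : 0 ≤ s1 := by
    by_contra h1
    have h2 : s1 ≤ -1 := by omega
    have h3 : (P : ℤ) * m * s1 ≤ -(P * m) := by
      have : (0 : ℤ) ≤ P * m := by positivity
      nlinarith
    have h4 : (3 : ℤ) * P ≤ P * m := by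
      have : (3 : ℤ) ≤ m := by exact_mod_cast three
      have : (0 : ℤ) ≤ P := by positivity
      nlinarith
    have h5 : (0 : ℤ) ≤ (SS G m).card := Int.natCast_nonneg _
    have h6 : (5 : ℤ) ≤ P := by exact_mod_cast five
    rcases hδ with e | e <;> rw [e] at F1 <;> linarith
  have hs : s1 = k - 1 := by
    have h1 : (k : ℤ) ∣ s1 + 1 := by
      rcases par with ⟨e1, -, e3⟩ | ⟨e1, -, e3⟩
      · have : (P : ℤ) = 2 * k + 1 := by omega
        exact ⟨a - 2, by rw [hs1, e3, this]; ring⟩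
      · have : (P : ℤ) = 2 * k - 1 := by omega
        exact ⟨2 - a, by rw [hs1, e3, this]; ring⟩
    have := Int.le_of_dvd (by omega) h1
    omega
  rw [hs] at F1
  refine ⟨P, m, par.imp (fun e => ⟨e.1, e.2.1⟩) fun e => ⟨e.1, e.2.1⟩, hidef, five, three, cPm, cP,
    cm, all, ?_, ?_, ?_⟩
  · zify; linear_combination F0
  · zify
    rcases par with ⟨e1, e2, e3⟩ | ⟨e1, e2, e3⟩
    · rw [F1, e3, e2]; push_cast; ring
    · have : (k : ℤ) = m + 1 := by omega
      rw [F1, e3, this]; ring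
  · zify
    rw [F0, F1] at F3
    rcases par with ⟨e1, e2, e3⟩ | ⟨e1, e2, e3⟩
    · subst e1 e2 e3
      push_cast at F3 ⊢
      linear_combination -F3
    · have e4 : (k : ℤ) = m + 1 := by omega
      have e5 : (P : ℤ) = 2 * m + 1 := by omega
      rw [e3, e4, e5] at F3
      rw [e4]
      linear_combination -F3

end C3

end Pool.Agent.Lib.MP_cb9dee_al
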