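import Pool.Agent.Lib.MP_cb9dee_al.C3B

namespace Pool.Agent.Lib.MP_cb9dee_al

namespace C3

open Subgroup Finset
open scoped Classical

variable {G : Type} [Group G] [Fintype G] {t : G} {K : Subgroup G} {k P m : ℕ}

lemma Dat.cPk (d : Dat t k P m) : P.Coprime k := d.cP.coprime_mul_left_right

lemma Dat.cmk (d : Dat t k P m) : m.Coprime k := d.cm.coprime_mul_left_right

lemma Dat.card (d : Dat t k P m) (h : Tor t K k) : Fintype.card G = 2 * k * P * m := by
  rw [card_G h, d.idx, mul_assoc (2 * k)]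

lemma Dat.odd (d : Dat t k P m) : ¬ 2 ∣ P ∧ ¬ 2 ∣ m :=
  ⟨fun e => by simpa using Nat.eq_one_of_dvd_coprimes d.cP e (dvd_mul_right 2 k),
    fun e => by simpa using Nat.eq_one_of_dvd_coprimes d.cm e (dvd_mul_right 2 k)⟩

lemma Dat.allP (d : Dat t k P m) (y : G) : orderOf y ∣ P ∨ orderOf y ∣ k ∨ orderOf y ∣ m := by
  have := d.all y; tauto

lemma Dat.allm (d : Dat t k P m) (y : G) : orderOf y ∣ m ∨ orderOf y ∣ k ∨ orderOf y ∣ P := by
  have := d.all y; tauto

lemma Dat.dvd_m (d : Dat t k P m) (h : Tor t K k) {y : G} (hy : y ∈ SS G m) :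
    Nat.card (centralizer ({y} : Set G)) ∣ m :=
  cent_dvd d.cmk d.cPm.symm d.allm (e := 2 * k * P) (by rw [d.card h]; ring)
    (d.cm.mul_right d.cPm.symm) hy

lemma class_sub (y : G) :
    univ.filter (IsConj y ·) ⊆ univ.filter fun z => orderOf z = orderOf y := fun z hz => by
  simp only [mem_filter, mem_univ, true_and] at hz ⊢
  exact (orderOf_isConj hz).symm

lemma ord_sub {y : G} {n : ℕ} (hy : y ∈ SS G n) :
    (univ.filter fun z => orderOf z = orderOf y) ⊆ SS G n := fun z hz => by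
  have h1 := (mem_filter.1 hz).2
  obtain ⟨h2, h3⟩ := mem_SS.1 hy
  exact mem_SS.2 ⟨fun e => h2 (by rw [← orderOf_eq_one_iff, ← h1, e, orderOf_one]), h1 ▸ h3⟩

lemma Dat.cent_P (d : Dat t k P m) (h : Tor t K k) {y : G} (hy : y ∈ SS G P) :
    Nat.card (centralizer ({y} : Set G)) = P ∧
      2 * k * m ≤ (univ.filter fun z : G => orderOf z = orderOf y).card := by
  obtain ⟨c, hc⟩ := cent_dvd d.cPk d.cPm d.allP (e := 2 * k * m) (by rw [d.card h]; ring)
    (d.cP.mul_right d.cPm) hy
  have h1 := card_class y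
  have h2 := card_le_card ((class_sub y).trans (ord_sub hy))
  have h3 := card_le_card (class_sub y)
  have h4 : 0 < Nat.card (centralizer ({y} : Set G)) := Nat.card_pos
  rw [d.card h] at h1
  rw [d.nP] at h2
  generalize Nat.card (centralizer ({y} : Set G)) = n at *
  generalize (univ.filter (IsConj y ·)).card = l at *
  have h5 : l = 2 * k * m * c := by
    apply Nat.eq_of_mul_eq_mul_right h4
    rw [h1, hc]; ring
  have hkm : 0 < 2 * k * m := by have := k_pos h; have := d.three; positivity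
  have h6 : c ≤ 2 := by
    apply Nat.le_of_mul_le_mul_left _ hkm
    rw [← h5]; linarith
  have h7 : ¬ 2 ∣ c := fun e => d.odd.1 (hc ▸ e.mul_left n)
  have h8 : c = 1 := by omega
  rw [h8, mul_one] at hc h5
  exact ⟨hc.symm, h5 ▸ h3⟩

lemma Dat.unique (d : Dat t k P m) (h : Tor t K k) {q r : ℕ} (hq : q.Prime) (hr : r.Prime)
    (h1 : q ∣ P) (h2 : r ∣ P) : r = q := by
  by_contra hne
  obtain ⟨y, -, hy⟩ := exists_order hq (A := (⊤ : Subgroup G)) (by
    rw [card_top, Nat.card_eq_fintype_card, d.card h]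
    exact (h1.mul_left _).mul_right _)
  have hyS : y ∈ SS G P := mem_SS.2 ⟨ne_one_of_orderOf hq hy, hy ▸ h1⟩
  obtain ⟨z, hz, hzo⟩ := exists_order hr (A := centralizer ({y} : Set G))
    (by rw [(d.cent_P h hyS).1]; exact h2)
  have hzS : z ∈ SS G P := mem_SS.2 ⟨ne_one_of_orderOf hr hzo, hzo ▸ h2⟩
  have hco : r.Coprime q := (Nat.coprime_primes hr hq).2 hne
  have hw : orderOf (z * y) = r * q := by
    rw [Commute.orderOf_mul_eq_mul_orderOf_of_coprime (mem_centralizer_singleton_iff.1 hz)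
      (by rw [hy, hzo]; exact hco), hy, hzo]
  have hr1 := hr.one_lt
  have hq1 := hq.one_lt
  have hwS : z * y ∈ SS G P := mem_SS.2 ⟨fun e => by
    rw [e, orderOf_one] at hw
    nlinarith, hw ▸ hco.mul_dvd_of_dvd_of_dvd h2 h1⟩
  have b1 := (d.cent_P h hyS).2
  have b2 := (d.cent_P h hzS).2
  have b3 := (d.cent_P h hwS).2
  have hd : ∀ {u v : G}, orderOf u ≠ orderOf v → Disjoint
      (univ.filter fun z : G => orderOf z = orderOf u)
      (univ.filter fun z : G => orderOf z = orderOf v) := fun huv =>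
    Finset.disjoint_left.2 fun a h1 h2 => huv ((mem_filter.1 h1).2.symm.trans (mem_filter.1 h2).2)
  have b4 := card_le_card (union_subset (union_subset (ord_sub hyS) (ord_sub hzS)) (ord_sub hwS))
  rw [card_union_of_disjoint (disjoint_union_left.2
    ⟨hd (by rw [hy, hw]; nlinarith), hd (by rw [hzo, hw]; nlinarith)⟩),
    card_union_of_disjoint (hd (by rw [hy, hzo]; exact Ne.symm hne)), d.nP] at b4
  have hkm : 0 < k * m := by have := k_pos h; have := d.three; positivity
  nlinarith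

lemma Dat.prime (d : Dat t k P m) (h : Tor t K k) (hn : Full (Nat.card G)) : P.Prime := by
  have h5 := d.five
  obtain ⟨q, hq, hqP⟩ := Nat.exists_prime_and_dvd (show P ≠ 1 by omega)
  have hP := Nat.eq_prime_pow_of_unique_prime_dvd (show P ≠ 0 by omega)
    fun hr h2 => d.unique h hq hr hqP h2
  generalize P.primeFactorsList.length = a at hP
  have hq2 : q ≠ 2 := fun e => d.odd.1 (e ▸ hqP)
  rw [Nat.card_eq_fintype_card, d.card h] at hn
  obtain ⟨n1, n2, -, -, -, n6, n7⟩ := hn
  have hPg : P ∣ 2 * k * P * m := (dvd_mul_left P _).mul_right m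
  have ha : a < 3 := by
    by_contra e
    exact n1 q hq hq2 ((pow_dvd_pow q (not_lt.1 e)).trans (hP ▸ hPg))
  have hk2 := two_dvd h
  interval_cases a
  · rw [pow_zero] at hP; omega
  · rwa [hP, pow_one]
  · exfalso
    obtain ⟨b, hb⟩ := hq.odd_of_ne_two hq2
    have hP' : P = 4 * (b * b + b) + 1 := by rw [hP, hb]; ring
    have hk : k = 2 * (b * (b + 1)) := by
      rcases d.par with ⟨e, -⟩ | ⟨e, -⟩
      · rw [mul_add, mul_one]; omega
      · omega
    have hq2g : q ^ 2 ∣ 2 * k * P * m := hP ▸ hPg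
    have h4 : 4 ∣ 2 * k * P * m := ((Nat.mul_dvd_mul_left 2 hk2).mul_right _).mul_right _
    have hb1 : b = 1 := by
      by_contra e
      obtain ⟨r, hr, hrb⟩ := Nat.exists_prime_and_dvd e
      have h6 : q - 1 = 2 * b := by omega
      by_cases e2 : r = 2
      · exact (n6 h4).2.2.1 q hq hq2 hq2g (h6 ▸ Nat.mul_dvd_mul_left 2 (e2 ▸ hrb))
      · refine n2 q r hq hr e2 ?_ hq2g hq2 (h6 ▸ hrb.mul_left 2)
        rw [hk]
        exact ((((hrb.mul_right _).mul_left 2).mul_left 2).mul_right _).mul_right _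
    subst hb1
    refine (n7 ?_).1 ?_
    · rw [hk]; exact (dvd_mul_right 8 _).mul_right _
    · rw [hP']; exact (dvd_mul_left 9 _).mul_right _

lemma Dat.not_sq (d : Dat t k P m) (h : Tor t K k) (hP : P.Prime) : ¬ P ^ 2 ∣ Nat.card G := by
  rw [Nat.card_eq_fintype_card, d.card h, show 2 * k * P * m = P * (2 * k * m) by ring, sq]
  intro e
  exact hP.one_lt.ne' (Nat.eq_one_of_dvd_coprimes (d.cP.mul_right d.cPm) dvd_rfl
    (Nat.dvd_of_mul_dvd_mul_left hP.pos e))

lemma Dat.pcard (d : Dat t k P m) (h : Tor t K k) (hP : P.Prime) :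
    Nat.card (Sylow P G) = P + 1 := by
  have h1 := S.card_order_prime (G := G) hP (by
    rw [Nat.card_eq_fintype_card, d.card h]; exact (dvd_mul_left P _).mul_right m) (d.not_sq h hP)
  have h2 : Nat.card {x : G // orderOf x = P} = (SS G P).card := by
    rw [Nat.card_eq_fintype_card, Fintype.card_subtype]
    congr 1
    ext y
    simp only [mem_filter, mem_univ, true_and, mem_SS]
    exact ⟨fun e => ⟨ne_one_of_orderOf hP e, e ▸ dvd_rfl⟩, fun e =>
      ((Nat.dvd_prime hP).1 e.2).resolve_left fun e' => e.1 (orderOf_eq_one_iff.1 e')⟩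
  rw [h2, d.nP] at h1
  have h5 := d.five
  apply Nat.eq_of_mul_eq_mul_right (show 0 < P - 1 by omega)
  rw [← h1]
  rcases d.par with ⟨e1, e2⟩ | ⟨e1, e2⟩
  · rw [e1, e2, Nat.add_sub_cancel]; ring
  · rw [e1, show P - 1 = 2 * m by omega]; ring

/-- The set of involutions. -/
noncomputable def II (G : Type) [Group G] [Fintype G] : Finset G :=
  univ.filter fun u => orderOf u = 2

/-- Involutions `u` such that `u * y` is an involution. -/
noncomputable def JJ (y : G) : Finset G :=
  univ.filter fun u => orderOf u = 2 ∧ orderOf (u * y) = 2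

lemma sum_JJ : ∑ y : G, (JJ y).card = (II G).card * (II G).card := by
  simp only [JJ, card_filter]
  rw [sum_comm]
  have h1 : ∀ u : G, (∑ y : G, if orderOf u = 2 ∧ orderOf (u * y) = 2 then 1 else 0) =
      if orderOf u = 2 then (II G).card else 0 := fun u => by
    split_ifs with e
    · simp only [e, true_and, II, card_filter]
      exact Fintype.sum_equiv (Equiv.mulLeft u) _ _ fun _ => rfl
    · simp [e]
  rw [sum_congr rfl fun u _ => h1 u, ← sum_filter, sum_const, smul_eq_mul]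
  rfl

lemma inv_of_JJ {y u : G} (hu : u ∈ JJ y) : orderOf u = 2 ∧ u * y * u⁻¹ = y⁻¹ := by
  obtain ⟨h1, h2⟩ := (mem_filter.1 hu).2
  refine ⟨h1, ?_⟩
  rw [inv_eq_of_mul_eq_one_right (mul_self_of_two h1), eq_inv_iff_mul_eq_one, mul_assoc (u * y)]
  exact mul_self_of_two h2

lemma JJ_sub (y : G) : JJ y ⊆ univ.filter fun u => u * y * u⁻¹ = y⁻¹ := fun u hu => by
  simpa using (inv_of_JJ hu).2

lemma cnt_le (y : G) : cnt y y⁻¹ ≤ Nat.card (centralizer ({y} : Set G)) := by
  by_cases e : IsConj y y⁻¹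
  · rw [cnt_of_isConj e]
    refine card_le_of_le fun g hg => mem_centralizer_singleton_iff.2 ?_
    have : Commute g y⁻¹ := mem_centralizer_singleton_iff.1 hg
    simpa using this.inv_right.eq
  · rw [cnt_of_not e]; exact Nat.zero_le _

lemma JJ_le (y : G) : (JJ y).card ≤ Nat.card (centralizer ({y} : Set G)) :=
  (card_le_card (JJ_sub y)).trans (cnt_le y)

lemma card_II (h : Tor t K k) : (II G).card = (centralizer ({t} : Set G)).index := by
  have h1 := card_class t
  have h2 : univ.filter (IsConj t ·) = II G := by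
    ext u
    simp only [II, mem_filter, mem_univ, true_and]
    exact ⟨fun e => (orderOf_isConj e).symm.trans h.ord, fun e => (h.conj u e).symm⟩
  rw [h2, h.cardC, card_G h, mul_comm] at h1
  exact Nat.eq_of_mul_eq_mul_left (by have := k_pos h; omega) h1

lemma JJ_k (h : Tor t K k) (hti : TI t K) {y : G} (hy : y ∈ SS G k) : (JJ y).card ≤ k := by
  obtain ⟨h1, g, hg⟩ := (mem_SS_k h hti).1 hy
  have h2 : (univ.filter (· ∈ centralizer ({t} : Set G)) \ univ.filter (· ∈ K)).card = k := by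
    rw [card_sdiff_of_subset fun u hu => by simpa using K_le h (mem_filter.1 hu).2,
      card_filter_mem, card_filter_mem, h.cardC, h.cardK]
    omega
  rw [← h2]
  refine card_le_card_of_injOn (fun u => g * u * g⁻¹) (fun u hu => ?_)
    fun a _ b _ e => (MulAut.conj g).injective e
  obtain ⟨h3, h4⟩ := inv_of_JJ hu
  have h5 := (mem_filter.1 hu).2.2
  simp only [coe_sdiff, coe_filter, mem_univ, true_and, Set.mem_sdiff, Set.mem_ofPred_eq]
  refine ⟨mem_centralizer_singleton_iff.2 (ti' h hti hg (conj_ne_one h1) ?_), fun h6 => ?_⟩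
  · rw [show g * u * g⁻¹ * (g * y * g⁻¹) * (g * u * g⁻¹)⁻¹ = (g * (u * y * u⁻¹)⁻¹ * g⁻¹)⁻¹ by group,
      h4, inv_inv]
    exact inv_mem hg
  · have h7 : ∀ v : G, orderOf v = 2 → g * v * g⁻¹ ∈ K → g * v * g⁻¹ = t := fun v hv hv' =>
      (h.uniq _ hv' (mul_self_of_two ((orderOf_conj' g v).trans hv))).resolve_left
        (conj_ne_one (ne_one_of_two hv))
    have h8 := (h7 u h3 h6).trans (h7 _ h5 (by rw [← conj_mul]; exact mul_mem h6 hg)).symm
    exact h1 (by simpa using h8)

lemma Dat.JJ_P (d : Dat t k P m) (h : Tor t K k) (hP : P.Prime) (e : P + 1 = 2 * k) {y : G}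
    (hy : y ∈ SS G P) : (JJ y).card = 0 := by
  have := Fact.mk hP
  rw [card_eq_zero, eq_empty_iff_forall_notMem]
  intro u hu
  obtain ⟨h3, h4⟩ := inv_of_JJ hu
  obtain ⟨h1, h2⟩ := mem_SS.1 hy
  have ho := ((Nat.dvd_prime hP).1 h2).resolve_left fun e' => h1 (orderOf_eq_one_iff.1 e')
  obtain ⟨Q, hQ⟩ := sylow_of_order ho (d.not_sq h hP)
  have h5 : u ∈ normalizer (Q : Set G) := mem_normalizer_fintype fun x hx => by
    obtain ⟨j, rfl⟩ := mem_zpowers_iff.1 (hQ ▸ hx : x ∈ zpowers y)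
    rw [← conj_zpow, h4]
    exact (hQ ▸ zpow_mem (inv_mem (mem_zpowers y)) j : _ ∈ (Q : Subgroup G))
  have h6 := card_mul_index (normalizer (Q : Set G))
  rw [← Q.card_eq_index_normalizer, d.pcard h hP, e, Nat.card_eq_fintype_card (α := G), d.card h,
    mul_comm, mul_assoc (2 * k)] at h6
  have h7 := Nat.eq_of_mul_eq_mul_left (by have := k_pos h; omega) h6
  have h8 : 2 ∣ P * m := h7 ▸ h3 ▸ Subgroup.orderOf_dvd_natCard _ h5
  exact ((Nat.Prime.dvd_mul Nat.prime_two).1 h8).elim d.odd.1 d.odd.2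

lemma Dat.JJ_m (d : Dat t k P m) (h : Tor t K k) (hti : TI t K) (hP : P.Prime) {y : G}
    (hy : y ∈ SS G m) : (JJ y).card = m := by
  have h3 := d.three
  have b0 : ∀ y ∈ SS G m, (JJ y).card ≤ m := fun y hy =>
    (JJ_le y).trans (Nat.le_of_dvd (by omega) (d.dvd_m h hy))
  have b1 := sum_split d.cPk.symm d.cmk.symm d.cPm d.all fun y : G => (JJ y).card
  rw [sum_JJ, card_II h, d.idx] at b1
  have b2 : (JJ (1 : G)).card ≤ P * m := by
    rw [← d.idx, ← card_II h]
    exact card_le_card fun u hu => by simpa [II] using (inv_of_JJ hu).1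
  have b3 := sum_le_card_nsmul _ _ _ fun y (hy : y ∈ SS G k) => JJ_k h hti hy
  have b4 := sum_le_card_nsmul _ _ _ fun y (hy : y ∈ SS G P) =>
    (JJ_le y).trans (d.cent_P h hy).1.le
  have b5 : ∑ y ∈ SS G m, m ≤ ∑ y ∈ SS G m, (JJ y).card := by
    have n1 := d.nk
    have n2 := d.nm
    have n3 := d.nP
    rw [sum_const]
    simp only [smul_eq_mul] at *
    zify at *
    rcases d.par with ⟨e1, e2⟩ | ⟨e1, e2⟩
    · have f1 : ((SS G k).card : ℤ) = P * m * k - P * m := by linarith
      have f2 : ((SS G m).card : ℤ) = P * k * m - P * k := by linarith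
      rw [f1] at b3
      rw [n3] at b4
      rw [f2]
      have : (P : ℤ) * m * (P * m) = P * m + (P * m * k - P * m) * k + 4 * k * m * P +
          (P * k * m - P * k) * m := by
        rw [e1, e2]; push_cast; ring
      linarith
    · have f1 : ((SS G k).card : ℤ) = P * m * k - P * m := by linarith
      have f2 : ((SS G m).card : ℤ) = P * k * m - P * k := by linarith
      have f3 : ∑ y ∈ SS G P, ((JJ y).card : ℤ) = 0 :=
        sum_eq_zero fun y hy => by rw [d.JJ_P h hP e1 hy]; rfl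
      rw [f1] at b3
      rw [f2]
      have : (P : ℤ) * m * (P * m) = P * m + (P * m * k - P * m) * k +
          (P * k * m - P * k) * m := by
        rw [show (P : ℤ) = 2 * m + 1 by omega, show (k : ℤ) = m + 1 by omega]; ring
      linarith
  exact (sum_eq_sum_iff_of_le b0).1 (le_antisymm (sum_le_sum b0) b5) y hy

lemma Dat.tor (d : Dat t k P m) (h : Tor t K k) (hti : TI t K) (hP : P.Prime) {y : G}
    (hy : y ∈ SS G m) : Nat.card (centralizer ({y} : Set G)) = m ∧ ∃ u : G, orderOf u = 2 ∧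
      ∀ a ∈ centralizer ({y} : Set G), u * a * u⁻¹ = a⁻¹ := by
  have h3 := d.three
  have h1 := d.JJ_m h hti hP hy
  have h2 : Nat.card (centralizer ({y} : Set G)) = m :=
    le_antisymm (Nat.le_of_dvd (by omega) (d.dvd_m h hy)) (h1 ▸ JJ_le y)
  have h4 := eq_of_subset_of_card_le (JJ_sub y) ((cnt_le y).trans (h2.trans h1.symm).le)
  obtain ⟨u, hu⟩ := card_pos.1 (show 0 < (JJ y).card by omega)
  obtain ⟨h5, h6⟩ := inv_of_JJ hu
  refine ⟨h2, u, h5, fun a ha => ?_⟩
  have h7 : u * a ∈ JJ y := by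
    rw [h4]
    simp only [mem_filter, mem_univ, true_and]
    rw [mul_assoc u, mem_centralizer_singleton_iff.1 ha, ← h6]; group
  have h8 := mul_self_of_two (inv_of_JJ h7).1
  rw [inv_eq_of_mul_eq_one_right (mul_self_of_two h5), eq_inv_iff_mul_eq_one, mul_assoc (u * a)]
  exact h8

lemma Dat.torus (d : Dat t k P m) (h : Tor t K k) (hti : TI t K) (hP : P.Prime) {x : G}
    (hx : x ∈ SS G m) :
    ∃ A : Subgroup G, Nat.card A = m ∧ x ∈ A ∧ (∀ y ∈ A, ∀ z ∈ A, y * z = z * y) ∧
      (∀ y ∈ A, y ≠ 1 → ∀ g, g * y = y * g → g ∈ A) ∧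
      ∃ u, u * u = 1 ∧ (∀ y ∈ A, u * y * u⁻¹ = y⁻¹) ∧
        ∀ g, (∀ y ∈ A, g * y * g⁻¹ ∈ A) → g ∈ A ∨ g * u ∈ A := by
  have h3 := d.three
  obtain ⟨hA, u, hu, hinv⟩ := d.tor h hti hP hx
  set A := centralizer ({x} : Set G) with hAdef
  have hcomm : ∀ y ∈ A, ∀ z ∈ A, y * z = z * y := fun y hy z hz => by
    have := hinv _ (mul_mem hy hz)
    rw [← conj_mul, hinv y hy, hinv z hz, ← _root_.mul_inv_rev, inv_inj] at this
    exact this.symm
  have hcent : ∀ y ∈ A, y ≠ 1 → ∀ g, g * y = y * g → g ∈ A := fun y hy h1 g hg => by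
    have h2 : y ∈ SS G m := mem_SS.2 ⟨h1, hA ▸ Subgroup.orderOf_dvd_natCard A hy⟩
    have h4 : A = centralizer ({y} : Set G) := eq_of_le_of_card_ge
      (fun a ha => mem_centralizer_singleton_iff.2 (hcomm a ha y hy))
      ((d.tor h hti hP h2).1.trans hA.symm).le
    exact h4 ▸ mem_centralizer_singleton_iff.2 hg
  have huu := mul_self_of_two hu
  have huA : u ∉ A := fun e => d.odd.2 (hA ▸ hu ▸ Subgroup.orderOf_dvd_natCard A e)
  refine ⟨A, hA, mem_centralizer_singleton_iff.2 rfl, hcomm, hcent, u, huu, hinv, ?_⟩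
  obtain ⟨q, hq, hqm⟩ := Nat.exists_prime_and_dvd (show m ≠ 1 by omega)
  have := Fact.mk hq
  obtain ⟨w, hw, hwo⟩ := exists_order hq (A := A) (hA ▸ hqm)
  obtain ⟨Q, hQ⟩ := sylow_le hw hwo fun z hz hqz => hcent z hz fun e => by
    rw [e, orderOf_one] at hqz
    exact hq.one_lt.ne' (Nat.dvd_one.1 hqz)
  have hconj : ∀ y ∈ SS G m, ∃ g, g * y * g⁻¹ ∈ A := fun y hy => by
    obtain ⟨w', hw', hwo'⟩ := exists_order hq (A := centralizer ({y} : Set G))
      (by rw [(d.tor h hti hP hy).1]; exact hqm)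
    obtain ⟨c, hc⟩ := exists_conj_mem_sylow Q (y := w') (k := 1)
      (by rw [pow_one, ← hwo', pow_orderOf_eq_one])
    exact ⟨c, hcent _ (hQ hc) (conj_ne_one (ne_one_of_orderOf hq hwo')) _
      (conj_comm c (mem_centralizer_singleton_iff.1 hw').symm)⟩
  set N : Finset G := univ.filter fun g => ∀ y ∈ A, g * y * g⁻¹ ∈ A with hN
  have b1 : N.card ≤ 2 * m := by
    have c1 := dcount (R := ℕ) A (fun _ => 1) fun _ _ => rfl
    simp only [Nat.cast_id, mul_one, sum_const, smul_eq_mul] at c1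
    have c2 : (SS G m).card * N.card ≤ ∑ y ∈ univ.erase 1, cin A y := by
      refine le_trans ?_ (sum_le_sum_of_subset (s := SS G m) fun y hy => by
        simp [(mem_SS.1 hy).1])
      rw [← smul_eq_mul]
      refine card_nsmul_le_sum _ _ _ fun y hy => ?_
      obtain ⟨g, hg⟩ := hconj y hy
      exact le_cin hg N fun g hg => (mem_filter.1 hg).2
    have c3 := card_KK A
    have c4 := d.nm
    rw [c1, d.card h] at c2
    rw [hA] at c3
    generalize (KK A).card = j at *
    have c5 : (SS G m).card = P * k * j := by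
      rw [← c3, mul_add, mul_one] at c4
      rw [← c3]
      omega
    have c6 : 0 < P * k * j := by
      have := k_pos h; have := hP.pos; have : 0 < j := by omega
      positivity
    apply Nat.le_of_mul_le_mul_left _ c6
    rw [c5] at c2
    linarith
  have b2 : univ.filter (· ∈ A) ∪ univ.filter (fun g => g * u ∈ A) = N := by
    refine eq_of_subset_of_card_le (fun g hg => ?_) (b1.trans ?_)
    · simp only [hN, mem_union, mem_filter, mem_univ, true_and] at hg ⊢
      intro y hy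
      rcases hg with hg | hg
      · exact mul_mem (mul_mem hg hy) (inv_mem hg)
      · have := mul_mem (mul_mem hg (inv_mem hy)) (inv_mem hg)
        rwa [show g * u * y⁻¹ * (g * u)⁻¹ = g * (u * y * u⁻¹)⁻¹ * g⁻¹ by group, hinv y hy,
          inv_inv] at this
    · rw [card_union_of_disjoint (Finset.disjoint_left.2 fun g h1 h2 => huA (by
        simpa using mul_mem (inv_mem (mem_filter.1 h1).2) (mem_filter.1 h2).2)),
        card_equiv (s := univ.filter fun g => g * u ∈ A) (t := univ.filter (· ∈ A))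
          (Equiv.mulRight u) (by simp), card_filter_mem, hA]
      omega
  intro g hg
  have : g ∈ N := mem_filter.2 ⟨mem_univ _, hg⟩
  simpa [← b2] using this

omit [Fintype G] in
lemma cent_conj (h : Tor t K k) (hti : TI t K) {s : G} (hs : orderOf s = 2) :
    Nat.card (centralizer ({s} : Set G)) = 2 * k ∧
    ∃ K : Subgroup G, Nat.card K = k ∧ s ∈ K ∧ (∀ x ∈ K, ∀ y ∈ K, x * y = y * x) ∧
      (∀ x ∈ K, x * x = 1 → x = 1 ∨ x = s) ∧
      (∀ u, u * s = s * u → u ∉ K → u * u = 1 ∧ ∀ x ∈ K, u * x * u⁻¹ = x⁻¹) ∧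
      (∀ x ∈ K, x ≠ 1 → x ≠ s → ∀ y, y * x = x * y → y ∈ K) := by
  obtain ⟨c, hc⟩ := isConj_iff.1 (h.conj s hs)
  let e : G ≃* G := MulAut.conj c
  have he : e s = t := hc
  have hcard : ∀ A : Subgroup G, Nat.card (A.comap e.toMonoidHom) = Nat.card A := fun A => by
    have := map_equiv_eq_comap_symm' e.symm A
    rw [MulEquiv.symm_symm] at this
    rw [← this]
    exact card_map_of_injective e.symm.injective
  have hm : ∀ (A : Subgroup G) x, x ∈ A.comap e.toMonoidHom ↔ e x ∈ A := fun _ _ => Iff.rfl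
  refine ⟨?_, K.comap e.toMonoidHom, (hcard K).trans h.cardK, (hm _ _).2 (he ▸ h.mem),
    fun x hx y hy => ?_, fun x hx hxx => ?_, fun u hu huK => ?_, fun x hx a b y hy => ?_⟩
  · rw [← h.cardC, ← hcard (centralizer {t})]
    congr 2
    ext x
    rw [hm, mem_centralizer_singleton_iff, mem_centralizer_singleton_iff, ← he, ← map_mul,
      ← map_mul, e.injective.eq_iff]
  · exact e.injective (by rw [map_mul, map_mul]; exact h.comm _ hx _ hy)
  · have := h.uniq _ hx (by change e x * e x = 1; rw [← map_mul, hxx, map_one])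
    exact this.imp (fun a => e.injective (a.trans (map_one e).symm))
      fun a => e.injective (a.trans he.symm)
  · obtain ⟨a, b⟩ := h.out (e u) (by rw [← he, ← map_mul, hu, map_mul]) huK
    exact ⟨e.injective (by rw [map_mul, a, map_one]), fun x hx =>
      e.injective (by rw [map_mul, map_mul, map_inv, map_inv]; exact b _ hx)⟩
  · exact hti (e x) hx (fun a' => a (e.injective (a'.trans (map_one e).symm)))
      (fun b' => b (e.injective (b'.trans he.symm))) (e y) (by rw [← map_mul, hy, map_mul])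

end C3

open Subgroup

variable {G : Type} [Group G]

theorem pack_of_tor [Fintype G] [IsSimpleGroup G] (hn : Full (Nat.card G)) {t : G}
    {K : Subgroup G} {k : ℕ} (h : Tor t K k) (hti : TI t K) (T : CT G) (X : Fin T.n) {δ x : ℤ}
    (hδ : δ = 1 ∨ δ = -1) (hx : x = δ * T.d X) (h4 : 4 ∣ x - 1) (h1 : x ≠ 1)
    (hi : ((centralizer ({t} : Set G)).index : ℤ) * (x - 1) ^ 2 = 2 * k ^ 2 * x * (x + 1))
    (hZ : ∀ (y : G) (q : ℕ) (e : ℤ), q.Prime → q ∣ orderOf y → (orderOf y).Coprime k →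
      2 * (Nat.card G : ℤ) = (x + 1) * e → ¬ (q : ℤ) ∣ e → δ * T.χ X y = -1) :
    ∃ p m, Pack G p k m := by
  have _ := h1
  obtain ⟨P, m, d⟩ := C3.exists_dat h hti T X hδ hx h4 hi hZ
  have hP := d.prime h hn
  refine ⟨P, m, hP, d.five, C3.two_dvd h, d.par, Nat.card_eq_fintype_card.trans (d.card h),
    inferInstance, fun s s' hs hs' => (h.conj s hs).trans (h.conj s' hs').symm,
    fun s hs => C3.cent_conj h hti hs, fun y hy z hz => ?_, d.pcard h hP, fun y hy hc => ?_⟩
  · have h2 : y ∈ C3.SS G P := C3.mem_SS.2 ⟨ne_one_of_orderOf hP hy, hy ▸ dvd_rfl⟩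
    have h3 : zpowers y = centralizer ({y} : Set G) := eq_of_le_of_card_ge
      (zpowers_le_of_mem (mem_centralizer_singleton_iff.2 rfl))
      (by rw [(d.cent_P h h2).1, Nat.card_zpowers, hy])
    exact h3 ▸ mem_centralizer_singleton_iff.2 hz
  · refine d.torus h hti hP (C3.mem_SS.2 ⟨hy, ?_⟩)
    rcases d.all y with e | e | e
    · exact (hy (orderOf_eq_one_iff.1
        (Nat.eq_one_of_dvd_coprimes hc dvd_rfl (e.mul_right P)))).elim
    · exact (hy (orderOf_eq_one_iff.1
        (Nat.eq_one_of_dvd_coprimes hc dvd_rfl (e.mul_left k)))).elim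
    · exact e

end Pool.Agent.Lib.MP_cb9dee_al
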