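import Pool.Agent.Lib.MP_cb9dee_al.CEight

set_option linter.unusedSectionVars false

namespace Pool.Agent.Lib.MP_cb9dee_al

open Subgroup

variable {G : Type} [Group G] [Finite G] {t a s : G} {S U : Subgroup G}

namespace C8

lemma fratt {K : Type} [Group K] [Finite K] {r : ℕ} [Fact r.Prime] {R : Subgroup K}
    (hR : IsPGroup r R) (hr : ¬ r ∣ Nat.card (commutator K)) (u : K) :
    ∃ c ∈ commutator K, ∀ y ∈ R, c⁻¹ * u * y * (c⁻¹ * u)⁻¹ ∈ R := by
  have h1 := J.card_mul_rel (le_sup_right : R ≤ commutator K ⊔ R)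
  have h2 := J.card_mul_rel (le_sup_left : commutator K ≤ commutator K ⊔ R)
  have h3 := J.card_mul_rel (inf_le_right : commutator K ⊓ R ≤ R)
  rw [relIndex_sup_left] at h2
  rw [inf_relIndex_right] at h3
  have h4 : Nat.card (commutator K ⊓ R : Subgroup K) * R.relIndex (commutator K ⊔ R) =
      Nat.card (commutator K) := by
    refine Nat.eq_of_mul_eq_mul_right (Nat.pos_of_ne_zero fun e => ?_ :
      0 < (commutator K).relIndex R) (by rw [h2, ← h1, ← h3]; ring)
    rw [e, mul_zero] at h3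
    exact Nat.card_pos.ne h3
  obtain ⟨c, hc, h5⟩ := J.sylow_conj (hR.map (MulAut.conj u).toMonoidHom) hR
    (X := commutator K ⊔ R) (by
      rintro _ ⟨y, hy, rfl⟩
      have : u * y * u⁻¹ * y⁻¹ ∈ commutator K := commutator_mem_commutator (mem_top u) (mem_top y)
      simpa using mul_mem (mem_sup_left this) (mem_sup_right hy))
    fun e => hr (e.trans (Dvd.intro_left _ h4))
  obtain ⟨c0, h0, z, hz, e⟩ := mem_sup_of_normal_left.1 (inv_mem hc)
  refine ⟨c0, h0, fun y hy => ?_⟩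
  have := mul_mem (mul_mem hz (h5 _ ⟨y, hy, rfl⟩)) (inv_mem hz)
  rw [← inv_inv c, ← e] at this
  simpa [mul_assoc] using this

lemma fratt' {r : ℕ} [Fact r.Prime] {R : Subgroup G} (hR : IsPGroup r R) (hRU : R ≤ U)
    (hr : ¬ r ∣ Nat.card (⁅U, U⁆ : Subgroup G)) {u : G} (hu : u ∈ U) :
    ∃ c ∈ (⁅U, U⁆ : Subgroup G), ∀ y ∈ R, c⁻¹ * u * y * (c⁻¹ * u)⁻¹ ∈ R := by
  rw [← map_subtype_commutator, card_subtype] at hr
  obtain ⟨c, hc, h⟩ := fratt (hR.comap_subtype (K := U)) hr ⟨u, hu⟩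
  exact ⟨c, by rw [← map_subtype_commutator]; exact ⟨c, hc, rfl⟩, fun y hy => h ⟨y, hRU hy⟩ hy⟩

lemma cyc_pow (e : D8 t a s S) {w : G} (hw : Cyc t s w) {m : ℕ} (hm : ¬ 3 ∣ m) :
    w ^ m * t ≠ t * w ^ m := fun h => by
  have h3 : w ^ 3 ∈ centralizer ({t} : Set G) := mem_centralizer_singleton_iff.2 (by
    rw [← mul_inv_eq_iff_eq_mul]
    calc w ^ 3 * t * (w ^ 3)⁻¹ = w * (w * (w * t * w⁻¹) * w⁻¹) * w⁻¹ := by
          simp [pow_succ, mul_assoc]
      _ = t := by rw [hw.1, hw.2, ← conj_mul, hw.1, hw.2]; simp [e.r])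
  obtain ⟨u, v, huv⟩ := Nat.isCoprime_iff_coprime.2 (Nat.prime_three.coprime_iff_not_dvd.2 hm)
  have h4 := mul_mem (zpow_mem h3 u) (zpow_mem (mem_centralizer_singleton_iff.2 h) v)
  rw [← zpow_natCast, ← zpow_natCast, ← zpow_mul, ← zpow_mul, ← zpow_add, mul_comm, mul_comm _ v,
    huv, zpow_one] at h4
  exact e.st (by rw [← hw.1, mem_centralizer_singleton_iff.1 h4, mul_inv_cancel_right])

variable (h : Dih t S U) (e : D8 t a s S)
include h e

lemma nmD : ∀ g ∈ S, ∀ x ∈ U ⊓ centralizer {s}, g * x * g⁻¹ ∈ U ⊓ centralizer {s} := by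
  intro g hg x hx
  obtain ⟨h1, h2⟩ := h.memD.1 hx
  refine h.memD.2 ⟨h.nmU (h.cS g hg) h1, ?_⟩
  have h3 : x * (t * s) = t * s * x := ((show Commute x t from h.ut h1).mul_right h2).eq
  have h4 : g * s * g⁻¹ = s ∨ g * (t * s) * g⁻¹ = s := by
    rcases e.mem hg with f | f | f | f | f | f | f | f <;> simp [f, mul_assoc, e.r]
  rcases h4 with f | f
  · simpa only [f] using (J.conj_comm_iff g s x).2 h2
  · simpa only [f] using (J.conj_comm_iff g _ x).2 h3

lemma three : ¬ 3 ∣ Nat.card (U ⊓ centralizer {s} : Subgroup G) := fun h3 => by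
  have := Fact.mk Nat.prime_three
  obtain ⟨R, -, h1, h2, h4⟩ := J.sylow_in (X := U ⊓ centralizer {s}) (IsPGroup.of_bot (p := 3))
    bot_le
  obtain ⟨w0, hw0, -⟩ := h.exists_cyc e
  obtain ⟨w, hw, hn⟩ := h.frat hw0 h2 h1 h4
  rw [← J.card_mul_rel h1, Nat.prime_three.dvd_mul, or_iff_left h4] at h3
  have h5 : ¬ 3 ∣ R.index := fun f => h.not_nine e (R.card_mul_index ▸ mul_dvd_mul h3 f)
  obtain ⟨k, m, hm, f⟩ := Nat.exists_eq_pow_mul_and_not_dvd (orderOf_pos w).ne' 3 (by norm_num)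
  exact cyc_pow e hw hm (h.ut (h1 (J.mem_of_nm' (J.nm_pow hn m)
    ((Nat.prime_three.coprime_iff_not_dvd.2 h5).pow_left k)
    (by rw [← pow_mul, mul_comm, ← f, pow_orderOf_eq_one]))).1)

omit h in
lemma kj : (centralizer {a}).relIndex (U ⊓ centralizer {s}) * (centralizer {s}).relIndex U =
    (centralizer {a}).relIndex (U ⊓ centralizer {s * a}) * (centralizer {s * a}).relIndex U := by
  rw [inf_comm U, inf_comm U, relIndex_inf_mul_relIndex, relIndex_inf_mul_relIndex]
  congr 1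
  ext x
  simp only [mem_inf, mem_centralizer_singleton_iff]
  refine and_congr_right fun f => ⟨fun g => ((show Commute x s from g).mul_right f).eq, fun g => ?_⟩
  simpa using ((show Commute x (s * a) from g).mul_right (Commute.inv_right f)).eq

lemma rel_t : (centralizer {s * a * a}).relIndex U = (centralizer {s}).relIndex U := by
  rw [← inf_relIndex_left U, ← inf_relIndex_left U (centralizer {s})]
  congr 1
  ext x
  rw [h.memD, h.memD, mul_assoc s, e.aa]
  refine and_congr_right fun f => ⟨fun g => ?_, fun g =>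
    ((show Commute x s from g).mul_right (h.ut f)).eq⟩
  simpa using ((show Commute x (s * t) from g).mul_right (Commute.inv_right (h.ut f))).eq

omit e in
lemma kodd (b : G) : ¬ 2 ∣ (centralizer {a}).relIndex (U ⊓ centralizer {b}) := fun f =>
  h.oddU ((f.trans (relIndex_dvd_card _ _)).trans (card_dvd_of_le inf_le_left))

end C8

/-- An invariant Sylow subgroup of the odd part of the centralizer of `t` and `s` which is not
centralized by `a`. -/
structure C8.Bad (a s : G) (S U : Subgroup G) (r : ℕ) (R : Subgroup G) : Prop where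
  pr : r.Prime
  ne : r ≠ 2
  le : R ≤ U ⊓ centralizer {s}
  pg : IsPGroup r R
  syl : ¬ r ∣ R.relIndex (U ⊓ centralizer {s})
  nm : ∀ g ∈ S, ∀ y ∈ R, g * y * g⁻¹ ∈ R
  bad : ∃ y ∈ R, y * a ≠ a * y

namespace C8

variable (h : Dih t S U) (e : D8 t a s S)
include h e

lemma exists_bad (hk : (centralizer {a}).relIndex (U ⊓ centralizer {s}) ≠ 1) :
    ∃ r R, Bad a s S U r R := by
  obtain ⟨r, hr, hd⟩ := Nat.exists_prime_and_dvd hk
  have := Fact.mk hr
  have := Fact.mk Nat.prime_two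
  obtain ⟨R, h1, h2, h3, h4⟩ := J.inv_sylow r (p := 2) (T := S) (IsPGroup.of_card (n := 3) e.card)
    (nmD h e) fun f => h.oddU (f.trans (card_dvd_of_le inf_le_left))
  refine ⟨r, R, hr, fun f => kodd h s (f ▸ hd), h1, h2, h3, h4, ?_⟩
  by_contra! f
  exact h3 (hd.trans (relIndex_dvd_of_le_left _ fun y hy =>
    mem_centralizer_singleton_iff.2 (f y hy)))

variable {r : ℕ} {R : Subgroup G} (B : Bad a s S U r R)
include B

omit h e in
lemma ne_bot : R ≠ ⊥ := fun f => by
  obtain ⟨y, hy, g⟩ := B.bad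
  rw [f, mem_bot] at hy
  exact g (by simp [hy])

lemma key {y : G} (hy : y ∈ U) (hb : y * (s * a) = s * a * y)
    (hn : ∀ x ∈ R, y * x * y⁻¹ ∈ R) : y * s = s * y := by
  have := Fact.mk B.pr
  have := h.simple
  have hH : normalizer (R : Set G) ≠ ⊤ := fun f => by
    rcases (normalizer_eq_top_iff.1 f).eq_bot_or_eq_top with f | f
    · exact ne_bot B f
    · exact h.t1 (h.sq_one (B.le (f ▸ mem_top t)).1 h.tt)
  obtain ⟨w0, hw0, -⟩ := h.exists_cyc e
  obtain ⟨w, hw, hwn⟩ := h.frat hw0 B.pg B.le B.syl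
  have hS : S ≤ normalizer (R : Set G) := fun g hg => mem_normalizer_fintype (B.nm g hg)
  have hyH : y ∈ normalizer (R : Set G) := mem_normalizer_fintype hn
  rcases h.types' hH hS e.sS e.st (mem_normalizer_fintype hwn) hw.1 with f | ⟨L, p, k, m, V, tL, sL⟩
  · exact f.2 y hyH hy
  have hRL : ∀ x ∈ R, ∀ l ∈ L, x * l = l * x := fun x hx l hl => by
    have := V.pack.simple
    have hN : (R.subgroupOf L).Normal :=
      ⟨fun x hx g => (mem_normalizer_iff.1 (V.le g.2) _).1 hx⟩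
    rcases hN.eq_bot_or_eq_top with f | f
    · have h1 : x * l * x⁻¹ * l⁻¹ ∈ L := mul_mem (V.nm x (le_normalizer hx) l hl) (inv_mem hl)
      have h2 : (⟨_, h1⟩ : L) ∈ R.subgroupOf L := by
        simpa [mem_subgroupOf, mul_assoc] using
          mul_mem hx ((mem_normalizer_iff.1 (V.le hl) _).1 (inv_mem hx))
      rw [f, mem_bot] at h2
      have h3 : x * l * x⁻¹ * l⁻¹ = 1 := congrArg Subtype.val h2
      rwa [mul_inv_eq_one, mul_inv_eq_iff_eq_mul] at h3
    · exact absurd (h.sq_one (B.le (subgroupOf_eq_top.1 f tL)).1 h.tt) h.t1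
  have e' := e.symm
  obtain ⟨l, hl, z, hz, f⟩ := V.dec y hyH (Or.inl (h.uo hy))
  have zy : Commute z y := f ▸ (show Commute z l from hz l hl).mul_right rfl
  have hl' : l = y * z⁻¹ := by rw [f, mul_inv_cancel_right]
  have bL := V.nm _ (hS e'.sS)
  have bL' := V.nm _ (inv_mem (hS e'.sS))
  have l1 : l = 1 := by
    refine V.outer _ (hS e'.sS) t tL l hl e'.ss ?_ h.ord (fun g => ?_) ?_ e'.st' ?_
    · rintro ⟨l, hl, z, hz, f⟩
      have h1 : l * l * (z * z) = 1 := by
        rw [← e'.ss, f, mul_assoc, mul_assoc, ← mul_assoc z, hz l hl, mul_assoc]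
      have h2 : z * z = 1 := V.pack.not_central
        (eq_inv_of_mul_eq_one_right h1 ▸ inv_mem (mul_mem hl hl))
        fun x hx => ((show Commute z x from hz x hx).mul_left (hz x hx)).eq
      rw [eq_one_of_eq_inv (h.no_cent V.pack hz) (eq_inv_of_mul_eq_one_right h2), mul_one] at f
      obtain ⟨x, hx, g⟩ := B.bad
      have h3 := mul_mem (inv_mem sL) hl
      rw [← f, inv_mul_cancel_left] at h3
      exact g (hRL x hx a h3)
    · rw [hl'] at g
      rcases Nat.prime_two.dvd_mul.1 (g.trans zy.symm.inv_right.orderOf_mul_dvd_mul_orderOf) with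
        g | g
      · exact h.uo hy g
      · exact h.no_cent V.pack hz (orderOf_inv z ▸ g)
    · rw [hl']
      exact ((show Commute y t from h.ut hy).mul_left (Commute.inv_left (hz t tL))).eq
    · generalize s * a = b at *
      have h1 : l⁻¹ * (b * l * b⁻¹) = z * (b * z * b⁻¹)⁻¹ := by
        rw [inv_mul_eq_iff_eq_mul, ← mul_assoc, eq_mul_inv_iff_mul_eq, conj_mul, ← f, ← hb,
          mul_inv_cancel_right]
      have h2 := V.pack.not_central (mul_mem (inv_mem hl) (bL l hl)) fun x hx => by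
        rw [h1]
        refine ((show Commute z x from hz x hx).mul_left (Commute.inv_left ?_)).eq
        have := (J.conj_comm_iff b _ _).2 (hz _ (bL' x hx))
        simpa [mul_assoc, Commute, SemiconjBy] using this
      rw [inv_mul_eq_one, eq_mul_inv_iff_mul_eq] at h2
      exact h2.symm
  rw [f, l1, one_mul]
  exact hz s sL

lemma four (h1 : (centralizer {s * a}).relIndex U < 6 * (centralizer {s}).relIndex U)
    (h2 : (centralizer {s * a}).relIndex U ≠ 5 * (centralizer {s}).relIndex U) :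
    ¬ r ∣ Nat.card (⁅U, U⁆ : Subgroup G) := by
  have hr := B.pr
  have := Fact.mk hr
  refine (h.dich hr B.ne).resolve_left ?_
  rintro ⟨r5, Q, hQU, hQ, hn, hm⟩
  have kj := kj (U := U) e
  have hk := kodd (a := a) h (s * a)
  have hk3 : ¬ 3 ∣ (centralizer {a}).relIndex (U ⊓ centralizer {s * a}) := fun f =>
    three h e.symm (f.trans (relIndex_dvd_card _ _))
  have el : ∀ {q : ℕ} {P : Subgroup G}, IsPGroup q P → ∀ x ∈ P, ∃ k, x ^ q ^ k = 1 :=
    fun hP x hx => (hP ⟨x, hx⟩).imp fun k hk => congrArg Subtype.val hk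
  have RQ : R ≤ Q := fun x hx => (el B.pg x hx).elim (hm x (B.le hx).1)
  have QR : Q ⊓ (U ⊓ centralizer {s}) ≤ R := by
    obtain ⟨k, hk⟩ := (hQ.to_inf_left (K := U ⊓ centralizer {s})).exists_card_eq
    exact relIndex_eq_one.1 (Nat.eq_one_of_dvd_coprimes
      ((hr.coprime_iff_not_dvd.2 B.syl).pow_left k) (hk ▸ relIndex_dvd_card _ _)
      (Dvd.intro _ (relIndex_mul_relIndex _ _ _ (le_inf RQ B.le) inf_le_right)))
  have rk : r ∣ (centralizer {a}).relIndex (U ⊓ centralizer {s}) := by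
    by_contra f
    obtain ⟨P, -, p1, p2, p3⟩ := J.sylow_in (X := centralizer {a} ⊓ (U ⊓ centralizer {s}))
      (IsPGroup.of_bot (p := r)) bot_le
    obtain ⟨c, hc, p4⟩ := J.sylow_conj B.pg p2 B.le (by
      rw [← relIndex_mul_relIndex _ _ _ p1 inf_le_right, inf_relIndex_right, hr.dvd_mul]
      exact fun g => g.elim p3 f)
    obtain ⟨y, hy, g⟩ := B.bad
    have := p4 _ (QR (mem_inf.2 ⟨hn _ (h.ut (inv_mem (mem_inf.1 hc).1)) y (RQ hy),
      mul_mem (mul_mem (inv_mem hc) (B.le hy)) (inv_mem (inv_mem hc))⟩))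
    exact g (mem_centralizer_singleton_iff.1 (p1 (by simpa [mul_assoc] using this)).1)
  have k0 : ∀ X Y : Subgroup G, 0 < X.relIndex Y := fun X Y =>
    Nat.pos_of_dvd_of_pos (relIndex_dvd_card _ _) Nat.card_pos
  have ca : ∀ y ∈ U ⊓ centralizer {s * a}, (∀ x ∈ R, y * x * y⁻¹ ∈ R) → y ∈ centralizer {a} :=
    fun y hy g => mem_centralizer_singleton_iff.2 (by
      simpa using ((Commute.inv_right (key h e B hy.1 (h.memD.1 hy).2 g)).mul_right
        (h.memD.1 hy).2).eq)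
  have j0 := k0 (centralizer {s}) U
  have k2 := k0 (centralizer {a}) (U ⊓ centralizer {s * a})
  have k1 := Nat.le_of_dvd (k0 _ _) rk
  by_cases hc : Nat.card Q = r ^ 2
  · have hG : r ^ 2 ∣ Nat.card G := hc ▸ card_subgroup_dvd_card Q
    have C := h.full.2.2.2.2.2.1 h.h4
    have pd : ∀ q, q.Prime → q ∣ (centralizer {a}).relIndex (U ⊓ centralizer {s * a}) →
        q ∣ r + 1 := fun q hq hd => by
      have := Fact.mk hq
      obtain ⟨P, -, p1, p2, p3⟩ := J.sylow_in (X := U ⊓ centralizer {s * a})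
        (IsPGroup.of_bot (p := q)) bot_le
      obtain ⟨y, hy, g⟩ := SetLike.not_le_iff_exists.1 fun f : P ≤ centralizer {a} =>
        p3 (hd.trans (relIndex_dvd_of_le_left _ f))
      obtain ⟨α, hα⟩ := exists_isCj (hn y (h.ut (p1 hy).1))
      have gd := h.good hr B.ne hQ (fun f => ne_bot B (le_bot_iff.1 (f ▸ RQ))) hm (p1 hy).1 hα
      obtain ⟨k, hk⟩ := el p2 y hy
      obtain ⟨i, -, hi⟩ := (Nat.dvd_prime_pow hq).1
        (hα.orderOf_dvd.trans (orderOf_dvd_of_pow_eq_one hk))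
      have i0 : i ≠ 0 := fun f => g (ca y (p1 hy) fun x hx => by
        rw [hα.eq_one_iff.1 (orderOf_eq_one_iff.1 (by rw [hi, f, pow_zero])) x (RQ hx),
          mul_inv_cancel_right]
        exact hx)
      have qa : q ∣ orderOf α := hi ▸ dvd_pow_self q i0
      have h3 := qa.trans (gd.orderOf_dvd hr)
      rw [hc, ← one_pow 2, Nat.sq_sub_sq, hq.dvd_mul] at h3
      refine h3.resolve_right fun f => ?_
      rcases gd with g | g
      · rw [hc] at g; nlinarith
      · exact hq.one_lt.ne' (Nat.eq_one_of_dvd_coprimes g.2 qa (f.mul_left r))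
    have kd := J.dvd_of_primes (fun q hq f => C.2.2.2.1 r q hr hq B.ne
      (fun g => hk (g ▸ (dvd_pow_self q two_ne_zero).trans f)) hG
      ((f.trans (relIndex_dvd_card _ _)).trans (card_subgroup_dvd_card _))
      (pd q hq ((dvd_pow_self q two_ne_zero).trans f))) pd
    obtain ⟨w, hw, -⟩ := h.exists_cyc e
    have g3 : 3 ∣ Nat.card G := by
      by_contra f
      exact cyc_pow e hw f (by simp)
    have c4 := C.2.2.1 r hr B.ne hG
    have c3 := h.full.2.1 r 3 hr Nat.prime_three (by norm_num) g3 hG B.ne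
    have r2 := hr.eq_two_or_odd.resolve_left B.ne
    have r3 : ¬ 3 ∣ r := fun f => by
      have := (Nat.prime_dvd_prime_iff_eq Nat.prime_three hr).1 f
      omega
    have d3 : 3 ∣ r + 1 := by clear c4 r2; omega
    have d4 : 2 ^ 2 ∣ r + 1 := by clear d3 c3 r3; omega
    have := Nat.le_of_dvd (Nat.succ_pos r) (Nat.Coprime.mul_dvd_of_dvd_of_dvd
      (Nat.Coprime.mul_left ((Nat.prime_two.coprime_iff_not_dvd.2 hk).pow_left 2)
        (Nat.prime_three.coprime_iff_not_dvd.2 hk3))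
      (Nat.Coprime.mul_dvd_of_dvd_of_dvd (by norm_num) d4 d3) kd)
    nlinarith
  · have QR' : R = Q := by
      obtain ⟨i, hi, f⟩ := (Nat.dvd_prime_pow hr).1 (h.card_dvd_sq hr B.ne hQ)
      obtain ⟨j, hj, g⟩ := (Nat.dvd_prime_pow hr).1 (f ▸ card_dvd_of_le RQ)
      have : j ≠ 0 := fun g' => ne_bot B (card_eq_one.1 (by rw [g, g', pow_zero]))
      have : i ≠ 2 := fun f' => hc (f' ▸ f)
      exact eq_of_le_of_card_ge RQ (by rw [f, g, show i = j by omega])
    rw [relIndex_eq_one.2 fun y hy => ca y hy (QR' ▸ hn y (h.ut hy.1)), one_mul] at kj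
    rw [← kj] at h1 h2
    have := lt_of_mul_lt_mul_right h1 j0.le
    exact h2 (by congr 1; omega)

end C8

theorem Dih.d8_eq (h : Dih t S U) (e : D8 t a s S)
    (h1 : (centralizer {s * a}).relIndex U < 6 * (centralizer {s}).relIndex U)
    (h2 : (centralizer {s * a}).relIndex U ≠ 5 * (centralizer {s}).relIndex U)
    (h3 : (centralizer {s}).relIndex U < 6 * (centralizer {s * a}).relIndex U)
    (h4 : (centralizer {s}).relIndex U ≠ 5 * (centralizer {s * a}).relIndex U) :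
    ∀ y ∈ U, y * s = s * y → y * a = a * y := by
  suffices H : (centralizer {a}).relIndex (U ⊓ centralizer {s}) = 1 from fun y hy hs =>
    mem_centralizer_singleton_iff.1 (relIndex_eq_one.1 H (h.memD.2 ⟨hy, hs⟩))
  by_contra k1
  have e' := e.symm
  obtain ⟨r, R, B⟩ := C8.exists_bad h e k1
  obtain ⟨q, Q, B'⟩ := C8.exists_bad h e' fun k2 => by
    have kj := C8.kj (U := U) e
    rw [k2, one_mul] at kj
    rw [← kj] at h1 h2
    have a1 := lt_of_mul_lt_mul_right h1 (Nat.zero_le _)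
    have a2 := C8.kodd (a := a) h s
    have a3 : ¬ 3 ∣ (centralizer {a}).relIndex (U ⊓ centralizer {s}) := fun f =>
      C8.three h e (f.trans (relIndex_dvd_card _ _))
    exact h2 (by congr 1; omega)
  have hr := C8.four h e B h1 h2
  have hq := C8.four h e' B' (by rwa [C8.rel_t h e]) (by rwa [C8.rel_t h e])
  have := Fact.mk B.pr
  have nU : ∀ g, g * t = t * g → ∀ x ∈ (⁅U, U⁆ : Subgroup G), g * x * g⁻¹ ∈ (⁅U, U⁆ : Subgroup G) :=
    fun g hg x hx => by
      have a1 : U.map (MulAut.conj g).toMonoidHom ≤ U := by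
        rintro _ ⟨y, hy, rfl⟩; exact h.nmU hg hy
      have a2 := mem_map_of_mem (MulAut.conj g).toMonoidHom hx
      rw [map_commutator] at a2
      exact commutator_mono a1 a1 a2
  have UU : (⁅U, U⁆ : Subgroup G) ≤ U := commutator_le_self U
  obtain ⟨y, hy, ya⟩ := B'.bad
  obtain ⟨yU, yb⟩ := h.memD.1 (B'.le hy)
  obtain ⟨c, hc, hn⟩ := C8.fratt' B.pg (B.le.trans inf_le_left) hr yU
  have bN : s * a ∈ normalizer (R : Set G) := mem_normalizer_fintype (B.nm _ e'.sS)
  have nN : c⁻¹ * y ∈ normalizer (R : Set G) := mem_normalizer_fintype hn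
  have gU : s * a * ((c⁻¹ * y)⁻¹ * (s * a) * (c⁻¹ * y)⁻¹⁻¹) ∈ (⁅U, U⁆ : Subgroup G) := by
    have := nU _ (h.ut (inv_mem yU)) _ (mul_mem (nU _ e'.st' c hc) (inv_mem hc))
    rw [e'.r.2.2.2.2.2.2.2.2.2.2.2.2.2.1] at this
    have a1 : y⁻¹ * (s * a) = s * a * y⁻¹ := (Commute.inv_left yb).eq
    generalize s * a = b at *
    simpa [← mul_assoc, a1] using this
  obtain ⟨j, hj⟩ := J.dihedral e'.ss (J.conj_sq (c⁻¹ * y)⁻¹ e'.ss) (h.uo (UU gU))
  have mU := pow_mem gU j
  have mN := pow_mem (mul_mem bN (mul_mem (mul_mem (inv_mem nN) bN) (inv_mem (inv_mem nN)))) j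
  generalize (s * a * ((c⁻¹ * y)⁻¹ * (s * a) * (c⁻¹ * y)⁻¹⁻¹)) ^ j = m at hj mU mN
  have n1 : c⁻¹ * y * m⁻¹ ∈ U := mul_mem (mul_mem (inv_mem (UU hc)) yU) (inv_mem (UU mU))
  have ks := C8.key h e B n1 (by conv_lhs => rw [← hj]
                                 group)
    fun x => (mem_normalizer_iff.1 (mul_mem nN (inv_mem mN)) x).1
  have d1 := mul_mem hc (nU _ (h.ut n1) m mU)
  have d2 := mul_mem (nU _ e.st' _ d1) (inv_mem d1)
  have d3 : s * y * s⁻¹ * y⁻¹ ∈ (⁅U, U⁆ : Subgroup G) := by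
    have a1 : y = c * (c⁻¹ * y * m⁻¹ * m * (c⁻¹ * y * m⁻¹)⁻¹) * (c⁻¹ * y * m⁻¹) := by group
    generalize c * (c⁻¹ * y * m⁻¹ * m * (c⁻¹ * y * m⁻¹)⁻¹) = d at a1 d2
    generalize c⁻¹ * y * m⁻¹ = n at a1 ks
    have a2 : n * s⁻¹ = s⁻¹ * n := (Commute.inv_right ks).eq
    rw [a1, mul_inv_rev, ← mul_assoc s, mul_assoc _ n, a2]
    simpa [mul_assoc] using d2
  have d4 := mul_mem (B'.nm s e.sS y hy) (inv_mem hy)
  obtain ⟨k, hk⟩ := B'.pg ⟨_, d4⟩
  have d5 := orderOf_eq_one_iff.1 (Nat.eq_one_of_dvd_coprimes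
    ((B'.pr.coprime_iff_not_dvd.2 hq).pow_left k)
    (orderOf_dvd_of_pow_eq_one (congrArg Subtype.val hk)) (Subgroup.orderOf_dvd_natCard _ d3))
  rw [mul_inv_eq_one, mul_inv_eq_iff_eq_mul] at d5
  exact ya (by simpa using ((Commute.inv_right d5.symm).mul_right yb).eq)

end Pool.Agent.Lib.MP_cb9dee_al
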