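import Pool.Agent.Lib.MP_cb9dee_al.CV4b
import Pool.Agent.Lib.MP_cb9dee_al.C8Main

set_option linter.unusedSectionVars false

namespace Pool.Agent.Lib.MP_cb9dee_al

open Subgroup Finset Matrix
open scoped Classical

/-- Two integer vectors of norm three with inner product one. -/
lemma norm_331 {ι : Type} [Fintype ι] [DecidableEq ι] {c b : ι → ℤ} (hc : ∑ i, c i ^ 2 = 3)
    (hb : ∑ i, b i ^ 2 = 3) (hcb : ∑ i, c i * b i = 1) {d : ι → ℂ} (hd : ∀ i, d i ≠ 0)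
    (h1 : ∑ i, c i * d i = 0) (h2 : ∑ i, b i * d i = 0) :
    (∃ i, c i ≠ 0 ∧ b i = 0) ∧ ∀ i, c i ≠ 0 → b i = 0 → ∃ j k m n, j ≠ i ∧
      (c i = 1 ∨ c i = -1) ∧ (c j = 1 ∨ c j = -1) ∧ (c k = 1 ∨ c k = -1) ∧ (b m = 1 ∨ b m = -1) ∧
      (b n = 1 ∨ b n = -1) ∧ b j = 0 ∧ b k = c k ∧ c m = 0 ∧ c n = 0 ∧
      (∀ F : ι → ℂ, ∑ l, c l * F l = c i * F i + c j * F j + c k * F k) ∧
      ∀ F : ι → ℂ, ∑ l, b l * F l = c k * F k + b m * F m + b n * F n := by
  have h3 : ∑ i, (c i - b i) ^ 2 = 4 := by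
    simp only [sub_sq, Finset.sum_add_distrib, Finset.sum_sub_distrib, mul_assoc,
      ← Finset.mul_sum, hc, hb, hcb]
    norm_num
  have h4 : ∑ i, ((c i - b i : ℤ) : ℂ) * d i = 0 := by
    simp only [Int.cast_sub, sub_mul, Finset.sum_sub_distrib, h1, h2, sub_self]
  have bd : ∀ {f : ι → ℤ}, ∑ i, f i ^ 2 = 3 → ∀ i, f i = 0 ∨ f i = 1 ∨ f i = -1 :=
    fun {f} h i => or_iff_not_imp_left.2 fun e => sq_le_three e
      (h ▸ Finset.single_le_sum (f := fun i => f i ^ 2) (fun _ _ => sq_nonneg _) (mem_univ i))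
  have pr : ∀ i, (c i * b i = 0 ∧ (c i = 0 ∨ b i = 0)) ∨ (c i * b i = 1 ∧ b i = c i) := fun i => by
    have : c i - b i = 0 ∨ c i - b i = 1 ∨ c i - b i = -1 := or_iff_not_imp_left.2 fun e => by
      obtain ⟨-, -, -, -, -, -, -, -, -, f, -⟩ := norm_four (c := fun i => c i - b i) h3 hd h4 e
      exact f
    rcases bd hc i with e | e | e <;> rcases bd hb i with f | f | f <;> rw [e, f] at this ⊢ <;>
      omega
  have hcb' : ∑ i, (c i : ℂ) * b i = 1 := by exact_mod_cast hcb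
  constructor
  · obtain ⟨i, -, j, -, k, -, -, -, -, a1, a2, a3, hF⟩ := norm_three hc
    have : c i * b i + c j * b j + c k * b k = 1 := by exact_mod_cast (hF _).symm.trans hcb'
    have := pr i
    have := pr j
    by_cases e : b i = 0
    exacts [⟨i, by omega, e⟩, ⟨j, by omega, by have := pr k; omega⟩]
  · intro i hi hi'
    have ci := (bd hc i).resolve_left hi
    have e1 : c i ^ 2 = 1 := by rcases ci with e | e <;> simp [e]
    obtain ⟨j, k, hj, cj, ck, bj, bk, hF⟩ : ∃ j k, j ≠ i ∧ (c j = 1 ∨ c j = -1) ∧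
        (c k = 1 ∨ c k = -1) ∧ b j = 0 ∧ b k = c k ∧
        ∀ F : ι → ℂ, ∑ l, c l * F l = c i * F i + c j * F j + c k * F k := by
      rw [← Finset.add_sum_erase _ _ (mem_univ i)] at hc
      obtain ⟨j, hj, k, hk, -, cj, ck, hF⟩ := norm_two (c := c) (s := univ.erase i) (by omega)
      have hF' : ∀ F : ι → ℂ, ∑ l, c l * F l = c i * F i + c j * F j + c k * F k := fun F => by
        rw [← Finset.add_sum_erase _ _ (mem_univ i), hF, add_assoc]
      have : c i * b i + c j * b j + c k * b k = 1 := by exact_mod_cast (hF' _).symm.trans hcb'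
      have := pr i
      have := pr j
      have := pr k
      by_cases e : b j = 0
      · exact ⟨j, k, ne_of_mem_erase hj, cj, ck, e, by omega, hF'⟩
      · exact ⟨k, j, ne_of_mem_erase hk, ck, cj, by omega, by omega, fun F => by rw [hF']; ring⟩
    have e2 : b k ^ 2 = 1 := by rcases ck with e | e <;> simp [bk, e]
    rw [← Finset.add_sum_erase _ _ (mem_univ k)] at hb
    obtain ⟨m, -, n, -, -, bm, bn, hG⟩ := norm_two (c := b) (s := univ.erase k) (by omega)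
    have hG' : ∀ F : ι → ℂ, ∑ l, b l * F l = c k * F k + b m * F m + b n * F n := fun F => by
      rw [← Finset.add_sum_erase _ _ (mem_univ k), hG, add_assoc, bk]
    have : c k * c k + c m * b m + c n * b n = 1 := by
      have := (hG' fun l => c l).symm.trans ((Finset.sum_congr rfl fun _ _ => mul_comm _ _).trans
        hcb')
      rw [mul_comm (b m : ℂ), mul_comm (b n : ℂ)] at this
      exact_mod_cast this
    have e3 : c k * c k = 1 := by rcases ck with e | e <;> simp [e]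
    have := pr m
    have := pr n
    exact ⟨j, k, m, n, hj, ci, cj, ck, bm, bn, bj, bk, by omega, by omega, hF, hG'⟩

variable {G : Type} [Group G] [Fintype G]

namespace Dih

variable {t a s : G} {S U : Subgroup G} (h : Dih t S U) (T : CT G) (e : D8 t a s S)
include h e

lemma d_sum (F : G → ℂ) : ∑ τ : S, F τ = F 1 + F t + F a + F (t * a) + F s + F (t * s) +
    F (s * a) + F (t * (s * a)) := by
  rw [sum_enum ![1, t, a, t * a, s, t * s, s * a, t * (s * a)] (fun i => by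
    fin_cases i
    exacts [S.one_mem, h.tS, e.aS, mul_mem h.tS e.aS, e.sS, mul_mem h.tS e.sS, mul_mem e.sS e.aS,
      mul_mem h.tS (mul_mem e.sS e.aS)]) (fun σ hσ => by
    rcases e.mem hσ with f | f | f | f | f | f | f | f
    exacts [⟨0, f.symm⟩, ⟨1, f.symm⟩, ⟨2, f.symm⟩, ⟨3, f.symm⟩, ⟨4, f.symm⟩, ⟨5, f.symm⟩,
      ⟨6, f.symm⟩, ⟨7, f.symm⟩]) e.card, Fin.sum_univ_eight]
  rfl

lemma d_os : orderOf s = 2 := two_of_mul_self e.ss e.s1

lemma d_ots : orderOf (t * s) = 2 := two_of_mul_self (by simp [mul_assoc, e.r]) fun f =>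
  e.st (by rw [← inv_eq_of_mul_eq_one_right f, inv_eq_of_mul_eq_one_right h.tt])

lemma d_cf {μ : G → ℂ} (hμ : Adm t S μ) (l) : T.cf U (t * a) μ l = T.cf U a μ l := by
  rw [← h.cf_conj T hμ e.st' a]
  simp [mul_assoc, e.r]

lemma d_norm {μ : G → ℂ} (hμ : Adm t S μ) : ∑ l, T.cf U t μ l * T.cf U t μ l = 8 ∧
    ∑ l, T.cf U a μ l * T.cf U a μ l = 4 ∧ ∑ l, T.cf U t μ l * T.cf U a μ l = 0 := by
  have hU : (Nat.card U : ℂ) ≠ 0 := Nat.cast_ne_zero.2 Nat.card_pos.ne'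
  have ta := mul_mem h.tS e.aS
  have h1 := h.norm_t T (μ := μ) hμ
  have h2 := h.norm T (μ := μ) hμ e.aS (Or.inr e.aa) e.aS (Or.inr e.aa)
  have h3 := h.norm T (μ := μ) hμ e.aS (Or.inr e.aa) ta (Or.inr (by simp [mul_assoc, e.r]))
  have h4 := h.norm T (μ := μ) hμ h.tS (Or.inl rfl) e.aS (Or.inr e.aa)
  have i1 : a⁻¹ = t * a := by simp [e.r]
  have i2 : (t * a)⁻¹ = a := by simp [mul_assoc, e.r]
  rw [Finset.filter_eq_empty_iff.2 fun g _ f => h.t1 (by
    have f1 := f.2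
    rw [f.1, mul_inv_cancel_right] at f1
    have f2 := inv_mul_eq_one.1 (h.US f1 (mul_mem (inv_mem e.aS) h.tS))
    rw [← e.aa, f2, h.tt])] at h4
  have h5 : (univ.filter fun g => g * t = t * g ∧ a⁻¹ * (g * a * g⁻¹) ∈ U).card +
      (univ.filter fun g => g * t = t * g ∧ (t * a)⁻¹ * (g * a * g⁻¹) ∈ U).card =
      Nat.card U * 8 := by
    rw [← e.card, ← h.cardC, Nat.card_eq_fintype_card, Fintype.card_subtype,
      ← Finset.card_filter_add_card_filter_not (s := univ.filter (· ∈ centralizer {t}))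
        (fun g => a⁻¹ * (g * a * g⁻¹) ∈ U), Finset.filter_filter, Finset.filter_filter]
    simp only [mem_centralizer_singleton_iff]
    refine congrArg₂ (· + ·) (congrArg Finset.card (Finset.ext fun g => by simp))
      (congrArg Finset.card (Finset.ext fun g => ?_))
    simp only [mem_filter, mem_univ, true_and, and_congr_right_iff]
    intro hg
    obtain ⟨u, hu, σ, hσ, rfl⟩ := h.dec g hg
    have key : ∀ b ∈ S, b⁻¹ * (u * σ * a * (u * σ)⁻¹) ∈ U ↔ b = σ * a * σ⁻¹ := fun b hb => by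
      rw [show b⁻¹ * (u * σ * a * (u * σ)⁻¹) = b⁻¹ * u * b⁻¹⁻¹ * (b⁻¹ * (σ * a * σ⁻¹)) * u⁻¹ by
        group, mul_mem_cancel_right (inv_mem hu),
        mul_mem_cancel_left (h.nmU (h.cS _ (inv_mem hb)) hu)]
      exact ⟨fun f => inv_mul_eq_one.1 (h.US f (mul_mem (inv_mem hb)
        (mul_mem (mul_mem hσ e.aS) (inv_mem hσ)))), fun f => by simp [← f]⟩
    rw [key _ ta, key _ e.aS]
    rcases e.mem hσ with f | f | f | f | f | f | f | f <;> simp [f, mul_assoc, e.r, h.t1]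
  have h6 := congrArg (Nat.cast (R := ℂ)) h5
  push_cast at h6
  rw [h.orth_self hμ] at h1 h2 h3
  rw [i2] at h3
  simp only [i1, h.d_cf T e hμ] at h2 h4 h6
  refine ⟨mul_left_cancel₀ hU (by rw [h1, e.card]; push_cast; ring),
    mul_left_cancel₀ (pow_ne_zero 2 hU) ?_, by simpa using h4⟩
  rw [i2] at h6
  linear_combination (h2 + h3 + Nat.card U * h6) / 2

lemma d_cls {μ : G → ℂ} (hμ : Adm t S μ) :
    (centralizer ({t} : Set G)).index * ∑ l, T.cf U t μ l * (T.χ l t ^ 2 / T.d l) =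
      16 * ((centralizer {s}).relIndex U ^ 2 + (centralizer {s * a}).relIndex U ^ 2) ∧
    (centralizer ({t} : Set G)).index * ∑ l, T.cf U a μ l * (T.χ l t ^ 2 / T.d l) =
      32 * ((centralizer {s}).relIndex U * (centralizer {s * a}).relIndex U) := by
  have n0 := h.nI_zero S.one_mem (Or.inl rfl)
  have n1 := h.nI_zero e.aS (Or.inr (e.aa ▸ h.t1))
  have n2 := h.nI_zero (mul_mem h.tS e.aS) (Or.inr (by simpa [mul_assoc, e.r] using h.t1))
  have n3 := h.nI_inv e.sS (h.d_os e)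
  have n4 := (h.nI_inv (mul_mem h.tS e.sS) (h.d_ots e)).trans (h.cent_t_mul s)
  have n5 := h.nI_inv e.symm.sS (h.d_os e.symm)
  have n6 := (h.nI_inv (mul_mem h.tS e.symm.sS) (h.d_ots e.symm)).trans (h.cent_t_mul _)
  rw [h.cf_cls T hμ h.tS (Or.inl rfl), h.cf_cls T hμ e.aS (Or.inr e.aa),
    h.d_sum e fun τ => nI t U τ * nI t U (τ⁻¹ * t), h.d_sum e fun τ => nI t U τ * nI t U (τ⁻¹ * a),
    e.card]
  simp only [_root_.mul_inv_rev, mul_assoc, e.r, n0, n1, n2, n3, n4, n5, n6]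
  constructor <;> push_cast <;> ring

lemma d_mod (l) : ∃ x y : ℤ, T.χ l t = (x + y : ℤ) ∧ T.χ l a = (x - y : ℤ) ∧
    8 ∣ T.d l + 5 * (x + y) + 2 * (x - y) := by
  obtain ⟨m, hm⟩ := T.multK l (Lin.one S)
  obtain ⟨z, n, h1, h2, h3⟩ := T.inv_mult l (Lin.one (zpowers t)) e.ss fun y hy => by
    rcases (mem_zpowers_two h.ord).1 hy with rfl | rfl
    exacts [by simp, e.st']
  have c2 : Nat.card (zpowers t) = 2 := by rw [Nat.card_zpowers, h.ord]
  have s2 : ∀ F : G → ℂ, ∑ τ : zpowers t, F τ = F 1 + F t := fun F => by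
    rw [sum_enum ![1, t] (fun i => by fin_cases i <;> simp) (fun σ hσ => by
      rcases (mem_zpowers_two h.ord).1 hσ with f | f
      exacts [⟨0, f.symm⟩, ⟨1, f.symm⟩]) c2, Fin.sum_univ_two]
    rfl
  have v1 := T.χ_isConj l (h.conj _ (h.d_os e))
  have v2 := T.χ_isConj l (h.conj _ (h.d_ots e))
  have v3 := T.χ_isConj l (h.conj _ (h.d_os e.symm))
  have v4 := T.χ_isConj l (h.conj _ (h.d_ots e.symm))
  have v5 : T.χ l (t * a) = T.χ l a := by
    rw [← T.χ_conj l s a]; simp [mul_assoc, e.r]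
  rw [CT.cf, s2 fun x => 1 * T.χ l (s * x), c2, mul_one, e.st', v1, v2] at h1
  rw [CT.cf, s2 fun x => 1 * T.χ l (1 * x), c2, mul_one, one_mul t, T.χ_one] at h2
  rw [h.d_sum e fun τ => 1 * T.χ l τ, v1, v2, v3, v4, v5, T.χ_one, e.card] at hm
  obtain ⟨k, hk⟩ := h3
  have hk' : (z : ℂ) - n = 2 * k := by exact_mod_cast hk
  have h4 : (T.d l : ℤ) = 2 * n - z := by
    have : (T.d l : ℂ) = 2 * n - z := by push_cast at h1 h2; linear_combination 2 * h2 - h1
    exact_mod_cast this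
  refine ⟨2 * m - z + k, 2 * z - 2 * m - k, ?_, ?_, by omega⟩ <;> push_cast at h1 h2 hm ⊢
  · linear_combination h1
  · linear_combination hm / 2 - h2 - 2 * h1 + hk'

/-- The five characters attached to a character that is invariant under local fusion. -/
lemma d_data {μ : G → ℂ} (hμ : Adm t S μ)
    (h2 : ∀ σ ∈ S, orderOf σ = 2 → σ ≠ t → ∃ c, c * σ * c⁻¹ = t ∧
      ∀ y ∈ U, y * σ = σ * y → μ (c * y * c⁻¹) = μ y) :
    ∃ c b : Fin T.n → ℤ, (∀ l, T.cf U t μ l = (c l + b l : ℤ) ∧ T.cf U a μ l = (c l - b l : ℤ)) ∧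
      (∀ y, ¬ 2 ∣ orderOf y → ∑ l, c l * T.χ l y = 0) ∧
      (∃ i, c i ≠ 0 ∧ b i = 0) ∧ ∀ i, c i ≠ 0 → b i = 0 → ∃ j k, ∃ x y y1 y2 : ℤ, j ≠ i ∧
        (c i = 1 ∨ c i = -1) ∧ (c j = 1 ∨ c j = -1) ∧ (c k = 1 ∨ c k = -1) ∧
        (∀ u ∈ U, T.χ i (t * u) = μ u * c i) ∧ (∀ u ∈ U, T.χ j (t * u) = μ u * c j) ∧
        (∀ F : Fin T.n → ℂ, ∑ l, c l * F l = c i * F i + c j * F j + c k * F k) ∧
        x = c i * T.d i ∧ y = c j * T.d j ∧ x + y + c k * T.d k = 0 ∧ y1 + y2 = x + y ∧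
        8 ∣ x - 1 ∧ 8 ∣ y - 1 ∧ 8 ∣ y1 - 5 ∧ 8 ∣ y2 - 5 ∧ y1 ∣ Nat.card G ∧ y2 ∣ Nat.card G ∧
        (centralizer ({t} : Set G)).index * (1 / x + 1 / y - 4 * (1 / (x + y : ℤ)) : ℚ) =
          8 * ((centralizer {s}).relIndex U + (centralizer {s * a}).relIndex U) ^ 2 ∧
        (centralizer ({t} : Set G)).index * (1 / y1 + 1 / y2 - 4 * (1 / (x + y : ℤ)) : ℚ) =
          8 * ((centralizer {s}).relIndex U - (centralizer {s * a}).relIndex U) ^ 2 := by
  have key : ∀ l, ∃ x y : ℤ, (T.cf U t μ l = (x + y : ℤ) ∧ T.cf U a μ l = (x - y : ℤ)) ∧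
      (x ≠ 0 ∨ y ≠ 0 → (∀ u ∈ U, T.χ l (t * u) = μ u * (x + y : ℤ)) ∧
        8 ∣ T.d l + 5 * (x + y) + 2 * (x - y)) := fun l => by
    rcases h.mb T (J := Unit) (μ := fun _ => μ) (fun _ => hμ) (fun _ _ e => absurd rfl e)
      (by simpa using h2) l with f | f
    · obtain ⟨x, y, a1, a2, a3⟩ := h.d_mod T e l
      have f1 := f t h.tS (Or.inl rfl) 1 U.one_mem
      have f2 := f a e.aS (Or.inr e.aa) 1 U.one_mem
      simp only [mul_one, Finset.univ_unique, Finset.sum_singleton, hμ.1.1, one_mul] at f1 f2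
      exact ⟨x, y, ⟨f1 ▸ a1, f2 ▸ a2⟩, fun _ => ⟨fun u hu => by
        simpa [← f1, a1] using f t h.tS (Or.inl rfl) u hu, a3⟩⟩
    · exact ⟨0, 0, ⟨by simpa [hμ.1.1] using f t h.tS (Or.inl rfl) 1 U.one_mem,
        by simpa [hμ.1.1] using f a e.aS (Or.inr e.aa) 1 U.one_mem⟩, by simp⟩
  choose c b h1 h3 using key
  obtain ⟨n1, n2, n3⟩ := h.d_norm T e hμ
  obtain ⟨l1, l2⟩ := h.d_cls T e hμ
  have sp : ∀ F : Fin T.n → ℂ, ∑ l, T.cf U t μ l * F l = ∑ l, c l * F l + ∑ l, b l * F l ∧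
      ∑ l, T.cf U a μ l * F l = ∑ l, c l * F l - ∑ l, b l * F l := fun F => by
    simp only [h1, ← Finset.sum_add_distrib, ← Finset.sum_sub_distrib]
    constructor <;> refine Finset.sum_congr rfl fun _ _ => ?_ <;> push_cast <;> ring
  have hv : ∀ y, ¬ 2 ∣ orderOf y → ∑ l, c l * T.χ l y = 0 ∧ ∑ l, b l * T.χ l y = 0 := fun y hy => by
    have v1 := h.cf_val T μ h.tS h.t1 hy
    have v2 := h.cf_val T μ e.aS (h.ab_ne (Or.inr e.aa)) hy
    rw [(sp _).1] at v1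
    rw [(sp _).2] at v2
    exact ⟨by linear_combination (v1 + v2) / 2, by linear_combination (v1 - v2) / 2⟩
  have hd := hv 1 (by simp)
  simp only [T.χ_one] at hd
  simp only [h1] at n1 n2 n3
  norm_cast at n1 n2 n3
  have ex : ∀ p q : ℤ, (p + q) * (p + q) = p ^ 2 + q ^ 2 + 2 * (p * q) ∧
      (p - q) * (p - q) = p ^ 2 + q ^ 2 - 2 * (p * q) ∧ (p + q) * (p - q) = p ^ 2 - q ^ 2 :=
    fun p q => ⟨by ring, by ring, by ring⟩
  simp only [ex, Finset.sum_add_distrib, Finset.sum_sub_distrib, ← Finset.mul_sum] at n1 n2 n3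
  obtain ⟨p1, p2⟩ := norm_331 (c := c) (b := b) (by omega) (by omega) (by omega) T.d_ne hd.1 hd.2
  refine ⟨c, b, h1, fun y hy => (hv y hy).1, p1, fun i hi hi' => ?_⟩
  obtain ⟨j, k, m, n, q0, q1, q2, q3, q4, q5, q6, q7, q8, q9, hF, hG⟩ := p2 i hi hi'
  have s1 : c i * T.d i + c j * T.d j + c k * T.d k = 0 := by
    exact_mod_cast (hF fun l => T.d l).symm.trans hd.1
  have s2 : c k * T.d k + b m * T.d m + b n * T.d n = 0 := by
    exact_mod_cast (hG fun l => T.d l).symm.trans hd.2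
  have ht : ∀ l, c l ≠ 0 ∨ b l ≠ 0 → T.χ l t = (c l + b l : ℤ) := fun l hl => by
    simpa [hμ.1.1] using (h3 l hl).1 1 U.one_mem
  have k1 : ∀ {l} {δ : ℤ}, δ = 1 ∨ δ = -1 → c l + b l = δ → c l ≠ 0 ∨ b l ≠ 0 →
      δ * (T.χ l t ^ 2 / T.d l) = 1 / (δ * T.d l : ℤ) := fun {l δ} f1 f2 f3 => by
    rw [ht l f3, f2]
    rcases f1 with f | f <;> simp [f, div_neg]
  have k2 : c k * (T.χ k t ^ 2 / T.d k) = -(4 * (1 / (c i * T.d i + c j * T.d j : ℤ))) := by
    rw [ht k (by omega), q7, show c i * T.d i + c j * T.d j = -(c k * T.d k) by omega]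
    rcases q3 with f | f <;> simp [f, div_neg] <;> ring
  rw [(sp _).1] at l1
  rw [(sp _).2] at l2
  rw [hF, hG, k1 q1 (by omega) (by omega), k1 q2 (by omega) (by omega), k1 q4 (by omega) (by omega),
    k1 q5 (by omega) (by omega), k2] at l1 l2
  have dv : ∀ l, b l = 1 ∨ b l = -1 → b l * T.d l ∣ Nat.card G := fun l f => by
    have := Int.natCast_dvd_natCast.2 (T.d_dvd l)
    rcases f with f | f <;> simpa [f] using this
  have m1 := (h3 i (by omega)).2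
  have m2 := (h3 j (by omega)).2
  have m3 := (h3 m (by omega)).2
  have m4 := (h3 n (by omega)).2
  refine ⟨j, k, _, _, b m * T.d m, b n * T.d n, q0, q1, q2, q3, by
    simpa [hi'] using (h3 i (by omega)).1, by simpa [q6] using (h3 j (by omega)).1, hF, rfl, rfl,
    s1, by omega, ?_, ?_, ?_, ?_, dv m q4, dv n q5, Rat.cast_injective (α := ℂ) ?_,
    Rat.cast_injective (α := ℂ) ?_⟩
  · rcases q1 with f | f <;> rw [f] at m1 ⊢ <;> omega
  · rcases q2 with f | f <;> rw [f] at m2 ⊢ <;> omega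
  · rcases q4 with f | f <;> rw [f] at m3 ⊢ <;> omega
  · rcases q5 with f | f <;> rw [f] at m4 ⊢ <;> omega
  · push_cast at l1 l2 ⊢
    linear_combination (l1 + l2) / 2
  · push_cast at l1 l2 ⊢
    linear_combination (l1 - l2) / 2

/-- The principal characters. -/
lemma d_prin : ∃ (j k : Fin T.n) (δ ε x y1 y2 : ℤ), (δ = 1 ∨ δ = -1) ∧ (ε = 1 ∨ ε = -1) ∧
    x = δ * T.d j ∧ x + 1 = ε * T.d k ∧ 8 ∣ x - 1 ∧ x ≠ 1 ∧ x ≠ 9 ∧
    (∀ y, ¬ 2 ∣ orderOf y → 1 + δ * T.χ j y = ε * T.χ k y) ∧ y1 + y2 = x + 1 ∧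
    8 ∣ y1 - 5 ∧ 8 ∣ y2 - 5 ∧ ¬ 9 ∣ y1 ∧ ¬ 9 ∣ y2 ∧
    (centralizer ({t} : Set G)).index * (1 + 1 / x - 4 * (1 / (x + 1 : ℤ)) : ℚ) =
      8 * ((centralizer {s}).relIndex U + (centralizer {s * a}).relIndex U) ^ 2 ∧
    (centralizer ({t} : Set G)).index * (1 / y1 + 1 / y2 - 4 * (1 / (x + 1 : ℤ)) : ℚ) =
      8 * ((centralizer {s}).relIndex U - (centralizer {s * a}).relIndex U) ^ 2 := by
  have := h.simple
  obtain ⟨i, h0, h0'⟩ := T.exists_triv
  obtain ⟨c, b, h1, h2, -, h3⟩ := h.d_data T e (Adm.one t S) fun σ _ e _ =>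
    (isConj_iff.1 (h.conj σ e)).imp fun c hc => ⟨hc, fun _ _ _ => rfl⟩
  obtain ⟨ci, bi⟩ : c i = 1 ∧ b i = 0 := by
    obtain ⟨f1, f2⟩ := h1 i
    simp only [CT.cf, h0, mul_one, Finset.sum_const, Finset.card_univ, nsmul_eq_mul,
      ← Nat.card_eq_fintype_card] at f1 f2
    rw [div_self (Nat.cast_ne_zero.2 Nat.card_pos.ne')] at f1 f2
    norm_cast at f1 f2
    omega
  have hd : T.d i = 1 := by exact_mod_cast (T.χ_one i).symm.trans (h0 1)
  obtain ⟨j, k, x, y, y1, y2, a0, -, a1, a2, -, a3, hF, a4, a5, a6, a7, -, a8, a9, b1, b2, b3, b4,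
    b5⟩ := h3 i (by omega) bi
  obtain rfl : x = 1 := by simp [a4, ci, hd]
  have n9 : ∀ z : ℤ, z ∣ Nat.card G → ¬ 9 ∣ z := fun z f g =>
    h.not_nine e (by exact_mod_cast g.trans f)
  rw [add_comm 1 y] at a7 b4 b5
  refine ⟨j, k, c j, -c k, y, y1, y2, a1, by omega, a5, by linarith, a8, fun f => ?_, fun f => ?_,
    fun z hz => ?_, a7, a9, b1, n9 _ b2, n9 _ b3, by simpa using b4, b5⟩
  · simpa [T.triv_of j h.t1 a1 (by simpa using a3 1 U.one_mem) (a5 ▸ f)] using h0' j a0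
  · refine n9 (T.d j) (by simpa using Int.natCast_dvd_natCast.2 (T.d_dvd j)) ?_
    rcases a1 with g | g <;> rw [g] at a5 <;> omega
  · have := h2 z hz
    rw [hF, ci, h0] at this
    push_cast at this ⊢
    linear_combination this

lemma d_cent : ∀ y ∈ U, y * s = s * y → y * a = a * y := by
  obtain ⟨T⟩ := exists_ct G
  obtain ⟨-, -, -, -, x, y1, y2, -, -, -, -, a1, a2, -, -, a3, a4, a5, a6, a7, a8, a9⟩ :=
    h.d_prin T e
  obtain ⟨r1, r2⟩ := ratio_aux a1 a4 a5 a2 a3 a6 a7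
  have hi := Nat.pos_of_ne_zero (index_ne_zero_of_finite (H := centralizer ({t} : Set G)))
  obtain ⟨b1, b2⟩ := ratio hi r1 r2 a8 a9
  obtain ⟨b3, b4⟩ := ratio (j := (centralizer {s * a}).relIndex U)
    (k := (centralizer {s}).relIndex U) hi r1 r2 (by rw [a8]; ring) (by rw [a9]; ring)
  exact h.d8_eq e b1 b2 b3 b4

lemma d_eq : U ⊓ centralizer {s * a} = U ⊓ centralizer {s} := by
  ext y
  rw [h.memD, h.memD, and_congr_right_iff]
  refine fun hy => ⟨fun f => ?_, fun f =>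
    ((show Commute y s from f).mul_right (h.d_cent e y hy f)).eq⟩
  simpa using ((show Commute y (s * a) from f).mul_right
    (Commute.inv_right (h.d_cent e.symm y hy f))).eq

lemma d_rel : (centralizer {s * a}).relIndex U = (centralizer {s}).relIndex U := by
  rw [← inf_relIndex_left, h.d_eq e, inf_relIndex_left]

lemma d_comm {y : G} (hy : y ∈ U ⊓ centralizer {s}) {σ : G} (hσ : σ ∈ S) : σ * y = y * σ := by
  obtain ⟨f1, f2⟩ := h.memD.1 hy
  have c1 : Commute y t := h.ut f1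
  have c2 : Commute y s := f2
  have c3 : Commute y a := h.d_cent e y f1 f2
  rcases e.mem hσ with rfl | rfl | rfl | rfl | rfl | rfl | rfl | rfl
  exacts [by simp, c1.eq.symm, c3.eq.symm, (c1.mul_right c3).eq.symm, c2.eq.symm,
    (c1.mul_right c2).eq.symm, (c2.mul_right c3).eq.symm, (c1.mul_right (c2.mul_right c3)).eq.symm]

lemma d_bound : 7 * (centralizer ({t} : Set G)).index < 288 * (centralizer {s}).relIndex U ^ 2 := by
  obtain ⟨T⟩ := exists_ct G
  obtain ⟨-, -, -, -, x, -, -, -, -, -, -, a1, a2, a3, -, -, -, -, -, -, a8, -⟩ := h.d_prin T e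
  have hi : (0 : ℚ) < (centralizer ({t} : Set G)).index := by
    exact_mod_cast Nat.pos_of_ne_zero index_ne_zero_of_finite
  have := mul_lt_mul_of_pos_left (prin8 a1 a2 a3) hi
  rw [a8, h.d_rel e] at this
  exact_mod_cast (by linarith : 7 * ((centralizer ({t} : Set G)).index : ℚ) <
    288 * (centralizer {s}).relIndex U ^ 2)

theorem d_bot : U ⊓ centralizer {s} = ⊥ := by
  have := h.simple
  by_contra hD
  obtain ⟨r, hr, h0⟩ := Nat.exists_prime_and_dvd fun e => hD (card_eq_one.1 e)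
  have h2 : r ≠ 2 := fun e => h.oddU (e ▸ h0.trans (card_dvd_of_le inf_le_left))
  rcases h.dich hr h2 with ⟨h5, R, a1, a2, a3, a4⟩ | hc
  · obtain ⟨w, hw, -⟩ := h.exists_cyc e
    obtain ⟨w', hw', -⟩ := h.exists_cyc e.symm
    have h6 : ∀ x ∈ U ⊓ centralizer {s}, w' * x * w'⁻¹ ∈ U ⊓ centralizer {s} :=
      h.d_eq e ▸ fun x hx => h.cycD' hw' hx
    have h7 := (h.loc e.sS (h.d_os e) e.st hr h5 a1 a2 a3 a4 rfl h0 (fun σ hσ x hx => by
      rwa [h.d_comm e hx hσ, mul_inv_cancel_right]) hw ?_ fun L f b1 b2 x hx => ?_).1 w' h6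
    · rw [hw'.1, ← e.st', mul_right_inj, mul_eq_left] at h7
      rcases h7 with f | f | f
      · exact e.symm.st f
      · exact h.t1 (by rw [← e.aa, f, one_mul])
      · exact h.t1 (by rw [← e.aa, f, h.tt])
    · rw [h.cardC' s, e.card, mul_pow]
      refine Nat.mul_lt_mul_of_pos_right ?_ (pow_pos Nat.card_pos 2)
      have := h.d_bound e
      rw [mul_pow]
      omega
    · have b3 : a ∈ L := (mul_mem_cancel_left b2).1 (hw'.1 ▸ f w' h6 t b1)
      rcases e.mem hx with rfl | rfl | rfl | rfl | rfl | rfl | rfl | rfl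
      exacts [L.one_mem, b1, b3, mul_mem b1 b3, b2, mul_mem b1 b2, mul_mem b2 b3,
        mul_mem b1 (mul_mem b2 b3)]
  obtain ⟨d, hd, hdr⟩ := J.exists_order hr h0
  obtain ⟨μ, -, c1, c2, -⟩ := h.exists_adm hr h2 hc hdr hd.1 fun σ hσ => h.d_comm e hd hσ
  obtain ⟨T⟩ := exists_ct G
  obtain ⟨c, b, -, -, ⟨i, hi, hi'⟩, h3⟩ := h.d_data T e c1 fun σ hσ f1 f2 => by
    obtain ⟨w, hw, hw'⟩ := h.exists_cyc (e.of_invol hσ (mul_self_of_two f1) (ne_one_of_two f1) f2)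
    refine ⟨w⁻¹, by rw [← hw.1]; group, fun y hy f => ?_⟩
    rw [inv_inv, mul_assoc, hw' (fun σ e' => h.d_cent e') y hy f, inv_mul_cancel_left]
  obtain ⟨j, k, x, y, -, -, -, b1, b2, -, b3, b4, -, b5, b6, -, -, b7, b8, -, -, -, -, b9, -⟩ :=
    h3 i hi hi'
  have key : ∀ l, c l = 1 ∨ c l = -1 → (∀ u ∈ U, T.χ l (t * u) = μ u * c l) →
      c l * T.d l ≠ 1 := fun l f1 f2 f => by
    have f3 := T.triv_of l h.t1 f1 (by simpa [c1.1.1] using f2 1 U.one_mem) f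
    have f4 := f2 d hd.1
    have f5 := f2 1 U.one_mem
    rw [f3] at f4 f5
    rw [c1.1.1, one_mul] at f5
    rw [← f5, mul_one] at f4
    exact c2 f4.symm
  have hi : (0 : ℚ) < (centralizer ({t} : Set G)).index := by
    exact_mod_cast Nat.pos_of_ne_zero index_ne_zero_of_finite
  have n1 := mul_lt_mul_of_pos_left (tw8 b7 b8 (b5 ▸ key i b1 b3) (b6 ▸ key j b2 b4)) hi
  have n2 : 7 * ((centralizer ({t} : Set G)).index : ℚ) < 288 * (centralizer {s}).relIndex U ^ 2 := by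
    exact_mod_cast h.d_bound e
  rw [b9, h.d_rel e] at n1
  linarith

end Dih

end Pool.Agent.Lib.MP_cb9dee_al
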