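import Pool.Agent.Lib.MP_cb9dee_al.CQ8

namespace Pool.Agent.Lib.MP_cb9dee_al

open Subgroup

variable {G : Type} [Group G]

/-- The centralizer of the involution `t` is a generalized dihedral group over `K`. -/
structure Tor (t : G) (K : Subgroup G) (k : ℕ) : Prop where
  ord : orderOf t = 2
  conj : ∀ s : G, orderOf s = 2 → IsConj s t
  odd : ¬ 2 ∣ (centralizer ({t} : Set G)).index
  cardC : Nat.card (centralizer ({t} : Set G)) = 2 * k
  cardK : Nat.card K = k
  mem : t ∈ K
  comm : ∀ x ∈ K, ∀ y ∈ K, x * y = y * x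
  uniq : ∀ x ∈ K, x * x = 1 → x = 1 ∨ x = t
  out : ∀ u, u * t = t * u → u ∉ K → u * u = 1 ∧ ∀ x ∈ K, u * x * u⁻¹ = x⁻¹

/-- `K` contains the centralizers of its elements other than `1` and `t`. -/
def TI (t : G) (K : Subgroup G) : Prop :=
  ∀ x ∈ K, x ≠ 1 → x ≠ t → ∀ y, y * x = x * y → y ∈ K

lemma Pack.congr {L L' : Type} [Group L] [Group L'] {p k m : ℕ} (h : Pack L p k m)
    (e : L ≃* L') : Pack L' p k m := by
  have ho : ∀ x, orderOf (e.symm x) = orderOf x := fun x => e.symm.orderOf_eq x
  have hc : ∀ A : Subgroup L, Nat.card (A.comap e.symm.toMonoidHom) = Nat.card A := fun A => by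
    rw [← map_equiv_eq_comap_symm']
    exact card_map_of_injective e.injective
  have hm : ∀ (A : Subgroup L) x, x ∈ A.comap e.symm.toMonoidHom ↔ e.symm x ∈ A := fun _ _ => Iff.rfl
  have hs := h.simple
  have := Fact.mk h.prime
  refine ⟨h.prime, h.five, h.even, h.par, Nat.card_congr e.symm.toEquiv |>.trans h.card,
    e.symm.isSimpleGroup, fun s t hs ht => ?_, fun t ht => ?_, fun x hx y hy => ?_, ?_,
    fun x hx hc' => ?_⟩
  · simpa using e.toMonoidHom.map_isConj (h.conj _ _ ((ho s).trans hs) ((ho t).trans ht))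
  · obtain ⟨h1, K, h2, h3, h4, h5, h6, h7⟩ := h.cent _ ((ho t).trans ht)
    refine ⟨?_, K.comap e.symm.toMonoidHom, (hc K).trans h2, h3, fun x hx y hy => ?_,
      fun x hx hxx => ?_, fun u hu huK => ?_, fun x hx a b y hy => ?_⟩
    · rw [← h1, ← hc]
      congr 2
      ext x
      rw [hm, mem_centralizer_singleton_iff, mem_centralizer_singleton_iff, ← map_mul, ← map_mul,
        e.symm.injective.eq_iff]
    · exact e.symm.injective (by simpa using h4 _ hx _ hy)
    · simpa using h5 _ hx (by rw [← map_mul, hxx, map_one])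
    · obtain ⟨a, b⟩ := h6 (e.symm u) (by rw [← map_mul, hu, map_mul]) huK
      exact ⟨e.symm.injective (by simpa using a), fun x hx =>
        e.symm.injective (by simpa using b _ hx)⟩
    · exact h7 _ hx (by simpa using a) (by simpa using b) _ (by rw [← map_mul, hy, map_mul])
  · obtain ⟨j, hj⟩ := mem_zpowers_iff.1 (h.pcent _ ((ho x).trans hx) (e.symm y)
      (by rw [← map_mul, hy, map_mul]))
    exact mem_zpowers_iff.2 ⟨j, e.symm.injective (by simpa using hj)⟩
  · rw [← h.pcard]
    exact Nat.card_congr
      ⟨fun P => P.comapOfInjective e.toMonoidHom e.injective (by simp),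
        fun P => P.comapOfInjective e.symm.toMonoidHom e.symm.injective (by simp),
        fun P => by ext; simp [Sylow.comapOfInjective, Sylow.comapOfKerIsPGroup],
        fun P => by ext; simp [Sylow.comapOfInjective, Sylow.comapOfKerIsPGroup]⟩
  · obtain ⟨A, h1, h2, h3, h4, u, h5, h6, h7⟩ := h.torus (e.symm x) (by simpa using hx)
      (by rwa [ho])
    refine ⟨A.comap e.symm.toMonoidHom, (hc A).trans h1, h2, fun y hy z hz => ?_,
      fun y hy a g hg => ?_, e u, by rw [← map_mul, h5, map_one], fun y hy => ?_, fun g hg => ?_⟩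
    · exact e.symm.injective (by simpa using h3 _ hy _ hz)
    · exact h4 _ hy (by simpa using a) _ (by rw [← map_mul, hg, map_mul])
    · exact e.symm.injective (by simpa using h6 _ hy)
    · simpa [hm] using h7 (e.symm g) fun y hy => by simpa [hm] using hg (e y) (by simpa [hm])

/-- A proper subgroup of a simple group of order divisible by four has index at least four. -/
lemma four_le_index [Finite G] [IsSimpleGroup G] (h4 : 4 ∣ Nat.card G) {H : Subgroup G}
    (hH : H ≠ ⊤) : 4 ≤ H.index := by
  classical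
  have hk : (MulAction.toPermHom G (G ⧸ H)).ker = ⊥ := by
    rw [← normalCore_eq_ker]
    exact (inferInstance : H.normalCore.Normal).eq_bot_or_eq_top.resolve_right
      fun e => hH (eq_top_iff.2 (e ▸ H.normalCore_le))
  have h1 := card_dvd_of_injective _ ((MonoidHom.ker_eq_bot_iff _).1 hk)
  rw [Nat.card_perm, ← index_eq_card] at h1
  by_contra h
  have h2 := h4.trans h1
  have : H.index < 4 := by omega
  interval_cases H.index <;> simp [Nat.factorial] at h2

end Pool.Agent.Lib.MP_cb9dee_al
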