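import Pool.Agent.Lib.MP_cb9dee_al.JZero

/-! The centraliser of an involution: types `I`, `II`, `IV`. -/

set_option linter.unusedSectionVars false

namespace Pool.Agent.Lib.MP_cb9dee_al.J

open Subgroup

variable {G : Type} [Group G] [Finite G]

lemma odd_pow_conj {g a b : G} (h1 : g * a * g⁻¹ = b) (h2 : g * b * g⁻¹ = a) {m : ℕ}
    (hm : ¬ 2 ∣ m) : g ^ m * a * (g ^ m)⁻¹ = b := by
  obtain ⟨j, rfl⟩ : ∃ j, m = 2 * j + 1 := ⟨m / 2, by omega⟩
  have h3 : g ^ 2 ∈ centralizer ({a} : Set G) := conj_eq_iff.1 (by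
    calc g ^ 2 * a * (g ^ 2)⁻¹ = g * (g * a * g⁻¹) * g⁻¹ := by rw [pow_two]; group
      _ = a := by rw [h1, h2])
  have h4 := conj_eq_iff.2 (pow_mem h3 j)
  calc g ^ (2 * j + 1) * a * (g ^ (2 * j + 1))⁻¹
      = g * ((g ^ 2) ^ j * a * ((g ^ 2) ^ j)⁻¹) * g⁻¹ := by rw [pow_succ', pow_mul]; group
    _ = b := by rw [h4, h1]

lemma inv_zp {u w : G} (h : u * w * u⁻¹ = w⁻¹) : ∀ y ∈ zpowers w, u * y * u⁻¹ = y⁻¹ := by
  rintro _ ⟨i, rfl⟩
  simp only
  rw [← conj_zpow, h, inv_zpow]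

lemma inv_zp' {u w : G} (h : u * w * u⁻¹ = w⁻¹) : ∀ y ∈ zpowers w, u * y * u⁻¹ ∈ zpowers w :=
  fun y hy => (inv_zp h y hy).symm ▸ inv_mem hy

lemma nm_zp {u w : G} (h : u * w * u⁻¹ ∈ zpowers w) :
    ∀ y ∈ zpowers w, u * y * u⁻¹ ∈ zpowers w := by
  rintro _ ⟨i, rfl⟩
  simp only
  rw [← conj_zpow]
  exact zpow_mem h i

lemma isP_zp {w : G} {q : ℕ} (h : w ^ q = 1) : IsPGroup q (zpowers w) :=
  IsPGroup.of_card_dvd_pow (n := 1) (by
    rw [Nat.card_zpowers, pow_one]; exact orderOf_dvd_of_pow_eq_one h)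

lemma not_dvd_zp {w : G} {q : ℕ} (h : orderOf w = q) (h2 : ¬ q ^ 2 ∣ Nat.card G) :
    ¬ q ∣ (zpowers w).index := fun e => h2 (by
  rw [← (zpowers w).card_mul_index, Nat.card_zpowers, h, pow_two]
  exact mul_dvd_mul_left q e)

lemma mul_mem_of_two {B S : Subgroup G} (hi : B.relIndex S = 2) {a b : G} (ha : a ∈ S) (hb : b ∈ S)
    (ha' : a ∉ B) (hb' : b ∉ B) : a * b ∈ B :=
  (mul_mem_iff_of_index_two (H := B.subgroupOf S) hi (a := ⟨a, ha⟩) (b := ⟨b, hb⟩)).2
    (iff_of_false ha' hb')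

lemma rel_dvd_of_nm {O M X : Subgroup G} (h1 : O ≤ M) (h2 : Nm M O) (hX : X ≤ M) :
    O.relIndex X ∣ O.relIndex M := by
  have : (O.subgroupOf M).Normal := (normal_subgroupOf_iff h1).2 fun a b ha hb => h2 b hb a ha
  rw [← relIndex_subgroupOf hX]
  exact relIndex_dvd_index_of_normal _ _

lemma cent_mul (a b : G) : (centralizer {a} ⊓ centralizer {a * b} : Subgroup G) =
    centralizer {a} ⊓ centralizer {b} := by
  ext x
  simp only [mem_inf, mem_centralizer_singleton_iff]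
  refine and_congr_right fun h => ?_
  rw [← mul_assoc, h, mul_assoc, mul_assoc, mul_right_inj]

lemma card_cent_two (g a b : G) : Nat.card (centralizer {a} ⊓ centralizer {b} : Subgroup G) =
    Nat.card (centralizer {g * a * g⁻¹} ⊓ centralizer {g * b * g⁻¹} : Subgroup G) :=
  card_conj _ g fun y => by
    simp only [mem_inf, mem_centralizer_singleton_iff, conj_comm_iff]

namespace Cx

variable (c : Cx G)
include c

lemma two_comm {Q : Subgroup G} (hQ : IsPGroup 2 Q) {a b : G} (ha : a ∈ Q) (hb : b ∈ Q) :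
    a * a = 1 ∧ a * b = b * a := by
  obtain ⟨S, hS⟩ := hQ.exists_le_sylow
  exact ⟨c.S_sq S (hS ha), c.S_comm S (hS ha) (hS hb)⟩

lemma exists_nc {w : G} {q : ℕ} (hq : q.Prime) (h : orderOf w = q) (h2 : ¬ q ^ 2 ∣ Nat.card G) :
    ∃ g, g * w * g⁻¹ ∈ zpowers w ∧ g * w ≠ w * g := by
  have := Fact.mk hq
  by_contra hcon
  have h1 := trf ((isP_zp (h ▸ pow_orderOf_eq_one w)).toSylow (not_dvd_zp h h2))
    (by rintro _ ⟨i, rfl⟩ _ ⟨j, rfl⟩; exact zpow_mul_comm w i j) (mem_zpowers w)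
    (fun g hg => by_contra fun e => hcon ⟨g, (mem_normalizer_iff.1 hg w).1 (mem_zpowers w), e⟩)
    (c.mem_comm w)
  rw [h1, orderOf_one] at h
  exact hq.one_lt.ne h

lemma exists_inv_three {w : G} (h : orderOf w = 3) : ∃ u, u * u = 1 ∧ u * w * u⁻¹ = w⁻¹ := by
  classical
  obtain ⟨g, h1, h2⟩ := c.exists_nc Nat.prime_three h c.eight.1
  obtain ⟨m, h3, h4⟩ := c.exists_m
  have h5 : g * w * g⁻¹ = w⁻¹ := by
    rw [mem_zpowers_iff_mem_range_orderOf, h, Finset.mem_image] at h1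
    obtain ⟨i, hi, e⟩ := h1
    rw [Finset.mem_range] at hi
    interval_cases i
    · refine (conj_ne_one (g := g) (t := w) ?_ (by rw [← e, pow_zero])).elim
      rintro rfl
      simp at h
    · exact (h2 (mul_inv_eq_iff_eq_mul.1 (by rw [← e, pow_one]))).elim
    · rw [← e, eq_inv_iff_mul_eq_one, ← pow_succ]
      exact (h ▸ pow_orderOf_eq_one w : w ^ 3 = 1)
  exact ⟨g ^ m, h4 g, odd_pow_conj h5 (by rw [inv_zp h5 _ (inv_mem (mem_zpowers w)), inv_inv]) h3⟩

lemma not_IV (S : Sylow 2 G) {t : G} (ht : t ∈ S) (t1 : t ≠ 1) : ¬ GIV (centralizer {t}) := by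
  rintro ⟨B, -, h1, h2, h3, g, h4, h5, x, h6, h7⟩
  obtain rfl := c.eq_S S h2 h3 fun y hy => h1 y (c.S_le_cent S ht hy)
  have h8 : g ∉ centralizer ({x} : Set G) := fun h => h7 (mem_centralizer_singleton_iff.1 h)
  obtain ⟨i, -, e⟩ := (c.cyc_of S (h1 g h4) h6 (fun e => h7 (by simp [e])) (k := 1)
    (mem_centralizer_singleton_iff.2 (h5 x h6)) h8).1 t ht t1
  rw [← conj_eq_iff.2 (pow_mem h4 i), mul_left_inj, mul_right_inj] at e
  exact h8 (e ▸ h4)

lemma not_three (S : Sylow 2 G) {t : G} (ht : t ∈ S) (hn : Nm (centralizer {t}) S) :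
    ¬ 3 ∣ Nat.card (centralizer {t} : Subgroup G) := fun h => by
  have := Fact.mk Nat.prime_two
  obtain ⟨w, hw, ho⟩ := exists_order Nat.prime_three h
  obtain ⟨u, u2, hu⟩ := c.exists_inv_three ho
  have h1 : t ∈ normalizer (zpowers w : Set G) := mem_normalizer_fintype (nm_zp (by
    rw [← mem_centralizer_singleton_iff.1 hw, mul_inv_cancel_right]; exact mem_zpowers w))
  obtain ⟨Q, q1, q2, q3, q4⟩ := sylow_in (isP_zp (q := 2) (by rw [pow_two, c.S_sq S ht]))
    (zpowers_le_of_mem h1)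
  obtain ⟨g, hg, hg'⟩ := sylow_conj (isP_zp (q := 2) (by rw [pow_two, u2])) q3
    (zpowers_le_of_mem (mem_normalizer_fintype (inv_zp' hu))) q4
  have h2 := c.two_comm q3 (hg' u (mem_zpowers u)) (q1 (mem_zpowers t))
  set x := g * u * g⁻¹ with hx
  have h3 : x ∈ centralizer ({t} : Set G) := mem_centralizer_singleton_iff.2 h2.2
  have h4 : x ∈ S := c.mem_S S (hn x h3) h2.1
  have h5 : x * w⁻¹ * x⁻¹ = w := by
    have := inv_zp hu _ ((mem_normalizer_iff''.1 hg _).1 (inv_mem (mem_zpowers w)))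
    calc x * w⁻¹ * x⁻¹ = g * (u * (g⁻¹ * w⁻¹ * g) * u⁻¹) * g⁻¹ := by rw [hx]; group
      _ = w := by rw [this]; group
  have h6 : w * w ∈ S := by
    have := mul_mem (hn w hw x h4) (inv_mem h4)
    rwa [show w * x * w⁻¹ * x⁻¹ = w * (x * w⁻¹ * x⁻¹) by group, h5] at this
  have h7 : w ^ 4 = 1 := by rw [← c.S_sq S h6, pow_succ, pow_three]; group
  have := ho ▸ orderOf_dvd_of_pow_eq_one h7
  omega

lemma not_II (S : Sylow 2 G) {t : G} (ht : t ∈ S) : ¬ GII (centralizer {t}) := by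
  rintro ⟨B, -, h1, h2, h3, g, h4, h5, x, h6, h7⟩
  have hBS := c.le_S S h3 fun y hy => h1 y (c.S_le_cent S ht hy)
  have x1 : x ≠ 1 := fun e => h7 (by simp [e])
  have hsub : {y | ∃ a ∈ zpowers g, a * x * a⁻¹ = y} ⊆ (B : Set G) \ {1} := by
    rintro _ ⟨a, ha, rfl⟩
    exact ⟨h1 a (zpowers_le_of_mem h4 ha) x h6, conj_ne_one x1⟩
  have h8 := Set.ncard_sdiff_singleton_add_one (s := (B : Set G)) (one_mem _)
  rw [← Nat.card_coe_set_eq (B : Set G), SetLike.coe_sort_coe, h2] at h8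
  have h9 := Set.ncard_le_ncard hsub
  have h10 := relIndex_dvd_card (centralizer {x}) (zpowers g)
  have h11 : (centralizer {x}).relIndex (zpowers g) ≠ 1 := fun e =>
    h7 (mem_centralizer_singleton_iff.1 (relIndex_eq_one.1 e (mem_zpowers g)))
  have h12 : ¬ 2 ∣ (centralizer {x}).relIndex (zpowers g) := fun e =>
    h5 (Nat.card_zpowers g ▸ e.trans h10)
  have h13 := rel_cent (zpowers g) x
  have h14 : (centralizer {x}).relIndex (zpowers g) = 3 := by omega
  by_cases t1 : t = 1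
  · exact c.cent_ne_top x1 (by
      obtain ⟨s, hs, s1⟩ := c.exists_one S
      have := c.simple
      have hB : B.Normal := ⟨fun b hb a => h1 a (by simp [t1, mem_centralizer_singleton_iff]) b hb⟩
      rcases hB.eq_bot_or_eq_top with e | e
      · exact (x1 (mem_bot.1 (e ▸ h6))).elim
      · exact (c.ne_top_of_comm (fun a ha b hb => c.S_comm S (hBS ha) (hBS hb)) e).elim)
  have htB : t ∉ B := fun h => by
    obtain ⟨a, ha, e⟩ : t ∈ {y | ∃ a ∈ zpowers g, a * x * a⁻¹ = y} :=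
      (Set.eq_of_subset_of_ncard_le hsub (by omega)).symm ▸ ⟨h, t1⟩
    rw [← conj_eq_iff.2 (zpowers_le_of_mem h4 ha), mul_left_inj, mul_right_inj] at e
    exact h7 (e ▸ mem_centralizer_singleton_iff.1 h4)
  have hi : B.relIndex S = 2 := by
    have := card_mul_rel hBS
    rw [h2, c.card_S] at this
    omega
  refine c.not_three S ht (fun a ha s hs => ?_)
    ((h14 ▸ h10).trans (card_dvd_of_le (zpowers_le_of_mem h4)))
  by_cases h : s ∈ B
  · exact hBS (h1 a ha s h)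
  · have := mul_mem (hBS (h1 a ha _ (mul_mem_of_two hi hs ht h htB))) (inv_mem ht)
    rwa [← conj_mul, conj_eq_iff.2 ha, mul_inv_cancel_right] at this

lemma phi (S : Sylow 2 G) {t : G} (ht : t ∈ S) (t1 : t ≠ 1) : ∃ e, ∀ a ∈ S, a ≠ 1 → a ≠ t →
    Nat.card (centralizer {t} ⊓ centralizer {a} : Subgroup G) = e := by
  obtain ⟨σ, h1, ⟨k, h2⟩, h3⟩ := c.exists_sigma S ht t1
  have hn := fun y => (mem_normalizer_iff.1 h1 y).1
  obtain ⟨h4, h5⟩ := c.cyc_of S hn ht t1 (k := k) (h2 ▸ one_mem _) h3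
  let T : ℕ → G := fun i => σ ^ i * t * (σ ^ i)⁻¹
  let ψ : ℕ → ℕ := fun d => Nat.card (centralizer {t} ⊓ centralizer {T d} : Subgroup G)
  have hT : ∀ i d, σ ^ i * T d * (σ ^ i)⁻¹ = T (i + d) := fun i d => by
    simp only [T, pow_add]; group
  have h7 : T 7 = t := conj_eq_iff.2 h5
  have hT7 : ∀ i, T (i + 7) = T i := fun i => by rw [← hT, h7]
  have hψ : ∀ i d, Nat.card (centralizer {T i} ⊓ centralizer {T (i + d)} : Subgroup G) = ψ d :=
    fun i d => by rw [← hT]; exact (card_cent_two _ _ _).symm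
  have hs : ∀ d e, d + e = 7 → ψ d = ψ e := fun d e h => by
    rw [← hψ d e, h, h7, inf_comm]
  have hp : ∀ d, ψ (d + 7) = ψ d := fun d => by simp only [ψ, hT7]
  have hTS : ∀ i, T i ∈ S := fun i => nm_pow (X := (S : Subgroup G)) hn i t ht
  have hrel : ∀ d e, t * T d = T (d + e) → ψ d = ψ (d + e) ∧ ψ d = ψ e := fun d e h => by
    refine ⟨by simp only [ψ, ← h, cent_mul], ?_⟩
    rw [← hψ d e, ← h, c.S_comm S ht (hTS d), cent_mul, inf_comm]
  have h8 : T 1 ≠ t := fun e => h3 (conj_eq_iff.1 (by simpa [T] using e))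
  obtain ⟨j, hj, e⟩ := h4 (t * T 1) (mul_mem ht (hTS 1)) fun e =>
    h8 ((eq_inv_of_mul_eq_one_right e).trans (inv_eq_of_mul_eq_one_right (c.S_sq S ht)))
  change T j = _ at e
  have hj0 : j ≠ 0 := by
    rintro rfl
    exact conj_ne_one (g := σ ^ 1) t1 (by simpa [T] using e)
  have hj1 : j ≠ 1 := by
    rintro rfl
    exact t1 (by simpa using e)
  have h9 : ∀ i, T i * T (i + 1) = T (i + j) := fun i => by
    rw [← hT i j, e, ← conj_mul, hT]
  have h10 : t * T 2 = T (2 + (2 * j - 2)) := by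
    rw [show 2 + (2 * j - 2) = j + j by omega, ← h9 j, add_comm j 1, ← h9 1, e, mul_assoc,
      ← mul_assoc (T 1), c.S_sq S (hTS 1), one_mul]
  have h11 := hrel 1 (j - 1) (by rw [← e]; congr 1; omega)
  have h12 := hrel 2 _ h10
  have := hs 1 6 rfl
  have := hs 2 5 rfl
  have := hs 3 4 rfl
  have : ψ 8 = ψ 1 := hp 1
  have : ψ 10 = ψ 3 := hp 3
  have h13 : ψ 2 = ψ 1 ∧ ψ 3 = ψ 1 := by
    interval_cases j <;> norm_num at h11 h12 <;> omega
  refine ⟨ψ 1, fun a ha a1 hat => ?_⟩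
  obtain ⟨i, hi, rfl⟩ := h4 a ha a1
  change ψ i = _
  interval_cases i
  · simp at hat
  all_goals omega

lemma cent_of_sylow (S : Sylow 2 G) {O : Subgroup G} (hO : ¬ 2 ∣ Nat.card O) (hn : Nm S O)
    {a b : G} (ha : a ∈ S) (hb : b ∈ S)
    (h : ∀ r, r.Prime → r ≠ 2 →
      (Nat.card (O ⊓ centralizer {a} : Subgroup G)).factorization r =
        (Nat.card (O ⊓ centralizer {b} : Subgroup G)).factorization r ∧
      (Nat.card (O ⊓ centralizer {a} : Subgroup G)).factorization r =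
        (Nat.card (O ⊓ centralizer {a * b} : Subgroup G)).factorization r) :
    O ≤ centralizer {a} := by
  have := Fact.mk Nat.prime_two
  rw [← relIndex_eq_one]
  by_contra hcon
  obtain ⟨r, hr, hd⟩ := Nat.exists_prime_and_dvd hcon
  have := Fact.mk hr
  have h2 : r ≠ 2 := fun e => hO (e ▸ hd.trans (relIndex_dvd_card _ _))
  obtain ⟨R, r1, r2, r3, r4⟩ := inv_sylow r S.isPGroup' hn hO
  have key := fun s (hs : s ∈ S) => card_inf_cent (c.S_sq S hs) hO (hn s hs) r1 r2 r3 (r4 s hs)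
    (c.p_comm hr h2)
  have h3 := four_cent hr h2 (c.card_dvd_sq hr h2 r2) (c.S_sq S ha) (c.S_sq S hb) (c.S_comm S ha hb)
    (r4 a ha) (r4 b hb) (by rw [key a ha, key b hb, (h r hr h2).1])
    (by rw [key a ha, key _ (mul_mem ha hb), (h r hr h2).2])
  exact r3 (hd.trans (relIndex_dvd_of_le_left O fun y hy =>
    mem_centralizer_singleton_iff.2 (h3 y hy).symm))

lemma le_of_odd (S : Sylow 2 G) {O M X : Subgroup G} (hS : (S : Subgroup G) ≤ M) {e : ℕ}
    (hi : O.relIndex M = 2 ^ e) (h1 : O ≤ X) (h2 : (S : Subgroup G) ≤ X) : M ≤ X := by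
  rw [← relIndex_eq_one]
  exact Nat.eq_one_of_dvd_coprimes (((Nat.Prime.coprime_iff_not_dvd Nat.prime_two).2
    (c.odd_rel S h2 hS)).pow_left e) (hi ▸ relIndex_dvd_of_le_left M h1) dvd_rfl

lemma of_I (S : Sylow 2 G) {t : G} (ht : t ∈ S) (t1 : t ≠ 1) (h : GI (centralizer {t})) {a : G}
    (ha : a ∈ S) : centralizer ({t} : Set G) ≤ centralizer {a} := by
  by_cases a1 : a = 1
  · intro x _
    simp [a1, mem_centralizer_singleton_iff]
  by_cases hat : a = t
  · rw [hat]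
  obtain ⟨O, h1, h2, h3, e, h4⟩ := h
  obtain ⟨f, hf⟩ := c.phi S ht t1
  have key : ∀ s ∈ S, s ≠ 1 → s ≠ t → ∀ r, r.Prime → r ≠ 2 →
      (Nat.card (O ⊓ centralizer {s} : Subgroup G)).factorization r = f.factorization r := by
    intro s hs s1 st r hr r2
    have k1 := card_mul_rel (inf_le_inf_right (centralizer {s}) h1)
    have k2 : (O ⊓ centralizer {s}).relIndex (centralizer {t} ⊓ centralizer {s}) ∣ 2 ^ e := by
      rw [← inf_relIndex_right, inf_inf_inf_comm, inf_idem, inf_eq_left.2 h1, ← h4]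
      have := rel_dvd_of_nm h1 h2 (inf_le_left : centralizer {t} ⊓ centralizer {s} ≤ _)
      rwa [← inf_relIndex_right, ← inf_assoc, inf_eq_left.2 h1] at this
    have k0 : (O ⊓ centralizer {s}).relIndex (centralizer {t} ⊓ centralizer {s}) ≠ 0 :=
      index_ne_zero_of_finite
    rw [← hf s hs s1 st, ← k1, Nat.factorization_mul Nat.card_pos.ne' k0,
      Finsupp.add_apply, Nat.factorization_eq_zero_of_not_dvd (n := relIndex _ _), add_zero]
    exact fun k3 => r2 ((Nat.prime_dvd_prime_iff_eq hr Nat.prime_two).1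
      (hr.dvd_of_dvd_pow (k3.trans k2)))
  obtain ⟨b, hb, hb'⟩ := c.exists_not_mem S (F := {1, t, a, a * t}) (lt_of_le_of_lt
    ((Set.ncard_insert_le _ _).trans (Nat.succ_le_succ ((Set.ncard_insert_le _ _).trans
      (Nat.succ_le_succ (Set.ncard_insert_le _ _))))) (by simp))
  simp only [Set.mem_insert_iff, Set.mem_singleton_iff, not_or] at hb'
  have hai := inv_eq_of_mul_eq_one_right (c.S_sq S ha)
  refine c.le_of_odd S (c.S_le_cent S ht) h4 (c.cent_of_sylow S h3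
    (fun y hy => h2 y (c.S_le_cent S ht hy)) ha hb fun r hr r2 => ?_) (c.S_le_cent S ha)
  rw [key a ha a1 hat r hr r2, key b hb hb'.1 hb'.2.1 r hr r2, key _ (mul_mem ha hb)
    (fun e => hb'.2.2.1 ((eq_inv_of_mul_eq_one_right e).trans hai))
    (fun e => hb'.2.2.2 (by rw [← e, ← mul_assoc, c.S_sq S ha, one_mul])) r hr r2]
  exact ⟨rfl, rfl⟩

/-- Either all involutions of `C(t)` are central in it, or `C(t)` has type `V`. -/
theorem dich {t : G} (t2 : t * t = 1) (t1 : t ≠ 1) :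
    (∀ s x y : G, s * s = 1 → s ≠ 1 → y * y = 1 → x * s = s * x → y * s = s * y →
      x * y = y * x) ∨ GV (centralizer {t}) := by
  obtain ⟨S, ht⟩ := exists_S t2
  rcases c.types_S S (c.cent_ne_top t1) (c.S_le_cent S ht) with h | h | h | h
  · refine Or.inl fun s x y s2 s1 y2 hx hy => ?_
    obtain ⟨g, rfl⟩ := c.conj_all s2 s1 t2 t1
    have h1 := mem_centralizer_singleton_iff.2 ((conj_comm_iff g s x).2 hx)
    have h2 := mem_centralizer_singleton_iff.2 ((conj_comm_iff g s y).2 hy)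
    have h3 := c.mem_S' S (fun z hz => (mem_centralizer_singleton_iff.1
      (c.of_I S ht t1 h hz h2)).symm) (conj_sq g y2)
    exact (conj_comm_iff g y x).1 (mem_centralizer_singleton_iff.1 (c.of_I S ht t1 h h3 h1))
  · exact (c.not_II S ht h).elim
  · exact (c.not_IV S ht t1 h).elim
  · exact Or.inr h

end Cx

end Pool.Agent.Lib.MP_cb9dee_al.J
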