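import Pool.Agent.Lib.MP_cb9dee_al.MMat
import Pool.Agent.Lib.MP_cb9dee_al.Basic

namespace Pool.Agent.Lib.MP_cb9dee_al

open Subgroup OnePoint MulAut Matrix
open scoped MatrixGroups

namespace M

variable {L : Type} [Group L] [Finite L] {p k m : ℕ}

omit [Finite L] in
lemma mul_conj (α : MulAut L) (g : L) : α * conj g = conj (α g) * α := by
  ext; simp

lemma exists_p (h : Pack L p k m) : ∃ x : L, orderOf x = p :=
  have := Fact.mk h.prime
  exists_prime_orderOf_dvd_card' p (by rw [h.card]; exact (dvd_mul_left p _).mul_right m)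

lemma conj_inj (h : Pack L p k m) : Function.Injective (conj : L →* MulAut L) := by
  have := h.simple
  have := Fact.mk h.prime
  rw [← MonoidHom.ker_eq_bot_iff]
  refine (MonoidHom.normal_ker _).eq_bot_or_eq_top.resolve_right fun e => ?_
  have h1 := h.pcard
  obtain ⟨P⟩ : Nonempty (Sylow p L) := inferInstance
  have : Subsingleton (Sylow p L) := ⟨fun Q R => by
    obtain ⟨g, rfl⟩ := MulAction.exists_smul_eq L Q R
    rw [Sylow.smul_def, (show g ∈ conj.ker from e ▸ mem_top g), one_smul]⟩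
  rw [Nat.card_unique] at h1
  have := h.five
  omega

lemma model0 [Fact p.Prime] (h : Pack L p k m) {x : L} (hx : orderOf x = p) :
    ∃ φ : MulAut L →* Equiv.Perm (OnePoint (ZMod p)), Function.Injective φ ∧
      (∀ b, ∃ l, φ (conj l) = T b) ∧ φ (conj x) = T 1 ∧
      (∀ α, φ α ∞ = ∞ → ∃ b a, φ α = T b * Mu a) ∧ ∀ y, ∃ l, φ (conj l) ∞ = y := by
  have hp := h.prime
  have h5 := h.five
  have hcard : Nat.card (zpowers x) = p := by rw [Nat.card_zpowers, hx]
  have hi : ¬ p ∣ (zpowers x).index := by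
    have h1 := (zpowers x).card_mul_index
    rw [hcard, h.card, show 2 * k * p * m = p * (2 * k * m) by ring] at h1
    rw [Nat.eq_of_mul_eq_mul_left hp.pos h1, hp.dvd_mul, hp.dvd_mul]
    have := h.par
    rintro ((a | a) | a) <;> exact absurd (Nat.le_of_dvd (by omega) a) (by omega)
  let P : Sylow p L := (IsPGroup.of_card (n := 1) (by rw [hcard, pow_one])).toSylow hi
  have hP : ∀ y, y ∈ P ↔ y ∈ zpowers x := fun _ => Iff.rfl
  have : Nontrivial (Sylow p L) := by rw [← Finite.one_lt_card_iff_nontrivial, h.pcard]; omega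
  obtain ⟨Q, hQ⟩ := exists_ne P
  let t : ZMod p → L := fun n => x ^ n.val
  have ht : ∀ n : ℕ, t n = x ^ n := fun n =>
    pow_eq_pow_iff_modEq.2 (by rw [hx, ZMod.val_natCast]; exact Nat.mod_modEq _ _)
  have tadd : ∀ a b, t (a + b) = t a * t b := fun a b => by
    rw [← pow_add, ← ht]; simp
  have tmul : ∀ a b, t (a * b) = t a ^ b.val := fun a b => by
    rw [← pow_mul, ← ht]; simp
  have t0 : t 0 = 1 := by simp [t]
  have t1 : t 1 = x := by simpa using ht 1
  have tP : ∀ n, t n • P = P := fun n =>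
    Sylow.smul_eq_iff_mem_normalizer.2 (le_normalizer ((hP _).2 (npow_mem_zpowers x _)))
  have tsurj : ∀ y ∈ P, ∃ n, t n = y := fun y hy => by
    obtain ⟨n, rfl⟩ := mem_powers_iff_mem_zpowers.2 ((hP _).1 hy)
    exact ⟨n, ht n⟩
  have tQ : ∀ n, t n • Q = Q → n = 0 := fun n hn => by
    by_contra h0
    have h1 : t n ∈ (P : Subgroup L) ⊓ normalizer Q :=
      ⟨(hP _).2 (npow_mem_zpowers x _), Sylow.smul_eq_iff_mem_normalizer.1 hn⟩
    rw [P.isPGroup'.inf_normalizer_sylow] at h1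
    have h2 : x ∈ Q := by rw [← t1, ← mul_inv_cancel₀ h0, tmul]; exact pow_mem h1.2 _
    exact hQ (Sylow.ext (P.is_maximal' Q.isPGroup' (zpowers_le.2 h2)))
  let e₀ : OnePoint (ZMod p) → Sylow p L := fun y => y.elim P fun n => t n • Q
  have hne : ∀ n, t n • Q ≠ P := fun n e => hQ (by
    rw [← tP n] at e; exact smul_left_cancel _ e)
  have he : Function.Bijective e₀ := by
    rw [Nat.bijective_iff_injective_and_card, h.pcard]
    refine ⟨fun y z hyz => ?_, by simp [OnePoint, Nat.card_eq_fintype_card]⟩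
    cases y <;> cases z
    · rfl
    · exact (hne _ hyz.symm).elim
    · exact (hne _ hyz).elim
    · rename_i a b
      have : t (-b + a) • Q = Q := by
        rw [tadd, mul_smul, show t a • Q = t b • Q from hyz, ← mul_smul, ← tadd, neg_add_cancel,
          t0, one_smul]
      rw [(neg_add_eq_zero.1 (tQ _ this))]
  let e := Equiv.ofBijective e₀ he
  let φ : MulAut L →* Equiv.Perm (OnePoint (ZMod p)) :=
    e.symm.permCongrHom.toMonoidHom.comp (MulAction.toPermHom (MulAut L) (Sylow p L))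
  have hφ : ∀ α y z, φ α y = z ↔ α • e y = e z := fun α y z => e.symm_apply_eq
  have hT : ∀ b, φ (conj (t b)) = T b := fun b => perm_ext ((hφ _ _ _).2 (by rw [T_infty]; exact tP b))
    fun n => (hφ _ _ _).2 (by
      rw [T_coe, add_comm]
      change t b • t n • Q = t (b + n) • Q
      rw [tadd, mul_smul])
  have haff : ∀ α, φ α ∞ = ∞ → ∃ b a, φ α = T b * Mu a ∧ α x = t a := by
    intro α hα
    have h1 : α • P = P := (hφ _ _ _).1 hα
    obtain ⟨a, ha⟩ := tsurj (α x) (by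
      rw [← h1]; exact smul_mem_pointwise_smul x α _ ((hP _).2 (mem_zpowers x)))
    have ha0 : a ≠ 0 := by
      rintro rfl
      rw [t0, eq_comm, map_eq_one_iff _ α.injective, ← orderOf_eq_one_iff] at ha
      omega
    cases hb : φ α (0 : ZMod p) with
    | infty => exact absurd ((φ α).injective (hb.trans hα.symm)) (by simp)
    | coe b =>
      have h2 : α • t 0 • Q = t b • Q := (hφ _ _ _).1 hb
      rw [t0, one_smul] at h2
      refine ⟨b, Units.mk0 a ha0, perm_ext (by simp [hα]) fun n => (hφ _ _ _).2 ?_, ha.symm⟩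
      rw [Equiv.Perm.mul_apply, Mu_coe, T_coe]
      change α • conj (t n) • Q = t (a * n + b) • Q
      rw [← mul_smul, mul_conj, mul_smul, h2, tadd, mul_smul, tmul, ha, ← map_pow]
      rfl
  refine ⟨φ, ?_, fun b => ⟨_, hT b⟩, t1 ▸ hT 1, fun α hα => ?_, fun y => ?_⟩
  · have hx1 : ∀ α, φ α = 1 → α x = x := by
      intro α hα
      obtain ⟨b, a, h1, h2⟩ := haff α (by simp [hα])
      have h3 := DFunLike.congr_fun (hα.symm.trans h1) ((0 : ZMod p) : OnePoint (ZMod p))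
      have h4 := DFunLike.congr_fun (hα.symm.trans h1) ((1 : ZMod p) : OnePoint (ZMod p))
      simp at h3 h4
      rw [h2, ← t1, h4, ← h3, add_zero]
    rw [injective_iff_map_eq_one]
    intro α hα
    have := h.simple
    have h1 : normalClosure {x} ≤ fixS α := by
      rw [normalClosure, closure_le]
      intro y hy
      obtain ⟨w, hw, hy'⟩ := Group.mem_conjugatesOfSet_iff.1 hy
      rw [show w = x from hw] at hy'
      obtain ⟨c, rfl⟩ := isConj_iff.1 hy'
      have := hx1 ((conj c)⁻¹ * α * conj c) (by simp [hα])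
      change (conj c)⁻¹ (α (c * x * c⁻¹)) = x at this
      change α (c * x * c⁻¹) = conj c x
      rw [← this, MulAut.apply_inv_self, this]
    rcases (normalClosure_normal (s := {x})).eq_bot_or_eq_top with h2 | h2
    · have : x = 1 := mem_bot.1 (h2 ▸ subset_normalClosure rfl)
      rw [this, orderOf_one] at hx
      omega
    · ext y
      exact h1 (h2 ▸ mem_top y)
  · obtain ⟨b, a, h1, -⟩ := haff α hα
    exact ⟨b, a, h1⟩
  · obtain ⟨g, hg⟩ := MulAction.exists_smul_eq L (e ∞) (e y)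
    exact ⟨g, (hφ _ _ _).2 hg⟩

lemma two_ne [Fact p.Prime] (h : 5 ≤ p) : (2 : ZMod p) ≠ 0 := fun e =>
  absurd (Nat.le_of_dvd two_pos ((ZMod.natCast_eq_zero_iff 2 p).1 e)) (by omega)

theorem model [Fact p.Prime] (h : Pack L p k m) {x : L} (hx : orderOf x = p) :
    ∃ φ : MulAut L →* Equiv.Perm (OnePoint (ZMod p)), Function.Injective φ ∧
      (φ.comp conj).range = (sig (ZMod p)).range ∧ φ (conj x) = T 1 ∧
      φ.range ≤ (rho (ZMod p)).range := by
  obtain ⟨φ, hφ, hT, hx1, haff, htr⟩ := model0 h hx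
  have hp := h.prime
  have h5 := h.five
  have h2 := two_ne h5
  set π := φ.comp conj with hπ_def
  have hπ : Function.Injective π := hφ.comp (conj_inj h)
  replace hT : ∀ b, T b ∈ π.range := hT
  have haff' : ∀ g ∈ π.range, g ∞ = ∞ → ∃ b a, g = T b * Mu a := by
    rintro _ ⟨l, rfl⟩ hg
    exact haff _ hg
  set D := π.range.comap Mu
  have hD : Nat.card D * (p + 1) = 2 * k * m := by
    have h1 := card_eq hT haff' fun y => (htr y).elim fun l e => ⟨_, ⟨l, rfl⟩, e⟩
    rw [← Nat.card_congr (π.ofInjective hπ).toEquiv, h.card, Nat.card_zmod,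
      show Nat.card (OnePoint (ZMod p)) = p + 1 by simp [OnePoint, Nat.card_eq_fintype_card]] at h1
    apply Nat.eq_of_mul_eq_mul_left hp.pos
    linarith
  have hD' : (p = 2 * k + 1 ∧ m = k + 1 ∧ Nat.card D = k) ∨
      (p + 1 = 2 * k ∧ m + 1 = k ∧ Nat.card D = m) := by
    refine h.par.imp (fun a => ⟨a.1, a.2, ?_⟩) fun a => ⟨a.1, a.2, ?_⟩ <;>
      apply Nat.eq_of_mul_eq_mul_right p.succ_pos <;> rw [hD]
    · rw [a.1, a.2]; simp; ring
    · rw [← a.1, mul_comm]
  have hi : D.index = 2 := by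
    have h1 := D.card_mul_index
    rw [Nat.card_units, Nat.card_zmod] at h1
    apply Nat.eq_of_mul_eq_mul_left (Nat.card_pos (α := D))
    omega
  have hM : ∀ a : (ZMod p)ˣ, Mu a ∈ π.range ↔ IsSquare (a : ZMod p) := by
    have h1 : ∀ a : (ZMod p)ˣ, IsSquare (a : ZMod p) → a ∈ D := by
      rintro a ⟨s, hs⟩
      have s0 : s ≠ 0 := by rintro rfl; simp at hs
      rw [show a = Units.mk0 s s0 ^ 2 from Units.ext (by simp [hs, sq])]
      exact sq_mem_of_index_two hi _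
    refine fun a => ⟨fun ha => by_contra fun hn => ?_, h1 a⟩
    have : D = ⊤ := eq_top_iff.2 fun b _ => by
      by_cases hb : IsSquare (b : ZMod p)
      · exact h1 b hb
      · exact (D.mul_mem_cancel_left ha).1 (h1 _ (isSquare_mul hn hb))
    simp [this] at hi
  set K := Mu.range.comap π
  have hK : Nat.card K = Nat.card D := by
    rw [← card_map_of_injective hπ, ← card_map_of_injective (K := D) Mu_inj, map_comap_eq,
      map_comap_eq, inf_comm]
  have Kc : ∀ y ∈ K, ∀ z ∈ K, y * z = z * y := by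
    rintro y ⟨a, ha⟩ z ⟨b, hb⟩
    apply hπ
    rw [map_mul, map_mul, ← ha, ← hb, ← map_mul, ← map_mul, mul_comm]
  obtain ⟨τ, t0, t1⟩ : ∃ τ, π τ ∞ = (0 : ZMod p) ∧ π τ (0 : ZMod p) = ∞ := by
    obtain ⟨g, hg⟩ := htr (0 : ZMod p)
    cases e : (π g)⁻¹ ∞ with
    | infty =>
      rw [Equiv.Perm.inv_eq_iff_eq] at e
      exact absurd (e.trans hg) (by simp)
    | coe c =>
      obtain ⟨l, hl⟩ := hT c
      rw [Equiv.Perm.inv_eq_iff_eq] at e
      exact ⟨g * l, by rw [map_mul, hl, Equiv.Perm.mul_apply, T_infty]; exact hg,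
         by simpa [hl] using e.symm⟩
  have tK : τ ∉ K := by
    rintro ⟨a, ha⟩
    simp [← ha] at t0
  have tn : ∀ y ∈ K, τ * y * τ⁻¹ ∈ K := by
    rintro y ⟨a, ha⟩
    have e0 : (π τ)⁻¹ ∞ = (0 : ZMod p) := by rw [Equiv.Perm.inv_eq_iff_eq, t1]
    have e1 : (π τ)⁻¹ (0 : ZMod p) = ∞ := by rw [Equiv.Perm.inv_eq_iff_eq, t0]
    obtain ⟨b, c, e⟩ := haff' _ ⟨τ * y * τ⁻¹, rfl⟩ (by
      simp only [map_mul, map_inv, Equiv.Perm.mul_apply, e0, ← ha, Mu_coe, mul_zero, t1])
    have e2 := DFunLike.congr_fun e ((0 : ZMod p) : OnePoint (ZMod p))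
    simp only [map_mul, map_inv, Equiv.Perm.mul_apply, e1, ← ha, Mu_infty, t0, Mu_coe, mul_zero,
      T_coe, zero_add, coe_eq_coe] at e2
    exact ⟨c, by rw [e, ← e2, T_zero, one_mul]⟩
  have Ki : ∀ y ∈ K, y * y = 1 → y = 1 ∨ π y = Mu (-1) := by
    rintro y ⟨a, ha⟩ hy
    have : a * a = 1 := Mu_inj (by rw [map_mul, ha, ← map_mul, hy, map_one, map_one])
    rcases mul_self_eq_one_iff.1 (congrArg Units.val this) with e | e
    · exact Or.inl (hπ (by rw [← ha, Units.val_eq_one.1 e, map_one, map_one]))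
    · exact Or.inr (by rw [← ha, show a = -1 from Units.ext e])
  have key : τ * τ = 1 ∧ ∀ y ∈ K, τ * y * τ⁻¹ = y⁻¹ := by
    rcases hD' with ⟨a1, a2, a3⟩ | ⟨a1, a2, a3⟩
    · obtain ⟨⟨t, ht⟩, ht2⟩ := exists_prime_orderOf_dvd_card' (G := K) 2 (by rw [hK, a3]; exact h.even)
      rw [orderOf_mk] at ht2
      have tt : t * t = 1 := by rw [← sq, ← ht2, pow_orderOf_eq_one]
      have t1 : t ≠ 1 := by rintro rfl; simp at ht2
      have Ki' : ∀ y ∈ K, y * y = 1 → y = 1 ∨ y = t := fun y hy e =>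
        (Ki y hy e).imp id fun e' => hπ (e'.trans ((Ki t ht tt).resolve_left t1).symm)
      obtain ⟨-, K', c1, c2, -, -, c3, -⟩ := h.cent t ht2
      have e : K = K' := eq_of_le_of_card_ge (fun u hu => by_contra fun hu' => by
        rcases Ki' u hu (c3 u (Kc u hu t ht) hu').1 with rfl | rfl
        exacts [hu' K'.one_mem, hu' c2]) (by rw [c1, hK, a3])
      refine e ▸ c3 τ ?_ (e ▸ tK)
      rw [← mul_inv_eq_iff_eq_mul]
      refine (Ki' _ (tn t ht) (by rw [_root_.conj_mul, tt]; simp)).resolve_left (by simpa using t1)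
    · have : Nontrivial K := by rw [← Finite.one_lt_card_iff_nontrivial, hK, a3]; omega
      obtain ⟨⟨y, hy⟩, hy1⟩ := exists_ne (1 : K)
      obtain ⟨A, c1, c0, c2, c3, u, c4, c5, c6⟩ := h.torus y (fun e => hy1 (Subtype.ext e))
        (Nat.Coprime.of_dvd_left (hK.trans a3 ▸ K.orderOf_dvd_natCard hy) (by
          rw [← a2, show p = 1 + m * 2 by omega]; simp [Nat.coprime_mul_iff_right]))
      have e : K = A := eq_of_le_of_card_ge (fun g hg => c3 y c0 (fun e => hy1 (Subtype.ext e)) g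
        (Kc g hg y hy)) (by rw [c1, hK, a3])
      have hu := (c6 τ (e ▸ tn)).resolve_left (e ▸ tK)
      have ui : u⁻¹ = u := inv_eq_of_mul_eq_one_right c4
      obtain ⟨a, rfl⟩ : ∃ a, τ = a * u := ⟨τ * u, by rw [mul_assoc, c4, mul_one]⟩
      rw [mul_assoc, c4, mul_one] at hu
      refine ⟨?_, fun z hz => ?_⟩
      · have := c5 a hu
        rw [ui] at this
        rw [mul_assoc, ← mul_assoc u, this, mul_inv_cancel]
      rw [e] at hz
      calc _ = a * (u * z * u⁻¹) * a⁻¹ := by group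
        _ = z⁻¹ := by rw [c5 z hz, c2 a hu _ (inv_mem hz), mul_inv_cancel_right]
  have hJ : J (ZMod p) ∈ π.range := by
    refine J_mem h2 hT hM haff' ⟨τ, rfl⟩ t0 (by rw [← map_mul, key.1, map_one])
      (fun a ha => ?_) fun hm => ?_
    · obtain ⟨y, hy⟩ := (hM a).2 ha
      rw [map_inv, ← hy, ← map_inv, ← key.2 y ⟨a, hy.symm⟩]
      simp
    · obtain ⟨t, ht⟩ := (hM (-1)).2 (by simpa using hm)
      have e1 : orderOf t = 2 := by
        rw [← orderOf_injective π hπ, ht, orderOf_injective Mu Mu_inj]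
        exact orderOf_eq_prime (by simp) fun e => h2 (by
          have := congrArg Units.val e
          simp only [Units.val_neg, Units.val_one] at this
          linear_combination -this)
      obtain ⟨c, hc⟩ := isConj_iff.1 (h.conj t τ e1 (orderOf_eq_prime (by rw [sq, key.1])
        fun e => tK (e ▸ K.one_mem)))
      exact ⟨π c ∞, by simp [← hc, ht]⟩
  have hTs : ∀ b : ZMod p, T b ∈ (sig _).range := fun b => ⟨_, sig_tr b⟩
  have hJs : J (ZMod p) ∈ (sig _).range := ⟨_, sig_jj⟩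
  have hle : π.range ≤ φ.range := fun _ ⟨_, e⟩ => ⟨_, e⟩
  refine ⟨φ, hφ, le_antisymm (bruhat (fun b => ⟨hT b, hTs b⟩) ⟨hJ, hJs⟩ fun g hg e => ?_)
    (bruhat (fun b => ⟨hTs b, hT b⟩) ⟨hJs, hJ⟩ fun g hg e => ?_), hx1,
    bruhat (fun b => ⟨hle (hT b), sig_le (hTs b)⟩) ⟨hle hJ, sig_le hJs⟩ ?_⟩
  · obtain ⟨b, a, rfl⟩ := haff' g hg e
    exact mul_mem (hTs b) (Mu_mem.2 ((hM a).1 ((mul_mem_cancel_left (hT b)).1 hg)))
  · obtain ⟨A, rfl⟩ := hg
    obtain ⟨b, a, e'⟩ := rho_aff e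
    have hg : T b * Mu a ∈ (sig _).range := ⟨A, e'⟩
    exact e' ▸ mul_mem (hT b) ((hM a).2 (Mu_mem.1 ((mul_mem_cancel_left (hTs b)).1 hg)))
  · rintro _ ⟨α, rfl⟩ e
    obtain ⟨b, a, e'⟩ := haff α e
    exact e' ▸ mul_mem (sig_le (hTs b)) ⟨_, rho_dg a⟩

variable {G : Type} [Group G] [Finite G]

theorem modelG [Fact p.Prime] {L : Subgroup G} [L.Normal] (h : Pack L p k m) {x : L}
    (hx : orderOf x = p) : ∃ Φ : G →* Equiv.Perm (OnePoint (ZMod p)),
      L.map Φ = (sig (ZMod p)).range ∧ Φ x = T 1 ∧ Φ.range ≤ (rho (ZMod p)).range ∧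
      (∀ l ∈ L, Φ l = 1 → l = 1) ∧
      ∀ g, g ∈ L ⊔ centralizer (L : Set G) ↔ Φ g ∈ (sig (ZMod p)).range := by
  obtain ⟨φ, hφ, h1, h2, h3⟩ := model h hx
  have hk : ∀ g, φ (conjNormal g) = 1 ↔ g ∈ centralizer (L : Set G) := fun g => by
    rw [map_eq_one_iff _ hφ, (isCj_conjNormal L g).eq_one_iff, mem_centralizer_iff]
    exact forall₂_congr fun _ _ => eq_comm
  have hL : L.map (φ.comp conjNormal) = (sig (ZMod p)).range := by
    rw [← h1]
    ext y
    constructor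
    · rintro ⟨l, hl, rfl⟩
      exact ⟨⟨l, hl⟩, congrArg φ (conjNormal_val (h := ⟨l, hl⟩)).symm⟩
    · rintro ⟨l, rfl⟩
      exact ⟨l, l.2, congrArg φ conjNormal_val⟩
  refine ⟨φ.comp conjNormal, hL, (congrArg φ conjNormal_val).trans h2,
    fun _ ⟨_, e⟩ => h3 ⟨_, e⟩, fun l hl e => ?_, fun g => ⟨fun hg => ?_, fun hg => ?_⟩⟩
  · have : φ (conj (⟨l, hl⟩ : L)) = 1 := (congrArg φ conjNormal_val).symm.trans e
    exact congrArg Subtype.val
      ((map_eq_one_iff _ (conj_inj h)).1 ((map_eq_one_iff _ hφ).1 this))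
  · refine (sup_le (map_le_iff_le_comap.1 hL.le) fun c hc => ?_ :
      _ ≤ (sig (ZMod p)).range.comap (φ.comp conjNormal)) hg
    rw [mem_comap, MonoidHom.comp_apply, (hk c).2 hc]
    exact one_mem _
  · obtain ⟨l, hl, e⟩ := hL.ge hg
    rw [← mul_inv_cancel_left l g]
    refine mul_mem_sup hl ((hk _).1 ?_)
    rw [← MonoidHom.comp_apply, map_mul, map_inv, e, inv_mul_cancel]

end M

open M

variable {G : Type} [Group G] [Finite G]

theorem Pack.index_dvd_two {L : Subgroup G} [L.Normal] {p k m : ℕ} (h : Pack L p k m) :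
    (L ⊔ centralizer (L : Set G)).index ∣ 2 := by
  have := Fact.mk h.prime
  obtain ⟨x, hx⟩ := exists_p h
  obtain ⟨Φ, -, -, h3, -, h5⟩ := modelG h hx
  by_cases e : L ⊔ centralizer (L : Set G) = ⊤
  · simp [e]
  obtain ⟨a, -, ha⟩ := SetLike.exists_of_lt (lt_top_iff_ne_top.2 e)
  refine (index_eq_two_iff_exists_notMem_and.2 ⟨a, ha, fun b => ?_⟩).dvd
  rw [or_iff_not_imp_right]
  intro hb
  obtain ⟨A, hA⟩ := h3 ⟨a, rfl⟩
  obtain ⟨B, hB⟩ := h3 ⟨b, rfl⟩
  rw [h5, ← hA, mem_sig] at ha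
  rw [h5, ← hB, mem_sig] at hb
  rw [h5, map_mul, ← hA, ← hB, ← map_mul, mem_sig, Units.val_mul, det_mul]
  exact isSquare_mul hb ha

theorem Pack.outer {L : Subgroup G} [L.Normal] {p k m : ℕ} (h : Pack L p k m) {b t l : G}
    (hb : b ∉ L ⊔ centralizer (L : Set G)) (hbb : b * b = 1) (ht : t ∈ L) (ht2 : orderOf t = 2)
    (hl : l ∈ L) (hl2 : ¬ 2 ∣ orderOf l) (h1 : l * t = t * l) (_h2 : b * t = t * b)
    (h3 : b * l = l * b) : l = 1 := by
  have := Fact.mk h.prime
  obtain ⟨x, hx⟩ := exists_p h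
  obtain ⟨Φ, -, -, k3, k4, k5⟩ := modelG h hx
  obtain ⟨A, hA⟩ := k3 ⟨l, rfl⟩
  obtain ⟨B, hB⟩ := k3 ⟨b, rfl⟩
  obtain ⟨C, hC⟩ := k3 ⟨t, rfl⟩
  refine k4 l hl ?_
  rw [← hA, rho_eq_one]
  by_contra! hn
  have ho : Odd (orderOf l) := Nat.odd_iff.2 (by omega)
  have hN : rho _ A ^ orderOf l = 1 := by rw [hA, ← map_pow, pow_orderOf_eq_one, map_one]
  have key : ∀ (g : G) (X : GL (Fin 2) (ZMod p)), rho _ X = Φ g → g * g = 1 → Φ g ≠ 1 →
      l * g = g * l → ∃ y : ZMod p, X.val.det = y * y * (A.val.det - A.val.trace ^ 2 / 4) := by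
    intro g X hX gg g1 hg
    obtain ⟨c, hc⟩ := rho_eq_one.1 (show rho _ (X * X) = 1 by rw [map_mul, hX, ← map_mul, gg, map_one])
    have t0 := trace_zero hc fun c e => g1 (hX ▸ rho_eq_one.2 ⟨c, e⟩)
    obtain ⟨u, y, e⟩ := comm_span (congrArg Units.val (comm_of_odd ho hN (B := X)
      (by rw [hA, hX, ← map_mul, hg, map_mul]))) hn
    refine ⟨y, ?_⟩
    have h2 := two_ne h.five
    have h4 : (4 : ZMod p) ≠ 0 := by rw [← two_add_two_eq_four, ← two_mul]; exact mul_ne_zero h2 h2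
    rw [e] at t0 ⊢
    simp [trace_fin_two, det_fin_two] at t0 ⊢
    field_simp
    linear_combination (u + y * A 0 0 + (u + y * A 1 1)) * t0
  obtain ⟨y, hy⟩ := key b B hB hbb (fun e => hb ((k5 b).2 (e ▸ one_mem _))) h3.symm
  obtain ⟨z, hz⟩ := key t C hC (by rw [← sq, ← ht2, pow_orderOf_eq_one])
    (fun e => by simp [k4 t ht e] at ht2) h1
  have hs := (k5 t).1 (mem_sup_left ht)
  rw [← hC, mem_sig] at hs
  have z0 : z ≠ 0 := by
    rintro rfl
    exact C.det_ne_zero (by simp [hz])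
  refine hb ((k5 b).2 ?_)
  rw [← hB, mem_sig, show B.val.det = (y / z) ^ 2 * C.val.det by
    rw [hy, hz]; field_simp]
  exact (IsSquare.sq _).mul hs

theorem Pack.mem_of_comm {L : Subgroup G} [L.Normal] {p k m : ℕ} (h : Pack L p k m) {x g : G}
    (hx : x ∈ L) (hp : orderOf x = p) (hg : g * x = x * g) :
    g ∈ L ⊔ centralizer (L : Set G) := by
  have := Fact.mk h.prime
  obtain ⟨Φ, -, k2, k3, -, k5⟩ := modelG h (x := ⟨x, hx⟩) (by rwa [orderOf_mk])
  obtain ⟨A, hA⟩ := k3 ⟨g, rfl⟩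
  have e : rho _ A * T 1 = T 1 * rho _ A := by rw [hA, ← k2, ← map_mul, hg, map_mul]
  have e1 := DFunLike.congr_fun e ∞
  rw [Equiv.Perm.mul_apply, Equiv.Perm.mul_apply, T_infty] at e1
  obtain ⟨b, a, e2⟩ := rho_aff (A := A) (by
    cases e3 : rho _ A ∞ with
    | infty => rfl
    | coe c => simp [e3] at e1)
  have e3 := DFunLike.congr_fun e ((0 : ZMod p) : OnePoint (ZMod p))
  simp [e2, add_comm b] at e3
  rw [k5, ← hA, e2, e3, map_one, mul_one]
  exact ⟨_, sig_tr b⟩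

end Pool.Agent.Lib.MP_cb9dee_al
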