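import Pool.Agent.Lib.MP_cb9dee_al.CDefs
import Pool.Agent.Lib.MP_cb9dee_al.MModel
import Pool.Agent.Lib.MP_cb9dee_al.JOne

set_option linter.unusedSectionVars false

namespace Pool.Agent.Lib.MP_cb9dee_al

open Subgroup

variable {G : Type} [Group G]

/-- A simple group with a dihedral Sylow `2`-subgroup `S` and a central involution `t` of `S`. -/
structure Pre (t : G) (S : Subgroup G) : Prop where
  simple : IsSimpleGroup G
  full : Full (Nat.card G)
  ih : IH G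
  ord : orderOf t = 2
  tS : t ∈ S
  cS : ∀ x ∈ S, x * t = t * x
  odd : ¬ 2 ∣ S.index
  card : Nat.card S = 4 ∨ (Nat.card S = 8 ∧ ∃ a ∈ S, a * a = t)
  four : ∃ s ∈ S, s * s = 1 ∧ s ≠ 1 ∧ s ≠ t

/-- Type `V` for a subgroup. -/
structure VD (H L : Subgroup G) (p k m : ℕ) : Prop where
  le : L ≤ H
  nm : Nm H L
  pack : Pack L p k m
  dec : ∀ g ∈ H, ¬ 2 ∣ orderOf g ∨ ¬ 2 ∣ L.relIndex H →
    ∃ l ∈ L, ∃ z, (∀ x ∈ L, z * x = x * z) ∧ g = l * z
  outer : ∀ b ∈ H, ∀ t ∈ L, ∀ l ∈ L, b * b = 1 →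
    (¬ ∃ l ∈ L, ∃ z, (∀ x ∈ L, z * x = x * z) ∧ b = l * z) → orderOf t = 2 → ¬ 2 ∣ orderOf l →
    l * t = t * l → b * t = t * b → b * l = l * b → l = 1

variable [Finite G]

lemma vd_of {H : Subgroup G} {p : ℕ} (h : TyV H p) : ∃ L k m, VD H L p k m := by
  obtain ⟨L, k, m, hL, h⟩ := h
  have key : ∀ g : H, g ∈ L ⊔ centralizer (L : Set H) ↔ ∃ l ∈ L.map H.subtype, ∃ z,
      (∀ x ∈ L.map H.subtype, z * x = x * z) ∧ (g : G) = l * z := fun g => by
    rw [mem_sup_of_normal_left]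
    constructor
    · rintro ⟨l, hl, z, hz, rfl⟩
      refine ⟨l, ⟨l, hl, rfl⟩, z, ?_, rfl⟩
      rintro _ ⟨x, hx, rfl⟩
      exact congrArg Subtype.val (hz x hx).symm
    · rintro ⟨_, ⟨l, hl, rfl⟩, z, hz, e⟩
      have e' : z = ((l⁻¹ * g : H) : G) := by simp [e]
      exact ⟨l, hl, l⁻¹ * g, fun x hx => Subtype.ext
        (by simpa [e'] using (hz x ⟨x, hx, rfl⟩).symm), by simp⟩
  refine ⟨L.map H.subtype, k, m, map_subtype_le _, J.nm_map L hL,
    h.congr (L.equivMapOfInjective _ H.subtype_injective), fun g hg h1 => (key ⟨g, hg⟩).1 ?_, ?_⟩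
  · rcases h1 with h1 | h1
    · exact mem_of_pow_eq_one (d := orderOf g) (((Nat.prime_two.coprime_iff_not_dvd).2 h1
        ).symm.coprime_dvd_right h.index_dvd_two) (Subtype.ext (pow_orderOf_eq_one g))
    · rw [J.rel_map] at h1
      rw [index_eq_one.1 (Nat.eq_one_of_dvd_coprimes ((Nat.prime_two.coprime_iff_not_dvd).2 h1)
        h.index_dvd_two (index_dvd_of_le le_sup_left))]
      exact mem_top _
  · rintro b hb _ ⟨t, ht, rfl⟩ _ ⟨l, hl, rfl⟩ h1 h2 h3 h4 h5 h6 h7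
    exact congrArg Subtype.val (h.outer (b := ⟨b, hb⟩) (fun e => h2 ((key _).1 e))
      (Subtype.ext h1) ht (by rwa [← Subgroup.orderOf_coe]) hl (by rwa [← Subgroup.orderOf_coe])
      (Subtype.ext h5) (Subtype.ext h6) (Subtype.ext h7))

lemma four_mem {B : Subgroup G} (h4 : Nat.card B = 4) (h2 : ∀ x ∈ B, x * x = 1) {t s : G}
    (ht : t ∈ B) (hs : s ∈ B) (t1 : t ≠ 1) (s1 : s ≠ 1) (hst : s ≠ t) {y : G} (hy : y ∈ B) :
    y = 1 ∨ y = t ∨ y = s ∨ y = t * s := by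
  have a1 : t * s ≠ 1 := fun e => hst (by
    rw [← inv_eq_of_mul_eq_one_right e, inv_eq_of_mul_eq_one_right (h2 t ht)])
  have h : ({1, t, s, t * s} : Set G) = B := Set.eq_of_subset_of_ncard_le (by
    rintro x (rfl | rfl | rfl | rfl)
    exacts [B.one_mem, ht, hs, mul_mem ht hs]) (by
    rw [Set.ncard_insert_of_notMem (by simp [t1.symm, s1.symm, a1.symm]),
      Set.ncard_insert_of_notMem (by simp [hst.symm, s1]), Set.ncard_pair (by simp [t1])]
    exact h4.le)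
  have : y ∈ ({1, t, s, t * s} : Set G) := h ▸ hy
  simpa using this

lemma Pack.four_dvd {L : Type} [Group L] {p k m : ℕ} (h : Pack L p k m) : 4 ∣ Nat.card L := by
  obtain ⟨j, rfl⟩ := h.even
  exact ⟨j * p * m, by rw [h.card]; ring⟩

lemma Pack.not_central {L : Subgroup G} {p k m : ℕ} (h : Pack L p k m) {z : G} (hz : z ∈ L)
    (hc : ∀ x ∈ L, z * x = x * z) : z = 1 := by
  have := h.simple
  by_contra e
  exact cent_ne_top h.four_dvd (z := (⟨z, hz⟩ : L)) (fun e' => e (congrArg Subtype.val e'))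
    (eq_top_iff.2 fun x _ => mem_centralizer_singleton_iff.2 (Subtype.ext (hc x x.2).symm))

namespace Pre

variable {t : G} {S : Subgroup G} (h : Pre t S)
include h

lemma tt : t * t = 1 := mul_self_of_two h.ord

lemma t1 : t ≠ 1 := ne_one_of_two h.ord

lemma pow : ∃ a, Nat.card S = 2 ^ a := h.card.elim (fun e => ⟨2, e⟩) fun e => ⟨3, e.1⟩

lemma h4 : 4 ∣ Nat.card G :=
  (h.card.elim (fun e => e.symm.dvd) fun e => by rw [e.1]; norm_num).trans
    (card_subgroup_dvd_card S)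

lemma rel {H : Subgroup G} (hS : S ≤ H) : ¬ 2 ∣ S.relIndex H :=
  fun e => h.odd (e.trans (relIndex_dvd_index_of_le hS))

lemma tmem {H N : Subgroup G} (hS : S ≤ H) (hN : N ≤ H) (hn : Nm H N) (h4 : 4 ∣ Nat.card N) :
    t ∈ N := by
  have h1 := (J.card_mul_rel hN).trans (J.card_mul_rel hS).symm
  have h2 := h.rel hS
  obtain ⟨c, hc⟩ := h4
  by_cases h3 : 2 ∣ N.relIndex H
  · obtain ⟨e, he⟩ := h3
    rw [hc, he] at h1
    rcases h.card with e4 | ⟨e8, a, ha, haa⟩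
    · exact absurd ⟨c * e, by rw [e4] at h1; linarith⟩ h2
    · have h5 := J.pow_rel_mem hN hn (hS ha)
      obtain ⟨j, rfl⟩ : Odd e := Nat.not_even_iff_odd.1 fun ⟨j, hj⟩ =>
        h2 ⟨c * j, by rw [e8, hj] at h1; linarith⟩
      rwa [he, pow_mul, pow_two, haa, pow_succ, pow_mul, pow_two, h.tt, one_pow, one_mul] at h5
  · exact J.mem_of_nm hN hn (hS h.tS) ((Nat.prime_two.coprime_iff_not_dvd).2 h3)
      (by rw [pow_two, h.tt])

lemma types {H : Subgroup G} (hH : H ≠ ⊤) (hS : S ≤ H) :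
    TyI H ∨ (∃ B ≤ H, Nm H B ∧ Nat.card B = 4 ∧ (∀ x ∈ B, x * x = 1) ∧ t ∈ B ∧
      ∃ g ∈ H, ¬ 2 ∣ orderOf g ∧ ∃ x ∈ B, g * x ≠ x * g) ∨ ∃ L p k m, VD H L p k m ∧ t ∈ L := by
  obtain ⟨s, hs, s2, s1, st⟩ := h.four
  have hnf : ¬ NoFour H := fun e => by
    rcases e ⟨s, hS hs⟩ ⟨t, hS h.tS⟩ (Subtype.ext s2) (Subtype.ext h.tt)
      (Subtype.ext (h.cS s hs)) with e | e | e
    · exact s1 (congrArg Subtype.val e)
    · exact h.t1 (congrArg Subtype.val e)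
    · exact st (congrArg Subtype.val e)
  rcases h.ih.sub hH with e | e | e | e | e | ⟨p, e⟩ | ⟨p, e⟩ | ⟨p, e⟩
  · exact Or.inl e
  · obtain ⟨B, h1, h2, h3, g, h4, x, h5, h6⟩ := e
    have h7 : Nat.card (B.map H.subtype) = 4 := by rwa [card_subtype]
    refine Or.inr (Or.inl ⟨_, map_subtype_le _, J.nm_map B h1, h7, ?_,
      h.tmem hS (map_subtype_le _) (J.nm_map B h1) h7.symm.dvd, g, g.2,
      by rwa [orderOf_coe], x, ⟨x, h5, rfl⟩, fun h => h6 (Subtype.ext h)⟩)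
    rintro _ ⟨y, hy, rfl⟩
    exact congrArg Subtype.val (h3 y hy)
  · exact (hnf e.1).elim
  · exact (hnf e.1).elim
  · exfalso
    obtain ⟨B, h1, h2, h3, -⟩ := e
    have h4 := B.card_mul_index.trans (J.card_mul_rel hS).symm
    have h5 := h.rel hS
    rcases h.card with e4 | ⟨e8, a, ha, haa⟩
    · rw [h2, e4] at h4; omega
    · have h6 : (⟨a, hS ha⟩ : H) ∈ B := mem_of_pow_eq_one (d := 2 ^ 2)
        (((Nat.prime_two.coprime_iff_not_dvd).2 (by rw [h2, e8] at h4; omega)).pow_left 2)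
        (Subtype.ext (by
          change a ^ (2 * 2) = 1
          rw [pow_mul, pow_two, pow_two, haa, h.tt]))
      exact h.t1 (haa.symm.trans (congrArg Subtype.val (h3 _ h6)))
  · obtain ⟨L, k, m, hL⟩ := vd_of e
    exact Or.inr (Or.inr ⟨L, p, k, m, hL, h.tmem hS hL.le hL.nm hL.pack.four_dvd⟩)
  · exact (hnf e.1).elim
  · exact (hnf e.1).elim

lemma le_cent : S ≤ centralizer ({t} : Set G) := fun x hx =>
  mem_centralizer_singleton_iff.2 (h.cS x hx)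

lemma tyI : TyI (centralizer ({t} : Set G)) := by
  have := h.simple
  rcases h.types (cent_ne_top h.h4 h.t1) h.le_cent with e | ⟨B, -, h1, h2, h3, h4, g, hg, h5, x,
    hx, h6⟩ | ⟨L, p, k, m, hL, h1⟩
  · exact e
  · exfalso
    have gt := mem_centralizer_singleton_iff.1 hg
    have x1 : x ≠ 1 := fun e => h6 (by simp [e])
    have xt : x ≠ t := fun e => h6 (e ▸ gt)
    have gt' : g * t * g⁻¹ = t := mul_inv_eq_iff_eq_mul.2 gt
    rcases four_mem h2 h3 h4 hx h.t1 x1 xt (h1 g hg x hx) with e | e | e | e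
    · exact x1 (conj_eq_one_iff.1 e)
    · exact xt ((MulAut.conj g).injective (e.trans gt'.symm))
    · exact h6 (mul_inv_eq_iff_eq_mul.1 e)
    · have e2 : g * (t * x) * g⁻¹ = x := by
        rw [← conj_mul, gt', e, ← mul_assoc, h.tt, one_mul]
      have := J.odd_pow_conj e e2 h5
      rw [pow_orderOf_eq_one] at this
      exact h.t1 (by simpa using this.symm)
  · exact absurd (hL.pack.not_central h1 fun x hx =>
      (mem_centralizer_singleton_iff.1 (hL.le hx)).symm) h.t1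

end Pre

/-- The centralizer of `t` is the semidirect product of `U` and `S`. -/
structure Dih (t : G) (S U : Subgroup G) : Prop extends Pre t S where
  conj : ∀ s : G, orderOf s = 2 → IsConj s t
  memU : ∀ x, x ∈ U ↔ x * t = t * x ∧ ¬ 2 ∣ orderOf x
  dec : ∀ c, c * t = t * c → ∃ u ∈ U, ∃ σ ∈ S, c = u * σ
  cardC : Nat.card (centralizer ({t} : Set G)) = Nat.card U * Nat.card S

lemma Pre.dih {t : G} {S : Subgroup G} (h : Pre t S) (hc : ∀ s : G, orderOf s = 2 → IsConj s t) :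
    ∃ U, Dih t S U := by
  obtain ⟨a, ha⟩ := h.pow
  obtain ⟨U, h1, -, h3, h4, h5, h6⟩ := tyI_dec _ S h.le_cent ha h.odd h.tyI
  exact ⟨U, h, hc, fun x => ⟨fun hx => ⟨mem_centralizer_singleton_iff.1 (h1 hx), odd_orderOf h3 hx⟩,
    fun hx => h5 x (mem_centralizer_singleton_iff.2 hx.1) hx.2⟩,
    fun c hc => h4 c (mem_centralizer_singleton_iff.2 hc), h6⟩

lemma conj_comm {c t x : G} (hc : c * t = t * c) (hx : x * t = t * x) :
    c * x * c⁻¹ * t = t * (c * x * c⁻¹) :=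
  (((show Commute c t from hc).mul_left hx).mul_left (Commute.inv_left hc)).eq

/-- `w` permutes the involutions `t`, `s`, `t s` cyclically. -/
def Cyc (t s w : G) : Prop := w * t * w⁻¹ = s ∧ w * s * w⁻¹ = t * s

namespace Dih

variable {t : G} {S U : Subgroup G} (h : Dih t S U)
include h

lemma ut {u : G} (hu : u ∈ U) : u * t = t * u := ((h.memU u).1 hu).1

lemma uo {u : G} (hu : u ∈ U) : ¬ 2 ∣ orderOf u := ((h.memU u).1 hu).2

lemma nmU {c u : G} (hc : c * t = t * c) (hu : u ∈ U) : c * u * c⁻¹ ∈ U :=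
  (h.memU _).2 ⟨conj_comm hc (h.ut hu), by rw [orderOf_conj']; exact h.uo hu⟩

lemma oddU : ¬ 2 ∣ Nat.card U := fun e => by
  obtain ⟨z, hz, h2⟩ := exists_invol e
  exact h.uo hz h2.symm.dvd

lemma US {x : G} (hu : x ∈ U) (hs : x ∈ S) : x = 1 := by
  obtain ⟨a, ha⟩ := h.pow
  exact eq_one_of_two_odd (ha ▸ Subgroup.orderOf_dvd_natCard _ hs) (h.uo hu)

lemma sq_one {x : G} (hu : x ∈ U) (hx : x * x = 1) : x = 1 := J.eq_one_of_odd h.oddU hu hx

lemma U_le : U ≤ centralizer ({t} : Set G) := fun _ hx =>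
  mem_centralizer_singleton_iff.2 (h.ut hx)

/-- An involution of the centralizer is conjugate into `S`. -/
lemma inv_conj {v : G} (hv : v * v = 1) (hvt : v * t = t * v) : ∃ u ∈ U, u * v * u⁻¹ ∈ S := by
  have := Fact.mk Nat.prime_two
  obtain ⟨a, ha⟩ := h.pow
  obtain ⟨c, hc, h1⟩ := J.sylow_conj (J.isP_zp (w := v) (q := 2) (by rwa [pow_two]))
    (IsPGroup.of_card ha) (X := centralizer {t})
    ((zpowers_le).2 (mem_centralizer_singleton_iff.2 hvt)) (h.rel h.le_cent)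
  obtain ⟨u, hu, σ, hσ, e⟩ := h.dec c⁻¹ (mem_centralizer_singleton_iff.1 (inv_mem hc))
  refine ⟨u⁻¹, inv_mem hu, ?_⟩
  have h2 := mul_mem (mul_mem hσ (h1 v (mem_zpowers v))) (inv_mem hσ)
  rw [← inv_inv c, e] at h2
  simpa [mul_assoc] using h2

lemma no_cent {L : Subgroup G} {p k m : ℕ} (hL : Pack L p k m) {z : G}
    (hc : ∀ x ∈ L, z * x = x * z) : ¬ 2 ∣ orderOf z := fun e => by
  obtain ⟨v, hv, hv2⟩ := exists_invol (H := zpowers z) (by rwa [Nat.card_zpowers])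
  obtain ⟨g, hg⟩ := isConj_iff.1 (h.conj v hv2)
  have h1 : ∀ x ∈ L, g * x * g⁻¹ * t = t * (g * x * g⁻¹) := fun x hx => by
    obtain ⟨j, rfl⟩ := mem_zpowers_iff.1 hv
    rw [← hg, J.conj_comm_iff]
    exact (Commute.zpow_left (hc x hx) j).eq.symm
  let φ : L →* G := (MulAut.conj g).toMonoidHom.comp L.subtype
  have hn : (U.comap φ).Normal := ⟨fun x hx y => by
    rw [mem_comap, map_mul, map_mul, map_inv]
    exact h.nmU (h1 y y.2) hx⟩
  have := hL.simple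
  have := Fact.mk hL.prime
  rcases hn.eq_bot_or_eq_top with e | e
  · obtain ⟨x, hx⟩ := M.exists_p hL
    have h2 : x ∈ U.comap φ := (h.memU _).2 ⟨h1 x x.2, by
      change ¬ 2 ∣ orderOf (g * x * g⁻¹)
      rw [orderOf_conj', orderOf_coe, hx, Nat.prime_dvd_prime_iff_eq Nat.prime_two hL.prime]
      have := hL.five
      omega⟩
    exact ne_one_of_orderOf hL.prime hx (mem_bot.1 (e ▸ h2))
  · obtain ⟨x, -, hx⟩ := exists_invol (H := (⊤ : Subgroup L))
      (card_top (G := L) ▸ (show 2 ∣ 4 by norm_num).trans hL.four_dvd)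
    have h2 := h.uo (e.ge (mem_top x) : φ x ∈ U)
    change ¬ 2 ∣ orderOf (g * x * g⁻¹) at h2
    rw [orderOf_conj', orderOf_coe, hx] at h2
    exact h2 dvd_rfl

/-- The types of a proper subgroup in which `t` is fused to another involution of `S`. -/
lemma types' {H : Subgroup G} (hH : H ≠ ⊤) (hS : S ≤ H) {s w : G} (hs : s ∈ S) (hst : s ≠ t)
    (hw : w ∈ H) (e : w * t * w⁻¹ = s) :
    ((∀ g ∈ H, g * t * g⁻¹ = t ∨ g * t * g⁻¹ = s ∨ g * t * g⁻¹ = t * s) ∧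
      ∀ g ∈ H, g ∈ U → g * s = s * g) ∨ ∃ L p k m, VD H L p k m ∧ t ∈ L ∧ s ∈ L := by
  have s1 : s ≠ 1 := e ▸ J.conj_ne_one h.t1
  rcases h.types hH hS with e1 | ⟨B, -, h1, h2, h3, h4, -⟩ | ⟨L, p, k, m, hL, h1⟩
  · exfalso
    obtain ⟨a, ha⟩ := h.pow
    obtain ⟨O, -, O1, O2, O3, -⟩ := tyI_dec _ S hS ha h.odd e1
    obtain ⟨u, hu, σ, hσ, e2⟩ := O3 _ (inv_mem hw)
    have := fuse_of_dec ha (fun x hx => O1 x (hS hx)) O2 hu hσ h.tS (by
      rw [← e2, inv_inv, e]; exact hs)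
    rw [← e2, inv_inv, e, mul_assoc, ← h.cS σ hσ, inv_mul_cancel_left] at this
    exact hst this
  · have hsB : s ∈ B := e ▸ h1 w hw t h4
    refine Or.inl ⟨fun g hg => (four_mem h2 h3 h4 hsB h.t1 s1 hst (h1 g hg t h4)).resolve_left
      (J.conj_ne_one h.t1), fun g hg hgU => ?_⟩
    have h5 : g * s * g⁻¹ ∈ S := by
      rcases four_mem h2 h3 h4 hsB h.t1 s1 hst (h1 g hg s hsB) with e | e | e | e <;> rw [e]
      exacts [S.one_mem, h.tS, hs, mul_mem h.tS hs]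
    have h6 := h.US (x := g * s * g⁻¹ * s⁻¹) (by
      simpa [mul_assoc] using mul_mem hgU (h.nmU (h.cS s hs) (inv_mem hgU)))
      (mul_mem h5 (inv_mem hs))
    rwa [mul_inv_eq_one, mul_inv_eq_iff_eq_mul] at h6
  · exact Or.inr ⟨L, p, k, m, hL, h1, e ▸ hL.nm w hw t h1⟩

lemma memD {s x : G} : x ∈ U ⊓ centralizer {s} ↔ x ∈ U ∧ x * s = s * x := by
  rw [mem_inf, mem_centralizer_singleton_iff]

lemma cycD {s w x : G} (hw : Cyc t s w) (hx : x ∈ U ⊓ centralizer {s}) :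
    w⁻¹ * x * w ∈ U ⊓ centralizer {s} := by
  obtain ⟨h1, h2⟩ := h.memD.1 hx
  have e : x = w * (w⁻¹ * x * w) * w⁻¹ := by group
  have h3 := h.ut h1
  have h4 : x * (t * s) = t * s * x := ((show Commute x t from h3).mul_right h2).eq
  refine h.memD.2 ⟨(h.memU _).2 ⟨?_, ?_⟩, ?_⟩
  · rwa [← hw.1, e, J.conj_comm_iff] at h2
  · have := orderOf_conj' w⁻¹ x
    rw [inv_inv] at this
    exact this ▸ h.uo h1
  · rwa [← hw.2, e, J.conj_comm_iff] at h4

lemma cycD' {s w x : G} (hw : Cyc t s w) (hx : x ∈ U ⊓ centralizer {s}) :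
    w * x * w⁻¹ ∈ U ⊓ centralizer {s} := by
  have := mem_normalizer_fintype (S := ((U ⊓ centralizer {s} : Subgroup G) : Set G)) (x := w⁻¹)
    fun y hy => by simpa using h.cycD hw hy
  exact (mem_normalizer_iff.1 (by simpa using inv_mem this) x).1 hx

/-- Frattini argument. -/
lemma frat {s w : G} (hw : Cyc t s w) {r : ℕ} [Fact r.Prime] {R : Subgroup G} (hR : IsPGroup r R)
    (h1 : R ≤ U ⊓ centralizer {s}) (h2 : ¬ r ∣ R.relIndex (U ⊓ centralizer {s})) :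
    ∃ w', Cyc t s w' ∧ ∀ x ∈ R, w' * x * w'⁻¹ ∈ R := by
  obtain ⟨c, hc, h3⟩ := J.sylow_conj (hR.map (MulAut.conj w).toMonoidHom) hR
    (X := U ⊓ centralizer {s}) (by rintro _ ⟨x, hx, rfl⟩; exact h.cycD' hw (h1 hx)) h2
  obtain ⟨c1, c2⟩ := h.memD.1 hc
  refine ⟨c * w, ⟨?_, ?_⟩, fun x hx => by simpa [mul_assoc] using h3 _ ⟨x, hx, rfl⟩⟩
  · calc c * w * t * (c * w)⁻¹ = c * (w * t * w⁻¹) * c⁻¹ := by group
      _ = s := by rw [hw.1, c2, mul_inv_cancel_right]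
  · calc c * w * s * (c * w)⁻¹ = c * (w * s * w⁻¹) * c⁻¹ := by group
      _ = t * s := by
        rw [hw.2, ((show Commute c t from h.ut c1).mul_right c2).eq, mul_inv_cancel_right]

lemma card_dvd_sq {r : ℕ} (hr : r.Prime) (h2 : r ≠ 2) {Q : Subgroup G} (hQ : IsPGroup r Q) :
    Nat.card Q ∣ r ^ 2 := by
  have := Fact.mk hr
  obtain ⟨k, hk⟩ := hQ.exists_card_eq
  rw [hk]
  refine pow_dvd_pow _ (not_lt.1 fun e => h.full.1 r hr h2 ?_)
  exact (pow_dvd_pow _ e).trans (hk ▸ card_subgroup_dvd_card Q)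

lemma p_comm {r : ℕ} (hr : r.Prime) (h2 : r ≠ 2) {Q : Subgroup G} (hQ : IsPGroup r Q) :
    ∀ x ∈ Q, ∀ y ∈ Q, x * y = y * x := fun x hx y hy =>
  congrArg Subtype.val (comm_of_card hr (h.card_dvd_sq hr h2 hQ) ⟨x, hx⟩ ⟨y, hy⟩)

lemma small : Small (Nat.card U) := by
  have hd := card_subgroup_dvd_card U
  refine ⟨fun p hp e => ?_, fun p q hp hq h2 h3 h4 => h.full.2.1 p q hp hq h2 (h3.trans hd)
    (h4.trans hd) fun e => h.oddU (e ▸ (dvd_pow_self p two_ne_zero).trans h4)⟩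
  exact h.full.1 p hp (fun e' => h.oddU (e' ▸ (dvd_pow_self p three_ne_zero).trans e)) (e.trans hd)

lemma good {r : ℕ} (hr : r.Prime) (h2 : r ≠ 2) {R : Subgroup G} (hR : IsPGroup r R) (h0 : R ≠ ⊥)
    (hm : ∀ x ∈ U, ∀ k, x ^ r ^ k = 1 → x ∈ R) {g : G} (hg : g ∈ U) {a : MulAut R}
    (ha : IsCj a g) : Good r a := by
  obtain ⟨i, hi, e⟩ := (Nat.dvd_prime_pow hr).1 (h.card_dvd_sq hr h2 hR)
  interval_cases i
  · exact absurd (card_eq_one.1 e) h0
  · exact Or.inl (by simpa using e)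
  · refine Or.inr ⟨e, Nat.Coprime.mul_right ?_ ?_⟩
    · obtain ⟨k, m, hm', e'⟩ := Nat.exists_eq_pow_mul_and_not_dvd (orderOf_pos g).ne' r hr.ne_one
      have h3 := hm _ (pow_mem hg m) k (by rw [← pow_mul, mul_comm, ← e', pow_orderOf_eq_one])
      exact ((hr.coprime_iff_not_dvd.2 hm').symm.coprime_dvd_left (orderOf_dvd_of_pow_eq_one
        ((ha.pow m).eq_one_iff.2 (h.p_comm hr h2 hR _ h3))))
    · refine Nat.coprime_of_dvd fun q hq h3 => h.full.2.1 r q hr hq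
        (fun e => h.uo hg (e ▸ h3.trans ha.orderOf_dvd))
        ((h3.trans ha.orderOf_dvd).trans (orderOf_dvd_natCard g))
        (e ▸ card_subgroup_dvd_card R) h2

/-- A prime either has a normal Sylow subgroup in `U` or does not divide the order of `U'`. -/
lemma dich {r : ℕ} (hr : r.Prime) (h2 : r ≠ 2) :
    (5 ≤ r ∧ ∃ R ≤ U, IsPGroup r R ∧ (∀ c, c * t = t * c → ∀ x ∈ R, c * x * c⁻¹ ∈ R) ∧
      ∀ x ∈ U, ∀ k, x ^ r ^ k = 1 → x ∈ R) ∨ ¬ r ∣ Nat.card (⁅U, U⁆ : Subgroup G) := by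
  have := Fact.mk hr
  refine or_iff_not_imp_right.2 fun e => ?_
  rw [not_not, ← map_subtype_commutator, card_subtype] at e
  obtain ⟨P⟩ : Nonempty (Sylow r U) := inferInstance
  have hP := sylow_normal_of_dvd_commutator h.oddU h.small e P
  have hR : IsPGroup r ((P : Subgroup U).map U.subtype) := P.isPGroup'.map _
  have hm : ∀ x ∈ U, ∀ k, x ^ r ^ k = 1 → x ∈ (P : Subgroup U).map U.subtype := fun x hx k hk =>
    ⟨⟨x, hx⟩, mem_sylow_of_normal P hP (Subtype.ext hk), rfl⟩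
  have hn : ∀ c, c * t = t * c → ∀ x ∈ (P : Subgroup U).map U.subtype,
      c * x * c⁻¹ ∈ (P : Subgroup U).map U.subtype := fun c hc x hx => by
    obtain ⟨k, hk⟩ := hR ⟨x, hx⟩
    exact hm _ (h.nmU hc (map_subtype_le _ hx)) k (by
      rw [conj_pow, show x ^ r ^ k = 1 from congrArg Subtype.val hk]; group)
  refine ⟨?_, _, map_subtype_le _, hR, hn, hm⟩
  by_contra h5
  obtain rfl : r = 3 := by
    have := hr.two_le
    have : r ≠ 4 := fun e => absurd (e ▸ hr) (by decide)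
    omega
  obtain ⟨z, hz, hz3⟩ := J.exists_order hr e
  have hzP : z ∈ P := mem_sylow_of_normal P hP (k := 1) (by rw [pow_one, ← hz3, pow_orderOf_eq_one])
  have z1 := ne_one_of_orderOf hr hz3
  refine z1 (trf P (fun x hx y hy => sylow_comm h.small P hx hy) hzP (fun g _ => ?_) hz)
  obtain ⟨a, ha⟩ := exists_isCj (hn g (h.ut g.2))
  have hg := h.good hr h2 hR (fun e => z1 (Subtype.ext (mem_bot.1 (e ▸ ⟨z, hzP, rfl⟩)))) hm g.2 ha
  have h3 : orderOf a ∣ 2 ^ 3 := (hg.orderOf_dvd hr).trans (by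
    rcases hg with e | e
    · rw [e]; norm_num
    · rw [e.1]; norm_num)
  exact Subtype.ext (ha.eq_one_iff.1 (eq_one_of_two_odd h3 fun e =>
    h.uo g.2 (e.trans ha.orderOf_dvd)) _ ⟨z, hzP, rfl⟩)

end Dih

end Pool.Agent.Lib.MP_cb9dee_al
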