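import Pool.Agent.Lib.MP_cb9dee_al.CharD

namespace Pool.Agent.Lib.MP_cb9dee_al

open Subgroup Finset Matrix
open scoped Classical

variable {G : Type} [Group G]

lemma hom_trivial [Finite G] [IsSimpleGroup G] (h4 : 4 ∣ Nat.card G) {A : Type*} [CommGroup A]
    (φ : G →* A) (g : G) : φ g = 1 := by
  rcases (inferInstance : φ.ker.Normal).eq_bot_or_eq_top with e | e
  · exfalso
    have hi := (MonoidHom.ker_eq_bot_iff φ).1 e
    let _ : CommGroup G := ⟨fun a b => hi (by rw [map_mul, map_mul, mul_comm])⟩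
    have hp : (Nat.card G).Prime := IsSimpleGroup.prime_card
    rcases (Nat.dvd_prime hp).1 h4 with h | h
    · omega
    · rw [← h] at hp; exact absurd hp (by decide)
  · exact (e ▸ mem_top g : g ∈ φ.ker)

lemma no_transfer [Finite G] [IsSimpleGroup G] (h4 : 4 ∣ Nat.card G) (H M : Subgroup G)
    (hM : ∀ x ∈ H, ∀ y ∈ H, x * y * x⁻¹ * y⁻¹ ∈ M) {g : G} (hg : g ∈ H)
    (hk : ∀ (k : ℕ) (c : G), c⁻¹ * g ^ k * c ∈ H → c⁻¹ * g ^ k * c * (g ^ k)⁻¹ ∈ M) :
    g ^ H.index ∈ M := by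
  by_contra h
  obtain ⟨lam, h1, h2, h3⟩ := exists_lin H M hM (pow_mem hg _) h
  let φ : H →* ℂˣ := MonoidHom.toHomUnits
    { toFun := fun x => lam x, map_one' := h1.1, map_mul' := fun a b => h1.2 a a.2 b b.2 }
  have h5 := hom_trivial h4 (MonoidHom.transfer φ) g
  have := Fintype.ofFinite (Quotient (MulAction.orbitRel (zpowers g) (G ⧸ H)))
  rw [MonoidHom.transfer_eq_prod_quotient_orbitRel_zpowers_quot] at h5
  apply h2
  rw [h1.pow hg, index_eq_sum_minimalPeriod H g, ← Finset.prod_pow_eq_pow_sum]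
  have h6 := congrArg (Units.coeHom ℂ) h5
  rw [map_prod, map_one] at h6
  rw [← h6]
  refine Finset.prod_congr rfl fun q _ => ?_
  have h7 := QuotientGroup.out_conj_pow_minimalPeriod_mem H g q.out
  have h8 := h3 _ (mul_mem h7 (inv_mem (pow_mem hg _))) (hk _ _ h7)
  rw [h1.2 _ h7 _ (inv_mem (pow_mem hg _))] at h8
  rw [← h1.pow hg]
  change _ = lam _
  have h9 := h1.inv_mul (pow_mem hg (Function.minimalPeriod (fun x => g • x) q.out))
  rw [← mul_one (lam (_ * _)), ← h9, ← mul_assoc, h8, one_mul]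

lemma centralizer_ne_top [Finite G] [IsSimpleGroup G] (h4 : 4 ∣ Nat.card G) {N : Subgroup G}
    (h1 : N ≠ ⊥) (hN : ¬ 4 ∣ Nat.card N) : normalizer (N : Set G) ≠ ⊤ := fun e => by
  rcases (normalizer_eq_top_iff.1 e).eq_bot_or_eq_top with e | e
  · exact h1 e
  · exact hN (by rwa [e, card_top])

variable [Fintype G]

namespace CT

variable (T : CT G)

lemma sum_inv (i) (C : Subgroup G) (a : G → ℂ) :
    ∑ k : C, a (k : G)⁻¹ * T.χ i (k : G)⁻¹ = ∑ k : C, a k * T.χ i k :=
  Fintype.sum_equiv (Equiv.inv C) _ _ fun _ => rfl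

lemma pairK (K L : Subgroup G) (a b : G → ℂ) :
    ∑ i, (∑ k : K, a k * T.χ i k) * (∑ l : L, b l * T.χ i l) =
      ∑ g : G, ∑ k : K, if g * k * g⁻¹ ∈ L then a k * b (g * k * g⁻¹)⁻¹ else 0 := by
  have := T.pairS K L 1 1 a fun x => b x⁻¹
  simp only [one_mul, inv_one, T.sum_inv] at this
  exact this

/-- Induction of `1 - lam` from a subgroup of index two in its normalizer. -/
theorem norm3 (C : Subgroup G) {lam : G → ℂ} (hl : Lin C lam) {u : G}
    (hu : ∀ x ∈ C, u * x * u⁻¹ ∈ C) (hne : ∃ x ∈ C, lam (u * x * u⁻¹) ≠ lam x)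
    (hTI : ∀ g, ∀ x ∈ C, lam x ≠ 1 → g * x * g⁻¹ ∈ C → g ∈ C ∨ g * u⁻¹ ∈ C)
    {i0} (h0 : ∀ x, T.χ i0 x = 1) :
    ∃ (c : Fin T.n → ℤ) (i j : Fin T.n), (∀ l, ∑ k : C, (1 - lam k) * T.χ l k = Nat.card C * c l) ∧
      i ≠ i0 ∧ j ≠ i0 ∧ i ≠ j ∧ c i = 1 ∧ c j = -1 ∧ T.d j = T.d i + 1 ∧
      ∀ F : Fin T.n → ℂ, ∑ l, c l * F l = F i0 + F i - F j := by
  have hC : (Nat.card C : ℂ) ≠ 0 := Nat.cast_ne_zero.2 Nat.card_pos.ne'
  obtain ⟨x0, hx0, hne⟩ := hne
  have huC : u ∉ C := fun h => hne (hl.conj_self h hx0)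
  obtain ⟨x1, hx1, h1⟩ : ∃ x ∈ C, lam x ≠ 1 := by
    by_contra! h
    exact hne (by rw [h _ hx0, h _ (hu _ hx0)])
  have hs : ∑ k : C, lam k = 0 := hl.sum_zero hx1 h1
  have hc : ∀ l, ∃ c : ℤ, ∑ k : C, (1 - lam k) * T.χ l k = Nat.card C * c := fun l => by
    obtain ⟨a, ha⟩ := T.multK l (Lin.one C)
    obtain ⟨b, hb⟩ := T.multK l hl
    exact ⟨a - b, by simp only [sub_mul, Finset.sum_sub_distrib, ha, hb]; push_cast; ring⟩
  choose c hc using hc
  have c0 : c i0 = 1 := by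
    have := hc i0
    simp only [h0, mul_one, Finset.sum_sub_distrib, hs, Finset.sum_const, Finset.card_univ,
      nsmul_eq_mul, sub_zero, ← Nat.card_eq_fintype_card] at this
    exact_mod_cast (mul_left_cancel₀ hC ((mul_one _).trans this)).symm
  have hn : ∑ l, c l ^ 2 = 3 := by
    have h := T.pairK C C (fun x => 1 - lam x) fun x => 1 - lam x
    simp only [hc] at h
    have h2 : ∀ g : G, (∑ k : C, if g * k * g⁻¹ ∈ C then (1 - lam k) * (1 - lam (g * k * g⁻¹)⁻¹)
        else 0) = (if g ∈ C then 2 * (Nat.card C : ℂ) else 0) +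
          if g * u⁻¹ ∈ C then (Nat.card C : ℂ) else 0 := fun g => by
      have key : (∀ x ∈ C, g * x * g⁻¹ ∈ C) → (∑ k : C, if g * k * g⁻¹ ∈ C then
          (1 - lam k) * (1 - lam (g * k * g⁻¹)⁻¹) else 0) =
          Nat.card C + ∑ k : C, lam k * lam (g * (k : G)⁻¹ * g⁻¹) := fun hg => by
        have h3 : ∑ k : C, lam (g * (k : G)⁻¹ * g⁻¹) = 0 := by
          refine (hl.conj hg).inv.sum_zero (x := (g⁻¹ * x1 * g)⁻¹) (inv_mem ?_) (by
            simpa [mul_assoc] using h1)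
          have := (mem_normalizer_iff.1 (mem_normalizer_fintype (S := (C : Set G)) hg)
            (g⁻¹ * x1 * g)).2
          exact this (by simpa [mul_assoc] using hx1)
        simp only [hg _ (Subtype.prop _), if_true, conj_inv, mul_sub, sub_mul, mul_one, one_mul,
          Finset.sum_sub_distrib, hs, h3, Finset.sum_const, Finset.card_univ, nsmul_eq_mul,
          ← Nat.card_eq_fintype_card]
        ring
      by_cases g1 : g ∈ C
      · have g2 : g * u⁻¹ ∉ C := fun h => huC (by simpa using mul_mem (inv_mem h) g1)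
        rw [key fun x hx => mul_mem (mul_mem g1 hx) (inv_mem g1), if_pos g1, if_neg g2,
          Finset.sum_congr rfl fun k _ => by rw [hl.conj_self g1 (inv_mem k.2)], hl.orth_self]
        ring
      by_cases g2 : g * u⁻¹ ∈ C
      · have e : ∀ x, g * x * g⁻¹ = g * u⁻¹ * (u * x * u⁻¹) * (g * u⁻¹)⁻¹ := fun x => by group
        have hg : ∀ x ∈ C, g * x * g⁻¹ ∈ C := fun x hx =>
          e x ▸ mul_mem (mul_mem g2 (hu x hx)) (inv_mem g2)
        rw [key hg, if_neg g1, if_pos g2, hl.orth_ne (hl.conj hg) hx0 (by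
          rw [e, hl.conj_self g2 (hu _ hx0)]; exact hne.symm)]
        ring
      rw [if_neg g1, if_neg g2, add_zero]
      refine Finset.sum_eq_zero fun k _ => ?_
      split_ifs with h
      · by_cases h' : lam k = 1
        · rw [h', sub_self, zero_mul]
        · exact ((hTI g k k.2 h' h).elim g1 g2).elim
      · rfl
    have h3 : ∑ g : G, (if g * u⁻¹ ∈ C then (Nat.card C : ℂ) else 0) =
        ∑ g : G, if g ∈ C then (Nat.card C : ℂ) else 0 :=
      Fintype.sum_equiv (Equiv.mulRight u⁻¹) _ _ fun _ => rfl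
    have h4 : (univ.filter (· ∈ C)).card = Nat.card C := by
      rw [Nat.card_eq_fintype_card, Fintype.card_subtype]
    simp only [h2, Finset.sum_add_distrib, h3, ← Finset.sum_filter, Finset.sum_const, h4,
      nsmul_eq_mul] at h
    have h5 : (Nat.card C : ℂ) ^ 2 * ∑ l, (c l : ℂ) ^ 2 = Nat.card C ^ 2 * 3 := by
      rw [Finset.mul_sum]
      linear_combination h + Finset.sum_congr rfl fun l _ =>
        (by ring : (Nat.card C : ℂ) ^ 2 * (c l : ℂ) ^ 2 = Nat.card C * c l * (Nat.card C * c l))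
    exact_mod_cast mul_left_cancel₀ (pow_ne_zero 2 hC) h5
  rw [← Finset.add_sum_erase _ _ (Finset.mem_univ i0), c0] at hn
  obtain ⟨i, hi, j, hj, hij, ci, cj, hF⟩ := norm_two (c := c) (s := univ.erase i0) (by omega)
  have hF' : ∀ F : Fin T.n → ℂ, ∑ l, c l * F l = F i0 + c i * F i + c j * F j := fun F => by
    rw [← Finset.add_sum_erase _ _ (Finset.mem_univ i0), c0, hF]; push_cast; ring
  have hd := T.deg (fun k : C => 1 - lam k) (fun k => k) fun k hk => by rw [hk, hl.1, sub_self]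
  simp only [hc, mul_assoc, ← Finset.mul_sum, hF', ← T.χ_one i0, h0] at hd
  have hd' : 1 + c i * T.d i + c j * T.d j = 0 := by
    exact_mod_cast (mul_eq_zero.1 hd).resolve_left hC
  have := T.hd i
  have := T.hd j
  rcases ci with ci | ci <;> rcases cj with cj | cj <;> rw [ci, cj] at hd' hF'
  · omega
  · exact ⟨c, i, j, hc, Finset.ne_of_mem_erase hi, Finset.ne_of_mem_erase hj, hij, ci, cj,
      by omega, fun F => by rw [hF']; push_cast; ring⟩
  · exact ⟨c, j, i, hc, Finset.ne_of_mem_erase hj, Finset.ne_of_mem_erase hi, hij.symm, cj, ci,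
      by omega, fun F => by rw [hF']; push_cast; ring⟩
  · omega

end CT

end Pool.Agent.Lib.MP_cb9dee_al
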