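import Pool.Agent.Lib.MP_cb9dee_al.CDih

set_option linter.unusedSectionVars false

namespace Pool.Agent.Lib.MP_cb9dee_al

open Subgroup

variable {G : Type} [Group G]

/-- `S` is a dihedral group of order eight generated by `a` and `s`. -/
structure D8 (t a s : G) (S : Subgroup G) : Prop where
  ord : orderOf t = 2
  aS : a ∈ S
  sS : s ∈ S
  aa : a * a = t
  ss : s * s = 1
  as : a * s = t * (s * a)
  s1 : s ≠ 1
  st : s ≠ t
  card : Nat.card S = 8

namespace D8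

variable {t a s : G} {S : Subgroup G} (e : D8 t a s S)
include e

lemma tt : t * t = 1 := mul_self_of_two e.ord

lemma at' : a * t = t * a := by rw [← e.aa, mul_assoc]

lemma st' : s * t = t * s := by
  have h1 : s * a * s = t * a := by
    have h3 : s * a = t * (a * s) := by rw [e.as, ← mul_assoc, e.tt, one_mul]
    rw [h3, mul_assoc, mul_assoc, e.ss, mul_one]
  have h2 : s * t * s = s * a * s * (s * a * s) := by
    rw [← e.aa]
    calc s * (a * a) * s = s * a * (s * s) * a * s := by rw [e.ss]; group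
      _ = _ := by group
  rw [h1, mul_assoc t, ← mul_assoc a, e.at', mul_assoc t, e.aa, e.tt, mul_one] at h2
  calc s * t = s * t * (s * s) := by rw [e.ss, mul_one]
    _ = t * s := by rw [← mul_assoc, h2]

/-- Rewriting rules for words in `t`, `s`, `a`. -/
lemma r : t * t = 1 ∧ a * a = t ∧ s * s = 1 ∧ a * t = t * a ∧ s * t = t * s ∧
    a * s = t * (s * a) ∧ (∀ x, t * (t * x) = x) ∧ (∀ x, a * (a * x) = t * x) ∧
    (∀ x, s * (s * x) = x) ∧ (∀ x, a * (t * x) = t * (a * x)) ∧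
    (∀ x, s * (t * x) = t * (s * x)) ∧ (∀ x, a * (s * x) = t * (s * (a * x))) ∧
    t⁻¹ = t ∧ s⁻¹ = s ∧ a⁻¹ = t * a :=
  ⟨e.tt, e.aa, e.ss, e.at', e.st', e.as, fun x => by rw [← mul_assoc, e.tt, one_mul],
    fun x => by rw [← mul_assoc, e.aa], fun x => by rw [← mul_assoc, e.ss, one_mul],
    fun x => by rw [← mul_assoc, e.at', mul_assoc], fun x => by rw [← mul_assoc, e.st', mul_assoc],
    fun x => by rw [← mul_assoc, e.as, mul_assoc, mul_assoc], inv_eq_of_mul_eq_one_right e.tt,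
    inv_eq_of_mul_eq_one_right e.ss,
    inv_eq_of_mul_eq_one_right (by rw [← mul_assoc, e.at', mul_assoc, e.aa, e.tt])⟩

lemma t1 : t ≠ 1 := ne_one_of_two e.ord

lemma tS : t ∈ S := e.aa ▸ mul_mem e.aS e.aS

lemma ord_a : orderOf a = 4 :=
  haveI := Fact.mk Nat.prime_two
  orderOf_eq_prime_pow (p := 2) (n := 1) (by simpa [pow_two, e.aa] using e.t1)
    (by simp [pow_succ, mul_assoc, e.r])

lemma mem_zp [Finite G] {x : G} (hx : x ∈ zpowers a) : x = 1 ∨ x = t ∨ x = a ∨ x = t * a := by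
  classical
  rw [mem_zpowers_iff_mem_range_orderOf, e.ord_a] at hx
  simp [Finset.range_add_one, pow_succ, e.r] at hx
  tauto

lemma not_mem [Finite G] : s ∉ zpowers a := fun h => by
  have h1 := e.ss
  rcases e.mem_zp h with h | h | h | h
  · exact e.s1 h
  · exact e.st h
  · exact e.t1 (by rw [h] at h1; simpa [e.r] using h1)
  · exact e.t1 (by rw [h] at h1; simpa [mul_assoc, e.r] using h1)

lemma rel [Finite G] : (zpowers a).relIndex S = 2 := by
  have := J.card_mul_rel ((zpowers_le).2 e.aS)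
  rw [Nat.card_zpowers, e.ord_a, e.card] at this
  omega

lemma mem [Finite G] {σ : G} (h : σ ∈ S) : σ = 1 ∨ σ = t ∨ σ = a ∨ σ = t * a ∨ σ = s ∨
    σ = t * s ∨ σ = s * a ∨ σ = t * (s * a) := by
  by_cases h1 : σ ∈ zpowers a
  · have := e.mem_zp h1
    tauto
  · have h2 : σ = s * (s * σ) := by simp [e.r]
    rcases e.mem_zp (J.mul_mem_of_two e.rel e.sS h e.not_mem h1) with h | h | h | h <;>
      rw [h] at h2 <;> simp [h2, e.r]

lemma invol [Finite G] {σ : G} (h : σ ∈ S) (h2 : σ * σ = 1) (h1 : σ ≠ 1) (ht : σ ≠ t) :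
    σ = s ∨ σ = t * s ∨ σ = s * a ∨ σ = t * (s * a) := by
  rcases e.mem h with h | h | h | h | h
  · exact absurd h h1
  · exact absurd h ht
  · exact absurd (by rw [h] at h2; simpa [e.r] using h2) e.t1
  · exact absurd (by rw [h] at h2; simpa [mul_assoc, e.r] using h2) e.t1
  · exact h

lemma of_invol [Finite G] {σ : G} (h : σ ∈ S) (h2 : σ * σ = 1) (h1 : σ ≠ 1) (ht : σ ≠ t) :
    D8 t a σ S :=
  ⟨e.ord, e.aS, h, e.aa, h2, by
    rcases e.invol h h2 h1 ht with h | h | h | h <;> simp [h, mul_assoc, e.r], h1, ht, e.card⟩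

lemma symm [Finite G] : D8 t a (s * a) S :=
  e.of_invol (mul_mem e.sS e.aS) (by simp [mul_assoc, e.r])
    (fun h => e.not_mem (eq_inv_of_mul_eq_one_left h ▸ inv_mem (mem_zpowers a)))
    fun h => e.not_mem (by
      rw [← e.aa, mul_left_inj] at h
      exact h ▸ mem_zpowers a)

end D8

variable [Finite G] {t a s : G} {S U : Subgroup G}

lemma Dih.exists_cyc (h : Dih t S U) (e : D8 t a s S) : ∃ w, Cyc t s w ∧
    ((∀ σ, D8 t a σ S → ∀ y ∈ U, y * σ = σ * y → y * a = a * y) →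
      ∀ y ∈ U, y * s = s * y → y * w = w * y) := by
  obtain ⟨g, hg⟩ := isConj_iff.1 (h.conj s (two_of_mul_self e.ss e.s1)).symm
  have h1 : ∀ x, g * (g⁻¹ * x * g) * g⁻¹ = x := fun x => by group
  obtain ⟨u, hu, hσ⟩ := h.inv_conj (v := g⁻¹ * t * g) (by simpa using J.conj_sq g⁻¹ h.tt) (by
    rw [← J.conj_comm_iff g, h1, hg, e.st'])
  obtain ⟨c, c1, σ, hσ, c2⟩ : ∃ c, c * t * c⁻¹ = s ∧ ∃ σ ∈ S, c * σ * c⁻¹ = t :=
    ⟨g * u⁻¹, by
      rw [← hg]
      calc g * u⁻¹ * t * (g * u⁻¹)⁻¹ = g * (u⁻¹ * t * u⁻¹⁻¹) * g⁻¹ := by group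
        _ = _ := by rw [h.ut (inv_mem hu), mul_inv_cancel_right], _, hσ, by group⟩
  have e' : D8 t a σ S := e.of_invol hσ
    ((MulAut.conj c).injective (by simp only [MulAut.conj_apply, ← conj_mul, c2, map_one, h.tt]))
    (fun f => h.t1 (by rw [← c2, f]; simp)) fun f => e.st (by rw [← c1, ← f, c2, f])
  refine ⟨a * (c * a * c⁻¹), ⟨?_, ?_⟩, fun H y hy hys => ?_⟩
  · calc a * (c * a * c⁻¹) * t * (a * (c * a * c⁻¹))⁻¹
        = a * (c * (a * σ * a⁻¹) * c⁻¹) * a⁻¹ := by rw [← c2]; group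
      _ = a * (c * t * c⁻¹ * (c * σ * c⁻¹)) * a⁻¹ := by
        rw [conj_mul, show a * σ * a⁻¹ = t * σ by simp [mul_assoc, e'.r]]
      _ = s := by rw [c1, c2]; simp [mul_assoc, e.r]
  · calc a * (c * a * c⁻¹) * s * (a * (c * a * c⁻¹))⁻¹
        = a * (c * (a * t * a⁻¹) * c⁻¹) * a⁻¹ := by rw [← c1]; group
      _ = t * s := by rw [e.at', mul_inv_cancel_right, c1]; simp [mul_assoc, e.r]
  · have h2 : y = c * (c⁻¹ * y * c) * c⁻¹ := by group
    have h3 : y * (c * a * c⁻¹) = c * a * c⁻¹ * y := by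
      rw [h2, J.conj_comm_iff]
      refine H σ e' _ ((h.memU _).2 ⟨?_, ?_⟩) ?_
      · rwa [← J.conj_comm_iff c, ← h2, c1]
      · rw [← orderOf_conj' c, ← h2]; exact h.uo hy
      · rw [← J.conj_comm_iff c, ← h2, c2]; exact h.ut hy
    exact ((show Commute y a from H s e y hy hys).mul_right h3).eq

lemma Dih.not_nine (h : Dih t S U) (e : D8 t a s S) : ¬ 9 ∣ Nat.card G :=
  (h.full.2.2.2.2.2.2 (e.card ▸ card_subgroup_dvd_card S)).1

end Pool.Agent.Lib.MP_cb9dee_al
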