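import Pool.Agent.Lib.MP_cb9dee_al.CEight

set_option linter.unusedSectionVars false

namespace Pool.Agent.Lib.MP_cb9dee_al

open Subgroup Finset Matrix
open scoped Classical

variable {G : Type} [Group G] [Fintype G]

/-- The twisted average of a character over the coset `σ U`. -/
noncomputable def CT.cf (T : CT G) (U : Subgroup G) (σ : G) (μ : G → ℂ) (l : Fin T.n) : ℂ :=
  (∑ u : U, μ (u : G)⁻¹ * T.χ l (σ * u)) / Nat.card U

/-- A linear character of the centralizer of `t` that is trivial on `S`. -/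
def Adm (t : G) (S : Subgroup G) (μ : G → ℂ) : Prop :=
  Lin (centralizer ({t} : Set G)) μ ∧ ∀ σ ∈ S, μ σ = 1

/-- The number of involutions in the coset `σ U`. -/
noncomputable def nI (t : G) (U : Subgroup G) (σ : G) : ℕ :=
  (univ.filter fun x => IsConj t x ∧ σ⁻¹ * x ∈ U).card

lemma Adm.one (t : G) (S : Subgroup G) : Adm t S fun _ => 1 := ⟨Lin.one _, fun _ _ => rfl⟩

lemma card_conj_class (t : G) :
    (univ.filter (IsConj t ·)).card = (centralizer ({t} : Set G)).index := by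
  rw [← relIndex_top_right, J.rel_cent, ← Set.ncard_coe_finset]
  congr 1
  ext x
  simp [isConj_iff]

lemma CT.sum_cf (T : CT G) (U : Subgroup G) (σ : G) (μ : G → ℂ) (l : Fin T.n) :
    ∑ u : U, μ (u : G)⁻¹ * T.χ l (σ * u) = Nat.card U * T.cf U σ μ l := by
  rw [CT.cf, mul_div_cancel₀ _ (Nat.cast_ne_zero.2 Nat.card_pos.ne')]

namespace Dih

variable {t : G} {S U : Subgroup G} (h : Dih t S U) (T : CT G)
include h

lemma ab_pow {σ u : G} (hσ : σ ∈ S) (ha : σ = t ∨ σ * σ = t) (hu : u ∈ U) :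
    ((σ * u) ^ Nat.card U = t ∧ (σ * u) ^ (2 * Nat.card U) = 1) ∨
      (σ * u) ^ (2 * Nat.card U) = t := by
  obtain ⟨j, hj⟩ := Nat.not_even_iff_odd.1 fun e => h.oddU e.two_dvd
  have key : ∀ v ∈ U, (t * v) ^ Nat.card U = t := fun v hv => by
    rw [(show Commute t v from (h.ut hv).symm).mul_pow, pow_card_of_mem hv, mul_one, hj, pow_succ,
      pow_mul, pow_two, h.tt, one_pow, one_mul]
  rcases ha with rfl | ha
  · exact Or.inl ⟨key u hu, by rw [mul_comm, pow_mul, key u hu, pow_two, h.tt]⟩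
  · refine Or.inr ?_
    rw [pow_mul, show (σ * u) ^ 2 = t * (σ⁻¹ * u * σ⁻¹⁻¹ * u) by rw [← ha, pow_two]; group]
    exact key _ (mul_mem (h.nmU (h.cS _ (inv_mem hσ)) hu) hu)

lemma ab_conj {σ τ u v g : G} (hσ : σ ∈ S) (ha : σ = t ∨ σ * σ = t) (hτ : τ ∈ S)
    (hb : τ = t ∨ τ * τ = t) (hu : u ∈ U) (hv : v ∈ U) (e : g * (σ * u) * g⁻¹ = τ * v) :
    g * t = t * g := by
  have h1 := h.ab_pow hσ ha hu
  have h2 := h.ab_pow hτ hb hv
  rw [← e, conj_pow, conj_pow] at h2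
  rcases h1 with ⟨h1, h3⟩ | h1 <;> rcases h2 with ⟨h2, h4⟩ | h2
  · exact mul_inv_eq_iff_eq_mul.1 (h1 ▸ h2)
  · rw [h3] at h2; exact absurd (by simpa using h2.symm) h.t1
  · rw [h1] at h4; exact absurd h4 (J.conj_ne_one h.t1)
  · exact mul_inv_eq_iff_eq_mul.1 (h1 ▸ h2)

lemma even_ord {σ u : G} (hσ : σ ∈ S) (h1 : σ ≠ 1) (hu : u ∈ U) : 2 ∣ orderOf (σ * u) := by
  by_contra e
  have := (h.memU _).2 ⟨((show Commute σ t from h.cS σ hσ).mul_left (h.ut hu)).eq, e⟩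
  exact h1 (h.US ((mul_mem_cancel_right hu).1 this) hσ)

lemma ab_ne {σ : G} (ha : σ = t ∨ σ * σ = t) : σ ≠ 1 := fun e => h.t1 (by
  rcases ha with ha | ha
  · exact ha ▸ e
  · rw [← ha, e, one_mul])

lemma cf_conj {μ : G → ℂ} (hμ : Adm t S μ) {c : G} (hc : c * t = t * c) (σ : G) (l) :
    T.cf U (c * σ * c⁻¹) μ l = T.cf U σ μ l := by
  obtain ⟨a, ha⟩ := exists_isCj (P := U) fun x hx => h.nmU hc hx
  rw [CT.cf, CT.cf, ← a.toEquiv.sum_comp]
  congr 1
  refine Finset.sum_congr rfl fun u _ => ?_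
  change μ ((a u : G))⁻¹ * T.χ l (_ * (a u : G)) = _
  rw [ha, conj_mul, T.χ_conj, conj_inv,
    hμ.1.conj_self (mem_centralizer_singleton_iff.2 hc) (h.U_le (inv_mem u.2))]

lemma norm {μ ν : G → ℂ} (hν : Adm t S ν) {σ τ : G} (hσ : σ ∈ S)
    (ha : σ = t ∨ σ * σ = t) (hτ : τ ∈ S) (hb : τ = t ∨ τ * τ = t) :
    (Nat.card U : ℂ) ^ 2 * ∑ l, T.cf U σ μ l * T.cf U τ⁻¹ ν l =
      (univ.filter fun g => g * t = t * g ∧ τ⁻¹ * (g * σ * g⁻¹) ∈ U).card *
        ∑ u : U, μ (u : G)⁻¹ * ν u := by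
  have h1 := T.pairS U U σ τ (fun x => μ x⁻¹) ν
  have h2 : ∀ l, ∑ u : U, ν u * T.χ l (τ * u)⁻¹ = ∑ u : U, ν (u : G)⁻¹ * T.χ l (τ⁻¹ * u) :=
    fun l => Fintype.sum_equiv (Equiv.inv U) _ _ fun u => by simp [T.χ_comm l _ τ⁻¹]
  simp only [h2, T.sum_cf] at h1
  rw [Finset.mul_sum, ← nsmul_eq_mul, ← Finset.sum_const, Finset.sum_filter]
  refine (Finset.sum_congr rfl fun l _ => by ring).trans (h1.trans
    (Finset.sum_congr rfl fun g _ => ?_))
  by_cases hg : g * t = t * g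
  · have e : ∀ u : U, τ⁻¹ * (g * (σ * u) * g⁻¹) = τ⁻¹ * (g * σ * g⁻¹) * (g * u * g⁻¹) :=
      fun u => by group
    by_cases hU : τ⁻¹ * (g * σ * g⁻¹) ∈ U
    · rw [if_pos ⟨hg, hU⟩]
      refine Finset.sum_congr rfl fun u _ => ?_
      have gC := mem_centralizer_singleton_iff.2 hg
      have uC := mul_mem (h.le_cent hσ) (h.U_le u.2)
      rw [if_pos (e u ▸ mul_mem hU (h.nmU hg u.2)), hν.1.2 _ (h.le_cent (inv_mem hτ)) _
        (mul_mem (mul_mem gC uC) (inv_mem gC)), hν.2 _ (inv_mem hτ), hν.1.conj_self gC uC,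
        hν.1.2 _ (h.le_cent hσ) _ (h.U_le u.2), hν.2 _ hσ, one_mul, one_mul]
    · rw [if_neg fun f => hU f.2]
      exact Finset.sum_eq_zero fun u _ => if_neg fun f =>
        hU ((mul_mem_cancel_right (h.nmU hg u.2)).1 (e u ▸ f))
  · rw [if_neg fun f => hg f.1]
    exact Finset.sum_eq_zero fun u _ => if_neg fun f =>
      hg (h.ab_conj hσ ha hτ hb u.2 f (by group))

lemma cf_val (μ : G → ℂ) {σ : G} (hσ : σ ∈ S) (h1 : σ ≠ 1) {y : G} (hy : ¬ 2 ∣ orderOf y) :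
    ∑ l, T.cf U σ μ l * T.χ l y = 0 := by
  have h2 := T.val (fun u : U => μ (u : G)⁻¹) (fun u => σ * u) y⁻¹
  rw [Finset.sum_eq_zero (f := fun u : U => _ * (cnt _ _ : ℂ)) fun u _ => by
    rw [cnt_of_not fun e => hy (by
      rw [← orderOf_inv, ← orderOf_isConj e]; exact h.even_ord hσ h1 u.2),
      Nat.cast_zero, mul_zero]] at h2
  simp only [T.sum_cf, inv_inv, mul_assoc, ← Finset.mul_sum] at h2
  exact (mul_eq_zero.1 h2).resolve_left (Nat.cast_ne_zero.2 Nat.card_pos.ne')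

lemma adm_inv {μ : G → ℂ} (hμ : Adm t S μ) {x : G} (hx : x * x = 1) (ht : x * t = t * x) :
    μ x = 1 := by
  obtain ⟨u, hu, h1⟩ := h.inv_conj hx ht
  rw [← hμ.1.conj_self (h.U_le hu) (mem_centralizer_singleton_iff.2 ht), hμ.2 _ h1]

lemma sq_of_conj {x : G} (hx : IsConj t x) : x * x = 1 :=
  mul_self_of_two ((orderOf_isConj hx).symm.trans h.ord)

lemma prs_comm {σ x y : G} (hσ : σ ∈ S) (ha : σ = t ∨ σ * σ = t) (hx : IsConj t x)
    (hy : IsConj t y) (e : σ⁻¹ * (x * y) ∈ U) : x * t = t * x ∧ y * t = t * y := by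
  have x2 := inv_eq_of_mul_eq_one_right (h.sq_of_conj hx)
  have y2 := inv_eq_of_mul_eq_one_right (h.sq_of_conj hy)
  have h1 : x * t = t * x := h.ab_conj hσ ha (inv_mem hσ) (by
      rcases ha with rfl | ha
      · exact Or.inl (inv_eq_of_mul_eq_one_right h.tt)
      · exact Or.inr (by rw [← _root_.mul_inv_rev, ha, inv_eq_of_mul_eq_one_right h.tt])) e
    (h.nmU (h.cS σ hσ) (inv_mem e)) (by
      calc x * (σ * (σ⁻¹ * (x * y))) * x⁻¹ = x * x⁻¹ * y⁻¹ * x⁻¹ := by rw [x2, y2]; group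
        _ = _ := by group)
  refine ⟨h1, ?_⟩
  have h2 : y = x⁻¹ * (σ * (σ⁻¹ * (x * y))) := by group
  rw [h2]
  exact ((Commute.inv_left h1).mul_left ((show Commute σ t from h.cS σ hσ).mul_left (h.ut e))).eq

lemma cf_cls {μ : G → ℂ} (hμ : Adm t S μ) {σ : G} (hσ : σ ∈ S) (ha : σ = t ∨ σ * σ = t) :
    (centralizer ({t} : Set G)).index * ∑ l, T.cf U σ μ l * (T.χ l t ^ 2 / T.d l) =
      Nat.card S * ∑ τ : S, (nI t U τ * nI t U ((τ : G)⁻¹ * σ) : ℂ) := by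
  have h1 := T.cls (fun u : U => μ (u : G)⁻¹) (fun u => σ * u) (univ.filter (IsConj t ·))
    (by simp) h.tt
  set I := univ.filter (IsConj t ·) with hI
  have mI : ∀ x, x ∈ I ↔ IsConj t x := fun x => by rw [hI, mem_filter]; simp
  have h2 : ∑ u : U, μ (u : G)⁻¹ * prs I (σ * u) =
      ∑ z ∈ I ×ˢ I, if σ⁻¹ * (z.1 * z.2) ∈ U then (1 : ℂ) else 0 := by
    simp only [prs, Finset.card_filter, Nat.cast_sum, Finset.mul_sum]
    rw [Finset.sum_comm]
    refine Finset.sum_congr rfl fun z hz => ?_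
    obtain ⟨z1, z2⟩ := Finset.mem_product.1 hz
    rw [mI] at z1 z2
    split_ifs with e
    · obtain ⟨c1, c2⟩ := h.prs_comm hσ ha z1 z2 e
      rw [Finset.sum_eq_single ⟨_, e⟩ (fun u _ hu => by
        rw [if_neg fun f => hu (Subtype.ext (by simp [f]))]; simp) (by simp)]
      have m1 := mem_centralizer_singleton_iff.2 c1
      have m2 := mem_centralizer_singleton_iff.2 c2
      have := hμ.1.inv_mul (h.U_le e)
      rw [hμ.1.2 _ (h.le_cent (inv_mem hσ)) _ (mul_mem m1 m2), hμ.1.2 _ m1 _ m2,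
        hμ.2 _ (inv_mem hσ), h.adm_inv hμ (h.sq_of_conj z1) c1,
        h.adm_inv hμ (h.sq_of_conj z2) c2] at this
      simpa using this
    · refine Finset.sum_eq_zero fun u _ => ?_
      rw [if_neg fun f => e (by simp [f])]; simp
  have h3 : ∑ τ : S, (nI t U τ * nI t U ((τ : G)⁻¹ * σ) : ℂ) =
      ∑ z ∈ I ×ˢ I, if σ⁻¹ * (z.1 * z.2) ∈ U then (1 : ℂ) else 0 := by
    have h4 : ∀ ρ, (nI t U ρ : ℂ) = ∑ x ∈ I, if ρ⁻¹ * x ∈ U then 1 else 0 := fun ρ => by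
      rw [nI, ← Finset.filter_filter, Finset.card_filter]; push_cast; rfl
    simp only [h4, Finset.sum_mul_sum, ← Finset.sum_product' I I]
    rw [Finset.sum_comm]
    refine Finset.sum_congr rfl fun z hz => ?_
    obtain ⟨z1, z2⟩ := Finset.mem_product.1 hz
    rw [mI] at z1 z2
    have key : ∀ τ ∈ S, τ⁻¹ * z.1 ∈ U →
        ((τ⁻¹ * σ)⁻¹ * z.2 ∈ U ↔ σ⁻¹ * (z.1 * z.2) ∈ U) := fun τ hτ f => by
      rw [← mul_mem_cancel_left (h.nmU (h.cS _ (mul_mem (inv_mem hσ) hτ)) f)]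
      exact iff_of_eq (congrArg (· ∈ U) (by group))
    split_ifs with e
    · obtain ⟨u, hu, τ, hτ, e1⟩ := h.dec _ (h.prs_comm hσ ha z1 z2 e).1
      have f : τ⁻¹ * z.1 ∈ U := by simpa [e1, mul_assoc] using h.nmU (h.cS _ (inv_mem hτ)) hu
      rw [Finset.sum_eq_single ⟨τ, hτ⟩ (fun ρ _ hρ => by
        rw [if_neg fun f' => hρ (Subtype.ext ?_), zero_mul]
        have := h.US (by simpa [mul_assoc] using mul_mem f' (inv_mem f))
          (mul_mem (inv_mem ρ.2) hτ)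
        exact inv_mul_eq_one.1 this) (by simp), if_pos f, if_pos ((key τ hτ f).2 e), one_mul]
    · refine Finset.sum_eq_zero fun τ _ => ?_
      split_ifs with f f'
      · exact absurd ((key τ τ.2 f).1 f') e
      all_goals simp
  have h5 := (centralizer ({t} : Set G)).index_mul_card
  rw [h.cardC, Nat.card_eq_fintype_card (α := G)] at h5
  simp only [T.sum_cf, mul_assoc, ← Finset.mul_sum] at h1
  rw [h2, ← h3, card_conj_class, ← h5] at h1
  have h6 : ((centralizer ({t} : Set G)).index : ℂ) * Nat.card U ≠ 0 :=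
    mul_ne_zero (Nat.cast_ne_zero.2 index_ne_zero_of_finite) (Nat.cast_ne_zero.2 Nat.card_pos.ne')
  refine mul_left_cancel₀ h6 ?_
  push_cast at h1
  linear_combination h1

lemma nI_zero {σ : G} (hσ : σ ∈ S) (h1 : σ = 1 ∨ σ * σ ≠ 1) : nI t U σ = 0 := by
  rw [nI, Finset.card_eq_zero, Finset.filter_eq_empty_iff]
  rintro x - ⟨hx, e⟩
  rcases h1 with rfl | h1
  · exact h.uo (by simpa using e) ((orderOf_isConj hx).symm.trans h.ord).symm.dvd
  · refine h1 (h.US ?_ (mul_mem hσ hσ))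
    have h2 := mul_mem (h.nmU (h.cS _ (inv_mem hσ)) e) e
    have h3 : σ⁻¹ * (σ⁻¹ * x) * σ⁻¹⁻¹ * (σ⁻¹ * x) = (σ * σ)⁻¹ * (x * x) := by group
    rwa [h3, h.sq_of_conj hx, mul_one, inv_mem_iff] at h2

lemma nI_inv {σ : G} (hσ : σ ∈ S) (h2 : orderOf σ = 2) :
    nI t U σ = (centralizer {σ}).relIndex U := by
  have h1 := fib U σ (fun u hu => h.nmU (h.cS σ hσ) hu)
    (h2 ▸ (Nat.prime_two.coprime_iff_not_dvd).2 h.oddU) (fun x => if orderOf x = 2 then 1 else 0)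
    fun u _ x => by rw [orderOf_conj']
  rw [Finset.sum_eq_single (s := univ.filter fun c => c ∈ U ∧ c * σ = σ * c) 1 (fun c hc c1 => by
    obtain ⟨a, b⟩ := (mem_filter.1 hc).2
    refine if_neg fun e => c1 (h.sq_one a ?_)
    have := mul_self_of_two e
    rwa [mul_assoc, ← mul_assoc c, b, mul_assoc, ← mul_assoc σ σ, mul_self_of_two h2,
      one_mul] at this) (by simp), mul_one, if_pos h2, smul_eq_mul, mul_one,
    ← Finset.card_filter, Finset.filter_filter] at h1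
  rw [← h1, nI]
  refine Finset.card_equiv (Equiv.mulLeft σ⁻¹) fun x => ?_
  simp only [mem_filter, mem_univ, true_and, Equiv.coe_mulLeft, mul_inv_cancel_left]
  exact ⟨fun e => ⟨e.2, (orderOf_isConj e.1).symm.trans h.ord⟩, fun e => ⟨(h.conj x e.2).symm, e.1⟩⟩

lemma nI_t : nI t U t = 1 := by rw [h.nI_inv h.tS h.ord, relIndex_eq_one.2 h.U_le]

/-- A function on `U` that is invariant under local fusion is invariant under fusion. -/
lemma fus {ν : G → ℂ} (h1 : ∀ c y, c * t = t * c → y ∈ U → ν (c * y * c⁻¹) = ν y)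
    (h2 : ∀ σ ∈ S, orderOf σ = 2 → σ ≠ t → ∃ c, c * σ * c⁻¹ = t ∧
      ∀ y ∈ U, y * σ = σ * y → ν (c * y * c⁻¹) = ν y) {y g : G} (hy : y ∈ U)
    (hg : g * y * g⁻¹ ∈ U) : ν (g * y * g⁻¹) = ν y := by
  -- `P v a`: the value attached to the involution `v` centralizing `y` is `a`
  have mem : ∀ {c v y : G}, c * v * c⁻¹ = t → y * v = v * y → ¬ 2 ∣ orderOf y →
      c * y * c⁻¹ ∈ U := fun {c v y} e1 e2 e3 =>
    (h.memU _).2 ⟨by rwa [← e1, J.conj_comm_iff], by rwa [orderOf_conj']⟩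
  have wd : ∀ {c d v y : G}, c * v * c⁻¹ = t → d * v * d⁻¹ = t → y * v = v * y →
      ¬ 2 ∣ orderOf y → ν (c * y * c⁻¹) = ν (d * y * d⁻¹) := fun {c d v y} e1 e2 e3 e4 => by
    rw [← h1 (c * d⁻¹) _ (by
      rw [← mul_inv_eq_iff_eq_mul]; nth_rw 1 [← e2]; rw [← e1]; group) (mem e2 e3 e4)]
    congr 1; group
  have st : ∀ {v y : G}, orderOf v = 2 → v * t = t * v → y ∈ U → y * v = v * y →
      ∀ c, c * v * c⁻¹ = t → ν (c * y * c⁻¹) = ν y := fun {v y} e1 e2 e3 e4 c e5 => by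
    obtain ⟨u, hu, hS⟩ := h.inv_conj (mul_self_of_two e1) e2
    by_cases f : u * v * u⁻¹ = t
    · rw [wd e5 f e4 (h.uo e3), h1 u y (h.ut hu) e3]
    · obtain ⟨d, d1, d2⟩ := h2 _ hS (by rwa [orderOf_conj']) f
      rw [wd (d := d * u) e5 (by rw [← d1]; group) e4 (h.uo e3), ← h1 u y (h.ut hu) e3,
        ← d2 _ (h.nmU (h.ut hu) e3) (by rwa [J.conj_comm_iff])]
      congr 1; group
  have st' : ∀ {v w c d : G}, c * v * c⁻¹ = t → d * w * d⁻¹ = t → v * w = w * v →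
      y * v = v * y → y * w = w * y → ν (c * y * c⁻¹) = ν (d * y * d⁻¹) :=
    fun {v w c d} e1 e2 e3 e4 e5 => by
      rw [← st (v := c * w * c⁻¹) (by rw [orderOf_conj', ← orderOf_conj' d, e2, h.ord])
        (by rw [← e1, J.conj_comm_iff, e3]) (mem e1 e4 (h.uo hy)) (by rwa [J.conj_comm_iff])
        (d * c⁻¹) (by rw [← e2]; group)]
      congr 1; group
  obtain ⟨v, hv⟩ : ∃ v, g * v * g⁻¹ = t := ⟨g⁻¹ * t * g, by group⟩
  have yv : y * v = v * y := by rw [← J.conj_comm_iff g, hv]; exact h.ut hg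
  have vv : v * v = 1 := (MulAut.conj g).injective (by
    simp only [MulAut.conj_apply, ← conj_mul, hv, map_one, h.tt])
  have yc : ∀ j : ℕ, Commute y ((t * v) ^ j) := fun j =>
    ((show Commute y t from h.ut hy).mul_right yv).pow_right j
  by_cases ho : 2 ∣ orderOf (t * v)
  · obtain ⟨j, hj⟩ := ho
    have hz : orderOf ((t * v) ^ j) = 2 := by
      have j0 : j ≠ 0 := fun e => (orderOf_pos (t * v)).ne' (by rw [hj, e])
      rw [orderOf_pow' _ j0, hj, Nat.gcd_mul_left_left, Nat.mul_div_cancel _ (Nat.pos_of_ne_zero j0)]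
    have zi := inv_eq_of_mul_eq_one_right (mul_self_of_two hz)
    have ti := inv_eq_of_mul_eq_one_right h.tt
    have vi := inv_eq_of_mul_eq_one_right vv
    have zt : (t * v) ^ j * t = t * (t * v) ^ j := by
      rw [eq_comm, ← mul_inv_eq_iff_eq_mul, ← conj_pow, ← zi, ← inv_pow, ← mul_assoc, h.tt,
        one_mul, _root_.mul_inv_rev, vi]
    have zv : v * (t * v) ^ j = (t * v) ^ j * v := by
      rw [← mul_inv_eq_iff_eq_mul, ← conj_pow, ← zi, ← inv_pow, _root_.mul_inv_rev, vi, ti]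
      congr 1
      rw [mul_assoc, mul_assoc, vv, mul_one]
    obtain ⟨d, hd⟩ := isConj_iff.1 (h.conj _ hz)
    rw [st' hv hd zv yv (yc j).eq, st hz zt hy (yc j).eq d hd]
  · obtain ⟨j, hj⟩ := J.dihedral h.tt vv ho
    rw [wd hv hj yv (h.uo hy), ← (yc j).eq, mul_inv_cancel_right]

/-- The values on `2`-singular elements are given by the twisted averages. -/
lemma mb {J : Type} [Fintype J] {μ : J → G → ℂ} (hμ : ∀ j, Adm t S (μ j))
    (hne : ∀ i j, i ≠ j → ∃ x ∈ U, μ i x ≠ μ j x)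
    (h2 : ∀ σ ∈ S, orderOf σ = 2 → σ ≠ t → ∃ c, c * σ * c⁻¹ = t ∧
      ∀ y ∈ U, y * σ = σ * y → ∑ j, μ j (c * y * c⁻¹) = ∑ j, μ j y) (l) :
    (∀ σ ∈ S, σ = t ∨ σ * σ = t → ∀ u ∈ U, T.χ l (σ * u) = ∑ j, μ j u * T.cf U σ (μ j) l) ∨
      ∀ σ ∈ S, σ = t ∨ σ * σ = t → ∀ u ∈ U, ∑ j, μ j u * T.cf U σ (μ j) l = 0 := by
  have lin : ∀ j, Lin U (μ j) := fun j => (hμ j).1.mono h.U_le
  have hf := fun {y g} => h.fus (ν := fun y => ∑ j, μ j y) (fun c y hc hy =>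
    Finset.sum_congr rfl fun j _ =>
      (hμ j).1.conj_self (mem_centralizer_singleton_iff.2 hc) (h.U_le hy)) h2 (y := y) (g := g)
  obtain ⟨f, f1, f2⟩ : ∃ f : G → ℂ, (∀ g x, g * x * g⁻¹ ∈ U →
      f x = ∑ j, μ j (g * x * g⁻¹)⁻¹) ∧ ∀ x, (¬ ∃ g, g * x * g⁻¹ ∈ U) → f x = 0 := by
    refine ⟨fun x => if e : ∃ g, g * x * g⁻¹ ∈ U then ∑ j, μ j (e.choose * x * e.choose⁻¹)⁻¹
      else 0, fun g x hx => ?_, fun x hx => dif_neg hx⟩
    have e : ∃ g, g * x * g⁻¹ ∈ U := ⟨g, hx⟩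
    beta_reduce
    rw [dif_pos e, ← hf (g := e.choose * g⁻¹) (inv_mem hx) (by
      simpa [mul_assoc] using inv_mem e.choose_spec)]
    simp [mul_assoc]
  have fc : ∀ g x, f (g * x * g⁻¹) = f x := fun g x => by
    by_cases e : ∃ c, c * x * c⁻¹ ∈ U
    · obtain ⟨c, hc⟩ := e
      rw [f1 c x hc, f1 (c * g⁻¹) _ (by simpa [mul_assoc] using hc)]
      simp [mul_assoc]
    · rw [f2 x e, f2 _ fun ⟨c, hc⟩ => e ⟨c * g, by simpa [mul_assoc] using hc⟩]
  have fi : ∀ x, IsIntegral ℤ (f x) := fun x => by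
    by_cases e : ∃ c, c * x * c⁻¹ ∈ U
    · obtain ⟨c, hc⟩ := e
      rw [f1 c x hc]
      exact IsIntegral.sum _ fun j _ => (lin j).int (inv_mem hc)
    · rw [f2 x e]; exact isIntegral_zero
  obtain ⟨E, hE⟩ : ∃ E : J → Matrix _ _ ℂ, ∀ j, E j = ∑ u : U, μ j (u : G)⁻¹ • T.ρ l u :=
    ⟨_, fun _ => rfl⟩
  have e1 : ∑ j, E j = ∑ y ∈ univ.filter (fun y => t * y = y * t), f y • T.ρ l y := by
    simp only [hE]
    rw [Finset.sum_comm, ← Finset.sum_subset (s₁ := univ.filter (· ∈ U)) (fun x hx => by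
      simpa using (h.ut (mem_filter.1 hx).2).symm) (fun x hx hx' => by
      rw [f2 x fun ⟨g, hg⟩ => hx' ?_, zero_smul]
      exact mem_filter.2 ⟨mem_univ _, (h.memU x).2 ⟨(mem_filter.1 hx).2.symm,
        orderOf_conj' g x ▸ h.uo hg⟩⟩), Finset.sum_subtype (p := (· ∈ U)) _ (by simp)]
    refine Finset.sum_congr rfl fun u _ => ?_
    rw [f1 1 u (by simp), Finset.sum_smul]
    simp
  have e2 : ∀ j, ∀ u ∈ U, T.ρ l u * E j = μ j u • E j := fun j u hu => by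
    rw [hE, Finset.mul_sum, Finset.smul_sum]
    refine Fintype.sum_equiv (Equiv.mulLeft (⟨u, hu⟩ : U)) _ _ fun v => ?_
    simp only [Equiv.coe_mulLeft, Subgroup.coe_mul, _root_.mul_inv_rev, smul_smul, map_mul,
      mul_smul_comm]
    rw [(lin j).2 _ (inv_mem v.2) _ (inv_mem hu), mul_left_comm, mul_comm (μ j u),
      (lin j).inv_mul hu, mul_one]
  have e3 : (∑ j, E j) * ∑ j, E j = ((Nat.card U : ℤ) : ℂ) • ∑ j, E j := by
    rw [Finset.mul_sum, Finset.smul_sum]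
    refine Finset.sum_congr rfl fun j _ => ?_
    have : ∀ i, E i * E j = (∑ u : U, μ j u * μ i (u : G)⁻¹) • E j := fun i => by
      rw [hE i, Finset.sum_mul, Finset.sum_smul]
      exact Finset.sum_congr rfl fun u _ => by rw [smul_mul_assoc, e2 j u u.2, smul_smul, mul_comm]
    rw [Finset.sum_mul, Finset.sum_eq_single j (fun i _ hi => by
      obtain ⟨x, hx, e⟩ := hne j i hi.symm
      rw [this, (lin j).orth_ne (lin i) hx e, zero_smul]) (by simp), this, (lin j).orth_self]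
    simp
  have e4 : ∀ σ, ∀ u ∈ U, trace (T.ρ l (σ * u) * ∑ j, E j) =
      Nat.card U * ∑ j, μ j u * T.cf U σ (μ j) l := fun σ u hu => by
    rw [Finset.mul_sum, trace_sum, Finset.mul_sum]
    refine Finset.sum_congr rfl fun j _ => ?_
    rw [map_mul, mul_assoc, e2 j u hu, mul_smul_comm, trace_smul, mul_left_comm, ← T.sum_cf, hE,
      Finset.mul_sum, trace_sum]
    simp [CT.χ]
  have hU : (Nat.card U : ℂ) ≠ 0 := Nat.cast_ne_zero.2 Nat.card_pos.ne'
  have key := fun σ (hσ : σ ∈ S) (ha : σ = t ∨ σ * σ = t) u (hu : u ∈ U) =>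
    T.mb l Nat.prime_two f fc fi (x := σ * u) (u := t)
      ((show Commute σ t from h.cS σ hσ).mul_left (h.ut hu)).eq (fun y k hy hk => by
        obtain ⟨j, rfl⟩ := Nat.not_even_iff_odd.1 fun e => hk e.two_dvd
        obtain ⟨N, hN⟩ : ∃ N, (σ * u) ^ N = t := (h.ab_pow hσ ha hu).elim (fun e => ⟨_, e.1⟩)
          fun e => ⟨_, e⟩
        have := (Commute.pow_left hy N).eq
        rwa [← pow_mul, mul_comm _ N, pow_mul, hN, pow_succ, pow_mul, pow_two, h.tt, one_pow,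
          one_mul] at this) (m := Nat.card U) (by exact_mod_cast h.oddU) e1 e3
  by_cases hN : Nil 2 (T.om l f)
  · exact Or.inr fun σ hσ ha u hu =>
      (mul_eq_zero.1 ((e4 σ u hu).symm.trans ((key σ hσ ha u hu).2 hN))).resolve_left hU
  · exact Or.inl fun σ hσ ha u hu => mul_left_cancel₀ hU (by
      rw [← e4 σ u hu, ← (key σ hσ ha u hu).1 hN]; simp)

end Dih

end Pool.Agent.Lib.MP_cb9dee_al
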