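import Pool.Agent.Lib.MP_cb9dee_al.CDefs
import Pool.Agent.Lib.MP_cb9dee_al.CE2

namespace Pool.Agent.Lib.MP_cb9dee_al

open Subgroup

variable {G : Type} [Group G]

namespace CL

lemma arith1 {k p m i j d : ℕ} (hk : 2 ∣ k) (h5 : 5 ≤ p)
    (par : (p = 2 * k + 1 ∧ m = k + 1) ∨ (p + 1 = 2 * k ∧ m + 1 = k)) (hj : 4 ≤ j) (hd : 0 < d)
    (e : i * (2 * k * d) = j * (2 * k * p * m * d)) (hb : i * d ^ 2 < (2 * k * d) ^ 2) :
    False := by
  have hk0 : 2 ≤ k := by omega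
  have e1 : i = j * (p * m) :=
    Nat.eq_of_mul_eq_mul_right (show 0 < 2 * k * d by positivity) (by rw [e]; ring)
  have e2 : i < 4 * k ^ 2 :=
    lt_of_mul_lt_mul_right (a := d ^ 2) (by rw [show 4 * k ^ 2 * d ^ 2 = (2 * k * d) ^ 2 by ring]; exact hb)
      (Nat.zero_le _)
  have e3 : 4 * (p * m) ≤ i := e1 ▸ Nat.mul_le_mul_right _ hj
  rcases par with ⟨rfl, rfl⟩ | ⟨a, rfl⟩
  · nlinarith
  · obtain rfl : p = 2 * m + 1 := by omega
    have : 3 ≤ m := by omega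
    nlinarith

lemma arith2 {k p m i j d e r : ℕ} (hr : 5 ≤ r) (hk : 2 * r ≤ k)
    (par : (p = 2 * k + 1 ∧ m = k + 1) ∨ (p + 1 = 2 * k ∧ m + 1 = k)) (hd : 0 < d) (he : 1 ≤ e)
    (her : e ≤ r) (hj : p * m * e ≤ j)
    (eq : i * ((e + 1) * (2 * k * d)) = j * (2 * k * p * m * d))
    (hb : i * d ^ 2 < ((e + 1) * (2 * k * d)) ^ 2) : False := by
  have hk0 : 10 ≤ k := by omega
  have e1 : i * (e + 1) = j * (p * m) :=
    Nat.eq_of_mul_eq_mul_right (show 0 < 2 * k * d by positivity) (by rw [mul_assoc, eq]; ring)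
  have e2 : i < 4 * k ^ 2 * (e + 1) ^ 2 :=
    lt_of_mul_lt_mul_right (a := d ^ 2) (by
      rw [show 4 * k ^ 2 * (e + 1) ^ 2 * d ^ 2 = ((e + 1) * (2 * k * d)) ^ 2 by ring]
      exact hb) (Nat.zero_le _)
  have e3 : 17 * k ^ 2 ≤ 10 * (p * m) := by
    rcases par with ⟨rfl, rfl⟩ | ⟨a, rfl⟩
    · nlinarith
    · obtain rfl : p = 2 * m + 1 := by omega
      have : 9 ≤ m := by omega
      nlinarith
  generalize p * m = P at e1 e3 hj
  have e4 : P * e * P ≤ i * (e + 1) := e1 ▸ Nat.mul_le_mul_right _ hj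
  have e5 : i * (e + 1) < 4 * k ^ 2 * (e + 1) ^ 2 * (e + 1) :=
    Nat.mul_lt_mul_of_pos_right e2 (by omega)
  have e6 : (10 * (e + 1)) ^ 2 ≤ (6 * k) ^ 2 := Nat.pow_le_pow_left (by omega) 2
  have e7 : (17 * k ^ 2) ^ 2 ≤ (10 * P) ^ 2 := Nat.pow_le_pow_left e3 2
  have e8 : (10 * (e + 1)) ^ 2 * (e + 1) ≤ (6 * k) ^ 2 * (2 * e) := Nat.mul_le_mul e6 (by omega)
  have e9 : 4 * k ^ 2 * ((10 * (e + 1)) ^ 2 * (e + 1)) ≤ 4 * k ^ 2 * ((6 * k) ^ 2 * (2 * e)) :=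
    Nat.mul_le_mul_left _ e8
  have e10 : (17 * k ^ 2) ^ 2 * e ≤ (10 * P) ^ 2 * e := Nat.mul_le_mul_right _ e7
  have e11 : 0 ≤ k ^ 4 * e := Nat.zero_le _
  nlinarith

lemma card_split {H L D : Subgroup G} (hD : D ≤ H) (h1 : ∀ x ∈ L, x ∈ D → x = 1)
    (h2 : ∀ g ∈ H, ∃ l ∈ L, ∃ z ∈ D, g = l * z) :
    Nat.card H = Nat.card (H ⊓ L : Subgroup G) * Nat.card D := by
  rw [← Nat.card_prod]
  symm
  refine Nat.card_eq_of_bijective
    (fun q : (H ⊓ L : Subgroup G) × D => (⟨q.1 * q.2, mul_mem q.1.2.1 (hD q.2.2)⟩ : H)) ⟨?_, ?_⟩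
  · rintro ⟨a, b⟩ ⟨a', b'⟩ h
    have h : (a : G) * b = a' * b' := congrArg Subtype.val h
    have e : (a' : G)⁻¹ * a = b' * (b : G)⁻¹ := by
      rw [inv_mul_eq_iff_eq_mul, ← mul_assoc, ← h, mul_inv_cancel_right]
    have e1 := h1 _ (mul_mem (inv_mem a'.2.2) a.2.2) (e ▸ mul_mem b'.2 (inv_mem b.2))
    rw [inv_mul_eq_one] at e1
    obtain rfl : a = a' := Subtype.ext e1.symm
    obtain rfl : b = b' := Subtype.ext (mul_left_cancel h)
    rfl
  · rintro ⟨g, hg⟩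
    obtain ⟨l, hl, z, hz, rfl⟩ := h2 g hg
    exact ⟨(⟨l, by simpa using mul_mem hg (inv_mem (hD hz)), hl⟩, ⟨z, hz⟩), rfl⟩

lemma card_ne {α : Type} [Finite α] (a : α) : Nat.card {x : α // x ≠ a} = Nat.card α - 1 := by
  classical
  have := Fintype.ofFinite α
  rw [Nat.card_eq_fintype_card, Nat.card_eq_fintype_card, Fintype.card_subtype_compl,
    Fintype.card_subtype_eq]

lemma odd_part [Finite G] {l z : G} (hc : z * l = l * z) (h1 : ¬ 2 ∣ orderOf (l * z))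
    (h2 : ¬ 2 ∣ orderOf z) : ¬ 2 ∣ orderOf l := by
  intro h
  have c : Commute (l * z) z⁻¹ := ((Commute.symm hc).mul_left (Commute.refl z)).inv_right
  have := c.orderOf_mul_dvd_mul_orderOf
  rw [mul_inv_cancel_right, orderOf_inv] at this
  exact ((Nat.prime_two.dvd_mul).1 (h.trans this)).elim h1 h2

lemma comm_part {l z y : G} (hc : z * y = y * z) (h : l * z * y = y * (l * z)) :
    l * y = y * l := by
  rw [mul_assoc, hc, ← mul_assoc, ← mul_assoc] at h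
  exact mul_right_cancel h

lemma norm_of_conj [Finite G] {P : Subgroup G} {r : ℕ} (hr : r.Prime) (hP : Nat.card P = r)
    {x c : G} (hx : x ∈ P) (h1 : x ≠ 1) (hc : c * x * c⁻¹ ∈ P) : c ∈ normalizer (P : Set G) := by
  have := Fact.mk hr
  refine mem_normalizer_fintype fun y hy => ?_
  obtain ⟨j, hj⟩ := mem_zpowers_iff.1 (mem_zpowers_of_prime_card hP (g := ⟨x, hx⟩) (g' := ⟨y, hy⟩)
    fun e => h1 (congrArg Subtype.val e))
  have e : x ^ j = y := congrArg Subtype.val hj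
  rw [← e, ← conj_zpow]
  exact zpow_mem hc j

/-- The torus of `L` through `t`, as a subgroup of the ambient group. -/
lemma exists_K {L : Subgroup G} {p k m : ℕ} (hL : Pack L p k m) {t : G} (ht : orderOf t = 2)
    (htL : t ∈ L) : Nat.card (centralizer ({t} : Set G) ⊓ L : Subgroup G) = 2 * k ∧
    ∃ K : Subgroup G, Nat.card K = k ∧ (∀ x ∈ K, x * x = 1 → x = 1 ∨ x = t) ∧
      (∀ u ∈ L, u * t = t * u → u ∉ K → u * u = 1 ∧ ∀ x ∈ K, u * x * u⁻¹ = x⁻¹) ∧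
      ∀ x ∈ K, x ≠ 1 → x ≠ t → ∀ y ∈ L, y * x = x * y → y ∈ K := by
  obtain ⟨h1, K, h2, -, -, h5, h6, h7⟩ := hL.cent ⟨t, htL⟩ (by rwa [← Subgroup.orderOf_coe])
  have hm : ∀ (u : G) (hu : u ∈ L), u ∈ K.map L.subtype ↔ (⟨u, hu⟩ : L) ∈ K := fun u hu =>
    mem_map_iff_mem (f := L.subtype) (x := ⟨u, hu⟩) Subtype.val_injective
  refine ⟨?_, K.map L.subtype, (card_map_of_injective Subtype.val_injective).trans h2, ?_, ?_, ?_⟩
  · rw [← h1]
    refine Nat.card_congr ⟨fun x => ⟨⟨x, x.2.2⟩, mem_centralizer_singleton_iff.2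
      (Subtype.ext (mem_centralizer_singleton_iff.1 x.2.1))⟩,
      fun x => ⟨x.1, mem_centralizer_singleton_iff.2
        (congrArg Subtype.val (mem_centralizer_singleton_iff.1 x.2)), x.1.2⟩,
      fun _ => rfl, fun _ => rfl⟩
  · rintro _ ⟨x, hx, rfl⟩ h
    exact (h5 x hx (Subtype.ext h)).imp (congrArg Subtype.val) (congrArg Subtype.val)
  · intro u hu h hK
    obtain ⟨a, b⟩ := h6 ⟨u, hu⟩ (Subtype.ext h) (fun e => hK ((hm u hu).2 e))
    refine ⟨congrArg Subtype.val a, ?_⟩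
    rintro _ ⟨x, hx, rfl⟩
    exact congrArg Subtype.val (b x hx)
  · rintro _ ⟨x, hx, rfl⟩ a b y hy h
    exact (hm y hy).2 (h7 x hx (fun e => a (congrArg Subtype.val e))
      (fun e => b (congrArg Subtype.val e)) ⟨y, hy⟩ (Subtype.ext h))

lemma out_ext {A B : Subgroup G} {q q' : A ⧸ B.subgroupOf A}
    (h : ((q.out : A) : G)⁻¹ * (q'.out : A) ∈ B) : q = q' := by
  rw [← q.out_eq', ← q'.out_eq']
  exact QuotientGroup.eq.2 h

end CL

theorem loc_V [Finite G] [IsSimpleGroup G] (hn : Full (Nat.card G)) (h4 : 4 ∣ Nat.card G)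
    {t s : G} {U D R L : Subgroup G} {r p k m : ℕ} (ht : orderOf t = 2) (hs : orderOf s = 2)
    (hst : s * t = t * s) (hne : s ≠ t)
    (hU : ∀ x, x ∈ U ↔ x * t = t * x ∧ ¬ 2 ∣ orderOf x) (hD : ∀ x, x ∈ D ↔ x ∈ U ∧ x * s = s * x)
    (hr : r.Prime) (h5 : 5 ≤ r) (hRU : R ≤ U) (hR : Nat.card R ∣ r ^ 2)
    (hRn : ∀ c, c * t = t * c → ∀ x ∈ R, c * x * c⁻¹ ∈ R) (h0 : R ⊓ D ≠ ⊥)
    (hL : Pack L p k m) (htL : t ∈ L) (hsL : s ∈ L)
    (hLM : L ≤ normalizer ((R ⊓ D : Subgroup G) : Set G))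
    (hML : ∀ g ∈ normalizer ((R ⊓ D : Subgroup G) : Set G), ∀ x ∈ L, g * x * g⁻¹ ∈ L)
    (hZ : ∀ z ∈ normalizer ((R ⊓ D : Subgroup G) : Set G), (∀ y ∈ L, z * y = y * z) →
      ¬ 2 ∣ orderOf z)
    (hLZ : ∀ g ∈ normalizer ((R ⊓ D : Subgroup G) : Set G), ∃ l ∈ L, ∃ z,
      (∀ y ∈ L, z * y = y * z) ∧ g = l * z)
    (hb : (centralizer ({t} : Set G)).index * Nat.card D ^ 2 <
      Nat.card (centralizer ({t} : Set G)) ^ 2) : False := by
  have _ := hML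
  have := Fact.mk hr
  obtain ⟨hC, K, K1, K2, K3, K4⟩ := CL.exists_K hL ht htL
  generalize hR0 : R ⊓ D = R0 at *
  generalize hM : normalizer (R0 : Set G) = M at *
  generalize hCe : centralizer ({t} : Set G) = C at *
  have mC : ∀ x, x ∈ C ↔ x * t = t * x := fun x => hCe ▸ mem_centralizer_singleton_iff
  have m0 : ∀ x, x ∈ R0 ↔ x ∈ R ∧ x ∈ D := fun x => hR0 ▸ Iff.rfl
  have toM : ∀ g, (∀ x ∈ R0, g * x * g⁻¹ ∈ R0) → g ∈ M := fun g h =>
    hM ▸ mem_normalizer_fintype h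
  have ofM : ∀ g ∈ M, ∀ x ∈ R0, g * x * g⁻¹ ∈ R0 := fun g h x hx =>
    (mem_normalizer_iff.1 (hM ▸ h : g ∈ normalizer (R0 : Set G)) x).1 hx
  have hsK : s ∉ K := fun h => (K2 s h (mul_self_of_two hs)).elim (ne_one_of_two hs) hne
  have oddK : ∀ l ∈ L, l * t = t * l → ¬ 2 ∣ orderOf l → l ∈ K := by
    intro l hl h1 h2
    by_contra h
    rw [eq_one_of_eq_inv h2 (eq_inv_of_mul_eq_one_left (K3 l hl h1 h).1)] at h
    exact h K.one_mem
  have F1 : ∀ l ∈ L, l * t = t * l → l * s = s * l → ¬ 2 ∣ orderOf l → l = 1 := by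
    intro l hl h1 h2 h3
    refine eq_one_of_eq_inv h3 ?_
    rw [← (K3 s hsL hst hsK).2 l (oddK l hl h1 h3), ← h2, mul_inv_cancel_right]
  have LD : ∀ x ∈ L, x ∈ D → x = 1 := fun x hx hd =>
    F1 x hx ((hU x).1 ((hD x).1 hd).1).1 ((hD x).1 hd).2 ((hU x).1 ((hD x).1 hd).1).2
  have DM : D ≤ M := fun d hd => toM d fun x hx =>
    (m0 _).2 ⟨hRn d ((hU d).1 ((hD d).1 hd).1).1 x ((m0 x).1 hx).1,
      mul_mem (mul_mem hd ((m0 x).1 hx).2) (inv_mem hd)⟩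
  have dec : ∀ g ∈ M, ∃ l ∈ L, ∃ z ∈ D, (∀ y ∈ L, z * y = y * z) ∧ g = l * z := by
    intro g hg
    obtain ⟨l, hl, z, hz, rfl⟩ := hLZ g hg
    have hzM : z ∈ M := by simpa using mul_mem (inv_mem (hLM hl)) hg
    exact ⟨l, hl, z, (hD z).2 ⟨(hU z).2 ⟨hz t htL, hZ z hzM hz⟩, hz s hsL⟩, hz, rfl⟩
  have oddD : ∀ d ∈ D, ¬ 2 ∣ orderOf d := fun d hd => ((hU d).1 ((hD d).1 hd).1).2
  have DL : ∀ d ∈ D, ∀ y ∈ L, d * y = y * d := by
    intro d hd
    obtain ⟨l, hl, z, hz, hzL, rfl⟩ := dec d (DM hd)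
    have : l = 1 := LD l hl (by simpa using mul_mem hd (inv_mem hz))
    simpa [this] using hzL
  have cM : Nat.card M = 2 * k * p * m * Nat.card D := by
    rw [CL.card_split DM LD fun g hg => by
      obtain ⟨l, hl, z, hz, -, e⟩ := dec g hg
      exact ⟨l, hl, z, hz, e⟩, inf_eq_right.2 hLM, hL.card]
  have cCM : Nat.card (C ⊓ M : Subgroup G) = 2 * k * Nat.card D := by
    rw [CL.card_split (H := C ⊓ M)
      (le_inf (fun d hd => (mC d).2 ((hU d).1 ((hD d).1 hd).1).1) DM) LD fun g hg => by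
      obtain ⟨l, hl, z, hz, -, e⟩ := dec g hg.2
      exact ⟨l, hl, z, hz, e⟩, inf_assoc, inf_eq_right.2 hLM, hC]
  have R0R : R0 ≤ R := fun x hx => ((m0 x).1 hx).1
  have c0 : Nat.card R0 ∣ r ^ 2 := (card_dvd_of_le R0R).trans hR
  have hM4 : 4 ≤ M.index := four_le_index h4 (hM ▸ centralizer_ne_top h4 h0 fun h => by
    have := (Nat.prime_dvd_prime_iff_eq Nat.prime_two hr).1
      (Nat.prime_two.dvd_of_dvd_pow ((show 2 ∣ 4 by norm_num).trans (h.trans c0)))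
    omega)
  have hG : C.index * Nat.card C = M.index * Nat.card M := by rw [index_mul_card, index_mul_card]
  have hd0 : 0 < Nat.card D := Nat.card_pos
  by_cases hCM : C ≤ M
  · rw [inf_eq_left.2 hCM] at cCM
    rw [cCM, cM] at hG
    rw [cCM] at hb
    exact CL.arith1 hL.even hL.five hL.par hM4 hd0 hG hb
  have hRR : ¬ R ≤ R0 := fun h => hCM fun c hc => toM c fun x hx =>
    h (hRn c ((mC c).1 hc) x (R0R hx))
  have hlt : Nat.card R0 < Nat.card R := by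
    by_contra h
    exact hRR (eq_of_le_of_card_ge R0R (not_lt.1 h)).ge
  have hgt : 1 < Nat.card R0 := (one_lt_card_iff_ne_bot R0).2 h0
  obtain ⟨cR0, cR⟩ : Nat.card R0 = r ∧ Nat.card R = r ^ 2 := by
    obtain ⟨a, ha, ea⟩ := (Nat.dvd_prime_pow hr).1 c0
    obtain ⟨b, hb, eb⟩ := (Nat.dvd_prime_pow hr).1 hR
    rw [ea, eb, Nat.pow_lt_pow_iff_right hr.one_lt] at hlt
    rw [ea, ← pow_zero r, Nat.pow_lt_pow_iff_right hr.one_lt] at hgt
    obtain rfl : a = 1 := by omega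
    obtain rfl : b = 2 := by omega
    exact ⟨by rw [ea, pow_one], eb⟩
  have DR0 : ∀ d ∈ D, ∀ x ∈ R0, d * x = x * d := by
    intro d hd
    obtain ⟨a, ha⟩ := exists_isCj (ofM d (DM hd))
    rw [← ha.eq_one_iff]
    by_contra h1
    obtain ⟨q, hq, hqa⟩ := Nat.exists_prime_and_dvd fun e => h1 (orderOf_eq_one_iff.1 e)
    have h2 := hqa.trans ha.orderOf_dvd
    have hcyc : IsCyclic R0 := isCyclic_of_prime_card cR0
    have h3 := hqa.trans (orderOf_dvd_natCard a)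
    rw [hcyc.card_mulAut, cR0, Nat.totient_prime hr] at h3
    exact hn.2.1 r q hr hq (fun e => oddD d hd (e ▸ h2)) (h2.trans (orderOf_dvd_natCard d))
      (cR ▸ card_subgroup_dvd_card R) (by omega) h3
  have MR0 : ∀ g ∈ M, ∀ x ∈ R0, g * x = x * g := by
    intro g hg x hx
    obtain ⟨l, hl, z, hz, -, rfl⟩ := dec g hg
    rw [mul_assoc, DR0 z hz x hx, ← mul_assoc, ← DL x ((m0 x).1 hx).2 l hl, mul_assoc]
  have RM : R ≤ M := fun x hx => toM x fun y hy => by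
    have : x * y = y * x := congrArg Subtype.val (comm_of_card hr hR ⟨x, hx⟩ ⟨y, R0R hy⟩)
    rw [this, mul_inv_cancel_right]
    exact hy
  have decR : ∀ x ∈ R, x ∉ D → ∃ l ∈ K, l ≠ 1 ∧ l ≠ t ∧ l ^ r ^ 2 = 1 ∧
      ∀ v ∈ L, v * x = x * v → v * l = l * v := by
    intro x hx hxD
    obtain ⟨l, hl, z, hz, hzL, rfl⟩ := dec x (RM hx)
    have hu := (hU _).1 (hRU hx)
    have ho := CL.odd_part (hzL l hl) hu.2 (oddD z hz)
    refine ⟨l, oddK l hl (CL.comm_part (hzL t htL) hu.1) ho, ?_, ?_, ?_,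
      fun v hv h => (CL.comm_part (hzL v hv) h.symm).symm⟩
    · rintro rfl
      exact hxD (by simpa using hz)
    · rintro rfl
      exact ho (ht ▸ dvd_rfl)
    · have e : (l * z) ^ r ^ 2 = 1 :=
        orderOf_dvd_iff_pow_eq_one.1 ((Subgroup.orderOf_dvd_natCard R hx).trans hR)
      rw [(Commute.symm (hzL l hl)).mul_pow, mul_eq_one_iff_eq_inv] at e
      exact LD _ (pow_mem hl _) (e ▸ inv_mem (pow_mem hz _))
  have hk : 2 * r ≤ k := by
    obtain ⟨x, hx, hx0⟩ : ∃ x ∈ R, x ∉ R0 := by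
      by_contra! h
      exact hRR h
    obtain ⟨l, hl, l1, -, l2, -⟩ := decR x hx fun h => hx0 ((m0 x).2 ⟨hx, h⟩)
    obtain ⟨a, ha, ea⟩ := (Nat.dvd_prime_pow hr).1 (orderOf_dvd_of_pow_eq_one l2)
    have h1 : r ∣ k := by
      refine Dvd.dvd.trans ?_ (K1 ▸ Subgroup.orderOf_dvd_natCard K hl)
      rw [ea]
      refine dvd_pow_self r ?_
      rintro rfl
      exact l1 (orderOf_eq_one_iff.1 ea)
    refine Nat.le_of_dvd (K1 ▸ Nat.card_pos) (Nat.Coprime.mul_dvd_of_dvd_of_dvd ?_ hL.even h1)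
    exact (Nat.coprime_primes Nat.prime_two hr).2 (by omega)
  have cC : Nat.card C = Nat.card (C ⧸ M.subgroupOf C) * (2 * k * Nat.card D) := by
    rw [card_eq_card_quotient_mul_card_subgroup (M.subgroupOf C), ← cCM, ← inf_subgroupOf_left,
      Nat.card_congr (subgroupOfEquivOfLe (inf_le_left : C ⊓ M ≤ C)).toEquiv]
  have cL : Nat.card (L ⧸ C.subgroupOf L) = p * m := by
    have := card_eq_card_quotient_mul_card_subgroup (C.subgroupOf L)
    rw [← inf_subgroupOf_right,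
      Nat.card_congr (subgroupOfEquivOfLe (inf_le_right : C ⊓ L ≤ L)).toEquiv, hC, hL.card,
      inf_subgroupOf_right] at this
    refine Nat.eq_of_mul_eq_mul_right (show 0 < 2 * k by omega) ?_
    rw [← this]
    ring
  have nc : ∀ x ∈ R0, x ≠ 1 → ∀ c, c * x * c⁻¹ ∈ R0 → c ∈ M := fun x hx h1 c hc =>
    hM ▸ CL.norm_of_conj hr cR0 hx h1 hc
  have up : Nat.card (C ⧸ M.subgroupOf C) * (r - 1) ≤ r ^ 2 - 1 := by
    rw [← cR, ← cR0, ← CL.card_ne (1 : R0), ← CL.card_ne (1 : R), ← Nat.card_prod]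
    refine Nat.card_le_card_of_injective
      (fun q : (C ⧸ M.subgroupOf C) × {x : R0 // x ≠ 1} =>
        (⟨⟨(q.1.out : C) * q.2.1 * ((q.1.out : C) : G)⁻¹,
          hRn _ ((mC _).1 q.1.out.2) _ (R0R q.2.1.2)⟩, fun e => q.2.2 (Subtype.ext (by
            simpa using congrArg Subtype.val e))⟩ : {x : R // x ≠ 1})) ?_
    rintro ⟨q, x⟩ ⟨q', x'⟩ h
    have h : ((q.out : C) : G) * x.1 * ((q.out : C) : G)⁻¹ =
        (q'.out : C) * x'.1 * ((q'.out : C) : G)⁻¹ :=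
      congrArg (fun y : {x : R // x ≠ 1} => (y.1 : G)) h
    obtain rfl : q = q' := by
      refine CL.out_ext (nc _ x'.1.2 (fun e => x'.2 (Subtype.ext e)) _ ?_)
      have : ((q.out : C) : G)⁻¹ * (q'.out : C) * x'.1 * (((q.out : C) : G)⁻¹ * (q'.out : C))⁻¹ =
          x.1 := by
        rw [mul_inv_rev, inv_inv, mul_assoc, mul_assoc, ← mul_assoc (x'.1 : G),
          ← mul_assoc ((q'.out : C) : G), ← mul_assoc ((q'.out : C) : G), ← h]
        group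
      rw [this]
      exact x.1.2
    rw [Subtype.ext (Subtype.ext (mul_left_cancel (mul_right_cancel h)) : x.1 = x'.1)]
  obtain ⟨y, hy, hy1⟩ : ∃ y ∈ R0, y ≠ 1 := by
    by_contra! h
    exact h0 ((eq_bot_iff_forall R0).2 h)
  have low : p * m * (Nat.card (C ⧸ M.subgroupOf C) - 1) ≤ M.index := by
    rw [← cL, ← CL.card_ne (((1 : C) : C ⧸ M.subgroupOf C)), ← Nat.card_prod, index_eq_card]
    refine Nat.card_le_card_of_injective
      (fun q : (L ⧸ C.subgroupOf L) × {x : C ⧸ M.subgroupOf C // x ≠ (1 : C)} =>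
        (((q.1.out : L) * (q.2.1.out : C) : G) : G ⧸ M)) ?_
    rintro ⟨a, q⟩ ⟨a', q'⟩ h
    have h := QuotientGroup.eq.1 h
    simp only at h
    set l : G := ((a.out : L) : G) with hl
    set l' : G := ((a'.out : L) : G) with hl'
    set c : G := ((q.1.out : C) : G) with hc
    set c' : G := ((q'.1.out : C) : G) with hc'
    have ct : c * t = t * c := (mC _).1 q.1.out.2
    have ct' : c' * t = t * c' := (mC _).1 q'.1.out.2
    have eR : c * y * c⁻¹ ∈ R := hRn c ct y (R0R hy)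
    have eR' : c' * y * c'⁻¹ ∈ R := hRn c' ct' y (R0R hy)
    have eD : c * y * c⁻¹ ∉ D := by
      intro hd
      have : c ∈ M := nc y hy hy1 c ((m0 _).2 ⟨eR, hd⟩)
      apply q.2
      rw [← q.1.out_eq']
      exact QuotientGroup.eq.2 (by simpa [mem_subgroupOf] using this)
    obtain ⟨l1, k1, n1, n2, -, hv⟩ := decR _ eR eD
    have w : l⁻¹ * l' ∈ L := mul_mem (inv_mem a.out.2) a'.out.2
    have e1 : c * y * c⁻¹ = l⁻¹ * l' * (c' * y * c'⁻¹) * (l⁻¹ * l')⁻¹ := by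
      have := MR0 _ h y hy
      calc c * y * c⁻¹ = c * (y * ((l * c)⁻¹ * (l' * c'))) * c'⁻¹ * (l⁻¹ * l')⁻¹ := by group
        _ = _ := by rw [← this]; group
    have e2 : c' * y * c'⁻¹ * t = t * (c' * y * c'⁻¹) := ((hU _).1 (hRU eR')).1
    have vK := K4 l1 k1 n1 n2 _ (mul_mem (mul_mem w htL) (inv_mem w))
      (hv _ (mul_mem (mul_mem w htL) (inv_mem w)) (by
        rw [e1, conj_mul, conj_mul, e2]))
    have vt := (K2 _ vK (by rw [conj_mul, mul_self_of_two ht]; simp)).resolve_left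
      fun e => ne_one_of_two ht (conj_eq_one_iff.1 e)
    obtain rfl : a = a' := CL.out_ext ((mC _).2 (mul_inv_eq_iff_eq_mul.1 vt))
    obtain rfl : q = q' := Subtype.ext (CL.out_ext (by simpa [hl, hl', mul_assoc] using h))
    rfl
  have two : Nat.card (C ⧸ M.subgroupOf C) ≠ 1 := fun e => hCM (relIndex_eq_one.1 e)
  obtain ⟨e, he⟩ : ∃ e, Nat.card (C ⧸ M.subgroupOf C) = e + 1 :=
    Nat.exists_eq_succ_of_ne_zero Nat.card_pos.ne'
  rw [he] at cC up low two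
  rw [cC, cM] at hG
  rw [cC] at hb
  refine CL.arith2 h5 hk hL.par hd0 (by omega) ?_ low hG hb
  obtain ⟨r', rfl⟩ : ∃ r', r = r' + 1 := ⟨r - 1, by omega⟩
  rw [show (r' + 1) ^ 2 - 1 = (r' + 2) * r' by
    rw [show (r' + 1) ^ 2 = (r' + 2) * r' + 1 by ring]; rfl] at up
  have := Nat.le_of_mul_le_mul_right up (by omega)
  omega

end Pool.Agent.Lib.MP_cb9dee_al
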