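import Pool.Agent.Lib.MP_cb9dee_al.JSix
import Pool.Agent.Lib.MP_cb9dee_al.MModel

/-! No simple group of admissible order has an elementary abelian Sylow `2`-subgroup of order `8`. -/

namespace Pool.Agent.Lib.MP_cb9dee_al

open Subgroup

variable {G : Type} [Group G] [Finite G]

theorem no_simple_eight [IsSimpleGroup G] (hn : Full (Nat.card G)) (ih : IH G) (S : Sylow 2 G)
    (h8 : Nat.card (S : Subgroup G) = 8) (h2 : ∀ x ∈ S, x * x = 1) : False := by
  have := Fact.mk Nat.prime_two
  refine J.Cx.false ⟨inferInstance, hn, ih, h8 ▸ card_subgroup_dvd_card _, fun x hx => ?_,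
    fun _ _ _ _ _ _ _ _ h => h.index_dvd_two⟩
  obtain ⟨g, hg⟩ := exists_conj_mem_sylow S (k := 3) hx
  simpa using h2 _ hg

end Pool.Agent.Lib.MP_cb9dee_al
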