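import Pool.Agent.Lib.MP_cb9dee_al.CD8
import Pool.Agent.Lib.MP_cb9dee_al.C2Main
import Pool.Agent.Lib.MP_cb9dee_al.C3Main
import Pool.Agent.Lib.MP_cb9dee_al.JMain

set_option linter.unusedSectionVars false

namespace Pool.Agent.Lib.MP_cb9dee_al

open Subgroup Finset Matrix
open scoped Classical

variable {G : Type} [Group G] [Fintype G]

lemma pack_fin [IsSimpleGroup G] (hn : Full (Nat.card G)) {t : G} {K : Subgroup G} {k : ℕ}
    (h : Tor t K k) (hti : TI t K) (T : CT G) (X W : Fin T.n) {δ ε x : ℤ} (hδ : δ = 1 ∨ δ = -1)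
    (hε : ε = 1 ∨ ε = -1) (hx : x = δ * T.d X) (hW : x + 1 = ε * T.d W) (h4 : 4 ∣ x - 1)
    (h1 : x ≠ 1) (hv : ∀ y, (orderOf y).Coprime k → 1 + δ * T.χ X y = ε * T.χ W y)
    (hi : (centralizer ({t} : Set G)).index * (1 + 1 / x - 4 * (1 / (x + 1 : ℤ)) : ℚ) = 2 * k ^ 2) :
    ∃ p m, Pack G p k m := by
  refine pack_of_tor hn h hti T X hδ hx h4 h1 ?_ fun y q e hq h2 h3 h5 h6 => ?_
  · have x0 : (x : ℚ) ≠ 0 := Int.cast_ne_zero.2 (by omega)
    have x1 : ((x + 1 : ℤ) : ℚ) ≠ 0 := Int.cast_ne_zero.2 (by omega)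
    push_cast at hi x1
    field_simp at hi
    exact_mod_cast (by linear_combination hi : ((centralizer ({t} : Set G)).index : ℚ) *
      (x - 1) ^ 2 = 2 * k ^ 2 * x * (x + 1))
  · obtain ⟨f, hf⟩ := T.d_dvd W
    have h7 : e = 2 * ε * f := by
      rw [Nat.card_eq_fintype_card, hf, hW] at h5
      refine mul_left_cancel₀ (Int.natCast_ne_zero.2 (T.hd W)) ?_
      push_cast at h5
      rcases hε with rfl | rfl <;> linarith
    have := hv y h3
    rw [T.defect_zero W hq hf (fun g => h6 (h7 ▸ (Int.natCast_dvd_natCast.2 g).mul_left _)) h2]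
      at this
    linear_combination this

lemma Tor.prs_eq {t : G} {K : Subgroup G} {k : ℕ} (h : Tor t K k) (hti : TI t K) {x : G}
    (hx : x ∈ K) (h1 : x ≠ 1) (h2 : x ≠ t) : prs (univ.filter (IsConj t ·)) x = k := by
  have h3 := Finset.card_filter_add_card_filter_not (s := univ.filter (· ∈ centralizer {t}))
    (· ∈ K)
  rw [C3.card_filter_mem, Finset.filter_filter, Finset.filter_filter, h.cardC,
    Finset.filter_congr (q := (· ∈ K)) (fun _ _ => and_iff_right_of_imp fun e => C3.K_le h e),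
    C3.card_filter_mem, h.cardK] at h3
  have inv : ∀ u, u * t = t * u → u ∉ K → IsConj t u := fun u a b =>
    (h.conj u (two_of_mul_self (h.out u a b).1 fun e => b (e ▸ K.one_mem))).symm
  refine Eq.trans (Finset.card_bij (fun z _ => z.1) (fun z hz => ?_) (fun z hz z' hz' e => ?_)
    fun u hu => ?_) (by omega : (univ.filter fun u => u ∈ centralizer {t} ∧ u ∉ K).card = k)
  · simp only [mem_filter, mem_product, mem_univ, true_and] at hz ⊢
    have a := mul_self_of_two ((orderOf_isConj hz.1.1).symm.trans h.ord)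
    have b := mul_self_of_two ((orderOf_isConj hz.1.2).symm.trans h.ord)
    have c : z.1 * x * z.1⁻¹ = x⁻¹ := by
      rw [← hz.2, ← mul_assoc, a, one_mul, _root_.mul_inv_rev, inv_eq_of_mul_eq_one_right b]
    refine ⟨mem_centralizer_singleton_iff.2 (C3.ti' h hti hx h1 (c ▸ inv_mem hx)), fun e => ?_⟩
    rw [h.comm _ e x hx, mul_inv_cancel_right] at c
    exact (h.uniq x hx (mul_eq_one_iff_eq_inv.2 c)).elim h1 h2
  · refine Prod.ext e (mul_left_cancel (a := z.1) ?_)
    rw [(mem_filter.1 hz).2, e, (mem_filter.1 hz').2]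
  · obtain ⟨a, b⟩ := (mem_filter.1 hu).2
    have a' := mem_centralizer_singleton_iff.1 a
    refine ⟨(u, u * x), ?_, rfl⟩
    simp only [mem_filter, mem_product, mem_univ, true_and]
    exact ⟨⟨inv u a' b, inv _ (mem_centralizer_singleton_iff.1 (mul_mem a (C3.K_le h hx)))
      fun e => b ((mul_mem_cancel_right hx).1 e)⟩, by rw [← mul_assoc, (h.out u a' b).1, one_mul]⟩

namespace Dih

variable {t a s : G} {S U : Subgroup G} (h : Dih t S U)
include h

lemma tor_of (ha : a ∈ S) (h1 : (zpowers a).relIndex S = 2) (h2 : t ∈ zpowers a)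
    (h3 : ∀ x ∈ zpowers a, x * x = 1 → x = 1 ∨ x = t)
    (h4 : ∀ σ ∈ S, σ ∉ zpowers a → σ * σ = 1 ∧ σ * a * σ⁻¹ = a⁻¹ ∧ U ⊓ centralizer {σ} = ⊥)
    (hs : s ∈ S) (hs' : s ∉ zpowers a) :
    ∃ K k, Tor t K k ∧ 2 * k = Nat.card U * Nat.card S ∧ U ≤ K ∧ s ∉ K := by
  have aS := zpowers_le.2 ha
  have inv : ∀ σ ∈ S, σ ∉ zpowers a → ∀ y ∈ U, σ * y * σ⁻¹ = y⁻¹ := fun σ hσ f =>
    J.inv_of_fpf (fun y hy => h.nmU (h.cS σ hσ) hy) (h4 σ hσ f).1 fun y hy e =>
      mem_bot.1 ((h4 σ hσ f).2.2.le (h.memD.2 ⟨hy, e⟩))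
  have c1 : ∀ x ∈ U, ∀ y ∈ U, Commute x y := fun x hx y hy => by
    have := inv s hs hs' _ (mul_mem hx hy)
    rw [← conj_mul, inv s hs hs' x hx, inv s hs hs' y hy, ← _root_.mul_inv_rev,
      _root_.inv_inj] at this
    exact this.symm
  have c2 : ∀ x ∈ U, ∀ z ∈ zpowers a, Commute x z := fun x hx z hz => by
    have := inv _ (mul_mem hs (aS hz)) (fun e => hs' ((mul_mem_cancel_right hz).1 e)) x hx
    rw [← inv s hs hs' x hx] at this
    have f : z * x * z⁻¹ = x := (MulAut.conj s).injective (by simpa [mul_assoc] using this)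
    exact (mul_inv_eq_iff_eq_mul.1 f).symm
  have c3 : ∀ x ∈ zpowers a, ∀ z ∈ zpowers a, Commute x z := by
    rintro _ ⟨i, rfl⟩ _ ⟨j, rfl⟩
    exact Commute.zpow_zpow_self a i j
  have mK : ∀ x, x ∈ U ⊔ zpowers a ↔ ∃ u ∈ U, ∃ z ∈ zpowers a, u * z = x := fun x => by
    rw [← SetLike.mem_coe, coe_sup_of_perm _ _
      (perm_of_conj fun z hz u hu => h.nmU (h.cS z (aS hz)) hu).symm]
    rfl
  have mK' : ∀ u ∈ U, ∀ σ ∈ S, u * σ ∈ U ⊔ zpowers a ↔ σ ∈ zpowers a := fun u hu σ hσ => by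
    refine ⟨fun e => ?_, fun e => (mK _).2 ⟨u, hu, σ, e, rfl⟩⟩
    obtain ⟨v, hv, z, hz, e⟩ := (mK _).1 e
    have : z * σ⁻¹ = v⁻¹ * u := by rw [eq_inv_mul_iff_mul_eq, ← mul_assoc, e, mul_inv_cancel_right]
    exact mul_inv_eq_one.1 (h.US (this ▸ mul_mem (inv_mem hv) hu)
      (mul_mem (aS hz) (inv_mem hσ))) ▸ hz
  have KC : U ⊔ zpowers a ≤ centralizer {t} := sup_le h.U_le (aS.trans h.le_cent)
  have ix : (U ⊔ zpowers a).relIndex (centralizer {t}) = 2 :=
    index_eq_two_iff.2 ⟨⟨s, h.le_cent hs⟩, fun b => by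
      obtain ⟨u, hu, σ, hσ, e⟩ := h.dec b (mem_centralizer_singleton_iff.1 b.2)
      rw [mem_subgroupOf, mem_subgroupOf, Subgroup.coe_mul, e, mul_assoc, mK' u hu σ hσ,
        mK' u hu _ (mul_mem hσ hs)]
      by_cases f : σ ∈ zpowers a
      · exact Or.inr ⟨f, fun g => hs' ((mul_mem_cancel_left f).1 g)⟩
      · exact Or.inl ⟨J.mul_mem_of_two h1 hσ hs f hs', f⟩⟩
  have cK := J.card_mul_rel KC
  refine ⟨U ⊔ zpowers a, _, ⟨h.ord, h.conj, fun e => h.odd (e.trans (index_dvd_of_le h.le_cent)),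
    by rw [← cK, ix, mul_comm], rfl, mem_sup_right h2, fun x hx y hy => ?_, fun x hx e => ?_,
    fun c hc e => ?_⟩, by rw [← h.cardC, ← cK, ix, mul_comm], le_sup_left,
    fun e => hs' ((mK' 1 U.one_mem s hs).1 (by simpa using e))⟩
  · obtain ⟨u, hu, z, hz, rfl⟩ := (mK x).1 hx
    obtain ⟨v, hv, w, hw, rfl⟩ := (mK y).1 hy
    exact (((c1 u hu v hv).mul_right (c2 u hu w hw)).mul_left
      ((c2 v hv z hz).symm.mul_right (c3 z hz w hw))).eq
  · obtain ⟨u, hu, z, hz, rfl⟩ := (mK x).1 hx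
    rw [(c2 u hu z hz).symm.mul_mul_mul_comm, mul_eq_one_iff_eq_inv] at e
    obtain rfl := h.sq_one hu (h.US (mul_mem hu hu) (e ▸ inv_mem (mul_mem (aS hz) (aS hz))))
    rw [one_mul] at e ⊢
    exact h3 z hz (inv_eq_one.1 e.symm)
  · obtain ⟨u, hu, σ, hσ, rfl⟩ := h.dec c hc
    rw [mK' u hu σ hσ] at e
    obtain ⟨f1, f2, -⟩ := h4 σ hσ e
    constructor
    · calc u * σ * (u * σ) = u * (σ * u * σ⁻¹) * (σ * σ) := by group
        _ = 1 := by rw [inv σ hσ e u hu, f1]; group
    · intro x hx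
      obtain ⟨v, hv, z, hz, rfl⟩ := (mK x).1 hx
      calc u * σ * (v * z) * (u * σ)⁻¹ = u * (σ * v * σ⁻¹ * (σ * z * σ⁻¹)) * u⁻¹ := by group
        _ = (v * z)⁻¹ := by
          rw [inv σ hσ e v hv, J.inv_zp f2 z hz, ← _root_.mul_inv_rev, ← (c2 v hv z hz).eq,
            ((c1 u hu v hv).mul_right (c2 u hu z hz)).inv_right.eq, mul_inv_cancel_right]

lemma rel_bot (e : U ⊓ centralizer {s} = ⊥) : (centralizer {s}).relIndex U = Nat.card U := by
  rw [← inf_relIndex_left, e, relIndex_bot_left]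

theorem d_pack (e : D8 t a s S) : ∃ p k m, Pack G p k m := by
  have := h.simple
  obtain ⟨K, k, h1, h2, -, h3⟩ := h.tor_of e.aS e.rel (e.aa ▸ mul_mem (mem_zpowers a) (mem_zpowers a))
    (fun x hx f => by
      rcases e.mem_zp hx with g | g | g | g
      exacts [Or.inl g, Or.inr g, absurd (by simpa [g, e.r] using f) h.t1,
        absurd (by simpa [g, mul_assoc, e.r] using f) h.t1])
    (fun σ hσ f => by
      have f1 : σ * σ = 1 := by
        have m1 := mem_zpowers a
        have m2 : t ∈ zpowers a := e.aa ▸ mul_mem m1 m1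
        rcases e.mem hσ with g | g | g | g | g | g | g | g <;> rw [g] at f ⊢
        exacts [by simp, h.tt, absurd m1 f, absurd (mul_mem m2 m1) f, e.ss,
          by simp [mul_assoc, e.r], by simp [mul_assoc, e.r], by simp [mul_assoc, e.r]]
      have e' := e.of_invol hσ f1 (fun g => f (g ▸ one_mem _))
        fun g => f (g ▸ e.aa ▸ mul_mem (mem_zpowers a) (mem_zpowers a))
      exact ⟨f1, by simp [mul_assoc, e'.r], h.d_bot e'⟩) e.sS e.not_mem
  obtain ⟨w, hw, -⟩ := h.exists_cyc e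
  obtain ⟨T⟩ := exists_ct G
  obtain ⟨j, l, δ, ε, x, -, -, a1, a2, a3, a4, a5, a6, -, a7, -, -, -, -, -, a8, -⟩ := h.d_prin T e
  obtain ⟨p, m, hp⟩ := pack_fin h.full h1 (h1.ti h.full.1 e.st' h3 hw.1 hw.2) T j l a1 a2 a3 a4
    (by omega) a6 (fun y hy => a7 y fun f => by
      simpa using Nat.eq_one_of_dvd_coprimes hy f (C3.two_dvd h1)) (by
      rw [a8, h.d_rel e, h.rel_bot (h.d_bot e), show k = 4 * Nat.card U by rw [e.card] at h2; omega]
      push_cast; ring)
  exact ⟨p, k, m, hp⟩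

theorem v_pack (v : V4 t s S) {w : G} (hw : Cyc t s w) : ∃ p k m, Pack G p k m := by
  have := h.simple
  have hD := h.v_bot v hw
  have sz : s ∉ zpowers t := fun e => ((mem_zpowers_two h.ord).1 e).elim v.s1 v.st
  obtain ⟨K, k, h1, h2, hU, h3⟩ := h.tor_of h.tS (by
      have := J.card_mul_rel (zpowers_le.2 h.tS)
      rw [Nat.card_zpowers, h.ord, v.card] at this
      omega) (mem_zpowers t) (fun x hx _ => (mem_zpowers_two h.ord).1 hx)
    (fun σ hσ f => ⟨v.exp σ hσ, by
      rw [h.cS σ hσ, mul_inv_cancel_right, inv_eq_of_mul_eq_one_right h.tt], by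
      rcases h.v_mem v hσ with rfl | rfl | rfl | rfl
      · exact absurd (one_mem _) f
      · exact absurd (mem_zpowers _) f
      · exact hD
      · refine eq_bot_iff.2 fun y hy => hD.le ?_
        obtain ⟨a, b⟩ := h.memD.1 hy
        rw [← mul_assoc, h.ut a, mul_assoc, mul_assoc, mul_right_inj] at b
        exact h.memD.2 ⟨a, b⟩⟩) v.sS sz
  have hti := h1.ti h.full.1 (h.cS s v.sS) h3 hw.1 hw.2
  have hk : k = 2 * Nat.card U := by rw [v.card] at h2; omega
  obtain ⟨T⟩ := exists_ct G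
  obtain ⟨α, i, j, l, n, a0, hα, a1, a2, a3, a4, hF, a5, a6⟩ := h.v_prin T v
  have hb := (h.v_bound v).1
  rw [h.rel_bot hD] at a6 hb
  refine (?_ : ∃ p m, Pack G p k m).imp fun p ⟨m, hp⟩ => ⟨k, m, hp⟩
  by_cases hU1 : U = ⊥
  · have c1 : Nat.card U = 1 := by rw [hU1, card_bot]
    have c2 := C3.card_G h1
    have c3 := T.sum_sq_le {j, l, n}
    rw [Finset.sum_insert (by simp [a1, a2]), Finset.sum_pair a3] at c3
    rw [c1] at hk hb a6
    have key : ∀ X Y Z, X = j ∨ X = l ∨ X = n → Y = j ∨ Y = l ∨ Y = n → Z = j ∨ Z = l ∨ Z = n →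
        α X * T.d X = 5 → α Y * T.d Y = -3 → α Z * T.d Z = -3 →
        (centralizer ({t} : Set G)).index = 15 →
        (∀ F : Fin T.n → ℂ, ∑ n, α n * F n = F i + α X * F X + α Y * F Y + α Z * F Z) →
        ∃ p m, Pack G p k m := fun X Y Z b1 b2 b3 b4 b5 b6 b7 b8 => by
      refine pack_of_tor h.full h1 hti T X (a4 X b1).2.1 b4.symm (by norm_num) (by norm_num)
        (by rw [b7, hk]; norm_num) fun y q e hq f1 f2 f3 f4 => ?_
      have g60 : Fintype.card G = 60 := by rw [c2, b7, hk]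
      have f5 := h.cf_val T (fun _ => 1) h.tS h.t1 (y := y) fun f => by
        simpa using Nat.eq_one_of_dvd_coprimes f2 f (C3.two_dvd h1)
      have f6 : ∀ V, V = j ∨ V = l ∨ V = n → α V * T.d V = -3 → T.χ V y = 0 := fun V g1 g2 =>
        T.defect_zero V (e := 20) hq (by
          rcases (a4 V g1).2.1 with g | g <;> rw [g] at g2 <;> omega) (fun g => f4 (by
          rw [Nat.card_eq_fintype_card, g60] at f3
          obtain rfl : e = 20 := by omega
          exact_mod_cast g)) f1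
      simp only [hα, b8, a0, f6 Y b2 b5, f6 Z b3 b6] at f5
      linear_combination f5
    have bd : ∀ V, V = j ∨ V = l ∨ V = n → T.d V ^ 2 ≤ 60 →
        α V * T.d V = -7 ∨ α V * T.d V = -3 ∨ α V * T.d V = 5 := fun V g1 g2 => by
      obtain ⟨-, g3, -, g4, g5⟩ := a4 V g1
      have : T.d V ≤ 7 := by nlinarith
      rcases g3 with g | g <;> rw [g] at g4 g5 ⊢ <;> omega
    rw [c2, hk] at c3
    have d1 := bd j (by simp) (by omega)
    have d2 := bd l (by simp) (by omega)
    have d3 := bd n (by simp) (by omega)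
    have d4 : (α j * T.d j = 5 ∧ α l * T.d l = -3 ∧ α n * T.d n = -3) ∨
        (α l * T.d l = 5 ∧ α j * T.d j = -3 ∧ α n * T.d n = -3) ∨
        (α n * T.d n = 5 ∧ α j * T.d j = -3 ∧ α l * T.d l = -3) := by omega
    have d5 : (centralizer ({t} : Set G)).index = 15 := by
      have : ((centralizer ({t} : Set G)).index : ℚ) = 15 := by
        rcases d4 with d | d | d <;> rw [d.1, d.2.1, d.2.2] at a6 <;> push_cast at a6 <;> linarith
      exact_mod_cast this
    rcases d4 with d | d | d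
    · exact key j l n (by simp) (by simp) (by simp) d.1 d.2.1 d.2.2 d5 hF
    · exact key l j n (by simp) (by simp) (by simp) d.1 d.2.1 d.2.2 d5 fun F => by rw [hF]; ring
    · exact key n j l (by simp) (by simp) (by simp) d.1 d.2.1 d.2.2 d5 fun F => by rw [hF]; ring
  obtain ⟨⟨u, hu⟩, u1⟩ := ne_bot_iff_exists_ne_one.1 hU1
  obtain ⟨lam, l1, l2, l3⟩ := exists_lin K (zpowers t) (fun x hx y hy => by
    rw [h1.comm x hx y hy]; simp) (hU hu) fun e =>
      u1 (Subtype.ext (h.US hu (zpowers_le.2 h.tS e)))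
  have lt := l3 t h1.mem (mem_zpowers t)
  have sK := (h1.out s (h.cS s v.sS) h3).2
  have ne1 : ∀ {x}, lam x ≠ 1 → x ≠ 1 := fun e f => e (f ▸ l1.1)
  obtain ⟨c, X, W, hc, X0, W0, -, -, -, hd, hG⟩ := T.norm3 K l1 (u := s)
    (fun x hx => sK x hx ▸ inv_mem hx) ⟨u, hU hu, fun e => l2 (l1.eq_one_of_coprime (hU hu) (k := 2)
      (by rw [pow_two, ← l1.inv_mul (hU hu), ← sK u (hU hu), e])
      ((Nat.prime_two.coprime_iff_not_dvd).2 (h.uo hu)).symm)⟩ (fun g x hx f hg => by
      have gt := C3.ti' h1 hti hx (ne1 f) hg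
      refine or_iff_not_imp_left.2 fun e => ?_
      have ix : K.relIndex (centralizer {t}) = 2 := by
        have := J.card_mul_rel (C3.K_le h1)
        rw [h1.cardK, h1.cardC, mul_comm] at this
        exact Nat.eq_of_mul_eq_mul_right (C3.k_pos h1) this
      exact J.mul_mem_of_two ix (mem_centralizer_singleton_iff.2 gt) (inv_mem (h.le_cent v.sS)) e
        (by rwa [inv_mem_iff])) a0
  have k0 : (k : ℂ) ≠ 0 := Nat.cast_ne_zero.2 (C3.k_pos h1).ne'
  have U0 : (Nat.card U : ℂ) ≠ 0 := Nat.cast_ne_zero.2 Nat.card_pos.ne'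
  rw [h1.cardK] at hc
  have hv : ∀ y, (∀ x ∈ K, IsConj x y⁻¹ → lam x = 1) → 1 + T.χ X y = T.χ W y := fun y hy => by
    have := T.val (fun k : K => 1 - lam k) (fun k => k) y⁻¹
    rw [Finset.sum_eq_zero (f := fun k : K => _ * (cnt _ _ : ℂ)) fun x _ => by
      by_cases f : IsConj (x : G) y⁻¹
      · rw [hy x x.2 f, sub_self, zero_mul]
      · rw [cnt_of_not f, Nat.cast_zero, mul_zero]] at this
    simp only [hc, mul_assoc, ← Finset.mul_sum, hG, a0, inv_inv] at this
    linear_combination (mul_eq_zero.1 this).resolve_left k0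
  have hv1 := hv t fun x hx f => by
    have f1 : orderOf x = 2 := by rw [orderOf_isConj f, orderOf_inv, h.ord]
    rw [(h1.uniq x hx (mul_self_of_two f1)).resolve_left (ne_one_of_two f1), lt]
  have hv2 := fun y (hy : (orderOf y).Coprime k) => hv y fun x hx f => by
    rw [← orderOf_inv, ← orderOf_isConj f] at hy
    rw [orderOf_eq_one_iff.1 (hy.eq_one_of_dvd
      (h1.cardK ▸ Subgroup.orderOf_dvd_natCard _ hx)), l1.1]
  have s0 : ∑ x : K, lam x = 0 := l1.sum_zero (hU hu) l2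
  have hcl : ((centralizer ({t} : Set G)).index : ℂ) *
      (1 + T.χ X t ^ 2 / T.d X - T.χ W t ^ 2 / T.d W) = 2 * k ^ 2 := by
    have := T.cls (fun k : K => 1 - lam k) (fun k => k) (univ.filter (IsConj t ·)) (by simp) h.tt
    rw [Finset.sum_congr rfl (g := fun x : K => (1 - lam x) * k) (f := fun k : K => _ * (prs _ _ : ℂ))
      fun x _ => by
        by_cases f : lam x = 1
        · simp [f]
        · rw [h1.prs_eq hti x.2 (ne1 f) fun g => f (g ▸ lt)], card_conj_class, C3.card_G h1,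
      ← Finset.sum_mul, Finset.sum_sub_distrib, s0] at this
    simp only [hc, mul_assoc, ← Finset.mul_sum, hG, a0, ← T.χ_one i, Finset.sum_const,
      Finset.card_univ, ← Nat.card_eq_fintype_card, h1.cardK] at this
    have i0 : ((centralizer ({t} : Set G)).index : ℂ) ≠ 0 :=
      Nat.cast_ne_zero.2 index_ne_zero_of_finite
    refine mul_left_cancel₀ (mul_ne_zero i0 k0) ?_
    push_cast at this
    simp only [nsmul_eq_mul] at this
    linear_combination this
  have hp : α i + α X - α W = 2 := by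
    have := T.pairS U K t 1 (fun _ => 1) fun x => 1 - lam x⁻¹
    have e1 := fun l => T.sum_cf U t (fun _ => 1) l
    have e2 := fun l => T.sum_inv l K fun x => 1 - lam x
    simp only [one_mul, inv_one] at this e1
    simp only [e1, e2, hc, hα] at this
    rw [Finset.sum_congr rfl (g := fun g => if g ∈ centralizer {t} then (Nat.card U : ℂ) else 0)
      (s₁ := (univ : Finset G)) fun g _ => by
        have m : ∀ y : U, t * y ∈ K := fun y => mul_mem h1.mem (hU y.2)
        split_ifs with f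
        · have gt := mem_centralizer_singleton_iff.1 f
          have z := (l1.conj fun x hx => hU (h.nmU gt hx)).inv.sum_zero (x := (g⁻¹ * u * g)⁻¹)
            (inv_mem (by simpa using h.nmU (Commute.inv_left gt).eq hu))
            (by simpa [mul_assoc] using l2)
          rw [Finset.sum_congr rfl (g := fun y : U => 1 - lam (g * (y : G)⁻¹ * g⁻¹)) fun y _ => by
            rw [if_pos (C3.normK h1 gt (m y)), ← conj_mul, gt, mul_inv_cancel_right,
              _root_.mul_inv_rev, l1.2 _ (inv_mem (hU (h.nmU gt y.2))) _ (inv_mem h1.mem),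
              l3 _ (inv_mem h1.mem) (inv_mem (mem_zpowers t)), conj_inv, mul_one],
            Finset.sum_sub_distrib, z]
          simp
        · exact Finset.sum_eq_zero fun y _ => if_neg fun e => f (mem_centralizer_singleton_iff.2
            (C3.ti' h1 hti (m y) (fun e => by simpa [e] using h.even_ord h.tS h.t1 y.2) e)),
      ← Finset.sum_filter, Finset.sum_const, C3.card_filter_mem, h1.cardC, nsmul_eq_mul,
      Finset.sum_congr rfl (g := fun l => Nat.card U * k * (c l * α l : ℂ)) (fun l _ => by ring),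
      ← Finset.mul_sum, hG] at this
    have h5 : ((α i : ℂ) + α X - α W) = 2 := mul_left_cancel₀ (mul_ne_zero U0 k0) (by
      push_cast at this; linear_combination this)
    exact_mod_cast h5
  have ai : α i = 1 := by
    have := hF fun m => if m = i then 1 else 0
    simpa [(a4 j (by simp)).1, (a4 l (by simp)).1, (a4 n (by simp)).1] using this
  have am : ∀ V, V ≠ i → α V ≠ 0 → V = j ∨ V = l ∨ V = n := fun V f1 f2 => by
    by_contra! f
    have := hF fun m => if m = V then 1 else 0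
    simp [f1.symm, f.1.symm, f.2.1.symm, f.2.2.symm, f2] at this
  by_cases f : α X = 0
  · obtain ⟨-, -, b1, b2, b3⟩ := a4 W (am W W0 (by omega))
    have b4 : α W = -1 := by omega
    have b5 := b1 1 U.one_mem
    rw [b4] at b2 b3 b5
    rw [mul_one] at b5
    refine pack_fin h.full h1 hti T W X (δ := -1) (ε := -1) (by simp) (by simp) rfl
      (by rw [hd]; push_cast; ring) b2 b3 (fun y hy => by
        push_cast; linear_combination hv2 y hy) (Rat.cast_injective (α := ℂ) ?_)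
    rw [show T.χ X t = -2 by rw [b5] at hv1; push_cast at hv1; linear_combination hv1, b5] at hcl
    rw [show -1 * (T.d W : ℤ) + 1 = -T.d X by rw [hd]; push_cast; ring]
    push_cast at hcl ⊢
    rw [← hcl]
    ring
  · obtain ⟨-, b0, b1, b2, b3⟩ := a4 X (am X X0 f)
    have b4 : α X = 1 := by
      by_cases g : α W = 0
      · omega
      · have := (a4 W (am W W0 g)).2.1
        omega
    have b5 := b1 1 U.one_mem
    rw [b4] at b2 b3 b5
    rw [mul_one] at b5
    refine pack_fin h.full h1 hti T X W (δ := 1) (ε := 1) (by simp) (by simp) rfl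
      (by rw [hd]; push_cast; ring) b2 b3 (fun y hy => by
        push_cast; linear_combination hv2 y hy) (Rat.cast_injective (α := ℂ) ?_)
    rw [← hv1, b5, hd] at hcl
    push_cast at hcl ⊢
    rw [← hcl]
    ring

end Dih

lemma exists_conj_two (S : Sylow 2 G) {v : G} (hv : v * v = 1) : ∃ c, c * v * c⁻¹ ∈ S :=
  haveI := Fact.mk Nat.prime_two
  exists_conj_mem_sylow S (k := 1) (by rwa [pow_one, pow_two])

lemma exp_two_of_comm [IsSimpleGroup G] (h4 : 4 ∣ Nat.card G) (S : Sylow 2 G)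
    (h8 : Nat.card (S : Subgroup G) ∣ 2 ^ 3) (hc : ∀ x ∈ S, ∀ y ∈ S, x * y = y * x) :
    ∀ x ∈ S, x * x = 1 := fun x hx => by
  have := Fact.mk Nat.prime_two
  by_contra e
  have h0 : zpowers x ≤ S := zpowers_le.2 hx
  have h1 := J.card_mul_rel h0
  obtain ⟨j, hj⟩ : 4 ∣ orderOf x := by
    obtain ⟨i, -, hi⟩ := (Nat.dvd_prime_pow Nat.prime_two).1
      ((Subgroup.orderOf_dvd_natCard _ hx).trans h8)
    rw [hi]
    refine pow_dvd_pow 2 (show 2 ≤ i from not_lt.1 fun f => e ?_)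
    rw [← pow_two, ← orderOf_dvd_iff_pow_eq_one, hi]
    exact pow_dvd_pow 2 (show i ≤ 1 by omega)
  have j0 : j ≠ 0 := fun f => (orderOf_pos x).ne' (by rw [hj, f])
  have h2 : (zpowers x).relIndex S ∣ 2 := by
    rw [← h1, Nat.card_zpowers, hj, mul_assoc] at h8
    exact (dvd_mul_left _ j).trans (Nat.dvd_of_mul_dvd_mul_left (show 0 < 4 by norm_num) h8)
  have hz : orderOf (x ^ (2 * j)) = 2 := by
    rw [orderOf_pow' _ (by omega), hj, show 4 * j = 2 * j * 2 by ring, Nat.gcd_mul_right_left,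
      Nat.mul_div_cancel_left _ (by omega)]
  refine ne_one_of_two hz (trf S hc (pow_mem hx _) (fun g hg => ?_)
    ((QuotientGroup.eq_one_iff _).1 (hom_trivial h4 Abelianization.of _)))
  obtain ⟨i, hi⟩ := h2
  have h3 := pow_mem (pow_mem (J.pow_rel_mem h0 (fun a ha y hy => by
    rwa [hc a ha y (h0 hy), mul_inv_cancel_right])
    ((mem_normalizer_iff.1 hg x).1 hx)) i) j
  rw [← pow_mul, ← pow_mul, ← mul_assoc, ← hi, conj_pow] at h3
  have h5 : orderOf (⟨_, h3⟩ : zpowers x) = 2 := by rw [← orderOf_coe, orderOf_conj', hz]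
  have h6 : orderOf (⟨_, pow_mem (mem_zpowers x) (2 * j)⟩ : zpowers x) = 2 := by
    rw [← orderOf_coe, hz]
  have h7 := eq_of_card_eq_of_cyclic (L := zpowers (⟨_, h3⟩ : zpowers x))
    (M := zpowers ⟨_, pow_mem (mem_zpowers x) (2 * j)⟩) (by simp only [Nat.card_zpowers, h5, h6])
  exact mul_inv_eq_iff_eq_mul.1 (congrArg Subtype.val
    (((mem_zpowers_two h6).1 (h7.le (mem_zpowers _))).resolve_left (ne_one_of_two h5)))

lemma pack_four [IsSimpleGroup G] (hn : Full (Nat.card G)) (ih : IH G) (S : Sylow 2 G)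
    (h4 : Nat.card (S : Subgroup G) = 4) (h2 : ∀ x ∈ S, x * x = 1) : ∃ p k m, Pack G p k m := by
  have := Fact.mk Nat.prime_two
  have g4 : 4 ∣ Nat.card G := h4 ▸ card_subgroup_dvd_card _
  have hc : ∀ x ∈ S, ∀ y ∈ S, x * y = y * x := fun x hx y hy => congrArg Subtype.val
    (comm_of_card Nat.prime_two h4.dvd (⟨x, hx⟩ : (S : Subgroup G)) ⟨y, hy⟩)
  obtain ⟨w, hw, t, ht, hwt⟩ := exists_nontrivial_act g4 S fun e => by simp [e] at h4
  have t1 : t ≠ 1 := fun e => hwt (by simp [e])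
  have v : V4 t (w * t * w⁻¹) S := ⟨hw t ht, J.conj_ne_one t1,
    fun e => hwt (mul_inv_eq_iff_eq_mul.1 e), h4, h2⟩
  have cy : Cyc t (w * t * w⁻¹) w := ⟨rfl, by
    rcases four_mem h4 h2 ht v.sS t1 v.s1 v.st (hw _ v.sS) with e | e | e | e
    · exact absurd e (J.conj_ne_one v.s1)
    · exfalso
      obtain ⟨i, m, hm, e'⟩ := Nat.exists_eq_pow_mul_and_not_dvd (orderOf_pos w).ne' 2 (by norm_num)
      have h5 := J.mem_of_nm' (J.nm_pow hw m) (d := 2 ^ i)
        (((Nat.prime_two.coprime_iff_not_dvd).2 S.not_dvd_index).pow_left i)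
        (by rw [← pow_mul, mul_comm, ← e', pow_orderOf_eq_one])
      have h6 := J.odd_pow_conj rfl e hm
      rw [hc _ h5 t ht, mul_inv_cancel_right] at h6
      exact v.st h6.symm
    · exact absurd ((MulAut.conj w).injective e) v.st
    · exact e⟩
  obtain ⟨U, h⟩ := Pre.dih (t := t) (S := S) ⟨inferInstance, hn, ih, two_of_mul_self (h2 t ht) t1,
    ht, fun x hx => hc x hx t ht, S.not_dvd_index, Or.inl h4, _, v.sS, h2 _ v.sS, v.s1, v.st⟩
    fun σ hσ => by
      obtain ⟨c, hc⟩ := exists_conj_two S (mul_self_of_two hσ)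
      refine (isConj_iff.2 ⟨c, rfl⟩ : IsConj σ _).trans ?_
      have c1 : IsConj t (w * t * w⁻¹) := isConj_iff.2 ⟨w, rfl⟩
      rcases four_mem h4 h2 ht v.sS t1 v.s1 v.st hc with e | e | e | e <;> rw [e]
      · exact absurd e (J.conj_ne_one (ne_one_of_two hσ))
      · exact c1.symm
      · exact (c1.trans (isConj_iff.2 ⟨w, cy.2⟩)).symm
  exact h.v_pack v cy

lemma pack_eight [IsSimpleGroup G] (hn : Full (Nat.card G)) (ih : IH G) (S : Sylow 2 G)
    (h8 : Nat.card (S : Subgroup G) = 8) (hN : ¬ NoFour G)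
    (hc : ∃ x ∈ (S : Subgroup G), ∃ y ∈ (S : Subgroup G), x * y ≠ y * x) :
    ∃ p k m, Pack G p k m := by
  have := Fact.mk Nat.prime_two
  have g4 : 4 ∣ Nat.card G := (show 4 ∣ 8 by norm_num).trans (h8 ▸ card_subgroup_dvd_card _)
  obtain ⟨t, ht, t2, z1, z2, z3, z4⟩ := struct8' h8 hc
  obtain ⟨s, hs, ss, s1, st⟩ : ∃ s ∈ S, s * s = 1 ∧ s ≠ 1 ∧ s ≠ t := by
    simp only [NoFour, not_forall, not_or] at hN
    obtain ⟨x, y, xx, yy, xy, x1, y1, hne⟩ := hN
    obtain ⟨c, hc⟩ := exists_conj_two S xx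
    by_cases e : c * x * c⁻¹ = t
    · obtain ⟨d, hd, h1⟩ := J.sylow_conj (J.isP_zp (w := c * y * c⁻¹) (q := 2)
        (by rw [pow_two]; exact J.conj_sq c yy)) S.isPGroup' (X := centralizer {t})
        (zpowers_le.2 (mem_centralizer_singleton_iff.2 (by rw [← e, J.conj_comm_iff, xy])))
        fun f => S.not_dvd_index (f.trans (relIndex_dvd_index_of_le
          fun x hx => mem_centralizer_singleton_iff.2 (z1 x hx)))
      exact ⟨_, h1 _ (mem_zpowers _), J.conj_sq d (J.conj_sq c yy), J.conj_ne_one (J.conj_ne_one y1),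
        fun f => hne ((MulAut.conj c).injective (e.trans ((MulAut.conj d).injective
          ((J.conj_eq_iff.2 hd).trans f.symm))))⟩
    · exact ⟨_, hc, J.conj_sq c xx, J.conj_ne_one x1, e⟩
  obtain ⟨a, e⟩ : ∃ a, D8 t a s S := by
    obtain ⟨y, hy, hsy⟩ : ∃ y ∈ S, s * y ≠ y * s := by
      by_contra! f
      exact (z4 s hs f).elim s1 st
    have h1 : y * s = t * (s * y) := by
      rw [← (z3 y hy s hs).resolve_left fun f => hsy (by
        rw [mul_inv_eq_one, mul_inv_eq_iff_eq_mul] at f; exact f.symm)]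
      group
    rcases z2 y hy with f | f
    · refine ⟨s * y, t2, mul_mem hs hy, hs, ?_, ss, ?_, s1, st, h8⟩
      · rw [mul_assoc, ← mul_assoc y, h1, ← mul_assoc, ← mul_assoc, z1 s hs, mul_assoc t, mul_assoc t,
          ← mul_assoc s, ss, one_mul, f, mul_one]
      · rw [mul_assoc, h1, ← mul_assoc, z1 s hs, mul_assoc]
    · exact ⟨y, t2, hy, hs, f, ss, h1, s1, st, h8⟩
  obtain ⟨U, h⟩ := Pre.dih (t := t) (S := S) ⟨inferInstance, hn, ih, t2, ht, z1, S.not_dvd_index,
    Or.inr ⟨h8, a, e.aS, e.aa⟩, s, hs, ss, s1, st⟩ fun σ hσ => by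
      obtain ⟨c, hc⟩ := exists_conj_two S (mul_self_of_two hσ)
      refine (isConj_iff.2 ⟨c, rfl⟩ : IsConj σ _).trans ?_
      have c2 := J.conj_sq c (mul_self_of_two hσ)
      have c1 := J.conj_ne_one (g := c) (ne_one_of_two hσ)
      generalize c * σ * c⁻¹ = v at hc c1 c2
      by_contra f
      have e' := e.of_invol hc c2 c1 fun g => f (g ▸ IsConj.refl _)
      have tz : t ∈ zpowers a := e.aa ▸ mul_mem (mem_zpowers a) (mem_zpowers a)
      have h5 := no_transfer g4 S (zpowers a) (fun x hx y hy => by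
        rcases z3 x hx y hy with g | g <;> rw [g]
        exacts [one_mem _, tz]) hc fun k d hd => by
          rcases Nat.even_or_odd' k with ⟨j, rfl | rfl⟩
          · simp [pow_mul, pow_two, c2]
          · rw [pow_succ, pow_mul, pow_two, c2, one_pow, one_mul] at hd ⊢
            refine J.mul_mem_of_two e.rel hd (inv_mem hc) (fun g => f ?_)
              (by rw [inv_mem_iff]; exact e'.not_mem)
            have g2 : d⁻¹ * v * d * (d⁻¹ * v * d) = 1 := by simpa using J.conj_sq d⁻¹ c2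
            refine isConj_iff.2 ⟨d⁻¹, ?_⟩
            rw [inv_inv]
            rcases e.mem_zp g with g | g | g | g
            · exact absurd g (by simpa using J.conj_ne_one (g := d⁻¹) c1)
            · exact g
            · exact absurd (by simpa [g, e.r] using g2) e.t1
            · exact absurd (by rw [g] at g2; simpa [mul_assoc, e.r] using g2) e.t1
      obtain ⟨j, hj⟩ := Nat.not_even_iff_odd.1 fun g => S.not_dvd_index g.two_dvd
      rw [hj, pow_succ, pow_mul, pow_two, c2, one_pow, one_mul] at h5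
      exact e'.not_mem h5
  exact h.d_pack e

omit [Fintype G] in
theorem st_of_simple [Finite G] [IsSimpleGroup G] (hn : Full (Nat.card G)) (ih : IH G) : ST G := by
  have := Fintype.ofFinite G
  have := Fact.mk Nat.prime_two
  by_cases h4 : 4 ∣ Nat.card G
  swap
  · obtain ⟨K, h1, h2, h3⟩ := exists_odd_part h4
    obtain ⟨a, -, ha⟩ := (Nat.dvd_prime_pow (m := 1) Nat.prime_two).1 h3
    exact Or.inl ⟨K, h1, h2, a, ha⟩
  obtain ⟨S⟩ : Nonempty (Sylow 2 G) := inferInstance
  have hS : Nat.card (S : Subgroup G) = 4 ∨ Nat.card (S : Subgroup G) = 8 := by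
    obtain ⟨a, ha⟩ := S.isPGroup'.exists_card_eq
    have h1 : 2 ^ 2 ∣ 2 ^ a := (((Nat.prime_two.coprime_iff_not_dvd).2 S.not_dvd_index).pow_left 2
      ).dvd_of_dvd_mul_right (by rwa [← ha, card_mul_index])
    have h2 : ¬ 2 ^ 4 ∣ 2 ^ a := fun e =>
      (hn.2.2.2.2.2.1 h4).1 (e.trans (ha ▸ card_subgroup_dvd_card _))
    rw [Nat.pow_dvd_pow_iff_le_right one_lt_two] at h1 h2
    rw [ha]
    obtain rfl | rfl : a = 2 ∨ a = 3 := by omega
    all_goals simp
  obtain ⟨p, k, m, h⟩ : ∃ p k m, Pack G p k m := by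
    by_cases hc : ∀ x ∈ S, ∀ y ∈ S, x * y = y * x
    · have h2 := exp_two_of_comm h4 S (by rcases hS with e | e <;> rw [e] <;> norm_num) hc
      exact hS.elim (fun e => pack_four hn ih S e h2) fun e => (no_simple_eight hn ih S e h2).elim
    · have h8 := hS.resolve_left fun e => hc fun x hx y hy => congrArg Subtype.val
        (comm_of_card Nat.prime_two e.dvd (⟨x, hx⟩ : (S : Subgroup G)) ⟨y, hy⟩)
      push Not at hc
      exact pack_eight hn ih S h8 (fun hN => no_simple_q8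
        (hn.2.2.2.2.2.2 (h8 ▸ card_subgroup_dvd_card _)).1 ih hN S h8 hc) hc
  exact Or.inr (Or.inr (Or.inr (Or.inr (Or.inr (Or.inl
    ⟨p, ⊤, k, m, inferInstance, h.congr topEquiv.symm⟩)))))

end Pool.Agent.Lib.MP_cb9dee_al
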