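import Pool.Agent.Lib.MP_cb9dee_al.CharD

namespace Pool.Agent.Lib.MP_cb9dee_al

open Finset

lemma inv_ge {x : ℤ} (c : ℤ) (hc : 0 < c) (h : c ≤ x) : 0 < 1 / (x : ℚ) ∧ 1 / (x : ℚ) ≤ 1 / c := by
  have h1 : (0 : ℚ) < c := by exact_mod_cast hc
  have h2 : (c : ℚ) ≤ x := by exact_mod_cast h
  exact ⟨one_div_pos.2 (by linarith), one_div_le_one_div_of_le h1 h2⟩

lemma inv_le {x : ℤ} (c : ℤ) (hc : 0 < c) (h : x ≤ -c) :
    1 / (x : ℚ) < 0 ∧ -(1 / c) ≤ 1 / (x : ℚ) := by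
  have := inv_ge (x := -x) c hc (by omega)
  push_cast at this
  rw [div_neg] at this
  constructor <;> linarith [this.1, this.2]

/-- Integer vectors of norm four orthogonal to a positive vector. -/
lemma norm_four {ι : Type} [Fintype ι] [DecidableEq ι] {c : ι → ℤ} (h : ∑ i, c i ^ 2 = 4)
    {d : ι → ℂ} (hd : ∀ i, d i ≠ 0) (h0 : ∑ i, c i * d i = 0) {i : ι} (hi : c i ≠ 0) :
    ∃ j k l, j ≠ i ∧ k ≠ i ∧ l ≠ i ∧ j ≠ k ∧ j ≠ l ∧ k ≠ l ∧ (c i = 1 ∨ c i = -1) ∧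
      (c j = 1 ∨ c j = -1) ∧ (c k = 1 ∨ c k = -1) ∧ (c l = 1 ∨ c l = -1) ∧
      ∀ F : ι → ℂ, ∑ n, c n * F n = c i * F i + c j * F j + c k * F k + c l * F l := by
  rw [← Finset.add_sum_erase _ _ (mem_univ i)] at h h0
  have h1 : 0 ≤ ∑ j ∈ univ.erase i, c j ^ 2 := Finset.sum_nonneg fun _ _ => sq_nonneg _
  have h2 : c i ^ 2 ≠ 4 := fun e => by
    rw [Finset.sum_eq_zero fun k hk => by
      rw [zero_of_norm (s := univ.erase i) (c := c) (by omega) k hk, Int.cast_zero, zero_mul],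
      add_zero] at h0
    exact mul_ne_zero (Int.cast_ne_zero.2 hi) (hd i) h0
  have ci := sq_le_three hi (by omega)
  have e1 : c i ^ 2 = 1 := by rcases ci with e | e <;> simp [e]
  obtain ⟨j, hj, k, hk, l, hl, a1, a2, a3, cj, ck, cl, hF⟩ :=
    norm_three (c := c) (s := univ.erase i) (by omega)
  exact ⟨j, k, l, ne_of_mem_erase hj, ne_of_mem_erase hk, ne_of_mem_erase hl, a1, a2, a3, ci, cj,
    ck, cl, fun F => by rw [← Finset.add_sum_erase _ _ (mem_univ i), hF]; ring⟩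

lemma four_cases {x : ℤ} (h : 4 ∣ x - 1) (h1 : x ≠ 1) :
    (x = -3 ∧ 1 / (x : ℚ) = -1 / 3) ∨ (x ≤ -7 ∧ 1 / (x : ℚ) < 0 ∧ -1 / 7 ≤ 1 / (x : ℚ)) ∨
      (5 ≤ x ∧ 0 < 1 / (x : ℚ) ∧ 1 / (x : ℚ) ≤ 1 / 5) := by
  rcases (by omega : x = -3 ∨ x ≤ -7 ∨ 5 ≤ x) with e | e | e
  · exact Or.inl ⟨e, by rw [e]; norm_num⟩
  · have := inv_le 7 (by norm_num) e
    exact Or.inr (Or.inl ⟨e, this.1, by linarith [this.2]⟩)
  · exact Or.inr (Or.inr ⟨e, by simpa using inv_ge 5 (by norm_num) e⟩)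

lemma prin_num {x y z : ℤ} (hx : 4 ∣ x - 1) (hy : 4 ∣ y - 1) (hz : 4 ∣ z - 1) (x1 : x ≠ 1)
    (y1 : y ≠ 1) (z1 : z ≠ 1) (h : 1 + x + y + z = 0) :
    1 / 2 < 1 + 1 / (x : ℚ) + 1 / y + 1 / z ∧
      (x ≠ -3 → y ≠ -3 → z ≠ -3 → 5 / 7 ≤ 1 + 1 / (x : ℚ) + 1 / y + 1 / z) := by
  rcases four_cases hx x1 with a | a | a <;> rcases four_cases hy y1 with b | b | b <;>
    rcases four_cases hz z1 with c | c | c <;>
    first
    | omega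
    | exact ⟨by linarith [a.2, b.2, c.2], fun _ _ _ => by
        first | omega | linarith [a.2, b.2, c.2]⟩
    | (have e : (x = 5 ∧ y = -3 ∧ z = -3) ∨ (x = -3 ∧ y = 5 ∧ z = -3) ∨
          (x = -3 ∧ y = -3 ∧ z = 5) := by omega
       rcases e with ⟨rfl, rfl, rfl⟩ | ⟨rfl, rfl, rfl⟩ | ⟨rfl, rfl, rfl⟩ <;> norm_num)

lemma tw_num {x y z w : ℤ} (hx : 4 ∣ x - 1) (hy : 4 ∣ y - 1) (hz : 4 ∣ z - 1) (hw : 4 ∣ w - 1)
    (x1 : x ≠ 1) (y1 : y ≠ 1) (z1 : z ≠ 1) (w1 : w ≠ 1) (h : x + y + z + w = 0) :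
    1 / (x : ℚ) + 1 / y + 1 / z + 1 / w < 3 / 5 := by
  rcases four_cases hx x1 with a | a | a <;> rcases four_cases hy y1 with b | b | b <;>
    rcases four_cases hz z1 with c | c | c <;> rcases four_cases hw w1 with d | d | d <;>
    first
    | omega
    | linarith [a.2, b.2, c.2, d.2]

lemma triple_num {p1 p2 p3 p4 q1 q2 q3 q4 e1 e2 e3 e4 : ℤ} (a1 : p1 = 1 ∨ p1 = -1)
    (a2 : p2 = 1 ∨ p2 = -1) (a3 : p3 = 1 ∨ p3 = -1) (a4 : p4 = 1 ∨ p4 = -1)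
    (b1 : q1 = 1 ∨ q1 = -1) (b2 : q2 = 1 ∨ q2 = -1) (b3 : q3 = 1 ∨ q3 = -1)
    (b4 : q4 = 1 ∨ q4 = -1) (h1 : p1 + p2 + p3 + p4 = 0) (h2 : q1 + q2 + q3 + q4 = 0)
    (h3 : p1 * q1 + p2 * q2 + p3 * q3 + p4 * q4 = 0) (h4 : e1 + e2 + e3 + e4 = 0)
    (h5 : p1 * e1 + p2 * e2 + p3 * e3 + p4 * e4 = 0)
    (h6 : q1 * e1 + q2 * e2 + q3 * e3 + q4 * e4 = 0) (h0 : e1 ≠ 0) :
    ∃ L : ℤ, L ≠ 0 ∧ ((1 + p1 + q1) ^ 2 / e1 + (1 + p2 + q2) ^ 2 / e2 + (1 + p3 + q3) ^ 2 / e3 +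
      (1 + p4 + q4) ^ 2 / e4 : ℂ) = 8 / L := by
  obtain ⟨L, hL, k1, k2, k3, k4⟩ : ∃ L : ℤ, L ≠ 0 ∧ e1 = p1 * q1 * L ∧ e2 = p2 * q2 * L ∧
      e3 = p3 * q3 * L ∧ e4 = p4 * q4 * L := by
    refine ⟨p1 * q1 * e1, ?_⟩
    rcases a1 with rfl | rfl <;> rcases a2 with rfl | rfl <;> rcases a3 with rfl | rfl <;>
      rcases a4 with rfl | rfl <;> rcases b1 with rfl | rfl <;> rcases b2 with rfl | rfl <;>
      rcases b3 with rfl | rfl <;> rcases b4 with rfl | rfl <;> omega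
  have key : ∀ p q : ℤ, (p = 1 ∨ p = -1) → (q = 1 ∨ q = -1) →
      ((1 + p + q) ^ 2 / (p * q * L : ℤ) : ℂ) = (3 * (p * q : ℤ) + 2 * p + 2 * q + 2) / L := by
    have : (L : ℂ) ≠ 0 := Int.cast_ne_zero.2 hL
    rintro p q (rfl | rfl) (rfl | rfl) <;> push_cast <;> field_simp <;> ring
  refine ⟨L, hL, ?_⟩
  rw [k1, k2, k3, k4, key _ _ a1 b1, key _ _ a2 b2, key _ _ a3 b3, key _ _ a4 b4, ← add_div,
    ← add_div, ← add_div]
  congr 1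
  exact_mod_cast (by linarith : 3 * (p1 * q1) + 2 * p1 + 2 * q1 + 2 + (3 * (p2 * q2) + 2 * p2 +
    2 * q2 + 2) + (3 * (p3 * q3) + 2 * p3 + 2 * q3 + 2) + (3 * (p4 * q4) + 2 * p4 + 2 * q4 + 2) = 8)

lemma prin8 {x : ℤ} (hx : 8 ∣ x - 1) (h1 : x ≠ 1) (h9 : x ≠ 9) :
    7 / 9 < 1 + 1 / (x : ℚ) - 4 * (1 / (x + 1 : ℤ)) := by
  rcases (by omega : x ≤ -7 ∨ 17 ≤ x) with e | e
  · linarith [(inv_le 7 (by norm_num) e).2, (inv_le (x := x + 1) 1 (by norm_num) (by omega)).1]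
  · linarith [(inv_ge 17 (by norm_num) e).1, (inv_ge (x := x + 1) 18 (by norm_num) (by omega)).2]

lemma tw8 {x y : ℤ} (hx : 8 ∣ x - 1) (hy : 8 ∣ y - 1) (x1 : x ≠ 1) (y1 : y ≠ 1) :
    1 / (x : ℚ) + 1 / y - 4 * (1 / (x + y : ℤ)) < 7 / 9 := by
  rcases (by omega : x ≤ -7 ∨ 9 ≤ x) with a | a <;> rcases (by omega : y ≤ -7 ∨ 9 ≤ y) with b | b <;>
    rcases (by omega : x + y ≤ -6 ∨ 2 ≤ x + y) with c | c
  all_goals first
    | omega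
    | (have a' := by first | exact inv_le 7 (by norm_num) a | exact inv_ge 9 (by norm_num) a
       have b' := by first | exact inv_le 7 (by norm_num) b | exact inv_ge 9 (by norm_num) b
       have c' := by first | exact inv_le 6 (by norm_num) c | exact inv_ge 2 (by norm_num) c
       linarith [a'.1, a'.2, b'.1, b'.2, c'.1, c'.2])

lemma ratio_aux {x y z : ℤ} (hx : 8 ∣ x - 1) (hy : 8 ∣ y - 5) (hz : 8 ∣ z - 5) (x1 : x ≠ 1)
    (h : y + z = x + 1) (y9 : ¬ 9 ∣ y) (z9 : ¬ 9 ∣ z) :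
    49 * (1 / (y : ℚ) + 1 / z - 4 * (1 / (x + 1 : ℤ))) <
        25 * (1 + 1 / (x : ℚ) - 4 * (1 / (x + 1 : ℤ))) ∧
      9 * (1 / (y : ℚ) + 1 / z - 4 * (1 / (x + 1 : ℤ))) ≠
        4 * (1 + 1 / (x : ℚ) - 4 * (1 / (x + 1 : ℤ))) := by
  have bd : ∀ v : ℤ, 8 ∣ v - 5 → (v ≤ -3 ∧ 1 / (v : ℚ) < 0) ∨ (v = 5 ∧ 1 / (v : ℚ) = 1 / 5) ∨
      (13 ≤ v ∧ 1 / (v : ℚ) ≤ 1 / 13) := fun v hv => by
    rcases (by omega : v ≤ -3 ∨ v = 5 ∨ 13 ≤ v) with e | e | e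
    · exact Or.inl ⟨e, (inv_le 3 (by norm_num) e).1⟩
    · exact Or.inr (Or.inl ⟨e, by rw [e]; norm_num⟩)
    · exact Or.inr (Or.inr ⟨e, by simpa using (inv_ge 13 (by norm_num) e).2⟩)
  rcases (by omega : x ≤ -15 ∨ x = -7 ∨ 9 ≤ x) with a | a | a
  · have a1 := inv_le 15 (by norm_num) a
    have a2 := inv_le (x := x + 1) 14 (by norm_num) (by omega)
    rcases bd y hy with b | b | b <;> rcases bd z hz with c | c | c <;>
      first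
      | omega
      | exact ⟨by linarith [a1.1, a1.2, a2.1, a2.2, b.2, c.2],
          ne_of_lt (by linarith [a1.1, a1.2, a2.1, a2.2, b.2, c.2])⟩
  · subst a
    constructor
    · rcases bd y hy with b | b | b <;> rcases bd z hz with c | c | c <;>
        first
        | omega
        | (push_cast; linarith [b.2, c.2])
        | (have e : (y = 5 ∧ z = -11) ∨ (y = -11 ∧ z = 5) := by omega
           rcases e with ⟨rfl, rfl⟩ | ⟨rfl, rfl⟩ <;> norm_num)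
    · intro e
      have y0 : (y : ℚ) ≠ 0 := Int.cast_ne_zero.2 (by omega)
      have z0 : (z : ℚ) ≠ 0 := Int.cast_ne_zero.2 (by omega)
      have e1 : 189 * ((y : ℚ) + z) = 2 * (y * z) := by
        have : 1 / (y : ℚ) + 1 / z = 2 / 189 := by norm_num at e ⊢; linarith
        field_simp at this
        linarith
      have e2 : 189 * (y + z) = 2 * (y * z) := by exact_mod_cast e1
      obtain rfl : z = -6 - y := by omega
      have e3 : (y - 21) * (y + 27) = 0 := by linarith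
      rcases mul_eq_zero.1 e3 with e | e <;> omega
  · have a1 := inv_ge 9 (by norm_num) a
    have a2 := inv_ge (x := x + 1) 10 (by norm_num) (by omega)
    rcases bd y hy with b | b | b <;> rcases bd z hz with c | c | c <;>
      first
      | omega
      | exact ⟨by linarith [a1.1, a1.2, a2.1, a2.2, b.2, c.2],
          ne_of_lt (by linarith [a1.1, a1.2, a2.1, a2.2, b.2, c.2])⟩

lemma ratio {A B : ℚ} {i j k : ℕ} (hi : 0 < i) (h1 : 49 * B < 25 * A) (h2 : 9 * B ≠ 4 * A)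
    (e1 : i * A = 8 * (j + k) ^ 2) (e2 : i * B = 8 * (j - k) ^ 2) : k < 6 * j ∧ k ≠ 5 * j := by
  have hi' : (0 : ℚ) < i := by exact_mod_cast hi
  constructor
  · by_contra! h
    have h3 : (6 * j : ℚ) ≤ k := by exact_mod_cast h
    have h4 : (0 : ℚ) ≤ j := Nat.cast_nonneg j
    nlinarith [mul_lt_mul_of_pos_left h1 hi']
  · rintro rfl
    refine h2 (mul_left_cancel₀ hi'.ne' ?_)
    push_cast at e1 e2
    linear_combination 9 * e2 - 4 * e1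

end Pool.Agent.Lib.MP_cb9dee_al
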