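import Pool.Agent.Lib.MP_cb9dee_al.Aut

namespace Pool.Agent.Lib.MP_cb9dee_al

open Subgroup

lemma gf_card (p : ℕ) [Fact p.Prime] : Nat.card (GaloisField p 2) = p ^ 2 :=
  GaloisField.card p 2 two_ne_zero

lemma gf_pow (p : ℕ) [Fact p.Prime] (x : GaloisField p 2) : x ^ p ^ 2 = x := by
  have := Fintype.ofFinite (GaloisField p 2)
  rw [← gf_card, Nat.card_eq_fintype_card, FiniteField.pow_card]

lemma ringHom_cases (p : ℕ) [Fact p.Prime] (θ : GaloisField p 2 →+* GaloisField p 2) :
    (∀ x, θ x = x) ∨ (∀ x, θ x = x ^ p) := by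
  have hb : Function.Bijective θ := Finite.injective_iff_bijective.1 θ.injective
  let g : GaloisField p 2 ≃ₐ[ZMod p] GaloisField p 2 :=
    { RingEquiv.ofBijective θ hb with
      commutes' := fun c => by
        have := RingHom.ext_zmod (θ.comp (algebraMap (ZMod p) (GaloisField p 2)))
          (algebraMap (ZMod p) (GaloisField p 2))
        exact DFunLike.congr_fun this c }
  obtain ⟨i, hi⟩ := FiniteField.exists_forall_apply_eq_pow (ZMod p) p (GaloisField p 2) g
  rw [Nat.card_zmod] at hi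
  have key : ∀ i : ℕ, (∀ x : GaloisField p 2, x ^ p ^ i = x) ∨
      (∀ x : GaloisField p 2, x ^ p ^ i = x ^ p) := by
    intro i
    induction i with
    | zero => left; simp
    | succ i ih =>
      rcases ih with h | h
      · right; intro x; rw [pow_succ, pow_mul, h]
      · left; intro x; rw [pow_succ, pow_mul, h, ← pow_mul, ← pow_two, gf_pow]
  exact (key i).imp (fun h x => (hi x).trans (h x)) (fun h x => (hi x).trans (h x))

lemma add_model {V : Type*} [AddCommGroup V] [Finite V] (p : ℕ) [Fact p.Prime]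
    (hV : Nat.card V = p ^ 2) (a : AddMonoid.End V)
    (hirr : ∀ L : AddSubgroup V, (∀ x ∈ L, a x ∈ L) → L = ⊥ ∨ L = ⊤) (v : V) (hv : v ≠ 0) :
    ∃ e : V ≃+ GaloisField p 2, e v = 1 ∧
      ∀ b : AddMonoid.End V, a * b = b * a → ∀ x, e (b x) = e (b v) * e x := by
  let F := Subring.centralizer ({a} : Set (AddMonoid.End V))
  have hF : ∀ b : AddMonoid.End V, b ∈ F ↔ a * b = b * a := by
    intro b; simp [F, Subring.mem_centralizer_iff]
  have hinj : ∀ b ∈ F, ∀ w : V, w ≠ 0 → b w = 0 → b = 0 := by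
    intro b hb w hw hbw
    rcases hirr (AddMonoidHom.ker b) (fun x hx => by
      rw [AddMonoidHom.mem_ker] at hx ⊢
      have := DFunLike.congr_fun ((hF b).1 hb) x
      change a (b x) = b (a x) at this
      erw [← this, hx, map_zero]) with h | h
    · exact absurd (by simpa using (h ▸ (AddMonoidHom.mem_ker.2 hbw) : w ∈ (⊥ : AddSubgroup V))) hw
    · ext x
      exact AddMonoidHom.mem_ker.1 (h ▸ AddSubgroup.mem_top x)
  let ev : F →+ V :=
    { toFun := fun b => (b : AddMonoid.End V) v
      map_zero' := rfl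
      map_add' := fun _ _ => rfl }
  have ev_inj : Function.Injective ev := by
    rw [injective_iff_map_eq_zero]
    intro b hb
    exact Subtype.ext (hinj b b.2 v hv hb)
  have ev_surj : Function.Surjective ev := by
    rw [← AddMonoidHom.range_eq_top]
    refine (hirr ev.range ?_).resolve_left fun h => hv ?_
    · rintro x ⟨b, rfl⟩
      exact ⟨⟨a * b, F.mul_mem ((hF a).2 rfl) b.2⟩, rfl⟩
    · have : v ∈ ev.range := ⟨1, rfl⟩
      simpa [h] using this
  have : Finite F := Finite.of_injective _ ev_inj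
  have : Nontrivial F := ⟨0, 1, fun h => hv (by
    have := congrArg ev h
    exact this.symm)⟩
  have : NoZeroDivisors F := ⟨fun {b c} h => by
    by_contra hne
    push Not at hne
    have h1 : (c : AddMonoid.End V) v ≠ 0 := fun e => hne.2 (Subtype.ext (hinj c c.2 v hv e))
    exact hne.1 (Subtype.ext (hinj b b.2 _ h1 (congrArg ev h)))⟩
  have : IsDomain F := NoZeroDivisors.to_isDomain F
  let _ : Field F := (Finite.isDomain_to_isField F).toField
  let ε : F ≃+ V := AddEquiv.ofBijective ev ⟨ev_inj, ev_surj⟩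
  have := Fintype.ofFinite F
  have := Fintype.ofFinite (GaloisField p 2)
  have hc : Fintype.card F = Fintype.card (GaloisField p 2) := by
    rw [← Nat.card_eq_fintype_card, ← Nat.card_eq_fintype_card, gf_card, ← hV]
    exact Nat.card_congr ε.toEquiv
  let φ : F ≃+* GaloisField p 2 := FiniteField.ringEquivOfCardEq hc
  have hε : ∀ b : F, ε.symm ((b : AddMonoid.End V) v) = b := fun b => ε.symm_apply_apply b
  refine ⟨ε.symm.trans φ.toAddEquiv, ?_, fun b hb x => ?_⟩
  · have := hε 1
    change ε.symm v = 1 at this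
    change φ (ε.symm v) = 1
    rw [this, map_one]
  · obtain ⟨c, rfl⟩ := ev_surj x
    have h1 := hε (⟨b, (hF b).2 hb⟩ * c)
    have h2 := hε ⟨b, (hF b).2 hb⟩
    have h3 := hε c
    change φ (ε.symm (b ((c : AddMonoid.End V) v))) =
      φ (ε.symm (b v)) * φ (ε.symm ((c : AddMonoid.End V) v))
    change ε.symm (b ((c : AddMonoid.End V) v)) = _ at h1
    change ε.symm (b v) = _ at h2
    rw [h1, h2, h3, map_mul]

theorem field_model {R : Type*} [Group R] [Finite R] (p : ℕ) [hp : Fact p.Prime]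
    (hR : Nat.card R = p ^ 2) (a : MulAut R)
    (hirr : ∀ L : Subgroup R, (∀ x ∈ L, a x ∈ L) → L = ⊥ ∨ L = ⊤) (v : R) (hv : v ≠ 1) :
    ∃ e : R ≃ GaloisField p 2, (∀ x y, e (x * y) = e x + e y) ∧ e v = 1 ∧
      (∀ b : MulAut R, a * b = b * a → ∀ x, e (b x) = e (b v) * e x) ∧
      (∀ g : MulAut R, a * (g * a * g⁻¹) = (g * a * g⁻¹) * a →
        (∀ x, e (g x) = e x * e (g v)) ∨ (∀ x, e (g x) = e x ^ p * e (g v))) := by
  let _ : CommGroup R := { (inferInstance : Group R) with
    mul_comm := comm_of_card hp.out (hR ▸ dvd_rfl) }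
  let T : MulAut R → AddMonoid.End (Additive R) := fun b => MonoidHom.toAdditive b.toMonoidHom
  obtain ⟨e, he1, he2⟩ := add_model (V := Additive R) p hR (T a) (fun L hL => by
    rcases hirr (AddSubgroup.toSubgroup' L) (fun x hx => hL (Additive.ofMul x) hx) with h | h
    · left
      rw [eq_bot_iff]
      intro x hx
      have : Additive.toMul x ∈ AddSubgroup.toSubgroup' L := hx
      rw [h, mem_bot] at this
      exact this
    · right
      rw [eq_top_iff]
      intro x _
      have : Additive.toMul x ∈ AddSubgroup.toSubgroup' L := h ▸ mem_top _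
      exact this) (Additive.ofMul v) hv
  let e' : R ≃ GaloisField p 2 := Additive.ofMul.trans e.toEquiv
  have hadd : ∀ x y, e' (x * y) = e' x + e' y := fun x y => e.map_add (Additive.ofMul x) _
  have hone : e' 1 = 0 := e.map_zero
  have hlin : ∀ b : MulAut R, a * b = b * a → ∀ x, e' (b x) = e' (b v) * e' x := by
    intro b hb x
    refine he2 (T b) ?_ (Additive.ofMul x)
    ext y
    exact congrArg Additive.ofMul (DFunLike.congr_fun hb (Additive.toMul y))
  refine ⟨e', hadd, he1, hlin, fun g hg => ?_⟩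
  let Γ : GaloisField p 2 → GaloisField p 2 := fun y => e' (g (e'.symm y))
  have hΓ : ∀ x, Γ (e' x) = e' (g x) := fun x => by simp [Γ]
  have Γadd : ∀ y z, Γ (y + z) = Γ y + Γ z := by
    intro y z
    obtain ⟨y, rfl⟩ := e'.surjective y
    obtain ⟨z, rfl⟩ := e'.surjective z
    rw [← hadd, hΓ, hΓ, hΓ, map_mul, hadd]
  have Γ0 : Γ 0 = 0 := by rw [← hone, hΓ, map_one]
  have Γa : ∀ y, Γ (e' (a v) * y) = e' ((g * a * g⁻¹) v) * Γ y := by
    intro y
    obtain ⟨y, rfl⟩ := e'.surjective y
    rw [← hlin a rfl, hΓ, hΓ, ← hlin _ hg]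
    simp
  let L : Subgroup R :=
    { carrier := {w | ∃ y', ∀ x, Γ (e' w * x) = y' * Γ x}
      one_mem' := ⟨0, fun x => by rw [hone, zero_mul, zero_mul, Γ0]⟩
      mul_mem' := by
        rintro w w' ⟨y, hy⟩ ⟨y', hy'⟩
        exact ⟨y + y', fun x => by rw [hadd, add_mul, Γadd, hy, hy', add_mul]⟩
      inv_mem' := by
        rintro w ⟨y, hy⟩
        refine ⟨-y, fun x => ?_⟩
        have h1 : e' w⁻¹ + e' w = 0 := by rw [← hadd, inv_mul_cancel, hone]
        have h2 := Γadd (e' w⁻¹ * x) (e' w * x)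
        rw [← add_mul, h1, zero_mul, Γ0, hy] at h2
        linear_combination -h2 }
  have hv1 : e' v = 1 := he1
  have hL : L = ⊤ := by
    refine (hirr L ?_).resolve_left fun h => hv ?_
    · rintro w ⟨y, hy⟩
      exact ⟨e' ((g * a * g⁻¹) v) * y, fun x => by
        rw [hlin a rfl, mul_assoc, Γa, hy, mul_assoc _ y]⟩
    · have : v ∈ L := ⟨1, fun x => by rw [hv1, one_mul, one_mul]⟩
      simpa [h] using this
  have hΓ1 : Γ 1 ≠ 0 := by
    rw [← hv1, hΓ, ← hone]
    intro h
    exact hv (by simpa using e'.injective h)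
  have hθ : ∀ y x, Γ (y * x) = Γ y / Γ 1 * Γ x := by
    intro y x
    obtain ⟨w, rfl⟩ := e'.surjective y
    obtain ⟨y', hy'⟩ : w ∈ L := hL ▸ mem_top w
    have := hy' 1
    rw [mul_one] at this
    rw [hy', this, mul_div_assoc, div_self hΓ1, mul_one]
  let θ : GaloisField p 2 →+* GaloisField p 2 :=
    { toFun := fun y => Γ y / Γ 1
      map_one' := div_self hΓ1
      map_mul' := fun y x => by rw [hθ, mul_div_assoc]
      map_zero' := by rw [Γ0, zero_div]
      map_add' := fun y x => by rw [Γadd, add_div] }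
  have hfin : ∀ x, e' (g x) = θ (e' x) * e' (g v) := by
    intro x
    rw [← hΓ, ← hΓ v, hv1, ← mul_one (e' x), hθ, mul_one]
    rfl
  exact (ringHom_cases p θ).imp (fun h x => by rw [hfin, h]) (fun h x => by rw [hfin, h])

end Pool.Agent.Lib.MP_cb9dee_al
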