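import Pool.Agent.Lib.MP_cb9dee_al.Ker
import Pool.Agent.Lib.MP_cb9dee_al.Field

namespace Pool.Agent.Lib.MP_cb9dee_al

open Subgroup Pointwise

variable {R S : Type*} [Group R] [Finite R] [Group S] [Finite S] {p : ℕ}

lemma model_inv [hp : Fact p.Prime] (hR : Nat.card R = p ^ 2) {a τ : MulAut R} (ha : Good p a)
    (ha1 : a ≠ 1) (hτ : a * (τ * a * τ⁻¹) = (τ * a * τ⁻¹) * a) :
    ∃ e : R ≃ GaloisField p 2, (∀ x y, e (x * y) = e x + e y) ∧
      (∀ b : MulAut R, a * b = b * a → ∃ μ : (GaloisField p 2)ˣ, ∀ x, e (b x) = μ * e x) ∧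
      (Nat.card (fixS τ) = p → ∀ x, e (τ x) = e x ^ p) := by
  have hne : p ^ 2 ≠ p := fun h =>
    (Nat.pow_lt_pow_right hp.out.one_lt one_lt_two).ne' (h.trans (pow_one p).symm)
  have hirr := irred_of_good hp.out hR (ha.resolve_left (hR ▸ hne)).2 ha1
  obtain ⟨v, hv1, hv⟩ : ∃ v : R, v ≠ 1 ∧ (Nat.card (fixS τ) = p → τ v = v) := by
    by_cases h : Nat.card (fixS τ) = p
    · obtain ⟨v, e, hv⟩ := exists_gen hp.out h
      exact ⟨v, ne_one_of_orderOf hp.out hv, fun _ => (e ▸ mem_zpowers v : v ∈ fixS τ)⟩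
    · have : Nontrivial R := Finite.one_lt_card_iff_nontrivial.1
        (hR ▸ Nat.one_lt_pow two_ne_zero hp.out.one_lt)
      obtain ⟨v, hv⟩ := exists_ne (1 : R)
      exact ⟨v, hv, fun h' => absurd h' h⟩
  obtain ⟨e, hadd, he1, hlin, hsemi⟩ := field_model p hR a hirr v hv1
  have hone : e 1 = 0 := by simpa using hadd 1 1
  refine ⟨e, hadd, fun b hb => ⟨Units.mk0 (e (b v)) fun h => hv1 ?_, hlin b hb⟩, fun h => ?_⟩
  · simpa using e.injective (h.trans hone.symm)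
  · rcases hsemi τ hτ with h1 | h1
    · exfalso
      have : fixS τ = ⊤ := eq_top_iff.2 fun x _ => e.injective (by rw [h1, hv h, he1, mul_one])
      rw [this, card_top, hR] at h
      exact hne h
    · intro x
      rw [h1, hv h, he1, mul_one]

/-- Transport of an additive automorphism of the model. -/
def viaModel {K : Type*} [AddCommGroup K] (e : S ≃ K) (he : ∀ x y, e (x * y) = e x + e y)
    (f : K ≃+ K) : MulAut S :=
  { (e.trans f.toEquiv).trans e.symm with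
    map_mul' := fun x y => e.injective (by simp [he]) }

omit [Finite S] in
@[simp] lemma viaModel_apply {K : Type*} [AddCommGroup K] (e : S ≃ K)
    (he : ∀ x y, e (x * y) = e x + e y) (f : K ≃+ K) (x : S) :
    e (viaModel e he f x) = f (e x) := by simp [viaModel]

/-- Multiplications by units of the model field. -/
def mulHom {K : Type*} [Field K] (e : S ≃ K) (he : ∀ x y, e (x * y) = e x + e y) :
    Kˣ →* MulAut S where
  toFun μ := viaModel e he (DistribMulAction.toAddEquiv K μ)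
  map_one' := by ext x; apply e.injective; simp
  map_mul' μ ν := by ext x; apply e.injective; simp [mul_smul]

omit [Finite S] in
lemma mulHom_apply {K : Type*} [Field K] (e : S ≃ K) (he : ∀ x y, e (x * y) = e x + e y)
    (μ : Kˣ) (x : S) : e (mulHom e he μ x) = μ * e x := by
  simp [mulHom, Units.smul_def]

theorem mod_match (hp : p.Prime) (h2 : p ≠ 2) (hRS : Nat.card R = Nat.card S)
    (hR : Nat.card R = p ∨ Nat.card R = p ^ 2) (hc : IsCyclic R ↔ IsCyclic S)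
    {τ : MulAut R} {σ : MulAut S} (hτ : τ * τ = 1) (hσ : σ * σ = 1)
    (hf : Nat.card (fixS τ) = Nat.card (fixS σ)) (A : Set (MulAut R)) (B : Set (MulAut S))
    (gA : ∀ a ∈ A, Good p a) (gB : ∀ b ∈ B, Good p b)
    (cA : ∀ a ∈ A, ∀ b ∈ A, a * b = b * a) (cB : ∀ a ∈ B, ∀ b ∈ B, a * b = b * a)
    (nA : ∀ a ∈ A, τ * a * τ⁻¹ ∈ A) (nB : ∀ b ∈ B, σ * b * σ⁻¹ ∈ B)
    (hAB : (∀ a ∈ A, a = 1) ↔ ∀ b ∈ B, b = 1) :
    ∃ β : R ≃* S, (∀ x, β (τ x) = σ (β x)) ∧ ∃ U : Subgroup (MulAut S), IsCyclic U ∧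
      (∀ b ∈ B, b ∈ U) ∧ (∀ a ∈ A, MulAut.congr β a ∈ U) ∧
      (Nat.card S = p ^ 2 → ∃ ρ : MulAut S, ρ * σ = σ * ρ ∧ ∀ b ∈ B, ρ * b * ρ⁻¹ = b⁻¹) := by
  have := Fact.mk hp
  have hne : p ^ 2 ≠ p := fun h =>
    (Nat.pow_lt_pow_right hp.one_lt one_lt_two).ne' (h.trans (pow_one p).symm)
  have hd : Nat.card R ∣ p ^ 2 := hR.elim (· ▸ dvd_pow_self p two_ne_zero) (· ▸ dvd_rfl)
  obtain ⟨β0, hβ0, -⟩ := ker_match hp h2 hRS hd hc hτ hσ hf (J := Empty) (fun j => j.elim)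
    (fun j => j.elim) (fun j => j.elim) (fun j => j.elim) (fun j => j.elim)
    (fun _ _ j => j.elim) (fun _ j => j.elim) (Or.inr fun j => j.elim)
  rcases hR with hR | hR
  · refine ⟨β0, hβ0, ⊤, ?_, fun _ _ => mem_top _, fun _ _ => mem_top _,
      fun h => absurd (h.symm.trans (hRS.symm.trans hR)) hne⟩
    have hS := hRS.symm.trans hR
    have := isCyclic_of_prime_card hS
    have h1 : IsCyclic (ZMod (Nat.card S))ˣ := hS ▸ ZMod.isCyclic_units_prime hp
    exact (topEquiv.trans (IsCyclic.mulAutMulEquiv S)).isCyclic.2 h1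
  by_cases hA : ∀ a ∈ A, a = 1
  · refine ⟨β0, hβ0, ⊥, inferInstance, fun b hb => mem_bot.2 (hAB.1 hA b hb),
      fun a ha => by rw [hA a ha, map_one]; exact one_mem _, fun _ => ⟨1, by simp, fun b hb => ?_⟩⟩
    simp [hAB.1 hA b hb]
  have hB := mt hAB.2 hA
  push Not at hA hB
  obtain ⟨a, ha, ha1⟩ := hA
  obtain ⟨b, hb, hb1⟩ := hB
  have hS := hRS.symm.trans hR
  obtain ⟨e, hadd, hlin, hfr⟩ := model_inv hR (gA a ha) ha1 (cA a ha _ (nA a ha))
  obtain ⟨e', hadd', hlin', hfr'⟩ := model_inv hS (gB b hb) hb1 (cB b hb _ (nB b hb))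
  let β : R ≃* S := { e.trans e'.symm with
    map_mul' := fun x y => e'.injective (by simp [hadd, hadd']) }
  have hβ : ∀ x, e' (β x) = e x := fun x => by simp [β]
  have hU : ∀ c ∈ B, ∃ μ, mulHom e' hadd' μ = c := fun c hc' => by
    obtain ⟨μ, hμ⟩ := hlin' c (cB b hb c hc')
    exact ⟨μ, by ext x; apply e'.injective; rw [mulHom_apply, hμ]⟩
  let ρ : MulAut S := viaModel e' hadd' (frobeniusEquiv (GaloisField p 2) p).toAddEquiv
  have hρ : ∀ x, e' (ρ x) = e' x ^ p := fun x => by simp [ρ, frobenius_def]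
  refine ⟨β, fun x => ?_, (mulHom e' hadd').range,
    isCyclic_of_surjective _ (mulHom e' hadd').rangeRestrict_surjective, hU, fun c hc' => ?_,
    fun _ => ⟨ρ, ?_, fun c hc' => ?_⟩⟩
  · by_cases h : Nat.card (fixS τ) = p
    · apply e'.injective
      rw [hβ, hfr h, hfr' (hf ▸ h), hβ]
    · rcases equivariant_of_pm hp hRS hd hτ hσ hf (fun h' => h h'.2) with ⟨h1, h3⟩ | ⟨h1, h3⟩
      · rw [h1, h3]
      · rw [h1, h3, map_inv]
  · obtain ⟨μ, hμ⟩ := hlin c (cA a ha c hc')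
    refine ⟨μ, ?_⟩
    ext x
    apply e'.injective
    obtain ⟨y, rfl⟩ := β.surjective x
    rw [mulHom_apply, hβ, ← hμ, ← hβ]
    simp
  · ext x
    rw [MulAut.mul_apply, MulAut.mul_apply]
    by_cases h : Nat.card (fixS τ) = p
    · apply e'.injective
      rw [hρ, hfr' (hf ▸ h), hfr' (hf ▸ h), hρ]
    · rcases equivariant_of_pm hp hRS hd hτ hσ hf (fun h' => h h'.2) with ⟨-, h3⟩ | ⟨-, h3⟩
      · rw [h3, h3]
      · rw [h3, h3, map_inv]
  · obtain ⟨μ, rfl⟩ := hU c hc'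
    have hg := gB _ hc'
    have h1 := hg.orderOf_dvd hp
    have h3 : Nat.card S - 1 = (p + 1) * (p - 1) := by rw [hS, ← Nat.sq_sub_sq, one_pow]
    rw [h3] at h1
    have h4 := ((hg.resolve_left (hS ▸ hne)).2.coprime_dvd_right (dvd_mul_left _ _)).dvd_mul_right.1
      h1
    rw [orderOf_dvd_iff_pow_eq_one, ← map_pow] at h4
    have h5 : (μ : GaloisField p 2) ^ p * μ = 1 := by
      have := mulHom_apply e' hadd' (μ ^ (p + 1)) (e'.symm 1)
      rw [h4] at this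
      simpa [pow_succ] using this.symm
    rw [mul_inv_eq_iff_eq_mul, ← map_inv]
    ext x
    apply e'.injective
    rw [MulAut.mul_apply, MulAut.mul_apply, hρ, mulHom_apply, mulHom_apply, hρ, mul_pow,
      Units.val_inv_eq_inv_val, eq_inv_of_mul_eq_one_left h5]

end Pool.Agent.Lib.MP_cb9dee_al
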