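import Mathlib

namespace Pool.Agent.Lib.MP_cb9dee_al

open Classical in
lemma sign_adjust {Q S : Type*} [Group Q] [Group S] [Finite Q] {q : ℕ} (hq : q.Prime)
    (hQ : IsPGroup q Q) (hc : ∀ x y : Q, x * y = y * x) {τ : MulAut Q} {σ : MulAut S}
    (α : Q ≃* S) (hα : ∀ x, α (τ x) = σ (α x)) {k : ℕ} (hk : k.Coprime q) (ε : Prop) :
    ∃ α' : Q ≃* S, (∀ x, α' (τ x) = σ (α' x)) ∧ (∀ x : Q, ∃ y, x = y ^ k) ∧
      ∀ y, α' (y ^ k) = if ε then (α y)⁻¹ else α y := by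
  have := Fact.mk hq
  obtain ⟨m, hm⟩ := hQ.exists_card_eq
  have hcop : (Nat.card Q).Coprime k := hm ▸ hk.symm.pow_left m
  let ω : Q ≃* Q := { powCoprime hcop with
    map_mul' := fun x y => (Commute.mul_pow (hc x y) k : (x * y) ^ k = x ^ k * y ^ k) }
  have hω : ∀ x, ω x = x ^ k := fun _ => rfl
  have hs : ∀ x : Q, ∃ y, x = y ^ k := fun x => ⟨ω.symm x, (ω.apply_symm_apply x).symm⟩
  have h1 : ∀ y, ω.symm (y ^ k) = y := ω.symm_apply_apply
  by_cases h : ε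
  · let ι : Q ≃* Q := { Equiv.inv Q with
      map_mul' := fun x y => by simp [hc x] }
    have hι : ∀ x, ι x = x⁻¹ := fun _ => rfl
    refine ⟨ω.symm.trans (ι.trans α), fun x => ?_, hs, fun y => ?_⟩
    · obtain ⟨y, rfl⟩ := hs x
      rw [map_pow τ]
      simp only [MulEquiv.trans_apply, h1, hι]
      rw [← map_inv τ, hα]
    · simp only [MulEquiv.trans_apply, h1, hι, if_pos h, map_inv]
  · refine ⟨ω.symm.trans α, fun x => ?_, hs, fun y => ?_⟩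
    · obtain ⟨y, rfl⟩ := hs x
      rw [map_pow τ]
      simp only [MulEquiv.trans_apply, h1, hα]
    · simp only [MulEquiv.trans_apply, h1, if_neg h]

open Classical in
lemma sign_one {Q S : Type*} [Group Q] [Group S] [Finite Q] {q : ℕ} (hq : q.Prime)
    (hQ : IsPGroup q Q) (hc : ∀ x y : Q, x * y = y * x) {τ : MulAut Q} {σ : MulAut S}
    (α : Q ≃* S) (hα : ∀ x, α (τ x) = σ (α x)) {J : Type*} {W : J → Type*} [∀ j, Group (W j)]
    (f : ∀ j, Q →* W j) (g : ∀ j, S →* W j)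
    (h : ∀ j, ∃ k : ℕ, k.Coprime q ∧ ∀ x, g j (α x) = f j x ^ k)
    (h1 : ∀ i j, (∃ x, f i x ≠ 1) → (∃ x, f j x ≠ 1) → i = j) (fl : J → Prop) :
    ∃ α' : Q ≃* S, (∀ x, α' (τ x) = σ (α' x)) ∧
      ∀ j x, g j (α' x) = if fl j then (f j x)⁻¹ else f j x := by
  by_cases hex : ∃ j x, f j x ≠ 1
  · obtain ⟨j0, hj0⟩ := hex
    obtain ⟨k, hk, e⟩ := h j0
    obtain ⟨α', h2, h3, h4⟩ := sign_adjust hq hQ hc α hα hk (fl j0)
    refine ⟨α', h2, fun j x => ?_⟩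
    obtain ⟨y, rfl⟩ := h3 x
    by_cases hj : j = j0
    · subst hj
      rw [h4]
      split_ifs
      · rw [map_inv, e, map_pow]
      · rw [e, map_pow]
    · have h5 : ∀ x, f j x = 1 := by
        by_contra! h5
        exact hj (h1 _ _ h5 hj0)
      obtain ⟨k', -, e'⟩ := h j
      rw [h4]
      split_ifs <;> simp [e', h5]
  · push Not at hex
    refine ⟨α, hα, fun j x => ?_⟩
    obtain ⟨k', -, e'⟩ := h j
    simp [e', hex]

lemma pow_three_cases {W : Type*} [Group W] {k l : ℕ} (hk : k.Coprime 3) (hl : l.Coprime 3) :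
    (∀ w : W, w ^ 3 = 1 → w ^ l = w ^ k) ∨ (∀ w : W, w ^ 3 = 1 → w ^ l = (w ^ k)⁻¹) := by
  have h1 : ¬ 3 ∣ k := (Nat.Prime.coprime_iff_not_dvd Nat.prime_three).1 hk.symm
  have h2 : ¬ 3 ∣ l := (Nat.Prime.coprime_iff_not_dvd Nat.prime_three).1 hl.symm
  by_cases h : l % 3 = k % 3
  · left
    intro w hw
    rw [pow_eq_pow_mod l hw, h, ← pow_eq_pow_mod k hw]
  · right
    intro w hw
    rw [eq_inv_iff_mul_eq_one, ← pow_add, pow_eq_pow_mod _ hw, show (l + k) % 3 = 0 by omega,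
      pow_zero]

open Classical in
lemma sign_three {Q S : Type*} [Group Q] [Group S] [Finite Q]
    (hQ : IsPGroup 3 Q) (hc : ∀ x y : Q, x * y = y * x) {τ : MulAut Q} {σ : MulAut S}
    (α : Q ≃* S) (hα : ∀ x, α (τ x) = σ (α x)) {J : Type*} {W : J → Type*} [∀ j, Group (W j)]
    (f : ∀ j, Q →* W j) (g : ∀ j, S →* W j)
    (h : ∀ j, ∃ k : ℕ, k.Coprime 3 ∧ ∀ x, g j (α x) = f j x ^ k)
    (h1 : ∀ i j, (∃ x, f i x ^ 3 ≠ 1) → (∃ x, f j x ^ 3 ≠ 1) → i = j) (pin : J → Prop)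
    (h2 : ∀ i j, pin i → pin j → (∃ x, f i x ≠ 1) → (∃ x, f j x ≠ 1) → i = j) :
    ∃ α' : Q ≃* S, (∀ x, α' (τ x) = σ (α' x)) ∧ ∃ fl : J → Prop, (∀ j, fl j → ¬ pin j) ∧
      ∀ j x, g j (α' x) = if fl j then (f j x)⁻¹ else f j x := by
  obtain ⟨α1, e1, e2⟩ : ∃ α1 : Q ≃* S, (∀ x, α1 (τ x) = σ (α1 x)) ∧
      ∀ j, (∀ x, g j (α1 x) = f j x) ∨ (∀ x, g j (α1 x) = (f j x)⁻¹) := by
    obtain ⟨k, hk, e⟩ : ∃ k : ℕ, k.Coprime 3 ∧ ∀ j, (∃ x, f j x ^ 3 ≠ 1) →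
        ∀ x, g j (α x) = f j x ^ k := by
      by_cases hex : ∃ j x, f j x ^ 3 ≠ 1
      · obtain ⟨j0, hj0⟩ := hex
        obtain ⟨k, hk, e⟩ := h j0
        exact ⟨k, hk, fun j hj => by rw [h1 j j0 hj hj0]; exact e⟩
      · exact ⟨1, by norm_num, fun j hj => absurd ⟨j, hj⟩ hex⟩
    obtain ⟨α', a1, a2, a3⟩ := sign_adjust Nat.prime_three hQ hc α hα hk False
    refine ⟨α', a1, fun j => ?_⟩
    by_cases hj : ∃ x, f j x ^ 3 ≠ 1
    · left
      intro x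
      obtain ⟨y, rfl⟩ := a2 x
      rw [a3, if_neg id, e j hj, map_pow]
    · push Not at hj
      obtain ⟨l, hl, e'⟩ := h j
      refine (pow_three_cases (W := W j) hk hl).imp (fun h' x => ?_) (fun h' x => ?_) <;>
      · obtain ⟨y, rfl⟩ := a2 x
        rw [a3, if_neg id, e', map_pow, h' _ (hj y)]
  by_cases hex : ∃ j, pin j ∧ ¬ ∀ x, g j (α1 x) = f j x
  · obtain ⟨j0, hp, hj0⟩ := hex
    have hj1 := (e2 j0).resolve_left hj0
    have hnt : ∃ x, f j0 x ≠ 1 := by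
      by_contra! h'
      exact hj0 fun x => by rw [hj1, h', inv_one]
    obtain ⟨α', a1, -, a3⟩ := sign_adjust Nat.prime_three hQ hc α1 e1 (Nat.coprime_one_left 3) True
    simp only [pow_one, if_true] at a3
    refine ⟨α', a1, fun j => ¬ ∀ x, g j (α1 x) = (f j x)⁻¹, fun j hj hpj => hj ?_, fun j x => ?_⟩
    · by_cases h' : ∃ x, f j x ≠ 1
      · rw [h2 j j0 hpj hp h' hnt]; exact hj1
      · push Not at h'
        rcases e2 j with h'' | h''
        · intro x; rw [h'', h', inv_one]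
        · exact h''
    · rw [a3, map_inv]
      split_ifs with h'
      · rw [(e2 j).resolve_right h']
      · rw [not_not.1 h', inv_inv]
  · push Not at hex
    refine ⟨α1, e1, fun j => ¬ ∀ x, g j (α1 x) = f j x, fun j hj hpj => hj (hex j hpj),
      fun j x => ?_⟩
    split_ifs with h'
    · rw [(e2 j).resolve_left h']
    · rw [not_not.1 h']

end Pool.Agent.Lib.MP_cb9dee_al
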