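import Pool.Agent.Lib.MP_cb9dee_al.Inv
import Pool.Agent.Lib.MP_cb9dee_al.Mod
import Pool.Agent.Lib.MP_cb9dee_al.Sign

namespace Pool.Agent.Lib.MP_cb9dee_al

open Subgroup Pointwise

section isCj
variable {G : Type*} [Group G] {P : Subgroup G}

lemma IsCj.unique {a b : MulAut P} {g : G} (ha : IsCj a g) (hb : IsCj b g) : a = b := by
  ext x; rw [ha, hb]

lemma IsCj.mul {a b : MulAut P} {g h : G} (ha : IsCj a g) (hb : IsCj b h) :
    IsCj (a * b) (g * h) := by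
  intro x
  rw [MulAut.mul_apply, ha, hb]
  group

lemma IsCj.inv {a : MulAut P} {g : G} (ha : IsCj a g) : IsCj a⁻¹ g⁻¹ := by
  intro x
  obtain ⟨y, rfl⟩ := a.surjective x
  rw [MulAut.inv_apply, MulEquiv.symm_apply_apply, ha]
  group

lemma IsCj.card_fixS {a : MulAut P} {g : G} (ha : IsCj a g) :
    Nat.card (fixS a) = Nat.card (P ⊓ centralizer {g} : Subgroup G) := by
  rw [← card_map_of_injective (K := fixS a) P.subtype_injective]
  congr 2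
  ext x
  constructor
  · rintro ⟨y, hy, rfl⟩
    refine ⟨y.2, mem_centralizer_singleton_iff.2 ?_⟩
    have := ha y
    rw [show a y = y from hy, eq_mul_inv_iff_mul_eq] at this
    exact this
  · rintro ⟨h1, h2⟩
    refine ⟨⟨x, h1⟩, Subtype.ext ?_, rfl⟩
    rw [ha]
    change g * x * g⁻¹ = x
    rw [← mem_centralizer_singleton_iff.1 h2, mul_inv_cancel_right]

/-- Conjugation on a normal subgroup. -/
def cjN (P : Subgroup G) (h : P.Normal) : G →* MulAut P := @MulAut.conjNormal G _ P h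

lemma isCj_cjN (h : P.Normal) (g : G) : IsCj (cjN P h g) g := fun _ => rfl

end isCj

lemma card_eq_of_bot_top {R S : Type*} [Group R] [Finite R] [Group S] [Finite S] {r : ℕ}
    (hr : r.Prime) (hRS : Nat.card R = Nat.card S) (hR : Nat.card R ∣ r ^ 2) {L : Subgroup R}
    {M : Subgroup S} (h1 : L = ⊥ ↔ M = ⊥) (h2 : L = ⊤ ↔ M = ⊤) : Nat.card L = Nat.card M := by
  by_cases a : L = ⊥
  · rw [a, h1.1 a, card_bot, card_bot]
  by_cases b : L = ⊤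
  · rw [b, h2.1 b, card_top, card_top, hRS]
  have := Fact.mk hr
  obtain ⟨k, hk, e⟩ := (Nat.dvd_prime_pow hr).1 hR
  interval_cases k
  · exact absurd (card_eq_one.1 (Nat.dvd_one.1 ((card_subgroup_dvd_card L).trans (by simp [e])))) a
  · have := Fact.mk (show (Nat.card R).Prime by rw [e, pow_one]; exact hr)
    exact absurd (L.eq_bot_or_eq_top_of_prime_card) (not_or.2 ⟨a, b⟩)
  · rw [((card_subgroup_cases hr e L).resolve_left a).resolve_right b,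
      ((card_subgroup_cases hr (hRS ▸ e) M).resolve_left (mt h1.2 a)).resolve_right (mt h2.2 b)]

variable {G H : Type} [Group G] [Group H] [Finite G] [Finite H]

namespace Sys

/-- Odd primes whose Sylow subgroup is not normal. -/
def NN (S : Sys G) (q : ℕ) : Prop := q.Prime ∧ q ≠ 2 ∧ ¬ (S.R q : Subgroup G).Normal

/-- Odd prime divisors whose Sylow subgroup is normal. -/
def PP (S : Sys G) (p : ℕ) : Prop :=
  p.Prime ∧ p ≠ 2 ∧ p ∣ Nat.card G ∧ (S.R p : Subgroup G).Normal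

/-- Automorphisms induced by non-normal Sylow subgroups of odd order. -/
def acts (S : Sys G) (p : ℕ) : Set (MulAut (S.R p : Subgroup G)) :=
  {a | ∃ q g, S.NN q ∧ g ∈ S.R q ∧ IsCj a g}

/-- The kernel of the action. -/
def kr (S : Sys G) (q p : ℕ) : Subgroup (S.R q : Subgroup G) :=
  (centralizer ((S.R p : Subgroup G) : Set G)).subgroupOf (S.R q)

omit [Finite G] in
lemma mem_kr (S : Sys G) {q p : ℕ} {x : (S.R q : Subgroup G)} :
    x ∈ S.kr q p ↔ ∀ y ∈ S.R p, (x : G) * y = y * x :=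
  ⟨fun h y hy => (h y hy).symm, fun h y hy => (h y hy).symm⟩

lemma exists_tau (S : Sys G) {r : ℕ} (hr : r.Prime) (h2 : r ≠ 2) :
    ∃ τ : MulAut (S.R r : Subgroup G), IsCj τ S.t := exists_isCj (S.hnt r hr h2)

omit [Finite G] in
lemma tau_sq (S : Sys G) {r : ℕ} {τ : MulAut (S.R r : Subgroup G)} (h : IsCj τ S.t) :
    τ * τ = 1 := by
  have := h.mul h
  rw [S.ht] at this
  exact this.eq_one_iff.2 (by simp)

lemma NN.dvd {S : Sys G} {q : ℕ} (h : S.NN q) : q ∣ Nat.card G := by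
  by_contra h'
  exact h.2.2 ⟨fun x hx g => by
    rw [eq_one_of_mem_sylow_of_not_dvd h.1 _ h' hx]; simp⟩

lemma good (S : Sys G) (hs : Small (Nat.card G)) {p : ℕ} (hp : S.PP p)
    {a : MulAut (S.R p : Subgroup G)} (ha : a ∈ S.acts p) : Good p a := by
  obtain ⟨q, g, hq, hg, h⟩ := ha
  have := Fact.mk hp.1
  have := Fact.mk hq.1
  exact h.good hs hp.2.2.1 (not_two_dvd_orderOf hq.2.1 _ hg)

omit [Finite G] in
lemma acts_comm (S : Sys G) {p : ℕ} :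
    ∀ a ∈ S.acts p, ∀ b ∈ S.acts p, a * b = b * a := by
  rintro a ⟨q, g, hq, hg, h⟩ b ⟨q', g', hq', hg', h'⟩
  have e := S.hcomm q q' hq.1 hq'.1 hq.2.1 hq'.2.1 hq.2.2 hq'.2.2 g hg g' hg'
  exact (h.mul h').unique (e ▸ h'.mul h)

omit [Finite G] in
lemma acts_conj (S : Sys G) {p : ℕ} {τ : MulAut (S.R p : Subgroup G)} (hτ : IsCj τ S.t) :
    ∀ a ∈ S.acts p, τ * a * τ⁻¹ ∈ S.acts p := by
  rintro a ⟨q, g, hq, hg, h⟩
  exact ⟨q, _, hq, S.hnt q hq.1 hq.2.1 g hg, (hτ.mul h).mul hτ.inv⟩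

lemma mem_acted (S : Sys G) (hs : Small (Nat.card G)) {p : ℕ} (hp : S.PP p)
    {a : MulAut (S.R p : Subgroup G)} (ha : a ∈ S.acts p) {m : ℕ} (hm : m ∣ orderOf a) :
    (Nat.card (S.R p : Subgroup G) = p → m ∣ p - 1) ∧ p ∈ Acted m (Nat.card G) := by
  have hg := S.good hs hp ha
  have h1 := hm.trans (hg.orderOf_dvd hp.1)
  refine ⟨fun h => h ▸ h1, hp.1, ?_⟩
  rcases hg with h | ⟨h, hc⟩
  · exact Or.inl ⟨hp.2.2.1, h ▸ h1⟩
  · refine Or.inr ⟨h ▸ card_subgroup_dvd_card _, ?_⟩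
    rw [h, ← one_pow 2, Nat.sq_sub_sq] at h1
    exact ((hc.coprime_dvd_left hm).coprime_dvd_right (dvd_mul_left _ _)).dvd_mul_right.1 h1

lemma kr_eq_fix_iff (S : Sys G) (hs : Small (Nat.card G)) {p q : ℕ} (hp : S.PP p) (hq : S.NN q)
    {τ : MulAut (S.R q : Subgroup G)} (hτ : IsCj τ S.t)
    (hQ : Nat.card (S.R q : Subgroup G) = q ^ 2) (hf : Nat.card (fixS τ) = q)
    (hL : Nat.card (S.kr q p) = q) (hinv : ∀ x ∈ S.kr q p, τ x ∈ S.kr q p) :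
    S.kr q p = fixS τ ↔ (Nat.card (S.R p : Subgroup G) = p ^ 2 ∧
      Nat.card ((S.R p : Subgroup G) ⊓ centralizer {S.t} : Subgroup G) = p) := by
  have := Fact.mk hp.1
  obtain ⟨a, b, ha, hb, hab, e1, ta, tb, hl⟩ := exists_refl hq.1 hq.2.1 hQ (S.tau_sq hτ) hf
  obtain ⟨σ, hσ⟩ := S.exists_tau hp.1 hp.2.1
  rw [← hσ.card_fixS]
  constructor
  · intro h
    by_contra hn
    have hpm := equivariant_of_pm hp.1 rfl (card_sylow_dvd hs (S.R p)) (S.tau_sq hσ) (S.tau_sq hσ)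
      rfl hn
    have hc : ∀ β : MulAut (S.R p : Subgroup G), σ * β * σ⁻¹ = β := by
      intro β
      rw [mul_inv_eq_iff_eq_mul]
      ext x
      rw [MulAut.mul_apply, MulAut.mul_apply]
      rcases hpm with ⟨h1, -⟩ | ⟨h1, -⟩
      · rw [h1, h1]
      · rw [h1, h1, map_inv]
    have h1 := isCj_cjN hp.2.2.2 (b : G)
    have h2 := (hσ.mul h1).mul hσ.inv
    rw [hc, ← hτ, tb] at h2
    have h3 := h1.mul h2.inv
    rw [mul_inv_cancel] at h3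
    have h4 : b * b ∈ S.kr q p := S.mem_kr.2 fun y hy => by
      simpa using h3.eq_one_iff.1 rfl y hy
    rw [h, mem_fixS, map_mul, tb, ← mul_inv_rev, inv_eq_iff_mul_eq_one, ← pow_two b, ← pow_add,
      ← orderOf_dvd_iff_pow_eq_one, hb] at h4
    exact hq.2.1 ((Nat.prime_dvd_prime_iff_eq hq.1 Nat.prime_two).1
      (hq.1.dvd_of_dvd_pow (m := 2) (n := 2) h4))
  · rintro ⟨h1, h2⟩
    by_contra hn
    have h3 := (hl _ hL hinv).resolve_left hn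
    have h4 : a ∉ S.kr q p := by
      rw [h3]
      exact not_mem_of_ne hq.1 hb ha fun e => hab (e ▸ mem_zpowers b)
    have h5 := isCj_cjN hp.2.2.2 (a : G)
    have hne : p ^ 2 ≠ p := fun h =>
      (Nat.pow_lt_pow_right hp.1.one_lt one_lt_two).ne' (h.trans (pow_one p).symm)
    have h6 := (S.good hs hp ⟨q, a, hq, a.2, h5⟩).resolve_left (h1 ▸ hne)
    have h7 : S.t * a = a * S.t := by
      have := hτ a
      rw [ta, eq_mul_inv_iff_mul_eq] at this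
      exact this.symm
    have h8 : σ * cjN _ hp.2.2.2 (a : G) = cjN _ hp.2.2.2 (a : G) * σ :=
      (hσ.mul h5).unique (h7 ▸ h5.mul hσ)
    rcases irred_of_good hp.1 h1 h6.2 (fun e => h4 (S.mem_kr.2 (h5.eq_one_iff.1 e))) (fixS σ)
      (fun x hx => by rw [mem_fixS, ← MulAut.mul_apply, h8, MulAut.mul_apply, mem_fixS.1 hx])
      with h | h
    · rw [h, card_bot] at h2
      exact hp.1.one_lt.ne h2
    · rw [h, card_top, h1] at h2
      exact hne h2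

omit [Finite G] in
lemma kr_inv (S : Sys G) {p q : ℕ} (hp : S.PP p) {τ : MulAut (S.R q : Subgroup G)}
    (hτ : IsCj τ S.t) : ∀ x ∈ S.kr q p, τ x ∈ S.kr q p := by
  intro x hx
  rw [mem_kr] at hx ⊢
  intro y hy
  have := hx _ (hp.2.2.2.conj_mem y hy S.t⁻¹)
  rw [hτ]
  calc S.t * x * S.t⁻¹ * y = S.t * (x * (S.t⁻¹ * y * S.t⁻¹⁻¹)) * S.t⁻¹ := by group
    _ = _ := by rw [this]; group

end Sys

lemma Ctx.nn (c : Ctx G H) {A : Sys G} (B : Sys H) {q : ℕ} (h : A.NN q) : B.NN q :=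
  ⟨h.1, h.2.1, fun h' => h.2.2 (c.symm.normal h.1 _ h')⟩

lemma Ctx.pp (c : Ctx G H) {A : Sys G} (B : Sys H) {p : ℕ} (h : A.PP p) : B.PP p :=
  ⟨h.1, h.2.1, c.card ▸ h.2.2.1, c.normal h.1 _ h.2.2.2⟩

lemma Ctx.acts_triv (c : Ctx G H) (A : Sys G) (B : Sys H) {p : ℕ} (hp : A.PP p)
    (h : ∀ a ∈ A.acts p, a = 1) : ∀ b ∈ B.acts p, b = 1 := by
  rintro b ⟨q, g, hq, hg, hb⟩
  have hq' := c.symm.nn A hq
  exact hb.eq_one_iff.2 (c.cent A B hp.1 hq.1 hq.2.1 hp.2.2.2 hq'.2.2 (fun x hx =>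
    (isCj_cjN hp.2.2.2 x).eq_one_iff.1 (h _ ⟨q, x, hq', hx, isCj_cjN _ x⟩)) g hg)

lemma Ctx.kr_top (c : Ctx G H) (A : Sys G) (B : Sys H) {p q : ℕ} (hp : A.PP p) (hq : A.NN q)
    (h : A.kr q p = ⊤) : B.kr q p = ⊤ :=
  eq_top_iff.2 fun x _ => B.mem_kr.2 (c.cent A B hp.1 hq.1 hq.2.1 hp.2.2.2 hq.2.2
    (fun y hy => A.mem_kr.1 (h ▸ mem_top (⟨y, hy⟩ : (A.R q : Subgroup G)))) x x.2)

lemma Ctx.kr_two (c : Ctx G H) (A : Sys G) (B : Sys H) {p p' q : ℕ} (hp : A.PP p) (hp' : A.PP p')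
    (hq : A.NN q) (h : ∃ x, x ≠ 1 ∧ x ∈ A.kr q p ∧ x ∈ A.kr q p') :
    ∃ x, x ≠ 1 ∧ x ∈ B.kr q p ∧ x ∈ B.kr q p' := by
  obtain ⟨x, h1, h2, h3⟩ := h
  obtain ⟨y, k1, k2, k3⟩ := c.exists_cent A B hq.1 hq.2.1 {p, p'} (fun r hr => by
      rcases Finset.mem_insert.1 hr with rfl | hr
      · exact ⟨hp.1, fun e => hq.2.2 (e ▸ hp.2.2.2), hp.2.2⟩
      · rw [Finset.mem_singleton.1 hr]
        exact ⟨hp'.1, fun e => hq.2.2 (e ▸ hp'.2.2.2), hp'.2.2⟩)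
    ⟨x, x.2, fun e => h1 (Subtype.ext e), fun r hr => by
      rcases Finset.mem_insert.1 hr with rfl | hr
      · exact A.mem_kr.1 h2
      · rw [Finset.mem_singleton.1 hr]
        exact A.mem_kr.1 h3⟩
  exact ⟨⟨y, k1⟩, fun e => k2 (congrArg Subtype.val e), B.mem_kr.2 (k3 p (by simp)),
    B.mem_kr.2 (k3 p' (by simp))⟩

lemma Ctx.kr_bot (c : Ctx G H) (A : Sys G) (B : Sys H) {p q : ℕ} (hp : A.PP p) (hq : A.NN q)
    (h : B.kr q p = ⊥) : A.kr q p = ⊥ := by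
  rw [eq_bot_iff]
  intro x hx
  by_contra h1
  obtain ⟨y, k1, k2, -⟩ := c.kr_two A B hp hp hq ⟨x, h1, hx, hx⟩
  exact k1 (mem_bot.1 (h ▸ k2))

lemma Ctx.card_kr (c : Ctx G H) (A : Sys G) (B : Sys H) {p q : ℕ} (hp : A.PP p) (hq : A.NN q) :
    Nat.card (A.kr q p) = Nat.card (B.kr q p) := by
  have := Fact.mk hq.1
  exact card_eq_of_bot_top hq.1 (c.card_sylow hq.1 _ _) (card_sylow_dvd c.small (A.R q))
    ⟨c.symm.kr_bot B A (c.pp B hp) (c.nn B hq), c.kr_bot A B hp hq⟩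
    ⟨c.kr_top A B hp hq, c.symm.kr_top B A (c.pp B hp) (c.nn B hq)⟩

lemma Ctx.kr_eq (c : Ctx G H) (A : Sys G) (B : Sys H) {p p' q : ℕ} (hp : A.PP p) (hp' : A.PP p')
    (hq : A.NN q) (h1 : Nat.card (A.kr q p) = q) (h2 : Nat.card (A.kr q p') = q)
    (h : A.kr q p = A.kr q p') : B.kr q p = B.kr q p' := by
  obtain ⟨x, e, hx⟩ := exists_gen hq.1 h1
  obtain ⟨y, k1, k2, k3⟩ := c.kr_two A B hp hp' hq
    ⟨x, ne_one_of_orderOf hq.1 hx, e ▸ mem_zpowers x, h ▸ e ▸ mem_zpowers x⟩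
  rw [← (eq_zpowers_of_mem hq.1 (c.card_kr A B hp hq ▸ h1) k2 k1).1,
    ← (eq_zpowers_of_mem hq.1 (c.card_kr A B hp' hq ▸ h2) k3 k1).1]

end Pool.Agent.Lib.MP_cb9dee_al
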