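import Pool.Agent.Lib.MP_cb9dee_al.CE2
import Pool.Agent.Lib.MP_cb9dee_al.Steps

namespace Pool.Agent.Lib.MP_cb9dee_al

open Subgroup Finset
open scoped Classical

variable {G : Type} [Group G]

lemma IH.sub [Finite G] (ih : IH G) {H : Subgroup G} (h : H ≠ ⊤) : ST H :=
  ih H (card_subgroup_dvd_card H) (lt_of_le_of_ne (card_le_card_group H)
    fun e => h (eq_top_of_card_eq H e))

lemma struct8 {R : Type*} [Group R] [Finite R] (h8 : Nat.card R = 8) (hn : ∃ x y : R, x * y ≠ y * x) :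
    ∃ z : R, orderOf z = 2 ∧ (∀ x, x * z = z * x) ∧ (∀ x, x * x = 1 ∨ x * x = z) ∧
      (∀ x y, x * y * x⁻¹ * y⁻¹ = 1 ∨ x * y * x⁻¹ * y⁻¹ = z) ∧
      ∀ x, (∀ y, x * y = y * x) → x = 1 ∨ x = z := by
  have := Fact.mk Nat.prime_two
  have hp : IsPGroup 2 R := IsPGroup.of_card (n := 3) h8
  have hnc : ¬ IsCyclic (R ⧸ center R) := fun h => by
    obtain ⟨x, y, hxy⟩ := hn
    exact hxy ((commGroupOfCyclicCenterQuotient (QuotientGroup.mk' (center R))
      (QuotientGroup.ker_mk' _).le).mul_comm x y)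
  obtain ⟨k, hk0, hk⟩ := IsPGroup.card_center_eq_prime_pow (p := 2) (n := 3) h8 (by norm_num)
  have hm := card_eq_card_quotient_mul_card_subgroup (center R)
  have hk3 : k ≤ 3 := (Nat.pow_dvd_pow_iff_le_right one_lt_two).1
    (hk ▸ (show Nat.card R = 2 ^ 3 from h8) ▸ card_subgroup_dvd_card (center R))
  rw [h8, hk] at hm
  have hq : Nat.card (R ⧸ center R) = 2 ^ 2 ∧ k = 1 := by
    interval_cases k
    · omega
    · exact absurd (isCyclic_of_prime_card (p := 2) (by omega)) hnc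
    · exact absurd (isCyclic_of_card_dvd_prime (p := 2)
        ((by omega : Nat.card (R ⧸ center R) = 1) ▸ one_dvd 2)) hnc
  obtain ⟨hq, rfl⟩ := hq
  obtain ⟨z, hz, hz2⟩ := exists_gen Nat.prime_two (L := center R) hk
  have hmem : ∀ x ∈ center R, x = 1 ∨ x = z := fun x hx => by
    rw [← hz, mem_zpowers_iff_mem_range_orderOf, hz2] at hx
    simpa [Finset.range_add_one, eq_comm, or_comm] using hx
  refine ⟨z, hz2, fun x => mem_center_iff.1 (hz ▸ mem_zpowers z) x, fun x => hmem _ ?_,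
    fun x y => hmem _ ?_, fun x hx => hmem x (mem_center_iff.2 fun y => (hx y).symm)⟩
  · rw [← QuotientGroup.eq_one_iff, QuotientGroup.mk_mul]
    by_cases h : (x : R ⧸ center R) = 1
    · rw [h, one_mul]
    · rw [← pow_two, ← orderOf_eq_of_not_cyclic Nat.prime_two hq hnc h, pow_orderOf_eq_one]
  · rw [← QuotientGroup.eq_one_iff]
    simp only [QuotientGroup.mk_mul, QuotientGroup.mk_inv]
    rw [comm_of_card Nat.prime_two hq.dvd (x : R ⧸ center R) y]
    group

lemma eq_one_of_two_odd {x : G} {a : ℕ} (h1 : orderOf x ∣ 2 ^ a) (h2 : ¬ 2 ∣ orderOf x) :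
    x = 1 :=
  orderOf_eq_one_iff.1 (Nat.eq_one_of_dvd_coprimes
    (((Nat.prime_two.coprime_iff_not_dvd).2 h2).pow_left a) h1 dvd_rfl)

lemma odd_orderOf [Finite G] {U : Subgroup G} (h : ¬ 2 ∣ Nat.card U) {x : G} (hx : x ∈ U) :
    ¬ 2 ∣ orderOf x := fun e => h (e.trans (Subgroup.orderOf_dvd_natCard U hx))

lemma tyI_dec [Finite G] (H S : Subgroup G) (hSH : S ≤ H) {a : ℕ} (hS : Nat.card S = 2 ^ a)
    (hodd : ¬ 2 ∣ S.index) (h : TyI H) :
    ∃ U ≤ H, (∀ h ∈ H, ∀ x ∈ U, h * x * h⁻¹ ∈ U) ∧ ¬ 2 ∣ Nat.card U ∧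
      (∀ c ∈ H, ∃ u ∈ U, ∃ s ∈ S, c = u * s) ∧ (∀ x ∈ H, ¬ 2 ∣ orderOf x → x ∈ U) ∧
      Nat.card H = Nat.card U * Nat.card S := by
  obtain ⟨O, hO, h2, b, hb⟩ := h
  have hi : ¬ 2 ∣ (S.subgroupOf H).index := fun e => hodd (e.trans (relIndex_dvd_index_of_le hSH))
  have htop : O ⊔ S.subgroupOf H = ⊤ := index_eq_one.1 (Nat.eq_one_of_dvd_coprimes
    (((Nat.prime_two.coprime_iff_not_dvd).2 hi).pow_left b)
    (hb ▸ index_dvd_of_le le_sup_left) (index_dvd_of_le le_sup_right))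
  have hc : Nat.card (O.map H.subtype) = Nat.card O := card_map_of_injective H.subtype_injective
  have hc' : Nat.card (S.subgroupOf H) = Nat.card S :=
    Nat.card_congr (subgroupOfEquivOfLe hSH).toEquiv
  refine ⟨O.map H.subtype, map_subtype_le O, ?_, hc ▸ h2, fun c hc => ?_, fun x hx h => ?_, ?_⟩
  · rintro h hh _ ⟨x, hx, rfl⟩
    exact ⟨_, hO.conj_mem x hx ⟨h, hh⟩, rfl⟩
  · obtain ⟨u, hu, s, hs, e⟩ := (mem_sup_of_normal_left).1 (htop ▸ mem_top (⟨c, hc⟩ : H))
    exact ⟨u, ⟨u, hu, rfl⟩, s, hs, (congrArg Subtype.val e).symm⟩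
  · refine ⟨⟨x, hx⟩, mem_of_pow_eq_one (d := orderOf x) ?_ (Subtype.ext (pow_orderOf_eq_one x)),
      rfl⟩
    rw [hb]
    exact (((Nat.prime_two.coprime_iff_not_dvd).2 h).pow_left b).symm
  · have h1 := O.card_mul_index
    have h3 := (S.subgroupOf H).card_mul_index
    rw [hc, hS, ← h1, hb]
    rw [hc', hS, ← h1, hb] at h3
    have e1 : 2 ^ a ∣ 2 ^ b := (((Nat.prime_two.coprime_iff_not_dvd).2 h2).pow_left a
      ).dvd_of_dvd_mul_left ⟨_, h3.symm⟩
    have e2 : 2 ^ b ∣ 2 ^ a := (((Nat.prime_two.coprime_iff_not_dvd).2 hi).pow_left b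
      ).dvd_of_dvd_mul_right ⟨_, h3.trans (mul_comm _ _)⟩
    rw [Nat.dvd_antisymm e1 e2]

/-- An element acting nontrivially has a power acting with prime order. -/
lemma exists_prime_act {R : Type*} [Group R] [Finite R] {a : MulAut R} (ha : a ≠ 1) :
    ∃ q k : ℕ, q.Prime ∧ q ∣ orderOf a ∧ a ^ k ≠ 1 ∧ (a ^ k) ^ q = 1 := by
  obtain ⟨q, hq, k, hk⟩ := Nat.exists_prime_and_dvd (fun e => ha (orderOf_eq_one_iff.1 e))
  refine ⟨q, k, hq, ⟨k, hk⟩, fun e => ?_, by rw [← pow_mul, mul_comm, ← hk, pow_orderOf_eq_one]⟩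
  have h1 := Nat.le_of_dvd (Nat.pos_of_ne_zero fun e => (orderOf_pos a).ne' (by rw [hk, e]; rfl))
    (orderOf_dvd_of_pow_eq_one e)
  have := hq.two_le
  have := orderOf_pos a
  nlinarith

lemma orderOf_conj' (g x : G) : orderOf (g * x * g⁻¹) = orderOf x :=
  MulEquiv.orderOf_eq (MulAut.conj g) x

lemma orderOf_isConj {x y : G} (h : IsConj x y) : orderOf x = orderOf y := by
  obtain ⟨c, rfl⟩ := isConj_iff.1 h
  exact (orderOf_conj' c x).symm

lemma exists_invol [Finite G] {H : Subgroup G} (h : 2 ∣ Nat.card H) : ∃ z ∈ H, orderOf z = 2 := by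
  have := Fact.mk Nat.prime_two
  obtain ⟨z, hz⟩ := exists_prime_orderOf_dvd_card' 2 h
  exact ⟨z, z.2, by rwa [Subgroup.orderOf_coe]⟩

lemma mul_self_of_two {z : G} (h : orderOf z = 2) : z * z = 1 := by
  rw [← pow_two, ← h, pow_orderOf_eq_one]

lemma two_of_mul_self {z : G} (h : z * z = 1) (h1 : z ≠ 1) : orderOf z = 2 :=
  haveI := Fact.mk Nat.prime_two
  orderOf_eq_prime (by rwa [pow_two]) h1

lemma ne_one_of_two {z : G} (h : orderOf z = 2) : z ≠ 1 := fun e => by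
  rw [e, orderOf_one] at h; omega

lemma Pack.four {L : Type} [Group L] [Finite L] {p k m : ℕ} (h : Pack L p k m) : ¬ NoFour L := by
  intro hN
  obtain ⟨t, -, ht⟩ := exists_invol (H := (⊤ : Subgroup L)) (by
    rw [card_top, h.card, mul_assoc, mul_assoc]; exact dvd_mul_right _ _)
  obtain ⟨h1, K, h2, h3, -, -, h4, -⟩ := h.cent t ht
  obtain ⟨u, hu, huK⟩ : ∃ u ∈ centralizer ({t} : Set L), u ∉ K := by
    by_contra! h5
    have := card_le_of_le h5
    have := Nat.card_pos (α := K)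
    omega
  rw [mem_centralizer_singleton_iff] at hu
  rcases hN u t (h4 u hu huK).1 (mul_self_of_two ht) hu with e | e | e
  · exact huK (e ▸ K.one_mem)
  · exact ne_one_of_two ht e
  · exact huK (e ▸ h3)

lemma Pack.three_dvd {L : Type} [Group L] {p k m : ℕ} (h : Pack L p k m) : 3 ∣ k * m := by
  have h3 : ¬ 3 ∣ p := fun e => by
    have := (Nat.prime_dvd_prime_iff_eq Nat.prime_three h.prime).1 e
    have := h.five
    omega
  refine (Nat.prime_three.dvd_mul).2 ?_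
  have : k % 3 = 0 ∨ k % 3 = 1 ∨ k % 3 = 2 := by omega
  rcases h.par with ⟨h1, h2⟩ | ⟨h1, h2⟩ <;> omega

lemma NoFour.sub (h : NoFour G) (H : Subgroup G) : NoFour H := fun s t hs ht hst => by
  simpa using h s t (congrArg Subtype.val hs) (congrArg Subtype.val ht) (congrArg Subtype.val hst)

lemma not_noFour_of_exp {H : Type} [Group H] [Finite H] {B : Subgroup H} (hB : 2 < Nat.card B)
    (h2 : ∀ x ∈ B, x * x = 1) : ¬ NoFour H := fun hN => by
  have : Nontrivial B := Finite.one_lt_card_iff_nontrivial.1 (by omega)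
  obtain ⟨s, hs⟩ := exists_ne (1 : B)
  have : ∀ t : B, t = 1 ∨ t = s := fun t => by
    have e : (t : H) * s = s * t := by
      have := h2 _ (mul_mem t.2 s.2)
      rw [← inv_eq_of_mul_eq_one_right this, mul_inv_rev,
        inv_eq_of_mul_eq_one_right (h2 _ s.2), inv_eq_of_mul_eq_one_right (h2 _ t.2)]
    rcases hN t s (h2 _ t.2) (h2 _ s.2) e with e | e | e
    · exact Or.inl (Subtype.ext e)
    · exact absurd (Subtype.ext e) hs
    · exact Or.inr (Subtype.ext e)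
  have h3 : (Set.univ : Set B) ⊆ {1, s} := fun t _ => this t
  have := (Set.ncard_le_ncard h3).trans (Set.ncard_pair hs.symm).le
  rw [Set.ncard_univ] at this
  omega

lemma Ext.not_central {H Q : Type} [Group H] [Finite H] [Group Q] {f : H →* Q} {r : ℕ}
    (h : Ext f r) {z : H} (hz : orderOf z = 2) (hc : ∀ x, x * z = z * x) : False := by
  obtain ⟨hr, h2, -, hk, hi⟩ := h
  have : Nontrivial f.ker := Finite.one_lt_card_iff_nontrivial.1
    (hk ▸ Nat.one_lt_pow two_ne_zero hr.one_lt)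
  obtain ⟨x, hx⟩ := exists_ne (1 : f.ker)
  refine hx (Subtype.ext (eq_one_of_eq_inv (odd_orderOf (fun e => h2 ?_) x.2) ?_))
  · exact ((Nat.prime_dvd_prime_iff_eq Nat.prime_two hr).1
      (Nat.prime_two.dvd_of_dvd_pow (hk ▸ e))).symm
  · rw [← hi z hz x x.2, ← hc, mul_inv_cancel_right]

lemma cent_ne_top [Finite G] [IsSimpleGroup G] (h4 : 4 ∣ Nat.card G) {z : G} (hz : z ≠ 1) :
    centralizer ({z} : Set G) ≠ ⊤ := fun e => by
  have h1 : z ∈ center G := mem_center_iff.2 fun g =>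
    mem_centralizer_singleton_iff.1 (e ▸ mem_top g)
  rcases (inferInstance : (center G).Normal).eq_bot_or_eq_top with e | e
  · exact hz (mem_bot.1 (e ▸ h1))
  · let _ : CommGroup G := ⟨fun a b => mem_center_iff.1 (e ▸ mem_top b) a⟩
    exact hz (hom_trivial h4 (MonoidHom.id G) z)

lemma struct8' [Finite G] {S : Subgroup G} (h8 : Nat.card S = 8)
    (hn : ∃ x ∈ S, ∃ y ∈ S, x * y ≠ y * x) :
    ∃ z ∈ S, orderOf z = 2 ∧ (∀ x ∈ S, x * z = z * x) ∧ (∀ x ∈ S, x * x = 1 ∨ x * x = z) ∧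
      (∀ x ∈ S, ∀ y ∈ S, x * y * x⁻¹ * y⁻¹ = 1 ∨ x * y * x⁻¹ * y⁻¹ = z) ∧
      ∀ x ∈ S, (∀ y ∈ S, x * y = y * x) → x = 1 ∨ x = z := by
  obtain ⟨x, hx, y, hy, hxy⟩ := hn
  obtain ⟨z, hz, z1, z2, z3, z4⟩ := struct8 h8 ⟨⟨x, hx⟩, ⟨y, hy⟩,
    fun e => hxy (congrArg Subtype.val e)⟩
  exact ⟨z, z.2, by rwa [Subgroup.orderOf_coe], fun x hx => congrArg Subtype.val (z1 ⟨x, hx⟩),
    fun x hx => (z2 ⟨x, hx⟩).imp (congrArg Subtype.val) (congrArg Subtype.val),
    fun x hx y hy => (z3 ⟨x, hx⟩ ⟨y, hy⟩).imp (congrArg Subtype.val) (congrArg Subtype.val),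
    fun x hx h => (z4 ⟨x, hx⟩ fun y => Subtype.ext (h y y.2)).imp (congrArg Subtype.val)
      (congrArg Subtype.val)⟩

/-- Fusion in a group with a normal `2`-complement. -/
lemma fuse_of_dec [Finite G] {S U : Subgroup G} {a : ℕ} (hS : Nat.card S = 2 ^ a)
    (U1 : ∀ h ∈ S, ∀ x ∈ U, h * x * h⁻¹ ∈ U) (U2 : ¬ 2 ∣ Nat.card U) {u s x : G} (hu : u ∈ U)
    (hs : s ∈ S) (hx : x ∈ S) (h : (u * s)⁻¹ * x * (u * s) ∈ S) :
    (u * s)⁻¹ * x * (u * s) = s⁻¹ * x * s := by
  have e7 : u⁻¹ * x * u * x⁻¹ ∈ S := by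
    have := mul_mem (mul_mem (mul_mem hs h) (inv_mem hs)) (inv_mem hx)
    simpa [mul_assoc] using this
  have e8 : u⁻¹ * x * u * x⁻¹ = 1 := eq_one_of_two_odd
    (hS ▸ Subgroup.orderOf_dvd_natCard _ e7) (odd_orderOf U2 (by
      simpa [mul_assoc] using mul_mem (inv_mem hu) (U1 x hx u hu)))
  rw [mul_inv_eq_one] at e8
  calc (u * s)⁻¹ * x * (u * s) = s⁻¹ * (u⁻¹ * x * u) * s := by group
    _ = _ := by rw [e8]

lemma mem_zpowers_two {z x : G} (hz : orderOf z = 2) : x ∈ zpowers z ↔ x = 1 ∨ x = z := by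
  rw [(isOfFinOrder_iff_pow_eq_one.2 ⟨2, two_pos, hz ▸ pow_orderOf_eq_one z⟩
    ).mem_zpowers_iff_mem_range_orderOf, hz]
  simp [Finset.range_add_one, eq_comm, or_comm]

lemma three_dvd_of_q8 [Finite G] [IsSimpleGroup G] (ih : IH G) (hN : NoFour G) (S : Subgroup G)
    (h8 : Nat.card S = 8) (hi : ¬ 2 ∣ S.index) (hn : ∃ x ∈ S, ∃ y ∈ S, x * y ≠ y * x) :
    ∃ z : G, orderOf z = 2 ∧ 3 ∣ Nat.card (centralizer ({z} : Set G)) := by
  have h4 : 4 ∣ Nat.card G := (show 4 ∣ 8 by norm_num).trans (h8 ▸ card_subgroup_dvd_card _)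
  obtain ⟨z, hzS, hz, z1, z2, z3, z4⟩ := struct8' h8 hn
  refine ⟨z, hz, ?_⟩
  have hzC : z ∈ centralizer ({z} : Set G) := mem_centralizer_singleton_iff.2 rfl
  have hzc : ∀ x : centralizer ({z} : Set G), x * ⟨z, hzC⟩ = ⟨z, hzC⟩ * x := fun x =>
    Subtype.ext (mem_centralizer_singleton_iff.1 x.2)
  have hz2 : orderOf (⟨z, hzC⟩ : centralizer ({z} : Set G)) = 2 := by
    rwa [← Subgroup.orderOf_coe]
  rcases ih.sub (cent_ne_top h4 (ne_one_of_two hz)) with h | ⟨B, -, h1, h2, -⟩ |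
    ⟨-, B, hB, h1, g, hg, x, hx, hgx⟩ | ⟨-, Q, _, f, r, h, -⟩ | ⟨B, -, h1, h2, -⟩ |
    ⟨p, L, k, m, -, h⟩ | ⟨p, -, M, z', L, _, f, k, m, -, -, -, hf, -, h⟩ |
    ⟨p, -, Q, _, f, r, h, -⟩
  · exfalso
    have hSC : ∀ x ∈ S, x ∈ centralizer ({z} : Set G) := fun x hx =>
      mem_centralizer_singleton_iff.2 (z1 x hx)
    obtain ⟨U, hU, U1, U2, U3, -⟩ := tyI_dec _ S hSC (a := 3) h8 hi h
    have huniq : ∀ x ∈ S, x * x = 1 → x = 1 ∨ x = z := fun x hx h =>
      (hN x z h (mul_self_of_two hz) (z1 x hx)).imp id fun e => e.resolve_left (ne_one_of_two hz)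
    obtain ⟨a, ha, b, hb, hab⟩ := hn
    have h5 := no_transfer h4 S (zpowers z) (fun x hx y hy => (mem_zpowers_two hz).2 (z3 x hx y hy))
      ha fun k c hc => by
        have hx := pow_mem ha k
        generalize a ^ k = x at hx hc
        have e2 : c⁻¹ * x * c * (c⁻¹ * x * c) = c⁻¹ * (x * x) * c := by group
        rcases z2 x hx with e | e
        · exact mul_mem ((mem_zpowers_two hz).2 (huniq _ hc (by rw [e2, e]; group)))
            (inv_mem ((mem_zpowers_two hz).2 (huniq x hx e)))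
        · rw [e] at e2
          have e3 : c⁻¹ * z * c = z := by
            rcases z2 _ hc with e4 | e4
            · refine absurd ?_ (ne_one_of_two hz)
              calc z = c * (c⁻¹ * z * c) * c⁻¹ := by group
                _ = 1 := by rw [e2.symm.trans e4]; group
            · exact e2.symm.trans e4
          obtain ⟨u, hu, s, hs, rfl⟩ := U3 c (mem_centralizer_singleton_iff.2 (by
            rw [mul_assoc, inv_mul_eq_iff_eq_mul] at e3; exact e3.symm))
          rw [fuse_of_dec (a := 3) h8 (fun h hh => U1 h (hSC h hh)) U2 hu hs hx hc]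
          simpa using (mem_zpowers_two hz).2 (z3 _ (inv_mem hs) x hx)
    obtain ⟨j, hj⟩ := (Nat.not_even_iff_odd.1 (fun e => hi e.two_dvd))
    rw [hj, pow_succ, pow_mul, pow_two, mul_mem_cancel_left
      (pow_mem ((mem_zpowers_two hz).2 (z2 a ha)) _), mem_zpowers_two hz] at h5
    rcases h5 with rfl | rfl
    · simp at hab
    · exact hab (z1 b hb).symm
  · exact absurd (hN.sub _) (not_noFour_of_exp (by omega) h2)
  · obtain ⟨q, k, hq, hq1, hq2, hq3⟩ := exists_prime_act (a := cjN B hB g) fun e =>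
      hgx ((isCj_cjN hB g).eq_one_iff.1 e x hx)
    have hqg := hq1.trans (isCj_cjN hB g).orderOf_dvd
    have h5 := card_modEq_fixS hq hq3
    obtain ⟨z0, hz0, hz1⟩ := exists_invol (H := B) (by omega)
    have : z0 = ⟨z, hzC⟩ := by
      simpa [ne_one_of_two hz1, ne_one_of_two hz2] using
        hN.sub _ z0 ⟨z, hzC⟩ (mul_self_of_two hz1) (mul_self_of_two hz2) (hzc z0)
    subst this
    have h6 : 2 ∣ Nat.card (fixS (cjN B hB g ^ k)) := by
      have : (⟨_, hz0⟩ : B) ∈ fixS (cjN B hB g ^ k) := pow_fix (Subtype.ext (by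
        rw [isCj_cjN hB g, hzc, mul_inv_cancel_right])) k
      have := Subgroup.orderOf_dvd_natCard _ this
      rwa [← Subgroup.orderOf_coe, hz1] at this
    have h7 := card_subgroup_dvd_card (fixS (cjN B hB g ^ k))
    have h9 : Nat.card (fixS (cjN B hB g ^ k)) ≠ 8 := fun e => hq2 (by
      have := eq_top_of_card_eq _ (e.trans h1.symm)
      ext y
      exact congrArg _ (congrArg _ (this ▸ mem_top y : y ∈ fixS _)))
    rw [h1] at h5 h7
    have h10 : q ≠ 2 := fun e => hg (e ▸ hqg)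
    have h11 := Nat.le_of_dvd (by norm_num) h7
    have h12 : q ∣ 8 - Nat.card (fixS (cjN B hB g ^ k)) := (Nat.modEq_iff_dvd' h11).1 h5.symm
    have h13 : q = 3 := by
      have := hq.two_le
      generalize Nat.card (fixS (cjN B hB g ^ k)) = c at *
      have h14 : q ≤ 8 - c := Nat.le_of_dvd (by omega) h12
      interval_cases c <;> interval_cases q <;> simp_all (config := {decide := true})
    exact (h13 ▸ hqg).trans (orderOf_dvd_natCard g)
  · exact (h.not_central hz2 hzc).elim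
  · exact absurd (hN.sub _) (not_noFour_of_exp (by omega) h2)
  · exact absurd ((hN.sub _).sub L) h.four
  · refine Dvd.dvd.trans ?_ ((card_dvd_of_surjective f hf).trans (card_subgroup_dvd_card M))
    rw [h.card]
    exact h.three_dvd.trans ⟨2 * p, by ring⟩
  · exact (h.not_central hz2 hzc).elim

/-- Burnside's theorem in a simple group. -/
lemma exists_nontrivial_act [Finite G] [IsSimpleGroup G] (h4 : 4 ∣ Nat.card G) {p : ℕ}
    [Fact p.Prime] (P : Sylow p G) (h1 : (P : Subgroup G) ≠ ⊥) :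
    ∃ g, (∀ x ∈ P, g * x * g⁻¹ ∈ P) ∧ ∃ x ∈ P, g * x ≠ x * g := by
  by_contra! h
  have hP : normalizer ((P : Subgroup G) : Set G) ≤ centralizer ((P : Subgroup G) : Set G) :=
    fun g hg x hx => (h g (fun y hy => (mem_normalizer_iff.1 hg y).1 hy) x hx).symm
  have hc := MonoidHom.ker_transferSylow_isComplement' P hP
  let _ : CommGroup (P : Subgroup G) := ⟨fun a b => Subtype.ext (hP (le_normalizer b.2) a a.2)⟩
  refine h1 (eq_bot_iff.2 fun x hx => hc.disjoint.le_bot ⟨?_, hx⟩)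
  exact hom_trivial h4 (MonoidHom.transferSylow P hP) x

lemma sylow_of_order [Finite G] {p : ℕ} [hp : Fact p.Prime] {w : G} (hw : orderOf w = p)
    (h : ¬ p ^ 2 ∣ Nat.card G) : ∃ P : Sylow p G, (P : Subgroup G) = zpowers w := by
  have h0 : IsPGroup p (zpowers w) :=
    IsPGroup.of_card (n := 1) (by rw [Nat.card_zpowers, hw, pow_one])
  refine ⟨IsPGroup.toSylow h0 fun e => h ?_, rfl⟩
  rw [← (zpowers w).card_mul_index, Nat.card_zpowers, hw, pow_two]
  exact Nat.mul_dvd_mul_left _ e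

lemma mem_zpowers_of_comm [Finite G] {p : ℕ} [hp : Fact p.Prime] {w y : G} (hw : orderOf w = p)
    (h : ¬ p ^ 2 ∣ Nat.card G) (hy : y ^ p = 1) (hc : y * w = w * y) : y ∈ zpowers w := by
  obtain ⟨P, hP⟩ := sylow_of_order hw h
  have := mem_sylow_of_comm P (y := y) (k := 1) (by rwa [pow_one]) fun x hx => by
    obtain ⟨k, rfl⟩ := mem_zpowers_iff.1 (hP ▸ hx : x ∈ zpowers w)
    exact (Commute.zpow_right hc k).eq
  exact hP ▸ this

lemma exists_inv_three [Finite G] [IsSimpleGroup G] (h4 : 4 ∣ Nat.card G)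
    (h9 : ¬ 9 ∣ Nat.card G) {w : G} (hw : orderOf w = 3) : ∃ u, u * w * u⁻¹ = w⁻¹ := by
  have := Fact.mk Nat.prime_three
  obtain ⟨P, hP⟩ := sylow_of_order hw h9
  have hw1 := ne_one_of_orderOf Nat.prime_three hw
  obtain ⟨g, h1, x, hx, h2⟩ := exists_nontrivial_act h4 P (by rw [hP]; simpa using hw1)
  refine ⟨g, ?_⟩
  rcases mem_three hw (hP.le (h1 w (hP.ge (mem_zpowers w)))) with e | e | e
  · exact absurd (conj_eq_one_iff.1 e) hw1
  · obtain ⟨k, rfl⟩ := mem_zpowers_iff.1 (hP ▸ hx : x ∈ zpowers w)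
    exact absurd (Commute.zpow_right (mul_inv_eq_iff_eq_mul.1 e) k).eq h2
  · exact e

theorem no_simple_q8 [Finite G] [IsSimpleGroup G] (h9 : ¬ 9 ∣ Nat.card G) (ih : IH G)
    (hN : NoFour G) (S : Sylow 2 G) (h8 : Nat.card (S : Subgroup G) = 8)
    (hn : ∃ x ∈ (S : Subgroup G), ∃ y ∈ (S : Subgroup G), x * y ≠ y * x) : False := by
  have := Fact.mk Nat.prime_two
  have := Fact.mk Nat.prime_three
  have := Fintype.ofFinite G
  have h4 : 4 ∣ Nat.card G := (show 4 ∣ 8 by norm_num).trans (h8 ▸ card_subgroup_dvd_card _)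
  obtain ⟨z, hz, h3⟩ := three_dvd_of_q8 ih hN S h8 S.not_dvd_index hn
  obtain ⟨⟨w, hwz⟩, hw⟩ := exists_prime_orderOf_dvd_card' 3 h3
  rw [← Subgroup.orderOf_coe] at hw
  change orderOf w = 3 at hw
  rw [mem_centralizer_singleton_iff] at hwz
  have hw1 := ne_one_of_orderOf Nat.prime_three hw
  obtain ⟨u, hu⟩ := exists_inv_three h4 h9 hw
  set C := centralizer ({w} : Set G) with hC
  have mC : ∀ x, x ∈ C ↔ x * w = w * x := fun x => mem_centralizer_singleton_iff
  have hwC : w ∈ C := (mC w).2 rfl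
  have hww : w ≠ w⁻¹ := fun e => hw1 (eq_one_of_eq_inv (by rw [hw]; decide) e)
  have hnorm : ∀ g, g * w * g⁻¹ = w⁻¹ → ∀ x ∈ C, g * x * g⁻¹ ∈ C := fun g hg x hx => by
    have h1 : Commute (g * x * g⁻¹) (g * w * g⁻¹) := Commute.map ((mC x).1 hx) (MulAut.conj g)
    rw [hg] at h1
    exact (mC _).2 (Commute.inv_right_iff.1 h1).eq
  -- a linear character of order three
  obtain ⟨lam, hl, hlw, hl3⟩ : ∃ lam, Lin C lam ∧ lam w ≠ 1 ∧ ∀ x ∈ C, lam x ^ 3 = 1 := by
    obtain ⟨P, hP⟩ := sylow_of_order (G := C) (w := ⟨w, hwC⟩) (p := 3)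
      (by rwa [← Subgroup.orderOf_coe]) fun e => h9 (e.trans (card_subgroup_dvd_card C))
    have hc : ∀ g : C, ∀ x ∈ P, g * x = x * g := fun g x hx => by
      obtain ⟨k, rfl⟩ := mem_zpowers_iff.1 (hP ▸ hx : x ∈ zpowers (⟨w, hwC⟩ : C))
      exact (Commute.zpow_right (Subtype.ext ((mC g).1 g.2)) k).eq
    obtain ⟨l, h1, h2, -⟩ := exists_lin C ((commutator C).map C.subtype) (fun x hx y hy =>
      ⟨_, commutator_mem_commutator (mem_top (⟨x, hx⟩ : C)) (mem_top ⟨y, hy⟩), rfl⟩) hwC (by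
        rintro ⟨x, hx, e⟩
        obtain rfl : x = ⟨w, hwC⟩ := Subtype.ext e
        exact hw1 (congrArg Subtype.val (trf P (fun x _ y hy => hc x y hy)
          (hP.ge (mem_zpowers _)) (fun g _ => hc g _ (hP.ge (mem_zpowers _))) hx)))
    obtain ⟨e, he⟩ : 3 ∣ Nat.card C := hw ▸ Subgroup.orderOf_dvd_natCard _ hwC
    refine ⟨_, h1.pow' e, fun h => h2 (h1.eq_one_of_coprime hwC h ?_), fun x hx => ?_⟩
    · rw [hw, Nat.prime_three.coprime_iff_not_dvd]
      exact fun h => h9 ((he ▸ Nat.mul_dvd_mul_left 3 h).trans (card_subgroup_dvd_card C))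
    · rw [← pow_mul, mul_comm, ← he, ← h1.pow hx, pow_card_of_mem hx, h1.1]
  have hpart : ∀ x ∈ C, lam x ≠ 1 → 3 ∣ orderOf x ∧ ∀ g, g * x * g⁻¹ ∈ C →
      g * w * g⁻¹ = w ∨ g * w * g⁻¹ = w⁻¹ := fun x hx h => by
    have h1 : 3 ∣ orderOf x := by
      by_contra h1
      exact h (hl.eq_one_of_coprime hx (hl3 x hx)
        ((Nat.prime_three.coprime_iff_not_dvd).2 h1).symm)
    refine ⟨h1, fun g hg => ?_⟩
    obtain ⟨e, he⟩ := h1
    have h2 : (x ^ e) ^ 3 = 1 := by rw [← pow_mul, mul_comm, ← he, pow_orderOf_eq_one]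
    have h5 : x ^ e ≠ 1 := fun h => by
      have := orderOf_pos x
      have := Nat.le_of_dvd (by omega) (orderOf_dvd_of_pow_eq_one h)
      omega
    have h6 := mem_three hw (mem_zpowers_of_comm hw h9 h2 ((mC _).1 (pow_mem hx e)))
    have h7 := mem_three hw (mem_zpowers_of_comm hw h9 (y := (g * x * g⁻¹) ^ e)
      (by rw [conj_pow, conj_pow, h2]; group) ((mC _).1 (pow_mem hg e)))
    rw [conj_pow, conj_eq_one_iff] at h7
    rcases h6 with h6 | h6 | h6
    · exact absurd h6 h5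
    · exact (h6 ▸ h7).resolve_left hw1
    · rw [h6, ← conj_inv, inv_inj, inv_eq_iff_eq_inv (a := g * w * g⁻¹)] at h7
      exact (h7.resolve_left (inv_ne_one.2 hw1)).symm
  obtain ⟨T⟩ := exists_ct G
  obtain ⟨i0, h0, h0'⟩ := T.exists_triv
  obtain ⟨c, i, j, hc, hi, -, -, -, -, hd, hF⟩ := T.norm3 C hl (hnorm u hu) ⟨w, hwC, fun e => by
    rw [hu] at e
    refine hlw ?_
    have := hl.inv_mul hwC
    rw [e] at this
    linear_combination hl3 w hwC - lam w * this⟩ (fun g x hx h hg =>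
      ((hpart x hx h).2 g hg).imp (fun e => (mC g).2 (mul_inv_eq_iff_eq_mul.1 e)) fun e => by
        have h1 : u⁻¹ * w * u = w⁻¹ := by
          rw [← inv_inj, inv_inv]
          calc (u⁻¹ * w * u)⁻¹ = u⁻¹ * w⁻¹ * u := by group
            _ = w := by rw [← hu]; group
        rw [mC, ← mul_inv_eq_iff_eq_mul]
        calc g * u⁻¹ * w * (g * u⁻¹)⁻¹ = g * (u⁻¹ * w * u) * g⁻¹ := by group
          _ = (g * w * g⁻¹)⁻¹ := by rw [h1]; group
          _ = w := by rw [e, inv_inv]) h0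
  have hC0 : (Nat.card C : ℂ) ≠ 0 := Nat.cast_ne_zero.2 Nat.card_pos.ne'
  have hzz := mul_self_of_two hz
  have hv := T.val (fun k : C => 1 - lam k) (fun k => k) z
  rw [inv_eq_of_mul_eq_one_right hzz, Finset.sum_eq_zero (s := univ) (f := fun k : C => _ * (cnt _ _ : ℂ))
    fun k _ => by
      by_cases h : lam k = 1
      · rw [h, sub_self, zero_mul]
      · rw [cnt_of_not fun e => ?_, Nat.cast_zero, mul_zero]
        have := (hpart k k.2 h).1
        rw [orderOf_isConj e, hz] at this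
        omega] at hv
  have hcl := T.cls (fun k : C => 1 - lam k) (fun k => k) (univ.filter (IsConj z ·))
    (by simp) hzz
  rw [Finset.sum_eq_zero (s := univ) (f := fun k : C => _ * (prs _ _ : ℂ)) fun k _ => by
    by_cases h : lam k = 1
    · rw [h, sub_self, zero_mul]
    · rw [prs, Finset.card_eq_zero.2 (Finset.filter_eq_empty_iff.2 fun y hy e => ?_),
        Nat.cast_zero, mul_zero]
      simp only [Finset.mem_product, Finset.mem_filter, Finset.mem_univ, true_and] at hy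
      have y1 := (orderOf_isConj hy.1).symm.trans hz
      have y2 := (orderOf_isConj hy.2).symm.trans hz
      have y3 := mul_self_of_two y1
      have y4 : y.1 * k * y.1⁻¹ = (k : G)⁻¹ := by
        rw [← e, ← mul_assoc, y3, one_mul, _root_.mul_inv_rev,
          inv_eq_of_mul_eq_one_right (mul_self_of_two y2)]
      rcases (hpart k k.2 h).2 y.1 (y4 ▸ inv_mem k.2) with y5 | y5
      · have y6 : y.1 ∈ C := (mC _).2 (mul_inv_eq_iff_eq_mul.1 y5)
        have y7 := hl.conj_self y6 k.2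
        have y8 := hl.inv_mul k.2
        rw [y4] at y7
        rw [y7] at y8
        exact h (by linear_combination hl3 k k.2 - lam k * y8)
      · obtain ⟨a, ha⟩ := exists_isCj (hnorm _ y5)
        have y6 := card_modEq_fixS Nat.prime_two (a := a) (by
          refine (ha.pow 2).eq_one_iff.2 fun x _ => ?_
          rw [pow_two, y3, one_mul, mul_one])
        have y7 : 2 ∣ Nat.card C := hz ▸ Subgroup.orderOf_dvd_natCard _ ((mC z).2 hwz.symm)
        obtain ⟨v, hv, hv2⟩ := exists_invol (H := fixS a)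
          ((Nat.modEq_zero_iff_dvd).1 (y6.symm.trans ((Nat.modEq_zero_iff_dvd).2 y7)))
        rw [← Subgroup.orderOf_coe] at hv2
        have y8 : y.1 * v * y.1⁻¹ = v := (ha v).symm.trans (congrArg Subtype.val hv)
        rcases hN y.1 v y3 (mul_self_of_two hv2) (mul_inv_eq_iff_eq_mul.1 y8) with e | e | e
        · exact ne_one_of_two y1 e
        · exact ne_one_of_two hv2 e
        · rw [e, ((mC _).1 v.2), mul_inv_cancel_right] at y5
          exact hww y5] at hcl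
  simp only [hc, mul_assoc, ← Finset.mul_sum, hF, h0, ← T.χ_one i0, hd] at hv hcl
  have hI : ((univ.filter (IsConj z ·)).card : ℂ) ≠ 0 :=
    Nat.cast_ne_zero.2 (Finset.card_ne_zero.2 ⟨z, Finset.mem_filter.2 ⟨mem_univ _, IsConj.refl z⟩⟩)
  have e1 := (mul_eq_zero.1 hv).resolve_left hC0
  have e2 := (mul_eq_zero.1 ((mul_eq_zero.1 (hcl.trans (mul_zero _))).resolve_left
    (pow_ne_zero 2 hI))).resolve_left hC0
  have d1 := T.d_ne i
  have d2 := T.d_ne j
  rw [hd] at d2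
  rw [show T.χ j z = 1 + T.χ i z by linear_combination -e1] at e2
  push_cast at e2 d2
  field_simp at e2
  have e3 : T.χ i z = T.d i := by
    have : (T.χ i z - T.d i) ^ 2 = 0 := by linear_combination e2
    exact sub_eq_zero.1 (pow_eq_zero_iff two_ne_zero |>.1 this)
  rcases T.eq_one_of_simple i e3 with e | e
  · exact ne_one_of_two hz e
  · have := h0' i hi
    simp [e, d1] at this

end Pool.Agent.Lib.MP_cb9dee_al
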