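import Pool.Agent.Lib.MP_cb9dee_al.CFus
import Pool.Agent.Lib.MP_cb9dee_al.CNum

set_option linter.unusedSectionVars false

namespace Pool.Agent.Lib.MP_cb9dee_al

open Subgroup Finset Matrix
open scoped Classical

variable {G : Type} [Group G] [Fintype G]

lemma sum_enum {S : Subgroup G} {n : ℕ} (e : Fin n → G) (he : ∀ i, e i ∈ S)
    (hs : ∀ σ ∈ S, ∃ i, e i = σ) (hc : Nat.card S = n) (F : G → ℂ) :
    ∑ τ : S, F τ = ∑ i, F (e i) := by
  have h : Function.Surjective fun i => (⟨e i, he i⟩ : S) := fun σ =>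
    (hs σ σ.2).imp fun i hi => Subtype.ext hi
  exact ((h.bijective_of_nat_card_le (by rw [hc, Nat.card_fin])).sum_comp fun τ : S => F τ).symm

/-- The twisted averages at `1` and at a centralizing involution are integers of equal parity. -/
lemma CT.inv_mult (T : CT G) (l) {D : Subgroup G} {μ : G → ℂ} (hμ : Lin D μ) {v : G}
    (hv : v * v = 1) (hc : ∀ y ∈ D, v * y = y * v) :
    ∃ z m : ℤ, T.cf D v μ l = z ∧ T.cf D 1 μ l = m ∧ 2 ∣ z - m := by
  let φ : ℤˣ →* G := MonoidHom.mk' (fun x => if x = 1 then 1 else v) fun a b => by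
    rcases Int.units_eq_one_or a with rfl | rfl <;> rcases Int.units_eq_one_or b with rfl | rfl <;>
      simp [hv]
  obtain ⟨m, hm⟩ := T.multK l hμ.inv
  obtain ⟨k, hk, -⟩ := T.mult l (φ.noncommCoprod D.subtype fun a b => by
    change Commute (if _ then _ else _) _
    split_ifs
    exacts [Commute.one_left _, hc b b.2]) (fun x => μ (x.2 : G)⁻¹)
    fun a b => hμ.inv.2 _ a.2.2 _ b.2.2
  have hD : (Nat.card D : ℂ) ≠ 0 := Nat.cast_ne_zero.2 Nat.card_pos.ne'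
  have h1 : T.cf D 1 μ l = m := by
    rw [CT.cf, div_eq_iff hD, mul_comm, ← hm]; simp
  rw [Fintype.sum_prod_type, Fintype.sum_eq_add 1 (-1) (by decide)
    (fun x hx => absurd (Int.units_eq_one_or x) (by tauto)), Fintype.card_prod,
    ← Nat.card_eq_fintype_card (α := D), Fintype.card_units_int] at hk
  change ∑ y : D, μ (y : G)⁻¹ * T.χ l (1 * y) + ∑ y : D, μ (y : G)⁻¹ * T.χ l (v * y) = _ at hk
  rw [T.sum_cf, T.sum_cf, h1] at hk
  refine ⟨2 * k - m, m, mul_left_cancel₀ hD ?_, by simpa using h1, by omega⟩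
  push_cast at hk ⊢
  linear_combination hk

lemma CT.triv_of (T : CT G) [IsSimpleGroup G] (l) {t : G} (ht : t ≠ 1) {δ : ℤ}
    (hδ : δ = 1 ∨ δ = -1) (h : T.χ l t = δ) (h1 : δ * T.d l = 1) (y : G) : T.χ l y = 1 := by
  obtain ⟨rfl, e⟩ : δ = 1 ∧ T.d l = 1 := by rcases hδ with rfl | rfl <;> omega
  simpa [e] using (T.eq_one_of_simple l (x := t) (by simp [h, e])).resolve_left ht y

/-- `S` is the four-group generated by `t` and `s`. -/
structure V4 (t s : G) (S : Subgroup G) : Prop where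
  sS : s ∈ S
  s1 : s ≠ 1
  st : s ≠ t
  card : Nat.card S = 4
  exp : ∀ x ∈ S, x * x = 1

namespace Dih

variable {t s : G} {S U : Subgroup G} (h : Dih t S U) (T : CT G)
include h

lemma norm_t {μ ν : G → ℂ} (hν : Adm t S ν) :
    (Nat.card U : ℂ) * ∑ l, T.cf U t μ l * T.cf U t ν l =
      Nat.card S * ∑ u : U, μ (u : G)⁻¹ * ν u := by
  have h1 := h.norm T (μ := μ) hν h.tS (Or.inl rfl) h.tS (Or.inl rfl)
  have h2 : (univ.filter fun g => g * t = t * g ∧ t⁻¹ * (g * t * g⁻¹) ∈ U).card =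
      Nat.card U * Nat.card S := by
    rw [← h.cardC, Nat.card_eq_fintype_card, Fintype.card_subtype]
    congr 1
    ext g
    simp only [mem_filter, mem_univ, true_and, mem_centralizer_singleton_iff, and_iff_left_iff_imp]
    exact fun e => by simp [e]
  rw [h2, inv_eq_of_mul_eq_one_right h.tt] at h1
  refine mul_left_cancel₀ (Nat.cast_ne_zero.2 (Nat.card_pos (α := U)).ne') ?_
  push_cast at h1
  linear_combination h1

lemma orth_self {μ : G → ℂ} (hμ : Adm t S μ) : ∑ u : U, μ (u : G)⁻¹ * μ u = Nat.card U := by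
  rw [← (hμ.1.mono h.U_le).orth_self]
  exact Finset.sum_congr rfl fun _ _ => mul_comm _ _

lemma orth_ne {μ ν : G → ℂ} (hμ : Adm t S μ) (hν : Adm t S ν) {x : G} (hx : x ∈ U)
    (e : μ x ≠ ν x) : ∑ u : U, μ (u : G)⁻¹ * ν u = 0 := by
  rw [← (hν.1.mono h.U_le).orth_ne (hμ.1.mono h.U_le) hx e.symm]
  exact Finset.sum_congr rfl fun _ _ => mul_comm _ _

lemma cf_int {μ : G → ℂ} (hμ : Adm t S μ) : ∃ α : Fin T.n → ℤ, ∀ l, T.cf U t μ l = α l := by
  choose α _ hα _ using fun l => T.inv_mult l (hμ.1.mono h.U_le) h.tt fun y hy => (h.ut hy).symm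
  exact ⟨α, hα⟩

lemma cent_t_mul (x : G) : (centralizer {t * x}).relIndex U = (centralizer {x}).relIndex U := by
  rw [← inf_relIndex_right, ← inf_relIndex_right (centralizer {x})]
  congr 1
  ext y
  simp only [Subgroup.mem_inf, mem_centralizer_singleton_iff, and_congr_left_iff]
  exact fun hy => by rw [← mul_assoc, h.ut hy, mul_assoc, mul_assoc, mul_right_inj]

variable (v : V4 t s S)
include v

lemma v_mem {x : G} (hx : x ∈ S) : x = 1 ∨ x = t ∨ x = s ∨ x = t * s :=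
  four_mem v.card v.exp h.tS v.sS h.t1 v.s1 v.st hx

lemma v_sum (F : G → ℂ) : ∑ τ : S, F τ = F 1 + F t + F s + F (t * s) := by
  rw [sum_enum ![1, t, s, t * s] (fun i => by
    fin_cases i
    exacts [S.one_mem, h.tS, v.sS, mul_mem h.tS v.sS]) (fun σ hσ => by
    rcases h.v_mem v hσ with e | e | e | e
    exacts [⟨0, e.symm⟩, ⟨1, e.symm⟩, ⟨2, e.symm⟩, ⟨3, e.symm⟩]) v.card, Fin.sum_univ_four]
  rfl

lemma v_os : orderOf s = 2 := two_of_mul_self (v.exp s v.sS) v.s1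

lemma v_ots : orderOf (t * s) = 2 := two_of_mul_self (v.exp _ (mul_mem h.tS v.sS)) fun e =>
  v.st (by rw [← inv_eq_of_mul_eq_one_right e, inv_eq_of_mul_eq_one_right h.tt])

lemma v_cls {μ : G → ℂ} (hμ : Adm t S μ) :
    (centralizer ({t} : Set G)).index * ∑ l, T.cf U t μ l * (T.χ l t ^ 2 / T.d l) =
      8 * (centralizer {s}).relIndex U ^ 2 := by
  have si := inv_eq_of_mul_eq_one_right (v.exp s v.sS)
  rw [h.cf_cls T hμ h.tS (Or.inl rfl), h.v_sum v fun τ => nI t U τ * nI t U (τ⁻¹ * t),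
    inv_mul_cancel, h.nI_zero S.one_mem (Or.inl rfl), _root_.mul_inv_rev, inv_mul_cancel_right, si,
    h.cS s v.sS, h.nI_inv v.sS (h.v_os v), h.nI_inv (mul_mem h.tS v.sS) (h.v_ots v), h.cent_t_mul,
    v.card]
  push_cast
  ring

lemma v_mod (l) {z : ℤ} (hz : T.χ l t = z) : 4 ∣ T.d l - z := by
  obtain ⟨m, hm⟩ := T.multK l (Lin.one S)
  rw [h.v_sum v fun τ => 1 * T.χ l τ, T.χ_isConj l (h.conj _ (h.v_os v)),
    T.χ_isConj l (h.conj _ (h.v_ots v)), T.χ_one, hz, v.card] at hm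
  have : 1 * (T.d l : ℤ) + 1 * z + 1 * z + 1 * z = 4 * m := by exact_mod_cast hm
  omega

lemma v_norm {μ : G → ℂ} (hμ : Adm t S μ) {α : Fin T.n → ℤ} (hα : ∀ l, T.cf U t μ l = α l) :
    ∑ l, α l ^ 2 = 4 ∧ ∑ l, (α l : ℂ) * T.d l = 0 := by
  have h1 := h.norm_t T (μ := μ) hμ
  have h2 := h.cf_val T μ h.tS h.t1 (y := 1) (by simp)
  rw [h.orth_self hμ, v.card, mul_comm ((4 : ℕ) : ℂ)] at h1
  simp only [hα, ← sq, T.χ_one] at h1 h2
  exact ⟨by exact_mod_cast mul_left_cancel₀ (Nat.cast_ne_zero.2 Nat.card_pos.ne') h1, h2⟩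

/-- The four characters attached to a character that is invariant under local fusion. -/
lemma v_data {μ : G → ℂ} (hμ : Adm t S μ)
    (h2 : ∀ σ ∈ S, orderOf σ = 2 → σ ≠ t → ∃ c, c * σ * c⁻¹ = t ∧
      ∀ y ∈ U, y * σ = σ * y → μ (c * y * c⁻¹) = μ y) :
    ∃ α : Fin T.n → ℤ, (∀ l, T.cf U t μ l = α l) ∧
      (∀ l, α l ≠ 0 → (∀ u ∈ U, T.χ l (t * u) = μ u * α l) ∧ 4 ∣ α l * T.d l - 1) ∧
      (∃ i, α i ≠ 0) ∧ ∀ i, α i ≠ 0 → ∃ j k l, j ≠ i ∧ k ≠ i ∧ l ≠ i ∧ j ≠ k ∧ j ≠ l ∧ k ≠ l ∧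
        (α i = 1 ∨ α i = -1) ∧ (α j = 1 ∨ α j = -1) ∧ (α k = 1 ∨ α k = -1) ∧
        (α l = 1 ∨ α l = -1) ∧
        (∀ F : Fin T.n → ℂ, ∑ n, α n * F n = α i * F i + α j * F j + α k * F k + α l * F l) ∧
        α i * T.d i + α j * T.d j + α k * T.d k + α l * T.d l = 0 ∧
        (centralizer ({t} : Set G)).index * (1 / (α i * T.d i : ℤ) + 1 / (α j * T.d j : ℤ) +
          1 / (α k * T.d k : ℤ) + 1 / (α l * T.d l : ℤ) : ℚ) =
            8 * (centralizer {s}).relIndex U ^ 2 := by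
  obtain ⟨α, hα⟩ := h.cf_int T hμ
  obtain ⟨n1, n2⟩ := h.v_norm T v hμ hα
  have hv : ∀ l, α l ≠ 0 → ∀ u ∈ U, T.χ l (t * u) = μ u * α l := fun l hl u hu => by
    rcases h.mb T (J := Unit) (μ := fun _ => μ) (fun _ => hμ) (fun _ _ e => absurd rfl e)
      (by simpa using h2) l with e | e
    · simpa [hα] using e t h.tS (Or.inl rfl) u hu
    · exact absurd (by simpa [hα, hμ.1.1] using e t h.tS (Or.inl rfl) 1 U.one_mem) hl
  have ht : ∀ l, α l ≠ 0 → T.χ l t = α l := fun l hl => by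
    simpa [hμ.1.1] using hv l hl 1 U.one_mem
  obtain ⟨i0, -, hi0, -⟩ := peel n1 four_ne_zero
  refine ⟨α, hα, fun l hl => ⟨hv l hl, ?_⟩, ⟨i0, hi0⟩, fun i hi => ?_⟩
  · obtain ⟨-, -, -, -, -, -, -, -, -, e, -⟩ := norm_four n1 T.d_ne n2 hl
    have := h.v_mod T v l (ht l hl)
    rcases e with e | e <;> rw [e] at this ⊢ <;> omega
  · obtain ⟨j, k, l, a1, a2, a3, a4, a5, a6, b1, b2, b3, b4, hF⟩ := norm_four n1 T.d_ne n2 hi
    refine ⟨j, k, l, a1, a2, a3, a4, a5, a6, b1, b2, b3, b4, hF, by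
      exact_mod_cast (hF fun n => T.d n).symm.trans n2, ?_⟩
    have h3 := h.v_cls T v hμ
    have key : ∀ n, α n = 1 ∨ α n = -1 →
        (α n : ℂ) * (T.χ n t ^ 2 / T.d n) = 1 / (α n * T.d n : ℤ) := fun n e => by
      rw [ht n (by omega)]
      rcases e with e | e <;> simp [e, div_neg]
    simp only [hα, hF, key _ b1, key _ b2, key _ b3, key _ b4] at h3
    exact Rat.cast_injective (α := ℂ) (by push_cast at h3 ⊢; exact h3)

/-- The principal characters. -/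
lemma v_prin : ∃ (α : Fin T.n → ℤ) (i j k l : Fin T.n), (∀ x, T.χ i x = 1) ∧
    (∀ n, T.cf U t (fun _ => 1) n = α n) ∧ j ≠ k ∧ j ≠ l ∧ k ≠ l ∧
    (∀ n, n = j ∨ n = k ∨ n = l → n ≠ i ∧ (α n = 1 ∨ α n = -1) ∧ (∀ u ∈ U, T.χ n (t * u) = α n) ∧
      4 ∣ α n * T.d n - 1 ∧ α n * T.d n ≠ 1) ∧
    (∀ F : Fin T.n → ℂ, ∑ n, α n * F n = F i + α j * F j + α k * F k + α l * F l) ∧
    1 + α j * T.d j + α k * T.d k + α l * T.d l = 0 ∧
    (centralizer ({t} : Set G)).index * (1 + 1 / (α j * T.d j : ℤ) +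
      1 / (α k * T.d k : ℤ) + 1 / (α l * T.d l : ℤ) : ℚ) = 8 * (centralizer {s}).relIndex U ^ 2 := by
  have := h.simple
  obtain ⟨i, h0, h0'⟩ := T.exists_triv
  obtain ⟨α, hα, h1, -, h2⟩ := h.v_data T v (Adm.one t S) fun σ _ e _ =>
    (isConj_iff.1 (h.conj σ e)).imp fun c hc => ⟨hc, fun _ _ _ => rfl⟩
  have hi : α i = 1 := by
    have := hα i
    simp only [CT.cf, h0, mul_one, Finset.sum_const, Finset.card_univ, nsmul_eq_mul,
      ← Nat.card_eq_fintype_card] at this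
    rw [div_self (Nat.cast_ne_zero.2 Nat.card_pos.ne')] at this
    exact_mod_cast this.symm
  have hd : T.d i = 1 := by exact_mod_cast (T.χ_one i).symm.trans (h0 1)
  obtain ⟨j, k, l, a1, a2, a3, a4, a5, a6, -, b2, b3, b4, hF, c1, c2⟩ := h2 i (by omega)
  have key : ∀ n, n ≠ i → α n = 1 ∨ α n = -1 → n ≠ i ∧ (α n = 1 ∨ α n = -1) ∧
      (∀ u ∈ U, T.χ n (t * u) = α n) ∧ 4 ∣ α n * T.d n - 1 ∧ α n * T.d n ≠ 1 := fun n e1 e2 => by
    obtain ⟨f1, f2⟩ := h1 n (by omega)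
    refine ⟨e1, e2, by simpa using f1, f2, fun e => ?_⟩
    simpa [T.triv_of n h.t1 e2 (by simpa using f1 1 U.one_mem) e] using h0' n e1
  refine ⟨α, i, j, k, l, h0, hα, a4, a5, a6, ?_, fun F => by simp [hF, hi],
    by simpa [hi, hd] using c1, by simpa [hi, hd] using c2⟩
  rintro n (rfl | rfl | rfl)
  exacts [key _ a1 b2, key _ a2 b3, key _ a3 b4]

lemma v_bound : (centralizer ({t} : Set G)).index < 16 * (centralizer {s}).relIndex U ^ 2 ∧
    (U ⊓ centralizer {s} ≠ ⊥ →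
      5 * (centralizer ({t} : Set G)).index ≤ 56 * (centralizer {s}).relIndex U ^ 2) := by
  have := h.simple
  obtain ⟨T⟩ := exists_ct G
  obtain ⟨α, i, j, k, l, -, -, -, -, -, h1, -, h2, h3⟩ := h.v_prin T v
  obtain ⟨n1, n2⟩ := prin_num (h1 j (by simp)).2.2.2.1 (h1 k (by simp)).2.2.2.1
    (h1 l (by simp)).2.2.2.1 (h1 j (by simp)).2.2.2.2 (h1 k (by simp)).2.2.2.2
    (h1 l (by simp)).2.2.2.2 h2
  have hi : (0 : ℚ) < (centralizer ({t} : Set G)).index := by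
    exact_mod_cast Nat.pos_of_ne_zero index_ne_zero_of_finite
  refine ⟨by
    have := mul_lt_mul_of_pos_left n1 hi
    exact_mod_cast (by linarith : ((centralizer ({t} : Set G)).index : ℚ) <
      16 * (centralizer {s}).relIndex U ^ 2), fun hD => ?_⟩
  obtain ⟨⟨y, hy⟩, y1⟩ := ne_bot_iff_exists_ne_one.1 hD
  obtain ⟨yU, ys⟩ := h.memD.1 hy
  have key : ∀ n, n = j ∨ n = k ∨ n = l → α n * T.d n ≠ -3 := fun n hn e => by
    obtain ⟨-, e1, e2, -⟩ := h1 n hn
    obtain ⟨e1, e3⟩ : α n = -1 ∧ T.d n = 3 := by rcases e1 with e1 | e1 <;> rw [e1] at e <;> omega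
    have val : ∀ σ ∈ S, orderOf σ = 2 → ∀ x ∈ U, x * σ = σ * x → T.χ n (σ * x) = -1 :=
      fun σ _ f x hx xs => by
        obtain ⟨g, hg⟩ := isConj_iff.1 (h.conj σ f)
        rw [← T.χ_conj n g, ← conj_mul, hg, e2 _ ((h.memU _).2 ⟨by rwa [← hg, J.conj_comm_iff],
          by rw [orderOf_conj']; exact h.uo hx⟩), e1]
        simp
    have sm : ∀ x ∈ U, x * s = s * x → ∑ τ : S, T.χ n (τ * x) = T.χ n x - 3 := fun x hx xs => by
      rw [h.v_sum v fun τ => T.χ n (τ * x), val t h.tS h.ord x hx (h.ut hx),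
        val s v.sS (h.v_os v) x hx xs, val _ (mul_mem h.tS v.sS) (h.v_ots v) x hx
          ((show Commute x t from h.ut hx).mul_right xs).eq, one_mul]
      ring
    obtain ⟨m, m1, m2⟩ := T.mult n S.subtype (fun _ => 1) (by simp)
    have m0 : m = 0 := by
      have := sm 1 U.one_mem (by simp)
      simp only [mul_one, T.χ_one, e3] at this
      simp only [one_mul, Subgroup.coe_subtype, this] at m1
      simpa using m1
    have m3 := congrArg (fun A => trace (A * T.ρ n y)) (m2 m0)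
    simp only [one_smul, Finset.sum_mul, trace_sum, ← map_mul, zero_mul, trace_zero] at m3
    have m4 : T.χ n y = T.d n := by
      rw [e3]; push_cast; linear_combination (sm y yU ys).symm.trans m3
    rcases T.eq_one_of_simple n m4 with f | f
    · exact y1 (Subtype.ext f)
    · have := val t h.tS h.ord 1 U.one_mem (by simp)
      rw [f, e3] at this
      norm_num at this
  have := mul_le_mul_of_nonneg_left (n2 (key j (by simp)) (key k (by simp)) (key l (by simp))) hi.le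
  exact_mod_cast (by linarith : 5 * ((centralizer ({t} : Set G)).index : ℚ) ≤
    56 * (centralizer {s}).relIndex U ^ 2)

/-- A nontrivial character is not invariant under local fusion. -/
lemma v_twist {μ : G → ℂ} (hμ : Adm t S μ) {y : G} (hy : y ∈ U ⊓ centralizer {s}) (h1 : μ y ≠ 1)
    (h2 : ∀ σ ∈ S, orderOf σ = 2 → σ ≠ t → ∃ c, c * σ * c⁻¹ = t ∧
      ∀ y ∈ U, y * σ = σ * y → μ (c * y * c⁻¹) = μ y) : False := by
  have := h.simple
  obtain ⟨T⟩ := exists_ct G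
  obtain ⟨α, -, a1, ⟨i, hi⟩, a2⟩ := h.v_data T v hμ h2
  obtain ⟨j, k, l, -, -, -, -, -, -, b1, b2, b3, b4, -, c1, c2⟩ := a2 i hi
  have key : ∀ n, α n = 1 ∨ α n = -1 → 4 ∣ α n * T.d n - 1 ∧ α n * T.d n ≠ 1 := fun n e => by
    obtain ⟨f1, f2⟩ := a1 n (by omega)
    refine ⟨f2, fun f => h1 ?_⟩
    have f3 := T.triv_of n h.t1 e (by simpa [hμ.1.1] using f1 1 U.one_mem) f
    have f4 := f1 y hy.1
    have f5 := f1 1 U.one_mem
    rw [f3] at f4 f5
    rw [hμ.1.1, one_mul] at f5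
    rw [← f5, mul_one] at f4
    exact f4.symm
  have n1 := tw_num (key i b1).1 (key j b2).1 (key k b3).1 (key l b4).1 (key i b1).2 (key j b2).2
    (key k b3).2 (key l b4).2 c1
  have n2 := (h.v_bound v).2 fun e => h1 (by rw [mem_bot.1 (e.le hy), hμ.1.1])
  have hi : (0 : ℚ) < (centralizer ({t} : Set G)).index := by
    exact_mod_cast Nat.pos_of_ne_zero index_ne_zero_of_finite
  have n3 : 5 * ((centralizer ({t} : Set G)).index : ℚ) ≤ 56 * (centralizer {s}).relIndex U ^ 2 := by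
    exact_mod_cast n2
  linarith [mul_lt_mul_of_pos_left n1 hi]

end Dih

end Pool.Agent.Lib.MP_cb9dee_al
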