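import Pool.Agent.Lib.MP_cb9dee_al.CV4
import Pool.Agent.Lib.MP_cb9dee_al.CLMain

set_option linter.unusedSectionVars false

namespace Pool.Agent.Lib.MP_cb9dee_al

open Subgroup Finset Matrix
open scoped Classical

variable {G : Type} [Group G] [Fintype G]

lemma Lin.agree {D R : Subgroup G} {μ ν : G → ℂ} (hμ : Lin D μ) (hν : Lin D ν) {r k : ℕ}
    [hr : Fact r.Prime] (hR : IsPGroup r R) (h2 : ¬ r ∣ R.relIndex D)
    (a : ∀ x ∈ D, μ x ^ r ^ k = 1) (b : ∀ x ∈ D, ν x ^ r ^ k = 1) (e : ∀ x ∈ R, μ x = ν x)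
    {y : G} (hy : y ∈ D) : μ y = ν y := by
  obtain ⟨j, m, hm, e'⟩ := Nat.exists_eq_pow_mul_and_not_dvd (orderOf_pos y).ne' r hr.out.ne_one
  have h3 : IsPGroup r (zpowers (y ^ m)) := IsPGroup.of_card_dvd_pow (n := j) (by
    rw [Nat.card_zpowers]
    exact orderOf_dvd_of_pow_eq_one (by rw [← pow_mul, mul_comm, ← e', pow_orderOf_eq_one]))
  obtain ⟨c, hc, h4⟩ := J.sylow_conj h3 hR (zpowers_le.2 (pow_mem hy m)) h2
  have h5 := e _ (h4 _ (mem_zpowers _))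
  rw [hμ.conj_self hc (pow_mem hy m), hν.conj_self hc (pow_mem hy m), hμ.pow hy, hν.pow hy] at h5
  have h6 : ν y ≠ 0 := right_ne_zero_of_mul_eq_one (hν.inv_mul hy)
  have h7 := pow_gcd_eq_one.2 (⟨by rw [div_pow, h5, div_self (pow_ne_zero _ h6)],
    by rw [div_pow, a y hy, b y hy, div_one]⟩ : (μ y / ν y) ^ m = 1 ∧ (μ y / ν y) ^ r ^ k = 1)
  rw [(hr.out.coprime_iff_not_dvd.2 hm).symm.pow_right k, pow_one] at h7
  exact (div_eq_one_iff_eq h6).1 h7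

lemma exists_retract {C R : Subgroup G} {r : ℕ} [Fact r.Prime] (hR : IsPGroup r R) (h1 : R ≤ C)
    (h2 : ¬ r ∣ R.relIndex C)
    (h3 : ∀ g ∈ C, (∀ x ∈ R, g * x * g⁻¹ ∈ R) → ∀ x ∈ R, x * g = g * x) :
    ∃ τ : G → G, (∀ x, τ x ∈ R) ∧ τ 1 = 1 ∧ (∀ x ∈ C, ∀ y ∈ C, τ (x * y) = τ x * τ y) ∧
      ∀ x ∈ R, τ x = x ^ R.relIndex C := by
  let P : Sylow r C := (hR.comap_subtype (K := C)).toSylow h2
  have hP : normalizer ((P : Subgroup C) : Set C) ≤ centralizer ((P : Subgroup C) : Set C) :=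
    fun g hg x hx => Subtype.ext (h3 g g.2
      (fun y hy => (mem_normalizer_iff.1 hg ⟨y, h1 hy⟩).1 hy) x hx)
  refine ⟨fun x => if hx : x ∈ C then (MonoidHom.transferSylow P hP ⟨x, hx⟩ : C) else 1,
    fun x => ?_, ?_, fun x hx y hy => ?_, fun x hx => ?_⟩ <;> beta_reduce
  · split_ifs with hx
    exacts [(MonoidHom.transferSylow P hP ⟨x, hx⟩).2, R.one_mem]
  · rw [dif_pos C.one_mem]
    exact congrArg (fun z : P => ((z : C) : G)) (map_one _)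
  · rw [dif_pos hx, dif_pos hy, dif_pos (mul_mem hx hy)]
    exact congrArg (fun z : P => ((z : C) : G)) (map_mul _ (⟨x, hx⟩ : C) ⟨y, hy⟩)
  · rw [dif_pos (h1 hx), MonoidHom.transferSylow_eq_pow P hP ⟨x, h1 hx⟩ hx]
    rfl

lemma CT.cf_cj (T : CT G) {D : Subgroup G} {w : G} (hw : ∀ x ∈ D, w * x * w⁻¹ ∈ D) {μ ν : G → ℂ}
    (e : ∀ x ∈ D, μ (w * x * w⁻¹) = ν x) (σ : G) (l) :
    T.cf D (w * σ * w⁻¹) μ l = T.cf D σ ν l := by
  obtain ⟨a, ha⟩ := exists_isCj hw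
  rw [CT.cf, CT.cf, ← a.toEquiv.sum_comp]
  congr 1
  refine Finset.sum_congr rfl fun u _ => ?_
  change μ ((a u : G))⁻¹ * T.χ l (_ * (a u : G)) = _
  rw [ha, conj_mul, T.χ_conj, conj_inv, e _ (inv_mem u.2)]

lemma orth3 {D : Subgroup G} {μ ν ρ F : G → ℂ} (hμ : Lin D μ) (hν : Lin D ν) (hρ : Lin D ρ)
    (h1 : ∃ x ∈ D, ν x ≠ μ x) (h2 : ∃ x ∈ D, ρ x ≠ μ x) {a b c : ℂ}
    (hF : ∀ x ∈ D, F x = μ x * a + ν x * b + ρ x * c) :
    (∑ y : D, μ (y : G)⁻¹ * F y) / Nat.card D = a := by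
  obtain ⟨x, hx, h1⟩ := h1
  obtain ⟨z, hz, h2⟩ := h2
  rw [div_eq_iff (Nat.cast_ne_zero.2 Nat.card_pos.ne'), Finset.sum_congr rfl (g := fun y : D =>
    μ y * μ (y : G)⁻¹ * a + ν y * μ (y : G)⁻¹ * b + ρ y * μ (y : G)⁻¹ * c) fun y _ => by
      rw [hF y y.2]; ring]
  simp only [Finset.sum_add_distrib, ← Finset.sum_mul, hμ.orth_self, hν.orth_ne hμ hx h1,
    hρ.orth_ne hμ hz h2]
  ring

namespace Dih

variable {t s : G} {S U : Subgroup G} (h : Dih t S U)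
include h

lemma adm_of {μ : G → ℂ} (hμ : Lin (centralizer ({t} : Set G)) μ) {r k : ℕ} (hr : r.Prime)
    (h2 : r ≠ 2) (e : ∀ x ∈ centralizer ({t} : Set G), μ x ^ r ^ k = 1) : Adm t S μ := by
  obtain ⟨a, ha⟩ := h.pow
  exact ⟨hμ, fun σ hσ => hμ.eq_one_of_coprime (h.le_cent hσ) (e σ (h.le_cent hσ))
    ((Nat.coprime_pow_primes a k Nat.prime_two hr h2.symm).coprime_dvd_left
      (ha ▸ Subgroup.orderOf_dvd_natCard _ hσ))⟩

lemma comm_of_nm {r : ℕ} (hr : r.Prime) (hc : ¬ r ∣ Nat.card (⁅U, U⁆ : Subgroup G))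
    {R : Subgroup G} (hR : IsPGroup r R) {x g : G} (hx : x ∈ R) (xU : x ∈ U)
    (xS : ∀ σ ∈ S, σ * x = x * σ) (hg : g * t = t * g) (e : g * x * g⁻¹ ∈ R) :
    x * g = g * x := by
  have := Fact.mk hr
  obtain ⟨u, hu, σ, hσ, rfl⟩ := h.dec g hg
  have h1 : u * σ * x * (u * σ)⁻¹ = u * x * u⁻¹ := by
    rw [mul_assoc u, xS σ hσ]; group
  obtain ⟨k, hk⟩ := hR.exists_card_eq
  have h3 := eq_one_of_coprime (hk ▸ (hr.coprime_iff_not_dvd.2 hc).pow_left k)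
    (mul_mem e (inv_mem hx)) (h1 ▸ commutator_mem_commutator hu xU)
  rw [mul_inv_eq_one, mul_inv_eq_iff_eq_mul] at h3
  exact h3.symm

lemma exists_adm {r : ℕ} (hr : r.Prime) (h2 : r ≠ 2) (hc : ¬ r ∣ Nat.card (⁅U, U⁆ : Subgroup G))
    {d : G} (hd : orderOf d = r) (dU : d ∈ U) (dS : ∀ σ ∈ S, σ * d = d * σ) :
    ∃ μ k, Adm t S μ ∧ μ d ≠ 1 ∧ ∀ x ∈ centralizer ({t} : Set G), μ x ^ r ^ k = 1 := by
  have := Fact.mk hr
  set C := centralizer ({t} : Set G)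
  have dC : d ∈ C := h.U_le dU
  obtain ⟨P, hP⟩ := (J.isP_zp (w := (⟨d, dC⟩ : C)) (q := r)
    (Subtype.ext (by simp [← hd]))).exists_le_sylow
  have hP' := P.isPGroup'.map C.subtype
  obtain ⟨l, h1, h3, -⟩ := exists_lin C ((_root_.commutator C).map C.subtype) (fun x hx y hy =>
    ⟨_, commutator_mem_commutator (mem_top (⟨x, hx⟩ : C)) (mem_top ⟨y, hy⟩), rfl⟩) dC (by
      rintro ⟨x, hx, e⟩
      obtain rfl : x = ⟨d, dC⟩ := Subtype.ext e
      refine ne_one_of_orderOf hr hd (congrArg Subtype.val (trf P (fun x hx y hy => Subtype.ext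
        (h.p_comm hr h2 hP' x ⟨x, hx, rfl⟩ y ⟨y, hy, rfl⟩)) (hP (mem_zpowers _))
        (fun g hg => Subtype.ext ?_) hx))
      exact (h.comm_of_nm hr hc hP' ⟨_, hP (mem_zpowers _), rfl⟩ dU dS
        (mem_centralizer_singleton_iff.1 g.2)
        ⟨_, (mem_normalizer_iff.1 hg _).1 (hP (mem_zpowers _)), rfl⟩).symm)
  obtain ⟨k, m, hm, e⟩ := Nat.exists_eq_pow_mul_and_not_dvd (Nat.card_pos (α := C)).ne' r hr.ne_one
  have h4 : ∀ x ∈ C, (l x ^ m) ^ r ^ k = 1 := fun x hx => by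
    rw [← pow_mul, mul_comm, ← e, ← h1.pow hx, pow_card_of_mem hx, h1.1]
  exact ⟨_, k, h.adm_of (h1.pow' m) hr h2 h4, fun f => h3 (h1.eq_one_of_coprime dC f
    (hd ▸ hr.coprime_iff_not_dvd.2 hm)), h4⟩

/-- The normalizer of `R ⊓ D` is of type `II`. -/
lemma loc (hs : s ∈ S) (os : orderOf s = 2) (st : s ≠ t) {r : ℕ} (hr : r.Prime) (h5 : 5 ≤ r)
    {R : Subgroup G} (hRU : R ≤ U) (hR : IsPGroup r R)
    (hn : ∀ c, c * t = t * c → ∀ x ∈ R, c * x * c⁻¹ ∈ R) (hm : ∀ x ∈ U, ∀ k, x ^ r ^ k = 1 → x ∈ R)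
    {D : Subgroup G} (hD : D = U ⊓ centralizer {s}) (h0 : r ∣ Nat.card D)
    (hSD : ∀ σ ∈ S, ∀ x ∈ D, σ * x * σ⁻¹ ∈ D) {w : G} (hw : Cyc t s w)
    (hb : (centralizer ({t} : Set G)).index * Nat.card D ^ 2 <
      Nat.card (centralizer ({t} : Set G)) ^ 2)
    (hSL : ∀ L : Subgroup G, (∀ g, (∀ x ∈ D, g * x * g⁻¹ ∈ D) → ∀ x ∈ L, g * x * g⁻¹ ∈ L) →
      t ∈ L → s ∈ L → S ≤ L) :
    (∀ g, (∀ x ∈ D, g * x * g⁻¹ ∈ D) →
      g * t * g⁻¹ = t ∨ g * t * g⁻¹ = s ∨ g * t * g⁻¹ = t * s) ∧ U ≤ centralizer {s} := by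
  have := h.simple
  have := Fact.mk hr
  have hDU : D ≤ U := hD ▸ inf_le_left
  have h1 : R ⊓ D ≠ ⊥ := fun e => by
    obtain ⟨x, hx, hx'⟩ := J.exists_order hr h0
    exact ne_one_of_orderOf hr hx' (mem_bot.1 (e.le ⟨hm x (hDU hx) 1 (by simp [← hx']), hx⟩))
  have h2 : ∀ g, (∀ x ∈ D, g * x * g⁻¹ ∈ D) → g ∈ normalizer ((R ⊓ D : Subgroup G) : Set G) :=
    fun g hg => mem_normalizer_fintype fun x hx => by
      obtain ⟨k, hk⟩ := hR ⟨x, hx.1⟩
      exact ⟨hm _ (hDU (hg x hx.2)) k (by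
        rw [conj_pow, show x ^ r ^ k = 1 from congrArg Subtype.val hk]; group), hg x hx.2⟩
  have hS : S ≤ normalizer ((R ⊓ D : Subgroup G) : Set G) := fun σ hσ => h2 σ (hSD σ hσ)
  rcases h.types' (centralizer_ne_top h.h4 h1 fun e => h.oddU
    ((show 2 ∣ 4 by norm_num).trans (e.trans (card_dvd_of_le (inf_le_right.trans hDU))))) hS hs st
    (h2 w (hD ▸ fun x hx => h.cycD' hw hx)) hw.1 with ⟨a, b⟩ | ⟨L, p, k, m, hL, a, b⟩
  · have hRD : R ≤ D := fun x hx => hD ▸ h.memD.2 ⟨hRU hx, b x (mem_normalizer_fintype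
      fun y hy => by rwa [h.p_comm hr (by omega) hR x hx y hy.1, mul_inv_cancel_right]) (hRU hx)⟩
    refine ⟨fun g hg => a g (h2 g hg), fun u hu => mem_centralizer_singleton_iff.2 (b u ?_ hu)⟩
    rw [inf_eq_left.2 hRD]
    exact mem_normalizer_fintype (hn u (h.ut hu))
  · have h3 := hSL L (fun g hg => hL.nm g (h2 g hg)) a b
    exact (loc_V h.full h.h4 h.ord os (h.cS s hs) st h.memU (fun x => hD ▸ h.memD) hr h5 hRU
      (h.card_dvd_sq hr (by omega) hR) hn h1 hL.pack a b hL.le hL.nm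
      (fun z _ hz => h.no_cent hL.pack hz) (fun g hg => hL.dec g hg (Or.inr fun e =>
        h.rel hS (e.trans (relIndex_dvd_of_le_left _ h3)))) hb).elim

lemma cardC' (s : G) : Nat.card (centralizer ({t} : Set G)) =
    Nat.card S * (centralizer {s}).relIndex U * Nat.card (U ⊓ centralizer {s} : Subgroup G) := by
  rw [h.cardC, ← J.card_mul_rel (inf_le_left (a := U) (b := centralizer {s})), inf_relIndex_left]
  ring

variable (v : V4 t s S) {w : G} (hw : Cyc t s w)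
include v hw

lemma v_cyc : w * (t * s) * w⁻¹ = t := by
  rw [← conj_mul, hw.1, hw.2, ← h.cS s v.sS, ← mul_assoc, v.exp s v.sS, one_mul]

lemma v_comm {y : G} (hy : y ∈ U ⊓ centralizer {s}) {σ : G} (hσ : σ ∈ S) : σ * y = y * σ := by
  obtain ⟨a, b⟩ := h.memD.1 hy
  rcases h.v_mem v hσ with rfl | rfl | rfl | rfl
  exacts [by simp, (h.ut a).symm, b.symm, ((show Commute y t from h.ut a).mul_right b).eq.symm]

lemma v_fus {ν : G → ℂ} (e : ∀ y ∈ U ⊓ centralizer {s}, ν (w * y * w⁻¹) = ν y) :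
    ∀ σ ∈ S, orderOf σ = 2 → σ ≠ t → ∃ c, c * σ * c⁻¹ = t ∧
      ∀ y ∈ U, y * σ = σ * y → ν (c * y * c⁻¹) = ν y := fun σ hσ h2 h3 => by
  rcases h.v_mem v hσ with rfl | rfl | rfl | rfl
  · simp at h2
  · exact absurd rfl h3
  · refine ⟨w⁻¹, by rw [← hw.1]; group, fun y hy f => ?_⟩
    rw [inv_inv, ← e _ (h.cycD hw (h.memD.2 ⟨hy, f⟩))]
    congr 1; group
  · refine ⟨w, h.v_cyc v hw, fun y hy f => e y (h.memD.2 ⟨hy, ?_⟩)⟩
    rwa [← mul_assoc, h.ut hy, mul_assoc, mul_assoc, mul_right_inj] at f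

lemma v_one (hD : U ⊓ centralizer {s} ≠ ⊥) : ¬ U ≤ centralizer {s} := fun e => by
  have := h.simple
  have h1 := (h.v_bound v).2 hD
  have h2 : centralizer ({t} : Set G) ≤ normalizer (S : Set G) := fun c hc => by
    obtain ⟨u, hu, σ, hσ, rfl⟩ := h.dec c (mem_centralizer_singleton_iff.1 hc)
    refine mul_mem (mem_normalizer_fintype fun x hx => ?_) (le_normalizer hσ)
    rwa [← h.v_comm v hw ⟨hu, e hu⟩ hx, mul_inv_cancel_right]
  have h3 : w ∈ normalizer (S : Set G) := mem_normalizer_fintype fun x hx => by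
    rcases h.v_mem v hx with rfl | rfl | rfl | rfl
    exacts [by simp, hw.1 ▸ v.sS, hw.2 ▸ mul_mem h.tS v.sS,
      (h.v_cyc v hw).symm ▸ h.tS]
  have h4 := four_le_index h.h4 (H := normalizer (S : Set G)) fun f => by
    rcases (normalizer_eq_top_iff.1 f).eq_bot_or_eq_top with f | f
    · exact h.t1 (mem_bot.1 (f.le h.tS))
    · exact cent_ne_top h.h4 h.t1 (eq_top_iff.2 (f ▸ h.le_cent))
  have h5 := relIndex_mul_index h2
  have h6 : (centralizer ({t} : Set G)).relIndex (normalizer (S : Set G)) ≠ 1 := fun f =>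
    v.st (by rw [← hw.1, mem_centralizer_singleton_iff.1 (relIndex_eq_one.1 f h3),
      mul_inv_cancel_right])
  have h7 : ¬ 2 ∣ (centralizer ({t} : Set G)).relIndex (normalizer (S : Set G)) := fun f =>
    h.odd ((f.mul_right _).trans (h5 ▸ index_dvd_of_le h.le_cent))
  rw [relIndex_eq_one.2 e, ← h5] at h1
  have h8 : 3 ≤ (centralizer ({t} : Set G)).relIndex (normalizer (S : Set G)) := by omega
  nlinarith

lemma v_triple {μ ν ρ : G → ℂ} (hμ : Adm t S μ) (hν : Adm t S ν) (hρ : Adm t S ρ)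
    (e1 : ∀ y ∈ U ⊓ centralizer {s}, μ (w * y * w⁻¹) = ν y)
    (e2 : ∀ y ∈ U ⊓ centralizer {s}, ν (w * y * w⁻¹) = ρ y)
    (e3 : ∀ y ∈ U ⊓ centralizer {s}, ρ (w * y * w⁻¹) = μ y)
    {y : G} (hy : y ∈ U ⊓ centralizer {s}) (hne : μ y ≠ ν y) : False := by
  obtain ⟨T⟩ := exists_ct G
  obtain ⟨D, hD⟩ : ∃ D, D = U ⊓ centralizer {s} := ⟨_, rfl⟩
  have wD : ∀ x ∈ D, w * x * w⁻¹ ∈ D := hD ▸ fun x hx => h.cycD' hw hx
  have y1 : w⁻¹ * y * w ∈ D := hD ▸ h.cycD hw hy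
  rw [← hD] at e1 e2 e3 hy
  have DU : D ≤ U := hD ▸ inf_le_left
  have n1 : ν (w⁻¹ * y * w) ≠ ρ (w⁻¹ * y * w) := by
    rw [← e1 _ y1, ← e2 _ y1]; simpa [mul_assoc] using hne
  have n2 : ρ (w * y * w⁻¹) ≠ μ (w * y * w⁻¹) := by rwa [e3 y hy, e1 y hy]
  have lμ := hμ.1.mono (DU.trans h.U_le)
  have lν := hν.1.mono (DU.trans h.U_le)
  have lρ := hρ.1.mono (DU.trans h.U_le)
  have o1 := fun {F a b c} => orth3 (F := F) (a := a) (b := b) (c := c) lμ lν lρ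
    ⟨y, hy, hne.symm⟩ ⟨_, wD y hy, n2⟩
  have o2 := fun {F a b c} => orth3 (F := F) (a := a) (b := b) (c := c) lν lρ lμ
    ⟨_, y1, n1.symm⟩ ⟨y, hy, hne⟩
  have o3 := fun {F a b c} => orth3 (F := F) (a := a) (b := b) (c := c) lρ lμ lν
    ⟨_, wD y hy, n2.symm⟩ ⟨_, y1, n1⟩
  obtain ⟨α, hα⟩ := h.cf_int T hμ
  obtain ⟨β, hβ⟩ := h.cf_int T hν
  obtain ⟨γ, hγ⟩ := h.cf_int T hρ
  have key : ∀ l, 2 ∣ α l - β l ∧ 2 ∣ α l - γ l ∧
      (α l ≠ 0 → T.χ l t = (α l + β l + γ l : ℤ)) := fun l => by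
    rcases h.mb T (μ := ![μ, ν, ρ]) (fun j => by fin_cases j <;> assumption) (fun i j e => by
        fin_cases i <;> fin_cases j
        exacts [absurd rfl e, ⟨y, DU hy, hne⟩, ⟨_, DU (wD y hy), n2.symm⟩, ⟨y, DU hy, hne.symm⟩,
          absurd rfl e, ⟨_, DU y1, n1⟩, ⟨_, DU (wD y hy), n2⟩, ⟨_, DU y1, n1.symm⟩, absurd rfl e])
      (h.v_fus v hw (ν := fun y => ∑ j, ![μ, ν, ρ] j y) fun x hx => by
        rw [← hD] at hx
        simp only [Fin.sum_univ_three, cons_val_zero, cons_val_one, Matrix.cons_val, e1 x hx, e2 x hx,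
          e3 x hx]
        ring) l with e | e
    · replace e := e t h.tS (Or.inl rfl)
      simp only [Fin.sum_univ_three, cons_val_zero, cons_val_one, Matrix.cons_val, hα, hβ, hγ] at e
      have c1 : T.cf D t μ l = α l := o1 (F := fun x => T.χ l (t * x)) fun x hx => e x (DU hx)
      have c2 : T.cf D t ν l = β l := o2 (F := fun x => T.χ l (t * x)) (b := γ l) (c := α l)
        fun x hx => by rw [e x (DU hx)]; ring
      have c3 : T.cf D t ρ l = γ l := o3 (F := fun x => T.χ l (t * x)) (b := α l) (c := β l)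
        fun x hx => by rw [e x (DU hx)]; ring
      rw [← T.cf_cj wD e2, hw.1, ← T.cf_cj wD e1, hw.2] at c3
      rw [← T.cf_cj wD e1, hw.1] at c2
      have cm := fun σ (hσ : σ ∈ S) => T.inv_mult l lμ (v.exp σ hσ)
        fun x hx => h.v_comm v hw (hD ▸ hx) hσ
      obtain ⟨z1, m1, p1, q1, r1⟩ := cm t h.tS
      obtain ⟨z2, m2, p2, q2, r2⟩ := cm s v.sS
      obtain ⟨z3, m3, p3, q3, r3⟩ := cm _ (mul_mem h.tS v.sS)
      obtain rfl : z1 = α l := by exact_mod_cast p1.symm.trans c1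
      obtain rfl : z2 = β l := by exact_mod_cast p2.symm.trans c2
      obtain rfl : z3 = γ l := by exact_mod_cast p3.symm.trans c3
      obtain rfl : m1 = m2 := by exact_mod_cast q1.symm.trans q2
      obtain rfl : m1 = m3 := by exact_mod_cast q1.symm.trans q3
      exact ⟨by omega, by omega, fun _ => by simpa [hμ.1.1, hν.1.1, hρ.1.1] using e 1 U.one_mem⟩
    · replace e := e t h.tS (Or.inl rfl)
      simp only [Fin.sum_univ_three, cons_val_zero, cons_val_one, Matrix.cons_val, hα, hβ, hγ] at e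
      have c1 : α l = 0 := by
        simpa [eq_comm] using o1 (F := fun _ => 0) fun x hx => (e x (DU hx)).symm
      have c2 : β l = 0 := by
        simpa [eq_comm] using o2 (F := fun _ => 0) (a := β l) (b := γ l) (c := α l)
          fun x hx => by rw [← e x (DU hx)]; ring
      have c3 : γ l = 0 := by
        simpa [eq_comm] using o3 (F := fun _ => 0) (a := γ l) (b := α l) (c := β l)
          fun x hx => by rw [← e x (DU hx)]; ring
      simp [c1, c2, c3]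
  have pm : ∀ {κ : G → ℂ} {δ : Fin T.n → ℤ}, Adm t S κ → (∀ l, T.cf U t κ l = δ l) →
      ∀ l, δ l = 0 ∨ δ l = 1 ∨ δ l = -1 := fun hκ hδ l => or_iff_not_imp_left.2 fun e => by
    obtain ⟨-, -, -, -, -, -, -, -, -, f, -⟩ :=
      norm_four (h.v_norm T v hκ hδ).1 T.d_ne (h.v_norm T v hκ hδ).2 e
    exact f
  have or0 : ∀ {κ κ' : G → ℂ} {δ δ' : Fin T.n → ℤ} {x : G}, Adm t S κ → Adm t S κ' →
      (∀ l, T.cf U t κ l = δ l) → (∀ l, T.cf U t κ' l = δ' l) → x ∈ D → κ x ≠ κ' x →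
      ∑ l, (δ l : ℂ) * δ' l = 0 := fun {κ _ _ _ _} hκ hκ' hδ hδ' hx e => by
    have := h.norm_t T (μ := κ) hκ'
    rw [h.orth_ne hκ hκ' (DU hx) e, mul_zero] at this
    simpa [hδ, hδ'] using this
  obtain ⟨a1, a2⟩ := h.v_norm T v hμ hα
  obtain ⟨i, -, hi, -⟩ := peel a1 four_ne_zero
  obtain ⟨j, k, l, -, -, -, -, -, -, b1, b2, b3, b4, hF⟩ := norm_four a1 T.d_ne a2 hi
  have sq : ∀ n, α n * (α n * β n) = β n ∧ α n * (α n * γ n) = γ n := fun n => by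
    obtain ⟨f1, f2, -⟩ := key n
    have := pm hν hβ n
    have := pm hρ hγ n
    rcases pm hμ hα n with e | e | e <;> rw [e] at f1 f2 ⊢ <;> omega
  have pq : ∀ n, α n = 1 ∨ α n = -1 → (α n * β n = 1 ∨ α n * β n = -1) ∧
      (α n * γ n = 1 ∨ α n * γ n = -1) := fun n e => by
    obtain ⟨f1, f2, -⟩ := key n
    have := pm hν hβ n
    have := pm hρ hγ n
    rcases e with e | e <;> rw [e] at f1 f2 ⊢ <;> omega
  have sq' : ∀ n, (α n : ℂ) * (α n * β n) = β n ∧ (α n : ℂ) * (α n * γ n) = γ n := fun n => by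
    exact_mod_cast sq n
  have s1 := (hF fun n => β n).symm.trans (or0 hμ hν hα hβ hy hne)
  have s2 := (hF fun n => γ n).symm.trans (or0 hμ hρ hα hγ (wD y hy) n2.symm)
  have s3 := (hF fun n => β n * (α n * γ n)).symm.trans ((Finset.sum_congr rfl fun n _ => by
    rw [mul_left_comm, (sq' n).2]).trans (or0 hν hρ hβ hγ y1 n1))
  have s4 := (hF fun n => T.d n).symm.trans a2
  have s5 := (hF fun n => β n * (α n * T.d n)).symm.trans ((Finset.sum_congr rfl fun n _ => by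
    linear_combination T.d n * (sq' n).1).trans (h.v_norm T v hν hβ).2)
  have s6 := (hF fun n => γ n * (α n * T.d n)).symm.trans ((Finset.sum_congr rfl fun n _ => by
    linear_combination T.d n * (sq' n).2).trans (h.v_norm T v hρ hγ).2)
  simp only [← mul_assoc _ _ ((α _ : ℂ) * _)] at s3 s5 s6
  obtain ⟨L, hL, hL'⟩ := triple_num (pq i b1).1 (pq j b2).1 (pq k b3).1 (pq l b4).1 (pq i b1).2
    (pq j b2).2 (pq k b3).2 (pq l b4).2 (e1 := α i * T.d i) (e2 := α j * T.d j) (e3 := α k * T.d k)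
    (e4 := α l * T.d l) (by exact_mod_cast s1) (by exact_mod_cast s2) (by exact_mod_cast s3)
    (by exact_mod_cast s4) (by exact_mod_cast s5) (by exact_mod_cast s6)
    (mul_ne_zero hi (Nat.cast_ne_zero.2 (T.hd i)))
  have h3 := h.v_cls T v hμ
  have k2 : ∀ n, α n = 1 ∨ α n = -1 → (α n : ℂ) * (T.χ n t ^ 2 / T.d n) =
      (1 + (α n * β n : ℤ) + (α n * γ n : ℤ)) ^ 2 / (α n * T.d n : ℤ) := fun n e => by
    rw [(key n).2.2 (by omega)]
    rcases e with e | e <;> simp [e, div_neg]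
    ring
  simp only [hα, hF, k2 _ b1, k2 _ b2, k2 _ b3, k2 _ b4, hL'] at h3
  have h4 : ((centralizer ({t} : Set G)).index : ℤ) = (centralizer {s}).relIndex U ^ 2 * L := by
    have : (L : ℂ) ≠ 0 := Int.cast_ne_zero.2 hL
    field_simp at h3
    exact_mod_cast h3.trans (mul_comm _ _)
  refine h.v_one v hw (fun e => hne (by rw [mem_bot.1 ((hD.trans e).le hy), hμ.1.1, hν.1.1]))
    (relIndex_eq_one.1 (by_contra fun e => ?_))
  obtain ⟨q, hq, h5⟩ := Nat.exists_prime_and_dvd e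
  have h6 := h5.trans (relIndex_dvd_card _ U)
  refine h.full.1 q hq (fun f => h.oddU (f ▸ h6)) ?_
  rw [← (centralizer ({t} : Set G)).index_mul_card, h.cardC, pow_succ]
  exact mul_dvd_mul (by exact_mod_cast (h4 ▸ (pow_dvd_pow_of_dvd (Int.natCast_dvd_natCast.2 h5) 2
    ).mul_right L : (q : ℤ) ^ 2 ∣ _)) (h6.mul_right _)

theorem v_bot : U ⊓ centralizer {s} = ⊥ := by
  by_contra hD
  obtain ⟨r, hr, h0⟩ := Nat.exists_prime_and_dvd fun e => hD (card_eq_one.1 e)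
  have h2 : r ≠ 2 := fun e => h.oddU (e ▸ h0.trans (card_dvd_of_le inf_le_left))
  have := Fact.mk hr
  have DC : U ⊓ centralizer {s} ≤ centralizer {t} := inf_le_left.trans h.U_le
  rcases h.dich hr h2 with ⟨h5, R, a1, a2, a3, a4⟩ | hc
  · refine h.v_one v hw hD (h.loc v.sS (h.v_os v) v.st hr h5 a1 a2 a3 a4 rfl h0 (fun σ hσ x hx => by
      rwa [h.v_comm v hw hx hσ, mul_inv_cancel_right]) hw ?_ fun L _ a b x hx => ?_).2
    · rw [h.cardC' s, v.card, mul_pow]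
      exact Nat.mul_lt_mul_of_pos_right ((h.v_bound v).1.trans_eq (by ring))
        (pow_pos Nat.card_pos 2)
    · rcases h.v_mem v hx with rfl | rfl | rfl | rfl
      exacts [L.one_mem, a, b, mul_mem a b]
  obtain ⟨d, hd, hdr⟩ := J.exists_order hr h0
  obtain ⟨R, b1, b2, b3, b4⟩ := J.sylow_in (J.isP_zp (w := d) (q := r) (by simp [← hdr]))
    (zpowers_le.2 hd)
  obtain ⟨w, hw', b5⟩ := h.frat hw b3 b2 b4
  by_cases hwc : ∀ x ∈ R, w * x * w⁻¹ = x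
  · obtain ⟨μ, k, c1, c2, c3⟩ := h.exists_adm hr h2 hc hdr hd.1 fun σ hσ => h.v_comm v hw' hd hσ
    exact h.v_twist v c1 hd c2 (h.v_fus v hw' fun y hy =>
      (c1.1.conj fun x hx => DC (h.cycD' hw' hx)).agree (c1.1.mono DC) b3 b4
        (fun x hx => c3 _ (DC (h.cycD' hw' hx))) (fun x hx => c3 x (DC hx))
        (fun x hx => by rw [hwc x hx]) hy)
  have c1 : ∀ g ∈ centralizer ({t} : Set G), (∀ x ∈ R, g * x * g⁻¹ ∈ R) → ∀ x ∈ R, x * g = g * x :=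
    fun g hg e x hx => h.comm_of_nm hr hc b3 hx (b2 hx).1 (fun σ hσ => h.v_comm v hw' (b2 hx) hσ)
      (mem_centralizer_singleton_iff.1 hg) (e x hx)
  have c2 : ∀ x ∈ R, w ^ 3 * x * (w ^ 3)⁻¹ = x := fun x hx => by
    rw [← c1 _ (J.conj_eq_iff.1 ?_) (J.nm_pow b5 3) x hx, mul_inv_cancel_right]
    calc w ^ 3 * t * (w ^ 3)⁻¹ = w * (w * (w * t * w⁻¹) * w⁻¹) * w⁻¹ := by
          simp [pow_succ, mul_assoc]
      _ = t := by rw [hw'.1, hw'.2, h.v_cyc v hw']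
  have c3 : ¬ r ∣ R.index := fun e => by
    obtain ⟨a, ha⟩ := exists_isCj b5
    have a3 : orderOf a = 3 := haveI := Fact.mk Nat.prime_three
      orderOf_eq_prime ((ha.pow 3).eq_one_iff.2 fun x hx => mul_inv_eq_iff_eq_mul.1 (c2 x hx))
        fun f => hwc fun x hx => mul_inv_eq_iff_eq_mul.2 (ha.eq_one_iff.1 f x hx)
    obtain ⟨i, hi, f⟩ := (Nat.dvd_prime_pow hr).1 (h.card_dvd_sq hr h2 b3)
    have g1 : r ^ (i + 1) ∣ Nat.card G := by
      rw [← R.card_mul_index, f, pow_succ]; exact Nat.mul_dvd_mul_left _ e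
    interval_cases i
    · exact ne_one_of_orderOf hr hdr (mem_bot.1 ((card_eq_one.1 f).le (b1 (mem_zpowers d))))
    · have := Good.orderOf_dvd hr (a := a) (Or.inl (by simpa using f))
      rw [a3, f, pow_one] at this
      exact h.full.2.1 r 3 hr Nat.prime_three (by norm_num)
        ((a3 ▸ ha.orderOf_dvd).trans (orderOf_dvd_natCard w)) g1 h2 this
    · exact h.full.1 r hr h2 g1
  have c4 : ¬ r ∣ R.relIndex (centralizer {t}) := fun e =>
    c3 (e.trans (relIndex_dvd_index_of_le (b2.trans DC)))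
  obtain ⟨τ, t1, t2, t3, t4⟩ := exists_retract b3 (b2.trans DC) c4 c1
  push Not at hwc
  obtain ⟨y, hy, hwy⟩ := hwc
  obtain ⟨ψ, p1, p2, -⟩ := exists_lin R ⊥ (fun x hx z hz => by
    rw [h.p_comm hr h2 b3 x hx z hz]; simp) (mul_mem (b5 y hy) (inv_mem hy))
    fun e => hwy (mul_inv_eq_one.1 (mem_bot.1 e))
  obtain ⟨k, hk⟩ := b3.exists_card_eq
  have p3 : ∀ x ∈ R, ψ x ^ r ^ k = 1 := fun x hx => by
    rw [← p1.pow hx, ← hk, pow_card_of_mem hx, p1.1]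
  obtain ⟨μ, hμ⟩ : ∃ μ : ℕ → G → ℂ, ∀ j x, μ j x = ψ (w ^ j * τ x * (w ^ j)⁻¹) := ⟨_, fun _ _ => rfl⟩
  have m1 : ∀ j x, μ j x ^ r ^ k = 1 := fun j x => hμ j x ▸ p3 _ (J.nm_pow b5 j _ (t1 x))
  have m2 : ∀ j, Adm t S (μ j) := fun j => h.adm_of ⟨by simp [hμ, t2, p1.1], fun x hx z hz => by
    rw [hμ, hμ, hμ, t3 x hx z hz, ← conj_mul,
      p1.2 _ (J.nm_pow b5 j _ (t1 x)) _ (J.nm_pow b5 j _ (t1 z))]⟩ hr h2 fun x _ => m1 j x
  have m3 : ∀ i j, (∀ x ∈ R, w ^ (i + 1) * x * (w ^ (i + 1))⁻¹ = w ^ j * x * (w ^ j)⁻¹) →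
      ∀ y ∈ U ⊓ centralizer {s}, μ i (w * y * w⁻¹) = μ j y := fun i j e y hy =>
    ((m2 i).1.conj fun x hx => DC (h.cycD' hw' hx)).agree ((m2 j).1.mono DC) b3 b4
      (fun x _ => m1 _ _) (fun x _ => m1 _ _) (fun x hx => by
        rw [hμ, hμ, t4 x hx, t4 _ (b5 x hx), ← e _ (pow_mem hx _), conj_pow]
        congr 1; group) hy
  refine h.v_triple v hw' (m2 0) (m2 1) (m2 2) (m3 0 1 fun _ _ => rfl) (m3 1 2 fun _ _ => rfl)
    (m3 2 0 fun x hx => by simpa using c2 x hx) (b2 hy) fun e => p2 ?_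
  rw [hμ, hμ, t4 y hy, pow_zero, pow_one, ← conj_pow, ← conj_pow, p1.pow (b5 y hy)] at e
  have h7 := mul_mem (b5 y hy) (inv_mem hy)
  refine p1.eq_one_of_coprime h7 (k := R.relIndex (centralizer {t})) ?_
    (((hr.coprime_iff_not_dvd.2 c4).pow_left k).coprime_dvd_left
      (hk ▸ Subgroup.orderOf_dvd_natCard _ h7))
  rw [p1.2 _ (b5 y hy) _ (inv_mem hy), mul_pow, ← e, one_mul, inv_one, mul_one, p1.pow hy,
    ← mul_pow, mul_comm, p1.inv_mul hy, one_pow]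

end Dih

end Pool.Agent.Lib.MP_cb9dee_al
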