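import Pool.Agent.Lib.MP_cb9dee_al.Basic

namespace Pool.Agent.Lib.MP_cb9dee_al

open Subgroup Finset Matrix
open scoped Classical

/-- The number of elements conjugating `x` to `y`. -/
noncomputable def cnt {G : Type} [Group G] [Fintype G] (x y : G) : ℕ :=
  (univ.filter fun g : G => g * x * g⁻¹ = y).card

/-- A complete family of irreducible complex matrix representations. -/
structure CT (G : Type) [Group G] [Fintype G] where
  n : ℕ
  d : Fin n → ℕ
  hd : ∀ i, d i ≠ 0
  ρ : ∀ i, G →* Matrix (Fin (d i)) (Fin (d i)) ℂ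
  surj : ∀ M : (∀ i, Matrix (Fin (d i)) (Fin (d i)) ℂ), ∃ w : G → ℂ, ∀ i,
    ∑ x, w x • ρ i x = M i
  col : ∀ x y, ∑ i, trace (ρ i x) * trace (ρ i y⁻¹) = cnt x y

lemma trace_mulLeftRight_pi {n : ℕ} (d : Fin n → ℕ)
    (A B : ∀ i, Matrix (Fin (d i)) (Fin (d i)) ℂ) :
    LinearMap.trace ℂ _ (LinearMap.mulLeftRight ℂ (A, B)) = ∑ i, trace (A i) * trace (B i) := by
  rw [LinearMap.trace_eq_matrix_trace ℂ
    (Pi.basis fun i => Matrix.stdBasis ℂ (Fin (d i)) (Fin (d i))), Matrix.trace,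
    Fintype.sum_sigma]
  refine Finset.sum_congr rfl fun i _ => ?_
  rw [Fintype.sum_prod_type, Matrix.trace, Matrix.trace, Finset.sum_mul_sum]
  refine Finset.sum_congr rfl fun a _ => Finset.sum_congr rfl fun b _ => ?_
  have h : ∀ M : Matrix (Fin (d i)) (Fin (d i)) ℂ,
      (Matrix.stdBasis ℂ (Fin (d i)) (Fin (d i))).repr M (a, b) = M a b := fun M => rfl
  simp only [diag_apply, LinearMap.toMatrix_apply, Pi.basis_apply, Pi.basis_repr,
    LinearMap.mulLeftRight_apply, Pi.mul_apply, Pi.single_eq_same, h, stdBasis_eq_single]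
  simp [Matrix.mul_apply, Matrix.single, ite_and]

theorem exists_ct (G : Type) [Group G] [Fintype G] : Nonempty (CT G) := by
  have : NeZero (Nat.card G : ℂ) := ⟨Nat.cast_ne_zero.2 Nat.card_pos.ne'⟩
  have : FiniteDimensional ℂ (MonoidAlgebra ℂ G) :=
    Module.Finite.of_basis (MonoidAlgebra.basis G ℂ)
  obtain ⟨n, d, hd, ⟨e⟩⟩ :=
    IsSemisimpleRing.exists_algEquiv_pi_matrix_of_isAlgClosed ℂ (MonoidAlgebra ℂ G)
  refine ⟨⟨n, d, fun i => (hd i).ne, fun i => (Pi.evalMonoidHom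
    (fun i => Matrix (Fin (d i)) (Fin (d i)) ℂ) i).comp
    (e.toMulEquiv.toMonoidHom.comp (MonoidAlgebra.of ℂ G)), fun M => ?_, fun x y => ?_⟩⟩
  · refine ⟨(e.symm M).coeff, fun i => ?_⟩
    have h := (MonoidAlgebra.basis G ℂ).sum_repr (e.symm M)
    have h2 := congrArg (fun z => e z i) h
    simp only [map_sum, map_smul, AlgEquiv.apply_symm_apply, Finset.sum_apply,
      Pi.smul_apply] at h2
    exact h2
  · have h := trace_mulLeftRight_pi d (e (MonoidAlgebra.of ℂ G y⁻¹)) (e (MonoidAlgebra.of ℂ G x))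
    have h2 := AlgEquiv.linearEquivConj_mulLeftRight e
      (MonoidAlgebra.of ℂ G y⁻¹, MonoidAlgebra.of ℂ G x)
    rw [Prod.map_apply] at h2
    rw [← h2, LinearMap.trace_conj', LinearMap.trace_eq_matrix_trace ℂ (MonoidAlgebra.basis G ℂ),
      Matrix.trace] at h
    simp only [mul_comm (trace (e (MonoidAlgebra.of ℂ G y⁻¹) _))] at h
    refine h.symm.trans ?_
    rw [cnt, Finset.card_filter]
    push_cast
    refine Finset.sum_congr rfl fun g _ => ?_
    rw [diag_apply, LinearMap.toMatrix_apply, LinearMap.mulLeftRight_apply,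
      MonoidAlgebra.basis_apply, MonoidAlgebra.of_apply, MonoidAlgebra.of_apply,
      MonoidAlgebra.single_mul_single, MonoidAlgebra.single_mul_single]
    change (MonoidAlgebra.single _ _).coeff g = _
    rw [MonoidAlgebra.coeff_single, Finsupp.single_apply, one_mul, one_mul]
    congr 1
    rw [mul_assoc, inv_mul_eq_iff_eq_mul, mul_inv_eq_iff_eq_mul]

lemma idem_trace {d : ℕ} {A : Matrix (Fin d) (Fin d) ℂ} (h : A * A = A) :
    ∃ m : ℕ, trace A = m ∧ (m = 0 → A = 0) := by
  have h1 : IsIdempotentElem (Matrix.toLin' A) := by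
    rw [IsIdempotentElem, Module.End.mul_eq_comp, ← Matrix.toLin'_mul, h]
  have h2 := (LinearMap.IsIdempotentElem.isProj_range _ h1).trace
  rw [Matrix.trace_toLin'_eq] at h2
  refine ⟨_, h2, fun h0 => ?_⟩
  rw [Submodule.finrank_eq_zero, LinearMap.range_eq_bot] at h0
  exact Matrix.toLin'.injective (by rw [h0, map_zero])

variable {G : Type} [Group G] [Fintype G]

lemma cnt_eq (x y : G) : (cnt x y : ℂ) = ∑ g : G, if g * x * g⁻¹ = y then 1 else 0 := by
  rw [cnt, Finset.card_filter]; push_cast; rfl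

namespace CT

variable (T : CT G)

/-- The irreducible characters. -/
noncomputable def χ (i : Fin T.n) (x : G) : ℂ := trace (T.ρ i x)

lemma χ_one (i) : T.χ i 1 = T.d i := by simp [χ]

lemma χ_comm (i) (x y : G) : T.χ i (x * y) = T.χ i (y * x) := by
  simp only [χ, map_mul]; exact trace_mul_comm _ _

lemma χ_conj (i) (g x : G) : T.χ i (g * x * g⁻¹) = T.χ i x := by
  rw [χ_comm, inv_mul_cancel_left]

lemma χ_isConj (i) {x y : G} (h : IsConj x y) : T.χ i x = T.χ i y := by
  obtain ⟨g, rfl⟩ := isConj_iff.1 h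
  rw [χ_conj]

lemma d_ne (i) : (T.d i : ℂ) ≠ 0 := Nat.cast_ne_zero.2 (T.hd i)

lemma col' (x y : G) : ∑ i, T.χ i x * T.χ i y⁻¹ = cnt x y := T.col x y

lemma pair {J L : Type} [Fintype J] [Fintype L] (a : J → ℂ) (x : J → G) (b : L → ℂ) (y : L → G) :
    ∑ i, (∑ j, a j * T.χ i (x j)) * (∑ l, b l * T.χ i (y l)⁻¹) =
      ∑ j, ∑ l, a j * b l * cnt (x j) (y l) := by
  simp only [Finset.sum_mul_sum]
  simp only [← T.col', Finset.mul_sum]
  rw [Finset.sum_comm]
  refine Finset.sum_congr rfl fun j _ => ?_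
  rw [Finset.sum_comm]
  refine Finset.sum_congr rfl fun l _ => Finset.sum_congr rfl fun i _ => by ring

lemma reg (x : G) : ∑ i, T.χ i x * T.d i = if x = 1 then (Fintype.card G : ℂ) else 0 := by
  have := T.col' x 1
  simp only [inv_one, χ_one] at this
  rw [this, cnt_eq]
  split_ifs with h
  · simp [h]
  · simp [mul_inv_eq_one, h]

lemma row (i j) : ∑ x, T.χ i x⁻¹ * T.χ j x = if i = j then (Fintype.card G : ℂ) else 0 := by
  obtain ⟨w, hw⟩ := T.surj (Pi.single i 1)
  have h1 : ∀ y, (Fintype.card G : ℂ) * w y = T.d i * T.χ i y⁻¹ := fun y => by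
    have h2 : ∀ k, ∑ x, w x * T.χ k (x * y⁻¹) = if k = i then T.χ i y⁻¹ else 0 := fun k => by
      have := congrArg (fun M => trace (M * T.ρ k y⁻¹)) (hw k)
      simp only [Finset.sum_mul, smul_mul_assoc, trace_sum, trace_smul, smul_eq_mul,
        ← map_mul] at this
      refine this.trans ?_
      split_ifs with h
      · subst h; simp [χ]
      · simp [Pi.single_eq_of_ne h]
    calc (Fintype.card G : ℂ) * w y = ∑ x, w x * ∑ k, T.χ k (x * y⁻¹) * T.d k := by
          simp [T.reg, mul_inv_eq_one, mul_comm]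
      _ = ∑ k, (∑ x, w x * T.χ k (x * y⁻¹)) * T.d k := by
          simp only [Finset.mul_sum, Finset.sum_mul, mul_assoc]
          exact Finset.sum_comm
      _ = _ := by simp [h2, mul_comm]
  have h3 := congrArg trace (hw j)
  simp only [trace_sum, trace_smul, smul_eq_mul] at h3
  apply mul_left_cancel₀ (T.d_ne i)
  simp only [Finset.mul_sum, ← mul_assoc, ← h1]
  simp only [mul_assoc, ← Finset.mul_sum]
  erw [h3]
  split_ifs with h
  · subst h; simp [mul_comm]
  · simp [Pi.single_eq_of_ne (Ne.symm h)]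

/-- Schur's lemma for class functions. -/
lemma schur (i) (f : G → ℂ) (hf : ∀ g x, f (g * x * g⁻¹) = f x) :
    ∑ x, f x • T.ρ i x = ((∑ x, f x * T.χ i x) / T.d i) • (1 : Matrix _ _ ℂ) := by
  have h1 : ∀ g, T.ρ i g * ∑ x, f x • T.ρ i x = (∑ x, f x • T.ρ i x) * T.ρ i g := fun g => by
    rw [Finset.mul_sum, Finset.sum_mul]
    refine Fintype.sum_equiv (MulAut.conj g).toEquiv _ _ fun x => ?_
    simp only [MulEquiv.toEquiv_eq_coe, MulEquiv.coe_toEquiv, MulAut.conj_apply, hf,
      mul_smul_comm, smul_mul_assoc, ← map_mul, inv_mul_cancel_right]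
  obtain ⟨c, hc⟩ : (∑ x, f x • T.ρ i x) ∈ Set.range (Matrix.scalar (Fin (T.d i))) := by
    refine mem_range_scalar_iff_commute_single'.2 fun a b => ?_
    obtain ⟨w, hw⟩ := T.surj (Pi.single i (Matrix.single a b 1))
    have := hw i
    rw [Pi.single_eq_same] at this
    rw [← this]
    exact Commute.sum_left _ _ _ fun g _ => Commute.smul_left (h1 g) _
  have h2 := congrArg trace hc
  simp only [trace_sum, trace_smul, smul_eq_mul, scalar_apply, trace_diagonal, Finset.sum_const,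
    Finset.card_univ, Fintype.card_fin, nsmul_eq_mul] at h2
  rw [← hc]
  erw [← h2]
  rw [mul_div_cancel_left₀ _ (T.d_ne i), scalar_apply, smul_one_eq_diagonal]

/-- Averaging over conjugates. -/
lemma sum_conj (i) (x : G) :
    ∑ g, T.ρ i (g * x * g⁻¹) = (Fintype.card G * T.χ i x / T.d i) • (1 : Matrix _ _ ℂ) := by
  have h := T.schur i (fun y => cnt x y) fun g y => by
    simp only [cnt_eq]
    refine (Fintype.sum_equiv (Equiv.mulLeft g) _ _ fun h => ?_).symm
    congr 1
    simp only [Equiv.coe_mulLeft, _root_.mul_inv_rev, eq_iff_iff]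
    constructor
    · rintro rfl; group
    · intro e
      have := congrArg (fun z => g⁻¹ * z * g) e
      simpa [mul_assoc] using this
  simp only [cnt_eq, Finset.sum_smul, Finset.sum_mul] at h
  rw [Finset.sum_comm, Finset.sum_comm (f := fun y g => _ * T.χ i y)] at h
  simpa [T.χ_conj] using h

/-- Multiplicities of linear characters are natural numbers. -/
lemma mult (i) {A : Type} [Group A] [Fintype A] (φ : A →* G) (lam : A → ℂ)
    (hm : ∀ a b, lam (a * b) = lam a * lam b) :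
    ∃ m : ℕ, ∑ a, lam a * T.χ i (φ a) = Fintype.card A * m ∧
      (m = 0 → ∑ a, lam a • T.ρ i (φ a) = 0) := by
  have hA : (Fintype.card A : ℂ) ≠ 0 := Nat.cast_ne_zero.2 Fintype.card_ne_zero
  have h2 : ∀ b, (lam b • T.ρ i (φ b)) * ∑ a, lam a • T.ρ i (φ a) = ∑ a, lam a • T.ρ i (φ a) :=
    fun b => by
      rw [Finset.mul_sum]
      refine Fintype.sum_equiv (Equiv.mulLeft b) _ _ fun a => ?_
      simp [hm, mul_smul, smul_comm (lam a)]
  obtain ⟨m, hm1, hm2⟩ := idem_trace
    (A := (Fintype.card A : ℂ)⁻¹ • ∑ a, lam a • T.ρ i (φ a)) (by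
      rw [smul_mul_smul_comm, Finset.sum_mul]
      simp only [h2, Finset.sum_const, Finset.card_univ]
      rw [← Nat.cast_smul_eq_nsmul ℂ, smul_smul, mul_assoc, inv_mul_cancel₀ hA, mul_one])
  refine ⟨m, ?_, fun h => ?_⟩
  · rw [← hm1, trace_smul, smul_eq_mul, mul_inv_cancel_left₀ hA, trace_sum]
    simp [χ]
  · simpa [hA] using hm2 h

/-- Fourier decomposition on a cyclic subgroup. -/
lemma eig (i) (x : G) : ∃ (N : ℕ) (_ : NeZero N) (m : AddChar (ZMod N) ℂ → ℕ),
    (T.χ i x = ∑ ψ, m ψ * ψ 1) ∧ (T.χ i x⁻¹ = ∑ ψ, m ψ * ψ (-1)) ∧ ((T.d i : ℂ) = ∑ ψ, m ψ) ∧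
      ((∀ ψ, m ψ ≠ 0 → ψ 1 = 1) → T.ρ i x = 1) := by
  have : NeZero (orderOf x) := ⟨(orderOf_pos x).ne'⟩
  let φ : Multiplicative (ZMod (orderOf x)) →* G :=
    AddMonoidHom.toMultiplicativeLeft (ZMod.lift (orderOf x)
      ⟨zmultiplesHom (Additive G) (Additive.ofMul x), by
        change Additive.ofMul (x ^ (orderOf x : ℤ)) = 0
        rw [zpow_natCast, pow_orderOf_eq_one]; rfl⟩)
  have hφ : φ (Multiplicative.ofAdd 1) = x := by
    have := ZMod.lift_coe (orderOf x) ⟨zmultiplesHom (Additive G) (Additive.ofMul x), by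
        change Additive.ofMul (x ^ (orderOf x : ℤ)) = 0
        rw [zpow_natCast, pow_orderOf_eq_one]; rfl⟩ 1
    simpa [φ] using congrArg Additive.toMul this
  choose m hm1 hm2 using fun ψ : AddChar (ZMod (orderOf x)) ℂ =>
    T.mult i φ (fun a => ψ (-a.toAdd)) (fun a b => by
      rw [toAdd_mul, neg_add, AddChar.map_add_eq_mul])
  have hA : (Fintype.card (Multiplicative (ZMod (orderOf x))) : ℂ) ≠ 0 :=
    Nat.cast_ne_zero.2 Fintype.card_ne_zero
  have key : ∀ b : ZMod (orderOf x), ∑ ψ : AddChar (ZMod (orderOf x)) ℂ,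
      ψ b • ∑ a, ψ (-a.toAdd) • T.ρ i (φ a) =
      (Fintype.card (Multiplicative (ZMod (orderOf x))) : ℂ) • T.ρ i (φ (.ofAdd b)) := fun b => by
    simp only [Finset.smul_sum, smul_smul, ← AddChar.map_add_eq_mul]
    rw [Finset.sum_comm]
    simp only [← Finset.sum_smul, AddChar.sum_apply_eq_ite, add_neg_eq_zero]
    rw [Finset.sum_eq_single (Multiplicative.ofAdd b)]
    · simp
    · intro a _ ha
      rw [if_neg (fun h => ha (by rw [h]; rfl)), zero_smul]
    · simp
  have key2 : ∀ b : ZMod (orderOf x), T.χ i (φ (.ofAdd b)) = ∑ ψ, m ψ * ψ b := fun b => by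
    have := congrArg trace (key b)
    simp only [trace_sum, trace_smul, smul_eq_mul] at this
    apply mul_left_cancel₀ hA
    erw [← this]
    rw [Finset.mul_sum]
    refine Finset.sum_congr rfl fun ψ _ => ?_
    erw [hm1]
    ring
  refine ⟨orderOf x, this, m, by rw [← key2, hφ], ?_, ?_, fun h => ?_⟩
  · rw [← key2, ofAdd_neg, map_inv, hφ]
  · simpa [χ_one] using key2 0
  · have h1 := key 1
    have h0 := key 0
    rw [hφ] at h1
    rw [ofAdd_zero, map_one, map_one] at h0
    refine smul_right_injective _ hA (h1.symm.trans (Eq.trans ?_ h0))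
    refine Finset.sum_congr rfl fun ψ _ => ?_
    by_cases h2 : m ψ = 0
    · rw [hm2 ψ h2, smul_zero, smul_zero]
    · rw [h ψ h2, AddChar.map_zero_eq_one]

lemma χ_inv (i) (x : G) : T.χ i x⁻¹ = starRingEnd ℂ (T.χ i x) := by
  obtain ⟨N, _, m, h1, h2, -⟩ := T.eig i x
  rw [h1, h2, map_sum]
  simp [AddChar.map_neg_eq_conj]

lemma χ_int (i) (x : G) : IsIntegral ℤ (T.χ i x) := by
  obtain ⟨N, _, m, h1, -⟩ := T.eig i x
  rw [h1]
  refine IsIntegral.sum _ fun ψ _ => IsIntegral.mul (isIntegral_natCast _) ?_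
  refine IsIntegral.of_pow (n := N) (Nat.pos_of_ne_zero (NeZero.ne N)) ?_
  rw [← AddChar.map_nsmul_eq_pow]
  simp [isIntegral_one]

lemma ρ_eq_one (i) {x : G} (h : T.χ i x = T.d i) : T.ρ i x = 1 := by
  obtain ⟨N, _, m, h1, -, h3, h4⟩ := T.eig i x
  refine h4 fun ψ hψ => ?_
  have h5 : ∑ ψ : AddChar (ZMod N) ℂ, (m ψ : ℝ) * (1 - (ψ 1).re) = 0 := by
    have := congrArg Complex.re (h1.symm.trans (h.trans h3))
    simp only [Complex.re_sum, Complex.mul_re, Complex.natCast_re, Complex.natCast_im, zero_mul,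
      sub_zero] at this
    simp [mul_sub, Finset.sum_sub_distrib, this]
  have hle : ∀ ψ : AddChar (ZMod N) ℂ, (ψ 1).re ≤ 1 := fun ψ =>
    (Complex.re_le_norm _).trans (AddChar.norm_apply ψ 1).le
  have h6 := (Finset.sum_eq_zero_iff_of_nonneg fun ψ _ =>
    mul_nonneg (Nat.cast_nonneg _) (sub_nonneg.2 (hle ψ))).1 h5 ψ (Finset.mem_univ _)
  have h7 : (ψ 1).re = 1 := by
    rcases mul_eq_zero.1 h6 with h | h
    · exact (hψ (Nat.cast_eq_zero.1 h)).elim
    · linarith
  have h8 := Complex.sq_norm (ψ 1)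
  rw [AddChar.norm_apply, Complex.normSq_apply, h7] at h8
  exact Complex.ext h7 (by simpa using (by nlinarith : (ψ 1).im * (ψ 1).im = 0))

/-- The trivial character. -/
lemma exists_triv : ∃ i, (∀ x, T.χ i x = 1) ∧ ∀ j, j ≠ i → ∑ x, T.χ j x = 0 := by
  have hG : (Fintype.card G : ℂ) ≠ 0 := Nat.cast_ne_zero.2 Fintype.card_ne_zero
  choose m hm _ using fun i => T.mult i (MonoidHom.id G) (fun _ => 1) (by simp)
  simp only [one_mul, MonoidHom.id_apply] at hm
  have hm' : ∀ i, ∑ x, T.χ i x⁻¹ = Fintype.card G * m i := fun i =>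
    (Fintype.sum_equiv (Equiv.inv G) _ _ fun _ => rfl).trans (hm i)
  have hc : ∀ x : G, ∑ y, (cnt x y : ℂ) = Fintype.card G := fun x => by
    simp only [cnt_eq]; rw [Finset.sum_comm]; simp
  have h1 : ∀ x, ∑ i, T.χ i x * m i = 1 := fun x => by
    apply mul_left_cancel₀ hG
    rw [mul_one, Finset.mul_sum]
    refine Eq.trans ?_ (hc x)
    simp only [← T.col']
    rw [Finset.sum_comm]
    refine Finset.sum_congr rfl fun i _ => ?_
    rw [← Finset.mul_sum, hm']; ring
  have h2 : ∑ i, m i * m i = 1 := by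
    have : ∑ x, ∑ i, T.χ i x * m i = Fintype.card G := by simp [h1]
    rw [Finset.sum_comm] at this
    simp only [← Finset.sum_mul, hm, mul_assoc, ← Finset.mul_sum] at this
    exact_mod_cast (mul_left_cancel₀ hG (this.trans (mul_one _).symm))
  obtain ⟨i, -, hi0⟩ := Finset.exists_ne_zero_of_sum_ne_zero (h2.trans_ne one_ne_zero)
  rw [← Finset.add_sum_erase _ _ (Finset.mem_univ i)] at h2
  have hi : m i * m i = 1 := by omega
  have hj' : ∀ j, j ≠ i → m j = 0 := fun j h => mul_self_eq_zero.1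
    (Finset.sum_eq_zero_iff.1 (by omega : ∑ j ∈ univ.erase i, m j * m j = 0) j (by simpa using h))
  refine ⟨i, fun x => ?_, fun j h => by rw [hm, hj' j h]; simp⟩
  have := h1 x
  rwa [Finset.sum_eq_single i (fun j _ h => by simp [hj' j h]) (by simp),
    Nat.eq_one_of_mul_eq_one_right hi, Nat.cast_one, mul_one] at this

end CT

end Pool.Agent.Lib.MP_cb9dee_al
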