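import Pool.Agent.Lib.MP_cb9dee_al.CharA

namespace Pool.Agent.Lib.MP_cb9dee_al

open Subgroup Finset Matrix
open scoped Classical

lemma exists_idx {Y : Type} [Finite Y] (φ : Equiv.Perm Y) (q : ℕ) (S : Y → Prop)
    (hS : ∀ y, S y → S (φ y)) (h : ∀ y, S y → ∀ k : ℕ, (φ ^ k) y = y → q ∣ k) :
    ∃ ι : Y → ZMod q, ∀ y, S y → ι (φ y) = ι y + 1 := by
  have h1 : ∀ y, ∃ k : ℕ,
      (φ ^ k) (Quotient.mk (Equiv.Perm.SameCycle.setoid φ) y).out = y := fun y => by
    have : φ.SameCycle (Quotient.mk (Equiv.Perm.SameCycle.setoid φ) y).out y :=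
      Quotient.exact (Quotient.out_eq (Quotient.mk (Equiv.Perm.SameCycle.setoid φ) y))
    obtain ⟨k, -, hk⟩ := this.exists_pow_eq'
    exact ⟨k, hk⟩
  choose k hk using h1
  have h2 : ∀ (y0 : Y) (a b : ℕ), a ≤ b → S ((φ ^ a) y0) → (φ ^ a) y0 = (φ ^ b) y0 →
      (a : ZMod q) = b := fun y0 a b hab hs e => by
    have := h _ hs (b - a) (by
      rw [← Equiv.Perm.mul_apply, ← pow_add, Nat.sub_add_cancel hab, e])
    exact (ZMod.natCast_eq_natCast_iff _ _ _).2 ((Nat.modEq_iff_dvd' hab).2 this)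
  refine ⟨fun y => k y, fun y hy => ?_⟩
  have e1 : Quotient.mk (Equiv.Perm.SameCycle.setoid φ) (φ y) =
      Quotient.mk (Equiv.Perm.SameCycle.setoid φ) y :=
    Quotient.sound (Equiv.Perm.sameCycle_apply_left.2 (Equiv.Perm.SameCycle.refl _ _))
  have e2 := hk (φ y)
  rw [e1] at e2
  have e3 : (φ ^ (k y + 1)) (Quotient.mk (Equiv.Perm.SameCycle.setoid φ) y).out = φ y := by
    rw [pow_succ', Equiv.Perm.mul_apply, hk]
  change ((k (φ y) : ℕ) : ZMod q) = (k y : ℕ) + 1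
  rw [← Nat.cast_succ]
  rcases le_total (k (φ y)) (k y + 1) with hle | hle
  · exact h2 _ _ _ hle (e2.symm ▸ hS y hy) (e2.trans e3.symm)
  · exact (h2 _ _ _ hle (e3.symm ▸ hS y hy) (e3.trans e2.symm)).symm

lemma sum_free {Y : Type} [Fintype Y] (φ : Equiv.Perm Y) (q : ℕ) [NeZero q]
    (h : ∀ y, ∀ k : ℕ, (φ ^ k) y = y → q ∣ k) (F : Y → ℂ) (hF : ∀ y, F (φ y) = F y) :
    ∃ s : Finset Y, ∑ y, F y = q * ∑ y ∈ s, F y := by
  obtain ⟨ι, hι⟩ := exists_idx φ q (fun _ => True) (fun _ _ => trivial) fun y _ => h y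
  have h1 : ∀ j, ∑ y ∈ univ.filter (ι · = j + 1), F y = ∑ y ∈ univ.filter (ι · = j), F y :=
    fun j => (Finset.sum_equiv φ (fun y => by simp [hι y trivial]) fun y _ => (hF y).symm).symm
  have h2 : ∀ j : ℕ, ∑ y ∈ univ.filter (ι · = j), F y = ∑ y ∈ univ.filter (ι · = 0), F y :=
    fun j => by
      induction j with
      | zero => simp
      | succ j ih => rw [Nat.cast_succ, h1, ih]
  refine ⟨univ.filter (ι · = 0), ?_⟩
  have h3 : ∀ j : ZMod q, ∑ y ∈ univ.filter (ι · = j), F y = ∑ y ∈ univ.filter (ι · = 0), F y :=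
    fun j => by rw [← h2 j.val, ZMod.natCast_zmod_val]
  rw [← Finset.sum_fiberwise univ ι F, Finset.sum_congr rfl fun j _ => h3 j, Finset.sum_const,
    Finset.card_univ, ZMod.card, nsmul_eq_mul]

/-- Twisted rotation of words. -/
def rot {r : ℕ} : List (ZMod r) → List (ZMod r)
  | [] => []
  | a :: l => l ++ [a + 1]

lemma rot_length {r : ℕ} (l : List (ZMod r)) : (rot l).length = l.length := by
  cases l <;> simp [rot]

lemma rot_iter {r : ℕ} (l1 l2 : List (ZMod r)) :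
    rot^[l1.length] (l1 ++ l2) = l2 ++ l1.map (· + 1) := by
  induction l1 generalizing l2 with
  | nil => simp
  | cons a l ih =>
    rw [List.length_cons, Function.iterate_succ_apply, List.cons_append, rot, List.append_assoc,
      ih]
    simp

lemma rot_iter_mul {r : ℕ} (m : ℕ) (l : List (ZMod r)) :
    rot^[l.length * m] l = l.map (· + (m : ZMod r)) := by
  induction m with
  | zero => simp
  | succ m ih =>
    rw [Nat.mul_succ, add_comm, Function.iterate_add_apply, ih]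
    have := rot_iter (l.map (· + (m : ZMod r))) []
    simp only [List.length_map, List.append_nil, List.nil_append, List.map_map] at this
    rw [this]
    congr 1
    ext a
    simp [add_assoc]

lemma sum_pow_words {B α : Type} [Ring B] [Fintype α] (c : α → B) (N : ℕ) :
    (∑ j, c j) ^ N = ∑ v : List.Vector α N, (v.toList.map c).prod := by
  induction N with
  | zero =>
    rw [pow_zero, Fintype.sum_eq_single List.Vector.nil fun v h => (h v.eq_nil).elim]
    rfl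
  | succ N ih =>
    let e : α × List.Vector α N ≃ List.Vector α (N + 1) :=
      ⟨fun z => z.1 ::ᵥ z.2, fun v => (v.head, v.tail), fun z => by simp, fun v => by simp⟩
    rw [pow_succ', ih, Finset.sum_mul_sum, ← Fintype.sum_prod_type']
    exact Fintype.sum_equiv e _ _ fun z => by simp [e]

lemma trace_words {B : Type} [Ring B] (τ : B →+ ℂ) (hτ : ∀ a b, τ (a * b) = τ (b * a))
    (P : B → Prop) (hP : ∀ a b, P a → P b → P (a * b)) (hτP : ∀ a, P a → IsIntegral ℤ (τ a))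
    {r : ℕ} (hr : r.Prime) [NeZero r] (c : ZMod r → B) (X : B) (hc : ∀ j, P (c j)) (hX : P X)
    (h : ∀ j, X * c j = c (j + 1) * X) (k : ℕ) :
    ∃ y, IsIntegral ℤ y ∧ τ (X * (∑ j, c j) ^ r ^ k) = r ^ (k + 1) * y := by
  have := Fact.mk hr
  let f : List.Vector (ZMod r) (r ^ k) → List.Vector (ZMod r) (r ^ k) :=
    fun v => ⟨rot v.1, (rot_length _).trans v.2⟩
  have hf : Function.Injective f := by
    rintro ⟨l, hl⟩ ⟨l', hl'⟩ e
    have e' : rot l = rot l' := congrArg Subtype.val e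
    refine Subtype.ext ?_
    rcases l with _ | ⟨a, l⟩ <;> rcases l' with _ | ⟨a', l'⟩
    · rfl
    · simp [rot] at e'
    · simp [rot] at e'
    · obtain ⟨h1, h2⟩ := List.append_inj' e' rfl
      simp only [List.cons.injEq, add_left_inj, and_true] at h2
      subst h1 h2
      rfl
  let φ : Equiv.Perm (List.Vector (ZMod r) (r ^ k)) :=
    Equiv.ofBijective f (Finite.injective_iff_bijective.1 hf)
  have hφ : ∀ (j : ℕ) v, ((φ ^ j) v).1 = rot^[j] v.1 := fun j => by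
    induction j with
    | zero => intro v; rfl
    | succ j ih =>
      intro v
      rw [pow_succ, Equiv.Perm.mul_apply, ih, Function.iterate_succ_apply]
      rfl
  have : NeZero (r ^ (k + 1)) := ⟨pow_ne_zero _ hr.ne_zero⟩
  obtain ⟨s, hs⟩ := sum_free φ (r ^ (k + 1)) (fun v j hj => by
    have p1 : Function.IsPeriodicPt rot j v.1 := (hφ j v).symm.trans (congrArg Subtype.val hj)
    have p2 : Function.IsPeriodicPt rot (r ^ (k + 1)) v.1 := by
      have := rot_iter_mul r v.1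
      rw [v.2, ← pow_succ] at this
      exact this.trans (by simp)
    obtain ⟨i, hi, e⟩ := (Nat.dvd_prime_pow hr).1 (Nat.gcd_dvd_right j (r ^ (k + 1)))
    have p3 := p1.gcd p2
    rcases hi.eq_or_lt with rfl | hi
    · exact e ▸ Nat.gcd_dvd_left _ _
    · have p4 : rot^[r ^ k] v.1 = v.1 :=
        p3.trans_dvd (e ▸ pow_dvd_pow r (Nat.lt_succ_iff.1 hi))
      have p5 := rot_iter v.1 []
      rw [v.2, List.append_nil, p4, List.nil_append] at p5
      obtain ⟨l, hl⟩ := v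
      rcases l with _ | ⟨a, l⟩
      · exact absurd hl (pow_ne_zero k hr.ne_zero).symm
      · simp at p5)
    (fun v => τ (X * (v.toList.map c).prod)) (fun v => by
      obtain ⟨l, hl⟩ := v
      rcases l with _ | ⟨a, l⟩
      · rfl
      · change τ (X * ((l ++ [a + 1]).map c).prod) = τ (X * ((a :: l).map c).prod)
        simp only [List.map_append, List.prod_append, List.map_cons, List.map_nil, List.prod_cons,
          List.prod_nil, mul_one]
        rw [← mul_assoc, hτ, ← mul_assoc, ← h, mul_assoc])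
  refine ⟨_, IsIntegral.sum (s := s) (fun v => τ (X * (v.toList.map c).prod)) fun v _ => ?_, ?_⟩
  · refine hτP _ ?_
    generalize v.toList = l
    induction l using List.reverseRecOn with
    | nil => simpa using hX
    | append_singleton l a ih =>
      simpa [← mul_assoc] using hP _ _ ih (hc a)
  · rw [sum_pow_words, Finset.mul_sum, map_sum, hs]
    push_cast
    rfl

lemma int_of_rat {q : ℚ} (h : IsIntegral ℤ (q : ℂ)) : ∃ z : ℤ, (z : ℚ) = q :=
  IsIntegrallyClosed.algebraMap_eq_of_integral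
    ((isIntegral_algebraMap_iff (R := ℤ) (algebraMap ℚ ℂ).injective).1 h)

lemma dvd_of_int {a b : ℤ} (hb : b ≠ 0) {y : ℂ} (hy : IsIntegral ℤ y) (h : (a : ℂ) = b * y) :
    b ∣ a := by
  have hb' : (b : ℂ) ≠ 0 := Int.cast_ne_zero.2 hb
  obtain ⟨z, hz⟩ := int_of_rat (q := a / b) (by
    push_cast; rw [h, mul_div_cancel_left₀ _ hb']; exact hy)
  refine ⟨z, ?_⟩
  have : (a : ℚ) = b * z := by rw [hz, mul_div_cancel₀ _ (Int.cast_ne_zero.2 hb)]
  exact_mod_cast this

/-- Algebraic integers which are nilpotent modulo `r`. -/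
def Nil (r : ℕ) (a : ℂ) : Prop :=
  ∃ b : integralClosure ℤ ℂ, (b : ℂ) = a ∧ b ∈ (Ideal.span {(r : integralClosure ℤ ℂ)}).radical

lemma Nil.add {r : ℕ} {a b : ℂ} (ha : Nil r a) (hb : Nil r b) : Nil r (a + b) := by
  obtain ⟨a, rfl, ha⟩ := ha
  obtain ⟨b, rfl, hb⟩ := hb
  exact ⟨a + b, rfl, add_mem ha hb⟩

lemma Nil.mul {r : ℕ} {a b : ℂ} (ha : IsIntegral ℤ a) (hb : Nil r b) : Nil r (a * b) := by
  obtain ⟨b, rfl, hb⟩ := hb
  exact ⟨⟨a, ha⟩ * b, rfl, Ideal.mul_mem_left _ _ hb⟩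

lemma Nil.zero (r : ℕ) : Nil r 0 := ⟨0, rfl, zero_mem _⟩

lemma Nil.sum {r : ℕ} {ι : Type} (s : Finset ι) (f : ι → ℂ) (h : ∀ i ∈ s, Nil r (f i)) :
    Nil r (∑ i ∈ s, f i) :=
  Finset.sum_induction f (Nil r) (fun _ _ => Nil.add) (Nil.zero r) h

lemma Nil.of_pow {r N : ℕ} {a y : ℂ} (ha : IsIntegral ℤ a) (hy : IsIntegral ℤ y)
    (h : a ^ N = r * y) : Nil r a :=
  ⟨⟨a, ha⟩, rfl, N, Ideal.mem_span_singleton.2 ⟨⟨y, hy⟩, Subtype.ext h⟩⟩

lemma not_nil {r : ℕ} (hr : r.Prime) {m : ℤ} (hm : ¬ (r : ℤ) ∣ m) : ¬ Nil r m := by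
  rintro ⟨b, hb, N, hN⟩
  obtain ⟨y, hy⟩ := Ideal.mem_span_singleton.1 hN
  have h1 : (((m ^ N : ℤ)) : ℂ) = ((r : ℤ) : ℂ) * y := by
    have := congrArg Subtype.val hy
    push_cast at this ⊢
    rwa [hb] at this
  exact hm ((Nat.prime_iff_prime_int.1 hr).dvd_of_dvd_pow
    (dvd_of_int (Int.natCast_ne_zero.2 hr.ne_zero) y.2 h1))

lemma Nil.of_mul {r : ℕ} (hr : r.Prime) {m : ℤ} (hm : ¬ (r : ℤ) ∣ m) {a : ℂ}
    (ha : IsIntegral ℤ a) (h : Nil r (m * a)) : Nil r a := by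
  obtain ⟨u, v, huv⟩ := (Nat.prime_iff_prime_int.1 hr).irreducible.coprime_iff_not_dvd.2 hm
  have h1 : a = u * a * r + v * (m * a) := by
    have : (u : ℂ) * r + v * m = 1 := by exact_mod_cast huv
    linear_combination (-a) * this
  rw [h1]
  refine Nil.add (Nil.mul ((isIntegral_intCast u).mul ha) ?_) (Nil.mul (isIntegral_intCast v) h)
  exact Nil.of_pow (N := 1) (isIntegral_natCast r) isIntegral_one (by simp)

lemma eq_zero_or_nil {r : ℕ} (hr : r.Prime) {b τ : ℂ} (hb : IsIntegral ℤ b)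
    (hτ : IsIntegral ℤ τ) (h : ∀ k, ∃ y, IsIntegral ℤ y ∧ b ^ r ^ k * τ = r ^ (k + 1) * y) :
    τ = 0 ∨ Nil r b := by
  rw [or_iff_not_imp_left]
  intro h0
  have h1 : IsAlgebraic ℤ (⟨τ, hτ⟩ : integralClosure ℤ ℂ) :=
    (integralClosure.isIntegral _).isAlgebraic
  obtain ⟨n0, hn0, τ', e⟩ := h1.exists_nonzero_dvd
    (mem_nonZeroDivisors_of_ne_zero fun e => h0 (congrArg Subtype.val e))
  have e' : (n0 : ℂ) = τ * τ' := congrArg Subtype.val e
  obtain ⟨k, n1, hn1, rfl⟩ := WfDvdMonoid.max_power_factor hn0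
    (Nat.prime_iff_prime_int.1 hr).irreducible
  obtain ⟨y, hy, e2⟩ := h k
  have hr0 : (r : ℂ) ^ k ≠ 0 := pow_ne_zero _ (Nat.cast_ne_zero.2 hr.ne_zero)
  have e3 : (n1 : ℂ) * b ^ r ^ k = r * (y * τ') := by
    apply mul_left_cancel₀ hr0
    push_cast at e'
    linear_combination b ^ r ^ k * e' + τ' * e2
  obtain ⟨c, hc, hc'⟩ := Nil.of_mul hr hn1 (hb.pow (r ^ k))
    (Nil.of_pow (N := 1) ((isIntegral_intCast n1).mul (hb.pow _)) (hy.mul τ'.2)
      ((pow_one _).trans e3))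
  refine ⟨⟨b, hb⟩, rfl, Ideal.mem_radical_of_pow_mem (m := r ^ k) ?_⟩
  rwa [show (⟨b, hb⟩ : integralClosure ℤ ℂ) ^ r ^ k = c from Subtype.ext hc.symm]

end Pool.Agent.Lib.MP_cb9dee_al
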