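import Pool.Agent.Lib.MP_cb9dee_al.CharB

namespace Pool.Agent.Lib.MP_cb9dee_al

open Subgroup Finset Matrix
open scoped Classical

variable {G : Type} [Group G] [Fintype G]

namespace CT

variable (T : CT G)

/-- The central character. -/
noncomputable def om (i : Fin T.n) (f : G → ℂ) : ℂ := (∑ x, f x * T.χ i x) / T.d i

/-- Integral combinations of group elements. -/
def Zi (i : Fin T.n) (B : Matrix (Fin (T.d i)) (Fin (T.d i)) ℂ) : Prop :=
  B ∈ Submodule.span (integralClosure ℤ ℂ) (Set.range (T.ρ i))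

variable {T}

lemma Zi.of (i) (x : G) : T.Zi i (T.ρ i x) := Submodule.subset_span ⟨x, rfl⟩

lemma Zi.one (i) : T.Zi i 1 := map_one (T.ρ i) ▸ Zi.of i 1

lemma Zi.smul {i} {B} {a : ℂ} (ha : IsIntegral ℤ a) (h : T.Zi i B) : T.Zi i (a • B) :=
  Submodule.smul_mem _ (⟨a, ha⟩ : integralClosure ℤ ℂ) h

lemma Zi.sum {i} {ι : Type} (s : Finset ι) {f : ι → _} (h : ∀ j ∈ s, T.Zi i (f j)) :
    T.Zi i (∑ j ∈ s, f j) := Submodule.sum_mem _ h

lemma Zi.mul {i} {A B} (hA : T.Zi i A) (hB : T.Zi i B) : T.Zi i (A * B) := by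
  induction hA using Submodule.span_induction with
  | mem x hx =>
    obtain ⟨x, rfl⟩ := hx
    induction hB using Submodule.span_induction with
    | mem y hy =>
      obtain ⟨y, rfl⟩ := hy
      exact map_mul (T.ρ i) x y ▸ Zi.of i _
    | zero => rw [mul_zero]; exact zero_mem _
    | add y z _ _ h1 h2 => rw [mul_add]; exact add_mem h1 h2
    | smul a y _ h => rw [mul_smul_comm]; exact Submodule.smul_mem _ _ h
  | zero => rw [zero_mul]; exact zero_mem _
  | add y z _ _ h1 h2 => rw [add_mul]; exact add_mem h1 h2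
  | smul a y _ h => rw [smul_mul_assoc]; exact Submodule.smul_mem _ _ h

lemma Zi.trace {i} {A} (hA : T.Zi i A) : IsIntegral ℤ (trace A) := by
  induction hA using Submodule.span_induction with
  | mem x hx => obtain ⟨x, rfl⟩ := hx; exact T.χ_int i x
  | zero => rw [trace_zero]; exact isIntegral_zero
  | add y z _ _ h1 h2 => rw [trace_add]; exact h1.add h2
  | smul a y _ h => rw [trace_smul]; exact a.2.mul h

lemma Zi.scalar {i} {a : ℂ} (h : T.Zi i (a • 1)) : IsIntegral ℤ a := by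
  have : NeZero (T.d i) := ⟨T.hd i⟩
  refine isIntegral_trans (A := integralClosure ℤ ℂ) _ (isIntegral_of_smul_mem_submodule
    (Submodule.span (integralClosure ℤ ℂ) (Set.range (T.ρ i))) (fun e => ?_)
    (Submodule.fg_span (Set.finite_range _)) a fun B hB => ?_)
  · have h1 : (1 : Matrix (Fin (T.d i)) (Fin (T.d i)) ℂ) ∈ _ := Zi.one i
    rw [e] at h1
    exact one_ne_zero ((Submodule.mem_bot _).1 h1)
  · have := Zi.mul h hB
    rwa [smul_mul_assoc, one_mul] at this

variable (T)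

lemma om_int (i) (f : G → ℂ) (hf : ∀ g x, f (g * x * g⁻¹) = f x) (hi : ∀ x, IsIntegral ℤ (f x)) :
    IsIntegral ℤ (T.om i f) :=
  Zi.scalar (T.schur i f hf ▸ Zi.sum _ fun x _ => Zi.smul (hi x) (Zi.of i x))

lemma om_χ (i) : T.om i (fun x => T.χ i x⁻¹) = Fintype.card G / T.d i := by
  rw [om, T.row, if_pos rfl]

theorem d_dvd (i) : T.d i ∣ Fintype.card G := by
  have h := T.om_int i (fun x => T.χ i x⁻¹) (fun g x => by
    rw [← T.χ_conj i g x⁻¹]; congr 1; group) fun x => T.χ_int i _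
  rw [om_χ] at h
  exact Int.natCast_dvd_natCast.1 (dvd_of_int (Int.natCast_ne_zero.2 (T.hd i)) h (by
    push_cast; rw [mul_div_cancel₀ _ (T.d_ne i)]))

lemma tr_zero (i) {r : ℕ} (hr : r.Prime) [NeZero r] {X F} (c : ZMod r → _) {b : ℂ} {m : ℤ}
    (hm : ¬ (r : ℤ) ∣ m) (hX : T.Zi i X) (hF : T.Zi i F) (hc : ∀ j, T.Zi i (c j))
    (h : ∀ j, X * c j = c (j + 1) * X) (hXF : X * F = F * X) (hFF : F * F = (m : ℂ) • F)
    (hb : IsIntegral ℤ b) (hs : (∑ j, c j) * F = b • F) : trace (X * F) = 0 ∨ Nil r b := by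
  have hp : ∀ N : ℕ, F ^ (N + 1) = (m : ℂ) ^ N • F := fun N => by
    induction N with
    | zero => simp
    | succ N ih => rw [pow_succ, ih, smul_mul_assoc, hFF, smul_smul, pow_succ]
  refine (eq_zero_or_nil hr ((isIntegral_intCast m).mul hb) (hX.mul hF).trace fun k => ?_).imp
    id (Nil.of_mul hr hm hb)
  obtain ⟨y, hy, e⟩ := trace_words (Matrix.traceAddMonoidHom _ ℂ) (fun a b => trace_mul_comm a b)
    (T.Zi i) (fun _ _ => Zi.mul) (fun _ => Zi.trace) hr (fun j => c j * F) X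
    (fun j => (hc j).mul hF) hX (fun j => by rw [← mul_assoc, h, mul_assoc, hXF, mul_assoc]) k
  refine ⟨m * y, (isIntegral_intCast m).mul hy, ?_⟩
  obtain ⟨N, hN⟩ := Nat.exists_eq_succ_of_ne_zero (pow_ne_zero k hr.ne_zero)
  rw [← Finset.sum_mul, hs, smul_pow, hN, hp, smul_smul, mul_smul_comm,
    traceAddMonoidHom_apply, trace_smul, smul_eq_mul] at e
  rw [hN]
  simp only [Nat.succ_eq_add_one] at e ⊢
  linear_combination m * e

/-- Characters of defect zero vanish on singular elements. -/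
theorem defect_zero (i) {q e : ℕ} (hq : q.Prime) (he : Fintype.card G = T.d i * e) (hqe : ¬ q ∣ e)
    {x : G} (hx : q ∣ orderOf x) : T.χ i x = 0 := by
  have : NeZero q := ⟨hq.ne_zero⟩
  have hqe' : ¬ (q : ℤ) ∣ (e : ℤ) := fun h => hqe (Int.natCast_dvd_natCast.1 h)
  have he' : (Fintype.card G : ℂ) / T.d i = e := by
    rw [he, Nat.cast_mul, mul_div_cancel_left₀ _ (T.d_ne i)]
  obtain ⟨b, hb⟩ : ∃ b, ¬ Nil q (T.χ i b) := by
    by_contra! h
    refine not_nil hq hqe' ?_
    rw [Int.cast_natCast, ← he', ← om_χ, om, ← Finset.sum_fiberwise univ ConjClasses.mk,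
      Finset.sum_div]
    refine Nil.sum _ _ fun C _ => ?_
    obtain ⟨y, rfl⟩ := ConjClasses.mk_surjective C
    have h1 := T.om_int i (fun x => if ConjClasses.mk x = ConjClasses.mk y then 1 else 0)
      (fun g x => by
        rw [ConjClasses.mk_eq_mk_iff_isConj.2 (isConj_iff.2 ⟨g, rfl⟩ : IsConj x _).symm])
      (fun x => by split_ifs; exacts [isIntegral_one, isIntegral_zero])
    convert Nil.mul h1 (h y⁻¹) using 1
    rw [om, div_mul_eq_mul_div, Finset.sum_mul, Finset.sum_filter]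
    congr 1
    refine Finset.sum_congr rfl fun x _ => ?_
    split_ifs with hx
    · obtain ⟨g, rfl⟩ := isConj_iff.1 (ConjClasses.mk_eq_mk_iff_isConj.1 hx)
      rw [show (g * x * g⁻¹)⁻¹ = g * x⁻¹ * g⁻¹ by group, T.χ_conj]; ring
    · simp
  obtain ⟨ι, hι⟩ := exists_idx (Equiv.mulLeft x) q (fun _ => True) (fun _ _ => trivial)
    fun y _ k hk => hx.trans (orderOf_dvd_of_pow_eq_one (by
      rw [Equiv.pow_mulLeft] at hk; simpa using hk))
  have := T.tr_zero i hq (X := T.ρ i x) (F := 1) (m := 1) (b := e * T.χ i b)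
    (fun j => ∑ g ∈ univ.filter (ι · = j), T.ρ i (g * b * g⁻¹))
    (fun h => hq.one_lt.ne' (Nat.dvd_one.1 (Int.natCast_dvd_natCast.1 h))) (Zi.of i x) (Zi.one i)
    (fun j => Zi.sum _ fun g _ => Zi.of i _) (fun j => by
      rw [Finset.mul_sum, Finset.sum_mul]
      refine Finset.sum_equiv (Equiv.mulLeft x) (fun y => by
        simp only [Finset.mem_filter, Finset.mem_univ, true_and, hι y trivial, add_left_inj])
        fun y _ => ?_
      rw [← map_mul, ← map_mul, Equiv.coe_mulLeft]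
      congr 1; group) (by simp) (by simp) ((isIntegral_natCast e).mul (T.χ_int i b)) (by
      rw [mul_one, Finset.sum_fiberwise, T.sum_conj, ← he', div_mul_eq_mul_div])
  rw [mul_one] at this
  exact this.resolve_right fun h => hb (Nil.of_mul hq hqe' (T.χ_int i b) (by simpa using h))

/-- A fragment of Brauer's second main theorem. -/
theorem mb (i) {r : ℕ} (hr : r.Prime) (f : G → ℂ) (hf : ∀ g x, f (g * x * g⁻¹) = f x)
    (hi : ∀ x, IsIntegral ℤ (f x)) {x u : G} (hc : x * u = u * x)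
    (hxu : ∀ (y : G) (k : ℕ), x ^ k * y = y * x ^ k → ¬ r ∣ k → u * y = y * u) {m : ℤ}
    (hm : ¬ (r : ℤ) ∣ m) {E} (hE : E = ∑ y ∈ univ.filter (fun y => u * y = y * u), f y • T.ρ i y)
    (hEE : E * E = (m : ℂ) • E) :
    (¬ Nil r (T.om i f) → m * T.χ i x = trace (T.ρ i x * E)) ∧
      (Nil r (T.om i f) → trace (T.ρ i x * E) = 0) := by
  have : NeZero r := ⟨hr.ne_zero⟩
  have hS : ∀ y, u * (x * y * x⁻¹) = x * y * x⁻¹ * u ↔ u * y = y * u := fun y => by
    have h1 : x⁻¹ * u = u * x⁻¹ := (Commute.inv_left hc).eq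
    rw [← mul_assoc, ← mul_assoc, ← hc, mul_assoc (x * y), h1, ← mul_assoc, mul_left_inj,
      mul_assoc, mul_assoc, mul_right_inj]
  obtain ⟨ι, hι⟩ := exists_idx (MulAut.toPerm G (MulAut.conj x)) r (fun y => ¬ u * y = y * u)
    (fun y hy => (hS y).not.2 hy) fun y hy k hk => by
      by_contra h
      rw [← map_pow, ← map_pow] at hk
      exact hy (hxu y k (mul_inv_eq_iff_eq_mul.1 hk) h)
  let c : ZMod r → Matrix (Fin (T.d i)) (Fin (T.d i)) ℂ := fun j =>
    ∑ y ∈ (univ.filter fun y => ¬ u * y = y * u).filter (ι · = j), f y • T.ρ i y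
  have hcj : ∀ y, T.ρ i x * f y • T.ρ i y = f (x * y * x⁻¹) • T.ρ i (x * y * x⁻¹) * T.ρ i x :=
    fun y => by rw [hf, mul_smul_comm, smul_mul_assoc, ← map_mul, ← map_mul, inv_mul_cancel_right]
  have h1 : ∀ j, T.ρ i x * c j = c (j + 1) * T.ρ i x := fun j => by
    rw [Finset.mul_sum, Finset.sum_mul]
    refine Finset.sum_equiv (MulAut.toPerm G (MulAut.conj x)) (fun y => ?_) fun y _ => hcj y
    simp only [Finset.mem_filter, Finset.mem_univ, true_and]
    refine ⟨fun h => ⟨(hS y).not.2 h.1, by rw [hι y h.1, h.2]⟩, fun h => ?_⟩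
    have h' := (hS y).not.1 h.1
    exact ⟨h', by simpa [hι y h'] using h.2⟩
  have h2 : T.ρ i x * E = E * T.ρ i x := by
    rw [hE, Finset.mul_sum, Finset.sum_mul]
    refine Finset.sum_equiv (MulAut.toPerm G (MulAut.conj x)) (fun y => ?_) fun y _ => hcj y
    simp only [Finset.mem_filter, Finset.mem_univ, true_and]
    exact (hS y).symm
  have h3 : ∑ j, c j = T.om i f • 1 - E := by
    rw [Finset.sum_fiberwise, hE, om, ← T.schur i f hf, eq_sub_iff_add_eq',
      Finset.sum_filter_add_sum_filter_not]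
  have hZ : T.Zi i E := hE ▸ Zi.sum _ fun y _ => Zi.smul (hi y) (Zi.of i y)
  have hcZ : ∀ j, T.Zi i (c j) := fun j => Zi.sum _ fun y _ => Zi.smul (hi y) (Zi.of i y)
  have ha := T.om_int i f hf hi
  constructor
  · intro hn
    have := (T.tr_zero i hr (F := (m : ℂ) • 1 - E) c hm (Zi.of i x)
      (sub_mem (Zi.smul (isIntegral_intCast m) (Zi.one i)) hZ) hcZ h1
      (by rw [mul_sub, sub_mul, h2]; simp) (by simp [mul_sub, sub_mul, hEE]) ha
      (by simp [h3, mul_sub, sub_mul, hEE, smul_sub, smul_comm (m : ℂ)])).resolve_right hn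
    rwa [mul_sub, trace_sub, mul_smul_comm, mul_one, trace_smul, sub_eq_zero] at this
  · intro hn
    refine (T.tr_zero i hr (b := T.om i f - m) c hm (Zi.of i x) hZ hcZ h1 h2 hEE
      (ha.sub (isIntegral_intCast m)) (by simp [h3, sub_mul, hEE, sub_smul])).resolve_right
      fun h => not_nil hr hm ?_
    have := hn.add (Nil.mul (isIntegral_intCast (-1)) h)
    simpa using this

/-- Products of two elements of a conjugacy class. -/
lemma class_sq (i) {t : G} (I : Finset G) (hI : ∀ x, x ∈ I ↔ IsConj t x) :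
    ∑ u ∈ I, ∑ v ∈ I, T.χ i (u * v) = (I.card : ℂ) ^ 2 * T.χ i t ^ 2 / T.d i := by
  have h1 := T.schur i (fun x => if x ∈ I then 1 else 0) fun g x => by
    simp only [hI]
    congr 1
    exact propext ⟨fun h => h.trans (isConj_iff.2 ⟨g, rfl⟩ : IsConj x _).symm,
      fun h => h.trans (isConj_iff.2 ⟨g, rfl⟩)⟩
  simp only [ite_smul, one_smul, zero_smul, ite_mul, one_mul, zero_mul, Finset.sum_ite_mem,
    Finset.univ_inter] at h1
  rw [Finset.sum_congr rfl fun x hx => (T.χ_isConj i ((hI x).1 hx)).symm, Finset.sum_const,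
    nsmul_eq_mul] at h1
  have h2 := congrArg (fun M => trace (M * M)) h1
  simp only [Finset.sum_mul_sum, trace_sum, ← map_mul, smul_mul_smul_comm, mul_one, trace_smul,
    trace_one, Fintype.card_fin, smul_eq_mul] at h2
  refine h2.trans ?_
  have := T.d_ne i
  field_simp

theorem eq_one_of_simple [IsSimpleGroup G] (i) {x : G} (h : T.χ i x = T.d i) :
    x = 1 ∨ ∀ y, T.χ i y = T.d i := by
  rcases (inferInstance : (T.ρ i).ker.Normal).eq_bot_or_eq_top with e | e
  · exact Or.inl (mem_bot.1 (e ▸ (T.ρ_eq_one i h : x ∈ (T.ρ i).ker)))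
  · refine Or.inr fun y => ?_
    have : T.ρ i y = 1 := (e ▸ mem_top y : y ∈ (T.ρ i).ker)
    rw [← T.χ_one, χ, χ, this, map_one]

end CT

end Pool.Agent.Lib.MP_cb9dee_al
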