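import Pool.Agent.Lib.MP_cb9dee_al.CharC

namespace Pool.Agent.Lib.MP_cb9dee_al

open Subgroup Finset Matrix
open scoped Classical

variable {G : Type} [Group G]

/-- `lam` restricts to a linear character of `K`. -/
def Lin (K : Subgroup G) (lam : G → ℂ) : Prop :=
  lam 1 = 1 ∧ ∀ x ∈ K, ∀ y ∈ K, lam (x * y) = lam x * lam y

namespace Lin

variable {K : Subgroup G} {lam μ ν : G → ℂ}

lemma one (K : Subgroup G) : Lin K fun _ => 1 := ⟨rfl, by simp⟩

lemma mono (h : Lin K lam) {L : Subgroup G} (hL : L ≤ K) : Lin L lam :=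
  ⟨h.1, fun x hx y hy => h.2 x (hL hx) y (hL hy)⟩

lemma mul (h : Lin K μ) (h' : Lin K ν) : Lin K fun x => μ x * ν x :=
  ⟨by simp [h.1, h'.1], fun x hx y hy => by
    simp only [h.2 x hx y hy, h'.2 x hx y hy]; ring⟩

lemma inv (h : Lin K μ) : Lin K fun x => μ x⁻¹ :=
  ⟨by simp [h.1], fun x hx y hy => by
    simp only [_root_.mul_inv_rev, h.2 _ (inv_mem hy) _ (inv_mem hx), mul_comm]⟩

lemma conj (h : Lin K μ) {L : Subgroup G} {g : G} (hg : ∀ x ∈ L, g * x * g⁻¹ ∈ K) :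
    Lin L fun x => μ (g * x * g⁻¹) :=
  ⟨by simp [h.1], fun x hx y hy => by
    rw [← h.2 _ (hg x hx) _ (hg y hy)]; group⟩

lemma inv_mul (h : Lin K μ) {x : G} (hx : x ∈ K) : μ x⁻¹ * μ x = 1 := by
  rw [← h.2 _ (inv_mem hx) _ hx, inv_mul_cancel, h.1]

lemma conj_self (h : Lin K μ) {g x : G} (hg : g ∈ K) (hx : x ∈ K) : μ (g * x * g⁻¹) = μ x := by
  rw [h.2 _ (mul_mem hg hx) _ (inv_mem hg), h.2 _ hg _ hx]
  linear_combination μ x * h.inv_mul hg

lemma pow (h : Lin K μ) {x : G} (hx : x ∈ K) (k : ℕ) : μ (x ^ k) = μ x ^ k := by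
  induction k with
  | zero => simp [h.1]
  | succ k ih => rw [pow_succ, h.2 _ (pow_mem hx k) _ hx, ih, pow_succ]

lemma pow' (h : Lin K μ) (k : ℕ) : Lin K fun x => μ x ^ k :=
  ⟨by simp [h.1], fun x hx y hy => by simp only [h.2 x hx y hy, mul_pow]⟩

lemma int [Finite G] (h : Lin K μ) {x : G} (hx : x ∈ K) : IsIntegral ℤ (μ x) :=
  IsIntegral.of_pow (orderOf_pos x) (by
    rw [← h.pow hx, pow_orderOf_eq_one, h.1]; exact isIntegral_one)

lemma eq_one_of_coprime (h : Lin K μ) {x : G} (hx : x ∈ K) {k : ℕ} (hk : μ x ^ k = 1)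
    (hc : (orderOf x).Coprime k) : μ x = 1 :=
  orderOf_eq_one_iff.1 (Nat.eq_one_of_dvd_coprimes hc (orderOf_dvd_of_pow_eq_one (by
    rw [← h.pow hx, pow_orderOf_eq_one, h.1])) (orderOf_dvd_of_pow_eq_one hk))

variable [Fintype G]

lemma sum_zero (h : Lin K μ) {x : G} (hx : x ∈ K) (h1 : μ x ≠ 1) : ∑ k : K, μ k = 0 := by
  have : ∑ k : K, μ k = μ x * ∑ k : K, μ k := by
    rw [Finset.mul_sum]
    exact (Fintype.sum_equiv (Equiv.mulLeft (⟨x, hx⟩ : K)) _ _ fun k =>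
      (h.2 x hx k k.2).symm).symm
  exact (mul_left_eq_self₀.1 this.symm).resolve_left h1

lemma orth_ne (h : Lin K μ) (h' : Lin K ν) {x : G} (hx : x ∈ K) (h1 : μ x ≠ ν x) :
    ∑ k : K, μ k * ν (k : G)⁻¹ = 0 :=
  (h.mul h'.inv).sum_zero hx fun e => h1 (by linear_combination ν x * e - μ x * h'.inv_mul hx)

lemma orth_self (h : Lin K μ) : ∑ k : K, μ k * μ (k : G)⁻¹ = Nat.card K := by
  rw [Finset.sum_congr rfl fun k _ => (mul_comm _ _).trans (h.inv_mul k.2)]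
  simp

end Lin

lemma exists_lin [Finite G] (K M : Subgroup G) (hM : ∀ x ∈ K, ∀ y ∈ K, x * y * x⁻¹ * y⁻¹ ∈ M)
    {a : G} (ha : a ∈ K) (haM : a ∉ M) :
    ∃ lam, Lin K lam ∧ lam a ≠ 1 ∧ ∀ x ∈ K, x ∈ M → lam x = 1 := by
  have hn : (M.subgroupOf K).Normal := ⟨fun x hx g => by
    have := mul_mem (hM g g.2 x x.2) (mem_subgroupOf.1 hx)
    simpa [mem_subgroupOf] using this⟩
  let _ : CommGroup (K ⧸ M.subgroupOf K) := ⟨fun x y => by
    obtain ⟨x, rfl⟩ := QuotientGroup.mk_surjective x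
    obtain ⟨y, rfl⟩ := QuotientGroup.mk_surjective y
    rw [← QuotientGroup.mk_mul, ← QuotientGroup.mk_mul, QuotientGroup.eq, mem_subgroupOf]
    simpa [mul_assoc] using hM _ (inv_mem y.2) _ (inv_mem x.2)⟩
  obtain ⟨ψ, hψ⟩ := (AddChar.exists_apply_ne_zero (α := Additive (K ⧸ M.subgroupOf K))
    (a := Additive.ofMul ((⟨a, ha⟩ : K) : K ⧸ M.subgroupOf K))).2 fun e =>
      haM (mem_subgroupOf.1 ((QuotientGroup.eq_one_iff _).1 e))
  refine ⟨fun x => if h : x ∈ K then ψ (Additive.ofMul ((⟨x, h⟩ : K) : K ⧸ M.subgroupOf K))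
    else 0, ⟨?_, fun x hx y hy => ?_⟩, by simpa [ha] using hψ, fun x hx hxM => ?_⟩
  · beta_reduce
    rw [dif_pos K.one_mem]
    exact ψ.map_zero_eq_one
  · beta_reduce
    rw [dif_pos hx, dif_pos hy, dif_pos (mul_mem hx hy), ← AddChar.map_add_eq_mul]
    rfl
  · beta_reduce
    rw [dif_pos hx, (QuotientGroup.eq_one_iff _).2 (mem_subgroupOf.2 hxM)]
    exact ψ.map_zero_eq_one

variable [Fintype G]

lemma cnt_self (x : G) : cnt x x = Nat.card (centralizer ({x} : Set G)) := by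
  rw [cnt, Nat.card_eq_fintype_card, Fintype.card_subtype]
  congr 1
  ext g
  simp [mem_centralizer_singleton_iff, mul_inv_eq_iff_eq_mul]

lemma cnt_of_isConj {x y : G} (h : IsConj x y) :
    cnt x y = Nat.card (centralizer ({y} : Set G)) := by
  obtain ⟨c, rfl⟩ := isConj_iff.1 h
  rw [← cnt_self, cnt, cnt]
  refine Finset.card_equiv (Equiv.mulRight c⁻¹) fun g => ?_
  simp [mul_assoc]

lemma cnt_of_not {x y : G} (h : ¬ IsConj x y) : cnt x y = 0 := by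
  rw [cnt, Finset.card_eq_zero, Finset.filter_eq_empty_iff]
  exact fun g _ e => h (isConj_iff.2 ⟨g, e⟩)

/-- The number of ways to write `x` as a product of two elements of `I`. -/
noncomputable def prs (I : Finset G) (x : G) : ℕ :=
  ((I ×ˢ I).filter fun z => z.1 * z.2 = x).card

omit [Fintype G] in
lemma prs_conj {I : Finset G} (hI : ∀ g x, g * x * g⁻¹ ∈ I ↔ x ∈ I) (g x : G) :
    prs I (g * x * g⁻¹) = prs I x := by
  refine (Finset.card_equiv ((MulAut.conj g).toEquiv.prodCongr (MulAut.conj g).toEquiv)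
    fun z => ?_).symm
  simp [hI]

lemma quasi_trace {d : ℕ} {E : Matrix (Fin d) (Fin d) ℂ} {c : ℂ} (hc : c ≠ 0)
    (h : E * E = c • E) : ∃ m : ℕ, trace E = c * m ∧ (m = 0 → E = 0) := by
  obtain ⟨m, h1, h2⟩ := idem_trace (A := c⁻¹ • E) (by
    rw [smul_mul_smul_comm, h, smul_smul, mul_assoc, inv_mul_cancel₀ hc, mul_one])
  refine ⟨m, ?_, fun h => by simpa [hc] using h2 h⟩
  rw [← h1, trace_smul, smul_eq_mul, mul_inv_cancel_left₀ hc]

namespace CT

variable (T : CT G)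

lemma multK (i) {K : Subgroup G} {lam : G → ℂ} (h : Lin K lam) :
    ∃ m : ℕ, ∑ k : K, lam k * T.χ i k = Nat.card K * m := by
  obtain ⟨m, hm, -⟩ := T.mult i K.subtype (fun k => lam k) fun a b => h.2 a a.2 b b.2
  exact ⟨m, by rw [Nat.card_eq_fintype_card]; exact hm⟩

lemma pairS (K L : Subgroup G) (s t : G) (a b : G → ℂ) :
    ∑ i, (∑ k : K, a k * T.χ i (s * k)) * (∑ l : L, b l * T.χ i (t * l)⁻¹) =
      ∑ g, ∑ k : K, if t⁻¹ * (g * (s * k) * g⁻¹) ∈ L then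
        a k * b (t⁻¹ * (g * (s * k) * g⁻¹)) else 0 := by
  rw [T.pair]
  simp only [cnt_eq, Finset.mul_sum]
  rw [Finset.sum_comm (s := (univ : Finset G))]
  refine Finset.sum_congr rfl fun k _ => ?_
  rw [Finset.sum_comm]
  refine Finset.sum_congr rfl fun g _ => ?_
  split_ifs with h
  · rw [Finset.sum_eq_single ⟨_, h⟩]
    · simp
    · intro l _ hl
      rw [if_neg fun e => hl (Subtype.ext (by simp [e])), mul_zero]
    · simp
  · refine Finset.sum_eq_zero fun l _ => ?_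
    rw [if_neg fun e => h (by simp [e]), mul_zero]

lemma val {J : Type} [Fintype J] (a : J → ℂ) (x : J → G) (y : G) :
    ∑ i, (∑ j, a j * T.χ i (x j)) * T.χ i y⁻¹ = ∑ j, a j * cnt (x j) y := by
  simpa using T.pair a x (fun _ : Unit => 1) fun _ => y

lemma deg {J : Type} [Fintype J] (a : J → ℂ) (x : J → G) (h : ∀ j, x j = 1 → a j = 0) :
    ∑ i, (∑ j, a j * T.χ i (x j)) * T.d i = 0 := by
  have := T.val a x 1
  simp only [inv_one, χ_one] at this
  rw [this]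
  refine Finset.sum_eq_zero fun j _ => ?_
  by_cases e : x j = 1
  · rw [h j e, zero_mul]
  · rw [cnt_of_not fun h => e (isConj_one_left.1 h), Nat.cast_zero, mul_zero]

lemma cls {J : Type} [Fintype J] (a : J → ℂ) (x : J → G) {t : G} (I : Finset G)
    (hI : ∀ x, x ∈ I ↔ IsConj t x) (ht : t * t = 1) :
    (I.card : ℂ) ^ 2 * ∑ i, (∑ j, a j * T.χ i (x j)) * (T.χ i t ^ 2 / T.d i) =
      Fintype.card G * ∑ j, a j * prs I (x j) := by
  have hinv : ∀ u ∈ I, u⁻¹ = u := fun u hu => by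
    obtain ⟨g, rfl⟩ := isConj_iff.1 ((hI u).1 hu)
    rw [conj_inv, inv_eq_of_mul_eq_one_right ht]
  have hc : ∀ g x, g * x * g⁻¹ ∈ I ↔ x ∈ I := fun g x => by
    simp only [hI]
    exact ⟨fun h => h.trans (isConj_iff.2 ⟨g, rfl⟩ : IsConj x _).symm,
      fun h => h.trans (isConj_iff.2 ⟨g, rfl⟩)⟩
  have h1 : ∀ i, (I.card : ℂ) ^ 2 * (T.χ i t ^ 2 / T.d i) =
      ∑ z ∈ I ×ˢ I, T.χ i (z.1 * z.2)⁻¹ := fun i => by
    rw [← mul_div_assoc, ← T.class_sq i I hI, Finset.sum_product, Finset.sum_comm]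
    refine Finset.sum_congr rfl fun u hu => Finset.sum_congr rfl fun v hv => ?_
    rw [_root_.mul_inv_rev, hinv u hu, hinv v hv]
  rw [Finset.mul_sum]
  simp only [mul_left_comm ((I.card : ℂ) ^ 2), h1, Finset.mul_sum (s := I ×ˢ I)]
  rw [Finset.sum_comm]
  simp only [T.val]
  rw [Finset.sum_comm, Finset.mul_sum]
  refine Finset.sum_congr rfl fun j _ => ?_
  rw [← Finset.mul_sum, mul_left_comm]
  congr 1
  simp only [cnt_eq]
  rw [Finset.sum_comm, ← nsmul_eq_mul, ← Finset.card_univ, ← Finset.sum_const]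
  refine Finset.sum_congr rfl fun g _ => ?_
  rw [← prs_conj hc g, prs, Finset.card_filter]
  push_cast
  exact Finset.sum_congr rfl fun z _ => by simp only [eq_comm]

/-- The value at an involution is an integer with the parity of the degree. -/
lemma χ_invol (i) {t : G} (ht : t * t = 1) : ∃ z : ℤ, T.χ i t = z ∧ 2 ∣ z - T.d i := by
  obtain ⟨m, hm, -⟩ := quasi_trace (E := 1 + T.ρ i t) two_ne_zero (by
    simp only [mul_add, add_mul, ← map_mul, ht, map_one, mul_one, one_mul]; module)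
  refine ⟨2 * m - T.d i, ?_, by omega⟩
  rw [trace_add, trace_one, Fintype.card_fin] at hm
  push_cast
  exact eq_sub_of_add_eq' hm

lemma sum_sq_le (s : Finset (Fin T.n)) : ∑ i ∈ s, T.d i ^ 2 ≤ Fintype.card G := by
  have h := T.reg 1
  simp only [χ_one, if_true, ← sq] at h
  have h' : ∑ i, T.d i ^ 2 = Fintype.card G := by exact_mod_cast h
  exact h' ▸ Finset.sum_le_sum_of_subset (Finset.subset_univ s)

end CT

/-- An integer vector of norm `N + 1` has a nonzero entry. -/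
lemma peel {ι : Type} [DecidableEq ι] {c : ι → ℤ} {s : Finset ι} {N : ℤ}
    (h : ∑ i ∈ s, c i ^ 2 = N) (hN : N ≠ 0) :
    ∃ i ∈ s, c i ≠ 0 ∧ c i ^ 2 ≤ N ∧ ∑ j ∈ s.erase i, c j ^ 2 = N - c i ^ 2 := by
  obtain ⟨i, hi, h0⟩ := Finset.exists_ne_zero_of_sum_ne_zero (h.trans_ne hN)
  rw [← Finset.add_sum_erase _ _ hi] at h
  have : 0 ≤ ∑ j ∈ s.erase i, c j ^ 2 := Finset.sum_nonneg fun _ _ => sq_nonneg _
  exact ⟨i, hi, fun e => h0 (by rw [e]; rfl), by linarith, by linarith⟩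

lemma zero_of_norm {ι : Type} {c : ι → ℤ} {s : Finset ι} (h : ∑ i ∈ s, c i ^ 2 = 0) :
    ∀ i ∈ s, c i = 0 := fun i hi =>
  pow_eq_zero_iff two_ne_zero |>.1
    ((Finset.sum_eq_zero_iff_of_nonneg fun _ _ => sq_nonneg _).1 h i hi)

lemma sq_le_three {a : ℤ} (h0 : a ≠ 0) (h : a ^ 2 ≤ 3) : a = 1 ∨ a = -1 := by
  have h1 : a ≤ 1 := by nlinarith
  have h2 : -1 ≤ a := by nlinarith
  omega

/-- Integer vectors of norm two. -/
lemma norm_two {ι : Type} [DecidableEq ι] {c : ι → ℤ} {s : Finset ι} (h : ∑ i ∈ s, c i ^ 2 = 2) :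
    ∃ i ∈ s, ∃ j ∈ s, i ≠ j ∧ (c i = 1 ∨ c i = -1) ∧ (c j = 1 ∨ c j = -1) ∧
      ∀ F : ι → ℂ, ∑ k ∈ s, c k * F k = c i * F i + c j * F j := by
  obtain ⟨i, hi, i0, i1, h1⟩ := peel h two_ne_zero
  have ci := sq_le_three i0 (by omega)
  have e1 : c i ^ 2 = 1 := by rcases ci with e | e <;> simp [e]
  obtain ⟨j, hj, j0, j1, h2⟩ := peel h1 (by omega)
  have cj := sq_le_three j0 (by omega)
  have e2 : c j ^ 2 = 1 := by rcases cj with e | e <;> simp [e]
  refine ⟨i, hi, j, Finset.mem_of_mem_erase hj, (Finset.ne_of_mem_erase hj).symm, ci, cj,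
    fun F => ?_⟩
  rw [← Finset.add_sum_erase _ _ hi, ← Finset.add_sum_erase _ _ hj, Finset.sum_eq_zero
    fun k hk => by rw [zero_of_norm (h2.trans (by omega)) k hk, Int.cast_zero, zero_mul],
    add_zero]

/-- Integer vectors of norm three. -/
lemma norm_three {ι : Type} [DecidableEq ι] {c : ι → ℤ} {s : Finset ι}
    (h : ∑ i ∈ s, c i ^ 2 = 3) :
    ∃ i ∈ s, ∃ j ∈ s, ∃ k ∈ s, i ≠ j ∧ i ≠ k ∧ j ≠ k ∧ (c i = 1 ∨ c i = -1) ∧
      (c j = 1 ∨ c j = -1) ∧ (c k = 1 ∨ c k = -1) ∧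
      ∀ F : ι → ℂ, ∑ l ∈ s, c l * F l = c i * F i + c j * F j + c k * F k := by
  obtain ⟨i, hi, i0, i1, h1⟩ := peel h three_ne_zero
  have ci := sq_le_three i0 i1
  have e1 : c i ^ 2 = 1 := by rcases ci with e | e <;> simp [e]
  obtain ⟨j, hj, k, hk, hjk, cj, ck, hF⟩ := norm_two (h1.trans (by omega))
  exact ⟨i, hi, j, Finset.mem_of_mem_erase hj, k, Finset.mem_of_mem_erase hk,
    (Finset.ne_of_mem_erase hj).symm, (Finset.ne_of_mem_erase hk).symm, hjk, ci, cj, ck,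
    fun F => by rw [← Finset.add_sum_erase _ _ hi, hF, add_assoc]⟩

end Pool.Agent.Lib.MP_cb9dee_al
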