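import Mathlib

namespace Pool.Agent.Lib.MP_cb9dee_al

namespace D

open Classical in
/-- The indicator of a proposition. -/
noncomputable def ind (p : Prop) : ℚ := if p then 1 else 0

lemma ind_pos {p : Prop} (h : p) : ind p = 1 := if_pos h

lemma ind_neg {p : Prop} (h : ¬ p) : ind p = 0 := if_neg h

lemma ind_congr {p q : Prop} (h : p ↔ q) : ind p = ind q := by rw [propext h]

lemma ind_and (p q : Prop) : ind (p ∧ q) = ind p * ind q := by
  by_cases hp : p <;> by_cases hq : q <;> simp [ind, hp, hq]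

lemma ind_nonneg (p : Prop) : 0 ≤ ind p := by
  by_cases hp : p <;> simp [ind, hp]

lemma ind_le_one (p : Prop) : ind p ≤ 1 := by
  by_cases hp : p <;> simp [ind, hp]

lemma ind_forall {ι : Type*} (I : Finset ι) (p : ι → Prop) :
    ind (∀ i ∈ I, p i) = ∏ i ∈ I, ind (p i) := by
  by_cases h : ∀ i ∈ I, p i
  · rw [ind_pos h, Finset.prod_eq_one fun i hi => ind_pos (h i hi)]
  · rw [ind_neg h]
    push Not at h
    obtain ⟨i, hi, h⟩ := h
    exact (Finset.prod_eq_zero hi (ind_neg h)).symm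

lemma sum_ind {α : Type*} [Fintype α] (p : α → Prop) :
    ∑ a, ind (p a) = Nat.card {a // p a} := by
  classical
  rw [Nat.card_eq_fintype_card, Fintype.card_subtype, Finset.card_filter]
  push_cast
  exact Finset.sum_congr rfl fun a _ => by unfold ind; congr

lemma exists_of_sum_ind_ne {α : Type*} [Fintype α] {p : α → Prop} (f : α → ℚ)
    (h : ∑ a, ind (p a) * f a ≠ 0) : ∃ a, p a ∧ f a ≠ 0 := by
  obtain ⟨a, -, ha⟩ := Finset.exists_ne_zero_of_sum_ne_zero h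
  refine ⟨a, ?_, right_ne_zero_of_mul ha⟩
  by_contra h'
  exact left_ne_zero_of_mul ha (ind_neg h')

lemma affine {α β ι : Type*} [Fintype α] [Fintype β] (I : Finset ι) (w : α → ℚ) (w' : β → ℚ)
    (f : ι → α → ℚ) (f' : ι → β → ℚ)
    (h : ∀ B ⊆ I, ∑ a, w a * ∏ i ∈ B, f i a = ∑ b, w' b * ∏ i ∈ B, f' i b) (c d : ι → ℚ) :
    ∑ a, w a * ∏ i ∈ I, (c i * f i a + d i) = ∑ b, w' b * ∏ i ∈ I, (c i * f' i b + d i) := by
  classical
  simp only [Finset.prod_add, Finset.mul_sum]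
  rw [Finset.sum_comm, Finset.sum_comm (s := Finset.univ)]
  refine Finset.sum_congr rfl fun B hB => ?_
  have := congrArg (· * ((∏ i ∈ B, c i) * ∏ i ∈ I \ B, d i)) (h B (Finset.mem_powerset.1 hB))
  simp only [Finset.sum_mul] at this
  simp only [Finset.prod_mul_distrib]
  convert this using 2 <;> ring

lemma marg {r a b c : ℤ} (hr : 2 ≤ r) (h0 : a + b + c = 0) (h1 : a + b * r + c * r ^ 2 = 0)
    (hb : -r ≤ b) (hb' : b ≤ r) : b = 0 ∧ c = 0 := by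
  have h2 : (r - 1) * (b + (r + 1) * c) = 0 := by linear_combination h1 - h0
  have h3 : b + (r + 1) * c = 0 := (mul_eq_zero.1 h2).resolve_left (by omega)
  have h4 : c = 0 := by
    rcases lt_trichotomy c 0 with h | h | h
    · nlinarith
    · exact h
    · nlinarith
  exact ⟨by rw [h4] at h3; simpa using h3, h4⟩

/-- The numerical conditions on the two three-valued coordinates. -/
def Two (r r' : ℕ) : Prop :=
  7 ≤ r ∧ 7 ≤ r' ∧ ((r % 8 = 3 ∧ r' % 8 = 7) ∨ (r % 8 = 7 ∧ r' % 8 = 3)) ∧ r' ≠ 2 * r + 1 ∧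
    r ≠ 2 * r' + 1

lemma num_aux {a a' : ℤ} (h8 : 8 ≤ a) (h8' : 8 ≤ a')
    (hm : (a % 8 = 4 ∧ a' % 8 = 0) ∨ (a % 8 = 0 ∧ a' % 8 = 4)) (n1 : a' ≠ 2 * a) (n2 : a ≠ 2 * a')
    {d u w : ℤ} (h : d + a * u + a' * w = 0)
    (hb : 2 * |u| + 2 * |w| + |d| + |d + w| + |d + u| + |d + u + w| ≤ 14) : d = 0 ∧ u = 0 ∧ w = 0 := by
  have h4 : d % 4 = 0 := by
    obtain ⟨x, hx⟩ : 4 ∣ a := by omega
    obtain ⟨y, hy⟩ : 4 ∣ a' := by omega
    have : d = 4 * (-(x * u) - y * w) := by rw [hx, hy] at h; linear_combination h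
    omega
  have hd : d = 0 := by
    have k1 : |d| ≤ |d + w| + |w| := by simpa using abs_sub (d + w) w
    have k2 : |d| ≤ |d + u| + |u| := by simpa using abs_sub (d + u) u
    have k3 : |d + u| ≤ |d + u + w| + |w| := by simpa using abs_sub (d + u + w) w
    have k4 : |d| ≤ 3 := by omega
    rw [abs_le] at k4
    omega
  subst hd
  simp only [zero_add, abs_zero, add_zero] at hb h
  have k5 := abs_nonneg (u + w)
  have k6 := abs_nonneg u
  have k7 := abs_nonneg w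
  have hu : |u| ≤ 4 := by omega
  have hw : |w| ≤ 4 := by omega
  obtain ⟨u1, u2⟩ := abs_le.1 hu
  obtain ⟨w1, w2⟩ := abs_le.1 hw
  clear k5 k6 k7 hu hw
  interval_cases u <;> interval_cases w <;> first | omega | (norm_num at hb)

lemma num_bound {r r' : ℤ} (hr : 7 ≤ r) (hr' : 7 ≤ r') (x y z : ℕ) (h : x + y + z ≤ 7) :
    0 ≤ (x : ℤ) + (r + 1) * y + (r' + 1) * z ∧
      (x : ℤ) + (r + 1) * y + (r' + 1) * z < (r + 1) * (r' + 1) := by
  have h1 : (x : ℤ) + y + z ≤ 7 := by exact_mod_cast h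
  have hx : (0 : ℤ) ≤ x := by positivity
  have hy : (0 : ℤ) ≤ y := by positivity
  have hz : (0 : ℤ) ≤ z := by positivity
  refine ⟨by positivity, ?_⟩
  rcases le_total r r' with hle | hle <;> nlinarith

lemma top_zero {A x y d : ℤ} (hx : 0 ≤ x ∧ x < A) (hy : 0 ≤ y ∧ y < A) (h : x - y + A * d = 0) :
    d = 0 := by
  obtain ⟨h1, h2⟩ := hx
  obtain ⟨h3, h4⟩ := hy
  rcases lt_trichotomy d 0 with h5 | h5 | h5
  · nlinarith
  · exact h5
  · nlinarith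

lemma num_two {r r' : ℕ} (h : Two r r') (n m : Fin 3 → Fin 3 → ℕ)
    (hn : ∑ i, ∑ j, n i j ≤ 7) (hm : ∑ i, ∑ j, m i j ≤ 7)
    (e0 : ∑ i, ∑ j, (n i j : ℤ) = ∑ i, ∑ j, (m i j : ℤ))
    (e1 : ∑ i, ∑ j, (n i j : ℤ) * r ^ (i : ℕ) = ∑ i, ∑ j, (m i j : ℤ) * r ^ (i : ℕ))
    (e2 : ∑ i, ∑ j, (n i j : ℤ) * r' ^ (j : ℕ) = ∑ i, ∑ j, (m i j : ℤ) * r' ^ (j : ℕ))
    (e3 : ∑ i, ∑ j, (n i j : ℤ) * (r ^ (i : ℕ) * r' ^ (j : ℕ)) =
      ∑ i, ∑ j, (m i j : ℤ) * (r ^ (i : ℕ) * r' ^ (j : ℕ))) : n = m := by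
  have hr : (7 : ℤ) ≤ r := by exact_mod_cast h.1
  have hr' : (7 : ℤ) ≤ r' := by exact_mod_cast h.2.1
  have aux := @num_aux (r + 1) (r' + 1) (by omega) (by omega) (by have := h.2.2.1; omega)
    (by have := h.2.2.2.1; omega) (by have := h.2.2.2.2; omega)
  clear h
  simp only [Fin.sum_univ_three, Fin.val_zero, Fin.val_one, Fin.val_two, pow_zero, pow_one,
    mul_one, one_mul] at hn hm e0 e1 e2 e3
  have key : ((r : ℤ) - 1) * (r' - 1) * (((n 1 1 : ℤ) - m 1 1) + (r + 1) * ((n 2 1 : ℤ) - m 2 1) +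
      (r' + 1) * ((n 1 2 : ℤ) - m 1 2) + (r + 1) * (r' + 1) * ((n 2 2 : ℤ) - m 2 2)) = 0 := by
    linear_combination e3 - e1 - e2 + e0
  have m1 := @marg r ((n 0 0 + n 0 1 + n 0 2 : ℤ) - (m 0 0 + m 0 1 + m 0 2))
    ((n 1 0 + n 1 1 + n 1 2 : ℤ) - (m 1 0 + m 1 1 + m 1 2))
    ((n 2 0 + n 2 1 + n 2 2 : ℤ) - (m 2 0 + m 2 1 + m 2 2)) (by linarith)
    (by linear_combination e0) (by linear_combination e1)
  have m2 := @marg r' ((n 0 0 + n 1 0 + n 2 0 : ℤ) - (m 0 0 + m 1 0 + m 2 0))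
    ((n 0 1 + n 1 1 + n 2 1 : ℤ) - (m 0 1 + m 1 1 + m 2 1))
    ((n 0 2 + n 1 2 + n 2 2 : ℤ) - (m 0 2 + m 1 2 + m 2 2)) (by linarith)
    (by linear_combination e0) (by linear_combination e2)
  clear e1 e2 e3
  have key2 := (mul_eq_zero.1 key).resolve_left (mul_ne_zero (by linarith :
    (0 : ℤ) < r - 1).ne' (by linarith : (0 : ℤ) < r' - 1).ne')
  have h22 : (n 2 2 : ℤ) - m 2 2 = 0 :=
    top_zero (num_bound hr hr' (n 1 1) (n 2 1) (n 1 2) (by clear key key2 aux m1 m2; omega))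
      (num_bound hr hr' (m 1 1) (m 2 1) (m 1 2) (by clear key key2 aux m1 m2; omega))
      (by linear_combination key2)
  have aux2 := @aux ((n 1 1 : ℤ) - m 1 1) ((n 2 1 : ℤ) - m 2 1) ((n 1 2 : ℤ) - m 1 2)
    (by rw [h22] at key2; linear_combination key2)
  clear key key2 aux
  obtain ⟨a1, a2⟩ := m1 (by clear m2 aux2; omega) (by clear m2 aux2; omega)
  obtain ⟨b1, b2⟩ := m2 (by clear m1 aux2; omega) (by clear m1 aux2; omega)
  clear m1 m2 hr hr'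
  have ab : ∀ {x : ℤ} (y z : ℕ), x = y - z ∨ x = z - y → |x| ≤ y + z := fun y z h =>
    abs_le.2 ⟨by clear * - h; omega, by clear * - h; omega⟩
  have q1 := ab (x := (n 2 1 : ℤ) - m 2 1) (n 2 1) (m 2 1) (Or.inl rfl)
  have q2 := ab (x := (n 2 1 : ℤ) - m 2 1) (n 2 0) (m 2 0) (Or.inr (by linarith))
  have q3 := ab (x := (n 1 2 : ℤ) - m 1 2) (n 1 2) (m 1 2) (Or.inl rfl)
  have q4 := ab (x := (n 1 2 : ℤ) - m 1 2) (n 0 2) (m 0 2) (Or.inr (by linarith))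
  have q5 := ab (x := (n 1 1 : ℤ) - m 1 1) (n 1 1) (m 1 1) (Or.inl rfl)
  have q6 := ab (x := (n 1 1 : ℤ) - m 1 1 + ((n 1 2 : ℤ) - m 1 2)) (n 1 0) (m 1 0)
    (Or.inr (by linarith))
  have q7 := ab (x := (n 1 1 : ℤ) - m 1 1 + ((n 2 1 : ℤ) - m 2 1)) (n 0 1) (m 0 1)
    (Or.inr (by linarith))
  have q8 := ab (x := (n 1 1 : ℤ) - m 1 1 + ((n 2 1 : ℤ) - m 2 1) + ((n 1 2 : ℤ) - m 1 2))
    (n 0 0) (m 0 0) (Or.inl (by linarith))
  have hn' : ((n 0 0 + n 0 1 + n 0 2 + (n 1 0 + n 1 1 + n 1 2) + (n 2 0 + n 2 1 + n 2 2) : ℕ) : ℤ)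
    ≤ 7 := by exact_mod_cast hn
  have hm' : ((m 0 0 + m 0 1 + m 0 2 + (m 1 0 + m 1 1 + m 1 2) + (m 2 0 + m 2 1 + m 2 2) : ℕ) : ℤ)
    ≤ 7 := by exact_mod_cast hm
  push_cast at hn' hm'
  have p1 : (0 : ℤ) ≤ n 2 2 := by positivity
  have p2 : (0 : ℤ) ≤ m 2 2 := by positivity
  obtain ⟨c1, c2, c3⟩ := aux2 (by linarith)
  clear q1 q2 q3 q4 q5 q6 q7 q8 ab aux2 hn hm hn' hm'
  funext i j
  apply Nat.cast_injective (R := ℤ)
  fin_cases i <;> fin_cases j <;> simp only [Fin.zero_eta, Fin.mk_one, Fin.reduceFinMk] <;> linarith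

lemma sum_three {α : Type*} [Fintype α] {r r' : ℕ} (hr : 2 ≤ r) (hr' : 2 ≤ r') (Q : α → Prop)
    (f g : α → ℚ) (hf : ∀ a, Q a → ∃ i : Fin 3, f a = r ^ (i : ℕ))
    (hg : ∀ a, Q a → ∃ j : Fin 3, g a = r' ^ (j : ℕ)) (F : ℚ → ℚ → ℚ) :
    ∑ a, ind (Q a) * F (f a) (g a) = ∑ i : Fin 3, ∑ j : Fin 3,
      (Nat.card {a // Q a ∧ f a = r ^ (i : ℕ) ∧ g a = r' ^ (j : ℕ)} : ℚ) *
        F (r ^ (i : ℕ)) (r' ^ (j : ℕ)) := by
  simp only [← sum_ind, Finset.sum_mul]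
  simp only [Finset.sum_comm (t := (Finset.univ : Finset α))]
  refine Finset.sum_congr rfl fun a _ => ?_
  by_cases h : Q a
  · obtain ⟨i, hi⟩ := hf a h
    obtain ⟨j, hj⟩ := hg a h
    have inj : ∀ {s : ℕ}, 2 ≤ s → ∀ i j : Fin 3, (s : ℚ) ^ (i : ℕ) = s ^ (j : ℕ) → i = j :=
      fun hs i j e => Fin.ext (Nat.pow_right_injective hs (by exact_mod_cast e))
    rw [Finset.sum_eq_single i, Finset.sum_eq_single j, ind_pos h, ind_pos ⟨h, hi, hj⟩, hi, hj]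
    · intro j' _ hj'
      rw [ind_neg fun e => hj' (inj hr' _ _ (e.2.2.symm.trans hj)), zero_mul]
    · simp
    · intro i' _ hi'
      exact Finset.sum_eq_zero fun j' _ => by
        rw [ind_neg fun e => hi' (inj hr _ _ (e.2.1.symm.trans hi)), zero_mul]
    · simp
  · rw [ind_neg h, zero_mul]
    exact (Finset.sum_eq_zero fun i _ => Finset.sum_eq_zero fun j _ => by
      rw [ind_neg fun e => h e.1, zero_mul]).symm

lemma jd_two {α β : Type*} [Fintype α] [Fintype β] {r r' : ℕ} (h : Two r r') (Q : α → Prop)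
    (Q' : β → Prop) (f g : α → ℚ) (f' g' : β → ℚ)
    (hf : ∀ a, Q a → ∃ i : Fin 3, f a = r ^ (i : ℕ))
    (hg : ∀ a, Q a → ∃ j : Fin 3, g a = r' ^ (j : ℕ))
    (hf' : ∀ a, Q' a → ∃ i : Fin 3, f' a = r ^ (i : ℕ))
    (hg' : ∀ a, Q' a → ∃ j : Fin 3, g' a = r' ^ (j : ℕ))
    (hQ : ∑ a, ind (Q a) ≤ 7) (hQ' : ∑ a, ind (Q' a) ≤ 7)
    (e0 : ∑ a, ind (Q a) = ∑ a, ind (Q' a))
    (e1 : ∑ a, ind (Q a) * f a = ∑ a, ind (Q' a) * f' a)
    (e2 : ∑ a, ind (Q a) * g a = ∑ a, ind (Q' a) * g' a)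
    (e3 : ∑ a, ind (Q a) * (f a * g a) = ∑ a, ind (Q' a) * (f' a * g' a)) (F : ℚ → ℚ → ℚ) :
    ∑ a, ind (Q a) * F (f a) (g a) = ∑ a, ind (Q' a) * F (f' a) (g' a) := by
  have h2 : 2 ≤ r := by have := h.1; omega
  have h2' : 2 ≤ r' := by have := h.2.1; omega
  have s := sum_three h2 h2' Q f g hf hg
  have s' := sum_three h2 h2' Q' f' g' hf' hg'
  have t := s fun _ _ => 1
  have t' := s' fun _ _ => 1
  simp only [mul_one] at t t'
  rw [t] at hQ e0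
  rw [t'] at hQ' e0
  rw [s fun x _ => x, s' fun x _ => x] at e1
  rw [s fun _ y => y, s' fun _ y => y] at e2
  rw [s fun x y => x * y, s' fun x y => x * y] at e3
  have := num_two h
    (fun i j => Nat.card {a // Q a ∧ f a = r ^ (i : ℕ) ∧ g a = r' ^ (j : ℕ)})
    (fun i j => Nat.card {a // Q' a ∧ f' a = r ^ (i : ℕ) ∧ g' a = r' ^ (j : ℕ)})
    (by exact_mod_cast hQ) (by exact_mod_cast hQ') (by exact_mod_cast e0)
    (by exact_mod_cast e1) (by exact_mod_cast e2) (by exact_mod_cast e3)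
  rw [s, s']
  exact Finset.sum_congr rfl fun i _ => Finset.sum_congr rfl fun j _ => by
    rw [show Nat.card _ = Nat.card _ from congrFun (congrFun this i) j]

/-- The multilinear moments determine the joint distribution. -/
lemma jd {α β : Type*} [Fintype α] [Fintype β] {r r' : ℕ} (h : Two r r') (Q : α → Prop)
    (Q' : β → Prop) (f : ℕ → α → ℚ) (f' : ℕ → β → ℚ) (J : Finset ℕ) (hr : r ∉ J) (hr' : r' ∉ J)
    (hf : ∀ a, Q a → ∃ i : Fin 3, f r a = r ^ (i : ℕ))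
    (hg : ∀ a, Q a → ∃ j : Fin 3, f r' a = r' ^ (j : ℕ))
    (hf' : ∀ a, Q' a → ∃ i : Fin 3, f' r a = r ^ (i : ℕ))
    (hg' : ∀ a, Q' a → ∃ j : Fin 3, f' r' a = r' ^ (j : ℕ))
    (hQ : ∑ a, ind (Q a) ≤ 7) (hQ' : ∑ a, ind (Q' a) ≤ 7)
    (h2 : ∀ i ∈ J, ∃ u v, (∀ a, Q a → f i a = u ∨ f i a = v) ∧ ∀ a, Q' a → f' i a = u ∨ f' i a = v)
    (mom : ∀ B : Finset ℕ, ∑ a, ind (Q a) * ∏ i ∈ B, f i a = ∑ a, ind (Q' a) * ∏ i ∈ B, f' i a)
    (t : ℕ → ℚ) :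
    ∑ a, ind (Q a ∧ ∀ i ∈ insert r (insert r' J), f i a = t i) =
      ∑ a, ind (Q' a ∧ ∀ i ∈ insert r (insert r' J), f' i a = t i) := by
  classical
  have hne : r ≠ r' := by
    rintro rfl
    have := h.2.2.1
    omega
  choose! u v huv using h2
  let c : ℕ → ℚ := fun i => (ind (u i = t i) - ind (v i = t i)) / (u i - v i)
  let d : ℕ → ℚ := fun i => ind (u i = t i) - c i * u i
  have hcd : ∀ i x, x = u i ∨ x = v i → c i * x + d i = ind (x = t i) := by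
    rintro i x (rfl | rfl)
    · simp [d]
    · by_cases e : u i = v i
      · simp [d, e]
      · have := sub_ne_zero.2 e
        simp only [c, d]
        field_simp
        ring
  have w1 : ∀ a, ind (Q a ∧ ∀ i ∈ J, f i a = t i) = ind (Q a) * ∏ i ∈ J, (c i * f i a + d i) := by
    intro a
    by_cases ha : Q a
    · rw [ind_and, ind_forall]
      congr 1
      exact Finset.prod_congr rfl fun i hi => (hcd i _ ((huv i hi).1 a ha)).symm
    · rw [ind_and, ind_neg ha, zero_mul, zero_mul]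
  have w2 : ∀ a, ind (Q' a ∧ ∀ i ∈ J, f' i a = t i) =
      ind (Q' a) * ∏ i ∈ J, (c i * f' i a + d i) := by
    intro a
    by_cases ha : Q' a
    · rw [ind_and, ind_forall]
      congr 1
      exact Finset.prod_congr rfl fun i hi => (hcd i _ ((huv i hi).2 a ha)).symm
    · rw [ind_and, ind_neg ha, zero_mul, zero_mul]
  have key : ∀ C : Finset ℕ, Disjoint C J →
      ∑ a, ind (Q a ∧ ∀ i ∈ J, f i a = t i) * ∏ i ∈ C, f i a =
        ∑ a, ind (Q' a ∧ ∀ i ∈ J, f' i a = t i) * ∏ i ∈ C, f' i a := by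
    intro C hC
    have := affine J (fun a => ind (Q a) * ∏ i ∈ C, f i a) (fun a => ind (Q' a) * ∏ i ∈ C, f' i a)
      f f' (fun B hB => by
        have := mom (C ∪ B)
        simpa only [Finset.prod_union (hC.mono_right hB), mul_assoc] using this) c d
    simp only [w1, w2]
    convert this using 2 <;> ring
  have le1 : ∀ {γ : Type _} [Fintype γ] (p q : γ → Prop), ∑ a, ind (p a ∧ q a) ≤ ∑ a, ind (p a) :=
    fun p q => Finset.sum_le_sum fun a _ => by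
      rw [ind_and]; exact mul_le_of_le_one_right (ind_nonneg _) (ind_le_one _)
  have le2 : ∀ {γ : Type _} [Fintype γ] (p q : γ → Prop), ∑ a, ind (p a ∧ q a) ≤ ∑ a, ind (p a) :=
    fun p q => Finset.sum_le_sum fun a _ => by
      rw [ind_and]; exact mul_le_of_le_one_right (ind_nonneg _) (ind_le_one _)
  have fin := jd_two h (fun a => Q a ∧ ∀ i ∈ J, f i a = t i) (fun a => Q' a ∧ ∀ i ∈ J, f' i a = t i)
    (f r) (f r') (f' r) (f' r') (fun a ha => hf a ha.1) (fun a ha => hg a ha.1)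
    (fun a ha => hf' a ha.1) (fun a ha => hg' a ha.1) ((le1 _ _).trans hQ) ((le2 _ _).trans hQ')
    (by simpa using key ∅ (by simp)) (by simpa using key {r} (by simpa using hr))
    (by simpa using key {r'} (by simpa using hr'))
    (by simpa [Finset.prod_pair hne] using key {r, r'} (by simp [hr, hr']))
    fun x y => ind (x = t r ∧ y = t r')
  simp only [← ind_and] at fin
  convert fin using 3 <;> simp only [Finset.forall_mem_insert] <;> tauto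

/-- One coordinate: the sum determines the set of values. -/
lemma jd_one {α β : Type*} [Fintype α] [Fintype β] {r : ℕ} (hr : 2 ≤ r) (Q : α → Prop)
    (Q' : β → Prop) (f : α → ℚ) (f' : β → ℚ)
    (hf : ∀ a, Q a → ∃ i : Fin 3, f a = r ^ (i : ℕ))
    (hf' : ∀ a, Q' a → ∃ i : Fin 3, f' a = r ^ (i : ℕ))
    (hQ : ∑ a, ind (Q a) ≤ r) (hQ' : ∑ a, ind (Q' a) ≤ r)
    (e0 : ∑ a, ind (Q a) = ∑ a, ind (Q' a))
    (e1 : ∑ a, ind (Q a) * f a = ∑ a, ind (Q' a) * f' a) (F : ℚ → ℚ) :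
    ∑ a, ind (Q a) * F (f a) = ∑ a, ind (Q' a) * F (f' a) := by
  have s := fun F : ℚ → ℚ => sum_three hr hr Q f (fun _ => 1) hf (fun _ _ => ⟨0, by simp⟩)
    fun x _ => F x
  have s' := fun F : ℚ → ℚ => sum_three hr hr Q' f' (fun _ => 1) hf' (fun _ _ => ⟨0, by simp⟩)
    fun x _ => F x
  simp only [← Finset.sum_mul, ← Nat.cast_sum] at s s'
  have t := s fun _ => 1
  have t' := s' fun _ => 1
  simp only [mul_one] at t t'
  rw [t] at hQ e0
  rw [t'] at hQ' e0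
  rw [s fun x => x, s' fun x => x] at e1
  rw [s, s']
  obtain ⟨n, hn⟩ : ∃ n : Fin 3 → ℕ, ∀ i, n i = ∑ j : Fin 3,
    Nat.card {a // Q a ∧ f a = r ^ (i : ℕ) ∧ (1 : ℚ) = r ^ (j : ℕ)} := ⟨_, fun _ => rfl⟩
  obtain ⟨m, hm⟩ : ∃ n : Fin 3 → ℕ, ∀ i, n i = ∑ j : Fin 3,
    Nat.card {a // Q' a ∧ f' a = r ^ (i : ℕ) ∧ (1 : ℚ) = r ^ (j : ℕ)} := ⟨_, fun _ => rfl⟩
  simp only [← hn, ← hm] at hQ hQ' e0 e1 ⊢
  simp only [Fin.sum_univ_three, Fin.val_zero, Fin.val_one, Fin.val_two, pow_zero, pow_one,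
    mul_one] at hQ hQ' e0 e1 ⊢
  have hQ1 : n 0 + n 1 + n 2 ≤ r := by exact_mod_cast hQ
  have hQ2 : m 0 + m 1 + m 2 ≤ r := by exact_mod_cast hQ'
  have e0' : n 0 + n 1 + n 2 = m 0 + m 1 + m 2 := by exact_mod_cast e0
  have e1' : (n 0 : ℤ) + n 1 * r + n 2 * r ^ 2 = m 0 + m 1 * r + m 2 * r ^ 2 := by
    exact_mod_cast e1
  obtain ⟨a1, a2⟩ := marg (r := r) (a := (n 0 : ℤ) - m 0) (b := (n 1 : ℤ) - m 1)
    (c := (n 2 : ℤ) - m 2) (by omega) (by omega) (by linear_combination e1') (by omega) (by omega)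
  rw [show n 0 = m 0 by omega, show n 1 = m 1 by omega, show n 2 = m 2 by omega]

end D

end Pool.Agent.Lib.MP_cb9dee_al
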