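import Pool.Agent.Lib.MP_cb9dee_al.Types
import Pool.Agent.Lib.MP_cb9dee_al.DBase

namespace Pool.Agent.Lib.MP_cb9dee_al

namespace D

variable {n : ℕ}

lemma odd_mod {p : ℕ} (hp : p.Prime) (h2 : p ≠ 2) : p % 2 = 1 :=
  hp.eq_two_or_odd.resolve_left h2

lemma three_mod (h : Full n) (h4 : 4 ∣ n) {p : ℕ} (hp : p.Prime) (h2 : p ≠ 2) (hd : p ^ 2 ∣ n) :
    p % 4 = 3 := by
  have h1 := (h.2.2.2.2.2.1 h4).2.2.1 p hp h2 hd
  have := odd_mod hp h2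
  omega

lemma alpha_uniq (h : Full n) {q p p' : ℕ} (hq : q.Prime) (h2 : q ≠ 2) (hd : q ∣ n)
    (hp : p.Prime) (hp' : p'.Prime) (d : p ∣ n) (d' : p' ∣ n) (e : q ∣ p - 1) (e' : q ∣ p' - 1) :
    p = p' := by
  by_cases h3 : q = 3
  · subst h3
    exact h.2.2.2.1 hd ⟨hp, d, e⟩ ⟨hp', d', e'⟩
  · exact h.2.2.1 q hq (hq.five_le_of_ne_two_of_ne_three h2 h3) hd ⟨hp, Or.inl ⟨d, e⟩⟩
      ⟨hp', Or.inl ⟨d', e'⟩⟩

/-- The exceptional case: an odd prime acting on two different primes. -/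
lemma two_targets (h : Full n) (h4 : 4 ∣ n) {q p p' : ℕ} (hq : q.Prime) (h2 : q ≠ 2) (hd : q ∣ n)
    (hp : p ∈ Acted q n) (hp' : p' ∈ Acted q n) (p2 : p ≠ 2) (p2' : p' ≠ 2) (hne : p ≠ p') :
    q = 3 ∧ ∃ t, (t = p ∨ t = p') ∧ t ^ 2 ∣ n ∧ ∀ r, r.Prime → r ≠ 2 → r ≠ t → r ∣ n →
      r % 4 = 3 ∧ ¬ r ^ 2 ∣ n := by
  obtain rfl : q = 3 := by
    by_contra h3
    exact hne (h.2.2.1 q hq (hq.five_le_of_ne_two_of_ne_three h2 h3) hd hp hp')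
  obtain ⟨-, -, -, k4, k5, k6⟩ := h.2.2.2.2.2.1 h4
  have twelve : ∀ t, t.Prime → t ≠ 2 → t ^ 2 ∣ n → 3 ∣ t + 1 → 12 ∣ t + 1 := fun t a b c d => by
    have := three_mod h h4 a b c
    omega
  have key : ∀ u t, u.Prime → t.Prime → t ≠ 2 → u ∣ n → 3 ∣ u - 1 → t ^ 2 ∣ n → 3 ∣ t + 1 →
      ∀ r, r.Prime → r ≠ 2 → r ≠ t → r ∣ n → r % 4 = 3 ∧ ¬ r ^ 2 ∣ n := by
    intro u t hu ht t2 a b c d r hr r2 rt rn
    have h1 := k6 hd t u r ht hu hr c (twelve t ht t2 c d) a b rn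
    have h5 := odd_mod hr r2
    refine ⟨by omega, fun h6 => rt ?_⟩
    have h7 : r ≠ 3 := fun e => k4 t 3 ht hq t2 h2 c (e ▸ h6) d
    have h8 := h.2.1 r 3 hr hq h2 hd h6 r2
    have h9 : ¬ 3 ∣ r := fun e => h7 ((Nat.prime_dvd_prime_iff_eq hq hr).1 e).symm
    have h10 : 3 ∣ r + 1 := by
      obtain ⟨r, rfl⟩ := Nat.exists_eq_succ_of_ne_zero hr.ne_zero
      clear * - h8 h9
      omega
    exact k5 hd ⟨hr, h6, twelve r hr r2 h6 h10⟩ ⟨ht, c, twelve t ht t2 c d⟩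
  refine ⟨rfl, ?_⟩
  rcases hp with ⟨hp, ⟨a, b⟩ | ⟨a, b⟩⟩ <;> rcases hp' with ⟨hp', ⟨a', b'⟩ | ⟨a', b'⟩⟩
  · exact (hne (h.2.2.2.1 hd ⟨hp, a, b⟩ ⟨hp', a', b'⟩)).elim
  · exact ⟨p', Or.inr rfl, a', key p p' hp hp' p2' a b a' b'⟩
  · exact ⟨p, Or.inl rfl, a, key p' p hp' hp p2 a' b' a b⟩
  · exact (hne (k5 hd ⟨hp, a, twelve p hp p2 a b⟩ ⟨hp', a', twelve p' hp' p2' a' b'⟩)).elim

lemma exists_two_primes (h : Full n) (h8 : 8 ∣ n) :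
    ∃ r r', Two r r' ∧ ∀ p, p.Prime → p ≠ 2 → p ^ 2 ∣ n → p = r ∨ p = r' := by
  have h4 : 4 ∣ n := (by norm_num : (4 : ℕ) ∣ 8).trans h8
  obtain ⟨k1, k2, -⟩ := h.2.2.2.2.2.2 h8
  have big : ∀ p, p.Prime → p ≠ 2 → p ^ 2 ∣ n → p % 4 = 3 ∧ 7 ≤ p := fun p a b c => by
    have h1 := three_mod h h4 a b c
    have h3 : p ≠ 3 := fun e => k1 (by rw [e] at c; exact c)
    omega
  by_cases h0 : ∃ p, p.Prime ∧ p ≠ 2 ∧ p ^ 2 ∣ n
  · obtain ⟨p, a, b, c⟩ := h0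
    have h1 := big p a b c
    by_cases h3 : ∃ q, q.Prime ∧ q ≠ 2 ∧ q ^ 2 ∣ n ∧ q ≠ p
    · obtain ⟨q, a', b', c', d⟩ := h3
      have h5 := big q a' b' c'
      have h6 := mt (k2 q p a' a b' b c' c) d
      have dv : ∀ {x : ℕ}, x ^ 2 ∣ n → x ∣ n := fun h => (dvd_pow_self _ two_ne_zero).trans h
      refine ⟨p, q, ⟨h1.2, h5.2, by omega, fun e => h.2.1 q p a' a b (dv c) c' b' ⟨2, by omega⟩,
        fun e => h.2.1 p q a a' b' (dv c') c b ⟨2, by omega⟩⟩, fun r x y z => ?_⟩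
      have h7 := big r x y z
      by_cases e : r % 8 = p % 8
      · exact Or.inl (k2 r p x a y b z c e)
      · exact Or.inr (k2 r q x a' y b' z c' (by omega))
    · refine ⟨p, p + 4, ⟨h1.2, by omega, by omega, by omega, by omega⟩, fun r x y z => Or.inl ?_⟩
      by_contra e
      exact h3 ⟨r, x, y, z, e⟩
  · exact ⟨7, 11, by unfold Two; omega, fun p a b c => (h0 ⟨p, a, b, c⟩).elim⟩

/-- The system of congruences for the exponent has a solution. -/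
lemma solve (h : Full n) (h4 : 4 ∣ n) {N : ℕ} (hN : N = 4 ∨ N = 8) (hNn : N ∣ n) (I : Set ℕ)
    (c k : ℕ → ℕ) (hI : ∀ p ∈ I, p.Prime ∧ p ≠ 2 ∧ p ∣ n ∧ (c p = p ∨ (c p = p ^ 2 ∧ p ^ 2 ∣ n)) ∧
      Odd (k p)) :
    ∃ l, Odd l ∧ ∀ p ∈ I, l ≡ k p [MOD N.gcd (c p - 1)] ∨ l ≡ k p * p [MOD N.gcd (c p - 1)] := by
  have gN : ∀ p l m, l % N = m % N → l ≡ m [MOD N.gcd (c p - 1)] := fun p l m e =>
    Nat.ModEq.of_dvd (Nat.gcd_dvd_left _ _) e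
  have mul8 : ∀ a p : ℕ, a % 2 = 1 → p % 4 = 3 → (a * p) % 2 = 1 ∧ (a * p + a) % 4 = 0 ∧
      (p % 8 = 3 → a * p % 8 = a * 3 % 8) ∧ (p % 8 = 7 → a * p % 8 = a * 7 % 8) := by
    intro a p ha hp
    obtain ⟨m, rfl⟩ : ∃ m, p = 4 * m + 3 := ⟨p / 4, by omega⟩
    obtain ⟨b, rfl⟩ : ∃ b, a = 2 * b + 1 := ⟨a / 2, by omega⟩
    have : (2 * b + 1) * (4 * m + 3) = 8 * (b * m) + 6 * b + 4 * m + 3 := by ring
    omega
  have small : ∀ p ∈ I, c p = p → p % 4 = 3 → ∀ l, Odd l → l ≡ k p [MOD N.gcd (c p - 1)] := by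
    intro p hp e h3 l hl
    have h1 : N.gcd (c p - 1) ∣ 2 := by
      have a1 : N.gcd (c p - 1) ∣ 2 ^ 3 := (Nat.gcd_dvd_left _ _).trans
        (by rcases hN with rfl | rfl <;> norm_num)
      have a2 := Nat.gcd_dvd_right N (c p - 1)
      obtain ⟨i, hi, e'⟩ := (Nat.dvd_prime_pow Nat.prime_two).1 a1
      rw [e'] at a2 ⊢
      rw [e] at a2
      interval_cases i <;> omega
    exact Nat.ModEq.of_dvd h1 ((Nat.odd_iff.1 hl).trans (Nat.odd_iff.1 (hI p hp).2.2.2.2).symm)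
  have sq : ∀ p ∈ I, c p ≠ p → p ^ 2 ∣ n ∧ p % 4 = 3 := fun p hp e => by
    obtain ⟨a, b, -, d, -⟩ := hI p hp
    exact ⟨(d.resolve_left e).2, three_mod h h4 a b (d.resolve_left e).2⟩
  have ko : ∀ p ∈ I, k p % 2 = 1 := fun p hp => Nat.odd_iff.1 (hI p hp).2.2.2.2
  have po : ∀ p ∈ I, p % 2 = 1 := fun p hp => odd_mod (hI p hp).1 (hI p hp).2.1
  have one : ∀ p ∈ I, ∀ q ∈ I, p % 4 = 1 → q % 4 = 1 → p = q := fun p hp q hq a b =>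
    (h.2.2.2.2.2.1 h4).2.1 ⟨(hI p hp).1, (hI p hp).2.2.1, by omega⟩
      ⟨(hI q hq).1, (hI q hq).2.2.1, by omega⟩
  suffices hs : ∃ l, l % 2 = 1 ∧ (∀ p ∈ I, p % 4 = 1 → l ≡ k p [MOD N.gcd (c p - 1)]) ∧
      ∀ p ∈ I, c p ≠ p → l % N = k p % N ∨ l % N = k p * p % N by
    obtain ⟨l, l1, l2, l3⟩ := hs
    refine ⟨l, Nat.odd_iff.2 l1, fun p hp => ?_⟩
    by_cases e : c p = p
    · by_cases e' : p % 4 = 1
      · exact Or.inl (l2 p hp e')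
      · exact Or.inl (small p hp e (by have := po p hp; omega) l (Nat.odd_iff.2 l1))
    · exact (l3 p hp e).imp (gN p _ _) (gN p _ _)
  rcases hN with rfl | rfl
  · have four : ∀ l, l % 2 = 1 → ∀ p ∈ I, c p ≠ p → l % 4 = k p % 4 ∨ l % 4 = k p * p % 4 := by
      intro l hl p hp e
      have := mul8 (k p) p (ko p hp) (sq p hp e).2
      have := ko p hp
      omega
    by_cases h1 : ∃ r ∈ I, r % 4 = 1
    · obtain ⟨r, hr, h1⟩ := h1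
      exact ⟨k r, ko r hr, fun p hp e => by rw [one p hp r hr e h1], four _ (ko r hr)⟩
    · exact ⟨1, rfl, fun p hp e => (h1 ⟨p, hp, e⟩).elim, four 1 rfl⟩
  obtain ⟨-, k2, k3, k4, -⟩ := h.2.2.2.2.2.2 hNn
  have res : ∀ p ∈ I, ∀ q ∈ I, c p ≠ p → c q ≠ q → p % 8 = q % 8 → p = q := fun p hp q hq a b =>
    k2 p q (hI p hp).1 (hI q hq).1 (hI p hp).2.1 (hI q hq).2.1 (sq p hp a).1 (sq q hq b).1
  by_cases h0 : ∃ t ∈ I, c t ≠ t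
  swap
  · by_cases h1 : ∃ r ∈ I, r % 4 = 1
    · obtain ⟨r, hr, h1⟩ := h1
      exact ⟨k r, ko r hr, fun p hp e => by rw [one p hp r hr e h1],
        fun p hp e => (h0 ⟨p, hp, e⟩).elim⟩
    · exact ⟨1, rfl, fun p hp e => (h1 ⟨p, hp, e⟩).elim, fun p hp e => (h0 ⟨p, hp, e⟩).elim⟩
  obtain ⟨t, ht, ct⟩ := h0
  have m1 := mul8 (k t) t (ko t ht) (sq t ht ct).2
  have t1 := ko t ht
  have t2 := (sq t ht ct).2
  by_cases h5 : ∃ u ∈ I, c u ≠ u ∧ u ≠ t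
  · obtain ⟨u, hu, cu, ut⟩ := h5
    have m2 := mul8 (k u) u (ko u hu) (sq u hu cu).2
    have u1 := ko u hu
    have u2 := (sq u hu cu).2
    have u3 := mt (res u hu t ht cu ct) ut
    obtain ⟨l, l1, l2, l3⟩ : ∃ l, l % 2 = 1 ∧ (l % 8 = k t % 8 ∨ l % 8 = k t * t % 8) ∧
        (l % 8 = k u % 8 ∨ l % 8 = k u * u % 8) := by
      by_cases e : k t % 8 = k u % 8 ∨ k t % 8 = k u * u % 8
      · exact ⟨k t, t1, Or.inl rfl, e⟩
      · refine ⟨k t * t, m1.1, Or.inr rfl, ?_⟩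
        have a1 : k t % 8 = 1 ∨ k t % 8 = 3 ∨ k t % 8 = 5 ∨ k t % 8 = 7 := by omega
        have a2 : k u % 8 = 1 ∨ k u % 8 = 3 ∨ k u % 8 = 5 ∨ k u % 8 = 7 := by omega
        have a3 : (t % 8 = 3 ∧ u % 8 = 7) ∨ (t % 8 = 7 ∧ u % 8 = 3) := by omega
        rw [Nat.mul_mod (k u)] at e ⊢
        rw [Nat.mul_mod (k t)]
        rcases a1 with a1 | a1 | a1 | a1 <;> rcases a2 with a2 | a2 | a2 | a2 <;>
          rcases a3 with ⟨a3, a4⟩ | ⟨a3, a4⟩ <;> rw [a1, a2, a4] at e <;> rw [a1, a2, a3, a4] <;>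
          omega
    refine ⟨l, l1, fun p hp e => (k4 u t p (hI u hu).1 (hI t ht).1 (hI p hp).1 (hI u hu).2.1
      (hI t ht).2.1 ut (sq u hu cu).1 (sq t ht ct).1 (hI p hp).2.2.1 (by omega)).elim,
      fun p hp e => ?_⟩
    have p2 := (sq p hp e).2
    by_cases e' : p % 8 = t % 8
    · rw [res p hp t ht e ct e']; exact l2
    · rw [res p hp u hu e cu (by omega)]; exact l3
  have only : ∀ p ∈ I, c p ≠ p → p = t := fun p hp e => by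
    by_contra e'
    exact h5 ⟨p, hp, e, e'⟩
  by_cases h1 : ∃ r ∈ I, r % 4 = 1
  · obtain ⟨r, hr, h1⟩ := h1
    have r1 := ko r hr
    have r2 := k3 t r (hI t ht).1 (hI r hr).1 (hI t ht).2.1 (sq t ht ct).1 (hI r hr).2.2.1
    have r3 : c r = r := by
      by_contra e
      have := (sq r hr e).2
      omega
    have r4 : Nat.gcd 8 (c r - 1) ∣ 4 := by
      have a1 : Nat.gcd 8 (c r - 1) ∣ 2 ^ 3 := Nat.gcd_dvd_left _ _
      have a2 := Nat.gcd_dvd_right 8 (c r - 1)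
      obtain ⟨i, hi, e'⟩ := (Nat.dvd_prime_pow Nat.prime_two).1 a1
      rw [e'] at a2 ⊢
      rw [r3] at a2
      interval_cases i <;> omega
    obtain ⟨l, l1, l2, l3⟩ : ∃ l, l % 2 = 1 ∧ (l % 8 = k t % 8 ∨ l % 8 = k t * t % 8) ∧
        l % 4 = k r % 4 := by
      by_cases e : k t % 4 = k r % 4
      · exact ⟨k t, t1, Or.inl rfl, e⟩
      · exact ⟨k t * t, m1.1, Or.inr rfl, by omega⟩
    exact ⟨l, l1, fun p hp e => by rw [one p hp r hr e h1]; exact Nat.ModEq.of_dvd r4 l3,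
      fun p hp e => by rw [only p hp e]; exact l2⟩
  · exact ⟨k t, t1, fun p hp e => (h1 ⟨p, hp, e⟩).elim,
      fun p hp e => by rw [only p hp e]; exact Or.inl rfl⟩

end D

end Pool.Agent.Lib.MP_cb9dee_al
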