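import Pool.Agent.Lib.MP_cb9dee_al.Steps

namespace Pool.Agent.Lib.MP_cb9dee_al

open Subgroup Pointwise

variable {G H : Type} [Group G] [Group H] [Finite G] [Finite H]

/-- Equivariance for the chosen involutions. -/
def TE (A : Sys G) (B : Sys H) {r : ℕ} (δ : (A.R r : Subgroup G) ≃* (B.R r : Subgroup H)) : Prop :=
  ∀ τ σ, IsCj τ A.t → IsCj σ B.t → ∀ x, δ (τ x) = σ (δ x)

omit [Finite G] [Finite H] in
lemma TE.of {A : Sys G} {B : Sys H} {r : ℕ} {δ : (A.R r : Subgroup G) ≃* (B.R r : Subgroup H)}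
    {τ σ} (hτ : IsCj τ A.t) (hσ : IsCj σ B.t) (h : ∀ x, δ (τ x) = σ (δ x)) : TE A B δ :=
  fun _ _ h1 h2 => h1.unique hτ ▸ h2.unique hσ ▸ h

lemma mod_step (c : Ctx G H) (A : Sys G) (B : Sys H) {p : ℕ} (hp : A.PP p) :
    ∃ β : (A.R p : Subgroup G) ≃* (B.R p : Subgroup H), TE A B β ∧
      ∃ U : Subgroup (MulAut (B.R p : Subgroup H)), IsCyclic U ∧
      (∀ b ∈ B.acts p, b ∈ U) ∧ (∀ a ∈ A.acts p, MulAut.congr β a ∈ U) ∧
      (Nat.card (B.R p : Subgroup H) = p ^ 2 → ∃ ρ : MulAut (B.R p : Subgroup H),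
        (∀ σ, IsCj σ B.t → ρ * σ = σ * ρ) ∧ ∀ b ∈ B.acts p, ρ * b * ρ⁻¹ = b⁻¹) := by
  have := Fact.mk hp.1
  obtain ⟨τ, hτ⟩ := A.exists_tau hp.1 hp.2.1
  obtain ⟨σ, hσ⟩ := B.exists_tau hp.1 hp.2.1
  obtain ⟨β, h1, U, h2, h3, h4, h5⟩ := mod_match hp.1 hp.2.1 (c.card_sylow hp.1 _ _)
    (card_sylow_cases c.small (A.R p) hp.2.2.1) ⟨c.isCyclic hp.1 _, c.symm.isCyclic hp.1 _⟩
    (A.tau_sq hτ) (B.tau_sq hσ)
    (by rw [hτ.card_fixS, hσ.card_fixS, c.card_fix A B hp.1 hp.2.1]) (A.acts p) (B.acts p)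
    (fun a => A.good c.small hp) (fun b => B.good c.symm.small (c.pp B hp)) A.acts_comm B.acts_comm
    (A.acts_conj hτ) (B.acts_conj hσ) ⟨c.acts_triv A B hp, c.symm.acts_triv B A (c.pp B hp)⟩
  refine ⟨β, TE.of hτ hσ h1, U, h2, h3, h4, fun h => ?_⟩
  obtain ⟨ρ, k1, k2⟩ := h5 h
  exact ⟨ρ, fun σ' h' => h'.unique hσ ▸ k1, k2⟩

lemma exists_orderOf_dvd {W : Type*} [Group W] {q : ℕ} (hq : q.Prime) {w : W} {m : ℕ}
    (h : w ^ q ^ m = 1) (k : ℕ) (hk : w ^ q ^ k ≠ 1) : q ^ (k + 1) ∣ orderOf w := by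
  obtain ⟨j, -, hj⟩ := (Nat.dvd_prime_pow hq).1 (orderOf_dvd_of_pow_eq_one h)
  rw [Ne, ← orderOf_dvd_iff_pow_eq_one, hj, Nat.pow_dvd_pow_iff_le_right hq.one_lt] at hk
  rw [hj]
  exact pow_dvd_pow q (by omega)

lemma acted_of_ne (A : Sys G) (hs : Small (Nat.card G)) {p q : ℕ} (hp : A.PP p) (hq : A.NN q)
    {x : G} (hx : x ∈ A.R q) (k : ℕ) (h : cjN _ hp.2.2.2 x ^ q ^ k ≠ 1) :
    q ^ (k + 1) ∣ Nat.card G ∧ (Nat.card (A.R p : Subgroup G) = p → q ^ (k + 1) ∣ p - 1) ∧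
      p ∈ Acted (q ^ (k + 1)) (Nat.card G) := by
  have := Fact.mk hq.1
  have h1 := exists_orderOf_dvd hq.1 (w := cjN _ hp.2.2.2 x) (m := (Nat.card G).factorization q)
    (by rw [← map_pow, pow_eq_one_of_mem_sylow _ hx, map_one]) k h
  exact ⟨h1.trans ((isCj_cjN _ x).orderOf_dvd.trans (orderOf_dvd_natCard x)),
    A.mem_acted hs hp ⟨q, x, hq, hx, isCj_cjN _ x⟩ h1⟩

lemma ker_step (c : Ctx G H) (hn : Cond (Nat.card G)) (A : Sys G) (B : Sys H) {q : ℕ}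
    (hq : A.NN q) : ∃ α : (A.R q : Subgroup G) ≃* (B.R q : Subgroup H), TE A B α ∧
      ∀ p, A.PP p → ∀ x, x ∈ A.kr q p ↔ α x ∈ B.kr q p := by
  have := Fact.mk hq.1
  obtain ⟨τ, hτ⟩ := A.exists_tau hq.1 hq.2.1
  obtain ⟨σ, hσ⟩ := B.exists_tau hq.1 hq.2.1
  have hcs := c.card_sylow hq.1 (A.R q) (B.R q)
  have hf : Nat.card (fixS τ) = Nat.card (fixS σ) := by
    rw [hτ.card_fixS, hσ.card_fixS, c.card_fix A B hq.1 hq.2.1]
  obtain ⟨α, h1, h2⟩ := ker_match hq.1 hq.2.1 hcs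
    (card_sylow_dvd c.small (A.R q)) ⟨c.isCyclic hq.1 _, c.symm.isCyclic hq.1 _⟩
    (A.tau_sq hτ) (B.tau_sq hσ) hf (J := {p // A.PP p}) (fun p => A.kr q p) (fun p => B.kr q p)
    (fun p => c.card_kr A B p.2 hq) (fun p => A.kr_inv p.2 hτ) (fun p => B.kr_inv (c.pp B p.2) hσ)
    (fun k1 k2 p k3 => by
      rw [A.kr_eq_fix_iff c.small p.2 hq hτ k1 k2 k3 (A.kr_inv p.2 hτ),
        B.kr_eq_fix_iff c.symm.small (c.pp B p.2) (c.nn B hq) hσ (hcs ▸ k1) (hf ▸ k2)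
          (c.card_kr A B p.2 hq ▸ k3) (B.kr_inv (c.pp B p.2) hσ), c.card_sylow p.2.1 _ (B.R p),
        c.card_fix A B p.2.1 p.2.2.1])
    (fun _ p p' k1 k2 => ⟨c.kr_eq A B p.2 p'.2 hq k1 k2,
      c.symm.kr_eq B A (c.pp B p.2) (c.pp B p'.2) (c.nn B hq) (c.card_kr A B p.2 hq ▸ k1)
        (c.card_kr A B p'.2 hq ▸ k2)⟩)
    (by
      by_cases h3 : q = 3
      · exact Or.inl h3
      have h5 : 5 ≤ q := hq.1.five_le_of_ne_two_of_ne_three hq.2.1 h3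
      have key : ∀ p : {p // A.PP p}, A.kr q p ≠ ⊤ → (p : ℕ) ∈ Acted q (Nat.card G) := by
        intro p hp
        obtain ⟨x, -, hx⟩ := SetLike.exists_of_lt (lt_top_iff_ne_top.2 hp)
        simpa using (acted_of_ne A c.small p.2 hq x.2 0 fun e => hx (A.mem_kr.2
          ((isCj_cjN p.2.2.2.2 (x : G)).eq_one_iff.1 (by simpa using e)))).2.2
      exact Or.inr fun i j hi hj => Subtype.ext (hn.2.2.1 q hq.1 h5 hq.dvd (key i hi) (key j hj)))
  refine ⟨α, TE.of hτ hσ h1, fun p hp x => ?_⟩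
  rw [← h2 ⟨p, hp⟩]
  exact (mem_map_iff_mem (f := α.toMonoidHom) α.injective).symm

open Classical in
lemma sign_step (c : Ctx G H) (hn : Cond (Nat.card G)) (A : Sys G) (B : Sys H)
    (β : ∀ p : {p // A.PP p}, (A.R p : Subgroup G) ≃* (B.R p : Subgroup H))
    (hβ : ∀ p : {p // A.PP p}, ∃ U : Subgroup (MulAut (B.R p : Subgroup H)), IsCyclic U ∧
      (∀ b ∈ B.acts p, b ∈ U) ∧ (∀ a ∈ A.acts p, MulAut.congr (β p) a ∈ U)) :
    ∃ fl : {p // A.PP p} → Prop, (∀ p, fl p → Nat.card (B.R p : Subgroup H) = p ^ 2) ∧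
      ∀ q, A.NN q → ∃ α : (A.R q : Subgroup G) ≃* (B.R q : Subgroup H), TE A B α ∧
        ∀ (p : {p // A.PP p}) (x : (A.R q : Subgroup G)), cjN _ (c.pp B p.2).2.2.2 (α x : H) =
          if fl p then (MulAut.congr (β p) (cjN _ p.2.2.2.2 (x : G)))⁻¹
          else MulAut.congr (β p) (cjN _ p.2.2.2.2 (x : G)) := by
  let f : ∀ (q : ℕ) (p : {p // A.PP p}), (A.R q : Subgroup G) →* MulAut (B.R p : Subgroup H) :=
    fun q p => (MulAut.congr (β p)).toMonoidHom.comp ((cjN _ p.2.2.2.2).comp (Subgroup.subtype _))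
  let g : ∀ (q : ℕ) (p : {p // A.PP p}), (B.R q : Subgroup H) →* MulAut (B.R p : Subgroup H) :=
    fun q p => (cjN _ (c.pp B p.2).2.2.2).comp (Subgroup.subtype _)
  have step : ∀ q, A.NN q → ∃ α : (A.R q : Subgroup G) ≃* (B.R q : Subgroup H), TE A B α ∧
      ∀ p, ∃ k : ℕ, k.Coprime q ∧ ∀ x, g q p (α x) = f q p x ^ k := by
    intro q hq
    obtain ⟨α, h1, h2⟩ := ker_step c hn A B hq
    refine ⟨α, h1, fun p => ?_⟩
    obtain ⟨U, u1, u2, u3⟩ := hβ p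
    obtain ⟨k, hk, e⟩ := exists_pow_of_ker_eq hq.1 (A.R q).isPGroup'
      (((g q p).comp α.toMonoidHom).codRestrict U fun x =>
        u2 _ ⟨q, _, c.nn B hq, (α x).2, isCj_cjN _ _⟩)
      ((f q p).codRestrict U fun x => u3 _ ⟨q, _, hq, x.2, isCj_cjN _ _⟩) (by
        rw [MonoidHom.ker_codRestrict, MonoidHom.ker_codRestrict]
        ext x
        change cjN _ (c.pp B p.2).2.2.2 (α x : H) = 1 ↔
          MulAut.congr (β p) (cjN _ p.2.2.2.2 (x : G)) = 1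
        rw [MulEquiv.map_eq_one_iff, (isCj_cjN _ _).eq_one_iff, (isCj_cjN _ _).eq_one_iff]
        exact B.mem_kr.symm.trans ((h2 p p.2 x).symm.trans A.mem_kr))
    exact ⟨k, hk, fun x => congrArg Subtype.val (e x)⟩
  have hf : ∀ q (p : {p // A.PP p}) x (k : ℕ), f q p x ^ k ≠ 1 →
      cjN _ p.2.2.2.2 (x : G) ^ k ≠ 1 := fun q p x k h e => h (by
    change MulAut.congr (β p) (cjN _ p.2.2.2.2 (x : G)) ^ k = 1
    rw [← map_pow, e, map_one])
  have five : ∀ (fl : {p // A.PP p} → Prop) q, A.NN q → q ≠ 3 →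
      ∃ α : (A.R q : Subgroup G) ≃* (B.R q : Subgroup H), TE A B α ∧
        ∀ p x, g q p (α x) = if fl p then (f q p x)⁻¹ else f q p x := by
    intro fl q hq h3
    have := Fact.mk hq.1
    obtain ⟨α, h1, h2⟩ := step q hq
    obtain ⟨τ, hτ⟩ := A.exists_tau hq.1 hq.2.1
    obtain ⟨σ, hσ⟩ := B.exists_tau hq.1 hq.2.1
    have key : ∀ p : {p // A.PP p}, (∃ x, f q p x ≠ 1) → (p : ℕ) ∈ Acted q (Nat.card G) := by
      rintro p ⟨x, hx⟩
      simpa using (acted_of_ne A c.small p.2 hq x.2 0 (hf q p x _ (by simpa using hx))).2.2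
    obtain ⟨α', k1, k2⟩ := sign_one hq.1 (A.R q).isPGroup'
      (comm_of_card hq.1 (card_sylow_dvd c.small (A.R q))) α (h1 τ σ hτ hσ) (f q) (g q) h2
      (fun i j hi hj => Subtype.ext (hn.2.2.1 q hq.1
        (hq.1.five_le_of_ne_two_of_ne_three hq.2.1 h3) hq.dvd (key i hi) (key j hj))) fl
    exact ⟨α', TE.of hτ hσ k1, k2⟩
  by_cases h3 : A.NN 3
  · have := Fact.mk Nat.prime_three
    obtain ⟨α, h1, h2⟩ := step 3 h3
    obtain ⟨τ, hτ⟩ := A.exists_tau h3.1 h3.2.1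
    obtain ⟨σ, hσ⟩ := B.exists_tau h3.1 h3.2.1
    obtain ⟨α', k1, fl, k2, k3⟩ := sign_three (A.R 3).isPGroup'
      (comm_of_card h3.1 (card_sylow_dvd c.small (A.R 3))) α (h1 τ σ hτ hσ) (f 3) (g 3) h2
      (by
        rintro i j ⟨x, hx⟩ ⟨y, hy⟩
        have a1 := acted_of_ne A c.small i.2 h3 x.2 1 (hf 3 i x _ hx)
        have a2 := acted_of_ne A c.small j.2 h3 y.2 1 (hf 3 j y _ hy)
        exact Subtype.ext (hn.2.2.2.2 a1.1 a1.2.2 a2.2.2))
      (fun p => Nat.card (A.R p : Subgroup G) = p)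
      (by
        rintro i j hi hj ⟨x, hx⟩ ⟨y, hy⟩
        have a1 := acted_of_ne A c.small i.2 h3 x.2 0 (hf 3 i x _ (by simpa using hx))
        have a2 := acted_of_ne A c.small j.2 h3 y.2 0 (hf 3 j y _ (by simpa using hy))
        exact Subtype.ext (hn.2.2.2.1 h3.dvd ⟨i.2.1, i.2.2.2.1, a1.2.1 hi⟩
          ⟨j.2.1, j.2.2.2.1, a2.2.1 hj⟩))
    refine ⟨fl, fun p hp => ?_, fun q hq => ?_⟩
    · have := Fact.mk p.2.1
      rw [← c.card_sylow p.2.1 (A.R p)]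
      exact (card_sylow_cases c.small (A.R p) p.2.2.2.1).resolve_left (k2 p hp)
    · by_cases hq3 : q = 3
      · subst hq3
        exact ⟨α', TE.of hτ hσ k1, k3⟩
      · exact five fl q hq hq3
  · exact ⟨fun _ => False, fun _ h => h.elim, fun q hq => five _ q hq fun e => h3 (e ▸ hq)⟩

lemma pp_step (c : Ctx G H) (hn : Cond (Nat.card G)) (A : Sys G) (B : Sys H) :
    ∃ (β : ∀ p, A.PP p → ((A.R p : Subgroup G) ≃* (B.R p : Subgroup H)))
      (α : ∀ q, A.NN q → ((A.R q : Subgroup G) ≃* (B.R q : Subgroup H))),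
      (∀ p hp, TE A B (β p hp)) ∧ (∀ q hq, TE A B (α q hq)) ∧
      ∀ p hp q hq, Compat (α q hq) (β p hp) := by
  classical
  choose β hβ U hU1 hU2 hU3 hρ using fun p : {p // A.PP p} => mod_step c A B p.2
  obtain ⟨fl, hfl, hα⟩ := sign_step c hn A B β fun p => ⟨U p, hU1 p, hU2 p, hU3 p⟩
  choose α hα1 hα2 using hα
  have key : ∀ p : {p // A.PP p}, ∃ β' : (A.R p : Subgroup G) ≃* (B.R p : Subgroup H),
      TE A B β' ∧ ∀ q hq, Compat (α q hq) β' := by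
    intro p
    by_cases h : fl p
    · obtain ⟨ρ, r1, r2⟩ := hρ p (hfl p h)
      refine ⟨(β p).trans ρ, fun τ σ hτ hσ x => ?_, fun q hq x y => ⟨cjN _ p.2.2.2.2 (x : G) y,
        isCj_cjN _ _ y, ?_⟩⟩
      · rw [MulEquiv.trans_apply, MulEquiv.trans_apply, hβ p τ σ hτ hσ, ← MulAut.mul_apply,
          r1 σ hσ, MulAut.mul_apply]
      · rw [← isCj_cjN (c.pp B p.2).2.2.2 (α q hq x : H)]
        have e1 := r2 _ ⟨q, _, c.nn B hq, (α q hq x).2, isCj_cjN (c.pp B p.2).2.2.2 _⟩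
        have e2 := hα2 q hq p x
        rw [if_pos h] at e2
        have gen : ∀ {W : Type} [Group W] (u v : W), u * v⁻¹ * u⁻¹ = v⁻¹⁻¹ → v⁻¹ * u = u * v := by
          intro W _ u v h
          have := congrArg (·⁻¹ * u) h
          simpa [mul_assoc] using this.symm
        rw [e2] at e1
        rw [e2, MulEquiv.trans_apply, MulEquiv.trans_apply, ← MulAut.mul_apply, gen _ _ e1]
        simp
    · refine ⟨β p, hβ p, fun q hq x y => ⟨cjN _ p.2.2.2.2 (x : G) y, isCj_cjN _ _ y, ?_⟩⟩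
      rw [← isCj_cjN (c.pp B p.2).2.2.2 (α q hq x : H), hα2 q hq p x, if_neg h]
      simp
  choose β' h1 h2 using key
  exact ⟨fun p hp => β' ⟨p, hp⟩, α, fun p hp => h1 ⟨p, hp⟩, hα1, fun p hp => h2 ⟨p, hp⟩⟩

theorem iso_of_ctx (c : Ctx G H) (hn : Cond (Nat.card G)) : Nonempty (G ≃* H) := by
  classical
  obtain ⟨A⟩ := exists_sys c.h4 c.small
  obtain ⟨B⟩ := exists_sys c.symm.h4 c.symm.small
  obtain ⟨β, α, hβ, hα, hαβ⟩ := pp_step c hn A B
  have := Fact.mk Nat.prime_two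
  have c1 : IsCyclic (A.R 2 : Subgroup G) :=
    isCyclic_of_card_dvd_prime (p := 2) (card_sylow_two_dvd c.h4 (A.R 2))
  have c2 := c.isCyclic Nat.prime_two (B.R 2) c1
  let γ : (A.R 2 : Subgroup G) ≃* (B.R 2 : Subgroup H) :=
    mulEquivOfCyclicCardEq (c.card_sylow Nat.prime_two _ _)
  have hγ : ∀ r, r.Prime → r ≠ 2 → ∀ δ : (A.R r : Subgroup G) ≃* (B.R r : Subgroup H),
      TE A B δ → Compat γ δ := by
    intro r hr h2 δ hδ x y
    by_cases hx : x = 1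
    · subst hx
      exact ⟨y, by simp, by simp⟩
    obtain ⟨τ, hτ⟩ := A.exists_tau hr h2
    obtain ⟨σ, hσ⟩ := B.exists_tau hr h2
    have e1 := (A.eq_of_mem_two x.2).resolve_left fun e => hx (Subtype.ext e)
    have e2 := (B.eq_of_mem_two (γ x).2).resolve_left fun e =>
      hx (γ.injective (Subtype.ext (by simpa using e)))
    exact ⟨τ y, by rw [e1, hτ], by rw [e2, hδ τ σ hτ hσ, hσ]⟩
  have hδ : ∀ r : (Nat.card G).primeFactors,
      ∃ δ : (A.R r : Subgroup G) ≃* (B.R r : Subgroup H),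
        (∀ h : (r : ℕ) = 2, HEq δ γ) ∧ (∀ h : A.PP r, δ = β r h) ∧ ∀ h : A.NN r, δ = α r h := by
    rintro ⟨r, hr⟩
    by_cases h2 : r = 2
    · subst h2
      exact ⟨γ, fun _ => HEq.rfl, fun h => absurd rfl h.2.1, fun h => absurd rfl h.2.1⟩
    by_cases h : (A.R r : Subgroup G).Normal
    · exact ⟨β r ⟨Nat.prime_of_mem_primeFactors hr, h2, Nat.dvd_of_mem_primeFactors hr, h⟩,
        fun e => absurd e h2, fun _ => rfl, fun h' => absurd h h'.2.2⟩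
    · exact ⟨α r ⟨Nat.prime_of_mem_primeFactors hr, h2, h⟩,
        fun e => absurd e h2, fun h' => absurd h'.2.2.2 h, fun _ => rfl⟩
  choose δ d1 d2 d3 using hδ
  have cases : ∀ r : (Nat.card G).primeFactors, (r : ℕ) ≠ 2 → A.PP r ∨ A.NN r := by
    intro r h2
    by_cases h : (A.R r : Subgroup G).Normal
    · exact Or.inl ⟨Nat.prime_of_mem_primeFactors r.2, h2, Nat.dvd_of_mem_primeFactors r.2, h⟩
    · exact Or.inr ⟨Nat.prime_of_mem_primeFactors r.2, h2, h⟩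
  have two : ∀ r s : (Nat.card G).primeFactors, (r : ℕ) = 2 → (s : ℕ) ≠ 2 →
      Compat (δ r) (δ s) := by
    rintro ⟨r, hr⟩ s rfl h2
    rw [eq_of_heq (d1 ⟨2, hr⟩ rfl)]
    refine hγ s (Nat.prime_of_mem_primeFactors s.2) h2 _ ?_
    rcases cases s h2 with h | h
    · rw [d2 s h]; exact hβ _ h
    · rw [d3 s h]; exact hα _ h
  obtain ⟨Φ, -⟩ := glue Finset.univ (fun r : (Nat.card G).primeFactors => (A.R r : Subgroup G))
    (fun r => (B.R r : Subgroup H)) δ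
    (by
      rw [eq_top_iff, ← A.hall_top]
      exact iSup₂_le fun r hr => le_iSup₂_of_le ⟨r, hr⟩ (Finset.mem_univ _) le_rfl)
    (by
      rw [eq_top_iff, ← B.hall_top, ← c.card]
      exact iSup₂_le fun r hr => le_iSup₂_of_le ⟨r, hr⟩ (Finset.mem_univ _) le_rfl)
    (by
      rw [Finset.prod_coe_sort (Nat.card G).primeFactors
        fun r => Nat.card (A.R r : Subgroup G)]
      exact Nat.le_of_dvd Nat.card_pos (card_top (G := G) ▸ prod_card_dvd_card _ _ ⊤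
        (fun _ _ => le_top) fun p hp q hq h => coprime_card_sylow
          (Nat.prime_of_mem_primeFactors hp) (Nat.prime_of_mem_primeFactors hq) h _ _))
    c.card
    (by
      intro r _ s _ hrs
      have hne : (r : ℕ) ≠ s := fun e => hrs (Subtype.ext e)
      by_cases hr : (r : ℕ) = 2
      · exact Or.inl (two r s hr (hr ▸ hne.symm))
      by_cases hs : (s : ℕ) = 2
      · exact Or.inr (two s r hs hr)
      rcases cases r hr with h | h <;> rcases cases s hs with h' | h'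
      · refine Or.inl fun x y => ⟨y, ?_, ?_⟩
        · rw [comm_of_normal h.1 h'.1 c.small _ _ h.2.2.2 h'.2.2.2 x.2 y.2, mul_inv_cancel_right]
        · rw [comm_of_normal h.1 h'.1 c.symm.small _ _ (c.pp B h).2.2.2 (c.pp B h').2.2.2
            (δ r x).2 (δ s y).2, mul_inv_cancel_right]
      · right; rw [d2 r h, d3 s h']; exact hαβ _ h _ h'
      · left; rw [d3 r h, d2 s h']; exact hαβ _ h' _ h
      · refine Or.inl fun x y => ⟨y, ?_, ?_⟩
        · rw [A.hcomm _ _ h.1 h'.1 hr hs h.2.2 h'.2.2 _ x.2 _ y.2, mul_inv_cancel_right]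
        · rw [B.hcomm _ _ h.1 h'.1 hr hs (c.nn B h).2.2 (c.nn B h').2.2 _ (δ r x).2 _ (δ s y).2,
            mul_inv_cancel_right])
  exact ⟨Φ⟩

theorem rigid_of_cond {n : ℕ} (h0 : n ≠ 0) (h4 : ¬ 4 ∣ n) (hn : Cond n) : Rigid n := by
  intro G H _ _ hG hH hc
  have : Finite G := Nat.finite_of_card_ne_zero (hG ▸ h0)
  have : Finite H := Nat.finite_of_card_ne_zero (hH ▸ h0)
  subst hG
  exact iso_of_ctx ⟨hc, hH.symm, h4, hn.1, hn.2.1⟩ hn

end Pool.Agent.Lib.MP_cb9dee_al
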