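import Pool.Agent.Lib.MP_cb9dee_al.Basic
import Pool.Agent.Lib.MP_cb9dee_al.Rigid

namespace Pool.Agent.Lib.MP_cb9dee_al

namespace D

open Subgroup

variable {R R' S : Type*} [Group R] [Group R'] [Group S]

lemma card_inf_mul (K L : Subgroup R) : L.relIndex K * Nat.card (K ⊓ L : Subgroup R) =
    Nat.card K := by
  rw [← index_mul_card (L.subgroupOf K), relIndex, inf_comm, ← inf_subgroupOf_right L K]
  congr 1
  exact (Nat.card_congr (subgroupOfEquivOfLe inf_le_right).toEquiv).symm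

lemma card_map_mul (f : R →* R') (K : Subgroup R) :
    Nat.card (K.map f) * Nat.card (K ⊓ f.ker : Subgroup R) = Nat.card K := by
  rw [← relIndex_ker, card_inf_mul]

/-- The map `x ↦ x⁻¹ * g x`. -/
def delta (hc : ∀ x y : R, x * y = y * x) (g : MulAut R) : R →* R where
  toFun x := x⁻¹ * g x
  map_one' := by simp
  map_mul' x y := by
    rw [map_mul, mul_inv_rev, hc y⁻¹, mul_assoc, mul_assoc, ← mul_assoc y⁻¹, hc y⁻¹, mul_assoc]

lemma ker_delta (hc : ∀ x y : R, x * y = y * x) (g : MulAut R) : (delta hc g).ker = fixS g := by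
  ext x
  rw [MonoidHom.mem_ker, mem_fixS]
  exact inv_mul_eq_one.trans eq_comm

lemma fix_delta [Finite R] {g : MulAut R} {m : ℕ} (hg : g ^ m = 1)
    (hm : m.Coprime (Nat.card R)) {x : R} (h : g (x⁻¹ * g x) = x⁻¹ * g x) : g x = x := by
  have key : ∀ k : ℕ, (g ^ k) x = x * (x⁻¹ * g x) ^ k := by
    intro k
    induction k with
    | zero => simp
    | succ k ih =>
      rw [pow_succ', MulAut.mul_apply, ih, map_mul, map_pow, h, pow_succ', ← mul_assoc,
        mul_inv_cancel_left]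
  have h1 := key m
  rw [hg, MulAut.one_apply, left_eq_mul] at h1
  have h2 : x⁻¹ * g x = 1 := orderOf_eq_one_iff.1 (Nat.eq_one_of_dvd_coprimes hm
    (orderOf_dvd_of_pow_eq_one h1) (orderOf_dvd_natCard _))
  exact (inv_mul_eq_one.1 h2).symm

lemma card_delta [Finite R] (hc : ∀ x y : R, x * y = y * x) {g : MulAut R} {m : ℕ}
    (hg : g ^ m = 1) (hm : m.Coprime (Nat.card R)) (L : Subgroup R)
    (hL : ∀ x, x⁻¹ * g x ∈ L) :
    Nat.card R * Nat.card (L ⊓ fixS g : Subgroup R) = Nat.card L * Nat.card (fixS g) := by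
  have h1 := card_map_mul (delta hc g) ⊤
  have h2 := card_map_mul (delta hc g) L
  have h3 := card_map_mul (delta hc g) (map (delta hc g) ⊤)
  rw [ker_delta] at h1 h2 h3
  rw [top_inf_eq, card_top] at h1
  have h4 : map (delta hc g) ⊤ ⊓ fixS g = ⊥ := by
    rw [eq_bot_iff]
    rintro _ ⟨⟨x, -, rfl⟩, hx⟩
    exact inv_mul_eq_one.2 (fix_delta hg hm hx).symm
  rw [h4, card_bot, mul_one] at h3
  have h5 : map (delta hc g) L = map (delta hc g) ⊤ := by
    refine eq_of_le_of_card_ge (map_mono le_top) (h3 ▸ card_le_of_le (map_mono ?_))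
    rintro _ ⟨x, -, rfl⟩
    exact hL x
  rw [← h1, ← h2, h5]
  ring

lemma exists_res {L : Subgroup R} [Finite L] {g : MulAut R} (hL : ∀ x ∈ L, g x ∈ L) :
    ∃ b : MulAut L, ∀ (k : ℕ) (x : L), ((b ^ k) x : R) = (g ^ k) x := by
  let f : L →* L := (g.toMonoidHom.comp L.subtype).codRestrict L fun x => hL x x.2
  have hf : Function.Injective f := fun x y e =>
    Subtype.ext (g.injective (congrArg Subtype.val e))
  refine ⟨MulEquiv.ofBijective f (Finite.injective_iff_bijective.1 hf), fun k => ?_⟩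
  induction k with
  | zero => intro x; rfl
  | succ k ih => intro x; rw [pow_succ, pow_succ, MulAut.mul_apply, MulAut.mul_apply, ih]; rfl

lemma line_sq [Finite R] {p : ℕ} (hp : p.Prime) (h3 : p % 4 = 3) {g : MulAut R} (hg : g ^ 8 = 1)
    {L : Subgroup R} (hc : Nat.card L = p) (hL : ∀ x ∈ L, g x ∈ L) : ∀ x ∈ L, (g * g) x = x := by
  obtain ⟨b, hb⟩ := exists_res hL
  have h1 : orderOf b ∣ p - 1 := hc ▸ Good.orderOf_dvd hp (a := b) (Or.inl hc)
  have h2 : orderOf b ∣ 2 ^ 3 := by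
    rw [orderOf_dvd_iff_pow_eq_one]
    ext x
    rw [hb, show 2 ^ 3 = 8 from rfl, hg]; rfl
  have h4 : orderOf b ∣ 2 := by
    obtain ⟨k, hk, e⟩ := (Nat.dvd_prime_pow Nat.prime_two).1 h2
    rw [e] at h1 ⊢
    interval_cases k <;> omega
  intro x hx
  have := hb 2 ⟨x, hx⟩
  rw [orderOf_dvd_iff_pow_eq_one.1 h4, pow_two] at this
  exact this.symm

lemma coprime_eight {p : ℕ} (hp : p.Prime) (h2 : p ≠ 2) {n : ℕ} (hn : n ∣ p ^ 2) :
    Nat.Coprime 8 n :=
  (((Nat.coprime_primes Nat.prime_two hp).2 h2.symm).pow 3 2).coprime_dvd_right hn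

/-- An automorphism of order `4` or `8` is irreducible when `p ≡ 3 mod 4`. -/
lemma irr [Finite R] {p : ℕ} (hp : p.Prime) (h3 : p % 4 = 3) (hR : Nat.card R = p ^ 2)
    {g : MulAut R} (hg : g ^ 8 = 1) (h2 : g * g ≠ 1) (L : Subgroup R) (hL : ∀ x ∈ L, g x ∈ L) :
    L = ⊥ ∨ L = ⊤ := by
  rcases card_subgroup_cases hp hR L with h | h | h
  · exact Or.inl h
  · exfalso
    have hc := comm_of_card (R := R) hp (hR ▸ dvd_rfl)
    have hgg : ∀ x, g ((g * g) x) = (g * g) (g x) := fun _ => rfl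
    have f1 : fixS (g * g) ≠ ⊤ := fun e => h2 (by
      ext x
      exact (e ▸ mem_top x : x ∈ fixS (g * g)))
    have f2 : Nat.card (fixS (g * g)) = p := by
      rcases card_subgroup_cases hp hR (fixS (g * g)) with h' | h' | h'
      · have : L ≤ ⊥ := h' ▸ line_sq hp h3 hg h hL
        rw [le_bot_iff.1 this, card_bot] at h
        exact absurd h hp.one_lt.ne
      · exact h'
      · exact absurd h' f1
    have h1 := card_map_mul (delta hc (g * g)) ⊤
    rw [ker_delta, top_inf_eq, card_top, hR, f2, pow_two] at h1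
    have h4 := line_sq hp h3 hg (Nat.eq_of_mul_eq_mul_right hp.pos h1) (by
      rintro _ ⟨x, -, rfl⟩
      exact ⟨g x, mem_top _, by
        change (g x)⁻¹ * (g * g) (g x) = g (x⁻¹ * (g * g) x)
        rw [map_mul, map_inv, hgg]⟩)
    refine f1 (eq_top_iff.2 fun x _ => fix_delta (m := 8) ?_
      (coprime_eight hp (by omega) (hR ▸ dvd_rfl)) (h4 _ ⟨x, mem_top _, rfl⟩))
    rw [← pow_two, ← pow_mul, mul_comm, pow_mul, hg, one_pow]
  · exact Or.inr h

lemma eq_one_iff_card [Finite R] {g : MulAut R} : g = 1 ↔ Nat.card (fixS g) = Nat.card R := by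
  constructor
  · rintro rfl
    rw [show fixS (1 : MulAut R) = ⊤ from eq_top_iff.2 fun _ _ => rfl, card_top]
  · intro h
    ext x
    exact (eq_top_of_card_eq _ h ▸ mem_top x : x ∈ fixS g)

/-- If the square is not trivial then it has no fixed points. -/
lemma fix_sq [Finite R] {p : ℕ} (hp : p.Prime)
    (hR : Nat.card R ∣ p ∨ (Nat.card R = p ^ 2 ∧ p % 4 = 3))
    {g : MulAut R} (hg : g ^ 8 = 1) (h2 : g * g ≠ 1) : fixS (g * g) = ⊥ := by
  rcases hR with hR | ⟨hR, h3⟩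
  · rw [eq_bot_iff]
    intro x hx
    by_contra h
    refine h2 (Good.eq_one hp (Or.inl ?_) h hx)
    refine ((Nat.dvd_prime hp).1 hR).resolve_left fun e => h ?_
    have := (Nat.card_eq_one_iff_unique.1 e).1
    exact Subsingleton.elim x 1
  · refine (irr hp h3 hR hg h2 _ fun x hx => ?_).resolve_right fun e => h2 ?_
    · rw [mem_fixS] at hx ⊢
      exact congrArg g hx
    · ext x
      exact (e ▸ mem_top x : x ∈ fixS (g * g))

lemma odd_of_card [Finite R] {p : ℕ} (hp : p.Prime) (h2 : p ≠ 2) (hR : Nat.card R ∣ p ^ 2)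
    {x : R} (hx : x = x⁻¹) : x = 1 :=
  eq_one_of_eq_inv (fun h => h2 ((Nat.prime_dvd_prime_iff_eq Nat.prime_two hp).1
    (Nat.prime_two.dvd_of_dvd_pow (h.trans ((orderOf_dvd_natCard x).trans hR)))).symm) hx

lemma inv_iff_card [Finite R] {p : ℕ} (hp : p.Prime) (h2 : p ≠ 2) (hR : Nat.card R ∣ p ^ 2)
    {g : MulAut R} (hg : g * g = 1) : (∀ x, g x = x⁻¹) ↔ Nat.card (fixS g) = 1 := by
  rw [card_eq_one]
  refine ⟨fun h => eq_bot_iff.2 fun x hx => odd_of_card hp h2 hR ?_,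
    inv_of_fix_bot (comm_of_card hp hR) hg⟩
  exact (mem_fixS.1 hx).symm.trans (h x)

/-- An involution commuting with a reflection. -/
lemma refl_four [Finite R] {p : ℕ} (hp : p.Prime) (h2 : p ≠ 2) (hR : Nat.card R = p ^ 2)
    {τ g : MulAut R} (hτ : τ * τ = 1) (hf : Nat.card (fixS τ) = p) (hg : g * g = 1)
    (hc : g * τ = τ * g) :
    g = 1 ∨ (∀ x, g x = x⁻¹) ∨ g = τ ∨ ∀ x, g x = (τ x)⁻¹ := by
  have hcomm := comm_of_card (R := R) hp (hR ▸ dvd_rfl)
  obtain ⟨a, b, ha, hb, hab, hfa, ta, tb, hL⟩ := exists_refl hp h2 hR hτ hf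
  have hgg : ∀ x, g (g x) = x := fun x => DFunLike.congr_fun hg x
  have hc' : ∀ x, g (τ x) = τ (g x) := fun x => DFunLike.congr_fun hc x
  have pm : ∀ u : R, orderOf u = p → g u ∈ zpowers u → g u = u ∨ g u = u⁻¹ := by
    intro u hu h
    by_cases h1 : u * g u = 1
    · exact Or.inr (eq_inv_of_mul_eq_one_right h1)
    · left
      have h3 := (eq_zpowers_of_mem hp ((Nat.card_zpowers u).trans hu)
        (mul_mem (mem_zpowers u) h) h1).1
      have h4 : u * g u ∈ fixS g := by rw [mem_fixS, map_mul, hgg, hcomm]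
      exact (zpowers_le.2 h4) (h3 ▸ mem_zpowers u)
  have ga := pm a ha (hfa ▸ (by rw [mem_fixS, ← hc', ta]))
  have gb := pm b hb (by
    have h1 : τ (g b) = (g b)⁻¹ := by rw [← hc', tb, map_inv]
    have h3 : orderOf (g b) = p := (g.orderOf_eq b).trans hb
    rcases hL (zpowers (g b)) ((Nat.card_zpowers _).trans h3) (by
      rintro _ ⟨k, rfl⟩
      rw [map_zpow, h1]
      exact zpow_mem (inv_mem (mem_zpowers _)) k) with h | h
    · have : τ (g b) = g b := (h ▸ mem_zpowers (g b) : g b ∈ fixS τ)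
      exact absurd (odd_of_card hp h2 (hR ▸ dvd_rfl) (this.symm.trans h1))
        (ne_one_of_orderOf hp h3)
    · exact h ▸ mem_zpowers (g b))
  let ι : MulAut R := { Equiv.inv R with
      map_mul' := fun x y => by simp [hcomm x] }
  have hι : ∀ x, ι x = x⁻¹ := fun _ => rfl
  have ext2 : ∀ c : MulAut R, g a = c a → g b = c b → g = c := fun c h1 h3 => by
    have := eq_top_of_two hp hR ha hab (L := MonoidHom.eqLocus g.toMonoidHom c.toMonoidHom) h1 h3
    ext x
    exact (this ▸ mem_top x : x ∈ MonoidHom.eqLocus g.toMonoidHom c.toMonoidHom)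
  rcases ga with ga | ga <;> rcases gb with gb | gb
  · exact Or.inl (ext2 1 ga gb)
  · exact Or.inr (Or.inr (Or.inl (ext2 τ (ga.trans ta.symm) (gb.trans tb.symm))))
  · refine Or.inr (Or.inr (Or.inr fun x => ?_))
    rw [ext2 (ι * τ) (by rw [MulAut.mul_apply, hι, ta, ga])
      (by rw [MulAut.mul_apply, hι, tb, gb, inv_inv]), MulAut.mul_apply, hι]
  · refine Or.inr (Or.inl fun x => ?_)
    rw [ext2 ι ga gb, hι]

lemma comm_of_sq {W : Type*} [Group W] (ρ : S →* W) (h : ∀ s, ρ s * ρ s = 1) (s t : S) :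
    ρ s * ρ t = ρ t * ρ s := by
  have h1 := h (s * t)
  rw [map_mul] at h1
  rw [eq_inv_of_mul_eq_one_left h1, mul_inv_rev, ← eq_inv_of_mul_eq_one_left (h s),
    ← eq_inv_of_mul_eq_one_left (h t)]

/-- Equivariance. -/
def Eqv (ρ : S →* MulAut R) (ρ' : S →* MulAut R') (β : R ≃* R') : Prop :=
  ∀ s x, β (ρ s x) = ρ' s (β x)

/-- Actions through involutions are determined by the orders of the fixed subgroups. -/
lemma inv_match [Finite R] [Finite R'] {p : ℕ} (hp : p.Prime) (h2 : p ≠ 2)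
    (hRS : Nat.card R = Nat.card R') (hR : Nat.card R ∣ p ^ 2) (ρ : S →* MulAut R)
    (ρ' : S →* MulAut R') (h : ∀ s, ρ s * ρ s = 1)
    (hf : ∀ s, Nat.card (fixS (ρ s)) = Nat.card (fixS (ρ' s))) :
    ∃ t, ∀ β : R ≃* R', (∀ x, β (ρ t x) = ρ' t (β x)) → Eqv ρ ρ' β := by
  have k1 : ∀ s, ρ s = 1 → ρ' s = 1 := fun s e =>
    eq_one_iff_card.2 (by rw [← hf, ← hRS, ← eq_one_iff_card, e])
  have h' : ∀ s, ρ' s * ρ' s = 1 := fun s => by
    rw [← map_mul]; exact k1 _ (by rw [map_mul, h])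
  have k2 : ∀ s, (∀ x, ρ s x = x⁻¹) → ∀ x, ρ' s x = x⁻¹ := fun s e =>
    (inv_iff_card hp h2 (hRS ▸ hR) (h' s)).2 (hf s ▸ (inv_iff_card hp h2 hR (h s)).1 e)
  by_cases hex : ∃ t, Nat.card R = p ^ 2 ∧ Nat.card (fixS (ρ t)) = p
  · obtain ⟨t, h3, h4⟩ := hex
    have tt : ∀ x, ρ t (ρ t x) = x := fun x => DFunLike.congr_fun (h t) x
    have tt' : ∀ x, ρ' t (ρ' t x) = x := fun x => DFunLike.congr_fun (h' t) x
    refine ⟨t, fun β hβ s x => ?_⟩
    rcases refl_four hp h2 h3 (h t) h4 (h s) (comm_of_sq ρ h s t) with e | e | e | e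
    · rw [k1 s e, e]; rfl
    · rw [k2 s e, e, map_inv]
    · have := k1 (s * t) (by rw [map_mul, e, h])
      have h5 : ρ' s (ρ' t (ρ' t (β x))) = ρ' t (β x) := by
        rw [← MulAut.mul_apply, ← map_mul, this]; rfl
      rw [e, hβ, ← h5, tt']
    · have := k2 (s * t) fun x => by rw [map_mul, MulAut.mul_apply, e, tt]
      rw [e, map_inv, hβ, ← this, map_mul, MulAut.mul_apply, tt']
  · refine ⟨1, fun β _ s x => ?_⟩
    rcases equivariant_of_pm hp hRS hR (h s) (h' s) (hf s) (fun e => hex ⟨s, e⟩) with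
      ⟨e, e'⟩ | ⟨e, e'⟩
    · rw [e, e']
    · rw [e, e', map_inv]

/-- The elements acting as `± 1` form a subgroup of index at most two. -/
lemma pm_mul [Finite R] {p : ℕ} (hp : p.Prime) (h2 : p ≠ 2) (hR : Nat.card R ∣ p ^ 2)
    (ρ : S →* MulAut R) (h : ∀ s, ρ s * ρ s = 1) {s t : S}
    (hs : ¬ (ρ s = 1 ∨ ∀ x, ρ s x = x⁻¹)) (ht : ¬ (ρ t = 1 ∨ ∀ x, ρ t x = x⁻¹)) :
    ρ (s * t) = 1 ∨ ∀ x, ρ (s * t) x = x⁻¹ := by
  have h3 : Nat.card R = p ^ 2 ∧ Nat.card (fixS (ρ t)) = p := by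
    by_contra hn
    rcases equivariant_of_pm hp rfl hR (h t) (h t) rfl hn with ⟨e, -⟩ | ⟨e, -⟩
    · exact ht (Or.inl (MulEquiv.ext e))
    · exact ht (Or.inr e)
  have tt : ∀ x, ρ t (ρ t x) = x := fun x => DFunLike.congr_fun (h t) x
  rcases refl_four hp h2 h3.1 (h t) h3.2 (h s) (comm_of_sq ρ h s t) with e | e | e | e
  · exact (hs (Or.inl e)).elim
  · exact (hs (Or.inr e)).elim
  · exact Or.inl (by rw [map_mul, e, h])
  · exact Or.inr fun x => by rw [map_mul, MulAut.mul_apply, e, tt]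

end D

end Pool.Agent.Lib.MP_cb9dee_al
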