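import Pool.Agent.Lib.MP_cb9dee_al.DAut
import Pool.Agent.Lib.MP_cb9dee_al.DBase

namespace Pool.Agent.Lib.MP_cb9dee_al

namespace D

open Subgroup Pointwise

variable {G : Type*} [Group G] [Fintype G]

lemma sum_mem (K : Subgroup G) : ∑ u, ind (u ∈ K) = Nat.card K := sum_ind _

lemma sum_sup {A B : Subgroup G} (h : Nm A B) (hd : Disjoint A B) (Φ : G → ℚ) :
    ∑ u, ind (u ∈ A ⊔ B) * Φ u = ∑ a, ind (a ∈ A) * ∑ b, ind (b ∈ B) * Φ (a * b) := by
  classical
  have hs := coe_sup_of_perm A B (perm_of_conj h)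
  have e : ∀ (K : Subgroup G) (Ψ : G → ℚ),
      ∑ u, ind (u ∈ K) * Ψ u = ∑ u ∈ Finset.univ.filter (· ∈ K), Ψ u := fun K Ψ => by
    rw [Finset.sum_filter]
    exact Finset.sum_congr rfl fun u _ => by by_cases hu : u ∈ K <;> simp [ind, hu]
  simp only [e]
  rw [← Finset.sum_product']
  symm
  refine Finset.sum_bij (fun z _ => z.1 * z.2) (fun z hz => ?_) (fun z hz w hw e => ?_)
    (fun u hu => ?_) fun _ _ => rfl
  · simp only [Finset.mem_product, Finset.mem_filter, Finset.mem_univ, true_and] at hz ⊢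
    exact mul_mem (mem_sup_left hz.1) (mem_sup_right hz.2)
  · simp only [Finset.mem_product, Finset.mem_filter, Finset.mem_univ, true_and] at hz hw
    have h1 : w.1⁻¹ * z.1 = w.2 * z.2⁻¹ := by
      rw [inv_mul_eq_iff_eq_mul, ← mul_assoc, eq_mul_inv_iff_mul_eq, e]
    have h2 := disjoint_def.1 hd (mul_mem (inv_mem hw.1) hz.1) (h1 ▸ mul_mem hw.2 (inv_mem hz.2))
    exact Prod.ext (inv_mul_eq_one.1 h2).symm (mul_inv_eq_one.1 (h1 ▸ h2)).symm
  · simp only [Finset.mem_filter, Finset.mem_univ, true_and] at hu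
    obtain ⟨a, ha, b, hb, rfl⟩ : u ∈ (A : Set G) * B := hs ▸ hu
    exact ⟨(a, b), by simpa using ⟨ha, hb⟩, rfl⟩

lemma fib_ind (U : Subgroup G) (s : G) (hs : ∀ u ∈ U, s * u * s⁻¹ ∈ U)
    (hc : (orderOf s).Coprime (Nat.card U)) (ψ : ℕ → ℚ) :
    ∑ u, ind (u ∈ U) * ψ (orderOf (s * u)) = (centralizer ({s} : Set G)).relIndex U *
      ∑ c, ind (c ∈ U ⊓ centralizer {s}) * ψ (orderOf s * orderOf c) := by
  classical
  have := fib U s hs hc (fun x => ψ (orderOf x)) fun u _ x =>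
    congrArg ψ ((MulAut.conj u).orderOf_eq x)
  rw [nsmul_eq_mul, Finset.sum_filter, Finset.sum_filter] at this
  convert this using 2 with u _
  · by_cases hu : u ∈ U <;> simp [ind, hu]
  · refine Finset.sum_congr rfl fun c _ => ?_
    by_cases h : c ∈ U ∧ c * s = s * c
    · rw [if_pos h, ind_pos ⟨h.1, mem_centralizer_singleton_iff.2 h.2⟩, one_mul,
        (Commute.symm h.2).orderOf_mul_eq_mul_orderOf_of_coprime
          (hc.coprime_dvd_right (Subgroup.orderOf_dvd_natCard _ h.1))]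
    · rw [if_neg h, ind_neg fun e => h ⟨e.1, mem_centralizer_singleton_iff.1 e.2⟩, zero_mul]

omit [Fintype G] in
lemma mem_of_coprime {C : Subgroup G} {x y : G} (h : Commute x y)
    (hc : (orderOf x).Coprime (orderOf y)) (hm : x * y ∈ C) : x ∈ C := by
  have h1 := pow_mem hm (orderOf y)
  rw [h.mul_pow, pow_orderOf_eq_one, mul_one] at h1
  exact zpowers_le.2 h1 (mem_zpowers_pow_iff.2 hc.symm)

lemma sum_mult (R : ℕ → Subgroup G) (C : Subgroup G) (m : ℕ) (σ : Finset ℕ)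
    (hc : ∀ r ∈ σ, ∀ r' ∈ σ, r ≠ r' → ∀ x ∈ R r, ∀ y ∈ R r', x * y = y * x)
    (hd : ∀ r ∈ σ, ∀ r' ∈ σ, r ≠ r' → (Nat.card (R r)).Coprime (Nat.card (R r'))) :
    ∑ u, ind (u ∈ ⨆ r ∈ σ, R r) * ind (u ∈ C ∧ (orderOf u).Coprime m) =
      ∏ r ∈ σ, ∑ u, ind (u ∈ R r) * ind (u ∈ C ∧ (orderOf u).Coprime m) := by
  classical
  induction σ using Finset.induction_on with
  | empty =>
    rw [Finset.prod_empty, Finset.sum_eq_single 1, ind_pos (one_mem _),
      ind_pos ⟨one_mem _, by simp⟩, one_mul]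
    · intro u _ hu
      rw [ind_neg (by simpa using hu), zero_mul]
    · simp
  | insert a σ ha ih =>
    have hc' := fun r hr r' hr' => hc r (Finset.mem_insert_of_mem hr) r'
      (Finset.mem_insert_of_mem hr')
    have hd' := fun r hr r' hr' => hd r (Finset.mem_insert_of_mem hr) r'
      (Finset.mem_insert_of_mem hr')
    have hne : ∀ r ∈ σ, a ≠ r := fun r hr e => ha (e ▸ hr)
    have h1 : ∀ x ∈ R a, ∀ y ∈ ⨆ r ∈ σ, R r, x * y = y * x := fun x hx y hy => by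
      have : (⨆ r ∈ σ, R r) ≤ centralizer {x} := iSup₂_le fun r hr z hz =>
        mem_centralizer_singleton_iff.2 (hc a (Finset.mem_insert_self _ _) r
          (Finset.mem_insert_of_mem hr) (hne r hr) x hx z hz).symm
      exact (mem_centralizer_singleton_iff.1 (this hy)).symm
    have h2 : (Nat.card (R a)).Coprime (Nat.card (⨆ r ∈ σ, R r : Subgroup G)) := by
      rw [card_biSup R σ (fun i hi j hj hij => Or.inl fun x hx y hy => by
        rw [hc' i hi j hj hij x hx y hy, mul_inv_cancel_right]; exact hy) hd']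
      exact Nat.Coprime.prod_right fun r hr => hd a (Finset.mem_insert_self _ _) r
        (Finset.mem_insert_of_mem hr) (hne r hr)
    rw [Finset.iSup_insert, Finset.prod_insert ha, ← ih hc' hd', sum_sup (fun x hx y hy => by
      rw [h1 x hx y hy, mul_inv_cancel_right]; exact hy) (disjoint_of_coprime_natCard h2),
      Finset.sum_mul]
    refine Finset.sum_congr rfl fun x _ => ?_
    rw [mul_assoc]
    by_cases hx : x ∈ R a
    swap
    · rw [ind_neg hx, zero_mul, zero_mul]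
    rw [Finset.mul_sum _ _ (ind (_ ∧ _))]
    congr 1
    refine Finset.sum_congr rfl fun y _ => ?_
    by_cases hy : y ∈ ⨆ r ∈ σ, R r
    swap
    · rw [ind_neg hy, zero_mul, zero_mul, mul_zero]
    have h3 : Commute x y := h1 x hx y hy
    have h4 := (h2.coprime_dvd_left (Subgroup.orderOf_dvd_natCard _ hx)).coprime_dvd_right
      (Subgroup.orderOf_dvd_natCard _ hy)
    rw [ind_pos hy, one_mul, one_mul, ← ind_and, h3.orderOf_mul_eq_mul_orderOf_of_coprime h4,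
      Nat.coprime_mul_iff_left]
    refine ind_congr ⟨fun h => ⟨⟨mem_of_coprime h3 h4 h.1, h.2.1⟩,
      mem_of_coprime h3.symm h4.symm (h3.eq ▸ h.1), h.2.2⟩,
      fun h => ⟨mul_mem h.1.1 h.2.1, h.1.2, h.2.2⟩⟩

lemma sum_sylow {r : ℕ} (hr : r.Prime) (P : Sylow r G) (C : Subgroup G) (m : ℕ) :
    ∑ u, ind (u ∈ (P : Subgroup G)) * ind (u ∈ C ∧ (orderOf u).Coprime m) =
      if r ∣ m then 1 else (Nat.card ((P : Subgroup G) ⊓ C : Subgroup G) : ℚ) := by
  have := Fact.mk hr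
  have key : ∀ u ∈ (P : Subgroup G), ∃ k, orderOf u = r ^ k := fun u hu => by
    obtain ⟨k, -, e⟩ := (Nat.dvd_prime_pow hr).1
      (orderOf_dvd_of_pow_eq_one (pow_eq_one_of_mem_sylow P hu))
    exact ⟨k, e⟩
  split_ifs with h
  · rw [Finset.sum_eq_single 1, ind_pos (one_mem _), ind_pos ⟨one_mem _, by simp⟩, one_mul]
    · intro u _ hu
      rw [← ind_and]
      refine ind_neg fun e => hu (orderOf_eq_one_iff.1 ?_)
      obtain ⟨k, hk⟩ := key u e.1
      rcases k with _ | k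
      · exact hk
      · exact absurd (Nat.eq_one_of_dvd_coprimes e.2.2 (hk ▸ dvd_pow_self r k.succ_ne_zero) h)
          hr.one_lt.ne'
    · simp
  · rw [← sum_mem]
    refine Finset.sum_congr rfl fun u _ => ?_
    rw [← ind_and]
    refine ind_congr ⟨fun e => ⟨e.1, e.2.1⟩, fun e => ⟨e.1, e.2, ?_⟩⟩
    obtain ⟨k, hk⟩ := key u e.1
    exact hk ▸ ((Nat.Prime.coprime_iff_not_dvd hr).2 h).pow_left k

lemma sum_hall (A : Sys G) (C : Subgroup G) (m : ℕ) (σ : Finset ℕ) (hσ : ∀ r ∈ σ, r.Prime)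
    (hc : ∀ r ∈ σ, ∀ r' ∈ σ, ∀ x ∈ A.R r, ∀ y ∈ A.R r', x * y = y * x) :
    ∑ u, ind (u ∈ A.hall σ) * ind (u ∈ C ∧ (orderOf u).Coprime m) = ∏ r ∈ σ,
      if r ∣ m then 1 else (Nat.card ((A.R r : Subgroup G) ⊓ C : Subgroup G) : ℚ) := by
  rw [Sys.hall, sum_mult _ C m σ (fun r hr r' hr' _ => hc r hr r' hr')
    fun r hr r' hr' h => coprime_card_sylow (hσ r hr) (hσ r' hr') h _ _]
  exact Finset.prod_congr rfl fun r hr => sum_sylow (hσ r hr) _ C m

lemma card_hall_inf (A : Sys G) (C : Subgroup G) (σ : Finset ℕ) (hσ : ∀ r ∈ σ, r.Prime)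
    (hc : ∀ r ∈ σ, ∀ r' ∈ σ, ∀ x ∈ A.R r, ∀ y ∈ A.R r', x * y = y * x) :
    (Nat.card (A.hall σ ⊓ C : Subgroup G) : ℚ) =
      ∏ r ∈ σ, (Nat.card ((A.R r : Subgroup G) ⊓ C : Subgroup G) : ℚ) := by
  have := sum_hall A C 1 σ hσ hc
  rw [Finset.prod_congr rfl fun r hr => if_neg (mt Nat.dvd_one.1 (hσ r hr).one_lt.ne')] at this
  rw [← this, ← sum_mem]
  exact Finset.sum_congr rfl fun u _ => by
    rw [← ind_and]
    exact ind_congr ⟨fun e => ⟨e.1, e.2, by simp⟩, fun e => ⟨e.1, e.2.1⟩⟩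

end D

end Pool.Agent.Lib.MP_cb9dee_al
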