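import Pool.Agent.Lib.MP_cb9dee_al.DDat
import Pool.Agent.Lib.MP_cb9dee_al.DSum

namespace Pool.Agent.Lib.MP_cb9dee_al

namespace D

open Subgroup Pointwise

variable {O S O' S' : Type} [Group O] [Group S] [Group O'] [Group S']
  [Fintype O] [Fintype S] [Fintype O'] [Fintype S']

namespace Dat

variable (E : Dat O S)

open Classical in
/-- The primes with a normal Sylow subgroup. -/
noncomputable def PPs : Finset ℕ := (Nat.card O).primeFactors.filter E.A.PP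

open Classical in
/-- The primes without a normal Sylow subgroup. -/
noncomputable def NNs : Finset ℕ := (Nat.card O).primeFactors.filter E.A.NN

omit [Fintype S] in
lemma mem_PPs {p : ℕ} : p ∈ E.PPs ↔ E.A.PP p := by
  classical
  exact ⟨fun h => (Finset.mem_filter.1 h).2, fun h => Finset.mem_filter.2
    ⟨Nat.mem_primeFactors.2 ⟨h.1, h.2.2.1, Nat.card_pos.ne'⟩, h⟩⟩

omit [Fintype S] in
lemma mem_NNs {p : ℕ} : p ∈ E.NNs ↔ E.A.NN p := by
  classical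
  exact ⟨fun h => (Finset.mem_filter.1 h).2, fun h => Finset.mem_filter.2
    ⟨Nat.mem_primeFactors.2 ⟨h.1, h.dvd, Nat.card_pos.ne'⟩, h⟩⟩

/-- The index of the fixed subgroup. -/
noncomputable def X (r : ℕ) (s : S) : ℚ := if r.Prime then (E.cd r : ℚ) / E.fx r s else 1

omit [Fintype S] in
lemma X_mul {r : ℕ} (hr : r.Prime) (s : S) : E.X r s * E.fx r s = E.cd r := by
  rw [X, if_pos hr, div_mul_cancel₀ _ (Nat.cast_ne_zero.2 (E.fx_pos r s).ne')]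

open Classical in
/-- The local factor at a normal Sylow subgroup. -/
noncomputable def gg (p : ℕ) (z : S × O) : ℚ :=
  if ∀ u ∈ E.A.R p, z.2 * u = u * z.2 then E.X p z.1 else E.cd p

/-- The weight of a pair. -/
noncomputable def W (k m : ℕ) (z : S × O) : ℚ :=
  ind (orderOf z.1 = k) * (∏ q ∈ E.NNs, E.X q z.1) *
    (ind (z.2 ∈ E.A.hall E.NNs) * ind (z.2 ∈ fixS (E.φ z.1) ∧ (orderOf z.2).Coprime m))

omit [Fintype O] [Fintype S] in
lemma hall_inv {σ : Finset ℕ} (hσ : ∀ r ∈ σ, r.Prime) (s : S) :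
    ∀ x ∈ E.A.hall σ, E.φ s x ∈ E.A.hall σ := by
  have : E.A.hall σ ≤ (E.A.hall σ).comap (E.φ s).toMonoidHom :=
    iSup₂_le fun r hr x hx => E.A.le_hall hr (E.inv r (hσ r hr) s x hx)
  exact fun x hx => this hx

omit [Fintype S] in
lemma nn_comm : ∀ r ∈ E.NNs, ∀ r' ∈ E.NNs, ∀ x ∈ E.A.R r, ∀ y ∈ E.A.R r', x * y = y * x :=
  fun r hr r' hr' => by
    have h := E.mem_NNs.1 hr
    have h' := E.mem_NNs.1 hr'
    exact E.A.hcomm r r' h.1 h'.1 h.2.1 h'.2.1 h.2.2 h'.2.2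

omit [Fintype S] in
lemma normal_F : (E.A.hall E.PPs).Normal := ⟨fun x hx g => nm_biSup _ _ g
  (fun _ hp b hb => E.A.le_hall hp ((E.mem_PPs.1 hp).2.2.2.conj_mem b hb g)) x hx⟩

omit [Fintype S] in
lemma cop_Y {p : ℕ} (hp : p ∈ E.PPs) : ¬ p ∣ Nat.card (E.A.hall E.NNs) := fun h =>
  (E.mem_NNs.1 (E.A.mem_of_dvd_card_hall (fun _ h => (E.mem_NNs.1 h).1) (E.mem_PPs.1 hp).1 h)).2.2
    (E.mem_PPs.1 hp).2.2.2

omit [Fintype S] in
lemma cop_YF : (Nat.card (E.A.hall E.NNs)).Coprime (Nat.card (E.A.hall E.PPs)) :=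
  Nat.coprime_of_dvd fun _ hq h h' =>
    E.cop_Y (E.A.mem_of_dvd_card_hall (fun _ h => (E.mem_PPs.1 h).1) hq h') h

end Dat

namespace Hyp

variable {E : Dat O S} {E' : Dat O' S'} (H : Hyp E E')
include H

lemma pp_comm : ∀ r ∈ E.PPs, ∀ r' ∈ E.PPs, ∀ x ∈ E.A.R r, ∀ y ∈ E.A.R r', x * y = y * x :=
  fun r hr r' hr' _ hx _ hy => by
    have h := E.mem_PPs.1 hr
    have h' := E.mem_PPs.1 hr'
    exact comm_of_normal h.1 h'.1 H.small _ _ h.2.2.2 h'.2.2.2 hx hy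

lemma PPs_eq : E.PPs = E'.PPs := by
  ext p
  rw [E.mem_PPs, E'.mem_PPs]
  exact ⟨H.ctx.pp _, H.symm.ctx.pp _⟩

lemma NNs_eq : E.NNs = E'.NNs := by
  ext p
  rw [E.mem_NNs, E'.mem_NNs]
  exact ⟨H.ctx.nn _, H.symm.ctx.nn _⟩

lemma sum_fix (s : S) (Φ : O → ℚ) : ∑ u, ind (E.φ s u = u) * Φ u =
    ∑ y, ind (y ∈ E.A.hall E.NNs ⊓ fixS (E.φ s)) *
      ∑ f, ind (f ∈ E.A.hall E.PPs ⊓ fixS (E.φ s)) * Φ (y * f) := by
  have hd := disjoint_of_coprime_natCard E.cop_YF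
  rw [← sum_sup (A := E.A.hall E.NNs ⊓ fixS (E.φ s)) (B := E.A.hall E.PPs ⊓ fixS (E.φ s))
    (fun a ha b hb => ⟨E.normal_F.conj_mem b hb.1 a,
    (fixS _).mul_mem ((fixS _).mul_mem ha.2 hb.2) ((fixS _).inv_mem ha.2)⟩) (hd.mono inf_le_left inf_le_left)]
  refine Finset.sum_congr rfl fun u _ => congrArg (· * Φ u) (ind_congr ⟨fun h => ?_,
    fun h => (sup_le inf_le_right inf_le_right : _ ≤ fixS (E.φ s)) h⟩)
  have h1 : E.A.hall E.NNs ⊔ E.A.hall E.PPs = ⊤ := by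
    rw [eq_top_iff, ← E.A.hall_top]
    refine iSup₂_le fun r hr => ?_
    rcases pp_or_nn E.A H.odd (Nat.prime_of_mem_primeFactors hr) (Nat.dvd_of_mem_primeFactors hr)
      with h1 | h1
    · exact le_sup_of_le_right (E.A.le_hall (E.mem_PPs.2 h1))
    · exact le_sup_of_le_left (E.A.le_hall (E.mem_NNs.2 h1))
  have := E.normal_F
  obtain ⟨y, hy, f, hf, rfl⟩ :
      u ∈ (E.A.hall E.NNs : Set O) * (E.A.hall E.PPs : Set O) := by
    rw [← mul_normal, h1]; trivial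
  have h2 : y⁻¹ * E.φ s y = f * (E.φ s f)⁻¹ := by
    rw [inv_mul_eq_iff_eq_mul, ← mul_assoc, eq_mul_inv_iff_mul_eq, ← map_mul]
    exact h
  have h3 := disjoint_def.1 hd
    (mul_mem (inv_mem hy) (E.hall_inv (fun _ h => (E.mem_NNs.1 h).1) s y hy))
    (h2 ▸ mul_mem hf (inv_mem (E.hall_inv (fun _ h => (E.mem_PPs.1 h).1) s f hf)))
  exact mul_mem (mem_sup_left ⟨hy, (inv_mul_eq_one.1 h3).symm⟩)
    (mem_sup_right ⟨hf, (mul_inv_eq_one.1 (h2 ▸ h3)).symm⟩)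

lemma card_fix (s : S) : (Nat.card (fixS (E.φ s)) : ℚ) =
    (∏ q ∈ E.NNs, (E.fx q s : ℚ)) * ∏ p ∈ E.PPs, (E.fx p s : ℚ) := by
  have := H.sum_fix s fun _ => 1
  simp only [mul_one, ← Finset.sum_mul, sum_mem] at this
  rw [card_hall_inf _ _ _ (fun _ h => (E.mem_NNs.1 h).1) E.nn_comm,
    card_hall_inf _ _ _ (fun _ h => (E.mem_PPs.1 h).1) H.pp_comm] at this
  rw [← sum_mem]
  exact this

lemma index_fix (s : S) : ((fixS (E.φ s)).index : ℚ) =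
    (∏ q ∈ E.NNs, E.X q s) * ∏ p ∈ E.PPs, E.X p s := by
  have h1 := H.card_fix 1
  have h2 : fixS (E.φ 1) = ⊤ := by rw [map_one]; exact eq_top_iff.2 fun _ _ => rfl
  simp only [Dat.fx, h2, inf_top_eq, card_top] at h1
  have h3 : (Nat.card (fixS (E.φ s)) : ℚ) ≠ 0 := Nat.cast_ne_zero.2 Nat.card_pos.ne'
  apply mul_right_cancel₀ h3
  rw [← Nat.cast_mul, index_mul_card, H.card_fix, h1, mul_mul_mul_comm, ← Finset.prod_mul_distrib,
    ← Finset.prod_mul_distrib, Finset.prod_congr rfl fun q hq => E.X_mul (E.mem_NNs.1 hq).1 s,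
    Finset.prod_congr rfl fun q hq => E.X_mul (E.mem_PPs.1 hq).1 s]
  rfl

lemma gg_mul {p : ℕ} (hp : E.A.PP p) (s : S) (y : O) : E.gg p (s, y) *
    Nat.card ((E.A.R p : Subgroup O) ⊓ (fixS (E.φ s) ⊓ centralizer {y}) : Subgroup O) = E.cd p := by
  unfold Dat.gg
  split_ifs with h
  · rw [← E.X_mul hp.1 s, Dat.fx]
    congr 4
    ext u
    exact ⟨fun e => ⟨e.1, e.2.1⟩, fun e => ⟨e.1, e.2, mem_centralizer_singleton_iff.2 (h u e.1).symm⟩⟩
  · rw [card_eq_one.2, Nat.cast_one, mul_one]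
    rw [eq_bot_iff]
    intro u hu
    by_contra h1
    exact h (cent_of_fix H.small hp.1 _ hp.2.2.2 (fun e => H.odd (e.trans (orderOf_dvd_natCard y)))
      hu.1 h1 (mem_centralizer_singleton_iff.1 hu.2.2).symm)

lemma cnt_eq (k m : ℕ) (hm : ∀ p ∈ E.PPs, ¬ p ∣ m) (B : Finset ℕ) (hB : B ⊆ E.PPs) :
    D.cnt E.φ k (fun o => ind (o.Coprime (m * ∏ p ∈ B, p))) =
      (∏ p ∈ E.PPs \ B, (E.cd p : ℚ)) * ∑ z, E.W k m z * ∏ p ∈ B, E.gg p z := by
  rw [D.cnt, Fintype.sum_prod_type, Finset.mul_sum]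
  refine Finset.sum_congr rfl fun s _ => ?_
  rw [H.sum_fix, H.index_fix, Finset.mul_sum, Finset.mul_sum, Finset.mul_sum]
  refine Finset.sum_congr rfl fun y _ => ?_
  simp only [Dat.W]
  by_cases hy : y ∈ E.A.hall E.NNs ⊓ fixS (E.φ s)
  swap
  · rw [← ind_and, ind_neg hy, ind_neg (p := y ∈ E.A.hall E.NNs ∧ y ∈ fixS (E.φ s) ∧ _)
      fun e => hy ⟨e.1, e.2.1⟩]
    simp
  have ho := Subgroup.orderOf_dvd_natCard _ hy.1
  have hPP : ∀ p ∈ E.PPs, p.Prime := fun _ h => (E.mem_PPs.1 h).1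
  rw [fib_ind (E.A.hall E.PPs ⊓ fixS (E.φ s)) y (fun u hu => ⟨E.normal_F.conj_mem u hu.1 y,
    (fixS _).mul_mem ((fixS _).mul_mem hy.2 hu.2) ((fixS _).inv_mem hy.2)⟩)
    ((E.cop_YF.coprime_dvd_left ho).coprime_dvd_right (card_dvd_of_le inf_le_left))
    fun o => ind (o.Coprime (m * ∏ p ∈ B, p))]
  have e1 : ∀ c : O, ind (c ∈ E.A.hall E.PPs ⊓ fixS (E.φ s) ⊓ centralizer {y}) *
      ind ((orderOf y * orderOf c).Coprime (m * ∏ p ∈ B, p)) =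
      ind ((orderOf y).Coprime m) * (ind (c ∈ E.A.hall E.PPs) *
        ind (c ∈ fixS (E.φ s) ⊓ centralizer {y} ∧ (orderOf c).Coprime (m * ∏ p ∈ B, p))) := by
    intro c
    have : (orderOf y).Coprime (∏ p ∈ B, p) := Nat.Coprime.prod_right fun p hp =>
      ((Nat.Prime.coprime_iff_not_dvd (hPP p (hB hp))).2 fun e => E.cop_Y (hB hp) (e.trans ho)).symm
    simp only [← ind_and, Nat.coprime_mul_iff_left, mem_inf]
    rw [Nat.coprime_mul_iff_right (k := orderOf y)]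
    exact ind_congr (by tauto)
  simp only [e1]
  rw [← Finset.mul_sum, sum_hall _ _ _ _ hPP H.pp_comm, ind_pos hy, ind_pos (mem_inf.1 hy).1,
    ind_and (y ∈ _), ind_pos (mem_inf.1 hy).2]
  have e2 := congrArg (Nat.cast (R := ℚ))
    (card_inf_mul (E.A.hall E.PPs ⊓ fixS (E.φ s)) (centralizer {y}))
  rw [Nat.cast_mul, inf_assoc, card_hall_inf _ _ _ hPP H.pp_comm,
    card_hall_inf _ _ _ hPP H.pp_comm] at e2
  have e3 : ∀ p ∈ E.PPs, p ∣ m * ∏ p ∈ B, p ↔ p ∈ B := fun p hp => by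
    rw [(hPP p hp).dvd_mul, (hPP p hp).prime.dvd_finsetProd_iff]
    refine ⟨?_, fun h => Or.inr ⟨p, h, dvd_rfl⟩⟩
    rintro (h | ⟨q, hq, h⟩)
    · exact (hm p hp h).elim
    · rwa [(Nat.prime_dvd_prime_iff_eq (hPP p hp) (hPP q (hB hq))).1 h]
  rw [← Finset.prod_sdiff hB (f := fun r => if r ∣ _ then _ else _),
    Finset.prod_congr rfl fun p hp => if_neg (mt (e3 p (Finset.mem_sdiff.1 hp).1).1
      (Finset.mem_sdiff.1 hp).2),
    Finset.prod_eq_one fun p hp => if_pos ((e3 p (hB hp)).2 hp)]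
  have e4 : (∏ p ∈ B, E.gg p (s, y)) * ∏ p ∈ B, (Nat.card ((E.A.R p : Subgroup O) ⊓
      (fixS (E.φ s) ⊓ centralizer {y}) : Subgroup O) : ℚ) = ∏ p ∈ B, (E.cd p : ℚ) := by
    rw [← Finset.prod_mul_distrib]
    exact Finset.prod_congr rfl fun p hp => H.gg_mul (E.mem_PPs.1 (hB hp)) s y
  have e5 : (∏ p ∈ E.PPs, E.X p s) * ∏ p ∈ E.PPs, (E.fx p s : ℚ) = ∏ p ∈ E.PPs, (E.cd p : ℚ) := by
    rw [← Finset.prod_mul_distrib]
    exact Finset.prod_congr rfl fun p hp => E.X_mul (hPP p hp) s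
  have e6 : ∏ p ∈ B, (Nat.card ((E.A.R p : Subgroup O) ⊓
      (fixS (E.φ s) ⊓ centralizer {y}) : Subgroup O) : ℚ) ≠ 0 :=
    Finset.prod_ne_zero_iff.2 fun p _ => Nat.cast_ne_zero.2 Nat.card_pos.ne'
  rw [← Finset.prod_sdiff hB] at e2
  rw [← Finset.prod_sdiff hB (f := fun p => (E.cd p : ℚ)), ← e4] at e5
  apply mul_right_cancel₀ e6
  unfold Dat.fx at e5
  rw [← e2] at e5
  linear_combination (ind (orderOf s = k) * (∏ q ∈ E.NNs, E.X q s) *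
    ind ((orderOf y).Coprime m)) * e5

end Hyp

end D

end Pool.Agent.Lib.MP_cb9dee_al
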