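import Pool.Agent.Lib.MP_cb9dee_al.DGamma
import Pool.Agent.Lib.MP_cb9dee_al.DArith

namespace Pool.Agent.Lib.MP_cb9dee_al

namespace D

open Subgroup

/-- Restriction of an action to an invariant subgroup. -/
def resHom {O S : Type*} [Group O] [Group S] (φ : S →* MulAut O) (L : Subgroup O)
    (h : ∀ s, ∀ x ∈ L, φ s x ∈ L) : S →* MulAut L where
  toFun s :=
    { toFun := fun x => ⟨φ s x, h s x x.2⟩
      invFun := fun x => ⟨φ s⁻¹ x, h s⁻¹ x x.2⟩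
      left_inv := fun x => Subtype.ext (by simp)
      right_inv := fun x => Subtype.ext (by simp)
      map_mul' := fun x y => Subtype.ext (by simp) }
  map_one' := by ext x; simp
  map_mul' s t := by ext x; simp

lemma card_inf_res {O : Type*} [Group O] (L K : Subgroup O) :
    Nat.card (K.subgroupOf L) = Nat.card (L ⊓ K : Subgroup O) := by
  rw [inf_comm, ← inf_subgroupOf_right]
  exact Nat.card_congr (subgroupOfEquivOfLe inf_le_right).toEquiv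

/-- An odd group with an action of a `2`-group and an invariant Sylow system. -/
structure Dat (O S : Type) [Group O] [Group S] where
  φ : S →* MulAut O
  A : Sys O
  inv : ∀ r, r.Prime → ∀ s, ∀ x ∈ A.R r, φ s x ∈ A.R r

variable {O S O' S' : Type} [Group O] [Group S] [Group O'] [Group S']

namespace Dat

variable (E : Dat O S)

/-- The action on a Sylow subgroup. -/
def rho {r : ℕ} (hr : r.Prime) : S →* MulAut (E.A.R r : Subgroup O) :=
  resHom E.φ _ (E.inv r hr)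

lemma rho_apply {r : ℕ} (hr : r.Prime) (s : S) (x : (E.A.R r : Subgroup O)) :
    (E.rho hr s x : O) = E.φ s x := rfl

/-- The order of a Sylow subgroup. -/
noncomputable def cd (r : ℕ) : ℕ := Nat.card (E.A.R r : Subgroup O)

/-- The number of fixed points in a Sylow subgroup. -/
noncomputable def fx (r : ℕ) (s : S) : ℕ :=
  Nat.card ((E.A.R r : Subgroup O) ⊓ fixS (E.φ s) : Subgroup O)

lemma fix_rho {r : ℕ} (hr : r.Prime) (s : S) :
    fixS (E.rho hr s) = (fixS (E.φ s)).subgroupOf (E.A.R r) := by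
  ext x
  exact Subtype.ext_iff

lemma card_fix {r : ℕ} (hr : r.Prime) (s : S) : Nat.card (fixS (E.rho hr s)) = E.fx r s := by
  rw [fix_rho, card_inf_res, fx]

lemma isCj_rho {p : ℕ} (hp : p.Prime) {a : MulAut (E.A.R p : Subgroup O)} {y : O} (h : IsCj a y)
    (s : S) : IsCj (E.rho hp s * a * (E.rho hp s)⁻¹) (E.φ s y) := by
  intro x
  obtain ⟨x, rfl⟩ := (E.rho hp s).surjective x
  rw [MulAut.mul_apply, MulAut.mul_apply, MulAut.inv_apply, MulEquiv.symm_apply_apply,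
    rho_apply, rho_apply, h, map_mul, map_mul, map_inv]

lemma acts_inv {p : ℕ} (hp : p.Prime) (s : S) :
    ∀ a ∈ E.A.acts p, E.rho hp s * a * (E.rho hp s)⁻¹ ∈ E.A.acts p := by
  rintro a ⟨q, g, hq, hg, h⟩
  exact ⟨q, _, hq, E.inv q hq.1 s g hg, E.isCj_rho hp h s⟩

lemma comm_iff {p : ℕ} (hp : E.A.PP p) (s : S) (y : O) :
    cjN _ hp.2.2.2 y * E.rho hp.1 s = E.rho hp.1 s * cjN _ hp.2.2.2 y ↔
      ∀ u ∈ E.A.R p, y⁻¹ * E.φ s y * u = u * (y⁻¹ * E.φ s y) := by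
  have h1 := (E.isCj_rho hp.1 (isCj_cjN hp.2.2.2 y) s).unique (isCj_cjN hp.2.2.2 _)
  refine Iff.trans ?_ (isCj_cjN hp.2.2.2 (y⁻¹ * E.φ s y)).eq_one_iff
  rw [map_mul, map_inv, ← h1, inv_mul_eq_one, eq_mul_inv_iff_mul_eq]

variable [Finite O]

lemma cd_pos (r : ℕ) : 0 < E.cd r := Nat.card_pos

lemma fx_pos (r : ℕ) (s : S) : 0 < E.fx r s := Nat.card_pos

omit [Finite O] in
lemma fx_dvd (r : ℕ) (s : S) : E.fx r s ∣ E.cd r := card_dvd_of_le inf_le_left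

lemma rho_eq_one {r : ℕ} (hr : r.Prime) {s : S} : E.rho hr s = 1 ↔ E.fx r s = E.cd r := by
  rw [eq_one_iff_card, card_fix, cd]

omit [Finite O] in
lemma alpha {p : ℕ} (hp : E.A.PP p) (h : E.cd p = p) (s : S) (y : O) :
    ∀ u ∈ E.A.R p, y⁻¹ * E.φ s y * u = u * (y⁻¹ * E.φ s y) := by
  have := Fact.mk hp.1
  have := isCyclic_of_prime_card h
  exact (E.comm_iff hp s y).1 (mulAut_comm_of_cyclic _ _)

omit [Finite O] in
lemma exists_actor {p q : ℕ} (hp : E.A.PP p) (h : E.A.kr q p ≠ ⊤) :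
    ∃ y ∈ E.A.R q, y ≠ 1 ∧ cjN _ hp.2.2.2 y ≠ 1 := by
  obtain ⟨x, -, hx⟩ := SetLike.exists_of_lt (lt_top_iff_ne_top.2 h)
  have h1 : cjN _ hp.2.2.2 (x : O) ≠ 1 := fun e =>
    hx (E.A.mem_kr.2 ((isCj_cjN hp.2.2.2 (x : O)).eq_one_iff.1 e))
  exact ⟨x, x.2, fun e => h1 (by rw [e, map_one]), h1⟩

omit [Finite O] in
lemma bot_or_top {q : ℕ} (hq : q.Prime) (h : E.cd q = q) (L : Subgroup (E.A.R q : Subgroup O)) :
    L = ⊥ ∨ L = ⊤ := by
  have := Fact.mk (show (E.cd q).Prime by rw [h]; exact hq)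
  exact @eq_bot_or_eq_top_of_prime_card _ _ L this

end Dat

/-- The number of elements of the semidirect product, weighted by a function of the order. -/
noncomputable def cnt [Fintype O] [Fintype S] (φ : S →* MulAut O) (k : ℕ) (ψ : ℕ → ℚ) : ℚ :=
  ∑ s, ind (orderOf s = k) * ((fixS (φ s)).index * ∑ y, ind (φ s y = y) * ψ (orderOf y))

variable [Fintype O] [Fintype S] [Fintype O'] [Fintype S']

/-- The standing hypotheses. -/
structure Hyp (E : Dat O S) (E' : Dat O' S') : Prop where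
  cO : Nat.card O = Nat.card O'
  cS : Nat.card S = Nat.card S'
  odd : ¬ 2 ∣ Nat.card O
  h48 : Nat.card S = 4 ∨ Nat.card S = 8
  full : Full (Nat.card O * Nat.card S)
  cnt : ∀ k ψ, cnt E.φ k ψ = cnt E'.φ k ψ

lemma cnt_one (φ : S →* MulAut O) (ψ : ℕ → ℚ) : cnt φ 1 ψ = ∑ y : O, ψ (orderOf y) := by
  rw [cnt, Finset.sum_eq_single 1, ind_pos orderOf_one, map_one,
    show fixS (1 : MulAut O) = ⊤ from eq_top_iff.2 fun _ _ => rfl, index_top]
  · simp [ind_pos]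
  · intro s _ hs
    rw [ind_neg (mt orderOf_eq_one_iff.1 hs), zero_mul]
  · simp

omit [Fintype O] in
lemma pp_or_nn (A : Sys O) (h : ¬ 2 ∣ Nat.card O) {r : ℕ} (hr : r.Prime) (hd : r ∣ Nat.card O) :
    A.PP r ∨ A.NN r := by
  have h2 : r ≠ 2 := fun e => h (e ▸ hd)
  by_cases hn : (A.R r : Subgroup O).Normal
  · exact Or.inl ⟨hr, h2, hd, hn⟩
  · exact Or.inr ⟨hr, h2, hn⟩

namespace Hyp

variable {E : Dat O S} {E' : Dat O' S'} (H : Hyp E E')
include H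

lemma symm : Hyp E' E :=
  ⟨H.cO.symm, H.cS.symm, H.cO ▸ H.odd, H.cS ▸ H.h48, H.cO ▸ H.cS ▸ H.full,
    fun k ψ => (H.cnt k ψ).symm⟩

lemma four : 4 ∣ Nat.card O * Nat.card S :=
  Dvd.dvd.mul_left (H.h48.elim (·.symm.dvd) fun h => h ▸ ⟨2, rfl⟩) _

lemma eight : Nat.card S ∣ 8 := H.h48.elim (fun h => h ▸ ⟨2, rfl⟩) fun h => h.dvd

lemma small : Small (Nat.card O) := by
  refine ⟨fun p hp h => ?_, fun p q hp hq h2 h3 h4 => ?_⟩
  · exact H.full.1 p hp (fun e => H.odd (e ▸ (dvd_pow_self p three_ne_zero).trans h))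
      (h.mul_right _)
  · exact H.full.2.1 p q hp hq h2 (h3.mul_right _) (h4.mul_right _)
      fun e => H.odd (e ▸ (dvd_pow_self p two_ne_zero).trans h4)

lemma ctx : Ctx O O' := by
  refine ⟨fun d _ => ?_, H.cO, fun h => H.odd ((by norm_num : 2 ∣ 4).trans h), H.small⟩
  have := H.cnt 1 fun m => ind (m ∣ d)
  rw [cnt_one, cnt_one] at this
  simp only [orderOf_dvd_iff_pow_eq_one, sum_ind] at this
  exact_mod_cast this

lemma cd_eq {r : ℕ} (hr : r.Prime) : E.cd r = E'.cd r := H.ctx.card_sylow hr _ _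

set_option linter.unusedSectionVars false in
lemma sq_dvd {r : ℕ} (h : E.cd r = r ^ 2) : r ^ 2 ∣ Nat.card O * Nat.card S :=
  (h.symm.dvd.trans (card_subgroup_dvd_card (E.A.R r : Subgroup O))).mul_right _

lemma cd_dvd {r : ℕ} (hr : r.Prime) : E.cd r ∣ r ^ 2 := by
  have := Fact.mk hr
  exact card_sylow_dvd H.small _

lemma cd_cases {r : ℕ} (hr : r.Prime) (h2 : r ≠ 2) :
    E.cd r ∣ r ∨ (E.cd r = r ^ 2 ∧ r % 4 = 3) := by
  obtain ⟨k, hk, e⟩ := (Nat.dvd_prime_pow hr).1 (H.cd_dvd hr)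
  rcases hk.lt_or_eq with hk | rfl
  · exact Or.inl (e ▸ (pow_dvd_pow r (Nat.lt_succ_iff.1 hk)).trans (pow_one r).dvd)
  · exact Or.inr ⟨e, three_mod H.full H.four hr h2 (H.sq_dvd e)⟩

lemma cd_cases' {r : ℕ} (hr : r.Prime) (hd : r ∣ Nat.card O) :
    E.cd r = r ∨ (E.cd r = r ^ 2 ∧ r % 4 = 3) := by
  have := Fact.mk hr
  exact (card_sylow_cases H.small _ hd).imp id fun e =>
    ⟨e, three_mod H.full H.four hr (fun e => H.odd (e ▸ hd)) (H.sq_dvd e)⟩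

lemma rho_eight {r : ℕ} (hr : r.Prime) (s : S) : E.rho hr s ^ 8 = 1 := by
  rw [← map_pow, pow_eight H.eight, map_one]

lemma exists_target {q : ℕ} (hq : E.A.NN q) : ∃ p, E.A.PP p ∧ E.A.kr q p ≠ ⊤ := by
  by_contra! h
  apply hq.2.2
  rw [← normalizer_eq_top_iff, eq_top_iff, ← E.A.hall_top]
  refine iSup₂_le fun r hr => le_normalizer_of_conj fun g hg b hb => ?_
  rcases pp_or_nn E.A H.odd (Nat.prime_of_mem_primeFactors hr) (Nat.dvd_of_mem_primeFactors hr)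
    with h1 | h1
  · have h2 : b * g = g * b :=
      E.A.mem_kr.1 (h r h1 ▸ mem_top (⟨b, hb⟩ : (E.A.R q : Subgroup O))) g hg
    rw [← h2, mul_inv_cancel_right]
    exact hb
  · rw [E.A.hcomm r q h1.1 hq.1 h1.2.1 hq.2.1 h1.2.2 hq.2.2 g hg b hb, mul_inv_cancel_right]
    exact hb

lemma acted {p q : ℕ} (hp : E.A.PP p) (hq : E.A.NN q) (h : E.A.kr q p ≠ ⊤) :
    (E.cd p = p → q ∣ p - 1) ∧ p ∈ Acted q (Nat.card O * Nat.card S) := by
  obtain ⟨x, -, hx⟩ := SetLike.exists_of_lt (lt_top_iff_ne_top.2 h)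
  have := (acted_of_ne E.A H.small hp hq x.2 0 fun e => hx (E.A.mem_kr.2
    ((isCj_cjN hp.2.2.2 (x : O)).eq_one_iff.1 (by simpa using e)))).2
  rw [zero_add, pow_one] at this
  exact ⟨this.1, Acted.mono (dvd_mul_right _ _) this.2⟩

lemma beta {p q : ℕ} (hp : E.A.PP p) (hq : E.A.NN q) (h : E.A.kr q p ≠ ⊤) (h2 : E.cd p = p ^ 2) :
    E.cd q = q ∧ E.A.kr q p = ⊥ := by
  have h1 : E.cd q = q := by
    refine (H.cd_cases' hq.1 hq.dvd).resolve_right fun e => ?_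
    rcases (H.acted hp hq h).2.2 with h3 | h3
    · exact H.full.2.1 p q hp.1 hq.1 hq.2.1 (hq.dvd.mul_right _) (H.sq_dvd h2) hp.2.1 h3.2
    · exact (H.full.2.2.2.2.2.1 H.four).2.2.2.1 p q hp.1 hq.1 hp.2.1 hq.2.1 h3.1
        (H.sq_dvd e.1) h3.2
  exact ⟨h1, (E.bot_or_top hq.1 h1 _).resolve_right h⟩

lemma beta_comm {p q : ℕ} (hp : E.A.PP p) (hq : E.A.NN q) (h : E.A.kr q p ≠ ⊤)
    (h2 : E.cd p = p ^ 2) {y : O} (hy : y ∈ E.A.R q) (hy1 : y ≠ 1) (s : S) :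
    cjN _ hp.2.2.2 y * E.rho hp.1 s = E.rho hp.1 s * cjN _ hp.2.2.2 y ↔ E.fx q s = E.cd q := by
  obtain ⟨h3, h4⟩ := H.beta hp hq h h2
  rw [E.comm_iff hp, ← E.rho_eq_one hq.1]
  constructor
  · intro h5
    have h6 : (⟨y, hy⟩ : (E.A.R q : Subgroup O))⁻¹ * E.rho hq.1 s ⟨y, hy⟩ ∈ E.A.kr q p :=
      E.A.mem_kr.2 h5
    rw [h4, mem_bot, inv_mul_eq_one] at h6
    exact Good.eq_one hq.1 (Or.inl h3) (fun e => hy1 (congrArg Subtype.val e)) h6.symm
  · intro h5 u _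
    have : E.φ s y = y := by rw [← E.rho_apply hq.1 s ⟨y, hy⟩, h5]; rfl
    simp [this]

lemma actor_model {p : ℕ} [Fact p.Prime] (hp : E.A.PP p) (h2 : E.cd p = p ^ 2)
    {a : MulAut (E.A.R p : Subgroup O)} (ha : a ∈ E.A.acts p) (ha1 : a ≠ 1) :
    ∃ e, Model (p := p) e a :=
  exists_model h2 a (irred_of_good hp.1 h2 ((E.A.good H.small hp ha).resolve_left fun e =>
    (Nat.pow_lt_pow_right hp.1.one_lt one_lt_two).ne'
      (h2.symm.trans (e.trans (pow_one p).symm))).2 ha1)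

lemma rho_sq {q : ℕ} (hq : E.A.NN q) (s : S) : E.rho hq.1 s * E.rho hq.1 s = 1 := by
  obtain ⟨p, hp, h⟩ := H.exists_target hq
  rcases H.cd_cases' hp.1 hp.2.2.1 with h1 | ⟨h1, -⟩
  · by_contra h2
    have h3 : ∀ x, x⁻¹ * E.rho hq.1 s x ∈ E.A.kr q p := fun x => E.A.mem_kr.2 (E.alpha hp h1 s x)
    have h4 : E.A.kr q p = ⊥ := by
      refine Or.resolve_right ?_ h
      rcases H.cd_cases' hq.1 hq.dvd with h5 | ⟨h5, h6⟩
      · exact E.bot_or_top hq.1 h5 _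
      · exact irr hq.1 h6 h5 (H.rho_eight hq.1 s) h2 _ fun x hx => by
          simpa using mul_mem hx (h3 x)
    refine h2 ?_
    rw [show E.rho hq.1 s = 1 from MulEquiv.ext fun x =>
      (inv_mul_eq_one.1 (mem_bot.1 (h4 ▸ h3 x))).symm, one_mul]
  · have := Fact.mk hp.1
    obtain ⟨y, hy, hy1, hy2⟩ := E.exists_actor hp h
    have ha : cjN _ hp.2.2.2 y ∈ E.A.acts p := ⟨q, y, hq, hy, isCj_cjN _ y⟩
    obtain ⟨e, he⟩ := H.actor_model hp h1 ha hy2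
    rw [← map_mul, E.rho_eq_one, ← H.beta_comm hp hq h h1 hy hy1, map_mul]
    exact he.sq (E.A.acts_comm _ ha _ (E.acts_inv hp.1 s _ ha))

lemma exists_fix {p k : ℕ} (hp : E.A.PP p) (h : ∃ s, orderOf s = k ∧ E.fx p s ≠ 1) :
    ∃ s, orderOf s = k ∧ E'.fx p s ≠ 1 := by
  have := Fact.mk hp.1
  obtain ⟨s, hs, h⟩ := h
  have h1 : D.cnt E.φ k (fun m => ind (m ≠ 1 ∧ m ∣ p ^ 2)) ≠ 0 := by
    obtain ⟨⟨y, hy⟩, hy1⟩ := ne_bot_iff_exists_ne_one.1 (mt card_eq_one.2 h)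
    refine ne_of_gt (Finset.sum_pos' (fun s _ => mul_nonneg (ind_nonneg _) (mul_nonneg
      (Nat.cast_nonneg _) (Finset.sum_nonneg fun y _ => mul_nonneg (ind_nonneg _) (ind_nonneg _))))
      ⟨s, Finset.mem_univ _, ?_⟩)
    rw [ind_pos hs, one_mul]
    refine mul_pos (Nat.cast_pos.2 (Nat.pos_of_ne_zero index_ne_zero_of_finite))
      (Finset.sum_pos' (fun y _ => mul_nonneg (ind_nonneg _) (ind_nonneg _))
        ⟨y, Finset.mem_univ _, ?_⟩)
    have h3 : orderOf y ≠ 1 ∧ orderOf y ∣ p ^ 2 := ⟨fun e => hy1 (Subtype.ext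
      (orderOf_eq_one_iff.1 e)), (Subgroup.orderOf_dvd_natCard _ hy.1).trans (H.cd_dvd hp.1)⟩
    simp only [ind_pos (show E.φ s y = y from hy.2), ind_pos h3]
    norm_num
  rw [H.cnt] at h1
  obtain ⟨s', hs', h2⟩ := exists_of_sum_ind_ne _ h1
  obtain ⟨y, hy, h3⟩ := exists_of_sum_ind_ne _ (right_ne_zero_of_mul h2)
  have h4 : orderOf y ≠ 1 ∧ orderOf y ∣ p ^ 2 := by
    by_contra e
    exact h3 (ind_neg e)
  refine ⟨s', hs', fun e => h4.1 (orderOf_eq_one_iff.2 (mem_bot.1 ?_))⟩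
  rw [← card_eq_one.1 e]
  exact ⟨mem_sylow_of_normal _ (H.ctx.pp E'.A hp).2.2.2 (orderOf_dvd_iff_pow_eq_one.1 h4.2), hy⟩

/-- The number of fixed points of a semilinear element. -/
lemma semi_fx {p q : ℕ} (hp : E.A.PP p) (hq : E.A.NN q) (h : E.A.kr q p ≠ ⊤)
    (h2 : E.cd p = p ^ 2) {s : S} (hs : E.fx q s ≠ E.cd q) :
    ((∃ t, orderOf t = orderOf s ∧ E.fx p t ≠ 1) → E.fx p s = p) ∧
      ((¬ ∃ t, orderOf t = orderOf s ∧ E.fx p t ≠ 1) → E.fx p s = 1) := by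
  refine ⟨?_, fun h3 => not_not.1 fun h4 => h3 ⟨s, rfl, h4⟩⟩
  rintro ⟨t, ht, h3⟩
  have h4 := three_mod H.full H.four hp.1 hp.2.1 (H.sq_dvd h2)
  have h5 : E.rho hp.1 t * E.rho hp.1 t = 1 := by
    by_contra h5
    rcases irr hp.1 h4 h2 (H.rho_eight hp.1 t) h5 (fixS (E.rho hp.1 t))
      (fun x hx => by rw [mem_fixS.1 hx]; exact hx) with e | e
    · exact h3 (by rw [← E.card_fix hp.1, e, card_bot])
    · exact h5 (by rw [(eq_one_iff_card (g := E.rho hp.1 t)).2 (by rw [e, card_top]), one_mul])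
  have h6 : E.rho hp.1 s * E.rho hp.1 s = 1 := by
    obtain ⟨k, hk⟩ := sq_mem H.eight ht.symm
    rw [← map_mul, ← hk, map_zpow, map_mul, h5, one_zpow]
  obtain ⟨y, hy, hy1, -⟩ := E.exists_actor hp h
  have h7 := mt (H.beta_comm hp hq h h2 hy hy1 s).1 hs
  rw [← E.card_fix hp.1]
  rcases card_subgroup_cases hp.1 h2 (fixS (E.rho hp.1 s)) with e | e | e
  · refine (h7 (MulEquiv.ext fun x => ?_)).elim
    have := inv_of_fix_bot (comm_of_card hp.1 (H.cd_dvd hp.1)) h6 e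
    rw [MulAut.mul_apply, MulAut.mul_apply, this, this, map_inv]
  · exact e
  · exact (h7 (by
      rw [(eq_one_iff_card (g := E.rho hp.1 s)).2 (by rw [e, card_top]), one_mul, mul_one])).elim

end Hyp

end D

end Pool.Agent.Lib.MP_cb9dee_al
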