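import Pool.Agent.Lib.MP_cb9dee_al.DTwo

namespace Pool.Agent.Lib.MP_cb9dee_al

namespace D

open Subgroup

variable {S S' : Type*} [Group S] [Group S'] [Fintype S] [Fintype S']

lemma mem_four {a u : S} (ha : orderOf a = 4) (hu : u ∈ zpowers a) :
    u = 1 ∨ u = a ∨ u = a * a ∨ u = a⁻¹ := by
  classical
  obtain ⟨k, hk, rfl⟩ := Finset.mem_image.1 (mem_zpowers_iff_mem_range_orderOf.1 hu)
  rw [ha, Finset.mem_range] at hk
  interval_cases k
  · simp
  · simp
  · simp [pow_two]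
  · right; right; right
    rw [eq_inv_iff_mul_eq_one, ← pow_succ, ← orderOf_dvd_iff_pow_eq_one, ha]

lemma eight_bij (hS : Nat.card S = 8) {a b : S} (ha : orderOf a = 4) (hb : b ∉ zpowers a) :
    Function.Bijective fun z : Fin 4 × Bool => a ^ (z.1 : ℕ) * cond z.2 b 1 := by
  rw [Nat.bijective_iff_injective_and_card, hS]
  refine ⟨?_, by simp⟩
  have key : ∀ i j : Fin 4, a ^ (i : ℕ) = a ^ (j : ℕ) → i = j := fun i j h =>
    Fin.ext (pow_injOn_Iio_orderOf (by rw [ha]; exact i.2) (by rw [ha]; exact j.2) h)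
  have key2 : ∀ i j : ℕ, a ^ i * b ≠ a ^ j := fun i j h => hb (by
    rw [eq_inv_mul_of_mul_eq h]
    exact mul_mem (inv_mem (pow_mem (mem_zpowers a) i)) (pow_mem (mem_zpowers a) j))
  rintro ⟨i, _ | _⟩ ⟨j, _ | _⟩ h <;> simp only [cond_true, cond_false, mul_one, mul_left_inj] at h
  · rw [key i j h]
  · exact (key2 _ _ h.symm).elim
  · exact (key2 _ _ h).elim
  · rw [key i j h]

omit [Fintype S] in
lemma pow_three_eq {a : S} (ha : orderOf a = 4) : a ^ 3 = a⁻¹ := by
  rw [eq_inv_iff_mul_eq_one, ← pow_succ, ← orderOf_dvd_iff_pow_eq_one, ha]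

lemma sum_eight (hS : Nat.card S = 8) {a b : S} (ha : orderOf a = 4) (hb : b ∉ zpowers a)
    (G : S → ℕ) : ∑ s, G s = G 1 + G a + G (a * a) + G a⁻¹ +
      (G b + G (a * b) + G (a * a * b) + G (a⁻¹ * b)) := by
  rw [← Fintype.sum_bijective _ (eight_bij hS ha hb) _ G fun _ => rfl, Fintype.sum_prod_type]
  simp [Fin.sum_univ_four, pow_two, pow_three_eq ha]
  ring

lemma cases_eight (hS : Nat.card S = 8) {a b : S} (ha : orderOf a = 4) (hb : b ∉ zpowers a)
    (s : S) : s = 1 ∨ s = a ∨ s = a * a ∨ s = a⁻¹ ∨ s = b ∨ s = a * b ∨ s = a * a * b ∨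
      s = a⁻¹ * b := by
  obtain ⟨⟨i, j⟩, rfl⟩ := (eight_bij hS ha hb).2 s
  fin_cases i <;> cases j <;> simp [pow_two, pow_three_eq ha]

omit [Fintype S] in
lemma sq_ne {a : S} (ha : orderOf a = 4) : a * a ≠ 1 := by
  rw [Ne, sq_iff, ha]; norm_num

omit [Fintype S] in
lemma pow_four {a : S} (ha : orderOf a = 4) : a * a * (a * a) = 1 := by
  rw [← pow_two, ← pow_two, ← pow_mul, ← orderOf_dvd_iff_pow_eq_one, ha]

lemma rel_eight (hS : Nat.card S = 8) (h8 : ∀ s : S, orderOf s ≠ 8) {a : S} (ha : orderOf a = 4)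
    (b : S) : (b * a * b⁻¹ = a ∨ b * a * b⁻¹ = a⁻¹) ∧ (b * b = 1 ∨ b * b = a * a) := by
  have hi := index_two hS ((Nat.card_zpowers a).trans ha)
  have h4 : b * b * (b * b) = 1 := by
    have := order_cases hS.dvd b
    have h := h8 b
    rw [← pow_two, ← pow_two, ← pow_mul, ← orderOf_dvd_iff_pow_eq_one]
    rcases this with e | e | e | e <;> rw [e] at h ⊢ <;> omega
  constructor
  · have ho : orderOf (b * a * b⁻¹) = 4 := ((MulAut.conj b).orderOf_eq a).trans ha
    rcases mem_four ha ((normal_of_index_eq_two hi).conj_mem a (mem_zpowers a) b) with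
      e | e | e | e
    · exact (sq_ne ho (by rw [e, one_mul])).elim
    · exact Or.inl e
    · exact (sq_ne ho (by rw [e, pow_four ha])).elim
    · exact Or.inr e
  · rcases mem_four ha (mul_self_mem_of_index_two hi b) with e | e | e | e
    · exact Or.inl e
    · exact (sq_ne ha (by rwa [e] at h4)).elim
    · exact Or.inr e
    · exact (sq_ne ha (by rwa [e, ← mul_inv_rev, inv_eq_one] at h4)).elim

lemma comm_eight (hS : Nat.card S = 8) {a b : S} (ha : orderOf a = 4) (hb : b ∉ zpowers a)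
    (h : b * a * b⁻¹ = a) (s t : S) : s * t = t * s := by
  have h1 : Commute a b := (mul_inv_eq_iff_eq_mul.1 h).symm
  obtain ⟨⟨i, j⟩, rfl⟩ := (eight_bij hS ha hb).2 s
  obtain ⟨⟨k, l⟩, rfl⟩ := (eight_bij hS ha hb).2 t
  have h2 : ∀ j : Bool, Commute a (cond j b 1) := fun j => by cases j <;> simp [h1]
  have h3 : ∀ j l : Bool, Commute (cond j b 1) (cond l b 1) := fun j l => by
    cases j <;> cases l <;> simp
  exact Commute.mul_left (Commute.mul_right (Commute.pow_pow_self a _ _) ((h2 l).pow_left _))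
    (Commute.mul_right ((h2 j).symm.pow_right _) (h3 j l))

lemma exists_out (hS : Nat.card S = 8) {a : S} (ha : orderOf a = 4) : ∃ b, b ∉ zpowers a := by
  by_contra! hb
  have := Nat.card_zpowers a
  rw [(eq_top_iff' _).2 hb, card_top] at this
  omega

open Classical in
lemma comm_iff_cnt (hS : Nat.card S = 8) (h8 : ∀ s : S, orderOf s ≠ 8) {a : S}
    (ha : orderOf a = 4) :
    (∀ s t : S, s * t = t * s) ↔ ∑ s : S, (if s * s = 1 then 1 else 0) = 4 := by
  obtain ⟨b, hb⟩ := exists_out hS ha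
  have h1 := sq_ne ha
  have h2 := pow_four ha
  have h3 : a⁻¹ * a⁻¹ = a * a := by
    rw [← mul_inv_rev, inv_eq_iff_mul_eq_one, h2]
  rw [sum_eight hS ha hb]
  obtain ⟨r1, r2⟩ := rel_eight hS h8 ha b
  rcases r1 with r1 | r1
  · have hc := comm_eight hS ha hb r1
    have e : ∀ x : S, x * b * (x * b) = x * x * (b * b) := fun x => by
      rw [mul_assoc, ← mul_assoc b, hc b x]; group
    refine iff_of_true hc ?_
    rcases r2 with r2 | r2 <;> simp only [e, r2, h1, h2, h3, mul_one, one_mul, if_true, if_false]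
  · have e1 : a * b * (a * b) = b * b := by
      calc a * b * (a * b) = a * (b * a * b⁻¹) * (b * b) := by group
        _ = _ := by rw [r1]; group
    have e2 : a * a * b * (a * a * b) = b * b := by
      calc a * a * b * (a * a * b) = a * a * (b * a * b⁻¹) * (b * a * b⁻¹) * (b * b) := by group
        _ = _ := by rw [r1]; group
    have e3 : a⁻¹ * b * (a⁻¹ * b) = b * b := by
      calc a⁻¹ * b * (a⁻¹ * b) = a⁻¹ * (b * a * b⁻¹)⁻¹ * (b * b) := by group
        _ = _ := by rw [r1]; group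
    refine iff_of_false (fun hc => h1 ?_) ?_
    · rw [hc b, mul_inv_cancel_right] at r1
      exact eq_inv_iff_mul_eq_one.1 r1
    · rcases r2 with r2 | r2 <;>
        simp only [e1, e2, e3, r2, h1, h2, h3, mul_one, if_true, if_false] <;> omega

omit [Fintype S] in
lemma iso_eight (hS : Nat.card S = 8) (hS' : Nat.card S' = 8) {a b : S} {a' b' : S'}
    (ha : orderOf a = 4) (ha' : orderOf a' = 4) (hb : b ∉ zpowers a) (hb' : b' ∉ zpowers a')
    (h1 : (b * a * b⁻¹ = a ∧ b' * a' * b'⁻¹ = a') ∨ (b * a * b⁻¹ = a⁻¹ ∧ b' * a' * b'⁻¹ = a'⁻¹))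
    (h2 : (b * b = 1 ∧ b' * b' = 1) ∨ (b * b = a * a ∧ b' * b' = a' * a')) :
    ∃ Γ : S ≃* S', Γ a = a' ∧ Γ b = b' := by
  have g1 : ∀ y : zpowers a, y ∈ zpowers (⟨a, mem_zpowers a⟩ : zpowers a) := by
    rintro ⟨_, k, rfl⟩
    exact ⟨k, rfl⟩
  have g2 : ∀ y : zpowers a', y ∈ zpowers (⟨a', mem_zpowers a'⟩ : zpowers a') := by
    rintro ⟨_, k, rfl⟩
    exact ⟨k, rfl⟩
  let γ : zpowers a ≃* zpowers a' := mulEquivOfOrderOfEq g1 g2 (by
    rw [← Subgroup.orderOf_coe, ← Subgroup.orderOf_coe (H := zpowers a')]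
    exact ha.trans ha'.symm)
  have hγ : ∀ (k : ℤ) (x : zpowers a), (x : S) = a ^ k → (γ x : S') = a' ^ k := fun k x hx => by
    rw [show x = (⟨a, mem_zpowers a⟩ : zpowers a) ^ k from Subtype.ext hx, map_zpow]
    simp [γ]
  obtain ⟨Γ, k1, k2⟩ := ext_two (index_two hS ((Nat.card_zpowers a).trans ha))
    (index_two hS' ((Nat.card_zpowers a').trans ha')) γ hb hb' (fun x hx => by
      rcases h2 with ⟨e, e'⟩ | ⟨e, e'⟩
      · rw [hγ 0 x (by rw [hx, e, zpow_zero]), e', zpow_zero]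
      · rw [hγ 2 x (by rw [hx, e, zpow_two]), e', zpow_two]) (by
      rintro ⟨_, k, rfl⟩ y hy
      rw [hγ k ⟨a ^ k, k, rfl⟩ rfl, ← conj_zpow]
      change (y : S) = b * a ^ k * b⁻¹ at hy
      rw [← conj_zpow] at hy
      rcases h1 with ⟨e, e'⟩ | ⟨e, e'⟩
      · rw [hγ k y (by rw [hy, e]), e']
      · rw [hγ (-k) y (by rw [hy, e, inv_zpow']), e', inv_zpow'])
  exact ⟨Γ, (k1 ⟨a, mem_zpowers a⟩).trans ((hγ 1 _ (zpow_one a).symm).trans (zpow_one a')), k2⟩

lemma gamma_four {V : Type*} (hS : Nat.card S = 8) (h8 : ∀ s : S, orderOf s ≠ 8) {a : S}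
    (ha : orderOf a = 4) (y : S → V) (y' : S' → V) (σ : S ≃ S')
    (ho : ∀ s, orderOf (σ s) = orderOf s) (hy : ∀ s, y' (σ s) = y s)
    (hi : ∀ s, y s⁻¹ = y s) (hi' : ∀ s, y' s⁻¹ = y' s)
    (hc : ∀ g s, y (g * s * g⁻¹) = y s) (hc' : ∀ g s, y' (g * s * g⁻¹) = y' s)
    (hz : (∀ s t : S, s * t = t * s) → (∀ s t : S', s * t = t * s) →
      y' (σ a * σ a) = y (a * a)) : ∃ Γ : S ≃* S', ∀ s, y' (Γ s) = y s := by
  classical
  have hS' : Nat.card S' = 8 := (Nat.card_congr σ).symm.trans hS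
  have h8' : ∀ s : S', orderOf s ≠ 8 := fun s => by
    obtain ⟨s, rfl⟩ := σ.surjective s
    rw [ho]; exact h8 s
  have ha' : orderOf (σ a) = 4 := (ho a).trans ha
  have h1 : σ 1 = 1 := by rw [← orderOf_eq_one_iff, ho, orderOf_one]
  let Y : S → Prop × V := fun s => (s * s = 1, y s)
  let Y' : S' → Prop × V := fun s => (s * s = 1, y' s)
  have hY : ∀ s, Y' (σ s) = Y s := fun s => Prod.ext (propext (by
    change σ s * σ s = 1 ↔ s * s = 1
    rw [sq_iff, sq_iff, ho])) (hy s)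
  have hiY : ∀ s, Y s⁻¹ = Y s := fun s => Prod.ext (propext (by
    change s⁻¹ * s⁻¹ = 1 ↔ s * s = 1
    rw [← mul_inv_rev, inv_eq_one])) (hi s)
  have hiY' : ∀ s, Y' s⁻¹ = Y' s := fun s => Prod.ext (propext (by
    change s⁻¹ * s⁻¹ = 1 ↔ s * s = 1
    rw [← mul_inv_rev, inv_eq_one])) (hi' s)
  have hcY : ∀ g s, Y (g * s * g⁻¹) = Y s := fun g s => Prod.ext (propext (by
    change g * s * g⁻¹ * (g * s * g⁻¹) = 1 ↔ s * s = 1
    rw [conj_mul, conj_eq_one_iff])) (hc g s)
  have hcY' : ∀ g s, Y' (g * s * g⁻¹) = Y' s := fun g s => Prod.ext (propext (by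
    change g * s * g⁻¹ * (g * s * g⁻¹) = 1 ↔ s * s = 1
    rw [conj_mul, conj_eq_one_iff])) (hc' g s)
  have H : ∀ g : Prop × V → ℕ, ∑ s, g (Y s) = ∑ s, g (Y' s) := fun g => by
    rw [← σ.sum_comp]
    simp only [hY]
  have H2 : ∀ b ∉ zpowers a, ∀ b' ∉ zpowers (σ a), ∀ v : Prop × V,
      (if Y (a * a) = v then 1 else 0) + ((if Y b = v then 1 else 0) +
        (if Y (a * b) = v then 1 else 0) + (if Y (a * a * b) = v then 1 else 0) +
        (if Y (a⁻¹ * b) = v then 1 else 0)) =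
      (if Y' (σ a * σ a) = v then 1 else 0) + ((if Y' b' = v then 1 else 0) +
        (if Y' (σ a * b') = v then 1 else 0) + (if Y' (σ a * σ a * b') = v then 1 else 0) +
        (if Y' ((σ a)⁻¹ * b') = v then 1 else 0)) := by
    intro b hb b' hb' v
    have := H fun w => if w = v then 1 else 0
    rw [sum_eight hS ha hb, sum_eight hS' ha' hb', hiY, hiY', hY, ← hY 1, h1] at this
    omega
  have hcomm : (∀ s t : S, s * t = t * s) ↔ ∀ s t : S', s * t = t * s := by
    rw [comm_iff_cnt hS h8 ha, comm_iff_cnt hS' h8' ha']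
    have := H fun w => if w.1 then 1 else 0
    exact iff_of_eq (congrArg (· = 4) (by convert this))
  suffices h : ∃ b ∉ zpowers a, ∃ b' ∉ zpowers (σ a),
      ((b * a * b⁻¹ = a ∧ b' * σ a * b'⁻¹ = σ a) ∨
        (b * a * b⁻¹ = a⁻¹ ∧ b' * σ a * b'⁻¹ = (σ a)⁻¹)) ∧ Y' (σ a * σ a) = Y (a * a) ∧
      Y' b' = Y b ∧ Y' (σ a * b') = Y (a * b) ∧ Y' (σ a * σ a * b') = Y (a * a * b) ∧
      Y' ((σ a)⁻¹ * b') = Y (a⁻¹ * b) by
    obtain ⟨b, hb, b', hb', r, e1, e2, e3, e4, e5⟩ := h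
    have q : b' * b' = 1 ↔ b * b = 1 := iff_of_eq (congrArg Prod.fst e2)
    obtain ⟨Γ, g1, g2⟩ := iso_eight hS hS' ha ha' hb hb' r (by
      by_cases h : b * b = 1
      · exact Or.inl ⟨h, q.2 h⟩
      · exact Or.inr ⟨(rel_eight hS h8 ha b).2.resolve_left h,
          (rel_eight hS' h8' ha' b').2.resolve_left (mt q.1 h)⟩)
    refine ⟨Γ, fun s => congrArg Prod.snd (show Y' (Γ s) = Y s from ?_)⟩
    rcases cases_eight hS ha hb s with e | e | e | e | e | e | e | e <;> rw [e] <;>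
      simp only [map_one, map_mul, map_inv, g1, g2, hiY, hiY', hY, e1, e2, e3, e4, e5]
    rw [← h1, hY]
  have mo : ∀ {T : Type _} [Group T] {a b : T}, b ∉ zpowers a → a * b ∉ zpowers a :=
    fun hb h => hb ((mul_mem_cancel_left (mem_zpowers _)).1 h)
  have mo' : ∀ {T : Type _} [Group T] {a b : T}, b ∉ zpowers a → a * b ∉ zpowers a :=
    fun hb h => hb ((mul_mem_cancel_left (mem_zpowers _)).1 h)
  by_cases hA : ∀ s t : S, s * t = t * s
  · have hA' := hcomm.1 hA
    have ez : Y' (σ a * σ a) = Y (a * a) :=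
      Prod.ext (propext (iff_of_true (pow_four ha') (pow_four ha))) (hz hA hA')
    have sq : ∀ x z : S, x * z * (x * z) = x * x * (z * z) := fun x z => by
      rw [mul_assoc, ← mul_assoc z, hA z x]; group
    have sq' : ∀ x z : S', x * z * (x * z) = x * x * (z * z) := fun x z => by
      rw [mul_assoc, ← mul_assoc z, hA' z x]; group
    obtain ⟨b, hb, hbb⟩ : ∃ b ∉ zpowers a, b * b = 1 := by
      obtain ⟨b, hb⟩ := exists_out hS ha
      rcases (rel_eight hS h8 ha b).2 with h | h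
      · exact ⟨b, hb, h⟩
      · exact ⟨a * b, mo hb, by rw [sq, h, pow_four ha]⟩
    have i1 : Y (a⁻¹ * b) = Y (a * b) := by
      rw [← hiY (a * b), mul_inv_rev, ← eq_inv_of_mul_eq_one_left hbb, hA]
    have key : ∀ b' ∉ zpowers (σ a), b' * b' = 1 → Y' ((σ a)⁻¹ * b') = Y' (σ a * b') ∧
        Y' (σ a * b') = Y (a * b) ∧ (Y' b' = Y b ∨ Y' (σ a * σ a * b') = Y b) ∧
        (Y' b' = Y b → Y' (σ a * σ a * b') = Y (a * a * b)) := by
      intro b' hb' hbb'
      have i2 : Y' ((σ a)⁻¹ * b') = Y' (σ a * b') := by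
        rw [← hiY' (σ a * b'), mul_inv_rev, ← eq_inv_of_mul_eq_one_left hbb', hA']
      have n1 : Y' b' ≠ Y (a * b) := fun e => sq_ne ha (by
        have := (iff_of_eq (congrArg Prod.fst e)).1 hbb'
        change a * b * (a * b) = 1 at this
        rwa [sq, hbb, mul_one] at this)
      have i3 : Y' (σ a * b') = Y (a * b) := by
        have := H2 b hb b' hb' (Y (a * b))
        rw [ez, i1, i2, if_neg n1, if_pos rfl] at this
        by_contra h
        rw [if_neg h] at this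
        split_ifs at this <;> omega
      refine ⟨i2, i3, ?_, fun h => ?_⟩
      · have := H2 b hb b' hb' (Y b)
        rw [ez, i1, i2, i3, if_pos rfl] at this
        by_contra! h
        rw [if_neg h.1, if_neg h.2] at this
        omega
      · have := H2 b hb b' hb' (Y (a * a * b))
        rw [ez, i1, i2, i3, h, if_pos rfl] at this
        by_contra h
        rw [if_neg h] at this
        omega
    obtain ⟨b', hb', hbb', e⟩ : ∃ b' ∉ zpowers (σ a), b' * b' = 1 ∧ Y' b' = Y b := by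
      obtain ⟨b', hb', hbb'⟩ : ∃ b ∉ zpowers (σ a), b * b = 1 := by
        obtain ⟨b, hb⟩ := exists_out hS' ha'
        rcases (rel_eight hS' h8' ha' b).2 with h | h
        · exact ⟨b, hb, h⟩
        · exact ⟨σ a * b, mo' hb, by rw [sq', h, pow_four ha']⟩
      rcases (key b' hb' hbb').2.2.1 with h | h
      · exact ⟨b', hb', hbb', h⟩
      · exact ⟨σ a * σ a * b', by rw [mul_assoc]; exact mo' (mo' hb'),
          by rw [sq', hbb', pow_four ha', mul_one], h⟩
    obtain ⟨k1, k2, -, k3⟩ := key b' hb' hbb'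
    exact ⟨b, hb, b', hb', Or.inl ⟨by rw [hA b, mul_inv_cancel_right],
      by rw [hA' b', mul_inv_cancel_right]⟩, ez, e, k2, k3 e, by rw [k1, k2, i1]⟩
  · have hA' := mt hcomm.2 hA
    obtain ⟨b, hb⟩ := exists_out hS ha
    have r := (rel_eight hS h8 ha b).1.resolve_left fun h => hA (comm_eight hS ha hb h)
    have i1 : Y (a * a * b) = Y b := by
      rw [← hcY a b]
      congr 1
      calc a * a * b = a * (b * a * b⁻¹)⁻¹ * b := by rw [r, inv_inv]
        _ = _ := by group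
    have i2 : Y (a⁻¹ * b) = Y (a * b) := by
      rw [← hcY a⁻¹ (a * b)]
      congr 1
      calc a⁻¹ * b = (b * a * b⁻¹) * b := by rw [r]
        _ = _ := by group
    have key : ∀ b' ∉ zpowers (σ a), b' * σ a * b'⁻¹ = (σ a)⁻¹ ∧
        Y' (σ a * σ a * b') = Y' b' ∧ Y' ((σ a)⁻¹ * b') = Y' (σ a * b') ∧
        Y' (σ a * σ a) = Y (a * a) ∧ (Y' b' = Y b ∨ Y' (σ a * b') = Y b) ∧
        (Y' b' = Y b → Y' (σ a * b') = Y (a * b)) := by
      intro b' hb'
      have r' := (rel_eight hS' h8' ha' b').1.resolve_left fun h => hA' (comm_eight hS' ha' hb' h)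
      have j1 : Y' (σ a * σ a * b') = Y' b' := by
        rw [← hcY' (σ a) b']
        congr 1
        calc σ a * σ a * b' = σ a * (b' * σ a * b'⁻¹)⁻¹ * b' := by rw [r', inv_inv]
          _ = _ := by group
      have j2 : Y' ((σ a)⁻¹ * b') = Y' (σ a * b') := by
        rw [← hcY' (σ a)⁻¹ (σ a * b')]
        congr 1
        calc (σ a)⁻¹ * b' = (b' * σ a * b'⁻¹) * b' := by rw [r']
          _ = _ := by group
      have ez : Y' (σ a * σ a) = Y (a * a) := by
        have := H2 b hb b' hb' (Y (a * a))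
        rw [i1, i2, j1, j2, if_pos rfl] at this
        by_contra h
        rw [if_neg h] at this
        omega
      refine ⟨r', j1, j2, ez, ?_, fun h => ?_⟩
      · have := H2 b hb b' hb' (Y b)
        rw [i1, i2, j1, j2, ez, if_pos rfl] at this
        by_contra! h
        rw [if_neg h.1, if_neg h.2] at this
        omega
      · have := H2 b hb b' hb' (Y (a * b))
        rw [i1, i2, j1, j2, ez, h, if_pos rfl] at this
        by_contra h
        rw [if_neg h] at this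
        omega
    obtain ⟨b', hb', e⟩ : ∃ b' ∉ zpowers (σ a), Y' b' = Y b := by
      obtain ⟨b', hb'⟩ := exists_out hS' ha'
      rcases (key b' hb').2.2.2.2.1 with h | h
      · exact ⟨b', hb', h⟩
      · exact ⟨_, mo' hb', h⟩
    obtain ⟨k1, k2, k3, k4, -, k5⟩ := key b' hb'
    exact ⟨b, hb, b', hb', Or.inr ⟨r, k1⟩, k4, e, k5 e, by rw [k2, i1, e], by rw [k3, i2, k5 e]⟩

end D

end Pool.Agent.Lib.MP_cb9dee_al
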