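import Pool.Agent.Lib.MP_cb9dee_al.DSig

namespace Pool.Agent.Lib.MP_cb9dee_al

namespace D

open Subgroup Pointwise

lemma adjust {Q T : Type*} [Group Q] [Group T] [Finite Q] {q : ℕ} (hq : q.Prime)
    (hQ : Nat.card Q ∣ q ^ 2) (α : Q ≃* T) {k : ℕ} (hk : k.Coprime q) :
    ∃ α' : Q ≃* T, (∀ x : Q, ∃ y, x = y ^ k) ∧ ∀ y, α' (y ^ k) = α y := by
  obtain ⟨m, -, hm⟩ := (Nat.dvd_prime_pow hq).1 hQ
  have := Fact.mk hq
  obtain ⟨α', -, h1, h2⟩ := sign_adjust hq (IsPGroup.of_card hm) (comm_of_card hq hQ)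
    (τ := 1) (σ := 1) α (fun _ => rfl) hk False
  exact ⟨α', h1, fun y => (h2 y).trans (if_neg id)⟩

variable {O S O' S' : Type} [Group O] [Group S] [Group O'] [Group S']

/-- `γ` preserves the numbers of fixed points. -/
def Mt (E : Dat O S) (E' : Dat O' S') (γ : S ≃* S') : Prop :=
  ∀ r, r.Prime → r ∣ Nat.card O → ∀ s, E'.fx r (γ s) = E.fx r s

/-- Equivariance along `γ`. -/
def EG (E : Dat O S) (E' : Dat O' S') (γ : S ≃* S') {r : ℕ} (hr : r.Prime)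
    (δ : (E.A.R r : Subgroup O) ≃* (E'.A.R r : Subgroup O')) : Prop :=
  Eqv (E.rho hr) ((E'.rho hr).comp γ.toMonoidHom) δ

lemma Dat.kr_inv (E : Dat O S) {p q : ℕ} (hp : p.Prime) (hq : q.Prime) (s : S) :
    ∀ x ∈ E.A.kr q p, E.rho hq s x ∈ E.A.kr q p := by
  intro x hx
  rw [E.A.mem_kr] at hx ⊢
  intro y hy
  have := congrArg (E.φ s) (hx _ (E.inv p hp s⁻¹ y hy))
  simpa [E.rho_apply] using this

lemma compat_of {A : Sys O} {B : Sys O'} {p q : ℕ} (hp : A.PP p) (hp' : B.PP p)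
    {α : (A.R q : Subgroup O) ≃* (B.R q : Subgroup O')}
    {β : (A.R p : Subgroup O) ≃* (B.R p : Subgroup O')}
    (h : ∀ x, cjN _ hp'.2.2.2 (α x : O') = MulAut.congr β (cjN _ hp.2.2.2 (x : O))) :
    Compat α β := by
  refine fun x y => ⟨cjN _ hp.2.2.2 (x : O) y, isCj_cjN _ _ y, ?_⟩
  rw [← isCj_cjN hp'.2.2.2 (α x : O'), h]
  simp

variable [Fintype O] [Fintype S] [Fintype O'] [Fintype S']

namespace Hyp

variable {E : Dat O S} {E' : Dat O' S'} (H : Hyp E E')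
include H

lemma mod_p {γ : S ≃* S'} (hγ : Mt E E' γ) {p : ℕ} (hp : E.A.PP p) :
    ∃ k0, Odd k0 ∧ ∀ (k : ℕ) (π : S ≃* S), Pw k π →
      (k ≡ k0 [MOD (Nat.card S).gcd (E.cd p - 1)] ∨
        k ≡ k0 * p [MOD (Nat.card S).gcd (E.cd p - 1)]) →
      ∃ β, EG E E' (π.trans γ) hp.1 β ∧ UC (E.A.acts p) (E'.A.acts p) β := by
  have hp' := H.ctx.pp E'.A hp
  refine ml hp.1 hp.2.1 (H.cd_eq hp.1) (H.cd_cases' hp.1 hp.2.2.1)
    ⟨H.ctx.isCyclic hp.1 _, H.symm.ctx.isCyclic hp.1 _⟩ H.eight (E.rho hp.1)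
    ((E'.rho hp.1).comp γ.toMonoidHom)
    (fun s => (E.card_fix hp.1 s).trans ((hγ p hp.1 hp.2.2.1 s).symm.trans
      (E'.card_fix hp.1 _).symm)) _ _ (fun a => E.A.good H.small hp)
    (fun b => E'.A.good H.symm.small hp') E.A.acts_comm E'.A.acts_comm (E.acts_inv hp.1)
    (fun s => E'.acts_inv hp.1 (γ s)) ?_
  by_cases h : ∀ a ∈ E.A.acts p, a = 1
  · exact Or.inl ⟨h, H.ctx.acts_triv _ _ hp h⟩
  push Not at h
  obtain ⟨a, ⟨q, g, hq, hg, ha⟩, ha1⟩ := h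
  have h1 : E.A.kr q p ≠ ⊤ := fun e => ha1 (ha.eq_one_iff.2
    (E.A.mem_kr.1 (e ▸ mem_top (⟨g, hg⟩ : (E.A.R q : Subgroup O)))))
  have hq' := H.ctx.nn E'.A hq
  have h1' := H.kr_ne hp hq h1
  obtain ⟨y, hy, y1, y2⟩ := E.exists_actor hp h1
  obtain ⟨y', hy', y1', y2'⟩ := E'.exists_actor hp' h1'
  refine Or.inr ⟨_, ⟨q, y, hq, hy, isCj_cjN _ y⟩, _, ⟨q, y', hq', hy', isCj_cjN _ y'⟩, y2, y2',
    fun h2 s => (H.beta_comm hp hq h1 h2 hy y1 s).trans (Iff.trans ?_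
      (H.symm.beta_comm hp' hq' h1' (H.cd_eq hp.1 ▸ h2) hy' y1' (γ s)).symm)⟩
  rw [hγ q hq.1 hq.dvd, H.cd_eq hq.1]

lemma mt_pw {γ : S ≃* S'} (hγ : Mt E E' γ) {k : ℕ} {π : S ≃* S} (hπ : Pw k π) :
    Mt E E' (π.trans γ) := fun r hr hd s => by
  rw [MulEquiv.trans_apply, hγ r hr hd, ← E.card_fix hr, ← E.card_fix hr, hπ.fix H.eight]

lemma all_mod : ∃ γ : S ≃* S', Mt E E' γ ∧ ∀ p (hp : E.A.PP p),
    ∃ β, EG E E' γ hp.1 β ∧ UC (E.A.acts p) (E'.A.acts p) β := by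
  obtain ⟨γ, hγ⟩ := H.exists_gam
  choose! k hk1 hk2 using fun p (hp : E.A.PP p) => H.mod_p hγ hp
  obtain ⟨l, hl1, hl2⟩ := solve H.full H.four H.h48 (dvd_mul_left _ _) {p | E.A.PP p} E.cd k
    fun p hp => ⟨hp.1, hp.2.1, hp.2.2.1.mul_right _,
      (H.cd_cases' hp.1 hp.2.2.1).imp id fun e => ⟨e.1, H.sq_dvd e.1⟩, hk1 p hp⟩
  obtain ⟨π, hπ⟩ := exists_pw H.eight hl1
  exact ⟨π.trans γ, H.mt_pw hγ hπ, fun p hp => hk2 p hp l π hπ (hl2 p hp)⟩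

lemma kr_ne_fix {p q : ℕ} (hp : E.A.PP p) (hq : E.A.NN q) (h1 : E.cd q = q ^ 2)
    (h2 : Nat.card (E.A.kr q p) = q) (s : S) : E.A.kr q p ≠ fixS (E.rho hq.1 s) := by
  intro h
  have hne : q ^ 2 ≠ q := fun h =>
    (Nat.pow_lt_pow_right hq.1.one_lt one_lt_two).ne' (h.trans (pow_one q).symm)
  have h3 : E.A.kr q p ≠ ⊤ := fun e =>
    hne (h1.symm.trans (by rw [e, card_top] at h2; exact h2))
  have h4 := H.cd_eq_self hp fun e => hne (h1.symm.trans (H.beta hp hq h3 e).1)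
  refine h3 (h.trans (eq_top_iff.2 fun x _ => fix_delta (H.rho_eight hq.1 s)
    (coprime_eight hq.1 hq.2.1 (H.cd_dvd hq.1)) ?_))
  rw [← mem_fixS, ← h]
  exact E.A.mem_kr.2 (E.alpha hp h4 s x)

lemma alpha_step {γ : S ≃* S'} (hγ : Mt E E' γ) {q : ℕ} (hq : E.A.NN q)
    (β : ∀ p, E.A.PP p → ((E.A.R p : Subgroup O) ≃* (E'.A.R p : Subgroup O')))
    (hβ : ∀ p hp, UC (E.A.acts p) (E'.A.acts p) (β p hp)) :
    ∃ α, EG E E' γ hq.1 α ∧ ∀ p (hp : E.A.PP p), ∃ k : ℕ, k.Coprime q ∧ ∀ x,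
      cjN _ (H.ctx.pp E'.A hp).2.2.2 (α x : O') =
        MulAut.congr (β p hp) (cjN _ hp.2.2.2 (x : O)) ^ k := by
  have c := H.ctx
  have hq' := c.nn E'.A hq
  have hf : ∀ s, Nat.card (fixS (E.rho hq.1 s)) =
      Nat.card (fixS (((E'.rho hq.1).comp γ.toMonoidHom) s)) := fun s =>
    (E.card_fix hq.1 s).trans ((hγ q hq.1 hq.dvd s).symm.trans (E'.card_fix hq.1 _).symm)
  obtain ⟨t, ht⟩ := inv_match hq.1 hq.2.1 (H.cd_eq hq.1) (H.cd_dvd hq.1) _ _ (H.rho_sq hq) hf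
  obtain ⟨α, h1, h2⟩ := ker_match hq.1 hq.2.1 (H.cd_eq hq.1) (H.cd_dvd hq.1)
    ⟨c.isCyclic hq.1 _, c.symm.isCyclic hq.1 _⟩ (H.rho_sq hq t) (H.symm.rho_sq hq' (γ t)) (hf t)
    (J := {p // E.A.PP p}) (fun p => E.A.kr q p) (fun p => E'.A.kr q p)
    (fun p => c.card_kr _ _ p.2 hq) (fun p => E.kr_inv p.2.1 hq.1 t)
    (fun p => E'.kr_inv p.2.1 hq.1 (γ t))
    (fun k1 _ p k3 => iff_of_false (H.kr_ne_fix p.2 hq k1 k3 t)
      (H.symm.kr_ne_fix (c.pp _ p.2) hq' ((H.cd_eq hq.1).symm.trans k1)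
        (c.card_kr _ _ p.2 hq ▸ k3) (γ t)))
    (fun _ p p' k1 k2 => ⟨c.kr_eq _ _ p.2 p'.2 hq k1 k2,
      c.symm.kr_eq _ _ (c.pp _ p.2) (c.pp _ p'.2) hq' (c.card_kr _ _ p.2 hq ▸ k1)
        (c.card_kr _ _ p'.2 hq ▸ k2)⟩)
    (by
      by_cases h3 : q = 3
      · exact Or.inl h3
      exact Or.inr fun i j hi hj => Subtype.ext (H.full.2.2.1 q hq.1
        (hq.1.five_le_of_ne_two_of_ne_three hq.2.1 h3) (hq.dvd.mul_right _)
        (H.acted i.2 hq hi).2 (H.acted j.2 hq hj).2))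
  refine ⟨α, ht α h1, fun p hp => ?_⟩
  have h3 : ∀ x, x ∈ E.A.kr q p ↔ α x ∈ E'.A.kr q p := fun x => by
    rw [← h2 ⟨p, hp⟩]
    exact (mem_map_iff_mem (f := α.toMonoidHom) α.injective).symm
  obtain ⟨U, u1, u2, u3⟩ := hβ p hp
  obtain ⟨k, hk, e⟩ := exists_pow_of_ker_eq hq.1 (E.A.R q).isPGroup'
    ((((cjN _ (c.pp E'.A hp).2.2.2).comp (Subgroup.subtype _)).comp α.toMonoidHom).codRestrict U
      fun x => u2 _ ⟨q, _, hq', (α x).2, isCj_cjN _ _⟩)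
    (((MulAut.congr (β p hp)).toMonoidHom.comp
      ((cjN _ hp.2.2.2).comp (Subgroup.subtype _))).codRestrict U
      fun x => u3 _ ⟨q, _, hq, x.2, isCj_cjN _ _⟩) (by
      rw [MonoidHom.ker_codRestrict, MonoidHom.ker_codRestrict]
      ext x
      change cjN _ (c.pp E'.A hp).2.2.2 (α x : O') = 1 ↔
        MulAut.congr (β p hp) (cjN _ hp.2.2.2 (x : O)) = 1
      rw [MulEquiv.map_eq_one_iff, (isCj_cjN _ _).eq_one_iff, (isCj_cjN _ _).eq_one_iff]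
      exact E'.A.mem_kr.symm.trans ((h3 x).symm.trans E.A.mem_kr))
  exact ⟨k, hk, fun x => congrArg Subtype.val (e x)⟩

/-- The isomorphism of the acting Sylow subgroups is adjusted to one target. -/
lemma alpha_adj {γ : S ≃* S'} (hγ : Mt E E' γ) {q : ℕ} (hq : E.A.NN q)
    (β : ∀ p, E.A.PP p → ((E.A.R p : Subgroup O) ≃* (E'.A.R p : Subgroup O')))
    (hβ : ∀ p hp, UC (E.A.acts p) (E'.A.acts p) (β p hp)) {u : ℕ} (hu : E.A.PP u) :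
    ∃ α, EG E E' γ hq.1 α ∧ ∀ p (hp : E.A.PP p),
      (p = u ∨ E.A.kr q p = ⊤ → Compat α (β p hp)) ∧ (E.cd q = 3 → Compat α (β p hp) ∨ ∀ x,
        cjN _ (H.ctx.pp E'.A hp).2.2.2 (α x : O') =
          (MulAut.congr (β p hp) (cjN _ hp.2.2.2 (x : O)))⁻¹) := by
  obtain ⟨α, h1, h2⟩ := H.alpha_step hγ hq β hβ
  obtain ⟨k, hk, e⟩ := h2 u hu
  obtain ⟨α', a1, a2⟩ := adjust hq.1 (H.cd_dvd hq.1) α hk
  refine ⟨α', fun s x => ?_, fun p hp => ⟨?_, fun h3 => ?_⟩⟩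
  · obtain ⟨y, rfl⟩ := a1 x
    rw [map_pow (E.rho hq.1 s), a2, a2, h1]
  · rintro (rfl | h)
    · refine compat_of hp (H.ctx.pp _ hp) fun x => ?_
      obtain ⟨y, rfl⟩ := a1 x
      rw [a2, e, SubgroupClass.coe_pow, map_pow, map_pow]
    · refine compat_of hp (H.ctx.pp _ hp) fun x => ?_
      rw [(isCj_cjN _ _).eq_one_iff.2 (E.A.mem_kr.1 (h ▸ mem_top x)), map_one,
        (isCj_cjN _ _).eq_one_iff.2 (E'.A.mem_kr.1 (H.ctx.kr_top _ _ hp hq h ▸ mem_top (α' x)))]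
  · obtain rfl : q = 3 := by
      have := Fact.mk hq.1
      exact (Nat.prime_dvd_prime_iff_eq hq.1 Nat.prime_three).1
        (h3 ▸ (E.A.R q).dvd_card_of_dvd_card hq.dvd)
    obtain ⟨l, hl, e'⟩ := h2 p hp
    have h4 : ∀ y : (E.A.R 3 : Subgroup O),
        MulAut.congr (β p hp) (cjN _ hp.2.2.2 (y : O)) ^ 3 = 1 := fun y => by
      rw [← map_pow, ← map_pow, ← SubgroupClass.coe_pow,
        orderOf_dvd_iff_pow_eq_one.1 ((orderOf_dvd_natCard y).trans h3.dvd),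
        OneMemClass.coe_one, map_one, map_one]
    refine (pow_three_cases (W := MulAut (E'.A.R p : Subgroup O')) hk hl).imp
      (fun h' => compat_of hp (H.ctx.pp _ hp) fun x => ?_) (fun h' x => ?_) <;>
    · obtain ⟨y, rfl⟩ := a1 x
      rw [a2, e', SubgroupClass.coe_pow, map_pow, map_pow, h' _ (h4 y)]

lemma final_glue {γ : S ≃* S'}
    (β : ∀ p, E.A.PP p → ((E.A.R p : Subgroup O) ≃* (E'.A.R p : Subgroup O')))
    (hβ : ∀ p hp, EG E E' γ hp.1 (β p hp))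
    (hα : ∀ q (hq : E.A.NN q), ∃ α, EG E E' γ hq.1 α ∧ ∀ p hp, Compat α (β p hp)) :
    ∃ Φ : O ≃* O', ∀ s y, Φ (E.φ s y) = E'.φ (γ s) (Φ y) := by
  classical
  have c := H.ctx
  choose α hα1 hα2 using hα
  have cases : ∀ r : (Nat.card O).primeFactors, E.A.PP r ∨ E.A.NN r := fun r =>
    pp_or_nn E.A H.odd (Nat.prime_of_mem_primeFactors r.2) (Nat.dvd_of_mem_primeFactors r.2)
  have hδ : ∀ r : (Nat.card O).primeFactors,
      ∃ δ : (E.A.R r : Subgroup O) ≃* (E'.A.R r : Subgroup O'),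
        (∀ h : E.A.PP r, δ = β r h) ∧ ∀ h : E.A.NN r, δ = α r h := by
    intro r
    rcases cases r with h | h
    · exact ⟨β r h, fun _ => rfl, fun h' => absurd h.2.2.2 h'.2.2⟩
    · exact ⟨α r h, fun h' => absurd h'.2.2.2 h.2.2, fun _ => rfl⟩
  choose δ d2 d3 using hδ
  have htop : (⨆ r ∈ (Finset.univ : Finset (Nat.card O).primeFactors),
      (E.A.R r : Subgroup O)) = ⊤ := by
    rw [eq_top_iff, ← E.A.hall_top]
    exact iSup₂_le fun r hr => le_iSup₂_of_le ⟨r, hr⟩ (Finset.mem_univ _) le_rfl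
  obtain ⟨Φ, hΦ⟩ := glue Finset.univ
    (fun r : (Nat.card O).primeFactors => (E.A.R r : Subgroup O))
    (fun r => (E'.A.R r : Subgroup O')) δ htop
    (by
      rw [eq_top_iff, ← E'.A.hall_top, ← c.card]
      exact iSup₂_le fun r hr => le_iSup₂_of_le ⟨r, hr⟩ (Finset.mem_univ _) le_rfl)
    (by
      rw [Finset.prod_coe_sort (Nat.card O).primeFactors
        fun r => Nat.card (E.A.R r : Subgroup O)]
      exact Nat.le_of_dvd Nat.card_pos (card_top (G := O) ▸ prod_card_dvd_card _ _ ⊤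
        (fun _ _ => le_top) fun p hp q hq h => coprime_card_sylow
          (Nat.prime_of_mem_primeFactors hp) (Nat.prime_of_mem_primeFactors hq) h _ _))
    c.card
    (by
      intro r _ s _ hrs
      rcases cases r with h | h <;> rcases cases s with h' | h'
      · refine Or.inl fun x y => ⟨y, ?_, ?_⟩
        · rw [comm_of_normal h.1 h'.1 c.small _ _ h.2.2.2 h'.2.2.2 x.2 y.2, mul_inv_cancel_right]
        · rw [comm_of_normal h.1 h'.1 c.symm.small _ _ (c.pp _ h).2.2.2 (c.pp _ h').2.2.2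
            (δ r x).2 (δ s y).2, mul_inv_cancel_right]
      · right; rw [d2 r h, d3 s h']; exact hα2 _ h' _ h
      · left; rw [d3 r h, d2 s h']; exact hα2 _ h _ h'
      · refine Or.inl fun x y => ⟨y, ?_, ?_⟩
        · rw [E.A.hcomm _ _ h.1 h'.1 h.2.1 h'.2.1 h.2.2 h'.2.2 _ x.2 _ y.2, mul_inv_cancel_right]
        · rw [E'.A.hcomm _ _ h.1 h'.1 h.2.1 h'.2.1 (c.nn _ h).2.2 (c.nn _ h').2.2 _ (δ r x).2 _
            (δ s y).2, mul_inv_cancel_right])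
  refine ⟨Φ, fun s y => ?_⟩
  have : ⊤ ≤ MonoidHom.eqLocus (Φ.toMonoidHom.comp (E.φ s).toMonoidHom)
      ((E'.φ (γ s)).toMonoidHom.comp Φ.toMonoidHom) := by
    rw [← htop]
    refine iSup₂_le fun r hr x hx => ?_
    have hp := Nat.prime_of_mem_primeFactors r.2
    have h1 : EG E E' γ hp (δ r) := by
      rcases cases r with h | h
      · rw [d2 r h]; exact hβ _ h
      · rw [d3 r h]; exact hα1 _ h
    change Φ (E.φ s x) = E'.φ (γ s) (Φ x)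
    rw [hΦ r hr ⟨x, hx⟩, ← E.rho_apply hp s ⟨x, hx⟩, hΦ r hr, h1]
    rfl
  exact this (mem_top y)

theorem core : ∃ (γ : S ≃* S') (Φ : O ≃* O'), ∀ s y, Φ (E.φ s y) = E'.φ (γ s) (Φ y) := by
  have uniq : ∀ {γ : S ≃* S'}, Mt E E' γ →
      ∀ (β : ∀ p, E.A.PP p → ((E.A.R p : Subgroup O) ≃* (E'.A.R p : Subgroup O'))),
      (∀ p hp, UC (E.A.acts p) (E'.A.acts p) (β p hp)) → ∀ q (hq : E.A.NN q),
      (∀ p p', E.A.PP p → E.A.PP p' → E.A.kr q p ≠ ⊤ → E.A.kr q p' ≠ ⊤ → p = p') →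
      ∃ α, EG E E' γ hq.1 α ∧ ∀ p hp, Compat α (β p hp) := by
    intro γ hγ β hβ q hq h
    obtain ⟨u, hu, hu'⟩ := H.exists_target hq
    obtain ⟨α, h1, h2⟩ := H.alpha_adj hγ hq β hβ hu
    exact ⟨α, h1, fun p hp => (h2 p hp).1 (or_iff_not_imp_right.2 fun e => h p u hp hu e hu')⟩
  obtain ⟨γ, hγ, hβ⟩ := H.all_mod
  choose β hβ1 hβ2 using hβ
  by_cases hex : ∀ q, E.A.NN q →
      ∀ p p', E.A.PP p → E.A.PP p' → E.A.kr q p ≠ ⊤ → E.A.kr q p' ≠ ⊤ → p = p'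
  · exact ⟨γ, H.final_glue β hβ1 fun q hq => uniq hγ β hβ2 q hq (hex q hq)⟩
  have two : ∀ {q p p'}, E.A.NN q → E.A.PP p → E.A.PP p' → E.A.kr q p ≠ ⊤ → E.A.kr q p' ≠ ⊤ →
      p ≠ p' → _ := fun hq hp hp' h h' hne => two_targets H.full H.four hq.1 hq.2.1
    (hq.dvd.mul_right _) (H.acted hp hq h).2 (H.acted hp' hq h').2 hp.2.1 hp'.2.1 hne
  obtain ⟨hq, u, t, hu, ht, ku, kt, hut, t2, hoth⟩ : ∃ (_ : E.A.NN 3) (u t : ℕ), E.A.PP u ∧
      E.A.PP t ∧ E.A.kr 3 u ≠ ⊤ ∧ E.A.kr 3 t ≠ ⊤ ∧ u ≠ t ∧ t ^ 2 ∣ Nat.card O * Nat.card S ∧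
      ∀ r, r.Prime → r ≠ 2 → r ≠ t → r ∣ Nat.card O * Nat.card S →
        r % 4 = 3 ∧ ¬ r ^ 2 ∣ Nat.card O * Nat.card S := by
    push Not at hex
    obtain ⟨q, hq, p, p', hp, hp', h, h', hne⟩ := hex
    obtain ⟨rfl, t, rfl | rfl, h1, h2⟩ := two hq hp hp' h h' hne
    · exact ⟨hq, p', t, hp', hp, h', h, hne.symm, h1, h2⟩
    · exact ⟨hq, p, t, hp, hp', h, h', hne, h1, h2⟩
  have cd1 : ∀ r, r.Prime → r ∣ Nat.card O → r ≠ t → E.cd r = r ∧ r % 4 = 3 := fun r hr hd hne => by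
    have := hoth r hr (fun e => H.odd (e ▸ hd)) hne (hd.mul_right _)
    exact ⟨(H.cd_cases' hr hd).resolve_right fun e => this.2 (H.sq_dvd e.1), this.1⟩
  have c3 := (cd1 3 hq.1 hq.dvd fun e => hq.2.2 (e ▸ ht.2.2.2)).1
  have rest : ∀ p, E.A.PP p → p ≠ t → p = u ∨ E.A.kr 3 p = ⊤ := fun p hp hne => by
    by_contra! h
    obtain ⟨-, t', h1, h2, -⟩ := two hq hp hu h.2 ku h.1
    rcases h1 with rfl | rfl
    · exact (hoth _ hp.1 hp.2.1 hne (hp.2.2.1.mul_right _)).2 h2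
    · exact (hoth _ hu.1 hu.2.1 hut (hu.2.2.1.mul_right _)).2 h2
  have fin : ∀ {γ : S ≃* S'}, Mt E E' γ →
      ∀ (β : ∀ p, E.A.PP p → ((E.A.R p : Subgroup O) ≃* (E'.A.R p : Subgroup O'))),
      (∀ p hp, EG E E' γ hp.1 (β p hp)) → (∀ p hp, UC (E.A.acts p) (E'.A.acts p) (β p hp)) →
      (∃ α, EG E E' γ hq.1 α ∧ ∀ p hp, Compat α (β p hp)) →
      ∃ Φ : O ≃* O', ∀ s y, Φ (E.φ s y) = E'.φ (γ s) (Φ y) := by
    intro γ hγ β h1 h2 h3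
    refine H.final_glue β h1 fun q hq' => ?_
    by_cases e : q = 3
    · subst e; exact h3
    · exact uniq hγ β h2 q hq' fun p p' a b c d => by
        by_contra h
        exact e (two hq' a b c d h).1
  obtain ⟨α, a1, a2⟩ := H.alpha_adj hγ hq β hβ2 hu
  rcases (a2 t ht).2 c3 with h | h
  · refine ⟨γ, fin hγ β hβ1 hβ2 ⟨α, a1, fun p hp => ?_⟩⟩
    by_cases e : p = t
    · subst e; exact h
    · exact (a2 p hp).1 (rest p hp e)
  have := Fact.mk ht.1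
  have ht' := H.ctx.pp E'.A ht
  have hq' := H.ctx.nn E'.A hq
  have kt' := H.kr_ne ht hq kt
  have ct : E.cd t = t ^ 2 := Nat.dvd_antisymm (H.cd_dvd ht.1)
    ((E.A.R t).pow_dvd_card_of_pow_dvd_card ((((coprime_eight ht.1 ht.2.1 dvd_rfl).symm
      ).coprime_dvd_right H.eight).dvd_mul_right.1 t2))
  have ct' := (H.cd_eq ht.1).symm.trans ct
  have triv : ∀ s', E'.fx 3 s' = E'.cd 3 := fun s' => by
    obtain ⟨s, rfl⟩ := γ.surjective s'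
    rw [hγ 3 hq.1 hq.dvd, ← H.cd_eq hq.1, ← E.rho_eq_one hq.1]
    ext1 x
    have h1 : x⁻¹ * E.rho hq.1 s x ∈ E.A.kr 3 u :=
      E.A.mem_kr.2 (E.alpha hu (cd1 u hu.1 hu.2.2.1 hut).1 s x)
    rw [(E.bot_or_top hq.1 c3 _).resolve_right ku, mem_bot, inv_mul_eq_one] at h1
    exact h1.symm
  obtain ⟨y, hy, y1, y2⟩ := E'.exists_actor ht' kt'
  have hb : cjN _ ht'.2.2.2 y ∈ E'.A.acts t := ⟨3, y, hq', hy, isCj_cjN _ y⟩
  obtain ⟨e, he⟩ := H.symm.actor_model ht' ct' hb y2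
  obtain ⟨F, hF⟩ := he.flip
  have cm : ∀ s', cjN _ ht'.2.2.2 y * E'.rho ht.1 s' = E'.rho ht.1 s' * cjN _ ht'.2.2.2 y :=
    fun s' => (H.symm.beta_comm ht' hq' kt' ct' hy y1 s').2 (triv s')
  have cu : ∀ a ∈ E.A.acts t, cjN _ ht'.2.2.2 y * MulAut.congr (β t ht) a =
      MulAut.congr (β t ht) a * cjN _ ht'.2.2.2 y := fun a ha => by
    obtain ⟨U, u1, u2, u3⟩ := hβ2 t ht
    exact congrArg Subtype.val
      ((IsCyclic.commGroup (α := U)).mul_comm ⟨_, u2 _ hb⟩ ⟨_, u3 a ha⟩)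
  have cF : ∀ a, MulAut.congr ((β t ht).trans F) a = F * MulAut.congr (β t ht) a * F⁻¹ :=
    fun a => rfl
  obtain ⟨π, hπ⟩ := exists_pw H.eight (ht.1.odd_of_ne_two ht.2.1)
  have same : ∀ r (hr : r.Prime), r ∣ Nat.card O → r ≠ t → ∀ δ, EG E E' γ hr δ →
      EG E E' (π.trans γ) hr δ := by
    intro r hr hd hne δ hδ s x
    obtain ⟨⟨j, ⟨m, rfl⟩, hj⟩, -⟩ := hπ
    have h1 : E'.rho hr (γ s) * E'.rho hr (γ s) = 1 := MulEquiv.ext fun x =>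
      line_sq hr (cd1 r hr hd hne).2 (H.symm.rho_eight hr _) (L := ⊤)
        (card_top.trans ((H.cd_eq hr).symm.trans (cd1 r hr hd hne).1)) (fun _ _ => mem_top _) x
        (mem_top x)
    rw [hδ]
    change E'.rho hr (γ s) _ = E'.rho hr (γ (π s)) _
    rw [hj, map_pow, map_pow, pow_succ, pow_mul, pow_two, h1, one_pow, one_mul]
  have key : ∀ p (hp : E.A.PP p), ∃ β', EG E E' (π.trans γ) hp.1 β' ∧
      UC (E.A.acts p) (E'.A.acts p) β' ∧ Compat α β' := by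
    intro p hp
    by_cases e' : p = t
    swap
    · exact ⟨β p hp, same p hp.1 hp.2.2.1 e' _ (hβ1 p hp), hβ2 p hp, (a2 p hp).1 (rest p hp e')⟩
    subst e'
    refine ⟨(β p ht).trans F, eqv_iff.2 fun s => ?_, ⟨_, he.cyclic,
      fun b hb' => he.mem (E'.A.acts_comm _ hb _ hb'), fun a ha => ?_⟩,
      compat_of ht ht' fun x => ?_⟩
    · rw [cF, eqv_iff.1 (hβ1 p ht) s]
      refine (hF _ (cm (γ s))).trans
        (hπ.map ((E'.rho ht.1).comp γ.toMonoidHom) (fun s s' => ?_) s).symm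
      obtain ⟨μ, hμ⟩ := he.mem (cm (γ s))
      obtain ⟨ν, hν⟩ := he.mem (cm (γ s'))
      change E'.rho ht.1 (γ s) * E'.rho ht.1 (γ s') = E'.rho ht.1 (γ s') * E'.rho ht.1 (γ s)
      rw [← hμ, ← hν, ← map_mul, ← map_mul, mul_comm]
    · rw [cF, hF _ (cu a ha)]
      exact pow_mem (he.mem (cu a ha)) _
    · rw [cF, hF _ (cu _ ⟨3, x, hq, x.2, isCj_cjN _ _⟩), h, inv_eq_iff_mul_eq_one, ← pow_succ']
      obtain ⟨m, hm⟩ : 3 ∣ p + 1 := ((H.acted ht hq kt).2.2.resolve_left fun e =>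
        H.full.2.1 p 3 ht.1 hq.1 hq.2.1 (hq.dvd.mul_right _) t2 ht.2.1 e.2).2
      rw [hm, ← map_pow, ← map_pow, ← SubgroupClass.coe_pow, pow_mul,
        orderOf_dvd_iff_pow_eq_one.1 ((orderOf_dvd_natCard x).trans c3.dvd), one_pow,
        OneMemClass.coe_one, map_one, map_one]
  choose β' b1 b2 b3 using key
  exact ⟨π.trans γ, fin (H.mt_pw hγ hπ) β' b1 b2
    ⟨α, same 3 hq.1 hq.dvd (fun e => hq.2.2 (e ▸ ht.2.2.2)) α a1, b3⟩⟩

end Hyp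

end D

end Pool.Agent.Lib.MP_cb9dee_al
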