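import Pool.Agent.Lib.MP_cb9dee_al.DEight

namespace Pool.Agent.Lib.MP_cb9dee_al

namespace D

open Subgroup

variable {S S' : Type*} [Group S] [Group S']

section one
variable {R : Type*} [Group R]

lemma fix_le (ρ : S →* MulAut R) {s t : S} (h : t ∈ zpowers s) : fixS (ρ s) ≤ fixS (ρ t) := by
  obtain ⟨k, rfl⟩ := h
  intro x hx
  let L : Subgroup S :=
    { carrier := {u | ρ u x = x}
      one_mem' := by simp
      mul_mem' := by
        intro u v hu hv
        simp only [Set.mem_ofPred_eq] at *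
        rw [map_mul, MulAut.mul_apply, hv, hu]
      inv_mem' := by
        intro u hu
        simp only [Set.mem_ofPred_eq] at *
        conv_lhs => rw [← hu]
        rw [← MulAut.mul_apply, ← map_mul, inv_mul_cancel, map_one, MulAut.one_apply] }
  exact L.zpow_mem (show s ∈ L from hx) k

lemma fix_eq (ρ : S →* MulAut R) {s t : S} (h : zpowers s = zpowers t) :
    fixS (ρ s) = fixS (ρ t) :=
  le_antisymm (fix_le ρ (h ▸ mem_zpowers t)) (fix_le ρ (h ▸ mem_zpowers s))

lemma card_fix_conj (ρ : S →* MulAut R) (g s : S) :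
    Nat.card (fixS (ρ (g * s * g⁻¹))) = Nat.card (fixS (ρ s)) := by
  refine (Nat.card_congr ((ρ g).toEquiv.subtypeEquiv fun x => ?_)).symm
  simp [mem_fixS]

lemma z_crit [Finite S] [Finite R] {p : ℕ} (hp : p.Prime) (h2 : p ≠ 2)
    (hR : Nat.card R ∣ p ∨ (Nat.card R = p ^ 2 ∧ p % 4 = 3)) (hS : Nat.card S ∣ 8)
    (h8 : ∀ s : S, orderOf s ≠ 8) (hc : ∀ s t : S, s * t = t * s) (ρ : S →* MulAut R) {a : S}
    (ha : orderOf a = 4) :
    ρ (a * a) ≠ 1 ↔ (∀ s, ¬ orderOf s ∣ 2 → Nat.card (fixS (ρ s)) = 1) ∧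
      ∃ s, orderOf s ∣ 2 ∧ Nat.card (fixS (ρ s)) ≠ Nat.card R := by
  have hd : Nat.card R ∣ p ^ 2 := hR.elim (·.trans (dvd_pow_self p two_ne_zero)) (·.1.dvd)
  constructor
  · intro h
    refine ⟨fun s hs => ?_, a * a, sq_iff.1 (pow_four ha), mt eq_one_iff_card.2 h⟩
    have h4 : orderOf s = 4 := by
      have := h8 s
      rcases order_cases hS s with e | e | e | e <;> rw [e] at hs this ⊢ <;> omega
    have h5 : ρ s * ρ s ≠ 1 := fun e => h (by
      obtain ⟨k, hk⟩ := sq_mem hS (ha.trans h4.symm)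
      rw [← hk, map_zpow, map_mul, e, one_zpow])
    rw [card_eq_one, eq_bot_iff,
      ← fix_sq hp hR (by rw [← map_pow, pow_eight hS, map_one]) h5, ← map_mul]
    exact fix_le ρ (mul_mem (mem_zpowers s) (mem_zpowers s))
  · rintro ⟨h1, t, ht, h3⟩ h
    have e : a * t * (a * t) = a * a := by
      rw [mul_assoc, ← mul_assoc t, hc t a, mul_assoc, sq_iff.2 ht, mul_one]
    have i1 := (inv_iff_card hp h2 hd (by rw [← map_mul, h])).2 (h1 a (by rw [ha]; norm_num))
    have i2 := (inv_iff_card hp h2 hd (by rw [← map_mul, e, h])).2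
      (h1 (a * t) (by rw [← sq_iff, e]; exact sq_ne ha))
    refine h3 (eq_one_iff_card.1 ?_)
    ext x
    have := i2 x
    rw [map_mul, MulAut.mul_apply, i1, inv_inj] at this
    exact this

/-- The elements acting as `± 1`. -/
def pmS (ρ : S →* MulAut R) : Subgroup S where
  carrier := {s | ρ s = 1 ∨ ∀ x, ρ s x = x⁻¹}
  one_mem' := Or.inl (map_one ρ)
  mul_mem' := by
    rintro s t (hs | hs) (ht | ht)
    · exact Or.inl (by rw [map_mul, hs, ht, mul_one])
    · exact Or.inr fun x => by rw [map_mul, hs, one_mul, ht]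
    · exact Or.inr fun x => by rw [map_mul, ht, mul_one, hs]
    · exact Or.inl (MulEquiv.ext fun x => by
        rw [map_mul, MulAut.mul_apply, hs, ht, inv_inv]; rfl)
  inv_mem' := by
    rintro s (hs | hs)
    · exact Or.inl (by rw [map_inv, hs, inv_one])
    · exact Or.inr fun x => (ρ s).injective (by
        rw [← MulAut.mul_apply, ← map_mul, mul_inv_cancel, map_one, hs, inv_inv]; rfl)

lemma four_dvd [Finite S] (hS : Nat.card S = 8) {L : Subgroup S}
    (h : ∀ s t, s ∉ L → t ∉ L → s * t ∈ L) : 4 ∣ Nat.card L := by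
  have h1 : L.index ∣ 2 := by
    rw [index_dvd_two_iff]
    by_cases h2 : ∀ s, s ∈ L
    · exact ⟨1, fun b => Or.inr (h2 b)⟩
    · push Not at h2
      obtain ⟨a, ha⟩ := h2
      exact ⟨a, fun b => (em (b ∈ L)).symm.imp_left fun hb => h b a hb ha⟩
  have h3 := index_mul_card L
  rw [hS] at h3
  rcases (Nat.dvd_prime Nat.prime_two).1 h1 with e | e <;> rw [e] at h3 <;> omega

end one

theorem exists_gamma [Fintype S] [Fintype S'] {ι : Type*} (p : ι → ℕ) (R R' : ι → Type*)
    [∀ i, Group (R i)] [∀ i, Group (R' i)] [∀ i, Finite (R i)] [∀ i, Finite (R' i)]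
    (hS : Nat.card S = 4 ∨ Nat.card S = 8) (hp : ∀ i, (p i).Prime) (h2 : ∀ i, p i ≠ 2)
    (hc : ∀ i, Nat.card (R i) = Nat.card (R' i))
    (hR : ∀ i, Nat.card (R i) ∣ p i ∨ (Nat.card (R i) = p i ^ 2 ∧ p i % 4 = 3))
    (htwo : Nat.card S = 8 → ∀ i j k, Nat.card (R i) = p i ^ 2 → Nat.card (R j) = p j ^ 2 →
      Nat.card (R k) = p k ^ 2 → i = j ∨ i = k ∨ j = k)
    (ρ : ∀ i, S →* MulAut (R i)) (ρ' : ∀ i, S' →* MulAut (R' i)) (σ : S ≃ S')
    (ho : ∀ s, orderOf (σ s) = orderOf s)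
    (hf : ∀ i s, Nat.card (fixS (ρ' i (σ s))) = Nat.card (fixS (ρ i s))) :
    ∃ γ : S ≃* S', ∀ i s, Nat.card (fixS (ρ' i (γ s))) = Nat.card (fixS (ρ i s)) := by
  have hSS : Nat.card S = Nat.card S' := Nat.card_congr σ
  have h1 : σ 1 = 1 := by rw [← orderOf_eq_one_iff, ho, orderOf_one]
  have hS8 : Nat.card S ∣ 8 := hS.elim (fun h => h ▸ ⟨2, rfl⟩) fun h => h.dvd
  by_cases hcyc : ∃ s : S, orderOf s = Nat.card S
  · obtain ⟨a, ha⟩ := hcyc
    have c1 := isCyclic_of_orderOf_eq_card a ha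
    have c2 := isCyclic_of_orderOf_eq_card (σ a) ((ho a).trans (ha.trans hSS))
    let γ : S ≃* S' := mulEquivOfCyclicCardEq hSS
    refine ⟨γ, fun i s => ?_⟩
    rw [← hf, fix_eq (ρ' i) (eq_of_card_eq_of_cyclic (L := zpowers (γ s)) (M := zpowers (σ s))
      (by rw [Nat.card_zpowers, Nat.card_zpowers, ho, γ.orderOf_eq]))]
  push Not at hcyc
  have h8 : ∀ s : S, orderOf s ≠ 8 := fun s e => by
    have h3 := hcyc s
    have h4 := _root_.orderOf_le_card (x := s)
    omega
  by_cases h4 : ∃ a : S, orderOf a = 4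
  · obtain ⟨a, ha⟩ := h4
    have hS' : Nat.card S = 8 := hS.resolve_left fun e => hcyc a (ha.trans e.symm)
    obtain ⟨γ, hγ⟩ := gamma_four hS' h8 ha (fun s i => Nat.card (fixS (ρ i s)))
      (fun s i => Nat.card (fixS (ρ' i s))) σ ho (fun s => funext fun i => hf i s)
      (fun s => funext fun i => by rw [fix_eq (ρ i) zpowers_inv])
      (fun s => funext fun i => by rw [fix_eq (ρ' i) zpowers_inv])
      (fun g s => funext fun i => card_fix_conj _ g s)
      (fun g s => funext fun i => card_fix_conj _ g s) (fun c1 c2 => funext fun i => by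
        have k1 := z_crit (hp i) (h2 i) (hR i) hS8 h8 c1 (ρ i) ha
        have k2 := z_crit (hp i) (h2 i) (hc i ▸ hR i) (hSS ▸ hS8)
          (σ.surjective.forall.2 fun s => (ho s).symm ▸ h8 s) c2 (ρ' i) ((ho a).trans ha)
        rw [σ.surjective.forall, σ.surjective.exists] at k2
        simp only [ho, hf, ← hc] at k2
        have k3 := k1.trans k2.symm
        by_cases h : ρ i (a * a) = 1
        · rw [eq_one_iff_card.1 h, eq_one_iff_card.1 (not_not.1 (mt k3.2 (not_not.2 h))), hc]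
        · have h' := k3.1 h
          rw [map_mul] at h h' ⊢
          rw [map_mul, fix_sq (hp i) (hR i) (by rw [← map_pow, pow_eight hS8, map_one]) h,
            fix_sq (hp i) (hc i ▸ hR i) (by rw [← map_pow, pow_eight (hSS ▸ hS8), map_one]) h',
            card_bot, card_bot])
    exact ⟨γ, fun i s => congrFun (hγ s) i⟩
  have hsq : ∀ s : S, s * s = 1 := fun s => by
    have h5 := h8 s
    have h6 : orderOf s ≠ 4 := fun e => h4 ⟨s, e⟩
    rw [sq_iff]
    rcases order_cases hS8 s with e | e | e | e <;> rw [e] at h5 h6 ⊢ <;> omega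
  have hsq' : ∀ s : S', s * s = 1 := σ.surjective.forall.2 fun s => by
    rw [sq_iff, ho, ← sq_iff, hsq]
  rcases hS with hS | hS
  · have k1 := klein hS hsq
    have k2 := klein (hSS ▸ hS) hsq'
    exact ⟨IsKleinFour.mulEquiv σ h1, hf⟩
  have hd : ∀ i, Nat.card (R i) ∣ p i ^ 2 := fun i =>
    (hR i).elim (·.trans (dvd_pow_self _ two_ne_zero)) (·.1.dvd)
  have q : ∀ i s, ρ i s * ρ i s = 1 := fun i s => by rw [← map_mul, hsq, map_one]
  have q' : ∀ i s, ρ' i s * ρ' i s = 1 := fun i s => by rw [← map_mul, hsq', map_one]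
  let L : ι × Bool → Subgroup S := fun z => cond z.2 (ρ z.1).ker (pmS (ρ z.1))
  let L' : ι × Bool → Subgroup S' := fun z => cond z.2 (ρ' z.1).ker (pmS (ρ' z.1))
  have m1 : ∀ i s, s ∈ L (i, true) ↔ Nat.card (fixS (ρ i s)) = Nat.card (R i) :=
    fun i s => eq_one_iff_card
  have m2 : ∀ i s, s ∈ L (i, false) ↔ Nat.card (fixS (ρ i s)) = Nat.card (R i) ∨
      Nat.card (fixS (ρ i s)) = 1 :=
    fun i s => or_congr eq_one_iff_card (inv_iff_card (hp i) (h2 i) (hd i) (q i s))
  have m1' : ∀ i s, s ∈ L' (i, true) ↔ Nat.card (fixS (ρ' i s)) = Nat.card (R i) :=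
    fun i s => hc i ▸ eq_one_iff_card
  have m2' : ∀ i s, s ∈ L' (i, false) ↔ Nat.card (fixS (ρ' i s)) = Nat.card (R i) ∨
      Nat.card (fixS (ρ' i s)) = 1 :=
    fun i s => or_congr (hc i ▸ eq_one_iff_card)
      (inv_iff_card (hp i) (h2 i) (hc i ▸ hd i) (q' i s))
  have big : ∀ i, 4 ∣ Nat.card (L (i, false)) := fun i => four_dvd hS fun s t hs ht =>
    pm_mul (hp i) (h2 i) (hd i) (ρ i) (q i) hs ht
  have small : ∀ i, ¬ 4 ∣ Nat.card (L (i, true)) → L (i, false) ≠ ⊤ := fun i h e =>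
    h (four_dvd hS fun s t hs ht => by
      have a1 := (show s ∈ L (i, false) from e ▸ mem_top s).resolve_left hs
      have a2 := (show t ∈ L (i, false) from e ▸ mem_top t).resolve_left ht
      exact MulEquiv.ext fun x => by rw [map_mul, MulAut.mul_apply, a1, a2, inv_inv]; rfl)
  have mid : ∀ (i) (K : Subgroup (R i)), ¬ (Nat.card K = Nat.card (R i) ∨ Nat.card K = 1) →
      Nat.card (R i) = p i ^ 2 ∧ Nat.card K = p i := by
    intro i K h
    have h5 := card_subgroup_dvd_card K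
    push Not at h
    rcases hR i with h6 | h6
    · rcases (Nat.dvd_prime (hp i)).1 (h5.trans h6) with h7 | h7
      · exact (h.2 h7).elim
      · exact (h.1 (Nat.dvd_antisymm h5 (h7 ▸ h6))).elim
    · refine ⟨h6.1, ?_⟩
      rcases card_subgroup_cases (hp i) h6.1 K with h7 | h7 | h7
      · exact (h.2 (card_eq_one.2 h7)).elim
      · exact h7
      · exact (h.1 (by rw [h7, card_top])).elim
  have mid' : ∀ (i) (K : Subgroup (R' i)), ¬ (Nat.card K = Nat.card (R i) ∨ Nat.card K = 1) →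
      Nat.card K = p i := by
    intro i K h
    have h5 := hc i ▸ card_subgroup_dvd_card K
    push Not at h
    rcases hR i with h6 | h6
    · rcases (Nat.dvd_prime (hp i)).1 (h5.trans h6) with h7 | h7
      · exact (h.2 h7).elim
      · exact h7
    · rcases card_subgroup_cases (hp i) ((hc i).symm.trans h6.1) K with h7 | h7 | h7
      · exact (h.2 (card_eq_one.2 h7)).elim
      · exact h7
      · exact (h.1 (by rw [h7, card_top, hc])).elim
  have sq2 : ∀ i, ¬ 4 ∣ Nat.card (L (i, true)) → Nat.card (R i) = p i ^ 2 := fun i h => by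
    obtain ⟨s, -, hs⟩ := SetLike.exists_of_lt (lt_top_iff_ne_top.2 (small i h))
    exact (mid i _ (mt (m2 i s).2 hs)).1
  obtain ⟨γ, hγ⟩ := fano hS hsq hsq' σ h1 L L' (by
      rintro ⟨i, _ | _⟩ s
      · rw [m2, m2', hf]
      · rw [m1, m1', hf]) (by
      rintro ⟨i, _ | _⟩ h
      · exact (h (big i)).elim
      · refine ⟨(i, false), fun s hs => Or.inl hs, ?_⟩
        have a1 := big i
        have a2 := Nat.le_of_dvd (by omega) (card_subgroup_dvd_card (L (i, false)))
        have a3 : 0 < Nat.card (L (i, false)) := Nat.card_pos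
        have a4 := mt (eq_top_of_card_eq _) (small i h)
        omega) (by
      rintro ⟨i, _ | _⟩ ⟨j, _ | _⟩ ⟨k, _ | _⟩ hi hj hk <;>
        first
        | exact (hi (big i)).elim
        | exact (hj (big j)).elim
        | exact (hk (big k)).elim
        | skip
      rcases htwo hS i j k (sq2 i hi) (sq2 j hj) (sq2 k hk) with e | e | e <;> simp [e])
  refine ⟨γ, fun i s => ?_⟩
  have a1 := hγ (i, true) s
  have a2 := hγ (i, false) s
  rw [m1, m1'] at a1
  rw [m2, m2'] at a2
  by_cases b1 : Nat.card (fixS (ρ i s)) = Nat.card (R i)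
  · rw [a1.1 b1, b1]
  by_cases b2 : Nat.card (fixS (ρ i s)) = 1
  · rw [(a2.1 (Or.inr b2)).resolve_left (mt a1.2 b1), b2]
  · have b3 := not_or.2 ⟨b1, b2⟩
    rw [(mid i _ b3).2, mid' i _ (mt a2.2 b3)]

end D

end Pool.Agent.Lib.MP_cb9dee_al
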