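import Pool.Agent.Lib.MP_cb9dee_al.DFin

namespace Pool.Agent.Lib.MP_cb9dee_al

open Subgroup Pointwise
open scoped commutatorElement

namespace D

variable {G H : Type} [Group G] [Group H] [Finite G] [Finite H]

lemma exists_inv_sys {K : Subgroup G} (hKn : K.Normal) (hK2 : ¬ 2 ∣ Nat.card K) {a : ℕ}
    (hKi : K.index = 2 ^ a) (hs : Small (Nat.card K)) :
    ∃ R : ∀ r : ℕ, Sylow r G,
      (∀ r, r.Prime → r ≠ 2 → ∀ t ∈ R 2, ∀ x ∈ R r, t * x * t⁻¹ ∈ R r) ∧
      ∀ q q', q.Prime → q'.Prime → q ≠ 2 → q' ≠ 2 → ¬ (R q : Subgroup G).Normal →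
        ¬ (R q' : Subgroup G).Normal → ∀ x ∈ R q, ∀ y ∈ R q', x * y = y * x := by
  classical
  let R0 : ∀ r : ℕ, Sylow r G := fun _ => default
  let π : Finset ℕ := (Nat.card G).primeFactors.filter fun p => p ≠ 2 ∧ (R0 p : Subgroup G).Normal
  have hπ : ∀ p ∈ π, p.Prime ∧ p ≠ 2 ∧ (R0 p : Subgroup G).Normal := fun p hp =>
    ⟨Nat.prime_of_mem_primeFactors (Finset.mem_filter.1 hp).1, (Finset.mem_filter.1 hp).2⟩
  let N : Subgroup G := ⨆ p ∈ π, (R0 p : Subgroup G)
  have hle : ∀ p ∈ π, (R0 p : Subgroup G) ≤ N := fun p hp => le_iSup₂_of_le p hp le_rfl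
  have hNn : N.Normal := ⟨fun x hx g => nm_biSup _ π g
    (fun p hp b hb => hle p hp ((hπ p hp).2.2.conj_mem b hb g)) x hx⟩
  have hNc : Nat.card N = ∏ p ∈ π, Nat.card (R0 p : Subgroup G) :=
    card_biSup _ π (fun p _ q hq _ => Or.inl fun a _ b hb => (hπ q hq).2.2.conj_mem b hb a)
      fun p hp q hq h => coprime_card_sylow (hπ p hp).1 (hπ q hq).1 h _ _
  have hNπ : ∀ q, q.Prime → q ∣ Nat.card N → q ∈ π := by
    intro q hq h
    rw [hNc] at h
    obtain ⟨p, hp, h⟩ := (Prime.dvd_finsetProd_iff hq.prime _).1 h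
    have := Fact.mk (hπ p hp).1
    have h1 := (R0 p).card_eq_multiplicity
    erw [h1] at h
    rwa [(Nat.prime_dvd_prime_iff_eq hq (hπ p hp).1).1 (hq.dvd_of_dvd_pow h)]
  have hπi : ∀ p ∈ π, ¬ p ∣ N.index := fun p hp h => by
    have := Fact.mk (hπ p hp).1
    exact (R0 p).not_dvd_index (h.trans (index_dvd_of_le (hle p hp)))
  obtain ⟨X, hX⟩ := exists_right_complement'_of_coprime (N := N)
    (Nat.coprime_of_dvd fun q hq h => hπi q (hNπ q hq h))
  have hodd : ∀ x : G, ¬ 2 ∣ orderOf x → x ∈ K := fun x hx =>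
    mem_of_pow_eq_one (hKi ▸ ((Nat.Prime.coprime_iff_not_dvd Nat.prime_two).2 hx).symm.pow_right a)
      (pow_orderOf_eq_one x)
  have hcop : (Nat.card (commutator K)).Coprime N.index := by
    refine Nat.coprime_of_dvd fun q hq h => hπi q ?_
    have := Fact.mk hq
    have hqK : q ∣ Nat.card K := h.trans (card_subgroup_dvd_card _)
    have hq2 : q ≠ 2 := fun e => hK2 (e ▸ hqK)
    obtain ⟨Q⟩ : Nonempty (Sylow q K) := inferInstance
    have hQ := sylow_normal_of_dvd_commutator hK2 hs h Q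
    have := Q.characteristic_of_normal hQ
    obtain ⟨Q', hQ'⟩ := exists_sylow_map Q fun h =>
      hq2 ((Nat.prime_dvd_prime_iff_eq hq Nat.prime_two).1 (hq.dvd_of_dvd_pow (hKi ▸ h)))
    exact Finset.mem_filter.2 ⟨Nat.mem_primeFactors.2
      ⟨hq, hqK.trans (card_subgroup_dvd_card K), Nat.card_pos.ne'⟩, hq2,
      sylow_normal_of_normal (P := Q') (hQ' ▸ inferInstance) _⟩
  have hXc : ∀ x ∈ X, ∀ y ∈ X, ¬ 2 ∣ orderOf x → ¬ 2 ∣ orderOf y → x * y = y * x := by
    intro x hx y hy hx2 hy2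
    rw [← commutatorElement_eq_one_iff_mul_comm]
    have h1 : ⁅x, y⁆ ∈ X := X.mul_mem (X.mul_mem (X.mul_mem hx hy) (X.inv_mem hx)) (X.inv_mem hy)
    have h2 : ⁅x, y⁆ ∈ N := by
      refine mem_of_pow_eq_one hcop ?_
      have h3 : ⁅(⟨x, hodd x hx2⟩ : K), ⟨y, hodd y hy2⟩⁆ ∈ commutator K :=
        commutator_mem_commutator (mem_top _) (mem_top _)
      exact congrArg Subtype.val (pow_card_of_mem h3)
    exact (disjoint_iff_inf_le.1 hX.disjoint) ⟨h2, h1⟩
  have hex : ∀ r : ℕ, ∃ Q : Sylow r G, r.Prime → r ∉ π → (Q : Subgroup G) ≤ X := by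
    intro r
    by_cases hr : r.Prime ∧ r ∉ π
    · have := Fact.mk hr.1
      obtain ⟨Q⟩ : Nonempty (Sylow r X) := inferInstance
      obtain ⟨Q', hQ'⟩ := exists_sylow_map Q (by
        rw [hX.index_eq_card]
        exact fun h => hr.2 (hNπ r hr.1 h))
      exact ⟨Q', fun _ _ => hQ' ▸ map_subtype_le _⟩
    · exact ⟨default, fun h1 h2 => absurd ⟨h1, h2⟩ hr⟩
  choose R hR using hex
  have hnn : ∀ q, q.Prime → ¬ (R q : Subgroup G).Normal → (R q : Subgroup G) ≤ X := by
    intro q hq h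
    have := Fact.mk hq
    exact hR q hq fun h' => h (sylow_normal_of_normal (hπ q h').2.2 _)
  refine ⟨R, fun r hr hr2 t ht x hx => ?_, fun q q' hq hq' h2 h2' hn hn' x hx y hy => ?_⟩
  · have htX : t ∈ X := hR 2 Nat.prime_two (fun h => (hπ 2 h).2.1 rfl) ht
    have := Fact.mk hr
    by_cases hn : (R r : Subgroup G).Normal
    · exact hn.conj_mem x hx t
    · refine mem_sylow_of_comm (R r) (k := (Nat.card G).factorization r) ?_ fun y hy => ?_
      · rw [conj_pow, pow_eq_one_of_mem_sylow (R r) hx]; simp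
      · refine hXc _ (X.mul_mem (X.mul_mem htX (hnn r hr hn hx)) (X.inv_mem htX)) y
          (hnn r hr hn hy) ?_ (not_two_dvd_orderOf hr2 _ hy)
        have : orderOf (t * x * t⁻¹) = orderOf x := (MulAut.conj t).orderOf_eq x
        rw [this]
        exact not_two_dvd_orderOf hr2 _ hx
  · have := Fact.mk hq
    have := Fact.mk hq'
    exact hXc x (hnn q hq hn hx) y (hnn q' hq' hn' hy) (not_two_dvd_orderOf h2 _ hx)
      (not_two_dvd_orderOf h2' _ hy)

lemma exists_dat {K : Subgroup G} (hKn : K.Normal) (hK2 : ¬ 2 ∣ Nat.card K) {a : ℕ}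
    (hKi : K.index = 2 ^ a) (hs : Small (Nat.card K)) :
    ∃ (S : Subgroup G) (E : Dat K S), Nat.card S = 2 ^ a ∧
      ∀ (s : S) (y : K), (E.φ s y : G) = s * y * (s : G)⁻¹ := by
  classical
  obtain ⟨R, h1, h2⟩ := exists_inv_sys hKn hK2 hKi hs
  have hle : ∀ r, r.Prime → r ≠ 2 → (R r : Subgroup G) ≤ K := fun r hr h x hx => by
    have := Fact.mk hr
    exact mem_of_pow_eq_one (hKi ▸ ((Nat.Prime.coprime_iff_not_dvd Nat.prime_two).2
      (not_two_dvd_orderOf h _ hx)).symm.pow_right a) (pow_orderOf_eq_one x)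
  have hex : ∀ r : ℕ, ∃ Q : Sylow r K, r.Prime → r ≠ 2 →
      (Q : Subgroup K) = (R r : Subgroup G).subgroupOf K := fun r => by
    by_cases h : r.Prime ∧ r ≠ 2
    · exact ⟨(R r).subtype (hle r h.1 h.2), fun _ _ => rfl⟩
    · exact ⟨default, fun a b => (h ⟨a, b⟩).elim⟩
  choose Q hQ using hex
  have hm : ∀ r, r.Prime → r ≠ 2 → ∀ x : K, x ∈ Q r ↔ (x : G) ∈ R r := fun r a b x => by
    change x ∈ (Q r : Subgroup K) ↔ _
    rw [hQ r a b]; rfl
  have htwo : ∀ x ∈ Q 2, x = 1 := fun x hx =>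
    eq_one_of_mem_sylow_of_not_dvd Nat.prime_two _ hK2 hx
  let A : Sys K :=
    { R := Q
      t := 1
      ht := mul_one 1
      hR2 := by rw [zpowers_one_eq_bot, eq_bot_iff]; exact htwo
      hnt := fun r _ _ x hx => by simpa using hx
      hcomm := fun q q' hq hq' a b c d x hx y hy => Subtype.ext (h2 q q' hq hq' a b
        (fun e => c (hQ q hq a ▸ e.subgroupOf K)) (fun e => d (hQ q' hq' b ▸ e.subgroupOf K))
        x ((hm q hq a x).1 hx) y ((hm q' hq' b y).1 hy)) }
  refine ⟨R 2, ⟨(cjN K hKn).comp (Subgroup.subtype _), A, fun r hr s x hx => ?_⟩, ?_,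
    fun _ _ => rfl⟩
  · by_cases h : r = 2
    · subst h
      rw [htwo x hx, map_one]
      exact one_mem _
    · exact (hm r hr h _).2 (h1 r hr h s s.2 x ((hm r hr h x).1 hx))
  · have := Fact.mk Nat.prime_two
    rw [(R 2).card_eq_multiplicity, ← index_mul_card K, hKi,
      Nat.factorization_mul (by positivity) Nat.card_pos.ne', Finsupp.add_apply,
      Nat.factorization_eq_zero_of_not_dvd hK2]
    simp [Nat.prime_two.factorization_self]

lemma cnt_dat {K S : Subgroup G} [Fintype G] [Fintype K] [Fintype S] (hKn : K.Normal)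
    (hK2 : ¬ 2 ∣ Nat.card K) {a : ℕ} (hS : Nat.card S = 2 ^ a) (hKi : K.index = 2 ^ a)
    (φ : S →* MulAut K) (hφ : ∀ (s : S) (y : K), (φ s y : G) = s * y * (s : G)⁻¹) (k : ℕ)
    (ψ : ℕ → ℚ) : cnt φ k ψ = ∑ g : G,
      ind (ordProj[2] (orderOf g) = k) * ψ (ordCompl[2] (orderOf g)) := by
  classical
  have hc : (Nat.card S).Coprime (Nat.card K) :=
    hS ▸ ((Nat.Prime.coprime_iff_not_dvd Nat.prime_two).2 hK2).pow_left a
  have htop : S ⊔ K = ⊤ := (isComplement'_of_coprime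
    (by rw [hS, ← hKi, index_mul_card]) hc).sup_eq_top
  have sub : ∀ (L : Subgroup G) [Fintype L] (Φ : G → ℚ),
      ∑ u, ind (u ∈ L) * Φ u = ∑ u : L, Φ u := fun L _ Φ => by
    rw [← Finset.sum_subtype (Finset.univ.filter (· ∈ L)) (by simp), Finset.sum_filter]
    exact Finset.sum_congr rfl fun u _ => by by_cases hu : u ∈ L <;> simp [ind, hu]
  have h1 := sum_sup (A := S) (B := K) (fun a _ b hb => hKn.conj_mem b hb a)
    (disjoint_of_coprime_natCard hc)
    fun g => ind (ordProj[2] (orderOf g) = k) * ψ (ordCompl[2] (orderOf g))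
  simp only [htop, ind_pos (mem_top _), one_mul] at h1
  rw [h1, sub, cnt]
  refine Finset.sum_congr rfl fun s _ => ?_
  have ho := Subgroup.orderOf_dvd_natCard S s.2
  rw [fib_ind K s (fun u hu => hKn.conj_mem u hu s) (hc.coprime_dvd_left ho)
    fun m => ind (ordProj[2] m = k) * ψ (ordCompl[2] m)]
  have hfix : fixS (φ s) = (centralizer {(s : G)}).subgroupOf K := by
    ext y
    rw [mem_fixS, Subtype.ext_iff, hφ, mem_subgroupOf, mem_centralizer_singleton_iff,
      mul_inv_eq_iff_eq_mul, eq_comm]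
  rw [relIndex, ← hfix, mul_left_comm]
  congr 1
  simp only [mem_inf, ind_and, mul_assoc]
  rw [sub, Finset.mul_sum]
  refine Finset.sum_congr rfl fun y _ => ?_
  obtain ⟨j, -, hj⟩ := (Nat.dvd_prime_pow Nat.prime_two).1 (hS ▸ ho)
  have hy : ¬ 2 ∣ orderOf (y : G) := fun h => hK2 (h.trans (Subgroup.orderOf_dvd_natCard K y.2))
  have e1 : (orderOf (s : G) * orderOf (y : G)).factorization 2 = j := by
    rw [hj, Nat.factorization_mul (by positivity) (orderOf_pos _).ne', Finsupp.add_apply,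
      Nat.factorization_eq_zero_of_not_dvd hy]
    simp [Nat.prime_two.factorization_self]
  rw [e1, ← hj, Nat.mul_div_cancel_left _ (orderOf_pos _), Subgroup.orderOf_coe,
    Subgroup.orderOf_coe, mul_left_comm]
  congr 1
  exact ind_congr (by rw [← mem_fixS, hfix]; rfl)

lemma sum_order [Fintype G] [Fintype H] (h : Conformal G H) (Ψ : ℕ → ℚ) :
    ∑ g : G, Ψ (orderOf g) = ∑ g : H, Ψ (orderOf g) := by
  have : ∀ k, Nonempty ({g : G // orderOf g = k} ≃ {g : H // orderOf g = k}) := fun k => by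
    refine Finite.card_eq.1 ?_
    by_cases hk : k = 0
    · have : IsEmpty {g : G // orderOf g = k} := ⟨fun g => (orderOf_pos g.1).ne' (g.2.trans hk)⟩
      have : IsEmpty {g : H // orderOf g = k} := ⟨fun g => (orderOf_pos g.1).ne' (g.2.trans hk)⟩
      simp
    · exact h.card_order k hk
  exact Fintype.sum_equiv (Equiv.ofFiberEquiv fun k => (this k).some) _ _ fun g =>
    congrArg Ψ (Equiv.ofFiberEquiv_map (fun k => (this k).some) g).symm

end D

variable {G H : Type} [Group G] [Group H] [Finite G] [Finite H]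

theorem rigid_I (c : Pair G H) (hG : TyI G) (hH : TyI H) : Nonempty (G ≃* H) := by
  classical
  obtain ⟨K, hKn, hK2, a, hKi⟩ := hG
  obtain ⟨K', hKn', hK2', a', hKi'⟩ := hH
  have fa : ∀ {T : Type} [Group T] [Finite T] (K : Subgroup T) (a : ℕ), ¬ 2 ∣ Nat.card K →
      K.index = 2 ^ a → (Nat.card T).factorization 2 = a := by
    intro T _ _ K a h1 h2
    rw [← index_mul_card K, h2, Nat.factorization_mul (by positivity) Nat.card_pos.ne',
      Finsupp.add_apply, Nat.factorization_eq_zero_of_not_dvd h1]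
    simp [Nat.prime_two.factorization_self]
  obtain rfl : a = a' := by rw [← fa K a hK2 hKi, ← fa K' a' hK2' hKi', c.card]
  have hn : Nat.card K * 2 ^ a = Nat.card G := by rw [← hKi, card_mul_index]
  have hn' : Nat.card K' * 2 ^ a = Nat.card H := by rw [← hKi', card_mul_index]
  have hKK : Nat.card K = Nat.card K' :=
    Nat.eq_of_mul_eq_mul_right (by positivity) (hn.trans (c.card.trans hn'.symm))
  have hs : Small (Nat.card K) := by
    have hd := card_subgroup_dvd_card K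
    refine ⟨fun p hp h => ?_, fun p q hp hq h2 h3 h4 => ?_⟩
    · exact c.full.1 p hp (fun e => hK2 (e ▸ (dvd_pow_self p three_ne_zero).trans h)) (h.trans hd)
    · exact c.full.2.1 p q hp hq h2 (h3.trans hd) (h4.trans hd)
        fun e => hK2 (e ▸ (dvd_pow_self p two_ne_zero).trans h4)
  obtain ⟨S, E, hS, hφ⟩ := D.exists_dat hKn hK2 hKi hs
  obtain ⟨S', E', hS', hφ'⟩ := D.exists_dat hKn' hK2' hKi' (hKK ▸ hs)
  let _ := Fintype.ofFinite G
  let _ := Fintype.ofFinite H
  have h48 : Nat.card S = 4 ∨ Nat.card S = 8 := by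
    have h1 := (Nat.prime_two.pow_dvd_iff_le_factorization (k := 2)
      (Nat.card_pos (α := G)).ne').1 c.four
    have h2 := mt (Nat.prime_two.pow_dvd_iff_le_factorization (k := 4)
      (Nat.card_pos (α := G)).ne').2 (c.full.2.2.2.2.2.1 c.four).1
    rw [fa K a hK2 hKi] at h1 h2
    rw [hS]
    interval_cases a <;> simp
  have hyp : D.Hyp E E' := ⟨hKK, hS.trans hS'.symm, hK2, h48, by rw [hS, hn]; exact c.full,
    fun k ψ => by
      rw [D.cnt_dat hKn hK2 hS hKi _ hφ, D.cnt_dat hKn' hK2' hS' hKi' _ hφ']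
      exact D.sum_order c.conf fun m => D.ind (ordProj[2] m = k) * ψ (ordCompl[2] m)⟩
  obtain ⟨γ, Φ, h⟩ := hyp.core
  have top : ∀ {T : Type} [Group T] [Finite T] (K S : Subgroup T), ¬ 2 ∣ Nat.card K →
      Nat.card S = 2 ^ a → Nat.card K * 2 ^ a = Nat.card T →
      (⨆ i ∈ (Finset.univ : Finset Bool), cond i K S) = ⊤ := by
    intro T _ _ K S h1 h2 h3
    rw [eq_top_iff, ← (isComplement'_of_coprime (H := K) (K := S) (h2 ▸ h3) (h2 ▸
      ((Nat.Prime.coprime_iff_not_dvd Nat.prime_two).2 h1).symm.pow_right a)).sup_eq_top]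
    exact sup_le (le_iSup₂_of_le true (Finset.mem_univ _) le_rfl)
      (le_iSup₂_of_le false (Finset.mem_univ _) le_rfl)
  have cp : Compat γ Φ := fun x y => ⟨E.φ x y, hφ x y, by rw [h, hφ']⟩
  obtain ⟨Ψ, -⟩ := glue Finset.univ (fun i : Bool => cond i K S) (fun i : Bool => cond i K' S')
    (fun i => match i with
      | true => Φ
      | false => γ) (top K S hK2 hS hn) (top K' S' hK2' hS' hn')
    (by simp only [Fintype.prod_bool, cond_true, cond_false]; rw [hS, hn]) c.card (by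
      rintro (_ | _) _ (_ | _) _ hij
      · exact (hij rfl).elim
      · exact Or.inl cp
      · exact Or.inr cp
      · exact (hij rfl).elim)
  exact ⟨Ψ⟩

end Pool.Agent.Lib.MP_cb9dee_al
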