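import Pool.Agent.Lib.MP_cb9dee_al.DAut

namespace Pool.Agent.Lib.MP_cb9dee_al

namespace D

open Subgroup

variable {R R' S : Type*} [Group R] [Group R'] [Group S] {p : ℕ}

section model
variable [hp : Fact p.Prime]

/-- A field model adapted to the automorphism `a`. -/
structure Model (e : R ≃ GaloisField p 2) (a : MulAut R) : Prop where
  add : ∀ x y, e (x * y) = e x + e y
  lin : ∀ b, a * b = b * a → ∃ μ : (GaloisField p 2)ˣ, ∀ x, e (b x) = μ * e x
  semi : ∀ g, a * (g * a * g⁻¹) = (g * a * g⁻¹) * a → a * g ≠ g * a →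
    ∃ d : (GaloisField p 2)ˣ, ∀ x, e (g x) = d * e x ^ p

lemma gf_pow' (x : GaloisField p 2) : (x ^ p) ^ p = x := by
  rw [← pow_mul, ← pow_two, gf_pow]

lemma Model.comm {e : R ≃ GaloisField p 2} {a b : MulAut R} (h : Model e a)
    {μ : GaloisField p 2} (hb : ∀ x, e (b x) = μ * e x) : a * b = b * a := by
  obtain ⟨ν, hν⟩ := h.lin a rfl
  ext x
  apply e.injective
  rw [MulAut.mul_apply, MulAut.mul_apply, hν, hb, hb, hν]
  ring

lemma exists_model [Finite R] (hR : Nat.card R = p ^ 2) (a : MulAut R)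
    (hirr : ∀ L : Subgroup R, (∀ x ∈ L, a x ∈ L) → L = ⊥ ∨ L = ⊤) :
    ∃ e : R ≃ GaloisField p 2, Model e a := by
  have : Nontrivial R := Finite.one_lt_card_iff_nontrivial.1
    (hR ▸ Nat.one_lt_pow two_ne_zero hp.out.one_lt)
  obtain ⟨v, hv⟩ := exists_ne (1 : R)
  obtain ⟨e, hadd, -, hlin, hsemi⟩ := field_model p hR a hirr v hv
  have hone : e 1 = 0 := by simpa using hadd 1 1
  have hne : ∀ b : MulAut R, e (b v) ≠ 0 := fun b h =>
    hv (by simpa using e.injective (h.trans hone.symm))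
  refine ⟨e, hadd, fun b hb => ⟨Units.mk0 _ (hne b), hlin b hb⟩, fun g hg hn => ?_⟩
  rcases hsemi g hg with h | h
  · refine (hn ?_).elim
    ext x
    apply e.injective
    rw [MulAut.mul_apply, MulAut.mul_apply, hlin a rfl, h x, h (a x), hlin a rfl x]
    ring
  · exact ⟨Units.mk0 _ (hne g), fun x => by rw [h x, mul_comm]; rfl⟩

lemma Model.sq {e : R ≃ GaloisField p 2} {a g : MulAut R} (h : Model e a)
    (hg : a * (g * a * g⁻¹) = (g * a * g⁻¹) * a) : a * (g * g) = (g * g) * a := by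
  by_cases h1 : a * g = g * a
  · rw [← mul_assoc, h1, mul_assoc, h1, mul_assoc]
  · obtain ⟨d, hd⟩ := h.semi g hg h1
    exact h.comm (μ := d * d ^ p) fun x => by
      rw [MulAut.mul_apply, hd, hd, mul_pow, gf_pow', mul_assoc]

lemma Model.frob {e : R ≃ GaloisField p 2} {a : MulAut R} (h : Model e a) :
    ∃ e1 : R ≃ GaloisField p 2, Model e1 a ∧ ∀ x, e1 x = e x ^ p := by
  let e1 := e.trans (frobeniusEquiv (GaloisField p 2) p).toEquiv
  have h1 : ∀ x, e1 x = e x ^ p := fun _ => rfl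
  refine ⟨e1, ⟨fun x y => by rw [h1, h1, h1, h.add, add_pow_char], fun b hb => ?_,
    fun g hg hn => ?_⟩, h1⟩
  · obtain ⟨μ, hμ⟩ := h.lin b hb
    exact ⟨μ ^ p, fun x => by rw [h1, h1, hμ, mul_pow, Units.val_pow_eq_pow_val]⟩
  · obtain ⟨μ, hμ⟩ := h.semi g hg hn
    exact ⟨μ ^ p, fun x => by rw [h1, h1, hμ, mul_pow, Units.val_pow_eq_pow_val]⟩

lemma Model.scale {e : R ≃ GaloisField p 2} {a : MulAut R} (h : Model e a)
    (ν : (GaloisField p 2)ˣ) : ∃ e1 : R ≃ GaloisField p 2, Model e1 a ∧ ∀ x, e1 x = ν * e x := by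
  let e1 := e.trans (Units.mulLeft ν)
  have h1 : ∀ x, e1 x = ν * e x := fun _ => rfl
  refine ⟨e1, ⟨fun x y => by rw [h1, h1, h1, h.add, mul_add], fun b hb => ?_,
    fun g hg hn => ?_⟩, h1⟩
  · obtain ⟨μ, hμ⟩ := h.lin b hb
    exact ⟨μ, fun x => by rw [h1, h1, hμ]; ring⟩
  · obtain ⟨μ, hμ⟩ := h.semi g hg hn
    refine ⟨ν * μ / ν ^ p, fun x => ?_⟩
    rw [h1, h1, hμ, mul_pow]
    simp only [Units.val_div_eq_div_val, Units.val_mul, Units.val_pow_eq_pow_val]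
    field_simp

lemma hilbert (u : (GaloisField p 2)ˣ) (hu : u * u ^ p = 1) :
    ∃ ν : (GaloisField p 2)ˣ, ν = u * ν ^ p := by
  have hc : Nat.card (GaloisField p 2)ˣ = (p + 1) * (p - 1) := by
    rw [Nat.card_units, gf_card, ← Nat.sq_sub_sq, one_pow]
  have h1 : 0 < p - 1 := Nat.sub_pos_of_lt hp.out.one_lt
  have : (powMonoidHom (p - 1) : (GaloisField p 2)ˣ →* _).range = (powMonoidHom (p + 1)).ker := by
    apply eq_of_card_eq_of_cyclic
    rw [IsCyclic.card_powMonoidHom_range, IsCyclic.card_powMonoidHom_ker, hc,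
      Nat.gcd_eq_right (dvd_mul_left _ _), Nat.gcd_eq_right (dvd_mul_right _ _),
      Nat.mul_div_cancel _ h1]
  have hm : u ∈ (powMonoidHom (p - 1) : (GaloisField p 2)ˣ →* _).range := by
    rw [this, MonoidHom.mem_ker, powMonoidHom_apply, pow_succ', hu]
  obtain ⟨w, rfl⟩ := hm
  refine ⟨w⁻¹, ?_⟩
  rw [powMonoidHom_apply, inv_pow, eq_mul_inv_iff_mul_eq, inv_mul_eq_iff_eq_mul, ← pow_succ',
    Nat.sub_add_cancel hp.out.one_le]

/-- The isomorphism given by two models. -/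
def Model.iso {e : R ≃ GaloisField p 2} {a : MulAut R} {e' : R' ≃ GaloisField p 2} {b : MulAut R'}
    (h : Model e a) (h' : Model e' b) : R ≃* R' :=
  { e.trans e'.symm with map_mul' := fun x y => e'.injective (by simp [h.add, h'.add]) }

lemma Model.iso_apply {e : R ≃ GaloisField p 2} {a : MulAut R} {e' : R' ≃ GaloisField p 2}
    {b : MulAut R'} (h : Model e a) (h' : Model e' b) (x : R) : e' (h.iso h' x) = e x := by
  simp [Model.iso]

lemma Model.mem {e : R ≃ GaloisField p 2} {a c : MulAut R} (h : Model e a) (hc : a * c = c * a) :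
    c ∈ (mulHom e h.add).range := by
  obtain ⟨μ, hμ⟩ := h.lin c hc
  exact ⟨μ, by ext x; apply e.injective; rw [mulHom_apply, hμ]⟩

lemma Model.congr_mem {e : R ≃ GaloisField p 2} {a c : MulAut R} {e' : R' ≃ GaloisField p 2}
    {b : MulAut R'} (h : Model e a) (h' : Model e' b) (hc : a * c = c * a) :
    MulAut.congr (h.iso h') c ∈ (mulHom e' h'.add).range := by
  obtain ⟨μ, hμ⟩ := h.lin c hc
  refine ⟨μ, ?_⟩
  ext x
  apply e'.injective
  obtain ⟨y, rfl⟩ := (h.iso h').surjective x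
  rw [mulHom_apply, h.iso_apply, ← hμ, ← h.iso_apply h']
  simp

lemma Model.cyclic {e : R ≃ GaloisField p 2} {a : MulAut R} (h : Model e a) :
    IsCyclic (mulHom e h.add).range :=
  isCyclic_of_surjective _ (mulHom e h.add).rangeRestrict_surjective

lemma Model.flip {e : R ≃ GaloisField p 2} {a : MulAut R} (h : Model e a) :
    ∃ F : MulAut R, ∀ c, a * c = c * a → F * c * F⁻¹ = c ^ p := by
  let F : MulAut R := viaModel e h.add (frobeniusEquiv (GaloisField p 2) p).toAddEquiv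
  have hF : ∀ x, e (F x) = e x ^ p := fun x => by simp [F, frobenius_def]
  refine ⟨F, fun c hc => ?_⟩
  obtain ⟨μ, rfl⟩ := h.mem hc
  rw [mul_inv_eq_iff_eq_mul, ← map_pow]
  ext x
  apply e.injective
  rw [MulAut.mul_apply, MulAut.mul_apply, hF, mulHom_apply, mulHom_apply, hF, mul_pow,
    Units.val_pow_eq_pow_val]

end model

lemma isPGroup_of_dvd [Finite S] (hS : Nat.card S ∣ 8) : IsPGroup 2 S := by
  obtain ⟨k, -, hk⟩ := (Nat.dvd_prime_pow Nat.prime_two).1 (show Nat.card S ∣ 2 ^ 3 from hS)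
  exact IsPGroup.of_card hk

lemma eqv_iff {ρ : S →* MulAut R} {ρ' : S →* MulAut R'} {β : R ≃* R'} :
    Eqv ρ ρ' β ↔ ∀ s, MulAut.congr β (ρ s) = ρ' s := by
  refine forall_congr' fun s => ⟨fun h => ?_, fun h x => ?_⟩
  · ext x
    obtain ⟨y, rfl⟩ := β.surjective x
    simp [h]
  · simp [← h]

lemma ml_lin [Finite R] [Finite R'] (hS : IsPGroup 2 S) (ρ : S →* MulAut R) (ρ' : S →* MulAut R')
    (hk : ∀ s, ρ s = 1 ↔ ρ' s = 1) (β : R ≃* R') (U : Subgroup (MulAut R')) (hU : IsCyclic U)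
    (h1 : ∀ s, ρ' s ∈ U) (h2 : ∀ s, MulAut.congr β (ρ s) ∈ U) :
    ∃ k, Odd k ∧ ∀ s, MulAut.congr β (ρ s) = ρ' s ^ k := by
  obtain ⟨k, hk', e⟩ := exists_pow_of_ker_eq Nat.prime_two hS
    (((MulAut.congr β).toMonoidHom.comp ρ).codRestrict U h2) (ρ'.codRestrict U h1) (by
      rw [MonoidHom.ker_codRestrict, MonoidHom.ker_codRestrict]
      ext s
      change MulAut.congr β (ρ s) = 1 ↔ ρ' s = 1
      rw [MulEquiv.map_eq_one_iff, hk])
  exact ⟨k, Nat.coprime_two_right.1 hk', fun s => congrArg Subtype.val (e s)⟩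

/-- The two sets of automorphisms lie in a common cyclic group. -/
def UC (A : Set (MulAut R)) (B : Set (MulAut R')) (β : R ≃* R') : Prop :=
  ∃ U : Subgroup (MulAut R'), IsCyclic U ∧ (∀ b ∈ B, b ∈ U) ∧ ∀ a ∈ A, MulAut.congr β a ∈ U

lemma ml_semi [Finite S] [Finite R] [Finite R'] [hp : Fact p.Prime] (h3 : p % 4 = 3)
    (hS : Nat.card S ∣ 8) (ρ : S →* MulAut R) (ρ' : S →* MulAut R')
    (hk : ∀ s, ρ s = 1 ↔ ρ' s = 1) {e : R ≃ GaloisField p 2} {a : MulAut R}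
    {e' : R' ≃ GaloisField p 2} {b : MulAut R'} (h : Model e a) (h' : Model e' b)
    (ca : ∀ s, a * (ρ s * a * (ρ s)⁻¹) = (ρ s * a * (ρ s)⁻¹) * a)
    (cb : ∀ s, b * (ρ' s * b * (ρ' s)⁻¹) = (ρ' s * b * (ρ' s)⁻¹) * b)
    (hκ : ∀ s, a * ρ s = ρ s * a ↔ b * ρ' s = ρ' s * b) {t : S} (ht : a * ρ t ≠ ρ t * a) :
    ∃ (e1 : R ≃ GaloisField p 2) (h1 : Model e1 a), Eqv ρ ρ' (h1.iso h') := by
  let S0 : Subgroup S := (centralizer {a}).comap ρ
  have hS0 : ∀ s, s ∈ S0 ↔ a * ρ s = ρ s * a := fun s =>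
    mem_centralizer_singleton_iff.trans eq_comm
  have h4 : ∀ s ∈ S0, s ^ 4 = 1 := by
    intro s hs
    have h5 : Nat.card S0 ∣ 2 ^ 3 := (card_subgroup_dvd_card S0).trans hS
    obtain ⟨k, hk, e⟩ := (Nat.dvd_prime_pow Nat.prime_two).1 h5
    have h6 : k ≠ 3 := by
      rintro rfl
      have : S0 = ⊤ := eq_top_of_le_card _ (e ▸ Nat.le_of_dvd (by norm_num) hS)
      exact ht ((hS0 t).1 (this ▸ mem_top t))
    exact orderOf_dvd_iff_pow_eq_one.1 ((Subgroup.orderOf_dvd_natCard S0 hs).trans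
      (e ▸ pow_dvd_pow 2 (show k ≤ 2 by omega)))
  obtain ⟨e1, h1, he1⟩ : ∃ (e1 : R ≃ GaloisField p 2) (_ : Model e1 a), ∀ s ∈ S0,
      ∃ μ : GaloisField p 2, (∀ x, e1 (ρ s x) = μ * e1 x) ∧ ∀ x, e' (ρ' s x) = μ * e' x := by
    obtain ⟨k, hk1, hk2⟩ := ml_lin ((isPGroup_of_dvd hS).to_subgroup S0) (ρ.comp S0.subtype)
      (ρ'.comp S0.subtype) (fun s => hk s) (h.iso h') _ h'.cyclic
      (fun s => h'.mem ((hκ s).1 ((hS0 s).1 s.2))) fun s => h.congr_mem h' ((hS0 s).1 s.2)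
    have key : ∀ s ∈ S0, ∃ ν : GaloisField p 2, ν ^ 4 = 1 ∧ (∀ x, e (ρ s x) = ν ^ k * e x) ∧
        ∀ x, e' (ρ' s x) = ν * e' x := by
      intro s hs
      obtain ⟨ν, hν⟩ := h'.mem ((hκ s).1 ((hS0 s).1 hs))
      refine ⟨ν, ?_, fun x => ?_, fun x => by rw [← hν, mulHom_apply]⟩
      · have := mulHom_apply e' h'.add (ν ^ 4) (e'.symm 1)
        rw [map_pow, hν, ← map_pow, h4 s hs, map_one] at this
        simpa using this.symm
      · have h7 : MulAut.congr (h.iso h') (ρ s) = ρ' s ^ k := hk2 ⟨s, hs⟩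
        have := mulHom_apply e' h'.add (ν ^ k) (h.iso h' x)
        rw [map_pow, hν, ← h7, h.iso_apply] at this
        simpa [h.iso_apply] using this
    by_cases hk4 : k % 4 = 1
    · refine ⟨e, h, fun s hs => ?_⟩
      obtain ⟨ν, n1, n2, n3⟩ := key s hs
      rw [pow_eq_pow_mod k n1, hk4, pow_one] at n2
      exact ⟨ν, n2, n3⟩
    · obtain ⟨e1, h1, he1⟩ := h.frob
      refine ⟨e1, h1, fun s hs => ?_⟩
      obtain ⟨ν, n1, n2, n3⟩ := key s hs
      refine ⟨ν, fun x => ?_, n3⟩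
      have hk3 : k % 4 = 3 := by have := Nat.odd_iff.1 hk1; omega
      rw [he1, he1, n2, mul_pow, ← pow_mul, pow_eq_pow_mod _ n1, Nat.mul_mod, hk3, h3]
      norm_num
  obtain ⟨d, hd⟩ := h1.semi _ (ca t) ht
  obtain ⟨d', hd'⟩ := h'.semi _ (cb t) (mt (hκ t).2 ht)
  obtain ⟨μ, m1, m2⟩ := he1 (t * t) ((hS0 _).2 (by rw [map_mul]; exact h.sq (ca t)))
  have n1 : (d : GaloisField p 2) * d ^ p = μ := by
    have := m1 (e1.symm 1)
    rw [map_mul, MulAut.mul_apply, hd, hd] at this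
    simpa using this
  have n2 : (d' : GaloisField p 2) * d' ^ p = μ := by
    have := m2 (e'.symm 1)
    rw [map_mul, MulAut.mul_apply, hd', hd'] at this
    simpa using this
  obtain ⟨ν, hν⟩ := hilbert (d / d') (by
    rw [div_pow, div_mul_div_comm, div_eq_one]
    exact Units.ext (by simpa using n1.trans n2.symm))
  obtain ⟨e2, h2, he2⟩ := h1.scale ν⁻¹
  have E0 : ∀ s ∈ S0, ∀ x, h2.iso h' (ρ s x) = ρ' s (h2.iso h' x) := by
    intro s hs x
    obtain ⟨μ, m1, m2⟩ := he1 s hs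
    apply e'.injective
    rw [m2, h2.iso_apply, h2.iso_apply, he2, he2, m1]
    ring
  have E1 : ∀ x, h2.iso h' (ρ t x) = ρ' t (h2.iso h' x) := by
    intro x
    apply e'.injective
    rw [hd', h2.iso_apply, h2.iso_apply, he2, he2, hd, mul_pow, ← mul_assoc, ← mul_assoc]
    congr 1
    rw [← Units.val_pow_eq_pow_val, ← Units.val_mul, ← Units.val_mul]
    congr 1
    rw [inv_pow, eq_mul_inv_iff_mul_eq, mul_assoc, inv_mul_eq_iff_eq_mul]
    conv_rhs => rw [hν]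
    rw [mul_right_comm, div_mul_cancel]
  refine ⟨e2, h2, fun s x => ?_⟩
  by_cases hs : s ∈ S0
  · exact E0 s hs x
  · obtain ⟨c, hc⟩ := h1.semi _ (ca s) (mt (hS0 s).2 hs)
    have h8 : s * t ∈ S0 := (hS0 _).2 (h1.comm (μ := c * d ^ p) fun x => by
      rw [map_mul, MulAut.mul_apply, hc, hd, mul_pow, gf_pow', mul_assoc])
    obtain ⟨y, rfl⟩ := (ρ t).surjective x
    have := E0 _ h8 y
    rw [map_mul, map_mul, MulAut.mul_apply, MulAut.mul_apply, ← E1] at this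
    exact this

/-- `π` is an odd power map that agrees with the `k`-th power modulo commutators. -/
def Pw (k : ℕ) (π : S ≃* S) : Prop :=
  (∃ j, Odd j ∧ ∀ s, π s = s ^ j) ∧ ∀ s, (π s)⁻¹ * s ^ k ∈ commutator S

lemma Pw.map {k : ℕ} {π : S ≃* S} (h : Pw k π) {W : Type*} [Group W] (f : S →* W)
    (hf : ∀ s t, f s * f t = f t * f s) (s : S) : f (π s) = f s ^ k := by
  have : commutator S ≤ f.ker := by
    rw [_root_.commutator_def, commutator_le]
    intro g _ g' _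
    rw [MonoidHom.mem_ker, map_commutatorElement, commutatorElement_eq_one_iff_mul_comm, hf]
  have h1 := this (h.2 s)
  rwa [MonoidHom.mem_ker, map_mul, map_inv, map_pow, inv_mul_eq_one] at h1

lemma pow_eight [Finite S] (hS : Nat.card S ∣ 8) (s : S) : s ^ 8 = 1 :=
  orderOf_dvd_iff_pow_eq_one.1 ((orderOf_dvd_natCard s).trans hS)

lemma Pw.gen [Finite S] (hS : Nat.card S ∣ 8) {k : ℕ} {π : S ≃* S} (h : Pw k π) (s : S) :
    ∃ i j : ℕ, π s = s ^ i ∧ s = π s ^ j := by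
  obtain ⟨⟨j, hj, e⟩, -⟩ := h
  refine ⟨j, j, e s, ?_⟩
  have : j * j % 8 = 1 := by
    have h1 := Nat.odd_iff.1 hj
    have h2 : j % 8 = 1 ∨ j % 8 = 3 ∨ j % 8 = 5 ∨ j % 8 = 7 := by omega
    rcases h2 with h2 | h2 | h2 | h2 <;> rw [Nat.mul_mod, h2]
  rw [e, ← pow_mul, pow_eq_pow_mod _ (pow_eight hS s), this, pow_one]

lemma Pw.fix [Finite S] (hS : Nat.card S ∣ 8) {k : ℕ} {π : S ≃* S} (h : Pw k π)
    (ρ : S →* MulAut R) (s : S) : fixS (ρ (π s)) = fixS (ρ s) := by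
  obtain ⟨i, j, h1, h2⟩ := h.gen hS s
  ext x
  constructor
  · intro hx
    rw [h2, map_pow]
    exact pow_fix hx j
  · intro hx
    rw [h1, map_pow]
    exact pow_fix hx i

lemma Pw.comm [Finite S] (hS : Nat.card S ∣ 8) {k : ℕ} {π : S ≃* S} (h : Pw k π) {W : Type*}
    [Group W] (ρ : S →* W) (b : W) (s : S) :
    b * ρ (π s) = ρ (π s) * b ↔ b * ρ s = ρ s * b := by
  obtain ⟨i, j, h1, h2⟩ := h.gen hS s
  constructor
  · intro hx
    rw [h2, map_pow]
    exact Commute.pow_right hx j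
  · intro hx
    rw [h1, map_pow]
    exact Commute.pow_right hx i

lemma conj_comm [Finite S] (hS : Nat.card S ∣ 8) {t : S} (ht : t * t ≠ 1) (s : S) :
    t * (s * t * s⁻¹) = (s * t * s⁻¹) * t := by
  have h1 : (zpowers t).index ∣ 2 := by
    have h2 := index_mul_card (zpowers t)
    rw [Nat.card_zpowers] at h2
    obtain ⟨k, hk, e⟩ := (Nat.dvd_prime_pow Nat.prime_two).1
      (show orderOf t ∣ 2 ^ 3 from (orderOf_dvd_natCard t).trans hS)
    have h3 : 4 ∣ orderOf t := by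
      by_contra h4
      rw [← pow_two, Ne, ← orderOf_dvd_iff_pow_eq_one] at ht
      rw [e] at h4 ht
      interval_cases k <;> simp_all
    exact Nat.dvd_of_mul_dvd_mul_right (k := 4) (by norm_num)
      ((Nat.mul_dvd_mul_left _ h3).trans (h2 ▸ hS))
  have h5 : (zpowers t).Normal := by
    rcases (Nat.dvd_prime Nat.prime_two).1 h1 with h | h
    · rw [index_eq_one.1 h]; infer_instance
    · exact normal_of_index_eq_two h
  obtain ⟨k, hk⟩ := h5.conj_mem t (mem_zpowers t) s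
  rw [← hk]
  exact Commute.zpow_right rfl k

theorem ml [Finite S] [Finite R] [Finite R'] (hp : p.Prime) (h2 : p ≠ 2)
    (hRS : Nat.card R = Nat.card R') (hR : Nat.card R = p ∨ (Nat.card R = p ^ 2 ∧ p % 4 = 3))
    (hc : IsCyclic R ↔ IsCyclic R') (hS : Nat.card S ∣ 8) (ρ : S →* MulAut R)
    (ρ' : S →* MulAut R') (hf : ∀ s, Nat.card (fixS (ρ s)) = Nat.card (fixS (ρ' s)))
    (A : Set (MulAut R)) (B : Set (MulAut R'))
    (gA : ∀ a ∈ A, Good p a) (gB : ∀ b ∈ B, Good p b)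
    (cA : ∀ a ∈ A, ∀ b ∈ A, a * b = b * a) (cB : ∀ a ∈ B, ∀ b ∈ B, a * b = b * a)
    (nA : ∀ s, ∀ a ∈ A, ρ s * a * (ρ s)⁻¹ ∈ A) (nB : ∀ s, ∀ b ∈ B, ρ' s * b * (ρ' s)⁻¹ ∈ B)
    (hAB : ((∀ a ∈ A, a = 1) ∧ ∀ b ∈ B, b = 1) ∨ ∃ a ∈ A, ∃ b ∈ B, a ≠ 1 ∧ b ≠ 1 ∧
      (Nat.card R = p ^ 2 → ∀ s, a * ρ s = ρ s * a ↔ b * ρ' s = ρ' s * b)) :
    ∃ k0, Odd k0 ∧ ∀ (k : ℕ) (π : S ≃* S), Pw k π →
      (k ≡ k0 [MOD (Nat.card S).gcd (Nat.card R - 1)] ∨
        k ≡ k0 * p [MOD (Nat.card S).gcd (Nat.card R - 1)]) →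
      ∃ β, Eqv ρ (ρ'.comp π.toMonoidHom) β ∧ UC A B β := by
  have := Fact.mk hp
  have hne : p ^ 2 ≠ p := fun h =>
    (Nat.pow_lt_pow_right hp.one_lt one_lt_two).ne' (h.trans (pow_one p).symm)
  have hk : ∀ s, ρ s = 1 ↔ ρ' s = 1 := fun s => by
    rw [eq_one_iff_card, eq_one_iff_card, hf, hRS]
  have hpow : ∀ s, ρ' s ^ Nat.card S = 1 := fun s => by rw [← map_pow, pow_card_eq_one', map_one]
  rcases hR with hR | ⟨hR, h3⟩
  · have hR' := hRS.symm.trans hR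
    have c1 := isCyclic_of_prime_card hR
    have c2 := isCyclic_of_prime_card hR'
    have h1 : IsCyclic (ZMod (Nat.card R'))ˣ := hR' ▸ ZMod.isCyclic_units_prime hp
    have hU : IsCyclic (⊤ : Subgroup (MulAut R')) :=
      (topEquiv.trans (IsCyclic.mulAutMulEquiv R')).isCyclic.2 h1
    let β : R ≃* R' := mulEquivOfCyclicCardEq hRS
    obtain ⟨k0, k1, k2⟩ := ml_lin (isPGroup_of_dvd hS) ρ ρ' hk β ⊤ hU (fun _ => mem_top _)
      fun _ => mem_top _
    refine ⟨k0, k1, fun k π hπ hk0 => ⟨β, eqv_iff.2 fun s => ?_, ⊤, hU, fun _ _ => mem_top _,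
      fun _ _ => mem_top _⟩⟩
    have h4 : orderOf (ρ' s) ∣ (Nat.card S).gcd (Nat.card R - 1) :=
      Nat.dvd_gcd (orderOf_dvd_of_pow_eq_one (hpow s))
        (hRS ▸ Good.orderOf_dvd hp (a := ρ' s) (Or.inl hR'))
    have h5 : k0 * p ≡ k0 [MOD (Nat.card S).gcd (Nat.card R - 1)] := by
      have : p ≡ 1 [MOD (Nat.card S).gcd (Nat.card R - 1)] :=
        ((Nat.modEq_iff_dvd' hp.one_le).2 (hR ▸ Nat.gcd_dvd_right _ _)).symm
      simpa using this.mul_left k0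
    rw [k2]
    change _ = ρ' (π s)
    rw [hπ.map ρ' fun s t => mulAut_comm_of_cyclic _ _, pow_eq_pow_iff_modEq]
    exact ((hk0.elim id fun h => h.trans h5).of_dvd h4).symm
  have hR' := hRS.symm.trans hR
  by_cases hex : ∃ (a : MulAut R) (b : MulAut R'),
      (∀ L : Subgroup R, (∀ x ∈ L, a x ∈ L) → L = ⊥ ∨ L = ⊤) ∧
      (∀ L : Subgroup R', (∀ x ∈ L, b x ∈ L) → L = ⊥ ∨ L = ⊤) ∧
      (∀ s, a * (ρ s * a * (ρ s)⁻¹) = (ρ s * a * (ρ s)⁻¹) * a) ∧
      (∀ s, b * (ρ' s * b * (ρ' s)⁻¹) = (ρ' s * b * (ρ' s)⁻¹) * b) ∧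
      (∀ s, a * ρ s = ρ s * a ↔ b * ρ' s = ρ' s * b) ∧ (∀ c ∈ A, a * c = c * a) ∧
      ∀ c ∈ B, b * c = c * b
  · obtain ⟨a, b, ia, ib, ca, cb, hκ, mA, mB⟩ := hex
    obtain ⟨e, h⟩ := exists_model hR a ia
    obtain ⟨e', h'⟩ := exists_model hR' b ib
    have uc : ∀ (e1 : R ≃ GaloisField p 2) (h1 : Model e1 a), UC A B (h1.iso h') := fun e1 h1 =>
      ⟨_, h'.cyclic, fun c hc => h'.mem (mB c hc), fun c hc => h1.congr_mem h' (mA c hc)⟩
    by_cases hl : ∀ s, a * ρ s = ρ s * a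
    · have hl' := fun s => (hκ s).1 (hl s)
      obtain ⟨k0, k1, k2⟩ := ml_lin (isPGroup_of_dvd hS) ρ ρ' hk (h.iso h') _ h'.cyclic
        (fun s => h'.mem (hl' s)) fun s => h.congr_mem h' (hl s)
      have hg : (Nat.card S).gcd (Nat.card R - 1) = Nat.card S := by
        refine Nat.gcd_eq_left (hS.trans ?_)
        rw [hR]
        refine (Nat.modEq_iff_dvd' (Nat.one_le_pow _ _ hp.pos)).1 ?_
        have h6 : p % 8 = 3 ∨ p % 8 = 7 := by omega
        unfold Nat.ModEq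
        rcases h6 with h6 | h6 <;> rw [Nat.pow_mod, h6]
      have hcm : ∀ s t, ρ' s * ρ' t = ρ' t * ρ' s := fun s t => by
        obtain ⟨μ, hμ⟩ := h'.mem (hl' s)
        obtain ⟨ν, hν⟩ := h'.mem (hl' t)
        rw [← hμ, ← hν, ← map_mul, ← map_mul, mul_comm]
      refine ⟨k0, k1, fun k π hπ hk0 => ?_⟩
      rw [hg] at hk0
      have hπ' : ∀ s l, k ≡ l [MOD Nat.card S] → ρ' (π s) = ρ' s ^ l := fun s l hl => by
        rw [hπ.map ρ' hcm, pow_eq_pow_iff_modEq]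
        exact hl.of_dvd (orderOf_dvd_of_pow_eq_one (hpow s))
      rcases hk0 with hk0 | hk0
      · exact ⟨_, eqv_iff.2 fun s => (k2 s).trans (hπ' s _ hk0).symm, uc e h⟩
      · obtain ⟨e1, h1, he1⟩ := h.frob
        refine ⟨_, fun s x => ?_, uc e1 h1⟩
        change _ = ρ' (π s) _
        obtain ⟨ν, hν⟩ := h'.mem (hl' s)
        have h7 := mulHom_apply e' h'.add (ν ^ k0) (h.iso h' x)
        rw [map_pow, hν, ← k2, h.iso_apply] at h7
        have h8 : e (ρ s x) = ν ^ k0 * e x := by simpa [h.iso_apply] using h7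
        apply e'.injective
        rw [hπ' s _ hk0, ← hν, ← map_pow, mulHom_apply, h1.iso_apply, h1.iso_apply, he1, he1, h8,
          mul_pow, ← pow_mul, Units.val_pow_eq_pow_val]
    · push Not at hl
      obtain ⟨t, ht⟩ := hl
      refine ⟨1, odd_one, fun k π hπ _ => ?_⟩
      obtain ⟨e1, h1, he1⟩ := ml_semi h3 hS ρ (ρ'.comp π.toMonoidHom) (fun s => by
        change _ ↔ ρ' (π s) = 1
        rw [hk, eq_one_iff_card, eq_one_iff_card, hπ.fix hS]) h h' ca (fun s => cb (π s))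
        (fun s => (hκ s).trans (hπ.comm hS ρ' b s).symm) ht
      exact ⟨_, he1, uc e1 h1⟩
  have hA : (∀ a ∈ A, a = 1) ∧ ∀ b ∈ B, b = 1 := by
    refine hAB.resolve_right ?_
    rintro ⟨a, ha, b, hb, a1, b1, hκ⟩
    exact hex ⟨a, b, irred_of_good hp hR ((gA a ha).resolve_left (hR ▸ hne)).2 a1,
      irred_of_good hp hR' ((gB b hb).resolve_left (hR' ▸ hne)).2 b1,
      fun s => cA a ha _ (nA s a ha), fun s => cB b hb _ (nB s b hb), hκ hR, cA a ha, cB b hb⟩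
  have hsq : ∀ s, ρ s * ρ s = 1 := by
    intro t
    by_contra ht
    have ht' : ρ' t * ρ' t ≠ 1 := by rwa [← map_mul, Ne, ← hk, map_mul]
    have ht2 : t * t ≠ 1 := fun e => ht (by rw [← map_mul, e, map_one])
    refine hex ⟨ρ t, ρ' t, irr hp h3 hR (by rw [← map_pow, pow_eight hS, map_one]) ht,
      irr hp h3 hR' (by rw [← map_pow, pow_eight hS, map_one]) ht', fun s => ?_, fun s => ?_,
      fun s => ?_, fun c hc => by simp [hA.1 c hc], fun c hc => by simp [hA.2 c hc]⟩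
    · simpa using congrArg ρ (conj_comm hS ht2 s)
    · simpa using congrArg ρ' (conj_comm hS ht2 s)
    · rw [← commutatorElement_eq_one_iff_mul_comm, ← commutatorElement_eq_one_iff_mul_comm,
        ← map_commutatorElement, ← map_commutatorElement, hk]
  refine ⟨1, odd_one, fun k π hπ _ => ?_⟩
  have hf' : ∀ s, Nat.card (fixS (ρ s)) = Nat.card (fixS ((ρ'.comp π.toMonoidHom) s)) :=
    fun s => (hf s).trans (congrArg (fun L : Subgroup R' => Nat.card L) (hπ.fix hS ρ' s).symm)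
  obtain ⟨t, ht⟩ := inv_match hp h2 hRS (hR ▸ dvd_rfl) ρ _ hsq hf'
  obtain ⟨β, hβ, -⟩ := ker_match hp h2 hRS (hR ▸ dvd_rfl) hc (hsq t)
    (σ := (ρ'.comp π.toMonoidHom) t) (by
      rw [← map_mul, eq_one_iff_card, ← hf', ← hRS, ← eq_one_iff_card, map_mul, hsq]) (hf' t)
    (J := Empty) (fun j => j.elim) (fun j => j.elim) (fun j => j.elim) (fun j => j.elim)
    (fun j => j.elim) (fun _ _ j => j.elim) (fun _ j => j.elim) (Or.inr fun j => j.elim)
  exact ⟨β, ht β hβ, ⊥, inferInstance, fun b hb => mem_bot.2 (hA.2 b hb),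
    fun a ha => by rw [hA.1 a ha, map_one]; exact one_mem _⟩

end D

end Pool.Agent.Lib.MP_cb9dee_al
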