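import Pool.Agent.Lib.MP_cb9dee_al.DCount

namespace Pool.Agent.Lib.MP_cb9dee_al

namespace D

open Subgroup Pointwise

variable {O S O' S' : Type} [Group O] [Group S] [Group O'] [Group S']

namespace Dat

variable (E : Dat O S)

/-- The centralizer of a family of Sylow subgroups. -/
def CB (B : Finset ℕ) : Subgroup O := ⨅ p ∈ B, centralizer ((E.A.R p : Subgroup O) : Set O)

lemma mem_CB {B : Finset ℕ} {y : O} : y ∈ E.CB B ↔ ∀ p ∈ B, ∀ u ∈ E.A.R p, y * u = u * y := by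
  simp only [CB, mem_iInf]
  exact ⟨fun h p hp u hu => (h p hp u hu).symm, fun h p hp u hu => (h p hp u hu).symm⟩

/-- `q` acts nontrivially on a Sylow subgroup of order `p ^ 2`. -/
def Bt (q p : ℕ) : Prop := E.cd p = p ^ 2 ∧ E.A.kr q p ≠ ⊤

lemma prod_gg [Fintype O] (B : Finset ℕ) (s : S) (y : O) :
    ∏ p ∈ B, (-1 * E.gg p (s, y) + E.cd p) = ind (y ∈ E.CB B) * ∏ p ∈ B, (E.cd p - E.X p s) := by
  rw [mem_CB, ind_forall, ← Finset.prod_mul_distrib]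
  refine Finset.prod_congr rfl fun p _ => ?_
  unfold gg
  split_ifs with h
  · rw [ind_pos h]; ring
  · rw [ind_neg h]; ring

lemma card_CB_top {q : ℕ} {B : Finset ℕ} (h : ∀ p ∈ B, E.A.kr q p = ⊤) :
    Nat.card ((E.A.R q : Subgroup O) ⊓ E.CB B : Subgroup O) = E.cd q := by
  rw [inf_eq_left.2 fun x hx => E.mem_CB.2 fun p hp =>
    E.A.mem_kr.1 (h p hp ▸ mem_top (⟨x, hx⟩ : (E.A.R q : Subgroup O))), cd]

end Dat

variable [Fintype O] [Fintype S] [Fintype O'] [Fintype S']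

namespace Hyp

variable {E : Dat O S} {E' : Dat O' S'} (H : Hyp E E')
include H

lemma kr_ne {p q : ℕ} (hp : E.A.PP p) (hq : E.A.NN q) (h : E.A.kr q p ≠ ⊤) : E'.A.kr q p ≠ ⊤ :=
  mt (H.symm.ctx.kr_top E'.A E.A (H.ctx.pp _ hp) (H.ctx.nn _ hq)) h

lemma bt {p q : ℕ} (hp : E.A.PP p) (hq : E.A.NN q) (h : E.Bt q p) : E'.Bt q p :=
  ⟨H.cd_eq hp.1 ▸ h.1, H.kr_ne hp hq h.2⟩

lemma cd_eq_self {p : ℕ} (hp : E.A.PP p) (h : E.cd p ≠ p ^ 2) : E.cd p = p :=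
  (H.cd_cases' hp.1 hp.2.2.1).resolve_right fun e => h e.1

lemma card_CB {q p : ℕ} {B : Finset ℕ} (hB : B ⊆ E.PPs) (hq : E.A.NN q)
    (hn : ¬ ∃ p ∈ B, E.Bt q p) (hp : p ∈ B) (h : E.A.kr q p ≠ ⊤) :
    Nat.card ((E.A.R q : Subgroup O) ⊓ E.CB B : Subgroup O) = Nat.card (E.A.kr q p) := by
  rw [← card_inf_res]
  congr 2
  ext x
  rw [mem_subgroupOf, E.mem_CB, E.A.mem_kr]
  refine ⟨fun e => e p hp, fun e p' hp' => ?_⟩
  by_cases h' : E.A.kr q p' = ⊤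
  · exact E.A.mem_kr.1 (h' ▸ mem_top x)
  · have a := E.mem_PPs.1 (hB hp)
    have a' := E.mem_PPs.1 (hB hp')
    rwa [alpha_uniq H.full hq.1 hq.2.1 (hq.dvd.mul_right _) a'.1 a.1 (a'.2.2.1.mul_right _)
      (a.2.2.1.mul_right _) ((H.acted a' hq h').1 (H.cd_eq_self a' fun e => hn ⟨p', hp', e, h'⟩))
      ((H.acted a hq h).1 (H.cd_eq_self a fun e => hn ⟨p, hp, e, h⟩))]

lemma card_CB_eq {q : ℕ} {B : Finset ℕ} (hB : B ⊆ E.PPs) (hq : E.A.NN q)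
    (hn : ¬ ∃ p ∈ B, E.Bt q p) : Nat.card ((E.A.R q : Subgroup O) ⊓ E.CB B : Subgroup O) =
      Nat.card ((E'.A.R q : Subgroup O') ⊓ E'.CB B : Subgroup O') := by
  by_cases h : ∀ p ∈ B, E.A.kr q p = ⊤
  · rw [E.card_CB_top h, E'.card_CB_top fun p hp =>
      H.ctx.kr_top _ _ (E.mem_PPs.1 (hB hp)) hq (h p hp), H.cd_eq hq.1]
  · push Not at h
    obtain ⟨p, hp, h⟩ := h
    have a := E.mem_PPs.1 (hB hp)
    rw [H.card_CB hB hq hn hp h, H.symm.card_CB (H.PPs_eq ▸ hB) (H.ctx.nn _ hq)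
      (fun ⟨p', hp', e⟩ => hn ⟨p', hp', H.symm.bt (H.ctx.pp _ (E.mem_PPs.1 (hB hp')))
        (H.ctx.nn _ hq) e⟩) hp (H.kr_ne a hq h), H.ctx.card_kr _ _ a hq]

open Classical in
lemma X_CB {q : ℕ} {B : Finset ℕ} (hB : B ⊆ E.PPs) (hq : E.A.NN q) (s : S) :
    E.X q s * Nat.card ((E.A.R q : Subgroup O) ⊓ (fixS (E.φ s) ⊓ E.CB B) : Subgroup O) =
      if ∃ p ∈ B, E.Bt q p then E.X q s
      else Nat.card ((E.A.R q : Subgroup O) ⊓ E.CB B : Subgroup O) := by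
  split_ifs with h
  · obtain ⟨p, hp, h1, h2⟩ := h
    rw [card_eq_one.2, Nat.cast_one, mul_one]
    rw [eq_bot_iff]
    intro x hx
    have : (⟨x, hx.1⟩ : (E.A.R q : Subgroup O)) ∈ E.A.kr q p :=
      E.A.mem_kr.2 (E.mem_CB.1 hx.2.2 p hp)
    rw [(H.beta (E.mem_PPs.1 (hB hp)) hq h2 h1).2, mem_bot] at this
    exact congrArg Subtype.val this
  · have := card_delta (comm_of_card hq.1 (H.cd_dvd hq.1)) (H.rho_eight hq.1 s)
      (coprime_eight hq.1 hq.2.1 (H.cd_dvd hq.1)) ((E.CB B).subgroupOf _) fun x => by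
        rw [mem_subgroupOf, E.mem_CB]
        intro p hp
        by_cases h' : E.A.kr q p = ⊤
        · exact E.A.mem_kr.1 (h' ▸ mem_top _)
        · have a := E.mem_PPs.1 (hB hp)
          exact E.alpha a (H.cd_eq_self a fun e => h ⟨p, hp, e, h'⟩) s x
    have e : (E.CB B).subgroupOf (E.A.R q) ⊓ (fixS (E.φ s)).subgroupOf (E.A.R q) =
        (fixS (E.φ s) ⊓ E.CB B).subgroupOf (E.A.R q) := by
      ext x
      exact and_comm
    rw [E.card_fix, E.fix_rho, e, card_inf_res, card_inf_res] at this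
    apply mul_right_cancel₀ (Nat.cast_ne_zero.2 (E.fx_pos q s).ne' : (E.fx q s : ℚ) ≠ 0)
    rw [mul_right_comm, E.X_mul hq.1]
    exact_mod_cast this

lemma sum_W (k : ℕ) {A B : Finset ℕ} (hA : A ⊆ E.NNs) (hB : B ⊆ E.PPs)
    (hAB : ∀ q ∈ E.NNs, (∃ p ∈ B, E.Bt q p) → q ∈ A) :
    ∑ z, E.W k (∏ q ∈ A, q) z * ∏ p ∈ B, (-1 * E.gg p z + E.cd p) =
      (∏ q ∈ E.NNs \ A, (Nat.card ((E.A.R q : Subgroup O) ⊓ E.CB B : Subgroup O) : ℚ)) *
        ∑ s, ind (orderOf s = k) * (∏ q ∈ A, E.X q s) * ∏ p ∈ B, (E.cd p - E.X p s) := by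
  rw [Fintype.sum_prod_type, Finset.mul_sum]
  refine Finset.sum_congr rfl fun s _ => ?_
  have hNN : ∀ q ∈ E.NNs, q.Prime := fun _ h => (E.mem_NNs.1 h).1
  have e1 : ∀ y, E.W k (∏ q ∈ A, q) (s, y) * ∏ p ∈ B, (-1 * E.gg p (s, y) + E.cd p) =
      (ind (orderOf s = k) * (∏ q ∈ E.NNs, E.X q s) * ∏ p ∈ B, (E.cd p - E.X p s)) *
        (ind (y ∈ E.A.hall E.NNs) *
          ind (y ∈ fixS (E.φ s) ⊓ E.CB B ∧ (orderOf y).Coprime (∏ q ∈ A, q))) := by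
    intro y
    rw [E.prod_gg, Dat.W, mem_inf, ind_and, ind_and, ind_and]
    ring
  simp only [e1]
  rw [← Finset.mul_sum, sum_hall _ _ _ _ hNN E.nn_comm]
  have e3 : ∀ p ∈ E.NNs, p ∣ ∏ p ∈ A, p ↔ p ∈ A := fun p hp => by
    rw [(hNN p hp).prime.dvd_finsetProd_iff]
    refine ⟨?_, fun h => ⟨p, h, dvd_rfl⟩⟩
    rintro ⟨q, hq, h⟩
    rwa [(Nat.prime_dvd_prime_iff_eq (hNN p hp) (hNN q (hA hq))).1 h]
  rw [← Finset.prod_sdiff hA (f := fun r => if r ∣ _ then _ else _),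
    Finset.prod_congr rfl fun p hp => if_neg (mt (e3 p (Finset.mem_sdiff.1 hp).1).1
      (Finset.mem_sdiff.1 hp).2),
    Finset.prod_eq_one fun p hp => if_pos ((e3 p (hA hp)).2 hp), ← Finset.prod_sdiff hA]
  have e4 : (∏ q ∈ E.NNs \ A, E.X q s) * ∏ q ∈ E.NNs \ A, (Nat.card ((E.A.R q : Subgroup O) ⊓
      (fixS (E.φ s) ⊓ E.CB B) : Subgroup O) : ℚ) =
      ∏ q ∈ E.NNs \ A, (Nat.card ((E.A.R q : Subgroup O) ⊓ E.CB B : Subgroup O) : ℚ) := by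
    rw [← Finset.prod_mul_distrib]
    refine Finset.prod_congr rfl fun q hq => ?_
    obtain ⟨h1, h2⟩ := Finset.mem_sdiff.1 hq
    rw [H.X_CB hB (E.mem_NNs.1 h1), if_neg (mt (hAB q h1) h2)]
  rw [← e4]
  ring

lemma mom_one (k : ℕ) {A B : Finset ℕ} (hA : A ⊆ E.NNs) (hB : B ⊆ E.PPs)
    (hAB : ∀ q ∈ E.NNs, (∃ p ∈ B, E.Bt q p) → q ∈ A) :
    ∑ s, ind (orderOf s = k) * (∏ q ∈ A, E.X q s) * ∏ p ∈ B, (E.cd p - E.X p s) =
      ∑ s, ind (orderOf s = k) * (∏ q ∈ A, E'.X q s) * ∏ p ∈ B, (E.cd p - E'.X p s) := by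
  have hm : ∀ p ∈ E.PPs, ¬ p ∣ ∏ q ∈ A, q := fun p hp h => by
    have a := E.mem_PPs.1 hp
    obtain ⟨q, hq, h⟩ := (a.1.prime.dvd_finsetProd_iff _).1 h
    have b := E.mem_NNs.1 (hA hq)
    exact b.2.2 ((Nat.prime_dvd_prime_iff_eq a.1 b.1).1 h ▸ a.2.2.2)
  have hcd : ∀ C ⊆ E.PPs, ∀ p ∈ C, E'.cd p = E.cd p := fun C hC p hp =>
    (H.cd_eq (E.mem_PPs.1 (hC hp)).1).symm
  have h1 := affine B (E.W k (∏ q ∈ A, q)) (E'.W k (∏ q ∈ A, q)) E.gg E'.gg (fun C hC => by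
    have := H.cnt k fun o => ind (o.Coprime ((∏ q ∈ A, q) * ∏ p ∈ C, p))
    rw [H.cnt_eq k _ hm C (hC.trans hB), H.symm.cnt_eq k _ (H.PPs_eq ▸ hm) C
      (H.PPs_eq ▸ hC.trans hB), ← H.PPs_eq, Finset.prod_congr rfl fun p hp =>
        congrArg Nat.cast (hcd _ Finset.sdiff_subset p hp)] at this
    exact mul_left_cancel₀ (Finset.prod_ne_zero_iff.2 fun p _ =>
      Nat.cast_ne_zero.2 (E.cd_pos p).ne') this) (fun _ => -1) fun p => E.cd p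
  have h2 := H.symm.sum_W k (H.NNs_eq ▸ hA) (H.PPs_eq ▸ hB) fun q hq ⟨p, hp, e⟩ =>
    hAB q (H.NNs_eq ▸ hq) ⟨p, hp, H.symm.bt (H.ctx.pp _ (E.mem_PPs.1 (hB hp)))
      (E'.mem_NNs.1 hq) e⟩
  have r1 : ∀ z, ∏ p ∈ B, (-1 * E'.gg p z + E'.cd p) = ∏ p ∈ B, (-1 * E'.gg p z + E.cd p) :=
    fun z => Finset.prod_congr rfl fun p hp => by rw [hcd B hB p hp]
  have r2 : ∀ s, ∏ p ∈ B, (E'.cd p - E'.X p s) = ∏ p ∈ B, (E.cd p - E'.X p s) :=
    fun s => Finset.prod_congr rfl fun p hp => by rw [hcd B hB p hp]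
  simp only [r1, r2] at h2
  rw [H.sum_W k hA hB hAB, h2, ← H.NNs_eq, ← Finset.prod_congr rfl fun q hq =>
    congrArg Nat.cast (H.card_CB_eq hB (E.mem_NNs.1 (Finset.mem_sdiff.1 hq).1)
      (mt (hAB q (Finset.mem_sdiff.1 hq).1) (Finset.mem_sdiff.1 hq).2))] at h1
  exact mul_left_cancel₀ (Finset.prod_ne_zero_iff.2 fun p _ =>
    Nat.cast_ne_zero.2 Nat.card_pos.ne') h1

open Classical in
lemma drop (k : ℕ) (v : ℕ → ℚ) {A B : Finset ℕ} (hB : B ⊆ E.PPs)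
    (hv : ∀ p ∈ B, v p = if ∃ t, orderOf t = k ∧ E.fx p t ≠ 1 then (p : ℚ) else p ^ 2) (s : S) :
    ind (orderOf s = k) * (∏ q ∈ A ∪ E.NNs.filter fun q => ∃ p ∈ B, E.Bt q p, E.X q s) *
      ∏ p ∈ B, (v p - E.X p s) =
    ind (orderOf s = k) * (∏ q ∈ A, E.X q s) * ∏ p ∈ B, (v p - E.X p s) := by
  by_cases hs : orderOf s = k
  swap
  · simp [ind_neg hs]
  by_cases h0 : ∏ p ∈ B, (v p - E.X p s) = 0
  · rw [h0, mul_zero, mul_zero]
  congr 2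
  refine (Finset.prod_subset Finset.subset_union_left fun q hq hqA => ?_).symm
  obtain ⟨h1, p, hp, h2, h3⟩ := Finset.mem_filter.1 ((Finset.mem_union.1 hq).resolve_left hqA)
  have a := E.mem_PPs.1 (hB hp)
  have b := E.mem_NNs.1 h1
  by_contra h4
  obtain ⟨k1, k2⟩ := H.semi_fx a b h3 h2 (s := s) fun e => h4 (by
    rw [Dat.X, if_pos b.1, e, div_self (Nat.cast_ne_zero.2 (E.cd_pos q).ne')])
  refine h0 (Finset.prod_eq_zero hp ?_)
  rw [hv p hp, Dat.X, if_pos a.1, h2, ← hs]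
  split_ifs with h5
  · rw [k1 h5, Nat.cast_pow, pow_two, mul_div_cancel_right₀ _ (Nat.cast_ne_zero.2 a.1.ne_zero),
      sub_self]
  · rw [k2 h5]; simp

lemma mom_two (k : ℕ) {A B : Finset ℕ} (hA : A ⊆ E.NNs) (hB : B ⊆ E.PPs) :
    ∑ s, ind (orderOf s = k) * (∏ q ∈ A, E.X q s) * ∏ p ∈ B, E.X p s =
      ∑ s, ind (orderOf s = k) * (∏ q ∈ A, E'.X q s) * ∏ p ∈ B, E'.X p s := by
  classical
  let v : ℕ → ℚ := fun p => if ∃ t, orderOf t = k ∧ E.fx p t ≠ 1 then (p : ℚ) else p ^ 2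
  have := affine B (fun s => ind (orderOf s = k) * ∏ q ∈ A, E.X q s)
    (fun s => ind (orderOf s = k) * ∏ q ∈ A, E'.X q s) (fun p s => v p - E.X p s)
    (fun p s => v p - E'.X p s) (fun C hC => by
      have hC' := hC.trans hB
      have h1 := affine C _ _ (fun p s => E.cd p - E.X p s) (fun p s => E.cd p - E'.X p s)
        (fun C' hC'' => H.mom_one k (A := A ∪ E.NNs.filter fun q => ∃ p ∈ C, E.Bt q p)
          (Finset.union_subset hA (Finset.filter_subset _ _)) (hC''.trans hC')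
          fun q hq ⟨p, hp, e⟩ => Finset.mem_union_right _
            (Finset.mem_filter.2 ⟨hq, p, hC'' hp, e⟩)) (fun _ => 1) fun p => v p - E.cd p
      simp only [one_mul, sub_add_sub_cancel'] at h1
      have h2 : (E.NNs.filter fun q => ∃ p ∈ C, E.Bt q p) =
          E'.NNs.filter fun q => ∃ p ∈ C, E'.Bt q p := by
        rw [← H.NNs_eq]
        refine Finset.filter_congr fun q hq => exists_congr fun p => and_congr_right fun hp => ?_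
        have a := E.mem_PPs.1 (hC' hp)
        have b := E.mem_NNs.1 hq
        exact ⟨H.bt a b, H.symm.bt (H.ctx.pp _ a) (H.ctx.nn _ b)⟩
      simp only [H.drop k v hC' fun _ _ => rfl] at h1
      rw [h2] at h1
      simp only [H.symm.drop k v (H.PPs_eq ▸ hC') fun p hp => by
        have a := E.mem_PPs.1 (hC' hp)
        exact if_congr ⟨H.exists_fix a, H.symm.exists_fix (H.ctx.pp _ a)⟩ rfl rfl] at h1
      exact h1) (fun _ => -1) v
  simpa using this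

lemma prod_X (J : Finset ℕ) (s : S) :
    ∏ r ∈ J, E.X r s = (∏ r ∈ J ∩ E.NNs, E.X r s) * ∏ r ∈ J ∩ E.PPs, E.X r s := by
  rw [← Finset.prod_union (Finset.disjoint_left.2 fun r h h' =>
    (E.mem_NNs.1 (Finset.mem_inter.1 h).2).2.2 (E.mem_PPs.1 (Finset.mem_inter.1 h').2).2.2.2)]
  refine (Finset.prod_subset (Finset.union_subset Finset.inter_subset_left
    Finset.inter_subset_left) fun r hr h => ?_).symm
  rw [Dat.X]
  split_ifs with h1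
  · have h2 : ¬ r ∣ Nat.card O := fun e => h ((pp_or_nn E.A H.odd h1 e).elim
      (fun a => Finset.mem_union_right _ (Finset.mem_inter.2 ⟨hr, E.mem_PPs.2 a⟩))
      fun a => Finset.mem_union_left _ (Finset.mem_inter.2 ⟨hr, E.mem_NNs.2 a⟩))
    have h3 : E.cd r = 1 := card_eq_one.2 (eq_bot_iff.2 fun x hx =>
      eq_one_of_mem_sylow_of_not_dvd h1 _ h2 hx)
    rw [show E.fx r s = 1 from Nat.dvd_one.1 (h3 ▸ E.fx_dvd r s), h3]
    simp
  · rfl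

theorem moments (k : ℕ) (J : Finset ℕ) :
    ∑ s, ind (orderOf s = k) * ∏ r ∈ J, E.X r s = ∑ s, ind (orderOf s = k) * ∏ r ∈ J, E'.X r s := by
  simp only [H.prod_X J, H.symm.prod_X J, ← mul_assoc, ← H.NNs_eq, ← H.PPs_eq]
  exact H.mom_two k Finset.inter_subset_right Finset.inter_subset_right

end Hyp

end D

end Pool.Agent.Lib.MP_cb9dee_al
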