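import Pool.Agent.Lib.MP_cb9dee_al.DMom

namespace Pool.Agent.Lib.MP_cb9dee_al

namespace D

open Subgroup Pointwise

variable {O S O' S' : Type} [Group O] [Group S] [Group O'] [Group S']
  [Fintype O] [Fintype S] [Fintype O'] [Fintype S']

lemma cnt_lt (h : 1 < Nat.card S) (k : ℕ) : ∑ s : S, ind (orderOf s = k) + 1 ≤ Nat.card S := by
  obtain ⟨s, hs⟩ : ∃ s : S, orderOf s ≠ k := by
    by_cases e : k = 1
    · have := Finite.one_lt_card_iff_nontrivial.1 h
      obtain ⟨s, hs⟩ := exists_ne (1 : S)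
      exact ⟨s, e ▸ mt orderOf_eq_one_iff.1 hs⟩
    · exact ⟨1, by rw [orderOf_one]; exact Ne.symm e⟩
  rw [sum_ind]
  exact_mod_cast Finite.card_subtype_lt (p := fun s : S => orderOf s = k) hs

namespace Hyp

variable {E : Dat O S} {E' : Dat O' S'} (H : Hyp E E')
include H

lemma X_pow (r : ℕ) (s : S) : ∃ i : Fin 3, E.X r s = r ^ (i : ℕ) := by
  rw [Dat.X]
  split_ifs with h
  · obtain ⟨a, ha, e⟩ := (Nat.dvd_prime_pow h).1 (H.cd_dvd h)
    obtain ⟨b, hb, e'⟩ := (Nat.dvd_prime_pow h).1 (e ▸ E.fx_dvd r s)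
    refine ⟨⟨a - b, by omega⟩, ?_⟩
    rw [e, e', Nat.cast_pow, Nat.cast_pow, pow_sub₀ _ (Nat.cast_ne_zero.2 h.ne_zero) hb,
      div_eq_mul_inv]
  · exact ⟨0, by simp⟩

set_option linter.unusedSectionVars false in
lemma X_two {r : ℕ} (hr : r.Prime) (h : E.cd r ∣ r) (s : S) : E.X r s = 1 ∨ E.X r s = r := by
  rw [Dat.X, if_pos hr]
  have h1 := E.fx_dvd r s
  rcases (Nat.dvd_prime hr).1 h with e | e
  · rw [e] at h1 ⊢
    simp [Nat.dvd_one.1 h1]
  · rw [e] at h1 ⊢
    rcases (Nat.dvd_prime hr).1 h1 with e' | e' <;> simp [e', hr.ne_zero]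

lemma fx_of_X {r : ℕ} (hr : r.Prime) {s : S} {t : S'} (h : E.X r s = E'.X r t) :
    E.fx r s = E'.fx r t := by
  have h1 := E.X_mul hr s
  rw [h, H.cd_eq hr, ← E'.X_mul hr t] at h1
  have h2 : E'.X r t ≠ 0 := left_ne_zero_of_mul
    (by rw [E'.X_mul hr t]; exact Nat.cast_ne_zero.2 (E'.cd_pos r).ne')
  exact_mod_cast mul_left_cancel₀ h2 h1

lemma two_four (h4 : Nat.card S = 4) {r : ℕ} (hr : r.Prime) (h2 : r ≠ 2) (k : ℕ) :
    ∃ u v, (∀ s, orderOf s = k → E.X r s = u ∨ E.X r s = v) ∧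
      ∀ s, orderOf s = k → E'.X r s = u ∨ E'.X r s = v := by
  classical
  have h3 : 3 ≤ r := by have := hr.two_le; omega
  have h3' : (3 : ℚ) ≤ r := by exact_mod_cast h3
  have a1 := cnt_lt (S := S) (by omega) k
  have a2 := cnt_lt (S := S') (by rw [← H.cS]; omega) k
  rw [← H.cS] at a2
  rw [h4] at a1 a2
  have key := jd_one hr.two_le _ _ (E.X r) (E'.X r) (fun s _ => H.X_pow r s)
    (fun s _ => H.symm.X_pow r s) (by push_cast at a1; linarith) (by push_cast at a2; linarith)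
    (by simpa using H.moments k ∅) (by simpa using H.moments k {r})
  obtain ⟨j, hj⟩ : ∃ j : Fin 3, ∀ s, orderOf s = k → E.X r s ≠ r ^ (j : ℕ) := by
    by_contra! h
    obtain ⟨s0, o0, x0⟩ := h 0
    obtain ⟨s1, o1, x1⟩ := h 1
    obtain ⟨s2, o2, x2⟩ := h 2
    have inj : ∀ (i j : Fin 3) s t, E.X r s = r ^ (i : ℕ) → E.X r t = r ^ (j : ℕ) →
        E.rho hr s = E.rho hr t → i = j := fun i j s t a b c => by
      rw [Dat.X, if_pos hr, ← E.card_fix hr] at a b
      rw [c, b] at a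
      exact Fin.ext (Nat.pow_right_injective hr.two_le (by exact_mod_cast a.symm))
    have r0 : E.rho hr s0 = 1 := by
      have := E.X_mul hr s0
      rw [x0, Fin.val_zero, pow_zero, one_mul] at this
      exact (E.rho_eq_one hr).2 (by exact_mod_cast this)
    have n01 : s0 ≠ s1 := fun e => absurd (inj 0 1 _ _ x0 x1 (by rw [e])) (by decide)
    have n02 : s0 ≠ s2 := fun e => absurd (inj 0 2 _ _ x0 x2 (by rw [e])) (by decide)
    have n12 : s1 ≠ s2 := fun e => absurd (inj 1 2 _ _ x1 x2 (by rw [e])) (by decide)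
    have n1 : s1 ≠ 1 := fun e => absurd (inj 0 1 _ _ x0 x1 (by rw [e, r0, map_one])) (by decide)
    have n2 : s2 ≠ 1 := fun e => absurd (inj 0 2 _ _ x0 x2 (by rw [e, r0, map_one])) (by decide)
    have n0 : s0 ≠ 1 := fun e => n1 (by rw [← orderOf_eq_one_iff, o1, ← o0, e, orderOf_one])
    have hu : ({1, s0, s1, s2} : Finset S) = Finset.univ := Finset.eq_univ_of_card _ (by
      rw [← Nat.card_eq_fintype_card, h4, Finset.card_insert_of_notMem (by
        simp [n0.symm, n1.symm, n2.symm]), Finset.card_insert_of_notMem (by simp [n01, n02]),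
        Finset.card_pair n12])
    have hm : s0 * s1 ∈ ({1, s0, s1, s2} : Finset S) := hu ▸ Finset.mem_univ _
    have r1 : E.rho hr (s0 * s1) = E.rho hr s1 := by rw [map_mul, r0, one_mul]
    simp only [Finset.mem_insert, Finset.mem_singleton, mul_eq_left, mul_eq_right] at hm
    rcases hm with e | e | e | e
    · exact absurd (inj 0 1 _ _ x0 x1 (by rw [← r1, e, r0, map_one])) (by decide)
    · exact n1 e
    · exact n0 e
    · exact absurd (inj 1 2 _ _ x1 x2 (by rw [← r1, e])) (by decide)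
  have hj' : ∀ s, orderOf s = k → E'.X r s ≠ r ^ (j : ℕ) := by
    have h1 := key fun x => ind (x = r ^ (j : ℕ))
    simp only [← ind_and, sum_ind] at h1
    intro s hs e
    have : Nonempty {a // orderOf a = k ∧ E'.X r a = r ^ (j : ℕ)} := ⟨⟨s, hs, e⟩⟩
    have h5 : 0 < Nat.card {a // orderOf a = k ∧ E.X r a = r ^ (j : ℕ)} := by
      rw [Nat.cast_injective h1]; exact Nat.card_pos
    obtain ⟨a, ha⟩ := (Nat.card_pos_iff.1 h5).1
    exact hj a ha.1 ha.2
  have oth : ∀ i : Fin 3, i ≠ j → i = j + 1 ∨ i = j + 2 :=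
    (by decide : ∀ j i : Fin 3, i ≠ j → i = j + 1 ∨ i = j + 2) j
  refine ⟨r ^ ((j + 1 : Fin 3) : ℕ), r ^ ((j + 2 : Fin 3) : ℕ), fun s hs => ?_, fun s hs => ?_⟩
  · obtain ⟨i, hi⟩ := H.X_pow r s
    rcases oth i fun e => hj s hs (e ▸ hi) with rfl | rfl
    exacts [Or.inl hi, Or.inr hi]
  · obtain ⟨i, hi⟩ := H.symm.X_pow r s
    rcases oth i fun e => hj' s hs (e ▸ hi) with rfl | rfl
    exacts [Or.inl hi, Or.inr hi]

lemma exists_sigma : ∃ σ : S ≃ S', (∀ s, orderOf (σ s) = orderOf s) ∧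
    ∀ r ∈ (Nat.card O).primeFactors, ∀ s, E'.fx r (σ s) = E.fx r s := by
  classical
  obtain ⟨r, r', hT, h2⟩ : ∃ r r', Two r r' ∧ ∀ i ∈ (Nat.card O).primeFactors, i ≠ r → i ≠ r' →
      ∀ k, ∃ u v, (∀ s, orderOf s = k → E.X i s = u ∨ E.X i s = v) ∧
        ∀ s, orderOf s = k → E'.X i s = u ∨ E'.X i s = v := by
    have odd : ∀ i ∈ (Nat.card O).primeFactors, i ≠ 2 := fun i hi e =>
      H.odd (e ▸ Nat.dvd_of_mem_primeFactors hi)
    rcases H.h48 with h | h
    · exact ⟨7, 11, by unfold Two; omega, fun i hi _ _ k =>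
        H.two_four h (Nat.prime_of_mem_primeFactors hi) (odd i hi) k⟩
    · obtain ⟨r, r', hT, h1⟩ := exists_two_primes H.full (Dvd.dvd.mul_left h.symm.dvd _)
      refine ⟨r, r', hT, fun i hi a b k => ?_⟩
      have hp := Nat.prime_of_mem_primeFactors hi
      have h3 : E.cd i ∣ i := (H.cd_cases hp (odd i hi)).resolve_right fun e =>
        (h1 i hp (odd i hi) (H.sq_dvd e.1)).elim a b
      exact ⟨1, i, fun s _ => H.X_two hp h3 s, fun s _ => H.symm.X_two hp (H.cd_eq hp ▸ h3) s⟩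
  let J := ((Nat.card O).primeFactors.erase r).erase r'
  have le7 : ∀ k, ∑ s : S, ind (orderOf s = k) ≤ 7 := fun k => by
    have a := cnt_lt (S := S) (by have := H.h48; omega) k
    have b : (Nat.card S : ℚ) ≤ 8 := by exact_mod_cast Nat.le_of_dvd (by norm_num) H.eight
    linarith
  have key := fun k => jd hT (fun s : S => orderOf s = k) (fun s : S' => orderOf s = k) E.X E'.X J
    (by simp [J]) (by simp [J]) (fun s _ => H.X_pow r s) (fun s _ => H.X_pow r' s)
    (fun s _ => H.symm.X_pow r s) (fun s _ => H.symm.X_pow r' s) (le7 k)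
    (by have := H.moments k ∅; simp only [Finset.prod_empty, mul_one] at this; exact this ▸ le7 k)
    (fun i hi => by
      simp only [J, Finset.mem_erase] at hi
      exact h2 i hi.2.2 hi.2.1 hi.1 k) (H.moments k)
  let I := insert r (insert r' J)
  let Y : S → ℕ × (I → ℚ) := fun s => (orderOf s, fun i => E.X i s)
  let Y' : S' → ℕ × (I → ℚ) := fun s => (orderOf s, fun i => E'.X i s)
  have hY : ∀ c, Nonempty ({s // Y s = c} ≃ {s // Y' s = c}) := by
    rintro ⟨k, t⟩
    have := key k fun i => if h : i ∈ I then t ⟨i, h⟩ else 0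
    rw [sum_ind, sum_ind] at this
    refine Finite.card_eq.1 ?_
    convert Nat.cast_injective this using 3
    · simp only [Y, Prod.mk.injEq, funext_iff, Subtype.forall]
      exact fun _ => propext (and_congr_right fun _ => forall₂_congr fun i hi => by
        rw [dif_pos hi])
    · simp only [Y', Prod.mk.injEq, funext_iff, Subtype.forall]
      exact fun _ => propext (and_congr_right fun _ => forall₂_congr fun i hi => by
        rw [dif_pos hi])
  have hσ := Equiv.ofFiberEquiv_map fun c => (hY c).some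
  refine ⟨Equiv.ofFiberEquiv fun c => (hY c).some, fun s => congrArg Prod.fst (hσ s),
    fun i hi s => (H.fx_of_X (Nat.prime_of_mem_primeFactors hi) ?_).symm⟩
  have hI : i ∈ I := by
    simp only [I, J, Finset.mem_insert, Finset.mem_erase]
    tauto
  exact (congrFun (congrArg Prod.snd (hσ s)) ⟨i, hI⟩).symm

theorem exists_gam : ∃ γ : S ≃* S', ∀ r, r.Prime → r ∣ Nat.card O → ∀ s,
    E'.fx r (γ s) = E.fx r s := by
  obtain ⟨σ, h1, h2⟩ := H.exists_sigma
  have hp : ∀ i : (Nat.card O).primeFactors, (i : ℕ).Prime :=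
    fun i => Nat.prime_of_mem_primeFactors i.2
  have odd : ∀ i : (Nat.card O).primeFactors, (i : ℕ) ≠ 2 := fun i e =>
    H.odd (e ▸ Nat.dvd_of_mem_primeFactors i.2)
  obtain ⟨γ, hγ⟩ := exists_gamma (ι := (Nat.card O).primeFactors) (fun i => i)
    (fun i => (E.A.R i : Subgroup O)) (fun i => (E'.A.R i : Subgroup O')) H.h48 hp odd
    (fun i => H.cd_eq (hp i)) (fun i => H.cd_cases (hp i) (odd i)) (fun h i j k a b c => by
      obtain ⟨r, r', -, h3⟩ := exists_two_primes H.full (Dvd.dvd.mul_left h.symm.dvd _)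
      have a1 := h3 i (hp i) (odd i) (H.sq_dvd a)
      have a2 := h3 j (hp j) (odd j) (H.sq_dvd b)
      have a3 := h3 k (hp k) (odd k) (H.sq_dvd c)
      simp only [Subtype.ext_iff]
      omega) (fun i => E.rho (hp i)) (fun i => E'.rho (hp i)) σ h1
    fun i s => by rw [E.card_fix, E'.card_fix, h2 i i.2]
  refine ⟨γ, fun r hr hd s => ?_⟩
  have := hγ ⟨r, Nat.mem_primeFactors.2 ⟨hr, hd, Nat.card_pos.ne'⟩⟩ s
  rwa [E.card_fix, E'.card_fix] at this

end Hyp

end D

end Pool.Agent.Lib.MP_cb9dee_al
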