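import Pool.Agent.Lib.MP_cb9dee_al.DMod

namespace Pool.Agent.Lib.MP_cb9dee_al

namespace D

open Subgroup

variable {S S' : Type*} [Group S] [Group S'] [Finite S] [Finite S']

omit [Finite S] in
lemma order_cases (hS : Nat.card S ∣ 8) (s : S) :
    orderOf s = 1 ∨ orderOf s = 2 ∨ orderOf s = 4 ∨ orderOf s = 8 := by
  obtain ⟨k, hk, e⟩ := (Nat.dvd_prime_pow Nat.prime_two).1
    (show orderOf s ∣ 2 ^ 3 from (orderOf_dvd_natCard s).trans hS)
  rw [e]
  interval_cases k <;> simp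

omit [Finite S] in
lemma sq_iff {s : S} : s * s = 1 ↔ orderOf s ∣ 2 := by
  rw [orderOf_dvd_iff_pow_eq_one, pow_two]

lemma sq_mem_comm (hS : Nat.card S ∣ 8) (hn : ¬ ∀ s t : S, s * t = t * s) (s : S) :
    s * s ∈ commutator S := by
  by_contra hs
  let π := QuotientGroup.mk' (commutator S)
  have h1 : π s * π s ≠ 1 := by
    rw [← map_mul]
    exact fun e => hs ((QuotientGroup.eq_one_iff _).1 e)
  have h2 := card_eq_card_quotient_mul_card_subgroup (commutator S)
  have h3 : 4 ∣ orderOf (π s) := by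
    have := order_cases ((Dvd.intro _ h2.symm).trans hS) (π s)
    rw [Ne, sq_iff] at h1
    rcases this with h | h | h | h <;> rw [h] at h1 ⊢ <;> omega
  have h4 := h3.trans (orderOf_dvd_natCard _)
  have h5 : Nat.card (commutator S) ≠ 1 := fun e => hn fun a b => by
    rw [← commutatorElement_eq_one_iff_mul_comm, ← mem_bot, ← card_eq_one.1 e]
    exact commutator_mem_commutator (mem_top _) (mem_top _)
  have h6 := Nat.le_of_dvd (by norm_num) hS
  have h7 : 0 < Nat.card (commutator S) := Nat.card_pos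
  have h8 := Nat.le_of_dvd Nat.card_pos h4
  have h9 : Nat.card (commutator S) = 2 := by
    by_contra h
    have : 3 ≤ Nat.card (commutator S) := by omega
    nlinarith
  have h10 : Nat.card (S ⧸ commutator S) = orderOf (π s) :=
    le_antisymm ((show _ ≤ 4 by rw [h9] at h2; omega).trans (Nat.le_of_dvd (orderOf_pos _) h3))
      orderOf_le_card
  have := isCyclic_of_orderOf_eq_card _ h10.symm
  refine hn (π.isMulCommutative_of_isCyclic_of_ker_le_center ?_).is_comm.comm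
  rw [QuotientGroup.ker_mk']
  intro x hx
  rw [mem_center_iff]
  intro g
  by_cases h : x = 1
  · simp [h]
  obtain ⟨y, -, hy⟩ := (Nat.card_eq_two_iff' (1 : commutator S)).1 h9
  have e1 := hy ⟨x, hx⟩ fun e => h (congrArg Subtype.val e)
  have e2 := hy ⟨g * x * g⁻¹, Normal.conj_mem inferInstance x hx g⟩ fun e =>
    h (by simpa using congrArg Subtype.val e)
  exact mul_inv_eq_iff_eq_mul.1 (congrArg Subtype.val (e2.trans e1.symm))

lemma exists_pw (hS : Nat.card S ∣ 8) {k : ℕ} (hk : Odd k) : ∃ π : S ≃* S, Pw k π := by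
  by_cases hc : ∀ s t : S, s * t = t * s
  · have hcop : (Nat.card S).Coprime k :=
      ((Nat.coprime_two_left.2 hk).pow_left 3).coprime_dvd_left hS
    exact ⟨{ powCoprime hcop with
        map_mul' := fun x y => (Commute.mul_pow (hc x y) k : (x * y) ^ k = x ^ k * y ^ k) },
      ⟨k, hk, fun _ => rfl⟩, fun s => by
        change (s ^ k)⁻¹ * s ^ k ∈ _
        rw [inv_mul_cancel]
        exact one_mem _⟩
  · refine ⟨MulEquiv.refl S, ⟨1, odd_one, fun s => (pow_one s).symm⟩, fun s => ?_⟩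
    obtain ⟨m, rfl⟩ := hk
    rw [MulEquiv.refl_apply, pow_succ', inv_mul_cancel_left, pow_mul, pow_two]
    exact pow_mem (sq_mem_comm hS hc s) m

/-- Elements of the same order have squares generating the same subgroup. -/
lemma sq_mem (hS : Nat.card S ∣ 8) {s t : S} (h : orderOf s = orderOf t) :
    s * s ∈ zpowers (t * t) := by
  by_cases ht : t * t = 1
  · rw [show s * s = 1 from sq_iff.2 (by rw [h]; exact sq_iff.1 ht)]
    exact one_mem _
  have h2 := index_mul_card (zpowers t)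
  rw [Nat.card_zpowers] at h2
  by_cases h1 : (zpowers t).index = 1
  · obtain ⟨k, rfl⟩ : s ∈ zpowers t := index_eq_one.1 h1 ▸ mem_top s
    exact ⟨k, (Commute.refl t).mul_zpow k⟩
  have h3 := order_cases hS t
  rw [sq_iff] at ht
  have h6 := Nat.le_of_dvd (by norm_num) hS
  have h7 : (zpowers t).index ≠ 0 := index_ne_zero_of_finite
  have h4 : orderOf t = 4 ∧ (zpowers t).index = 2 := by
    rcases h3 with h3 | h3 | h3 | h3 <;> rw [h3] at h2 ht <;> omega
  obtain ⟨k, hk⟩ := mul_self_mem_of_index_two h4.2 s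
  have hk' : t ^ k = s * s := hk
  have h5 : t ^ (k * 2) = 1 := by
    rw [zpow_mul, hk', zpow_two, ← pow_two s, ← pow_add, ← orderOf_dvd_iff_pow_eq_one, h, h4.1]
  rw [← orderOf_dvd_iff_zpow_eq_one, h4.1] at h5
  obtain ⟨m, rfl⟩ : 2 ∣ k := by omega
  exact ⟨m, by rw [← hk', zpow_mul, zpow_two]⟩

omit [Finite S] in
/-- Extension of an isomorphism between subgroups of index two. -/
lemma ext_two {A : Subgroup S} {A' : Subgroup S'} (hA : A.index = 2) (hA' : A'.index = 2)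
    (γ : A ≃* A') {b : S} {b' : S'} (hb : b ∉ A) (hb' : b' ∉ A')
    (hsq : ∀ x : A, (x : S) = b * b → (γ x : S') = b' * b')
    (hcj : ∀ x y : A, (y : S) = b * x * b⁻¹ → (γ y : S') = b' * γ x * b'⁻¹) :
    ∃ Γ : S ≃* S', (∀ x : A, Γ x = γ x) ∧ Γ b = b' := by
  classical
  have hm : ∀ x, x ∉ A → x * b⁻¹ ∈ A := fun x hx =>
    (mul_mem_iff_of_index_two hA).2 (by simp [hx, hb])
  have hn := normal_of_index_eq_two hA
  let f : S → S' := fun x => if h : x ∈ A then γ ⟨x, h⟩ else γ ⟨x * b⁻¹, hm x h⟩ * b'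
  have f1 : ∀ x : A, f x = γ x := fun x => dif_pos x.2
  have f2 : ∀ x : A, f (x * b) = γ x * b' := fun x => by
    have : (x : S) * b ∉ A := fun h => hb ((mul_mem_cancel_left x.2).1 h)
    simp only [f, dif_neg this, mul_inv_cancel_right]
  have dec : ∀ x : S, (∃ y : A, x = y) ∨ ∃ y : A, x = y * b := fun x => by
    by_cases h : x ∈ A
    · exact Or.inl ⟨⟨x, h⟩, rfl⟩
    · exact Or.inr ⟨⟨_, hm x h⟩, by simp⟩
  let c : A → A := fun y => ⟨b * y * b⁻¹, hn.conj_mem _ y.2 b⟩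
  let z : A := ⟨b * b, mul_self_mem_of_index_two hA b⟩
  let F : S →* S' := MonoidHom.mk' f (by
    intro x y
    rcases dec x with ⟨x, rfl⟩ | ⟨x, rfl⟩ <;> rcases dec y with ⟨y, rfl⟩ | ⟨y, rfl⟩
    · rw [← coe_mul, f1, f1, f1, map_mul, coe_mul]
    · rw [← mul_assoc, ← coe_mul, f2, f1, f2, map_mul, coe_mul, mul_assoc]
    · have : (x : S) * b * y = (x * c y : A) * b := by simp [c, mul_assoc]
      rw [this, f2, f2, f1, map_mul, coe_mul, hcj y (c y) rfl]
      group
    · have : (x : S) * b * (y * b) = (x * c y * z : A) := by simp [c, z, mul_assoc]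
      rw [this, f1, f2, f2, map_mul, map_mul, coe_mul, coe_mul, hcj y (c y) rfl, hsq z rfl]
      group)
  have hinj : Function.Injective F := by
    rw [injective_iff_map_eq_one]
    intro x hx
    rcases dec x with ⟨x, rfl⟩ | ⟨x, rfl⟩
    · have : (γ x : S') = 1 := (f1 x).symm.trans hx
      simpa using this
    · have : (γ x : S') * b' = 1 := (f2 x).symm.trans hx
      exact (hb' (by rw [eq_inv_of_mul_eq_one_right this]; exact inv_mem (γ x).2)).elim
  have hbij : Function.Bijective F := (Nat.bijective_iff_injective_and_card F).2 ⟨hinj, by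
    rw [← index_mul_card A, ← index_mul_card A', hA, hA', Nat.card_congr γ.toEquiv]⟩
  refine ⟨MulEquiv.ofBijective F hbij, f1, ?_⟩
  have := f2 1
  change f b = b'
  simpa using this

omit [Finite S] in
lemma index_two (hS : Nat.card S = 8) {A : Subgroup S} (hA : Nat.card A = 4) : A.index = 2 := by
  have := index_mul_card A
  rw [hS, hA] at this
  omega

lemma klein (hS : Nat.card S = 4) (h : ∀ s : S, s * s = 1) : IsKleinFour S := by
  have : Nontrivial S := Finite.one_lt_card_iff_nontrivial.1 (by omega)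
  have := Fact.mk Nat.prime_two
  exact ⟨hS, (Monoid.exponent_eq_prime_iff Nat.prime_two).2 fun g hg =>
    orderOf_eq_prime (by rw [pow_two, h]) hg⟩

lemma elem_core (hS : Nat.card S = 8) (hS' : Nat.card S' = 8) (h : ∀ s : S, s * s = 1)
    (h' : ∀ s : S', s * s = 1) {A : Subgroup S} {A' : Subgroup S'} (hA : Nat.card A = 4)
    (hA' : Nat.card A' = 4) (τ : A ≃ A') (h1 : τ 1 = 1) {b : S} {b' : S'} (hb : b ∉ A)
    (hb' : b' ∉ A') : ∃ Γ : S ≃* S', (∀ x : A, Γ x = τ x) ∧ Γ b = b' := by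
  have k1 := klein hA fun s => Subtype.ext (h s)
  have k2 := klein hA' fun s => Subtype.ext (h' s)
  have c1 := comm_of_sq (MonoidHom.id S) h
  have c2 := comm_of_sq (MonoidHom.id S') h'
  simp only [MonoidHom.id_apply] at c1 c2
  refine ext_two (index_two hS hA) (index_two hS' hA') (IsKleinFour.mulEquiv τ h1) hb hb'
    (fun x hx => ?_) fun x y hy => ?_
  · rw [h, OneMemClass.coe_eq_one] at hx
    rw [hx, map_one, h']; rfl
  · rw [c1 b, mul_inv_cancel_right, Subtype.coe_inj] at hy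
    rw [c2 b', mul_inv_cancel_right, hy]

lemma mul_mem_big (hS : Nat.card S = 8) {L : Subgroup S} (hL : 4 ∣ Nat.card L) (s t : S) :
    s * t ∈ L ↔ (s ∈ L ↔ t ∈ L) := by
  have h1 := Nat.le_of_dvd (by omega) (card_subgroup_dvd_card L)
  have h2 : 0 < Nat.card L := Nat.card_pos
  by_cases h : Nat.card L = 4
  · exact mul_mem_iff_of_index_two (index_two hS h)
  · rw [eq_top_of_card_eq L (by omega)]
    simp

/-- Matching a family of subgroups of an elementary abelian group of order eight. -/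
lemma fano (hS : Nat.card S = 8) (h : ∀ s : S, s * s = 1) (h' : ∀ s : S', s * s = 1)
    (σ : S ≃ S') (h1 : σ 1 = 1) {ι : Type*} (L : ι → Subgroup S) (L' : ι → Subgroup S')
    (hσ : ∀ i s, s ∈ L i ↔ σ s ∈ L' i)
    (hsm : ∀ i, ¬ 4 ∣ Nat.card (L i) → ∃ j, L i ≤ L j ∧ Nat.card (L j) = 4)
    (htwo : ∀ i j k, ¬ 4 ∣ Nat.card (L i) → ¬ 4 ∣ Nat.card (L j) → ¬ 4 ∣ Nat.card (L k) →
      L i = L j ∨ L i = L k ∨ L j = L k) :
    ∃ Γ : S ≃* S', ∀ i s, s ∈ L i ↔ Γ s ∈ L' i := by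
  classical
  have hS' : Nat.card S' = 8 := (Nat.card_congr σ).symm.trans hS
  have hc : ∀ i, Nat.card (L i) = Nat.card (L' i) := fun i =>
    Nat.card_congr (σ.subtypeEquiv (hσ i))
  have out : ∀ A : Subgroup S, Nat.card A = 4 → ∃ b, b ∉ A := fun A hA => by
    by_contra! hb
    rw [(eq_top_iff' A).2 hb, card_top] at hA
    omega
  by_cases hex : ∃ j, Nat.card (L j) = 4
  swap
  · have := Fact.mk Nat.prime_two
    obtain ⟨A, hA⟩ := Sylow.exists_subgroup_card_pow_prime (G := S) 2 (n := 2) (by omega)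
    obtain ⟨A', hA'⟩ := Sylow.exists_subgroup_card_pow_prime (G := S') 2 (n := 2) (by omega)
    obtain ⟨b, hb⟩ := out A hA
    obtain ⟨b', hb'⟩ : ∃ b, b ∉ A' := by
      by_contra! hb
      rw [(eq_top_iff' A').2 hb, card_top] at hA'
      omega
    obtain ⟨τ⟩ : Nonempty (A ≃ A') := Finite.card_eq.1 (hA.trans hA'.symm)
    obtain ⟨Γ, -⟩ := elem_core hS hS' h h' hA hA' (τ.setValue 1 1) (by simp) hb hb'
    refine ⟨Γ, fun i s => ?_⟩
    have h3 : 4 ∣ Nat.card (L i) := by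
      by_contra h3
      obtain ⟨j, -, hj⟩ := hsm i h3
      exact hex ⟨j, hj⟩
    have h4 := Nat.le_of_dvd (by omega) (card_subgroup_dvd_card (L i))
    have h5 : 0 < Nat.card (L i) := Nat.card_pos
    have h6 : Nat.card (L i) ≠ 4 := fun e => hex ⟨i, e⟩
    rw [eq_top_of_card_eq (L i) (by omega), eq_top_of_card_eq (L' i) (by rw [← hc]; omega)]
    simp
  obtain ⟨j, hj, b, hb, hjb⟩ : ∃ j, Nat.card (L j) = 4 ∧ ∃ b, b ∉ L j ∧ ∀ i,
      ¬ 4 ∣ Nat.card (L i) → L i ≤ L j ∨ b ∈ L i := by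
    by_cases h3 : ∃ i, ¬ 4 ∣ Nat.card (L i)
    · obtain ⟨i1, hi1⟩ := h3
      obtain ⟨j, hj1, hj⟩ := hsm i1 hi1
      by_cases h4 : ∃ i, ¬ 4 ∣ Nat.card (L i) ∧ ¬ L i ≤ L j
      · obtain ⟨i2, hi2, h5⟩ := h4
        obtain ⟨b, hb1, hb2⟩ := SetLike.not_le_iff_exists.1 h5
        refine ⟨j, hj, b, hb2, fun i hi => ?_⟩
        rcases htwo i i1 i2 hi hi1 hi2 with e | e | e
        · exact Or.inl (e ▸ hj1)
        · exact Or.inr (e ▸ hb1)
        · exact (h5 (e ▸ hj1)).elim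
      · obtain ⟨b, hb⟩ := out _ hj
        refine ⟨j, hj, b, hb, fun i hi => Or.inl ?_⟩
        by_contra h5
        exact h4 ⟨i, hi, h5⟩
    · obtain ⟨j, hj⟩ := hex
      obtain ⟨b, hb⟩ := out _ hj
      exact ⟨j, hj, b, hb, fun i hi => (h3 ⟨i, hi⟩).elim⟩
  have hb' : σ b ∉ L' j := mt (hσ j b).2 hb
  obtain ⟨Γ, g1, g2⟩ := elem_core hS hS' h h' hj (hc j ▸ hj) (σ.subtypeEquiv (hσ j))
    (Subtype.ext h1) hb hb'
  have g3 : ∀ s ∈ L j, Γ s = σ s := fun s hs => g1 ⟨s, hs⟩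
  refine ⟨Γ, fun i s => ?_⟩
  by_cases hs : s ∈ L j
  · rw [g3 s hs, hσ]
  obtain ⟨t, ht, rfl⟩ : ∃ t ∈ L j, s = b * t :=
    ⟨b * s, (mul_mem_big hS (by omega) b s).2 (by simp [hb, hs]), by rw [← mul_assoc, h, one_mul]⟩
  rw [map_mul, g2, g3 t ht]
  by_cases hi : 4 ∣ Nat.card (L i)
  · rw [mul_mem_big hS hi, mul_mem_big hS' (hc i ▸ hi), hσ, hσ]
  rcases hjb i hi with h3 | h3
  · refine iff_of_false (fun e => hs (h3 e)) fun e => hb' ?_
    have h4 : σ b * σ t ∈ L' j := by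
      obtain ⟨u, hu⟩ := σ.surjective (σ b * σ t)
      rw [← hu] at e ⊢
      exact (hσ j u).1 (h3 ((hσ i u).2 e))
    exact (mul_mem_cancel_right ((hσ j t).1 ht)).1 h4
  · rw [mul_mem_cancel_left h3, mul_mem_cancel_left ((hσ i b).1 h3), hσ]

end D

end Pool.Agent.Lib.MP_cb9dee_al
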