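import Pool.Agent.Lib.MP_cb9dee_al.Odd

namespace Pool.Agent.Lib.MP_cb9dee_al

open Subgroup Pointwise
open scoped commutatorElement

/-- A system of Sylow subgroups adapted to the structure of the group. -/
structure Sys (G : Type*) [Group G] where
  R : ∀ r : ℕ, Sylow r G
  t : G
  ht : t * t = 1
  hR2 : (R 2 : Subgroup G) = zpowers t
  hnt : ∀ r, r.Prime → r ≠ 2 → ∀ x ∈ R r, t * x * t⁻¹ ∈ R r
  hcomm : ∀ q q', q.Prime → q'.Prime → q ≠ 2 → q' ≠ 2 → ¬ (R q : Subgroup G).Normal →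
    ¬ (R q' : Subgroup G).Normal → ∀ x ∈ R q, ∀ y ∈ R q', x * y = y * x

variable {G : Type*} [Group G] [Finite G]

lemma card_sylow_two_dvd (h4 : ¬ 4 ∣ Nat.card G) (P : Sylow 2 G) : Nat.card P ∣ 2 := by
  have := Fact.mk Nat.prime_two
  rw [P.card_eq_multiplicity]
  have : (Nat.card G).factorization 2 ≤ 1 := by
    by_contra h
    exact h4 ((Nat.prime_two.pow_dvd_iff_le_factorization (k := 2) Nat.card_pos.ne').2 (by omega))
  simpa using pow_dvd_pow 2 this

lemma exists_odd_part (h4 : ¬ 4 ∣ Nat.card G) :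
    ∃ K : Subgroup G, K.Normal ∧ ¬ 2 ∣ Nat.card K ∧ K.index ∣ 2 := by
  by_cases h2 : 2 ∣ Nat.card G
  · have := Fact.mk Nat.prime_two
    obtain ⟨P⟩ : Nonempty (Sylow 2 G) := inferInstance
    have hc : IsCyclic P := isCyclic_of_card_dvd_prime (p := 2) (card_sylow_two_dvd h4 P)
    have hm : (Nat.card G).minFac = 2 := (Nat.minFac_eq_two_iff _).2 h2
    refine ⟨_, inferInstance,
      MonoidHom.not_dvd_card_ker_transferSylow P (hc.normalizer_le_centralizer hm), ?_⟩
    rw [(hc.isComplement' hm).symm.index_eq_card]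
    exact card_sylow_two_dvd h4 P
  · exact ⟨⊤, inferInstance, by simpa using h2, by simp⟩

lemma sylow_normal_of_normal {p : ℕ} [Fact p.Prime] {P : Sylow p G} (h : (P : Subgroup G).Normal)
    (Q : Sylow p G) : (Q : Subgroup G).Normal := by
  have := P.unique_of_normal h
  rwa [Subsingleton.elim Q P]

lemma not_two_dvd_orderOf {q : ℕ} [hq : Fact q.Prime] (h2 : q ≠ 2) (Q : Sylow q G) {x : G}
    (hx : x ∈ Q) : ¬ 2 ∣ orderOf x := fun h =>
  h2 ((Nat.prime_dvd_prime_iff_eq Nat.prime_two hq.out).1 (Nat.prime_two.dvd_of_dvd_pow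
    (h.trans (orderOf_dvd_of_pow_eq_one (pow_eq_one_of_mem_sylow Q hx))))).symm

lemma coprime_card_sylow {p q : ℕ} (hp : p.Prime) (hq : q.Prime) (h : p ≠ q) (P : Sylow p G)
    (Q : Sylow q G) : (Nat.card (P : Subgroup G)).Coprime (Nat.card (Q : Subgroup G)) := by
  have := Fact.mk hp
  have := Fact.mk hq
  have h1 := P.card_eq_multiplicity
  have h2 := Q.card_eq_multiplicity
  erw [h1, h2]
  exact Nat.coprime_pow_primes _ _ hp hq h

theorem exists_sys (h4 : ¬ 4 ∣ Nat.card G) (hs : Small (Nat.card G)) : Nonempty (Sys G) := by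
  classical
  obtain ⟨K, hKn, hK2, hKi⟩ := exists_odd_part h4
  let R0 : ∀ r : ℕ, Sylow r G := fun _ => default
  let π : Finset ℕ := (Nat.card G).primeFactors.filter fun p => p ≠ 2 ∧ (R0 p : Subgroup G).Normal
  have hπ : ∀ p ∈ π, p.Prime ∧ p ≠ 2 ∧ (R0 p : Subgroup G).Normal := fun p hp =>
    ⟨Nat.prime_of_mem_primeFactors (Finset.mem_filter.1 hp).1, (Finset.mem_filter.1 hp).2⟩
  let N : Subgroup G := ⨆ p ∈ π, (R0 p : Subgroup G)
  have hle : ∀ p ∈ π, (R0 p : Subgroup G) ≤ N := fun p hp => le_iSup₂_of_le p hp le_rfl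
  have hNn : N.Normal := ⟨fun x hx g => nm_biSup _ π g
    (fun p hp b hb => hle p hp ((hπ p hp).2.2.conj_mem b hb g)) x hx⟩
  have hNc : Nat.card N = ∏ p ∈ π, Nat.card (R0 p : Subgroup G) :=
    card_biSup _ π (fun p _ q hq _ => Or.inl fun a _ b hb => (hπ q hq).2.2.conj_mem b hb a)
      fun p hp q hq h => coprime_card_sylow (hπ p hp).1 (hπ q hq).1 h _ _
  have hNπ : ∀ q, q.Prime → q ∣ Nat.card N → q ∈ π := by
    intro q hq h
    rw [hNc] at h
    obtain ⟨p, hp, h⟩ := (Prime.dvd_finsetProd_iff hq.prime _).1 h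
    have := Fact.mk (hπ p hp).1
    have h1 := (R0 p).card_eq_multiplicity
    erw [h1] at h
    rwa [(Nat.prime_dvd_prime_iff_eq hq (hπ p hp).1).1 (hq.dvd_of_dvd_pow h)]
  have hπi : ∀ p ∈ π, ¬ p ∣ N.index := fun p hp h => by
    have := Fact.mk (hπ p hp).1
    exact (R0 p).not_dvd_index (h.trans (index_dvd_of_le (hle p hp)))
  obtain ⟨H, hH⟩ := exists_right_complement'_of_coprime (N := N)
    (Nat.coprime_of_dvd fun q hq h => hπi q (hNπ q hq h))
  have hodd : ∀ x : G, ¬ 2 ∣ orderOf x → x ∈ K := fun x hx =>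
    mem_of_pow_eq_one (((Nat.Prime.coprime_iff_not_dvd Nat.prime_two).2 hx).symm.coprime_dvd_right
      hKi) (pow_orderOf_eq_one x)
  have hcop : (Nat.card (commutator K)).Coprime N.index := by
    refine Nat.coprime_of_dvd fun q hq h => hπi q ?_
    have := Fact.mk hq
    have hqK : q ∣ Nat.card K := h.trans (card_subgroup_dvd_card _)
    have hq2 : q ≠ 2 := fun e => hK2 (e ▸ hqK)
    obtain ⟨Q⟩ : Nonempty (Sylow q K) := inferInstance
    have hQ := sylow_normal_of_dvd_commutator hK2 (hs.of_dvd (card_subgroup_dvd_card K)) h Q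
    have := Q.characteristic_of_normal hQ
    obtain ⟨Q', hQ'⟩ := exists_sylow_map Q fun h =>
      hq2 ((Nat.prime_dvd_prime_iff_eq hq Nat.prime_two).1 (h.trans hKi))
    exact Finset.mem_filter.2 ⟨Nat.mem_primeFactors.2
      ⟨hq, hqK.trans (card_subgroup_dvd_card K), Nat.card_pos.ne'⟩, hq2,
      sylow_normal_of_normal (P := Q') (hQ' ▸ inferInstance) _⟩
  have hHc : ∀ x ∈ H, ∀ y ∈ H, ¬ 2 ∣ orderOf x → ¬ 2 ∣ orderOf y → x * y = y * x := by
    intro x hx y hy hx2 hy2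
    rw [← commutatorElement_eq_one_iff_mul_comm]
    have h1 : ⁅x, y⁆ ∈ H := H.mul_mem (H.mul_mem (H.mul_mem hx hy) (H.inv_mem hx)) (H.inv_mem hy)
    have h2 : ⁅x, y⁆ ∈ N := by
      refine mem_of_pow_eq_one hcop ?_
      have h3 : ⁅(⟨x, hodd x hx2⟩ : K), ⟨y, hodd y hy2⟩⁆ ∈ commutator K :=
        commutator_mem_commutator (mem_top _) (mem_top _)
      exact congrArg Subtype.val (pow_card_of_mem h3)
    exact (disjoint_iff_inf_le.1 hH.disjoint) ⟨h2, h1⟩
  have hex : ∀ r : ℕ, ∃ Q : Sylow r G, r.Prime → r ∉ π → (Q : Subgroup G) ≤ H := by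
    intro r
    by_cases hr : r.Prime ∧ r ∉ π
    · have := Fact.mk hr.1
      obtain ⟨Q⟩ : Nonempty (Sylow r H) := inferInstance
      obtain ⟨Q', hQ'⟩ := exists_sylow_map Q (by
        rw [hH.index_eq_card]
        exact fun h => hr.2 (hNπ r hr.1 h))
      exact ⟨Q', fun _ _ => hQ' ▸ map_subtype_le _⟩
    · exact ⟨default, fun h1 h2 => absurd ⟨h1, h2⟩ hr⟩
  choose R hR using hex
  have hnn : ∀ q, q.Prime → ¬ (R q : Subgroup G).Normal → (R q : Subgroup G) ≤ H := by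
    intro q hq h
    have := Fact.mk hq
    exact hR q hq fun h' => h (sylow_normal_of_normal (hπ q h').2.2 _)
  have := Fact.mk Nat.prime_two
  have hc : IsCyclic (R 2) := isCyclic_of_card_dvd_prime (p := 2) (card_sylow_two_dvd h4 (R 2))
  obtain ⟨t, ht⟩ := (Subgroup.isCyclic_iff_exists_zpowers_eq_top (R 2 : Subgroup G)).1 hc
  have htH : t ∈ H := hR 2 Nat.prime_two (fun h => (hπ 2 h).2.1 rfl) (ht ▸ mem_zpowers t)
  refine ⟨⟨R, t, ?_, ht.symm, fun r hr hr2 x hx => ?_, fun q q' hq hq' h2 h2' hn hn' x hx y hy => ?_⟩⟩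
  · rw [← pow_two, ← orderOf_dvd_iff_pow_eq_one, ← Nat.card_zpowers, ht]
    exact card_sylow_two_dvd h4 (R 2)
  · have := Fact.mk hr
    by_cases hn : (R r : Subgroup G).Normal
    · exact hn.conj_mem x hx t
    · refine mem_sylow_of_comm (R r) (k := (Nat.card G).factorization r) ?_ fun y hy => ?_
      · rw [conj_pow, pow_eq_one_of_mem_sylow (R r) hx]; simp
      · refine hHc _ (H.mul_mem (H.mul_mem htH (hnn r hr hn hx)) (H.inv_mem htH)) y
          (hnn r hr hn hy) ?_ (not_two_dvd_orderOf hr2 _ hy)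
        have : orderOf (t * x * t⁻¹) = orderOf x := (MulAut.conj t).orderOf_eq x
        rw [this]
        exact not_two_dvd_orderOf hr2 _ hx
  · have := Fact.mk hq
    have := Fact.mk hq'
    exact hHc x (hnn q hq hn hx) y (hnn q' hq' hn' hy) (not_two_dvd_orderOf h2 _ hx)
      (not_two_dvd_orderOf h2' _ hy)

end Pool.Agent.Lib.MP_cb9dee_al
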