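import Mathlib

namespace Pool.Agent.Lib.MP_cb9dee_al

/-- Two groups are conformal if `x ^ d = 1` has equally many solutions in both, for all `d ≥ 1`. -/
def Conformal (G H : Type) [Group G] [Group H] : Prop :=
  ∀ d : ℕ, 1 ≤ d → Nat.card {x : G // x ^ d = 1} = Nat.card {x : H // x ^ d = 1}

/-- `n` is conformally rigid: any two conformal groups of order `n` are isomorphic. -/
def Rigid (n : ℕ) : Prop :=
  ∀ (G H : Type) [Group G] [Group H], Nat.card G = n → Nat.card H = n → Conformal G H →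
    Nonempty (G ≃* H)

/-- The primes `p` with `p ∣ n` and `m ∣ p - 1`, or `p ^ 2 ∣ n` and `m ∣ p + 1`. -/
def Acted (m n : ℕ) : Set ℕ :=
  {p | p.Prime ∧ ((p ∣ n ∧ m ∣ p - 1) ∨ (p ^ 2 ∣ n ∧ m ∣ p + 1))}

/-- The arithmetic criterion. -/
def Cond (n : ℕ) : Prop :=
  (∀ p, p.Prime → ¬ p ^ 3 ∣ n) ∧
  (∀ p q, p.Prime → q.Prime → q ≠ 2 → q ∣ n → p ^ 2 ∣ n → ¬ q ∣ p - 1) ∧
  (∀ q, q.Prime → 5 ≤ q → q ∣ n → (Acted q n).Subsingleton) ∧
  (3 ∣ n → {p | p.Prime ∧ p ∣ n ∧ 3 ∣ p - 1}.Subsingleton) ∧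
  (9 ∣ n → (Acted 9 n).Subsingleton)

end Pool.Agent.Lib.MP_cb9dee_al
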