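import Pool.Agent.Lib.MP_cb9dee_al.NonRigid

namespace Pool.Agent.Lib.MP_cb9dee_al

namespace E

open Multiplicative

/-- The geometric sums that decide the orders of elements agree. -/
def Same {R : Type} [CommRing R] (m : ℕ) (u w : R) : Prop :=
  ∀ j d : ℕ, m ∣ j * d →
    ∑ i ∈ Finset.range d, (u ^ j) ^ i = ∑ i ∈ Finset.range d, (w ^ j) ^ i

/-- Multiplication by `u` and multiplication by `w` are intertwined by an additive surjection. -/
def Iso {R : Type} [CommRing R] (u w : R) : Prop :=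
  ∃ θ : R →+ R, Function.Surjective θ ∧ ∀ v, θ (u * v) = w * θ v

lemma Same.prod {R S : Type} [CommRing R] [CommRing S] {m : ℕ} {a a' : R} {b b' : S}
    (h : Same m a a') (k : Same m b b') : Same m (a, b) (a', b') := by
  intro j d hd
  ext
  · simpa [Prod.fst_sum] using h j d hd
  · simpa [Prod.snd_sum] using k j d hd

lemma same_field {K : Type} [Field K] {m s k : ℕ} {a : K} (ha : orderOf a = s) (hs : s ∣ m)
    (hk : k.Coprime s) : Same m a (a ^ k) := by
  intro j d hd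
  by_cases h1 : a ^ j = 1
  · rw [← pow_mul a k j, mul_comm k j, pow_mul, h1, one_pow k]
  · have h2 : (a ^ j) ^ d = 1 := by
      rw [← pow_mul, ← orderOf_dvd_iff_pow_eq_one, ha]
      exact hs.trans hd
    rw [geom_eq_zero h1 h2, geom_eq_zero _ (by
      rw [← pow_mul a k j, mul_comm k j, pow_mul, ← pow_mul, mul_comm k d, pow_mul, h2, one_pow])]
    intro h3
    rw [← pow_mul, ← orderOf_dvd_iff_pow_eq_one, ha, hk.symm.dvd_mul_left] at h3
    rw [← orderOf_dvd_iff_pow_eq_one, ha] at h1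
    exact h1 h3

lemma Iso.fst {R S : Type} [CommRing R] [CommRing S] {a a' : R} {b b' : S}
    (h : Iso (a, b) (a', b')) (hc : (Nat.card R).Coprime (Nat.card S)) : Iso a a' := by
  obtain ⟨θ, hθ, h⟩ := h
  refine ⟨(AddMonoidHom.fst R S).comp (θ.comp (AddMonoidHom.inl R S)), fun y => ?_, fun v => ?_⟩
  · obtain ⟨⟨v, w⟩, hv⟩ := hθ (y, 0)
    refine ⟨v, ?_⟩
    have h1 : (θ (0, w)).1 = 0 := by
      rw [← AddMonoid.addOrderOf_eq_one_iff]
      refine Nat.eq_one_of_dvd_coprimes hc (addOrderOf_dvd_natCard _) ?_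
      rw [addOrderOf_dvd_iff_nsmul_eq_zero, ← Prod.smul_fst, ← map_nsmul, Prod.smul_mk,
        card_nsmul_eq_zero', smul_zero, Prod.mk_zero_zero, map_zero, Prod.fst_zero]
    have h2 : ((v, w) : R × S) = (v, 0) + (0, w) := by simp
    rw [h2, map_add] at hv
    have h3 := congrArg Prod.fst hv
    rw [Prod.fst_add, h1, add_zero] at h3
    exact h3
  · have := congrArg Prod.fst (h (v, 0))
    simpa using this

lemma Iso.swap {R S : Type} [CommRing R] [CommRing S] {a a' : R} {b b' : S}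
    (h : Iso (a, b) (a', b')) : Iso (b, a) (b', a') := by
  obtain ⟨θ, hθ, h⟩ := h
  refine ⟨(AddEquiv.prodComm (M := R) (N := S)).toAddMonoidHom.comp
    (θ.comp (AddEquiv.prodComm (M := S) (N := R)).toAddMonoidHom),
    (AddEquiv.prodComm (M := R) (N := S)).surjective.comp
      (hθ.comp (AddEquiv.prodComm (M := S) (N := R)).surjective), fun v => ?_⟩
  have := h v.swap
  change (θ ((a, b) * v.swap)).swap = _
  rw [this]
  rfl

lemma Iso.snd {R S : Type} [CommRing R] [CommRing S] {a a' : R} {b b' : S}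
    (h : Iso (a, b) (a', b')) (hc : (Nat.card R).Coprime (Nat.card S)) : Iso b b' :=
  h.swap.fst hc.symm

lemma Iso.root {K : Type} [Field K] {p : ℕ} [Fact p.Prime] [CharP K p]
    (hK : ∀ x : K, x ^ p ^ 2 = x) {a w : K} (h : Iso a w) : w = a ∨ w = a ^ p := by
  obtain ⟨θ, hθ, h⟩ := h
  have key : ∀ x : K, x ^ p = x → ∃ τ : ℤ, (τ : K) = x := fun x hx =>
    (mem_bot_iff_intCast p _).1 ((Subfield.mem_bot_iff_pow_eq_self (F := K) (p := p)).2 hx)
  have h2 : (a ^ p) ^ p = a := by rw [← pow_mul, ← pow_two, hK]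
  obtain ⟨τ, hτ⟩ := key (a + a ^ p) (by rw [add_pow_char, h2, add_comm])
  obtain ⟨δ, hδ⟩ := key (a * a ^ p) (by rw [mul_pow, h2, mul_comm])
  exact root_cases (RingHom.id K) (c := 1) (by simp) (fun r hr => by simpa using hr) hθ h hτ hδ

theorem not_rigid_aff {R : Type} [CommRing R] [Finite R] {m : ℕ} (hm : m ≠ 0) {u w : R}
    (hu : u ^ m = 1) (hw : w ^ m = 1) (hs : Same m u w) (h1 : IsUnit (u - 1))
    (h : ∀ j : ℕ, ¬ Iso u (w ^ j)) : ¬ Rigid (Nat.card R * m) := by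
  intro hr
  obtain ⟨A, hA⟩ := exists_char m (Units.ofPowEqOne u m hu hm)
    (orderOf_dvd_of_pow_eq_one (Units.pow_ofPowEqOne hu hm))
  obtain ⟨B, hB⟩ := exists_char m (Units.ofPowEqOne w m hw hm)
    (orderOf_dvd_of_pow_eq_one (Units.pow_ofPowEqOne hw hm))
  have hA' : ∀ j : ℕ, (A (ofAdd 1 ^ j) : R) = u ^ j := fun j => by
    rw [map_pow, hA, Units.val_pow_eq_pow_val, Units.val_ofPowEqOne]
  have hB' : ∀ j : ℕ, (B (ofAdd 1 ^ j) : R) = w ^ j := fun j => by
    rw [map_pow, hB, Units.val_pow_eq_pow_val, Units.val_ofPowEqOne]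
  have hc : ∀ C : Multiplicative (ZMod m) →* Rˣ, Nat.card (Aff C) = Nat.card R * m := fun C => by
    rw [SemidirectProduct.card, Nat.card_congr toAdd, Nat.card_congr toAdd, Nat.card_zmod]
  obtain ⟨Φ⟩ := hr (Aff A) (Aff B) (hc A) (hc B) (conformal_aff A B fun g d hd v => by
    obtain ⟨j, rfl⟩ := exists_pow_zmod hm g
    rw [hA', hB', hs j d]
    rwa [← pow_mul, ← orderOf_dvd_iff_pow_eq_one, orderOf_ofAdd_eq_addOrderOf,
      ZMod.addOrderOf_one] at hd)
  have hA1 : (A (ofAdd 1) : R) = u := by simpa using hA' 1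
  obtain ⟨θ, g, s, e⟩ := theta_of_iso A B Φ (ofAdd 1) (hA1 ▸ h1)
  obtain ⟨j, rfl⟩ := exists_pow_zmod hm g
  rw [hA1, hB'] at e
  exact h j ⟨θ, s, e⟩

/-- A field with `p ^ e` elements, `e ≤ 2`, and an element of order `s`. -/
def Fld (p e s : ℕ) : Prop :=
  ∃ (K : Type) (_ : Field K) (_ : Finite K) (a : K), Nat.card K = p ^ e ∧ orderOf a = s ∧
    ∀ k, Iso a (a ^ k) → k ≡ 1 [MOD s] ∨ k ≡ p ^ (e - 1) [MOD s]

lemma exists_orderOf (K : Type) [Field K] [Finite K] {m : ℕ} (h : m ∣ Nat.card K - 1) :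
    ∃ a : K, a ≠ 0 ∧ orderOf a = m := by
  obtain ⟨a, ha⟩ := exists_unit_orderOf K h
  exact ⟨a, a.ne_zero, by rw [orderOf_units, ha]⟩

lemma modEq_of_pow_eq {K : Type} [Field K] {a : K} (ha : a ≠ 0) {i j : ℕ} (h : a ^ i = a ^ j) :
    i ≡ j [MOD orderOf a] := by
  lift a to Kˣ using IsUnit.mk0 a ha
  rw [orderOf_units, ← pow_eq_pow_iff_modEq, ← Units.val_inj]
  simpa using h

lemma fld_one {p s : ℕ} (hp : p.Prime) (hs : s ∣ p - 1) : Fld p 1 s := by
  have := Fact.mk hp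
  obtain ⟨a, h0, ha⟩ := exists_orderOf (ZMod p) (m := s) (by rwa [Nat.card_zmod])
  refine ⟨ZMod p, inferInstance, inferInstance, a, by simp, ha, fun k hk => Or.inl ?_⟩
  have h := hk.root (p := p) fun x => by rw [pow_two, pow_mul, ZMod.pow_card, ZMod.pow_card]
  rw [ZMod.pow_card, or_self] at h
  exact ha ▸ modEq_of_pow_eq h0 (h.trans (pow_one a).symm)

lemma fld_two {p s : ℕ} (hp : p.Prime) (hs : s ∣ p ^ 2 - 1) : Fld p 2 s := by
  have := Fact.mk hp
  obtain ⟨a, h0, ha⟩ := exists_orderOf (GaloisField p 2) (m := s) (by rwa [gf_card])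
  refine ⟨GaloisField p 2, inferInstance, inferInstance, a, gf_card p, ha, fun k hk => ?_⟩
  refine (hk.root (p := p) (gf_pow p)).imp (fun h => ?_) fun h => ?_
  · exact ha ▸ modEq_of_pow_eq h0 (h.trans (pow_one a).symm)
  · exact ha ▸ modEq_of_pow_eq h0 (by simpa using h)

lemma unit_sub_one {K : Type} [Field K] {a : K} {s : ℕ} (ha : orderOf a = s) (h1 : s ≠ 1) :
    IsUnit (a - 1) :=
  IsUnit.mk0 _ (sub_ne_zero.2 fun e => h1 (by rw [← ha, e, orderOf_one]))

lemma pow_pow_eq_one {K : Type} [Field K] {a : K} {s m : ℕ} (ha : orderOf a = s) (hs : s ∣ m)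
    (k : ℕ) : (a ^ k) ^ m = 1 := by
  rw [← pow_mul, ← orderOf_dvd_iff_pow_eq_one, ha]
  exact hs.mul_left k

theorem two_fields {p q e f s t m : ℕ} (k l : ℕ) (hp : p.Prime) (hq : q.Prime) (hpq : p ≠ q)
    (hK : Fld p e s) (hL : Fld q f t) (hm : m ≠ 0) (hs : s ∣ m) (ht : t ∣ m) (s1 : s ≠ 1)
    (t1 : t ≠ 1) (hk : k.Coprime s) (hl : l.Coprime t)
    (h : ∀ j, (k * j ≡ 1 [MOD s] ∨ k * j ≡ p ^ (e - 1) [MOD s]) →
      (l * j ≡ 1 [MOD t] ∨ l * j ≡ q ^ (f - 1) [MOD t]) → False) :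
    ¬ Rigid (p ^ e * q ^ f * m) := by
  obtain ⟨K, _, _, a, cK, ha, rK⟩ := hK
  obtain ⟨L, _, _, b, cL, hb, rL⟩ := hL
  have hc : (Nat.card K).Coprime (Nat.card L) := by
    rw [cK, cL]; exact Nat.coprime_pow_primes _ _ hp hq hpq
  rw [← cK, ← cL, ← Nat.card_prod]
  refine not_rigid_aff hm (u := (a, b)) (w := (a ^ k, b ^ l)) ?_ ?_
    ((same_field ha hs hk).prod (same_field hb ht hl)) ?_ fun j hj => ?_
  · exact Prod.ext (by simpa using pow_pow_eq_one ha hs 1) (by simpa using pow_pow_eq_one hb ht 1)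
  · exact Prod.ext (pow_pow_eq_one ha hs k) (pow_pow_eq_one hb ht l)
  · exact Prod.isUnit_iff.2 ⟨unit_sub_one ha s1, unit_sub_one hb t1⟩
  · rw [Prod.pow_mk, ← pow_mul, ← pow_mul] at hj
    exact h j (rK _ (hj.fst hc)) (rL _ (hj.snd hc))

theorem three_fields {p q r e f g s t u m : ℕ} (k l o : ℕ) (hp : p.Prime) (hq : q.Prime)
    (hr : r.Prime) (hpq : p ≠ q) (hpr : p ≠ r) (hqr : q ≠ r)
    (hK : Fld p e s) (hL : Fld q f t) (hM : Fld r g u) (hm : m ≠ 0) (hs : s ∣ m) (ht : t ∣ m)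
    (hu : u ∣ m) (s1 : s ≠ 1) (t1 : t ≠ 1) (u1 : u ≠ 1) (hk : k.Coprime s) (hl : l.Coprime t)
    (ho : o.Coprime u)
    (h : ∀ j, (k * j ≡ 1 [MOD s] ∨ k * j ≡ p ^ (e - 1) [MOD s]) →
      (l * j ≡ 1 [MOD t] ∨ l * j ≡ q ^ (f - 1) [MOD t]) →
      (o * j ≡ 1 [MOD u] ∨ o * j ≡ r ^ (g - 1) [MOD u]) → False) :
    ¬ Rigid (p ^ e * (q ^ f * r ^ g) * m) := by
  obtain ⟨K, _, _, a, cK, ha, rK⟩ := hK
  obtain ⟨L, _, _, b, cL, hb, rL⟩ := hL
  obtain ⟨M, _, _, c, cM, hc, rM⟩ := hM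
  have c1 : (Nat.card K).Coprime (Nat.card (L × M)) := by
    rw [Nat.card_prod, cK, cL, cM]
    exact (Nat.coprime_pow_primes _ _ hp hq hpq).mul_right (Nat.coprime_pow_primes _ _ hp hr hpr)
  have c2 : (Nat.card L).Coprime (Nat.card M) := by
    rw [cL, cM]; exact Nat.coprime_pow_primes _ _ hq hr hqr
  rw [← cK, ← cL, ← cM, ← Nat.card_prod, ← Nat.card_prod]
  refine not_rigid_aff hm (u := (a, b, c)) (w := (a ^ k, b ^ l, c ^ o)) ?_ ?_
    ((same_field ha hs hk).prod ((same_field hb ht hl).prod (same_field hc hu ho))) ?_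
    fun j hj => ?_
  · exact Prod.ext (by simpa using pow_pow_eq_one ha hs 1)
      (Prod.ext (by simpa using pow_pow_eq_one hb ht 1) (by simpa using pow_pow_eq_one hc hu 1))
  · exact Prod.ext (pow_pow_eq_one ha hs k)
      (Prod.ext (pow_pow_eq_one hb ht l) (pow_pow_eq_one hc hu o))
  · exact Prod.isUnit_iff.2 ⟨unit_sub_one ha s1,
      Prod.isUnit_iff.2 ⟨unit_sub_one hb t1, unit_sub_one hc u1⟩⟩
  · rw [Prod.pow_mk, Prod.pow_mk, ← pow_mul, ← pow_mul, ← pow_mul] at hj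
    exact h j (rK _ (hj.fst c1)) (rL _ ((hj.snd c1).fst c2)) (rM _ ((hj.snd c1).snd c2))

/-- Two lines over a prime that is `1` modulo `4`. -/
theorem e3 {p : ℕ} (hp : p.Prime) (h4 : 4 ∣ p - 1) : ¬ Rigid (p ^ 2 * 4) := by
  have := Fact.mk hp
  obtain ⟨a, h0, ha⟩ := exists_orderOf (ZMod p) (m := 4) (by rwa [Nat.card_zmod])
  have hc : Nat.card (ZMod p × ZMod p) = p ^ 2 := by rw [Nat.card_prod, Nat.card_zmod, pow_two]
  rw [← hc]
  refine not_rigid_aff (by norm_num) (u := (a, a)) (w := (a ^ 1, a ^ 3)) ?_ ?_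
    ((same_field ha dvd_rfl (by norm_num)).prod (same_field ha dvd_rfl (by norm_num))) ?_
    fun j hj => ?_
  · exact Prod.ext (by simpa using pow_pow_eq_one ha dvd_rfl 1)
      (by simpa using pow_pow_eq_one ha dvd_rfl 1)
  · exact Prod.ext (pow_pow_eq_one ha dvd_rfl 1) (pow_pow_eq_one ha dvd_rfl 3)
  · exact Prod.isUnit_iff.2 ⟨unit_sub_one ha (by norm_num), unit_sub_one ha (by norm_num)⟩
  · obtain ⟨θ, hθ, h⟩ := hj
    obtain ⟨v, hv⟩ := hθ 1
    have h5 := h v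
    have h6 : (a, a) * v = a.val • v := by ext <;> simp
    rw [h6, map_nsmul, hv, mul_one, Prod.pow_mk, ← pow_mul, ← pow_mul] at h5
    have h7 : a ^ 1 = a ^ (1 * j) := by simpa using congrArg Prod.fst h5
    have h8 : a ^ 1 = a ^ (3 * j) := by simpa using congrArg Prod.snd h5
    have k7 := modEq_of_pow_eq h0 h7
    have k8 := modEq_of_pow_eq h0 h8
    rw [ha] at k7 k8
    unfold Nat.ModEq at k7 k8
    omega

/-- The field with eight elements and a line over a prime that is `1` modulo `7`. -/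
theorem e11 {p : ℕ} (hp : p.Prime) (h7 : 7 ∣ p - 1) : ¬ Rigid (8 * p * 7) := by
  have hK : Nat.card (GaloisField 2 3) = 8 := GaloisField.card 2 3 (by norm_num)
  obtain ⟨a, h0, ha⟩ := exists_orderOf (GaloisField 2 3) (m := 7) (by rw [hK])
  obtain ⟨L, _, _, b, cL, hb, rL⟩ := fld_one hp h7
  rw [pow_one] at cL
  have hc : (Nat.card (GaloisField 2 3)).Coprime (Nat.card L) := by
    rw [hK, cL]
    refine Nat.Coprime.pow_left 3 ((Nat.coprime_primes Nat.prime_two hp).2 ?_)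
    rintro rfl
    norm_num at h7
  rw [← hK, ← cL, ← Nat.card_prod]
  refine not_rigid_aff (by norm_num) (u := (a, b)) (w := (a ^ 1, b ^ 6)) ?_ ?_
    ((same_field ha dvd_rfl (by norm_num)).prod (same_field hb dvd_rfl (by norm_num))) ?_
    fun j hj => ?_
  · exact Prod.ext (by simpa using pow_pow_eq_one ha dvd_rfl 1)
      (by simpa using pow_pow_eq_one hb dvd_rfl 1)
  · exact Prod.ext (pow_pow_eq_one ha dvd_rfl 1) (pow_pow_eq_one hb dvd_rfl 6)
  · exact Prod.isUnit_iff.2 ⟨unit_sub_one ha (by norm_num), unit_sub_one hb (by norm_num)⟩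
  · rw [Prod.pow_mk, ← pow_mul, ← pow_mul, one_mul] at hj
    have k1 := rL _ (hj.snd hc)
    have k2 : j % 7 = 6 := by
      simp only [Nat.sub_self, pow_zero, or_self, Nat.ModEq] at k1
      omega
    obtain ⟨θ, hθ, h⟩ := hj.fst hc
    obtain ⟨v, hv⟩ := hθ 1
    have a7 : a ^ 7 = 1 := ha ▸ pow_orderOf_eq_one a
    have a1 : a - 1 ≠ 0 := (unit_sub_one ha (by norm_num)).ne_zero
    have hw : a ^ j = a ^ 6 := by rw [← pow_mod_orderOf, ha, k2]
    rw [hw] at h
    have two : (2 : GaloisField 2 3) = 0 := CharP.cast_eq_zero (GaloisField 2 3) 2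
    have h3 : (a ^ 3 + a + 1) * (a ^ 3 + a ^ 2 + 1) = 0 := by
      apply mul_left_cancel₀ a1
      linear_combination a7 + (a ^ 4 - a ^ 3) * two
    have t1 : θ (a * v) = a ^ 6 := by rw [h, hv, mul_one]
    have t2 : θ (a * (a * v)) = a ^ 6 * a ^ 6 := by rw [h, t1]
    have t3 : θ (a * (a * (a * v))) = a ^ 6 * (a ^ 6 * a ^ 6) := by rw [h, t2]
    have fin : a ^ 3 + a + 1 = 0 → a ^ 3 + a ^ 2 + 1 = 0 → False := fun e1 e2 =>
      mul_ne_zero h0 a1 (by linear_combination e2 - e1)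
    rcases mul_eq_zero.1 h3 with e | e
    · have : θ (a * (a * (a * v)) + a * v + v) = 0 := by
        rw [show a * (a * (a * v)) + a * v + v = 0 by linear_combination v * e, map_zero]
      rw [map_add, map_add, t3, t1, hv] at this
      refine fin e ?_
      linear_combination a ^ 3 * this - (a ^ 14 + a ^ 7 + 1 + a ^ 2) * a7
    · have : θ (a * (a * (a * v)) + a * (a * v) + v) = 0 := by
        rw [show a * (a * (a * v)) + a * (a * v) + v = 0 by linear_combination v * e, map_zero]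
      rw [map_add, map_add, t3, t2, hv] at this
      refine fin ?_ e
      linear_combination a ^ 3 * this - (a ^ 14 + a ^ 7 + 1 + a ^ 8 + a) * a7

end E

end Pool.Agent.Lib.MP_cb9dee_al
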