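import Pool.Agent.Lib.MP_cb9dee_al.Defs

namespace Pool.Agent.Lib.MP_cb9dee_al

namespace E

instance finite_hom (K G : Type) [Group K] [Group G] [Finite K] [Finite G] : Finite (K →* G) :=
  Finite.of_injective (fun f : K →* G => (f : K → G)) DFunLike.coe_injective

/-- Homomorphisms with a given normal kernel are the injective homomorphisms of the quotient. -/
lemma card_ker_eq {K G : Type} [Group K] [Group G] (N : Subgroup K) [N.Normal] :
    Nat.card {f : K →* G // f.ker = N} =
      Nat.card {g : K ⧸ N →* G // Function.Injective g} := by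
  refine Nat.card_congr
    { toFun := fun f => ⟨QuotientGroup.lift N f.1 f.2.ge, ?_⟩
      invFun := fun g => ⟨g.1.comp (QuotientGroup.mk' N), ?_⟩
      left_inv := fun f => ?_
      right_inv := fun g => ?_ }
  · rw [injective_iff_map_eq_one]
    intro x hx
    obtain ⟨x, rfl⟩ := QuotientGroup.mk_surjective x
    rw [QuotientGroup.lift_mk, ← MonoidHom.mem_ker, f.2] at hx
    exact (QuotientGroup.eq_one_iff x).2 hx
  · ext x
    rw [MonoidHom.mem_ker, MonoidHom.comp_apply, map_eq_one_iff _ g.2, QuotientGroup.mk'_apply,
      QuotientGroup.eq_one_iff]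
  · ext x
    simp
  · ext x
    simp

lemma card_hom_eq_sum (K G : Type) [Group K] [Group G] [Finite K] [Finite G]
    [Fintype (Subgroup K)] :
    Nat.card (K →* G) = ∑ N : Subgroup K, Nat.card {f : K →* G // f.ker = N} := by
  rw [← Nat.card_sigma]
  exact Nat.card_congr (Equiv.sigmaFiberEquiv (fun f : K →* G => f.ker)).symm

lemma card_inj_eq {G H : Type} [Group G] [Group H] [Finite G] [Finite H]
    (h : ∀ (K : Type) [Group K] [Finite K], Nat.card (K →* G) = Nat.card (K →* H)) (n : ℕ) :
    ∀ (K : Type) [Group K] [Finite K], Nat.card K = n →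
      Nat.card {g : K →* G // Function.Injective g} =
        Nat.card {g : K →* H // Function.Injective g} := by
  classical
  induction n using Nat.strong_induction_on with
  | _ n ih =>
    intro K _ _ hK
    have := Fintype.ofFinite (Subgroup K)
    have h1 := h K
    rw [card_hom_eq_sum, card_hom_eq_sum, ← Finset.add_sum_erase _ _ (Finset.mem_univ ⊥),
      ← Finset.add_sum_erase _ _ (Finset.mem_univ ⊥)] at h1
    have h2 : ∑ N ∈ Finset.univ.erase (⊥ : Subgroup K), Nat.card {f : K →* G // f.ker = N} =
        ∑ N ∈ Finset.univ.erase (⊥ : Subgroup K), Nat.card {f : K →* H // f.ker = N} := by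
      refine Finset.sum_congr rfl fun N hN => ?_
      by_cases hn : N.Normal
      · rw [card_ker_eq, card_ker_eq]
        refine ih _ ?_ _ rfl
        have h3 := Subgroup.card_eq_card_quotient_mul_card_subgroup N
        have h4 : 1 < Nat.card N := (Subgroup.one_lt_card_iff_ne_bot N).2 (Finset.ne_of_mem_erase hN)
        have h5 : 0 < Nat.card (K ⧸ N) := Nat.card_pos
        rw [← hK, h3]
        nlinarith
      · have e1 : IsEmpty {f : K →* G // f.ker = N} := ⟨fun f => hn (f.2 ▸ inferInstance)⟩
        have e2 : IsEmpty {f : K →* H // f.ker = N} := ⟨fun f => hn (f.2 ▸ inferInstance)⟩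
        simp
    rw [h2] at h1
    have h3 := Nat.add_right_cancel h1
    simp only [MonoidHom.ker_eq_bot_iff] at h3
    exact h3

/-- Cancellation of a finite direct factor. -/
theorem cancel {G H C : Type} [Group G] [Group H] [Group C] [Finite G] [Finite H] [Finite C]
    (e : G × C ≃* H × C) : Nonempty (G ≃* H) := by
  have key : ∀ (K A : Type) [Group K] [Group A],
      Nat.card (K →* A × C) = Nat.card (K →* A) * Nat.card (K →* C) := by
    intro K A _ _
    rw [← Nat.card_prod]
    exact Nat.card_congr
      { toFun := fun f => ((MonoidHom.fst A C).comp f, (MonoidHom.snd A C).comp f)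
        invFun := fun f => f.1.prod f.2
        left_inv := fun f => by ext <;> rfl
        right_inv := fun f => by ext <;> rfl }
  have h : ∀ (K : Type) [Group K] [Finite K], Nat.card (K →* G) = Nat.card (K →* H) := by
    intro K _ _
    have h1 : Nat.card (K →* G × C) = Nat.card (K →* H × C) := Nat.card_congr
      { toFun := fun f => e.toMonoidHom.comp f
        invFun := fun f => e.symm.toMonoidHom.comp f
        left_inv := fun f => by ext <;> simp
        right_inv := fun f => by ext <;> simp }
    rw [key, key] at h1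
    exact Nat.eq_of_mul_eq_mul_right Nat.card_pos h1
  have h1 := card_inj_eq h _ G rfl
  have : Nonempty {g : G →* G // Function.Injective g} :=
    ⟨⟨MonoidHom.id G, Function.injective_id⟩⟩
  have h2 : 0 < Nat.card {g : G →* H // Function.Injective g} := h1 ▸ Nat.card_pos
  obtain ⟨g, hg⟩ := (Nat.card_pos_iff.1 h2).1
  have h3 : Nat.card G = Nat.card H := by
    have := Nat.card_congr e.toEquiv
    rw [Nat.card_prod, Nat.card_prod] at this
    exact Nat.eq_of_mul_eq_mul_right Nat.card_pos this
  exact ⟨MulEquiv.ofBijective g ((Nat.bijective_iff_injective_and_card _).2 ⟨hg, h3⟩)⟩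

lemma cnt_prod (G C : Type) [Group G] [Group C] (d : ℕ) :
    Nat.card {x : G × C // x ^ d = 1} =
      Nat.card {x : G // x ^ d = 1} * Nat.card {x : C // x ^ d = 1} := by
  rw [← Nat.card_prod]
  refine Nat.card_congr ((Equiv.subtypeEquivRight fun x => ?_).trans
    (Equiv.subtypeProdEquivProd (p := fun x : G => x ^ d = 1) (q := fun x : C => x ^ d = 1)))
  simp [Prod.ext_iff]

end E

/-- Every divisor of a rigid number is rigid. -/
theorem Rigid.of_dvd {m n : ℕ} (h : Rigid n) (h0 : n ≠ 0) (hm : m ∣ n) : Rigid m := by
  obtain ⟨k, rfl⟩ := hm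
  intro G H _ _ hG hH c
  have : Finite G := Nat.finite_of_card_ne_zero (hG ▸ left_ne_zero_of_mul h0)
  have : Finite H := Nat.finite_of_card_ne_zero (hH ▸ left_ne_zero_of_mul h0)
  have : NeZero k := ⟨right_ne_zero_of_mul h0⟩
  obtain ⟨e⟩ := h (G × Multiplicative (ZMod k)) (H × Multiplicative (ZMod k))
    (by rw [Nat.card_prod, hG, Nat.card_congr Multiplicative.toAdd, Nat.card_zmod])
    (by rw [Nat.card_prod, hH, Nat.card_congr Multiplicative.toAdd, Nat.card_zmod])
    (fun d hd => by rw [E.cnt_prod, E.cnt_prod, c d hd])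
  exact E.cancel e

end Pool.Agent.Lib.MP_cb9dee_al
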