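import Pool.Agent.Lib.MP_cb9dee_al.ESemi

namespace Pool.Agent.Lib.MP_cb9dee_al

namespace E

open Multiplicative SemidirectProduct

/-- A semilinear map whose square is `-1`. -/
def semiAut {F : Type} [Field F] (p : ℕ) [Fact p.Prime] [CharP F p] (hF : ∀ x : F, x ^ p ^ 2 = x)
    (c : F) (hc : c ^ (p + 1) = -1) : MulAut (Multiplicative F) where
  toFun v := ofAdd (c * toAdd v ^ p)
  invFun v := ofAdd (-(c * toAdd v ^ p))
  left_inv v := by
    apply toAdd.injective
    simp only [toAdd_ofAdd]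
    rw [mul_pow, ← pow_mul, ← pow_two, hF]
    linear_combination (-toAdd v) * hc
  right_inv v := by
    apply toAdd.injective
    simp only [toAdd_ofAdd]
    rw [neg_pow, neg_one_pow_char, mul_pow, ← pow_mul, ← pow_two, hF]
    linear_combination (-toAdd v) * hc
  map_mul' v w := by
    apply toAdd.injective
    simp only [toAdd_ofAdd, toAdd_mul, add_pow_char, mul_add]

/-- Squares of two odd primes `p`, `q` with `q ∣ p + 1`. -/
theorem e4 {p q : ℕ} (hp : p.Prime) (hq : q.Prime) (hp2 : p ≠ 2) (hq2 : q ≠ 2)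
    (hd : q ∣ p + 1) : ¬ Rigid (p ^ 2 * (q * q * 4)) := by
  classical
  intro hr
  have := Fact.mk hp
  have := Fact.mk hq
  let F := GaloisField p 2
  have hF : ∀ x : F, x ^ p ^ 2 = x := gf_pow p
  obtain ⟨k, hk⟩ := hp.odd_of_ne_two hp2
  have hcard : Nat.card F - 1 = (p + 1) * (2 * k) := by
    rw [gf_card, hk]
    exact Nat.sub_eq_of_eq_add (by ring)
  have two : (2 : F) ≠ 0 := fun e => hp2 ((Nat.prime_dvd_prime_iff_eq hp Nat.prime_two).1
    ((CharP.cast_eq_zero_iff F p 2).1 e))
  obtain ⟨lam, hlam⟩ := exists_unit_orderOf F (m := q) (hcard ▸ hd.mul_right _)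
  obtain ⟨io, hio⟩ := exists_unit_orderOf F (m := 4) (by rw [hcard, hk]; exact ⟨(k + 1) * k, by ring⟩)
  obtain ⟨c, hc0⟩ := exists_unit_orderOf F (m := (p + 1) * 2) (by rw [hcard]; exact ⟨k, by ring⟩)
  have hc : (c : F) ^ (p + 1) = -1 := by
    have h1 : ((c : F) ^ (p + 1)) ^ 2 = 1 := by
      rw [← pow_mul, ← hc0, ← Units.val_pow_eq_pow_val, pow_orderOf_eq_one, Units.val_one]
    refine (sq_eq_one_iff.1 h1).resolve_left fun e => ?_
    rw [← Units.val_pow_eq_pow_val, Units.val_eq_one, ← orderOf_dvd_iff_pow_eq_one, hc0] at e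
    have := Nat.le_of_dvd (by omega) e
    omega
  obtain ⟨χ, hχ⟩ := exists_char q lam (hlam ▸ dvd_rfl)
  obtain ⟨κ, hκ⟩ := exists_char 4 io (hio ▸ dvd_rfl)
  obtain ⟨ε, hε⟩ := exists_char 4 (-1 : (ZMod q)ˣ) (orderOf_dvd_of_pow_eq_one (by
    rw [Even.neg_one_pow (by decide)]))
  let S := semiAut p hF c hc
  have hS : ∀ v, toAdd (S v) = c * toAdd v ^ p := fun _ => rfl
  have hSS : S * S = unitAut F (-1) := by
    ext v
    rw [MulAut.mul_apply, hS, hS, unitAut_apply, mul_pow, ← pow_mul, ← pow_two, hF,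
      Units.val_neg, Units.val_one]
    linear_combination (toAdd v) * hc
  obtain ⟨T, hT⟩ := exists_char 4 S (orderOf_dvd_of_pow_eq_one (by
    rw [show S ^ 4 = (S * S) * (S * S) by rw [pow_succ, pow_succ, pow_two, mul_assoc], hSS,
      ← map_mul, neg_mul_neg, mul_one, map_one]))
  have hχq : ∀ a, χ a ^ q = 1 := fun a => by
    rw [← map_pow]
    convert map_one χ
    apply toAdd.injective
    simp
  have hχp : ∀ a, χ a ^ (p + 1) = 1 := fun a => by
    obtain ⟨l, hl⟩ := hd
    rw [hl, pow_mul, hχq, one_pow]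
  have hχi : ∀ a, χ a = 1 → a = 1 := fun a h => by
    obtain ⟨j, rfl⟩ := exists_pow_zmod hq.ne_zero a
    rw [map_pow, hχ, ← orderOf_dvd_iff_pow_eq_one, hlam] at h
    rwa [← orderOf_dvd_iff_pow_eq_one, orderOf_ofAdd_eq_addOrderOf, ZMod.addOrderOf_one]
  have hχ2 : ∀ a, χ a ^ 4 = 1 → χ a = 1 := fun a h => orderOf_eq_one_iff.1
    (Nat.eq_one_of_dvd_coprimes (((Nat.coprime_primes hq Nat.prime_two).2 hq2).pow_right 2)
      (orderOf_dvd_of_pow_eq_one (hχq a)) (orderOf_dvd_of_pow_eq_one h))
  have gen4 : ∀ j : ℕ, (ofAdd (1 : ZMod 4)) ^ j = 1 ↔ 4 ∣ j := fun j => by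
    rw [← orderOf_dvd_iff_pow_eq_one, orderOf_ofAdd_eq_addOrderOf, ZMod.addOrderOf_one]
  let ψ : Multiplicative (ZMod 4) →* (ZMod q × ZMod q)ˣ :=
    (MulEquiv.prodUnits (M := ZMod q) (N := ZMod q)).symm.toMonoidHom.comp
      ((1 : Multiplicative (ZMod 4) →* (ZMod q)ˣ).prod ε)
  have hψ : ∀ g, (ψ g : ZMod q × ZMod q) = (1, (ε g : ZMod q)) := fun _ => rfl
  have hmul : ∀ x y : Aff ψ, toAdd (x * y).left =
      toAdd x.left + (1, (ε x.right : ZMod q)) * toAdd y.left := fun _ _ => rfl
  let α : Aff ψ →* Fˣ :=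
    { toFun := fun x => χ (ofAdd (toAdd x.left).1) * κ x.right
      map_one' := by simp
      map_mul' := fun x y => by
        rw [hmul, mul_right, Prod.fst_add, Prod.fst_mul, one_mul, ofAdd_add, map_mul, map_mul,
          mul_mul_mul_comm] }
  have hcomm : ∀ (g : Multiplicative (ZMod 4)) (b : ZMod q), T g * unitAut F (χ (ofAdd b)) =
      unitAut F (χ (ofAdd ((ε g : ZMod q) * b))) * T g := by
    intro g
    obtain ⟨j, rfl⟩ := exists_pow_zmod (by norm_num) g
    induction j with
    | zero => simp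
    | succ j ih =>
      intro b
      have h1 : S * unitAut F (χ (ofAdd b)) = unitAut F (χ (ofAdd (-b))) * S := by
        ext v
        rw [MulAut.mul_apply, MulAut.mul_apply, hS, unitAut_apply, unitAut_apply, hS, ofAdd_neg,
          map_inv, ← eq_inv_of_mul_eq_one_left ((pow_succ _ _).symm.trans (hχp _)), mul_pow,
          Units.val_pow_eq_pow_val]
        ring
      rw [pow_succ, map_mul, hT, mul_assoc, h1, ← mul_assoc, ih, map_mul ε, hε, mul_assoc]
      simp
  let β : Aff ψ →* MulAut (Multiplicative F) :=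
    { toFun := fun x => unitAut F (χ (ofAdd (toAdd x.left).2)) * T x.right
      map_one' := by simp
      map_mul' := fun x y => by
        rw [hmul, mul_right, Prod.snd_add, Prod.snd_mul, ofAdd_add, map_mul χ, map_mul (unitAut F),
          map_mul T, mul_assoc, mul_assoc, ← mul_assoc (T x.right), hcomm, mul_assoc] }
  have hβ : ∀ x : Aff ψ, β x = unitAut F (χ (ofAdd (toAdd x.left).2)) * T x.right := fun _ => rfl
  have hfix : ∀ (u : Fˣ) (v : Multiplicative F), u ≠ 1 → unitAut F u v = v → v = 1 := by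
    intro u v hu h
    have h1 := congrArg toAdd h
    rw [unitAut_apply] at h1
    have h2 : ((u : F) - 1) * toAdd v = 0 := by linear_combination h1
    exact toAdd.injective ((mul_eq_zero.1 h2).resolve_left (sub_ne_zero.2 (by simpa using hu)))
  let f : Aff ψ → Aff ψ := fun x => if x.right = 1 then ⟨ofAdd (toAdd x.left).swap, 1⟩ else x
  have hf : Function.Involutive f := fun x => by
    by_cases h : x.right = 1
    · simp only [f, h, if_true]
      exact SemidirectProduct.ext rfl h.symm
    · simp only [f, h, if_false]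
  have hcH : Nat.card (Aff ψ) = q * q * 4 := by
    rw [SemidirectProduct.card, Nat.card_congr toAdd, Nat.card_congr toAdd, Nat.card_prod,
      Nat.card_zmod, Nat.card_zmod]
  have : Finite (Aff ψ) := Nat.finite_of_card_ne_zero (by rw [hcH]; simp [hq.ne_zero])
  have hcG : ∀ φ : Aff ψ →* MulAut (Multiplicative F),
      Nat.card (Multiplicative F ⋊[φ] Aff ψ) = p ^ 2 * (q * q * 4) := fun φ => by
    rw [SemidirectProduct.card, hcH, Nat.card_congr toAdd, gf_card]
  obtain ⟨Φ⟩ := hr _ _ (hcG ((unitAut F).comp α)) (hcG β) (conformal_semi _ _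
    (fun x => x.right = 1 ∧ (toAdd x.left).1 = 0) (fun x => x.right = 1 ∧ (toAdd x.left).2 = 0)
    (fun x hx => by
      change unitAut F (χ (ofAdd (toAdd x.left).1) * κ x.right) = 1
      simp [hx.1, hx.2])
    (fun x hx v hv => by
      refine hfix (χ (ofAdd (toAdd x.left).1) * κ x.right) v (fun e => hx ?_) hv
      obtain ⟨j, hj⟩ := exists_pow_zmod (by norm_num) x.right
      have h1 : κ x.right ^ 4 = 1 := by
        rw [← map_pow, hj, ← pow_mul, (gen4 _).2 (dvd_mul_left _ _), map_one]
      have h2 := congrArg (· ^ 4) e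
      simp only [mul_pow, h1, mul_one, one_pow] at h2
      rw [hχ2 _ h2, one_mul, hj, map_pow, hκ, ← orderOf_dvd_iff_pow_eq_one, hio] at e
      exact ⟨hj.trans ((gen4 _).2 e), ofAdd.injective (hχi _ (hχ2 _ h2))⟩)
    (fun x hx => by rw [hβ]; simp [hx.1, hx.2])
    (fun x hx v hv => by
      obtain ⟨j, hj⟩ := exists_pow_zmod (by norm_num) x.right
      rw [hβ, hj, map_pow, hT] at hv
      obtain ⟨l, rfl | rfl⟩ := Nat.even_or_odd' j
      · rw [pow_mul, pow_two, hSS, ← map_pow, ← map_mul] at hv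
        refine hfix _ v (fun e => hx ?_) hv
        have h2 := congrArg (· ^ 4) e
        simp only [mul_pow, one_pow] at h2
        rw [← pow_mul, Even.neg_one_pow ⟨l * 2, by ring⟩, mul_one] at h2
        rw [hχ2 _ h2, one_mul] at e
        refine ⟨hj.trans ((gen4 _).2 ?_), ofAdd.injective (hχi _ (hχ2 _ h2))⟩
        rcases Nat.even_or_odd l with ⟨o, ho⟩ | ho
        · exact ⟨o, by omega⟩
        · rw [ho.neg_one_pow, ← Units.val_inj, Units.val_neg, Units.val_one] at e
          exact absurd (by linear_combination -e) two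
      · rw [pow_succ, pow_mul, pow_two, hSS, ← map_pow, ← mul_assoc, ← map_mul] at hv
        have h0 : (χ (ofAdd (toAdd x.left).2) * (-1) ^ l) ^ (p + 1) = 1 := by
          rw [mul_pow, hχp, ← pow_mul, Even.neg_one_pow ⟨l * (k + 1), by rw [hk]; ring⟩, mul_one]
        generalize χ (ofAdd (toAdd x.left).2) * (-1) ^ l = u at hv h0
        have h1 := congrArg toAdd hv
        rw [MulAut.mul_apply, unitAut_apply, hS] at h1
        have h2 := congrArg (· ^ p) h1
        simp only [mul_pow] at h2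
        rw [← pow_mul, ← pow_two, hF] at h2
        have h3 : (u : F) ^ (p + 1) = 1 := by rw [← Units.val_pow_eq_pow_val, h0, Units.val_one]
        rw [← h2] at h1
        have h4 : 2 * toAdd v = 0 := by
          linear_combination -h1 + ((c : F) ^ (p + 1) * toAdd v) * h3 + toAdd v * hc
        exact toAdd.injective ((mul_eq_zero.1 h4).resolve_left two))
    hf.toPerm
    (fun x => by
      change _ ↔ (f x).right = 1 ∧ (toAdd (f x).left).2 = 0
      by_cases h : x.right = 1
      · simp [f, h]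
      · simp [f, h])
    (fun x d => by
      change _ ↔ f x ^ d = 1
      by_cases h : x.right = 1
      · simp only [f, h, if_true]
        rw [aff_pow_eq_one, aff_pow_eq_one, h]
        simp [Prod.ext_iff, and_comm]
      · simp only [f, h, if_false]))
  have h1 := comm_of_iso (p := p) (fun v => toAdd.injective (by simp)) (by
      rw [hcH]
      have hpq : p.Coprime q := (Nat.coprime_primes hp hq).2 (by
        rintro rfl
        exact hp.one_lt.ne' (Nat.dvd_one.1 ((Nat.dvd_add_right dvd_rfl).1 hd)))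
      exact (hpq.mul_right hpq).mul_right
        (((Nat.coprime_primes hp Nat.prime_two).2 hp2).pow_right 2)) _ _
    (fun x y => by
      rw [MonoidHom.comp_apply, MonoidHom.comp_apply, ← map_mul, mul_comm, map_mul])
    Φ (inr (ofAdd 1)) (inl (ofAdd (0, 1)))
  have e1 : β (inr (ofAdd 1)) = S := by rw [hβ]; simp [hT]
  have e2 : β (inl (ofAdd (0, 1))) = unitAut F lam := by rw [hβ]; simp [hχ]
  have h2 := congrArg toAdd (DFunLike.congr_fun h1 (ofAdd 1))
  rw [e1, e2, MulAut.mul_apply, MulAut.mul_apply, hS, unitAut_apply, unitAut_apply, hS] at h2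
  simp only [toAdd_ofAdd, mul_one, one_pow] at h2
  rw [mul_comm (lam : F), mul_right_inj' c.ne_zero, ← Units.val_pow_eq_pow_val,
    Units.val_inj] at h2
  have h3 := hχp (ofAdd 1)
  rw [hχ, pow_succ, h2, ← pow_two, ← orderOf_dvd_iff_pow_eq_one, hlam] at h3
  exact hq2 ((Nat.prime_dvd_prime_iff_eq hq Nat.prime_two).1 h3)

end E

end Pool.Agent.Lib.MP_cb9dee_al
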