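import Pool.Agent.Lib.MP_cb9dee_al.Full
import Pool.Agent.Lib.MP_cb9dee_al.ECancel
import Pool.Agent.Lib.MP_cb9dee_al.EAff
import Pool.Agent.Lib.MP_cb9dee_al.EFour

namespace Pool.Agent.Lib.MP_cb9dee_al

namespace E

lemma cop {p m : ℕ} (e : ℕ) (hp : p.Prime) (h : ¬ p ∣ m) : (p ^ e).Coprime m :=
  ((Nat.Prime.coprime_iff_not_dvd hp).2 h).pow_left e

lemma dvd2 {p q e f m n : ℕ} (hp : p.Prime) (hq : q.Prime) (hpq : p ≠ q) (a : ¬ p ∣ m)
    (b : ¬ q ∣ m) (c : p ^ e ∣ n) (d : q ^ f ∣ n) (g : m ∣ n) : p ^ e * q ^ f * m ∣ n :=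
  Nat.Coprime.mul_dvd_of_dvd_of_dvd ((cop e hp a).mul_left (cop f hq b))
    ((Nat.coprime_pow_primes _ _ hp hq hpq).mul_dvd_of_dvd_of_dvd c d) g

lemma dvd3 {p q r e f g m n : ℕ} (hp : p.Prime) (hq : q.Prime) (hr : r.Prime) (hpq : p ≠ q)
    (hpr : p ≠ r) (hqr : q ≠ r) (a : ¬ p ∣ m) (b : ¬ q ∣ m) (c : ¬ r ∣ m) (d : p ^ e ∣ n)
    (i : q ^ f ∣ n) (j : r ^ g ∣ n) (k : m ∣ n) : p ^ e * (q ^ f * r ^ g) * m ∣ n :=
  Nat.Coprime.mul_dvd_of_dvd_of_dvd
    ((cop e hp a).mul_left ((cop f hq b).mul_left (cop g hr c)))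
    (((Nat.coprime_pow_primes _ _ hp hq hpq).mul_right
      (Nat.coprime_pow_primes _ _ hp hr hpr)).mul_dvd_of_dvd_of_dvd d
      ((Nat.coprime_pow_primes _ _ hq hr hqr).mul_dvd_of_dvd_of_dvd i j)) k

lemma nd2 {p : ℕ} (k : ℕ) (hp : p.Prime) (h : p ≠ 2) : ¬ p ∣ 2 ^ k := fun e =>
  h ((Nat.prime_dvd_prime_iff_eq hp Nat.prime_two).1 (hp.dvd_of_dvd_pow e))

lemma nd12 {p : ℕ} (hp : p.Prime) (h2 : p ≠ 2) (h3 : p ≠ 3) : ¬ p ∣ 12 := fun e =>
  ((Nat.Prime.dvd_mul hp (m := 2 ^ 2) (n := 3)).1 e).elim (nd2 2 hp h2)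
    fun e => h3 ((Nat.prime_dvd_prime_iff_eq hp Nat.prime_three).1 e)

lemma dvd_sq {p s : ℕ} (h : s ∣ p + 1) : s ∣ p ^ 2 - 1 := by
  rw [← one_pow 2, Nat.sq_sub_sq]; exact h.mul_right _

lemma eight_dvd {p : ℕ} (hp : p.Prime) (h2 : p ≠ 2) : 8 ∣ p ^ 2 - 1 := by
  obtain ⟨k, rfl⟩ := hp.odd_of_ne_two h2
  obtain ⟨l, hl⟩ := Nat.even_mul_succ_self k
  refine ⟨l, Nat.sub_eq_of_eq_add ?_⟩
  linear_combination 4 * hl

theorem condFour {n : ℕ} (h0 : n ≠ 0) (h : Rigid n) (h4 : 4 ∣ n) : CondFour n := by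
  refine ⟨fun e => e1 (h.of_dvd h0 e), ?_, fun p hp h2 d e => ?_,
    fun p q hp hq p2 q2 d1 d2 e => ?_, fun h3 => ?_,
    fun h3 p q r hp hq hr d1 e1 d2 e2 d3 e3 => ?_⟩
  · rintro p ⟨hp, d1, e1⟩ q ⟨hq, d2, e2⟩
    by_contra hpq
    have p2 : p ≠ 2 := by rintro rfl; norm_num at e1
    have q2 : q ≠ 2 := by rintro rfl; norm_num at e2
    refine two_fields 1 3 hp hq hpq (fld_one hp e1) (fld_one hq e2) (m := 4) (by norm_num) dvd_rfl
      dvd_rfl (by norm_num) (by norm_num) (by norm_num) (by norm_num) (fun j a b => ?_)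
      (h.of_dvd h0 (dvd2 hp hq hpq (nd2 2 hp p2) (nd2 2 hq q2) (by simpa using d1)
        (by simpa using d2) h4))
    simp only [Nat.sub_self, pow_zero, or_self, Nat.ModEq] at a b
    omega
  · exact e3 hp e (h.of_dvd h0 ((cop 2 hp (nd2 2 hp h2)).mul_dvd_of_dvd_of_dvd d h4))
  · have hpq : p ≠ q := by
      rintro rfl
      exact hp.one_lt.ne' (Nat.dvd_one.1 ((Nat.dvd_add_right dvd_rfl).1 e))
    refine e4 hp hq p2 q2 e (h.of_dvd h0 ?_)
    rw [← pow_two, ← mul_assoc]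
    exact dvd2 hp hq hpq (nd2 2 hp p2) (nd2 2 hq q2) d1 d2 h4
  · rintro p ⟨hp, d1, e1⟩ q ⟨hq, d2, e2⟩
    by_contra hpq
    refine two_fields 1 5 hp hq hpq (fld_two hp (dvd_sq e1)) (fld_two hq (dvd_sq e2)) (m := 12)
      (by norm_num) dvd_rfl dvd_rfl (by norm_num) (by norm_num) (by norm_num) (by norm_num)
      (fun j a b => ?_)
      (h.of_dvd h0 (dvd2 hp hq hpq (nd12 hp (by omega) (by omega)) (nd12 hq (by omega) (by omega))
        d1 d2 (Nat.Coprime.mul_dvd_of_dvd_of_dvd (m := 4) (n := 3) (by norm_num) h4 h3)))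
    simp only [Nat.add_one_sub_one, pow_one, Nat.ModEq] at a b
    omega
  · have h12 : 12 ∣ n := Nat.Coprime.mul_dvd_of_dvd_of_dvd (m := 4) (n := 3) (by norm_num) h4 h3
    have := hq.two_le
    have := hr.two_le
    have hr3 : r ≠ 3 := by omega
    by_cases hqr : q = r
    · subst hqr
      refine two_fields 5 1 hp hq (by omega) (fld_two hp (dvd_sq e1))
        (fld_one hq (s := 12) (by omega)) (m := 12)
        (by norm_num) dvd_rfl dvd_rfl (by norm_num) (by norm_num) (by norm_num) (by norm_num)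
        (fun j a b => ?_)
        (h.of_dvd h0 (dvd2 hp hq (by omega) (nd12 hp (by omega) (by omega))
          (nd12 hq (by omega) (by omega)) d1 (by simpa using d2) h12))
      simp only [Nat.add_one_sub_one, pow_one, Nat.sub_self, pow_zero, or_self, Nat.ModEq] at a b
      omega
    · refine three_fields 5 1 1 hp hq hr (by omega) (by omega) hqr (fld_two hp (dvd_sq e1))
        (fld_one hq e2) (fld_one hr e3) (m := 12) (by norm_num) dvd_rfl (by norm_num)
        (by norm_num) (by norm_num) (by norm_num) (by norm_num) (by norm_num) (by norm_num)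
        (by norm_num) (fun j a b c => ?_)
        (h.of_dvd h0 (dvd3 hp hq hr (by omega) (by omega) hqr (nd12 hp (by omega) (by omega))
          (nd12 hq (by omega) (by omega)) (nd12 hr (by omega) hr3) d1 (by simpa using d2)
          (by simpa using d3) h12))
      simp only [Nat.add_one_sub_one, pow_one, Nat.sub_self, pow_zero, or_self,
        Nat.ModEq] at a b c
      omega

theorem condEight {n : ℕ} (h0 : n ≠ 0) (h : Rigid n) (h8 : 8 ∣ n) : CondEight n := by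
  have c3 := (condFour h0 h ((by norm_num : (4 : ℕ) ∣ 8).trans h8)).2.2.1
  have m4 : ∀ p, p.Prime → p ≠ 2 → p ^ 2 ∣ n → p % 4 = 3 := fun p hp h2 d => by
    have := c3 p hp h2 d
    have := hp.two_le
    have := hp.eq_two_or_odd.resolve_left h2
    omega
  have c8 : ∀ p q, p.Prime → q.Prime → p ≠ 2 → q ≠ 2 → p ^ 2 ∣ n → q ^ 2 ∣ n → p % 8 = q % 8 →
      p = q := fun p q hp hq p2 q2 d1 d2 e => by
    by_contra hpq
    have := m4 p hp p2 d1
    refine two_fields 1 5 hp hq hpq (fld_two hp (eight_dvd hp p2)) (fld_two hq (eight_dvd hq q2))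
      (m := 8) (by norm_num) dvd_rfl dvd_rfl (by norm_num) (by norm_num) (by norm_num)
      (by norm_num) (fun j a b => ?_)
      (h.of_dvd h0 (dvd2 hp hq hpq (nd2 3 hp p2) (nd2 3 hq q2) d1 d2 h8))
    simp only [Nat.add_one_sub_one, pow_one, Nat.ModEq] at a b
    omega
  refine ⟨fun e => e7 (h.of_dvd h0
      (Nat.Coprime.mul_dvd_of_dvd_of_dvd (m := 8) (n := 9) (by norm_num) h8 e)), c8,
    fun p q hp hq p2 d1 d2 e => ?_, fun p q r hp hq hr p2 q2 hpq d1 d2 d3 e => ?_,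
    fun h7 p hp d e => ?_⟩
  · have := m4 p hp p2 d1
    have := hq.two_le
    refine two_fields 5 1 hp hq (by omega) (fld_two hp (eight_dvd hp p2)) (fld_one hq e)
      (m := 8) (by norm_num) dvd_rfl dvd_rfl (by norm_num) (by norm_num) (by norm_num)
      (by norm_num) (fun j a b => ?_)
      (h.of_dvd h0 (dvd2 hp hq (by omega) (nd2 3 hp p2) (nd2 3 hq (by omega)) d1
        (by simpa using d2) h8))
    simp only [Nat.add_one_sub_one, pow_one, Nat.sub_self, pow_zero, or_self, Nat.ModEq] at a b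
    omega
  · have := m4 p hp p2 d1
    have := m4 q hq q2 d2
    have := mt (c8 p q hp hq p2 q2 d1 d2) hpq
    have := hr.two_le
    refine three_fields 1 1 3 hp hq hr hpq (by omega) (by omega) (fld_two hp (eight_dvd hp p2))
      (fld_two hq (eight_dvd hq q2)) (fld_one hr e) (m := 8) (by norm_num) dvd_rfl dvd_rfl
      (by norm_num) (by norm_num) (by norm_num) (by norm_num) (by norm_num) (by norm_num)
      (by norm_num) (fun j a b c => ?_)
      (h.of_dvd h0 (dvd3 hp hq hr hpq (by omega) (by omega) (nd2 3 hp p2) (nd2 3 hq q2)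
        (nd2 3 hr (by omega)) d1 d2 (by simpa using d3) h8))
    simp only [Nat.add_one_sub_one, pow_one, Nat.sub_self, pow_zero, or_self,
      Nat.ModEq] at a b c
    omega
  · have := hp.two_le
    refine e11 hp e (h.of_dvd h0 ?_)
    have := dvd2 (e := 3) (f := 1) (m := 7) Nat.prime_two hp (by omega) (by norm_num)
      (fun e' => by
        have := (Nat.prime_dvd_prime_iff_eq hp (by norm_num)).1 e'
        omega) h8 (by simpa using d) h7
    simpa using this

end E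

theorem full_of_rigid {n : ℕ} (h0 : n ≠ 0) (h : Rigid n) : Full n := by
  refine ⟨fun p hp h2 h3 => ?_, fun p q hp hq h2 h1 h3 _ h5 => not_rigid_a h0 hp hq h2 h1 h3 h5 h,
    fun q hq h5 h1 => ?_, fun h3 => ?_, fun h9 => ?_, E.condFour h0 h, E.condEight h0 h⟩
  · exact not_rigid_cube hp h2 hp.ne_zero dvd_rfl (h.of_dvd h0 (by rwa [← pow_succ]))
  · by_contra h'
    refine not_rigid_acted h0
      ((Nat.coprime_primes hq Nat.prime_two).2 (by omega)) (fun e => ?_) h1 h' h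
    have := Nat.le_of_dvd (by norm_num) e
    omega
  · by_contra h'
    exact not_rigid_three h0 h3 h' h
  · by_contra h'
    exact not_rigid_acted h0 (by norm_num) (by norm_num) h9 h' h

end Pool.Agent.Lib.MP_cb9dee_al
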