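import Pool.Agent.Lib.MP_cb9dee_al.NonRigid

namespace Pool.Agent.Lib.MP_cb9dee_al

namespace E

open Multiplicative SemidirectProduct

section semi
variable {V H : Type} [CommGroup V] [Group H]

lemma semi_right_pow (φ : H →* MulAut V) (x : V ⋊[φ] H) (d : ℕ) :
    (x ^ d).right = x.right ^ d :=
  map_pow (rightHom : V ⋊[φ] H →* H) x d

lemma semi_pow_eq_one (φ : H →* MulAut V) (P : H → Prop) (h1 : ∀ h, P h → φ h = 1)
    (h2 : ∀ h, ¬ P h → ∀ v, φ h v = v → v = 1) (x : V ⋊[φ] H) (d : ℕ) :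
    x ^ d = 1 ↔ x.right ^ d = 1 ∧ (P x.right → x.left ^ d = 1) := by
  have key : P x.right → ∀ d, (x ^ d).left = x.left ^ d := fun hP d => by
    induction d with
    | zero => simp
    | succ d ih =>
      rw [pow_succ, mul_left, ih, semi_right_pow, map_pow, h1 _ hP, one_pow, pow_succ,
        MulAut.one_apply]
  constructor
  · intro h
    exact ⟨by rw [← semi_right_pow, h, one_right], fun hP => by rw [← key hP, h, one_left]⟩
  · rintro ⟨a, b⟩
    refine SemidirectProduct.ext ?_ (by rw [semi_right_pow, a, one_right])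
    by_cases hP : P x.right
    · rw [key hP, b hP, one_left]
    · refine h2 _ hP _ ?_
      have := congrArg SemidirectProduct.left (pow_mul_comm' x d)
      rw [mul_left, mul_left, semi_right_pow, a, map_one, MulAut.one_apply, mul_comm] at this
      exact (mul_left_cancel this).symm

lemma conformal_semi (φ ψ : H →* MulAut V) (P Q : H → Prop) (h1 : ∀ h, P h → φ h = 1)
    (h2 : ∀ h, ¬ P h → ∀ v, φ h v = v → v = 1) (k1 : ∀ h, Q h → ψ h = 1)
    (k2 : ∀ h, ¬ Q h → ∀ v, ψ h v = v → v = 1) (σ : H ≃ H) (hPQ : ∀ h, P h ↔ Q (σ h))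
    (hσ : ∀ h d, h ^ d = 1 ↔ σ h ^ d = 1) : Conformal (V ⋊[φ] H) (V ⋊[ψ] H) := by
  intro d _
  let e : (V ⋊[φ] H) ≃ (V ⋊[ψ] H) :=
    ⟨fun x => ⟨x.left, σ x.right⟩, fun x => ⟨x.left, σ.symm x.right⟩,
      fun _ => by simp, fun _ => by simp⟩
  refine Nat.card_congr (e.subtypeEquiv fun x => ?_)
  rw [semi_pow_eq_one φ P h1 h2, semi_pow_eq_one ψ Q k1 k2, hσ, hPQ]
  rfl

lemma semi_conj (φ : H →* MulAut V) (x : V ⋊[φ] H) (v : V) :
    x * inl v * x⁻¹ = inl (φ x.right v) := by
  rw [mul_inv_eq_iff_eq_mul]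
  ext
  · simp [mul_comm]
  · simp

lemma comm_of_iso [Finite H] {p : ℕ} (hV : ∀ v : V, v ^ p = 1) (hH : p.Coprime (Nat.card H))
    (φ ψ : H →* MulAut V) (hφ : ∀ x y, φ x * φ y = φ y * φ x)
    (Φ : (V ⋊[φ] H) ≃* (V ⋊[ψ] H)) (a b : H) : ψ a * ψ b = ψ b * ψ a := by
  have h1 : ∀ x y z : V ⋊[φ] H, z ^ p = 1 → x * y * z * (x * y)⁻¹ = y * x * z * (y * x)⁻¹ := by
    intro x y z hz
    have h2 : z.right = 1 := orderOf_eq_one_iff.1 (Nat.eq_one_of_dvd_coprimes hH
      (orderOf_dvd_of_pow_eq_one (by rw [← semi_right_pow, hz, one_right]))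
      (orderOf_dvd_natCard _))
    have h3 : z = inl z.left := SemidirectProduct.ext rfl h2
    rw [h3, semi_conj, semi_conj, mul_right, mul_right, map_mul, map_mul, hφ]
  ext v
  have h2 := congrArg Φ (h1 (Φ.symm (inr a)) (Φ.symm (inr b)) (Φ.symm (inl v))
    (by rw [← map_pow, ← map_pow, hV, map_one, map_one]))
  simp only [map_mul, map_inv, MulEquiv.apply_symm_apply] at h2
  rw [semi_conj, semi_conj, mul_right, mul_right, map_mul, map_mul] at h2
  exact inl_injective h2

end semi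

/-- Order sixteen. -/
theorem e1 : ¬ Rigid 16 := by
  intro hr
  obtain ⟨χ, hχ⟩ := exists_char 4 (-1 : (ZMod 4)ˣ) (orderOf_dvd_of_pow_eq_one (by decide))
  have hc : ∀ C : Multiplicative (ZMod 4) →* (ZMod 4)ˣ, Nat.card (Aff C) = 16 := fun C => by
    rw [SemidirectProduct.card, Nat.card_congr toAdd, Nat.card_zmod]
  obtain ⟨Φ⟩ := hr (Aff 1) (Aff χ) (hc 1) (hc χ) (conformal_aff 1 χ fun g d hd v => by
    suffices e : ∑ i ∈ Finset.range d, ((1 : Multiplicative (ZMod 4) →* (ZMod 4)ˣ) g : ZMod 4) ^ i =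
        ∑ i ∈ Finset.range d, (χ g : ZMod 4) ^ i by rw [e]
    obtain ⟨j, rfl⟩ := exists_pow_zmod (by norm_num) g
    rw [← pow_mul, ← orderOf_dvd_iff_pow_eq_one, orderOf_ofAdd_eq_addOrderOf,
      ZMod.addOrderOf_one] at hd
    rw [map_pow χ, hχ]
    rcases Nat.even_or_odd j with hj | hj
    · rw [hj.neg_one_pow, MonoidHom.one_apply]
    · have h4 : 4 ∣ d := (Nat.Coprime.pow_left 2 (Nat.coprime_two_left.2 hj)).dvd_of_dvd_mul_left hd
      obtain ⟨k, rfl⟩ := h4
      rw [hj.neg_one_pow, Units.val_neg, Units.val_one, neg_one_geom_sum,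
        if_pos ⟨2 * k, by ring⟩]
      simp only [MonoidHom.one_apply, Units.val_one, one_pow, Finset.sum_const, Finset.card_range,
        nsmul_eq_mul, Nat.cast_mul, mul_one]
      rw [show ((4 : ℕ) : ZMod 4) = 0 from rfl, zero_mul])
  have hcomm : ∀ x y : Aff (1 : Multiplicative (ZMod 4) →* (ZMod 4)ˣ), x * y = y * x := by
    intro x y
    ext <;> simp [mul_comm]
  have h3 : ∀ x y : Aff χ, x * y = y * x := fun x y => Φ.symm.injective (by
    rw [map_mul, map_mul, hcomm])
  have h4 := aff_conj χ (inr (ofAdd 1)) 1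
  rw [h3 (inr _), mul_inv_cancel_right, right_inr, hχ, mul_one] at h4
  have h5 : (1 : ZMod 4) = -1 := ofAdd.injective (inl_injective h4)
  exact absurd h5 (by decide)

/-- The plane over the field with three elements. -/
abbrev V9 : Type := Multiplicative (ZMod 3 × ZMod 3)

/-- The rotation of order four. -/
def rot (v : V9) : V9 := ofAdd (-(toAdd v).2, (toAdd v).1)

/-- The faithful action of the dihedral group of order eight. -/
def actA : DihedralGroup 4 → V9 → V9
  | .r i, v => rot^[i.val] v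
  | .sr i, v => ofAdd (toAdd (rot^[i.val] v)).swap

/-- The action through the sign character whose kernel is a four-group. -/
def actB : DihedralGroup 4 → V9 → V9
  | .r i, v => if i.val % 2 = 0 then v else v⁻¹
  | .sr i, v => if i.val % 2 = 0 then v else v⁻¹

/-- A homomorphism to the automorphism group from an action. -/
def autOf {V H : Type} [Group V] [Group H] (f : H → V → V) (h1 : ∀ v, f 1 v = v)
    (h2 : ∀ g h v, f (g * h) v = f g (f h v)) (h3 : ∀ g v w, f g (v * w) = f g v * f g w) :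
    H →* MulAut V where
  toFun g := ⟨⟨f g, f g⁻¹, fun v => by rw [← h2, inv_mul_cancel, h1],
    fun v => by rw [← h2, mul_inv_cancel, h1]⟩, h3 g⟩
  map_one' := MulEquiv.ext h1
  map_mul' g h := MulEquiv.ext (h2 g h)

/-- The faithful action. -/
def phiA : DihedralGroup 4 →* MulAut V9 :=
  autOf actA (by decide +kernel) (by decide +kernel) (by decide +kernel)

/-- The action by signs. -/
def phiB : DihedralGroup 4 →* MulAut V9 :=
  autOf actB (by decide +kernel) (by decide +kernel) (by decide +kernel)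

instance (φ : DihedralGroup 4 →* MulAut V9) : Fintype (V9 ⋊[φ] DihedralGroup 4) :=
  Fintype.ofEquiv _ (SemidirectProduct.equivProd (φ := φ)).symm

/-- Order seventy-two. -/
theorem e7 : ¬ Rigid 72 := by
  intro hr
  have hc : ∀ φ : DihedralGroup 4 →* MulAut V9, Nat.card (V9 ⋊[φ] DihedralGroup 4) = 72 :=
    fun φ => by
      rw [SemidirectProduct.card, Nat.card_congr toAdd, Nat.card_prod, Nat.card_zmod,
        DihedralGroup.nat_card]
  have hA : ∀ x : V9 ⋊[phiA] DihedralGroup 4, x ^ 12 = 1 := by decide +kernel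
  have hB : ∀ x : V9 ⋊[phiB] DihedralGroup 4, x ^ 12 = 1 := by decide +kernel
  have hcnt : ∀ d ∈ Nat.divisors 12,
      (Finset.univ.filter fun x : V9 ⋊[phiB] DihedralGroup 4 => x ^ d = 1).card =
        (Finset.univ.filter fun x : V9 ⋊[phiA] DihedralGroup 4 => x ^ d = 1).card := by
    decide +kernel
  obtain ⟨Φ⟩ := hr _ _ (hc phiB) (hc phiA) fun d _ => by
    have e1 : ∀ x : V9 ⋊[phiA] DihedralGroup 4, x ^ d = 1 ↔ x ^ d.gcd 12 = 1 := fun x => by
      rw [pow_gcd_eq_one, and_iff_left (hA x)]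
    have e2 : ∀ x : V9 ⋊[phiB] DihedralGroup 4, x ^ d = 1 ↔ x ^ d.gcd 12 = 1 := fun x => by
      rw [pow_gcd_eq_one, and_iff_left (hB x)]
    simp only [e1, e2, Nat.card_eq_fintype_card, Fintype.card_subtype]
    exact hcnt _ (Nat.mem_divisors.2 ⟨Nat.gcd_dvd_right _ _, by norm_num⟩)
  have := comm_of_iso (p := 3) (by decide) (by rw [DihedralGroup.nat_card]; norm_num) phiB phiA
    (fun x y => MulEquiv.ext (by revert x y; decide +kernel)) Φ (.r 1) (.sr 0)
  exact absurd (DFunLike.congr_fun this (ofAdd (1, 0))) (by decide +kernel)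

end E

end Pool.Agent.Lib.MP_cb9dee_al
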