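import Pool.Agent.Lib.MP_cb9dee_al.MRep

namespace Pool.Agent.Lib.MP_cb9dee_al

open Subgroup Matrix
open MulAut (conj conj_apply conjNormal)
open scoped MatrixGroups

namespace M

/-- The natural action of `GL(2, F)` on the plane, written multiplicatively. -/
def act (F : Type) [Field F] : GL (Fin 2) F →* MulAut (Multiplicative (Fin 2 → F)) :=
  MonoidHom.mk' (fun A => AddEquiv.toMultiplicative (DistribMulAction.toAddEquiv _ A)) fun A B =>
    MulEquiv.ext fun v => mul_smul A B v.toAdd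

lemma act_apply {F : Type} [Field F] (A : GL (Fin 2) F) (v : Multiplicative (Fin 2 → F)) :
    (act F A v).toAdd = A.val *ᵥ v.toAdd := rfl

lemma act_inj {F : Type} [Field F] : Function.Injective (act F) := fun A B h => by
  ext1
  exact Matrix.ext_of_mulVec_single fun i =>
    congrArg Multiplicative.toAdd (DFunLike.congr_fun h (Multiplicative.ofAdd (Pi.single i 1)))

variable {p r : ℕ} [Fact p.Prime] [Fact r.Prime]

lemma act_surj : Function.Surjective (act (ZMod r)) := by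
  have key : ∀ a : MulAut (Multiplicative (Fin 2 → ZMod r)), ∃ A : Matrix (Fin 2) (Fin 2) (ZMod r),
      ∀ v, (a v).toAdd = A *ᵥ v.toAdd := fun a =>
    ⟨LinearMap.toMatrix' ((AddEquiv.toMultiplicative.symm a).toAddMonoidHom.toZModLinearMap r),
      fun v => by rw [LinearMap.toMatrix'_mulVec]; rfl⟩
  intro a
  obtain ⟨A, hA⟩ := key a
  obtain ⟨B, hB⟩ := key a⁻¹
  have h : A * B = 1 := Matrix.ext_of_mulVec_single fun i => by
    rw [← mulVec_mulVec, one_mulVec, ← toAdd_ofAdd (Pi.single _ _), ← hB, ← hA]; simp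
  exact ⟨⟨A, B, h, mul_eq_one_comm.1 h⟩, MulEquiv.ext fun v => (hA v).symm⟩

lemma exists_rep {R : Type} [Group R] [Finite R] (hR : Nat.card R = r ^ 2) (hc : ¬ IsCyclic R) :
    ∃ (e : R ≃* Multiplicative (Fin 2 → ZMod r)) (κ : MulAut R →* GL (Fin 2) (ZMod r)),
      ∀ a x, e (a x) = act _ (κ a) (e x) := by
  have hr : r.Prime := Fact.out
  have hS : Nat.card (Multiplicative (Fin 2 → ZMod r)) = r ^ 2 := by simp
  have hc' : ¬ IsCyclic (Multiplicative (Fin 2 → ZMod r)) := fun h => by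
    obtain ⟨g, hg⟩ := IsCyclic.exists_ofOrder_eq_natCard (α := Multiplicative (Fin 2 → ZMod r))
    have : g ^ r = 1 := by
      change r • g.toAdd = 0
      ext i; simp
    have := Nat.le_of_dvd hr.pos (orderOf_dvd_of_pow_eq_one this)
    rw [hg, hS] at this
    nlinarith [hr.two_le]
  obtain ⟨a, b, h1, h2, h3⟩ := exists_two hr hR hc
  obtain ⟨a', b', h1', h2', h3'⟩ := exists_two hr hS hc'
  obtain ⟨e, -⟩ := two_gen hr hR hS h1 h2 h3 h1' h2' h3'
  let i := MulEquiv.ofBijective (act (ZMod r)) ⟨act_inj, act_surj⟩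
  refine ⟨e, i.symm.toMonoidHom.comp (MulAut.congr e).toMonoidHom, fun a x => ?_⟩
  change _ = i (i.symm _) _
  simp

/-- The model group. -/
abbrev Mod (θ : SL(2, ZMod p) →* GL (Fin 2) (ZMod r)) (Y : Type) [Group Y] : Type :=
  Multiplicative (Fin 2 → ZMod r) ⋊[((act _).comp θ).comp (MonoidHom.fst _ Y)] (SL(2, ZMod p) × Y)

lemma card_hall (θ : SL(2, ZMod p) →* GL (Fin 2) (ZMod r)) (Y : Type) [Group Y] [Finite Y]
    (h : (Nat.card Y).Coprime (r ^ 2 * Nat.card SL(2, ZMod p))) (d : ℕ) :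
    Nat.card {y : Y // y ^ d = 1} = Nat.card {x : Mod θ Y // x ^ d.gcd (Nat.card Y) = 1} := by
  let j : Y →* Mod θ Y := SemidirectProduct.inr.comp (MonoidHom.inr _ _)
  have hj : Function.Injective j := SemidirectProduct.inr_injective.comp (Prod.mk_right_injective 1)
  have : Finite (Mod θ Y) := Finite.of_equiv _ SemidirectProduct.equivProd.symm
  have : j.range.Normal := ⟨by
    rintro _ ⟨y, rfl⟩ g
    exact ⟨g.right.2 * y * g.right.2⁻¹, by ext <;> simp [j]⟩⟩
  have hi : j.range.index = r ^ 2 * Nat.card SL(2, ZMod p) := by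
    have := j.range.card_mul_index
    rw [SemidirectProduct.card, ← Nat.card_congr (j.ofInjective hj).toEquiv, Nat.card_prod] at this
    apply Nat.eq_of_mul_eq_mul_left (Nat.card_pos (α := Y))
    rw [this]; simp; ring
  refine Nat.card_eq_of_bijective (fun y => ⟨j y, by
    rw [← map_pow, pow_gcd_eq_one.2 ⟨y.2, pow_card_eq_one'⟩, map_one]⟩)
    ⟨fun a b e => Subtype.ext (hj (congrArg Subtype.val e)), fun ⟨x, hx⟩ => ?_⟩
  obtain ⟨y, rfl⟩ := mem_of_pow_eq_one (Y := j.range)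
    (hi ▸ h.of_dvd_left (Nat.gcd_dvd_right _ _)) hx
  rw [← map_pow, map_eq_one_iff _ hj] at hx
  exact ⟨⟨y, (pow_gcd_eq_one.1 hx).1⟩, rfl⟩

theorem structB {G : Type} [Group G] [Finite G] (hG : TyVIb G p) (h4 : 4 ∣ Nat.card G)
    (hn : Full (Nat.card G)) : ∃ (r : ℕ) (_ : Fact r.Prime) (Y : Type) (_ : Group Y) (_ : Finite Y)
      (θ : SL(2, ZMod p) →* GL (Fin 2) (ZMod r)), θ (-1) = -1 ∧ Nonempty (G ≃* Mod θ Y) ∧
        12 ∣ r + 1 ∧ r ^ 2 ∣ Nat.card G ∧ 3 ∣ Nat.card G ∧ p ≠ r ∧ ¬ 2 ∣ Nat.card Y ∧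
        (Nat.card Y).Coprime (r ^ 2 * Nat.card SL(2, ZMod p)) ∧
        ∃ (L : Type) (_ : Group L) (_ : Finite L) (k m : ℕ) (f : SL(2, ZMod p) →* L),
          Cov f (-1) ∧ Pack L p k m := by
  obtain ⟨-, Q, _, q, r, ⟨hr, r2, hq, hR, hinv⟩, hQ⟩ := hG
  have := Fact.mk hr
  have : Finite Q := Finite.of_surjective q hq
  have hi : q.ker.index = Nat.card Q := by rw [index_ker, MonoidHom.range_eq_top.2 hq, card_top]
  have cG := q.ker.card_mul_index
  rw [hR, hi] at cG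
  obtain ⟨n1, n2, -, -, -, n6, n7⟩ := hn
  obtain ⟨f1, -, f3, -⟩ := n6 h4
  obtain ⟨Y, _, _, o, ⟨e⟩, L, _, k, m, f, c, h⟩ := struct hQ
    fun a => f1 (cG ▸ a.mul_left _)
  have : Finite L := Finite.of_surjective f c.surj
  have cQ := (Nat.card_congr e.toEquiv).trans (Nat.card_prod _ _)
  have cS : Nat.card SL(2, ZMod p) = 2 * (2 * k * p * m) := by
    have : f.ker = zpowers (-1) := Subgroup.ext fun x => by rw [mem_two c.zz, ← c.ker]; rfl
    rw [← f.ker.card_mul_index, index_ker, MonoidHom.range_eq_top.2 c.surj, card_top, h.card, this,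
      Nat.card_zpowers, orderOf_eq_prime (by rw [sq, c.zz]) c.ne]
  have hrQ : ¬ r ∣ Nat.card Q := fun a => n1 r hr r2 (by
    rw [← cG, pow_succ]; exact mul_dvd_mul_left _ a)
  obtain ⟨K, hK⟩ := exists_right_complement'_of_coprime (N := q.ker) (by
    rw [hR, hi]; exact ((Nat.Prime.coprime_iff_not_dvd hr).2 hrQ).pow_left 2)
  let ι : SL(2, ZMod p) × Y ≃* K := e.symm.trans (MulEquiv.ofBijective (q.comp K.subtype) ⟨by
    rw [injective_iff_map_eq_one]
    exact fun x hx => Subtype.ext (disjoint_def.1 hK.disjoint hx x.2), fun y => by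
    obtain ⟨g, rfl⟩ := hq y
    obtain ⟨⟨a, b⟩, rfl⟩ := hK.2 g
    exact ⟨b, by simp [show q a = 1 from a.2]⟩⟩).symm
  let ψ : SL(2, ZMod p) × Y →* MulAut q.ker := conjNormal.comp (K.subtype.comp ι.toMonoidHom)
  have hz : ∀ x, ψ (-1, 1) x = x⁻¹ := fun x => Subtype.ext (hinv _ (by
    change orderOf (ι (-1, 1) : G) = 2
    rw [orderOf_coe, ι.orderOf_eq, Prod.orderOf_mk, orderOf_eq_prime (by rw [sq, c.zz]) c.ne]
    simp) x x.2)
  have h2 : (2 : ZMod r) ≠ 0 := fun e =>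
    r2 ((Nat.prime_dvd_prime_iff_eq hr Nat.prime_two).1 ((ZMod.natCast_eq_zero_iff 2 r).1 e))
  obtain ⟨ε, κ, hκ⟩ := exists_rep hR fun a => by
    obtain ⟨x, hx⟩ := exists_prime_orderOf_dvd_card' (G := q.ker) r (hR ▸ dvd_pow_self r two_ne_zero)
    have := hz x
    rw [show ψ (-1, 1) = 1 from triv_of_comm (ψ.comp (MonoidHom.inl _ _)) (c.pack_perfect h)
      (fun _ _ => mulAut_comm_of_cyclic _ _) (-1)] at this
    have := eq_one_of_eq_inv (fun a => r2 ((Nat.prime_dvd_prime_iff_eq Nat.prime_two hr).1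
      (hx ▸ a)).symm) this
    rw [this, orderOf_one] at hx
    exact hr.one_lt.ne hx
  let θ := (κ.comp ψ).comp (MonoidHom.inl _ Y)
  have hθ : θ (-1) = -1 := act_inj (MulEquiv.ext fun v => by
    obtain ⟨x, rfl⟩ := ε.surjective v
    refine (hκ _ x).symm.trans ((congrArg ε (hz x)).trans ?_)
    rw [map_inv]
    exact Multiplicative.toAdd.injective (by simp [act_apply, neg_mulVec]))
  have hpr : p ≠ r := fun a => hrQ (by rw [cQ, cS, ← a]; exact ⟨2 * (2 * k * m) * Nat.card Y, by ring⟩)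
  obtain ⟨rfl, -, -, -, -, hs⟩ := rep_facts c h h2 hpr θ hθ
  obtain ⟨rfl, rfl⟩ : k = 2 ∧ m = 3 := by have := h.par; have := h.even; omega
  rw [cQ, cS] at cG hrQ
  have d1 : r ^ 2 ∣ Nat.card G := cG ▸ dvd_mul_right _ _
  have d2 : ∀ a, a ∣ 120 → a ∣ Nat.card G := fun a ha => cG ▸ (ha.mul_right _).mul_left _
  have d3 : ∀ a b, a ∣ 120 → b ∣ Nat.card Y → a * b ∣ Nat.card G := fun a b ha hb =>
    cG ▸ (mul_dvd_mul ha hb).mul_left _
  have d9 := (n7 (d2 8 (by norm_num))).1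
  have hY : ∀ y, κ (ψ (1, y)) = 1 := by
    intro y
    obtain ⟨s, hs⟩ := hs (κ (ψ (1, y))) fun A => by
      change _ * κ (ψ (A, 1)) = κ (ψ (A, 1)) * _
      simp only [← map_mul, Prod.mk_mul_mk, one_mul, mul_one]
    have h1 : s ^ Nat.card Y = 1 := by
      have : (κ (ψ (1, y))).val ^ Nat.card Y = 1 := by
        rw [← Units.val_pow_eq_pow_val, ← map_pow, ← map_pow, Prod.pow_mk, pow_card_eq_one']
        simp [← Prod.one_eq_mk]
      rw [hs, smul_pow, one_pow] at this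
      simpa using congrFun (congrFun this 0) 0
    have s0 : s ≠ 0 := by rintro rfl; simp [Nat.card_pos.ne'] at h1
    ext1
    rw [hs, orderOf_eq_one_iff.1 (by_contra fun a => ?_ : orderOf s = 1), one_smul, Units.val_one]
    obtain ⟨t, ht, ht'⟩ := Nat.exists_prime_and_dvd a
    have t1 := ht'.trans (orderOf_dvd_of_pow_eq_one h1)
    exact n2 r t hr ht (fun a => o (a ▸ t1)) (one_mul t ▸ d3 1 t (one_dvd _) t1) d1 r2
      (ht'.trans (ZMod.orderOf_dvd_card_sub_one s0))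
  refine ⟨r, inferInstance, Y, inferInstance, inferInstance, θ, hθ,
    ⟨(SemidirectProduct.mulEquivSubgroup hK).symm.trans (SemidirectProduct.congr ε ι.symm ?_)⟩,
    ?_, d1, d2 3 (by norm_num), hpr, o, ?_, L, _, inferInstance, _, _, f, c, h⟩
  · intro g
    obtain ⟨⟨A, y⟩, rfl⟩ := ι.surjective g
    refine MulEquiv.ext fun x => (hκ (ψ (A, y)) x).trans ?_
    rw [ι.symm_apply_apply, ← Prod.fst_mul_snd (A, y), map_mul, map_mul, hY, mul_one]
    simp [θ]
  · have a1 := n2 r 3 hr Nat.prime_three (by norm_num) (d2 3 (by norm_num)) d1 r2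
    have a2 := f3 r hr r2 d1
    have a3 : ¬ 3 ∣ r := fun a => d9 ((pow_dvd_pow_of_dvd a 2).trans d1)
    have := hr.eq_two_or_odd
    have := hr.two_le
    have := Nat.mod_lt r (show 0 < 12 by norm_num)
    interval_cases a : r % 12 <;> omega
  · have a1 : ¬ 3 ∣ Nat.card Y := fun a => d9 (d3 3 3 (by norm_num) a)
    have a2 : ¬ 5 ∣ Nat.card Y := fun a =>
      f3 5 Nat.prime_five (by norm_num) (d3 5 5 (by norm_num) a) (by norm_num)
    have a3 : ¬ r ∣ Nat.card Y := fun a => hrQ (a.mul_left _)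
    have key : ∀ {t : ℕ}, t.Prime → ¬ t ∣ Nat.card Y → (Nat.card Y).Coprime t := fun ht a =>
      ((Nat.Prime.coprime_iff_not_dvd ht).2 a).symm
    rw [cS]
    exact ((key hr a3).pow_right 2).mul_right ((key Nat.prime_two o).mul_right
      ((((key Nat.prime_two o).mul_right (key Nat.prime_two o)).mul_right
        (key Nat.prime_five a2)).mul_right (key Nat.prime_three a1)))

end M

open M

variable {G H : Type} [Group G] [Group H] [Finite G] [Finite H]

theorem rigid_VIb (c : Pair G H) {p : ℕ} (hG : TyVIb G p) (hH : TyVIb H p) :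
    Nonempty (G ≃* H) := by
  have : Fact p.Prime := by
    obtain ⟨-, _, _, _, _, -, -, _, _, _, _, _, _, _, _, _, _, _, _, h⟩ := hG
    exact ⟨h.prime⟩
  obtain ⟨r, hr, Y, _, _, θ, a1, ⟨e⟩, a2, a3, a4, a5, a6, a7, L, _, _, k, m, f, cv, h⟩ :=
    structB hG c.four c.full
  obtain ⟨r', hr', Y', _, _, θ', b1, ⟨e'⟩, b2, b3, -, -, -, b7, -⟩ :=
    structB hH c.symm.four c.symm.full
  obtain rfl : r = r' := (c.full.2.2.2.2.2.1 c.four).2.2.2.2.1 a4 ⟨hr.out, a3, a2⟩
    ⟨hr'.out, c.card ▸ b3, b2⟩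
  have c1 := (Nat.card_congr e.toEquiv).trans SemidirectProduct.card
  have c2 := (Nat.card_congr e'.toEquiv).trans SemidirectProduct.card
  rw [Nat.card_prod] at c1 c2
  have c3 : Nat.card Y = Nat.card Y' := Nat.eq_of_mul_eq_mul_left Nat.card_pos
    (Nat.eq_of_mul_eq_mul_left Nat.card_pos (by rw [← c1, c.card, c2]))
  have h4 : ¬ 4 ∣ Nat.card Y := fun a => a6 (Dvd.dvd.trans (by norm_num) a)
  obtain ⟨ζ⟩ := rigid_of_cond Nat.card_pos.ne' h4 ((c.full.of_dvd (c1 ▸ (dvd_mul_left _ _).mul_left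
    _)).cond fun a => h4 (Dvd.dvd.trans (by norm_num) a)) Y Y' rfl c3.symm fun d hd => by
      rw [card_hall θ Y a7, card_hall θ' Y' b7, ← c3]
      exact conf_congr c.conf e e' _ (Nat.gcd_pos_of_pos_left _ hd)
  obtain ⟨s, g, hg⟩ := rep_conj cv h (two_ne (by omega)) a5
    (by rw [ZMod.exists_sq_eq_neg_one_iff]; omega) θ θ' a1 b1
  refine ⟨e.trans ((SemidirectProduct.congr (act _ g) (s.prodCongr ζ) fun x => ?_).trans e'.symm)⟩
  change act _ g * act _ (θ x.1) = act _ (θ' (s x.1)) * act _ g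
  rw [← map_mul, hg, map_mul]

end Pool.Agent.Lib.MP_cb9dee_al
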