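import Pool.Agent.Lib.MP_cb9dee_al.SInv

namespace Pool.Agent.Lib.MP_cb9dee_al

namespace S

open Subgroup

variable {G H Q : Type} [Group G] [Group H] [Group Q] [Finite G] [Finite H] {f : G →* Q}

/-- There is a subgroup of odd order whose index is a power of two. -/
def Hall2 (G : Type) [Group G] : Prop :=
  ∃ Y : Subgroup G, ¬ 2 ∣ Nat.card Y ∧ ∃ a, Y.index = 2 ^ a

lemma cop {a : ℕ} (h : ¬ 2 ∣ a) (j : ℕ) : a.Coprime (2 ^ j) :=
  (((Nat.Prime.coprime_iff_not_dvd Nat.prime_two).2 h).symm).pow_right j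

lemma Hall2.of_odd (hf : Function.Surjective f) (h2 : ¬ 2 ∣ Nat.card f.ker) (h : Hall2 Q) :
    Hall2 G := by
  obtain ⟨O, h3, a, h4⟩ := h
  refine ⟨O.comap f, ?_, a, by rwa [index_comap_of_surjective _ hf]⟩
  rw [card_comap hf, Nat.prime_two.dvd_mul]
  exact fun h => h.elim h3 h2

lemma Hall2.of_two (hf : Function.Surjective f) {j : ℕ} (h2 : Nat.card f.ker = 2 ^ j)
    (h : Hall2 Q) : Hall2 G := by
  obtain ⟨O, h3, a, h4⟩ := h
  obtain ⟨K, -, k2, -⟩ := exists_compl (ker_le_comap f O)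
    (by rw [relIndex_ker_comap hf, h2]; exact (cop h3 j).symm)
  rw [relIndex_ker_comap hf] at k2
  refine ⟨K, k2 ▸ h3, a + j, Nat.eq_of_mul_eq_mul_left (Nat.card_pos (α := K)) ?_⟩
  rw [K.card_mul_index, card_eq_mul hf, h2, ← O.card_mul_index, h4, k2, pow_add, mul_assoc]

lemma hall_two (hn : Full (Nat.card G)) {B : Subgroup G} [B.Normal] {j : ℕ}
    (hB : Nat.card B = 2 ^ (j + 2)) : Hall2 G := by
  obtain ⟨O, -, h⟩ := tyI_quot (B := B) hn (hB ▸ pow_dvd_pow 2 (by omega : 2 ≤ j + 2))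
  exact Hall2.of_two (QuotientGroup.mk'_surjective B) (by rwa [QuotientGroup.ker_mk']) ⟨O, h⟩

lemma tyI_conf (c : Pair G H) (hG : TyI G) (hH : Hall2 H) : TyI H := by
  obtain ⟨O, h1, h2, a, h3⟩ := hG
  obtain ⟨Y, k2, b, k3⟩ := hH
  have h4 : Nat.card O * 2 ^ a = Nat.card Y * 2 ^ b := by
    rw [← h3, ← k3, card_mul_index, card_mul_index, c.card]
  exact ⟨Y, c.conf.normal_of_normal h1 (h3 ▸ cop h2 a) (Nat.dvd_antisymm
    ((cop h2 b).dvd_of_dvd_mul_right (h4 ▸ dvd_mul_right _ _))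
    ((cop k2 a).dvd_of_dvd_mul_right (h4 ▸ dvd_mul_right _ _))), k2, b, k3⟩

omit [Finite G] in
lemma comm_I (h : TyI G) {B : Subgroup G} (hB : B.Normal) {j : ℕ} (h2 : Nat.card B = 2 ^ j) {g : G}
    (hg : ¬ 2 ∣ orderOf g) : ∀ x ∈ B, g * x = x * g := by
  obtain ⟨O, h1, h3, a, h4⟩ := h
  exact fun x hx => commute_of_normal_of_disjoint O B h1 hB
    (disjoint_def.2 (eq_one_of_coprime (h2 ▸ cop h3 j))) g x
    (mem_of_pow_eq_one (h4 ▸ cop hg a) (pow_orderOf_eq_one g)) hx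

omit [Finite G] in
lemma tyI_map (hf : Function.Surjective f) (h : TyI G) : TyI Q := by
  obtain ⟨O, h1, h3, a, h4⟩ := h
  obtain ⟨b, -, hb⟩ := (Nat.dvd_prime_pow Nat.prime_two).1 (h4 ▸ O.index_map_dvd hf)
  exact ⟨O.map f, h1.map f hf, fun e => h3 (e.trans (O.card_map_dvd f)), b, hb⟩

lemma x_I (c : Pair G H) (hG : TyI G) (hH : TyII H ∨ TyIIIa H ∨ TyIIIb H ∨ TyIV H) : False := by
  have hn := c.symm.full
  rcases hH with ⟨B, h1, h2, -, g, h3, x, hx, h4⟩ | ⟨-, B, h1, h2, g, h3, x, hx, h4⟩ |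
    ⟨-, A, _, f, r, he, -, B, h1, h2, g, h3, x, hx, h4⟩ | ⟨B, h1, h2, -, g, h3, x, hx, h4⟩
  · exact h4 (comm_I (tyI_conf c hG (hall_two (j := 0) hn h2)) h1 (j := 2) h2 h3 x hx)
  · exact h4 (comm_I (tyI_conf c hG (hall_two (j := 1) hn h2)) h1 (j := 3) h2 h3 x hx)
  · have := (Ext.ox he).finite
    exact h4 (comm_I (tyI_map he.2.2.1 (tyI_conf c hG ((hall_two (j := 1)
      (hn.of_dvd (card_dvd_of_surjective f he.2.2.1)) h2).of_odd he.2.2.1 (Ext.ox he).odd)))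
      h1 (j := 3) h2 h3 x hx)
  · have h5 := seven_eq h3 hx h4
    obtain ⟨g', k1, k2⟩ := exists_odd_lift (MulAut.conjNormal : H →* MulAut B) g
      (by rw [h5]; norm_num)
    rw [← k2, (isCj_conjNormal B g').eq_one_iff.2
      (comm_I (tyI_conf c hG (hall_two (j := 1) hn h2)) h1 (j := 3) h2 k1), orderOf_one] at h5
    omega

lemma four_of_noFour (h : NoFour G) (h4 : 4 ∣ Nat.card G) : ∃ x : G, orderOf x = 4 := by
  have := Fact.mk Nat.prime_two
  obtain ⟨K, hK⟩ := Sylow.exists_subgroup_card_pow_prime 2 (n := 2) h4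
  by_contra! h1
  have h2 : ∀ x ∈ K, x * x = 1 := fun x hx => by
    by_contra h3
    exact h1 x (orderOf_eq_prime_pow (p := 2) (n := 1) (by rwa [pow_one, pow_two])
      (hK ▸ pow_card_of_mem hx))
  obtain ⟨s, h3, -⟩ := exists_ne_two (α := K) (by omega) 1 1
  obtain ⟨t, h5, h6⟩ := exists_ne_two (α := K) (by omega) 1 s
  rcases h s t (h2 s s.2) (h2 t t.2) (comm_of_sq h2 s s.2 t t.2) with e | e | e
  · exact h3 (Subtype.ext e)
  · exact h5 (Subtype.ext e)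
  · exact h6 (Subtype.ext e.symm)

omit [Finite G] in
lemma no_four {B : Subgroup G} [B.Normal] (h1 : ¬ 2 ∣ B.index) (h2 : ∀ x ∈ B, x * x = 1) {x : G}
    (hx : orderOf x = 4) : False := by
  have h3 := h2 x (mem_of_odd (j := 2) h1 (show x ^ 4 = 1 from hx ▸ pow_orderOf_eq_one x))
  have := Nat.le_of_dvd two_pos (orderOf_dvd_of_pow_eq_one ((pow_two x).trans h3))
  omega

lemma x_IV (c : Pair G H) (hG : TyIV G) (hH : ∃ x : H, orderOf x = 4) : False := by
  obtain ⟨B, h1, h2, h3, -⟩ := hG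
  obtain ⟨x, hx⟩ := hH
  obtain ⟨y, hy⟩ := c.symm.conf.exists_order x
  exact no_four (index_odd (d := 8) h2.symm.dvd (not_sixteen c.full)) h3 (hy.trans hx)

lemma x_big (c : Pair G H) (hG : TyI G ∨ TyII G ∨ TyIIIa G ∨ TyIIIb G ∨ TyIV G) {p : ℕ}
    (hH : Big H p) : False := by
  have h5 := hH.five
  rcases hG with h | h | h | h | h
  · exact hH.not_oddK c.symm (oddK_I hH.prime (by omega) h)
  · exact hH.not_oddK c.symm (oddK_II hH.prime h5 c.full h)
  · exact hH.not_oddK c.symm (oddK_IIIa hH.prime h5 c.full h)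
  · exact hH.not_oddK c.symm (oddK_IIIb hH.prime h5 c.full h)
  · by_cases h7 : p = 7
    · exact x_IV c h (hH.four h7)
    · exact hH.not_oddK c.symm (oddK_IV hH.prime h5 h7 c.full h)

lemma x_II_IV (c : Pair G H) (hG : TyII G) (hH : TyIV H) : False := by
  obtain ⟨B, h1, h2, -, g, h3, x, hx, h4⟩ := hH
  have p7 : Nat.Prime 7 := by norm_num
  have := Fact.mk p7
  have := Fact.mk Nat.prime_two
  have h5 := seven_eq h3 hx h4
  have h7 : 7 ∣ Nat.card G := c.card ▸ h5 ▸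
    (isCj_conjNormal B g).orderOf_dvd.trans (_root_.orderOf_dvd_natCard g)
  have h6 := (oddK_II p7 (by norm_num) c.full hG).odd p7
  rw [sylow_conf c p7 h7 fun e => c.full.2.1 7 3 p7 Nat.prime_three (by norm_num)
    (Dvd.dvd.trans (by norm_num) (dvd_II hG)) e (by norm_num) (by norm_num)] at h6
  obtain ⟨P, hP⟩ := (IsPGroup.of_card (n := 3) h2 : IsPGroup 2 B
    ).nonempty_fixed_point_of_prime_not_dvd_card (Sylow 7 H) h6
  have h8 : (P : Subgroup H) ≤ (MulAut.conjNormal : H →* MulAut B).ker := fun y hy =>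
    (isCj_conjNormal B y).eq_one_iff.2 fun b hb => by
      have h9 : b ∈ normalizer (P : Set H) := Sylow.smul_eq_iff_mem_normalizer.1 (hP ⟨b, hb⟩)
      have h10 : y * b * y⁻¹ * b⁻¹ = 1 := eq_one_of_coprime (A := B) (B := P)
        (by rw [h2, P.card_eq_multiplicity]; exact Nat.Coprime.pow_right _ (by norm_num))
        (mul_mem (h1.conj_mem b hb y) (inv_mem hb)) (by
          rw [mul_assoc, mul_assoc, ← mul_assoc b]
          exact mul_mem hy ((mem_set_normalizer_iff.1 h9 _).1 (inv_mem hy)))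
      exact commutatorElement_eq_one_iff_mul_comm.1 h10
  exact P.not_dvd_index (Dvd.dvd.trans
    (by rw [index_ker, ← h5]; exact Subgroup.orderOf_dvd_natCard _ ⟨g, rfl⟩) (index_dvd_of_le h8))

omit [Finite G] in
lemma order_mul {z w : G} {p : ℕ} (hz : orderOf z = 2) (hc : w * z = z * w) (hw : orderOf w = p)
    (hp : ¬ 2 ∣ p) : orderOf (z * w) = 2 * p := by
  rw [Commute.orderOf_mul_eq_mul_orderOf_of_coprime hc.symm
    (by rw [hz, hw]; exact (Nat.Prime.coprime_iff_not_dvd Nat.prime_two).2 hp), hz, hw]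

omit [Finite G] in
lemma split_order {y : G} {p : ℕ} (hp : p.Prime) (hy : orderOf y = 2 * p) :
    orderOf (y ^ p) = 2 ∧ orderOf (y ^ 2) = p := by
  rw [orderOf_pow' y hp.ne_zero, orderOf_pow' y two_ne_zero, hy, Nat.gcd_mul_left_left,
    Nat.gcd_mul_right_left]
  exact ⟨Nat.mul_div_cancel _ hp.pos, Nat.mul_div_cancel_left _ two_pos⟩

lemma six_III (h : TyIIIa G ∨ TyIIIb G) : NoFour G ∧ ∃ y : G, orderOf y = 2 * 3 := by
  have key : ∀ {A : Type} [Group A] [Finite A], TyIIIa A → ∃ y : A, orderOf y = 2 * 3 := by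
    intro A _ _ h
    have := Fact.mk Nat.prime_three
    obtain ⟨w, hw⟩ := exists_prime_orderOf_dvd_card' 3 (Dvd.dvd.trans (by norm_num) (dvd_IIIa h))
    obtain ⟨_, _, _, f, z, hz, -⟩ := cov_of_IIIa h
    exact ⟨_, order_mul hz.2.1 (hz.2.2.1 w) hw (by norm_num)⟩
  rcases h with h | ⟨h, A, _, f, r, he, hA⟩
  · exact ⟨h.1, key h⟩
  · have := (Ext.ox he).finite
    obtain ⟨y, hy⟩ := key hA
    exact ⟨h, hy ▸ exists_order_lift he.2.2.1 y⟩

lemma x_II_III (c : Pair G H) (hG : TyII G) (hH : TyIIIa H ∨ TyIIIb H) : False := by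
  obtain ⟨k1, y, hy⟩ := six_III hH
  obtain ⟨x, hx⟩ := four_of_noFour k1 c.symm.four
  obtain ⟨x, hx⟩ := hx ▸ c.symm.conf.exists_order x
  obtain ⟨y, hy⟩ := hy ▸ c.symm.conf.exists_order y
  obtain ⟨B, h1, h2, h3, g, h4, b, hb, h5⟩ := hG
  obtain ⟨hs, hw⟩ := split_order Nat.prime_three hy
  have h8 : 8 ∣ Nat.card G := by
    by_contra h
    exact no_four (index_odd (d := 4) h2.symm.dvd h) h3 hx
  let φ : G →* MulAut B := MulAut.conjNormal
  have hφ : ∀ g, IsCj (φ g) g := isCj_conjNormal B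
  have := Fact.mk Nat.prime_three
  have := Fact.mk Nat.prime_two
  have h6 : orderOf (φ (y ^ 2)) = 3 := by
    refine orderOf_eq_prime (by rw [← map_pow, ← hw, pow_orderOf_eq_one, map_one]) fun e => ?_
    apply (c.full.2.2.2.2.2.2 h8).1
    rw [← φ.ker.card_mul_index, index_ker]
    refine Nat.mul_dvd_mul (a := 3) (c := 3) (hw ▸ φ.ker.orderOf_dvd_natCard e) ?_
    exact (three_dvd h2 h4 hb h5).trans (Subgroup.orderOf_dvd_natCard _ ⟨g, rfl⟩)
  have h7 : ∀ a : MulAut B, a * φ (y ^ 2) = φ (y ^ 2) * a → ∀ u, u ≠ 1 → a u = u → a = 1 := by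
    intro a ha u hu e
    ext v
    by_cases hv : v = 1
    · simp [hv]
    obtain ⟨k, rfl⟩ := trans_of_order Nat.prime_three h2 h6 hu hv
    rw [← MulAut.mul_apply, (Commute.pow_right ha k).eq, MulAut.mul_apply, e, MulAut.one_apply]
  have hc : y ^ 2 * y ^ 3 = y ^ 3 * y ^ 2 := (Commute.pow_pow_self y 2 3).eq
  have hs' := order_two.1 hs
  have h9 : y ^ 3 ∉ B := fun e => ne_one_of_orderOf Nat.prime_three h6
    (h7 _ rfl ⟨_, e⟩ (fun e => hs'.2 (congrArg Subtype.val e))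
      (Subtype.ext ((hφ _ _).trans (mul_inv_eq_iff_eq_mul.2 hc))))
  have h10 : φ (y ^ 3) = 1 := by
    have k2 := card_modEq_fixS Nat.prime_two (a := φ (y ^ 3))
      (by rw [← map_pow, pow_two, hs'.1, map_one])
    obtain ⟨u, hu⟩ := ne_bot_iff_exists_ne_one.1 (fun e : fixS (φ (y ^ 3)) = ⊥ => by
      rw [e, h2, card_bot] at k2
      exact absurd k2 (by decide))
    exact h7 _ (by rw [← map_mul, ← hc, map_mul]) u (fun e => hu (Subtype.ext e)) u.2
  have h11 : ∀ u ∈ B ⊔ zpowers (y ^ 3), u * u = 1 := by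
    intro u hu
    obtain ⟨b, hb, _, ⟨k, rfl⟩, rfl⟩ := mem_sup_of_normal_left.1 hu
    have k2 : Commute b (y ^ 3) := ((hφ _).eq_one_iff.1 h10 b hb).symm
    rw [← pow_two, (k2.zpow_right k).mul_pow, pow_two, h3 b hb, one_mul, ← zpow_natCast,
      ← zpow_mul, mul_comm, zpow_mul, zpow_natCast, pow_two, hs'.1, one_zpow]
  have h12 : 8 ∣ Nat.card (B ⊔ zpowers (y ^ 3) : Subgroup G) := by
    rw [sup_comm, ← card_mul_dvd fun u hu hu' => by
      by_contra e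
      exact h9 ((eq_zpowers_of_mem Nat.prime_two ((Nat.card_zpowers _).trans hs) hu e).1.ge.trans
        (zpowers_le.2 hu') (mem_zpowers _)), Nat.card_zpowers, hs, h2]
  have h13 : IsPGroup 2 (B ⊔ zpowers (y ^ 3) : Subgroup G) := fun u => ⟨1, Subtype.ext (by
    rw [pow_one, pow_two]; exact h11 u u.2)⟩
  obtain ⟨d, hd⟩ := exists_conj_mem_sylow (h13.toSylow (index_odd h12 (not_sixteen c.full)))
    (y := x) (k := 2) (show x ^ 4 = 1 from hx ▸ pow_orderOf_eq_one x)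
  have h14 : x ^ 2 = 1 := by simpa [pow_two] using h11 _ hd
  have := Nat.le_of_dvd two_pos (orderOf_dvd_of_pow_eq_one h14)
  omega

lemma x_ab (c : Pair G H) (hG : TyIIIa G ∨ ∃ p, TyVIa G p) (hH : TyIIIb H ∨ ∃ p, TyVIb H p) :
    False := by
  obtain ⟨h1, z, h2, h3⟩ : NoFour G ∧ ∃ z : G, orderOf z = 2 ∧ ∀ g, g * z = z * g := by
    rcases hG with h | ⟨p, h⟩
    · obtain ⟨_, _, _, f, z, hz, -⟩ := cov_of_IIIa h
      exact ⟨h.1, z, hz.2.1, hz.2.2.1⟩
    · obtain ⟨_, _, _, f, z, hz, -⟩ := cov_of_VIa h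
      exact ⟨h.1, z, hz.2.1, hz.2.2.1⟩
  obtain ⟨A, _, f, r, he⟩ : ∃ (A : Type) (_ : Group A) (f : H →* A) (r : ℕ), Ext f r := by
    rcases hH with ⟨-, A, _, f, r, h, -⟩ | ⟨p, -, A, _, f, r, h, -⟩
    · exact ⟨A, inferInstance, f, r, h⟩
    · exact ⟨A, inferInstance, f, r, h⟩
  have h4 : Subsingleton {x : H // orderOf x = 2} := by
    rw [← Finite.card_le_one_iff_subsingleton, ← c.conf.card_order 2 two_ne_zero,
      Finite.card_le_one_iff_subsingleton]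
    exact ⟨fun a b => Subtype.ext ((NoFour.eq h1 h2 h3 a.2).trans (NoFour.eq h1 h2 h3 b.2).symm)⟩
  obtain ⟨t, ht⟩ := h2 ▸ c.conf.exists_order z
  obtain ⟨x, hx, h5⟩ := exists_mem_order he.1 (he.2.2.2.1 ▸ dvd_pow_self r two_ne_zero)
  have h6 : x * t * x⁻¹ = t := congrArg Subtype.val
    (h4.elim ⟨_, ((MulAut.conj x).orderOf_eq t).trans ht⟩ ⟨t, ht⟩)
  have h7 := he.2.2.2.2 t ht x hx
  rw [← mul_inv_eq_iff_eq_mul.1 h6, mul_inv_cancel_right] at h7
  exact ne_one_of_orderOf he.1 h5 (eq_one_of_eq_inv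
    (fun e => (Ext.ox he).odd (e.trans (f.ker.orderOf_dvd_natCard hx))) h7)

lemma data_VI {p : ℕ} (h : TyVIa G p ∨ TyVIb G p) : NoFour G ∧ (∃ y : G, orderOf y = 2 * p) ∧
    ∃ k m, 2 ∣ k ∧ (p = 2 * k + 1 ∨ p + 1 = 2 * k) ∧ 2 * k * p * m * 2 ∣ Nat.card G := by
  have key : ∀ {A : Type} [Group A] [Finite A], TyVIa A p → (∃ y : A, orderOf y = 2 * p) ∧
      ∃ k m, 2 ∣ k ∧ (p = 2 * k + 1 ∨ p + 1 = 2 * k) ∧ 2 * k * p * m * 2 ∣ Nat.card A := by
    intro A _ _ h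
    obtain ⟨_, _, _, f, z, hz, L, k, m, -, hL⟩ := cov_of_VIa h
    have := Fact.mk hL.prime
    have h1 := card_subgroup_dvd_card L
    obtain ⟨w, hw⟩ := exists_prime_orderOf_dvd_card' p
      (((pk_dvd hL).trans h1).trans (card_dvd_of_surjective f hz.1))
    have := hL.par
    have := hL.five
    exact ⟨⟨_, order_mul hz.2.1 (hz.2.2.1 w) hw (by omega)⟩, k, m, hL.even, by omega,
      hz.card ▸ Nat.mul_dvd_mul_right (hL.card ▸ h1) 2⟩
  rcases h with h | ⟨h, A, _, f, r, he, hA⟩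
  · exact ⟨h.1, key h⟩
  · have := (Ext.ox he).finite
    obtain ⟨⟨y, hy⟩, k, m, h1, h2, h3⟩ := key hA
    exact ⟨h, hy ▸ exists_order_lift he.2.2.1 y, k, m, h1, h2,
      h3.trans (card_dvd_of_surjective f he.2.2.1)⟩

lemma x_V_VI (c : Pair G H) {p : ℕ} (hG : TyV G p) (hH : TyVIa H p ∨ TyVIb H p) : False := by
  obtain ⟨k1, ⟨y, hy⟩, k', m', k2, k3, k4⟩ := data_VI hH
  obtain ⟨x, hx⟩ := four_of_noFour k1 c.symm.four
  obtain ⟨x, hx⟩ := hx ▸ c.symm.conf.exists_order x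
  obtain ⟨y, hy⟩ := hy ▸ c.symm.conf.exists_order y
  obtain ⟨L, k, m, h1, h2⟩ := hG
  have h16 := not_sixteen c.full
  have h5 := h2.five
  have h4 : ¬ 4 ∣ k := by
    obtain rfl : k = k' := by have := h2.par; have := h2.even; omega
    rintro ⟨j, rfl⟩
    exact h16 (c.card ▸ Dvd.dvd.trans ⟨j * p * m', by ring⟩ k4)
  obtain ⟨hs, hw⟩ := split_order h2.prime hy
  obtain ⟨ψ, p1, p2⟩ := pk_perm h2
  have := Fact.mk h2.prime
  have := Fact.mk Nat.prime_two
  have h3 : y ^ 2 ∈ L := mem_of_pow_eq_one ((Nat.Prime.coprime_iff_not_dvd h2.prime).2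
    fun e => pk_not_sq h2 c.full (card_subgroup_dvd_card L) (by
      rw [pow_two, ← L.card_mul_index]; exact Nat.mul_dvd_mul (pk_dvd h2) e))
    (hw ▸ pow_orderOf_eq_one _)
  have h6 : y ^ p ∈ centralizer (L : Set G) := p2 (by
    by_contra e
    refine perm_order h2.prime (by omega) h2.pcard (ψ y)
      (((Nat.coprime_primes Nat.prime_two h2.prime).2 (by omega)).mul_dvd_of_dvd_of_dvd ?_ ?_)
    · rw [← orderOf_eq_prime (x := ψ y ^ p) (p := 2) (by
        rw [← map_pow, ← map_pow, ← hs, pow_orderOf_eq_one, map_one]) (map_pow ψ y p ▸ e)]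
      exact orderOf_pow_dvd p
    · have := orderOf_pow_dvd (x := ψ y) 2
      rwa [orderOf_eq_prime (x := ψ y ^ 2) (p := p) (by
        rw [← map_pow, ← map_pow, ← orderOf_dvd_iff_pow_eq_one.1 hw.dvd |>.symm, map_one])
        (map_pow ψ y 2 ▸ fun e => ne_one_of_orderOf h2.prime hw (p1 _ h3 e))] at this)
  have h7 : x ∈ L ⊔ centralizer (L : Set G) := mem_of_odd (j := 2) (index_odd (d := 8)
    (card_mul_dvd (pk_inf h2) ▸ Nat.mul_dvd_mul (pk_four h2)
      (hs ▸ Subgroup.orderOf_dvd_natCard _ h6 : 2 ∣ _)) h16)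
    (show x ^ 4 = 1 from hx ▸ pow_orderOf_eq_one x)
  obtain ⟨l, hl, d, hd, rfl⟩ := mem_sup_of_normal_left.1 h7
  have h8 : Commute l d := hd l hl
  have h9 : l ^ 4 * d ^ 4 = 1 := by rw [← h8.mul_pow, ← hx, pow_orderOf_eq_one]
  have h10 : l ^ 4 = 1 := pk_inf h2 _ (pow_mem hl 4)
    (eq_inv_of_mul_eq_one_left h9 ▸ inv_mem (pow_mem hd 4))
  rw [h10, one_mul] at h9
  have h11 : l ^ 2 = 1 := (pow_two l).trans
    (congrArg Subtype.val (pk_sq h2 h4 (y := ⟨l, hl⟩) (Subtype.ext h10)))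
  have h12 : d ^ 2 = 1 := by
    by_contra e
    exact pk_cent h2 c.full ((orderOf_eq_prime_pow (p := 2) (n := 1) e h9).symm.dvd.trans
      (Subgroup.orderOf_dvd_natCard _ hd))
  have := Nat.le_of_dvd two_pos (orderOf_dvd_of_pow_eq_one
    (show (l * d) ^ 2 = 1 by rw [h8.mul_pow, h11, h12, mul_one]))
  omega

/-- The types of groups which are not solvable. -/
def Ns (G : Type) [Group G] (p : ℕ) : Prop := TyV G p ∨ TyVIa G p ∨ TyVIb G p

lemma Ns.big (hn : Full (Nat.card G)) {p : ℕ} (h : Ns G p) : Big G p :=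
  h.elim (big_V hn) fun h => h.elim (big_VIa hn) (big_VIb hn)

omit [Finite G] in
lemma st_cases (h : ST G) : (TyI G ∨ TyII G ∨ TyIIIa G ∨ TyIIIb G ∨ TyIV G) ∨ ∃ p, Ns G p := by
  rcases h with h | h | h | h | h | ⟨p, h⟩ | ⟨p, h⟩ | ⟨p, h⟩
  · exact Or.inl (Or.inl h)
  · exact Or.inl (Or.inr (Or.inl h))
  · exact Or.inl (Or.inr (Or.inr (Or.inl h)))
  · exact Or.inl (Or.inr (Or.inr (Or.inr (Or.inl h))))
  · exact Or.inl (Or.inr (Or.inr (Or.inr (Or.inr h))))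
  · exact Or.inr ⟨p, Or.inl h⟩
  · exact Or.inr ⟨p, Or.inr (Or.inl h)⟩
  · exact Or.inr ⟨p, Or.inr (Or.inr h)⟩

end S

open S

variable {G H : Type} [Group G] [Group H] [Finite G] [Finite H]

theorem st_of_not_simple (hn : Full (Nat.card G)) (ih : IH G) (hs : ¬ IsSimpleGroup G) : ST G :=
  st_aux hn ih hs

theorem same_type (c : Pair G H) (hG : ST G) (hH : ST H) :
    (TyI G ∧ TyI H) ∨ (TyII G ∧ TyII H) ∨ (TyIIIa G ∧ TyIIIa H) ∨ (TyIIIb G ∧ TyIIIb H) ∨
      (TyIV G ∧ TyIV H) ∨ (∃ p, TyV G p ∧ TyV H p) ∨ (∃ p, TyVIa G p ∧ TyVIa H p) ∨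
      ∃ p, TyVIb G p ∧ TyVIb H p := by
  have d := c.symm
  rcases st_cases hG with a | ⟨p, a⟩ <;> rcases st_cases hH with b | ⟨q, b⟩
  · rcases a with a | a
    · exact Or.inl ⟨a, b.resolve_right (x_I c a)⟩
    have b := b.resolve_left fun b => x_I d b a
    rcases a with a | a | a | a <;> rcases b with b | b | b | b
    · exact Or.inr (Or.inl ⟨a, b⟩)
    · exact (x_II_III c a (Or.inl b)).elim
    · exact (x_II_III c a (Or.inr b)).elim
    · exact (x_II_IV c a b).elim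
    · exact (x_II_III d b (Or.inl a)).elim
    · exact Or.inr (Or.inr (Or.inl ⟨a, b⟩))
    · exact (x_ab c (Or.inl a) (Or.inl b)).elim
    · exact (x_IV d b (four_of_noFour a.1 c.four)).elim
    · exact (x_II_III d b (Or.inr a)).elim
    · exact (x_ab d (Or.inl b) (Or.inl a)).elim
    · exact Or.inr (Or.inr (Or.inr (Or.inl ⟨a, b⟩)))
    · exact (x_IV d b (four_of_noFour a.1 c.four)).elim
    · exact (x_II_IV d b a).elim
    · exact (x_IV c a (four_of_noFour b.1 d.four)).elim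
    · exact (x_IV c a (four_of_noFour b.1 d.four)).elim
    · exact Or.inr (Or.inr (Or.inr (Or.inr (Or.inl ⟨a, b⟩))))
  · exact (x_big c a (b.big d.full)).elim
  · exact (x_big d b (a.big c.full)).elim
  · obtain rfl := (a.big c.full).eq c (b.big d.full)
    refine Or.inr (Or.inr (Or.inr (Or.inr (Or.inr ?_))))
    rcases a with a | a
    · exact Or.inl ⟨p, a, b.resolve_right (x_V_VI c a)⟩
    have b := b.resolve_left fun b => x_V_VI d b a
    rcases a with a | a <;> rcases b with b | b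
    · exact Or.inr (Or.inl ⟨p, a, b⟩)
    · exact (x_ab c (Or.inr ⟨p, a⟩) (Or.inr ⟨p, b⟩)).elim
    · exact (x_ab d (Or.inr ⟨p, b⟩) (Or.inr ⟨p, a⟩)).elim
    · exact Or.inr (Or.inr ⟨p, a, b⟩)

end Pool.Agent.Lib.MP_cb9dee_al
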