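import Pool.Agent.Lib.MP_cb9dee_al.TTwo

namespace Pool.Agent.Lib.MP_cb9dee_al

namespace T

open Subgroup

/-- An elementary abelian group of order eight. -/
structure El (B : Type*) [Group B] : Prop where
  card : Nat.card B = 8
  sq : ∀ x : B, x * x = 1

/-- The automorphism satisfies `1 + a = a ^ 3`. -/
def Tri {B : Type*} [Group B] (a : MulAut B) : Prop := ∀ u, u * a u = a (a (a u))

variable {B B' : Type} [Group B] [Group B'] [Finite B] [Finite B']

namespace El
variable (q : El B)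
include q

omit [Finite B] in
lemma comm (x y : B) : x * y = y * x := by
  rw [← inv_eq_of_mul_eq_one_right (q.sq (x * y)), mul_inv_rev,
    inv_eq_of_mul_eq_one_right (q.sq x), inv_eq_of_mul_eq_one_right (q.sq y)]

lemma prime_cases {s : ℕ} (hs : s.Prime) {c : MulAut B} (hc : c ≠ 1) (h : c ^ s = 1) :
    s = 2 ∨ s = 3 ∨ (s = 7 ∧ ∀ v, c v = v → v = 1) := by
  have h1 := card_modEq_fixS hs h
  have h2 := card_subgroup_dvd_card (fixS c)
  rw [q.card] at h1 h2
  obtain ⟨k, hk, e⟩ := (Nat.dvd_prime_pow Nat.prime_two (m := 3)).1 h2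
  rw [e] at h1
  interval_cases k
  · exact Or.inr (Or.inr ⟨(Nat.prime_dvd_prime_iff_eq hs (by norm_num)).1
      ((Nat.modEq_iff_dvd' (by norm_num)).1 h1.symm),
      fun v hv => mem_bot.1 (card_eq_one.1 e ▸ (hv : v ∈ fixS c))⟩)
  · have h3 : s ∣ 2 * 3 := (Nat.modEq_iff_dvd' (by norm_num)).1 h1.symm
    exact ((Nat.Prime.dvd_mul hs).1 h3).imp (Nat.prime_dvd_prime_iff_eq hs Nat.prime_two).1
      fun h => Or.inl ((Nat.prime_dvd_prime_iff_eq hs Nat.prime_three).1 h)
  · have h3 : s ∣ 2 ^ 2 := (Nat.modEq_iff_dvd' (by norm_num)).1 h1.symm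
    exact Or.inl ((Nat.prime_dvd_prime_iff_eq hs Nat.prime_two).1 (hs.dvd_of_dvd_pow h3))
  · exact absurd (eq_one_of_fix (e.trans q.card.symm)) hc

lemma fix {c : MulAut B} (hc : c ≠ 1) (h : c ^ 7 = 1) {v : B} (hv : c v = v) : v = 1 := by
  rcases q.prime_cases (by norm_num) hc h with e | e | e
  · norm_num at e
  · norm_num at e
  · exact e.2 v hv

lemma index_dvd {U : Type*} [Group U] (φ : U →* MulAut B)
    (h : ∀ u, ¬ 2 ∣ orderOf (φ u) ∧ ¬ 3 ∣ orderOf (φ u)) : φ.ker.index ∣ 7 := by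
  have := index_dvd_of_free φ {x | x ≠ 1} (fun u x hx => by simpa using hx) fun u x hx e => by
    by_contra hc
    obtain ⟨s, k, hs, h1, h2, h3⟩ := exists_prime_pow hc
    rcases q.prime_cases hs h2 h3 with rfl | rfl | e'
    · exact (h u).1 h1
    · exact (h u).2 h1
    · exact hx (e'.2 x (pow_fix e k))
  rwa [card_ne_one, q.card] at this

lemma orbit {a : MulAut B} (ha : a ≠ 1) (h : a ^ 7 = 1) {v : B} (hv : v ≠ 1) (u : B) :
    u = 1 ∨ ∃ i : ℕ, u = (a ^ i) v := by
  have := Fact.mk (by norm_num : Nat.Prime 7)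
  have c7 : Nat.card (zpowers a) = 7 := by rw [Nat.card_zpowers, orderOf_eq_prime h ha]
  let f : zpowers a → {x : B | x ≠ 1} := fun c => ⟨(c : MulAut B) v, by simpa using hv⟩
  have hf : Function.Injective f := fun c c' e => by
    by_contra ne
    refine hv (q.fix (c := ((c'⁻¹ * c : zpowers a) : MulAut B))
      (fun e' => ne (inv_mul_eq_one.1 (Subtype.ext e')).symm)
      (c7 ▸ pow_card_of_mem (c'⁻¹ * c).2) ?_)
    have e' : (c : MulAut B) v = (c' : MulAut B) v := congrArg Subtype.val e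
    simp [e']
  refine or_iff_not_imp_left.2 fun hu => ?_
  obtain ⟨c, hc⟩ := (hf.bijective_of_nat_card_le (by rw [card_ne_one, q.card, c7])).2 ⟨u, hu⟩
  obtain ⟨i, hi⟩ := mem_powers_iff_mem_zpowers.2 c.2
  exact ⟨i, by rw [show a ^ i = c from hi]; exact (congrArg Subtype.val hc).symm⟩

lemma tri_cases {a : MulAut B} (ha : a ≠ 1) (h : a ^ 7 = 1) : Tri a ∨ Tri a⁻¹ := by
  have : Nontrivial B := Finite.one_lt_card_iff_nontrivial.1 (by rw [q.card]; norm_num)
  obtain ⟨v, hv⟩ := exists_ne (1 : B)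
  have cancel : ∀ x y z : B, x * y = z → x * z = y := fun x y z e => by
    rw [← e, ← mul_assoc, q.sq, one_mul]
  obtain ⟨k, hk⟩ := (q.orbit ha h hv (v * a v)).resolve_left fun e =>
    hv (q.fix ha h (by simpa using (cancel _ _ _ e).symm))
  have all : ∀ u, u * a u = (a ^ (k % 7)) u := fun u => by
    rw [← pow_eq_pow_mod k h]
    rcases q.orbit ha h hv u with rfl | ⟨i, rfl⟩
    · simp
    · rw [← MulAut.mul_apply, ← MulAut.mul_apply, ← pow_succ', pow_mul_comm, MulAut.mul_apply,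
        ← hk, map_mul, pow_succ, MulAut.mul_apply]
  have a7 : ∀ u, a (a (a (a (a (a (a u)))))) = u := fun u => by
    simpa only [pow_succ', pow_zero, mul_one, MulAut.mul_apply, MulAut.one_apply] using
      DFunLike.congr_fun h u
  have no : ¬ ∀ u, u * a u = a (a u) := fun e => by
    refine hv (q.fix (c := a ^ 3) (fun e' => ha ?_) (by rw [← pow_mul, mul_comm, pow_mul, h]; simp)
      ?_)
    · rw [show 7 = 3 * 2 + 1 from rfl, pow_succ, pow_mul, e'] at h
      simpa using h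
    · rw [pow_three, MulAut.mul_apply, MulAut.mul_apply, ← e (a v), ← e v, q.comm v]
      exact cancel _ _ _ rfl
  have hlt := Nat.mod_lt k (by norm_num : 7 > 0)
  generalize k % 7 = m at all hlt
  interval_cases m <;>
    simp only [pow_succ', pow_zero, mul_one, MulAut.mul_apply, MulAut.one_apply] at all
  · exact absurd (by simpa using all v) hv
  · exact absurd (by simpa using all v) hv
  · exact absurd all no
  · exact Or.inl all
  · refine absurd (fun u => cancel _ _ _ ?_) no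
    have e := all (a (a (a (a u))))
    rw [a7, ← all (a u), ← all u, mul_assoc, cancel _ _ _ rfl] at e
    exact e
  · refine Or.inr fun u => ?_
    obtain ⟨u, rfl⟩ := (a * a * a).surjective u
    simp only [MulAut.mul_apply, MulAut.inv_apply_self]
    rw [q.comm, all, a7]
  · refine absurd (fun u => ?_) no
    have e := all (a u)
    rw [a7] at e
    rw [q.comm]
    exact cancel _ _ _ e

omit [Finite B] in
lemma exists_hom (x y z : B) : ∃ f : Multiplicative (ZMod 2) × Multiplicative (ZMod 2) ×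
    Multiplicative (ZMod 2) →* B, f (Multiplicative.ofAdd 1, 1, 1) = x ∧
      f (1, Multiplicative.ofAdd 1, 1) = y ∧ f (1, 1, Multiplicative.ofAdd 1) = z := by
  let _ : CommGroup B := ⟨q.comm⟩
  have k := fun u : B => exists_char 2 u (orderOf_dvd_of_pow_eq_one (by rw [pow_two, q.sq]))
  obtain ⟨f, hf⟩ := k x
  obtain ⟨g, hg⟩ := k y
  obtain ⟨h, hh⟩ := k z
  exact ⟨f.coprod (g.coprod h), by simp [hf], by simp [hg], by simp [hh]⟩

end El

lemma beta_tri (q : El B) (q' : El B') {a : MulAut B} {a' : MulAut B'} (ha : a ≠ 1)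
    (ha' : a' ≠ 1) (h : a ^ 7 = 1) (h' : a' ^ 7 = 1) (t : Tri a) (t' : Tri a') {v : B} {v' : B'}
    (hv : v ≠ 1) (hv' : v' ≠ 1) : ∃ β : B ≃* B', ∀ i : ℕ, β ((a ^ i) v) = (a' ^ i) v' := by
  obtain ⟨f, f0, f1, f2⟩ := q.exists_hom v (a v) (a (a v))
  obtain ⟨g, g0, g1, g2⟩ := q'.exists_hom v' (a' v') (a' (a' v'))
  have key : ∀ i : ℕ, ∃ c, f c = (a ^ i) v ∧ g c = (a' ^ i) v' := fun i => by
    induction i using Nat.strong_induction_on with
    | _ i ih =>
    match i with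
    | 0 => exact ⟨_, f0, g0⟩
    | 1 => exact ⟨_, by simpa using f1, by simpa using g1⟩
    | 2 => exact ⟨_, by simpa [pow_two] using f2, by simpa [pow_two] using g2⟩
    | i + 3 =>
      obtain ⟨c, c1, c2⟩ := ih i (by omega)
      obtain ⟨d, d1, d2⟩ := ih (i + 1) (by omega)
      refine ⟨c * d, ?_, ?_⟩
      · rw [map_mul, c1, d1, pow_succ', MulAut.mul_apply, t]
        simp only [pow_succ', MulAut.mul_apply]
      · rw [map_mul, c2, d2, pow_succ', MulAut.mul_apply, t']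
        simp only [pow_succ', MulAut.mul_apply]
  have c8 : Nat.card (Multiplicative (ZMod 2) × Multiplicative (ZMod 2) ×
    Multiplicative (ZMod 2)) = 8 := by simp
  obtain ⟨β, hβ⟩ := iso_of_gen f g (fun u => by
      rcases q.orbit ha h hv u with rfl | ⟨i, rfl⟩
      · exact ⟨1, map_one f⟩
      · exact (key i).imp fun _ h => h.1) (fun u => by
      rcases q'.orbit ha' h' hv' u with rfl | ⟨i, rfl⟩
      · exact ⟨1, map_one g⟩
      · exact (key i).imp fun _ h => h.2) (by rw [c8, q.card]) (by rw [c8, q'.card])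
  refine ⟨β, fun i => ?_⟩
  obtain ⟨c, c1, c2⟩ := key i
  rw [← c1, hβ, c2]

variable {X : Type} [Group X] [Finite X]

lemma seven_index (q : El B) (W : Sylow 7 X) (φ : X →* MulAut B) :
    (φ.comp (W : Subgroup X).subtype).ker.index ∣ 7 := by
  have := Fact.mk (by norm_num : Nat.Prime 7)
  refine q.index_dvd _ fun u => ?_
  have h := (orderOf_map_dvd φ (u : X)).trans
    (orderOf_dvd_of_pow_eq_one (pow_eq_one_of_mem_sylow W u.2))
  exact ⟨fun e => absurd (Nat.prime_two.dvd_of_dvd_pow (e.trans h)) (by norm_num),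
    fun e => absurd (Nat.prime_three.dvd_of_dvd_pow (e.trans h)) (by norm_num)⟩

lemma seven_pow (q : El B) (W : Sylow 7 X) (φ : X →* MulAut B) {y : X} (hy : y ∈ W) :
    φ y ^ 7 = 1 := by
  have h : (φ.comp (W : Subgroup X).subtype) (⟨y, hy⟩ ^ _) = 1 :=
    (φ.comp (W : Subgroup X).subtype).ker.pow_index_mem ⟨y, hy⟩
  rw [map_pow, ← orderOf_dvd_iff_pow_eq_one] at h
  exact orderOf_dvd_iff_pow_eq_one.1 (h.trans (seven_index q W φ))

lemma beta_eight (q : El B) (q' : El B') (A : Sys X) (h2 : ¬ 2 ∣ Nat.card X)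
    (h9 : ¬ 9 ∣ Nat.card X) (hs : Small (Nat.card X)) (φ : X →* MulAut B) (ψ : X →* MulAut B')
    (hk : ∀ x ∈ A.R 7, φ x = 1 ↔ ψ x = 1) {y : X} (hy : y ∈ A.R 7) (hy1 : φ y ≠ 1)
    (t : Tri (φ y)) (t' : Tri (ψ y)) : ∃ β : B ≃* B', ∀ x b, β (φ x b) = ψ x (β b) := by
  have p7 : Nat.Prime 7 := by norm_num
  have := Fact.mk p7
  have := Fact.mk Nat.prime_three
  have c3 : Nat.card (A.R 3 : Subgroup X) ∣ 3 := by
    obtain ⟨k, hk, e⟩ := (Nat.dvd_prime_pow Nat.prime_three).1 (card_sylow_dvd hs (A.R 3))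
    have : k ≠ 2 := by
      rintro rfl
      exact h9 (e.symm.dvd.trans (card_subgroup_dvd_card _))
    exact e.dvd.trans (pow_dvd_pow 3 (by omega : k ≤ 1))
  have := isCyclic_of_card_dvd_prime c3
  obtain ⟨⟨w, hw⟩, hw'⟩ := IsCyclic.exists_generator (α := (A.R 3 : Subgroup X))
  have w3 : w ^ 3 = 1 :=
    orderOf_dvd_iff_pow_eq_one.1 (((A.R 3 : Subgroup X).orderOf_dvd_natCard hw).trans c3)
  have y1 : y ≠ 1 := fun e => hy1 (by rw [e, map_one])
  have d7 : 7 ∣ Nat.card X := by_contra fun e => y1 (eq_one_of_mem_sylow_of_not_dvd p7 _ e hy)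
  obtain ⟨j, hj⟩ : ∃ j : ℕ, y ^ j = w * y * w⁻¹ := by
    by_cases e : w * y = y * w
    · exact ⟨1, by rw [e]; simp⟩
    have d3 : 3 ∣ Nat.card X := by_contra fun e' => e (by
      rw [eq_one_of_mem_sylow_of_not_dvd Nat.prime_three _ e' hw]; simp)
    rcases not_comm_cases A h2 hs Nat.prime_three p7 d3 d7 hw hy e with k | k
    · have c7 := (card_sylow_cases hs (A.R 7) d7).resolve_right fun e =>
        hs.2 7 3 p7 Nat.prime_three (by norm_num) d3 (e ▸ card_subgroup_dvd_card _) (by norm_num)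
      exact mem_powers_iff_mem_zpowers.2
        ((eq_zpowers_of_mem p7 c7 hy y1).1 ▸ k.2.1.2.2.2.conj_mem y hy w)
    · rcases k.2.2.2 with k | k <;> exact absurd k.2 (by norm_num)
  obtain ⟨v, hv, ev⟩ := exists_fix Nat.prime_three (a := φ w) (by rw [← map_pow, w3, map_one])
    (by rw [q.card]; decide)
  obtain ⟨v', hv', ev'⟩ := exists_fix Nat.prime_three (a := ψ w) (by rw [← map_pow, w3, map_one])
    (by rw [q'.card]; decide)
  have y7 := seven_pow q _ φ hy
  obtain ⟨β, hβ⟩ := beta_tri q q' hy1 (mt (hk y hy).2 hy1) y7 (seven_pow q' _ ψ hy) t t' hv hv'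
  have ext : ∀ x, (∀ i : ℕ, β (φ x ((φ y ^ i) v)) = ψ x ((ψ y ^ i) v')) → x ∈ agree φ ψ β :=
    fun x hx => mem_agree.2 fun b => by
      rcases q.orbit hy1 y7 hv b with rfl | ⟨i, rfl⟩
      · simp
      · rw [hx, hβ]
  have my : y ∈ agree φ ψ β := ext y fun i => by
    rw [← MulAut.mul_apply, ← MulAut.mul_apply, ← pow_succ', ← pow_succ', hβ]
  have mw : w ∈ agree φ ψ β := ext w fun i => by
    have e : w * y ^ i = y ^ (j * i) * w := by rw [pow_mul, hj, conj_pow, inv_mul_cancel_right]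
    rw [← MulAut.mul_apply, ← MulAut.mul_apply, ← map_pow, ← map_pow, ← map_mul, ← map_mul, e,
      map_mul, map_mul, MulAut.mul_apply, MulAut.mul_apply, ev, ev', map_pow, map_pow, hβ]
  have triv : ∀ {C : Type} [Group C] [Finite C], El C → ∀ (χ : X →* MulAut C) (r : ℕ), r.Prime →
      r ∣ Nat.card X → r ≠ 3 → r ≠ 7 → ∀ x ∈ A.R r, χ x = 1 := fun p χ r hr dr r3 r7 x hx => by
    by_contra hc
    have := Fact.mk hr
    obtain ⟨s, k, hs, k1, k2, k3⟩ := exists_prime_pow hc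
    obtain rfl := (Nat.prime_dvd_prime_iff_eq hs hr).1 (hs.dvd_of_dvd_pow (k1.trans
      ((orderOf_map_dvd χ x).trans (orderOf_dvd_of_pow_eq_one (pow_eq_one_of_mem_sylow _ hx)))))
    rcases p.prime_cases hs k2 k3 with e | e | e
    · exact h2 (e ▸ dr)
    · exact r3 e
    · exact r7 e.1
  have top := eq_top_of_sys A (L := agree φ ψ β) fun r hr dr x hx => by
    by_cases r3 : r = 3
    · subst r3
      obtain ⟨k, hk⟩ := hw' ⟨x, hx⟩
      have e : w ^ k = x := congrArg Subtype.val hk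
      exact e ▸ zpow_mem mw k
    by_cases r7 : r = 7
    · subst r7
      have hle : (φ.comp (A.R 7 : Subgroup X).subtype).ker ≤
          (agree φ ψ β).subgroupOf (A.R 7) := fun u hu => mem_agree_of_ker hu ((hk u u.2).1 hu)
      refine subgroupOf_eq_top.1 (index_eq_one.1 (((Nat.dvd_prime p7).1 ((index_dvd_of_le
        hle).trans (seven_index q _ φ))).resolve_right fun e => hy1 ?_)) hx
      have h3 := relIndex_mul_index hle
      have h4 := Nat.le_of_dvd (by norm_num) (seven_index q (A.R 7) φ)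
      have h5 := index_ne_zero_of_finite (H := (φ.comp (A.R 7 : Subgroup X).subtype).ker)
      rw [e] at h3
      have h6 : (φ.comp (A.R 7 : Subgroup X).subtype).ker.relIndex
          ((agree φ ψ β).subgroupOf (A.R 7)) = 1 := by
        omega
      exact relIndex_eq_one.1 h6 (show (⟨y, hy⟩ : (A.R 7 : Subgroup X)) ∈ subgroupOf _ _ from my)
    · exact mem_agree_of_ker (triv q φ r hr dr r3 r7 x hx) (triv q' ψ r hr dr r3 r7 x hx)
  exact ⟨β, fun x => mem_agree.1 (top ▸ mem_top x)⟩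

lemma match_eight (q : El B) (q' : El B') (h2 : ¬ 2 ∣ Nat.card X) (hn : Full (8 * Nat.card X))
    (φ : X →* MulAut B) (ψ : X →* MulAut B') (h7 : 7 ∣ φ.ker.index) (h7' : 7 ∣ ψ.ker.index) :
    ∃ (θ : X ≃* X) (β : B ≃* B'), ∀ x b, β (φ x b) = ψ (θ x) (β b) := by
  have p7 : Nat.Prime 7 := by norm_num
  have := Fact.mk p7
  have hc := (hn.of_dvd (dvd_mul_left _ _)).cond fun e => h2 (dvd_trans (by norm_num) e)
  have hs : Small (Nat.card X) := ⟨hc.1, hc.2.1⟩
  have h9 : ¬ 9 ∣ Nat.card X := fun e => (hn.2.2.2.2.2.2 (dvd_mul_right _ _)).1 (e.mul_left 8)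
  have d7 : 7 ∣ Nat.card X := h7.trans (index_dvd_card _)
  obtain ⟨A⟩ := exists_sys (G := X) (fun e => h2 (dvd_trans (by norm_num) e)) hs
  obtain ⟨θ, hθ⟩ : ∃ θ : X ≃* X, ∀ x ∈ A.R 7, φ x = 1 ↔ ψ (θ x) = 1 := by
    by_cases d3 : 3 ∣ Nat.card X
    · have c7 := (card_sylow_cases hs (A.R 7) d7).resolve_right fun e =>
        hs.2 7 3 p7 Nat.prime_three (by norm_num) d3 (e ▸ card_subgroup_dvd_card _) (by norm_num)
      have k : ∀ K : Subgroup X, 7 ∣ K.index → ∀ x ∈ A.R 7, x ∈ K ↔ x = 1 := fun K hK x hx =>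
        ⟨fun h => by_contra fun e => sylow_not_le p7 hK (A.R 7)
          ((eq_zpowers_of_mem p7 c7 hx e).1 ▸ zpowers_le.2 h), fun h => h ▸ one_mem K⟩
      exact ⟨MulEquiv.refl X, fun x hx => (k _ h7 x hx).trans (k _ h7' x hx).symm⟩
    · have k : ∀ {C : Type} [Group C] [Finite C], El C → ∀ χ : X →* MulAut C,
          χ.ker.index ∣ 7 := fun p χ => p.index_dvd χ fun u =>
        ⟨fun e => h2 (e.trans ((orderOf_map_dvd χ u).trans (orderOf_dvd_natCard u))),
          fun e => d3 (e.trans ((orderOf_map_dvd χ u).trans (orderOf_dvd_natCard u)))⟩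
      obtain ⟨θ, hθ⟩ := move_seven h2 hn (Nat.dvd_antisymm (k q φ) h7)
        (Nat.dvd_antisymm (k q' ψ) h7')
      exact ⟨θ, fun x _ => hθ x⟩
  obtain ⟨y, hy, hy1, t⟩ : ∃ y ∈ A.R 7, φ y ≠ 1 ∧ Tri (φ y) := by
    obtain ⟨y, hy, hy1⟩ := SetLike.not_le_iff_exists.1 (sylow_not_le p7 h7 (A.R 7))
    rcases q.tri_cases hy1 (seven_pow q _ φ hy) with t | t
    · exact ⟨y, hy, hy1, t⟩
    · exact ⟨y⁻¹, inv_mem hy, by rwa [map_inv, inv_ne_one], by rwa [map_inv]⟩
  rcases q'.tri_cases (mt (hθ y hy).2 hy1) (seven_pow q' _ (ψ.comp θ.toMonoidHom) hy) with t' | t'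
  · exact ⟨θ, beta_eight q q' A h2 h9 hs φ (ψ.comp θ.toMonoidHom) hθ hy hy1 t t'⟩
  · obtain ⟨η, hη⟩ := invert_seven A h2 hn d7
    refine ⟨η.trans θ, beta_eight q q' A h2 h9 hs φ (ψ.comp (η.trans θ).toMonoidHom)
      (fun x hx => ?_) hy hy1 t ?_⟩
    · change _ ↔ ψ (θ (η x)) = 1
      rw [hη x hx, map_inv, map_inv, inv_eq_one, hθ x hx]
    · change Tri (ψ (θ (η y)))
      rwa [hη y hy, map_inv, map_inv]

lemma setup_four {G : Type} [Group G] [Finite G] (hG : TyIV G) (h16 : ¬ 16 ∣ Nat.card G) :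
    ∃ (B X : Subgroup G) (_ : B.Normal), El B ∧ B.IsComplement' X ∧ ¬ 2 ∣ Nat.card X ∧
      7 ∣ (act B X).ker.index := by
  obtain ⟨B, _, h8, h2, g, h7, x, hx, hgx⟩ := hG
  have := Fact.mk (by norm_num : Nat.Prime 7)
  have q : El B := ⟨h8, fun x => Subtype.ext (h2 x x.2)⟩
  have hi : ¬ 2 ∣ B.index := fun e => h16 (by
    rw [← index_mul_card B, h8]; exact Nat.mul_dvd_mul_right e 8)
  obtain ⟨X, h⟩ := exists_right_complement'_of_coprime (N := B)
    (h8 ▸ ((Nat.Prime.coprime_iff_not_dvd Nat.prime_two).2 hi).pow_left 3)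
  refine ⟨B, X, inferInstance, q, h, h.symm.index_eq_card ▸ hi, ?_⟩
  have c1 : (MulAut.conjNormal g : MulAut B) ≠ 1 := fun e =>
    hgx ((isCj_conjNormal B g).eq_one_iff.1 e x hx)
  have c2 : (MulAut.conjNormal g : MulAut B) ^ 7 = 1 :=
    ((isCj_conjNormal B g).pow 7).eq_one_iff.2 h7
  rw [index_ker, ← orderOf_eq_prime c2 c1]
  obtain ⟨⟨b, y⟩, rfl⟩ := h.2 g
  have e1 : (MulAut.conjNormal (b : G) : MulAut B) = 1 := (isCj_conjNormal B _).eq_one_iff.2
    fun z hz => congrArg Subtype.val (q.comm b ⟨z, hz⟩)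
  simp only [map_mul, e1, one_mul]
  exact Subgroup.orderOf_dvd_natCard _ ⟨y, rfl⟩

end T

open T Subgroup

variable {G H : Type} [Group G] [Group H] [Finite G] [Finite H]

theorem rigid_IV (c : Pair G H) (hG : TyIV G) (hH : TyIV H) : Nonempty (G ≃* H) := by
  have h16 := (c.full.2.2.2.2.2.1 c.four).1
  obtain ⟨B, X, _, q, h, h2, h7⟩ := setup_four hG h16
  obtain ⟨B', X', _, q', h', -, h7'⟩ := setup_four hH (c.card ▸ h16)
  obtain ⟨hX, conf⟩ := conformal_compl c.conf c.card h h' (q.card.trans q'.card.symm) (q.card ▸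
    ((Nat.Prime.coprime_iff_not_dvd Nat.prime_two).2 h2).pow_left 3)
  obtain ⟨α⟩ := rigid_of_cond Nat.card_pos.ne' (fun e => h2 (dvd_trans (by norm_num) e))
    ((c.full.of_dvd (card_subgroup_dvd_card X)).cond
      fun e => h2 (dvd_trans (by norm_num) e)) X X' rfl hX.symm conf
  obtain ⟨θ, β, hβ⟩ := match_eight q q' h2 (by rw [← q.card, h.card_mul_card]; exact c.full)
    (act B X) ((act B' X').comp α.toMonoidHom) h7
    (by rwa [← MonoidHom.comap_ker, index_comap_of_surjective _ α.surjective])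
  obtain ⟨Φ, -⟩ := glue2 h h' (θ.trans α) β hβ
  exact ⟨Φ⟩

end Pool.Agent.Lib.MP_cb9dee_al
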