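import Pool.Agent.Lib.MP_cb9dee_al.CMain
import Pool.Agent.Lib.MP_cb9dee_al.SMain
import Pool.Agent.Lib.MP_cb9dee_al.TMain
import Pool.Agent.Lib.MP_cb9dee_al.MMain
import Pool.Agent.Lib.MP_cb9dee_al.EMain

namespace Pool.Agent.Lib.MP_cb9dee_al

/-- The structure theorem. -/
theorem st_of_full (n : ℕ) : ∀ (G : Type) [Group G] [Finite G], Nat.card G = n → Full n → ST G := by
  induction n using Nat.strong_induction_on with
  | _ n ih =>
    intro G _ _ hG hn
    subst hG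
    have h : IH G := fun H _ _ h1 h2 => ih _ h2 H rfl (hn.of_dvd h1)
    by_cases hs : IsSimpleGroup G
    · exact st_of_simple hn h
    · exact st_of_not_simple hn h hs

theorem rigid_of_full_of
    (hI : ∀ (G H : Type) [Group G] [Group H] [Finite G] [Finite H], Pair G H → TyI G → TyI H →
      Nonempty (G ≃* H)) {n : ℕ} (h0 : n ≠ 0) (hn : Full n) : Rigid n := by
  by_cases h4 : 4 ∣ n
  swap
  · exact rigid_of_cond h0 h4 (hn.cond fun e => h4 ((by norm_num : (4 : ℕ) ∣ 8).trans e))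
  intro G H _ _ hG hH hc
  have : Finite G := Nat.finite_of_card_ne_zero (hG ▸ h0)
  have : Finite H := Nat.finite_of_card_ne_zero (hH ▸ h0)
  have c : Pair G H := ⟨hc, hG.trans hH.symm, hG ▸ h4, hG ▸ hn⟩
  rcases same_type c (st_of_full n G hG hn) (st_of_full n H hH hn) with h | h | h | h | h |
    ⟨p, h⟩ | ⟨p, h⟩ | ⟨p, h⟩
  exacts [hI G H c h.1 h.2, rigid_II c h.1 h.2, rigid_IIIa c h.1 h.2, rigid_IIIb c h.1 h.2,
    rigid_IV c h.1 h.2, rigid_V c h.1 h.2, rigid_VIa c h.1 h.2, rigid_VIb c h.1 h.2]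

end Pool.Agent.Lib.MP_cb9dee_al
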