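import Pool.Agent.Lib.MP_cb9dee_al.Defs

namespace Pool.Agent.Lib.MP_cb9dee_al

/-- The extra conditions when `4 ∣ n`. -/
def CondFour (n : ℕ) : Prop :=
  ¬ 16 ∣ n ∧
  {p | p.Prime ∧ p ∣ n ∧ 4 ∣ p - 1}.Subsingleton ∧
  (∀ p, p.Prime → p ≠ 2 → p ^ 2 ∣ n → ¬ 4 ∣ p - 1) ∧
  (∀ p q, p.Prime → q.Prime → p ≠ 2 → q ≠ 2 → p ^ 2 ∣ n → q ^ 2 ∣ n → ¬ q ∣ p + 1) ∧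
  (3 ∣ n → {p | p.Prime ∧ p ^ 2 ∣ n ∧ 12 ∣ p + 1}.Subsingleton) ∧
  (3 ∣ n → ∀ p q r, p.Prime → q.Prime → r.Prime → p ^ 2 ∣ n → 12 ∣ p + 1 → q ∣ n → 3 ∣ q - 1 →
    r ∣ n → ¬ 4 ∣ r - 1)

/-- The extra conditions when `8 ∣ n`. -/
def CondEight (n : ℕ) : Prop :=
  ¬ 9 ∣ n ∧
  (∀ p q, p.Prime → q.Prime → p ≠ 2 → q ≠ 2 → p ^ 2 ∣ n → q ^ 2 ∣ n → p % 8 = q % 8 → p = q) ∧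
  (∀ p q, p.Prime → q.Prime → p ≠ 2 → p ^ 2 ∣ n → q ∣ n → ¬ 8 ∣ q - 1) ∧
  (∀ p q r, p.Prime → q.Prime → r.Prime → p ≠ 2 → q ≠ 2 → p ≠ q → p ^ 2 ∣ n → q ^ 2 ∣ n →
    r ∣ n → ¬ 4 ∣ r - 1) ∧
  (7 ∣ n → ∀ p, p.Prime → p ∣ n → ¬ 7 ∣ p - 1)

/-- The full arithmetic criterion. -/
def Full (n : ℕ) : Prop :=
  (∀ p, p.Prime → p ≠ 2 → ¬ p ^ 3 ∣ n) ∧
  (∀ p q, p.Prime → q.Prime → q ≠ 2 → q ∣ n → p ^ 2 ∣ n → p ≠ 2 → ¬ q ∣ p - 1) ∧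
  (∀ q, q.Prime → 5 ≤ q → q ∣ n → (Acted q n).Subsingleton) ∧
  (3 ∣ n → {p | p.Prime ∧ p ∣ n ∧ 3 ∣ p - 1}.Subsingleton) ∧
  (9 ∣ n → (Acted 9 n).Subsingleton) ∧
  (4 ∣ n → CondFour n) ∧
  (8 ∣ n → CondEight n)

end Pool.Agent.Lib.MP_cb9dee_al
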