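import Pool.Agent.Lib.MP_cb9dee_al.Hall

namespace Pool.Agent.Lib.MP_cb9dee_al

open Subgroup Pointwise
open scoped commutatorElement

/-- The standing hypotheses on a pair of groups. -/
structure Ctx (G H : Type) [Group G] [Group H] : Prop where
  conf : Conformal G H
  card : Nat.card G = Nat.card H
  h4 : ¬ 4 ∣ Nat.card G
  small : Small (Nat.card G)

variable {G H : Type} [Group G] [Group H] [Finite G] [Finite H]

omit [Finite G] [Finite H] in
lemma Ctx.symm (c : Ctx G H) : Ctx H G :=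
  ⟨c.conf.symm, c.card.symm, c.card ▸ c.h4, c.card ▸ c.small⟩

lemma Ctx.card_sylow (c : Ctx G H) {r : ℕ} (hr : r.Prime) (P : Sylow r G) (Q : Sylow r H) :
    Nat.card (P : Subgroup G) = Nat.card (Q : Subgroup H) := by
  have := Fact.mk hr
  have h1 := P.card_eq_multiplicity
  have h2 := Q.card_eq_multiplicity
  erw [h1, h2, c.card]

lemma Ctx.normal (c : Ctx G H) {r : ℕ} (hr : r.Prime) {P : Sylow r G} (Q : Sylow r H)
    (h : (P : Subgroup G).Normal) : (Q : Subgroup H).Normal := by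
  have := Fact.mk hr
  exact c.conf.normal_of_normal h P.card_coprime_index (c.card_sylow hr P Q)

lemma Ctx.isCyclic (c : Ctx G H) {r : ℕ} (hr : r.Prime) {P : Sylow r G} (Q : Sylow r H)
    (h : IsCyclic (P : Subgroup G)) : IsCyclic (Q : Subgroup H) := by
  have := Fact.mk hr
  obtain ⟨x, hx⟩ := IsCyclic.exists_ofOrder_eq_natCard (α := (P : Subgroup G))
  obtain ⟨y, hy⟩ := c.conf.exists_order (x : G)
  have h1 : Nat.card (zpowers y) = r ^ (Nat.card H).factorization r := by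
    rw [Nat.card_zpowers, hy, Subgroup.orderOf_coe, hx, ← c.card]
    exact P.card_eq_multiplicity
  have h2 : IsCyclic (Sylow.ofCard _ h1) := (inferInstance : IsCyclic (zpowers y))
  exact (Sylow.equiv (Sylow.ofCard _ h1) Q).isCyclic.1 h2

lemma Ctx.orderOf_t (c : Ctx G H) (A : Sys G) (B : Sys H) : orderOf A.t = orderOf B.t := by
  rw [← Nat.card_zpowers, ← Nat.card_zpowers, ← A.hR2, ← B.hR2]
  exact c.card_sylow Nat.prime_two _ _

lemma Ctx.card_fix (c : Ctx G H) (A : Sys G) (B : Sys H) {r : ℕ} (hr : r.Prime) (h2 : r ≠ 2) :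
    Nat.card ((A.R r : Subgroup G) ⊓ centralizer {A.t} : Subgroup G) =
      Nat.card ((B.R r : Subgroup H) ⊓ centralizer {B.t} : Subgroup H) := by
  rw [A.card_inf_centralizer hr h2, B.card_inf_centralizer hr h2]
  suffices h : Nat.card (centralizer ({A.t} : Set G)) = Nat.card (centralizer ({B.t} : Set H)) by
    rw [h]
  have := Fact.mk Nat.prime_two
  by_cases h : A.t = 1
  · have h' : B.t = 1 := by rw [← orderOf_eq_one_iff, ← c.orderOf_t A B, h, orderOf_one]
    have e1 : centralizer ({A.t} : Set G) = ⊤ := by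
      rw [eq_top_iff]; intro x _; rw [mem_centralizer_singleton_iff, h]; simp
    have e2 : centralizer ({B.t} : Set H) = ⊤ := by
      rw [eq_top_iff]; intro x _; rw [mem_centralizer_singleton_iff, h']; simp
    rw [e1, e2, card_top, card_top, c.card]
  · have h1 : orderOf A.t = 2 := orderOf_eq_prime (by rw [pow_two, A.ht]) h
    exact c.conf.card_centralizer c.card c.h4 h1 (c.orderOf_t A B ▸ h1)

lemma Ctx.cent (c : Ctx G H) (A : Sys G) (B : Sys H) {p q : ℕ} (hp : p.Prime) (hq : q.Prime)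
    (hq2 : q ≠ 2) (hP : (A.R p : Subgroup G).Normal) (hQ : ¬ (A.R q : Subgroup G).Normal)
    (h : ∀ x ∈ A.R q, ∀ y ∈ A.R p, x * y = y * x) :
    ∀ x ∈ B.R q, ∀ y ∈ B.R p, x * y = y * x := by
  classical
  have := Fact.mk hp
  let σ : Finset ℕ := insert q ((Nat.card G).primeFactors.filter
    fun r => r ≠ 2 ∧ r ≠ p ∧ (A.R r : Subgroup G).Normal)
  have hσ : ∀ r ∈ σ, r.Prime := fun r hr => (Finset.mem_insert.1 hr).elim (· ▸ hq)
    fun h => Nat.prime_of_mem_primeFactors (Finset.mem_filter.1 h).1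
  have hpσ : p ∉ σ := fun h' => (Finset.mem_insert.1 h').elim (fun e => hQ (e ▸ hP))
    fun h => (Finset.mem_filter.1 h).2.2.1 rfl
  have hY : (A.hall σ).Normal := by
    refine A.normal_hall hq hq2 (fun r hr hrq =>
      (Finset.mem_filter.1 ((Finset.mem_insert.1 hr).resolve_left hrq)).2.2.2)
      (Or.inr fun r hr hr2 hrσ hrd x hx y hy => ?_)
    by_cases hrp : r = p
    · subst hrp; exact (h y hy x hx).symm
    · exact A.hcomm r q hr hq hr2 hq2 (fun hn => hrσ (Finset.mem_insert_of_mem (Finset.mem_filter.2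
        ⟨Nat.mem_primeFactors.2 ⟨hr, hrd, Nat.card_pos.ne'⟩, hr2, hrp, hn⟩))) hQ x hx y hy
  have hY' : (B.hall σ).Normal := c.conf.normal_of_normal hY (A.coprime_hall hσ)
    (by rw [A.card_hall hσ, B.card_hall hσ, c.card])
  have hP' := c.normal hp (B.R p) hP
  intro x hx y hy
  rw [← commutatorElement_eq_one_iff_mul_comm]
  have h1 : ⁅x, y⁆ ∈ B.R p := mul_mem (hP'.conj_mem y hy x) (inv_mem hy)
  have hx' : x ∈ B.hall σ := B.le_hall (Finset.mem_insert_self _ _) hx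
  have h2 : ⁅x, y⁆ ∈ B.hall σ := by
    have := mul_mem hx' (hY'.conj_mem _ (inv_mem hx') y)
    simpa [commutatorElement_def, mul_assoc] using this
  exact orderOf_eq_one_iff.1 (Nat.eq_one_of_dvd_coprimes (B.coprime_hall_sylow hσ hp hpσ)
    (orderOf_dvd_of_pow_eq_one (pow_eq_one_of_mem_sylow _ h1))
    (orderOf_dvd_of_pow_eq_one (pow_card_of_mem h2)))

lemma cent_of_fix (hs : Small (Nat.card G)) {p : ℕ} (hp : p.Prime) (P : Sylow p G)
    (hP : (P : Subgroup G).Normal) {x u : G} (hx : ¬ 2 ∣ orderOf x) (hu : u ∈ P) (hu1 : u ≠ 1)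
    (h : x * u = u * x) : ∀ y ∈ P, x * y = y * x := by
  have := Fact.mk hp
  have hd : p ∣ Nat.card G := by
    by_contra hd
    exact hu1 (eq_one_of_mem_sylow_of_not_dvd hp P hd hu)
  have ha := isCj_conjNormal (P : Subgroup G) x
  refine ha.eq_one_iff.1 ((ha.good hs hd hx).eq_one hp (x := ⟨u, hu⟩)
    (fun e => hu1 (congrArg Subtype.val e)) (Subtype.ext ?_))
  rw [ha]
  change x * u * x⁻¹ = u
  rw [h, mul_inv_cancel_right]

lemma Ctx.exists_cent (c : Ctx G H) (A : Sys G) (B : Sys H) {q : ℕ} (hq : q.Prime) (hq2 : q ≠ 2)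
    (σ : Finset ℕ) (hσ : ∀ p ∈ σ, p.Prime ∧ p ≠ q ∧ p ∣ Nat.card G ∧ (A.R p : Subgroup G).Normal)
    (h : ∃ x ∈ A.R q, x ≠ 1 ∧ ∀ p ∈ σ, ∀ y ∈ A.R p, x * y = y * x) :
    ∃ x ∈ B.R q, x ≠ 1 ∧ ∀ p ∈ σ, ∀ y ∈ B.R p, x * y = y * x := by
  classical
  have := Fact.mk hq
  obtain ⟨x0, hx0, hx1, hx2⟩ := h
  obtain ⟨x, hxo, hx⟩ : ∃ x : G, orderOf x = q ∧ ∀ p ∈ σ, ∀ y ∈ A.R p, Commute x y := by
    obtain ⟨j, -, hj⟩ := (Nat.dvd_prime_pow hq).1
      (orderOf_dvd_of_pow_eq_one (pow_eq_one_of_mem_sylow _ hx0))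
    have hj0 : j ≠ 0 := fun e => hx1 (orderOf_eq_one_iff.1 (by rw [hj, e, pow_zero]))
    exact ⟨x0 ^ (orderOf x0 / q), orderOf_pow_orderOf_div (orderOf_pos _).ne'
      (hj ▸ dvd_pow_self q hj0), fun p hp y hy => Commute.pow_left (hx2 p hp y hy) _⟩
  have hu : ∀ τ ⊆ σ, ∃ u : G, orderOf u = ∏ p ∈ τ, p ∧ Commute x u ∧
      ∀ p ∈ σ, ∀ y ∈ A.R p, Commute u y := by
    intro τ
    induction τ using Finset.induction_on with
    | empty => exact fun _ => ⟨1, by simp, by simp, by simp⟩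
    | insert p τ hpτ ih =>
      intro hτ
      obtain ⟨u, hu1, hu2, hu3⟩ := ih ((Finset.subset_insert _ _).trans hτ)
      have hp := hτ (Finset.mem_insert_self _ _)
      obtain ⟨hp1, hp2, hp3, hp4⟩ := hσ p hp
      have := Fact.mk hp1
      obtain ⟨v, hv⟩ := exists_prime_orderOf_dvd_card' p ((A.R p).dvd_card_of_dvd_card hp3)
      refine ⟨v * u, ?_, (hx p hp v v.2).mul_right hu2, fun r hr y hy => Commute.mul_left
        (comm_of_normal hp1 (hσ r hr).1 c.small _ _ hp4 (hσ r hr).2.2.2 v.2 hy) (hu3 r hr y hy)⟩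
      have hv' : orderOf (v : G) = p := (Subgroup.orderOf_coe (H := (A.R p : Subgroup G)) v).trans hv
      rw [(hu3 p hp v v.2).symm.orderOf_mul_eq_mul_orderOf_of_coprime, hv', hu1,
        Finset.prod_insert hpτ]
      rw [hv', hu1]
      exact Nat.Coprime.prod_right fun r hr => (Nat.coprime_primes hp1
        (hσ r (hτ (Finset.mem_insert_of_mem hr))).1).2 fun e => hpτ (e ▸ hr)
  obtain ⟨u, hu1, hu2, -⟩ := hu σ subset_rfl
  have ho : orderOf (x * u) = q * ∏ p ∈ σ, p := by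
    rw [hu2.orderOf_mul_eq_mul_orderOf_of_coprime, hxo, hu1]
    rw [hxo, hu1]
    exact Nat.Coprime.prod_right fun r hr => (Nat.coprime_primes hq (hσ r hr).1).2 (hσ r hr).2.1.symm
  obtain ⟨g, hg⟩ := c.conf.exists_order (x * u)
  rw [ho] at hg
  have h1 : orderOf (g ^ (orderOf g / q)) = q :=
    orderOf_pow_orderOf_div (orderOf_pos _).ne' (hg ▸ dvd_mul_right _ _)
  obtain ⟨d, hd⟩ := exists_conj_mem_sylow (B.R q) (y := g ^ (orderOf g / q)) (k := 1)
    (by rw [pow_one, ← orderOf_dvd_iff_pow_eq_one, h1])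
  have h2 : orderOf (d * g ^ (orderOf g / q) * d⁻¹) = q := ((MulAut.conj d).orderOf_eq _).trans h1
  refine ⟨_, hd, fun e => hq.one_lt.ne' (by rw [← h2, e, orderOf_one]), fun p hp => ?_⟩
  obtain ⟨hp1, -, -, hp4⟩ := hσ p hp
  have := Fact.mk hp1
  have hP' := c.normal hp1 (B.R p) hp4
  have h3 : orderOf (g ^ (orderOf g / p)) = p := orderOf_pow_orderOf_div (orderOf_pos _).ne'
    (hg ▸ (Finset.dvd_prod_of_mem _ hp).mul_left _)
  have h4 : orderOf (d * g ^ (orderOf g / p) * d⁻¹) = p := ((MulAut.conj d).orderOf_eq _).trans h3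
  refine cent_of_fix c.symm.small hp1 _ hP' (u := d * g ^ (orderOf g / p) * d⁻¹) ?_
    (mem_sylow_of_normal _ hP' (k := 1) (by rw [pow_one, ← orderOf_dvd_iff_pow_eq_one, h4]))
    (fun e => hp1.one_lt.ne' (by rw [← h4, e, orderOf_one])) ?_
  · rw [h2]
    exact fun h => hq2 ((Nat.prime_dvd_prime_iff_eq Nat.prime_two hq).1 h).symm
  · group

end Pool.Agent.Lib.MP_cb9dee_al
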