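import Pool.Agent.Lib.MP_cb9dee_al.JLem

/-! The standing hypotheses of block J and the types of proper subgroups. -/

set_option linter.unusedSectionVars false

namespace Pool.Agent.Lib.MP_cb9dee_al.J

open Subgroup

/-- The standing hypotheses. -/
structure Cx (G : Type) [Group G] : Prop where
  simple : IsSimpleGroup G
  full : Full (Nat.card G)
  ih : IH G
  h8 : 8 ∣ Nat.card G
  sq : ∀ x : G, x ^ 8 = 1 → x * x = 1
  idx : ∀ (M : Type) [Group M] [Finite M] (L : Subgroup M) [L.Normal] (p k m : ℕ),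
    Pack L p k m → (L ⊔ centralizer (L : Set M)).index ∣ 2

variable {G : Type} [Group G] [Finite G]

/-- The data of `Pack`, for a subgroup. -/
structure GP (L : Subgroup G) (p k m : ℕ) : Prop where
  prime : p.Prime
  five : 5 ≤ p
  even : 2 ∣ k
  par : (p = 2 * k + 1 ∧ m = k + 1) ∨ (p + 1 = 2 * k ∧ m + 1 = k)
  card : Nat.card L = 2 * k * p * m
  simple : ∀ X ≤ L, Nm L X → X = ⊥ ∨ X = L
  conj : ∀ s ∈ L, ∀ t ∈ L, s * s = 1 → s ≠ 1 → t * t = 1 → t ≠ 1 → ∃ g ∈ L, g * s * g⁻¹ = t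
  cent : ∀ t ∈ L, t * t = 1 → t ≠ 1 → Nat.card (L ⊓ centralizer {t} : Subgroup G) = 2 * k ∧
    ∃ K ≤ L, Nat.card K = k ∧ t ∈ K ∧ (∀ x ∈ K, ∀ y ∈ K, x * y = y * x) ∧
      (∀ x ∈ K, x * x = 1 → x = 1 ∨ x = t) ∧
      (∀ u ∈ L, u * t = t * u → u ∉ K → u * u = 1 ∧ ∀ x ∈ K, u * x * u⁻¹ = x⁻¹) ∧
      (∀ x ∈ K, x ≠ 1 → x ≠ t → ∀ y ∈ L, y * x = x * y → y ∈ K)
  torus : ∀ x ∈ L, x ≠ 1 → (orderOf x).Coprime (k * p) →
    ∃ A ≤ L, Nat.card A = m ∧ (∀ g ∈ L, g * x = x * g → g ∈ A) ∧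
      ∃ u ∈ L, u * u = 1 ∧ u * x * u⁻¹ = x⁻¹

lemma gp_of {Γ : Type} [Group Γ] {p k m : ℕ} (h : Pack Γ p k m) (f : Γ →* G)
    (hf : Function.Injective f) : GP f.range p k m := by
  have hs := h.simple
  have o2 : ∀ x : Γ, f x * f x = 1 → f x ≠ 1 → orderOf x = 2 := fun x h1 h2 =>
    (orderOf_injective f hf x).symm.trans (order_two h1 h2)
  have e1 : ∀ x : Γ, f x = 1 ↔ x = 1 := fun x => map_eq_one_iff f hf
  refine ⟨h.prime, h.five, h.even, h.par, ?_, fun X hX hn => ?_, ?_, ?_, ?_⟩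
  · rw [← h.card, MonoidHom.range_eq_map, card_map_of_injective hf, card_top]
  · have : (X.comap f).Normal := ⟨fun x hx g => by
      rw [mem_comap, map_mul, map_mul, map_inv]
      exact hn _ ⟨g, rfl⟩ _ hx⟩
    rw [← map_comap_eq_self hX]
    rcases this.eq_bot_or_eq_top with e | e <;> rw [e]
    · exact Or.inl (map_bot f)
    · exact Or.inr f.range_eq_map.symm
  · rintro _ ⟨s, rfl⟩ _ ⟨t, rfl⟩ a b c d
    obtain ⟨g, hg⟩ := isConj_iff.1 (h.conj s t (o2 s a b) (o2 t c d))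
    exact ⟨f g, ⟨g, rfl⟩, by rw [← hg, map_mul, map_mul, map_inv]⟩
  · rintro _ ⟨t, rfl⟩ a b
    obtain ⟨h1, K, k1, k2, k3, k4, k5, k6⟩ := h.cent t (o2 t a b)
    refine ⟨?_, K.map f, map_le_range _ _, (card_map_of_injective hf).trans k1,
      ⟨t, k2, rfl⟩, ?_, ?_, ?_, ?_⟩
    · rw [← h1, ← card_map_of_injective hf]
      congr 2
      ext y
      rw [mem_inf, mem_centralizer_singleton_iff]
      constructor
      · rintro ⟨⟨x, rfl⟩, hx⟩
        exact ⟨x, mem_centralizer_singleton_iff.2 (hf (by simpa using hx)), rfl⟩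
      · rintro ⟨x, hx, rfl⟩
        exact ⟨⟨x, rfl⟩, by rw [← map_mul, mem_centralizer_singleton_iff.1 hx, map_mul]⟩
    · rintro _ ⟨x, hx, rfl⟩ _ ⟨y, hy, rfl⟩
      rw [← map_mul, k3 x hx y hy, map_mul]
    · rintro _ ⟨x, hx, rfl⟩ h2
      exact (k4 x hx (hf (by simpa using h2))).imp (e1 x).2 (congrArg f)
    · rintro _ ⟨u, rfl⟩ h2 h3
      obtain ⟨h4, h5⟩ := k5 u (hf (by simpa using h2)) fun h => h3 ⟨u, h, rfl⟩
      refine ⟨by rw [← map_mul, h4, map_one], ?_⟩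
      rintro _ ⟨x, hx, rfl⟩
      rw [← map_inv, ← map_inv, ← map_mul, ← map_mul, h5 x hx]
    · rintro _ ⟨x, hx, rfl⟩ h2 h3 _ ⟨y, rfl⟩ h4
      exact ⟨y, k6 x hx (fun h => h2 ((e1 x).2 h)) (fun h => h3 (congrArg f h)) y
        (hf (by simpa using h4)), rfl⟩
  · rintro _ ⟨x, rfl⟩ a b
    have hx : x ≠ 1 := fun h => a ((e1 x).2 h)
    obtain ⟨A, a1, a2, -, a4, u, a5, a6, -⟩ := h.torus x hx (orderOf_injective f hf x ▸ b)
    refine ⟨A.map f, map_le_range _ _, (card_map_of_injective hf).trans a1, ?_, f u, ⟨u, rfl⟩,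
      by rw [← map_mul, a5, map_one], ?_⟩
    · rintro _ ⟨g, rfl⟩ hg
      exact ⟨g, a4 x a2 hx g (hf (by simpa using hg)), rfl⟩
    · rw [← map_inv, ← map_inv, ← map_mul, ← map_mul, a6 x a2]

/-- Type `I` for a subgroup. -/
def GI (M : Subgroup G) : Prop :=
  ∃ O ≤ M, Nm M O ∧ ¬ 2 ∣ Nat.card O ∧ ∃ a, O.relIndex M = 2 ^ a

/-- Type `II` for a subgroup. -/
def GII (M : Subgroup G) : Prop :=
  ∃ B ≤ M, Nm M B ∧ Nat.card B = 4 ∧ (∀ x ∈ B, x * x = 1) ∧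
    ∃ g ∈ M, ¬ 2 ∣ orderOf g ∧ ∃ x ∈ B, g * x ≠ x * g

/-- Type `IV` for a subgroup. -/
def GIV (M : Subgroup G) : Prop :=
  ∃ B ≤ M, Nm M B ∧ Nat.card B = 8 ∧ (∀ x ∈ B, x * x = 1) ∧
    ∃ g ∈ M, (∀ x ∈ B, g ^ 7 * x = x * g ^ 7) ∧ ∃ x ∈ B, g * x ≠ x * g

/-- Type `V` for a subgroup. -/
def GV (M : Subgroup G) : Prop :=
  ∃ L ≤ M, Nm M L ∧ ∃ p k m, GP L p k m ∧
    ∃ Y ≤ M, Y.relIndex M ∣ 2 ∧ L ≤ Y ∧ M ⊓ centralizer L ≤ Y ∧
      ∀ y ∈ Y, ∃ l ∈ L, ∃ z ∈ M ⊓ centralizer L, y = l * z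

lemma nm_map {M : Subgroup G} (X : Subgroup M) (h : X.Normal) : Nm M (X.map M.subtype) := by
  rintro g hg _ ⟨x, hx, rfl⟩
  exact ⟨_, h.conj_mem x hx ⟨g, hg⟩, rfl⟩

lemma rel_map {M : Subgroup G} (X : Subgroup M) : (X.map M.subtype).relIndex M = X.index := by
  rw [relIndex, subgroupOf, comap_map_eq_self_of_injective M.subtype_injective]

namespace Cx

variable (c : Cx G)
include c

lemma types {M : Subgroup G} (hM : M ≠ ⊤) {s t : G} (hs : s ∈ M) (ht : t ∈ M) (s2 : s * s = 1)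
    (t2 : t * t = 1) (st : s * t = t * s) (s1 : s ≠ 1) (t1 : t ≠ 1) (hst : s ≠ t) :
    GI M ∨ GII M ∨ GIV M ∨ GV M := by
  have hnf : ¬ NoFour M := fun h => by
    rcases h ⟨s, hs⟩ ⟨t, ht⟩ (Subtype.ext s2) (Subtype.ext t2) (Subtype.ext st) with h | h | h
    · exact s1 (congrArg Subtype.val h)
    · exact t1 (congrArg Subtype.val h)
    · exact hst (congrArg Subtype.val h)
  have hlt : Nat.card M < Nat.card G :=
    lt_of_le_of_ne M.card_le_card_group fun h => hM (eq_top_of_card_eq _ h)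
  rcases c.ih M (card_subgroup_dvd_card M) hlt with h | h | h | h | h | ⟨p, h⟩ | ⟨p, h⟩ | ⟨p, h⟩
  · obtain ⟨O, h1, h2, a, h3⟩ := h
    exact Or.inl ⟨_, map_subtype_le _, nm_map O h1, by rwa [card_subtype], a, (rel_map O).trans h3⟩
  · obtain ⟨B, h1, h2, h3, g, h4, x, h5, h6⟩ := h
    refine Or.inr (Or.inl ⟨_, map_subtype_le _, nm_map B h1, by rwa [card_subtype], ?_, g, g.2,
      by rwa [orderOf_coe], x, ⟨x, h5, rfl⟩, fun h => h6 (Subtype.ext h)⟩)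
    rintro _ ⟨y, hy, rfl⟩
    exact congrArg Subtype.val (h3 y hy)
  · exact (hnf h.1).elim
  · exact (hnf h.1).elim
  · obtain ⟨B, h1, h2, h3, g, h4, x, h5, h6⟩ := h
    refine Or.inr (Or.inr (Or.inl ⟨_, map_subtype_le _, nm_map B h1, by rwa [card_subtype], ?_, g,
      g.2, ?_, x, ⟨x, h5, rfl⟩, fun h => h6 (Subtype.ext h)⟩))
    · rintro _ ⟨y, hy, rfl⟩
      exact congrArg Subtype.val (h3 y hy)
    · rintro _ ⟨y, hy, rfl⟩
      exact congrArg Subtype.val (h4 y hy)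
  · obtain ⟨L, k, m, h1, h2⟩ := h
    have h3 := gp_of h2 (M.subtype.comp L.subtype) (M.subtype_injective.comp L.subtype_injective)
    rw [MonoidHom.range_comp, range_subtype] at h3
    refine Or.inr (Or.inr (Or.inr ⟨_, map_subtype_le _, nm_map L h1, p, k, m, h3,
      (L ⊔ centralizer (L : Set M)).map M.subtype, map_subtype_le _,
      by rw [rel_map]; exact c.idx M L p k m h2, map_mono le_sup_left, fun z hz => ?_, ?_⟩))
    · exact ⟨⟨z, hz.1⟩, mem_sup_right fun y hy => Subtype.ext (hz.2 y ⟨y, hy, rfl⟩), rfl⟩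
    · rintro _ ⟨y, hy, rfl⟩
      rw [normal_mul] at hy
      obtain ⟨l, hl, z, hz, rfl⟩ := hy
      refine ⟨l, ⟨l, hl, rfl⟩, z, ⟨z.2, ?_⟩, rfl⟩
      rintro _ ⟨x, hx, rfl⟩
      exact congrArg Subtype.val (hz x hx)
  · exact (hnf h.1).elim
  · exact (hnf h.1).elim

lemma four : CondFour (Nat.card G) := c.full.2.2.2.2.2.1 ((by decide : 4 ∣ 8).trans c.h8)

lemma eight : CondEight (Nat.card G) := c.full.2.2.2.2.2.2 c.h8

lemma card_S (S : Sylow 2 G) : Nat.card S = 8 := by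
  have := Fact.mk Nat.prime_two
  rw [S.card_eq_multiplicity]
  have h0 : Nat.card G ≠ 0 := Nat.card_pos.ne'
  have h1 := (Nat.prime_two.pow_dvd_iff_le_factorization (k := 3) h0).1 c.h8
  have h2 : ¬ 4 ≤ (Nat.card G).factorization 2 := fun h =>
    c.four.1 ((Nat.prime_two.pow_dvd_iff_le_factorization (k := 4) h0).2 h)
  rw [show (Nat.card G).factorization 2 = 3 by omega]
  rfl

lemma S_sq (S : Sylow 2 G) {x : G} (hx : x ∈ S) : x * x = 1 :=
  c.sq x (c.card_S S ▸ pow_card_of_mem (Y := (S : Subgroup G)) hx)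

lemma comm_of {a b : G} (ha : a * a = 1) (hb : b * b = 1) (h : (a * b) ^ 8 = 1) :
    a * b = b * a := by
  have h1 := inv_eq_of_mul_eq_one_right (c.sq _ h)
  rw [mul_inv_rev, inv_eq_of_mul_eq_one_right ha, inv_eq_of_mul_eq_one_right hb] at h1
  exact h1.symm

lemma S_comm (S : Sylow 2 G) {x y : G} (hx : x ∈ S) (hy : y ∈ S) : x * y = y * x :=
  c.comm_of (c.S_sq S hx) (c.S_sq S hy)
    (c.card_S S ▸ pow_card_of_mem (Y := (S : Subgroup G)) (mul_mem hx hy))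

lemma comm_of_nm {X : Set G} (hX : ∀ x ∈ X, ∀ y ∈ X, (x * y) ^ 2 = 1) (hX' : ∀ x ∈ X, x * x = 1)
    {t : G} (ht : t * t = 1) (hn : ∀ x ∈ X, t * x * t⁻¹ ∈ X) {b : G} (hb : b ∈ X) :
    t * b = b * t := by
  refine c.comm_of ht (hX' b hb) ?_
  have h1 : (t * b) ^ 2 = t * b * t⁻¹ * b := by
    rw [inv_eq_of_mul_eq_one_right ht, pow_two, mul_assoc (t * b)]
  rw [show 8 = 2 * 2 * 2 from rfl, pow_mul, pow_mul, h1, hX _ (hn b hb) b hb, one_pow]

lemma comm_of_nm' {B : Subgroup G} (hB : ∀ x ∈ B, x * x = 1) {t : G} (ht : t * t = 1)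
    (hn : ∀ x ∈ B, t * x * t⁻¹ ∈ B) {b : G} (hb : b ∈ B) : t * b = b * t :=
  c.comm_of_nm (X := B) (fun x hx y hy => by rw [pow_two]; exact hB _ (mul_mem hx hy)) hB ht hn hb

lemma exists_m : ∃ m, ¬ 2 ∣ m ∧ ∀ g : G, g ^ m * g ^ m = 1 := by
  have := Fact.mk Nat.prime_two
  obtain ⟨S⟩ : Nonempty (Sylow 2 G) := inferInstance
  refine ⟨(S : Subgroup G).index, S.not_dvd_index, fun g => c.sq _ ?_⟩
  rw [← pow_mul, mul_comm, ← c.card_S S, card_mul_index, pow_card_eq_one']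

lemma mem_S (S : Sylow 2 G) {x : G} (hn : ∀ y ∈ S, x * y * x⁻¹ ∈ S) (hx : x * x = 1) : x ∈ S := by
  have := Fact.mk Nat.prime_two
  exact mem_of_nm' (Y := (S : Subgroup G)) hn
    ((Nat.Prime.coprime_iff_not_dvd Nat.prime_two).2 S.not_dvd_index) (by rw [pow_two, hx])

lemma mem_S' (S : Sylow 2 G) {x : G} (hn : ∀ y ∈ S, y * x = x * y) (hx : x * x = 1) : x ∈ S :=
  c.mem_S S (fun y hy => by rwa [← hn y hy, mul_inv_cancel_right]) hx

omit c in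
lemma exists_S {x : G} (hx : x * x = 1) : ∃ S : Sylow 2 G, x ∈ S := by
  have := Fact.mk Nat.prime_two
  have hT : IsPGroup 2 (zpowers x) := IsPGroup.of_card_dvd_pow (n := 1) (by
    rw [Nat.card_zpowers]; exact orderOf_dvd_of_pow_eq_one (by rw [pow_one, pow_two, hx]))
  obtain ⟨S, hS⟩ := hT.exists_le_sylow
  exact ⟨S, hS (mem_zpowers x)⟩

lemma eq_S (S : Sylow 2 G) {B : Subgroup G} (h8 : Nat.card B = 8) (hB : ∀ x ∈ B, x * x = 1)
    (hn : Nm S B) : B = S :=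
  eq_of_le_of_card_ge (fun b hb => c.mem_S' S
    (fun y hy => c.comm_of_nm' hB (c.S_sq S hy) (hn y hy) hb) (hB b hb))
    (by rw [h8]; exact (c.card_S S).le)

lemma nm_ne_top {X : Set G} {Y : Subgroup G} (hY : Y ≠ ⊤) (hXY : X ⊆ Y) {x : G} (hx : x ∈ X)
    (h1 : x ≠ 1) : normalizer X ≠ ⊤ := fun h => by
  have := c.simple
  have h2 : x ∈ Y.normalCore := fun g =>
    hXY ((mem_set_normalizer_iff.1 (h ▸ mem_top g : g ∈ normalizer X) x).1 hx)
  rcases Y.normalCore_normal.eq_bot_or_eq_top with e | e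
  · exact h1 (mem_bot.1 (e ▸ h2))
  · exact hY (top_le_iff.1 (e ▸ Y.normalCore_le))

lemma ne_top_of_comm {Y : Subgroup G} (h : ∀ x ∈ Y, ∀ y ∈ Y, x * y = y * x) : Y ≠ ⊤ := by
  rintro rfl
  obtain ⟨t, -, ht⟩ := exists_order (X := (⊤ : Subgroup G)) Nat.prime_two
    (by rw [card_top]; exact (by decide : 2 ∣ 8).trans c.h8)
  refine c.nm_ne_top (X := {t}) (Y := zpowers t) (fun e => ?_)
    (Set.singleton_subset_iff.2 (mem_zpowers t)) rfl (sq_of_order ht).2 ?_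
  · have h1 := c.h8
    rw [← card_top, ← e, Nat.card_zpowers, ht] at h1
    omega
  · refine eq_top_iff.2 fun g _ => mem_normalizer_fintype ?_
    rintro _ rfl
    rw [h g trivial _ trivial, mul_inv_cancel_right]
    rfl

lemma zp_ne_top (x : G) : zpowers x ≠ ⊤ := c.ne_top_of_comm (by
  rintro _ ⟨i, rfl⟩ _ ⟨j, rfl⟩
  exact zpow_mul_comm x i j)

lemma nm_zp_ne_top {x : G} (h : x ≠ 1) : normalizer (zpowers x : Set G) ≠ ⊤ :=
  c.nm_ne_top (c.zp_ne_top x) subset_rfl (mem_zpowers x) h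

lemma cent_ne_top {x : G} (h : x ≠ 1) : centralizer ({x} : Set G) ≠ ⊤ := fun e =>
  c.nm_ne_top (X := {x}) (c.zp_ne_top x) (Set.singleton_subset_iff.2 (mem_zpowers x)) rfl h
    (top_le_iff.1 (e ▸ centralizer_le_normalizer _))

lemma mem_comm (x : G) : x ∈ commutator G := by
  have := c.simple
  rcases (inferInstance : (commutator G).Normal).eq_bot_or_eq_top with e | e
  · refine (c.ne_top_of_comm (Y := ⊤) (fun a _ b _ => ?_) rfl).elim
    exact commutatorElement_eq_one_iff_mul_comm.1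
      (mem_bot.1 (e ▸ commutator_mem_commutator (mem_top a) (mem_top b)))
  · exact e ▸ mem_top x

lemma card_dvd_sq {r : ℕ} (hr : r.Prime) (h2 : r ≠ 2) {Q : Subgroup G} (hQ : IsPGroup r Q) :
    Nat.card Q ∣ r ^ 2 := by
  have := Fact.mk hr
  obtain ⟨k, hk⟩ := hQ.exists_card_eq
  rw [hk]
  refine pow_dvd_pow _ (not_lt.1 fun h => c.full.1 r hr h2 ?_)
  exact (pow_dvd_pow r h).trans (hk ▸ card_subgroup_dvd_card Q)

lemma p_comm {r : ℕ} (hr : r.Prime) (h2 : r ≠ 2) (Q : Subgroup G) (hQ : IsPGroup r Q) :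
    ∀ x ∈ Q, ∀ y ∈ Q, x * y = y * x := fun x hx y hy =>
  congrArg Subtype.val (comm_of_card (R := Q) hr (c.card_dvd_sq hr h2 hQ) ⟨x, hx⟩ ⟨y, hy⟩)

end Cx

end Pool.Agent.Lib.MP_cb9dee_al.J
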