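import Pool.Agent.Lib.MP_cb9dee_al.JFour

/-! The case `|C(t)| = 120`: local structure. -/

set_option linter.unusedSectionVars false

namespace Pool.Agent.Lib.MP_cb9dee_al.J

open Subgroup

variable {G : Type} [Group G] [Finite G]

lemma card_eq_prime {q : ℕ} (hq : q.Prime) {R X : Subgroup G} (hR : IsPGroup q R) (h : R ≤ X)
    (hi : ¬ q ∣ R.relIndex X) (hd : q ∣ Nat.card X) (h2 : ¬ q ^ 2 ∣ Nat.card G) :
    Nat.card R = q := by
  have := Fact.mk hq
  obtain ⟨j, hj⟩ := hR.exists_card_eq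
  have h1 : ¬ 2 ≤ j := fun e => h2 ((pow_dvd_pow q e).trans (hj ▸ card_subgroup_dvd_card R))
  have h3 : j ≠ 0 := by
    rintro rfl
    rw [← card_mul_rel h, hj, pow_zero, one_mul] at hd
    exact hi hd
  rw [hj, show j = 1 by omega, pow_one]

lemma dvd_cent {x y : G} (h : x ∈ centralizer ({y} : Set G)) :
    orderOf y ∣ Nat.card (centralizer {x} : Subgroup G) :=
  Subgroup.orderOf_dvd_natCard _
    (mem_centralizer_singleton_iff.2 (mem_centralizer_singleton_iff.1 h).symm)

lemma nm_cent {g y : G} (h : g * y * g⁻¹ ∈ zpowers y) :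
    ∀ b ∈ centralizer ({y} : Set G), g * b * g⁻¹ ∈ centralizer ({y} : Set G) := fun b hb =>
  mem_centralizer_singleton_iff.2 (by
    have a9 : g⁻¹ * y * g ∈ centralizer ({b} : Set G) := zpowers_le_of_mem
      (mem_centralizer_singleton_iff.2 (mem_centralizer_singleton_iff.1 hb).symm)
      ((mem_normalizer_iff''.1 (mem_normalizer_fintype (nm_zp h)) y).1 (mem_zpowers y))
    have := (conj_comm_iff g b _).2 (mem_centralizer_singleton_iff.1 a9)
    simpa [mul_assoc] using this.symm)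

namespace C2

variable {S : Sylow 2 G} {t : G} {L : Subgroup G} (c : C2 S t L 5 2 3)
include c

lemma card_cent {s : G} (s2 : s * s = 1) (s1 : s ≠ 1) :
    Nat.card (centralizer {s} : Subgroup G) = 120 := by
  obtain ⟨g, rfl⟩ := c.conj_all c.t2 c.t1 s2 s1
  rw [← card_cent_conj, c.card_H]

lemma ncard_32 {s : G} (s2 : s * s = 1) (s1 : s ≠ 1) :
    Set.ncard {x | x ∈ centralizer ({s} : Set G) ∧ x * x = 1} = 32 := by
  obtain ⟨g, rfl⟩ := c.conj_all c.t2 c.t1 s2 s1
  obtain ⟨v, hv, hv', v1, -⟩ := c.pick 1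
  have v2 := c.S_sq S hv
  have h1 := ncard_sq hv' v2 v1 fun x hx x2 x1 => c.gp.conj v hv' x hx v2 v1 x2 x1
  have h2 := card_mul_rel (inf_le_left : L ⊓ centralizer {v} ≤ L)
  rw [(c.gp.cent v hv' v2 v1).1, c.gp.card, inf_relIndex_left] at h2
  have h3 : {x | x ∈ centralizer ({t} : Set G) ∧ x * x = 1} =
      {x | x ∈ L ∧ x * x = 1} ∪ (· * t) '' {x | x ∈ L ∧ x * x = 1} := by
    have key : ∀ x ∈ centralizer ({t} : Set G), x * t * (x * t) = x * x := fun x hx => by
      rw [mul_assoc, ← mul_assoc t, ← mem_centralizer_singleton_iff.1 hx, mul_assoc, c.t2, mul_one]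
    ext x
    constructor
    · rintro ⟨a, b⟩
      exact (c.dec a).imp (fun e => ⟨e, b⟩) fun e =>
        ⟨x * t, ⟨e, (key x a).trans b⟩, by simp only; rw [mul_assoc, c.t2, mul_one]⟩
    · rintro (⟨a, b⟩ | ⟨y, ⟨a, b⟩, rfl⟩)
      · exact ⟨c.hL a, b⟩
      · exact ⟨mul_mem (c.hL a) c.tH, (key y (c.hL a)).trans b⟩
  have h4 : Set.ncard {x | x ∈ centralizer ({t} : Set G) ∧ x * x = 1} = 32 := by
    rw [h3, Set.ncard_union_eq (Set.disjoint_left.2 (by
      rintro _ h ⟨y, hy, rfl⟩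
      exact c.t_not ((mul_mem_cancel_left hy.1).1 h.1))),
      Set.ncard_image_of_injective _ (mul_left_injective t), h1]
    omega
  rw [← h4, eq_comm]
  refine Set.ncard_congr' ((MulAut.conj g).toEquiv.subtypeEquiv fun x => and_congr ?_ ?_)
  · rw [mem_centralizer_singleton_iff, mem_centralizer_singleton_iff]
    exact (conj_comm_iff g t x).symm
  · change _ ↔ g * x * g⁻¹ * (g * x * g⁻¹) = 1
    rw [conj_mul]
    simp

lemma cent_three_L {w : G} (hw : w ∈ L) (ho : orderOf w = 3) :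
    Nat.card (centralizer {w} : Subgroup G) ∣ 30 := by
  have := Fact.mk Nat.prime_two
  have w1 : w ≠ 1 := by rintro rfl; simp at ho
  obtain ⟨A, -, a2, a3, u, hu, u2, huw⟩ := c.gp.torus w hw w1 (by rw [ho]; decide)
  have htw : t ∈ centralizer ({w} : Set G) :=
    mem_centralizer_singleton_iff.2 (mem_centralizer_singleton_iff.1 (c.hL hw)).symm
  have h4 : ¬ 4 ∣ Nat.card (centralizer {w} : Subgroup G) := by
    obtain ⟨Q, q1, q2, q3, q4⟩ := sylow_in (isP_zp (q := 2) (by rw [pow_two, c.t2]))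
      (zpowers_le_of_mem htw)
    have ht := q1 (mem_zpowers t)
    have key : ∀ x ∈ Q, x ∈ L → x = 1 := fun x hx hx' => eq_one_of_odd (O := A) (by rw [a2]; decide)
      (a3 x hx' (mem_centralizer_singleton_iff.1 (q2 hx))) (c.two_comm q3 hx hx).1
    have h1 : Nat.card Q ∣ Nat.card (zpowers t) := card_dvd_of_le fun x hx => by
      rcases c.dec (mem_centralizer_singleton_iff.2 (c.two_comm q3 hx ht).2) with e | e
      · exact key x hx e ▸ one_mem _
      · exact eq_inv_of_mul_eq_one_left (key _ (mul_mem hx ht) e) ▸ inv_mem (mem_zpowers t)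
    rw [Nat.card_zpowers, order_two c.t2 c.t1] at h1
    rw [← card_mul_rel q2]
    rcases (Nat.dvd_prime Nat.prime_two).1 h1 with e | e <;> rw [e] <;> omega
  refine dvd_of_primes (fun q hq h => ?_) fun q hq h => by_contra fun h30 => ?_
  · by_cases e : q = 2
    · exact h4 (by simpa [e] using h)
    · exact c.sqfree hq e (h.trans (card_subgroup_dvd_card _))
  have := Fact.mk hq
  have q2 : q ≠ 2 := by rintro rfl; exact h30 (by decide)
  obtain ⟨O0, o1, o2, o3⟩ := exists_odd_part h4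
  rw [← card_subtype] at o2
  rw [← rel_map] at o3
  have o4 := nm_map O0 o1
  have o5 := map_subtype_le O0
  generalize O0.map (centralizer ({w} : Set G)).subtype = O at o2 o3 o4 o5
  have huO : u ∈ normalizer (O : Set G) := mem_normalizer_fintype fun x hx =>
    mem_of_nm o5 o4 (nm_cent (huw ▸ inv_mem (mem_zpowers w)) x (o5 hx)) (d := Nat.card O)
      (((Nat.Prime.coprime_iff_not_dvd Nat.prime_two).2 o2).symm.coprime_dvd_right o3)
      (by rw [conj_pow, pow_card_of_mem hx]; simp)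
  have hut := mem_centralizer_singleton_iff.1 (c.hL hu)
  have hT : IsPGroup 2 (zpowers t ⊔ zpowers u : Subgroup G) :=
    (isP_zp (by rw [pow_two, c.t2])).to_sup_of_normal_right' (isP_zp (by rw [pow_two, u2]))
      (zpowers_le_of_mem (mem_normalizer_fintype (nm_zp (by
        rw [← hut, mul_inv_cancel_right]; exact mem_zpowers u))))
  obtain ⟨R, r1, r2, r3, r4⟩ := inv_sylow q hT (fun g hg x => (mem_normalizer_iff.1
    (sup_le (zpowers_le_of_mem (mem_normalizer_fintype (o4 t htw))) (zpowers_le_of_mem huO) hg)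
      x).1) o2
  have hR := card_eq_prime hq r2 r1 r3 (((card_mul_rel o5 ▸ h : q ∣ _ * _) |> hq.dvd_mul.1
    ).resolve_right fun e => q2 ((Nat.prime_dvd_prime_iff_eq hq Nat.prime_two).1 (e.trans o3)))
    (c.sqfree hq q2)
  have key : ∀ s : G, s * s = 1 → s ≠ 1 → Nat.card (R ⊓ centralizer {s} : Subgroup G) = 1 :=
    fun s s2 s1 => ((Nat.dvd_prime hq).1 (hR ▸ card_dvd_of_le inf_le_left)).resolve_right fun e => by
      have h1 := card_dvd_of_le (inf_le_right : R ⊓ centralizer {s} ≤ _)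
      rw [e, c.card_cent s2 s1, show 120 = 30 * 2 ^ 2 from rfl, hq.dvd_mul] at h1
      exact h1.elim h30 fun e =>
        q2 ((Nat.prime_dvd_prime_iff_eq hq Nat.prime_two).1 (hq.dvd_of_dvd_pow e))
  have u1 : u ≠ 1 := by
    rintro rfl
    exact w1 (eq_one_of_eq_inv (by rw [ho]; decide) (by simpa using huw))
  have h5 := four_cent hq q2 (c.card_dvd_sq hq q2 r2) c.t2 u2 hut.symm
    (r4 t (mem_sup_left (mem_zpowers t))) (r4 u (mem_sup_right (mem_zpowers u)))
    (by rw [key t c.t2 c.t1, key u u2 u1])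
    (by rw [key t c.t2 c.t1, key (t * u)
      (by rw [mul_assoc, ← mul_assoc u, hut, mul_assoc, u2, mul_one, c.t2])
      fun e => c.t_not (eq_inv_of_mul_eq_one_left e ▸ inv_mem hu)])
  have h6 := key t c.t2 c.t1
  rw [inf_eq_left.2 fun y hy => mem_centralizer_singleton_iff.2 (h5 y hy).symm, hR] at h6
  exact hq.one_lt.ne' h6

lemma cent_three {w : G} (ho : orderOf w = 3) : Nat.card (centralizer {w} : Subgroup G) ∣ 30 := by
  have := Fact.mk Nat.prime_three
  obtain ⟨z, hz, hz'⟩ := exists_order (X := L) Nat.prime_three (by rw [c.gp.card]; decide)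
  obtain ⟨g, -, hg⟩ := sylow_conj (X := ⊤) (isP_zp (ho ▸ pow_orderOf_eq_one w))
    (isP_zp (hz' ▸ pow_orderOf_eq_one z)) le_top
    (by rw [relIndex_top_right]; exact not_dvd_zp hz' c.eight.1)
  rw [card_cent_conj g]
  exact c.cent_three_L (zpowers_le_of_mem hz (hg w (mem_zpowers w)))
    ((orderOf_injective (MulAut.conj g).toMonoidHom (MulAut.conj g).injective w).trans ho)

lemma cent_seven {s w : G} (hs : orderOf s = 7) (ho : orderOf w = 3)
    (h : w * s * w⁻¹ ∈ zpowers s) : Nat.card (centralizer {s} : Subgroup G) ∣ 35 := by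
  have := Fact.mk Nat.prime_three
  have w3 : w ^ 3 = 1 := ho ▸ pow_orderOf_eq_one w
  have h2 : ¬ 2 ∣ Nat.card (centralizer {s} : Subgroup G) := fun e => by
    obtain ⟨x, hx, hx'⟩ := exists_order Nat.prime_two e
    have := dvd_cent hx
    rw [hs, c.card_cent (sq_of_order hx').1 (sq_of_order hx').2] at this
    omega
  have h3 : ¬ 3 ∣ Nat.card (centralizer {s} : Subgroup G) := fun e => by
    obtain ⟨x, hx, hx'⟩ := exists_order Nat.prime_three e
    have := (hs ▸ dvd_cent hx).trans (c.cent_three hx')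
    omega
  refine dvd_of_primes (fun q hq e => ?_) fun q hq e => by_contra fun h35 => ?_
  · exact c.sqfree hq (by rintro rfl; exact h2 ((dvd_pow_self 2 two_ne_zero).trans e))
      (e.trans (card_subgroup_dvd_card _))
  have := Fact.mk hq
  have q2 : q ≠ 2 := by rintro rfl; exact h2 e
  have q3 : q ≠ 3 := by rintro rfl; exact h3 e
  obtain ⟨R, r1, r2, r3, r4⟩ := inv_sylow q (isP_zp w3) (fun g hg x => (mem_normalizer_iff.1
    (zpowers_le_of_mem (mem_normalizer_fintype (nm_cent h)) hg) x).1) h3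
  have hR := card_eq_prime hq r2 r1 r3 e (c.sqfree hq q2)
  have h4 := (hR ▸ card_dvd_of_le (le_cent_of_mod hq hR (c.mod_three hq
    (e.trans (card_subgroup_dvd_card _)) q3 (by rintro rfl; exact h35 (by decide)))
    (r4 w (mem_zpowers w)) w3)).trans (c.cent_three ho)
  rw [show 30 = 2 * (3 * 5) from rfl, hq.dvd_mul, hq.dvd_mul] at h4
  rcases h4 with e | e | e
  · exact q2 ((Nat.prime_dvd_prime_iff_eq hq Nat.prime_two).1 e)
  · exact q3 ((Nat.prime_dvd_prime_iff_eq hq Nat.prime_three).1 e)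
  · exact h35 (e.trans (by decide))

lemma card_N : Nat.card (NS S) = 168 := by
  obtain ⟨v, hv, hv', v1, -⟩ := c.pick 1
  obtain ⟨u, hu, hu', u1, uv⟩ := c.pick v
  obtain ⟨w, w1, w2, -, w4, w5⟩ := c.exists_w hv hv' v1 hu hu' u1 uv
  have hc : ∀ g ∈ NS S, g ∈ centralizer ({t} : Set G) → ∀ x ∈ S, x ∈ L → x ≠ 1 →
      g * x * g⁻¹ = v ∨ g * x * g⁻¹ = u ∨ g * x * g⁻¹ = v * u := fun g g1 g2 x x1 x2 x3 =>
    (c.cases hv hv' v1 hu hu' u1 uv (c.hn g g2 x x2) (c.S_comm S (conj_mem_S g1 x1) hv)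
      (c.S_comm S (conj_mem_S g1 x1) hu)).resolve_left (conj_ne_one x3)
  have h1 : (centralizer {v}).relIndex (centralizer {t} ⊓ NS S) = 3 := by
    rw [rel_cent, Set.ncard_eq_three]
    refine ⟨v, u, v * u, uv.symm, fun e => u1 (by simpa using e), fun e => v1 (by simpa using e),
      Set.ext fun x => ⟨?_, ?_⟩⟩
    · rintro ⟨g, hg, rfl⟩
      exact hc g hg.2 hg.1 v hv hv' v1
    · rintro (rfl | rfl | rfl)
      · exact ⟨1, one_mem _, by simp⟩
      · exact ⟨w, ⟨w2, w1⟩, w4⟩
      · exact ⟨w * w, mul_mem ⟨w2, w1⟩ ⟨w2, w1⟩, by rw [← w5, ← w4]; group⟩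
  have h2 : centralizer {v} ⊓ (centralizer {t} ⊓ NS S) = S := by
    refine le_antisymm (fun g hg => c.cent_S' hg.2.1 fun s hs hs' => ?_)
      (le_inf (c.S_le_cent S hv) (le_inf (c.S_le_cent S c.ht) le_normalizer))
    have a1 := conj_eq_iff.2 hg.1
    have a2 : g * u * g⁻¹ = u := by
      rcases hc g hg.2.2 hg.2.1 u hu hu' u1 with e | e | e
      · rw [← a1, mul_left_inj, mul_right_inj] at e
        exact (uv e).elim
      · exact e
      · obtain ⟨j, j1, j2⟩ := c.exists_m
        have a3 := odd_pow_conj e (by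
          rw [← conj_mul, a1, e, ← mul_assoc, c.S_sq S hv, one_mul]) j1
        rw [c.S_comm S (c.mem_of_NS S (pow_mem hg.2.2 j) (j2 g)) hu, mul_inv_cancel_right] at a3
        exact (v1 (by simpa using a3)).elim
    rw [eq_comm, ← mul_inv_eq_iff_eq_mul]
    rcases c.cases hv hv' v1 hu hu' u1 uv hs' (c.S_comm S hs hv) (c.S_comm S hs hu)
      with e | e | e | e <;> rw [e]
    · simp
    · exact a1
    · exact a2
    · rw [← conj_mul, a1, a2]
  have h3 := card_mul_rel (inf_le_right : centralizer {v} ⊓ (centralizer {t} ⊓ NS S) ≤ _)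
  have h4 := card_mul_rel (inf_le_right : centralizer {t} ⊓ NS S ≤ _)
  rw [inf_relIndex_right, h1, h2, c.card_S] at h3
  rw [inf_relIndex_right, c.rel_seven S c.ht c.t1, ← h3] at h4
  exact h4.symm

end C2

end Pool.Agent.Lib.MP_cb9dee_al.J
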