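import Pool.Agent.Lib.MP_cb9dee_al.JThree

/-! The case where `C(t)` has type `V`: reduction to `p = 5`. -/

set_option linter.unusedSectionVars false

namespace Pool.Agent.Lib.MP_cb9dee_al.J

open Subgroup

variable {G : Type} [Group G] [Finite G]

lemma le_cent_of_mod {R : Subgroup G} {q : ℕ} (hq : q.Prime) (hR : Nat.card R = q) (h3 : q % 3 = 2)
    {w : G} (hn : ∀ y ∈ R, w * y * w⁻¹ ∈ R) (hw : w ^ 3 = 1) : R ≤ centralizer {w} := by
  have h1 := card_modEq hn Nat.prime_three hw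
  have h2 := card_dvd_of_le (inf_le_left : R ⊓ centralizer {w} ≤ R)
  rw [hR] at h1 h2
  rcases (Nat.dvd_prime hq).1 h2 with e | e
  · rw [e] at h1
    unfold Nat.ModEq at h1
    omega
  · exact inf_eq_left.1 (eq_of_le_of_card_ge inf_le_left (by rw [e, hR]))

lemma ncard_four (a b c d : G) : ({a, b, c, d} : Set G).ncard ≤ 4 :=
  ((Set.ncard_insert_le _ _).trans (Nat.succ_le_succ ((Set.ncard_insert_le _ _).trans
    (Nat.succ_le_succ (Set.ncard_insert_le _ _))))).trans (by simp)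

lemma GP.p_dvd {L : Subgroup G} {p k m : ℕ} (h : GP L p k m) : p ∣ Nat.card G :=
  (h.card ▸ (dvd_mul_left _ _).trans (dvd_mul_right _ _) : p ∣ Nat.card L).trans
    (card_subgroup_dvd_card L)

namespace C2

variable {S : Sylow 2 G} {t : G} {L : Subgroup G} {p k m : ℕ} (c : C2 S t L p k m)
include c

lemma card_H : Nat.card (centralizer {t} : Subgroup G) = 2 * k * p * m * 2 := by
  rw [← card_mul_rel c.hL, c.rel_two, c.gp.card]

lemma order_w {w v : G} (hv : v ∈ L) (w3 : w ^ 3 = 1) (h1 : w * t * w⁻¹ = v) : orderOf w = 3 :=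
  orderOf_eq_prime (hp := ⟨Nat.prime_three⟩) w3 (by
    rintro rfl
    exact c.t_not (by rwa [← h1, one_mul, inv_one, mul_one] at hv))

lemma three_dvd : 3 ∣ Nat.card G := by
  obtain ⟨w, v, -, hv, -, w3, h1, -⟩ := c.exists_w'
  exact c.order_w hv w3 h1 ▸ orderOf_dvd_natCard w

lemma mod_three {q : ℕ} (hq : q.Prime) (h : q ∣ Nat.card G) (h3 : q ≠ 3) (h7 : q ≠ 7) :
    q % 3 = 2 := by
  have h1 : ¬ 3 ∣ q := fun e => h3 ((Nat.prime_dvd_prime_iff_eq Nat.prime_three hq).1 e).symm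
  have h2 : ¬ 3 ∣ q - 1 := fun e => h7 (c.full.2.2.2.1 c.three_dvd ⟨hq, h, e⟩
    ⟨by norm_num, c.seven_dvd, by norm_num⟩)
  omega

omit c in
lemma nm_C {w v : G} (h1 : w * t * w⁻¹ = v) (h2 : w * v * w⁻¹ = t * v) :
    ∀ y ∈ (centralizer {t} ⊓ centralizer {v} : Subgroup G),
      w * y * w⁻¹ ∈ (centralizer {t} ⊓ centralizer {v} : Subgroup G) := fun y hy => by
  have h3 := (conj_comm_iff w t y).2 (mem_centralizer_singleton_iff.1 hy.1)
  have h4 := (conj_comm_iff w v y).2 (mem_centralizer_singleton_iff.1 hy.2)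
  rw [h1] at h3
  rw [h2, ← mul_assoc _ t, mul_assoc t v, ← h3, ← mul_assoc t, mul_left_inj] at h4
  exact ⟨mem_centralizer_singleton_iff.2 h4, mem_centralizer_singleton_iff.2 h3⟩

lemma p_eq : p = 2 * k + 1 ∧ m = k + 1 ∧ ¬ 3 ∣ k ∧ ¬ 4 ∣ k := by
  obtain ⟨w, v, hv, hv', v1, w3, h1, h2⟩ := c.exists_w'
  obtain ⟨-, K, k1, k2, k3, k4, -⟩ := c.gp.cent v hv' (c.S_sq S hv) v1
  have h3 : ¬ 3 ∣ k := fun h => by
    have h4 : K ≤ centralizer {t} ⊓ centralizer {v} :=
      le_inf (k1.trans c.hL) fun x hx => mem_centralizer_singleton_iff.2 (k4 x hx v k3)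
    have h5 := mem_of_nm' (nm_C h1 h2) ((Nat.Prime.coprime_iff_not_dvd Nat.prime_three).2 fun e =>
      c.eight.1 (card_mul_index (centralizer {t} ⊓ centralizer {v} : Subgroup G) ▸
        mul_dvd_mul ((k2 ▸ h).trans (card_dvd_of_le h4)) e)) w3
    exact c.t_not (by rwa [← h1, conj_eq_iff.2 h5.1] at hv')
  have h4 : ¬ 4 ∣ k := by
    rintro ⟨j, rfl⟩
    exact c.four.1 (Dvd.dvd.trans ⟨j * p * m, by rw [c.card_H]; ring⟩
      (card_subgroup_dvd_card (centralizer {t})))
  have h5 := c.gp.five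
  have h6 := c.gp.even
  have h7 := c.gp.par
  have h8 := c.mod_three c.gp.prime c.gp.p_dvd (by omega) (by omega)
  omega

lemma sqfree {r : ℕ} (hr : r.Prime) (h2 : r ≠ 2) : ¬ r ^ 2 ∣ Nat.card G := fun h => by
  have h1 := c.four.2.2.1 r hr h2 h
  have h3 := c.full.2.1 r 3 hr Nat.prime_three (by decide) c.three_dvd h h2
  have h4 : ¬ 3 ∣ r := fun e => by
    rw [← (Nat.prime_dvd_prime_iff_eq Nat.prime_three hr).1 e] at h
    exact c.eight.1 h
  have h5 := hr.eq_two_or_odd.resolve_left h2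
  have h6 := c.p_eq.1
  have h7 := c.gp.even
  have h8 : r % 3 = 2 := by omega
  have h9 : r % 4 = 3 := by omega
  clear h1 h3 h4 h5
  exact c.four.2.2.2.2.2 c.three_dvd r 7 p hr (by norm_num) c.gp.prime h (by omega) c.seven_dvd
    (by norm_num) c.gp.p_dvd (by omega)

lemma mod_four {q : ℕ} (hq : q.Prime) (h : q ∣ Nat.card G) (h4 : 4 ∣ q - 1) : q = p := by
  have h6 := c.p_eq.1
  have h7 := c.gp.even
  exact c.four.2.1 ⟨hq, h, h4⟩ ⟨c.gp.prime, c.gp.p_dvd, by omega⟩

theorem k_two : k = 2 := by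
  by_contra hk
  have := Fact.mk Nat.prime_two
  obtain ⟨hp, -, hk3, hk4⟩ := c.p_eq
  obtain ⟨j, hj⟩ := c.gp.even
  obtain ⟨r, hr, hrj⟩ := Nat.exists_prime_and_dvd (n := j) (by omega)
  have := Fact.mk hr
  have hrk : r ∣ k := hj ▸ hrj.mul_left 2
  have r2 : r ≠ 2 := by rintro rfl; omega
  have ro := hr.eq_two_or_odd.resolve_left r2
  obtain ⟨w, v, hv, hv', v1, w3, h1, h2⟩ := c.exists_w'
  have v2 := c.S_sq S hv
  obtain ⟨-, K, k1, k2, k3, k4, k5, k6, k7⟩ := c.gp.cent v hv' v2 v1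
  obtain ⟨y, hy, ho⟩ := exists_order hr (k2 ▸ hrk : r ∣ Nat.card K)
  have hyr : y ^ r = 1 := ho ▸ pow_orderOf_eq_one y
  have hidx := not_dvd_zp ho (c.sqfree hr r2)
  have r3 : r % 3 = 2 := c.mod_three hr (ho ▸ orderOf_dvd_natCard y) (by rintro rfl; exact hk3 hrk)
    (by rintro rfl; exact c.eight.2.2.2.2 c.seven_dvd p c.gp.prime c.gp.p_dvd (by omega))
  have y1 : y ≠ 1 := by rintro rfl; exact hr.one_lt.ne (by simpa using ho)
  have yv : y ≠ v := by rintro rfl; exact r2 (ho.symm.trans (order_two v2 v1))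
  have hKt : ∀ x ∈ K, x * t = t * x := fun x hx => mem_centralizer_singleton_iff.1 (c.hL (k1 hx))
  have hty : t ∈ centralizer ({y} : Set G) := mem_centralizer_singleton_iff.2 (hKt y hy).symm
  have hvy : v ∈ centralizer ({y} : Set G) := mem_centralizer_singleton_iff.2 (k4 v k3 y hy)
  have hE : ∀ x, x * t = t * x → x ∈ centralizer ({y} : Set G) → ∃ a ∈ K, x = a ∨ x = t * a :=
    fun x hx hx' => by
      rcases c.dec (mem_centralizer_singleton_iff.2 hx) with e | e
      · exact ⟨x, k7 y hy y1 yv x e (mem_centralizer_singleton_iff.1 hx'), Or.inl rfl⟩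
      · exact ⟨x * t, k7 y hy y1 yv _ e (mem_centralizer_singleton_iff.1 (mul_mem hx' hty)),
          Or.inr (by rw [hx, ← mul_assoc, c.t2, one_mul])⟩
  have commE : ∀ x z, x * t = t * x → x ∈ centralizer ({y} : Set G) → z * t = t * z →
      z ∈ centralizer ({y} : Set G) → x * z = z * x := fun x z a1 a2 a3 a4 => by
    obtain ⟨a, ha, e⟩ := hE x a1 a2
    obtain ⟨b, hb, e'⟩ := hE z a3 a4
    have b1 : Commute a b := k4 a ha b hb
    have b2 : Commute a t := hKt a ha
    have b3 : Commute t b := (hKt b hb).symm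
    rcases e with rfl | rfl <;> rcases e' with rfl | rfl
    exacts [b1, b2.mul_right b1, b3.mul_left b1,
      ((Commute.refl t).mul_right b3).mul_left (b2.mul_right b1)]
  have sqE : ∀ x, x * t = t * x → x ∈ centralizer ({y} : Set G) → x * x = 1 →
      x ∈ ({1, v, t, t * v} : Set G) := fun x a1 a2 a3 => by
    obtain ⟨a, ha, rfl | rfl⟩ := hE x a1 a2
    · rcases k5 x ha a3 with e | e <;> simp [e]
    · rw [mul_assoc, ← mul_assoc a, hKt a ha, mul_assoc, ← mul_assoc, c.t2, one_mul] at a3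
      rcases k5 a ha a3 with e | e <;> simp [e]
  have hwy : w ∈ centralizer ({y} : Set G) := by
    have a1 := nm_C h1 h2 y ⟨c.hL (k1 hy), mem_centralizer_singleton_iff.2 (k4 y hy v k3)⟩
    have a2 : (w * y * w⁻¹) ^ r = 1 := by rw [conj_pow, hyr]; simp
    have a3 : w * y * w⁻¹ ∈ K := by_contra fun e => conj_ne_one y1 (mem_bot.1 (mem_of_coprime
      (H := ⊥) (a := 2) (b := r) (by
        rw [pow_two, (k6 _ (c.mem_L a1.1 (by omega) a2)
          (mem_centralizer_singleton_iff.1 a1.2) e).1]; exact one_mem _)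
      (a2 ▸ one_mem _) ((Nat.coprime_primes Nat.prime_two hr).2 r2.symm)))
    have a4 : w * y * w⁻¹ ∈ zpowers y := mem_of_nm' (nm_zp (by
      rw [k4 _ a3 y hy, mul_inv_cancel_right]; exact mem_zpowers y))
      ((Nat.Prime.coprime_iff_not_dvd hr).2 hidx) a2
    exact mem_centralizer_singleton_iff.2 (mem_centralizer_singleton_iff.1 (le_cent_of_mod hr
      ((Nat.card_zpowers y).trans ho) r3 (nm_zp a4) w3 (mem_zpowers y))).symm
  have hw := c.order_w hv' w3 h1
  have tv : t ≠ v := fun e => c.t_not (e ▸ hv')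
  have hB : ∀ B : Subgroup G, B ≤ centralizer {y} → Nm (centralizer {y}) B → (∀ x ∈ B, x * x = 1) →
      (B : Set G) ⊆ {1, v, t, t * v} := fun B b1 b2 b3 x hx =>
    sqE x (c.comm_of_nm' b3 c.t2 (b2 t hty) hx).symm (b1 hx) (b3 x hx)
  rcases c.types (c.cent_ne_top y1) hty hvy c.t2 v2 (c.S_comm S c.ht hv) c.t1 v1 tv
    with h | h | h | h
  · exact tv ((h.fix hwy (by omega) hty c.t2 (by rw [h1, c.S_comm S hv c.ht])).symm.trans h1)
  · obtain ⟨B, b1, b2, b3, b4, -⟩ := h
    have b5 : (B : Set G) = {1, v, t, t * v} := Set.eq_of_subset_of_ncard_le (hB B b1 b2 b4)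
      ((ncard_four _ _ _ _).trans (by rw [← Nat.card_coe_set_eq, SetLike.coe_sort_coe, b3]))
    have htB : t ∈ B := by rw [← SetLike.mem_coe, b5]; simp
    have hvB : v ∈ B := by rw [← SetLike.mem_coe, b5]; simp
    obtain ⟨u, -, hu⟩ := c.exists_inv_three hw
    obtain ⟨a, ha, a1⟩ := sylow_conj (X := centralizer {w}) (isP_zp (w := u * y * u⁻¹) (q := r)
      (by rw [conj_pow, hyr]; simp)) (isP_zp hyr)
      (zpowers_le_of_mem (mem_centralizer_singleton_iff.2 (by
        have := (conj_comm_iff u w y).2 (mem_centralizer_singleton_iff.1 hwy).symm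
        rw [hu] at this
        exact (Commute.inv_right_iff.1 this :))))
      fun e => hidx (e.trans (relIndex_dvd_index_of_le (zpowers_le_of_mem
        (mem_centralizer_singleton_iff.2 (mem_centralizer_singleton_iff.1 hwy).symm))))
    have a2 : a * u ∈ normalizer (zpowers y : Set G) := mem_normalizer_fintype (nm_zp (by
      have := a1 _ (mem_zpowers _)
      rwa [show a * (u * y * u⁻¹) * a⁻¹ = a * u * y * (a * u)⁻¹ by group] at this))
    have a3 : a * u * w * (a * u)⁻¹ = w⁻¹ := by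
      calc a * u * w * (a * u)⁻¹ = (a * (u * w * u⁻¹)⁻¹ * a⁻¹)⁻¹ := by group
        _ = w⁻¹ := by rw [hu, inv_inv, conj_eq_iff.2 ha]
    obtain ⟨o, o1, o2⟩ := c.exists_m
    have a4 := odd_pow_conj a3 (by rw [inv_zp a3 _ (inv_mem (mem_zpowers w)), inv_inv]) o1
    have a5 := pow_mem a2 o
    have a6 := o2 (a * u)
    generalize (a * u) ^ o = g at a4 a5 a6
    have a7 : ∀ b ∈ B, g * b * g⁻¹ ∈ B := fun b hb => by
      have a8 : g * b * g⁻¹ ∈ centralizer ({y} : Set G) := mem_centralizer_singleton_iff.2 (by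
        have a9 : g⁻¹ * y * g ∈ centralizer ({b} : Set G) := zpowers_le_of_mem
          (mem_centralizer_singleton_iff.2 (mem_centralizer_singleton_iff.1 (b1 hb)).symm)
          ((mem_normalizer_iff''.1 a5 y).1 (mem_zpowers y))
        have := (conj_comm_iff g b _).2 (mem_centralizer_singleton_iff.1 a9)
        simpa [mul_assoc] using this.symm)
      have a9 := conj_sq g (b4 b hb)
      rw [← SetLike.mem_coe, b5]
      exact sqE _ (c.comm_of_nm' b4 a9 (b2 _ a8) htB) a8 a9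
    have a8 : ∀ b ∈ B, g * b * g⁻¹ = b := fun b hb => by
      rw [c.comm_of_nm' b4 a6 a7 hb, mul_inv_cancel_right]
    have a9 : w * v * w⁻¹ = t := by
      calc w * v * w⁻¹ = w * (g * (w * t * w⁻¹) * g⁻¹) * w⁻¹ := by rw [h1, a8 v hvB]
        _ = w * ((g * w * g⁻¹) * (g * t * g⁻¹) * (g * w * g⁻¹)⁻¹) * w⁻¹ := by group
        _ = t := by rw [a4, a8 t htB]; group
    exact v1 (by simpa using h2.symm.trans a9)
  · obtain ⟨B, b1, b2, b3, b4, -⟩ := h
    have := (Set.ncard_le_ncard (hB B b1 b2 b4)).trans (ncard_four _ _ _ _)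
    rw [← Nat.card_coe_set_eq, SetLike.coe_sort_coe, b3] at this
    omega
  · obtain ⟨L', l1, l2, p', k', m', l3, -⟩ := h
    have htL : t ∈ L' := by
      obtain ⟨z, hz, hz'⟩ := exists_order Nat.prime_two ((by decide : 2 ∣ 4).trans l3.four_dvd)
      obtain ⟨z2, z1⟩ := sq_of_order hz'
      obtain ⟨Q, q1, q2, q3, q4⟩ := sylow_in (isP_zp (q := 2) (by rw [pow_two, c.t2]))
        (zpowers_le_of_mem hty)
      obtain ⟨g, hg, hg'⟩ := sylow_conj (isP_zp (q := 2) (by rw [pow_two, z2])) q3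
        (zpowers_le_of_mem (l1 hz)) q4
      have a1 := l2 g hg z hz
      have a2 := c.two_comm q3 (hg' z (mem_zpowers z)) (q1 (mem_zpowers t))
      rcases sqE _ a2.2 (l1 a1) a2.1 with e | e | e | e
      · exact (conj_ne_one z1 e).elim
      · have := l2 _ (inv_mem hwy) _ (e ▸ a1)
        rwa [← h1, show w⁻¹ * (w * t * w⁻¹) * w⁻¹⁻¹ = t by group] at this
      · exact e ▸ a1
      · have := l2 _ hwy _ (e ▸ a1 : t * v ∈ L')
        rwa [← conj_mul, h1, h2, ← mul_assoc, c.S_comm S hv c.ht, mul_assoc, v2, mul_one] at this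
    obtain ⟨j0, K', j1, j2, j3, j4, j5, j6, -⟩ := l3.cent t htL c.t2 c.t1
    obtain ⟨u, hu, hu'⟩ : ∃ u ∈ L' ⊓ centralizer {t}, u ∉ K' := by
      by_contra hcon
      push Not at hcon
      have := (l3.rel j1 j3 j4 j2 j0).2
      rw [relIndex_eq_one.2 hcon] at this
      omega
    have a1 := mem_centralizer_singleton_iff.1 hu.2
    have a2 : Nat.card K' ≤ Nat.card (zpowers t) := card_le_of_le fun x hx => by
      have := (j6 u hu.1 a1 hu').2 x hx
      rw [commE u x a1 (l1 hu.1) (j4 x hx t j3) (l1 (j1 hx)), mul_inv_cancel_right] at this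
      rcases j5 x hx (mul_eq_one_iff_eq_inv.2 this) with rfl | rfl
      exacts [one_mem _, mem_zpowers _]
    rw [j2, Nat.card_zpowers, order_two c.t2 c.t1] at a2
    have a3 := l3.par
    have a4 := l3.five
    have a5 := c.mod_four l3.prime l3.p_dvd (by omega)
    omega

end C2

end Pool.Agent.Lib.MP_cb9dee_al.J
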