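import Pool.Agent.Lib.MP_cb9dee_al.JFive

/-! The case `|C(t)| = 120`: counting involutions. -/

set_option linter.unusedSectionVars false

namespace Pool.Agent.Lib.MP_cb9dee_al.J

open Subgroup

variable {G : Type} [Group G] [Finite G]

lemma ncard_iUnion_le {ι α : Type} [Finite ι] (f : ι → Set α) {a b : ℕ} (ha : Nat.card ι ≤ a)
    (h : ∀ i, (f i).ncard ≤ b) : (⋃ i, f i).ncard ≤ a * b := by
  have := Fintype.ofFinite ι
  have h1 := Finset.set_ncard_biUnion_le Finset.univ f
  simp only [Finset.mem_univ, Set.iUnion_true] at h1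
  refine h1.trans ((Finset.sum_le_card_nsmul _ _ b fun i _ => h i).trans ?_)
  rw [Finset.card_univ, ← Nat.card_eq_fintype_card, smul_eq_mul]
  exact Nat.mul_le_mul_right b ha

/-- The elements that invert a nontrivial element of `P`. -/
def Inv {M : Subgroup G} (P : Subgroup M) : Set G :=
  {u | ∃ x ∈ P, x ≠ 1 ∧ u * x * u⁻¹ = (x : G)⁻¹}

lemma exists_gen {M : Subgroup G} {P : Subgroup M} {q : ℕ} (hq : q.Prime) (h : Nat.card P = q) :
    ∃ y ∈ P, orderOf (y : G) = q ∧ (∀ x ∈ P, (x : G) ∈ zpowers (y : G)) ∧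
      (Inv P).ncard ≤ Nat.card (centralizer {(y : G)} : Subgroup G) := by
  have := Fact.mk hq
  have key : ∀ x ∈ P, x ≠ 1 → ∀ y ∈ P, (y : G) ∈ zpowers (x : G) := fun x hx x1 y hy => by
    obtain ⟨j, hj⟩ := mem_zpowers_of_prime_card h (g := ⟨x, hx⟩) (g' := ⟨y, hy⟩)
      fun e => x1 (congrArg Subtype.val e)
    exact ⟨j, congrArg (fun z : P => ((z : M) : G)) hj⟩
  obtain ⟨y, hy⟩ := exists_prime_orderOf_dvd_card' q h.symm.dvd
  have ho : orderOf ((y : M) : G) = q := by rw [orderOf_coe, orderOf_coe, hy]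
  refine ⟨y, y.2, ho, key y y.2 fun e => hq.one_lt.ne (by simpa [e] using ho), ?_⟩
  have h1 : ∀ u ∈ Inv P, u * ((y : M) : G) * u⁻¹ = ((y : M) : G)⁻¹ := by
    rintro u ⟨x, hx, x1, e⟩
    exact inv_zp e _ (key x hx x1 y y.2)
  rcases (Inv P).eq_empty_or_nonempty with e | ⟨u, hu⟩
  · simp [e]
  · rw [← SetLike.coe_sort_coe, Nat.card_coe_set_eq]
    exact Set.ncard_le_ncard_of_injOn (u⁻¹ * ·) (fun x hx => comm_of_inv (h1 u hu) (h1 x hx))
      (mul_right_injective _).injOn

lemma card_sylow_prime {M : Type} [Group M] [Finite M] (h : Nat.card M = 168) {q : ℕ}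
    [Fact q.Prime] (hq : q = 3 ∨ q = 7) (P : Sylow q M) : Nat.card P = q := by
  have h1 := card_eq_prime Fact.out P.isPGroup' le_top
    (by rw [relIndex_top_right]; exact P.not_dvd_index)
    (by rw [card_top, h]; rcases hq with rfl | rfl <;> decide)
    (by rw [h]; rcases hq with rfl | rfl <;> decide)
  exact h1

lemma arith : ∀ j < 648, j % 8 = 1 → 1 < j →
    ∃ q < 648, q ∣ j ∧ q.Prime ∧ (q % 12 ≠ 11 ∨ q * q ∣ j) := by
  decide +kernel

namespace C2

variable {S : Sylow 2 G} {t : G} {L : Subgroup G} (c : C2 S t L 5 2 3)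
include c

lemma inv_three : (⋃ P : Sylow 3 (NS S), Inv (P : Subgroup (NS S))).ncard ≤ 28 * 30 := by
  have := Fact.mk Nat.prime_three
  refine ncard_iUnion_le _ ?_ fun P => ?_
  · obtain ⟨P⟩ : Nonempty (Sylow 3 (NS S)) := inferInstance
    have h1 := P.card_dvd_index
    have h2 := (P : Subgroup (NS S)).card_mul_index
    have h3 := card_sylow_modEq_one 3 (NS S)
    rw [card_sylow_prime c.card_N (Or.inl rfl), c.card_N] at h2
    rw [show (P : Subgroup (NS S)).index = 56 by omega] at h1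
    unfold Nat.ModEq at h3
    obtain ⟨j, hj⟩ := h1
    by_contra h
    have : j = 0 ∨ j = 1 := by
      by_contra h
      nlinarith [(by omega : 2 ≤ j)]
    rcases this with rfl | rfl <;> omega
  · obtain ⟨y, -, h1, -, h2⟩ := exists_gen Nat.prime_three (card_sylow_prime c.card_N (Or.inl rfl) P)
    exact h2.trans (Nat.le_of_dvd (by decide) (c.cent_three h1))

lemma inv_seven : (⋃ P : Sylow 7 (NS S), Inv (P : Subgroup (NS S))).ncard ≤ 8 * 35 := by
  have : Fact (Nat.Prime 7) := ⟨by norm_num⟩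
  have key : Nat.card (Sylow 7 (NS S)) = 1 ∨ Nat.card (Sylow 7 (NS S)) = 8 := by
    obtain ⟨P⟩ : Nonempty (Sylow 7 (NS S)) := inferInstance
    have h1 := P.card_dvd_index
    have h2 := (P : Subgroup (NS S)).card_mul_index
    have h3 := card_sylow_modEq_one 7 (NS S)
    rw [card_sylow_prime c.card_N (Or.inr rfl), c.card_N] at h2
    rw [show (P : Subgroup (NS S)).index = 24 by omega] at h1
    unfold Nat.ModEq at h3
    have h4 := Nat.le_of_dvd (by decide) h1
    generalize Nat.card (Sylow 7 (NS S)) = j at *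
    interval_cases j <;> omega
  refine ncard_iUnion_le _ (by omega) fun P => ?_
  obtain ⟨y, hy, h1, h2, h3⟩ := exists_gen Fact.out (card_sylow_prime c.card_N (Or.inr rfl) P)
  have h4 := (normalizer (P : Set (NS S))).card_mul_index
  rw [← P.card_eq_index_normalizer, c.card_N] at h4
  obtain ⟨w, hw, ho⟩ := exists_order (X := normalizer (P : Set (NS S))) Nat.prime_three
    (by rcases key with e | e <;> rw [e] at h4 <;> omega)
  exact h3.trans (Nat.le_of_dvd (by decide) (c.cent_seven h1 ((orderOf_coe w).trans ho)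
    (h2 _ ((mem_set_normalizer_iff.1 hw y).1 hy))))

lemma inv_two : (⋃ s : {x | x ∈ S ∧ x ≠ 1},
    {x | x ∈ centralizer ({(s : G)} : Set G) ∧ x * x = 1} \ (S : Subgroup G)).ncard ≤ 7 * 24 := by
  refine ncard_iUnion_le _ (by rw [Nat.card_coe_set_eq, c.ncard_S]) fun s => ?_
  have h : ((S : Subgroup G) : Set G) ⊆ {x | x ∈ centralizer ({(s : G)} : Set G) ∧ x * x = 1} :=
    fun x hx => ⟨c.S_le_cent S s.2.1 hx, c.S_sq S hx⟩
  rw [Set.ncard_sdiff h,
    c.ncard_32 (c.S_sq S s.2.1) s.2.2, ← Nat.card_coe_set_eq, SetLike.coe_sort_coe, c.card_S]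

lemma ncard_le : Set.ncard {x : G | x * x = 1 ∧ x ∉ NS S} ≤ (NS S).index + 1288 := by
  have h1 := c.inv_two
  have h2 := c.inv_three
  have h3 := c.inv_seven
  set U2 := ⋃ s : {x | x ∈ S ∧ x ≠ 1},
    {x | x ∈ centralizer ({(s : G)} : Set G) ∧ x * x = 1} \ ((S : Subgroup G) : Set G)
  set U3 := ⋃ P : Sylow 3 (NS S), Inv (P : Subgroup (NS S))
  set U7 := ⋃ P : Sylow 7 (NS S), Inv (P : Subgroup (NS S))
  have h4 : ({x : G | x * x = 1 ∧ x ∉ NS S} \ (U2 ∪ U3 ∪ U7)).ncard ≤ (NS S).index := by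
    rw [index_eq_card, ← Set.ncard_univ]
    refine Set.ncard_le_ncard_of_injOn (fun x : G => (x : G ⧸ NS S)) (fun _ _ => trivial)
      fun x hx y hy h => by_contra fun hxy => hx.2 ?_
    have a1 : x⁻¹ * y ∈ NS S := QuotientGroup.eq.1 h
    have a2 : x * (x⁻¹ * y) * x⁻¹ = (x⁻¹ * y)⁻¹ := by
      rw [mul_inv_cancel_left, mul_inv_rev, inv_inv, inv_eq_of_mul_eq_one_right hx.1.1,
        inv_eq_of_mul_eq_one_right hy.1.1]
    obtain ⟨q, hq, hd⟩ := Nat.exists_prime_and_dvd (n := Nat.card (zpowers (x⁻¹ * y)))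
      fun e => hxy (inv_mul_eq_one.1 (orderOf_eq_one_iff.1 ((Nat.card_zpowers _).symm.trans e)))
    obtain ⟨z, hz, ho⟩ := exists_order hq hd
    have a3 := inv_zp a2 z hz
    have a4 := zpowers_le_of_mem a1 hz
    have z1 : z ≠ 1 := by rintro rfl; exact hq.one_lt.ne (by simpa using ho)
    have key : x ∈ ⋃ P : Sylow q (NS S), Inv (P : Subgroup (NS S)) := by
      obtain ⟨P, hP⟩ := (isP_zp (w := (⟨z, a4⟩ : NS S)) (q := q)
        (Subtype.ext (ho ▸ pow_orderOf_eq_one z))).exists_le_sylow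
      exact Set.mem_iUnion.2 ⟨P, ⟨z, a4⟩, hP (mem_zpowers _),
        fun e => z1 (congrArg Subtype.val e), a3⟩
    have a5 := hd.trans (card_dvd_of_le (zpowers_le_of_mem a1))
    rw [c.card_N, show 168 = 2 ^ 3 * (3 * 7) from rfl, hq.dvd_mul, hq.dvd_mul] at a5
    rcases a5 with e | e | e
    · obtain rfl := (Nat.prime_dvd_prime_iff_eq hq Nat.prime_two).1 (hq.dvd_of_dvd_pow e)
      have z2 := (sq_of_order ho).1
      rw [inv_eq_of_mul_eq_one_right z2] at a3
      exact Or.inl (Or.inl (Set.mem_iUnion.2 ⟨⟨z, c.mem_of_NS S a4 z2, z1⟩,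
        ⟨conj_eq_iff.1 a3, hx.1.1⟩, fun e => hx.1.2 (le_normalizer e)⟩))
    · obtain rfl := (Nat.prime_dvd_prime_iff_eq hq Nat.prime_three).1 e
      exact Or.inl (Or.inr key)
    · obtain rfl := (Nat.prime_dvd_prime_iff_eq hq (by norm_num)).1 e
      exact Or.inr key
  have h5 := Set.ncard_le_ncard_sdiff_add_ncard {x : G | x * x = 1 ∧ x ∉ NS S} (U2 ∪ U3 ∪ U7)
  have h6 := Set.ncard_union_le (U2 ∪ U3) U7
  have h7 := Set.ncard_union_le U2 U3
  omega

lemma eight_dvd : 8 ∣ Set.ncard {x : G | x * x = 1} := by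
  classical
  let X := {x : G // x * x = 1}
  let _ : MulAction (S : Subgroup G) X :=
    { smul := fun s x => ⟨s * x.1 * (s : G)⁻¹, conj_sq _ x.2⟩
      one_smul := fun x => Subtype.ext (by change (1 : G) * x.1 * 1⁻¹ = x.1; simp)
      mul_smul := fun a b x => Subtype.ext (by
        change (a : G) * b * x.1 * ((a : G) * b)⁻¹ = a * (b * x.1 * (b : G)⁻¹) * (a : G)⁻¹
        group) }
  have := Fintype.ofFinite (S : Subgroup G)
  have := fun s : (S : Subgroup G) => Fintype.ofFinite (MulAction.fixedBy X s)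
  have := Fintype.ofFinite (MulAction.orbitRel.Quotient (S : Subgroup G) X)
  have h1 := MulAction.sum_card_fixedBy_eq_card_orbits_mul_card_group (S : Subgroup G) X
  have h2 : ∀ s : (S : Subgroup G), Fintype.card (MulAction.fixedBy X s) =
      Set.ncard {x | x ∈ centralizer ({(s : G)} : Set G) ∧ x * x = 1} := fun s => by
    rw [← Nat.card_eq_fintype_card, Nat.card_coe_set_eq,
      ← Set.ncard_image_of_injective _ Subtype.val_injective]
    congr 1
    ext x
    constructor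
    · rintro ⟨y, hy, rfl⟩
      exact ⟨mem_centralizer_singleton_iff.2
        (mul_inv_eq_iff_eq_mul.1 (congrArg Subtype.val hy)).symm, y.2⟩
    · rintro ⟨a, b⟩
      exact ⟨⟨x, b⟩, Subtype.ext
        (mul_inv_eq_iff_eq_mul.2 (mem_centralizer_singleton_iff.1 a).symm), rfl⟩
  rw [← Finset.add_sum_erase _ _ (Finset.mem_univ 1), ← Nat.card_eq_fintype_card (α := S),
    c.card_S, h2] at h1
  have h3 : 8 ∣ ∑ s ∈ Finset.univ.erase (1 : (S : Subgroup G)),
      Fintype.card (MulAction.fixedBy X s) := Finset.dvd_sum fun s hs => by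
    rw [h2, c.ncard_32 (c.S_sq S s.2) fun e => (Finset.mem_erase.1 hs).1 (Subtype.ext e)]
    decide
  have h4 : {x | x ∈ centralizer ({((1 : (S : Subgroup G)) : G)} : Set G) ∧ x * x = 1} =
      {x : G | x * x = 1} := by
    ext x
    simp [mem_centralizer_singleton_iff]
  rw [h4] at h1
  exact (Nat.dvd_add_left h3).1 (h1 ▸ dvd_mul_left _ _)

theorem false : False := by
  have h1 := c.ncard_le
  have h2 := c.eight_dvd
  have h3 := c.ncard_sq c.t2 c.t1
  have h4 := c.ncard_out S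
  have h5 := (NS S).card_mul_index
  have h6 := (centralizer ({t} : Set G)).card_mul_index
  have h7 := Set.ncard_le_ncard (s := {x | x ∈ centralizer ({t} : Set G) ∧ x * x = 1})
    (t := {x : G | x * x = 1}) fun x hx => hx.2
  rw [c.card_N] at h5
  rw [c.card_H] at h6
  rw [c.ncard_32 c.t2 c.t1] at h7
  obtain ⟨j, hj⟩ : 7 ∣ (centralizer ({t} : Set G)).index := by omega
  have hn : Nat.card G = 840 * j := by omega
  obtain ⟨q, -, h8, hq, h9⟩ := arith j (by omega) (by omega) (by omega)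
  have q2 : q ≠ 2 := by rintro rfl; omega
  have hsq := c.sqfree hq q2
  rw [hn, pow_two] at hsq
  have hG : q ∣ Nat.card G := hn ▸ h8.mul_left _
  refine h9.elim (fun h => ?_) fun h => hsq (h.mul_left _)
  have key : ¬ q ∣ 840 := fun e => hsq (mul_dvd_mul e h8)
  have a1 := c.mod_three hq hG (by rintro rfl; exact key (by decide))
    (by rintro rfl; exact key (by decide))
  have a2 : ¬ 4 ∣ q - 1 := fun e => key (c.mod_four hq hG e ▸ by decide)
  have a3 := hq.eq_two_or_odd.resolve_left q2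
  have a4 : q % 4 = 3 := by omega
  omega

end C2

theorem Cx.false (c : Cx G) : False := by
  obtain ⟨S⟩ : Nonempty (Sylow 2 G) := inferInstance
  obtain ⟨t, ht, t1⟩ := c.exists_one S
  rcases c.dich (c.S_sq S ht) t1 with h | ⟨L, h1, h2, p, k, m, h3, h4⟩
  · exact C1.false ⟨c, h⟩
  · have c2 : C2 S t L p k m := ⟨c, ht, t1, h1, h2, h3, h4⟩
    obtain rfl := c2.k_two
    obtain ⟨rfl, rfl, -⟩ := c2.p_eq
    exact c2.false

end Pool.Agent.Lib.MP_cb9dee_al.J
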