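import Pool.Agent.Lib.MP_cb9dee_al.JTwoB

/-! The case where `C(t)` has type `V`: the structure `C(t) = ⟨t⟩ × L`. -/

set_option linter.unusedSectionVars false

namespace Pool.Agent.Lib.MP_cb9dee_al.J

open Subgroup

variable {G : Type} [Group G] [Finite G]

lemma GP.exists_u {L : Subgroup G} {p k m : ℕ} (h : GP L p k m) {v : G} (hv : v ∈ L)
    (v2 : v * v = 1) (v1 : v ≠ 1) : ∃ u ∈ L, u * u = 1 ∧ u ≠ 1 ∧ u ≠ v := by
  obtain ⟨k0, K, k1, k2, k3, k4, -, k6, -⟩ := h.cent v hv v2 v1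
  obtain ⟨u, hu, hu'⟩ : ∃ u ∈ L ⊓ centralizer {v}, u ∉ K := by
    by_contra hcon
    push Not at hcon
    have := (h.rel k1 k3 k4 k2 k0).2
    rw [relIndex_eq_one.2 hcon] at this
    omega
  exact ⟨u, hu.1, (k6 u hu.1 (mem_centralizer_singleton_iff.1 hu.2) hu').1,
    fun e => hu' (e ▸ one_mem K), fun e => hu' (e ▸ k3)⟩

lemma GP.four_dvd {L : Subgroup G} {p k m : ℕ} (h : GP L p k m) : 4 ∣ Nat.card L := by
  obtain ⟨j, rfl⟩ := h.even
  exact ⟨j * p * m, by rw [h.card]; ring⟩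

lemma GP.center {L : Subgroup G} {p k m : ℕ} (h : GP L p k m) {z : G} (hz : z ∈ L)
    (hc : z ∈ centralizer (L : Set G)) : z = 1 := by
  rcases h.simple (L ⊓ centralizer L) inf_le_left (fun a ha b hb => by
    rwa [hb.2 a ha, mul_inv_cancel_right]) with e | e
  · exact mem_bot.1 (e ▸ ⟨hz, hc⟩)
  · obtain ⟨v, hv, ho⟩ := exists_order Nat.prime_two ((by decide : 2 ∣ 4).trans h.four_dvd)
    obtain ⟨v2, v1⟩ := sq_of_order ho
    obtain ⟨u, hu, u2, u1, uv⟩ := h.exists_u hv v2 v1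
    obtain ⟨g, hg, e'⟩ := h.conj v hv u hu v2 v1 u2 u1
    rw [(e.symm ▸ hv : v ∈ L ⊓ centralizer L).2 g hg, mul_inv_cancel_right] at e'
    exact (uv e'.symm).elim

lemma GP.cases {L : Subgroup G} {p k m : ℕ} (h : GP L p k m) {v u x : G} (hv : v ∈ L)
    (v2 : v * v = 1) (v1 : v ≠ 1) (hu : u ∈ L) (u2 : u * u = 1) (u1 : u ≠ 1) (uv : u ≠ v)
    (huv : u * v = v * u) (hx : x ∈ L) (hxv : x * v = v * x) (hxu : x * u = u * x) :
    x = 1 ∨ x = v ∨ x = u ∨ x = v * u := by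
  obtain ⟨k0, K, k1, k2, k3, k4, k5, k6, -⟩ := h.cent v hv v2 v1
  have hK : u ∉ K := fun e => (k5 u e u2).elim u1 uv
  have key : ∀ y ∈ K, u * y = y * u → y = 1 ∨ y = v := fun y hy e => k5 y hy (by
    have := (k6 u hu huv hK).2 y hy
    rw [e, mul_inv_cancel_right] at this
    exact mul_eq_one_iff_eq_inv.2 this)
  by_cases e : x ∈ K
  · exact (key x e hxu.symm).elim Or.inl fun h => Or.inr (Or.inl h)
  · have h1 := mul_mem_of_two (h.rel k1 k3 k4 k2 k0).2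
      ⟨hx, mem_centralizer_singleton_iff.2 hxv⟩ ⟨hu, mem_centralizer_singleton_iff.2 huv⟩ e hK
    have hui := inv_eq_of_mul_eq_one_right u2
    rcases key _ h1 (by rw [← mul_assoc, hxu]) with e | e
    · exact Or.inr (Or.inr (Or.inl ((eq_inv_of_mul_eq_one_left e).trans hui)))
    · exact Or.inr (Or.inr (Or.inr (by rw [← e, mul_assoc, u2, mul_one])))

/-- The hypotheses of the second case. -/
structure C2 (S : Sylow 2 G) (t : G) (L : Subgroup G) (p k m : ℕ) : Prop extends Cx G where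
  ht : t ∈ S
  t1 : t ≠ 1
  hL : L ≤ centralizer {t}
  hn : Nm (centralizer {t}) L
  gp : GP L p k m
  dec0 : ∃ Y ≤ centralizer {t}, Y.relIndex (centralizer {t}) ∣ 2 ∧ L ≤ Y ∧
    centralizer {t} ⊓ centralizer L ≤ Y ∧
      ∀ y ∈ Y, ∃ l ∈ L, ∃ z ∈ centralizer {t} ⊓ centralizer (L : Set G), y = l * z

namespace C2

variable {S : Sylow 2 G} {t : G} {L : Subgroup G} {p k m : ℕ} (c : C2 S t L p k m)
include c

lemma t2 : t * t = 1 := c.S_sq S c.ht

lemma t_cent : t ∈ centralizer (L : Set G) := fun _ hx => mem_centralizer_singleton_iff.1 (c.hL hx)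

lemma t_not : t ∉ L := fun h => c.t1 (c.gp.center h c.t_cent)

lemma tH : t ∈ centralizer ({t} : Set G) := mem_centralizer_singleton_iff.2 rfl

lemma not_four_rel : ¬ 4 ∣ L.relIndex (centralizer {t}) := fun h => c.four.1
  ((mul_dvd_mul c.gp.four_dvd h).trans (card_mul_rel c.hL ▸ card_subgroup_dvd_card _))

lemma dec1 {h : G} (hh : h ∈ centralizer ({t} : Set G)) :
    ∃ l ∈ L, ∃ z ∈ centralizer {t} ⊓ centralizer (L : Set G), h = l * z := by
  obtain ⟨Y, h1, h2, h3, h4, h5⟩ := c.dec0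
  refine h5 h (relIndex_eq_one.1 ?_ hh)
  refine ((Nat.dvd_prime Nat.prime_two).1 h2).resolve_right fun e => c.not_four_rel ?_
  rw [← relIndex_mul_relIndex L Y _ h3 h1, e]
  refine mul_dvd_mul_right (by_contra fun h6 => c.t_not ?_ : 2 ∣ L.relIndex Y) 2
  exact mem_of_nm h3 (fun g hg => c.hn g (h1 hg)) (h4 ⟨c.tH, c.t_cent⟩)
    ((Nat.Prime.coprime_iff_not_dvd Nat.prime_two).2 h6) (by rw [pow_two, c.t2])

lemma dec_S {s : G} (hs : s ∈ S) : s ∈ L ∨ s * t ∈ L := by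
  have h1 := rel_dvd_of_nm c.hL c.hn (c.S_le_cent S c.ht)
  have h2 : L.relIndex S ∣ 2 ^ 3 := (relIndex_dvd_card L S).trans (c.card_S S).dvd
  obtain ⟨j, hj, e⟩ := (Nat.dvd_prime_pow Nat.prime_two).1 h2
  have h3 : L.relIndex S = 2 := by
    interval_cases j
    · exact (c.t_not (relIndex_eq_one.1 e c.ht)).elim
    · exact e
    · exact (c.not_four_rel (e ▸ h1 :)).elim
    · exact (c.not_four_rel ((by decide : 4 ∣ 2 ^ 3).trans (e ▸ h1))).elim
  exact or_iff_not_imp_left.2 fun h => mul_mem_of_two h3 hs c.ht h c.t_not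

lemma pick (v : G) : ∃ u ∈ S, u ∈ L ∧ u ≠ 1 ∧ u ≠ v := by
  obtain ⟨b, hb, hb'⟩ := c.exists_not_mem S (F := {1, t, v, v * t}) (lt_of_le_of_lt
    ((Set.ncard_insert_le _ _).trans (Nat.succ_le_succ ((Set.ncard_insert_le _ _).trans
      (Nat.succ_le_succ (Set.ncard_insert_le _ _))))) (by simp))
  simp only [Set.mem_insert_iff, Set.mem_singleton_iff, not_or] at hb'
  rcases c.dec_S hb with h | h
  · exact ⟨b, hb, h, hb'.1, hb'.2.2.1⟩
  · exact ⟨b * t, mul_mem hb c.ht, h, fun e => hb'.2.1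
      ((eq_inv_of_mul_eq_one_left e).trans (inv_eq_of_mul_eq_one_right c.t2)),
      fun e => hb'.2.2.2 (by rw [← e, mul_assoc, c.t2, mul_one])⟩

lemma cases {v u x : G} (hv : v ∈ S) (hv' : v ∈ L) (v1 : v ≠ 1) (hu : u ∈ S) (hu' : u ∈ L)
    (u1 : u ≠ 1) (uv : u ≠ v) (hx : x ∈ L) (hxv : x * v = v * x) (hxu : x * u = u * x) :
    x = 1 ∨ x = v ∨ x = u ∨ x = v * u :=
  c.gp.cases hv' (c.S_sq S hv) v1 hu' (c.S_sq S hu) u1 uv (c.S_comm S hu hv) hx hxv hxu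

lemma cent_S {g : G} (hg : g ∈ centralizer ((S : Subgroup G) : Set G)) : g ∈ S := by
  refine c.mem_S' S hg (by_contra fun hcon => ?_)
  obtain ⟨v, hv, hv', v1, -⟩ := c.pick 1
  obtain ⟨u, hu, hu', u1, uv⟩ := c.pick v
  let Q : Set G := {x | ∃ a ∈ centralizer ((S : Subgroup G) : Set G), a * a = x}
  have hH : ∀ a ∈ centralizer ((S : Subgroup G) : Set G), a ∈ centralizer ({t} : Set G) :=
    fun a ha => mem_centralizer_singleton_iff.2 (ha t c.ht).symm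
  have hQ : ∀ x ∈ Q, x ∈ centralizer (L : Set G) := by
    rintro _ ⟨a, ha, rfl⟩
    obtain ⟨l, hl, z, hz, rfl⟩ := c.dec1 (hH a ha)
    have h1 : ∀ s ∈ S, s ∈ L → l * s = s * l := fun s hs hs' => by
      rw [← mul_left_inj z, mul_assoc, hz.2 s hs', ← mul_assoc, ← ha s hs, mul_assoc]
    have h2 : l ∈ S := by
      rcases c.cases hv hv' v1 hu hu' u1 uv hl (h1 v hv hv') (h1 u hu hu') with e | e | e | e <;>
        rw [e]
      exacts [one_mem _, hv, hu, mul_mem hv hu]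
    rw [mul_assoc, ← mul_assoc z, ← hz.2 l hl, mul_assoc, ← mul_assoc, c.S_sq S h2, one_mul]
    exact mul_mem hz.2 hz.2
  have hN : NS S ≤ normalizer Q := fun a ha => mem_normalizer_fintype (by
    rintro _ ⟨b, hb, rfl⟩
    refine ⟨a * b * a⁻¹, fun s hs => ?_, conj_mul⟩
    have := (conj_comm_iff a b _).2 (hb _ ((mem_normalizer_iff''.1 ha s).1 hs))
    simpa [mul_assoc] using this)
  have h1 := c.nm_of_sigma S (c.nm_ne_top (X := Q) (c.cent_ne_top c.t1)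
    (by rintro _ ⟨a, ha, rfl⟩; exact mul_mem (hH a ha) (hH a ha)) ⟨g, hg, rfl⟩ hcon)
    (le_normalizer.trans hN) hN
  rcases c.gp.simple (L ⊓ S) inf_le_left (fun a ha b hb =>
    ⟨c.hn a (c.hL ha) b hb.1, h1 a (mem_normalizer_fintype fun x hx => by
      rwa [hQ x hx a ha, mul_inv_cancel_right]) b hb.2⟩) with e | e
  · exact v1 (mem_bot.1 (e ▸ ⟨hv', hv⟩))
  · have h2 := card_dvd_of_le (inf_eq_left.1 e)
    rw [c.gp.card, c.card_S] at h2
    have h3 : p ∣ 2 ^ 3 := ((dvd_mul_left _ _).trans (dvd_mul_right _ _)).trans h2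
    have := Nat.le_of_dvd two_pos (c.gp.prime.dvd_of_dvd_pow h3)
    have := c.gp.five
    omega

lemma cent_S' {g : G} (hg : g ∈ centralizer ({t} : Set G)) (h : ∀ s ∈ S, s ∈ L → s * g = g * s) :
    g ∈ S := c.cent_S fun s hs => by
  rcases c.dec_S hs with e | e
  · exact h s hs e
  · rw [← mul_left_inj t, mul_assoc, mem_centralizer_singleton_iff.1 hg, ← mul_assoc,
      h _ (mul_mem hs c.ht) e, mul_assoc]

lemma dec {h : G} (hh : h ∈ centralizer ({t} : Set G)) : h ∈ L ∨ h * t ∈ L := by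
  obtain ⟨l, hl, z, hz, rfl⟩ := c.dec1 hh
  rcases c.dec_S (c.cent_S' hz.1 fun s _ hs => hz.2 s hs) with e | e
  · exact Or.inl (mul_mem hl e)
  · exact Or.inr (mul_assoc l z t ▸ mul_mem hl e)

lemma rel_two : L.relIndex (centralizer {t}) = 2 :=
  relIndex_eq_two_iff.2 ⟨t, c.tH, fun b hb => by
    rcases c.dec hb with h | h
    · exact Or.inr ⟨h, fun e => c.t_not ((mul_mem_cancel_left h).1 e)⟩
    · exact Or.inl ⟨h, fun e => c.t_not ((mul_mem_cancel_left e).1 h)⟩⟩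

lemma mem_L {x : G} (hx : x ∈ centralizer ({t} : Set G)) {d : ℕ} (hd : ¬ 2 ∣ d) (h : x ^ d = 1) :
    x ∈ L :=
  mem_of_nm c.hL c.hn hx
    (c.rel_two ▸ ((Nat.Prime.coprime_iff_not_dvd Nat.prime_two).2 hd).symm) h

lemma exists_w {v u : G} (hv : v ∈ S) (hv' : v ∈ L) (v1 : v ≠ 1) (hu : u ∈ S) (hu' : u ∈ L)
    (u1 : u ≠ 1) (uv : u ≠ v) : ∃ w ∈ NS S, w ∈ centralizer ({t} : Set G) ∧ w ^ 3 = 1 ∧
      w * v * w⁻¹ = u ∧ w * u * w⁻¹ = v * u := by
  have := Fact.mk Nat.prime_two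
  obtain ⟨g, hg, e⟩ := c.gp.conj v hv' u hu' (c.S_sq S hv) v1 (c.S_sq S hu) u1
  have hS : (S : Subgroup G) ≤ centralizer {t} ⊓ centralizer {u} :=
    le_inf (c.S_le_cent S c.ht) (c.S_le_cent S hu)
  obtain ⟨a, ha, h1⟩ := sylow_conj (X := centralizer {t} ⊓ centralizer {u})
    (S.isPGroup'.map (MulAut.conj g).toMonoidHom) S.isPGroup' (by
      rintro _ ⟨s, hs, rfl⟩
      exact ⟨(centralizer {t}).mul_mem (mul_mem (c.hL hg) (hS hs).1) (inv_mem (c.hL hg)),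
        mem_centralizer_singleton_iff.2 (e ▸ (conj_comm_iff g v s).2 (c.S_comm S hs hv))⟩)
    (c.odd_rel S le_rfl hS)
  have h2 : a * g ∈ NS S := mem_normalizer_fintype fun s hs => by
    have := h1 _ ⟨s, hs, rfl⟩
    rwa [show a * (MulAut.conj g).toMonoidHom s * a⁻¹ = a * g * s * (a * g)⁻¹ by
      change a * (g * s * g⁻¹) * a⁻¹ = _; group] at this
  have h3 : a * g ∈ centralizer ({t} : Set G) := mul_mem ha.1 (c.hL hg)
  have h4 : a * g * v * (a * g)⁻¹ = u := by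
    rw [← conj_eq_iff.2 ha.2, ← e]; group
  generalize a * g = n at h2 h3 h4
  have h5 : n * u * n⁻¹ = v * u := by
    have h6 := conj_mem_S h2 hu
    rcases c.cases hv hv' v1 hu hu' u1 uv (c.hn n h3 u hu') (c.S_comm S h6 hv) (c.S_comm S h6 hu)
      with e | e | e | e
    · exact (conj_ne_one u1 e).elim
    · obtain ⟨j, j1, j2⟩ := c.exists_m
      have h7 := odd_pow_conj h4 e j1
      rw [c.S_comm S (c.mem_of_NS S (pow_mem h2 j) (j2 n)) hv, mul_inv_cancel_right] at h7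
      exact (uv h7.symm).elim
    · rw [← h4, mul_left_inj, mul_right_inj, h4] at e
      exact (uv e).elim
    · exact e
  have h6 : n * (v * u) * n⁻¹ = v := by
    rw [← conj_mul, h4, h5, ← mul_assoc, c.S_comm S hu hv, mul_assoc, c.S_sq S hu, mul_one]
  have h7 : ∀ x, n ^ 3 * x * (n ^ 3)⁻¹ = n * (n * (n * x * n⁻¹) * n⁻¹) * n⁻¹ := fun x => by
    rw [pow_three]; group
  have h8 : n ^ 3 ∈ S := c.cent_S' (pow_mem h3 3) fun s hs hs' => by
    rw [eq_comm, ← mul_inv_eq_iff_eq_mul, h7]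
    rcases c.cases hv hv' v1 hu hu' u1 uv hs' (c.S_comm S hs hv) (c.S_comm S hs hu)
      with e | e | e | e <;> rw [e]
    · simp
    · rw [h4, h5, h6]
    · rw [h5, h6, h4]
    · rw [h6, h4, h5]
  have h9 : ∀ x ∈ S, n ^ 4 * x * (n ^ 4)⁻¹ = n * x * n⁻¹ := fun x hx => by
    rw [pow_succ', mul_assoc n, c.S_comm S h8 hx]; group
  refine ⟨n ^ 4, pow_mem h2 4, pow_mem h3 4, ?_, (h9 v hv).trans h4, (h9 u hu).trans h5⟩
  rw [← pow_mul, show 4 * 3 = (3 + 3) * 2 from rfl, pow_mul, pow_add, c.S_sq S h8, one_pow]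

lemma exists_w' : ∃ w v : G, v ∈ S ∧ v ∈ L ∧ v ≠ 1 ∧ w ^ 3 = 1 ∧ w * t * w⁻¹ = v ∧
    w * v * w⁻¹ = t * v := by
  obtain ⟨v, hv, hv', v1, -⟩ := c.pick 1
  obtain ⟨u, hu, hu', u1, uv⟩ := c.pick v
  obtain ⟨w, -, -, w3, h1, h2⟩ := c.exists_w hv hv' v1 hu hu' u1 uv
  obtain ⟨g, hg, e⟩ := c.trans S hv v1 c.ht c.t1
  have h3 : g * w * g⁻¹ * t * (g * w * g⁻¹)⁻¹ = g * u * g⁻¹ := by rw [← e, ← h1]; group
  have h4 : g * w * g⁻¹ * (g * u * g⁻¹) * (g * w * g⁻¹)⁻¹ = t * (g * u * g⁻¹) := by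
    rw [← e, conj_mul (a := v), ← h2]; group
  have h5 : (g * w * g⁻¹) ^ 3 = 1 := by rw [conj_pow, w3]; simp
  have h6 := conj_mem_S hg hu
  have h7 : g * u * g⁻¹ ≠ t := fun h => uv (by rwa [← e, mul_left_inj, mul_right_inj] at h)
  have h8 := conj_ne_one (g := g) u1
  generalize g * w * g⁻¹ = y at h3 h4 h5
  generalize g * u * g⁻¹ = a at h3 h4 h6 h7 h8
  rcases c.dec_S h6 with h | h
  · exact ⟨y, a, h6, h, h8, h5, h3, h4⟩
  · have h9 : ∀ x, y ^ 2 * x * (y ^ 2)⁻¹ = y * (y * x * y⁻¹) * y⁻¹ := fun x => by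
      rw [pow_two]; group
    refine ⟨y ^ 2, a * t, mul_mem h6 c.ht, h, fun e => h7
      ((eq_inv_of_mul_eq_one_left e).trans (inv_eq_of_mul_eq_one_right c.t2)), ?_, ?_, ?_⟩
    · rw [← pow_mul, mul_comm, pow_mul, h5, one_pow]
    · rw [h9, h3, h4, c.S_comm S h6 c.ht]
    · rw [h9, ← conj_mul (a := a), h3, h4, mul_assoc t, c.S_sq S h6, mul_one, h3,
        c.S_comm S h6 c.ht, ← mul_assoc, c.t2, one_mul]

end C2

end Pool.Agent.Lib.MP_cb9dee_al.J
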