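import Pool.Agent.Lib.MP_cb9dee_al.JOne

/-! The case where the involutions of `C(t)` are central in `C(t)`. -/

set_option linter.unusedSectionVars false

namespace Pool.Agent.Lib.MP_cb9dee_al.J

open Subgroup Pointwise

variable {G : Type} [Group G] [Finite G]

/-- The hypotheses of the first case. -/
structure C1 (G : Type) [Group G] : Prop extends Cx G where
  hI : ∀ s x y : G, s * s = 1 → s ≠ 1 → y * y = 1 → x * s = s * x → y * s = s * y → x * y = y * x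

/-- The normaliser of a Sylow `2`-subgroup. -/
abbrev NS (S : Sylow 2 G) : Subgroup G := normalizer ((S : Subgroup G) : Set G)

lemma Cx.mem_of_NS (c : Cx G) (S : Sylow 2 G) {x : G} (h : x ∈ NS S) (hx : x * x = 1) : x ∈ S :=
  c.mem_S S (fun y => (mem_normalizer_iff.1 h y).1) hx

lemma conj_mem_S {S : Sylow 2 G} {g s : G} (hg : g ∈ NS S) (hs : s ∈ S) : g * s * g⁻¹ ∈ S :=
  (mem_normalizer_iff.1 hg s).1 hs

lemma cent_of_conj_eq {a b t : G} (h : a * t * a⁻¹ = b * t * b⁻¹) :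
    a⁻¹ * b ∈ centralizer ({t} : Set G) := conj_eq_iff.1 (by
  calc a⁻¹ * b * t * (a⁻¹ * b)⁻¹ = a⁻¹ * (b * t * b⁻¹) * a := by group
    _ = t := by rw [← h]; group)

namespace C1

variable (c : C1 G) (S : Sylow 2 G) {t : G} (ht : t ∈ S) (t1 : t ≠ 1)
include c ht t1

lemma cent_le {s : G} (hs : s ∈ S) : centralizer ({t} : Set G) ≤ centralizer {s} := fun x hx =>
  mem_centralizer_singleton_iff.2 (c.hI t x s (c.S_sq S ht) t1 (c.S_sq S hs)
    (mem_centralizer_singleton_iff.1 hx) (c.S_comm S hs ht))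

lemma K_le : centralizer ({t} : Set G) ≤ NS S := fun x hx =>
  mem_normalizer_fintype fun y hy => by rwa [conj_eq_iff.2 (c.cent_le S ht t1 hy hx)]

lemma ti {g : G} (h : g * t * g⁻¹ ∈ S) : g ∈ NS S := by
  obtain ⟨a, ha, e⟩ := c.trans S ht t1 h (conj_ne_one t1)
  exact (mul_mem_cancel_left (inv_mem ha)).1 (c.K_le S ht t1 (cent_of_conj_eq e))

lemma nm_K : Nm (NS S) (centralizer {t}) := fun g hg x hx =>
  c.cent_le S (conj_mem_S hg ht) (conj_ne_one t1) ht (mem_centralizer_singleton_iff.2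
    ((conj_comm_iff g t x).2 (mem_centralizer_singleton_iff.1 hx)))

lemma cyc {g : G} (hg : g ∈ NS S) (h : g ∉ centralizer ({t} : Set G)) :
    ∀ s ∈ S, s ≠ 1 → ∃ i < 7, g ^ i * t * (g ^ i)⁻¹ = s :=
  (c.cyc_of S (fun _ => conj_mem_S hg) ht t1 (k := 1)
    (c.rel_seven S ht t1 ▸ pow_rel_mem (c.K_le S ht t1) (c.nm_K S ht t1) hg :
      g ^ 7 ∈ centralizer ({t} : Set G)) h).1

lemma le_N {M : Subgroup G} (hM : M ≠ ⊤) (hS : (S : Subgroup G) ≤ M) : M ≤ NS S := by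
  rcases c.types_S S hM hS with h | h | h | h
  · obtain ⟨O, -, h2, h3, e, h4⟩ := h
    obtain ⟨b, hb, b1, bt⟩ := c.exists_two S t
    have key : ∀ s ∈ S, s ≠ 1 → centralizer ({s} : Set G) = centralizer {t} := fun s hs s1 =>
      le_antisymm (c.cent_le S hs s1 ht) (c.cent_le S ht t1 hs)
    refine (c.le_of_odd S hS h4 (c.cent_of_sylow S h3 (fun y hy => h2 y (hS hy)) ht hb
      fun r _ _ => ?_) (c.S_le_cent S ht)).trans (c.K_le S ht t1)
    rw [key b hb b1, key _ (mul_mem ht hb) fun e => bt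
      ((eq_inv_of_mul_eq_one_right e).trans (inv_eq_of_mul_eq_one_right (c.S_sq S ht)))]
    exact ⟨rfl, rfl⟩
  · obtain ⟨B, -, h1, -, h3, g, -, -, x, h4, h5⟩ := h
    have h6 := c.le_S S h3 fun y hy => h1 y (hS hy)
    exact fun a ha => c.ti S (h6 h4) (fun e => h5 (by simp [e])) (h6 (h1 a ha x h4))
  · obtain ⟨B, -, h1, h2, h3, -⟩ := h
    obtain rfl := c.eq_S S h2 h3 fun y hy => h1 y (hS hy)
    exact fun a ha => mem_normalizer_fintype (h1 a ha)
  · obtain ⟨L, h1, h2, p, k, m, h3, -⟩ := h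
    obtain ⟨v, h4, h5, h6⟩ := c.exists_inv' S hS h1 h2 h3
    obtain ⟨k0, K, k1, k2, k3, k4, -, k6, -⟩ := h3.cent v h4 (c.S_sq S h5) h6
    obtain ⟨u, hu, hu'⟩ : ∃ u ∈ L ⊓ centralizer {v}, u ∉ K := by
      by_contra hcon
      push Not at hcon
      have := (h3.rel k1 k3 k4 k2 k0).2
      rw [relIndex_eq_one.2 hcon] at this
      omega
    have u2 := (k6 u hu.1 (mem_centralizer_singleton_iff.1 hu.2) hu').1
    obtain ⟨g, hg, e⟩ := h3.conj v h4 u hu.1 (c.S_sq S h5) h6 u2 fun e => hu' (e ▸ one_mem K)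
    have h7 := c.ti S h5 h6 (e ▸ c.mem_of_NS S (c.K_le S h5 h6 hu.2) u2)
    refine (c.not_S_le S h3 fun s hs => ?_).elim
    by_cases s1 : s = 1
    · exact s1 ▸ one_mem _
    · obtain ⟨i, -, rfl⟩ := c.cyc S h5 h6 h7
        (fun h => hu' (e ▸ (conj_eq_iff.2 h).symm ▸ k3)) s hs s1
      exact mul_mem (mul_mem (pow_mem hg i) h4) (inv_mem (pow_mem hg i))

lemma cent_le_N {d : G} (hd : d ∈ centralizer ({t} : Set G)) (d1 : d ≠ 1) :
    centralizer ({d} : Set G) ≤ NS S :=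
  c.le_N S ht t1 (c.cent_ne_top d1) fun _ hs => mem_centralizer_singleton_iff.2
    (mem_centralizer_singleton_iff.1 (c.cent_le S ht t1 hs hd)).symm

lemma eq_one_of_inv {d u : G} (hd : d ∈ centralizer ({t} : Set G)) (hu : u ∉ NS S)
    (h : u * d * u⁻¹ = d⁻¹) : d = 1 := by
  by_contra d1
  refine hu (c.le_N S ht t1 (c.nm_zp_ne_top d1) (fun s hs => mem_normalizer_fintype (nm_zp ?_))
    (mem_normalizer_fintype (inv_zp' h)))
  rw [← mem_centralizer_singleton_iff.1 (c.cent_le S ht t1 hs hd), mul_inv_cancel_right]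
  exact mem_zpowers d

lemma surj {a s : G} (ha : a ∉ NS S) (hs : s ∈ S) (s1 : s ≠ 1) :
    ∃ x, x * x = 1 ∧ x ∉ NS S ∧ x * t * x⁻¹ = a * s * a⁻¹ := by
  have key : ∀ g, g ∉ NS S → ∀ s ∈ S, s ≠ 1 →
      g * s * g⁻¹ ∈ {x : G | x * x = 1 ∧ x ∉ NS S} := fun g hg s hs s1 =>
    ⟨conj_sq g (c.S_sq S hs), fun h =>
      hg (c.ti S hs s1 (c.mem_of_NS S h (conj_sq g (c.S_sq S hs))))⟩
  have hm : Set.MapsTo (fun x => x * t * x⁻¹) {x : G | x * x = 1 ∧ x ∉ NS S}
      {x : G | x * x = 1 ∧ x ∉ NS S} := fun x hx => key x hx.2 t ht t1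
  obtain ⟨x, hx, e⟩ := (((Set.toFinite _).injOn_iff_bijOn_of_mapsTo hm).1 fun x hx y hy h =>
    inv_mul_eq_one.1 (c.eq_one_of_inv S ht t1 (cent_of_conj_eq h) hx.2 (by
      rw [mul_inv_cancel_left, mul_inv_rev, inv_inv, inv_eq_of_mul_eq_one_right hx.1,
        inv_eq_of_mul_eq_one_right hy.1]))).surjOn (key a ha s hs s1)
  exact ⟨x, hx.1, hx.2, e⟩

lemma exists_c {x : G} (x2 : x * x = 1) (hx : x ∉ NS S) :
    ∃ e ∈ NS S, e ∉ centralizer ({t} : Set G) ∧ x * e * x⁻¹ = e⁻¹ ∧ e ^ 7 = 1 := by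
  obtain ⟨s, hs, s1, st⟩ := c.exists_two S t
  obtain ⟨y, y2, -, h⟩ := c.surj S ht t1 hx hs s1
  have h1 : x⁻¹ * y * t * (x⁻¹ * y)⁻¹ = s := by
    calc x⁻¹ * y * t * (x⁻¹ * y)⁻¹ = x⁻¹ * (y * t * y⁻¹) * x := by group
      _ = s := by rw [h]; group
  have h2 := c.ti S ht t1 (h1 ▸ hs)
  have h3 : x * (x⁻¹ * y) * x⁻¹ = (x⁻¹ * y)⁻¹ := by
    rw [mul_inv_cancel_left, mul_inv_rev, inv_inv, inv_eq_of_mul_eq_one_right x2,
      inv_eq_of_mul_eq_one_right y2]
  exact ⟨_, h2, fun e => st (h1.symm.trans (conj_eq_iff.2 e)), h3, c.eq_one_of_inv S ht t1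
    (c.rel_seven S ht t1 ▸ pow_rel_mem (c.K_le S ht t1) (c.nm_K S ht t1) h2) hx
    (inv_zp h3 _ (pow_mem (mem_zpowers _) 7))⟩

omit ht t1 in
lemma not_three_dvd : ¬ 3 ∣ Nat.card G := fun h3 => by
  obtain ⟨w, -, ho⟩ := exists_order (X := (⊤ : Subgroup G)) Nat.prime_three (by rwa [card_top])
  obtain ⟨t, t2, htw⟩ := c.exists_inv_three ho
  have w3 : w ^ 3 = 1 := ho ▸ pow_orderOf_eq_one w
  have hw : ∀ j, w ^ j = 1 → 3 ∣ j := fun j h => ho ▸ orderOf_dvd_of_pow_eq_one h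
  have t1 : t ≠ 1 := by
    rintro rfl
    have := hw 2 (by rw [pow_two, mul_eq_one_iff_eq_inv, ← htw]; simp)
    omega
  obtain ⟨S, ht⟩ := Cx.exists_S t2
  have hti := inv_eq_of_mul_eq_one_right t2
  set x := w * t * w⁻¹ with hx
  have x2 : x * x = 1 := conj_sq w t2
  have hxi := inv_eq_of_mul_eq_one_right x2
  have hxt : x * t = w * w := by
    have := inv_zp htw _ (inv_mem (mem_zpowers w))
    rw [hti, inv_inv] at this
    rw [hx, mul_assoc, mul_assoc, ← mul_assoc t, this]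
  have hxN : x ∉ NS S := fun h => by
    have := hw 4 (by
      rw [← c.S_sq S (mul_mem (c.mem_of_NS S h x2) ht), hxt, pow_succ, pow_three]; group)
    omega
  have hrel : x * t * x = t * x * t := by
    have h1 : x * t * (x * t) * (x * t) = 1 := by
      rw [hxt, ← one_mul 1, ← w3, pow_three]; group
    have h2 : x * t * x = (t * x * t)⁻¹ := eq_inv_of_mul_eq_one_left (by rw [← h1]; group)
    rw [h2, mul_inv_rev, mul_inv_rev, hti, hxi, mul_assoc t x t]
  obtain ⟨e, he, he1, he2, -⟩ := c.exists_c S ht t1 x2 hxN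
  let Δ : Set (G ⧸ NS S) :=
    insert ((1 : G) : G ⧸ NS S) ((fun s => ((s * x : G) : G ⧸ NS S)) '' (S : Subgroup G))
  have hst : ∀ g : G, (∀ q ∈ Δ, g • q ∈ Δ) → g ∈ MulAction.stabilizer G Δ := fun g hg =>
    Set.eq_of_subset_of_ncard_le (Set.smul_set_subset_iff.2 fun q hq => hg q hq)
      (Set.ncard_smul_set g Δ).ge
  have hS : ∀ s ∈ S, s ∈ MulAction.stabilizer G Δ := fun s hs => hst s (by
    rintro _ (rfl | ⟨a, ha, rfl⟩)
    · have h1 : s ∈ NS S := le_normalizer hs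
      exact Or.inl (QuotientGroup.eq.2 (by simpa using h1))
    · exact Or.inr ⟨s * a, mul_mem hs ha, congrArg _ (mul_assoc _ _ _)⟩)
  have hxT : x ∈ MulAction.stabilizer G Δ := hst x (by
    rintro _ (rfl | ⟨a, ha, rfl⟩)
    · exact Or.inr ⟨1, one_mem _, congrArg _ ((one_mul x).trans (mul_one x).symm)⟩
    · by_cases a1 : a = 1
      · refine Or.inl ?_
        change ((x * (a * x) : G) : G ⧸ NS S) = _
        rw [a1, one_mul, x2]
      · obtain ⟨j, -, rfl⟩ := c.cyc S ht t1 he he1 a ha a1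
        have h1 := inv_zp he2 _ (pow_mem (mem_zpowers e) j)
        have h2 := pow_mem he j
        generalize e ^ j = f at h1 h2
        refine Or.inr ⟨f⁻¹ * t * f⁻¹⁻¹, conj_mem_S (inv_mem h2) ht, QuotientGroup.eq.2 ?_⟩
        have h3 : x * (f * t * f⁻¹ * x) = f⁻¹ * t * f⁻¹⁻¹ * x * (f * t * f) := by
          calc x * (f * t * f⁻¹ * x) = (x * f * x⁻¹) * (x * t * x⁻¹) * (x * f * x⁻¹)⁻¹ * (x * x) := by
                group
            _ = f⁻¹ * (t * x * t) * f := by rw [h1, x2, hxi, hrel]; group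
            _ = f⁻¹ * t * (x * f * x⁻¹)⁻¹ * x * (f * t * f) := by group
            _ = _ := by rw [h1]
        change (f⁻¹ * t * f⁻¹⁻¹ * x)⁻¹ * (x * (f * t * f⁻¹ * x)) ∈ NS S
        rw [h3, inv_mul_cancel_left]
        exact mul_mem (mul_mem h2 (le_normalizer ht)) h2)
  have horb : MulAction.orbit (MulAction.stabilizer G Δ) ((1 : G) : G ⧸ NS S) = Δ := by
    ext q
    constructor
    · rintro ⟨g, rfl⟩
      have h1 : (g : G) • ((1 : G) : G ⧸ NS S) ∈ (g : G) • Δ :=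
        Set.smul_mem_smul_set (Set.mem_insert _ _)
      rwa [show (g : G) • Δ = Δ from g.2] at h1
    · rintro (rfl | ⟨a, ha, rfl⟩)
      · exact MulAction.mem_orbit_self _
      · exact ⟨⟨a * x, mul_mem (hS a ha) hxT⟩, congrArg _ (mul_one _)⟩
  have hcard : Δ.ncard = 9 := by
    rw [Set.ncard_insert_of_notMem, Set.InjOn.ncard_image, ← Nat.card_coe_set_eq,
      SetLike.coe_sort_coe, c.card_S]
    · intro a ha b hb h
      by_contra hab
      have h1 : x⁻¹ * (a⁻¹ * b) * x⁻¹⁻¹ ∈ NS S := by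
        simpa [mul_assoc] using QuotientGroup.eq.1 h
      have h2 := mul_mem (inv_mem ha) hb
      exact hxN (inv_mem_iff.1 (c.ti S h2 (fun e => hab (inv_mul_eq_one.1 e))
        (c.mem_of_NS S h1 (conj_sq _ (c.S_sq S h2)))))
    · rintro ⟨a, ha, h⟩
      have h1 : a * x ∈ NS S := by simpa using QuotientGroup.eq.1 h.symm
      exact hxN ((mul_mem_cancel_left (le_normalizer ha)).1 h1)
  refine c.eight.1 ?_
  rw [← hcard, ← horb, ← MulAction.index_stabilizer]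
  exact (index_dvd_card _).trans (card_subgroup_dvd_card _)

end C1

end Pool.Agent.Lib.MP_cb9dee_al.J
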