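import Pool.Agent.Lib.MP_cb9dee_al.JTwo

/-! The first case is impossible. -/

set_option linter.unusedSectionVars false

namespace Pool.Agent.Lib.MP_cb9dee_al.J

open Subgroup

variable {G : Type} [Group G] [Finite G]

lemma Cx.ncard_sq (c : Cx G) {t : G} (t2 : t * t = 1) (t1 : t ≠ 1) :
    Set.ncard {x : G | x * x = 1} = (centralizer {t}).index + 1 := by
  have := J.ncard_sq (mem_top t) t2 t1 fun x _ x2 x1 =>
    (c.conj_all t2 t1 x2 x1).imp fun g hg => ⟨mem_top g, hg⟩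
  simpa using this

lemma Cx.ncard_out (c : Cx G) (S : Sylow 2 G) :
    Set.ncard {x : G | x * x = 1} = Set.ncard {x : G | x * x = 1 ∧ x ∉ NS S} + 8 := by
  have h1 : Set.ncard ((S : Subgroup G) : Set G) = 8 := by
    rw [← Nat.card_coe_set_eq]; exact c.card_S S
  rw [← h1, ← Set.ncard_union_eq (Set.disjoint_left.2 fun x hx h => hx.2 (le_normalizer h))]
  congr 1
  ext x
  constructor
  · intro h
    by_cases e : x ∈ NS S
    · exact Or.inr (c.mem_of_NS S e h)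
    · exact Or.inl ⟨h, e⟩
  · rintro (h | h)
    exacts [h.1, c.S_sq S h]

lemma comm_of_inv {x y e : G} (h1 : x * e * x⁻¹ = e⁻¹) (h2 : y * e * y⁻¹ = e⁻¹) :
    x⁻¹ * y ∈ centralizer ({e} : Set G) := cent_of_conj_eq (h1.trans h2.symm)

namespace C1

variable (c : C1 G) (S : Sylow 2 G) {t : G} (ht : t ∈ S) (t1 : t ≠ 1)
  {x e : G} (x2 : x * x = 1) (hx : x ∉ NS S) (he : e ∈ NS S)
  (he1 : e ∉ centralizer ({t} : Set G)) (he2 : x * e * x⁻¹ = e⁻¹) (he7 : e ^ 7 = 1)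
include c ht t1 x2 hx he he1 he2 he7

lemma inv_cent : ∀ y ∈ centralizer ({e} : Set G), x * y * x⁻¹ = y⁻¹ := by
  refine inv_of_fpf (fun y hy => mem_centralizer_singleton_iff.2 ?_) x2 fun y hy h => ?_
  · have h1 := (conj_comm_iff x e y).2 (mem_centralizer_singleton_iff.1 hy)
    rw [he2] at h1
    exact (Commute.inv_right_iff.1 h1 :)
  · by_contra y1
    obtain ⟨S', hS'⟩ := Cx.exists_S x2
    have h1 := c.cent_le_N S' hS' (fun e => hx (e ▸ one_mem _))
      (mem_centralizer_singleton_iff.2 h) y1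
      (mem_centralizer_singleton_iff.2 (mem_centralizer_singleton_iff.1 hy).symm)
    have h2 := mul_mem (conj_mem_S h1 hS') (inv_mem hS')
    rw [show e * x * e⁻¹ * x⁻¹ = e * (x * e * x⁻¹)⁻¹ by group, he2, inv_inv] at h2
    have h3 : e ^ 4 = 1 := by rw [← c.S_sq S' h2, pow_succ, pow_three]; group
    exact he1 (mem_of_coprime (h3 ▸ one_mem _) (he7 ▸ one_mem _) (by decide))

lemma fpf {y : G} (h1 : y ∈ centralizer ({t} : Set G)) (h2 : y ∈ centralizer ({e} : Set G)) :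
    y = 1 :=
  c.eq_one_of_inv S ht t1 h1 hx (c.inv_cent S ht t1 x2 hx he he1 he2 he7 y h2)

lemma modEq {X : Subgroup G} (h : X ≤ centralizer {t}) (hn : ∀ y ∈ X, e * y * e⁻¹ ∈ X) :
    Nat.card X ≡ 1 [MOD 7] := by
  have h1 := card_modEq hn (by norm_num) he7
  rwa [(eq_bot_iff_forall (X ⊓ centralizer {e})).2 fun y hy =>
    c.fpf S ht t1 x2 hx he he1 he2 he7 (h hy.1) hy.2, card_bot] at h1

lemma not_seven : ¬ 7 ∣ Nat.card (centralizer {t} : Subgroup G) := by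
  have := c.modEq S ht t1 x2 hx he he1 he2 he7 le_rfl (c.nm_K S ht t1 e he)
  unfold Nat.ModEq at this
  omega

lemma ti_K {a d : G} (hd : d ∈ centralizer ({t} : Set G)) (d1 : d ≠ 1)
    (h : a⁻¹ * d * a ∈ NS S) : a ∈ NS S := by
  have h1 : a⁻¹ * d * a ∈ centralizer ({t} : Set G) :=
    mem_of_nm (c.K_le S ht t1) (c.nm_K S ht t1) h (d := Nat.card (centralizer {t} : Subgroup G))
      (by
        rw [c.rel_seven S ht t1]
        exact ((Nat.Prime.coprime_iff_not_dvd (by norm_num)).2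
          (c.not_seven S ht t1 x2 hx he he1 he2 he7)).symm)
      (by
        have := conj_pow (a := a⁻¹) (b := d) (i := Nat.card (centralizer {t} : Subgroup G))
        rw [inv_inv, pow_card_of_mem hd] at this
        simpa using this)
  have h2 : a * t * a⁻¹ ∈ centralizer ({d} : Set G) := mem_centralizer_singleton_iff.2 (by
    have := (conj_comm_iff a t _).2 (mem_centralizer_singleton_iff.1 h1)
    simpa [mul_assoc] using this.symm)
  exact c.ti S ht t1 (c.mem_of_NS S (c.cent_le_N S ht t1 hd d1 h2) (conj_sq a (c.S_sq S ht)))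

omit x2 hx he2 he7 in
lemma decomp {g : G} (hg : g ∈ NS S) : ∃ i : ℕ, (e ^ i)⁻¹ * g ∈ centralizer ({t} : Set G) := by
  obtain ⟨i, -, h⟩ := c.cyc S ht t1 he he1 _ (conj_mem_S hg ht) (conj_ne_one t1)
  exact ⟨i, cent_of_conj_eq h⟩

lemma cent_e : centralizer ({e} : Set G) ≤ zpowers e := fun a ha => by
  have hi : ∀ i : ℕ, e ^ i ∈ centralizer ({e} : Set G) := fun i =>
    pow_mem (mem_centralizer_singleton_iff.2 rfl) i
  by_cases h : a ∈ NS S
  · obtain ⟨i, h1⟩ := c.decomp S ht t1 he he1 h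
    rw [← inv_mul_eq_one.1 (c.fpf S ht t1 x2 hx he he1 he2 he7 h1 (mul_mem (inv_mem (hi i)) ha))]
    exact pow_mem (mem_zpowers e) i
  exfalso
  obtain ⟨y, y2, hy, h1⟩ := c.surj S ht t1 h ht t1
  have hm := cent_of_conj_eq h1.symm
  obtain ⟨f, f1, f2, f3, f4⟩ := c.exists_c S ht t1 y2 hy
  obtain ⟨i, h2⟩ := c.decomp S ht t1 he he1 f1
  have h3 : a⁻¹ * e ^ i * a = e ^ i := by
    have := conj_pow (a := a⁻¹) (b := e) (i := i)
    rw [conj_eq_iff.2 (inv_mem ha), inv_inv] at this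
    exact this.symm
  have h4 : a⁻¹ * f⁻¹ * a = a⁻¹ * y * f * (a⁻¹ * y)⁻¹ := by rw [← f3]; group
  have h5 : e ^ i = f := by
    by_contra h5
    refine h (c.ti_K S ht t1 x2 hx he he1 he2 he7 h2 (fun e => h5 (inv_mul_eq_one.1 e)) ?_)
    have h6 := c.K_le S ht t1 hm
    rw [show a⁻¹ * ((e ^ i)⁻¹ * f) * a = (a⁻¹ * e ^ i * a)⁻¹ * (a⁻¹ * f⁻¹ * a)⁻¹ by group, h3, h4]
    exact mul_mem (inv_mem (pow_mem he i)) (inv_mem (mul_mem (mul_mem h6 f1) (inv_mem h6)))
  rw [h5] at h3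
  have h6 := mul_mem (c.nm_K S ht t1 f f1 _ hm) (inv_mem hm)
  rw [show f * (a⁻¹ * y) * f⁻¹ * (a⁻¹ * y)⁻¹ = f * (a⁻¹ * y * f * (a⁻¹ * y)⁻¹)⁻¹ by group, ← h4,
    show (a⁻¹ * f⁻¹ * a)⁻¹ = a⁻¹ * f * a by group, h3, ← pow_two] at h6
  exact f2 (mem_of_coprime h6 (f4 ▸ one_mem _) (by decide))

lemma index_ge : Nat.card (centralizer {t} : Subgroup G) + 1 ≤ (NS S).index := by
  rw [← Finite.card_option]
  refine Nat.card_le_card_of_injective (fun o : Option (centralizer {t} : Subgroup G) =>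
    (o.elim ((1 : G) : G ⧸ NS S) fun k => ((k * x : G) : G ⧸ NS S))) ?_
  have h0 : ∀ k : (centralizer {t} : Subgroup G),
      ((1 : G) : G ⧸ NS S) ≠ ((k * x : G) : G ⧸ NS S) := fun k h => by
    have h1 : k * x ∈ NS S := by simpa using QuotientGroup.eq.1 h
    exact hx ((mul_mem_cancel_left (c.K_le S ht t1 k.2)).1 h1)
  rintro (_ | a) (_ | b) h
  · rfl
  · exact (h0 b h).elim
  · exact (h0 a h.symm).elim
  · by_contra hab
    refine hx (c.ti_K S ht t1 x2 hx he he1 he2 he7 (mul_mem (inv_mem a.2) b.2)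
      (fun e => hab (congrArg _ (Subtype.ext (inv_mul_eq_one.1 e)))) ?_)
    simpa [mul_assoc] using QuotientGroup.eq.1 h

lemma ncard_le : Set.ncard {x : G | x * x = 1 ∧ x ∉ NS S} ≤
    Nat.card (centralizer {t} : Subgroup G) * 7 := by
  have : Fact (Nat.Prime 7) := ⟨by norm_num⟩
  have e1 : e ≠ 1 := fun h => he1 (h ▸ one_mem _)
  have ho : Nat.card (zpowers e) = 7 := (Nat.card_zpowers e).trans (orderOf_eq_prime he7 e1)
  rw [← ho, ← Nat.card_prod, ← Set.ncard_univ]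
  refine le_trans (Set.ncard_le_ncard (t := (fun q : (centralizer {t} : Subgroup G) × zpowers e =>
    (q.1 : G)⁻¹ * (x * q.2) * q.1) '' Set.univ) fun z hz => ?_) (Set.ncard_image_le)
  obtain ⟨f, f1, f2, f3, f4⟩ := c.exists_c S ht t1 hz.1 hz.2
  have h7 : ¬ 7 ∣ (zpowers e).relIndex (NS S) := by
    have h1 := card_mul_rel (zpowers_le_of_mem he)
    rw [← card_mul_rel (c.K_le S ht t1), c.rel_seven S ht t1, ho] at h1
    have := c.not_seven S ht t1 x2 hx he he1 he2 he7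
    omega
  obtain ⟨g, hg, h1⟩ := sylow_conj (isP_zp f4) (isP_zp he7) (zpowers_le_of_mem f1) h7
  obtain ⟨i, h2⟩ := c.decomp S ht t1 he he1 hg
  set k := (e ^ i)⁻¹ * g with hk
  have h3 : k * f * k⁻¹ ∈ zpowers e := by
    have h4 := pow_mem (mem_zpowers e) i
    have := mul_mem (mul_mem (inv_mem h4) (h1 f (mem_zpowers f))) h4
    rwa [show (e ^ i)⁻¹ * (g * f * g⁻¹) * e ^ i = k * f * k⁻¹ by rw [hk]; group] at this
  have h4 : e ∈ zpowers (k * f * k⁻¹) := by
    obtain ⟨j, hj⟩ := mem_zpowers_of_prime_card ho (g := ⟨_, h3⟩) (g' := ⟨e, mem_zpowers e⟩)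
      fun h => conj_ne_one (t := f) (fun h => f2 (h ▸ one_mem _)) (congrArg Subtype.val h)
    exact ⟨j, congrArg Subtype.val hj⟩
  have h5 := inv_zp (u := k * z * k⁻¹) (w := k * f * k⁻¹) (by
    calc k * z * k⁻¹ * (k * f * k⁻¹) * (k * z * k⁻¹)⁻¹ = k * (z * f * z⁻¹) * k⁻¹ := by group
      _ = _ := by rw [f3]; group) e h4
  exact ⟨(⟨k, h2⟩, ⟨_, c.cent_e S ht t1 x2 hx he he1 he2 he7 (comm_of_inv he2 h5)⟩), trivial,
    by simp only; group⟩

lemma card_K : Nat.card (centralizer {t} : Subgroup G) % 3 = 2 := by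
  have : Fact (Nat.Prime 7) := ⟨by norm_num⟩
  have := Fact.mk Nat.prime_two
  have h0 : Nat.card (centralizer {t} : Subgroup G) ≠ 0 := Nat.card_pos.ne'
  have h2 := card_eq_pow S.isPGroup' (c.S_le_cent S ht)
    (c.odd_rel S le_rfl (c.S_le_cent S ht))
  rw [c.card_S] at h2
  have h3 : 2 ∈ (Nat.card (centralizer {t} : Subgroup G)).primeFactors :=
    Nat.mem_primeFactors.2 ⟨Nat.prime_two, (by decide : 2 ∣ 8).trans
      (c.card_S S ▸ card_dvd_of_le (c.S_le_cent S ht)), h0⟩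
  rw [← Nat.prod_factorization_pow_eq_self h0, Finsupp.prod, Nat.support_factorization,
    ← Finset.mul_prod_erase _ _ h3, ← h2, Nat.mul_mod, Finset.prod_induction _ (fun n => n % 3 = 1)
      (fun a b ha hb => by rw [Nat.mul_mod, ha, hb]) rfl]
  intro r hr
  obtain ⟨r2, hr⟩ := Finset.mem_erase.1 hr
  obtain ⟨hr, hd, -⟩ := Nat.mem_primeFactors.1 hr
  have := Fact.mk hr
  have hdG := hd.trans (card_subgroup_dvd_card _)
  obtain ⟨R, r1, r3, r4, r5⟩ := inv_sylow r (isP_zp he7)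
    (fun g hg => c.nm_K S ht t1 g (zpowers_le_of_mem he hg))
    (c.not_seven S ht t1 x2 hx he he1 he2 he7)
  have h4 := c.modEq S ht t1 x2 hx he he1 he2 he7 r1 (r5 e (mem_zpowers e))
  have h5 := c.card_dvd_sq hr r2 r3
  rw [card_eq_pow r3 r1 r4] at h4 h5
  have h6 := (Nat.pow_dvd_pow_iff_le_right hr.one_lt).1 h5
  have h7 := hr.factorization_pos_of_dvd h0 hd
  generalize (Nat.card (centralizer {t} : Subgroup G)).factorization r = j at *
  interval_cases j
  · rw [pow_one] at h4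
    exact (c.eight.2.2.2.2 c.seven_dvd r hr hdG ((Nat.modEq_iff_dvd' hr.one_le).1 h4.symm)).elim
  · have h8 : ¬ 3 ∣ r := fun h => c.not_three_dvd (h.trans hdG)
    have : r % 3 = 1 ∨ r % 3 = 2 := by omega
    rcases this with h | h <;> rw [Nat.pow_mod, h]

end C1

theorem C1.false (c : C1 G) : False := by
  obtain ⟨S⟩ : Nonempty (Sylow 2 G) := inferInstance
  obtain ⟨t, ht, t1⟩ := c.exists_one S
  obtain ⟨a, ha⟩ : ∃ a, a ∉ NS S := by
    by_contra h
    push Not at h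
    exact c.nm_ne_top (c.ne_top_of_comm fun x hx y hy => c.S_comm S hx hy) subset_rfl ht t1
      (eq_top_iff.2 fun x _ => h x)
  obtain ⟨x, x2, hx, -⟩ := c.surj S ht t1 ha ht t1
  obtain ⟨e, he, he1, he2, he7⟩ := c.exists_c S ht t1 x2 hx
  have h1 := c.index_ge S ht t1 x2 hx he he1 he2 he7
  have h2 := c.ncard_le S ht t1 x2 hx he he1 he2 he7
  have h3 := c.card_K S ht t1 x2 hx he he1 he2 he7
  have h4 := c.ncard_sq (c.S_sq S ht) t1
  have h5 := c.ncard_out S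
  have h6 := relIndex_mul_index (c.K_le S ht t1)
  rw [c.rel_seven S ht t1] at h6
  exact c.not_three_dvd ((by omega : 3 ∣ (NS S).index).trans (index_dvd_card _))

end Pool.Agent.Lib.MP_cb9dee_al.J
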