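import Pool.Agent.Lib.MP_cb9dee_al.JCtx

/-! Fusion of involutions, and the proper subgroups that contain a Sylow `2`-subgroup. -/

set_option linter.unusedSectionVars false

namespace Pool.Agent.Lib.MP_cb9dee_al.J

open Subgroup

variable {G : Type} [Group G] [Finite G]

lemma mem_of_coprime {H : Subgroup G} {x : G} {a b : ℕ} (ha : x ^ a ∈ H) (hb : x ^ b ∈ H)
    (h : a.Coprime b) : x ∈ H := by
  have h1 := Nat.gcd_eq_gcd_ab a b
  rw [h.gcd_eq_one] at h1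
  have h2 : x = (x ^ a) ^ a.gcdA b * (x ^ b) ^ a.gcdB b := by
    rw [← zpow_natCast, ← zpow_natCast, ← zpow_mul, ← zpow_mul, ← zpow_add, ← h1]
    simp
  rw [h2]
  exact mul_mem (zpow_mem ha _) (zpow_mem hb _)

lemma conj_eq_iff {g t : G} : g * t * g⁻¹ = t ↔ g ∈ centralizer ({t} : Set G) := by
  rw [mem_centralizer_singleton_iff, mul_inv_eq_iff_eq_mul]

lemma conj_ne_one {g t : G} (h : t ≠ 1) : g * t * g⁻¹ ≠ 1 := fun e => h (by simpa using e)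

lemma conj_sq {t : G} (g : G) (h : t * t = 1) : g * t * g⁻¹ * (g * t * g⁻¹) = 1 := by
  rw [conj_mul, h]; simp

lemma nm_pow {X : Set G} {g : G} (h : ∀ y ∈ X, g * y * g⁻¹ ∈ X) (i : ℕ) :
    ∀ y ∈ X, g ^ i * y * (g ^ i)⁻¹ ∈ X := fun y hy =>
  (mem_set_normalizer_iff.1 (pow_mem (mem_normalizer_fintype h) i) y).1 hy

lemma eq_one_of_odd {O : Subgroup G} (hO : ¬ 2 ∣ Nat.card O) {x : G} (hx : x ∈ O)
    (h : x * x = 1) : x = 1 :=
  eq_one_of_eq_inv (fun e => hO (e.trans (O.orderOf_dvd_natCard hx)))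
    (eq_inv_of_mul_eq_one_right h)

lemma GI.fix {M : Subgroup G} (h : GI M) {w a : G} (hw : w ∈ M) (ho : ¬ 2 ∣ orderOf w) (ha : a ∈ M)
    (a2 : a * a = 1) (hc : w * a * w⁻¹ * a = a * (w * a * w⁻¹)) : w * a * w⁻¹ = a := by
  obtain ⟨O, h1, h2, h3, e, h4⟩ := h
  have h5 : w ∈ O := mem_of_nm h1 h2 hw (d := orderOf w)
    (h4 ▸ ((Nat.Prime.coprime_iff_not_dvd Nat.prime_two).2 ho).symm.pow_right e)
    (pow_orderOf_eq_one w)
  have h6 : w * a * w⁻¹ * a ∈ O := by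
    have := mul_mem h5 (h2 a ha _ (inv_mem h5))
    rwa [inv_eq_of_mul_eq_one_right a2, ← mul_assoc, ← mul_assoc] at this
  have h7 := eq_one_of_odd h3 h6 (by
    calc w * a * w⁻¹ * a * (w * a * w⁻¹ * a)
        = w * a * w⁻¹ * (a * (w * a * w⁻¹)) * a := by group
      _ = w * a * w⁻¹ * (w * a * w⁻¹) * (a * a) := by rw [← hc]; group
      _ = 1 := by rw [conj_sq w a2, a2, one_mul])
  rw [eq_inv_of_mul_eq_one_left h7, inv_eq_of_mul_eq_one_right a2]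

lemma GP.k_pos {L : Subgroup G} {p k m : ℕ} (h : GP L p k m) : 2 ≤ k := by
  have h1 := h.five
  have h2 := h.par
  omega

lemma GP.rel {L K : Subgroup G} {p k m : ℕ} (h : GP L p k m) {t : G} (hK : K ≤ L) (ht : t ∈ K)
    (hc : ∀ x ∈ K, ∀ y ∈ K, x * y = y * x) (h1 : Nat.card K = k)
    (h2 : Nat.card (L ⊓ centralizer {t} : Subgroup G) = 2 * k) :
    K ≤ L ⊓ centralizer {t} ∧ K.relIndex (L ⊓ centralizer {t}) = 2 := by
  have h3 : K ≤ L ⊓ centralizer {t} :=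
    le_inf hK fun x hx => mem_centralizer_singleton_iff.2 (hc x hx t ht)
  have h4 := card_mul_rel h3
  have h5 := h.k_pos
  rw [h1, h2, mul_comm] at h4
  exact ⟨h3, Nat.eq_of_mul_eq_mul_right (by omega) h4⟩

namespace Cx

variable (c : Cx G)
include c

lemma ncard_S (S : Sylow 2 G) : Set.ncard {x | x ∈ S ∧ x ≠ 1} = 7 := by
  have h1 : Set.ncard ((S : Subgroup G) : Set G) = 8 := by
    rw [← Nat.card_coe_set_eq]; exact c.card_S S
  have h2 := Set.ncard_sdiff_singleton_add_one (s := ((S : Subgroup G) : Set G)) (one_mem _)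
  rw [h1] at h2
  have h3 : {x | x ∈ S ∧ x ≠ 1} = ((S : Subgroup G) : Set G) \ {1} := rfl
  rw [h3]
  omega

lemma exists_not_mem (S : Sylow 2 G) {F : Set G} (hF : F.ncard < 8) : ∃ x ∈ S, x ∉ F := by
  by_contra h
  push Not at h
  have h1 : Set.ncard ((S : Subgroup G) : Set G) = 8 := by
    rw [← Nat.card_coe_set_eq]; exact c.card_S S
  have := Set.ncard_le_ncard (s := ((S : Subgroup G) : Set G)) (t := F) h
  omega

lemma exists_one (S : Sylow 2 G) : ∃ t ∈ S, t ≠ 1 :=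
  c.exists_not_mem S (F := {1}) (by simp)

lemma exists_two (S : Sylow 2 G) (t : G) : ∃ s ∈ S, s ≠ 1 ∧ s ≠ t := by
  obtain ⟨s, h1, h2⟩ := c.exists_not_mem S (F := {1, t})
    (lt_of_le_of_lt (Set.ncard_insert_le _ _) (by simp))
  exact ⟨s, h1, by simpa using h2⟩

lemma types_S (S : Sylow 2 G) {M : Subgroup G} (hM : M ≠ ⊤) (hS : (S : Subgroup G) ≤ M) :
    GI M ∨ GII M ∨ GIV M ∨ GV M := by
  obtain ⟨t, ht, t1⟩ := c.exists_one S
  obtain ⟨s, hs, s1, st⟩ := c.exists_two S t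
  exact c.types hM (hS hs) (hS ht) (c.S_sq S hs) (c.S_sq S ht) (c.S_comm S hs ht) s1 t1 st

lemma odd_rel (S : Sylow 2 G) {X M : Subgroup G} (hX : (S : Subgroup G) ≤ X)
    (hM : (S : Subgroup G) ≤ M) : ¬ 2 ∣ X.relIndex M := fun h =>
  have := Fact.mk Nat.prime_two
  S.not_dvd_index ((h.trans (relIndex_dvd_of_le_left M hX)).trans (relIndex_dvd_index_of_le hM))

lemma S_le_cent (S : Sylow 2 G) {t : G} (ht : t ∈ S) :
    (S : Subgroup G) ≤ centralizer ({t} : Set G) :=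
  fun _ hx => mem_centralizer_singleton_iff.2 (c.S_comm S hx ht)

lemma trans (S : Sylow 2 G) {s t : G} (hs : s ∈ S) (s1 : s ≠ 1) (ht : t ∈ S) (t1 : t ≠ 1) :
    ∃ g ∈ normalizer ((S : Subgroup G) : Set G), g * s * g⁻¹ = t := by
  have := Fact.mk Nat.prime_two
  set N := normalizer ((S : Subgroup G) : Set G) with hN
  let O : G → Set G := fun a => {x | ∃ g ∈ N, g * a * g⁻¹ = x}
  have hsub : ∀ a ∈ S, a ≠ 1 → O a ⊆ {x | x ∈ S ∧ x ≠ 1} := by
    rintro a ha a1 _ ⟨g, hg, rfl⟩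
    exact ⟨(mem_normalizer_iff.1 hg a).1 ha, conj_ne_one a1⟩
  have hodd : ∀ a ∈ S, a ≠ 1 → ¬ 2 ∣ (O a).ncard ∧ (O a).ncard ≠ 1 := fun a ha a1 => by
    rw [← rel_cent]
    exact ⟨c.odd_rel S (c.S_le_cent S ha) le_normalizer, fun h => a1 (trf S
      (fun x hx y hy => c.S_comm S hx hy) ha
      (fun g hg => mem_centralizer_singleton_iff.1 (relIndex_eq_one.1 h hg)) (c.mem_comm a))⟩
  have hdis : ∀ a b, b ∉ O a → Disjoint (O a) (O b) := fun a b h => by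
    rw [Set.disjoint_left]
    rintro _ ⟨g, hg, rfl⟩ ⟨g', hg', e⟩
    exact h ⟨g'⁻¹ * g, mul_mem (inv_mem hg') hg, by
      rw [← mul_right_inj g', ← mul_left_inj g'⁻¹, e]; group⟩
  by_contra hcon
  have h1 := Set.ncard_union_eq (hdis s t hcon)
  have h2 := hodd s hs s1
  have h3 := hodd t ht t1
  have h4 := Set.union_subset (hsub s hs s1) (hsub t ht t1)
  have h5 := c.ncard_S S
  obtain ⟨u, hu, hu'⟩ := Set.exists_mem_notMem_of_ncard_lt_ncard (s := O s ∪ O t)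
    (t := {x | x ∈ S ∧ x ≠ 1}) (by have := Set.ncard_le_ncard h4; omega)
  have h6 := Set.ncard_union_eq (Set.disjoint_union_left.2
    ⟨hdis s u fun h => hu' (Or.inl h), hdis t u fun h => hu' (Or.inr h)⟩)
  have h7 := hodd u hu.1 hu.2
  have h8 := Set.ncard_le_ncard (Set.union_subset h4 (hsub u hu.1 hu.2))
  omega

lemma rel_seven (S : Sylow 2 G) {t : G} (ht : t ∈ S) (t1 : t ≠ 1) :
    (centralizer {t}).relIndex (normalizer ((S : Subgroup G) : Set G)) = 7 := by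
  rw [rel_cent, ← c.ncard_S S]
  congr 1
  ext x
  exact ⟨fun ⟨g, hg, e⟩ => e ▸ ⟨(mem_normalizer_iff.1 hg t).1 ht, conj_ne_one t1⟩,
    fun h => c.trans S ht t1 h.1 h.2⟩

lemma seven_dvd : 7 ∣ Nat.card G := by
  obtain ⟨S⟩ : Nonempty (Sylow 2 G) := inferInstance
  obtain ⟨t, ht, t1⟩ := c.exists_one S
  exact (c.rel_seven S ht t1 ▸ relIndex_dvd_card _ _).trans (card_subgroup_dvd_card _)

lemma conj_all {a b : G} (ha : a * a = 1) (a1 : a ≠ 1) (hb : b * b = 1) (b1 : b ≠ 1) :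
    ∃ g, g * a * g⁻¹ = b := by
  have := Fact.mk Nat.prime_two
  obtain ⟨S, hS⟩ := exists_S hb
  obtain ⟨g, hg⟩ := exists_conj_mem_sylow S (y := a) (k := 1) (by rw [pow_one, pow_two, ha])
  obtain ⟨g', -, e⟩ := c.trans S hg (conj_ne_one a1) hS b1
  exact ⟨g' * g, by rw [← e]; group⟩

lemma cyc_of (S : Sylow 2 G) {g t : G} (hn : ∀ y ∈ S, g * y * g⁻¹ ∈ S) (ht : t ∈ S) (t1 : t ≠ 1)
    {k : ℕ} (h7 : g ^ 7 ^ k ∈ centralizer ({t} : Set G)) (hg : g ∉ centralizer ({t} : Set G)) :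
    (∀ s ∈ S, s ≠ 1 → ∃ i < 7, g ^ i * t * (g ^ i)⁻¹ = s) ∧
      g ^ 7 ∈ centralizer ({t} : Set G) := by
  have hd : ∀ i d : ℕ, g ^ i * t * (g ^ i)⁻¹ = g ^ (i + d) * t * (g ^ (i + d))⁻¹ →
      g ^ d ∈ centralizer ({t} : Set G) := fun i d h => by
    rw [← conj_eq_iff, ← mul_right_inj (g ^ i), ← mul_left_inj (g ^ i)⁻¹, h, pow_add]
    group
  have hd' : ∀ d, 0 < d → d < 7 → g ^ d ∉ centralizer ({t} : Set G) := fun d h1 h2 h =>
    hg (mem_of_coprime h h7 (Nat.Coprime.pow_right k (by interval_cases d <;> decide)))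
  have hinj : Set.InjOn (fun i : ℕ => g ^ i * t * (g ^ i)⁻¹) (Set.Iio 7) := by
    have key : ∀ i j : ℕ, j < 7 → i < j → g ^ i * t * (g ^ i)⁻¹ ≠ g ^ j * t * (g ^ j)⁻¹ :=
      fun i j hj hij h => hd' (j - i) (by omega) (by omega)
        (hd i _ (by rwa [Nat.add_sub_cancel' hij.le]))
    intro i hi j hj h
    rcases lt_trichotomy i j with e | e | e
    · exact (key i j hj e h).elim
    · exact e
    · exact (key j i hi e h.symm).elim
  have heq : (fun i : ℕ => g ^ i * t * (g ^ i)⁻¹) '' (Set.Iio 7) = {x | x ∈ S ∧ x ≠ 1} := by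
    refine Set.eq_of_subset_of_ncard_le ?_ ?_
    · rintro _ ⟨i, -, rfl⟩
      exact ⟨nm_pow (X := (S : Subgroup G)) hn i t ht, conj_ne_one t1⟩
    · rw [c.ncard_S, hinj.ncard_image, ← Finset.coe_Iio, Set.ncard_coe_finset, Nat.card_Iio]
  have h1 : ∀ s ∈ S, s ≠ 1 → ∃ i < 7, g ^ i * t * (g ^ i)⁻¹ = s := fun s hs s1 =>
    (heq ▸ ⟨hs, s1⟩ : s ∈ (fun i : ℕ => g ^ i * t * (g ^ i)⁻¹) '' (Set.Iio 7))
  refine ⟨h1, ?_⟩
  obtain ⟨i, hi, e⟩ := h1 _ (nm_pow (X := (S : Subgroup G)) hn 7 t ht) (conj_ne_one t1)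
  have h2 := hd i (7 - i) (by rwa [Nat.add_sub_cancel' hi.le])
  by_cases h0 : i = 0
  · rwa [h0] at h2
  · exact (hd' _ (by omega) (by omega) h2).elim

lemma exists_sigma (S : Sylow 2 G) {t : G} (ht : t ∈ S) (t1 : t ≠ 1) :
    ∃ σ ∈ normalizer ((S : Subgroup G) : Set G), (∃ k, σ ^ 7 ^ k = 1) ∧
      σ ∉ centralizer ({t} : Set G) := by
  have : Fact (Nat.Prime 7) := ⟨by norm_num⟩
  obtain ⟨P, -, h1, h2, h3⟩ := sylow_in (X := normalizer ((S : Subgroup G) : Set G))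
    (IsPGroup.of_bot (p := 7)) bot_le
  by_contra h
  refine h3 (c.rel_seven S ht t1 ▸ relIndex_dvd_of_le_left _ fun x hx => by_contra fun hx' =>
    h ⟨x, h1 hx, ?_, hx'⟩)
  obtain ⟨k, hk⟩ := h2 ⟨x, hx⟩
  exact ⟨k, congrArg Subtype.val hk⟩

lemma not_S_le (S : Sylow 2 G) {L : Subgroup G} {p k m : ℕ} (h : GP L p k m) :
    ¬ (S : Subgroup G) ≤ L := fun hS => by
  obtain ⟨t, ht, t1⟩ := c.exists_one S
  obtain ⟨h1, K, k1, k2, k3, k4, k5, -⟩ := h.cent t (hS ht) (c.S_sq S ht) t1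
  have h2 := (h.rel k1 k3 k4 k2 h1).2
  have h3 : K.relIndex S ≤ 2 :=
    (relIndex_le_of_le_right (le_inf hS (c.S_le_cent S ht)) index_ne_zero_of_finite).trans h2.le
  have h4 : Nat.card (K ⊓ S : Subgroup G) ≤ Nat.card (zpowers t) := card_le_of_le fun x hx => by
    rcases k5 x hx.1 (c.S_sq S hx.2) with rfl | rfl
    exacts [one_mem _, mem_zpowers _]
  have h5 := card_mul_rel (inf_le_right : K ⊓ S ≤ S)
  rw [inf_relIndex_right, c.card_S] at h5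
  rw [Nat.card_zpowers, order_two (c.S_sq S ht) t1] at h4
  nlinarith

lemma le_S (S : Sylow 2 G) {B : Subgroup G} (hB : ∀ x ∈ B, x * x = 1) (hn : Nm S B) :
    B ≤ S := fun b hb =>
  c.mem_S' S (fun y hy => c.comm_of_nm' hB (c.S_sq S hy) (hn y hy) hb) (hB b hb)

lemma exists_inv (S : Sylow 2 G) {M L : Subgroup G} (hS : (S : Subgroup G) ≤ M) (hL : L ≤ M)
    (hn : Nm M L) {v : G} (hv : v ∈ L) (v2 : v * v = 1) : ∃ g ∈ M, g * v * g⁻¹ ∈ L ⊓ S := by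
  have := Fact.mk Nat.prime_two
  have hT : IsPGroup 2 (zpowers v) := IsPGroup.of_card_dvd_pow (n := 1) (by
    rw [Nat.card_zpowers]; exact orderOf_dvd_of_pow_eq_one (by rw [pow_one, pow_two, v2]))
  obtain ⟨g, hg, h⟩ := sylow_conj hT S.isPGroup' (zpowers_le_of_mem (hL hv)) (c.odd_rel S le_rfl hS)
  exact ⟨g, hg, hn g hg v hv, h v (mem_zpowers v)⟩

lemma exists_inv' (S : Sylow 2 G) {M L : Subgroup G} (hS : (S : Subgroup G) ≤ M) (hL : L ≤ M)
    (hn : Nm M L) {p k m : ℕ} (h : GP L p k m) : ∃ v ∈ L, v ∈ S ∧ v ≠ 1 := by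
  obtain ⟨v, hv, ho⟩ := exists_order (X := L) Nat.prime_two (by
    rw [h.card, mul_assoc, mul_assoc]; exact dvd_mul_right _ _)
  obtain ⟨g, -, hg⟩ := c.exists_inv S hS hL hn hv (sq_of_order ho).1
  exact ⟨_, hg.1, hg.2, conj_ne_one (sq_of_order ho).2⟩

/-- A proper subgroup that contains `S` and an element acting with order seven normalises `S`. -/
lemma nm_of_sigma (S : Sylow 2 G) {M : Subgroup G} (hM : M ≠ ⊤) (hS : (S : Subgroup G) ≤ M)
    (hN : normalizer ((S : Subgroup G) : Set G) ≤ M) : Nm M S := by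
  have key : ∀ X : Subgroup G, Nm M X → ∀ v ∈ X, v ∈ S → v ≠ 1 → (S : Subgroup G) ≤ X :=
    fun X hX v h1 h2 h3 s hs => by
      by_cases s1 : s = 1
      · exact s1 ▸ one_mem _
      · obtain ⟨g, hg, e⟩ := c.trans S h2 h3 hs s1
        exact e ▸ hX g (hN hg) v h1
  rcases c.types_S S hM hS with h | h | h | h
  · obtain ⟨t, ht, t1⟩ := c.exists_one S
    obtain ⟨σ, h1, ⟨k, h2⟩, h3⟩ := c.exists_sigma S ht t1
    refine (h3 (conj_eq_iff.1 (h.fix (hN h1) (fun e => ?_) (hS ht) (c.S_sq S ht)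
      (c.S_comm S ((mem_normalizer_iff.1 h1 t).1 ht) ht)))).elim
    have := Nat.prime_two.dvd_of_dvd_pow (e.trans (orderOf_dvd_of_pow_eq_one h2))
    omega
  · obtain ⟨B, -, h1, h2, h3, g, -, -, x, h4, h5⟩ := h
    have h6 := card_le_of_le (key B h1 x h4 (c.le_S S h3 (fun y hy => h1 y (hS hy)) h4)
      fun e => h5 (by simp [e]))
    rw [h2, c.card_S] at h6
    omega
  · obtain ⟨B, -, h1, h2, h3, -⟩ := h
    rwa [← c.eq_S S h2 h3 fun y hy => h1 y (hS hy)]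
  · obtain ⟨L, h1, h2, p, k, m, h3, -⟩ := h
    obtain ⟨v, h4, h5, h6⟩ := c.exists_inv' S hS h1 h2 h3
    exact (c.not_S_le S h3 (key L h2 v h4 h5 h6)).elim

end Cx

end Pool.Agent.Lib.MP_cb9dee_al.J
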