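import Pool.Agent.Lib.MP_cb9dee_al.Lines

namespace Pool.Agent.Lib.MP_cb9dee_al

open Subgroup Pointwise

variable {R S : Type*} [Group R] [Finite R] [Group S] [Finite S] {r : ℕ}

lemma equivariant_of_pm (hr : r.Prime) (hRS : Nat.card R = Nat.card S) (hR : Nat.card R ∣ r ^ 2)
    {τ : MulAut R} {σ : MulAut S} (hτ : τ * τ = 1) (hσ : σ * σ = 1)
    (hf : Nat.card (fixS τ) = Nat.card (fixS σ))
    (h : ¬ (Nat.card R = r ^ 2 ∧ Nat.card (fixS τ) = r)) :
    ((∀ x, τ x = x) ∧ ∀ x, σ x = x) ∨ ((∀ x, τ x = x⁻¹) ∧ ∀ x, σ x = x⁻¹) := by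
  have h1 : Nat.card (fixS τ) = Nat.card R ∨ Nat.card (fixS τ) = 1 := by
    have hd := card_subgroup_dvd_card (fixS τ)
    obtain ⟨k, hk, e⟩ := (Nat.dvd_prime_pow hr).1 hR
    interval_cases k
    · right; rw [e, pow_zero, Nat.dvd_one] at hd; exact hd
    · rw [e, pow_one] at hd ⊢
      exact ((Nat.dvd_prime hr).1 hd).symm
    · rcases card_subgroup_cases hr e (fixS τ) with h1 | h1 | h1
      · right; rw [h1, card_bot]
      · exact absurd ⟨e, h1⟩ h
      · left; rw [h1, card_top]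
  rcases h1 with h1 | h1
  · left
    have e1 := eq_top_of_card_eq _ h1
    have e2 := eq_top_of_card_eq (fixS σ) (hf.symm.trans (h1.trans hRS))
    exact ⟨fun x => (e1 ▸ mem_top x : x ∈ fixS τ), fun x => (e2 ▸ mem_top x : x ∈ fixS σ)⟩
  · right
    exact ⟨inv_of_fix_bot (comm_of_card hr hR) hτ (card_eq_one.1 h1),
      inv_of_fix_bot (comm_of_card hr (hRS ▸ hR)) hσ (card_eq_one.1 (hf ▸ h1))⟩

lemma map_eq_of_not_line (hr : r.Prime) (hR : Nat.card R = r ^ 2) (hS : Nat.card S = r ^ 2)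
    (Φ : R ≃* S) {L : Subgroup R} {M : Subgroup S} (h : Nat.card L = Nat.card M)
    (hL : Nat.card L ≠ r) : L.map Φ.toMonoidHom = M := by
  rcases card_subgroup_cases hr hR L with h1 | h1 | h1
  · rw [h1, card_bot] at h
    rw [h1, Subgroup.map_bot, card_eq_one.1 h.symm]
  · exact absurd h1 hL
  · rw [h1, card_top, hR, ← hS] at h
    rw [h1, eq_top_of_card_eq _ h.symm]
    exact map_top_of_surjective _ Φ.surjective

theorem ker_match (hr : r.Prime) (h2 : r ≠ 2) (hRS : Nat.card R = Nat.card S)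
    (hR : Nat.card R ∣ r ^ 2) (hc : IsCyclic R ↔ IsCyclic S)
    {τ : MulAut R} {σ : MulAut S} (hτ : τ * τ = 1) (hσ : σ * σ = 1)
    (hf : Nat.card (fixS τ) = Nat.card (fixS σ)) {J : Type*} (L : J → Subgroup R)
    (M : J → Subgroup S) (hcard : ∀ j, Nat.card (L j) = Nat.card (M j))
    (hL : ∀ j, ∀ x ∈ L j, τ x ∈ L j) (hM : ∀ j, ∀ x ∈ M j, σ x ∈ M j)
    (hfix : Nat.card R = r ^ 2 → Nat.card (fixS τ) = r → ∀ j, Nat.card (L j) = r →
      (L j = fixS τ ↔ M j = fixS σ))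
    (hpair : Nat.card R = r ^ 2 → ∀ i j, Nat.card (L i) = r → Nat.card (L j) = r →
      (L i = L j ↔ M i = M j))
    (hq : r = 3 ∨ ∀ i j, L i ≠ ⊤ → L j ≠ ⊤ → i = j) :
    ∃ α : R ≃* S, (∀ x, α (τ x) = σ (α x)) ∧ ∀ j, (L j).map α.toMonoidHom = M j := by
  by_cases hrefl : Nat.card R = r ^ 2 ∧ Nat.card (fixS τ) = r
  · obtain ⟨hR2, hf1⟩ := hrefl
    have hS2 := hRS.symm.trans hR2
    obtain ⟨a, b, ha, hb, hab, e1, ta, tb, hl⟩ := exists_refl hr h2 hR2 hτ hf1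
    obtain ⟨a', b', ha', hb', hab', e1', ta', tb', hl'⟩ := exists_refl hr h2 hS2 hσ (hf ▸ hf1)
    obtain ⟨Φ, h1, h3⟩ := two_gen hr hR2 hS2 ha hb hab ha' hb' hab'
    refine ⟨Φ, fun x => ?_, fun j => ?_⟩
    · have := eq_top_of_two hr hR2 ha hab
        (L := MonoidHom.eqLocus (Φ.toMonoidHom.comp τ.toMonoidHom)
          (σ.toMonoidHom.comp Φ.toMonoidHom))
        (show Φ (τ a) = σ (Φ a) by rw [ta, h1, ta'])
        (show Φ (τ b) = σ (Φ b) by rw [tb, map_inv, h3, tb'])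
      exact (this ▸ mem_top x : x ∈ MonoidHom.eqLocus (Φ.toMonoidHom.comp τ.toMonoidHom)
          (σ.toMonoidHom.comp Φ.toMonoidHom))
    · by_cases hj : Nat.card (L j) = r
      · by_cases hj' : L j = fixS τ
        · rw [(hfix hR2 hf1 j hj).1 hj', hj', e1, e1', ← h1]
          exact MonoidHom.map_zpowers _ _
        · rw [(hl _ hj (hL j)).resolve_left hj', (hl' _ (hcard j ▸ hj) (hM j)).resolve_left
            (mt (hfix hR2 hf1 j hj).2 hj'), ← h3]
          exact MonoidHom.map_zpowers _ _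
      · exact map_eq_of_not_line hr hR2 hS2 Φ (hcard j) hj
  suffices h : ∃ α : R ≃* S, ∀ j, (L j).map α.toMonoidHom = M j by
    obtain ⟨α, hα⟩ := h
    refine ⟨α, fun x => ?_, hα⟩
    rcases equivariant_of_pm hr hRS hR hτ hσ hf hrefl with ⟨h1, h3⟩ | ⟨h1, h3⟩
    · rw [h1, h3]
    · rw [h1, h3, map_inv]
  by_cases cR : IsCyclic R
  · have cS := hc.1 cR
    exact ⟨mulEquivOfCyclicCardEq hRS, fun j =>
      eq_of_card_eq_of_cyclic ((card_map_equiv _ _).trans (hcard j))⟩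
  have cS := mt hc.2 cR
  have hR2 : Nat.card R = r ^ 2 := by
    have := Fact.mk hr
    obtain ⟨k, hk, e⟩ := (Nat.dvd_prime_pow hr).1 hR
    rcases hk.lt_or_eq with hk | rfl
    · exact absurd (isCyclic_of_card_dvd_prime (p := r)
        (e ▸ (pow_dvd_pow r (Nat.lt_succ_iff.1 hk)).trans (pow_one r).dvd)) cR
    · exact e
  have hS2 := hRS.symm.trans hR2
  rcases hq with rfl | hq
  · obtain ⟨Φ, hΦ⟩ := match_three hR2 hS2 cR cS (J := {j // Nat.card (L j) = 3})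
      (fun j => L j) (fun j => M j) (fun j => j.2) (fun j => hcard j ▸ j.2)
      fun i j => hpair hR2 i j i.2 j.2
    refine ⟨Φ, fun j => ?_⟩
    by_cases hj : Nat.card (L j) = 3
    · exact hΦ ⟨j, hj⟩
    · exact map_eq_of_not_line hr hR2 hS2 Φ (hcard j) hj
  by_cases hex : ∃ j, Nat.card (L j) = r
  · obtain ⟨j, hj⟩ := hex
    obtain ⟨a, ea, ha⟩ := exists_gen hr hj
    obtain ⟨a', ea', ha'⟩ := exists_gen hr (hcard j ▸ hj)
    obtain ⟨b, hb, hab⟩ := exists_not_mem hr hR2 cR a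
    obtain ⟨b', hb', hab'⟩ := exists_not_mem hr hS2 cS a'
    obtain ⟨Φ, h1, -⟩ := two_gen hr hR2 hS2 ha hb hab ha' hb' hab'
    refine ⟨Φ, fun i => ?_⟩
    by_cases hi : Nat.card (L i) = r
    · have hne : ∀ i, Nat.card (L i) = r → L i ≠ ⊤ := fun i hi e => by
        rw [e, card_top, hR2] at hi
        exact (Nat.pow_lt_pow_right hr.one_lt one_lt_two).ne' (hi.trans (pow_one r).symm)
      rw [hq i j (hne i hi) (hne j hj), ← ea, ← ea', ← h1]
      exact MonoidHom.map_zpowers _ _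
    · exact map_eq_of_not_line hr hR2 hS2 Φ (hcard i) hi
  · push Not at hex
    obtain ⟨a, b, ha, hb, hab⟩ := exists_two hr hR2 cR
    obtain ⟨a', b', ha', hb', hab'⟩ := exists_two hr hS2 cS
    obtain ⟨Φ, -⟩ := two_gen hr hR2 hS2 ha hb hab ha' hb' hab'
    exact ⟨Φ, fun j => map_eq_of_not_line hr hR2 hS2 Φ (hcard j) (hex j)⟩

lemma exists_pow_of_ker_eq {Q U : Type*} [Group Q] [Group U] [Finite U] [IsCyclic U]
    {q : ℕ} (hq : q.Prime) (hQ : IsPGroup q Q) (f g : Q →* U) (h : f.ker = g.ker) :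
    ∃ k : ℕ, k.Coprime q ∧ ∀ x, f x = g x ^ k := by
  have hr : f.range = g.range :=
    eq_of_card_eq_of_cyclic (by rw [← index_ker, ← index_ker, h])
  obtain ⟨w, hw⟩ := (Subgroup.isCyclic_iff_exists_zpowers_eq_top g.range).1 inferInstance
  obtain ⟨x0, rfl⟩ : w ∈ g.range := hw ▸ mem_zpowers w
  have h1 : f x0 ∈ zpowers (g x0) := by rw [hw, ← hr]; exact ⟨x0, rfl⟩
  obtain ⟨k, hk⟩ := mem_powers_iff_mem_zpowers.2 h1
  have hk' : g x0 ^ k = f x0 := hk
  have key : ∀ x, f x = g x ^ k := by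
    intro x
    obtain ⟨j, hj⟩ : g x ∈ zpowers (g x0) := by rw [hw]; exact ⟨x, rfl⟩
    have hj' : g x0 ^ j = g x := hj
    have h2 : (x0 ^ j)⁻¹ * x ∈ f.ker := by
      rw [h, MonoidHom.mem_ker, map_mul, map_inv, map_zpow, hj', inv_mul_cancel]
    rw [MonoidHom.mem_ker, map_mul, map_inv, inv_mul_eq_one, map_zpow] at h2
    rw [← h2, ← hj', ← hk', ← zpow_natCast, ← zpow_natCast, ← zpow_mul, ← zpow_mul, mul_comm]
  by_cases hkq : k.Coprime q
  · exact ⟨k, hkq, key⟩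
  refine ⟨1, Nat.coprime_one_left q, fun x => ?_⟩
  have hqk : q ∣ k := by
    by_contra h'
    exact hkq ((Nat.Prime.coprime_iff_not_dvd hq).2 h').symm
  have hg : ∀ x, g x = 1 := by
    have h3 : g x0 = 1 := by
      by_contra hne
      obtain ⟨m, hm⟩ := hQ x0
      obtain ⟨j, -, hj⟩ := (Nat.dvd_prime_pow hq).1 (orderOf_dvd_of_pow_eq_one (x := g x0)
        (n := q ^ m) (by rw [← map_pow, hm, map_one]))
      have hj0 : j ≠ 0 := fun e => hne (orderOf_eq_one_iff.1 (by rw [hj, e, pow_zero]))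
      obtain ⟨i, rfl⟩ := Nat.exists_eq_succ_of_ne_zero hj0
      have h4 : x0 ^ q ^ i ∈ f.ker := by
        obtain ⟨c, rfl⟩ := hqk
        rw [MonoidHom.mem_ker, map_pow, ← hk', ← pow_mul, ← orderOf_dvd_iff_pow_eq_one, hj]
        exact ⟨c, by rw [pow_succ]; ring⟩
      rw [h, MonoidHom.mem_ker, map_pow, ← orderOf_dvd_iff_pow_eq_one, hj,
        Nat.pow_dvd_pow_iff_le_right hq.one_lt] at h4
      omega
    intro x
    have : g x ∈ zpowers (g x0) := by rw [hw]; exact ⟨x, rfl⟩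
    simpa [h3] using this
  rw [key, hg, one_pow, one_pow]

end Pool.Agent.Lib.MP_cb9dee_al
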