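import Pool.Agent.Lib.MP_cb9dee_al.MFib

namespace Pool.Agent.Lib.MP_cb9dee_al

open Subgroup OnePoint MulAut Matrix
open scoped MatrixGroups commutatorElement

namespace M

variable {M M' L : Type} [Group M] [Group M'] [Group L]

/-- A central double cover in which involutions do not lift to involutions. -/
structure Cov (f : M →* L) (z : M) : Prop where
  surj : Function.Surjective f
  ne : z ≠ 1
  zz : z * z = 1
  cen : ∀ g, g * z = z * g
  ker : ∀ x, f x = 1 ↔ x = 1 ∨ x = z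
  inv : ∀ x, x * x = 1 → f x = 1

lemma mem_two {z x : M} (zz : z * z = 1) : x ∈ zpowers z ↔ x = 1 ∨ x = z := by
  refine ⟨?_, by rintro (rfl | rfl); exacts [one_mem _, mem_zpowers _]⟩
  rintro ⟨n, rfl⟩
  have h2 : z ^ (2 : ℤ) = 1 := by rw [zpow_two, zz]
  rcases Int.even_or_odd' n with ⟨j, rfl | rfl⟩
  · left; simp [_root_.zpow_mul, h2]
  · right; simp [_root_.zpow_add, _root_.zpow_mul, h2]

lemma map_comm {f : M →* L} (hf : Function.Surjective f) :
    (commutator M).map f = commutator L := by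
  rw [map_commutator_eq, MonoidHom.range_eq_top.2 hf]; rfl

lemma Cov.sqz {f : M →* L} {z : M} (h : Cov f z) {x : M} (h1 : f x ≠ 1) (h2 : f x * f x = 1) :
    x * x = z :=
  ((h.ker _).1 (by rwa [map_mul])).resolve_left fun e => h1 (h.inv x e)

lemma Cov.perfect {f : M →* L} {z : M} (h : Cov f z) (hL : commutator L = ⊤) {t : L}
    (t1 : t ≠ 1) (tt : t * t = 1) : commutator M = ⊤ := by
  have key : ∀ l, ∃ x ∈ commutator M, f x = l := fun l =>
    ((map_comm h.surj).trans hL).ge (mem_top l)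
  obtain ⟨s, hs, rfl⟩ := key t
  refine eq_top_iff.2 fun x _ => ?_
  obtain ⟨y, hy, e⟩ := key (f x)
  rw [← mul_mem_cancel_left (inv_mem hy)]
  rcases (h.ker (y⁻¹ * x)).1 (by simp [e]) with e | e <;> rw [e]
  exacts [one_mem _, h.sqz t1 tt ▸ mul_mem hs hs]

theorem Cov.unique [Finite M] [Finite M'] {f : M →* L} {z : M} {f' : M' →* L} {z' : M'}
    (h : Cov f z) (h' : Cov f' z') (hp : commutator M = ⊤) (hp' : commutator M' = ⊤)
    (h4 : ∀ l : L, l ^ 4 = 1 → l ^ 2 = 1) : Nonempty (M ≃* M') := by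
  let F : Subgroup (M × M') := (f.comp (MonoidHom.fst M M')).eqLocus (f'.comp (MonoidHom.snd M M'))
  have fz : f z = 1 := (h.ker z).2 (Or.inr rfl)
  have fz' : f' z' = 1 := (h'.ker z').2 (Or.inr rfl)
  let w : F := ⟨(z, z'), fz.trans fz'.symm⟩
  let c : F := ⟨(1, z'), (map_one f).trans fz'.symm⟩
  have ww : w * w = 1 := Subtype.ext (Prod.ext h.zz h'.zz)
  have cc : c * c = 1 := Subtype.ext (Prod.ext (mul_one _) h'.zz)
  have wc : ∀ g, g * w = w * g := fun g => Subtype.ext (Prod.ext (h.cen _) (h'.cen _))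
  have cg : ∀ g, g * c = c * g := fun g =>
    Subtype.ext (Prod.ext ((mul_one _).trans (one_mul _).symm) (h'.cen _))
  have : (zpowers w).Normal := ⟨fun x hx g => by
    rcases (mem_two ww).1 hx with rfl | rfl <;> simp [wc]⟩
  let π := QuotientGroup.mk' (zpowers w)
  have hπ : Function.Surjective π := QuotientGroup.mk'_surjective _
  have πw : π w = 1 := (QuotientGroup.eq_one_iff w).2 (mem_zpowers w)
  obtain ⟨P⟩ : Nonempty (Sylow 2 (F ⧸ zpowers w)) := inferInstance
  have hsq : ∀ x ∈ P, x * x = 1 := by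
    intro x hx
    have h1 := pow_eq_one_of_mem_sylow P hx
    obtain ⟨⟨⟨a, b⟩, hab⟩, rfl⟩ := hπ x
    replace hab : f a = f' b := hab
    generalize (Nat.card (F ⧸ zpowers w)).factorization 2 = j at h1
    have h2 : f a ^ 2 ^ j = 1 := by
      rw [← map_pow] at h1 ⊢
      rcases (mem_two ww).1 ((QuotientGroup.eq_one_iff _).1 h1) with e | e <;>
        rw [show a ^ 2 ^ j = _ from congrArg (fun x : F => x.1.1) e]
      exacts [map_one f, fz]
    have h3 : ∀ (j : ℕ) (l : L), l ^ 2 ^ j = 1 → l ^ 2 = 1 := by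
      intro j
      induction j with
      | zero => intro l hl; simp_all
      | succ j ih =>
        intro l hl
        rw [pow_succ', pow_mul] at hl
        exact h4 l (by rw [← ih _ hl, ← pow_mul])
    have h5 := h3 j _ h2
    rw [sq] at h5
    rw [← map_mul]
    by_cases e : f a = 1
    · have : ∀ {M : Type} [Group M] {a z : M}, z * z = 1 → a = 1 ∨ a = z → a * a = 1 := by
        rintro M _ a z zz (rfl | rfl) <;> simp [*]
      rw [← map_one π]
      exact congrArg π (Subtype.ext (Prod.ext (this h.zz ((h.ker a).1 e))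
        (this h'.zz ((h'.ker b).1 (hab ▸ e)))))
    · rw [← πw]
      exact congrArg π (Subtype.ext (Prod.ext (h.sqz e h5) (h'.sqz (hab ▸ e) (hab ▸ h5))))
  have hc : ∀ g, g * π c = π c * g := fun g => by
    obtain ⟨g, rfl⟩ := hπ g
    rw [← map_mul, cg, map_mul]
  have key : π c ∉ commutator (F ⧸ zpowers w) := fun e => by
    have := trf P (fun x hx y hy => by
      rw [mul_eq_one_iff_eq_inv.1 (hsq _ (mul_mem hx hy)), _root_.mul_inv_rev,
        ← mul_eq_one_iff_eq_inv.1 (hsq x hx), ← mul_eq_one_iff_eq_inv.1 (hsq y hy)])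
      (mem_sylow_of_comm P (k := 1) (by rw [pow_one, sq, ← map_mul, cc, map_one])
        fun x _ => (hc x).symm) (fun g _ => hc g) e
    rcases (mem_two ww).1 ((QuotientGroup.eq_one_iff _).1 this) with e | e
    · exact h'.ne (congrArg (fun x : F => x.1.2) e)
    · exact h.ne (congrArg (fun x : F => x.1.1) e).symm
  have half : ∀ {N : Type} [Group N] (q : F →* N), Function.Surjective q → commutator N = ⊤ →
      (∀ x, q x = 1 → x = 1 ∨ π x = π c) → Nonempty (commutator F ≃* N) := by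
    intro N _ q q1 q2 q3
    refine ⟨MulEquiv.ofBijective (q.comp (commutator F).subtype) ⟨?_, fun y => ?_⟩⟩
    · rw [injective_iff_map_eq_one]
      exact fun x hx => Subtype.ext ((q3 x hx).resolve_right fun e =>
        key (e ▸ (map_comm hπ).le ⟨x, x.2, rfl⟩))
    · obtain ⟨x, hx, e⟩ := ((map_comm q1).trans q2).ge (mem_top y)
      exact ⟨⟨x, hx⟩, e⟩
  obtain ⟨e⟩ := half ((MonoidHom.fst M M').comp F.subtype) (fun a => by
    obtain ⟨b, hb⟩ := h'.surj (f a)
    exact ⟨⟨(a, b), hb.symm⟩, rfl⟩) hp (by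
      rintro ⟨⟨a, b⟩, hab⟩ (rfl : a = 1)
      rcases (h'.ker b).1 (Eq.trans hab.symm (map_one f)) with rfl | rfl
      exacts [Or.inl rfl, Or.inr rfl])
  obtain ⟨e'⟩ := half ((MonoidHom.snd M M').comp F.subtype) (fun b => by
    obtain ⟨a, ha⟩ := h.surj (f' b)
    exact ⟨⟨(a, b), ha⟩, rfl⟩) hp' (by
      rintro ⟨⟨a, b⟩, hab⟩ (rfl : b = 1)
      rcases (h.ker a).1 (Eq.trans hab (map_one f')) with rfl | rfl
      · exact Or.inl rfl
      · right
        rw [← one_mul (π c), ← πw, ← map_mul]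
        exact congrArg π (Subtype.ext (Prod.ext (mul_one _).symm h'.zz.symm)))
  exact ⟨e.symm.trans e'⟩

variable {p k m : ℕ}

lemma Cov.pack_perfect [Finite L] {f : M →* L} {z : M} (c : Cov f z) (h : Pack L p k m) :
    commutator M = ⊤ := by
  have := h.simple
  obtain ⟨t, ht⟩ := exists_prime_orderOf_dvd_card' (G := L) 2
    (by rw [h.card, mul_assoc, mul_assoc]; exact dvd_mul_right _ _)
  have t1 : t ≠ 1 := by rintro rfl; simp at ht
  refine c.perfect ((inferInstance : (commutator L).Normal).eq_bot_or_eq_top.resolve_left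
    fun e => t1 (conj_inj h ?_)) t1 (by rw [← sq, ← ht, pow_orderOf_eq_one])
  ext x
  have : ⁅t, x⁆ ∈ commutator L := commutator_mem_commutator (mem_top t) (mem_top x)
  rw [e, mem_bot, commutatorElement_eq_one_iff_mul_comm] at this
  simp [this]

lemma sl_sq {F : Type} [Field F] (h2 : (2 : F) ≠ 0) {A : SL(2, F)} (h : A * A = 1) :
    A = 1 ∨ A = -1 := by
  have h1 : A.1 * A.1 = (1 : F) • 1 := by rw [one_smul]; exact congrArg Subtype.val h
  by_cases h3 : ∀ c : F, A.1 ≠ c • 1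
  · have h4 := sq_eq A.1
    rw [trace_zero h1 h3, h1, A.2] at h4
    have := congrFun (congrFun h4 0) 0
    simp at this
    exact (h2 (by linear_combination this)).elim
  · push Not at h3
    classical
    exact sig_eq_one.1 (rho_eq_one.2 h3)

lemma cov_sl [Fact p.Prime] [Finite L] (h : Pack L p k m) :
    ∃ f : SL(2, ZMod p) →* L, Cov f (-1) := by
  obtain ⟨x, hx⟩ := exists_p h
  obtain ⟨φ, hφ, h1, -, -⟩ := model h hx
  let e := ((φ.comp conj).ofInjective (hφ.comp (conj_inj h))).trans (MulEquiv.subgroupCongr h1)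
  have hk : ∀ A, e.symm ((sig _).rangeRestrict A) = 1 ↔ A = 1 ∨ A = -1 := fun A => by
    rw [map_eq_one_iff _ e.symm.injective, Subtype.ext_iff]
    exact sig_eq_one
  refine ⟨e.symm.toMonoidHom.comp (sig _).rangeRestrict,
    e.symm.surjective.comp (sig _).rangeRestrict_surjective, fun e => two_ne h.five ?_, by simp,
    by simp, hk, fun A hA => (hk A).2 (sl_sq (two_ne h.five) hA)⟩
  have := congrFun (congrFun (congrArg Subtype.val e) 0) 0
  simp at this
  linear_combination -this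

theorem struct [Fact p.Prime] {G : Type} [Group G] [Finite G] (hG : TyVIa G p)
    (h16 : ¬ 16 ∣ Nat.card G) : ∃ (Y : Type) (_ : Group Y) (_ : Finite Y), ¬ 2 ∣ Nat.card Y ∧
      Nonempty (G ≃* SL(2, ZMod p) × Y) ∧ ∃ (L : Type) (_ : Group L) (k m : ℕ)
        (f : SL(2, ZMod p) →* L), Cov f (-1) ∧ Pack L p k m := by
  obtain ⟨hN, M, z, L, _, f, k, m, _, hz, hc, hf, hk, h⟩ := hG
  have : Finite L := Finite.of_surjective f hf
  have z1 : z ≠ 1 := by rintro rfl; simp at hz
  have zz : z * z = 1 := by rw [← sq, ← hz, pow_orderOf_eq_one]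
  have c : Cov f z := by
    have hk' : ∀ x, f x = 1 ↔ x = 1 ∨ x = z := fun x => by rw [← mem_two zz, ← hk]; rfl
    refine ⟨hf, z1, zz, fun g => Subtype.ext (hc g), hk', fun x hx => (hk' x).2 ?_⟩
    rcases hN x z (congrArg Subtype.val hx) (congrArg Subtype.val zz) (hc x) with e | e | e
    exacts [Or.inl (Subtype.ext e), (z1 (Subtype.ext e)).elim, Or.inr (Subtype.ext e)]
  have cM : Nat.card M = 2 * (2 * k * p * m) := by
    rw [← f.ker.card_mul_index, index_ker, MonoidHom.range_eq_top.2 hf, card_top, h.card, hk,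
      Nat.card_zpowers, hz]
  have cG := M.card_mul_index
  obtain ⟨j, rfl⟩ := h.even
  have hodd : ¬ 2 ∣ M.index := fun ⟨i, hi⟩ => h16 ⟨j * p * m * i, by rw [← cG, cM, hi]; ring⟩
  have h4 : ¬ 4 ∣ 2 * j := fun ⟨i, hi⟩ => h16 ⟨i * p * m * M.index, by rw [← cG, cM, hi]; ring⟩
  obtain ⟨f', c'⟩ := cov_sl h
  obtain ⟨e⟩ := c.unique c' (c.pack_perfect h) (c'.pack_perfect h) fun l => no_four h h4
  set C := centralizer (M : Set G)
  have hMC : ∀ g : G, ∃ x ∈ M, x⁻¹ * g ∈ C := by
    intro g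
    obtain ⟨x, hx⟩ := exists_p h
    obtain ⟨φ, hφ, h1, -, h3⟩ := model h hx
    let α₀ := f.liftOfSurjective hf ⟨f.comp (conjNormal g).toMonoidHom, fun x hx => by
      rcases (c.ker x).1 hx with rfl | rfl
      · exact one_mem _
      · exact (c.ker _).2 (Or.inr (Subtype.ext (by simp [hc])))⟩
    have hα₀ : ∀ x, α₀ (f x) = f (conjNormal g x) := fun x =>
      MonoidHom.liftOfRightInverse_comp_apply ..
    let α : MulAut L := MulEquiv.ofBijective α₀ (Finite.surjective_iff_bijective.1 fun l => by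
      obtain ⟨y, rfl⟩ := hf l
      exact ⟨f ((conjNormal g)⁻¹ y), by rw [hα₀, MulAut.apply_inv_self]⟩)
    have hα : ∀ (n : ℕ) x, (α ^ n) (f x) = f (conjNormal (g ^ n) x) := by
      intro n x
      induction n with
      | zero => simp
      | succ n ih => rw [pow_succ', MulAut.mul_apply, ih, pow_succ', map_mul]; exact hα₀ _
    obtain ⟨A, hA⟩ := h3 ⟨α, rfl⟩
    have h5 : rho _ (A ^ M.index) ∈ (sig _).range := by
      refine h1 ▸ ⟨f ⟨_, M.pow_index_mem g⟩, ?_⟩
      rw [map_pow, hA, ← map_pow, MonoidHom.comp_apply]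
      congr 1
      ext l
      obtain ⟨y, rfl⟩ := hf l
      rw [hα, conj_apply, ← map_inv, ← map_mul, ← map_mul]
      rfl
    obtain ⟨i, hi⟩ : Odd M.index := Nat.odd_iff.2 (by omega)
    rw [mem_sig, Units.val_pow_eq_pow_val, det_pow, hi] at h5
    obtain ⟨l, hl⟩ := h1.ge ((mem_sig (A := A)).2 (by
      have := h5.div (IsSquare.sq (A.val.det ^ i))
      rwa [pow_succ, ← pow_mul, mul_comm i, mul_div_cancel_left₀ _
        (pow_ne_zero _ A.det_ne_zero)] at this))
    obtain ⟨y, rfl⟩ := hf l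
    have h6 : conj (f y) = α := hφ (hl.trans hA)
    refine ⟨y, y.2, ?_⟩
    have h7 : ∀ x : M, ∃ u : M, (∀ g, g * u = u * g) ∧ conjNormal ((y : G)⁻¹ * g) x = x * u := by
      intro x
      refine ⟨x⁻¹ * conjNormal ((y : G)⁻¹ * g) x, ?_, by simp⟩
      rcases (c.ker (x⁻¹ * conjNormal ((y : G)⁻¹ * g) x)).1 (by
        have := hα 1 x
        rw [pow_one, pow_one, ← h6, conj_apply] at this
        have e : conjNormal ((y : G)⁻¹ * g) x = y⁻¹ * conjNormal g x * y :=
          Subtype.ext (by simp [mul_assoc])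
        rw [e]
        simp [← this, mul_assoc]) with e | e <;> rw [e]
      exacts [fun g => by simp, c.cen]
    have h8 : commutator M ≤ fixS (conjNormal ((y : G)⁻¹ * g)) := commutator_le.2 fun a _ b _ => by
      obtain ⟨u, hu, e1⟩ := h7 a
      obtain ⟨v, hv, e2⟩ := h7 b
      rw [mem_fixS, map_commutatorElement, e1, e2, commutatorElement_def, commutatorElement_def]
      calc _ = a * (u * (b * v)) * u⁻¹ * (a⁻¹ * v⁻¹) * b⁻¹ := by group
        _ = a * b * (v * a⁻¹) * v⁻¹ * b⁻¹ := by rw [← hu]; group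
        _ = _ := by rw [← hv]; group
    intro x hx
    have := congrArg Subtype.val (h8 (c.pack_perfect h ▸ mem_top (⟨x, hx⟩ : M)))
    exact (mul_inv_eq_iff_eq_mul.1 this).symm
  have hMC' : ∀ x ∈ M, x ∈ C → x ∈ zpowers (z : G) := by
    intro x hx hx'
    have : f ⟨x, hx⟩ = 1 := conj_inj h (by
      ext l
      obtain ⟨y, rfl⟩ := hf l
      have : (⟨x, hx⟩ : M) * y = y * ⟨x, hx⟩ := Subtype.ext (hx' y y.2).symm
      rw [conj_apply, ← map_mul, this]; simp)
    exact (mem_two (congrArg Subtype.val zz)).2 (((c.ker _).1 this).imp (congrArg Subtype.val)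
      (congrArg Subtype.val))
  have zC : (z : G) ∈ C := fun x _ => hc x
  obtain ⟨K, -, K1, K2⟩ := exists_odd_part (G := C) (fun a => hodd (by
    have a1 := (M.subgroupOf C).card_mul_index
    have a2 : Nat.card (M.subgroupOf C) ∣ 2 := by
      rw [← card_map_of_injective C.subtype_injective, subgroupOf_map_subtype, ← hz,
        ← orderOf_coe, ← Nat.card_zpowers]
      exact card_dvd_of_le fun x hx => hMC' x hx.1 hx.2
    refine Dvd.dvd.trans ?_ (M.relIndex_dvd_index_of_normal C)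
    rw [← a1] at a
    exact Nat.dvd_of_mul_dvd_mul_left two_pos (a.trans (mul_dvd_mul_right a2 _))))
  have zK : (⟨z, zC⟩ : C) ∉ K := fun a => K1 (by
    have := K.orderOf_dvd_natCard a
    rwa [orderOf_mk, orderOf_coe, hz] at this)
  have K3 : K.index = 2 := ((Nat.dvd_prime Nat.prime_two).1 K2).resolve_left fun a =>
    zK (index_eq_one.1 a ▸ mem_top _)
  let q := M.subtype.noncommCoprod (C.subtype.comp K.subtype) fun a b => b.1.2 a a.2
  have hq : ∀ a b, q (a, b) = a * b := fun _ _ => rfl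
  refine ⟨K, inferInstance, inferInstance, K1, ⟨(MulEquiv.ofBijective q ⟨?_, fun g => ?_⟩).symm.trans
    (e.prodCongr (.refl K))⟩, L, _, _, _, f', c', h⟩
  · rw [injective_iff_map_eq_one]
    rintro ⟨a, b⟩ hab
    rw [hq, mul_eq_one_iff_inv_eq] at hab
    rcases (mem_two (congrArg Subtype.val zz)).1 (hMC' _ (hab ▸ inv_mem a.2) b.1.2) with e | e
    · rw [e, inv_eq_one] at hab
      exact Prod.ext (Subtype.ext hab) (Subtype.ext (Subtype.ext e))
    · exact (zK ((Subtype.ext e : b.1 = ⟨z, zC⟩) ▸ b.2)).elim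
  · obtain ⟨x, hx, hx'⟩ := hMC g
    by_cases a : (⟨_, hx'⟩ : C) ∈ K
    · exact ⟨(⟨x, hx⟩, ⟨_, a⟩), by simp [hq]⟩
    · refine ⟨(⟨x, hx⟩ * z, ⟨_, (mul_mem_iff_of_index_two K3).2 (iff_of_false zK a)⟩), ?_⟩
      have : (z : G) * z = 1 := congrArg Subtype.val zz
      change x * z * (z * (x⁻¹ * g)) = g
      rw [mul_assoc, ← mul_assoc (z : G), this, one_mul, mul_inv_cancel_left]

end M

open M

variable {G H : Type} [Group G] [Group H] [Finite G] [Finite H]

theorem rigid_VIa (c : Pair G H) {p : ℕ} (hG : TyVIa G p) (hH : TyVIa H p) :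
    Nonempty (G ≃* H) := by
  have : Fact p.Prime := by
    obtain ⟨-, _, _, _, _, _, _, _, _, _, _, _, _, h⟩ := hG
    exact ⟨h.prime⟩
  have h16 := (c.full.2.2.2.2.2.1 c.four).1
  obtain ⟨Y, _, _, o, ⟨e⟩, -⟩ := struct hG h16
  obtain ⟨Y', _, _, o', ⟨e'⟩, -⟩ := struct hH (c.card ▸ h16)
  have c1 := (Nat.card_congr e.toEquiv).trans (Nat.card_prod _ _)
  have c2 := (Nat.card_congr e'.toEquiv).trans (Nat.card_prod _ _)
  have h4 : ¬ 4 ∣ Nat.card Y := fun a => o (Dvd.dvd.trans (by norm_num) a)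
  have hW : ∀ (Y : Type) [Group Y], Nonempty (SL(2, ZMod p) × Y ≃* W (1 : SL(2, ZMod p) →* ℤˣ)
    (1 : Y →* ℤˣ)) := fun Y _ => ⟨topEquiv.symm.trans (MulEquiv.subgroupCongr
      (eq_top_iff.2 fun _ _ => rfl).symm)⟩
  obtain ⟨g⟩ := hW Y
  obtain ⟨g'⟩ := hW Y'
  obtain ⟨f⟩ := fib_iso (conf_congr c.conf (e.trans g) (e'.trans g'))
    (Nat.eq_of_mul_eq_mul_left Nat.card_pos (by rw [← c1, c.card, c2])) h4
    ((c.full.of_dvd (c1 ▸ dvd_mul_left _ _)).cond fun a => h4 (Dvd.dvd.trans (by norm_num) a))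
    (fun ⟨_, h⟩ => (h rfl).elim) fun a => (o a).elim
  exact ⟨(e.trans g).trans (f.trans (e'.trans g').symm)⟩

end Pool.Agent.Lib.MP_cb9dee_al
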