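import Pool.Agent.Lib.MP_cb9dee_al.MModel
import Pool.Agent.Lib.MP_cb9dee_al.Rigid

namespace Pool.Agent.Lib.MP_cb9dee_al

open Subgroup OnePoint MulAut Matrix
open scoped MatrixGroups

namespace M

/-- Number of solutions of `x ^ d = 1` with a side condition. -/
noncomputable def cnt {X : Type} [Group X] (d : ℕ) (P : X → Prop) : ℕ :=
  Nat.card {x : X // x ^ d = 1 ∧ P x}

lemma cnt_add {X : Type} [Group X] [Finite X] (d : ℕ) (P : X → Prop) :
    Nat.card {x : X // x ^ d = 1} = cnt d P + cnt d fun x => ¬ P x := by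
  classical
  rw [cnt, cnt, ← Nat.card_congr (Equiv.sumCompl fun x : {x : X // x ^ d = 1} => P x), Nat.card_sum,
    Nat.card_congr (Equiv.subtypeSubtypeEquivSubtypeInter _ P),
    Nat.card_congr (Equiv.subtypeSubtypeEquivSubtypeInter _ fun x => ¬ P x)]

lemma cnt_zero {X : Type} [Group X] {d : ℕ} {P : X → Prop} (h : ∀ x, x ^ d = 1 → ¬ P x) :
    cnt d P = 0 :=
  have : IsEmpty {x : X // x ^ d = 1 ∧ P x} := ⟨fun x => h x x.2.1 x.2.2⟩
  Nat.card_of_isEmpty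

lemma cnt_pos {X : Type} [Group X] [Finite X] {d : ℕ} {P : X → Prop} {x : X} (h : x ^ d = 1)
    (h' : P x) : 0 < cnt d P :=
  have : Nonempty {x : X // x ^ d = 1 ∧ P x} := ⟨⟨x, h, h'⟩⟩
  Nat.card_pos

lemma conf_congr {G H G' H' : Type} [Group G] [Group H] [Group G'] [Group H'] (h : Conformal G H)
    (e : G ≃* G') (f : H ≃* H') : Conformal G' H' := fun d hd => by
  rw [← Nat.card_congr (e.toEquiv.subtypeEquiv (p := fun x => x ^ d = 1) fun x => by
      simp [← map_pow]), h d hd,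
    Nat.card_congr (f.toEquiv.subtypeEquiv (q := fun x => x ^ d = 1) fun x => by simp [← map_pow])]

lemma units_eq {a b : ℤˣ} (h : a = 1 ↔ b = 1) : a = b := by
  rcases Int.units_eq_one_or a with rfl | rfl <;> rcases Int.units_eq_one_or b with rfl | rfl <;>
    simp_all

variable {U Y Y' : Type} [Group U] [Group Y] [Group Y'] [Finite U] [Finite Y] [Finite Y']

/-- Fibre product over the group of signs. -/
def W (ε : U →* ℤˣ) (δ : Y →* ℤˣ) : Subgroup (U × Y) :=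
  (ε.comp (MonoidHom.fst U Y)).eqLocus (δ.comp (MonoidHom.snd U Y))

lemma cnt_W (ε : U →* ℤˣ) (δ : Y →* ℤˣ) (d : ℕ) : Nat.card {w : W ε δ // w ^ d = 1} =
    cnt d (fun u => ε u = 1) * cnt d (fun y => δ y = 1) +
      cnt d (fun u => ¬ ε u = 1) * cnt d fun y => ¬ δ y = 1 := by
  rw [cnt, cnt, cnt, cnt, ← Nat.card_prod, ← Nat.card_prod, ← Nat.card_sum]
  symm
  refine Nat.card_eq_of_bijective (Sum.elim
    (fun q => ⟨⟨(q.1, q.2), q.1.2.2.trans q.2.2.2.symm⟩, Subtype.ext (Prod.ext q.1.2.1 q.2.2.1)⟩)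
    fun q => ⟨⟨(q.1, q.2), units_eq (iff_of_false q.1.2.2 q.2.2.2)⟩,
      Subtype.ext (Prod.ext q.1.2.1 q.2.2.1)⟩) ⟨?_, ?_⟩
  · rintro (⟨a, b⟩ | ⟨a, b⟩) (⟨c, e⟩ | ⟨c, e⟩) h <;>
      simp only [Sum.elim_inl, Sum.elim_inr, Subtype.mk.injEq, Prod.mk.injEq] at h
    · rw [Subtype.ext h.1, Subtype.ext h.2]
    · exact (c.2.2 (h.1 ▸ a.2.2)).elim
    · exact (a.2.2 (h.1 ▸ c.2.2)).elim
    · rw [Subtype.ext h.1, Subtype.ext h.2]
  · rintro ⟨⟨⟨u, y⟩, h⟩, h'⟩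
    have h1 : u ^ d = 1 := congrArg (fun w : W ε δ => w.1.1) h'
    have h2 : y ^ d = 1 := congrArg (fun w : W ε δ => w.1.2) h'
    replace h : ε u = δ y := h
    by_cases e : ε u = 1
    · exact ⟨.inl (⟨u, h1, e⟩, ⟨y, h2, h ▸ e⟩), rfl⟩
    · exact ⟨.inr (⟨u, h1, e⟩, ⟨y, h2, h ▸ e⟩), rfl⟩

omit [Finite Y] in
lemma odd_iff {δ : Y →* ℤˣ} (h4 : ¬ 4 ∣ Nat.card Y) (h : ∃ y, δ y ≠ 1) :
    2 ∣ Nat.card Y ∧ ∀ y, δ y = 1 ↔ ¬ 2 ∣ orderOf y := by
  obtain ⟨a, ha⟩ := h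
  have hi : δ.ker.index = 2 := index_eq_two_iff_exists_notMem_and.2 ⟨a, ha, fun b => by
    rw [MonoidHom.mem_ker, MonoidHom.mem_ker, map_mul, (Int.units_eq_one_or _).resolve_left ha]
    rcases Int.units_eq_one_or (δ b) with e | e <;> simp [e]⟩
  refine ⟨hi ▸ δ.ker.index_dvd_card, fun y => ⟨fun hy h => h4 ?_, fun hy => ?_⟩⟩
  · rw [← δ.ker.card_mul_index, hi]
    exact mul_dvd_mul_right (h.trans (δ.ker.orderOf_dvd_natCard hy)) 2
  · refine (Int.units_eq_one_or _).resolve_right fun e => ?_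
    have := congrArg δ (pow_orderOf_eq_one y)
    rw [map_pow, e, (Nat.odd_iff.2 (by omega)).neg_one_pow, map_one] at this
    exact absurd this (by decide)

lemma sep {ε : U →* ℤˣ} {δ : Y →* ℤˣ} {δ' : Y' →* ℤˣ} (conf : Conformal (W ε δ') (W ε δ))
    (hc : Nat.card Y = Nat.card Y') (h4 : ¬ 4 ∣ Nat.card Y)
    (hsep : 2 ∣ Nat.card Y → (∀ u, ε u = 1 → u ^ 4 = 1 → u ^ 2 = 1) ∧ ∃ u : U, u ^ 4 = 1 ∧ u ^ 2 ≠ 1)
    (h : ∀ y, δ y = 1) : ∀ y, δ' y = 1 := by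
  by_contra! h'
  obtain ⟨h2, h3⟩ := odd_iff (hc ▸ h4) h'
  obtain ⟨h5, u, u4, u2⟩ := hsep (hc ▸ h2)
  obtain ⟨y, hy⟩ := exists_prime_orderOf_dvd_card' 2 h2
  have y2 : y ^ 2 = 1 := hy ▸ pow_orderOf_eq_one y
  obtain ⟨⟨⟨u', y'⟩, e⟩, hw⟩ := conf.exists_order ⟨(u, y), units_eq (iff_of_false
    (fun e => u2 (h5 u e u4)) fun e => (h3 y).1 e (hy ▸ dvd_rfl))⟩
  have key := orderOf_eq_orderOf_iff.1 hw
  simp only [Subtype.ext_iff, SubmonoidClass.coe_pow, Prod.pow_mk, OneMemClass.coe_one,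
    Prod.mk_eq_one] at key
  obtain ⟨k1, k2⟩ := (key 4).2 ⟨u4, by rw [show 4 = 2 * 2 from rfl, pow_mul, y2, one_pow]⟩
  refine u2 ((key 2).1 ⟨h5 u' (Eq.trans e (h y')) k1, ?_⟩).1
  have k3 := orderOf_dvd_of_pow_eq_one k2
  have k4 : orderOf y' ≠ 4 := fun e => h4 (e ▸ orderOf_dvd_natCard y')
  rw [← orderOf_dvd_iff_pow_eq_one]
  have := Nat.le_of_dvd four_pos k3
  interval_cases orderOf y' <;> simp_all

theorem fib_iso {ε : U →* ℤˣ} {δ : Y →* ℤˣ} {δ' : Y' →* ℤˣ} (conf : Conformal (W ε δ) (W ε δ'))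
    (hc : Nat.card Y = Nat.card Y') (h4 : ¬ 4 ∣ Nat.card Y) (hC : Cond (Nat.card Y))
    (hout : (∃ y, δ y ≠ 1) → ∃ u, u ^ 2 = 1 ∧ ε u ≠ 1)
    (hsep : 2 ∣ Nat.card Y → (∀ u, ε u = 1 → u ^ 4 = 1 → u ^ 2 = 1) ∧ ∃ u : U, u ^ 4 = 1 ∧ u ^ 2 ≠ 1) :
    Nonempty (W ε δ ≃* W ε δ') := by
  have c1 : ∀ d, 0 < cnt d fun u => ε u = 1 := fun d => cnt_pos (one_pow d) (map_one _)
  have key : Conformal Y Y' ∧ ∀ y y', orderOf y = orderOf y' → δ y = δ' y' := by
    by_cases h : ∀ y, δ y = 1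
    · have h' := sep conf.symm hc h4 hsep h
      refine ⟨fun d hd => ?_, fun y y' _ => by rw [h, h']⟩
      have := conf d hd
      have z1 := cnt_zero (d := d) (P := fun y => ¬ δ y = 1) fun x _ e => e (h x)
      have z2 := cnt_zero (d := d) (P := fun y => ¬ δ' y = 1) fun x _ e => e (h' x)
      rw [cnt_W, cnt_W, z1, z2, add_left_inj] at this
      rw [cnt_add d (δ · = 1), cnt_add d (δ' · = 1), z1, z2, Nat.eq_of_mul_eq_mul_left (c1 d) this]
    · have h' : ¬ ∀ y, δ' y = 1 := fun h' => h (sep conf hc.symm (hc ▸ h4) (hc ▸ hsep) h')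
      push Not at h h'
      have o1 := (odd_iff h4 h).2
      have o2 := (odd_iff (hc ▸ h4) h').2
      refine ⟨fun d hd => ?_, fun y y' e => units_eq (by rw [o1, o2, e])⟩
      have z : ∀ d, ¬ 2 ∣ d → cnt d (fun y => ¬ δ y = 1) = 0 ∧ cnt d (fun y => ¬ δ' y = 1) = 0 :=
        fun d hd => ⟨cnt_zero fun x hx e => e ((o1 x).2 fun a =>
          hd (a.trans (orderOf_dvd_of_pow_eq_one hx))), cnt_zero fun x hx e => e ((o2 x).2 fun a =>
          hd (a.trans (orderOf_dvd_of_pow_eq_one hx)))⟩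
      obtain ⟨i, d', hd', rfl⟩ := Nat.exists_eq_two_pow_mul_odd (n := d) (by omega)
      have red : ∀ {X : Type} [Group X] {P : X → Prop}, (∀ x, P x ↔ ¬ 2 ∣ orderOf x) →
          cnt (2 ^ i * d') P = cnt d' P := fun {X} _ {P} hP =>
        Nat.card_congr (Equiv.subtypeEquivRight fun x => and_congr_left fun hx => by
          rw [← orderOf_dvd_iff_pow_eq_one, ← orderOf_dvd_iff_pow_eq_one]
          exact Nat.Coprime.dvd_mul_left (Nat.Coprime.pow_right _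
            ((Nat.coprime_comm.1 ((Nat.Prime.coprime_iff_not_dvd Nat.prime_two).2 ((hP x).1 hx))))))
      have a1 := conf d' hd'.pos
      have hd2 : ¬ 2 ∣ d' := by rw [Nat.odd_iff] at hd'; omega
      rw [cnt_W, cnt_W, (z _ hd2).1, (z _ hd2).2, add_left_inj] at a1
      have a2 := (red o1).trans ((Nat.eq_of_mul_eq_mul_left (c1 d') a1).trans (red o2).symm)
      rw [cnt_add _ (δ · = 1), cnt_add _ (δ' · = 1), a2, add_right_inj]
      by_cases h2 : 2 ∣ 2 ^ i * d'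
      · have a3 := conf _ hd
        rw [cnt_W, cnt_W, a2, add_right_inj] at a3
        obtain ⟨u, u1, u2⟩ := hout h
        obtain ⟨j, hj⟩ := h2
        exact Nat.eq_of_mul_eq_mul_left (cnt_pos (x := u) (by rw [hj, pow_mul, u1, one_pow]) u2) a3
      · rw [(z _ h2).1, (z _ h2).2]
  obtain ⟨θ⟩ := rigid_of_cond Nat.card_pos.ne' h4 hC Y Y' rfl hc.symm key.1
  have hθ : ∀ y, δ y = δ' (θ y) := fun y => key.2 _ _ (θ.orderOf_eq y).symm
  exact ⟨{ toFun := fun w => ⟨(w.1.1, θ w.1.2), Eq.trans w.2 (hθ _)⟩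
           invFun := fun w => ⟨(w.1.1, θ.symm w.1.2), Eq.trans w.2 (by simp [hθ])⟩
           left_inv := fun w => by simp
           right_inv := fun w => by simp
           map_mul' := fun v w => Subtype.ext (by simp) }⟩

omit [Finite U] in
theorem fibre {G : Type} [Group G] (ε : U →* ℤˣ) (Φ : G →* U) (N : Subgroup G) [N.Normal]
    (h1 : N.map Φ = ε.ker) (h2 : ∀ l ∈ N, Φ l = 1 → l = 1) :
    ∃ δ : G ⧸ N →* ℤˣ, (∀ g, δ (g : G) = ε (Φ g)) ∧ Nonempty (G ≃* W ε δ) := by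
  refine ⟨QuotientGroup.lift N (ε.comp Φ) fun l hl => h1.le ⟨l, hl, rfl⟩, fun _ => rfl,
    ⟨MulEquiv.ofBijective ((Φ.prod (QuotientGroup.mk' N)).codRestrict _ fun g => rfl) ⟨?_, ?_⟩⟩⟩
  · rw [injective_iff_map_eq_one]
    intro g hg
    have := Prod.mk_eq_one.1 (congrArg Subtype.val hg)
    exact h2 g ((QuotientGroup.eq_one_iff g).1 this.2) this.1
  · rintro ⟨⟨u, y⟩, h⟩
    obtain ⟨g, rfl⟩ := QuotientGroup.mk_surjective y
    replace h : ε u = ε (Φ g) := h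
    obtain ⟨l, hl, e⟩ := h1.ge (show u * (Φ g)⁻¹ ∈ ε.ker by simp [h])
    refine ⟨l * g, Subtype.ext (Prod.ext ?_ ?_)⟩
    · simp [e]
    · simp [(QuotientGroup.eq_one_iff l).2 hl]

lemma no_four {L : Type} [Group L] [Finite L] {p k m : ℕ} (h : Pack L p k m) (hk : ¬ 4 ∣ k)
    {l : L} (hl : l ^ 4 = 1) : l ^ 2 = 1 := by
  by_contra h2
  have h3 : orderOf (l ^ 2) = 2 := orderOf_eq_prime (by rwa [← pow_mul]) h2
  obtain ⟨-, K, c1, -, -, -, c3, -⟩ := h.cent _ h3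
  have : l ∈ K := by_contra fun e => h2 (by rw [sq]; exact (c3 l (by group) e).1)
  have h4 : orderOf l = 2 ^ (1 + 1) := orderOf_eq_prime_pow (by simpa using h2) (by simpa using hl)
  have := K.orderOf_dvd_natCard this
  rw [h4, c1] at this
  exact hk this

lemma exists_sgn (F : Type) [Field F] [DecidableEq F] [Finite F] :
    ∃ ε : (rho F).range →* ℤˣ, ∀ u, ε u = 1 ↔ u.1 ∈ (sig F).range := by
  classical
  refine ⟨MonoidHom.mk' (fun u => if u.1 ∈ (sig F).range then 1 else -1) ?_, fun u => by simp⟩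
  rintro ⟨_, A, rfl⟩ ⟨_, B, rfl⟩
  by_cases a : rho F A ∈ (sig F).range <;> by_cases b : rho F B ∈ (sig F).range
  · simp only [Subgroup.coe_mul, a, b, mul_mem a b, if_true, mul_one]
  · simp only [Subgroup.coe_mul, a, b, mul_mem_cancel_left a, if_true, if_false, one_mul]
  · simp only [Subgroup.coe_mul, a, b, mul_mem_cancel_right b, if_true, if_false, mul_one]
  · have : rho F A * rho F B ∈ (sig F).range := by
      rw [← map_mul, mem_sig, Units.val_mul, det_mul]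
      exact isSquare_mul (mt mem_sig.2 a) (mt mem_sig.2 b)
    simp only [Subgroup.coe_mul, a, b, this, if_true, if_false, neg_mul_neg, mul_one]

end M

open M

variable {G H : Type} [Group G] [Group H] [Finite G] [Finite H]

theorem rigid_V (c : Pair G H) {p : ℕ} (hG : TyV G p) (hH : TyV H p) : Nonempty (G ≃* H) := by
  obtain ⟨L, k, m, _, h⟩ := hG
  obtain ⟨L', k', m', _, h'⟩ := hH
  have := Fact.mk h.prime
  have h2 := two_ne h.five
  obtain ⟨ε, hε⟩ := exists_sgn (ZMod p)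
  have key : ∀ {G : Type} [Group G] [Finite G] {L : Subgroup G} [L.Normal] {k m : ℕ},
      Pack L p k m → (∃ δ : G ⧸ L →* ℤˣ, Nonempty (G ≃* W ε δ)) ∧
        (¬ 4 ∣ k → ∀ u, ε u = 1 → u ^ 4 = 1 → u ^ 2 = 1) := by
    intro G _ _ L _ k m h
    obtain ⟨x, hx⟩ := exists_p h
    obtain ⟨Φ, k1, -, k3, k4, -⟩ := modelG h hx
    refine ⟨(fibre ε (Φ.codRestrict _ fun g => k3 ⟨g, rfl⟩) L ?_ fun l hl e =>
      k4 l hl (congrArg Subtype.val e)).imp fun _ h => h.2, fun hk u hu u4 => ?_⟩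
    · ext u
      rw [MonoidHom.mem_ker, hε, ← k1]
      exact ⟨fun ⟨l, hl, e⟩ => ⟨l, hl, congrArg Subtype.val e⟩,
        fun ⟨l, hl, e⟩ => ⟨l, hl, Subtype.ext e⟩⟩
    · obtain ⟨l, hl, e⟩ := k1.ge ((hε u).1 hu)
      have : (⟨l, hl⟩ : L) ^ 2 = 1 := no_four h hk (Subtype.ext (k4 _ (pow_mem hl 4) (by
        rw [SubmonoidClass.coe_pow, map_pow, e]; exact congrArg Subtype.val u4)))
      apply Subtype.ext
      rw [SubmonoidClass.coe_pow, ← e, ← map_pow, show l ^ 2 = 1 from congrArg Subtype.val this]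
      exact map_one Φ
  obtain ⟨⟨δ, ⟨e⟩⟩, h4⟩ := key h
  obtain ⟨⟨δ', ⟨e'⟩⟩, -⟩ := key h'
  have c1 := L.card_eq_card_quotient_mul_card_subgroup
  have c2 := L'.card_eq_card_quotient_mul_card_subgroup
  have c3 : Nat.card L = Nat.card L' := by
    have := h.par; have := h'.par; have := h.even; have := h'.even
    rw [h.card, h'.card, show k = k' by omega, show m = m' by omega]
  have h16 := (c.full.2.2.2.2.2.1 c.four).1
  obtain ⟨j, rfl⟩ := h.even
  have h5 : ¬ 4 ∣ Nat.card (G ⧸ L) := fun a => h16 (by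
    rw [c1, h.card]; exact mul_dvd_mul a (show 4 ∣ _ from ⟨j * p * m, by ring⟩))
  obtain ⟨f⟩ := fib_iso (conf_congr c.conf e e')
    (Nat.eq_of_mul_eq_mul_right Nat.card_pos (by rw [← c1, c.card, c2, c3])) h5
    ((c.full.of_dvd (L.card_quotient_dvd_card)).cond fun a => h5 (Dvd.dvd.trans (by norm_num) a))
    (fun _ => by
      obtain ⟨ν, hν⟩ := FiniteField.exists_nonsquare (F := ZMod p) fun h => h2 (by
        simpa [h] using ringChar.Nat.cast_ringChar (R := ZMod p))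
      have h0 : ν ≠ 0 := fun e => hν (by simp [e])
      refine ⟨⟨_, GeneralLinearGroup.mkOfDetNeZero !![0, -ν; 1, 0] (by simpa [det_fin_two]), rfl⟩,
        Subtype.ext ?_, by rw [Ne, hε, mem_sig]; simpa [det_fin_two]⟩
      rw [SubmonoidClass.coe_pow, ← map_pow]
      exact rho_eq_one.2 ⟨-ν, by ext i j; fin_cases i <;> fin_cases j <;> simp [sq]⟩)
    (fun a => ⟨h4 fun b => h16 (by
      obtain ⟨i, hi⟩ := b
      rw [c1, h.card, hi]; exact mul_dvd_mul a (show 8 ∣ _ from ⟨i * p * m, by ring⟩)), by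
      refine ⟨⟨_, GeneralLinearGroup.mkOfDetNeZero !![1, -1; 1, 1]
        (by simpa [det_fin_two, one_add_one_eq_two]), rfl⟩, Subtype.ext ?_, fun e => ?_⟩
      · rw [SubmonoidClass.coe_pow, ← map_pow]
        refine rho_eq_one.2 ⟨-4, ?_⟩
        ext i j; fin_cases i <;> fin_cases j <;> simp [pow_succ] <;> ring
      · replace e := congrArg Subtype.val e
        rw [SubmonoidClass.coe_pow, ← map_pow] at e
        obtain ⟨s, hs⟩ := rho_eq_one.1 e
        have := congrFun (congrFun hs 1) 0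
        simp [sq, one_add_one_eq_two, h2] at this⟩)
  exact ⟨e.trans (f.trans e'.symm)⟩

end Pool.Agent.Lib.MP_cb9dee_al
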