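import Mathlib

namespace Pool.Agent.Lib.MP_cb9dee_al.M

open Matrix OnePoint
open scoped MatrixGroups

variable {F : Type} [Field F]

lemma comm_span {A B : Matrix (Fin 2) (Fin 2) F} (h : A * B = B * A) (hA : ∀ c : F, A ≠ c • 1) :
    ∃ x y : F, B = x • 1 + y • A := by
  have e00 := congrFun (congrFun h 0) 0
  have e01 := congrFun (congrFun h 0) 1
  have e10 := congrFun (congrFun h 1) 0
  simp only [mul_apply, Fin.sum_univ_two] at e00 e01 e10
  have key : ∀ y : F, B 0 1 = y * A 0 1 → B 1 0 = y * A 1 0 →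
      B 0 0 - B 1 1 = y * (A 0 0 - A 1 1) → ∃ x y : F, B = x • 1 + y • A := by
    intro y h1 h2 h3
    refine ⟨B 0 0 - y * A 0 0, y, ?_⟩
    ext i j
    fin_cases i <;> fin_cases j <;> simp [h1, h2]
    linear_combination -h3
  by_cases h1 : A 0 1 = 0
  · by_cases h2 : A 1 0 = 0
    · have h3 : A 0 0 - A 1 1 ≠ 0 := fun h3 => hA (A 0 0) (by
        ext i j
        fin_cases i <;> fin_cases j <;> simp [h1, h2]
        linear_combination -h3)
      refine key ((B 0 0 - B 1 1) / (A 0 0 - A 1 1)) ?_ ?_ (by field_simp)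
      · rw [h1, mul_zero]
        apply mul_left_cancel₀ h3
        rw [h1] at e01; linear_combination e01
      · rw [h2, mul_zero]
        apply mul_left_cancel₀ h3
        rw [h2] at e10; linear_combination -e10
    · refine key (B 1 0 / A 1 0) ?_ (by field_simp) ?_ <;> field_simp
      · linear_combination -e00
      · linear_combination e10
  · refine key (B 0 1 / A 0 1) (by field_simp) ?_ ?_ <;> field_simp
    · linear_combination e00
    · linear_combination -e01

lemma sq_eq (A : Matrix (Fin 2) (Fin 2) F) : A * A = A.trace • A - A.det • 1 := by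
  ext i j
  fin_cases i <;> fin_cases j <;> simp [mul_apply, trace_fin_two, det_fin_two] <;> ring

lemma trace_zero {A : Matrix (Fin 2) (Fin 2) F} {c : F} (h : A * A = c • 1)
    (hA : ∀ c : F, A ≠ c • 1) : A.trace = 0 := by
  by_contra h0
  refine hA (A.trace⁻¹ * (c + A.det)) ?_
  rw [mul_smul, add_smul, ← h, sq_eq, sub_add_cancel, smul_smul, inv_mul_cancel₀ h0, one_smul]

/-- Translation matrix. -/
def tr (b : F) : SL(2, F) := ⟨!![1, b; 0, 1], by simp [det_fin_two]⟩

/-- Weyl element. -/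
def jj (F : Type) [Field F] : SL(2, F) := ⟨!![0, -1; 1, 0], by simp [det_fin_two]⟩

/-- Diagonal matrix. -/
def dg (a : Fˣ) : GL (Fin 2) F :=
  GeneralLinearGroup.mkOfDetNeZero !![a, 0; 0, 1] (by simp [det_fin_two])

variable [DecidableEq F]

/-- The action on the projective line. -/
noncomputable def rho (F : Type) [Field F] [DecidableEq F] :
    GL (Fin 2) F →* Equiv.Perm (OnePoint F) := MulAction.toPermHom _ _

/-- The action of the special linear group. -/
noncomputable def sig (F : Type) [Field F] [DecidableEq F] :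
    SL(2, F) →* Equiv.Perm (OnePoint F) := (rho F).comp SpecialLinearGroup.toGL

lemma rho_infty (A : GL (Fin 2) F) :
    rho F A ∞ = if A 1 0 = 0 then ∞ else ((A 0 0 / A 1 0 : F) : OnePoint F) :=
  smul_infty_eq_ite A

lemma rho_coe (A : GL (Fin 2) F) (x : F) : rho F A x = if A 1 0 * x + A 1 1 = 0 then ∞
    else (((A 0 0 * x + A 0 1) / (A 1 0 * x + A 1 1) : F) : OnePoint F) :=
  smul_some_eq_ite

/-- Translation. -/
noncomputable def T (b : F) : Equiv.Perm (OnePoint F) := sig F (tr b)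

/-- The map `x ↦ -1 / x`. -/
noncomputable def J (F : Type) [Field F] [DecidableEq F] : Equiv.Perm (OnePoint F) := sig F (jj F)

@[simp] lemma T_infty (b : F) : T b ∞ = ∞ := by simp [T, sig, rho_infty, tr]
@[simp] lemma T_coe (b x : F) : T b x = (x + b : F) := by simp [T, sig, rho_coe, tr]
@[simp] lemma J_infty : J F ∞ = (0 : F) := by simp [J, sig, rho_infty, jj]
@[simp] lemma J_zero : J F (0 : F) = ∞ := by simp [J, sig, rho_coe, jj]
lemma J_coe {x : F} (hx : x ≠ 0) : J F x = (-1 / x : F) := by simp [J, sig, rho_coe, jj, hx]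
@[simp] lemma dg_infty (a : Fˣ) : rho F (dg a) ∞ = ∞ := by simp [rho_infty, dg]
@[simp] lemma dg_coe (a : Fˣ) (x : F) : rho F (dg a) x = (a * x : F) := by simp [rho_coe, dg]

omit [Field F] [DecidableEq F] in
lemma perm_ext {f g : Equiv.Perm (OnePoint F)} (h : f ∞ = g ∞) (h' : ∀ x : F, f x = g x) :
    f = g := by
  ext x
  cases x with
  | infty => exact h
  | coe x => exact h' x

/-- Multiplication. -/
noncomputable def Mu : Fˣ →* Equiv.Perm (OnePoint F) :=
  MonoidHom.mk' (fun a => rho F (dg a)) fun a b => perm_ext (by simp) (by simp [mul_assoc])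

@[simp] lemma Mu_infty (a : Fˣ) : Mu a ∞ = ∞ := dg_infty a
@[simp] lemma Mu_coe (a : Fˣ) (x : F) : Mu a x = (a * x : F) := dg_coe a x

lemma Mu_inj : Function.Injective (Mu (F := F)) := fun a b h => by
  have := DFunLike.congr_fun h ((1 : F) : OnePoint F)
  simpa [Units.ext_iff] using this

lemma T_add (a b : F) : T (a + b) = T a * T b :=
  perm_ext (by simp) (by simp [add_comm, add_left_comm])

@[simp] lemma T_zero : T (0 : F) = 1 := perm_ext (by simp) (by simp)

lemma rho_eq_one {A : GL (Fin 2) F} :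
    rho F A = 1 ↔ ∃ c : F, (A : Matrix (Fin 2) (Fin 2) F) = c • 1 := by
  constructor
  · intro h
    have h1 := DFunLike.congr_fun h ∞
    have h2 := DFunLike.congr_fun h ((0 : F) : OnePoint F)
    have h3 := DFunLike.congr_fun h ((1 : F) : OnePoint F)
    rw [rho_infty] at h1
    rw [rho_coe] at h2 h3
    split_ifs at h1 h2 h3 with a b c <;> simp at h1 h2 h3
    rw [a, mul_zero, zero_add] at b
    rw [a, zero_add, h2.resolve_right b, add_zero, div_eq_one_iff_eq b] at h3
    refine ⟨A 0 0, ?_⟩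
    ext i j
    fin_cases i <;> fin_cases j <;> simp [a, h2.resolve_right b, h3]
  · rintro ⟨c, hc⟩
    have h0 : c ≠ 0 := by
      rintro rfl
      exact A.det_ne_zero (by simp [hc])
    have e : ∀ i j, A i j = if i = j then c else 0 := fun i j => by
      rw [hc]; simp [one_apply]
    exact perm_ext (by simp [rho_infty, e]) fun x => by simp [rho_coe, e, h0]

lemma rho_eq {A B : GL (Fin 2) F} (h : rho F A = rho F B) :
    ∃ c : F, (A : Matrix (Fin 2) (Fin 2) F) = c • B := by
  obtain ⟨c, hc⟩ := rho_eq_one.1 (show rho F (A * B⁻¹) = 1 by rw [map_mul, map_inv, h, mul_inv_cancel])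
  exact ⟨c, by rw [← inv_mul_cancel_right A B, Units.val_mul, hc, smul_mul_assoc, one_mul]⟩

lemma mem_sig {A : GL (Fin 2) F} :
    rho F A ∈ (sig F).range ↔ IsSquare (A : Matrix (Fin 2) (Fin 2) F).det := by
  constructor
  · rintro ⟨B, hB⟩
    obtain ⟨c, hc⟩ := rho_eq (A := A) hB.symm
    exact ⟨c, by simp [hc, sq]⟩
  · rintro ⟨c, hc⟩
    have h0 : c ≠ 0 := by
      rintro rfl
      exact A.det_ne_zero (by simp [hc])
    refine ⟨⟨c⁻¹ • A, by simp [hc]; field_simp⟩, ?_⟩
    rw [← mul_inv_eq_one, sig, MonoidHom.comp_apply, ← map_inv, ← map_mul, rho_eq_one]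
    exact ⟨c⁻¹, by simp⟩

lemma sig_eq_one {A : SL(2, F)} : sig F A = 1 ↔ A = 1 ∨ A = -1 := by
  rw [sig, MonoidHom.comp_apply, rho_eq_one]
  constructor
  · rintro ⟨c, hc⟩
    have h1 := A.det_coe
    rw [show (A : Matrix (Fin 2) (Fin 2) F) = c • 1 from hc] at h1
    simp only [det_smul, Fintype.card_fin, det_one, mul_one, sq, mul_self_eq_one_iff] at h1
    rcases h1 with rfl | rfl
    · exact Or.inl (Subtype.ext (by simpa using hc))
    · exact Or.inr (Subtype.ext (by simpa using hc))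
  · rintro (rfl | rfl)
    · exact ⟨1, by simp⟩
    · exact ⟨-1, by simp⟩

lemma Mu_mem {a : Fˣ} : Mu a ∈ (sig F).range ↔ IsSquare (a : F) :=
  (mem_sig (A := dg a)).trans (by simp [dg, det_fin_two])

lemma comm_of_odd {A B : GL (Fin 2) F} {N : ℕ} (hN : Odd N) (h1 : rho F A ^ N = 1)
    (h : rho F A * rho F B = rho F B * rho F A) : A * B = B * A := by
  rw [← map_mul, ← map_mul] at h
  obtain ⟨c, hc⟩ := rho_eq h
  rw [← map_pow, rho_eq_one] at h1
  obtain ⟨s, hs⟩ := h1
  simp only [Units.val_mul, Units.val_pow_eq_pow_val] at hc hs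
  have h2 : c * c = 1 := by
    have := congrArg det hc
    simp only [det_mul, det_smul, Fintype.card_fin] at this
    apply mul_right_cancel₀ (mul_ne_zero A.det_ne_zero B.det_ne_zero)
    linear_combination -this
  have h3 : ∀ n : ℕ, (A : Matrix (Fin 2) (Fin 2) F) ^ n * B = c ^ n • (B * A ^ n) := by
    intro n
    induction n with
    | zero => simp
    | succ n ih =>
      rw [pow_succ', mul_assoc, ih, mul_smul_comm, ← mul_assoc, hc, smul_mul_assoc, smul_smul,
        mul_assoc, pow_succ]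
  have h5 : (A : Matrix (Fin 2) (Fin 2) F) ^ N * B = B * A ^ N := by simp [hs]
  have h6 : c ^ N = 1 := by
    have h7 := h3 N
    rw [h5] at h7
    have h8 : ((B * A ^ N : GL (Fin 2) F) : Matrix (Fin 2) (Fin 2) F) ≠ 0 := Units.ne_zero _
    by_contra h9
    refine h8 ((smul_eq_zero (M := Matrix (Fin 2) (Fin 2) F).1 ?_).resolve_left (sub_ne_zero.2 h9))
    rw [sub_smul, one_smul, Units.val_mul, Units.val_pow_eq_pow_val, ← h7, sub_self]
  obtain ⟨n, rfl⟩ := hN
  rw [pow_succ, pow_mul, sq, h2, one_pow, one_mul] at h6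
  ext1
  rw [Units.val_mul, Units.val_mul, hc, h6, one_smul]

lemma bruhat {S S' : Subgroup (Equiv.Perm (OnePoint F))} (hT : ∀ b, T b ∈ S ∧ T b ∈ S')
    (hJ : J F ∈ S ∧ J F ∈ S') (h : ∀ g ∈ S, g ∞ = ∞ → g ∈ S') : S ≤ S' := by
  intro g hg
  cases e : g ∞ with
  | infty => exact h g hg e
  | coe c =>
    have := h (J F * (T (-c) * g)) (S.mul_mem hJ.1 (S.mul_mem (hT _).1 hg)) (by simp [e])
    exact (S'.mul_mem_cancel_left (hT _).2).1 ((S'.mul_mem_cancel_left hJ.2).1 this)

lemma rho_aff {A : GL (Fin 2) F} (h : rho F A ∞ = ∞) : ∃ b a, rho F A = T b * Mu a := by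
  have h1 : A 1 0 = 0 := smul_infty_eq_self_iff.1 h
  have h2 := A.det_ne_zero
  rw [det_fin_two, h1, mul_zero, sub_zero, mul_ne_zero_iff] at h2
  refine ⟨A 0 1 / A 1 1, Units.mk0 _ (div_ne_zero h2.1 h2.2), perm_ext (by simp [h]) fun x => ?_⟩
  simp only [rho_coe, h1, zero_mul, zero_add, h2.2, if_false, Equiv.Perm.mul_apply, Mu_coe, T_coe,
    Units.val_mk0]
  congr 1; ring

lemma sig_tr (b : F) : sig F (tr b) = T b := rfl
lemma sig_jj : sig F (jj F) = J F := rfl
lemma rho_dg (a : Fˣ) : rho F (dg a) = Mu a := rfl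
lemma sig_le : (sig F).range ≤ (rho F).range := fun _ ⟨_, h⟩ => ⟨_, h⟩

attribute [irreducible] T J Mu

lemma card_eq {S : Subgroup (Equiv.Perm (OnePoint F))} (hT : ∀ b, T b ∈ S)
    (haff : ∀ g ∈ S, g ∞ = ∞ → ∃ b a, g = T b * Mu a) (htr : ∀ y, ∃ g ∈ S, g ∞ = y) :
    Nat.card S = Nat.card F * Nat.card (S.comap Mu) * Nat.card (OnePoint F) := by
  have : MulAction.IsPretransitive S (OnePoint F) :=
    (MulAction.isPretransitive_iff_base ∞).2 fun y => by
      obtain ⟨l, hl, e⟩ := htr y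
      exact ⟨⟨l, hl⟩, e⟩
  rw [← (MulAction.stabilizer S (∞ : OnePoint F)).card_mul_index,
    MulAction.index_stabilizer_of_transitive, ← Nat.card_prod F]
  congr 1
  symm
  refine Nat.card_eq_of_bijective (fun q => ⟨⟨T q.1 * Mu q.2, mul_mem (hT _) q.2.2⟩, by
    simp [MulAction.mem_stabilizer_iff]⟩) ⟨?_, ?_⟩
  · rintro ⟨b, a⟩ ⟨b', a'⟩ e'
    simp only [Subtype.mk.injEq] at e'
    have e0 := DFunLike.congr_fun e' ((0 : F) : OnePoint F)
    simp at e0
    subst e0
    rw [Subtype.ext (Mu_inj (mul_left_cancel e'))]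
  · rintro ⟨⟨g, hg⟩, hg'⟩
    obtain ⟨b, a, rfl⟩ := haff g hg hg'
    exact ⟨(b, ⟨a, (mul_mem_cancel_left (hT b)).1 hg⟩), rfl⟩

lemma isSquare_mul [Finite F] {a b : F} (ha : ¬ IsSquare a) (hb : ¬ IsSquare b) :
    IsSquare (a * b) := by
  have := Fintype.ofFinite F
  have h0 : a * b ≠ 0 := mul_ne_zero (fun h => ha (by simp [h])) fun h => hb (by simp [h])
  rw [← quadraticChar_neg_one_iff_not_isSquare] at ha hb
  rw [← quadraticChar_one_iff_isSquare h0, map_mul, ha, hb]; simp

lemma J_mem [Finite F] (h2 : (2 : F) ≠ 0) {S : Subgroup (Equiv.Perm (OnePoint F))}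
    (hT : ∀ b, T b ∈ S) (hM : ∀ a : Fˣ, Mu a ∈ S ↔ IsSquare (a : F))
    (haff : ∀ g ∈ S, g ∞ = ∞ → ∃ b a, g = T b * Mu a) {f : Equiv.Perm (OnePoint F)}
    (hf : f ∈ S) (f0 : f ∞ = (0 : F)) (ff : f * f = 1)
    (hinv : ∀ a : Fˣ, IsSquare (a : F) → f * Mu a = Mu a⁻¹ * f)
    (hfix : IsSquare (-1 : F) → ∃ x, f x = x) : J F ∈ S := by
  have hff : ∀ x, f (f x) = x := fun x => DFunLike.congr_fun ff x
  have f1 : f (0 : F) = ∞ := by rw [← f0, hff]
  have hg : ∀ x : F, ∃ y : F, x ≠ 0 → f x = y ∧ y ≠ 0 := by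
    intro x
    cases e : f x with
    | infty => exact ⟨0, fun h => absurd (f.injective (e.trans f1.symm)) (by simpa using h)⟩
    | coe y => exact ⟨y, fun _ => ⟨rfl, fun h => by
        have := hff x
        rw [e, h, f1] at this
        simp at this⟩⟩
  choose g hg using hg
  have gg : ∀ x ≠ 0, g (g x) = x := fun x hx => by
    have := hff x
    rwa [(hg x hx).1, (hg _ (hg x hx).2).1, coe_eq_coe] at this
  have gm : ∀ a x : F, a ≠ 0 → x ≠ 0 → IsSquare a → g (a * x) = a⁻¹ * g x := by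
    intro a x ha hx h
    have := DFunLike.congr_fun (hinv (Units.mk0 a ha) h) (x : OnePoint F)
    simpa [-map_inv, (hg x hx).1, (hg _ (mul_ne_zero ha hx)).1] using this
  have := Fintype.ofFinite F
  obtain ⟨ν, hν⟩ := FiniteField.exists_nonsquare (F := F) fun h => h2 (by
    simpa [h] using ringChar.Nat.cast_ringChar (R := F))
  have ns0 : ∀ {x : F}, ¬ IsSquare x → x ≠ 0 := fun h e => h (by simp [e])
  obtain ⟨c₁, hc₁⟩ : ∃ c, c = g 1 := ⟨_, rfl⟩
  obtain ⟨c₂, hc₂⟩ : ∃ c, c = ν * g ν := ⟨_, rfl⟩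
  have c10 : c₁ ≠ 0 := hc₁ ▸ (hg 1 one_ne_zero).2
  have g1 : ∀ x ≠ 0, IsSquare x → g x = c₁ / x := fun x hx h => by
    rw [hc₁, div_eq_inv_mul, ← gm x 1 hx one_ne_zero h, mul_one]
  have g2 : ∀ x, ¬ IsSquare x → g x = c₂ / x := fun x h => by
    have h0 := ns0 h
    have h1 := ns0 hν
    have := gm (x * ν⁻¹) ν (by simp [h0, h1]) h1 (isSquare_mul h (by simpa using hν))
    rw [inv_mul_cancel_right₀ h1] at this
    rw [this, hc₂]; field_simp
  have A : ¬ IsSquare c₁ → c₂ = c₁ := fun h => by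
    have := gg 1 one_ne_zero
    rwa [← hc₁, g2 _ h, div_eq_one_iff_eq c10] at this
  suffices h : c₂ = c₁ ∧ IsSquare (-c₁) by
    have : J F = Mu (Units.mk0 (-c₁) (by simpa))⁻¹ * f := by
      refine perm_ext (by simp [-map_inv, f0]) fun x => ?_
      by_cases hx : x = 0
      · simp [-map_inv, hx, f1]
      · have : g x = c₁ / x := by
          by_cases h' : IsSquare x
          · exact g1 x hx h'
          · rw [g2 x h', h.1]
        rw [J_coe hx, Equiv.Perm.mul_apply, (hg x hx).1, Mu_coe, this]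
        congr 1; simp; field_simp
    rw [this]
    exact S.mul_mem ((hM _).2 (by simpa [-inv_neg] using h.2)) hf
  by_cases hm : IsSquare (-1 : F)
  swap
  · suffices h : ¬ IsSquare c₁ from ⟨A h, by simpa using isSquare_mul hm h⟩
    rintro ⟨s, hs⟩
    obtain ⟨s, hs, hs2⟩ : ∃ s, c₁ = s * s ∧ IsSquare s := by
      by_cases h : IsSquare s
      · exact ⟨s, hs, h⟩
      · exact ⟨-s, by simp [hs], by simpa using isSquare_mul hm h⟩
    have s0 : s ≠ 0 := by rintro rfl; simp [c10] at hs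
    have h3 : f s = s := by rw [(hg s s0).1, g1 s s0 hs2, hs, mul_div_cancel_right₀ _ s0]
    obtain ⟨b, a, e⟩ := haff (f * T (-s) * f * (T s * f))
      (S.mul_mem (S.mul_mem (S.mul_mem hf (hT _)) hf) (S.mul_mem (hT _) hf)) (by simp [f0, f1, h3])
    have hTT : T s * T (-s) = 1 := by rw [← T_add]; simp
    have e2 : T b * Mu a * (T b * Mu a) = 1 := by
      rw [← e]
      calc _ = f * T (-s) * (f * (T s * (f * f) * T (-s)) * f) * (T s * f) := by group
        _ = 1 := by rw [ff, mul_one, hTT, mul_one, ff, mul_one, mul_assoc, ← mul_assoc (T _),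
          ← T_add]; simp [ff]
    have ha : IsSquare (a : F) := (hM a).1 ((S.mul_mem_cancel_left (hT b)).1 (e ▸
      S.mul_mem (S.mul_mem (S.mul_mem hf (hT _)) hf) (S.mul_mem (hT _) hf)))
    have e3 := DFunLike.congr_fun e2 ((0 : F) : OnePoint F)
    have e4 := DFunLike.congr_fun e2 ((1 : F) : OnePoint F)
    simp at e3 e4
    have e5 : (a : F) = 1 := (mul_self_eq_one_iff.1 (by linear_combination e4 - e3)).resolve_right
      fun h => hm (h ▸ ha)
    have e6 : b = 0 := by
      apply mul_left_cancel₀ h2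
      rw [e5] at e3; linear_combination e3
    have e7 := DFunLike.congr_fun e ((0 : F) : OnePoint F)
    have e8 := DFunLike.congr_fun e (f (T (-s) ∞))
    simp [e5, e6, f0, f1] at e7 e8
    have := congrArg f e8
    simp [hff, f1] at this
  obtain ⟨x₀, hx₀⟩ := hfix hm
  have q1 : IsSquare c₁ := by
    by_contra h
    cases x₀ with
    | infty => simp [f0] at hx₀
    | coe x =>
      have hx : x ≠ 0 := by rintro rfl; simp [f1] at hx₀
      rw [(hg x hx).1, coe_eq_coe] at hx₀
      refine h ⟨x, ?_⟩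
      by_cases h' : IsSquare x
      · rwa [g1 x hx h', div_eq_iff hx] at hx₀
      · rwa [g2 x h', A h, div_eq_iff hx] at hx₀
  have q2 : IsSquare c₂ := by
    by_contra h
    have h3 : IsSquare (g ν) := by rw [g2 ν hν, div_eq_mul_inv]; exact isSquare_mul h (by simpa using hν)
    have h4 := gg ν (ns0 hν)
    rw [g1 _ (hg ν (ns0 hν)).2 h3] at h4
    exact hν (h4 ▸ q1.div h3)
  refine ⟨?_, by simpa using hm.mul q1⟩
  obtain ⟨c, hc⟩ : ∃ c, c = c₂ / c₁ := ⟨_, rfl⟩
  have q3 : IsSquare c := hc ▸ q2.div q1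
  obtain ⟨f', hf'⟩ : ∃ f', f' = Mu (Units.mk0 c₁ c10)⁻¹ * f := ⟨_, rfl⟩
  have m1 : f' ∈ S := hf' ▸ S.mul_mem ((hM _).2 (by simpa using q1)) hf
  have m2 : f' ∞ = (0 : F) := by simp [-map_inv, hf', f0]
  have m3 : f' (0 : F) = ∞ := by simp [-map_inv, hf', f1]
  have m4 : ∀ x : F, x ≠ 0 → IsSquare x → f' x = (1 / x : F) := fun x hx h => by
    rw [hf', Equiv.Perm.mul_apply, (hg x hx).1, g1 x hx h, Mu_coe]
    congr 1; simp; field_simp
  have m5 : ∀ x : F, ¬ IsSquare x → f' x = (c / x : F) := fun x h => by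
    rw [hf', Equiv.Perm.mul_apply, (hg x (ns0 h)).1, g2 x h, Mu_coe, hc]
    congr 1; simp; field_simp
  have m6 : ∀ x : F, x ≠ 0 → ∃ d, (d = 1 ∨ d = c) ∧ f' x = (d / x : F) := fun x hx => by
    by_cases h : IsSquare x
    · exact ⟨1, Or.inl rfl, m4 x hx h⟩
    · exact ⟨c, Or.inr rfl, m5 x h⟩
  have m7 : f' * f' = 1 := by
    rw [hf', mul_assoc, ← mul_assoc f, hinv _ (by simpa using q1), inv_inv, mul_assoc, ff, mul_one,
      ← map_mul, inv_mul_cancel, map_one]
  have m8 : f' (1 : F) = (1 : F) := by simpa using m4 1 one_ne_zero IsSquare.one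
  have m9 : f' (-1 : F) = (-1 : F) := by simpa [div_neg] using m4 (-1) (by simp) hm
  obtain ⟨b, a, e⟩ := haff (f' * T (-1) * (f' * T 1 * f') * T (-1)) (S.mul_mem (S.mul_mem
    (S.mul_mem m1 (hT _)) (S.mul_mem (S.mul_mem m1 (hT _)) m1)) (hT _)) (by simp [m2, m3, m8])
  have e3 := DFunLike.congr_fun e ((0 : F) : OnePoint F)
  have e4 := DFunLike.congr_fun e ((1 : F) : OnePoint F)
  simp [m2, m3, m9] at e3 e4
  have key : ∀ x, ¬ IsSquare x → c = 1 ∨ x * x + x + c = 0 := by
    intro x hx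
    have x0 := ns0 hx
    have x1 : x + 1 ≠ 0 := fun h => hx (eq_neg_of_add_eq_zero_left h ▸ hm)
    have x2 : c + x ≠ 0 := fun h => hx (eq_neg_of_add_eq_zero_right h ▸ by simpa using hm.mul q3)
    have x3 : c / x + 1 ≠ 0 := by rw [div_add_one x0]; exact div_ne_zero x2 x0
    obtain ⟨d₁, h₁, k₁⟩ := m6 _ x3
    obtain ⟨d₂, h₂, k₂⟩ := m6 _ (neg_ne_zero.2 x1)
    have e5 := congrArg f' (DFunLike.congr_fun e ((x + 1 : F) : OnePoint F))
    have e6 : ∀ y, f' (f' y) = y := fun y => DFunLike.congr_fun m7 y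
    simp only [Equiv.Perm.mul_apply, e6, T_coe, add_neg_cancel_right, m5 x hx, k₁, Mu_coe, ← e3,
      add_zero] at e5
    rw [← e3, add_zero] at e4
    rw [← e4, neg_one_mul, k₂, coe_eq_coe] at e5
    field_simp at e5
    have c0 : c ≠ 0 := by
      rintro rfl
      exact div_ne_zero (hc₂ ▸ mul_ne_zero (ns0 hν) (hg ν (ns0 hν)).2) c10 hc.symm
    rcases h₁ with rfl | rfl <;> rcases h₂ with h₂ | h₂ <;> rw [h₂] at e5
    · left; apply mul_left_cancel₀ x0; linear_combination -e5
    · left; apply mul_left_cancel₀ c0; linear_combination e5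
    · left; apply mul_left_cancel₀ (mul_ne_zero x0 x0); linear_combination e5
    · rw [← sub_eq_zero, ← mul_eq_zero]; linear_combination e5
  have : c = 1 := by
    by_contra h
    have h3 := (key ν hν).resolve_left h
    have h4 := (key (-ν) fun h' => hν (by simpa using hm.mul h')).resolve_left h
    exact mul_ne_zero h2 (ns0 hν) (by linear_combination h3 - h4)
  rwa [hc, div_eq_one_iff_eq c10] at this

end Pool.Agent.Lib.MP_cb9dee_al.M
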