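import Pool.Agent.Lib.MP_cb9dee_al.MCover

namespace Pool.Agent.Lib.MP_cb9dee_al

open Subgroup Matrix
open MulAut (conj conj_apply conjNormal)
open scoped MatrixGroups commutatorElement

namespace M

variable {F : Type} [Field F]

lemma indep {A : Matrix (Fin 2) (Fin 2) F} (hA : ∀ c : F, A ≠ c • 1) {x y x' y' : F}
    (h : x • (1 : Matrix (Fin 2) (Fin 2) F) + y • A = x' • 1 + y' • A) : x = x' ∧ y = y' := by
  have h1 : y = y' := by
    by_contra e
    refine hA ((y - y')⁻¹ * (x' - x)) ?_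
    rw [mul_smul, eq_inv_smul_iff₀ (sub_ne_zero.2 e), sub_smul, sub_smul]
    linear_combination (norm := module) h
  subst h1
  simpa using congrFun (congrFun h 0) 0

lemma trace_span (A : Matrix (Fin 2) (Fin 2) F) (x y : F) :
    (x • (1 : Matrix (Fin 2) (Fin 2) F) + y • A).trace = 2 * x + y * A.trace := by
  simp [trace_fin_two]; ring

lemma det_span (A : Matrix (Fin 2) (Fin 2) F) (x y : F) :
    (x • (1 : Matrix (Fin 2) (Fin 2) F) + y • A).det =
      x * x + x * y * A.trace + y * y * A.det := by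
  simp [trace_fin_two, det_fin_two]; ring

lemma normal_form (hm : ¬ IsSquare (-1 : F)) {s τ : Matrix (Fin 2) (Fin 2) F} (s0 : s.trace = 0)
    (s1 : s.det = 1) (t1 : τ.det = 1) (ts : (τ * s).trace = 1) {x y : F}
    (h : x * x + x * τ.trace + y * y - y + 1 = 0) : ∃ g : GL (Fin 2) F,
      s * g.val = g.val * !![0, -1; 1, 0] ∧ τ * g.val = g.val * !![-x, 1 - y; -y, τ.trace + x] := by
  classical
  have ss : s * s = -1 := by rw [sq_eq, s0, s1]; simp
  obtain ⟨v, v0, hv⟩ := (exists_mulVec_eq_zero_iff (M := x • 1 + y • s + τ)).2 (by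
    simp only [trace_fin_two, det_fin_two, mul_apply, Fin.sum_univ_two] at s0 s1 t1 ts h
    simp [det_fin_two]
    linear_combination h + (x * y + y * τ 0 0 + y * τ 1 1) * s0 + y * y * s1 + t1 - y * ts)
  have hd : (!![v 0, (s *ᵥ v) 0; v 1, (s *ᵥ v) 1]).det ≠ 0 := by
    simp only [trace_fin_two, det_fin_two] at s0 s1
    simp [det_fin_two]
    intro e
    have e1 : v 1 = 0 := by
      by_contra e1
      refine hm ⟨(s 1 0 * v 0 - s 0 0 * v 1) / v 1, ?_⟩
      field_simp
      linear_combination (-s 1 0) * e + (s 1 0 * v 0 * v 1 - s 0 0 * v 1 ^ 2) * s0 + v 1 ^ 2 * s1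
    have e0 : v 0 ≠ 0 := fun e0 => v0 (by ext i; fin_cases i <;> simp [e0, e1])
    have e2 : s 1 0 = 0 := by simpa [e1, e0] using e
    exact hm ⟨s 0 0, by rw [e2] at s1; linear_combination s1 - s 0 0 * s0⟩
  let g := GeneralLinearGroup.mkOfDetNeZero _ hd
  have h1 : s * g.val = g.val * !![0, -1; 1, 0] := by
    have := congrArg (· *ᵥ v) ss
    simp only [← mulVec_mulVec, neg_mulVec, one_mulVec] at this
    have e0 := congrFun this 0
    have e1 := congrFun this 1
    ext i j
    fin_cases i <;> fin_cases j <;> simp [g, mul_apply] <;> simp at e0 e1 <;> assumption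
  refine ⟨g, h1, ?_⟩
  obtain ⟨u, hu⟩ : ∃ u, τ * g.val = g.val * u := ⟨(g⁻¹).val * (τ * g.val), by simp⟩
  have u1 : u.trace = τ.trace := by
    rw [← g.inv_mul_cancel_left u, ← hu, trace_mul_comm, Units.mul_inv_cancel_right]
  have u2 : (u * !![0, -1; 1, 0]).trace = 1 := by
    rw [← g.inv_mul_cancel_left (u * _), ← mul_assoc g.val, ← hu, mul_assoc, ← h1, ← mul_assoc τ,
      trace_mul_comm, Units.mul_inv_cancel_right, ts]
  have u3 : g.val *ᵥ ![u 0 0 + x, u 1 0 + y] = 0 := by
    have e0 := congrFun hv 0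
    have e1 := congrFun hv 1
    have f0 := congrFun (congrFun hu 0) 0
    have f1 := congrFun (congrFun hu 1) 0
    ext i
    fin_cases i <;> simp [g, mul_apply] at e0 e1 f0 f1 ⊢
    · linear_combination e0 - f0
    · linear_combination e1 - f1
  have u4 := eq_zero_of_mulVec_eq_zero g.det_ne_zero u3
  have e0 := congrFun u4 0
  have e1 := congrFun u4 1
  rw [hu, ← u1]
  congr 1
  simp [trace_fin_two, mul_apply] at e0 e1 u2
  ext i j
  fin_cases i <;> fin_cases j <;> simp [trace_fin_two]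
  · linear_combination e0
  · linear_combination u2 + e1
  · linear_combination e1
  · linear_combination -e0

lemma triv_of_comm {M X : Type} [Group M] [Group X] (θ : M →* X) (hp : commutator M = ⊤)
    (h : ∀ a b, θ a * θ b = θ b * θ a) (a : M) : θ a = 1 :=
  (commutator_le.2 fun a _ b _ => by
    rw [MonoidHom.mem_ker, map_commutatorElement, commutatorElement_eq_one_iff_mul_comm, h] :
      commutator M ≤ θ.ker) (hp.ge (mem_top a))

lemma tr_add (a b : F) : tr (a + b) = tr a * tr b := by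
  ext i j
  fin_cases i <;> fin_cases j <;> simp [tr, mul_apply, add_comm]

lemma tr_eq_one {a : F} : tr a = 1 ↔ a = 0 := by
  refine ⟨fun h => by simpa [tr] using congrFun (congrFun (congrArg Subtype.val h) 0) 1, ?_⟩
  rintro rfl
  ext i j
  fin_cases i <;> fin_cases j <;> simp [tr]

lemma tr_pow (n : ℕ) : tr (1 : F) ^ n = tr (n : F) := by
  induction n with
  | zero => simp [tr_eq_one.2]
  | succ n ih => rw [pow_succ, ih, ← tr_add, Nat.cast_succ]

lemma jj_sq : jj F * jj F = -1 := by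
  ext i j
  fin_cases i <;> fin_cases j <;> simp [jj, mul_apply]

lemma tj_cube : tr 1 * jj F * (tr 1 * jj F) * (tr 1 * jj F) = -1 := by
  ext i j
  fin_cases i <;> fin_cases j <;> simp [jj, tr, mul_apply]

lemma tj_ne : tr 1 * jj F ≠ jj F * tr 1 := fun h => by
  simpa [jj, tr, mul_apply] using congrFun (congrFun (congrArg Subtype.val h) 0) 0

variable {p r : ℕ} [Fact p.Prime] [Fact r.Prime]

lemma sl_gen {S : Subgroup SL(2, ZMod p)} (h1 : tr 1 ∈ S) (h2 : jj _ ∈ S) : S = ⊤ := by
  have ht : ∀ b, tr b ∈ S := fun b => by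
    rw [← ZMod.natCast_zmod_val b, ← tr_pow]; exact pow_mem h1 _
  have key : ∀ A : SL(2, ZMod p), A 1 0 ≠ 0 → A ∈ S := by
    intro A h
    have hd := A.det_coe
    rw [det_fin_two] at hd
    have : A * jj _ * jj _ = tr ((A 0 0 - 1) / A 1 0) * jj _ * tr (-A 1 0) * jj _ *
        tr ((A 1 1 - 1) / A 1 0) := by
      rw [mul_assoc, jj_sq]
      ext i j
      fin_cases i <;> fin_cases j <;> simp [jj, tr, mul_apply] <;> field_simp <;>
        first | ring1 | linear_combination hd
    rw [← mul_mem_cancel_right h2, ← mul_mem_cancel_right h2, this]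
    exact mul_mem (mul_mem (mul_mem (mul_mem (ht _) h2) (ht _)) h2) (ht _)
  refine eq_top_iff.2 fun A _ => ?_
  by_cases h : A 1 0 = 0
  · rw [← mul_mem_cancel_right h2]
    refine key _ ?_
    have hd := A.det_coe
    rw [det_fin_two, h] at hd
    have : A 1 1 ≠ 0 := fun e => by simp [e] at hd
    simpa [jj, mul_apply] using this
  · exact key A h

variable {L : Type} [Group L] [Finite L] {k m : ℕ} {f : SL(2, ZMod p) →* L}

theorem rep_facts (c : Cov f (-1)) (h : Pack L p k m) (hr : (2 : ZMod r) ≠ 0) (hpr : p ≠ r)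
    (θ : SL(2, ZMod p) →* GL (Fin 2) (ZMod r)) (hθ : θ (-1) = -1) :
    p = 5 ∧ (θ (jj _)).val.trace = 0 ∧ (∀ A, (θ A).val.det = 1) ∧
      ((θ (tr 1)).val * θ (jj _)).trace = 1 ∧
      (θ (tr 1)).val.trace ^ 2 + (θ (tr 1)).val.trace - 1 = 0 ∧
      ∀ B : GL (Fin 2) (ZMod r), (∀ A, B * θ A = θ A * B) → ∃ c : ZMod r, B.val = c • 1 := by
  have hp := c.pack_perfect h
  have := h.simple
  have h2 := two_ne h.five
  have m1 : (-1 : SL(2, ZMod p)) ∉ θ.ker := fun e => hr (by
    have := congrArg (fun A : GL (Fin 2) (ZMod r) => A 0 0) (hθ.symm.trans e)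
    simp at this
    linear_combination -this)
  have hi : Function.Injective θ := by
    rw [injective_iff_map_eq_one]
    rcases (θ.normal_ker.map f c.surj).eq_bot_or_eq_top with e | e
    · exact fun A hA => ((c.ker A).1 (e.le ⟨A, hA, rfl⟩)).resolve_right fun e => m1 (e ▸ hA)
    · obtain ⟨s, hs, e'⟩ := e.ge (mem_top (f (jj _)))
      rcases (c.ker (s⁻¹ * jj _)).1 (by simp [e']) with a | a <;>
        rw [inv_mul_eq_iff_eq_mul] at a <;> refine (m1 ?_).elim <;> rw [← jj_sq, a] <;>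
        simpa using mul_mem hs hs
  have hd : ∀ A, (θ A).val.det = 1 := fun A => congrArg Units.val
    (triv_of_comm (GeneralLinearGroup.det.comp θ) hp (fun _ _ => mul_comm _ _) A)
  have ns : ∀ A B, A * B ≠ B * A → ∀ c : ZMod r, (θ A).val ≠ c • 1 := fun A B hAB c e => hAB (hi (by
    ext1; simp [e]))
  obtain ⟨τ, hτ⟩ : ∃ τ, τ = (θ (tr 1)).val := ⟨_, rfl⟩
  obtain ⟨s, hs⟩ : ∃ s, s = (θ (jj _)).val := ⟨_, rfl⟩
  have n1 : ∀ c : ZMod r, τ ≠ c • 1 := hτ ▸ ns _ _ tj_ne
  have n2 : ∀ c : ZMod r, s ≠ c • 1 := hs ▸ ns _ _ tj_ne.symm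
  have n3 : ∀ c : ZMod r, τ * s ≠ c • 1 := by
    rw [hτ, hs, ← Units.val_mul, ← map_mul]
    exact ns _ (jj _) fun e => tj_ne (mul_right_cancel (e.trans (mul_assoc _ _ _).symm))
  have d1 : τ.det = 1 := hτ ▸ hd _
  have hpow : ∀ n : ℕ, τ ^ n = 1 ↔ p ∣ n := fun n => by
    rw [hτ, ← Units.val_pow_eq_pow_val, ← map_pow, Units.val_eq_one, map_eq_one_iff _ hi, tr_pow,
      tr_eq_one, ZMod.natCast_eq_zero_iff]
  have t2 : τ * τ = (-1 : ZMod r) • 1 + τ.trace • τ := by rw [sq_eq, d1]; module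
  rw [← hτ, ← hs]
  have key : p = 5 ∧ τ.trace ^ 2 + τ.trace - 1 = 0 := by
    have e : (τ ^ 4).trace = τ.trace := by
      let D : SL(2, ZMod p) := ⟨!![2, 0; 0, 2⁻¹], by simp [det_fin_two, h2]⟩
      have : tr 1 ^ 4 = D * tr 1 * D⁻¹ := by
        rw [eq_mul_inv_iff_mul_eq, tr_pow]
        ext i j
        fin_cases i <;> fin_cases j <;> simp [D, tr, mul_apply]
        field_simp; norm_num
      rw [hτ, ← Units.val_pow_eq_pow_val, ← map_pow, this, map_mul, map_mul, map_inv, Units.val_mul,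
        Units.val_mul, trace_units_conj]
    have e4 : τ ^ 4 = (1 - τ.trace ^ 2) • 1 + (τ.trace ^ 3 - 2 * τ.trace) • τ := by
      rw [show τ ^ 4 = τ * τ * (τ * τ) by noncomm_ring, t2]
      simp only [add_mul, mul_add, smul_mul_assoc, mul_smul_comm, one_mul, mul_one, t2]
      module
    rw [e4, trace_span] at e
    have e5 : (τ.trace - 2) * ((τ.trace + 1) * (τ.trace ^ 2 + τ.trace - 1)) = 0 := by
      linear_combination e
    rcases mul_eq_zero.1 e5 with a | a
    · have e6 : ∀ n : ℕ, τ ^ n = (1 - n : ZMod r) • 1 + (n : ZMod r) • τ := by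
        intro n
        induction n with
        | zero => simp
        | succ n ih =>
          rw [pow_succ, ih, add_mul, smul_mul_assoc, smul_mul_assoc, one_mul, t2, sub_eq_zero.1 a]
          push_cast
          module
      have := (hpow r).1 (by simp [e6])
      exact (hpr ((Nat.prime_dvd_prime_iff_eq Fact.out Fact.out).1 this)).elim
    rcases mul_eq_zero.1 a with a | a
    · have := (hpow 3).1 (by
        rw [pow_succ, sq, t2, add_mul, smul_mul_assoc, smul_mul_assoc, one_mul, t2,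
          eq_neg_of_add_eq_zero_left a]
        module)
      exact absurd (Nat.le_of_dvd three_pos this) (by have := h.five; omega)
    · refine ⟨(Nat.prime_dvd_prime_iff_eq Fact.out Nat.prime_five).1 ((hpow 5).1 ?_), a⟩
      rw [pow_succ, e4, add_mul, smul_mul_assoc, smul_mul_assoc, one_mul, t2]
      match_scalars
      · linear_combination (τ.trace ^ 2 - τ.trace - 1) * a
      · linear_combination (1 - τ.trace) * a
  refine ⟨key.1, trace_zero (c := -1) (by
    rw [hs, ← Units.val_mul, ← map_mul, jj_sq, hθ]; simp) n2, hd, ?_, key.2, fun B hB => ?_⟩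
  · have d3 : (τ * s).det = 1 := by rw [det_mul, d1, hs, hd, one_mul]
    have e : τ * s * (τ * s) * (τ * s) = (-1 : ZMod r) • 1 + (0 : ZMod r) • (τ * s) := by
      rw [hτ, hs, ← Units.val_mul, ← Units.val_mul, ← Units.val_mul, ← map_mul, ← map_mul,
        ← map_mul, tj_cube, hθ]; simp
    generalize τ * s = u at *
    have e2 : u * u * u = (-u.trace) • 1 + (u.trace ^ 2 - 1) • u := by
      rw [sq_eq, d3, sub_mul, smul_mul_assoc, sq_eq, d3]
      simp only [smul_mul_assoc, one_mul]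
      module
    exact neg_inj.1 (indep n3 (e2.symm.trans e)).1
  · obtain ⟨x, y, e⟩ := comm_span (B := B.val) (hs ▸ congrArg Units.val (hB (jj _)).symm) n2
    refine ⟨x, ?_⟩
    by_cases hy : y = 0
    · simp [e, hy]
    refine (tj_ne (hi ?_)).elim
    have := congrArg Units.val (hB (tr 1))
    rw [Units.val_mul, Units.val_mul, e, ← hτ] at this
    simp only [add_mul, mul_add, smul_mul_assoc, mul_smul_comm, one_mul, mul_one,
      add_right_inj] at this
    ext1
    rw [map_mul, map_mul, Units.val_mul, Units.val_mul, ← hτ, ← hs]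
    exact (smul_right_injective _ hy this).symm

theorem rep_conj (c : Cov f (-1)) (h : Pack L p k m) (hr : (2 : ZMod r) ≠ 0) (hpr : p ≠ r)
    (hm : ¬ IsSquare (-1 : ZMod r)) (θ θ' : SL(2, ZMod p) →* GL (Fin 2) (ZMod r))
    (hθ : θ (-1) = -1) (hθ' : θ' (-1) = -1) :
    ∃ (e : SL(2, ZMod p) ≃* SL(2, ZMod p)) (g : GL (Fin 2) (ZMod r)),
      ∀ A, g * θ A = θ' (e A) * g := by
  obtain ⟨-, a1, a2, a3, a4, -⟩ := rep_facts c h hr hpr θ hθ
  have key : ∀ θ' : SL(2, ZMod p) →* GL (Fin 2) (ZMod r), θ' (-1) = -1 →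
      (θ' (tr 1)).val.trace = (θ (tr 1)).val.trace → ∃ g, ∀ A, g * θ A = θ' A * g := by
    intro θ' hθ' e
    obtain ⟨-, b1, b2, b3, -⟩ := rep_facts c h hr hpr θ' hθ'
    obtain ⟨x, y, hxy⟩ := ZMod.sq_add_sq r (((θ (tr 1)).val.trace ^ 2 - 3) / 4)
    have h4 : (4 : ZMod r) ≠ 0 := by
      rw [← two_add_two_eq_four, ← two_mul]; exact mul_ne_zero hr hr
    have hxy' : (x - (θ (tr 1)).val.trace / 2) * (x - (θ (tr 1)).val.trace / 2) +
        (x - (θ (tr 1)).val.trace / 2) * (θ (tr 1)).val.trace + (y + 1 / 2) * (y + 1 / 2) -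
        (y + 1 / 2) + 1 = 0 := by
      rw [eq_div_iff h4] at hxy
      field_simp
      linear_combination hxy
    obtain ⟨g, g1, g2⟩ := normal_form hm a1 (a2 _) (a2 _) a3 hxy'
    obtain ⟨g', g1', g2'⟩ := normal_form hm b1 (b2 _) (b2 _) b3 (e ▸ hxy')
    rw [e] at g2'
    have aux : ∀ {A A' : GL (Fin 2) (ZMod r)} {X}, A.val * g = g * X → A'.val * g' = g' * X →
        conj (g' * g⁻¹) A = A' := by
      intro A A' X e1 e2
      rw [conj_apply, mul_inv_eq_iff_eq_mul, ← mul_assoc, eq_mul_inv_iff_mul_eq]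
      ext1
      simp only [Units.val_mul, mul_assoc, e1, e2, Units.inv_mul_cancel_left]
    have := sl_gen (S := ((conj (g' * g⁻¹)).toMonoidHom.comp θ).eqLocus θ') (aux g2 g2')
      (aux g1 g1')
    exact ⟨g' * g⁻¹, fun A => mul_inv_eq_iff_eq_mul.1 (this.ge (mem_top A))⟩
  by_cases e : (θ' (tr 1)).val.trace = (θ (tr 1)).val.trace
  · exact ⟨.refl _, key θ' hθ' e⟩
  obtain ⟨-, -, b2, -, b4, -⟩ := rep_facts c h hr hpr θ' hθ'
  let D := dg (Units.mk0 _ (two_ne h.five))
  let e₀ : SL(2, ZMod p) →* SL(2, ZMod p) := MonoidHom.mk'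
    (fun A => ⟨D.val * A.1 * (D⁻¹).val, by rw [det_units_conj, A.2]⟩) fun A B =>
      Subtype.ext (by simp [mul_assoc])
  have hi : Function.Injective e₀ := fun A B e => Subtype.ext
    (D.mul_right_inj.1 ((D⁻¹).mul_left_inj.1 (congrArg Subtype.val e)))
  refine ⟨.ofBijective e₀ (Finite.injective_iff_bijective.1 hi), key (θ'.comp e₀) ?_ ?_⟩
  · rw [← hθ']
    exact congrArg θ' (Subtype.ext (by simp [e₀]))
  · have : e₀ (tr 1) = tr 1 * tr 1 := Subtype.ext (by
      change D.val * _ * (D⁻¹).val = _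
      rw [Units.mul_inv_eq_iff_eq_mul]
      ext i j
      fin_cases i <;> fin_cases j <;> simp [D, dg, tr, mul_apply, one_add_one_eq_two])
    rw [MonoidHom.comp_apply, this, map_mul, Units.val_mul, sq_eq, b2, trace_sub, trace_smul]
    apply mul_left_cancel₀ (sub_ne_zero.2 e)
    simp only [smul_eq_mul, one_smul, trace_one, Fintype.card_fin, Nat.cast_ofNat]
    linear_combination ((θ' (tr 1)).val.trace - (θ (tr 1)).val.trace - 1) * b4 + a4

end M

end Pool.Agent.Lib.MP_cb9dee_al
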