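import Pool.Agent.Lib.MP_cb9dee_al.Aff
import Pool.Agent.Lib.MP_cb9dee_al.Field

namespace Pool.Agent.Lib.MP_cb9dee_al

lemma exists_unit_orderOf (K : Type) [Field K] [Finite K] {m : ℕ} (h : m ∣ Nat.card K - 1) :
    ∃ a : Kˣ, orderOf a = m := by
  obtain ⟨g, hg⟩ := IsCyclic.exists_ofOrder_eq_natCard (α := Kˣ)
  rw [Nat.card_units] at hg
  exact ⟨g ^ (orderOf g / m), orderOf_pow_orderOf_div (orderOf_pos g).ne' (hg ▸ h)⟩

theorem not_rigid_a {n p q : ℕ} (h0 : n ≠ 0) (hp : p.Prime) (hq : q.Prime) (h2 : q ≠ 2)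
    (h1 : q ∣ n) (h3 : p ^ 2 ∣ n) (h4 : q ∣ p - 1) : ¬ Rigid n := by
  have := Fact.mk hp
  obtain ⟨M, rfl⟩ := h3
  have hqp : q ≠ p := fun e => by
    have := Nat.le_of_dvd (by have := hp.two_le; omega) h4
    have := hp.two_le
    omega
  have hm : q ∣ M := (((Nat.coprime_primes hq hp).2 hqp).pow_right 2).dvd_mul_left.1 h1
  obtain ⟨a, ha⟩ := exists_unit_orderOf (ZMod p) (m := q) (by rwa [Nat.card_zmod])
  have := not_rigid_frob a a ha ha ((Nat.coprime_primes hq Nat.prime_two).2 h2) hq.one_lt.ne'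
    (right_ne_zero_of_mul h0) hm fun θ j hθ h => by
      obtain ⟨v, hv⟩ := hθ 1
      have h5 := h v
      have h6 : ((a : ZMod p), (a : ZMod p)) * v = (a : ZMod p).val • v := by
        ext <;> simp
      rw [h6, map_nsmul, hv, mul_one] at h5
      have h7 : (a : ZMod p) = (a : ZMod p) ^ j := by simpa using congrArg Prod.fst h5
      have h8 : (a : ZMod p) = ((a : ZMod p) ^ j) ^ 2 := by simpa using congrArg Prod.snd h5
      rw [← h7, pow_two, right_eq_mul₀ a.ne_zero, Units.val_eq_one, ← orderOf_eq_one_iff, ha] at h8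
      exact hq.one_lt.ne' h8
  rwa [Nat.card_zmod, ← pow_two] at this

lemma root_cases {R K : Type} [CommRing R] [Field K] (π : R →+* K) {c : ℕ} (hc : (c : K) ≠ 0)
    (hk : ∀ r, π r = 0 → c • r = 0) {θ : R →+ R} (hθ : Function.Surjective θ) {u w : R}
    (h : ∀ v, θ (u * v) = w * θ v) {τ δ : ℤ} {a' : K} (hτ : (τ : K) = π u + a')
    (hδ : (δ : K) = π u * a') : π w = π u ∨ π w = a' := by
  obtain ⟨v, hv⟩ := hθ 1
  have h1 := hk (u * (u * v) - τ • (u * v) + δ • v) (by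
    simp only [zsmul_eq_mul, map_add, map_sub, map_mul, map_intCast, hτ, hδ]
    ring)
  have h2 := congrArg (fun x => π (θ x)) h1
  simp only [map_nsmul, map_add, map_sub, map_zsmul, h, hv, map_zero, map_mul, map_one] at h2
  rw [nsmul_eq_mul, mul_eq_zero, zsmul_eq_mul, zsmul_eq_mul, hτ, hδ] at h2
  have h3 : (π w - π u) * (π w - a') = 0 := by linear_combination h2.resolve_left hc
  exact (mul_eq_zero.1 h3).imp sub_eq_zero.1 sub_eq_zero.1

theorem not_rigid_two {K L : Type} [Field K] [Field L] [Finite K] [Finite L] {p q m n : ℕ}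
    [CharP K p] [CharP L q] (hp : p.Prime) (hq : q.Prime) (hpq : p ≠ q) (h0 : n ≠ 0)
    (a : Kˣ) (b : Lˣ) (ha : orderOf a = m) (hb : orderOf b = m) (h2 : m.Coprime 2) (h1 : m ≠ 1)
    (hd : Nat.card K * Nat.card L * m ∣ n) {a' : K} {b' : L} {τ δ τ' δ' : ℤ}
    (e1 : (τ : K) = a + a') (e2 : (δ : K) = a * a') (e3 : (τ' : L) = b + b')
    (e4 : (δ' : L) = b * b')
    (h : (a' = a ∧ b' = b) ∨ (a' = (a⁻¹ : Kˣ) ∧ b' = (b⁻¹ : Lˣ) ∧ ¬ m ∣ 3)) : ¬ Rigid n := by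
  obtain ⟨M, rfl⟩ := hd
  rw [mul_assoc] at h0 ⊢
  refine not_rigid_frob a b ha hb h2 h1 (right_ne_zero_of_mul h0) (dvd_mul_right _ _)
    fun θ j hθ hj => ?_
  have k1 := root_cases (RingHom.fst K L) (c := q) (by
    rw [Ne, CharP.cast_eq_zero_iff K p, Nat.prime_dvd_prime_iff_eq hp hq]; exact hpq)
    (fun r hr => by ext; exacts [by rw [Prod.smul_fst, show r.1 = 0 from hr]; simp, by simp])
    hθ hj e1 e2
  have k2 := root_cases (RingHom.snd K L) (c := p) (by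
    rw [Ne, CharP.cast_eq_zero_iff L q, Nat.prime_dvd_prime_iff_eq hq hp]; exact hpq.symm)
    (fun r hr => by ext; exacts [by simp, by rw [Prod.smul_snd, show r.2 = 0 from hr]; simp])
    hθ hj e3 e4
  simp only [RingHom.coe_fst, RingHom.coe_snd, ← Units.val_pow_eq_pow_val] at k1 k2
  have t1 : a ^ j = a → b ^ j = b := fun e => by
    have : a ^ j = a ^ 1 := by rw [e, pow_one]
    rw [pow_eq_pow_iff_modEq, ha, ← hb, ← pow_eq_pow_iff_modEq, pow_one] at this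
    exact this
  have t2 : a ^ j = a⁻¹ → b ^ j = b⁻¹ := fun e => by
    rw [eq_inv_iff_mul_eq_one, ← pow_succ, ← orderOf_dvd_iff_pow_eq_one] at e ⊢
    rwa [hb, ← ha]
  have n1 : b ≠ 1 := fun e => h1 (by rw [← hb, e, orderOf_one])
  rcases h with ⟨rfl, rfl⟩ | ⟨rfl, rfl, h3⟩
  · rw [or_self, Units.val_inj] at k1 k2
    rw [t1 k1, pow_two, mul_eq_left] at k2
    exact n1 k2
  · have n3 : b ^ 3 ≠ 1 := fun e => h3 (hb ▸ orderOf_dvd_of_pow_eq_one e)
    simp only [Units.val_inj] at k1 k2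
    rcases k1 with k1 | k1
    · rw [t1 k1, pow_two, mul_eq_left, eq_inv_iff_mul_eq_one, ← pow_two, ← pow_succ] at k2
      exact k2.elim n1 n3
    · rw [t2 k1, inv_pow, inv_eq_iff_mul_eq_one, ← pow_succ, inv_inj, pow_two b,
        mul_eq_left] at k2
      exact k2.elim n3 n1

lemma exists_field {m n p : ℕ} (h : p ∈ Acted m n) :
    ∃ (K : Type) (_ : Field K) (_ : Finite K) (e : ℕ), CharP K p ∧ Nat.card K = p ^ e ∧ p ^ e ∣ n ∧
      ¬ p ∣ m ∧ ∃ a : Kˣ, orderOf a = m ∧ ∃ τ : ℤ, (τ : K) = a + (a⁻¹ : Kˣ) := by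
  obtain ⟨hp, h⟩ := h
  have := Fact.mk hp
  have := hp.two_le
  rcases h with ⟨h1, h2⟩ | ⟨h1, h2⟩
  · obtain ⟨a, ha⟩ := exists_unit_orderOf (ZMod p) (m := m) (by rwa [Nat.card_zmod])
    refine ⟨ZMod p, inferInstance, inferInstance, 1, inferInstance, by simp, by simpa using h1,
      fun h => ?_, a, ha, ZMod.intCast_surjective _⟩
    have := Nat.le_of_dvd (by omega) (h.trans h2)
    omega
  · obtain ⟨a, ha⟩ := exists_unit_orderOf (GaloisField p 2) (m := m) (by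
      rw [gf_card, ← one_pow 2, Nat.sq_sub_sq]; exact h2.mul_right _)
    refine ⟨GaloisField p 2, inferInstance, inferInstance, 2, inferInstance, gf_card p, h1,
      fun h => hp.one_lt.ne' (Nat.dvd_one.1 ((Nat.dvd_add_right dvd_rfl).1 (h.trans h2))),
      a, ha, ?_⟩
    have h3 : a ^ p = a⁻¹ := by
      rw [eq_inv_iff_mul_eq_one, ← pow_succ, ← orderOf_dvd_iff_pow_eq_one, ha]
      exact h2
    have h4 : ((a : GaloisField p 2) + (a⁻¹ : (GaloisField p 2)ˣ)) ∈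
        (⊥ : Subfield (GaloisField p 2)) := by
      rw [Subfield.mem_bot_iff_pow_eq_self (F := GaloisField p 2) (p := p), add_pow_char, ← Units.val_pow_eq_pow_val,
        ← Units.val_pow_eq_pow_val, inv_pow, h3, inv_inv, add_comm]
    exact (mem_bot_iff_intCast p _).1 h4

theorem not_rigid_acted {m n : ℕ} (h0 : n ≠ 0)
    (h2 : m.Coprime 2) (h3 : ¬ m ∣ 3) (hmn : m ∣ n) (h : ¬ (Acted m n).Subsingleton) :
    ¬ Rigid n := by
  obtain ⟨p, hp, q, hq, hpq⟩ := Set.not_subsingleton_iff.1 h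
  obtain ⟨K, _, _, e, _, c1, d1, n1, a, ha, τ, hτ⟩ := exists_field hp
  obtain ⟨L, _, _, f, _, c2, d2, n2, b, hb, τ', hτ'⟩ := exists_field hq
  refine not_rigid_two hp.1 hq.1 hpq h0 a b ha hb h2 (fun e => h3 (e ▸ one_dvd _)) ?_
    (δ := 1) (δ' := 1) hτ (by simp) hτ' (by simp) (Or.inr ⟨rfl, rfl, h3⟩)
  rw [c1, c2]
  refine Nat.Coprime.mul_dvd_of_dvd_of_dvd (Nat.Coprime.mul_left ?_ ?_)
    ((Nat.coprime_pow_primes _ _ hp.1 hq.1 hpq).mul_dvd_of_dvd_of_dvd d1 d2) hmn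
  · exact ((Nat.Prime.coprime_iff_not_dvd hp.1).2 n1).pow_left _
  · exact ((Nat.Prime.coprime_iff_not_dvd hq.1).2 n2).pow_left _

theorem not_rigid_three {n : ℕ} (h0 : n ≠ 0) (h3 : 3 ∣ n)
    (h : ¬ {p | p.Prime ∧ p ∣ n ∧ 3 ∣ p - 1}.Subsingleton) : ¬ Rigid n := by
  obtain ⟨p, ⟨hp, d1, e1⟩, q, ⟨hq, d2, e2⟩, hpq⟩ := Set.not_subsingleton_iff.1 h
  have := Fact.mk hp
  have := Fact.mk hq
  obtain ⟨a, ha⟩ := exists_unit_orderOf (ZMod p) (m := 3) (by rwa [Nat.card_zmod])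
  obtain ⟨b, hb⟩ := exists_unit_orderOf (ZMod q) (m := 3) (by rwa [Nat.card_zmod])
  obtain ⟨τ, hτ⟩ := ZMod.intCast_surjective ((a : ZMod p) + (a : ZMod p))
  obtain ⟨δ, hδ⟩ := ZMod.intCast_surjective ((a : ZMod p) * (a : ZMod p))
  obtain ⟨τ', hτ'⟩ := ZMod.intCast_surjective ((b : ZMod q) + (b : ZMod q))
  obtain ⟨δ', hδ'⟩ := ZMod.intCast_surjective ((b : ZMod q) * (b : ZMod q))
  refine not_rigid_two hp hq hpq h0 a b ha hb (by norm_num) (by norm_num) ?_ hτ hδ hτ' hδ'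
    (Or.inl ⟨rfl, rfl⟩)
  rw [Nat.card_zmod, Nat.card_zmod]
  refine Nat.Coprime.mul_dvd_of_dvd_of_dvd (Nat.Coprime.mul_left ?_ ?_)
    (((Nat.coprime_primes hp hq).2 hpq).mul_dvd_of_dvd_of_dvd d1 d2) h3
  · exact (Nat.coprime_primes hp Nat.prime_three).2 (by rintro rfl; norm_num at e1)
  · exact (Nat.coprime_primes hq Nat.prime_three).2 (by rintro rfl; norm_num at e2)

theorem cond_of_rigid {n : ℕ} (h0 : n ≠ 0) (h4 : ¬ 4 ∣ n) (h : Rigid n) : Cond n := by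
  refine ⟨fun p hp h3 => ?_, fun p q hp hq h2 h1 h3 h5 => not_rigid_a h0 hp hq h2 h1 h3 h5 h,
    fun q hq h5 h1 => ?_, fun h3 => ?_, fun h9 => ?_⟩
  · obtain ⟨M, rfl⟩ := h3
    refine not_rigid_cube hp ?_ (M := p * M) (mul_ne_zero hp.ne_zero (right_ne_zero_of_mul h0))
      (dvd_mul_right _ _) (by rwa [← mul_assoc, ← pow_succ])
    rintro rfl
    exact h4 ⟨2 * M, by ring⟩
  · by_contra h'
    refine not_rigid_acted h0
      ((Nat.coprime_primes hq Nat.prime_two).2 (by omega)) (fun e => ?_) h1 h' h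
    have := Nat.le_of_dvd (by norm_num) e
    omega
  · by_contra h'
    exact not_rigid_three h0 h3 h' h
  · by_contra h'
    exact not_rigid_acted h0 (by norm_num) (by norm_num)
      h9 h' h

end Pool.Agent.Lib.MP_cb9dee_al
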