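import Pool.Agent.Lib.MP_cb9dee_al.Struct

namespace Pool.Agent.Lib.MP_cb9dee_al

open Subgroup Pointwise
open scoped commutatorElement

universe u

lemma mulAut_comm_of_cyclic {R : Type*} [Group R] [IsCyclic R] (a b : MulAut R) :
    a * b = b * a := by
  obtain ⟨g, hg⟩ := IsCyclic.exists_generator (α := R)
  rw [MulEquiv.eq_iff_eq_on_generator hg]
  obtain ⟨i, hi⟩ := mem_zpowers_iff.1 (hg (a g))
  obtain ⟨j, hj⟩ := mem_zpowers_iff.1 (hg (b g))
  rw [MulAut.mul_apply, MulAut.mul_apply, ← hi, ← hj, map_zpow, map_zpow, ← hi, ← hj,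
    ← zpow_mul, ← zpow_mul, mul_comm]

lemma exists_normal_sylow (n : ℕ) : ∀ (G : Type u) [Group G] [Finite G], Nat.card G = n →
    n ≠ 1 → ¬ 2 ∣ n → Small n →
    ∃ p, p.Prime ∧ p ∣ n ∧ ∃ P : Sylow p G, (P : Subgroup G).Normal := by
  induction n using Nat.strong_induction_on with
  | _ n ih =>
  intro G _ _ hG h1 h2 hs
  subst hG
  set r := (Nat.card G).minFac with hrdef
  have hr : r.Prime := Nat.minFac_prime h1
  have := Fact.mk hr
  have hrd : r ∣ Nat.card G := Nat.minFac_dvd _
  obtain ⟨R⟩ : Nonempty (Sylow r G) := inferInstance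
  have hN : normalizer (R : Set G) ≤ centralizer (R : Set G) := by
    intro g hg
    obtain ⟨a, ha⟩ := exists_isCj (P := R) (g := g) fun x hx => (mem_normalizer_iff.1 hg x).1 hx
    have hodd : ¬ 2 ∣ orderOf g := fun h => h2 (h.trans (orderOf_dvd_natCard g))
    have hgood := ha.good hs hrd hodd
    have ha1 : a = 1 := by
      by_contra hne
      have ho : orderOf a ≠ 1 := fun e => hne (orderOf_eq_one_iff.1 e)
      set s := (orderOf a).minFac
      have hsp : s.Prime := Nat.minFac_prime ho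
      have hsd : s ∣ orderOf a := Nat.minFac_dvd _
      have hsn : s ∣ Nat.card G := hsd.trans (ha.orderOf_dvd.trans (orderOf_dvd_natCard g))
      have hrs : r ≤ s := Nat.minFac_le_of_dvd hsp.two_le hsn
      have hr2 := hr.two_le
      have h3 : ¬ s ∣ r - 1 := fun h => by
        have := Nat.le_of_dvd (by omega) h
        omega
      have h4 := hsd.trans (hgood.orderOf_dvd hr)
      rcases hgood with h | ⟨h, -⟩
      · exact h3 (h ▸ h4)
      · have h5 : Nat.card R - 1 = (r + 1) * (r - 1) := by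
          rw [show Nat.card R = r ^ 2 from h, ← Nat.sq_sub_sq, one_pow]
        erw [h5] at h4
        have h6 := ((Nat.Prime.dvd_mul hsp).1 h4).resolve_right h3
        have h7 := Nat.le_of_dvd (by omega) h6
        have h8 : s ≠ r := fun e => by
          rw [e] at h6
          exact hr.one_lt.ne' (Nat.dvd_one.1 ((Nat.dvd_add_right dvd_rfl).1 h6))
        have h9 : ¬ 2 ∣ s := fun h => h2 (h.trans hsn)
        have h10 : ¬ 2 ∣ r := fun h => h2 (h.trans hrd)
        omega
    exact fun x hx => ((ha.eq_one_iff.1 ha1) x hx).symm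
  set K := (MonoidHom.transferSylow R hN).ker
  have hK : K.IsComplement' R := MonoidHom.ker_transferSylow_isComplement' R hN
  by_cases hK1 : Nat.card K = 1
  · refine ⟨r, hr, hrd, R, ?_⟩
    rw [card_eq_one.1 hK1, isComplement'_bot_left] at hK
    rw [hK]; infer_instance
  · have hKd : Nat.card K ∣ Nat.card G := card_subgroup_dvd_card K
    have hrK : ¬ r ∣ Nat.card K := MonoidHom.not_dvd_card_ker_transferSylow R hN
    have hlt : Nat.card K < Nat.card G :=
      lt_of_le_of_ne (Nat.le_of_dvd Nat.card_pos hKd) fun e => hrK (e ▸ hrd)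
    obtain ⟨p, hp, hpK, P, hP⟩ := ih _ hlt K rfl hK1 (fun h => h2 (h.trans hKd)) (hs.of_dvd hKd)
    have := Fact.mk hp
    have hpi : ¬ p ∣ K.index := by
      rw [hK.symm.index_eq_card, R.card_eq_multiplicity]
      intro h
      exact hrK (((Nat.prime_dvd_prime_iff_eq hp hr).1 (hp.dvd_of_dvd_pow h)) ▸ hpK)
    obtain ⟨Q, hQ⟩ := exists_sylow_map P hpi
    have := P.characteristic_of_normal hP
    exact ⟨p, hp, hpK.trans hKd, Q, hQ ▸ inferInstance⟩

lemma comm_of_field {R : Type*} [Group R] [Finite R] {p : ℕ} [hp : Fact p.Prime]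
    (hR : Nat.card R = p ^ 2) {a : MulAut R}
    (hirr : ∀ L : Subgroup R, (∀ x ∈ L, a x ∈ L) → L = ⊥ ∨ L = ⊤) :
    (∀ b c : MulAut R, a * b = b * a → a * c = c * a → b * c = c * b) ∧
    (∀ g : MulAut R, ¬ 2 ∣ orderOf g → a * (g * a * g⁻¹) = (g * a * g⁻¹) * a →
      a * g = g * a) := by
  have : Nontrivial R := Finite.one_lt_card_iff_nontrivial.1
    (hR ▸ Nat.one_lt_pow two_ne_zero hp.out.one_lt)
  obtain ⟨v, hv⟩ := exists_ne (1 : R)
  obtain ⟨e, -, -, hlin, hsemi⟩ := field_model p hR a hirr v hv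
  have key : ∀ (b c : MulAut R) (μ ν : GaloisField p 2), (∀ x, e (b x) = μ * e x) →
      (∀ x, e (c x) = ν * e x) → b * c = c * b := by
    intro b c μ ν hb hc
    ext x
    apply e.injective
    rw [MulAut.mul_apply, MulAut.mul_apply, hb, hc, hc, hb]
    ring
  refine ⟨fun b c hb hc => key b c _ _ (hlin b hb) (hlin c hc), fun g hg h => ?_⟩
  rcases hsemi g h with h1 | h1
  · exact key a g _ (e (g v)) (hlin a rfl) fun x => by rw [h1, mul_comm]
  · have h2 : a * g ^ 2 = g ^ 2 * a :=
      key a (g ^ 2) _ (e (g v) ^ p * e (g v)) (hlin a rfl) fun x => by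
        rw [pow_two, MulAut.mul_apply, h1 (g x), h1 x, mul_pow, ← pow_mul, ← pow_two, gf_pow]
        ring
    obtain ⟨m, hm⟩ := exists_pow_eq_self_of_coprime (x := g) (n := 2)
      ((Nat.Prime.coprime_iff_not_dvd Nat.prime_two).2 hg)
    rw [← hm]
    exact (Commute.pow_right h2 m : _)

lemma commutator_comm (n : ℕ) : ∀ (G : Type u) [Group G] [Finite G], Nat.card G = n →
    ¬ 2 ∣ n → Small n → ∀ x ∈ commutator G, ∀ y ∈ commutator G, x * y = y * x := by
  induction n using Nat.strong_induction_on with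
  | _ n ih =>
  intro G _ _ hG h2 hs
  subst hG
  by_cases h1 : Nat.card G = 1
  · have := (Nat.card_eq_one_iff_unique.1 h1).1
    exact fun _ _ _ _ => Subsingleton.elim _ _
  obtain ⟨p, hp, hpd, P, hP⟩ := exists_normal_sylow _ G rfl h1 h2 hs
  have := Fact.mk hp
  obtain ⟨H, hH⟩ := exists_right_complement'_of_coprime P.card_coprime_index
  have hHd : Nat.card H ∣ Nat.card G := card_subgroup_dvd_card H
  have hlt : Nat.card H < Nat.card G :=
    lt_of_le_of_ne (Nat.le_of_dvd Nat.card_pos hHd) fun e =>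
      P.not_dvd_index (by rw [hH.symm.index_eq_card, e]; exact hpd)
  have ihH := ih _ hlt H rfl (fun h => h2 (h.trans hHd)) (hs.of_dvd hHd)
  have hHH : ∀ x ∈ ⁅H, H⁆, ∀ y ∈ ⁅H, H⁆, x * y = y * x := by
    rw [← map_subtype_commutator]
    rintro _ ⟨x, hx, rfl⟩ _ ⟨y, hy, rfl⟩
    exact congrArg Subtype.val (ihH x hx y hy)
  let φ : G →* MulAut P := MulAut.conjNormal
  have hφ : ∀ g, IsCj (P := P) (φ g) g := isCj_conjNormal _
  have hodd : ∀ g : G, ¬ 2 ∣ orderOf g := fun g h => h2 (h.trans (orderOf_dvd_natCard g))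
  have hcH : ∀ g ∈ H, ∀ g' ∈ H, φ g * φ g' = φ g' * φ g := by
    rcases card_sylow_cases hs P hpd with h | h
    · have := isCyclic_of_prime_card h
      exact fun _ _ _ _ => mulAut_comm_of_cyclic _ _
    · by_cases h3 : ∀ y ∈ ⁅H, H⁆, φ y = 1
      · intro g hg g' hg'
        rw [← commutatorElement_eq_one_iff_mul_comm, ← map_commutatorElement]
        exact h3 _ (commutator_mem_commutator hg hg')
      · push Not at h3
        obtain ⟨y, hy, hy1⟩ := h3
        have hgood := ((hφ y).good hs hpd (hodd y)).resolve_left (by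
          erw [h]; exact (Nat.pow_lt_pow_right hp.one_lt one_lt_two).ne' ∘ (·.trans (pow_one p).symm))
        obtain ⟨c1, c2⟩ := comm_of_field h (irred_of_good hp h hgood.2 hy1)
        have h4 : ∀ g ∈ H, φ y * φ g = φ g * φ y := by
          intro g hg
          refine c2 _ (fun h => hodd g (h.trans (hφ g).orderOf_dvd)) ?_
          have h5 : g * y * g⁻¹ ∈ ⁅H, H⁆ := by
            rw [← map_subtype_commutator] at hy ⊢
            obtain ⟨y, hy, rfl⟩ := hy
            exact ⟨_, (inferInstance : (commutator H).Normal).conj_mem y hy ⟨g, hg⟩, rfl⟩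
          rw [← map_inv, ← map_mul, ← map_mul, ← map_mul, ← map_mul, hHH _ hy _ h5]
        exact fun g hg g' hg' => c1 _ _ (h4 g hg) (h4 g' hg')
  have hdec : ∀ g : G, ∃ h ∈ H, φ g = φ h := by
    intro g
    obtain ⟨⟨v, h⟩, hvh⟩ := hH.2 g
    refine ⟨h, h.2, ?_⟩
    have : φ v = 1 := (hφ v).eq_one_iff.2 fun x hx => sylow_comm hs P v.2 hx
    rw [← hvh, map_mul, this, one_mul]
  have hker : commutator G ≤ φ.ker := by
    rw [_root_.commutator_def, commutator_le]
    intro g _ g' _
    obtain ⟨h, hh, e⟩ := hdec g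
    obtain ⟨h', hh', e'⟩ := hdec g'
    rw [MonoidHom.mem_ker, map_commutatorElement, commutatorElement_eq_one_iff_mul_comm, e, e']
    exact hcH h hh h' hh'
  have hle : commutator G ≤ ⁅H, H⁆ ⊔ P := by
    have h3 : H.map (QuotientGroup.mk' (P : Subgroup G)) = ⊤ := by
      rw [eq_top_iff, ← map_top_of_surjective _ (QuotientGroup.mk'_surjective (P : Subgroup G)),
        Subgroup.map_le_map_iff, QuotientGroup.ker_mk', hH.symm.sup_eq_top]
    rw [← QuotientGroup.ker_mk' (P : Subgroup G), ← Subgroup.map_le_map_iff, map_commutator, h3]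
    rw [_root_.commutator_def, map_commutator]
    exact commutator_mono le_top le_top
  have hcent : ∀ y ∈ ⁅H, H⁆, ∀ v ∈ P, y * v = v * y := fun y hy =>
    (hφ y).eq_one_iff.1 (hker (commutator_mono le_top le_top hy))
  intro x hx y hy
  obtain ⟨h, hh, v, hv, rfl⟩ : x ∈ ((⁅H, H⁆ : Subgroup G) : Set G) * ((P : Subgroup G) : Set G) := by
    rw [← mul_normal]; exact hle hx
  obtain ⟨h', hh', v', hv', rfl⟩ :
      y ∈ ((⁅H, H⁆ : Subgroup G) : Set G) * ((P : Subgroup G) : Set G) := by
    rw [← mul_normal]; exact hle hy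
  exact Commute.mul_left (Commute.mul_right (hHH _ hh _ hh') (hcent _ hh _ hv'))
    (Commute.mul_right (hcent _ hh' _ hv).symm (sylow_comm hs P hv hv'))

lemma sylow_normal_of_dvd_commutator {G : Type u} [Group G] [Finite G] (h2 : ¬ 2 ∣ Nat.card G)
    (hs : Small (Nat.card G)) {q : ℕ} [hq : Fact q.Prime] (hd : q ∣ Nat.card (commutator G))
    (Q : Sylow q G) : (Q : Subgroup G).Normal := by
  have hqG : q ∣ Nat.card G := hd.trans (card_subgroup_dvd_card _)
  have hQ : (Q : Subgroup G) ≤ commutator G := by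
    by_cases hN : normalizer (Q : Set G) ≤ centralizer (Q : Set G)
    · exfalso
      apply MonoidHom.not_dvd_card_ker_transferSylow Q hN
      refine hd.trans (card_dvd_of_le ?_)
      rw [_root_.commutator_def, commutator_le]
      intro g _ g' _
      rw [MonoidHom.mem_ker, map_commutatorElement, commutatorElement_eq_one_iff_mul_comm]
      exact comm_of_card hq.out (card_sylow_dvd hs Q) _ _
    · obtain ⟨g, hg, hg'⟩ := SetLike.not_le_iff_exists.1 hN
      obtain ⟨a, ha⟩ := exists_isCj (P := Q) (g := g) fun x hx => (mem_normalizer_iff.1 hg x).1 hx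
      have hgood := ha.good hs hqG fun h => h2 (h.trans (orderOf_dvd_natCard g))
      have hfpf : MonoidHom.FixedPointFree a := fun x hx => by
        by_contra hx1
        exact hg' fun y hy => ((ha.eq_one_iff.1 (hgood.eq_one hq.out hx1 hx)) y hy).symm
      intro x hx
      obtain ⟨y, hy⟩ := hfpf.commutatorMap_surjective ⟨x, hx⟩
      have h3 : x = ⁅(y : G), g⁆ := by
        have := congrArg Subtype.val hy
        change (y : G) / (a y : G) = x at this
        rw [← this, ha, commutatorElement_def, div_eq_mul_inv]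
        group
      rw [h3]
      exact commutator_mem_commutator (mem_top _) (mem_top _)
  refine ⟨fun x hx g => mem_sylow_of_comm Q (k := (Nat.card G).factorization q) ?_ fun y hy => ?_⟩
  · rw [conj_pow, pow_eq_one_of_mem_sylow Q hx]; simp
  · exact commutator_comm _ G rfl h2 hs _ (Normal.conj_mem inferInstance x (hQ hx) g) _ (hQ hy)

end Pool.Agent.Lib.MP_cb9dee_al
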