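import Pool.Agent.Lib.MP_cb9dee_al.Basic
import Pool.Agent.Lib.MP_cb9dee_al.Steps

namespace Pool.Agent.Lib.MP_cb9dee_al

namespace S

open Subgroup
open scoped commutatorElement

variable {G Q : Type*} [Group G] [Group Q]

lemma card_eq_mul {f : G →* Q} (hf : Function.Surjective f) :
    Nat.card G = Nat.card Q * Nat.card f.ker := by
  rw [← f.ker.index_mul_card, index_ker, f.range_eq_top_of_surjective hf, card_top]

lemma card_comap [Finite G] {f : G →* Q} (hf : Function.Surjective f) (K : Subgroup Q) :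
    Nat.card (K.comap f) = Nat.card K * Nat.card f.ker := by
  have h1 := (K.comap f).card_mul_index
  rw [index_comap_of_surjective _ hf, card_eq_mul hf, ← K.card_mul_index] at h1
  have : Finite Q := Finite.of_surjective f hf
  exact Nat.eq_of_mul_eq_mul_right (Nat.pos_of_ne_zero K.index_ne_zero_of_finite)
    (h1.trans (by ring))

lemma relIndex_ker_comap {f : G →* Q} (hf : Function.Surjective f) (K : Subgroup Q) :
    f.ker.relIndex (K.comap f) = Nat.card K := by
  rw [relIndex_ker, map_comap_eq_self_of_surjective hf]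

lemma card_mul_relIndex {P E : Subgroup G} (h : P ≤ E) :
    Nat.card P * P.relIndex E = Nat.card E := by
  rw [← relIndex_bot_left, ← relIndex_bot_left, relIndex_mul_relIndex _ _ _ bot_le h]

lemma card_mul_dvd {A B : Subgroup G} [B.Normal] (h : ∀ x ∈ A, x ∈ B → x = 1) :
    Nat.card A * Nat.card B = Nat.card (A ⊔ B : Subgroup G) := by
  have h1 : B ⊓ A = ⊥ := eq_bot_iff.2 fun x hx => mem_bot.2 (h x hx.2 hx.1)
  rw [← card_mul_relIndex (le_sup_right : B ≤ A ⊔ B), relIndex_sup_right, ← inf_relIndex_right,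
    h1, relIndex_bot_left, mul_comm]

lemma card_sylow_dvd_of_surj [Finite G] {f : G →* Q} (hf : Function.Surjective f) (q : ℕ)
    [Fact q.Prime] : Nat.card (Sylow q Q) ∣ Nat.card (Sylow q G) := by
  have : Finite Q := Finite.of_surjective f hf
  obtain ⟨P⟩ : Nonempty (Sylow q G) := inferInstance
  rw [P.card_eq_index_normalizer, (P.mapSurjective hf).card_eq_index_normalizer,
    ← index_comap_of_surjective _ hf]
  refine index_dvd_of_le fun g hg => mem_comap.2 (mem_normalizer_fintype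
    (S := ((P.mapSurjective hf : Subgroup Q) : Set Q)) ?_)
  rintro _ ⟨x, hx, rfl⟩
  exact ⟨g * x * g⁻¹, (mem_normalizer_iff.1 hg x).1 hx, by simp⟩

lemma card_sylow_eq [Finite G] {N : Subgroup G} [N.Normal] {q : ℕ} [Fact q.Prime]
    (h : ¬ q ∣ N.index) : Nat.card (Sylow q G) = Nat.card (Sylow q N) := by
  have hle : ∀ P : Sylow q G, (P : Subgroup G) ≤ N := fun P x hx =>
    mem_of_pow_eq_one (((Nat.Prime.coprime_iff_not_dvd Fact.out).2 h).pow_left _)
      (pow_eq_one_of_mem_sylow P hx)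
  refine Nat.card_congr (Equiv.ofBijective (fun P => P.subtype (hle P))
    ⟨fun P P' e => Sylow.subtype_injective e, fun T => ?_⟩)
  obtain ⟨P, hP⟩ := T.exists_comap_subtype_eq
  exact ⟨P, Sylow.ext hP⟩

lemma exists_odd_lift [Finite G] (φ : G →* Q) (g : G) (h : ¬ 2 ∣ orderOf (φ g)) :
    ∃ g', ¬ 2 ∣ orderOf g' ∧ φ g' = φ g := by
  obtain ⟨v, m, hm, e⟩ := Nat.exists_eq_two_pow_mul_odd (orderOf_pos g).ne'
  have hc : (orderOf (φ g)).Coprime (2 ^ v) :=
    (((Nat.Prime.coprime_iff_not_dvd Nat.prime_two).2 h).symm).pow_right v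
  obtain ⟨k, h1, h2⟩ := Nat.chineseRemainder hc 1 0
  refine ⟨g ^ k, fun h3 => hm.not_two_dvd_nat (h3.trans ?_), ?_⟩
  · obtain ⟨j, rfl⟩ := Nat.modEq_zero_iff_dvd.1 h2
    rw [orderOf_dvd_iff_pow_eq_one, ← pow_mul, mul_right_comm, ← e, pow_mul, pow_orderOf_eq_one,
      one_pow]
  · rw [map_pow, ← pow_mod_orderOf, h1, pow_mod_orderOf, pow_one]

lemma exists_order_lift [Finite G] {f : G →* Q} (hf : Function.Surjective f) (y : Q) :
    ∃ x : G, orderOf x = orderOf y := by
  obtain ⟨x, rfl⟩ := hf y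
  exact ⟨x ^ (orderOf x / orderOf (f x)),
    orderOf_pow_orderOf_div (orderOf_pos x).ne' (orderOf_map_dvd f x)⟩

lemma exists_act {f : G →* Q} (hf : Function.Surjective f)
    (hc : ∀ x ∈ f.ker, ∀ y ∈ f.ker, x * y = y * x) :
    ∃ φ : Q →* MulAut f.ker, ∀ g, IsCj (φ (f g)) g := by
  refine ⟨f.liftOfSurjective hf ⟨MulAut.conjNormal, fun x hx => ?_⟩, fun g => ?_⟩
  · exact (isCj_conjNormal f.ker x).eq_one_iff.2 (hc x hx)
  · rw [MonoidHom.liftOfSurjective, MonoidHom.liftOfRightInverse_comp_apply]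
    exact isCj_conjNormal _ g

lemma exists_fact {A : Type*} [Group A] {f : G →* Q} (hf : Function.Surjective f) (φ : G →* A)
    (h : f.ker ≤ φ.ker) : ∃ ψ : Q →* A, ∀ g, ψ (f g) = φ g :=
  ⟨f.liftOfSurjective hf ⟨φ, h⟩, fun g => by
    rw [MonoidHom.liftOfSurjective, MonoidHom.liftOfRightInverse_comp_apply]⟩

section aut
variable {R : Type*} [Group R] [Finite R]

omit [Finite R] in
lemma card_fixS_conj (a c : MulAut R) :
    Nat.card (fixS (c * a * c⁻¹)) = Nat.card (fixS a) := by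
  refine Nat.card_congr (Equiv.subtypeEquiv c.symm.toEquiv fun x => ?_)
  simp only [mem_fixS, MulAut.mul_apply, MulAut.inv_apply]
  exact c.eq_symm_apply.symm

lemma eq_one_of_card_fixS {a : MulAut R} (h : Nat.card (fixS a) = Nat.card R) : a = 1 := by
  have := eq_top_of_card_eq _ h
  ext x
  exact (this ▸ mem_top x : x ∈ fixS a)

lemma prime_aut {s : ℕ} (hs : s.Prime) {b : MulAut R} (hb : orderOf b = s) :
    Nat.card (fixS b) ∣ Nat.card R ∧ Nat.card (fixS b) < Nat.card R ∧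
      s ∣ Nat.card R - Nat.card (fixS b) := by
  have h1 := card_subgroup_dvd_card (fixS b)
  have h2 := Nat.le_of_dvd Nat.card_pos h1
  refine ⟨h1, lt_of_le_of_ne h2 fun e => ?_, (Nat.modEq_iff_dvd' h2).1
    (card_modEq_fixS hs (by rw [← hb, pow_orderOf_eq_one])).symm⟩
  exact ne_one_of_orderOf hs hb (eq_one_of_card_fixS e)

lemma trans_of_order {s : ℕ} (hs : s.Prime) (hR : Nat.card R = s + 1) {b : MulAut R}
    (hb : orderOf b = s) {x y : R} (hx : x ≠ 1) (hy : y ≠ 1) : ∃ k : ℕ, (b ^ k) x = y := by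
  classical
  obtain ⟨h1, h2, h3⟩ := prime_aut hs hb
  have h0 : 0 < Nat.card (fixS b) := Nat.card_pos
  have h4 := Nat.le_of_dvd (by omega) h3
  have h5 : fixS b = ⊥ := card_eq_one.1 (by omega)
  have hbx : b x ≠ x := fun e => hx (mem_bot.1 (h5 ▸ (e : x ∈ fixS b)))
  have h6 : Function.minimalPeriod (b • ·) x = s := by
    have := Fact.mk hs
    refine Function.minimalPeriod_eq_prime ?_ hbx
    rw [MulAction.isPeriodicPt_smul_iff, ← hb, pow_orderOf_eq_one, one_smul]
  have h7 : Nat.card (MulAction.orbit (zpowers b) x) = s := by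
    rw [Nat.card_congr (MulAction.orbitZPowersEquiv b x), h6, Nat.card_zmod]
  have h8 : MulAction.orbit (zpowers b) x = {1}ᶜ := by
    refine Set.eq_of_subset_of_ncard_le ?_ ?_
    · rintro _ ⟨c, rfl⟩ e
      exact hx ((c : MulAut R).map_eq_one_iff.1 e)
    · rw [← Nat.card_coe_set_eq (MulAction.orbit (zpowers b) x), h7, Set.ncard_compl, hR]
      simp
  have h9 : y ∈ MulAction.orbit (zpowers b) x := h8 ▸ hy
  obtain ⟨⟨c, hc⟩, rfl⟩ := h9
  obtain ⟨k, rfl⟩ := mem_powers_iff_mem_zpowers.2 hc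
  exact ⟨k, rfl⟩

omit [Finite R] in
lemma exists_prime_pow {A : Type*} [Group A] [Finite A] {a : A} {s : ℕ} (h : s ∣ orderOf a) :
    ∃ j : ℕ, orderOf (a ^ j) = s :=
  ⟨_, orderOf_pow_orderOf_div (orderOf_pos a).ne' h⟩

lemma aut_four (hR : Nat.card R = 4) {s : ℕ} (hs : s.Prime) {a : MulAut R} (h : s ∣ orderOf a) :
    s = 2 ∨ s = 3 := by
  obtain ⟨j, hj⟩ := exists_prime_pow h
  obtain ⟨h1, h2, h3⟩ := prime_aut hs hj
  rw [hR] at h1 h2 h3
  have h0 : 0 < Nat.card (fixS (a ^ j)) := Nat.card_pos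
  generalize Nat.card (fixS (a ^ j)) = c at *
  have := Nat.le_of_dvd (by omega) h3
  have := hs.two_le
  omega

lemma aut_eight (hR : Nat.card R = 8) {s : ℕ} (hs : s.Prime) {a : MulAut R} (h : s ∣ orderOf a) :
    s = 2 ∨ s = 3 ∨ s = 7 := by
  obtain ⟨j, hj⟩ := exists_prime_pow h
  obtain ⟨h1, h2, h3⟩ := prime_aut hs hj
  rw [hR] at h1 h2 h3
  have h0 : 0 < Nat.card (fixS (a ^ j)) := Nat.card_pos
  generalize Nat.card (fixS (a ^ j)) = c at *
  have := Nat.le_of_dvd (by omega) h3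
  have := hs.two_le
  have h5 : s ≤ 7 := by omega
  interval_cases s <;> first | omega | (exfalso; revert hs; decide) | skip
  interval_cases c <;> omega

lemma order_three (hR : Nat.card R = 4) {a : MulAut R} (h1 : a ≠ 1) (h2 : ¬ 2 ∣ orderOf a) :
    ∃ j : ℕ, orderOf (a ^ j) = 3 := by
  have ho : orderOf a ≠ 1 := fun e => h1 (orderOf_eq_one_iff.1 e)
  rcases aut_four hR (Nat.minFac_prime ho) (Nat.minFac_dvd _) with h | h
  · exact absurd (h ▸ Nat.minFac_dvd _) h2
  · exact exists_prime_pow (h ▸ Nat.minFac_dvd _)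

/-- A group of automorphisms which is an `s`-group has a nontrivial fixed point. -/
lemma exists_fixed (φ : G →* MulAut R) {s : ℕ} (hs : s.Prime)
    (h : ∀ g q, q.Prime → q ∣ orderOf (φ g) → q = s) (hR : ¬ Nat.card R ≡ 1 [MOD s]) :
    ∃ x : R, x ≠ 1 ∧ ∀ g, φ g x = x := by
  have := Fact.mk hs
  have hp : IsPGroup s φ.range := by
    rintro ⟨_, g, rfl⟩
    refine ⟨(orderOf (φ g)).primeFactorsList.length, Subtype.ext ?_⟩
    rw [← Nat.eq_prime_pow_of_unique_prime_dvd (orderOf_pos _).ne' (h g _)]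
    exact pow_orderOf_eq_one _
  by_contra! hne
  apply hR
  rw [← (Nat.card_eq_one_iff_unique (α := MulAction.fixedPoints φ.range R)).2
    ⟨⟨fun x y => Subtype.ext ?_⟩, ⟨⟨1, fun c => (c : MulAut R).map_one⟩⟩⟩]
  · exact hp.card_modEq_card_fixedPoints R
  · have key : ∀ z : MulAction.fixedPoints φ.range R, (z : R) = 1 := fun z => by
      by_contra hz
      obtain ⟨g, hg⟩ := hne z hz
      exact hg (z.2 ⟨φ g, g, rfl⟩)
    rw [key, key]

end aut

end S

end Pool.Agent.Lib.MP_cb9dee_al
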