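import Pool.Agent.Lib.MP_cb9dee_al.STypes

namespace Pool.Agent.Lib.MP_cb9dee_al

namespace S

open Subgroup
open scoped commutatorElement

lemma comm_fix {G R : Type*} [Group G] [Group R] (φ : G →* MulAut R) {N : Subgroup R} [IsCyclic N]
    (hN : ∀ g, ∀ w ∈ N, φ g w ∈ N) {z : G} (hz : z ∈ commutator G) : ∀ w ∈ N, φ z w = w := by
  obtain ⟨y, hy⟩ := IsCyclic.exists_generator (α := N)
  have h1 : ∀ w ∈ N, ∃ i : ℤ, w = (y : R) ^ i := fun w hw => by
    obtain ⟨i, hi⟩ := mem_zpowers_iff.1 (hy ⟨w, hw⟩)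
    exact ⟨i, (congrArg Subtype.val hi).symm⟩
  have h2 : ∀ g h, ∀ w ∈ N, φ g (φ h w) = φ h (φ g w) := fun g h w hw => by
    obtain ⟨i, hi⟩ := h1 _ (hN g _ y.2)
    obtain ⟨j, hj⟩ := h1 _ (hN h _ y.2)
    obtain ⟨k, rfl⟩ := h1 w hw
    simp only [map_zpow, hi, hj, ← zpow_mul]
    congr 1
    ring
  intro w hw
  have h3 : commutator G ≤ (MulAction.stabilizer (MulAut R) w).comap φ :=
    commutator_le.2 fun g _ h _ => by
      change φ (g * h * g⁻¹ * h⁻¹) w = w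
      simp only [map_mul, MulAut.mul_apply]
      rw [h2 g h _ (hN _ _ (hN _ _ hw))]
      simp
  exact h3 hz

lemma central_comm {G R : Type*} [Group G] [Group R] [Finite R] {r : ℕ} (hr : r.Prime)
    (h2 : r ≠ 2) (hR : Nat.card R ∣ r ^ 2) (φ : G →* MulAut R) {z : G} (hz : z ∈ commutator G)
    (h1 : z * z = 1) (hc : ∀ g, g * z = z * g) :
    φ z = 1 ∨ (Nat.card R = r ^ 2 ∧ ∀ x, φ z x = x⁻¹) := by
  have hcomm := comm_of_card hr hR
  have := Fact.mk hr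
  let N : Subgroup R :=
    { carrier := {w | φ z w = w⁻¹}
      one_mem' := by simp
      mul_mem' := fun {a b} (ha : φ z a = a⁻¹) (hb : φ z b = b⁻¹) => by
        change φ z (a * b) = _
        rw [map_mul, ha, hb, mul_inv_rev, hcomm]
      inv_mem' := fun {a} (ha : φ z a = a⁻¹) => by
        change φ z a⁻¹ = _
        rw [map_inv, ha] }
  by_cases hN : IsCyclic N
  · left
    ext x
    have h3 : x⁻¹ * φ z x ∈ N := by
      change φ z _ = _
      rw [map_mul, ← MulAut.mul_apply, ← map_mul, h1, map_one]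
      simp
    have h4 := comm_fix φ (N := N) (fun g w (hw : φ z w = w⁻¹) => by
      change φ z _ = _
      rw [← MulAut.mul_apply, ← map_mul, ← hc, map_mul, MulAut.mul_apply, hw, map_inv]) hz _ h3
    exact (inv_mul_eq_one.1 (eq_one_of_eq_inv (fun h => h2 ((Nat.prime_dvd_prime_iff_eq
      Nat.prime_two hr).1 (Nat.prime_two.dvd_of_dvd_pow (h.trans ((_root_.orderOf_dvd_natCard _).trans
        hR)))).symm) (h4.symm.trans h3))).symm
  · right
    obtain ⟨j, hj, e⟩ := (Nat.dvd_prime_pow hr).1 ((card_subgroup_dvd_card N).trans hR)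
    have h3 : Nat.card N = r ^ 2 := by
      interval_cases j
      · exact absurd (isCyclic_of_card_dvd_prime (p := r) (by simp [e])) hN
      · exact absurd (isCyclic_of_card_dvd_prime (p := r) (by simp [e])) hN
      · exact e
    have h4 : Nat.card R = r ^ 2 := Nat.dvd_antisymm hR (h3 ▸ card_subgroup_dvd_card N)
    exact ⟨h4, fun x => (eq_top_of_card_eq N (h3.trans h4.symm) ▸ mem_top x : x ∈ N)⟩

lemma twelve {n p : ℕ} (hn : Full n) (h : 24 ∣ n) (hp : p.Prime) (h2 : p ≠ 2) (hd : p ^ 2 ∣ n) :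
    12 ∣ p + 1 := by
  have h3 : ¬ 3 ∣ p := fun e => by
    obtain rfl := (Nat.prime_dvd_prime_iff_eq Nat.prime_three hp).1 e
    exact (hn.2.2.2.2.2.2 (Dvd.dvd.trans (by norm_num) h)).1 hd
  have h4 := hn.2.1 p 3 hp Nat.prime_three (by norm_num) (Dvd.dvd.trans (by norm_num) h) hd h2
  have h5 := (hn.2.2.2.2.2.1 (Dvd.dvd.trans (by norm_num) h)).2.2.1 p hp h2 hd
  have h6 := hp.eq_two_or_odd
  have h7 := hp.two_le
  obtain ⟨j, hj⟩ : ∃ j, p = 3 * j ∨ p = 3 * j + 1 ∨ p = 3 * j + 2 := ⟨p / 3, by omega⟩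
  omega

lemma not_sixteen {n : ℕ} (hn : Full n) : ¬ 16 ∣ n :=
  fun h => (hn.2.2.2.2.2.1 (Dvd.dvd.trans (by norm_num) h)).1 h

variable {G Q : Type} [Group G] [Group Q] [Finite G] {f : G →* Q}

lemma tyI_of_odd (hf : Function.Surjective f) (h2 : ¬ 2 ∣ Nat.card f.ker) (hQ : TyI Q) : TyI G := by
  obtain ⟨O, h1, h3, a, h4⟩ := hQ
  refine ⟨O.comap f, inferInstance, ?_, a, by rwa [index_comap_of_surjective _ hf]⟩
  rw [card_comap hf, Nat.prime_two.dvd_mul]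
  exact fun h => h.elim h3 h2

lemma Lift.tyII (hf : Function.Surjective f) {B : Subgroup G} {B' : Subgroup Q} (h : Lift f B B')
    (h1 : Nat.card B' = 4) (h2 : ∀ x ∈ B', x * x = 1) {g x : Q} (h3 : ¬ 2 ∣ orderOf g)
    (hx : x ∈ B') (h4 : g * x ≠ x * g) : TyII G := by
  obtain ⟨g, rfl⟩ := hf g
  obtain ⟨x, hx', rfl⟩ := h.surj hx
  obtain ⟨g', k1, k2⟩ := exists_odd_lift f g h3
  exact ⟨B, h.1, h.card.trans h1, h.sq h2, g', k1, x, hx',
    fun e => h4 (by rw [← k2, ← map_mul, e, map_mul])⟩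

omit [Finite G] in
lemma Lift.tyV {B : Subgroup G} {B' : Subgroup Q} [Finite B'] (h : Lift f B B') {p k m : ℕ}
    (h1 : Pack B' p k m) : TyV G p :=
  let ⟨e, _⟩ := h.equiv
  ⟨B, k, m, h.1, pack_equiv h1 e⟩

lemma NoFour.eq {G : Type} [Group G] (h : NoFour G) {z t : G} (hz : orderOf z = 2)
    (hc : ∀ g, g * z = z * g) (ht : orderOf t = 2) : t = z := by
  rw [order_two] at hz ht
  exact ((h t z ht.1 hz.1 (hc t)).resolve_left ht.2).resolve_left hz.2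

/-- `f` is onto and its kernel has odd order dividing `p ^ 2`. -/
def Ox (f : G →* Q) (p : ℕ) : Prop :=
  p.Prime ∧ p ≠ 2 ∧ Function.Surjective f ∧ Nat.card f.ker ∣ p ^ 2

omit [Finite G] in
lemma Ext.ox {r : ℕ} (h : Ext f r) : Ox f r := ⟨h.1, h.2.1, h.2.2.1, h.2.2.2.1 ▸ dvd_rfl⟩

namespace Ox
variable {p : ℕ}

omit [Finite G] in
lemma odd (h : Ox f p) : ¬ 2 ∣ Nat.card f.ker := fun e =>
  h.2.1 ((Nat.prime_dvd_prime_iff_eq Nat.prime_two h.1).1
    (Nat.prime_two.dvd_of_dvd_pow (e.trans h.2.2.2))).symm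

lemma finite (h : Ox f p) : Finite Q := Finite.of_surjective f h.2.2.1

lemma act (h : Ox f p) : ∃ φ : Q →* MulAut f.ker, ∀ g, IsCj (φ (f g)) g :=
  exists_act h.2.2.1 fun x hx y hy =>
    congrArg Subtype.val (comm_of_card (R := f.ker) h.1 h.2.2.2 ⟨x, hx⟩ ⟨y, hy⟩)

omit [Finite G] in
lemma eq_one (h : Ox f p) {s : G} (hs : s * s = 1) (e : f s = 1) : s = 1 :=
  eq_one_of_eq_inv (fun h' => h.odd (h'.trans (f.ker.orderOf_dvd_natCard e)))
    (eq_inv_of_mul_eq_one_left hs)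

omit [Finite G] in
lemma order (h : Ox f p) {s : G} (hs : orderOf s = 2) : orderOf (f s) = 2 := by
  rw [order_two] at hs ⊢
  exact ⟨by rw [← map_mul, hs.1, map_one], fun e => hs.2 (h.eq_one hs.1 e)⟩

omit [Finite G] in
lemma noFour (h : Ox f p) (hQ : NoFour Q) : NoFour G := by
  intro s t hs ht hst
  have h1 : f s * f s = 1 := by rw [← map_mul, hs, map_one]
  refine (hQ (f s) (f t) h1 (by rw [← map_mul, ht, map_one])
    (by rw [← map_mul, hst, map_mul])).imp (h.eq_one hs) (Or.imp (h.eq_one ht) fun e => ?_)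
  exact mul_left_cancel (hs.trans (h.eq_one (s := s * t)
    (by rw [mul_assoc, ← mul_assoc t, ← hst, mul_assoc, ht, mul_one, hs])
    (by rw [map_mul, ← e, h1])).symm)

lemma lift (h : Ox f p) {B : Subgroup Q} [B.Normal] {j : ℕ} (hB : Nat.card B = 2 ^ j)
    {φ : Q →* MulAut f.ker} (hφ : ∀ g, IsCj (φ (f g)) g) (h1 : ∀ x ∈ B, φ x = 1) :
    ∃ B0, Lift f B0 B :=
  lift_coprime h.2.2.1 B
    (hB ▸ (((Nat.Prime.coprime_iff_not_dvd Nat.prime_two).2 h.odd).symm.pow_right j))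
    fun x hx y hy => ((hφ y).eq_one_iff.1 (h1 _ hy) x hx).symm

lemma tyII (h : Ox f p) (hQ : TyII Q) : TyII G := by
  obtain ⟨B, h1, h2, h3, g, h4, x, hx, h5⟩ := hQ
  have := h.finite
  obtain ⟨φ, hφ⟩ := h.act
  obtain ⟨B0, h0⟩ := h.lift (j := 2) h2 hφ ((tr_of_order Nat.prime_three h2
    (three_dvd h2 h4 hx h5)).trivial h.1 h.2.1 h.2.2.2 φ h3 (by omega))
  exact h0.tyII h.2.2.1 h2 h3 h4 hx h5

lemma tyIV (h : Ox f p) (hQ : TyIV Q) : TyIV G := by
  obtain ⟨B, h1, h2, h3, g, h4, x, hx, h5⟩ := hQ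
  have := h.finite
  obtain ⟨φ, hφ⟩ := h.act
  obtain ⟨B0, h0⟩ := h.lift (j := 3) h2 hφ ((tr_of_order (s := 7) (by norm_num) h2
    (seven_eq h4 hx h5).symm.dvd).trivial h.1 h.2.1 h.2.2.2 φ h3 (by omega))
  obtain ⟨g, rfl⟩ := h.2.2.1 g
  obtain ⟨x, hx', rfl⟩ := h0.surj hx
  exact ⟨B0, h0.1, h0.card.trans h2, h0.sq h3, g,
    fun y hy => h0.comm hy (by rw [map_pow]; exact h4 _ (h0.mem hy)), x, hx',
    fun e => h5 (by rw [← map_mul, e, map_mul])⟩

lemma tyV (h : Ox f p) (hn : Full (Nat.card G)) {q : ℕ} (hQ : TyV Q q) : TyV G q := by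
  obtain ⟨L, k, m, h1, h2⟩ := hQ
  have := h.finite
  have := Fact.mk h.1
  obtain ⟨φ, hφ⟩ := h.act
  obtain ⟨j, -, hj⟩ := (Nat.dvd_prime_pow h.1).1 h.2.2.2
  obtain ⟨B0, h0⟩ := lift_comm h.2.2.1 L L (pk_le h2) h.1 (IsPGroup.of_card hj)
    (fun T hT x hx y hy => by
      obtain ⟨i, hi⟩ := hT.exists_card_eq
      refine congrArg Subtype.val (comm_of_card (R := T) h.1 ?_ ⟨x, hx⟩ ⟨y, hy⟩)
      rw [hi]
      refine pow_dvd_pow _ (not_lt.1 fun e => hn.1 p h.1 h.2.1 ?_)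
      exact (pow_dvd_pow p e).trans (hi ▸ card_subgroup_dvd_card T))
    fun x hx y hy => ((hφ y).eq_one_iff.1
      (pk_hom h2 h.1 h.2.1 h.2.2.2 (φ.comp L.subtype) ⟨_, hy⟩) x hx).symm
  exact h0.tyV h2

lemma cov (h : Ox f p) (hQ : NoFour Q) {A : Type} [Group A] {f' : Q →* A} {z : Q} (hz : Cov f' z)
    (hA : 2 ∣ Nat.card (commutator A)) :
    Ext f p ∨ ∃ (E : Type) (_ : Group E) (_ : Finite E) (f0 : G →* E) (z0 : G) (f1 : E →* A),
      Cov f0 z0 ∧ Ox f1 p := by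
  have := h.finite
  obtain ⟨φ, hφ⟩ := h.act
  have h1 : z ∈ commutator Q := by
    rw [_root_.commutator_def, ← f'.range_eq_top_of_surjective hz.1, ← map_commutator_eq] at hA
    obtain ⟨t, ht, h2⟩ := exists_mem_order Nat.prime_two (hA.trans (card_map_dvd _ f'))
    exact NoFour.eq hQ hz.2.1 hz.2.2.1 h2 ▸ ht
  rcases central_comm h.1 h.2.1 h.2.2.2 φ h1 (order_two.1 hz.2.1).1 hz.2.2.1 with e | ⟨e, e'⟩
  · right
    obtain ⟨B0, h0⟩ := h.lift (j := 1) hz.card_ker hφ fun x hx => by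
      rcases hz.cases hx with rfl | rfl
      · exact map_one φ
      · exact e
    have := h0.1
    obtain ⟨z0, k1, rfl⟩ := h0.surj (y := z) hz.map_eq
    obtain ⟨f1, k2, k3, -⟩ := h0.swap h.2.2.1 hz.1
    have k4 := order_two.1 hz.2.1
    have k5 : orderOf z0 = 2 := order_two.2
      ⟨h0.2.1 _ (mul_mem k1 k1) (by rw [map_mul, k4.1]), fun e => k4.2 (by rw [e, map_one])⟩
    refine ⟨G ⧸ B0, inferInstance, inferInstance, QuotientGroup.mk' B0, z0, f1,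
      ⟨QuotientGroup.mk'_surjective B0, k5, fun g => h0.comm k1 (hz.2.2.1 _), ?_⟩,
      h.1, h.2.1, k2, k3 ▸ h.2.2.2⟩
    rw [QuotientGroup.ker_mk']
    exact (eq_zpowers_of_mem Nat.prime_two (h0.card.trans hz.card_ker) k1
      (order_two.1 k5).2).1.symm
  · left
    refine ⟨h.1, h.2.1, h.2.2.1, e, fun t ht x hx => ?_⟩
    have h2 := hφ t ⟨x, hx⟩
    rw [NoFour.eq hQ hz.2.1 hz.2.2.1 (h.order ht), e'] at h2
    exact h2.symm

lemma tyIIIa (h : Ox f p) (hQ : TyIIIa Q) : TyIIIa G ∨ Ext f p := by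
  have := h.finite
  obtain ⟨A, _, _, f', z, hz, hA⟩ := cov_of_IIIa hQ
  have h1 : 2 ∣ Nat.card (commutator A) := by
    obtain ⟨B, h1, h2, h3, g, h4, x, hx, h5⟩ := hA
    exact Dvd.dvd.trans (by rw [h2]; norm_num) (card_dvd_of_le
      ((tr_of_order Nat.prime_three h2 (three_dvd h2 h4 hx h5)).le_commutator hx h5))
  rcases h.cov hQ.1 hz h1 with e | ⟨E, _, _, f0, z0, f1, k1, k2⟩
  · exact Or.inr e
  · exact Or.inl (k1.tyIIIa (h.noFour hQ.1) (k2.tyII hA))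

lemma tyVIa (h : Ox f p) (hn : Full (Nat.card G)) {q : ℕ} (hQ : TyVIa Q q) :
    TyVIa G q ∨ Ext f p := by
  have := h.finite
  obtain ⟨A, _, _, f', z, hz, hA⟩ := cov_of_VIa hQ
  have h1 : 2 ∣ Nat.card (commutator A) := by
    obtain ⟨L, k, m, h1, h2⟩ := hA
    exact ((by norm_num : 2 ∣ 4).trans (pk_four h2)).trans (card_dvd_of_le
      ((pk_le h2).trans (commutator_mono le_top le_top)))
  rcases h.cov hQ.1 hz h1 with e | ⟨E, _, _, f0, z0, f1, k1, k2⟩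
  · exact Or.inr e
  · exact Or.inl (k1.tyVIa (h.noFour hQ.1)
      (k2.tyV (hn.of_dvd (card_dvd_of_surjective f0 k1.1)) hA))

lemma ext (h : Ox f p) (hn : Full (Nat.card G)) (h0 : f.ker ≠ ⊥) {A : Type} [Group A]
    {f' : Q →* A} {r : ℕ} (he : Ext f' r) (hA : 24 ∣ Nat.card A) :
    ∃ (E : Type) (_ : Group E) (_ : Finite E) (f0 : G →* E) (f1 : E →* A),
      Ext f0 r ∧ Ox f1 p ∧ ¬ Ext f1 p := by
  have := h.finite
  have := Fact.mk h.1
  have := Fact.mk Nat.prime_two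
  obtain ⟨φ, hφ⟩ := h.act
  have hc := card_eq_mul h.2.2.1
  rw [card_eq_mul he.2.2.1, he.2.2.2.1] at hc
  have h24 : 24 ∣ Nat.card G := hc ▸ (hA.mul_right _).mul_right _
  have hr : r ^ 2 ∣ Nat.card G := hc ▸ (dvd_mul_left _ _).mul_right _
  obtain ⟨j, hj, e⟩ := (Nat.dvd_prime_pow h.1).1 h.2.2.2
  have hj0 : j ≠ 0 := fun e' => h0 (card_eq_one.1 (by rw [e, e', pow_zero]))
  have hpr : p ≠ r := fun e' => hn.1 p h.1 h.2.1 (by
    rw [hc, e, ← e', mul_assoc, ← pow_add]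
    exact (pow_dvd_pow p (by omega)).mul_left _)
  have hP : Nat.card f.ker = p := by
    by_contra e'
    have hp : p ^ 2 ∣ Nat.card G := by
      have : j ≠ 1 := fun h => e' (by rw [e, h, pow_one])
      rw [hc, e]
      exact (pow_dvd_pow p (by omega)).mul_left _
    exact hpr ((hn.2.2.2.2.2.1 (Dvd.dvd.trans (by norm_num) h24)).2.2.2.2.1
      (Dvd.dvd.trans (by norm_num) h24) ⟨h.1, hp, twelve hn h24 h.1 h.2.1 hp⟩
      ⟨he.1, hr, twelve hn h24 he.1 he.2.1 hr⟩)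
  have := isCyclic_of_prime_card hP
  obtain ⟨z, hz⟩ := exists_prime_orderOf_dvd_card' (G := Q) 2
    (((by norm_num : 2 ∣ 24).trans hA).trans (card_dvd_of_surjective f' he.2.2.1))
  obtain ⟨R, hR⟩ := lift_coprime h.2.2.1 f'.ker
    (by rw [hP, he.2.2.2.1]; exact ((Nat.coprime_primes h.1 he.1).2 hpr).pow_right 2)
    fun x hx y hy => ((hφ y).eq_one_iff.1 (eq_one_of_eq_inv
      (fun e => (Ext.ox he).odd
        ((e.trans (orderOf_map_dvd φ _)).trans (f'.ker.orderOf_dvd_natCard hy)))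
      (by rw [← map_inv, ← he.2.2.2.2 z hz _ hy, map_mul, map_mul, mulAut_comm_of_cyclic (φ z),
        mul_assoc, ← map_mul, mul_inv_cancel, map_one, mul_one])) x hx).symm
  have := hR.1
  obtain ⟨f1, k2, k3, -⟩ := hR.swap h.2.2.1 he.2.2.1
  refine ⟨G ⧸ R, inferInstance, inferInstance, QuotientGroup.mk' R, f1,
    ⟨he.1, he.2.1, QuotientGroup.mk'_surjective R, ?_, fun t ht x hx => ?_⟩,
    ⟨h.1, h.2.1, k2, k3 ▸ h.2.2.2⟩, fun e => ?_⟩
  · rw [QuotientGroup.ker_mk', hR.card, he.2.2.2.1]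
  · rw [QuotientGroup.ker_mk'] at hx
    exact hR.conj hx (inv_mem hx) (by rw [he.2.2.2.2 _ (h.order ht) _ (hR.mem hx), map_inv])
  · have := e.2.2.2.1
    rw [k3, hP] at this
    exact (Nat.pow_lt_pow_right h.1.one_lt one_lt_two).ne ((pow_one p).trans this)

end Ox

end S

end Pool.Agent.Lib.MP_cb9dee_al
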