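import Pool.Agent.Lib.MP_cb9dee_al.SBase

namespace Pool.Agent.Lib.MP_cb9dee_al

namespace S

open Subgroup
open scoped commutatorElement

variable {G Q : Type*} [Group G] [Group Q]

lemma exists_compl [Finite G] {P E : Subgroup G} [P.Normal] (hPE : P ≤ E)
    (hc : (Nat.card P).Coprime (P.relIndex E)) :
    ∃ K : Subgroup G, K ≤ E ∧ Nat.card K = P.relIndex E ∧ ∀ x ∈ E, ∃ a ∈ P, ∃ k ∈ K, x = a * k := by
  have h1 : Nat.card (P.subgroupOf E) = Nat.card P :=
    Nat.card_congr (subgroupOfEquivOfLe hPE).toEquiv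
  obtain ⟨K, hK⟩ := exists_right_complement'_of_coprime (N := P.subgroupOf E) (h1 ▸ hc)
  refine ⟨K.map E.subtype, map_subtype_le K, ?_, fun x hx => ?_⟩
  · rw [card_map_of_injective E.subtype_injective, ← hK.symm.index_eq_card]; rfl
  · obtain ⟨⟨a, k⟩, h⟩ := hK.2 ⟨x, hx⟩
    exact ⟨_, a.2, _, mem_map_of_mem _ k.2, (congrArg Subtype.val h).symm⟩

lemma normal_of_hall {K E : Subgroup G} [hE : E.Normal] (hKE : K ≤ E)
    (hn : ∀ e ∈ E, ∀ k ∈ K, e * k * e⁻¹ ∈ K) (hc : (Nat.card K).Coprime (K.relIndex E)) :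
    K.Normal := by
  have : (K.subgroupOf E).Normal := ⟨fun k hk e => hn e e.2 k hk⟩
  refine ⟨fun x hx g => ?_⟩
  exact mem_of_pow_eq_one (Y := K.subgroupOf E) (x := ⟨g * x * g⁻¹, hE.conj_mem _ (hKE hx) g⟩) hc
    (Subtype.ext (by
      change (g * x * g⁻¹) ^ _ = 1
      rw [conj_pow, pow_card_of_mem hx]; simp))

lemma hallC [Finite G] {P E : Subgroup G} [P.Normal] [E.Normal] (hPE : P ≤ E)
    (hc : (Nat.card P).Coprime (P.relIndex E)) (hz : ∀ x ∈ P, ∀ y ∈ E, x * y = y * x) :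
    ∃ K : Subgroup G, K.Normal ∧ K ≤ E ∧ Nat.card K = P.relIndex E ∧
      K.index = Nat.card P * E.index ∧ ∀ x ∈ E, ∃ a ∈ P, ∃ k ∈ K, x = a * k := by
  obtain ⟨K, h1, h2, h3⟩ := exists_compl hPE hc
  have h4 : K.relIndex E = Nat.card P := by
    have h5 := card_mul_relIndex h1
    rw [← card_mul_relIndex hPE, ← h2, mul_comm] at h5
    exact Nat.eq_of_mul_eq_mul_right Nat.card_pos h5
  refine ⟨K, normal_of_hall h1 (fun e he k hk => ?_) (by rw [h4, h2]; exact hc.symm), h1, h2,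
    by rw [← h4, relIndex_mul_index h1], h3⟩
  obtain ⟨a, ha, c, hc, rfl⟩ := h3 e he
  have h5 : c * k * c⁻¹ ∈ K := mul_mem (mul_mem hc hk) (inv_mem hc)
  have : a * c * k * (a * c)⁻¹ = a * (c * k * c⁻¹) * a⁻¹ := by group
  rw [this, hz a ha _ (h1 h5)]
  simpa using h5

/-- `B` is a normal subgroup which is mapped isomorphically onto `B'`. -/
def Lift (f : G →* Q) (B : Subgroup G) (B' : Subgroup Q) : Prop :=
  B.Normal ∧ (∀ x ∈ B, f x = 1 → x = 1) ∧ B.map f = B'

namespace Lift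
variable {f : G →* Q} {B : Subgroup G} {B' : Subgroup Q}

lemma eq (h : Lift f B B') {x y : G} (hx : x ∈ B) (hy : y ∈ B) (e : f x = f y) : x = y :=
  mul_inv_eq_one.1 (h.2.1 _ (mul_mem hx (inv_mem hy)) (by simp [e]))

lemma mem (h : Lift f B B') {x : G} (hx : x ∈ B) : f x ∈ B' := h.2.2 ▸ mem_map_of_mem f hx

lemma surj (h : Lift f B B') {y : Q} (hy : y ∈ B') : ∃ x ∈ B, f x = y := by
  rw [← h.2.2] at hy
  exact hy

lemma equiv (h : Lift f B B') : ∃ e : B ≃* B', ∀ x, (e x : Q) = f x :=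
  ⟨MulEquiv.ofBijective ((f.comp B.subtype).codRestrict B' fun x => h.mem x.2)
    ⟨fun x y e => Subtype.ext (h.eq x.2 y.2 (congrArg Subtype.val e)), fun y => by
      obtain ⟨x, hx, e⟩ := h.surj y.2
      exact ⟨⟨x, hx⟩, Subtype.ext e⟩⟩, fun _ => rfl⟩

lemma card (h : Lift f B B') : Nat.card B = Nat.card B' :=
  let ⟨e, _⟩ := h.equiv
  Nat.card_congr e.toEquiv

lemma conj (h : Lift f B B') {g x y : G} (hx : x ∈ B) (hy : y ∈ B)
    (e : f g * f x * (f g)⁻¹ = f y) : g * x * g⁻¹ = y :=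
  h.eq (h.1.conj_mem x hx g) hy (by simpa using e)

lemma comm (h : Lift f B B') {g x : G} (hx : x ∈ B) (e : f g * f x = f x * f g) :
    g * x = x * g :=
  mul_inv_eq_iff_eq_mul.1 (h.conj hx hx (mul_inv_eq_iff_eq_mul.2 e))

lemma sq (h : Lift f B B') (h2 : ∀ x ∈ B', x * x = 1) : ∀ x ∈ B, x * x = 1 :=
  fun x hx => h.2.1 _ (mul_mem hx hx) (by rw [map_mul]; exact h2 _ (h.mem hx))

lemma swap {A : Type*} [Group A] [Finite G] {f' : Q →* A} (hf : Function.Surjective f)
    (hf' : Function.Surjective f') [B.Normal] (h : Lift f B f'.ker) :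
    ∃ f1 : G ⧸ B →* A, Function.Surjective f1 ∧ Nat.card f1.ker = Nat.card f.ker ∧
      ∀ g : G, f1 (g : G ⧸ B) = f' (f g) := by
  obtain ⟨f1, h1⟩ := exists_fact (QuotientGroup.mk'_surjective B) (f'.comp f) (fun x hx => by
    rw [QuotientGroup.ker_mk'] at hx
    exact h.mem hx)
  have h2 : Function.Surjective f1 := fun y => by
    obtain ⟨x, rfl⟩ := (hf'.comp hf) y
    exact ⟨x, h1 x⟩
  refine ⟨f1, h2, ?_, h1⟩
  have h3 := B.index_mul_card
  have : Finite Q := Finite.of_surjective f hf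
  have : Finite A := Finite.of_surjective f' hf'
  rw [index_eq_card, card_eq_mul h2, card_eq_mul hf, card_eq_mul hf', h.card, mul_right_comm]
    at h3
  exact Nat.eq_of_mul_eq_mul_left (Nat.mul_pos Nat.card_pos Nat.card_pos) h3

end Lift

lemma lift_coprime [Finite G] {f : G →* Q} (hf : Function.Surjective f) (B' : Subgroup Q)
    [B'.Normal] (hc : (Nat.card f.ker).Coprime (Nat.card B'))
    (hz : ∀ x ∈ f.ker, ∀ y, f y ∈ B' → x * y = y * x) : ∃ B, Lift f B B' := by
  obtain ⟨K, h1, h2, h3, -, h4⟩ := hallC (P := f.ker) (E := B'.comap f) (ker_le_comap f B')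
    (by rwa [relIndex_ker_comap hf]) hz
  rw [relIndex_ker_comap hf] at h3
  refine ⟨K, h1, fun x hx e => eq_one_of_coprime (h3 ▸ hc) e hx,
    le_antisymm (map_le_iff_le_comap.2 h2) fun y hy => ?_⟩
  obtain ⟨x, rfl⟩ := hf y
  obtain ⟨a, ha, k, hk, rfl⟩ := h4 x hy
  exact ⟨k, hk, by rw [map_mul, show f a = 1 from ha, one_mul]⟩

lemma lift_comm [Finite G] {f : G →* Q} (hf : Function.Surjective f) (E' B' : Subgroup Q)
    [E'.Normal] [B'.Normal] (hB : B' ≤ ⁅E', E'⁆) {p : ℕ} (hp : p.Prime) (hP : IsPGroup p f.ker)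
    (hS : ∀ T : Subgroup G, IsPGroup p T → ∀ x ∈ T, ∀ y ∈ T, x * y = y * x)
    (hz : ∀ x ∈ f.ker, ∀ y, f y ∈ E' → x * y = y * x) : ∃ B, Lift f B B' := by
  have := Fact.mk hp
  let E := E'.comap f
  refine ⟨B'.comap f ⊓ ⁅E, E⁆, inferInstance, fun x hx e => ?_, le_antisymm
    (map_le_iff_le_comap.2 inf_le_left) fun y hy => ?_⟩
  · obtain ⟨T⟩ : Nonempty (Sylow p E) := inferInstance
    have hxE : x ∈ E := ker_le_comap f E' e
    have h1 := hx.2
    rw [← map_subtype_commutator] at h1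
    obtain ⟨z, hz1, rfl⟩ := h1
    obtain ⟨k, hk⟩ := hP ⟨z, e⟩
    have h2 : z ^ p ^ k = 1 := Subtype.ext (congrArg Subtype.val hk :)
    have h3 : ∀ g : E, g * z = z * g := fun g => Subtype.ext (hz _ e _ g.2).symm
    rw [trf T (fun a ha b hb => Subtype.ext (hS _ (T.isPGroup'.map E.subtype) _
      (mem_map_of_mem _ ha) _ (mem_map_of_mem _ hb))) (mem_sylow_of_comm T h2 fun a _ =>
      (h3 a).symm) (fun g _ => h3 g) hz1, map_one]
  · have h1 := hB hy
    rw [← map_comap_eq_self_of_surjective hf E', ← map_commutator] at h1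
    obtain ⟨x, hx, rfl⟩ := h1
    exact ⟨x, ⟨hy, hx⟩, rfl⟩

lemma pack_equiv {L L' : Type} [Group L] [Group L'] [Finite L] {p k m : ℕ} (h : Pack L p k m)
    (e : L' ≃* L) : Pack L' p k m := by
  have : Finite L' := Finite.of_equiv _ e.symm.toEquiv
  have hp := Fact.mk h.prime
  have hc : ∀ K : Subgroup L, Nat.card (K.comap e.toMonoidHom) = Nat.card K := fun K => by
    rw [card_comap e.surjective, e.toMonoidHom.ker_eq_bot e.injective, card_bot, mul_one]
  have inj : ∀ {x y : L'}, e x = e y → x = y := fun h => e.injective h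
  have ne : ∀ {x y : L'}, x ≠ y → e x ≠ e y := fun h h' => h (inj h')
  have hs := h.simple
  refine ⟨h.prime, h.five, h.even, h.par, (Nat.card_congr e.toEquiv).trans h.card,
    e.isSimpleGroup, fun s t hs ht => ?_, fun t ht => ?_, fun x hx y hy => ?_, ?_,
    fun x hx hc' => ?_⟩
  · simpa using e.symm.toMonoidHom.map_isConj
      (h.conj (e s) (e t) (by rwa [e.orderOf_eq]) (by rwa [e.orderOf_eq]))
  · obtain ⟨h1, K, k1, k2, k3, k4, k5, k6⟩ := h.cent (e t) (by rwa [e.orderOf_eq])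
    refine ⟨?_, K.comap e.toMonoidHom, (hc K).trans k1, k2, fun x hx y hy => inj ?_,
      fun x hx h => ?_, fun u hu hK => ?_, fun x hx h1 h2 y hy => ?_⟩
    · rw [← h1, ← hc]
      congr 2
      ext x
      simp only [mem_comap, mem_centralizer_singleton_iff]
      exact ⟨fun h => by simpa using congrArg e h, fun h => inj (by simpa using h)⟩
    · simpa using k3 _ hx _ hy
    · exact (k4 _ hx (by simpa using congrArg e h)).imp (fun h => inj (by simpa using h)) inj
    · obtain ⟨a, b⟩ := k5 (e u) (by simpa using congrArg e hu) hK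
      exact ⟨inj (by simpa using a), fun x hx => inj (by simpa using b _ hx)⟩
    · exact k6 _ hx (by simpa using h1) (ne h2) (e y) (by simpa using congrArg e hy)
  · obtain ⟨j, hj⟩ := h.pcent (e x) (by rwa [e.orderOf_eq]) (e y) (by simpa using congrArg e hy)
    exact ⟨j, inj (by simpa using hj)⟩
  · rw [← h.pcard]
    exact Nat.dvd_antisymm (card_sylow_dvd_of_surj (f := e.symm.toMonoidHom) e.symm.surjective p)
      (card_sylow_dvd_of_surj (f := e.toMonoidHom) e.surjective p)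
  · obtain ⟨A, k1, k2, k3, k4, u, k5, k6, k7⟩ := h.torus (e x) (by simpa using hx)
      (by rwa [e.orderOf_eq])
    obtain ⟨u, rfl⟩ := e.surjective u
    refine ⟨A.comap e.toMonoidHom, (hc A).trans k1, k2, fun y hy z hz => inj ?_,
      fun y hy h1 g hg => ?_, u, inj (by simpa using k5), fun y hy => inj ?_, fun g hg => ?_⟩
    · simpa using k3 _ hy _ hz
    · exact k4 _ hy (by simpa using h1) (e g) (by simpa using congrArg e hg)
    · simpa using k6 _ hy
    · simpa using k7 (e g) fun y hy => by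
        obtain ⟨y, rfl⟩ := e.surjective y
        simpa using hg y hy

end S

end Pool.Agent.Lib.MP_cb9dee_al
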