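import Pool.Agent.Lib.MP_cb9dee_al.SExt

namespace Pool.Agent.Lib.MP_cb9dee_al

namespace S

open Subgroup
open scoped commutatorElement

variable {G Q : Type} [Group G] [Group Q] [Finite G] {f : G →* Q}

lemma dvd_II (h : TyII G) : 12 ∣ Nat.card G := by
  obtain ⟨B, h1, h2, -, g, h4, x, hx, h5⟩ := h
  exact Nat.Coprime.mul_dvd_of_dvd_of_dvd (by norm_num : Nat.Coprime 4 3)
    (h2 ▸ card_subgroup_dvd_card B) ((three_dvd h2 h4 hx h5).trans
      ((isCj_conjNormal B g).orderOf_dvd.trans (_root_.orderOf_dvd_natCard g)))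

omit [Finite G] in
lemma dvd_V {p : ℕ} (h : TyV G p) : 12 ∣ Nat.card G := by
  obtain ⟨L, k, m, -, h2⟩ := h
  exact (Nat.Coprime.mul_dvd_of_dvd_of_dvd (by norm_num : Nat.Coprime 4 3) (pk_four h2)
    (pk_three h2)).trans (card_subgroup_dvd_card L)

lemma dvd_IIIa (h : TyIIIa G) : 24 ∣ Nat.card G := by
  obtain ⟨A, _, _, f', z, hz, hA⟩ := cov_of_IIIa h
  exact hz.card ▸ Nat.mul_dvd_mul_right (dvd_II hA) 2

lemma dvd_VIa {p : ℕ} (h : TyVIa G p) : 24 ∣ Nat.card G := by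
  obtain ⟨A, _, _, f', z, hz, hA⟩ := cov_of_VIa h
  exact hz.card ▸ Nat.mul_dvd_mul_right (dvd_V hA) 2

lemma dvd_IIIb (h : TyIIIb G) : 24 ∣ Nat.card G := by
  obtain ⟨-, A, _, f', r, he, hA⟩ := h
  have := (Ext.ox he).finite
  exact (dvd_IIIa hA).trans (card_dvd_of_surjective f' he.2.2.1)

lemma dvd_VIb {p : ℕ} (h : TyVIb G p) : 24 ∣ Nat.card G := by
  obtain ⟨-, A, _, f', r, he, hA⟩ := h
  have := (Ext.ox he).finite
  exact (dvd_VIa hA).trans (card_dvd_of_surjective f' he.2.2.1)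

lemma Ox.st {p : ℕ} (h : Ox f p) (hn : Full (Nat.card G)) (h0 : f.ker ≠ ⊥) (hQ : ST Q) : ST G := by
  have := h.finite
  unfold ST
  rcases hQ with k | k | k | ⟨k, A, _, f', r, he, hA⟩ | k | ⟨q, k⟩ | ⟨q, k⟩ |
    ⟨q, k, A, _, f', r, he, hA⟩
  · exact Or.inl (tyI_of_odd h.2.2.1 h.odd k)
  · exact Or.inr (Or.inl (h.tyII k))
  · rcases h.tyIIIa k with e | e
    · exact Or.inr (Or.inr (Or.inl e))
    · exact Or.inr (Or.inr (Or.inr (Or.inl ⟨h.noFour k.1, Q, inferInstance, f, p, e, k⟩)))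
  · have := (Ext.ox he).finite
    obtain ⟨E, _, _, f0, f1, k1, k2, k3⟩ := h.ext hn h0 he (dvd_IIIa hA)
    exact Or.inr (Or.inr (Or.inr (Or.inl ⟨h.noFour k, E, inferInstance, f0, r, k1,
      (k2.tyIIIa hA).resolve_right k3⟩)))
  · exact Or.inr (Or.inr (Or.inr (Or.inr (Or.inl (h.tyIV k)))))
  · exact Or.inr (Or.inr (Or.inr (Or.inr (Or.inr (Or.inl ⟨q, h.tyV hn k⟩)))))
  · rcases h.tyVIa hn k with e | e
    · exact Or.inr (Or.inr (Or.inr (Or.inr (Or.inr (Or.inr (Or.inl ⟨q, e⟩))))))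
    · exact Or.inr (Or.inr (Or.inr (Or.inr (Or.inr (Or.inr (Or.inr
        ⟨q, h.noFour k.1, Q, inferInstance, f, p, e, k⟩))))))
  · have := (Ext.ox he).finite
    obtain ⟨E, _, _, f0, f1, k1, k2, k3⟩ := h.ext hn h0 he (dvd_VIa hA)
    exact Or.inr (Or.inr (Or.inr (Or.inr (Or.inr (Or.inr (Or.inr ⟨q, h.noFour k, E,
      inferInstance, f0, r, k1, (k2.tyVIa (hn.of_dvd (card_dvd_of_surjective f0 k1.2.2.1))
        hA).resolve_right k3⟩))))))

omit [Finite G] in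
lemma index_odd {B : Subgroup G} {d : ℕ} (hB : d ∣ Nat.card B) (h : ¬ d * 2 ∣ Nat.card G) :
    ¬ 2 ∣ B.index := fun e => h (B.card_mul_index ▸ Nat.mul_dvd_mul hB e)

omit [Finite G] in
lemma mem_of_odd {B : Subgroup G} [B.Normal] (hB : ¬ 2 ∣ B.index) {x : G} {j : ℕ}
    (hx : x ^ 2 ^ j = 1) : x ∈ B :=
  mem_of_pow_eq_one (((Nat.Prime.coprime_iff_not_dvd Nat.prime_two).2 hB).pow_left j) hx

lemma elem_two {P : Subgroup G} [hP : P.Normal] (h0 : P ≠ ⊥) (h2 : ∀ x ∈ P, x * x = 1)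
    (h16 : ¬ 16 ∣ Nat.card G) :
    TyII G ∨ TyIV G ∨ ∃ z : G, orderOf z = 2 ∧ ∀ g, g * z = z * g := by
  have := Fact.mk Nat.prime_two
  have := (nontrivial_iff_ne_bot P).2 h0
  have hp : IsPGroup 2 P := fun x => ⟨1, Subtype.ext (by
    rw [pow_one, pow_two]; exact h2 x x.2)⟩
  obtain ⟨j, hj, e⟩ := hp.nontrivial_iff_card.1 this
  have hj3 : j ≤ 3 := not_lt.1 fun h => h16
    ((pow_dvd_pow 2 h).trans (e ▸ card_subgroup_dvd_card P))
  let φ : G →* MulAut P := MulAut.conjNormal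
  have hφ : ∀ g, IsCj (φ g) g := isCj_conjNormal P
  have key : ∀ s, s.Prime → (∀ g q, q.Prime → q ∣ orderOf (φ g) → q = s) →
      ¬ Nat.card P ≡ 1 [MOD s] → ∃ z : G, orderOf z = 2 ∧ ∀ g, g * z = z * g := by
    intro s hs h1 h3
    obtain ⟨x, hx, h4⟩ := exists_fixed φ hs h1 h3
    exact ⟨x, order_two.2 ⟨h2 x x.2, fun e => hx (Subtype.ext e)⟩, fun g =>
      mul_inv_eq_iff_eq_mul.1 ((hφ g x).symm.trans (congrArg Subtype.val (h4 g)))⟩
  have nc : ∀ {g : G} {q : ℕ}, q.Prime → orderOf (φ g) = q → ∃ x ∈ P, g * x ≠ x * g := by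
    intro g q hq hg
    by_contra! h
    exact ne_one_of_orderOf hq hg ((hφ g).eq_one_iff.2 h)
  by_cases h1 : ∀ g q, q.Prime → q ∣ orderOf (φ g) → q = 2
  · refine Or.inr (Or.inr (key 2 Nat.prime_two h1 ?_))
    rw [e]
    interval_cases j <;> decide
  push Not at h1
  obtain ⟨g, q, hq, hd, hq2⟩ := h1
  obtain ⟨i, hi⟩ := exists_prime_pow hd
  interval_cases j
  · obtain ⟨-, k2, k3⟩ := prime_aut hq hi
    have k0 : 0 < Nat.card (fixS (φ g ^ i)) := Nat.card_pos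
    have := Nat.le_of_dvd (by omega) k3
    have := hq.two_le
    omega
  · rw [← map_pow] at hi
    obtain ⟨g', k1, k2⟩ := exists_odd_lift φ (g ^ i) (by
      rw [hi, Nat.prime_dvd_prime_iff_eq Nat.prime_two hq]; exact hq2.symm)
    exact Or.inl ⟨P, hP, e, h2, g', k1, nc hq (k2 ▸ hi)⟩
  · right
    by_cases h7 : ∃ g, 7 ∣ orderOf (φ g)
    · obtain ⟨g, hg⟩ := h7
      obtain ⟨i, hi⟩ := exists_prime_pow hg
      rw [← map_pow] at hi
      exact Or.inl ⟨P, hP, e, h2, g ^ i, ((hφ _).pow 7).eq_one_iff.1 (hi ▸ pow_orderOf_eq_one _),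
        nc (by norm_num) hi⟩
    · refine Or.inr (key 3 Nat.prime_three (fun g q hq hd => ?_) (by rw [e]; decide))
      rcases aut_eight e hq hd with rfl | rfl | rfl
      · refine absurd (hd.trans (orderOf_dvd_of_pow_eq_one (((hφ g).pow _).eq_one_iff.2
          (comm_of_sq h2 _ (P.pow_index_mem g))))) (index_odd (d := 8) e.symm.dvd h16)
      · rfl
      · exact absurd ⟨g, hd⟩ h7

namespace Cov
variable {z : G}

lemma hall (h : Cov f z) (O : Subgroup Q) [O.Normal] (h2 : ¬ 2 ∣ Nat.card O) :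
    ∃ K : Subgroup G, K.Normal ∧ ¬ 2 ∣ Nat.card K ∧ K.index = 2 * O.index := by
  obtain ⟨K, h1, -, h3, h4, -⟩ := hallC (P := f.ker) (E := O.comap f) (ker_le_comap f O)
    (by rw [relIndex_ker_comap h.1, h.card_ker]
        exact (Nat.Prime.coprime_iff_not_dvd Nat.prime_two).2 h2) fun x hx y _ => h.comm hx y
  exact ⟨K, h1, by rwa [h3, relIndex_ker_comap h.1],
    by rw [h4, h.card_ker, index_comap_of_surjective _ h.1]⟩

lemma tyI (h : Cov f z) (hQ : TyI Q) : TyI G := by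
  obtain ⟨O, h1, h2, a, h3⟩ := hQ
  obtain ⟨K, k1, k2, k3⟩ := h.hall O h2
  exact ⟨K, k1, k2, a + 1, by rw [k3, h3, pow_succ']⟩

lemma split (h : Cov f z) (hG : ¬ NoFour G)
    (hc : ∀ s t : Q, orderOf s = 2 → orderOf t = 2 → ∃ g, g * s * g⁻¹ = t)
    (hs : ∀ y : Q, y ^ 4 = 1 → y * y = 1) (E' B' : Subgroup Q) [E'.Normal] [B'.Normal]
    (hB : B' ≤ ⁅E', E'⁆) : ∃ B, Lift f B B' := by
  have hz := (order_two.1 h.2.1).1
  obtain ⟨s, s1, s2, s3⟩ : ∃ s : G, s * s = 1 ∧ s ≠ 1 ∧ s ≠ z := by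
    by_contra! h'
    refine hG fun s t hs ht _ => ?_
    by_contra! k
    exact k.2.2 ((h' s hs k.1).trans (h' t ht k.2.1).symm)
  have k1 : ∀ y : G, f y * f y = 1 → y * y = 1 := by
    intro y hy
    by_cases e : f y = 1
    · rcases h.cases e with rfl | rfl
      · exact mul_one 1
      · exact hz
    obtain ⟨c, hc'⟩ := hc (f s) (f y) (order_two.2 ⟨by rw [← map_mul, s1, map_one],
      fun e => (h.cases e).elim s2 s3⟩) (order_two.2 ⟨hy, e⟩)
    obtain ⟨c, rfl⟩ := h.1 c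
    have k2 : c * s * c⁻¹ * (c * s * c⁻¹) = 1 := by simp [s1]
    rcases h.cases (x := y * (c * s * c⁻¹)⁻¹) (by simp [← hc']) with e | e
    · rwa [mul_inv_eq_one.1 e]
    · rw [mul_inv_eq_iff_eq_mul.1 e, mul_assoc, ← mul_assoc _ z, h.2.2.1, mul_assoc, k2, mul_one,
        hz]
  have k2 : ∀ (k : ℕ) (y : Q), y ^ 2 ^ k = 1 → y * y = 1 := by
    intro k
    induction k with
    | zero => intro y hy; simp_all
    | succ k ih =>
      intro y hy
      have := ih (y ^ 2) (by rwa [← pow_mul, ← pow_succ'])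
      exact hs y (by rwa [← pow_add] at this)
  refine lift_comm h.1 E' B' hB Nat.prime_two (IsPGroup.of_card (n := 1) h.card_ker)
    (fun T hT => comm_of_sq fun x hx => ?_) fun x hx y _ => h.comm hx y
  obtain ⟨k, hk⟩ := hT ⟨x, hx⟩
  exact k1 x (k2 k _ (by rw [← map_pow, show x ^ 2 ^ k = 1 from congrArg Subtype.val hk, map_one]))

lemma st (h : Cov f z) (hn : Full (Nat.card G)) (hQ : ST Q) : ST G := by
  have : Finite Q := Finite.of_surjective f h.1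
  have h8 : ¬ 4 * 2 ∣ Nat.card Q := fun e => not_sixteen hn (h.card ▸ Nat.mul_dvd_mul_right e 2)
  have h24 : ¬ 24 ∣ Nat.card Q := fun e => h8 (Dvd.dvd.trans (by norm_num) e)
  have sq : ∀ {s : Q}, orderOf s = 2 → s ^ 2 ^ 1 = 1 := fun hs => by
    rw [pow_one, ← hs, pow_orderOf_eq_one]
  unfold ST
  rcases hQ with k | k | k | k | ⟨B, -, k, -⟩ | ⟨q, k⟩ | ⟨q, k⟩ | ⟨q, k⟩
  · exact Or.inl (h.tyI k)
  · by_cases hG : NoFour G
    · exact Or.inr (Or.inr (Or.inl (h.tyIIIa hG k)))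
    obtain ⟨B, h1, h2, h3, g, h4, x, hx, h5⟩ := k
    have h6 := index_odd h2.symm.dvd h8
    have h7 := tr_of_order Nat.prime_three h2 (three_dvd h2 h4 hx h5)
    obtain ⟨B0, h0⟩ := h.split hG (fun s t hs ht => h7 s (mem_of_odd h6 (sq hs)) t
      (mem_of_odd h6 (sq ht)) (order_two.1 hs).2 (order_two.1 ht).2)
      (fun y hy => h3 y (mem_of_odd (j := 2) h6 hy)) ⊤ B (h7.le_commutator hx h5)
    exact Or.inr (Or.inl (h0.tyII h.1 h2 h3 h4 hx h5))
  · exact absurd (dvd_IIIa k) h24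
  · exact absurd (dvd_IIIb k) h24
  · exact absurd (k.symm.dvd.trans (card_subgroup_dvd_card B)) h8
  · by_cases hG : NoFour G
    · exact Or.inr (Or.inr (Or.inr (Or.inr (Or.inr (Or.inr (Or.inl ⟨q, h.tyVIa hG k⟩))))))
    obtain ⟨L, k, m, h1, h2⟩ := k
    have h6 := index_odd (pk_four h2) h8
    have h7 : ¬ 4 ∣ k := fun ⟨j, e⟩ => h8 (Dvd.dvd.trans ⟨j * q * m, by rw [h2.card, e]; ring⟩
      (card_subgroup_dvd_card L))
    obtain ⟨B0, h0⟩ := h.split hG (fun s t hs ht => by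
        obtain ⟨c, hc⟩ := isConj_iff.1 (h2.conj ⟨s, mem_of_odd h6 (sq hs)⟩
          ⟨t, mem_of_odd h6 (sq ht)⟩ (by rwa [← orderOf_coe]) (by rwa [← orderOf_coe]))
        exact ⟨c, congrArg Subtype.val hc⟩)
      (fun y hy => congrArg Subtype.val (pk_sq h2 h7 (y := ⟨y, mem_of_odd (j := 2) h6 hy⟩)
        (Subtype.ext hy))) L L (pk_le h2)
    exact Or.inr (Or.inr (Or.inr (Or.inr (Or.inr (Or.inl ⟨q, h0.tyV h2⟩)))))
  · exact absurd (dvd_VIa k) h24
  · exact absurd (dvd_VIb k) h24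

end Cov

lemma tyI_of_not_four (h4 : ¬ 4 ∣ Nat.card G) : TyI G := by
  obtain ⟨K, h1, h2, h3⟩ := exists_odd_part h4
  obtain ⟨a, -, ha⟩ := (Nat.dvd_prime_pow Nat.prime_two (m := 1)).1 h3
  exact ⟨K, h1, h2, a, ha⟩

lemma pgroup_of_types (hn : Full (Nat.card G)) (h1 : Nontrivial G) (h : ST G) :
    (∃ p, TyV G p) ∨ ∃ (p : ℕ) (B : Subgroup G), p.Prime ∧ B.Normal ∧ IsPGroup p B ∧ B ≠ ⊥ := by
  have two : ∀ (B : Subgroup G) (j : ℕ), B.Normal → Nat.card B = 2 ^ (j + 1) →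
      ∃ (p : ℕ) (B : Subgroup G), p.Prime ∧ B.Normal ∧ IsPGroup p B ∧ B ≠ ⊥ := fun B j h1 h2 =>
    ⟨2, B, Nat.prime_two, h1, IsPGroup.of_card h2, fun e => by
      rw [e, card_bot] at h2
      exact (Nat.one_lt_two_pow j.succ_ne_zero).ne h2⟩
  have ext : ∀ {A : Type} [Group A] {f : G →* A} {r : ℕ}, Ext f r →
      ∃ (p : ℕ) (B : Subgroup G), p.Prime ∧ B.Normal ∧ IsPGroup p B ∧ B ≠ ⊥ := fun {_ _ f r} h =>
    ⟨r, f.ker, h.1, inferInstance, IsPGroup.of_card h.2.2.2.1, fun e => by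
      have h2 := h.2.2.2.1
      rw [e, card_bot] at h2
      exact (Nat.one_lt_pow two_ne_zero h.1.one_lt).ne h2⟩
  rcases h with ⟨O, k1, k2, a, k3⟩ | ⟨B, k1, k2, -⟩ | ⟨-, B, k1, k2, -⟩ | ⟨-, A, _, f, r, k, -⟩ |
    ⟨B, k1, k2, -⟩ | k | ⟨q, k⟩ | ⟨q, -, A, _, f, r, k, -⟩
  · right
    by_cases h0 : O = ⊥
    · rw [h0, index_bot] at k3
      exact ⟨2, ⊤, Nat.prime_two, inferInstance, IsPGroup.of_card (card_top.trans k3), top_ne_bot⟩
    have h2 := hn.of_dvd (card_subgroup_dvd_card O)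
    have h3 := h2.cond fun e => k2 (Dvd.dvd.trans (by norm_num) e)
    obtain ⟨p, hp, hd, P, hP⟩ := exists_normal_sylow _ O rfl (fun e => h0 (card_eq_one.1 e)) k2
      ⟨h3.1, h3.2.1⟩
    have := Fact.mk hp
    have := P.characteristic_of_normal hP
    exact ⟨p, (P : Subgroup O).map O.subtype, hp, inferInstance, P.isPGroup'.map _, fun e =>
      P.ne_bot_of_dvd_card hd ((map_eq_bot_iff_of_injective _ O.subtype_injective).1 e)⟩
  · exact Or.inr (two B 1 k1 k2)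
  · exact Or.inr (two B 2 k1 k2)
  · exact Or.inr (ext k)
  · exact Or.inr (two B 2 k1 k2)
  · exact Or.inl k
  · obtain ⟨A, _, _, f, z, hz, -⟩ := cov_of_VIa k
    exact Or.inr (two f.ker 0 inferInstance hz.card_ker)
  · exact Or.inr (ext k)

lemma tyV_of_normal (hn : Full (Nat.card G)) (N : Subgroup G) [hN : N.Normal] {p : ℕ}
    (h : TyV N p) : TyV G p := by
  obtain ⟨L, k, m, h1, h2⟩ := h
  have hs := h2.simple
  refine ⟨L.map N.subtype, k, m, ⟨?_⟩,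
    pack_equiv h2 (L.equivMapOfInjective _ N.subtype_injective).symm⟩
  rintro _ ⟨x, hx, rfl⟩ g
  let a : MulAut N := MulAut.conjNormal g
  have h3 : (L.comap a.toMonoidHom).Normal := inferInstance
  rcases (h3.subgroupOf L).eq_bot_or_eq_top with e | e
  · exfalso
    have h4 := card_mul_dvd (A := L) (B := L.comap a.toMonoidHom) fun y hy hy' => by
      have h5 : (⟨y, hy⟩ : L) ∈ (L.comap a.toMonoidHom).subgroupOf L := hy'
      rw [e, mem_bot] at h5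
      exact congrArg Subtype.val h5
    rw [card_comap (f := a.toMonoidHom) a.surjective, a.toMonoidHom.ker_eq_bot a.injective, card_bot, mul_one] at h4
    exact not_sixteen hn ((Nat.mul_dvd_mul (pk_four h2) (pk_four h2)).trans
      (h4 ▸ (card_subgroup_dvd_card _).trans (card_subgroup_dvd_card N)))
  · exact ⟨a x, (e ▸ mem_top (⟨x, hx⟩ : L) : (⟨x, hx⟩ : L) ∈ (L.comap a.toMonoidHom).subgroupOf L),
      rfl⟩

lemma pgroup_of_min (N : Subgroup G) [N.Normal]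
    (hm : ∀ K : Subgroup G, K.Normal → K ≠ ⊥ → K ≤ N → N ≤ K) {p : ℕ} (hp : p.Prime)
    {B : Subgroup N} [B.Normal] (hB : IsPGroup p B) (h0 : B ≠ ⊥) :
    ∀ x ∈ N, x ^ p = 1 := by
  have := Fact.mk hp
  let K : Subgroup N := ⨅ T : Sylow p N, (T : Subgroup N)
  have h1 : K.Characteristic := characteristic_iff_le_comap.2 fun a x hx =>
    mem_iInf.2 fun T => by
      have := mem_iInf.1 hx ((show MulAut N from a)⁻¹ • T)
      rwa [Sylow.pointwise_smul_def, mem_inv_pointwise_smul_iff] at this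
  have h2 : B ≤ K := le_iInf fun T => hB.le_sylow_of_normal T
  have h3 : K.map N.subtype = N := le_antisymm (map_subtype_le K) (hm _ inferInstance
    (fun e => h0 (eq_bot_iff.2 (h2.trans
      ((map_eq_bot_iff_of_injective _ N.subtype_injective).1 e).le))) (map_subtype_le K))
  obtain ⟨T⟩ : Nonempty (Sylow p N) := inferInstance
  have h4 : IsPGroup p N := h3 ▸ (T.isPGroup'.to_le (iInf_le _ T : K ≤ T)).map N.subtype
  obtain ⟨z, hz, k1, k2⟩ := exists_central hp h4 fun e => h0 (eq_bot_iff.2 fun x _ =>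
    mem_bot.2 (Subtype.ext (mem_bot.1 (e ▸ x.2))))
  let Z : Subgroup G :=
    { carrier := {x | x ∈ N ⊓ centralizer (N : Set G) ∧ x ^ p = 1}
      one_mem' := ⟨one_mem _, one_pow p⟩
      mul_mem' := fun {a b} ha hb => ⟨mul_mem ha.1 hb.1, by
        rw [Commute.mul_pow (hb.1.2 a ha.1.1), ha.2, hb.2, mul_one]⟩
      inv_mem' := fun {a} ha => ⟨inv_mem ha.1, by rw [inv_pow, ha.2, inv_one]⟩ }
  have h5 : N ≤ Z := hm Z ⟨fun x hx g => ⟨Normal.conj_mem inferInstance _ hx.1 g, by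
      rw [conj_pow, hx.2]; simp⟩⟩
    (fun e => ne_one_of_orderOf hp k1 (mem_bot.1
      (e ▸ (⟨⟨hz, k2⟩, k1 ▸ pow_orderOf_eq_one z⟩ : z ∈ Z)))) fun x hx => hx.1.1
  exact fun x hx => (h5 hx).2

theorem st_aux (hn : Full (Nat.card G)) (ih : IH G) (hs : ¬ IsSimpleGroup G) : ST G := by
  by_cases h4 : 4 ∣ Nat.card G
  swap
  · exact Or.inl (tyI_of_not_four h4)
  have h1 : Nontrivial G := Finite.one_lt_card_iff_nontrivial.1
    (lt_of_lt_of_le (by norm_num) (Nat.le_of_dvd Nat.card_pos h4))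
  have quo : ∀ {A : Type} [Group A] {f : G →* A}, Function.Surjective f → f.ker ≠ ⊥ → ST A := by
    intro A _ f hf h0
    have : Finite A := Finite.of_surjective f hf
    refine ih A (card_dvd_of_surjective f hf) ?_
    rw [card_eq_mul hf]
    exact lt_mul_of_one_lt_right Nat.card_pos ((one_lt_card_iff_ne_bot _).2 h0)
  obtain ⟨N0, n1, n2, n3⟩ : ∃ N : Subgroup G, N.Normal ∧ N ≠ ⊥ ∧ N ≠ ⊤ := by
    by_contra! h
    exact hs ⟨fun N hN => or_iff_not_imp_left.2 (h N hN)⟩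
  obtain ⟨N, hN0, ⟨m1, m2⟩, m3⟩ := exists_minimal_le_of_wellFoundedLT
    (fun N : Subgroup G => N.Normal ∧ N ≠ ⊥) N0 ⟨n1, n2⟩
  have hd := card_subgroup_dvd_card N
  have hN : ST N := ih N hd (lt_of_le_of_ne (Nat.le_of_dvd Nat.card_pos hd)
    fun e => n3 (top_le_iff.1 (eq_top_of_card_eq N e ▸ hN0)))
  rcases pgroup_of_types (hn.of_dvd hd) ((nontrivial_iff_ne_bot N).2 m2) hN with
    ⟨p, h⟩ | ⟨p, B, hp, b1, b2, b3⟩
  · exact Or.inr (Or.inr (Or.inr (Or.inr (Or.inr (Or.inl ⟨p, tyV_of_normal hn N h⟩)))))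
  have h5 := pgroup_of_min N (fun K k1 k2 k3 => m3 ⟨k1, k2⟩ k3) hp b2 b3
  by_cases h2 : p = 2
  · subst h2
    rcases elem_two m2 (fun x hx => by rw [← pow_two, h5 x hx]) (not_sixteen hn) with
      h | h | ⟨z, z1, z2⟩
    · exact Or.inr (Or.inl h)
    · exact Or.inr (Or.inr (Or.inr (Or.inr (Or.inl h))))
    · obtain ⟨A, _, _, f, hf⟩ := exists_cov z1 z2
      exact hf.st hn (quo hf.1 fun e => by simpa [e] using hf.card_ker)
  · have := Fact.mk hp
    have h6 : IsPGroup p N := fun x => ⟨1, Subtype.ext (by rw [pow_one]; exact h5 x x.2)⟩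
    obtain ⟨i, hi⟩ := h6.exists_card_eq
    have h7 : (QuotientGroup.mk' N).ker ≠ ⊥ := by rwa [QuotientGroup.ker_mk']
    refine Ox.st (p := p) ⟨hp, h2, QuotientGroup.mk'_surjective N, ?_⟩ hn h7
      (quo (QuotientGroup.mk'_surjective N) h7)
    rw [QuotientGroup.ker_mk', hi]
    exact pow_dvd_pow _ (not_lt.1 fun e => hn.1 p hp h2 ((pow_dvd_pow p e).trans (hi ▸ hd)))

end S

end Pool.Agent.Lib.MP_cb9dee_al
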