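import Pool.Agent.Lib.MP_cb9dee_al.SLift

namespace Pool.Agent.Lib.MP_cb9dee_al

namespace S

open Subgroup
open scoped commutatorElement

section gen
variable {G Q : Type*} [Group G] [Group Q]

lemma exists_ne_two {α : Type*} [Finite α] (h : 2 < Nat.card α) (a b : α) :
    ∃ c, c ≠ a ∧ c ≠ b := by
  by_contra! h'
  have h1 : (Set.univ : Set α) ⊆ {a, b} := fun c _ => (eq_or_ne c a).imp id (h' c)
  have h2 := (Set.ncard_le_ncard h1).trans (Set.ncard_insert_le a {b})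
  rw [Set.ncard_univ, Set.ncard_singleton] at h2
  omega

lemma order_two {x : G} : orderOf x = 2 ↔ x * x = 1 ∧ x ≠ 1 := by
  have := Fact.mk Nat.prime_two
  rw [orderOf_eq_prime_iff, pow_two]

lemma comm_of_sq {B : Subgroup G} (h : ∀ x ∈ B, x * x = 1) : ∀ x ∈ B, ∀ y ∈ B, x * y = y * x :=
  fun x hx y hy => by
    rw [← inv_eq_of_mul_eq_one_right (h _ (mul_mem hx hy)), mul_inv_rev,
      inv_eq_of_mul_eq_one_right (h x hx), inv_eq_of_mul_eq_one_right (h y hy)]

lemma exists_mem_order [Finite G] {B : Subgroup G} {p : ℕ} (hp : p.Prime) (h : p ∣ Nat.card B) :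
    ∃ x ∈ B, orderOf x = p := by
  have := Fact.mk hp
  obtain ⟨x, hx⟩ := exists_prime_orderOf_dvd_card' p h
  exact ⟨x, x.2, by rwa [orderOf_coe]⟩

lemma exists_central [Finite G] {B : Subgroup G} {p : ℕ} (hp : p.Prime) (h : IsPGroup p B)
    (h1 : B ≠ ⊥) : ∃ z ∈ B, orderOf z = p ∧ ∀ x ∈ B, x * z = z * x := by
  have := Fact.mk hp
  have := (nontrivial_iff_ne_bot B).2 h1
  have h2 := h.center_nontrivial
  obtain ⟨k, hk, e⟩ := (h.to_subgroup (center B)).nontrivial_iff_card.1 h2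
  obtain ⟨z, hz, h3⟩ := exists_mem_order hp (e ▸ dvd_pow_self p hk.ne')
  exact ⟨z, z.2, by rwa [orderOf_coe], fun x hx =>
    congrArg Subtype.val (mem_center_iff.1 hz ⟨x, hx⟩)⟩

/-- All nontrivial elements of `B` are conjugate. -/
def Tr (B : Subgroup G) : Prop := ∀ x ∈ B, ∀ y ∈ B, x ≠ 1 → y ≠ 1 → ∃ g : G, g * x * g⁻¹ = y

lemma tr_of_order [Finite G] {B : Subgroup G} [B.Normal] {s : ℕ} (hs : s.Prime)
    (hB : Nat.card B = s + 1) {g : G} (hg : s ∣ orderOf (MulAut.conjNormal (H := B) g)) :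
    Tr B := by
  obtain ⟨j, hj⟩ := exists_prime_pow hg
  intro x hx y hy h1 h2
  obtain ⟨k, hk⟩ := trans_of_order hs hB hj (x := ⟨x, hx⟩) (y := ⟨y, hy⟩)
    (fun e => h1 (congrArg Subtype.val e)) (fun e => h2 (congrArg Subtype.val e))
  exact ⟨_, ((((isCj_conjNormal B g).pow j).pow k) ⟨x, hx⟩).symm.trans (congrArg Subtype.val hk)⟩

lemma three_dvd [Finite G] {B : Subgroup G} [B.Normal] (hB : Nat.card B = 4) {g x : G}
    (hg : ¬ 2 ∣ orderOf g) (hx : x ∈ B) (h : g * x ≠ x * g) :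
    3 ∣ orderOf (MulAut.conjNormal (H := B) g) := by
  obtain ⟨j, hj⟩ := order_three hB (a := MulAut.conjNormal g)
    (fun e => h ((isCj_conjNormal B g).eq_one_iff.1 e x hx))
    fun e => hg (e.trans (isCj_conjNormal B g).orderOf_dvd)
  exact hj ▸ orderOf_pow_dvd j

lemma seven_eq {B : Subgroup G} [B.Normal] {g x : G} (hg : ∀ x ∈ B, g ^ 7 * x = x * g ^ 7)
    (hx : x ∈ B) (h : g * x ≠ x * g) : orderOf (MulAut.conjNormal (H := B) g) = 7 := by
  have := Fact.mk (by norm_num : Nat.Prime 7)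
  exact orderOf_eq_prime (((isCj_conjNormal B g).pow 7).eq_one_iff.2 hg)
    fun e => h ((isCj_conjNormal B g).eq_one_iff.1 e x hx)

lemma Tr.sq [Finite G] {B : Subgroup G} (h : Tr B) (h2 : 2 ∣ Nat.card B) : ∀ x ∈ B, x * x = 1 := by
  obtain ⟨t, ht, h3⟩ := exists_mem_order Nat.prime_two h2
  rw [order_two] at h3
  intro x hx
  by_cases h1 : x = 1
  · simp [h1]
  obtain ⟨g, rfl⟩ := h t ht x hx h3.2 h1
  simp [h3.1]

variable {R : Type*} [Group R] [Finite R] {r : ℕ}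

lemma act_trivial (hr : r.Prime) (h2 : r ≠ 2) (hR : Nat.card R ∣ r ^ 2) (φ : G →* MulAut R)
    {a b c d : G} (ha : a * a = 1) (hb : b * b = 1) (hab : a * b = b * a)
    (hc : c * a * c⁻¹ = b) (hd : d * a * d⁻¹ = a * b) : φ a = 1 :=
  (four_trivial hr h2 hR (a := φ a) (b := φ b) (by rw [← map_mul, ha, map_one])
    (by rw [← map_mul, hb, map_one]) (by rw [← map_mul, hab, map_mul])
    (by rw [← hc, map_mul, map_mul, map_inv, card_fixS_conj])
    (by rw [← map_mul, ← hd, map_mul, map_mul, map_inv, card_fixS_conj])).1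

lemma Tr.trivial [Finite G] (hr : r.Prime) (h2 : r ≠ 2) (hR : Nat.card R ∣ r ^ 2)
    (φ : G →* MulAut R) {B : Subgroup G} (h : Tr B) (hs : ∀ x ∈ B, x * x = 1)
    (hB : 2 < Nat.card B) : ∀ x ∈ B, φ x = 1 := by
  intro x hx
  by_cases h1 : x = 1
  · rw [h1, map_one]
  obtain ⟨⟨y, hy⟩, h3, h4⟩ := exists_ne_two hB 1 ⟨x, hx⟩
  obtain ⟨c, hc⟩ := h x hx y hy h1 fun e => h3 (Subtype.ext e)
  obtain ⟨d, hd⟩ := h x hx _ (mul_mem hx hy) h1 fun e => h4 (Subtype.ext
    (mul_left_cancel (e.trans (hs x hx).symm)))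
  exact act_trivial hr h2 hR φ (hs x hx) (hs y hy) (comm_of_sq hs x hx y hy) hc hd

lemma Tr.le_commutator {B : Subgroup G} [hB : B.Normal] (h : Tr B) {g x : G} (hx : x ∈ B)
    (hg : g * x ≠ x * g) : B ≤ commutator G := by
  intro y hy
  by_cases h1 : y = 1
  · rw [h1]; exact one_mem _
  obtain ⟨c, rfl⟩ := h (g * x * g⁻¹ * x⁻¹) (mul_mem (hB.conj_mem x hx g) (inv_mem hx)) y hy
    (fun e => hg (commutatorElement_eq_one_iff_mul_comm.1 e)) h1
  exact Normal.conj_mem inferInstance _ (commutator_mem_commutator (mem_top g) (mem_top x)) c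

lemma equiv_of_ker_eq {A : Type*} [Group A] {a : G →* Q} {b : G →* A}
    (ha : Function.Surjective a) (hb : Function.Surjective b) (h : a.ker = b.ker) :
    Nonempty (Q ≃* A) :=
  ⟨(QuotientGroup.quotientKerEquivOfSurjective a ha).symm.trans
    ((QuotientGroup.quotientMulEquivOfEq h).trans (QuotientGroup.quotientKerEquivOfSurjective b hb))⟩

end gen

section pack
variable {L : Type} [Group L] [Finite L] {p k m : ℕ}

omit [Finite L] in
lemma pk_four (h : Pack L p k m) : 4 ∣ Nat.card L := by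
  obtain ⟨j, rfl⟩ := h.even
  exact h.card ▸ ⟨j * p * m, by ring⟩

omit [Finite L] in
lemma pk_three (h : Pack L p k m) : 3 ∣ Nat.card L := by
  have h1 : 3 ∣ k ∨ 3 ∣ p ∨ 3 ∣ m := by
    have := h.par
    obtain ⟨j, hj⟩ : ∃ j, k = 3 * j ∨ k = 3 * j + 1 ∨ k = 3 * j + 2 := ⟨k / 3, by omega⟩
    omega
  rw [h.card]
  rcases h1 with h1 | h1 | h1
  · exact ((h1.mul_left 2).mul_right p).mul_right m
  · exact (h1.mul_left _).mul_right m
  · exact h1.mul_left _

omit [Finite L] in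
lemma pk_dvd (h : Pack L p k m) : p ∣ Nat.card L := h.card ▸ (dvd_mul_left p _).mul_right m

omit [Finite L] in
lemma pk_not_dvd (h : Pack L p k m) {q : ℕ} (hq : q.Prime) (hpq : p < q) : ¬ q ∣ Nat.card L := by
  have := h.par
  have := h.five
  rw [h.card, hq.dvd_mul, hq.dvd_mul, hq.dvd_mul]
  rintro (((h | h) | h) | h) <;> have := Nat.le_of_dvd (by omega) h <;> omega

omit [Finite L] in
lemma pk_not_sq (h : Pack L p k m) {n : ℕ} (hn : Full n) (hd : Nat.card L ∣ n) : ¬ p ^ 2 ∣ n := by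
  intro h2
  have h5 := h.five
  have h3 := (hn.2.2.2.2.2.1 ((pk_four h).trans hd)).2.2.1 p h.prime (by omega) h2
  have h4 := h.par
  have h6 := h.even
  have h7 : m ≠ 1 ∧ ¬ 2 ∣ m ∧ p - 1 = m * 2 := by omega
  exact hn.2.1 p m.minFac h.prime (Nat.minFac_prime h7.1) (fun e => h7.2.1 (e ▸ m.minFac_dvd))
    (m.minFac_dvd.trans ((h.card ▸ dvd_mul_left m _ : m ∣ Nat.card L).trans hd)) h2 (by omega)
    (m.minFac_dvd.trans ⟨2, h7.2.2⟩)

lemma pk_inv (h : Pack L p k m) :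
    ∃ t u : L, orderOf t = 2 ∧ orderOf u = 2 ∧ orderOf (t * u) = 2 ∧ t * u = u * t := by
  have := Fact.mk Nat.prime_two
  obtain ⟨t, ht⟩ := exists_prime_orderOf_dvd_card' 2 ((by norm_num : 2 ∣ 4).trans (pk_four h))
  obtain ⟨h1, K, k1, k2, -, -, k5, -⟩ := h.cent t ht
  have h2 : ¬ centralizer ({t} : Set L) ≤ K := fun e => by
    have h3 := card_le_of_le e
    have h4 : 0 < Nat.card K := Nat.card_pos
    omega
  obtain ⟨u, hu, hK⟩ := SetLike.not_le_iff_exists.1 h2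
  rw [mem_centralizer_singleton_iff] at hu
  have h3 := (k5 u hu hK).1
  have h4 := (order_two.1 ht).1
  refine ⟨t, u, ht, order_two.2 ⟨h3, fun e => hK (e ▸ one_mem K)⟩, order_two.2 ⟨?_, fun e => hK ?_⟩,
    hu.symm⟩
  · rw [mul_assoc, ← mul_assoc u, hu, mul_assoc, h3, mul_one, h4]
  · rwa [mul_left_cancel (e.trans h4.symm)]

lemma pk_perfect (h : Pack L p k m) : commutator L = ⊤ := by
  have := h.simple
  refine (Normal.eq_bot_or_eq_top inferInstance).resolve_left fun e => ?_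
  obtain ⟨t, u, ht, hu, htu, -⟩ := pk_inv h
  obtain ⟨c, rfl⟩ := isConj_iff.1 (h.conj t u ht hu)
  have h1 : ⁅c, t⁆ ∈ commutator L := commutator_mem_commutator (mem_top c) (mem_top t)
  rw [e, mem_bot, commutatorElement_eq_one_iff_mul_comm] at h1
  rw [h1, mul_inv_cancel_right, (order_two.1 ht).1, orderOf_one] at htu
  omega

lemma pk_hom (h : Pack L p k m) {R : Type*} [Group R] [Finite R] {r : ℕ} (hr : r.Prime)
    (h2 : r ≠ 2) (hR : Nat.card R ∣ r ^ 2) (φ : L →* MulAut R) (x : L) : φ x = 1 := by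
  have := h.simple
  obtain ⟨t, u, ht, hu, htu, hc⟩ := pk_inv h
  obtain ⟨c, hc'⟩ := isConj_iff.1 (h.conj t u ht hu)
  obtain ⟨d, hd⟩ := isConj_iff.1 (h.conj t _ ht htu)
  have h1 : t ∈ φ.ker := act_trivial hr h2 hR φ (order_two.1 ht).1 (order_two.1 hu).1 hc hc' hd
  rcases (inferInstance : φ.ker.Normal).eq_bot_or_eq_top with e | e
  · exact absurd (mem_bot.1 (e ▸ h1)) (order_two.1 ht).2
  · exact (e ▸ mem_top x : x ∈ φ.ker)

omit [Finite L] in
lemma pk_sq (h : Pack L p k m) (h4 : ¬ 4 ∣ k) {y : L} (hy : y ^ 4 = 1) : y * y = 1 := by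
  by_contra h1
  have h2 : y * y * (y * y) = 1 := by rw [← hy]; simp [pow_succ, mul_assoc]
  obtain ⟨-, K, k1, -, -, -, k5, -⟩ := h.cent (y * y) (order_two.2 ⟨h2, h1⟩)
  by_cases hK : y ∈ K
  · have := Fact.mk Nat.prime_two
    have h3 : orderOf y = 2 ^ (1 + 1) := orderOf_eq_prime_pow (by rwa [pow_one, pow_two]) hy
    exact h4 (k1 ▸ (h3 ▸ K.orderOf_dvd_natCard hK : 2 ^ (1 + 1) ∣ Nat.card K))
  · exact h1 (k5 y (mul_assoc _ _ _).symm hK).1

lemma pk_order_four (h : Pack L p k m) (h4 : k = 4) : ∃ y : L, orderOf y = 4 := by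
  obtain ⟨t, -, ht, -⟩ := pk_inv h
  obtain ⟨-, K, k1, k2, -, k4, -⟩ := h.cent t ht
  obtain ⟨y, h1, h2⟩ := exists_ne_two (α := K) (by omega) 1 ⟨t, k2⟩
  have := Fact.mk Nat.prime_two
  refine ⟨y, orderOf_eq_prime_pow (p := 2) (n := 1) (fun e => ?_) ?_⟩
  · exact (k4 y y.2 (by rwa [pow_one, pow_two] at e)).elim (fun e => h1 (Subtype.ext e))
      fun e => h2 (Subtype.ext e)
  · have := pow_card_of_mem y.2
    rwa [k1, h4] at this

end pack

variable {G Q : Type} [Group G] [Group Q] [Finite G]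

omit [Finite G] in
lemma pk_le {L : Subgroup G} [Finite L] {p k m : ℕ} (h : Pack L p k m) : L ≤ ⁅L, L⁆ := by
  rw [← map_subtype_commutator, pk_perfect h, ← MonoidHom.range_eq_map, range_subtype]

/-- `f` is the quotient map by the central involution `z`. -/
def Cov (f : G →* Q) (z : G) : Prop :=
  Function.Surjective f ∧ orderOf z = 2 ∧ (∀ g, g * z = z * g) ∧ f.ker = zpowers z

lemma exists_cov {z : G} (h1 : orderOf z = 2) (h2 : ∀ g, g * z = z * g) :
    ∃ (Q : Type) (_ : Group Q) (_ : Finite Q) (f : G →* Q), Cov f z := by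
  have : (zpowers z).Normal := ⟨fun x hx g => by
    obtain ⟨k, rfl⟩ := mem_zpowers_iff.1 hx
    rwa [((Commute.zpow_right (h2 g) k).eq :), mul_inv_cancel_right]⟩
  exact ⟨G ⧸ zpowers z, inferInstance, inferInstance, QuotientGroup.mk' _,
    QuotientGroup.mk'_surjective _, h1, h2, QuotientGroup.ker_mk' _⟩

namespace Cov
variable {f : G →* Q} {z : G}

omit [Finite G] in
lemma card_ker (h : Cov f z) : Nat.card f.ker = 2 := by rw [h.2.2.2, Nat.card_zpowers, h.2.1]

omit [Finite G] in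
lemma card (h : Cov f z) : Nat.card G = Nat.card Q * 2 := by rw [card_eq_mul h.1, h.card_ker]

omit [Finite G] in
lemma map_eq (h : Cov f z) : f z = 1 := (h.2.2.2 ▸ mem_zpowers z : z ∈ f.ker)

lemma cases (h : Cov f z) {x : G} (hx : f x = 1) : x = 1 ∨ x = z := by
  classical
  obtain ⟨k, hk, rfl⟩ := Finset.mem_image.1 (mem_zpowers_iff_mem_range_orderOf.1
    (h.2.2.2 ▸ hx : x ∈ zpowers z))
  rw [h.2.1, Finset.mem_range] at hk
  interval_cases k <;> simp

lemma comm (h : Cov f z) {x : G} (hx : x ∈ f.ker) (g : G) : x * g = g * x := by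
  rcases h.cases hx with rfl | rfl
  · simp
  · exact (h.2.2.1 g).symm

lemma tyIIIa (h : Cov f z) (hG : NoFour G) (hQ : TyII Q) : TyIIIa G := by
  obtain ⟨B, h1, h2, -, g, h3, x, hx, h4⟩ := hQ
  obtain ⟨g, rfl⟩ := h.1 g
  obtain ⟨x, rfl⟩ := h.1 x
  obtain ⟨g', k1, k2⟩ := exists_odd_lift f g h3
  exact ⟨hG, B.comap f, inferInstance, by rw [card_comap h.1, h2, h.card_ker], g', k1, x, hx,
    fun e => h4 (by rw [← k2, ← map_mul, e, map_mul])⟩

omit [Finite G] in
lemma tyVIa (h : Cov f z) (hG : NoFour G) {p : ℕ} (hQ : TyV Q p) : TyVIa G p := by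
  obtain ⟨L, k, m, h1, h2⟩ := hQ
  refine ⟨hG, L.comap f, ⟨z, by rw [mem_comap, h.map_eq]; exact one_mem _⟩, L, inferInstance,
    f.subgroupComap L, k, m, inferInstance, by rw [← orderOf_coe]; exact h.2.1, h.2.2.1,
    f.subgroupComap_surjective_of_surjective L h.1, ?_, h2⟩
  ext x
  rw [MonoidHom.mem_ker, Subtype.ext_iff, ← mem_map_iff_mem (subtype_injective _),
    MonoidHom.map_zpowers]
  change x.1 ∈ f.ker ↔ _
  rw [h.2.2.2]
  rfl

end Cov

lemma cov_of_IIIa (h : TyIIIa G) :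
    ∃ (Q : Type) (_ : Group Q) (_ : Finite Q) (f : G →* Q) (z : G), Cov f z ∧ TyII Q := by
  obtain ⟨hG, B, h1, h2, g, h3, x, hx, h4⟩ := h
  obtain ⟨z, hz, k1, k2⟩ := exists_central Nat.prime_two (IsPGroup.of_card (n := 3) h2)
    fun e => by simp [e] at h2
  have k3 := order_two.1 k1
  have k4 : ∀ c, c * z = z * c := fun c => by
    rcases hG _ z (by simp [k3.1] : c * z * c⁻¹ * (c * z * c⁻¹) = 1) k3.1
      (k2 _ (h1.conj_mem z hz c)) with e | e | e
    · exact absurd (by simpa using e) k3.2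
    · exact absurd e k3.2
    · exact mul_inv_eq_iff_eq_mul.1 e
  obtain ⟨Q, _, _, f, hf⟩ := exists_cov k1 k4
  have h5 := h1.map f hf.1
  have h6 : Nat.card (B.map f) = 4 := by
    have := card_comap hf.1 (B.map f)
    rw [comap_map_eq_self (hf.2.2.2 ▸ zpowers_le.2 hz), h2, hf.card_ker] at this
    omega
  have h7 : ¬ 2 ∣ orderOf (f g) := fun e => h3 (e.trans (orderOf_map_dvd f g))
  have h8 : f g * f x ≠ f x * f g := fun e => by
    rcases hf.cases (x := g * x * g⁻¹ * x⁻¹) (by simp [e]) with e | e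
    · exact h4 (commutatorElement_eq_one_iff_mul_comm.1 e)
    · have e1 : g * x = z * x * g := by rw [← e]; group
      have e2 : Commute (g ^ 2) x := by
        rw [Commute, SemiconjBy, pow_two, mul_assoc, e1, ← mul_assoc, ← mul_assoc, k4 g,
          mul_assoc z, e1, ← mul_assoc z, ← mul_assoc z, k3.1, one_mul, mul_assoc]
      obtain ⟨j, hj⟩ := exists_pow_eq_self_of_coprime
        ((Nat.Prime.coprime_iff_not_dvd Nat.prime_two).2 h3)
      exact h4 (hj ▸ e2.pow_left j)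
  exact ⟨Q, inferInstance, inferInstance, f, z, hf, B.map f, h5, h6,
    (tr_of_order Nat.prime_three h6 (three_dvd h6 h7 (mem_map_of_mem f hx) h8)).sq (by omega),
    f g, h7, f x, mem_map_of_mem f hx, h8⟩

lemma cov_of_VIa {p : ℕ} (h : TyVIa G p) :
    ∃ (Q : Type) (_ : Group Q) (_ : Finite Q) (f : G →* Q) (z : G), Cov f z ∧ TyV Q p := by
  obtain ⟨-, M, z, L, _, f', k, m, h1, h2, h3, h4, h5, h6⟩ := h
  obtain ⟨Q, _, _, f, hf⟩ := exists_cov (z := (z : G)) (by rwa [orderOf_coe]) h3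
  have : Finite L := Finite.of_surjective f' h4
  obtain ⟨e⟩ := equiv_of_ker_eq (f.subgroupMap_surjective M) h4 (by
    ext x
    rw [h5, MonoidHom.mem_ker, Subtype.ext_iff, ← mem_map_iff_mem (subtype_injective _),
      MonoidHom.map_zpowers]
    change x.1 ∈ f.ker ↔ _
    rw [hf.2.2.2]
    rfl)
  exact ⟨Q, inferInstance, inferInstance, f, z, hf, M.map f, k, m, h1.map f hf.1, pack_equiv h6 e⟩

end S

end Pool.Agent.Lib.MP_cb9dee_al
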