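import Pool.Agent.Lib.MP_cb9dee_al.Basic
import Pool.Agent.Lib.MP_cb9dee_al.Rigid
import Pool.Agent.Lib.MP_cb9dee_al.Aff

namespace Pool.Agent.Lib.MP_cb9dee_al

namespace T

open Subgroup

section glue
variable {G H : Type*} [Group G] [Group H]

/-- The action of a subgroup on a normal subgroup. -/
def act (B X : Subgroup G) [B.Normal] : X →* MulAut B := MulAut.conjNormal.comp X.subtype

lemma act_coe (B X : Subgroup G) [B.Normal] (x : X) (b : B) :
    (act B X x b : G) = x * b * (x : G)⁻¹ := rfl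

lemma act_isCj (B X : Subgroup G) [B.Normal] (x : X) : IsCj (act B X x) (x : G) := fun _ => rfl

lemma glue2 {B X : Subgroup G} {B' X' : Subgroup H} [B.Normal] [B'.Normal]
    (h : B.IsComplement' X) (h' : B'.IsComplement' X') (α : X ≃* X') (β : B ≃* B')
    (e : ∀ x b, β (act B X x b) = act B' X' (α x) (β b)) :
    ∃ Φ : G ≃* H, (∀ x : X, Φ x = α x) ∧ ∀ b : B, Φ b = β b := by
  refine ⟨(SemidirectProduct.mulEquivSubgroup h).symm.trans
    ((SemidirectProduct.congr β α ?_).trans
      (SemidirectProduct.mulEquivSubgroup h')), fun x => ?_, fun b => ?_⟩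
  · exact fun x => MulEquiv.ext fun b => e x b
  · have : (SemidirectProduct.mulEquivSubgroup h).symm x = SemidirectProduct.inr x := by
      rw [MulEquiv.symm_apply_eq]; simp
    simp [this]
  · have : (SemidirectProduct.mulEquivSubgroup h).symm b = SemidirectProduct.inl b := by
      rw [MulEquiv.symm_apply_eq]; simp
    simp [this]

lemma iso_of_gen {E : Type*} [Group E] [Finite E] (f : E →* G) (f' : E →* H)
    (hf : Function.Surjective f) (hf' : Function.Surjective f') (hc : Nat.card E ≤ Nat.card G)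
    (hc' : Nat.card E ≤ Nat.card H) : ∃ β : G ≃* H, ∀ x, β (f x) = f' x := by
  have b := hf.bijective_of_nat_card_le hc
  have b' := hf'.bijective_of_nat_card_le hc'
  refine ⟨(MulEquiv.ofBijective f b).symm.trans (MulEquiv.ofBijective f' b'), fun x => ?_⟩
  have : (MulEquiv.ofBijective f b).symm (f x) = x := (MulEquiv.ofBijective f b).symm_apply_apply x
  rw [MulEquiv.trans_apply, this]
  rfl

/-- The elements on which two actions agree along `β`. -/
def agree {X : Type*} [Group X] (φ : X →* MulAut G) (ψ : X →* MulAut H) (β : G ≃* H) :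
    Subgroup X := ((MulAut.congr β).toMonoidHom.comp φ).eqLocus ψ

lemma mem_agree {X : Type*} [Group X] {φ : X →* MulAut G} {ψ : X →* MulAut H} {β : G ≃* H}
    {x : X} : x ∈ agree φ ψ β ↔ ∀ b, β (φ x b) = ψ x (β b) := by
  change MulAut.congr β (φ x) = ψ x ↔ _
  constructor
  · intro h b
    rw [← h]; simp
  · intro h
    ext b
    obtain ⟨b, rfl⟩ := β.surjective b
    rw [← h]; simp

lemma mem_agree_of_ker {X : Type*} [Group X] {φ : X →* MulAut G} {ψ : X →* MulAut H}
    {β : G ≃* H} {x : X} (h : φ x = 1) (h' : ψ x = 1) : x ∈ agree φ ψ β :=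
  mem_agree.2 fun b => by rw [h, h']; rfl

end glue

section count
variable {G : Type*} [Group G] [Finite G] {B X : Subgroup G}

lemma cnt_compl (h : B.IsComplement' X) (P : G → Prop) [Fintype X] :
    Nat.card {g // P g} = ∑ x : X, Nat.card {b : B // P (b * x)} := by
  rw [← Nat.card_sigma]
  refine Nat.card_congr (Equiv.ofBijective
    (fun z : (Σ x : X, {b : B // P (b * x)}) => (⟨z.2.1 * z.1, z.2.2⟩ : {g // P g})) ⟨?_, ?_⟩).symm
  · rintro ⟨x, b, hb⟩ ⟨x', b', hb'⟩ e
    have := h.1 (a₁ := (b, x)) (a₂ := (b', x')) (congrArg Subtype.val e)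
    obtain ⟨rfl, rfl⟩ := Prod.mk.inj this
    rfl
  · rintro ⟨g, hg⟩
    obtain ⟨⟨b, x⟩, rfl⟩ := h.2 g
    exact ⟨⟨x, b, hg⟩, rfl⟩

omit [Finite G] in
lemma pow_mem_iff [B.Normal] (h : B.IsComplement' X) (b : B) (x : X) (d : ℕ) :
    ((b : G) * x) ^ d ∈ B ↔ x ^ d = 1 := by
  rw [← QuotientGroup.eq_one_iff, QuotientGroup.mk_pow, QuotientGroup.mk_mul,
    (QuotientGroup.eq_one_iff (b : G)).2 b.2, one_mul, ← QuotientGroup.mk_pow,
    QuotientGroup.eq_one_iff]
  exact ⟨fun hx => Subtype.ext (disjoint_def.1 h.disjoint hx (x ^ d).2),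
    fun hx => by rw [← coe_pow, hx]; exact one_mem _⟩

lemma cnt_mul (h : B.IsComplement' X) {e d : ℕ}
    (he : ∀ (b : B) (x : X), ((b : G) * x) ^ e = 1 ↔ x ^ d = 1) :
    Nat.card {g : G // g ^ e = 1} = Nat.card B * Nat.card {x : X // x ^ d = 1} := by
  classical
  have := Fintype.ofFinite X
  rw [cnt_compl h, Nat.card_eq_fintype_card (α := {x : X // x ^ d = 1}), Fintype.card_subtype,
    Finset.card_filter, Finset.mul_sum]
  refine Finset.sum_congr rfl fun x _ => ?_
  simp only [he]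
  split_ifs with hx <;> simp [hx]

lemma cnt_coprime [B.Normal] (h : B.IsComplement' X)
    (hc : (Nat.card B).Coprime (Nat.card X)) (d : ℕ) :
    Nat.card {g : G // g ^ (d * Nat.card B) = 1} = Nat.card B * Nat.card {x : X // x ^ d = 1} := by
  refine cnt_mul h fun b x => ⟨fun e => ?_, fun e => ?_⟩
  · have h1 := (pow_mem_iff h b x _).1 (e ▸ one_mem B)
    rw [pow_mul] at h1
    exact orderOf_eq_one_iff.1 (Nat.eq_one_of_dvd_coprimes hc (orderOf_dvd_of_pow_eq_one h1)
      (orderOf_dvd_natCard _))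
  · rw [pow_mul]
    exact pow_card_of_mem ((pow_mem_iff h b x d).2 e)

end count

lemma conformal_compl {G H : Type} [Group G] [Group H] [Finite G] [Finite H] (c : Conformal G H)
    (hGH : Nat.card G = Nat.card H) {B X : Subgroup G} {B' X' : Subgroup H} [B.Normal] [B'.Normal]
    (h : B.IsComplement' X) (h' : B'.IsComplement' X') (hB : Nat.card B = Nat.card B')
    (hc : (Nat.card B).Coprime (Nat.card X)) : Nat.card X = Nat.card X' ∧ Conformal X X' := by
  have hX : Nat.card X = Nat.card X' := Nat.eq_of_mul_eq_mul_left (Nat.card_pos (α := B))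
    (by rw [h.card_mul_card, hB, h'.card_mul_card, hGH])
  refine ⟨hX, fun d hd => Nat.eq_of_mul_eq_mul_left (Nat.card_pos (α := B)) ?_⟩
  rw [← cnt_coprime h hc, c _ (Nat.mul_pos hd Nat.card_pos), hB, cnt_coprime h' (hB ▸ hX ▸ hc)]

lemma conformal_congr {G H G' H' : Type} [Group G] [Group H] [Group G'] [Group H']
    (c : Conformal G H) (e : G ≃* G') (e' : H ≃* H') : Conformal G' H' := fun d hd => by
  have k : ∀ {A A' : Type} [Group A] [Group A'] (f : A ≃* A'),
      Nat.card {x : A // x ^ d = 1} = Nat.card {x : A' // x ^ d = 1} := fun f =>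
    Nat.card_congr (f.toEquiv.subtypeEquiv fun x => by
      rw [MulEquiv.toEquiv_eq_coe, MulEquiv.coe_toEquiv, ← map_pow, MulEquiv.map_eq_one_iff])
  rw [← k e, ← k e', c d hd]

section free
variable {R : Type*} [Group R] [Finite R]

omit [Finite R] in
lemma index_dvd_of_free {U : Type*} [Group U] (ρ : U →* MulAut R) (s : Set R)
    (hs : ∀ u, ∀ x ∈ s, ρ u x ∈ s) (hf : ∀ u, ∀ x ∈ s, ρ u x = x → ρ u = 1) :
    ρ.ker.index ∣ Nat.card s := by
  let Y : SubMulAction ρ.range R :=
    { carrier := s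
      smul_mem' := by
        rintro ⟨_, u, rfl⟩ x hx
        exact hs u x hx }
  have hst : ∀ b : Y, MulAction.stabilizer ρ.range b = ⊥ := by
    intro b
    rw [eq_bot_iff]
    rintro ⟨_, u, rfl⟩ hc
    rw [mem_bot]
    exact Subtype.ext (hf u b b.2 (congrArg Subtype.val (MulAction.mem_stabilizer_iff.1 hc)))
  have h1 := Nat.card_congr (MulAction.selfEquivOrbitsQuotientProd hst)
  rw [Nat.card_prod] at h1
  rw [index_ker]
  exact Dvd.intro_left _ h1.symm

lemma exists_prime_pow {c : MulAut R} (hc : c ≠ 1) :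
    ∃ s k : ℕ, s.Prime ∧ s ∣ orderOf c ∧ c ^ k ≠ 1 ∧ (c ^ k) ^ s = 1 := by
  have ho : orderOf c ≠ 1 := fun e => hc (orderOf_eq_one_iff.1 e)
  have hsd := Nat.minFac_dvd (orderOf c)
  have hb := orderOf_pow_orderOf_div (orderOf_pos c).ne' hsd
  exact ⟨_, _, Nat.minFac_prime ho, hsd,
    fun e => (Nat.minFac_prime ho).one_lt.ne' (by rw [← hb, e, orderOf_one]),
    by rw [← orderOf_dvd_iff_pow_eq_one, hb]⟩

lemma eq_one_of_fix {c : MulAut R} (h : Nat.card (fixS c) = Nat.card R) : c = 1 := by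
  have := eq_top_of_card_eq _ h
  ext x
  exact (this ▸ mem_top x : x ∈ fixS c)

lemma exists_fix {s : ℕ} (hs : s.Prime) {a : MulAut R} (ha : a ^ s = 1)
    (h : ¬ Nat.card R ≡ 1 [MOD s]) : ∃ v, v ≠ 1 ∧ a v = v := by
  by_contra! h'
  have : fixS a = ⊥ := eq_bot_iff.2 fun v hv => by
    by_contra e
    exact h' v e hv
  have h1 := card_modEq_fixS hs ha
  rw [this, card_bot] at h1
  exact h h1

omit [Finite R] in
lemma card_ne_one : Nat.card {x : R | x ≠ 1} = Nat.card R - 1 := by
  rw [Nat.card_coe_set_eq, ← Set.ncard_univ, ← Set.ncard_sdiff_singleton_of_mem (Set.mem_univ (1 : R))]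
  congr 1
  ext x
  simp

end free

end T

end Pool.Agent.Lib.MP_cb9dee_al
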