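import Pool.Agent.Lib.MP_cb9dee_al.TSys

namespace Pool.Agent.Lib.MP_cb9dee_al

namespace T

open Subgroup

section four
variable {B B' : Type*} [Group B] [Group B'] [Finite B] [Finite B']

lemma kleinFour (h4 : Nat.card B = 4) (h2 : ∀ x : B, x * x = 1) : IsKleinFour B := by
  have : Nontrivial B := Finite.one_lt_card_iff_nontrivial.1 (by rw [h4]; norm_num)
  exact ⟨h4, (Monoid.exponent_eq_prime_iff Nat.prime_two).2 fun g hg =>
    orderOf_eq_prime (by rw [pow_two, h2]) hg⟩

omit [Finite B] in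
lemma eq_of_mem_zpowers_two {v u : B} (hv : orderOf v = 2) (h : u ∈ zpowers v) :
    u = 1 ∨ u = v := by
  classical
  obtain ⟨k, hk, rfl⟩ := (isOfFinOrder_iff_pow_eq_one.2
    ⟨2, two_pos, hv ▸ pow_orderOf_eq_one v⟩).mem_zpowers_iff_mem_range_orderOf.1 h
    |> Finset.mem_image.1
  rw [hv, Finset.mem_range] at hk
  interval_cases k <;> simp

variable [IsKleinFour B] [IsKleinFour B']

omit [Finite B] in
lemma good_two {c : MulAut B} (h : ¬ 2 ∣ orderOf c) : Good 2 c :=
  Or.inr ⟨IsKleinFour.card_four, ((Nat.Prime.coprime_iff_not_dvd Nat.prime_two).2 h).symm⟩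

omit [Finite B] in
lemma four_ext {T : Type*} [Group T] {v u : B} (hv : v ≠ 1) (hu : u ≠ 1) (h : v ≠ u)
    (f g : B →* T) (h1 : f v = g v) (h2 : f u = g u) (x : B) : f x = g x := by
  by_cases a : x = 1
  · simp [a]
  by_cases b : x = v
  · rw [b, h1]
  by_cases c : x = u
  · rw [c, h2]
  rw [IsKleinFour.eq_mul_of_ne_all hv hu h a b c, map_mul, map_mul, h1, h2]

omit [Finite B] in
lemma four_fix {v u : B} (hv : v ≠ 1) (hu : u ≠ 1) (h : v ≠ u) {c : MulAut B} (hc : c v = v)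
    (hc1 : c ≠ 1) : c u = v * u :=
  IsKleinFour.eq_mul_of_ne_all hv hu h (by simpa using hu)
    (fun e => h (c.injective (hc.trans e.symm)))
    fun e => hc1 (MulEquiv.ext (four_ext hv hu h c.toMonoidHom (MonoidHom.id B) hc e))

lemma three_ne {a : MulAut B} (ha : a ≠ 1) (h3 : a ^ 3 = 1) {v : B} (hv : v ≠ 1) :
    a v ≠ 1 ∧ v ≠ a v ∧ a (a v) = v * a v := by
  have ho : orderOf a = 3 := orderOf_eq_prime h3 ha
  have hg : Good 2 a := good_two (by rw [ho]; norm_num)
  have h1 : a v ≠ 1 := by simpa using hv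
  have h2 : v ≠ a v := fun e => ha (hg.eq_one Nat.prime_two hv e.symm)
  refine ⟨h1, h2, IsKleinFour.eq_mul_of_ne_all hv h1 h2 (by simpa using hv) (fun e => ?_)
    fun e => h2 (a.injective e).symm⟩
  have := orderOf_dvd_of_pow_eq_one ((hg.pow 2).eq_one Nat.prime_two hv (by rwa [pow_two]))
  rw [ho] at this
  norm_num at this

lemma index_dvd_six {X : Type*} [Group X] (φ : X →* MulAut B) : φ.ker.index ∣ 6 := by
  classical
  have := Fintype.ofFinite B
  let Y : SubMulAction (MulAut B) B :=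
    { carrier := {x | x ≠ 1}
      smul_mem' := fun c x hx e => hx (by simpa using (e : c x = 1)) }
  have hi : Function.Injective (MulAction.toPermHom (MulAut B) Y) :=
    (injective_iff_map_eq_one _).2 fun c hc => by
      ext x
      by_cases hx : x = 1
      · simp [hx]
      · exact congrArg Subtype.val (DFunLike.congr_fun hc (⟨x, hx⟩ : Y))
  have h1 := card_dvd_of_injective _ hi
  have h2 : Nat.card Y = 3 := (card_ne_one (R := B)).trans (by rw [IsKleinFour.card_four])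
  rw [Nat.card_perm, h2] at h1
  rw [index_ker]
  exact (card_subgroup_dvd_card _).trans h1

lemma beta_four {X : Type*} [Group X] (φ : X →* MulAut B) (ψ : X →* MulAut B')
    (hk : ∀ x, φ x = 1 ↔ ψ x = 1) {w : X} (hw : φ w ≠ 1) (h3 : φ w ^ 3 = 1) :
    ∃ β : B ≃* B', ∀ x b, β (φ x b) = ψ x (β b) := by
  have hw' : ψ w ≠ 1 := mt (hk w).2 hw
  have h3' : ψ w ^ 3 = 1 := by rw [← map_pow, ← hk, map_pow, h3]
  have : Nontrivial B :=
    Finite.one_lt_card_iff_nontrivial.1 (by rw [IsKleinFour.card_four]; norm_num)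
  have : Nontrivial B' :=
    Finite.one_lt_card_iff_nontrivial.1 (by rw [IsKleinFour.card_four]; norm_num)
  obtain ⟨v, v', hv, hv', hs⟩ : ∃ (v : B) (v' : B'), v ≠ 1 ∧ v' ≠ 1 ∧
      ∀ x, φ x v = v → ψ x v' = v' := by
    by_cases h : ∃ s, φ s ≠ 1 ∧ ∃ v, v ≠ 1 ∧ φ s v = v
    · obtain ⟨s, hs, v, hv, e⟩ := h
      obtain ⟨a1, a2, -⟩ := three_ne hw h3 hv
      have e2 := four_fix hv a1 a2 e hs
      have h2 : ψ s ^ 2 = 1 := by
        rw [← map_pow, ← hk, map_pow, pow_two]
        refine MulEquiv.ext (four_ext hv a1 a2 (φ s * φ s).toMonoidHom (MonoidHom.id B) ?_ ?_)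
        · change φ s (φ s v) = v
          rw [e, e]
        · change φ s (φ s (φ w v)) = φ w v
          rw [e2, map_mul, e, e2, ← mul_assoc, IsKleinFour.mul_self, one_mul]
      obtain ⟨v', hv', e'⟩ := exists_fix Nat.prime_two h2
        (by rw [IsKleinFour.card_four]; decide)
      refine ⟨v, v', hv, hv', fun x hx => ?_⟩
      by_cases h1 : φ x = 1
      · rw [(hk x).1 h1]; rfl
      have h4 : φ x = φ s := MulEquiv.ext (four_ext hv a1 a2 (φ x).toMonoidHom (φ s).toMonoidHom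
        (hx.trans e.symm) ((four_fix hv a1 a2 hx h1).trans e2.symm))
      have h5 := (hk (s⁻¹ * x)).1 (by rw [map_mul, map_inv, h4, inv_mul_cancel])
      rw [map_mul, map_inv, inv_mul_eq_one] at h5
      rwa [← h5]
    · push Not at h
      obtain ⟨v, hv⟩ := exists_ne (1 : B)
      obtain ⟨v', hv'⟩ := exists_ne (1 : B')
      refine ⟨v, v', hv, hv', fun x hx => ?_⟩
      rw [(hk x).1 (by_contra fun e => h x e v hv hx)]; rfl
  obtain ⟨a1, a2, a3⟩ := three_ne hw h3 hv
  obtain ⟨b1, b2, b3⟩ := three_ne hw' h3' hv'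
  have o : ∀ {T : Type _} [Group T] [IsKleinFour T] {x : T}, x ≠ 1 → orderOf x = 2 := fun hx =>
    orderOf_eq_prime (by rw [pow_two, IsKleinFour.mul_self]) hx
  have o' : ∀ {T : Type _} [Group T] [IsKleinFour T] {x : T}, x ≠ 1 → orderOf x = 2 := fun hx =>
    orderOf_eq_prime (by rw [pow_two, IsKleinFour.mul_self]) hx
  obtain ⟨β, e1, e2⟩ := two_gen Nat.prime_two IsKleinFour.card_four IsKleinFour.card_four
    (o hv) (o a1) (fun h => a2 ((eq_of_mem_zpowers_two (o hv) h).resolve_left a1).symm)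
    (o' hv') (o' b1) (fun h => b2 ((eq_of_mem_zpowers_two (o' hv') h).resolve_left b1).symm)
  have ext : ∀ x, β (φ x v) = ψ x v' → β (φ x (φ w v)) = ψ x (ψ w v') → x ∈ agree φ ψ β :=
    fun x k1 k2 => mem_agree.2 (four_ext hv a1 a2 (β.toMonoidHom.comp (φ x).toMonoidHom)
      ((ψ x).toMonoidHom.comp β.toMonoidHom) (k1.trans (congrArg _ e1.symm))
      (k2.trans (congrArg _ e2.symm)))
  have m1 : w ∈ agree φ ψ β := ext w e2 (by rw [a3, b3, map_mul, e1, e2])
  have m2 : ∀ x, φ x v = v → x ∈ agree φ ψ β := fun x hx => by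
    by_cases h1 : φ x = 1
    · exact mem_agree_of_ker h1 ((hk x).1 h1)
    · exact ext x (by rw [hx, hs x hx, e1]) (by rw [four_fix hv a1 a2 hx h1,
        four_fix hv' b1 b2 (hs x hx) (mt (hk x).2 h1), map_mul, e1, e2])
  refine ⟨β, fun x => mem_agree.1 ?_⟩
  by_cases c1 : φ x v = v
  · exact m2 x c1
  by_cases c2 : φ x v = φ w v
  · exact (mul_mem_cancel_left (inv_mem m1)).1 (m2 _ (by simp [c2]))
  have c3 := (IsKleinFour.eq_mul_of_ne_all hv a1 a2 (by simpa using hv) c1 c2).trans a3.symm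
  exact (mul_mem_cancel_left (inv_mem (mul_mem m1 m1))).1 (m2 _ (by simp [c3]))

end four

end T

end Pool.Agent.Lib.MP_cb9dee_al
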