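import Pool.Agent.Lib.MP_cb9dee_al.TTwo

namespace Pool.Agent.Lib.MP_cb9dee_al

namespace T

open Subgroup

/-- The facts on the quaternion group of order eight that are used. -/
structure Quat (B : Type*) [Group B] (z : B) : Prop where
  card : Nat.card B = 8
  ne : z ≠ 1
  sq : z * z = 1
  comm : ∀ x, x * z = z * x
  inv : ∀ x, x * x = 1 → x = 1 ∨ x = z
  four : ∀ x, x * x ≠ 1 → x * x = z

variable {B B' : Type} [Group B] [Group B'] [Finite B] [Finite B']

lemma exists_quat (h8 : Nat.card B = 8)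
    (hn : ∀ s t : B, s * s = 1 → t * t = 1 → s * t = t * s → s = 1 ∨ t = 1 ∨ s = t)
    {c : MulAut B} (hc : c ≠ 1) (ho : ¬ 2 ∣ orderOf c) : ∃ z, Quat B z := by
  have := Fact.mk Nat.prime_two
  have : Nontrivial B := Finite.one_lt_card_iff_nontrivial.1 (by rw [h8]; norm_num)
  have hp : IsPGroup 2 B := IsPGroup.of_card (n := 3) h8
  have := hp.center_nontrivial
  obtain ⟨z, hz⟩ := exists_prime_orderOf_dvd_card' (G := center B) 2
    ((hp.to_subgroup _).card_eq_or_dvd.resolve_left Finite.one_lt_card.ne')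
  rw [← Subgroup.orderOf_coe] at hz
  have z1 := ne_one_of_orderOf Nat.prime_two hz
  have z2 : (z : B) * z = 1 := by rw [← pow_two, ← hz, pow_orderOf_eq_one]
  have zc := mem_center_iff.1 z.2
  have k : ∀ x : B, x * x = 1 → x = 1 ∨ x = z := fun x hx =>
    (hn x z hx z2 (zc x)).imp id fun h => h.resolve_left z1
  refine ⟨z, h8, z1, z2, zc, k, fun x hx => (k _ ?_).resolve_left hx⟩
  obtain ⟨m, hm, e⟩ := (Nat.dvd_prime_pow Nat.prime_two (m := 3)).1
    ((orderOf_dvd_natCard x).trans h8.dvd)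
  have h3 : m ≠ 3 := by
    rintro rfl
    have := isCyclic_of_orderOf_eq_card x (e.trans h8.symm)
    have h4 := orderOf_dvd_natCard c
    rw [IsCyclic.card_mulAut, h8] at h4
    exact hc (orderOf_eq_one_iff.1 (Nat.eq_one_of_dvd_coprimes
      (((Nat.Prime.coprime_iff_not_dvd Nat.prime_two).2 ho).pow_left 2) h4 dvd_rfl))
  rw [← pow_two, ← pow_two, ← pow_mul, ← orderOf_dvd_iff_pow_eq_one, e]
  exact pow_dvd_pow 2 (by omega : m ≤ 2)

namespace Quat
variable {z : B} (q : Quat B z)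
include q

omit [Finite B] in
lemma ord {x : B} (hx : x * x ≠ 1) : orderOf x = 4 := by
  have := Fact.mk Nat.prime_two
  refine orderOf_eq_prime_pow (p := 2) (n := 1) (by simpa [pow_two] using hx) ?_
  rw [pow_succ, pow_mul, pow_one, pow_two, pow_two, q.four x hx, q.sq]

lemma top {x : B} (hx : x * x ≠ 1) {L : Subgroup B} (hL : x ∈ L) :
    L = zpowers x ∨ L = ⊤ := by
  have h1 := card_subgroup_dvd_card L
  have h2 := q.ord hx ▸ L.orderOf_dvd_natCard hL
  rw [q.card] at h1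
  have h3 := Nat.le_of_dvd (by norm_num) h1
  have h4 := Nat.card_pos (α := L)
  by_cases h : Nat.card L = 8
  · exact Or.inr (eq_top_of_card_eq _ (h.trans q.card.symm))
  · exact Or.inl (eq_of_le_of_card_ge (zpowers_le.2 hL)
      (by rw [Nat.card_zpowers, q.ord hx]; omega)).symm

lemma free {c : MulAut B} (ho : ¬ 2 ∣ orderOf c) {x : B} (hx : x * x ≠ 1) (h : c x = x) :
    c = 1 := by
  by_contra hc
  obtain ⟨s, k, hs, h1, h2, h3⟩ := exists_prime_pow hc
  have h4 := card_modEq_fixS hs h3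
  rcases q.top hx (L := fixS (c ^ k)) (pow_fix h k) with e | e
  · rw [e, Nat.card_zpowers, q.ord hx, q.card] at h4
    have h5 : s ∣ 2 ^ 2 := (Nat.modEq_iff_dvd' (by norm_num)).1 h4.symm
    exact ho ((Nat.prime_dvd_prime_iff_eq hs Nat.prime_two).1 (hs.dvd_of_dvd_pow h5) ▸ h1)
  · exact h2 (eq_one_of_fix (by rw [e, card_top]))

lemma index_dvd {X : Type*} [Group X] (φ : X →* MulAut B) (ho : ∀ x, ¬ 2 ∣ orderOf (φ x))
    (h2 : ¬ 2 ∣ φ.ker.index) : φ.ker.index ∣ 3 := by
  have h1 := index_dvd_of_free φ {x | x * x ≠ 1}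
    (fun u x hx e => hx (by rwa [← map_mul, MulEquiv.map_eq_one_iff] at e))
    fun u x hx => q.free (ho u) hx
  have h3 : ({x : B | x * x ≠ 1})ᶜ = {1, z} := by
    ext x
    simp only [Set.mem_compl_iff, Set.mem_ofPred_eq, not_not, Set.mem_insert_iff,
      Set.mem_singleton_iff]
    exact ⟨q.inv x, by rintro (rfl | rfl); exacts [one_mul 1, q.sq]⟩
  have h4 := Set.ncard_add_ncard_compl {x : B | x * x ≠ 1}
  rw [h3, Set.ncard_pair q.ne.symm, q.card] at h4
  rw [Nat.card_coe_set_eq, show ({x : B | x * x ≠ 1}).ncard = 2 * 3 by omega] at h1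
  exact (((Nat.Prime.coprime_iff_not_dvd Nat.prime_two).2 h2).symm).dvd_mul_left.1 h1

lemma cube {c : MulAut B} (ho : ¬ 2 ∣ orderOf c) : c ^ 3 = 1 := by
  have e : (zpowers c).subtype.ker.index = orderOf c := by
    rw [ker_subtype, index_bot, Nat.card_zpowers]
  rw [← orderOf_dvd_iff_pow_eq_one, ← e]
  exact q.index_dvd _ (fun x h => ho (h.trans (orderOf_dvd_of_mem_zpowers x.2))) (e ▸ ho)

omit [Finite B] in
lemma inv_eq {x : B} (hx : x * x ≠ 1) : x⁻¹ = x * z := by
  rw [inv_eq_iff_mul_eq_one, ← mul_assoc, q.four x hx, q.sq]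

omit [Finite B] in
lemma mem_cases {x y : B} (hx : x * x ≠ 1) (hy : y ∈ zpowers x) :
    y = 1 ∨ y = x ∨ y = z ∨ y = x⁻¹ := by
  classical
  obtain ⟨k, hk, rfl⟩ := (isOfFinOrder_iff_pow_eq_one.2
    ⟨4, four_pos, q.ord hx ▸ pow_orderOf_eq_one x⟩).mem_zpowers_iff_mem_range_orderOf.1 hy
    |> Finset.mem_image.1
  rw [q.ord hx, Finset.mem_range] at hk
  interval_cases k
  · simp
  · simp
  · simp [pow_two, q.four x hx]
  · simp [pow_succ', q.four x hx, q.inv_eq hx]

lemma gen {a : MulAut B} (ha : a ≠ 1) (h3 : a ^ 3 = 1) :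
    ∃ i : B, i * i = z ∧ a i * a i = z ∧ a i * i * (a i)⁻¹ = i⁻¹ ∧ a (a i) = a i * i ∧
      ∀ L : Subgroup B, i ∈ L → a i ∈ L → L = ⊤ := by
  have ho : orderOf a = 3 := orderOf_eq_prime h3 ha
  have sa : ∀ x, x * x ≠ 1 → a x * a x ≠ 1 := fun x hx e =>
    hx (by rwa [← map_mul, MulEquiv.map_eq_one_iff] at e)
  have n1 : ∀ x, x * x ≠ 1 → a x ∉ zpowers x := fun x hx h => by
    rcases q.mem_cases hx h with e | e | e | e
    · exact sa x hx (by rw [e, one_mul])
    · exact ha (q.free (by rw [ho]; norm_num) hx e)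
    · exact sa x hx (by rw [e, q.sq])
    · have := orderOf_dvd_of_pow_eq_one (q.free (c := a ^ 2) (fun h => absurd
        (h.trans (ho ▸ orderOf_pow_dvd 2)) (by norm_num)) hx
        (by rw [pow_two, MulAut.mul_apply, e, map_inv, e, inv_inv]))
      rw [ho] at this
      norm_num at this
  have main : ∀ i, i * i ≠ 1 → a i * i * (a i)⁻¹ = i⁻¹ ∧
      (a (a i) = a i * i ∨ a (a i) = a i * i⁻¹) := fun i hi => by
    have hj := sa i hi
    have hk := sa _ hj
    have e3 : a (a (a i)) = i := by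
      have := DFunLike.congr_fun h3 i
      rwa [pow_three, MulAut.mul_apply, MulAut.mul_apply] at this
    constructor
    · have h1 : a i * i * (a i * i) ≠ 1 := fun e => n1 i hi (by
        rcases q.inv _ e with e | e
        · rw [eq_inv_of_mul_eq_one_left e]; exact inv_mem (mem_zpowers i)
        · rw [← q.four i hi, mul_left_inj] at e
          rw [e]; exact mem_zpowers i)
      have h2 := q.four _ h1
      rw [← q.four i hi, ← mul_assoc, mul_left_inj] at h2
      rw [q.inv_eq hj, q.inv_eq hi, ← mul_assoc, h2]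
    · have hi2 : (zpowers i).index = 2 := Nat.eq_of_mul_eq_mul_right four_pos (by
        rw [← q.ord hi, ← Nat.card_zpowers, index_mul_card, q.card, Nat.card_zpowers, q.ord hi])
      have n2 : a (a i) ∉ zpowers i := fun h => n1 _ hk (by
        rw [e3, ← (q.top hk h).resolve_right fun e => n1 i hi (e ▸ mem_top _)]
        exact mem_zpowers i)
      have h1 : (a i)⁻¹ * a (a i) ∈ zpowers i := (mul_mem_iff_of_index_two hi2).2
        (by simp [n1 i hi, n2])
      rcases q.mem_cases hi h1 with e | e | e | e <;> rw [inv_mul_eq_iff_eq_mul] at e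
      · exact absurd (by rw [e, mul_one]; exact mem_zpowers _) (n1 _ hj)
      · exact Or.inl e
      · exact absurd (by rw [e, ← q.inv_eq hj]; exact inv_mem (mem_zpowers _)) (n1 _ hj)
      · exact Or.inr e
  obtain ⟨i, hi⟩ : ∃ i : B, i * i ≠ 1 := by
    by_contra! h
    have h1 : (Set.univ : Set B) ⊆ {1, z} := fun x _ => q.inv x (h x)
    have h2 := Set.ncard_le_ncard h1
    rw [Set.ncard_univ, Set.ncard_pair q.ne.symm, q.card] at h2
    norm_num at h2
  obtain ⟨i, hi, e⟩ : ∃ i : B, i * i ≠ 1 ∧ a (a i) = a i * i := by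
    obtain ⟨e1, e | e⟩ := main i hi
    · exact ⟨i, hi, e⟩
    · refine ⟨i⁻¹, by rwa [← mul_inv_rev, inv_ne_one], ?_⟩
      rw [map_inv, map_inv, e, mul_inv_rev, inv_inv, ← e1]
      group
  exact ⟨i, q.four i hi, q.four _ (sa i hi), (main i hi).1, e, fun L h1 h2 =>
    (q.top hi h1).resolve_left fun e => n1 i hi (e ▸ h2)⟩

end Quat

omit [Finite B] in
lemma exists_quat_hom {i j : B} (h4 : i * i * (i * i) = 1) (hj : j * j = i * i)
    (hij : j * i * j⁻¹ = i⁻¹) :
    ∃ f : QuaternionGroup 2 →* B, f (QuaternionGroup.a 1) = i ∧ f (QuaternionGroup.xa 0) = j := by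
  obtain ⟨χ, hχ⟩ := exists_char (2 * 2) i (orderOf_dvd_of_pow_eq_one
    (by rw [pow_mul, pow_two, pow_two, h4]))
  let c : ZMod (2 * 2) → B := fun m => χ (Multiplicative.ofAdd m)
  have add : ∀ m n, c (m + n) = c m * c n := fun m n => map_mul χ _ _
  have neg : ∀ m, c m * j = j * c (-m) := fun m => by
    obtain ⟨k, hk⟩ := exists_pow_zmod (by norm_num) (Multiplicative.ofAdd m)
    have e : c (-m) = (c m)⁻¹ := map_inv χ _
    rw [e]
    simp only [c]
    have e3 : j * i⁻¹ * j⁻¹ = i := by simpa [mul_assoc] using congrArg (·⁻¹) hij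
    rw [hk, map_pow, hχ, ← eq_mul_inv_iff_mul_eq, ← inv_pow, ← conj_pow, e3]
  have two : j * j = c 2 := by
    rw [hj, ← hχ, ← map_mul]; rfl
  refine ⟨MonoidHom.mk' (fun x => match x with
    | .a m => c m
    | .xa m => j * c m) ?_, hχ, (congrArg (j * ·) (map_one χ)).trans (mul_one j)⟩
  rintro (m | m) (n | n)
  · exact add m n
  · change j * c (n - m) = c m * (j * c n)
    rw [← mul_assoc, neg, mul_assoc, ← add, neg_add_eq_sub]
  · change j * c (m + n) = j * c m * c n
    rw [add, mul_assoc]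
  · change c (((2 : ℕ) : ZMod (2 * 2)) + n - m) = j * c m * (j * c n)
    rw [← mul_assoc, mul_assoc j, neg, ← mul_assoc, two, ← add, ← add]
    congr 1
    push_cast
    ring

lemma beta_quat {z : B} {z' : B'} (q : Quat B z) (q' : Quat B' z') {X : Type*} [Group X]
    (φ : X →* MulAut B) (ψ : X →* MulAut B') (hk : ∀ x, φ x = 1 ↔ ψ x = 1)
    (hi : φ.ker.index = 3) : ∃ β : B ≃* B', ∀ x b, β (φ x b) = ψ x (β b) := by
  obtain ⟨w, -, hw⟩ := SetLike.exists_of_lt (lt_top_iff_ne_top.2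
    (fun e => by rw [e, index_top] at hi; norm_num at hi : φ.ker ≠ ⊤))
  have h3 : φ (w ^ 3) = 1 := hi ▸ φ.ker.pow_index_mem w
  obtain ⟨i, a1, a2, a3, a4, a5⟩ := q.gen hw (by rw [← map_pow, h3])
  obtain ⟨i', b1, b2, b3, b4, b5⟩ := q'.gen (mt (hk w).2 hw) (by rw [← map_pow, ← hk, h3])
  obtain ⟨f, f1, f2⟩ := exists_quat_hom (by rw [a1, q.sq]) (a2.trans a1.symm) a3
  obtain ⟨f', g1, g2⟩ := exists_quat_hom (by rw [b1, q'.sq]) (b2.trans b1.symm) b3
  have c8 : Nat.card (QuaternionGroup 2) = 8 := by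
    rw [Nat.card_eq_fintype_card, QuaternionGroup.card]
  obtain ⟨β, hβ⟩ := iso_of_gen f f' (MonoidHom.range_eq_top.1 (a5 _ ⟨_, f1⟩ ⟨_, f2⟩))
    (MonoidHom.range_eq_top.1 (b5 _ ⟨_, g1⟩ ⟨_, g2⟩)) (by rw [c8, q.card]) (by rw [c8, q'.card])
  have e1 : β i = i' := by rw [← f1, hβ, g1]
  have e2 : β (φ w i) = ψ w i' := by rw [← f2, hβ, g2]
  have m : w ∈ agree φ ψ β := mem_agree.2 fun b =>
    ((a5 ((β.toMonoidHom.comp (φ w).toMonoidHom).eqLocus ((ψ w).toMonoidHom.comp β.toMonoidHom))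
      (e2.trans (congrArg _ e1.symm)) (by
        change β (φ w (φ w i)) = ψ w (β (φ w i))
        rw [a4, e2, b4, map_mul, e1, e2])).ge (mem_top b) :)
  have hle : φ.ker ≤ agree φ ψ β := fun x hx => mem_agree_of_ker hx ((hk x).1 hx)
  have ht : agree φ ψ β = ⊤ := index_eq_one.1
    (((Nat.dvd_prime Nat.prime_three).1 (hi ▸ index_dvd_of_le hle)).resolve_right fun e => by
      have := relIndex_mul_index hle
      rw [e, hi, mul_eq_right₀ (by norm_num), relIndex_eq_one] at this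
      exact hw (this m))
  exact ⟨β, fun x => mem_agree.1 (ht ▸ mem_top x)⟩

end T

end Pool.Agent.Lib.MP_cb9dee_al
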