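import Pool.Agent.Lib.MP_cb9dee_al.TBase

namespace Pool.Agent.Lib.MP_cb9dee_al

namespace T

open Subgroup

variable {X : Type} [Group X] [Finite X]

lemma eq_top_of_sys (A : Sys X) {L : Subgroup X}
    (h : ∀ r, r.Prime → r ∣ Nat.card X → ∀ x ∈ A.R r, x ∈ L) : L = ⊤ := by
  rw [eq_top_iff, ← A.hall_top]
  exact iSup₂_le fun r hr =>
    h r (Nat.prime_of_mem_primeFactors hr) (Nat.dvd_of_mem_primeFactors hr)

lemma sys_auto (A : Sys X) (δ : ∀ r, MulAut (A.R r : Subgroup X))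
    (h : ∀ r s, r.Prime → s.Prime → r ∣ Nat.card X → s ∣ Nat.card X → r ≠ s →
      Compat (δ r) (δ s) ∨ Compat (δ s) (δ r)) :
    ∃ θ : X ≃* X, ∀ r, r.Prime → r ∣ Nat.card X → ∀ x : (A.R r : Subgroup X), θ x = δ r x := by
  obtain ⟨θ, hθ⟩ := glue (Nat.card X).primeFactors (fun r => (A.R r : Subgroup X))
    (fun r => (A.R r : Subgroup X)) δ A.hall_top A.hall_top
    (Nat.le_of_dvd Nat.card_pos (card_top (G := X) ▸ prod_card_dvd_card _ _ ⊤
      (fun _ _ => le_top) fun p hp q hq h => coprime_card_sylow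
        (Nat.prime_of_mem_primeFactors hp) (Nat.prime_of_mem_primeFactors hq) h _ _)) rfl
    fun r hr s hs => h r s (Nat.prime_of_mem_primeFactors hr) (Nat.prime_of_mem_primeFactors hs)
      (Nat.dvd_of_mem_primeFactors hr) (Nat.dvd_of_mem_primeFactors hs)
  exact ⟨θ, fun r hr hd => hθ r (Nat.mem_primeFactors.2 ⟨hr, hd, Nat.card_pos.ne'⟩)⟩

lemma central_of_sys (A : Sys X) {z : X}
    (h : ∀ r, r.Prime → r ∣ Nat.card X → ∀ x ∈ A.R r, x * z = z * x) (x : X) : x * z = z * x :=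
  mem_centralizer_singleton_iff.1 ((eq_top_of_sys A (L := centralizer {z}) fun r hr hd x hx =>
    mem_centralizer_singleton_iff.2 (h r hr hd x hx)) ▸ mem_top x)

lemma acted_of_not_comm (A : Sys X) (hs : Small (Nat.card X)) {p q : ℕ} (hp : A.PP p)
    (hq : A.NN q) {x y : X} (hx : x ∈ A.R q) (hy : y ∈ A.R p) (h : x * y ≠ y * x) :
    p ∈ Acted q (Nat.card X) := by
  simpa using (acted_of_ne A hs hp hq hx 0 fun e =>
    h ((isCj_cjN hp.2.2.2 x).eq_one_iff.1 (by simpa using e) y hy)).2.2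

lemma not_comm_cases (A : Sys X) (h2 : ¬ 2 ∣ Nat.card X) (hs : Small (Nat.card X)) {q r : ℕ}
    (hq : q.Prime) (hr : r.Prime) (dq : q ∣ Nat.card X) (dr : r ∣ Nat.card X) {x y : X}
    (hx : x ∈ A.R q) (hy : y ∈ A.R r) (h : x * y ≠ y * x) :
    (A.NN q ∧ A.PP r ∧ r ∈ Acted q (Nat.card X)) ∨
      (A.PP q ∧ A.NN r ∧ q ∈ Acted r (Nat.card X)) := by
  have q2 : q ≠ 2 := fun e => h2 (e ▸ dq)
  have r2 : r ≠ 2 := fun e => h2 (e ▸ dr)
  by_cases nq : (A.R q : Subgroup X).Normal <;> by_cases nr : (A.R r : Subgroup X).Normal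
  · exact absurd (comm_of_normal hq hr hs _ _ nq nr hx hy) h
  · exact Or.inr ⟨⟨hq, q2, dq, nq⟩, ⟨hr, r2, nr⟩,
      acted_of_not_comm A hs ⟨hq, q2, dq, nq⟩ ⟨hr, r2, nr⟩ hy hx (Ne.symm h)⟩
  · exact Or.inl ⟨⟨hq, q2, nq⟩, ⟨hr, r2, dr, nr⟩,
      acted_of_not_comm A hs ⟨hr, r2, dr, nr⟩ ⟨hq, q2, nq⟩ hx hy h⟩
  · exact absurd (A.hcomm q r hq hr q2 r2 nq nr x hx y hy) h

lemma sq_cases (A : Sys X) (h2 : ¬ 2 ∣ Nat.card X) (hs : Small (Nat.card X)) {q r : ℕ}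
    (hq : q.Prime) (hq2 : q ^ 2 ∣ Nat.card X) (hq1 : q + 1 ∣ 2 ^ 3)
    (h7 : ∀ p, p.Prime → p ^ 2 ∣ Nat.card X → ¬ q ∣ p + 1)
    (hr : r.Prime) (dr : r ∣ Nat.card X) {x y : X}
    (hx : x ∈ A.R q) (hy : y ∈ A.R r) (h : x * y ≠ y * x) :
    A.PP r ∧ Nat.card (A.R r : Subgroup X) = r ∧ q ∣ r - 1 := by
  have dq : q ∣ Nat.card X := (dvd_pow_self q two_ne_zero).trans hq2
  rcases not_comm_cases A h2 hs hq hr dq dr hx hy h with ⟨a, b, -, c⟩ | ⟨a, b, -, c⟩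
  · have := Fact.mk hr
    have c' := c.resolve_right fun c => h7 r hr c.1 c.2
    exact ⟨b, (card_sylow_cases hs (A.R r) dr).resolve_right fun e => hs.2 r q hr hq a.2.1 dq
      (e ▸ card_subgroup_dvd_card (A.R r : Subgroup X)) c'.2, c'.2⟩
  · rcases c with c | c
    · exact absurd c.2 (hs.2 q r hq hr b.2.1 dr hq2)
    · exact absurd ((Nat.prime_dvd_prime_iff_eq hr Nat.prime_two).1
        (hr.dvd_of_dvd_pow (c.2.trans hq1))) b.2.1

lemma not_dvd_card_inf {K K' : Subgroup X} [K.Normal] [K'.Normal] {q : ℕ} (hq : q.Prime)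
    (hK : K.index = q) (hK' : K'.index = q) (h : K ≠ K') (h3 : ¬ q ^ 3 ∣ Nat.card X) :
    q ^ 2 ∣ Nat.card X ∧ ∀ x k, x ^ q ^ k = 1 → x ∈ K → x ∈ K' → x = 1 := by
  have h1 : (K ⊓ K').index = q ^ 2 := by
    rw [← relIndex_mul_index (inf_le_left : K ⊓ K' ≤ K), hK, inf_relIndex_left, pow_two]
    congr 1
    refine ((Nat.dvd_prime hq).1 (hK' ▸ relIndex_dvd_index_of_normal K' K)).resolve_left fun e =>
      h (eq_of_le_of_card_ge (relIndex_eq_one.1 e) (le_of_eq ?_))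
    exact Nat.eq_of_mul_eq_mul_left hq.pos (by
      rw [← hK', index_mul_card, hK', ← hK, index_mul_card])
  refine ⟨h1 ▸ index_dvd_card _, fun x k hx a b => orderOf_eq_one_iff.1
    (Nat.eq_one_of_dvd_coprimes (((Nat.Prime.coprime_iff_not_dvd hq).2 fun e => h3 ?_).pow_left k)
      (orderOf_dvd_of_pow_eq_one hx) (Subgroup.orderOf_dvd_natCard (K ⊓ K') ⟨a, b⟩))⟩
  rw [← index_mul_card (K ⊓ K'), h1, pow_succ _ 2]
  exact Nat.mul_dvd_mul_left _ e

lemma central_move {K K' : Subgroup X} {q : ℕ} (hq : q.Prime)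
    (hK : K.index = q) (hK' : K'.index = q) {z : X} (hz : z ^ q = 1) (hc : ∀ x, x * z = z * x)
    (h : z ∉ K) (h' : z ∉ K') : ∃ θ : X ≃* X, ∀ x, x ∈ K ↔ θ x ∈ K' := by
  have ho : orderOf z = q := ((Nat.dvd_prime hq).1 (orderOf_dvd_of_pow_eq_one hz)).resolve_left
    fun e => h (orderOf_eq_one_iff.1 e ▸ one_mem K)
  have hcz : ∀ b ∈ zpowers z, ∀ x, x * b * x⁻¹ = b := by
    rintro _ ⟨k, rfl⟩ x
    rw [(Commute.zpow_right (hc x) k).eq, mul_inv_cancel_right]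
  have : (zpowers z).Normal := ⟨fun b hb x => by rwa [hcz b hb]⟩
  have key : ∀ L : Subgroup X, L.index = q → z ∉ L → (zpowers z).IsComplement' L := fun L hL hz =>
    isComplement'_of_card_mul_and_disjoint
      (by rw [Nat.card_zpowers, ho, ← hL, index_mul_card]) (disjoint_def.2 fun {x} hx hx' => by
        by_contra e
        exact hz (((eq_zpowers_of_mem hq ((Nat.card_zpowers z).trans ho) hx e).1.symm.le.trans
          (zpowers_le.2 hx')) (mem_zpowers z)))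
  obtain ⟨θ, hθ, -⟩ := glue2 (key K hK h) (key K' hK' h')
    ((key K hK h).symm.QuotientMulEquiv.symm.trans (key K' hK' h').symm.QuotientMulEquiv)
    (MulEquiv.refl _) fun x b => Subtype.ext (by
      rw [MulEquiv.refl_apply, MulEquiv.refl_apply, act_coe, act_coe, hcz _ b.2, hcz _ b.2])
  refine ⟨θ, fun x => ⟨fun hx => (hθ ⟨x, hx⟩).symm ▸ SetLike.coe_mem _, fun hx => ?_⟩⟩
  obtain ⟨k, hk⟩ := ((key K hK h).symm.QuotientMulEquiv.symm.trans
    (key K' hK' h').symm.QuotientMulEquiv).surjective ⟨_, hx⟩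
  rw [θ.injective ((congrArg Subtype.val hk).symm.trans (hθ k).symm)]
  exact k.2

omit [Finite X] in
lemma exists_not_mem_two {D K K' : Subgroup X} (h : ¬ D ≤ K) (h' : ¬ D ≤ K') :
    ∃ z ∈ D, z ∉ K ∧ z ∉ K' := by
  obtain ⟨a, ha, ha'⟩ := SetLike.not_le_iff_exists.1 h
  obtain ⟨b, hb, hb'⟩ := SetLike.not_le_iff_exists.1 h'
  by_cases e : a ∈ K'
  · by_cases e' : b ∈ K
    · exact ⟨a * b, mul_mem ha hb, fun k => ha' ((mul_mem_cancel_right e').1 k),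
        fun k => hb' ((mul_mem_cancel_left e).1 k)⟩
    · exact ⟨b, hb, e', hb'⟩
  · exact ⟨a, ha, ha', e⟩

lemma sylow_not_le {K : Subgroup X} {q : ℕ} (hq : q.Prime) (hK : q ∣ K.index) (W : Sylow q X) :
    ¬ (W : Subgroup X) ≤ K := fun h => by
  have := Fact.mk hq
  exact W.not_dvd_index (hK.trans (index_dvd_of_le h))

/-- Inversion on a commutative subgroup. -/
def invAut (W : Subgroup X) (h : ∀ x ∈ W, ∀ y ∈ W, x * y = y * x) : MulAut W where
  toFun x := x⁻¹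
  invFun x := x⁻¹
  left_inv := inv_inv
  right_inv := inv_inv
  map_mul' x y := by rw [mul_inv_rev]; exact Subtype.ext (h _ (inv_mem y.2) _ (inv_mem x.2))

lemma move_seven (h2 : ¬ 2 ∣ Nat.card X) (hn : Full (8 * Nat.card X)) {K K' : Subgroup X}
    [K.Normal] [K'.Normal] (hK : K.index = 7) (hK' : K'.index = 7) :
    ∃ θ : X ≃* X, ∀ x, x ∈ K ↔ θ x ∈ K' := by
  by_cases h : K = K'
  · exact ⟨MulEquiv.refl X, fun x => h ▸ Iff.rfl⟩
  have p7 : Nat.Prime 7 := by norm_num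
  have := Fact.mk p7
  have hc := (hn.of_dvd (dvd_mul_left _ _)).cond fun e => h2 (dvd_trans (by norm_num) e)
  have hs : Small (Nat.card X) := ⟨hc.1, hc.2.1⟩
  obtain ⟨A⟩ := exists_sys (G := X) (fun e => h2 (dvd_trans (by norm_num) e)) hs
  obtain ⟨h49, hY⟩ := not_dvd_card_inf p7 hK hK' h (hs.1 7 p7)
  obtain ⟨z, hz, k, k'⟩ := exists_not_mem_two (sylow_not_le p7 hK.symm.dvd (A.R 7))
    (sylow_not_le p7 hK'.symm.dvd (A.R 7))
  refine central_move p7 hK hK' (hY _ _ (pow_eq_one_of_mem_sylow (A.R 7) (pow_mem hz 7))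
    (hK ▸ K.pow_index_mem z) (hK' ▸ K'.pow_index_mem z)) (central_of_sys A fun r hr dr x hx => ?_) k k'
  by_contra e
  have c4 := hn.2.2.2.2.2.1 (Dvd.dvd.mul_right (by norm_num) _)
  exact (hn.2.2.2.2.2.2 (dvd_mul_right _ _)).2.2.2.2
    (((dvd_pow_self 7 two_ne_zero).trans h49).mul_left 8) r hr (dr.mul_left 8)
    (sq_cases A h2 hs p7 h49 (by norm_num) (fun p hp hp2 => c4.2.2.2.1 p 7 hp p7
      (fun e => h2 (e ▸ (dvd_pow_self p two_ne_zero).trans hp2)) (by norm_num) (hp2.mul_left 8)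
      (h49.mul_left 8)) hr dr hz hx (Ne.symm e)).2.2

lemma three_aux (A : Sys X) (h2 : ¬ 2 ∣ Nat.card X) (hn : Full (4 * Nat.card X))
    (hs : Small (Nat.card X)) {K K' : Subgroup X} [K.Normal] [K'.Normal] (hK : K.index = 3)
    (hK' : K'.index = 3) (h : K ≠ K')
    (hc : Nat.card {x : X // x ^ 3 = 1 ∧ x ∈ K} = Nat.card {x : X // x ^ 3 = 1 ∧ x ∈ K'}) :
    ¬ (A.R 3 : Subgroup X) ⊓ center X ≤ K := by
  intro hD
  have p3 := Nat.prime_three
  have := Fact.mk p3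
  obtain ⟨h9, hY⟩ := not_dvd_card_inf p3 hK hK' h (hs.1 3 p3)
  have hW : ∀ x ∈ A.R 3, x ^ 3 = 1 := fun x hx =>
    hY _ _ (pow_eq_one_of_mem_sylow (A.R 3) (pow_mem hx 3)) (hK ▸ K.pow_index_mem x)
      (hK' ▸ K'.pow_index_mem x)
  have c4 := hn.2.2.2.2.2.1 (dvd_mul_right _ _)
  have cases := fun r hr dr x y hx hy e => sq_cases A h2 hs p3 h9 (by norm_num)
    (fun p hp hp2 => c4.2.2.2.1 p 3 hp p3
      (fun e => h2 (e ▸ (dvd_pow_self p two_ne_zero).trans hp2)) (by norm_num) (hp2.mul_left 4)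
      (h9.mul_left 4)) (r := r) hr dr (x := x) (y := y) hx hy e
  by_cases hp : ∃ r, r.Prime ∧ r ∣ Nat.card X ∧ ∃ x ∈ A.R 3, ∃ y ∈ A.R r, x * y ≠ y * x
  swap
  · push Not at hp
    exact sylow_not_le p3 hK.symm.dvd (A.R 3) fun x hx => hD ⟨hx, mem_center_iff.2
      (central_of_sys A fun r hr dr y hy => (hp r hr dr x hx y hy).symm)⟩
  obtain ⟨p, hp, dp, x0, hx0, y0, hy0, e0⟩ := hp
  obtain ⟨pp, cp, d3⟩ := cases p hp dp x0 y0 hx0 hy0 e0
  have cent : ∀ x ∈ A.R 3, (∀ y ∈ A.R p, x * y = y * x) → x ∈ center X := fun x hx hx' =>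
    mem_center_iff.2 (central_of_sys A fun r hr dr y hy => by
      by_contra e
      obtain rfl : r = p := hn.2.2.2.1 (((dvd_pow_self 3 two_ne_zero).trans h9).mul_left 4)
        ⟨hr, dr.mul_left 4, (cases r hr dr x y hx hy (Ne.symm e)).2.2⟩ ⟨hp, dp.mul_left 4, d3⟩
      exact e (hx' y hy).symm)
  have cW : Nat.card (A.R 3 : Subgroup X) = 3 ^ 2 :=
    Nat.dvd_antisymm (card_sylow_dvd hs _) ((A.R 3).pow_dvd_card_of_pow_dvd_card h9)
  obtain ⟨u, hu, hu1, huc⟩ : ∃ u ∈ A.R 3, u ≠ 1 ∧ u ∈ center X := by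
    by_contra! hu
    have := Fact.mk hp
    have := pp.2.2.2
    have := isCyclic_of_prime_card cp
    have h1 : IsCyclic (ZMod (Nat.card (A.R p : Subgroup X)))ˣ :=
      cp.symm ▸ ZMod.isCyclic_units_prime hp
    have h3 := (IsCyclic.mulAutMulEquiv (A.R p : Subgroup X)).isCyclic.2 h1
    have h4 := isCyclic_of_injective (act (A.R p : Subgroup X) (A.R 3))
      ((injective_iff_map_eq_one _).2 fun x hx => by
        by_contra e
        exact hu x x.2 (fun e' => e (Subtype.ext e'))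
          (cent x x.2 ((act_isCj _ _ x).eq_one_iff.1 hx)))
    obtain ⟨g, hg⟩ := IsCyclic.exists_ofOrder_eq_natCard (α := (A.R 3 : Subgroup X))
    have h5 : orderOf g ∣ 3 := orderOf_dvd_of_pow_eq_one (Subtype.ext (hW g g.2))
    rw [hg, cW] at h5
    norm_num at h5
  have ord : ∀ v ∈ A.R 3, v ≠ 1 → Nat.card (zpowers v) = 3 := fun v hv hv1 => by
    rw [Nat.card_zpowers, orderOf_eq_prime (hW v hv) hv1]
  have c3 : Nat.card {x : X // x ^ 3 = 1 ∧ x ∈ K} = 3 := by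
    refine Eq.trans ?_ (ord u hu hu1)
    refine Nat.card_congr (Equiv.subtypeEquivRight fun x => ⟨fun hx => ?_, fun hx => ?_⟩)
    · obtain ⟨c, hc⟩ := exists_conj_mem_sylow (A.R 3) (k := 1) (y := x) (by simpa using hx.1)
      have k1 : c * x * c⁻¹ ∈ zpowers u := by
        by_contra k1
        have k2 := eq_top_of_two p3 cW (a := ⟨u, hu⟩) (b := ⟨_, hc⟩)
          (by rw [← Subgroup.orderOf_coe, ← Nat.card_zpowers]; exact ord u hu hu1)
          (fun ⟨k, hk⟩ => k1 ⟨k, congrArg Subtype.val hk⟩) (L := K.subgroupOf (A.R 3))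
          (hD ⟨hu, huc⟩) (Normal.conj_mem inferInstance x hx.2 c)
        exact sylow_not_le p3 hK.symm.dvd (A.R 3) (subgroupOf_eq_top.1 k2)
      have k3 := mem_center_iff.1 (zpowers_le.2 huc k1) c⁻¹
      rw [show c⁻¹ * (c * x * c⁻¹) = x * c⁻¹ by group, mul_left_inj] at k3
      exact k3 ▸ k1
    · exact ⟨hW x (zpowers_le (H := (A.R 3 : Subgroup X)).2 hu hx),
        zpowers_le.2 (hD ⟨hu, huc⟩) hx⟩
  rw [hc] at c3
  have : Nontrivial {x : X // x ^ 3 = 1 ∧ x ∈ K'} :=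
    Finite.one_lt_card_iff_nontrivial.1 (by rw [c3]; norm_num)
  obtain ⟨⟨x, hx⟩, hx1⟩ := exists_ne (⟨1, by simp⟩ : {x : X // x ^ 3 = 1 ∧ x ∈ K'})
  obtain ⟨c, hv⟩ := exists_conj_mem_sylow (A.R 3) (k := 1) (y := x) (by simpa using hx.1)
  have hv' : c * x * c⁻¹ ∈ K' := Normal.conj_mem inferInstance x hx.2 c
  have hv1 : c * x * c⁻¹ ≠ 1 := fun e => hx1 (Subtype.ext (by simpa using e))
  generalize c * x * c⁻¹ = v at hv hv' hv1
  have hset : (zpowers v : Set X) = {x : X | x ^ 3 = 1 ∧ x ∈ K'} := by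
    refine Set.eq_of_subset_of_ncard_le (fun y hy => ⟨hW y
      (zpowers_le (H := (A.R 3 : Subgroup X)).2 hv hy), zpowers_le.2 hv' hy⟩) ?_
    rw [← Nat.card_coe_set_eq, ← Nat.card_coe_set_eq]
    exact (c3.trans (ord v hv hv1).symm).le
  have hN : (zpowers v).Normal := ⟨fun y hy g => by
    rw [← SetLike.mem_coe, hset] at hy ⊢
    exact ⟨by rw [conj_pow, hy.1]; simp, Normal.conj_mem inferInstance y hy.2 g⟩⟩
  have p3' : p ≠ 3 := by rintro rfl; norm_num at d3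
  refine hv1 (hY v 1 (by simpa using hW v hv) (hD ⟨hv, cent v hv fun y hy => ?_⟩) hv')
  exact commute_of_normal_of_disjoint _ _ hN pp.2.2.2 (disjoint_def.2 (eq_one_of_coprime (by
    rw [ord v hv hv1, cp]; exact (Nat.coprime_primes p3 hp).2 p3'.symm))) v y (mem_zpowers v) hy

lemma move_three (h2 : ¬ 2 ∣ Nat.card X) (hn : Full (4 * Nat.card X)) {K K' : Subgroup X}
    [K.Normal] [K'.Normal] (hK : K.index = 3) (hK' : K'.index = 3)
    (hc : Nat.card {x : X // x ^ 3 = 1 ∧ x ∈ K} = Nat.card {x : X // x ^ 3 = 1 ∧ x ∈ K'}) :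
    ∃ θ : X ≃* X, ∀ x, x ∈ K ↔ θ x ∈ K' := by
  by_cases h : K = K'
  · exact ⟨MulEquiv.refl X, fun x => h ▸ Iff.rfl⟩
  have p3 := Nat.prime_three
  have := Fact.mk p3
  have hc' := (hn.of_dvd (dvd_mul_left _ _)).cond fun e => h2 (dvd_trans (by norm_num) e)
  have hs : Small (Nat.card X) := ⟨hc'.1, hc'.2.1⟩
  obtain ⟨A⟩ := exists_sys (G := X) (fun e => h2 (dvd_trans (by norm_num) e)) hs
  obtain ⟨z, hz, k, k'⟩ := exists_not_mem_two (three_aux A h2 hn hs hK hK' h hc)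
    (three_aux A h2 hn hs hK' hK (Ne.symm h) hc.symm)
  exact central_move p3 hK hK' ((not_dvd_card_inf p3 hK hK' h (hs.1 3 p3)).2 _ _
    (pow_eq_one_of_mem_sylow (A.R 3) (pow_mem hz.1 3)) (hK ▸ K.pow_index_mem z)
    (hK' ▸ K'.pow_index_mem z)) (mem_center_iff.1 hz.2) k k'

omit [Finite X] in
lemma compat_of_comm {P Q : Subgroup X} (h : ∀ x ∈ P, ∀ y ∈ Q, x * y = y * x) (δ : MulAut P)
    (ε : MulAut Q) : Compat δ ε := fun x y =>
  ⟨y, by rw [h _ x.2 _ y.2, mul_inv_cancel_right],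
    by rw [h _ (δ x).2 _ (ε y).2, mul_inv_cancel_right]⟩

omit [Finite X] in
lemma compat_one {P Q : Subgroup X} (h : Nm P Q) : Compat (1 : MulAut P) (1 : MulAut Q) :=
  fun x y => ⟨⟨_, h _ x.2 _ y.2⟩, rfl, rfl⟩

lemma invert_seven (A : Sys X) (h2 : ¬ 2 ∣ Nat.card X) (hn : Full (8 * Nat.card X))
    (h7 : 7 ∣ Nat.card X) : ∃ θ : X ≃* X, ∀ y ∈ A.R 7, θ y = y⁻¹ := by
  classical
  have p7 : Nat.Prime 7 := by norm_num
  have hc := (hn.of_dvd (dvd_mul_left _ _)).cond fun e => h2 (dvd_trans (by norm_num) e)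
  have hs : Small (Nat.card X) := ⟨hc.1, hc.2.1⟩
  have comm : ∀ r, r.Prime → ∀ x ∈ (A.R r : Subgroup X), ∀ y ∈ (A.R r : Subgroup X),
      x * y = y * x := fun r hr x hx y hy => by
    have := Fact.mk hr
    exact sylow_comm hs _ hx hy
  by_cases hN : (A.R 7 : Subgroup X).Normal
  · let δ : ∀ r, MulAut (A.R r : Subgroup X) := fun r =>
      if h : r = 7 then invAut _ (comm r (h ▸ p7)) else 1
    have key : ∀ r, r ≠ 7 → Compat (δ r) (δ 7) := fun r hr x y =>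
      ⟨⟨_, hN.conj_mem _ y.2 x⟩, rfl, by simp [δ, hr, invAut, mul_assoc]⟩
    obtain ⟨θ, hθ⟩ := sys_auto A δ fun r s hr hs _ _ hrs => by
      by_cases e : s = 7
      · subst e; exact Or.inl (key r hrs)
      by_cases e' : r = 7
      · subst e'; exact Or.inr (key s e)
      simp only [δ, dif_neg e, dif_neg e']
      exact (A.nm hr hs hrs).imp compat_one compat_one
    exact ⟨θ, fun y hy => by simpa [δ, invAut] using hθ 7 p7 h7 ⟨y, hy⟩⟩
  have c4 := hn.2.2.2.2.2.1 (Dvd.dvd.mul_right (by norm_num) _)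
  have c8 := hn.2.2.2.2.2.2 (dvd_mul_right _ _)
  obtain ⟨p, hp, dp, x0, hx0, y0, hy0, e0⟩ :
      ∃ r, r.Prime ∧ r ∣ Nat.card X ∧ ∃ x ∈ A.R 7, ∃ y ∈ A.R r, x * y ≠ y * x := by
    by_contra! h
    exact hN ⟨fun x hx g => by
      rwa [central_of_sys A (fun r hr dr y hy => (h r hr dr x hx y hy).symm) g,
        mul_inv_cancel_right]⟩
  obtain ⟨n7, pp, a7⟩ := (not_comm_cases A h2 hs p7 hp h7 dp hx0 hy0 e0).resolve_right
    fun h => hN h.1.2.2.2
  have := Fact.mk hp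
  have sq := (a7.2.resolve_left fun h => c8.2.2.2.2 (h7.mul_left 8) p hp (dp.mul_left 8) h.2).1
  obtain ⟨-, -, -, -, -, -, hρ⟩ := mod_step (⟨fun _ _ => rfl, rfl,
    fun e => h2 (dvd_trans (by norm_num) e), hs⟩ : Ctx X X) A A pp
  obtain ⟨ρ, -, hρ⟩ := hρ
    (Nat.dvd_antisymm (card_sylow_dvd hs _) ((A.R p).pow_dvd_card_of_pow_dvd_card sq))
  let I : ℕ → Prop := fun q => A.NN q ∧ ∃ x ∈ A.R q, ∃ y ∈ A.R p, x * y ≠ y * x
  have hI : ∀ q s, I q → s.Prime → s ∣ Nat.card X → s ≠ p →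
      ∀ x ∈ (A.R q : Subgroup X), ∀ y ∈ (A.R s : Subgroup X), x * y = y * x := by
    rintro q s ⟨nq, x1, hx1, y1, hy1, e1⟩ hs' ds hsp x hx y hy
    by_contra e
    obtain ⟨-, ps, as⟩ := (not_comm_cases A h2 hs nq.1 hs' nq.dvd ds hx hy e).resolve_right
      fun h => nq.2.2 h.1.2.2.2
    have ap := acted_of_not_comm A hs pp nq hx1 hy1 e1
    by_cases h3 : q = 3
    · subst h3
      have k : ∀ t, A.PP t → t ∈ Acted 3 (Nat.card X) →
          t.Prime ∧ t ^ 2 ∣ 8 * Nat.card X ∧ 12 ∣ t + 1 := by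
        rintro t pt ⟨ht, h | h⟩
        · obtain rfl : t = 7 := hc.2.2.2.1 nq.dvd ⟨ht, h⟩ ⟨p7, h7, by norm_num⟩
          exact absurd pt.2.2.2 hN
        · have h4 := c4.2.2.1 t ht pt.2.1 (h.1.mul_left 8)
          have h5 := ht.eq_two_or_odd.resolve_left pt.2.1
          have h6 := h.2
          exact ⟨ht, h.1.mul_left 8, by omega⟩
      exact hsp (c4.2.2.2.2.1 (nq.dvd.mul_left 8) (k s ps as) (k p pp ap))
    · exact hsp (hc.2.2.1 q nq.1 (nq.1.five_le_of_ne_two_of_ne_three nq.2.1 h3) nq.dvd as ap)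
  obtain ⟨δ, d1, d2, d3⟩ : ∃ δ : ∀ r, MulAut (A.R r : Subgroup X), δ p = ρ ∧
      (∀ r, I r → ∀ x, δ r x = x⁻¹) ∧ ∀ r, r ≠ p → ¬ I r → δ r = 1 := by
    refine ⟨Function.update (fun r => if h : I r then invAut _ (comm r h.1.1) else 1) p ρ,
      Function.update_self .., fun r hr x => ?_, fun r hr h => ?_⟩
    · rw [Function.update_of_ne (by rintro rfl; exact hr.1.2.2 pp.2.2.2), dif_pos hr]; rfl
    · rw [Function.update_of_ne hr, dif_neg h]
  have key : ∀ r, r.Prime → r ∣ Nat.card X → r ≠ p → Compat (δ r) (δ p) := by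
    intro r hr dr hrp
    by_cases h : I r
    · intro x y
      refine ⟨cjN _ pp.2.2.2 (x : X) y, isCj_cjN _ _ y, ?_⟩
      have e1 := hρ _ ⟨r, _, h.1, x.2, isCj_cjN pp.2.2.2 (x : X)⟩
      rw [mul_inv_eq_iff_eq_mul, ← map_inv] at e1
      rw [d1, d2 r h, ← MulAut.mul_apply, e1, MulAut.mul_apply, isCj_cjN]
      rfl
    · refine compat_of_comm (fun x hx y hy => ?_) _ _
      by_contra e
      rcases not_comm_cases A h2 hs hr hp dr dp hx hy e with k | k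
      · exact h ⟨k.1, x, hx, y, hy, e⟩
      · exact k.2.1.2.2 pp.2.2.2
  obtain ⟨θ, hθ⟩ := sys_auto A δ fun r s hr hs dr ds hrs => by
    by_cases e : s = p
    · subst e; exact Or.inl (key r hr dr hrs)
    by_cases e' : r = p
    · subst e'; exact Or.inr (key s hs ds e)
    by_cases i1 : I r
    · exact Or.inl (compat_of_comm (hI r s i1 hs ds e) _ _)
    by_cases i2 : I s
    · exact Or.inr (compat_of_comm (hI s r i2 hr dr e') _ _)
    rw [d3 r e' i1, d3 s e i2]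
    exact (A.nm hr hs hrs).imp compat_one compat_one
  exact ⟨θ, fun y hy => by
    simpa [d2 7 ⟨n7, x0, hx0, y0, hy0, e0⟩] using hθ 7 p7 h7 ⟨y, hy⟩⟩

end T

end Pool.Agent.Lib.MP_cb9dee_al
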