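import Pool.Agent.Lib.MP_cb9dee_al.TQuat

namespace Pool.Agent.Lib.MP_cb9dee_al

namespace T

open Subgroup

section model
variable {r : ℕ} [hr : Fact r.Prime] {R R' : Type*} [Group R] [Group R']

/-- The field model of a module for the quaternion group. -/
structure QM (i j : MulAut R) (e : R ≃ GaloisField r 2) (ι c : GaloisField r 2) : Prop where
  add : ∀ x y, e (x * y) = e x + e y
  hi : ∀ x, e (i x) = ι * e x
  hj : ∀ x, e (j x) = c * e x ^ r
  lin : ∀ b : MulAut R, i * b = b * i → ∃ μ, ∀ x, e (b x) = μ * e x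

lemma exists_qm [Finite R] (h4 : r % 4 = 3) (hR : Nat.card R = r ^ 2) {i j : MulAut R}
    (hi : ∀ x, i (i x) = x⁻¹) (hj : ∀ x, j (j x) = x⁻¹) (hij : j * i * j⁻¹ = i⁻¹) :
    ∃ (e : R ≃ GaloisField r 2) (ι c : GaloisField r 2), QM i j e ι c ∧ ι * ι = -1 ∧
      c ^ r * c = -1 := by
  have : Nontrivial R := Finite.one_lt_card_iff_nontrivial.1
    (hR ▸ Nat.one_lt_pow two_ne_zero hr.out.one_lt)
  obtain ⟨v, hv⟩ := exists_ne (1 : R)
  obtain ⟨e, add, e1, lin, semi⟩ := field_model r hR i (fun L hL => by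
    rcases card_subgroup_cases hr.out hR L with h | h | h
    · exact Or.inl h
    · exfalso
      obtain ⟨x, rfl, hx⟩ := exists_gen hr.out h
      obtain ⟨m, hm⟩ := mem_zpowers_iff.1 (hL x (mem_zpowers x))
      have h1 := hi x
      rw [← hm, map_zpow, ← hm, ← zpow_mul, eq_inv_iff_mul_eq_one, ← zpow_add_one,
        ← orderOf_dvd_iff_zpow_eq_one, hx, ← ZMod.intCast_zmod_eq_zero_iff_dvd] at h1
      refine ZMod.mod_four_ne_three_of_sq_eq_neg_one (p := r) (y := (m : ZMod r)) ?_ h4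
      push_cast at h1
      linear_combination h1
    · exact Or.inr h) v hv
  have e0 : e 1 = 0 := by simpa using add 1 1
  have neg : e v⁻¹ = -1 := by
    have := add v v⁻¹
    rw [mul_inv_cancel, e0, e1] at this
    linear_combination -this
  have k1 : e (i v) * e (i v) = -1 := by rw [← lin i rfl, hi, neg]
  rcases semi j (by rw [hij, mul_inv_cancel, inv_mul_cancel]) with h | h
  · exfalso
    have h1 : j * i = i * j := by
      ext x
      apply e.injective
      rw [MulAut.mul_apply, MulAut.mul_apply, h, lin i rfl x, lin i rfl (j x), h x]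
      ring
    rw [h1, mul_inv_cancel_right, eq_inv_iff_mul_eq_one] at hij
    have h2 : v = v⁻¹ := (DFunLike.congr_fun hij v).symm.trans (hi v)
    refine hv (eq_one_of_eq_inv (fun h3 => ?_) h2)
    have := (Nat.prime_dvd_prime_iff_eq Nat.prime_two hr.out).1 (Nat.prime_two.dvd_of_dvd_pow
      (h3.trans ((orderOf_dvd_natCard v).trans hR.dvd)))
    omega
  · exact ⟨e, _, e (j v), ⟨add, lin i rfl, fun x => by rw [h, mul_comm],
      fun b hb => ⟨_, lin b hb⟩⟩, k1, by rw [← h, hj, neg]⟩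

lemma QM.frob {i j : MulAut R} {e : R ≃ GaloisField r 2} {ι c : GaloisField r 2}
    (q : QM i j e ι c) : ∃ e', QM i j e' (ι ^ r) (c ^ r) := by
  refine ⟨e.trans (frobeniusEquiv (GaloisField r 2) r).toEquiv, fun x y => ?_, fun x => ?_,
    fun x => ?_, fun b hb => ?_⟩
  · simp [q.add]
  · simp [q.hi, frobenius_def, mul_pow]
  · simp [q.hj, frobenius_def, mul_pow]
  · obtain ⟨μ, hμ⟩ := q.lin b hb
    exact ⟨μ ^ r, fun x => by simp [hμ, frobenius_def, mul_pow]⟩

lemma QM.scale {i j : MulAut R} {e : R ≃ GaloisField r 2} {ι c c' ν : GaloisField r 2}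
    (q : QM i j e ι c) (hν : ν ≠ 0) (h : ν * c = c' * ν ^ r) : ∃ e', QM i j e' ι c' := by
  refine ⟨e.trans (Equiv.mulLeft₀ ν hν), fun x y => ?_, fun x => ?_,
    fun x => ?_, fun b hb => ?_⟩
  · simp [q.add, mul_add]
  · simp only [Equiv.trans_apply, Equiv.mulLeft₀_apply, q.hi]; ring
  · simp only [Equiv.trans_apply, Equiv.mulLeft₀_apply, q.hj, mul_pow]
    rw [← mul_assoc, h, mul_assoc]
  · obtain ⟨μ, hμ⟩ := q.lin b hb
    exact ⟨μ, fun x => by simp only [Equiv.trans_apply, Equiv.mulLeft₀_apply, hμ]; ring⟩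

lemma QM.norm (h4 : r % 4 = 3) {i j : MulAut R} {e : R ≃ GaloisField r 2}
    {ι c ι' c' : GaloisField r 2} (q : QM i j e ι c) (h1 : ι * ι = -1) (h2 : c ^ r * c = -1)
    (h1' : ι' * ι' = -1) (h2' : c' ^ r * c' = -1) : ∃ e', QM i j e' ι' c' := by
  have pw : ∀ t : GaloisField r 2, t * t = -1 → t ^ r = -t := fun t ht => by
    have : t ^ r = (t * t) ^ (2 * (r / 4) + 1) * t := by
      rw [← pow_two, ← pow_mul, ← pow_succ]
      congr 1
      omega
    rw [this, ht, pow_succ, pow_mul]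
    simp
  have rr : ∀ t : GaloisField r 2, (t ^ r) ^ r = t := fun t => by
    rw [← pow_mul, ← pow_two, gf_pow]
  obtain ⟨e, c, q, h2⟩ : ∃ e c, QM i j e ι' c ∧ c ^ r * c = -1 := by
    rcases mul_self_eq_mul_self_iff.1 (h1'.trans h1.symm) with h | h
    · exact ⟨e, c, h ▸ q, h2⟩
    · obtain ⟨e', q'⟩ := q.frob
      exact ⟨e', _, by rwa [h, ← pw ι h1], by rw [rr, mul_comm, h2]⟩
  obtain ⟨u, hu⟩ : ∃ u, u = -(c * c' ^ r) := ⟨_, rfl⟩
  have hc : c = c' * u := by rw [hu]; linear_combination c * h2'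
  have hu1 : u ^ r * u = 1 := by
    have : c' ^ r * c' * (u ^ r * u) = -1 := by rw [← h2, hc, mul_pow]; ring
    rw [h2'] at this
    linear_combination -this
  have key : ∀ t, (t + u ^ r * t ^ r) * c = c' * (t + u ^ r * t ^ r) ^ r := fun t => by
    rw [add_pow_char, mul_pow, rr, rr, hc]
    linear_combination c' * t ^ r * hu1
  by_cases h : (1 : GaloisField r 2) + u ^ r * 1 ^ r = 0
  · refine q.scale (fun h3 => ?_) (key ι')
    rw [pw ι' h1'] at h3
    rw [one_pow] at h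
    have h5 : ((2 : ℕ) : GaloisField r 2) = 0 := by
      push_cast
      linear_combination (-ι') * h3 - ι' * ι' * h + 2 * h1'
    rw [CharP.cast_eq_zero_iff _ r] at h5
    have := Nat.le_of_dvd two_pos h5
    omega
  · exact q.scale h (key 1)

lemma QM.scalar {i j : MulAut R} {e : R ≃ GaloisField r 2} {ι c : GaloisField r 2}
    (q : QM i j e ι c) (hc : c ≠ 0) {b : MulAut R} (hi : i * b = b * i) (hj : j * b = b * j) :
    (∀ σ : MulAut R, Commute σ b) ∧ b ^ (r - 1) = 1 := by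
  obtain ⟨μ, hμ⟩ := q.lin b hi
  have h1 : μ ^ r = μ := by
    have := congrArg e (DFunLike.congr_fun hj (e.symm 1))
    rw [MulAut.mul_apply, MulAut.mul_apply, q.hj, hμ, hμ, q.hj, e.apply_symm_apply, mul_one,
      one_pow, mul_one, mul_comm μ] at this
    exact mul_left_cancel₀ hc this
  obtain ⟨k, hk⟩ := (mem_bot_iff_intCast r _).1
    ((Subfield.mem_bot_iff_pow_eq_self (F := GaloisField r 2) (p := r)).2 h1)
  let f : R →* Multiplicative (GaloisField r 2) :=
    MonoidHom.mk' (fun x => Multiplicative.ofAdd (e x)) q.add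
  have h2 : ∀ x, b x = x ^ k := fun x => e.injective (by
    rw [hμ, ← hk, ← zsmul_eq_mul]
    exact (map_zpow f x k).symm)
  have h3 : ∀ (n : ℕ) x, e ((b ^ n) x) = μ ^ n * e x := fun n => by
    induction n with
    | zero => simp
    | succ n ih => intro x; rw [pow_succ, MulAut.mul_apply, ih, hμ, pow_succ, mul_assoc]
  refine ⟨fun σ => MulEquiv.ext fun x => ?_, MulEquiv.ext fun x => e.injective ?_⟩
  · rw [MulAut.mul_apply, MulAut.mul_apply, h2, h2, map_zpow]
  · obtain ⟨y, rfl⟩ := b.surjective x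
    rw [h3, MulAut.one_apply, hμ, ← mul_assoc, ← pow_succ, Nat.sub_add_cancel hr.out.pos, h1]

lemma beta_mod [Finite R] [Finite R'] (h4 : r % 4 = 3) (hR : Nat.card R = r ^ 2)
    (hR' : Nat.card R' = r ^ 2) {Q : Type*} [Group Q] (ρ : Q →* MulAut R) (ρ' : Q →* MulAut R')
    {B X : Subgroup Q} [B.Normal] (h : B.IsComplement' X) {i j : Q} (hi : i ∈ B) (hj : j ∈ B)
    (hB : ∀ L : Subgroup Q, i ∈ L → j ∈ L → B ≤ L) (h1 : j * j = i * i) (h2 : j * i * j⁻¹ = i⁻¹)
    (h3 : ∀ x, ρ (i * i) x = x⁻¹) (h3' : ∀ x, ρ' (i * i) x = x⁻¹)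
    (hX : ∀ x ∈ X, (orderOf x).Coprime (r - 1)) : ∃ β : R ≃* R', ∀ x b, β (ρ x b) = ρ' x (β b) := by
  obtain ⟨e, ι, c, q, a1, a2⟩ := exists_qm h4 hR (i := ρ i) (j := ρ j)
    (fun x => by rw [← MulAut.mul_apply, ← map_mul, h3])
    (fun x => by rw [← MulAut.mul_apply, ← map_mul, h1, h3])
    (by rw [← map_inv, ← map_mul, ← map_mul, h2, map_inv])
  obtain ⟨e0, ι0, c0, q0, b1, b2⟩ := exists_qm h4 hR' (i := ρ' i) (j := ρ' j)
    (fun x => by rw [← MulAut.mul_apply, ← map_mul, h3'])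
    (fun x => by rw [← MulAut.mul_apply, ← map_mul, h1, h3'])
    (by rw [← map_inv, ← map_mul, ← map_mul, h2, map_inv])
  obtain ⟨e', q'⟩ := q0.norm h4 b1 b2 a1 a2
  let β : R ≃* R' := { e.trans e'.symm with
    map_mul' := fun x y => e'.injective (by simp [q.add, q'.add]) }
  have hβ : ∀ x, e' (β x) = e x := fun x => by simp [β]
  have m := hB (agree ρ ρ' β)
    (mem_agree.2 fun b => e'.injective (by rw [hβ, q.hi, q'.hi, hβ]))
    (mem_agree.2 fun b => e'.injective (by rw [hβ, q.hj, q'.hj, hβ]))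
  have m' : X ≤ agree ρ ρ' β := fun x hx => by
    let σ : Q →* MulAut R' := (MulAut.congr β).toMonoidHom.comp ρ
    have k : ∀ y ∈ B, ρ' y * ((ρ' x)⁻¹ * σ x) = (ρ' x)⁻¹ * σ x * ρ' y := fun y hy => by
      have k1 : σ y = ρ' y := m hy
      have k2 : σ (x * y * x⁻¹) = ρ' (x * y * x⁻¹) := m (Normal.conj_mem inferInstance y hy x)
      simp only [map_mul, map_inv, k1] at k2
      calc _ = (ρ' x)⁻¹ * (ρ' x * ρ' y * (ρ' x)⁻¹) * σ x := by group
        _ = _ := by rw [← k2]; group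
    obtain ⟨s1, s2⟩ := q'.scalar (fun h => by simp [h] at a2) (k i hi) (k j hj)
    have s3 := (s1 (ρ' x)).mul_pow (orderOf x)
    rw [mul_inv_cancel_left, ← map_pow, ← map_pow, pow_orderOf_eq_one, map_one, map_one,
      one_mul] at s3
    have s4 := orderOf_eq_one_iff.1 (Nat.eq_one_of_dvd_coprimes (hX x hx)
      (orderOf_dvd_of_pow_eq_one s3.symm) (orderOf_dvd_of_pow_eq_one s2))
    exact (inv_mul_eq_one.1 s4).symm
  exact ⟨β, fun x => mem_agree.1 ((h.sup_eq_top.ge.trans (sup_le m m')) (mem_top x))⟩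

end model

lemma setup_a {G : Type} [Group G] [Finite G] (hG : TyIIIa G) (h16 : ¬ 16 ∣ Nat.card G) :
    ∃ (B X : Subgroup G) (_ : B.Normal) (z : B), Quat B z ∧ B.IsComplement' X ∧
      ¬ 2 ∣ Nat.card X ∧ (act B X).ker.index = 3 := by
  obtain ⟨nf, B, _, h8, g, hg, x, hx, hgx⟩ := hG
  have c1 : (MulAut.conjNormal g : MulAut B) ≠ 1 := fun e =>
    hgx ((isCj_conjNormal B g).eq_one_iff.1 e x hx)
  have c2 : ¬ 2 ∣ orderOf (MulAut.conjNormal g : MulAut B) := fun e =>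
    hg (e.trans (isCj_conjNormal B g).orderOf_dvd)
  obtain ⟨z, q⟩ := exists_quat h8 (fun s t hs ht h => by
    simpa only [Subtype.ext_iff, coe_one] using nf s t (congrArg Subtype.val hs) (congrArg Subtype.val ht)
      (congrArg Subtype.val h)) c1 c2
  have hi : ¬ 2 ∣ B.index := fun e => h16 (by
    rw [← index_mul_card B, h8]; exact Nat.mul_dvd_mul_right e 8)
  obtain ⟨X, h⟩ := exists_right_complement'_of_coprime (N := B)
    (h8 ▸ ((Nat.Prime.coprime_iff_not_dvd Nat.prime_two).2 hi).pow_left 3)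
  have h2 : ¬ 2 ∣ Nat.card X := h.symm.index_eq_card ▸ hi
  refine ⟨B, X, inferInstance, z, q, h, h2, ((Nat.dvd_prime Nat.prime_three).1 (q.index_dvd _
    (fun y e => h2 (e.trans ((orderOf_map_dvd _ y).trans (orderOf_dvd_natCard y))))
    fun e => h2 (e.trans (index_dvd_card _)))).resolve_left fun e => c1 ?_⟩
  obtain ⟨⟨b, y⟩, rfl⟩ := h.2 g
  have e1 : (MulAut.conjNormal (y : G) : MulAut B) = 1 :=
    (index_eq_one.1 e ▸ mem_top y : (y : X) ∈ (act B X).ker)
  refine orderOf_eq_one_iff.1 (Nat.eq_one_of_dvd_coprimes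
    (((Nat.Prime.coprime_iff_not_dvd Nat.prime_two).2 c2).pow_left 3) ?_ dvd_rfl)
  simp only [map_mul, e1, mul_one]
  exact (orderOf_map_dvd _ _).trans ((B.orderOf_dvd_natCard b.2).trans h8.dvd)

lemma setup_b {G : Type} [Group G] [Finite G] (hG : TyIIIb G) (h4 : 4 ∣ Nat.card G)
    (hn : Full (Nat.card G)) :
    ∃ (R Y : Subgroup G) (_ : R.Normal) (r : ℕ) (Q : Type) (_ : Group Q) (_ : Finite Q)
      (_ : Y ≃* Q), R.IsComplement' Y ∧ TyIIIa Q ∧ r.Prime ∧ Nat.card R = r ^ 2 ∧ 12 ∣ r + 1 ∧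
      3 ∣ Nat.card G ∧ 4 ∣ Nat.card Q ∧ (Nat.card R).Coprime (Nat.card Y) ∧
      ∀ z : G, orderOf z = 2 → ∀ x ∈ R, z * x * z⁻¹ = x⁻¹ := by
  obtain ⟨-, Q, _, f, r, ⟨hr, r2, fs, ck, inv⟩, hQ⟩ := hG
  have := Finite.of_surjective f fs
  have c4 := hn.2.2.2.2.2.1 h4
  have dQ : Nat.card Q ∣ Nat.card G := card_dvd_of_surjective f fs
  have dR : r ^ 2 ∣ Nat.card G := ck ▸ card_subgroup_dvd_card _
  obtain ⟨B, X, _, z, q, h, -, h3⟩ := setup_a hQ fun e => c4.1 (e.trans dQ)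
  have d8 : 8 ∣ Nat.card Q := q.card ▸ card_subgroup_dvd_card B
  have d3 : 3 ∣ Nat.card G :=
    ((h3 ▸ index_dvd_card _ : 3 ∣ Nat.card X).trans (card_subgroup_dvd_card X)).trans dQ
  have hc : (Nat.card f.ker).Coprime f.ker.index := by
    rw [ck]
    refine ((Nat.Prime.coprime_iff_not_dvd hr).2 fun e => hn.1 r hr r2 ?_).pow_left 2
    rw [← index_mul_card f.ker, ck, pow_succ' r 2]
    exact Nat.mul_dvd_mul_right e _
  obtain ⟨Y, hY⟩ := exists_right_complement'_of_coprime hc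
  refine ⟨f.ker, Y, inferInstance, r, Q, inferInstance, inferInstance,
    hY.symm.QuotientMulEquiv.symm.trans (QuotientGroup.quotientKerEquivOfSurjective f fs), hY, hQ,
    hr, ck, ?_, d3, dvd_trans (by norm_num) d8, hY.symm.index_eq_card ▸ hc, inv⟩
  have k1 := c4.2.2.1 r hr r2 dR
  have k2 := hn.2.1 r 3 hr Nat.prime_three (by norm_num) d3 dR r2
  have k3 := hr.eq_two_or_odd.resolve_left r2
  have k4 : ¬ 3 ∣ r := fun e => (hn.2.2.2.2.2.2 (d8.trans dQ)).1
    ((pow_dvd_pow_of_dvd e 2).trans dR)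
  have k5 := hr.two_le
  have k6 : r % 4 = 3 := by omega
  have k7 : r % 3 = 2 := by omega
  omega

end T

open T Subgroup

variable {G H : Type} [Group G] [Group H] [Finite G] [Finite H]

theorem rigid_IIIa (c : Pair G H) (hG : TyIIIa G) (hH : TyIIIa H) : Nonempty (G ≃* H) := by
  have h16 := (c.full.2.2.2.2.2.1 c.four).1
  obtain ⟨B, X, _, z, q, h, h2, h3⟩ := setup_a hG h16
  obtain ⟨B', X', _, z', q', h', -, h3'⟩ := setup_a hH (c.card ▸ h16)
  obtain ⟨hX, conf⟩ := conformal_compl c.conf c.card h h' (q.card.trans q'.card.symm) (q.card ▸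
    ((Nat.Prime.coprime_iff_not_dvd Nat.prime_two).2 h2).pow_left 3)
  obtain ⟨α⟩ := rigid_of_cond Nat.card_pos.ne' (fun e => h2 (dvd_trans (by norm_num) e))
    ((c.full.of_dvd (card_subgroup_dvd_card X)).cond
      fun e => h2 (dvd_trans (by norm_num) e)) X X' rfl hX.symm conf
  obtain ⟨β, hβ⟩ := beta_quat q q' (act B X) ((act B' X').comp α.toMonoidHom)
    (mem_iff_of_coprime α (h3.trans h3'.symm) (by
      rw [h3]
      refine ((Nat.Prime.coprime_iff_not_dvd Nat.prime_three).2 fun e =>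
        (c.full.2.2.2.2.2.2 (q.card ▸ card_subgroup_dvd_card B)).1
          (dvd_trans ?_ (card_subgroup_dvd_card X))).symm
      rw [← index_mul_card (act B X).ker, h3]
      exact Nat.mul_dvd_mul_left 3 e)) h3
  obtain ⟨Φ, -⟩ := glue2 h h' α β hβ
  exact ⟨Φ⟩

theorem rigid_IIIb (c : Pair G H) (hG : TyIIIb G) (hH : TyIIIb H) : Nonempty (G ≃* H) := by
  have c4 := c.full.2.2.2.2.2.1 c.four
  obtain ⟨R, Y, _, r, Q, _, _, e, h, hQ, hr, cR, d12, d3, d4, cop, inv⟩ := setup_b hG c.four c.full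
  obtain ⟨R', Y', _, r', Q', _, _, e', h', hQ', hr', cR', d12', -, -, -, inv'⟩ :=
    setup_b hH c.symm.four c.symm.full
  have dR : r ^ 2 ∣ Nat.card G := cR ▸ card_subgroup_dvd_card R
  obtain rfl : r = r' := c4.2.2.2.2.1 d3 ⟨hr, dR, d12⟩
    ⟨hr', c.card ▸ cR' ▸ card_subgroup_dvd_card R', d12'⟩
  have := Fact.mk hr
  obtain ⟨hY, conf⟩ := conformal_compl c.conf c.card h h' (cR.trans cR'.symm) cop
  have dQ : Nat.card Q ∣ Nat.card G := Nat.card_congr e.toEquiv ▸ card_subgroup_dvd_card Y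
  obtain ⟨Φ⟩ := rigid_IIIa ⟨conformal_congr conf e e', by
    rw [← Nat.card_congr e.toEquiv, hY, Nat.card_congr e'.toEquiv], d4, c.full.of_dvd dQ⟩ hQ hQ'
  obtain ⟨B, X, _, z, q, k, h2, h3⟩ := setup_a hQ fun e => c4.1 (e.trans dQ)
  obtain ⟨w, -, hw⟩ := SetLike.exists_of_lt (lt_top_iff_ne_top.2
    (fun e => by rw [e, index_top] at h3; norm_num at h3 : (act B X).ker ≠ ⊤))
  obtain ⟨i, a1, a2, a3, -, a5⟩ := q.gen hw (by
    rw [← map_pow]; exact h3 ▸ (act B X).ker.pow_index_mem w)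
  have oz : orderOf ((i : Q) * i) = 2 := by
    rw [← coe_mul, Subgroup.orderOf_coe, a1]
    exact orderOf_eq_prime (by rw [pow_two, q.sq]) q.ne
  obtain ⟨β, hβ⟩ := beta_mod (by omega) cR cR' ((act R Y).comp e.symm.toMonoidHom)
    ((act R' Y').comp (Φ.trans e'.symm).toMonoidHom) k i.2 (act B X w i).2
    (fun L h1 h2 => subgroupOf_eq_top.1 (a5 (L.subgroupOf B) h1 h2))
    (congrArg Subtype.val (a2.trans a1.symm)) (congrArg Subtype.val a3)
    (fun x => Subtype.ext (inv (e.symm (i * i) : Y) (by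
      rw [Subgroup.orderOf_coe, ← oz]; exact e.symm.orderOf_eq _) x x.2))
    (fun x => Subtype.ext (inv' ((Φ.trans e'.symm) (i * i) : Y') (by
      rw [Subgroup.orderOf_coe, ← oz]; exact (Φ.trans e'.symm).orderOf_eq _) x x.2))
    fun x hx => Nat.coprime_of_dvd fun s hs d => c.full.2.1 r s hr hs
      (fun e => h2 (e ▸ d.trans (X.orderOf_dvd_natCard hx)))
      (d.trans ((orderOf_dvd_natCard x).trans dQ)) dR (by omega)
  obtain ⟨Ψ, -⟩ := glue2 h h' (e.trans (Φ.trans e'.symm)) β fun x b => by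
    simpa using hβ (e x) b
  exact ⟨Ψ⟩

end Pool.Agent.Lib.MP_cb9dee_al
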