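import Pool.Agent.Lib.MP_cb9dee_al.TFour

namespace Pool.Agent.Lib.MP_cb9dee_al

namespace T

open Subgroup

section compl
variable {G : Type*} [Group G] [Finite G]

lemma conj_of_abelian {V M M' : Subgroup G} [V.Normal] (hV : ∀ x ∈ V, ∀ y ∈ V, x * y = y * x)
    (hM : Disjoint V M) (hcop : (Nat.card V).Coprime (Nat.card M')) (hle : M' ≤ V ⊔ M) :
    ∃ u ∈ V, ∀ x ∈ M', u⁻¹ * x * u ∈ M := by
  classical
  have := Fintype.ofFinite M'
  let _ : CommGroup V := ⟨fun a b => Subtype.ext (hV a a.2 b b.2)⟩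
  have hex : ∀ x : M', ∃ c : V, (c : G)⁻¹ * x ∈ M := by
    intro x
    obtain ⟨v, hv, m, hm, e⟩ := mem_sup_of_normal_left.mp (hle x.2)
    exact ⟨⟨v, hv⟩, by rw [← e]; simpa using hm⟩
  choose c hc using hex
  have cocy : ∀ x y : M', c (x * y) = c x * MulAut.conjNormal (x : G) (c y) := by
    intro x y
    have h := M.mul_mem (M.mul_mem (hc x) (hc y)) (M.inv_mem (hc (x * y)))
    have e : (c x : G)⁻¹ * x * ((c y : G)⁻¹ * y) * ((c (x * y) : G)⁻¹ * (x * y : M'))⁻¹ =
        (((MulAut.conjNormal (x : G) (c y) * c x)⁻¹ * c (x * y) : V) : G) := by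
      simp only [coe_mul, coe_inv, MulAut.conjNormal_apply]
      group
    rw [e] at h
    rw [mul_comm (c x)]
    exact (inv_mul_eq_one.1 (Subtype.ext (disjoint_def.1 hM (SetLike.coe_mem _) h))).symm
  obtain ⟨u, hu⟩ := (powCoprime hcop).surjective (∏ y, c y)
  have hu' : u ^ Nat.card M' = ∏ y, c y := hu
  refine ⟨u, u.2, fun x hx => ?_⟩
  have h1 : ∏ y, c y = (c ⟨x, hx⟩) ^ Nat.card M' * MulAut.conjNormal x (∏ y, c y) := by
    nth_rewrite 1 [← Equiv.prod_comp (Equiv.mulLeft (⟨x, hx⟩ : M')) c]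
    simp only [Equiv.coe_mulLeft, cocy]
    rw [Finset.prod_mul_distrib, Finset.prod_const, Finset.card_univ, Nat.card_eq_fintype_card,
      map_prod]
  rw [← hu', map_pow, ← mul_pow] at h1
  have h2 : u = c ⟨x, hx⟩ * MulAut.conjNormal x u := (powCoprime hcop).injective h1
  rw [mul_comm, ← inv_mul_eq_iff_eq_mul] at h2
  have h3 := hc ⟨x, hx⟩
  rw [← h2] at h3
  simpa [MulAut.conjNormal_apply, mul_assoc] using h3

lemma exists_compl {B : Subgroup G} [B.Normal] (h4 : Nat.card B = 4) (h2 : ∀ x ∈ B, x * x = 1)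
    (h16 : ¬ 16 ∣ Nat.card G) {g : G} (hg : ¬ 2 ∣ orderOf g) (hb : ∃ x ∈ B, g * x ≠ x * g) :
    ∃ X : Subgroup G, B.IsComplement' X ∧ ∃ w : X, act B X w ≠ 1 ∧ act B X w ^ 3 = 1 := by
  have := kleinFour h4 fun x => Subtype.ext (h2 x x.2)
  have hV : ∀ x ∈ B, ∀ y ∈ B, x * y = y * x := fun x hx y hy => congrArg Subtype.val
    (comm_of_card (R := B) Nat.prime_two (by rw [h4]; norm_num) ⟨x, hx⟩ ⟨y, hy⟩)
  obtain ⟨O, hO, hO2, hOi⟩ := exists_odd_part (G := G ⧸ B) fun h => h16 (by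
    rw [card_eq_card_quotient_mul_card_subgroup B, h4]
    exact Nat.mul_dvd_mul_right h 4)
  obtain ⟨S, hS⟩ : ∃ S, S = O.comap (QuotientGroup.mk' B) := ⟨_, rfl⟩
  have hSn : S.Normal := hS ▸ inferInstance
  have hBS : B ≤ S := hS ▸ QuotientGroup.le_comap_mk' B O
  have hi : (B.subgroupOf S).index = Nat.card O := by
    have := relIndex_ker S (QuotientGroup.mk' B)
    rw [QuotientGroup.ker_mk', hS,
      map_comap_eq_self_of_surjective (QuotientGroup.mk'_surjective B), ← hS] at this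
    exact this
  have c2 : (4 : ℕ).Coprime (Nat.card O) :=
    ((Nat.Prime.coprime_iff_not_dvd Nat.prime_two).2 hO2).pow_left 2
  obtain ⟨M0, hM0⟩ := exists_right_complement'_of_coprime (N := B.subgroupOf S) (by
    rwa [hi, Nat.card_congr (subgroupOfEquivOfLe hBS).toEquiv, h4])
  obtain ⟨M, hM⟩ : ∃ M, M = M0.map S.subtype := ⟨_, rfl⟩
  have cM : Nat.card M = Nat.card O := by
    rw [hM, card_subtype, ← hi, hM0.symm.index_eq_card]
  have hMS : M ≤ S := hM ▸ map_subtype_le M0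
  have hSM : S ≤ B ⊔ M := fun x hx => by
    obtain ⟨⟨b, m⟩, e⟩ := hM0.2 ⟨x, hx⟩
    have e' : ((b : S) : G) * (m : S) = x := congrArg Subtype.val e
    rw [← e']
    exact mul_mem (mem_sup_left b.2) (mem_sup_right (hM ▸ mem_map_of_mem _ m.2))
  have hd : Disjoint B M := disjoint_of_coprime_natCard (by rwa [h4, cM])
  have hgS : g ∈ S := by
    rw [hS, mem_comap]
    exact mem_of_pow_eq_one (((Nat.Prime.coprime_iff_not_dvd Nat.prime_two).2
      hg).symm.coprime_dvd_right hOi) (by rw [← map_pow, pow_orderOf_eq_one, map_one])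
  obtain ⟨b, hb', m, hm, rfl⟩ := mem_sup_of_normal_left.mp (hSM hgS)
  have hm1 : (MulAut.conjNormal m : MulAut B) ≠ 1 := fun e => by
    obtain ⟨x, hx, hx'⟩ := hb
    apply hx'
    rw [mul_assoc, (isCj_conjNormal B m).eq_one_iff.1 e x hx, ← mul_assoc, hV b hb' x hx,
      mul_assoc]
  have hgood : Good 2 (MulAut.conjNormal m : MulAut B) := good_two fun h => hO2
    (cM ▸ h.trans ((isCj_conjNormal B m).orderOf_dvd.trans (M.orderOf_dvd_natCard hm)))
  refine ⟨normalizer (M : Set G), isComplement'_of_disjoint_and_mul_eq_univ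
    (disjoint_def.2 fun {x} hx hx' => ?_) (Set.eq_univ_iff_forall.2 fun x => ?_),
    ⟨m, le_normalizer hm⟩, hm1, ?_⟩
  · by_contra e
    refine hm1 (hgood.eq_one Nat.prime_two (x := ⟨x, hx⟩) (fun h => e (congrArg Subtype.val h))
      (Subtype.ext ?_))
    have h1 : x⁻¹ * (m * x * m⁻¹) = 1 := disjoint_def.1 hd
      (mul_mem (inv_mem hx) (Normal.conj_mem inferInstance x hx m)) (by
        have := mul_mem ((mem_normalizer_iff''.1 hx' m).1 hm) (inv_mem hm)
        simpa [mul_assoc] using this)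
    exact (inv_mul_eq_one.1 h1).symm
  · obtain ⟨u, hu, h⟩ := conj_of_abelian (M' := M.map (MulAut.conj x).toMonoidHom) hV hd
      (by rwa [card_map_equiv, h4, cM]) (by
        rintro _ ⟨y, hy, rfl⟩
        exact hSM (hSn.conj_mem y (hMS hy) x))
    refine ⟨u, hu, u⁻¹ * x, mem_normalizer_fintype fun y hy => ?_, by simp⟩
    simpa [mul_assoc] using h _ (mem_map_of_mem _ hy)
  · have := hgood.orderOf_dvd Nat.prime_two
    rw [h4] at this
    exact orderOf_dvd_iff_pow_eq_one.1 this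

variable {B X : Subgroup G} [B.Normal] [IsKleinFour B]

omit [Finite G] in
lemma four_pow (h : B.IsComplement' X) (h4 : ¬ 4 ∣ Nat.card X) (d : ℕ) (b : B) (x : X) :
    ((b : G) * x) ^ (d * 2 * 2) = 1 ↔ x ^ (d * 2) = 1 := by
  refine ⟨fun e => ?_, fun e => ?_⟩
  · have h1 := (pow_mem_iff h b x _).1 (e ▸ one_mem B)
    rw [mul_assoc, pow_mul, ← orderOf_dvd_iff_pow_eq_one, ← pow_two,
      Nat.dvd_prime_pow Nat.prime_two] at h1
    obtain ⟨k, hk, h1⟩ := h1
    rw [pow_mul, ← orderOf_dvd_iff_pow_eq_one, h1]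
    interval_cases k
    · norm_num
    · norm_num
    · exact absurd (h1.symm.dvd.trans (orderOf_dvd_natCard (x ^ d))) h4
  · rw [pow_mul, pow_two]
    exact congrArg Subtype.val (IsKleinFour.mul_self (⟨_, (pow_mem_iff h b x _).2 e⟩ : B))

lemma cnt_odd (h : B.IsComplement' X) {d : ℕ} (hd : ¬ 2 ∣ d) :
    Nat.card {g : G // g ^ d = 1} + 3 * Nat.card {x : X // x ^ d = 1 ∧ x ∈ (act B X).ker} =
      4 * Nat.card {x : X // x ^ d = 1} := by
  classical
  have := Fintype.ofFinite X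
  rw [cnt_compl h, Nat.card_eq_fintype_card (α := {x : X // x ^ d = 1}), Fintype.card_subtype,
    Nat.card_eq_fintype_card (α := {x : X // x ^ d = 1 ∧ _}), Fintype.card_subtype,
    Finset.card_filter, Finset.card_filter, Finset.mul_sum, Finset.mul_sum,
    ← Finset.sum_add_distrib]
  refine Finset.sum_congr rfl fun x _ => ?_
  by_cases hx : x ^ d = 1
  swap
  · have : IsEmpty {b : B // ((b : G) * x) ^ d = 1} :=
      ⟨fun b => hx ((pow_mem_iff h b.1 x d).1 (by rw [b.2]; exact one_mem B))⟩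
    simp [hx]
  by_cases hk : act B X x = 1
  · have : ∀ b : B, ((b : G) * x) ^ d = 1 ↔ b = 1 := fun b => by
      rw [(Commute.symm ((act_isCj B X x).eq_one_iff.1 hk b b.2)).mul_pow, ← coe_pow X, hx,
        coe_one, mul_one, ← coe_pow, OneMemClass.coe_eq_one]
      exact ⟨fun e => orderOf_eq_one_iff.1 (Nat.eq_one_of_dvd_coprimes
        ((Nat.Prime.coprime_iff_not_dvd Nat.prime_two).2 hd)
        (orderOf_dvd_of_pow_eq_one (by rw [pow_two, IsKleinFour.mul_self]))
        (orderOf_dvd_of_pow_eq_one e)), fun e => by rw [e, one_pow]⟩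
    simp [hx, hk, this]
  · have : ∀ b : B, ((b : G) * x) ^ d = 1 := fun b => by
      by_contra e
      have hm := (pow_mem_iff h b x d).2 hx
      refine hk ((good_two fun h2 => hd (h2.trans (orderOf_dvd_of_pow_eq_one
        (by rw [← map_pow, hx, map_one])))).eq_one Nat.prime_two (x := ⟨_, hm⟩)
        (fun e' => e (congrArg Subtype.val e')) (Subtype.ext ?_))
      have c1 : (b : G) * ((b : G) * x) ^ d = ((b : G) * x) ^ d * b := congrArg Subtype.val
        (comm_of_card (R := B) Nat.prime_two (by rw [IsKleinFour.card_four]; norm_num) b ⟨_, hm⟩)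
      have c2 : (b : G) * x * ((b : G) * x) ^ d = ((b : G) * x) ^ d * (b * x) :=
        (Commute.self_pow _ d).eq
      rw [← mul_assoc, ← c1, mul_assoc, mul_assoc, mul_right_inj] at c2
      rw [act_coe, c2, mul_inv_cancel_right]
    simp [hx, hk, this]

lemma four_iff (h : B.IsComplement' X) (h4 : ¬ 4 ∣ Nat.card X) :
    (∃ g : G, orderOf g = 4) ↔ 2 ∣ (act B X).ker.index := by
  have := Fact.mk Nat.prime_two
  constructor
  · rintro ⟨g, hg⟩
    obtain ⟨b, x, rfl⟩ : ∃ (b : B) (x : X), (b : G) * x = g :=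
      (h.2 g).elim fun z hz => ⟨z.1, z.2, hz⟩
    by_contra e
    have h1 : x ^ 2 = 1 := (four_pow h h4 1 b x).1 (orderOf_dvd_iff_pow_eq_one.1 hg.dvd)
    have h2 : act B X x = 1 :=
      mem_of_pow_eq_one ((Nat.Prime.coprime_iff_not_dvd Nat.prime_two).2 e) h1
    have h3 : ((b : G) * x) ^ 2 = 1 := by
      rw [(Commute.symm ((act_isCj B X x).eq_one_iff.1 h2 b b.2)).mul_pow, ← coe_pow X, h1,
        ← coe_pow, pow_two, IsKleinFour.mul_self]
      simp
    have := orderOf_dvd_of_pow_eq_one h3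
    erw [hg] at this
    norm_num at this
  · intro h2
    obtain ⟨W⟩ : Nonempty (Sylow 2 X) := inferInstance
    have hW : ¬ (W : Subgroup X) ≤ (act B X).ker := fun h =>
      W.not_dvd_index (h2.trans (index_dvd_of_le h))
    obtain ⟨x, hx, hx'⟩ := SetLike.not_le_iff_exists.1 hW
    have h3 : x ^ (1 * 2) = 1 := orderOf_dvd_iff_pow_eq_one.1
      (((W : Subgroup X).orderOf_dvd_natCard hx).trans (card_sylow_two_dvd h4 W))
    obtain ⟨b, hb⟩ : ∃ b, act B X x b ≠ b := by
      by_contra! e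
      exact hx' (MulEquiv.ext e)
    refine ⟨b * x, orderOf_eq_prime_pow (p := 2) (n := 1) (fun e => hb ?_)
      ((four_pow h h4 1 b x).2 h3)⟩
    apply Subtype.ext
    have h5 : (x : G) * x = 1 := by simpa [pow_two] using congrArg Subtype.val h3
    have h6 : (b : G) * x * (b * x) = 1 := by simpa [pow_two] using e
    have h7 : (b : G) * b = 1 := congrArg Subtype.val (IsKleinFour.mul_self b)
    rw [act_coe, ← eq_inv_of_mul_eq_one_left h5, ← mul_right_inj (b : G), h7, ← h6]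
    simp only [mul_assoc]

lemma cnt_ker (h : B.IsComplement' X) (h9 : ¬ 9 ∣ Nat.card X) (h3 : 3 ∣ (act B X).ker.index)
    {d : ℕ} (hd : ¬ 2 ∣ d) (hd3 : ¬ 3 ∣ d) (k : ℕ) :
    Nat.card {x : X // x ^ (3 ^ k * d) = 1 ∧ x ∈ (act B X).ker} = Nat.card {g : G // g ^ d = 1} := by
  have c6 : d.Coprime (act B X).ker.index := Nat.Coprime.coprime_dvd_right (index_dvd_six _)
    (Nat.Coprime.mul_right ((Nat.Prime.coprime_iff_not_dvd Nat.prime_two).2 hd).symm
      ((Nat.Prime.coprime_iff_not_dvd Nat.prime_three).2 hd3).symm)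
  have e1 : Nat.card {x : X // x ^ d = 1 ∧ x ∈ (act B X).ker} = Nat.card {x : X // x ^ d = 1} :=
    Nat.card_congr (Equiv.subtypeEquivRight fun x =>
      ⟨fun hx => hx.1, fun hx => ⟨hx, mem_of_pow_eq_one c6 hx⟩⟩)
  have e2 := cnt_odd h hd
  have e3 : Nat.card {x : X // x ^ (3 ^ k * d) = 1 ∧ x ∈ (act B X).ker} =
      Nat.card {x : X // x ^ d = 1 ∧ x ∈ (act B X).ker} := by
    refine Nat.card_congr (Equiv.subtypeEquivRight fun x => and_congr_left fun hx => ?_)
    rw [← orderOf_dvd_iff_pow_eq_one, ← orderOf_dvd_iff_pow_eq_one]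
    refine Nat.Coprime.dvd_mul_left (Nat.Coprime.pow_right k
      ((Nat.Prime.coprime_iff_not_dvd Nat.prime_three).2 fun e => h9 ?_).symm)
    rw [← index_mul_card (act B X).ker]
    exact Nat.mul_dvd_mul h3 (e.trans (Subgroup.orderOf_dvd_natCard _ hx))
  omega

end compl

lemma three_dvd_index {X B : Type*} [Group X] [Group B] {φ : X →* MulAut B} {w : X}
    (hw : φ w ≠ 1) (h3 : φ w ^ 3 = 1) : 3 ∣ φ.ker.index := by
  rw [index_ker, ← orderOf_eq_prime h3 hw]
  exact Subgroup.orderOf_dvd_natCard _ ⟨w, rfl⟩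

lemma mem_iff_of_coprime {X X' : Type*} [Group X] [Group X'] [Finite X] [Finite X'] (α : X ≃* X')
    {K : Subgroup X} {K' : Subgroup X'} [K.Normal] [K'.Normal] (hi : K.index = K'.index)
    (hc : (Nat.card K).Coprime K.index) (x : X) : x ∈ K ↔ α x ∈ K' := by
  have e : Nat.card K = Nat.card K' := Nat.eq_of_mul_eq_mul_left
    (Nat.pos_of_ne_zero (index_ne_zero_of_finite (H := K))) (by
      rw [index_mul_card, hi, index_mul_card, Nat.card_congr α.toEquiv])
  refine ⟨fun hx => mem_of_pow_eq_one (hi ▸ hc) ?_, fun hx => mem_of_pow_eq_one hc ?_⟩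
  · rw [← map_pow, pow_card_of_mem hx, map_one]
  · rw [← α.map_eq_one_iff, map_pow, e, pow_card_of_mem hx]

end T

open T Subgroup

variable {G H : Type} [Group G] [Group H] [Finite G] [Finite H]

theorem rigid_II (c : Pair G H) (hG : TyII G) (hH : TyII H) : Nonempty (G ≃* H) := by
  obtain ⟨B, _, b4, b2, g, hg, hb⟩ := hG
  obtain ⟨B', _, b4', b2', g', hg', hb'⟩ := hH
  have h16 := (c.full.2.2.2.2.2.1 c.four).1
  obtain ⟨X, h, w, hw, w3⟩ := exists_compl b4 b2 h16 hg hb
  obtain ⟨X', h', w', hw', w3'⟩ := exists_compl b4' b2' (c.card ▸ h16) hg' hb'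
  have := kleinFour b4 fun x => Subtype.ext (b2 x x.2)
  have := kleinFour b4' fun x => Subtype.ext (b2' x x.2)
  have hn : Nat.card G = 4 * Nat.card X := by rw [← b4, h.card_mul_card]
  have hX : Nat.card X = Nat.card X' := Nat.eq_of_mul_eq_mul_left (by norm_num : 0 < 4)
    (by rw [← hn, c.card, ← b4', h'.card_mul_card])
  have h4 : ¬ 4 ∣ Nat.card X := fun e => h16 (hn ▸ Nat.mul_dvd_mul_left 4 e)
  have rig := rigid_of_cond Nat.card_pos.ne' h4 ((c.full.of_dvd (card_subgroup_dvd_card X)).cond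
    fun e => h4 (dvd_trans (by norm_num) e)) X X' rfl hX.symm
  have i3 := three_dvd_index hw w3
  have i3' := three_dvd_index hw' w3'
  have i6 := index_dvd_six (act B X)
  have i6' := index_dvd_six (act B' X')
  have i2 : 2 ∣ (act B X).ker.index ↔ 2 ∣ (act B' X').ker.index := by
    rw [← four_iff h h4, ← four_iff h' (hX ▸ h4)]
    exact ⟨fun ⟨x, hx⟩ => hx ▸ c.conf.exists_order x,
      fun ⟨x, hx⟩ => hx ▸ c.conf.symm.exists_order x⟩
  have l6 := Nat.le_of_dvd (by norm_num) i6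
  have l6' := Nat.le_of_dvd (by norm_num) i6'
  have p6 := Nat.pos_of_dvd_of_pos i6 (by norm_num)
  have p6' := Nat.pos_of_dvd_of_pos i6' (by norm_num)
  have hi : (act B X).ker.index = (act B' X').ker.index := by omega
  obtain ⟨α, hα⟩ : ∃ α : X ≃* X', ∀ x, x ∈ (act B X).ker ↔ α x ∈ (act B' X').ker := by
    by_cases h2 : 2 ∣ Nat.card X
    · have h9 : ¬ 9 ∣ Nat.card X := fun e => (c.full.2.2.2.2.2.2
        (hn ▸ Nat.mul_dvd_mul_left 4 h2)).1 (e.trans (card_subgroup_dvd_card X))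
      obtain ⟨α⟩ := rig fun d hd => Nat.eq_of_mul_eq_mul_left (by norm_num : 0 < 4) (by
        by_cases d2 : 2 ∣ d
        · obtain ⟨d, rfl⟩ := d2
          rw [mul_comm 2 d]
          have e1 := cnt_mul h (four_pow h h4 d)
          have e2 := cnt_mul h' (four_pow h' (hX ▸ h4) d)
          rw [← b4, ← e1, b4, ← b4', ← e2, c.conf _ (by omega)]
        · obtain ⟨k, m, hm, rfl⟩ := Nat.exists_eq_pow_mul_and_not_dvd (n := d) (by omega) 3
            (by norm_num)
          have m2 : ¬ 2 ∣ m := fun e => d2 (e.mul_left _)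
          rw [← cnt_odd h d2, ← cnt_odd h' d2, cnt_ker h h9 i3 m2 hm,
            cnt_ker h' (hX ▸ h9) i3' m2 hm, c.conf _ hd,
            c.conf m (Nat.pos_of_ne_zero fun e => hm (e ▸ dvd_zero 3))])
      refine ⟨α, mem_iff_of_coprime α hi (Nat.coprime_of_dvd fun q hq a b => ?_)⟩
      have e := Nat.mul_dvd_mul b a
      rw [index_mul_card] at e
      rcases (Nat.Prime.dvd_mul (m := 2) (n := 3) hq).1 (b.trans i6) with k | k
      · rw [(Nat.prime_dvd_prime_iff_eq hq Nat.prime_two).1 k] at e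
        exact h4 e
      · rw [(Nat.prime_dvd_prime_iff_eq hq Nat.prime_three).1 k] at e
        exact h9 e
    · have conf := (conformal_compl c.conf c.card h h' (b4.trans b4'.symm) (b4 ▸
        ((Nat.Prime.coprime_iff_not_dvd Nat.prime_two).2 h2).pow_left 2)).2
      obtain ⟨α⟩ := rig conf
      have n2 : ¬ 2 ∣ (act B X).ker.index := fun e => h2 (e.trans (index_dvd_card _))
      have e1 := cnt_odd h (d := 3) (by norm_num)
      have e2 := cnt_odd h' (d := 3) (by norm_num)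
      have e3 := conf 3 (by norm_num)
      have e4 := c.conf 3 (by norm_num)
      obtain ⟨θ, hθ⟩ := move_three h2 (hn ▸ c.full) (K := (act B X).ker)
        (K' := (act B' X').ker.comap α.toMonoidHom) (by omega)
        (by rw [index_comap_of_surjective _ α.surjective]; omega) (by
          have e5 : Nat.card {x : X // x ^ 3 = 1 ∧ x ∈ (act B' X').ker.comap α.toMonoidHom} =
              Nat.card {x : X' // x ^ 3 = 1 ∧ x ∈ (act B' X').ker} :=
            Nat.card_congr (α.toEquiv.subtypeEquiv fun x => and_congr_left fun _ => by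
              rw [MulEquiv.toEquiv_eq_coe, MulEquiv.coe_toEquiv, ← map_pow,
                MulEquiv.map_eq_one_iff])
          omega)
      exact ⟨θ.trans α, hθ⟩
  obtain ⟨β, hβ⟩ := beta_four (act B X) ((act B' X').comp α.toMonoidHom) hα hw w3
  obtain ⟨Φ, -⟩ := glue2 h h' α β hβ
  exact ⟨Φ⟩

end Pool.Agent.Lib.MP_cb9dee_al
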