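import Pool.Agent.Lib.MP_cb9dee_al.Full

namespace Pool.Agent.Lib.MP_cb9dee_al

open Subgroup

/-- The local data of `PSL(2, p)`; `k` and `m` are the orders of the even and of the odd torus. -/
structure Pack (L : Type) [Group L] (p k m : ℕ) : Prop where
  prime : p.Prime
  five : 5 ≤ p
  even : 2 ∣ k
  par : (p = 2 * k + 1 ∧ m = k + 1) ∨ (p + 1 = 2 * k ∧ m + 1 = k)
  card : Nat.card L = 2 * k * p * m
  simple : IsSimpleGroup L
  conj : ∀ s t : L, orderOf s = 2 → orderOf t = 2 → IsConj s t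
  cent : ∀ t : L, orderOf t = 2 → Nat.card (centralizer ({t} : Set L)) = 2 * k ∧
    ∃ K : Subgroup L, Nat.card K = k ∧ t ∈ K ∧ (∀ x ∈ K, ∀ y ∈ K, x * y = y * x) ∧
      (∀ x ∈ K, x * x = 1 → x = 1 ∨ x = t) ∧
      (∀ u, u * t = t * u → u ∉ K → u * u = 1 ∧ ∀ x ∈ K, u * x * u⁻¹ = x⁻¹) ∧
      (∀ x ∈ K, x ≠ 1 → x ≠ t → ∀ y, y * x = x * y → y ∈ K)
  pcent : ∀ x : L, orderOf x = p → ∀ y, y * x = x * y → y ∈ zpowers x
  pcard : Nat.card (Sylow p L) = p + 1
  torus : ∀ x : L, x ≠ 1 → (orderOf x).Coprime (k * p) →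
    ∃ A : Subgroup L, Nat.card A = m ∧ x ∈ A ∧ (∀ y ∈ A, ∀ z ∈ A, y * z = z * y) ∧
      (∀ y ∈ A, y ≠ 1 → ∀ g, g * y = y * g → g ∈ A) ∧
      ∃ u, u * u = 1 ∧ (∀ y ∈ A, u * y * u⁻¹ = y⁻¹) ∧
        ∀ g, (∀ y ∈ A, g * y * g⁻¹ ∈ A) → g ∈ A ∨ g * u ∈ A

/-- There is no subgroup isomorphic to the Klein four-group. -/
def NoFour (G : Type) [Group G] : Prop :=
  ∀ s t : G, s * s = 1 → t * t = 1 → s * t = t * s → s = 1 ∨ t = 1 ∨ s = t

/-- There is a normal `2`-complement. -/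
def TyI (G : Type) [Group G] : Prop :=
  ∃ O : Subgroup G, O.Normal ∧ ¬ 2 ∣ Nat.card O ∧ ∃ a, O.index = 2 ^ a

/-- A normal four-group with a nontrivial action of an element of odd order. -/
def TyII (G : Type) [Group G] : Prop :=
  ∃ B : Subgroup G, B.Normal ∧ Nat.card B = 4 ∧ (∀ x ∈ B, x * x = 1) ∧
    ∃ g : G, ¬ 2 ∣ orderOf g ∧ ∃ x ∈ B, g * x ≠ x * g

/-- A normal quaternion group with a nontrivial action of an element of odd order. -/
def TyIIIa (G : Type) [Group G] : Prop :=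
  NoFour G ∧ ∃ B : Subgroup G, B.Normal ∧ Nat.card B = 8 ∧
    ∃ g : G, ¬ 2 ∣ orderOf g ∧ ∃ x ∈ B, g * x ≠ x * g

/-- A normal elementary abelian group of order eight with a nontrivial action of order seven. -/
def TyIV (G : Type) [Group G] : Prop :=
  ∃ B : Subgroup G, B.Normal ∧ Nat.card B = 8 ∧ (∀ x ∈ B, x * x = 1) ∧
    ∃ g : G, (∀ x ∈ B, g ^ 7 * x = x * g ^ 7) ∧ ∃ x ∈ B, g * x ≠ x * g

/-- A normal subgroup with the local data of `PSL(2, p)`. -/
def TyV (G : Type) [Group G] (p : ℕ) : Prop :=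
  ∃ (L : Subgroup G) (k m : ℕ), L.Normal ∧ Pack L p k m

/-- A normal subgroup which is a double cover of a group with the local data of `PSL(2, p)`. -/
def TyVIa (G : Type) [Group G] (p : ℕ) : Prop :=
  NoFour G ∧ ∃ (M : Subgroup G) (z : M) (L : Type) (_ : Group L) (f : M →* L) (k m : ℕ),
    M.Normal ∧ orderOf z = 2 ∧ (∀ g : G, g * z = z * g) ∧ Function.Surjective f ∧
      f.ker = zpowers z ∧ Pack L p k m

/-- `f` is onto, and its kernel has order `r ^ 2` and is inverted by every involution. -/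
def Ext {G Q : Type} [Group G] [Group Q] (f : G →* Q) (r : ℕ) : Prop :=
  r.Prime ∧ r ≠ 2 ∧ Function.Surjective f ∧ Nat.card f.ker = r ^ 2 ∧
    ∀ z : G, orderOf z = 2 → ∀ x ∈ f.ker, z * x * z⁻¹ = x⁻¹

/-- An extension of a group of type `IIIa` by a faithful module of order `r ^ 2`. -/
def TyIIIb (G : Type) [Group G] : Prop :=
  NoFour G ∧ ∃ (Q : Type) (_ : Group Q) (f : G →* Q) (r : ℕ), Ext f r ∧ TyIIIa Q

/-- An extension of a group of type `VIa` by a faithful module of order `r ^ 2`. -/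
def TyVIb (G : Type) [Group G] (p : ℕ) : Prop :=
  NoFour G ∧ ∃ (Q : Type) (_ : Group Q) (f : G →* Q) (r : ℕ), Ext f r ∧ TyVIa Q p

/-- The list of types. -/
def ST (G : Type) [Group G] : Prop :=
  TyI G ∨ TyII G ∨ TyIIIa G ∨ TyIIIb G ∨ TyIV G ∨ (∃ p, TyV G p) ∨ (∃ p, TyVIa G p) ∨
    ∃ p, TyVIb G p

/-- All groups whose order is a proper divisor of the order of `G` are in the list. -/
def IH (G : Type) [Group G] : Prop :=
  ∀ (H : Type) [Group H] [Finite H], Nat.card H ∣ Nat.card G → Nat.card H < Nat.card G → ST H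

/-- The standing hypotheses on a pair of groups. -/
structure Pair (G H : Type) [Group G] [Group H] : Prop where
  conf : Conformal G H
  card : Nat.card G = Nat.card H
  four : 4 ∣ Nat.card G
  full : Full (Nat.card G)

lemma Acted.mono {q m n : ℕ} (h : m ∣ n) : Acted q m ⊆ Acted q n := by
  rintro p ⟨hp, ⟨h1, h2⟩ | ⟨h1, h2⟩⟩
  · exact ⟨hp, Or.inl ⟨h1.trans h, h2⟩⟩
  · exact ⟨hp, Or.inr ⟨h1.trans h, h2⟩⟩

lemma Full.of_dvd {m n : ℕ} (h : Full n) (hm : m ∣ n) : Full m := by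
  obtain ⟨h1, h2, h3, h4, h5, h6, h7⟩ := h
  refine ⟨fun p hp h2 h => h1 p hp h2 (h.trans hm),
    fun p q hp hq a b c => h2 p q hp hq a (b.trans hm) (c.trans hm),
    fun q hq a b => (h3 q hq a (b.trans hm)).anti (Acted.mono hm),
    fun a => (h4 (a.trans hm)).anti fun p hp => ⟨hp.1, hp.2.1.trans hm, hp.2.2⟩,
    fun a => (h5 (a.trans hm)).anti (Acted.mono hm), fun a => ?_, fun a => ?_⟩
  · obtain ⟨k1, k2, k3, k4, k5, k6⟩ := h6 (a.trans hm)
    exact ⟨fun b => k1 (b.trans hm), k2.anti fun p hp => ⟨hp.1, hp.2.1.trans hm, hp.2.2⟩,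
      fun p hp b c => k3 p hp b (c.trans hm),
      fun p q hp hq b c d e => k4 p q hp hq b c (d.trans hm) (e.trans hm),
      fun b => (k5 (b.trans hm)).anti fun p hp => ⟨hp.1, hp.2.1.trans hm, hp.2.2⟩,
      fun b p q r hp hq hr c d e f g => k6 (b.trans hm) p q r hp hq hr (c.trans hm) d
        (e.trans hm) f (g.trans hm)⟩
  · obtain ⟨k1, k2, k3, k4, k5⟩ := h7 (a.trans hm)
    exact ⟨fun b => k1 (b.trans hm),
      fun p q hp hq b c d e => k2 p q hp hq b c (d.trans hm) (e.trans hm),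
      fun p q hp hq b c d => k3 p q hp hq b (c.trans hm) (d.trans hm),
      fun p q r hp hq hr b c d e f g => k4 p q r hp hq hr b c d (e.trans hm) (f.trans hm)
        (g.trans hm),
      fun b p hp c => k5 (b.trans hm) p hp (c.trans hm)⟩

lemma Full.cond {n : ℕ} (h : Full n) (h8 : ¬ 8 ∣ n) : Cond n := by
  obtain ⟨h1, h2, h3, h4, h5, -, -⟩ := h
  refine ⟨fun p hp => ?_, fun p q hp hq a b c => ?_, h3, h4, h5⟩
  · by_cases e : p = 2
    · subst e; exact h8
    · exact h1 p hp e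
  · by_cases e : p = 2
    · subst e
      intro d
      exact hq.one_lt.ne' (Nat.dvd_one.1 d)
    · exact h2 p q hp hq a b c e

lemma Cond.full {n : ℕ} (h : Cond n) (h4 : ¬ 4 ∣ n) : Full n := by
  obtain ⟨h1, h2, h3, h5, h6⟩ := h
  exact ⟨fun p hp _ => h1 p hp, fun p q hp hq a b c _ => h2 p q hp hq a b c, h3, h5, h6,
    fun a => (h4 a).elim, fun a => (h4 ((by norm_num : (4 : ℕ) ∣ 8).trans a)).elim⟩

lemma Pair.symm {G H : Type} [Group G] [Group H] (c : Pair G H) : Pair H G :=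
  ⟨fun d hd => (c.conf d hd).symm, c.card.symm, c.card ▸ c.four, c.card ▸ c.full⟩

end Pool.Agent.Lib.MP_cb9dee_al
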